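import Pool.Agent.Lib.MP_adc574_ag_GP.GM

/-!
# Morphisms of cover data (helper90)

`CovD.Hm f X Y`: a morphism over the ring homomorphism `f : A →+* B`. `push`: the map of cochains.
It commutes with everything: `push_Dt`, `push_mem_Tt`, `push_mem_Fi`, `push_mem_Ni`, `push_Gm`.
-/

set_option autoImplicit false

namespace MPadcGP

universe u v w x y z

namespace CovD

variable {A : Type u} {B : Type w} {C : Type y} [CommRing A] [CommRing B] [CommRing C] {n : ℕ}

/-- A morphism of cover data over a ring homomorphism. -/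
structure Hm (f : A →+* B) (X : CovD.{u, v} A n) (Y : CovD.{w, x} B n) where
  /-- The ring homomorphisms. -/
  h : ∀ J : Finset (Fin n), X.R J →+* Y.R J
  base : ∀ (J : Finset (Fin n)) (a : A), h J (algebraMap A (X.R J) a) =
    algebraMap B (Y.R J) (f a)
  comm : ∀ {J K : Finset (Fin n)} (hJ : J ⊆ K) (r : X.R J), h K (X.ρ hJ r) = Y.ρ hJ (h J r)

namespace Hm

variable {f : A →+* B} {X : CovD.{u, v} A n} {Y : CovD.{w, x} B n} (F : Hm f X Y)

theorem cc (J : Finset (Fin n)) : CC A B (F.h J) := fun a => ⟨f a, F.base J a⟩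

/-- The map of forms. -/
noncomputable def e (J : Finset (Fin n)) : X.E J →+* Y.E J := mp (F.h J) (F.cc J)

/-- The map of cochains. -/
noncomputable def push : X.Ch →+ Y.Ch where
  toFun c J := F.e J (c J)
  map_zero' := by
    funext J
    exact map_zero _
  map_add' b c := by
    funext J
    exact map_add _ _ _

variable {F}

theorem push_apply (c : X.Ch) (J : Finset (Fin n)) : F.push c J = F.e J (c J) := rfl

theorem e_fz (J : Finset (Fin n)) (r : X.R J) : F.e J (fz A r) = fz B (F.h J r) := mp_fz _ _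

theorem e_df (J : Finset (Fin n)) (r : X.R J) : F.e J (df A r) = df B (F.h J r) := mp_df _ _

theorem e_dd (J : Finset (Fin n)) (c : X.E J) : F.e J (dd A c) = dd B (F.e J c) := mp_dd _ _

theorem e_inv (J : Finset (Fin n)) (c : X.E J) : F.e J (inv A c) = inv B (F.e J c) := mp_inv _ _

theorem e_mem {J : Finset (Fin n)} {q : ℕ} {c : X.E J} (hc : c ∈ Fd A (X.R J) q) :
    F.e J c ∈ Fd B (Y.R J) q := mp_mem _ hc

theorem e_smul (J : Finset (Fin n)) (a : A) (c : X.E J) : F.e J (a • c) = f a • F.e J c := by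
  rw [smul_fm, map_mul, e_fz, F.base, smul_fm]

theorem e_rs {J K : Finset (Fin n)} (h : J ⊆ K) (c : X.E J) :
    F.e K (X.rs h c) = Y.rs h (F.e J c) := by
  have h1 : (F.e K).comp (X.rs h) = (Y.rs h).comp (F.e J) := hom_ext' (fun r => by
    rw [RingHom.comp_apply (F.e K) (X.rs h), RingHom.comp_apply (Y.rs h) (F.e J), rs_fz, e_fz,
      e_fz, rs_fz, F.comm]) (fun t => by
    rw [RingHom.comp_apply (F.e K) (X.rs h), RingHom.comp_apply (Y.rs h) (F.e J), rs_df, e_df,
      e_df, rs_df, F.comm])
  have h2 := congrArg (fun g : X.E J →+* Y.E K => g c) h1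
  exact h2

theorem ev_push (c : X.Ch) (K J : Finset (Fin n)) : Y.ev (F.push c) K J = F.e J (X.ev c K J) := by
  unfold ev
  split_ifs with h
  · rw [push_apply, e_rs]
  · rw [map_zero]

theorem push_smul (a : A) (c : X.Ch) : F.push (a • c) = f a • F.push c := by
  funext J
  exact e_smul J a (c J)

theorem push_dc (c : X.Ch) : F.push (X.dc c) = Y.dc (F.push c) := by
  funext J
  exact e_dd J (c J)

theorem push_ic (c : X.Ch) : F.push (X.ic c) = Y.ic (F.push c) := by
  funext J
  exact e_inv J (c J)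

theorem push_del (c : X.Ch) : F.push (X.del c) = Y.del (F.push c) := by
  funext J
  rw [push_apply, del_apply, del_apply, map_sum]
  refine Finset.sum_congr rfl fun j _ => ?_
  rw [map_zsmul, ev_push]

theorem push_Dt (c : X.Ch) : F.push (X.Dt c) = Y.Dt (F.push c) := by
  rw [Dt_apply, Dt_apply, map_add, push_dc, push_del, push_ic]

theorem push_mem_Tt {m : ℕ} {c : X.Ch} (hc : c ∈ X.Tt m) : F.push c ∈ Y.Tt m := by
  refine ⟨by rw [push_apply, hc.1, map_zero], fun J => ⟨fun q hq => e_mem ((hc.2 J).1 q hq),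
    fun h => by rw [push_apply, (hc.2 J).2 h, map_zero]⟩⟩

theorem push_mem_Fi {i m : ℕ} {c : X.Ch} (hc : c ∈ X.Fi i m) : F.push c ∈ Y.Fi i m :=
  ⟨push_mem_Tt hc.1, fun J hJ => by rw [push_apply, hc.2 J hJ, map_zero]⟩

theorem push_mem_Ni {i m : ℕ} {c : X.Ch} (hc : c ∈ X.Ni i m) : F.push c ∈ Y.Ni i m :=
  ⟨push_mem_Tt hc.1, fun J => ⟨fun hJ => by rw [push_apply, (hc.2 J).1 hJ, map_zero], fun hJ => by
    rw [push_apply, ← e_dd, (hc.2 J).2 hJ, map_zero]⟩⟩

variable (F)

/-- Composition of morphisms. -/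
def comp {g : B →+* C} {Z : CovD.{y, z} C n} (G : Hm g Y Z) (F : Hm f X Y) : Hm (g.comp f) X Z where
  h J := (G.h J).comp (F.h J)
  base J a := by rw [RingHom.comp_apply, F.base, G.base, RingHom.comp_apply]
  comm hJ r := by rw [RingHom.comp_apply, F.comm, G.comm, RingHom.comp_apply]

variable {F}

theorem comp_push {g : B →+* C} {Z : CovD.{y, z} C n} (G : Hm g Y Z) (F : Hm f X Y) (c : X.Ch) :
    (G.comp F).push c = G.push (F.push c) := by
  funext J
  exact mp_comp (F.cc J) (G.cc J) ((G.comp F).cc J) (c J)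

end Hm

end CovD

section gm

variable {A : Type u} {B : Type w} [CommRing A] [CommRing B] {R : Type v} {S : Type x} [CommRing R]
  [CommRing S] [Algebra A R] [Algebra B S]

/-- The Lie derivative of a combination of derivations. -/
theorem mp_LL_comb {φ : R →+* S} (h : CC A B φ) {m : ℕ} (D : Fin m → Derivation ℤ R R)
    (α : Fin m → B) {D' : Derivation ℤ S S} (hD : ∀ l, PC A (D l)) (hD' : PC B D')
    (hc : ∀ x, D' (φ x) = ∑ l, algebraMap B S (α l) * φ (D l x)) (e : Fm A R) :
    LL B D' (mp φ h e) = ∑ l, α l • mp φ h (LL A (D l) e) := by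
  induction e using fm_ind with
  | h1 r =>
    rw [mp_fz, LL_fz B hD', hc, map_sum]
    refine Finset.sum_congr rfl fun l _ => ?_
    rw [LL_fz A (hD l), mp_fz, smul_fm, map_mul]
  | h2 t =>
    rw [mp_df, LL_df B hD', hc]
    have h1 : ∀ s : Finset (Fin m), df B (∑ l ∈ s, algebraMap B S (α l) * φ (D l t)) =
        ∑ l ∈ s, df B (algebraMap B S (α l) * φ (D l t)) := by
      intro s
      induction s using Finset.induction_on with
      | empty => rw [Finset.sum_empty, Finset.sum_empty, df_zero]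
      | insert a s ha ih => rw [Finset.sum_insert ha, Finset.sum_insert ha, df_add, ih]
    rw [h1]
    refine Finset.sum_congr rfl fun l _ => ?_
    rw [LL_df A (hD l), mp_df, smul_fm, df_mul, df_base, mul_zero, add_zero]
  | h3 a b ha hb =>
    rw [map_mul, LL_mul B hD', ha, hb, Finset.sum_mul, Finset.mul_sum, ← Finset.sum_add_distrib]
    refine Finset.sum_congr rfl fun l _ => ?_
    rw [LL_mul A (hD l), map_add, map_mul, map_mul, smul_add, smul_mul_assoc, mul_smul_comm]
  | h4 a b ha hb =>
    rw [map_add, map_add, ha, hb, ← Finset.sum_add_distrib]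
    refine Finset.sum_congr rfl fun l _ => ?_
    rw [map_add, map_add, smul_add]

/-- The contraction with a combination of vector fields. -/
theorem mp_cz_comb {φ : R →+* S} (h : CC A B φ) {m : ℕ} (D : Fin m → Derivation ℤ R R)
    (α : Fin m → B) {D' : Derivation ℤ S S} (hD : ∀ l, ∀ a : A, D l (algebraMap A R a) = 0)
    (hD' : ∀ b : B, D' (algebraMap B S b) = 0)
    (hc : ∀ x, D' (φ x) = ∑ l, algebraMap B S (α l) * φ (D l x)) (e : Fm A R) :
    cz B D' (mp φ h e) = ∑ l, α l • mp φ h (cz A (D l) e) := by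
  have hz : ∀ l (z : Fm A R), cz A (D l) z = ct A (toA A (D l) (hD l)) z := fun l z => cz_of (hD l) z
  induction e using fm_ind with
  | h1 r =>
    rw [mp_fz, cz_of hD', ct_fz]
    symm
    refine Finset.sum_eq_zero fun l _ => ?_
    rw [hz, ct_fz, map_zero, smul_zero]
  | h2 t =>
    rw [mp_df, cz_of hD', ct_df]
    change fz B (D' (φ t)) = _
    rw [hc, map_sum]
    refine Finset.sum_congr rfl fun l _ => ?_
    rw [hz, ct_df, mp_fz, smul_fm, map_mul]
    rfl
  | h3 a b ha hb =>
    rw [cz_of hD'] at ha hb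
    rw [map_mul, cz_of hD', ct_mul, ha, hb, Finset.sum_mul, Finset.mul_sum,
      ← Finset.sum_add_distrib]
    refine Finset.sum_congr rfl fun l _ => ?_
    rw [hz, hz, hz, ct_mul, map_add, map_mul, map_mul, smul_add, smul_mul_assoc, mul_smul_comm,
      mp_inv]
  | h4 a b ha hb =>
    rw [map_add, map_add, ha, hb, ← Finset.sum_add_distrib]
    refine Finset.sum_congr rfl fun l _ => ?_
    rw [map_add, map_add, smul_add]

end gm

namespace CovD.Hm

variable {A : Type u} {B : Type w} [CommRing A] [CommRing B] {n : ℕ} {f : A →+* B}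
  {X : CovD.{u, v} A n} {Y : CovD.{w, x} B n} {F : Hm f X Y}

/-- The connection and morphisms: the derivation `D'` of the base `B` restricts to the combination
`∑ α l D l` on `A`. -/
theorem push_Gm_comb {m : ℕ} {D : Fin m → Derivation ℤ A A} (V : ∀ l, Lft X (D l)) (α : Fin m → B)
    {D' : Derivation ℤ B B} (V' : Lft Y D')
    (hc : ∀ K J : Finset (Fin n), K.Nonempty → K ⊆ J → ∀ x : X.R J,
      V'.V K J (F.h J x) = ∑ l, algebraMap B (Y.R J) (α l) * F.h J ((V l).V K J x))
    {c : X.Ch} (h0 : c ∅ = 0) :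
    V'.Gm (F.push c) = ∑ l, α l • F.push ((V l).Gm c) := by
  have hL : V'.Lc (F.push c) = ∑ l, α l • F.push ((V l).Lc c) := by
    funext J
    rw [Finset.sum_apply]
    change LL B (V'.V J J) (F.e J (c J)) = ∑ l, α l • F.e J (LL A ((V l).V J J) (c J))
    rcases J.eq_empty_or_nonempty with hJ | hJ
    · subst hJ
      rw [h0, map_zero, map_zero]
      symm
      refine Finset.sum_eq_zero fun l _ => ?_
      rw [map_zero, map_zero, smul_zero]
    · have hr := Finset.Subset.refl J
      exact mp_LL_comb (F.cc J) (fun l => (V l).V J J) α (fun l => (V l).pc hJ hr) (V'.pc hJ hr)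
        (hc J J hJ hr) (c J)
  have h0' : X.ic c ∅ = 0 := by rw [ic_apply, h0, map_zero]
  have hI : V'.Ic (F.push (X.ic c)) = ∑ l, α l • F.push ((V l).Ic (X.ic c)) := by
    funext J
    rw [Finset.sum_apply, Lft.Ic_apply]
    have h1 : ∀ l, (α l • F.push ((V l).Ic (X.ic c))) J = ∑ j ∈ J, sg j J • (α l •
        F.e J (cz A ((V l).V (J.erase j) J - (V l).V J J) (X.ev (X.ic c) (J.erase j) J))) := by
      intro l
      change α l • F.e J ((V l).Ic (X.ic c) J) = _
      rw [Lft.Ic_apply, map_sum, Finset.smul_sum]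
      refine Finset.sum_congr rfl fun j _ => ?_
      rw [map_zsmul, smul_comm]
    rw [Finset.sum_congr rfl fun l _ => h1 l, Finset.sum_comm]
    refine Finset.sum_congr rfl fun j hj => ?_
    rw [← Finset.smul_sum, ev_push]
    congr 1
    rcases (J.erase j).eq_empty_or_nonempty with hK | hK
    · rw [hK, ev_eq_zero h0', map_zero, map_zero]
      symm
      refine Finset.sum_eq_zero fun l _ => ?_
      rw [map_zero, map_zero, smul_zero]
    · have hJ : J.Nonempty := ⟨j, hj⟩
      have hs : J.erase j ⊆ J := Finset.erase_subset j J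
      have hr := Finset.Subset.refl J
      refine mp_cz_comb (F.cc J) (fun l => (V l).V (J.erase j) J - (V l).V J J) α
        (fun l a => by
          rw [Derivation.sub_apply, (V l).base _ J hK hs, (V l).base J J hJ hr, sub_self])
        (fun b => by
          rw [Derivation.sub_apply, V'.base _ J hK hs, V'.base J J hJ hr, sub_self])
        (fun x => ?_) _
      rw [Derivation.sub_apply, hc _ J hK hs, hc J J hJ hr, ← Finset.sum_sub_distrib]
      refine Finset.sum_congr rfl fun l _ => ?_
      rw [Derivation.sub_apply, map_sub, mul_sub]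
  have h2 : ∀ l, α l • F.push ((V l).Gm c) = α l • F.push ((V l).Lc c) -
      α l • F.push ((V l).Ic (X.ic c)) := by
    intro l
    unfold Lft.Gm
    rw [map_sub, smul_sub]
  unfold Lft.Gm at h2 ⊢
  rw [hL, ← push_ic, hI, ← Finset.sum_sub_distrib]
  exact Finset.sum_congr rfl fun l _ => (h2 l).symm

/-- The connection and morphisms. -/
theorem push_Gm {D : Derivation ℤ A A} (V : Lft X D) {D' : Derivation ℤ B B} (V' : Lft Y D')
    (hc : ∀ K J : Finset (Fin n), K.Nonempty → K ⊆ J → ∀ x : X.R J,
      V'.V K J (F.h J x) = F.h J (V.V K J x)) {c : X.Ch} (h0 : c ∅ = 0) :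
    V'.Gm (F.push c) = F.push (V.Gm c) := by
  have h := push_Gm_comb (F := F) (fun _ : Fin 1 => V) (fun _ => (1 : B)) V' (fun K J hK hJ x => by
    rw [Fintype.sum_unique, map_one, one_mul, hc K J hK hJ]) h0
  rw [Fintype.sum_unique, one_smul] at h
  exact h

end CovD.Hm

end MPadcGP
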