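import Pool.Agent.Lib.MP_adc574_ag_GP.BC
import Pool.Agent.Lib.MP_adc574_ag_GP.Hom

/-!
# Base change in degree `q`, base change of cochains, flatness (helper90)

* `pl q`: the projection to the forms of degree `q`, linear over the base.
* `bc_fo`: base change of `FdO o` (`none`: zero, `some q`: the forms of degree `q`).
* `bc_ch`: base change of modules of cochains which are given by prescribed degrees.
* `flat_fo`: flatness for formally smooth flat algebras.
-/

set_option autoImplicit false

namespace MPadcGP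

open TensorProduct

universe u v w x y z

section pl

variable {A : Type u} {R : Type v} [CommRing A] [CommRing R] [Algebra A R]

theorem pj_smul (q : ℕ) (a : A) (e : Fm A R) : pj A q (a • e) = a • pj A q e := by
  induction e using homog_ind with
  | h0 => rw [smul_zero, map_zero, smul_zero]
  | h1 r e he =>
    have h1 : a • e ∈ Fd A R r := by
      rw [← algebraMap_smul R]
      exact Submodule.smul_mem _ _ he
    rcases eq_or_ne r q with rfl | h
    · rw [pj_of_mem he, pj_of_mem h1]
    · rw [pj_of_ne he h, pj_of_ne h1 h, smul_zero]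
  | h2 a b ha hb => rw [smul_add, map_add, ha, hb, map_add, smul_add]

theorem mp_pj {B : Type w} {S : Type x} [CommRing B] [CommRing S] [Algebra B S] {φ : R →+* S}
    (h : CC A B φ) (q : ℕ) (e : Fm A R) : mp φ h (pj A q e) = pj B q (mp φ h e) := by
  induction e using homog_ind with
  | h0 => rw [map_zero, map_zero, map_zero]
  | h1 r e he =>
    rcases eq_or_ne r q with rfl | hr
    · rw [pj_of_mem he, pj_of_mem (mp_mem h he)]
    · rw [pj_of_ne he hr, pj_of_ne (mp_mem h he) hr, map_zero]
  | h2 a b ha hb => rw [map_add, map_add, ha, hb, map_add, map_add]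

variable (A R)

/-- The forms of a prescribed degree, or zero. -/
noncomputable def FdO : Option ℕ → Submodule A (Fm A R)
  | none => ⊥
  | some q => (Fd A R q).restrictScalars A

variable {A R}

theorem mem_FdO_none {e : Fm A R} : e ∈ FdO A R none ↔ e = 0 := Submodule.mem_bot _

theorem mem_FdO_some {q : ℕ} {e : Fm A R} : e ∈ FdO A R (some q) ↔ e ∈ Fd A R q := Iff.rfl

variable (A R)

/-- The projection to the forms of degree `q`. -/
noncomputable def pl (q : ℕ) : Fm A R →ₗ[A] ↥(FdO A R (some q)) where
  toFun e := ⟨pj A q e, pj_mem q e⟩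
  map_add' a b := Subtype.ext (map_add _ _ _)
  map_smul' a e := Subtype.ext (pj_smul q a e)

end pl

section fo

variable {A : Type u} {B : Type w} [CommRing A] [CommRing B] [Algebra A B] {R : Type v}
  {S : Type x} [CommRing R] [CommRing S] [Algebra A R] [Algebra B S] {h : R →+* S}

theorem mp_mem_FdO (hb : HB A B h) (o : Option ℕ) {e : Fm A R} (he : e ∈ FdO A R o) :
    mp h hb.cc e ∈ FdO B S o := by
  cases o with
  | none => rw [mem_FdO_none] at he ⊢; rw [he, map_zero]
  | some q => exact mp_mem _ he

/-- The map of forms of the prescribed degree. -/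
noncomputable def mpo (hb : HB A B h) (o : Option ℕ) : ↥(FdO A R o) →+ ↥(FdO B S o) where
  toFun e := ⟨mp h hb.cc e, mp_mem_FdO hb o e.2⟩
  map_zero' := Subtype.ext (map_zero _)
  map_add' a b := Subtype.ext (map_add _ _ _)

theorem mpo_smul (hb : HB A B h) (o : Option ℕ) (a : A) (e : ↥(FdO A R o)) :
    mpo hb o (a • e) = algebraMap A B a • mpo hb o e := Subtype.ext (hb.mp_smul a e)

theorem bc_fo (hb : HB A B h) (hbij : Function.Bijective (bcr hb)) (o : Option ℕ) :
    Function.Bijective (bcl (mpo hb o) (mpo_smul hb o)) := by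
  cases o with
  | none =>
    have h1 : Subsingleton ↥(FdO A R none) := ⟨fun _ _ => Subtype.ext (by
      exact (mem_FdO_none.1 (Subtype.property _)).trans (mem_FdO_none.1 (Subtype.property _)).symm)⟩
    have h2 : Subsingleton ↥(FdO B S none) := ⟨fun _ _ => Subtype.ext (by
      exact (mem_FdO_none.1 (Subtype.property _)).trans (mem_FdO_none.1 (Subtype.property _)).symm)⟩
    have h3 : Subsingleton (B ⊗[A] ↥(FdO A R none)) := by
      refine ⟨fun a b => ?_⟩
      have h4 : ∀ x : B ⊗[A] ↥(FdO A R none), x = 0 := by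
        intro x
        induction x using TensorProduct.induction_on with
        | zero => rfl
        | tmul b m => rw [Subsingleton.elim m 0, TensorProduct.tmul_zero]
        | add x y hx hy => rw [hx, hy, add_zero]
      rw [h4 a, h4 b]
    exact ⟨fun a b _ => Subsingleton.elim a b, fun y => ⟨0, Subsingleton.elim _ _⟩⟩
  | some q =>
    have hbf := bcf_bijective hb hbij
    let i : ↥(FdO A R (some q)) →ₗ[A] Fm A R := (FdO A R (some q)).subtype
    have hi : ∀ x : B ⊗[A] ↥(FdO A R (some q)),
        (bcl (mpo hb (some q)) (mpo_smul hb _) x : Fm B S) = bcf hb (i.baseChange B x) := by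
      intro x
      induction x using TensorProduct.induction_on with
      | zero => simp
      | tmul b m =>
        rw [bcl_tmul, LinearMap.baseChange_tmul, bcf_tmul]
        rfl
      | add x y hx hy => rw [map_add, map_add, map_add, ← hx, ← hy]; rfl
    have hpi : (pl A R q).comp i = LinearMap.id := by
      ext e
      exact pj_of_mem e.2
    have hinj : Function.Injective (i.baseChange B) := by
      intro x y hxy
      have h1 : ∀ z, (pl A R q).baseChange B (i.baseChange B z) = z := by
        intro z
        rw [← LinearMap.comp_apply, ← LinearMap.baseChange_comp, hpi, LinearMap.baseChange_id,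
          LinearMap.id_apply]
      rw [← h1 x, hxy, h1]
    constructor
    · rw [injective_iff_map_eq_zero]
      intro x hx
      apply hinj
      rw [map_zero]
      apply hbf.1
      rw [map_zero, ← hi, hx]
      rfl
    · intro y
      obtain ⟨z, hz⟩ := hbf.2 (y : Fm B S)
      refine ⟨(pl A R q).baseChange B z, Subtype.ext ?_⟩
      rw [hi]
      have h1 : ∀ z : B ⊗[A] Fm A R, bcf hb (i.baseChange B ((pl A R q).baseChange B z)) =
          pj B q (bcf hb z) := by
        intro z
        induction z using TensorProduct.induction_on with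
        | zero => simp
        | tmul b m =>
          rw [LinearMap.baseChange_tmul, LinearMap.baseChange_tmul, bcf_tmul, bcf_tmul, pj_smul,
            ← mp_pj]
          rfl
        | add x y hx hy => rw [map_add, map_add, map_add, hx, hy, map_add, map_add]
      rw [h1, hz]
      exact pj_of_mem y.2

end fo

section flat

variable {A : Type u} {R : Type v} [CommRing A] [CommRing R] [Algebra A R]

/-- Exterior powers of projective modules are projective. -/
theorem projective_ext {M : Type*} [AddCommGroup M] [Module R M] [Module.Projective R M] (q : ℕ) :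
    Module.Projective R (⋀[R]^q M) := by
  obtain ⟨s, hs⟩ := Module.projective_def.1 (inferInstance : Module.Projective R M)
  have h1 : (Finsupp.linearCombination R _root_.id) ∘ₗ s = (LinearMap.id : M →ₗ[R] M) :=
    LinearMap.ext hs
  refine Module.Projective.of_split (exteriorPower.map q s)
    (exteriorPower.map q (Finsupp.linearCombination R (_root_.id : M → M))) ?_
  rw [← exteriorPower.map_comp, h1, exteriorPower.map_id]

theorem flat_fo [Module.Flat A R] [Algebra.FormallySmooth A R] (o : Option ℕ) :
    Module.Flat A ↥(FdO A R o) := by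
  cases o with
  | none =>
    have h1 : Subsingleton ↥(FdO A R none) := ⟨fun _ _ => Subtype.ext (by
      exact (mem_FdO_none.1 (Subtype.property _)).trans (mem_FdO_none.1 (Subtype.property _)).symm)⟩
    infer_instance
  | some q =>
    have h1 : Module.Projective R (⋀[R]^q (Ω[R⁄A])) := projective_ext q
    have h2 : Module.Flat R (⋀[R]^q (Ω[R⁄A])) := inferInstance
    have h3 : Module.Flat A (⋀[R]^q (Ω[R⁄A])) := Module.Flat.trans A R _
    exact h3

end flat

namespace CovD

section ch

variable {A : Type u} {B : Type w} [CommRing A] [CommRing B] [Algebra A B] {n : ℕ}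
  {X : CovD.{u, v} A n} {Y : CovD.{w, x} B n}

theorem Hm.hb (F : Hm (algebraMap A B) X Y) (J : Finset (Fin n)) : HB A B (F.h J) := F.base J

/-- The morphism is a base change (on the nonempty intersections). -/
def Hm.IsBC (F : Hm (algebraMap A B) X Y) : Prop :=
  ∀ J : Finset (Fin n), J.Nonempty → Function.Bijective (bcr (F.hb J))

/-- The restriction of `push` to modules of cochains. -/
noncomputable def Hm.pushT (F : Hm (algebraMap A B) X Y) (T : Submodule A X.Ch)
    (T' : Submodule B Y.Ch) (hT : ∀ c ∈ T, F.push c ∈ T') : ↥T →+ ↥T' where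
  toFun c := ⟨F.push c, hT c c.2⟩
  map_zero' := Subtype.ext (map_zero _)
  map_add' a b := Subtype.ext (map_add _ _ _)

theorem Hm.pushT_smul (F : Hm (algebraMap A B) X Y) (T : Submodule A X.Ch)
    (T' : Submodule B Y.Ch) (hT : ∀ c ∈ T, F.push c ∈ T') (a : A) (c : ↥T) :
    F.pushT T T' hT (a • c) = algebraMap A B a • F.pushT T T' hT c :=
  Subtype.ext (Hm.push_smul (F := F) a (c : X.Ch))

/-- Base change of a module of cochains with prescribed degrees. -/
theorem Hm.bc_ch (F : Hm (algebraMap A B) X Y) (hF : F.IsBC) (dg : Finset (Fin n) → Option ℕ)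
    (hdg : dg ∅ = none) (T : Submodule A X.Ch) (T' : Submodule B Y.Ch)
    (hT : ∀ c, c ∈ T ↔ ∀ J, c J ∈ FdO A (X.R J) (dg J))
    (hT' : ∀ c, c ∈ T' ↔ ∀ J, c J ∈ FdO B (Y.R J) (dg J)) :
    ∃ hm : ∀ c ∈ T, F.push c ∈ T', Function.Bijective (bcl (F.pushT T T' hm)
      (F.pushT_smul T T' hm)) := by
  have hm : ∀ c ∈ T, F.push c ∈ T' := fun c hc =>
    (hT' _).2 fun J => mp_mem_FdO (F.hb J) (dg J) ((hT c).1 hc J)
  refine ⟨hm, ?_⟩
  have hj : ∀ J, Function.Bijective (bcl (mpo (F.hb J) (dg J)) (mpo_smul (F.hb J) (dg J))) := by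
    intro J
    rcases J.eq_empty_or_nonempty with hJ | hJ
    · subst hJ
      rw [hdg]
      have h1 : Subsingleton ↥(FdO A (X.R ∅) none) := ⟨fun _ _ => Subtype.ext (by
        exact (mem_FdO_none.1 (Subtype.property _)).trans (mem_FdO_none.1 (Subtype.property _)).symm)⟩
      have h2 : Subsingleton ↥(FdO B (Y.R ∅) none) := ⟨fun _ _ => Subtype.ext (by
        exact (mem_FdO_none.1 (Subtype.property _)).trans (mem_FdO_none.1 (Subtype.property _)).symm)⟩
      have h4 : ∀ x : B ⊗[A] ↥(FdO A (X.R ∅) none), x = 0 := by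
        intro x
        induction x using TensorProduct.induction_on with
        | zero => rfl
        | tmul b m => rw [Subsingleton.elim m 0, TensorProduct.tmul_zero]
        | add x y hx hy => rw [hx, hy, add_zero]
      exact ⟨fun a b _ => by rw [h4 a, h4 b], fun y => ⟨0, Subsingleton.elim _ _⟩⟩
    · exact bc_fo (F.hb J) (hF J hJ) (dg J)
  let Φ : (∀ J, ↥(FdO A (X.R J) (dg J))) →+ ∀ J, ↥(FdO B (Y.R J) (dg J)) :=
    { toFun := fun c J => mpo (F.hb J) (dg J) (c J)
      map_zero' := by
        funext J
        exact map_zero _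
      map_add' := fun a b => by
        funext J
        exact map_add _ _ _ }
  have hΦs : ∀ (a : A) (c : ∀ J, ↥(FdO A (X.R J) (dg J))), Φ (a • c) = algebraMap A B a • Φ c := by
    intro a c
    funext J
    exact mpo_smul (F.hb J) (dg J) a (c J)
  have hbij := bcl_pi (fun J => mpo (F.hb J) (dg J)) (fun J => mpo_smul (F.hb J) (dg J)) hj Φ
    (fun c J => rfl) hΦs
  -- the equivalences with the products
  let E1 : ↥T ≃ₗ[A] (∀ J, ↥(FdO A (X.R J) (dg J))) :=
    { toFun := fun c J => ⟨(c : X.Ch) J, (hT _).1 c.2 J⟩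
      invFun := fun c => ⟨fun J => c J, (hT _).2 fun J => (c J).2⟩
      left_inv := fun c => rfl
      right_inv := fun c => rfl
      map_add' := fun a b => rfl
      map_smul' := fun a b => rfl }
  let E2 : ↥T' ≃ₗ[B] (∀ J, ↥(FdO B (Y.R J) (dg J))) :=
    { toFun := fun c J => ⟨(c : Y.Ch) J, (hT' _).1 c.2 J⟩
      invFun := fun c => ⟨fun J => c J, (hT' _).2 fun J => (c J).2⟩
      left_inv := fun c => rfl
      right_inv := fun c => rfl
      map_add' := fun a b => rfl
      map_smul' := fun a b => rfl }
  have hcomp : ∀ x : B ⊗[A] ↥T, bcl (F.pushT T T' hm) (F.pushT_smul T T' hm) x =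
      E2.symm (bcl Φ hΦs (E1.toLinearMap.baseChange B x)) := by
    intro x
    apply E2.injective
    rw [LinearEquiv.apply_symm_apply]
    induction x using TensorProduct.induction_on with
    | zero => simp only [map_zero]
    | tmul b m =>
      rw [bcl_tmul, LinearMap.baseChange_tmul, bcl_tmul]
      rfl
    | add x y hx hy => simp only [map_add, hx, hy]
  have hE : Function.Bijective (E1.toLinearMap.baseChange B) := by
    have h1 : (E1.toLinearMap.baseChange B) = (LinearEquiv.baseChange A B _ _ E1 : _ →ₗ[B] _) := rfl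
    rw [h1]
    exact (LinearEquiv.baseChange A B _ _ E1).bijective
  have h2 : (bcl (F.pushT T T' hm) (F.pushT_smul T T' hm) : B ⊗[A] ↥T → ↥T') =
      E2.symm ∘ (bcl Φ hΦs) ∘ (E1.toLinearMap.baseChange B) := funext hcomp
  rw [h2]
  exact E2.symm.bijective.comp (hbij.comp hE)

/-- The degrees of the cochains of total degree `m` in the step `i` of the Hodge filtration. -/
def dgF (n i m : ℕ) (J : Finset (Fin n)) : Option ℕ :=
  if J = ∅ ∨ m + 1 < J.card + i then none else some (m + 1 - J.card)

theorem dgF_empty (n i m : ℕ) : dgF n i m ∅ = none := by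
  unfold dgF
  rw [if_pos (Or.inl rfl)]

theorem mem_Fi_iff (X : CovD.{u, v} A n) (i m : ℕ) (c : X.Ch) :
    c ∈ X.Fi i m ↔ ∀ J, c J ∈ FdO A (X.R J) (dgF n i m J) := by
  constructor
  · intro hc J
    unfold dgF
    split_ifs with h
    · rw [mem_FdO_none]
      rcases h with h | h
      · rw [h, hc.1.1]
      · exact hc.2 J h
    · push Not at h
      exact (hc.1.2 J).1 _ (by omega)
  · intro hc
    have h1 : ∀ J, J = ∅ ∨ m + 1 < J.card + i → c J = 0 := by
      intro J h
      have h2 := hc J
      unfold dgF at h2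
      rw [if_pos h, mem_FdO_none] at h2
      exact h2
    have h3 : ∀ J, ¬ (J = ∅ ∨ m + 1 < J.card + i) → c J ∈ Fd A (X.R J) (m + 1 - J.card) := by
      intro J h
      have h2 := hc J
      unfold dgF at h2
      rw [if_neg h] at h2
      exact h2
    refine ⟨⟨h1 ∅ (Or.inl rfl), fun J => ⟨fun q hq => ?_, fun h => h1 J (Or.inr (by omega))⟩⟩,
      fun J hJ => h1 J (Or.inr hJ)⟩
    by_cases h : J = ∅ ∨ m + 1 < J.card + i
    · rw [h1 J h]
      exact Submodule.zero_mem _
    · have h2 := h3 J h
      have h4 : m + 1 - J.card = q := by omega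
      rwa [h4] at h2

/-- Base change of the steps of the Hodge filtration. -/
theorem Hm.bc_Fi (F : Hm (algebraMap A B) X Y) (hF : F.IsBC) (i m : ℕ) :
    Function.Bijective (bcl (F.pushT (X.Fi i m) (Y.Fi i m) fun _ hc => Hm.push_mem_Fi hc)
      (F.pushT_smul _ _ _)) := by
  obtain ⟨_, h⟩ := F.bc_ch hF (dgF n i m) (dgF_empty n i m) (X.Fi i m) (Y.Fi i m)
    (mem_Fi_iff X i m) (mem_Fi_iff Y i m)
  exact h

/-- Base change of the cochains of total degree `m`. -/
theorem Hm.bc_Tt (F : Hm (algebraMap A B) X Y) (hF : F.IsBC) (m : ℕ) :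
    Function.Bijective (bcl (F.pushT (X.Tt m) (Y.Tt m) fun _ hc => Hm.push_mem_Tt hc)
      (F.pushT_smul _ _ _)) := by
  obtain ⟨_, h⟩ := F.bc_ch hF (dgF n 0 m) (dgF_empty n 0 m) (X.Tt m) (Y.Tt m)
    (fun c => by rw [← Fi_zero]; exact mem_Fi_iff X 0 m c)
    (fun c => by rw [← Fi_zero]; exact mem_Fi_iff Y 0 m c)
  exact h

/-- Modules of cochains with prescribed degrees are flat. -/
theorem flat_ch (X : CovD.{u, v} A n)
    (hX : ∀ J : Finset (Fin n), J.Nonempty → Module.Flat A (X.R J) ∧
      Algebra.FormallySmooth A (X.R J)) (dg : Finset (Fin n) → Option ℕ)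
    (hdg : dg ∅ = none) (T : Submodule A X.Ch) (hT : ∀ c, c ∈ T ↔ ∀ J, c J ∈ FdO A (X.R J) (dg J)) :
    Module.Flat A ↥T := by
  let E1 : ↥T ≃ₗ[A] (∀ J, ↥(FdO A (X.R J) (dg J))) :=
    { toFun := fun c J => ⟨(c : X.Ch) J, (hT _).1 c.2 J⟩
      invFun := fun c => ⟨fun J => c J, (hT _).2 fun J => (c J).2⟩
      left_inv := fun c => rfl
      right_inv := fun c => rfl
      map_add' := fun a b => rfl
      map_smul' := fun a b => rfl }
  have h1 : ∀ J, Module.Flat A ↥(FdO A (X.R J) (dg J)) := by
    intro J
    rcases J.eq_empty_or_nonempty with hJ | hJ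
    · subst hJ
      rw [hdg]
      have h1 : Subsingleton ↥(FdO A (X.R ∅) none) := ⟨fun _ _ => Subtype.ext (by
        exact (mem_FdO_none.1 (Subtype.property _)).trans (mem_FdO_none.1 (Subtype.property _)).symm)⟩
      infer_instance
    · obtain ⟨h2, h3⟩ := hX J hJ
      exact flat_fo (dg J)
  have h2 : Module.Flat A (∀ J, ↥(FdO A (X.R J) (dg J))) := by
    classical
    exact Module.Flat.of_linearEquiv
      (DirectSum.linearEquivFunOnFintype A (Finset (Fin n)) fun J => ↥(FdO A (X.R J) (dg J))).symm
  exact Module.Flat.of_linearEquiv E1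

theorem flat_Fi (X : CovD.{u, v} A n)
    (hX : ∀ J : Finset (Fin n), J.Nonempty → Module.Flat A (X.R J) ∧
      Algebra.FormallySmooth A (X.R J)) (i m : ℕ) : Module.Flat A ↥(X.Fi i m) :=
  flat_ch X hX (dgF n i m) (dgF_empty n i m) (X.Fi i m) (mem_Fi_iff X i m)

theorem flat_Tt (X : CovD.{u, v} A n)
    (hX : ∀ J : Finset (Fin n), J.Nonempty → Module.Flat A (X.R J) ∧
      Algebra.FormallySmooth A (X.R J)) (m : ℕ) : Module.Flat A ↥(X.Tt m) :=
  flat_ch X hX (dgF n 0 m) (dgF_empty n 0 m) (X.Tt m)
    (fun c => by rw [← Fi_zero]; exact mem_Fi_iff X 0 m c)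

end ch

end CovD

end MPadcGP
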