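import Pool.Agent.Lib.MP_adc574_ag_GP.DR

/-!
# The inverse Cartier map (helper88)

`Zr A R`: the ring of closed forms; `Br A R`: the ideal of exact forms; `Hr A R`: the quotient.
`ga p A R : Fm A R →+* Hr A R` maps a function `r` to the class of `r ^ p` and `d t` to the class of
`t ^ (p - 1) d t` (for `A` of characteristic `p`).
-/

set_option autoImplicit false

namespace MPadcGP

universe u v w

section ZB

variable (A : Type u) (R : Type v) [CommRing A] [CommRing R] [Algebra A R]

/-- The ring of closed forms. -/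
noncomputable def Zr : Subring (Fm A R) where
  carrier := {e | dd A e = 0}
  mul_mem' := by
    intro a b ha hb
    have ha' : dd A a = 0 := ha
    have hb' : dd A b = 0 := hb
    change dd A (a * b) = 0
    rw [dd_mul, ha', hb', zero_mul, mul_zero, add_zero]
  one_mem' := dd_one A
  add_mem' := by
    intro a b ha hb
    have ha' : dd A a = 0 := ha
    have hb' : dd A b = 0 := hb
    change dd A (a + b) = 0
    rw [map_add, ha', hb', add_zero]
  zero_mem' := map_zero _
  neg_mem' := by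
    intro a ha
    have ha' : dd A a = 0 := ha
    change dd A (-a) = 0
    rw [map_neg, ha', neg_zero]

variable {A R}

theorem mem_Zr {e : Fm A R} : e ∈ Zr A R ↔ dd A e = 0 := Iff.rfl

variable (A R)

/-- The exact forms. -/
noncomputable def Br : Ideal (Zr A R) where
  carrier := {e | ∃ f, dd A f = (e : Fm A R)}
  add_mem' := by
    rintro a b ⟨f, hf⟩ ⟨g, hg⟩
    exact ⟨f + g, by rw [map_add, hf, hg]; rfl⟩
  zero_mem' := ⟨0, by rw [map_zero]; rfl⟩
  smul_mem' := by
    rintro z e ⟨f, hf⟩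
    refine ⟨inv A (z : Fm A R) * f, ?_⟩
    have hz : dd A (z : Fm A R) = 0 := z.2
    have h1 : dd A (inv A (z : Fm A R)) = 0 := by
      have h := inv_dd A (z : Fm A R)
      rw [hz, map_zero] at h
      exact neg_eq_zero.mp h.symm
    rw [dd_mul, h1, zero_mul, zero_add, inv_inv, hf]
    rfl

instance Br_isTwoSided : (Br A R).IsTwoSided where
  mul_mem_of_left := by
    rintro a b ⟨f, hf⟩
    refine ⟨f * (b : Fm A R), ?_⟩
    have hb : dd A (b : Fm A R) = 0 := b.2
    rw [dd_mul, hb, mul_zero, add_zero, hf]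
    rfl

variable {A R}

theorem mem_Br {e : Zr A R} : e ∈ Br A R ↔ ∃ f, dd A f = (e : Fm A R) := Iff.rfl

variable (A R)

/-- The de Rham cohomology ring of `R`. -/
abbrev Hr : Type _ := Zr A R ⧸ Br A R

variable {A R}

/-- The class of a closed form. -/
noncomputable def cl (e : Fm A R) (he : dd A e = 0) : Hr A R := Ideal.Quotient.mk (Br A R) ⟨e, he⟩

theorem cl_eq_iff {e f : Fm A R} (he : dd A e = 0) (hf : dd A f = 0) :
    cl e he = cl f hf ↔ ∃ g, dd A g = e - f := by
  unfold cl
  rw [Ideal.Quotient.eq]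
  exact Iff.rfl

theorem cl_eq_zero_iff {e : Fm A R} (he : dd A e = 0) : cl e he = 0 ↔ ∃ g, dd A g = e := by
  unfold cl
  rw [Ideal.Quotient.eq_zero_iff_mem]
  exact Iff.rfl

theorem dd_mul_zero {e f : Fm A R} (he : dd A e = 0) (hf : dd A f = 0) : dd A (e * f) = 0 := (Zr A R).mul_mem he hf

theorem dd_add_zero {e f : Fm A R} (he : dd A e = 0) (hf : dd A f = 0) : dd A (e + f) = 0 := (Zr A R).add_mem he hf

theorem cl_mul {e f : Fm A R} (he : dd A e = 0) (hf : dd A f = 0) :
    cl e he * cl f hf = cl (e * f) (dd_mul_zero he hf) := rfl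

theorem cl_add {e f : Fm A R} (he : dd A e = 0) (hf : dd A f = 0) :
    cl e he + cl f hf = cl (e + f) (dd_add_zero he hf) := rfl

theorem cl_surj (x : Hr A R) : ∃ (e : Fm A R) (he : dd A e = 0), x = cl e he := by
  obtain ⟨z, rfl⟩ := Ideal.Quotient.mk_surjective x
  exact ⟨z, z.2, rfl⟩

end ZB

section pow

variable {A : Type u} {R : Type v} [CommRing A] [CommRing R] [Algebra A R]

theorem df_pow_succ (t : R) (n : ℕ) : df A (t ^ (n + 1)) = (n + 1) • (fz A (t ^ n) * df A t) := by
  induction n with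
  | zero => rw [pow_zero, map_one, one_mul, zero_add, one_smul, pow_one]
  | succ n ih =>
    rw [pow_succ, df_mul, ih, pow_succ t n, map_mul, add_smul _ 1 (fz A (t ^ n) * fz A t * df A t), one_smul,
      mul_smul_comm, ← mul_assoc, ← map_mul, ← map_mul, mul_comm t (t ^ n)]
    abel

theorem df_pow_mul (t : R) (n : ℕ) : df A (t ^ n) * df A t = 0 := by
  cases n with
  | zero => rw [pow_zero, df_one, zero_mul]
  | succ n => rw [df_pow_succ, smul_mul_assoc, mul_assoc, df_sq, mul_zero, smul_zero]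

theorem df_nsmul (n : ℕ) (t : R) : df A (n • t) = n • df A t := by
  induction n with
  | zero => rw [zero_smul, zero_smul, df_zero]
  | succ n ih => rw [add_smul, add_smul, df_add, ih, one_smul, one_smul]

theorem df_sum {ι : Type*} (s : Finset ι) (f : ι → R) : df A (∑ i ∈ s, f i) = ∑ i ∈ s, df A (f i) := by
  classical
  induction s using Finset.induction_on with
  | empty => rw [Finset.sum_empty, Finset.sum_empty, df_zero]
  | insert a s ha ih => rw [Finset.sum_insert ha, Finset.sum_insert ha, df_add, ih]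

/-- `(s + t)^(p-1) d (s + t) - s^(p-1) d s - t^(p-1) d t` is exact. -/
theorem exists_carry (p : ℕ) (hp : p.Prime) (s t : R) :
    ∃ Q : R, df A Q = fz A ((s + t) ^ (p - 1)) * df A (s + t) - fz A (s ^ (p - 1)) * df A s -
      fz A (t ^ (p - 1)) * df A t := by
  obtain ⟨q, rfl⟩ : ∃ q, p = q + 1 := ⟨p - 1, by have := hp.pos; omega⟩
  rw [Nat.add_sub_cancel]
  have hdvd : ∀ i < q, (q + 1) ∣ (q + 1).choose (i + 1) := fun i hi =>
    hp.dvd_choose_self (Nat.succ_ne_zero i) (by omega)
  set c : ℕ → ℕ := fun i => (q + 1).choose (i + 1) / (q + 1) with hc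
  have hc1 : ∀ i < q, c i * (i + 1) = q.choose i := by
    intro i hi
    have h1 : c i * (q + 1) = (q + 1).choose (i + 1) := Nat.div_mul_cancel (hdvd i hi)
    have h2 : (q + 1) * q.choose i = (q + 1).choose (i + 1) * (i + 1) := Nat.add_one_mul_choose_eq q i
    have h3 : (q + 1) * (c i * (i + 1)) = (q + 1) * q.choose i := by
      rw [h2, ← h1]
      ring
    exact Nat.eq_of_mul_eq_mul_left (Nat.succ_pos q) h3
  have hc2 : ∀ i < q, c i * (q - i) = q.choose (i + 1) := by
    intro i hi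
    have h1 : c i * (q + 1) = (q + 1).choose (i + 1) := Nat.div_mul_cancel (hdvd i hi)
    have h2 : (q + 1) * q.choose (i + 1) = (q + 1).choose (i + 2) * (i + 2) := Nat.add_one_mul_choose_eq q (i + 1)
    have h4 : (q + 1).choose (i + 2) * (i + 2) = (q + 1).choose (i + 1) * (q + 1 - (i + 1)) :=
      Nat.choose_succ_right_eq (q + 1) (i + 1)
    have h5 : q + 1 - (i + 1) = q - i := by omega
    have h3 : (q + 1) * (c i * (q - i)) = (q + 1) * q.choose (i + 1) := by
      rw [h2, h4, ← h1, h5]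
      ring
    exact Nat.eq_of_mul_eq_mul_left (Nat.succ_pos q) h3
  refine ⟨∑ i ∈ Finset.range q, c i • (s ^ (i + 1) * t ^ (q - i)), ?_⟩
  have e1 : ∀ i ∈ Finset.range q, df A (c i • (s ^ (i + 1) * t ^ (q - i))) =
      fz A ((q.choose i : R) * (s ^ i * t ^ (q - i))) * df A s +
        fz A ((q.choose (i + 1) : R) * (s ^ (i + 1) * t ^ (q - (i + 1)))) * df A t := by
    intro i hi
    have hi' : i < q := Finset.mem_range.mp hi
    obtain ⟨k, hk⟩ : ∃ k, q - i = k + 1 := ⟨q - i - 1, by omega⟩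
    have hk' : q - (i + 1) = k := by omega
    rw [← hc1 i hi', ← hc2 i hi', df_nsmul, df_mul, df_pow_succ s i, hk, hk', df_pow_succ t k]
    rw [smul_add, mul_smul_comm, mul_smul_comm, smul_smul, smul_smul, ← mul_assoc, ← mul_assoc, ← map_mul, ← map_mul]
    rw [← smul_mul_assoc, ← smul_mul_assoc, ← map_nsmul, ← map_nsmul, add_comm]
    have g1 : (c i * (i + 1)) • (t ^ (k + 1) * s ^ i) = ((c i * (i + 1) : ℕ) : R) * (s ^ i * t ^ (k + 1)) := by
      rw [nsmul_eq_mul, mul_comm (t ^ (k + 1))]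
    have g2 : (c i * (k + 1)) • (s ^ (i + 1) * t ^ k) = ((c i * (k + 1) : ℕ) : R) * (s ^ (i + 1) * t ^ k) := by
      rw [nsmul_eq_mul]
    rw [g1, g2]
  rw [df_sum, Finset.sum_congr rfl e1, Finset.sum_add_distrib, ← Finset.sum_mul, ← Finset.sum_mul, ← map_sum, ← map_sum]
  have e2 : ∑ i ∈ Finset.range q, (q.choose i : R) * (s ^ i * t ^ (q - i)) = (s + t) ^ q - s ^ q := by
    rw [add_pow, Finset.sum_range_succ, Nat.choose_self, Nat.sub_self, pow_zero, mul_one, Nat.cast_one, mul_one,
      add_sub_cancel_right]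
    exact Finset.sum_congr rfl fun i _ => mul_comm _ _
  have e3 : ∑ i ∈ Finset.range q, (q.choose (i + 1) : R) * (s ^ (i + 1) * t ^ (q - (i + 1))) = (s + t) ^ q - t ^ q := by
    rw [add_pow, Finset.sum_range_succ', Nat.choose_zero_right, Nat.sub_zero, pow_zero, one_mul, Nat.cast_one, mul_one,
      add_sub_cancel_right]
    exact Finset.sum_congr rfl fun i _ => mul_comm _ _
  rw [e2, e3, df_add, map_sub, map_sub]
  noncomm_ring

end pow

section gamma

theorem cast_p_eq_zero (p : ℕ) (A : Type u) (R : Type v) [CommRing A] [CharP A p] [CommRing R] [Algebra A R] :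
    ((p : ℕ) : R) = 0 := by
  rw [← map_natCast (algebraMap A R), CharP.cast_eq_zero, map_zero]

theorem add_pow_p (p : ℕ) [hp : Fact p.Prime] (A : Type u) (R : Type v) [CommRing A] [CharP A p] [CommRing R]
    [Algebra A R] (r s : R) : (r + s) ^ p = r ^ p + s ^ p := by
  rw [add_pow_prime_eq hp.out, cast_p_eq_zero p A R, zero_mul, zero_mul, zero_mul, add_zero]

variable (p : ℕ) [hp : Fact p.Prime] (A : Type u) (R : Type v) [CommRing A] [CharP A p] [CommRing R] [Algebra A R]

theorem dd_fz_pow (r : R) : dd A (fz A (r ^ p)) = 0 := by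
  obtain ⟨q, hq⟩ : ∃ q, p = q + 1 := ⟨p - 1, by have := hp.out.pos; omega⟩
  rw [dd_fz]
  have h : df A (r ^ (q + 1)) = ((q + 1 : ℕ) : R) • (fz A (r ^ q) * df A r) := by
    rw [df_pow_succ, Nat.cast_smul_eq_nsmul]
  rw [hq, h, ← hq, cast_p_eq_zero p A R, zero_smul]

theorem dd_fz_df (r s : R) (n : ℕ) (hr : dd A (fz A r) = 0) : dd A (fz A r * (fz A (s ^ n) * df A s)) = 0 := by
  rw [dd_mul, hr, zero_mul, zero_add, dd_mul, dd_fz, dd_df, mul_zero, add_zero, df_pow_mul, mul_zero]

theorem dd_pow_df (s : R) (n : ℕ) : dd A (fz A (s ^ n) * df A s) = 0 := by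
  rw [dd_mul, dd_fz, dd_df, mul_zero, add_zero, df_pow_mul]

/-- `r ↦ r ^ p` -/
noncomputable def gaPhi : R →+* Hr A R where
  toFun r := cl (fz A (r ^ p)) (dd_fz_pow p A R r)
  map_one' := by
    have h : (fz A ((1 : R) ^ p)) = 1 := by rw [one_pow, map_one]
    exact congrArg (Ideal.Quotient.mk (Br A R)) (Subtype.ext h)
  map_mul' r s := by
    rw [cl_mul]
    have h : fz A ((r * s) ^ p) = fz A (r ^ p) * fz A (s ^ p) := by rw [mul_pow, map_mul]
    exact congrArg (Ideal.Quotient.mk (Br A R)) (Subtype.ext h)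
  map_zero' := by
    have h : (fz A ((0 : R) ^ p)) = 0 := by rw [zero_pow hp.out.ne_zero, map_zero]
    exact congrArg (Ideal.Quotient.mk (Br A R)) (Subtype.ext h)
  map_add' r s := by
    rw [cl_add]
    have h : fz A ((r + s) ^ p) = fz A (r ^ p) + fz A (s ^ p) := by rw [add_pow_p p A R, map_add]
    exact congrArg (Ideal.Quotient.mk (Br A R)) (Subtype.ext h)

/-- `t ↦ t ^ (p - 1) d t` -/
noncomputable def gaG : R →+ Hr A R where
  toFun t := cl (fz A (t ^ (p - 1)) * df A t) (dd_pow_df A R t _)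
  map_zero' := by
    have h : fz A ((0 : R) ^ (p - 1)) * df A (0 : R) = 0 := by rw [df_zero, mul_zero]
    exact congrArg (Ideal.Quotient.mk (Br A R)) (Subtype.ext h)
  map_add' s t := by
    rw [cl_add, cl_eq_iff]
    obtain ⟨Q, hQ⟩ := exists_carry (A := A) p hp.out s t
    exact ⟨fz A Q, by rw [dd_fz, hQ]; abel⟩

theorem ga_exists : ∃ F : Fm A R →+* Hr A R, (∀ r, F (fz A r) = gaPhi p A R r) ∧ ∀ t, F (df A t) = gaG p A R t := by
  have hcomm : ∀ (r : R) (x : Hr A R), gaPhi p A R r * x = x * gaPhi p A R r := by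
    intro r x
    obtain ⟨e, he, rfl⟩ := cl_surj x
    have h : fz A (r ^ p) * e = e * fz A (r ^ p) := fz_comm _ _
    exact congrArg (Ideal.Quotient.mk (Br A R)) (Subtype.ext h)
  have hprod : ∀ s t : R, (fz A (s ^ (p - 1)) * df A s) * (fz A (t ^ (p - 1)) * df A t) =
      fz A (s ^ (p - 1) * t ^ (p - 1)) * (df A s * df A t) := by
    intro s t
    rw [mul_assoc, ← mul_assoc (df A s), ← fz_comm (t ^ (p - 1)) (df A s), mul_assoc, ← mul_assoc, ← map_mul]
  refine exists_hom (gaPhi p A R) hcomm (gaG p A R) ?_ ?_ ?_ ?_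
  · intro r t
    have h : fz A ((r * t) ^ (p - 1)) * df A (r * t) =
        fz A (r ^ p) * (fz A (t ^ (p - 1)) * df A t) + fz A (t ^ p) * (fz A (r ^ (p - 1)) * df A r) := by
      obtain ⟨q, hq⟩ : ∃ q, p = q + 1 := ⟨p - 1, by have := hp.out.pos; omega⟩
      rw [df_mul, hq, Nat.add_sub_cancel, mul_add, ← mul_assoc, ← mul_assoc, ← mul_assoc, ← mul_assoc, ← map_mul,
        ← map_mul, ← map_mul, ← map_mul]
      congr 3 <;> ring
    exact congrArg (Ideal.Quotient.mk (Br A R)) (Subtype.ext h)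
  · intro a
    have h : fz A ((algebraMap A R a) ^ (p - 1)) * df A (algebraMap A R a) = 0 := by rw [df_base, mul_zero]
    exact congrArg (Ideal.Quotient.mk (Br A R)) (Subtype.ext h)
  · intro s t
    have h : (fz A (s ^ (p - 1)) * df A s) * (fz A (t ^ (p - 1)) * df A t) +
        (fz A (t ^ (p - 1)) * df A t) * (fz A (s ^ (p - 1)) * df A s) = 0 := by
      rw [hprod, hprod, mul_comm (t ^ (p - 1)), df_swap t s, mul_neg, add_neg_cancel]
    exact congrArg (Ideal.Quotient.mk (Br A R)) (Subtype.ext h)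
  · intro s
    have h : (fz A (s ^ (p - 1)) * df A s) * (fz A (s ^ (p - 1)) * df A s) = 0 := by
      rw [hprod, df_sq, mul_zero]
    exact congrArg (Ideal.Quotient.mk (Br A R)) (Subtype.ext h)

/-- The inverse Cartier map. -/
noncomputable def ga : Fm A R →+* Hr A R := (ga_exists p A R).choose

theorem ga_fz (r : R) : ga p A R (fz A r) = cl (fz A (r ^ p)) (dd_fz_pow p A R r) := (ga_exists p A R).choose_spec.1 r

theorem ga_df (t : R) : ga p A R (df A t) = cl (fz A (t ^ (p - 1)) * df A t) (dd_pow_df A R t _) :=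
  (ga_exists p A R).choose_spec.2 t

end gamma

end MPadcGP
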