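import Pool.Agent.Lib.MP_adc574_ag_GP.DRm
import Pool.Agent.Lib.MP_adc574_ag_GP.Gam

/-!
# Representatives of the inverse Cartier map (helper88)

`pj q`: the component of degree `q` of a form. `exq q`: the exact forms of degree `q` (with a primitive of degree
`q - 1`). `Rep p x z`: the form `z` is closed and its class is `ga p A R x`.
-/

set_option autoImplicit false

namespace MPadcGP

universe u v w x

section pj

variable (A : Type u) {R : Type v} [CommRing A] [CommRing R] [Algebra A R]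

/-- The component of degree `q`. -/
noncomputable def pj (q : ℕ) : Fm A R →+ Fm A R := GradedRing.proj (fun i : ℕ => ⋀[R]^i (Ω[R⁄A])) q

variable {A}

theorem pj_mem (q : ℕ) (e : Fm A R) : pj A q e ∈ Fd A R q := SetLike.coe_mem _

theorem pj_of_mem {q : ℕ} {e : Fm A R} (he : e ∈ Fd A R q) : pj A q e = e :=
  DirectSum.decompose_of_mem_same (fun i : ℕ => ⋀[R]^i (Ω[R⁄A])) he

theorem pj_of_ne {q r : ℕ} {e : Fm A R} (he : e ∈ Fd A R r) (h : r ≠ q) : pj A q e = 0 :=
  DirectSum.decompose_of_mem_ne (fun i : ℕ => ⋀[R]^i (Ω[R⁄A])) he h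

/-- Induction on homogeneous forms. -/
theorem homog_ind {P : Fm A R → Prop} (h0 : P 0) (h1 : ∀ (q : ℕ) (e : Fm A R), e ∈ Fd A R q → P e)
    (h2 : ∀ a b, P a → P b → P (a + b)) (e : Fm A R) : P e := by
  induction e using DirectSum.Decomposition.inductionOn (fun i : ℕ => ⋀[R]^i (Ω[R⁄A])) with
  | zero => exact h0
  | homogeneous m => exact h1 _ _ m.2
  | add a b ha hb => exact h2 a b ha hb

theorem pj_dd_succ (q : ℕ) (e : Fm A R) : pj A (q + 1) (dd A e) = dd A (pj A q e) := by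
  induction e using homog_ind with
  | h0 => rw [map_zero, map_zero, map_zero, map_zero]
  | h1 r e he =>
    rcases eq_or_ne r q with rfl | h
    · rw [pj_of_mem he, pj_of_mem (dd_mem he)]
    · rw [pj_of_ne he h, pj_of_ne (dd_mem he) (fun h' => h (Nat.succ_injective h')), map_zero]
  | h2 a b ha hb => rw [map_add, map_add, ha, hb, map_add, map_add]

theorem pj_dd_zero (e : Fm A R) : pj A 0 (dd A e) = 0 := by
  induction e using homog_ind with
  | h0 => rw [map_zero, map_zero]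
  | h1 r e he => rw [pj_of_ne (dd_mem he) (Nat.succ_ne_zero r)]
  | h2 a b ha hb => rw [map_add, map_add, ha, hb, add_zero]

variable (A R)

/-- The exact forms of degree `q` (with a primitive of degree `q - 1`). -/
noncomputable def exq : ℕ → AddSubgroup (Fm A R)
  | 0 => ⊥
  | q + 1 => (Fd A R q).toAddSubgroup.map (dd A)

variable {A R}

theorem mem_exq_zero {e : Fm A R} : e ∈ exq A R 0 ↔ e = 0 := AddSubgroup.mem_bot

theorem mem_exq_succ {q : ℕ} {e : Fm A R} : e ∈ exq A R (q + 1) ↔ ∃ f ∈ Fd A R q, dd A f = e := Iff.rfl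

theorem exq_le {q : ℕ} {e : Fm A R} (he : e ∈ exq A R q) : e ∈ Fd A R q := by
  cases q with
  | zero =>
    rw [mem_exq_zero.mp he]
    exact Submodule.zero_mem _
  | succ q =>
    obtain ⟨f, hf, rfl⟩ := mem_exq_succ.mp he
    exact dd_mem hf

theorem exq_closed {q : ℕ} {e : Fm A R} (he : e ∈ exq A R q) : dd A e = 0 := by
  cases q with
  | zero => rw [mem_exq_zero.mp he, map_zero]
  | succ q =>
    obtain ⟨f, hf, rfl⟩ := mem_exq_succ.mp he
    rw [dd_dd]

theorem exq_exact {q : ℕ} {e : Fm A R} (he : e ∈ exq A R q) : ∃ f, dd A f = e := by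
  cases q with
  | zero => exact ⟨0, by rw [mem_exq_zero.mp he, map_zero]⟩
  | succ q =>
    obtain ⟨f, hf, rfl⟩ := mem_exq_succ.mp he
    exact ⟨f, rfl⟩

/-- An exact form of degree `q` has a primitive of degree `q - 1`. -/
theorem mem_exq_of_exact {q : ℕ} {e : Fm A R} (he : e ∈ Fd A R q) (h : ∃ f, dd A f = e) : e ∈ exq A R q := by
  obtain ⟨f, rfl⟩ := h
  cases q with
  | zero =>
    rw [mem_exq_zero, ← pj_of_mem he, pj_dd_zero]
  | succ q =>
    refine mem_exq_succ.mpr ⟨pj A q f, pj_mem q f, ?_⟩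
    rw [← pj_dd_succ, pj_of_mem he]

theorem exq_smul {q : ℕ} (a : A) {e : Fm A R} (he : e ∈ exq A R q) : a • e ∈ exq A R q := by
  cases q with
  | zero =>
    rw [mem_exq_zero.mp he, smul_zero]
    exact zero_mem _
  | succ q =>
    obtain ⟨f, hf, rfl⟩ := mem_exq_succ.mp he
    refine mem_exq_succ.mpr ⟨a • f, ?_, dd_smul A a f⟩
    rw [← algebraMap_smul R]
    exact Submodule.smul_mem _ _ hf

theorem mp_exq {B : Type w} {S : Type x} [CommRing B] [CommRing S] [Algebra B S] {φ : R →+* S}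
    (h : CC A B φ) {q : ℕ} {e : Fm A R} (he : e ∈ exq A R q) : mp φ h e ∈ exq B S q := by
  cases q with
  | zero =>
    rw [mem_exq_zero.mp he, map_zero]
    exact zero_mem _
  | succ q =>
    obtain ⟨f, hf, rfl⟩ := mem_exq_succ.mp he
    exact mem_exq_succ.mpr ⟨mp φ h f, mp_mem h hf, (mp_dd h f).symm⟩

end pj

section Rep

variable (p : ℕ) [hp : Fact p.Prime] {A : Type u} {R : Type v} [CommRing A] [CharP A p] [CommRing R] [Algebra A R]

/-- `z` is closed and its class is the image of `x` by the inverse Cartier map. -/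
def Rep (x z : Fm A R) : Prop := ∃ hz : dd A z = 0, cl z hz = ga p A R x

variable {p}

theorem Rep.closed {x z : Fm A R} (h : Rep p x z) : dd A z = 0 := h.1

theorem Rep.zero : Rep p (0 : Fm A R) 0 := ⟨map_zero _, by rw [map_zero, cl_eq_zero_iff]; exact ⟨0, map_zero _⟩⟩

theorem Rep.of_exact {z : Fm A R} (h : ∃ g, dd A g = z) : Rep p (0 : Fm A R) z := by
  have hz : dd A z = 0 := by
    obtain ⟨g, rfl⟩ := h
    exact dd_dd A g
  refine ⟨hz, ?_⟩
  rw [map_zero, cl_eq_zero_iff]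
  exact h

theorem Rep.exact_sub {x z z' : Fm A R} (h : Rep p x z) (h' : Rep p x z') : ∃ g, dd A g = z - z' := by
  obtain ⟨hz, e⟩ := h
  obtain ⟨hz', e'⟩ := h'
  exact (cl_eq_iff hz hz').mp (e.trans e'.symm)

theorem Rep.exact {z : Fm A R} (h : Rep p (0 : Fm A R) z) : ∃ g, dd A g = z := by
  have := h.exact_sub Rep.zero
  rwa [sub_zero] at this

theorem Rep.add {x y z w : Fm A R} (h : Rep p x z) (h' : Rep p y w) : Rep p (x + y) (z + w) := by
  obtain ⟨hz, e⟩ := h
  obtain ⟨hw, e'⟩ := h'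
  refine ⟨dd_add_zero hz hw, ?_⟩
  rw [map_add, ← e, ← e']
  rfl

theorem Rep.mul {x y z w : Fm A R} (h : Rep p x z) (h' : Rep p y w) : Rep p (x * y) (z * w) := by
  obtain ⟨hz, e⟩ := h
  obtain ⟨hw, e'⟩ := h'
  refine ⟨dd_mul_zero hz hw, ?_⟩
  rw [map_mul, ← e, ← e']
  rfl

theorem Rep.neg {x z : Fm A R} (h : Rep p x z) : Rep p (-x) (-z) := by
  obtain ⟨hz, e⟩ := h
  have h1 : dd A (-z) = 0 := by rw [map_neg, hz, neg_zero]
  have h2 : cl (-z) h1 = -cl z hz := rfl
  refine ⟨h1, ?_⟩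
  rw [h2, e, ← map_neg]

theorem Rep.sub {x y z w : Fm A R} (h : Rep p x z) (h' : Rep p y w) : Rep p (x - y) (z - w) := by
  rw [sub_eq_add_neg, sub_eq_add_neg]
  exact h.add h'.neg

theorem Rep.fz (r : R) : Rep p (fz A r) (fz A (r ^ p)) := ⟨dd_fz_pow p A R r, (ga_fz p A R r).symm⟩

theorem Rep.df (t : R) : Rep p (df A t) (MPadcGP.fz A (t ^ (p - 1)) * MPadcGP.df A t) :=
  ⟨dd_pow_df A R t _, (ga_df p A R t).symm⟩

theorem Rep.sum {ι : Type*} (s : Finset ι) {x z : ι → Fm A R} (h : ∀ i ∈ s, Rep p (x i) (z i)) :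
    Rep p (∑ i ∈ s, x i) (∑ i ∈ s, z i) := by
  classical
  induction s using Finset.induction_on with
  | empty =>
    rw [Finset.sum_empty, Finset.sum_empty]
    exact Rep.zero
  | insert a s ha ih =>
    rw [Finset.sum_insert ha, Finset.sum_insert ha]
    exact (h a (Finset.mem_insert_self a s)).add (ih fun i hi => h i (Finset.mem_insert_of_mem hi))

theorem Rep.nsmul (n : ℕ) {x z : Fm A R} (h : Rep p x z) : Rep p (n • x) (n • z) := by
  induction n with
  | zero =>
    rw [zero_smul, zero_smul]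
    exact Rep.zero
  | succ n ih =>
    rw [add_smul, add_smul, one_smul, one_smul]
    exact ih.add h

theorem Rep.zsmul (n : ℤ) {x z : Fm A R} (h : Rep p x z) : Rep p (n • x) (n • z) := by
  obtain ⟨k, rfl | rfl⟩ := n.eq_nat_or_neg
  · rw [natCast_zsmul, natCast_zsmul]
    exact h.nsmul k
  · rw [neg_smul, neg_smul, natCast_zsmul, natCast_zsmul]
    exact (h.nsmul k).neg

theorem Rep.wd {q : ℕ} (t : Fin q → R) : Rep p (wd A t) (MPadcGP.fz A (∏ i, t i ^ (p - 1)) * MPadcGP.wd A t) := by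
  induction q with
  | zero =>
    rw [wd_zero, Fin.prod_univ_zero, map_one, mul_one]
    have h := Rep.fz (p := p) (A := A) (1 : R)
    rwa [one_pow, map_one] at h
  | succ q ih =>
    have h := (Rep.df (p := p) (A := A) (t 0)).mul (ih (Fin.tail t))
    rw [wd_succ]
    have e : MPadcGP.fz A (∏ i, t i ^ (p - 1)) * (MPadcGP.df A (t 0) * MPadcGP.wd A (Fin.tail t)) =
        MPadcGP.fz A (t 0 ^ (p - 1)) * MPadcGP.df A (t 0) *
          (MPadcGP.fz A (∏ i, Fin.tail t i ^ (p - 1)) * MPadcGP.wd A (Fin.tail t)) := by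
      have e0 : ∏ i : Fin q, t i.succ ^ (p - 1) = ∏ i, Fin.tail t i ^ (p - 1) := rfl
      rw [Fin.prod_univ_succ, e0, map_mul, mul_assoc, mul_assoc, ← mul_assoc (MPadcGP.fz A (∏ i, Fin.tail t i ^ (p - 1))),
        fz_comm (∏ i, Fin.tail t i ^ (p - 1)) (MPadcGP.df A (t 0)), mul_assoc]
    rw [e]
    exact h

/-- A form of degree `q` has a representative of degree `q`. -/
theorem Rep.exists {q : ℕ} {x : Fm A R} (hx : x ∈ Fd A R q) : ∃ z ∈ Fd A R q, Rep p x z := by
  refine fd_ind (P := fun x => ∃ z ∈ Fd A R q, Rep p x z) ?_ ?_ ?_ hx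
  · exact ⟨0, Submodule.zero_mem _, Rep.zero⟩
  · intro r t
    exact ⟨_, fz_mul_mem _ (fz_mul_mem _ (wd_mem t)), (Rep.fz r).mul (Rep.wd t)⟩
  · rintro a b ⟨z, hz, h⟩ ⟨w, hw, h'⟩
    exact ⟨z + w, Submodule.add_mem _ hz hw, h.add h'⟩

theorem Rep.inv {q : ℕ} {x z : Fm A R} (hx : x ∈ Fd A R q) (hz : z ∈ Fd A R q) (h : Rep p x z) :
    Rep p (inv A x) (inv A z) := by
  rw [inv_mem hx, inv_mem hz]
  rcases neg_one_pow_eq_or (Fm A R) q with e | e
  · rw [e, one_mul, one_mul]
    exact h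
  · rw [e, neg_mul, neg_mul, one_mul, one_mul]
    exact h.neg

theorem Rep.smul (a : A) {x z : Fm A R} (h : Rep p x z) : Rep p (a • x) (a ^ p • z) := by
  have e : ∀ (a : A) (x : Fm A R), a • x = MPadcGP.fz A (algebraMap A R a) * x := fun a x => by
    rw [← fz_smul, algebraMap_smul]
  rw [e, e, map_pow]
  exact (Rep.fz _).mul h

/-- Functoriality. -/
theorem Rep.map {B : Type w} {S : Type x} [CommRing B] [CharP B p] [CommRing S] [Algebra B S] {φ : R →+* S}
    (h : CC A B φ) {x z : Fm A R} (hx : Rep p x z) : Rep p (mp φ h x) (mp φ h z) := by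
  have key : ∀ x : Fm A R, ∃ z, Rep p x z ∧ Rep p (mp φ h x) (mp φ h z) := by
    intro x
    induction x using fm_ind with
    | h1 r =>
      refine ⟨_, Rep.fz r, ?_⟩
      rw [mp_fz, mp_fz, map_pow]
      exact Rep.fz _
    | h2 t =>
      refine ⟨_, Rep.df t, ?_⟩
      rw [map_mul, mp_df, mp_fz, map_pow]
      exact Rep.df _
    | h3 a b ha hb =>
      obtain ⟨z, h1, h2⟩ := ha
      obtain ⟨w, h3, h4⟩ := hb
      refine ⟨z * w, h1.mul h3, ?_⟩
      rw [map_mul, map_mul]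
      exact h2.mul h4
    | h4 a b ha hb =>
      obtain ⟨z, h1, h2⟩ := ha
      obtain ⟨w, h3, h4⟩ := hb
      refine ⟨z + w, h1.add h3, ?_⟩
      rw [map_add, map_add]
      exact h2.add h4
  obtain ⟨w, h1, h2⟩ := key x
  obtain ⟨g, hg⟩ := hx.exact_sub h1
  have e : mp φ h z = mp φ h w + dd B (mp φ h g) := by
    rw [← mp_dd, hg, ← map_add]
    congr 1
    abel
  have h3 := h2.add (Rep.of_exact (p := p) ⟨mp φ h g, rfl⟩)
  rw [add_zero, ← e] at h3
  exact h3

end Rep

end MPadcGP
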