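import Pool.Agent.Lib.MP_adc574_ag_CM.KeyB
import Pool.Agent.Lib.MP_adc574_ag_GM.Fields
import Pool.Agent.Lib.MP_adc574_ag_GM.Ultra

/-!
# The key theorem with side conditions, and its version for all large primes (helper90)

`H` is a finite dimensional space over the algebraically closed field `k` with a connection `nab`,
`b` a basis of `H` defined over the ring `A` (`j : A → k`), `F` the span of a part of `b`.

* `IsDecS T T' ω`: `ω = l 1 ∧ … ∧ l r ≠ 0`, the `l v` kill `T` and their span contains `T'`.
* `GPS nab F r T T'`: general position with side conditions.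
* `key_gps`: one differential field `L`.
* `key_large`: residue fields of all large characteristics.
-/

set_option autoImplicit false

namespace MPadcGP

open MPadcCM MPadcGM

universe u v

section

variable {k : Type u} [Field k] {H : Type v} [AddCommGroup H] [Module k H]

/-- The alternating form `ω` is nonzero and decomposable, `ω = l 1 ∧ … ∧ l r`, where the functionals
`l v` vanish on `T` and their span contains `T'`. -/
def IsDecS {r : ℕ} (T : Set H) (T' : Set (H →ₗ[k] k)) (ω : H [⋀^Fin r]→ₗ[k] k) : Prop :=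
  ω ≠ 0 ∧ ∃ l : Fin r → H →ₗ[k] k,
    (∀ f : Fin r → H, ω f = (Matrix.of fun v u => l v (f u)).det) ∧
    (∀ v, ∀ t ∈ T, l v t = 0) ∧ ∀ τ ∈ T', τ ∈ Submodule.span k (Set.range l)

/-- General position of the subspace `F` with respect to the connection, with side conditions: every
horizontal space of alternating `r`-forms which contains a nonzero decomposable form
`l 1 ∧ … ∧ l r`, where the `l v` vanish on `T` and their span contains `T'`, contains a form which
does not vanish on `F`. -/
def GPS (nab : Derivation ℤ k k → H →+ H) (F : Submodule k H) (r : ℕ) (T : Set H)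
    (T' : Set (H →ₗ[k] k)) : Prop :=
  ∀ W : Submodule k (H [⋀^Fin r]→ₗ[k] k), IsHor nab W → ∀ ω₀ ∈ W, IsDecS T T' ω₀ →
    ∃ ω ∈ W, ∃ f : Fin r → H, (∀ u, f u ∈ F) ∧ ω f ≠ 0

theorem GPS.mono {nab : Derivation ℤ k k → H →+ H} {F : Submodule k H} {r : ℕ} {T₁ T₂ : Set H}
    {T'₁ T'₂ : Set (H →ₗ[k] k)} (h : GPS nab F r T₁ T'₁) (h1 : T₁ ⊆ T₂) (h2 : T'₁ ⊆ T'₂) :
    GPS nab F r T₂ T'₂ := by
  intro W hW ω₀ hω₀ hdec
  obtain ⟨hne, l, hl1, hl2, hl3⟩ := hdec
  exact h W hW ω₀ hω₀ ⟨hne, l, hl1, fun v t ht => hl2 v t (h1 ht), fun τ hτ => hl3 τ (h2 hτ)⟩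

end

section

variable {A k L : Type u} [CommRing A] [Field k] [Field L] {j : A →+* k} {ι : A →+* L}

/-- The functional with the coordinates `τ`. -/
noncomputable def fcn {I : Type} {H : Type v} [AddCommGroup H] [Module k H]
    (j : A →+* k) (b : Module.Basis I k H) (τ : I → A) : H →ₗ[k] k :=
  b.constr k fun a => j (τ a)

theorem mk_decS [IsAlgClosed k] (hj : Function.Injective j) (hι : Function.Injective ι) {r : ℕ}
    {I : Type} [Fintype I] (c : Fin r → I → L)
    (hci : ∀ lam : Fin r → L, (∀ a, ∑ v, lam v * c v a = 0) → lam = 0)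
    {H : Type v} [AddCommGroup H] [Module k H] (b : Module.Basis I k H)
    {S S' : Type*} (t : S → I → A) (ht : ∀ v s, ∑ a, ι (t s a) * c v a = 0)
    (τ : S' → I → A) (hτ : ∀ s, ∃ x : Fin r → L, ∀ a, ι (τ s a) = ∑ v, x v * c v a) :
    ∃ ω ∈ Mk j ι c b, IsDecS (Set.range fun s => cls j b (t s)) (Set.range fun s => fcn j b (τ s)) ω := by
  classical
  obtain ⟨L', _, e, e', hee⟩ := exists_comp hj hι
  let _ : Algebra k L' := e'.toAlgebra
  have hee' : ∀ a, e (ι a) = algebraMap k L' (j a) := hee
  obtain ⟨g, hg⟩ := exists_minor c hci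
  obtain ⟨x', hx1, hx2⟩ := exists_point (k := k) (fun q : Fin r × I => e (c q.1 q.2))
    (Matrix.of fun v u => MvPolynomial.X (v, g u) : Matrix (Fin r) (Fin r)
      (MvPolynomial (Fin r × I) k)).det (by
      rw [AlgHom.map_det]
      have h1 : (MvPolynomial.aeval fun q : Fin r × I => e (c q.1 q.2)).mapMatrix
          (Matrix.of fun v u => (MvPolynomial.X (v, g u) : MvPolynomial (Fin r × I) k)) =
          e.mapMatrix (Matrix.of fun v u => c v (g u)) := by
        ext v u
        rw [AlgHom.mapMatrix_apply, Matrix.map_apply, Matrix.of_apply, MvPolynomial.aeval_X,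
          RingHom.mapMatrix_apply, Matrix.map_apply, Matrix.of_apply]
      rw [h1, ← RingHom.map_det]
      exact (map_ne_zero e).2 hg)
  refine ⟨wdg fun v => b.constr k fun a => x' (v, a), ?_, ?_, _, fun f => wdg_apply _ f, ?_, ?_⟩
  · rw [mem_mk]
    intro S _ β P h
    have h1 := hx2 (∑ s, MvPolynomial.C (j (β s)) * (Matrix.of fun v u =>
      ∑ a, MvPolynomial.C (j (P s u a)) * MvPolynomial.X (v, a) :
        Matrix (Fin r) (Fin r) (MvPolynomial (Fin r × I) k)).det) (by
      rw [map_sum]
      have h2 : ∀ s, MvPolynomial.aeval (fun q : Fin r × I => e (c q.1 q.2))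
          (MvPolynomial.C (j (β s)) * (Matrix.of fun v u =>
            ∑ a, MvPolynomial.C (j (P s u a)) * MvPolynomial.X (v, a) :
            Matrix (Fin r) (Fin r) (MvPolynomial (Fin r × I) k)).det) =
          e (ι (β s) * Lam ι c (P s)) := by
        intro s
        rw [map_mul, AlgHom.map_det, map_mul, MvPolynomial.aeval_C, hee']
        congr 1
        unfold Lam
        rw [RingHom.map_det]
        congr 1
        ext v u
        rw [AlgHom.mapMatrix_apply, Matrix.map_apply, Matrix.of_apply, RingHom.mapMatrix_apply,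
          Matrix.map_apply, Matrix.of_apply, map_sum, map_sum]
        refine Finset.sum_congr rfl fun a _ => ?_
        rw [map_mul, map_mul, MvPolynomial.aeval_C, MvPolynomial.aeval_X, hee']
      rw [Finset.sum_congr rfl fun s _ => h2 s, ← map_sum, h, map_zero])
    rw [map_sum] at h1
    rw [← h1]
    refine Finset.sum_congr rfl fun s _ => ?_
    rw [map_mul, AlgHom.map_det, MvPolynomial.aeval_C, wdg_apply]
    congr 2
    ext v u
    rw [AlgHom.mapMatrix_apply, Matrix.map_apply, Matrix.of_apply, Matrix.of_apply, map_sum]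
    unfold cls
    rw [map_sum]
    refine Finset.sum_congr rfl fun a _ => ?_
    rw [map_smul, Module.Basis.constr_basis, map_mul, MvPolynomial.aeval_C, MvPolynomial.aeval_X,
      smul_eq_mul]
    rfl
  · intro h0
    apply hx1
    have h1 : wdg (fun v => b.constr k fun a => x' (v, a)) (fun u => b (g u)) = 0 := by
      rw [h0, AlternatingMap.zero_apply]
    rw [AlgHom.map_det, ← h1, wdg_apply]
    congr 1
    ext v u
    rw [AlgHom.mapMatrix_apply, Matrix.map_apply, Matrix.of_apply, Matrix.of_apply,
      MvPolynomial.aeval_X, Module.Basis.constr_basis]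
  · -- the functionals kill the classes `t`
    rintro v _ ⟨s, rfl⟩
    have h1 := hx2 (∑ a, MvPolynomial.C (j (t s a)) * MvPolynomial.X (v, a)) (by
      rw [map_sum]
      have h2 : ∀ a, MvPolynomial.aeval (fun q : Fin r × I => e (c q.1 q.2))
          (MvPolynomial.C (j (t s a)) * MvPolynomial.X (v, a)) = e (ι (t s a) * c v a) := by
        intro a
        rw [map_mul, MvPolynomial.aeval_C, MvPolynomial.aeval_X, map_mul, hee']
      rw [Finset.sum_congr rfl fun a _ => h2 a, ← map_sum, ht, map_zero])
    unfold cls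
    rw [map_sum, ← h1, map_sum]
    refine Finset.sum_congr rfl fun a _ => ?_
    rw [map_smul, Module.Basis.constr_basis, map_mul, MvPolynomial.aeval_C, MvPolynomial.aeval_X,
      smul_eq_mul]
    rfl
  · -- the functionals `τ` are in the span
    rintro _ ⟨s, rfl⟩
    obtain ⟨x, hx⟩ := hτ s
    -- the polynomial matrix
    let M : Matrix (Fin r) (Fin r) (MvPolynomial (Fin r × I) k) :=
      Matrix.of fun v u => MvPolynomial.X (v, g u)
    let y : Fin r → MvPolynomial (Fin r × I) k := fun u => MvPolynomial.C (j (τ s (g u)))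
    let C₀ : Matrix (Fin r) (Fin r) L := Matrix.of fun v u => c v (g u)
    let M' : Matrix (Fin r) (Fin r) k := Matrix.of fun v u => x' (v, g u)
    have hxy : Matrix.vecMul x C₀ = fun u => ι (τ s (g u)) := by
      funext u
      rw [hx]
      simp only [Matrix.vecMul, dotProduct]
      rfl
    have hadj : Matrix.vecMul (fun u => ι (τ s (g u))) C₀.adjugate = C₀.det • x := by
      rw [← hxy, Matrix.vecMul_vecMul, Matrix.mul_adjugate, Matrix.vecMul_smul, Matrix.vecMul_one]
    have hrel : ∀ a, C₀.det * ι (τ s a) =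
        ∑ v, Matrix.vecMul (fun u => ι (τ s (g u))) C₀.adjugate v * c v a := by
      intro a
      rw [hadj, hx, Finset.mul_sum]
      refine Finset.sum_congr rfl fun v _ => ?_
      rw [Pi.smul_apply, smul_eq_mul, mul_assoc]
    have hMe : (MvPolynomial.aeval fun q : Fin r × I => e (c q.1 q.2)).mapMatrix M =
        e.mapMatrix C₀ := by
      ext v u
      rw [AlgHom.mapMatrix_apply, Matrix.map_apply]
      exact MvPolynomial.aeval_X _ _
    have hMx : (MvPolynomial.aeval x').mapMatrix M = M' := by
      ext v u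
      rw [AlgHom.mapMatrix_apply, Matrix.map_apply]
      exact MvPolynomial.aeval_X _ _
    have hdet' : M'.det ≠ 0 := by
      rw [← hMx, ← AlgHom.map_det]
      exact hx1
    have hrel' : ∀ a, M'.det * j (τ s a) =
        ∑ v, Matrix.vecMul (fun u => j (τ s (g u))) M'.adjugate v * x' (v, a) := by
      intro a
      have h1 := hx2 (M.det * MvPolynomial.C (j (τ s a)) -
        ∑ v, Matrix.vecMul y M.adjugate v * MvPolynomial.X (v, a)) (by
        rw [map_sub, map_mul, AlgHom.map_det, hMe, ← RingHom.map_det, MvPolynomial.aeval_C,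
          map_sum, ← hee', ← map_mul, hrel, map_sum, sub_eq_zero]
        refine Finset.sum_congr rfl fun v _ => ?_
        rw [map_mul, map_mul, MvPolynomial.aeval_X]
        congr 1
        simp only [Matrix.vecMul, dotProduct, map_sum, map_mul]
        refine Finset.sum_congr rfl fun u _ => ?_
        have h3 : (MvPolynomial.aeval fun q : Fin r × I => e (c q.1 q.2)) (M.adjugate u v) =
            e (C₀.adjugate u v) := by
          have h4 : (MvPolynomial.aeval fun q : Fin r × I => e (c q.1 q.2)).mapMatrix M.adjugate =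
              e.mapMatrix C₀.adjugate := by
            rw [AlgHom.map_adjugate, hMe, RingHom.map_adjugate]
          exact congrFun (congrFun h4 u) v
        rw [h3, MvPolynomial.aeval_C, hee'])
      rw [map_sub, map_mul, AlgHom.map_det, hMx, MvPolynomial.aeval_C, map_sum, sub_eq_zero] at h1
      refine h1.trans ?_
      refine Finset.sum_congr rfl fun v _ => ?_
      rw [map_mul, MvPolynomial.aeval_X]
      congr 1
      simp only [Matrix.vecMul, dotProduct, map_sum, map_mul]
      refine Finset.sum_congr rfl fun u _ => ?_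
      have h3 : (MvPolynomial.aeval x') (M.adjugate u v) = M'.adjugate u v := by
        have h4 : (MvPolynomial.aeval x').mapMatrix M.adjugate = M'.adjugate := by
          rw [AlgHom.map_adjugate, hMx]
        exact congrFun (congrFun h4 u) v
      rw [h3, MvPolynomial.aeval_C]
      rfl
    have h2 : fcn j b (τ s) = ∑ v, (M'.det⁻¹ * Matrix.vecMul (fun u => j (τ s (g u))) M'.adjugate v) •
        (b.constr k fun a => x' (v, a)) := by
      apply b.ext
      intro a
      rw [fcn, Module.Basis.constr_basis, LinearMap.sum_apply]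
      have h5 : ∀ v, ((M'.det⁻¹ * Matrix.vecMul (fun u => j (τ s (g u))) M'.adjugate v) •
          (b.constr k fun a => x' (v, a))) (b a) =
          M'.det⁻¹ * (Matrix.vecMul (fun u => j (τ s (g u))) M'.adjugate v * x' (v, a)) := by
        intro v
        rw [LinearMap.smul_apply, Module.Basis.constr_basis, smul_eq_mul, mul_assoc]
      rw [Finset.sum_congr rfl fun v _ => h5 v, ← Finset.mul_sum, ← hrel', inv_mul_cancel_left₀ hdet']
    change fcn j b (τ s) ∈ _
    rw [h2]
    exact Submodule.sum_mem _ fun v _ => Submodule.smul_mem _ _ (Submodule.subset_span ⟨v, rfl⟩)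

/-- The key theorem with side conditions, for one differential field. -/
theorem key_gps [IsAlgClosed k] (hj : Function.Injective j) (hι : Function.Injective ι) {I : Type}
    [Fintype I] {H : Type v} [AddCommGroup H] [Module k H] (b : Module.Basis I k H)
    {nab : Derivation ℤ k k → H →+ H} (hnab : IsConn nab) {m : ℕ}
    (D : Fin m → Derivation ℤ A A) (Δ : Fin m → Derivation ℤ L L)
    (hΔ : ∀ l x, Δ l (ι x) = ι (D l x)) (G : Fin m → I → I → A)
    (hDk : ∀ D' : Derivation ℤ k k, ∃ α : Fin m → k, (∀ x, D' (j x) = ∑ l, α l * j (D l x)) ∧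
      ∀ a, nab D' (b a) = ∑ a', (∑ l, α l * j (G l a' a)) • b a')
    {V : Type} [Fintype V] [DecidableEq V] (c : V → I → L)
    (hcD : ∀ l, ∃ ν : V → V → L, ∀ v a,
      Δ l (c v a) = ∑ a', ι (G l a' a) * c v a' + ∑ v', ν v v' * c v' a)
    (hci : ∀ lam : V → L, (∀ a, ∑ v, lam v * c v a = 0) → lam = 0)
    {S S' : Type*} (t : S → I → A) (ht : ∀ v s, ∑ a, ι (t s a) * c v a = 0)
    (τ : S' → I → A) (hτ : ∀ s, ∃ x : V → L, ∀ a, ι (τ s a) = ∑ v, x v * c v a)
    (f : V → I → A) (hf : LinearIndependent k fun u => ∑ a, j (f u a) • b a)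
    (hGP : GPS nab (Submodule.span k (Set.range fun u => ∑ a, j (f u a) • b a)) (Fintype.card V)
      (Set.range fun s => cls j b (t s)) (Set.range fun s => fcn j b (τ s))) :
    (Matrix.of fun v u => ∑ a, ι (f u a) * c v a).det ≠ 0 := by
  classical
  intro h0
  let q : Fin (Fintype.card V) ≃ V := (Fintype.equivFin V).symm
  have hci' : ∀ lam : Fin (Fintype.card V) → L, (∀ a, ∑ v, lam v * c (q v) a = 0) → lam = 0 := by
    intro lam hlam
    have h2 := hci (fun v => lam (q.symm v)) (fun x => by
      rw [← hlam x]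
      exact (Fintype.sum_equiv q _ _ fun v' => by rw [Equiv.symm_apply_apply]).symm)
    funext v
    have h3 := congrFun h2 (q v)
    simpa using h3
  obtain ⟨ω₀, hω₀, hdec⟩ := mk_decS hj hι (fun v => c (q v)) hci' b t (fun v s => ht (q v) s) τ
    (fun s => by
      obtain ⟨x, hx⟩ := hτ s
      refine ⟨fun v => x (q v), fun a => ?_⟩
      rw [hx]
      exact (Fintype.sum_equiv q _ _ fun v' => rfl).symm)
  have hhor : IsHor nab (Mk j ι (fun v => c (q v)) b) :=
    mk_hor hnab D Δ hΔ G hDk fun l => by
      obtain ⟨ν, hν⟩ := hcD l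
      refine ⟨fun v v' => ν (q v) (q v'), fun v a => ?_⟩
      rw [hν (q v) a]
      congr 1
      exact (Fintype.sum_equiv q _ _ fun v' => rfl).symm
  obtain ⟨ω, hω, f', hf', hne⟩ := hGP _ hhor ω₀ hω₀ hdec
  apply hne
  have h1 : ω (fun u => ∑ a, j (f (q u) a) • b a) = 0 := by
    have h2 := (mem_mk j ι _ b ω).1 hω Unit (fun _ => 1) (fun _ u => f (q u)) (by
      rw [Fintype.sum_unique]
      have h3 : Lam ι (fun v => c (q v)) (fun u => f (q u)) = 0 := by
        unfold Lam
        rw [← h0]
        exact Matrix.det_submatrix_equiv_self q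
          (Matrix.of fun v u => ∑ a, ι (f u a) * c v a)
      rw [h3, mul_zero])
    rw [Fintype.sum_unique, map_one, one_mul] at h2
    exact h2
  have hrange : (Set.range fun u : Fin (Fintype.card V) => ∑ a, j (f (q u) a) • b a) =
      Set.range fun u => ∑ a, j (f u a) • b a := by
    exact q.surjective.range_comp fun u => ∑ a, j (f u a) • b a
  refine vanish_span ω _ (hf.comp q q.injective) h1 f' fun u => ?_
  have h5 := hf' u
  rw [← hrange] at h5
  exact h5

end

section

/-- Residue fields of `A` of all large characteristics to which the derivations extend. -/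
structure ResFields (A : Type u) [CommRing A] (L : ℕ → Type u) [∀ p, Field (L p)]
    (φ : ∀ p, A →+* L p) (B : A → ℕ) : Prop where
  char : ∀ p : ℕ, p.Prime → B 0 < p → CharP (L p) p
  der : ∀ p : ℕ, p.Prime → B 0 < p → ∀ D : Derivation ℤ A A,
    ∃ dl : Derivation ℤ (L p) (L p), ∀ a, dl (φ p a) = φ p (D a)
  ne : ∀ p : ℕ, p.Prime → B 0 < p → ∀ b, b ≠ 0 → B b < p → φ p b ≠ 0

private structure ResF (A : Type u) [CommRing A] where
  L : Type u
  fld : Field L
  f : A →+* L

theorem exists_resFields (A : Type u) [CommRing A] [IsDomain A] [CharZero A]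
    [Algebra.FiniteType ℤ A] :
    ∃ (L : ℕ → Type u) (_ : ∀ p, Field (L p)) (φ : ∀ p, A →+* L p) (B : A → ℕ),
      ResFields A L φ B := by
  classical
  obtain ⟨B, hB⟩ := MPadcGM.exists_fields A
  have h : ∀ p : ℕ, ∃ S : ResF A, p.Prime → B 0 < p →
      (letI := S.fld; CharP S.L p ∧
        (∀ D : Derivation ℤ A A, ∃ dl : Derivation ℤ S.L S.L, ∀ a, dl (S.f a) = S.f (D a)) ∧
        ∀ b, b ≠ 0 → B b < p → S.f b ≠ 0) := by
    intro p
    by_cases hp : p.Prime ∧ B 0 < p
    · obtain ⟨kp, i, φ, h1, h2, h3⟩ := hB p hp.1 hp.2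
      exact ⟨⟨kp, i, φ⟩, fun _ _ => ⟨h1, h2, h3⟩⟩
    · exact ⟨⟨FractionRing A, inferInstance, algebraMap A (FractionRing A)⟩,
        fun h1 h2 => absurd ⟨h1, h2⟩ hp⟩
  choose S hS using h
  let i : ∀ p, Field (S p).L := fun p => (S p).fld
  exact ⟨fun p => (S p).L, i, fun p => (S p).f, B,
    ⟨fun p h1 h2 => (hS p h1 h2).1, fun p h1 h2 => (hS p h1 h2).2.1,
      fun p h1 h2 => (hS p h1 h2).2.2⟩⟩

/-- The key theorem for all large primes: independent functionals `c v` in characteristic `p` whose
span is stable under the dual connection and which satisfy the side conditions have a nonzero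
determinant on the vectors `f u`. -/
theorem key_large {A : Type u} [CommRing A] {k : Type u} [Field k] [IsAlgClosed k] {j : A →+* k}
    (hj : Function.Injective j) {L : ℕ → Type u} [∀ p, Field (L p)] {φ : ∀ p, A →+* L p}
    {B : A → ℕ} (hB : ResFields A L φ B) {I : Type}
    [Fintype I] {H : Type v} [AddCommGroup H] [Module k H] (b : Module.Basis I k H)
    {nab : Derivation ℤ k k → H →+ H} (hnab : IsConn nab) {m : ℕ}
    (D : Fin m → Derivation ℤ A A) (G : Fin m → I → I → A)
    (hDk : ∀ D' : Derivation ℤ k k, ∃ α : Fin m → k, (∀ x, D' (j x) = ∑ l, α l * j (D l x)) ∧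
      ∀ a, nab D' (b a) = ∑ a', (∑ l, α l * j (G l a' a)) • b a')
    {V : Type} [Fintype V] [DecidableEq V] {S S' : Type*} (t : S → I → A) (τ : S' → I → A)
    (f : V → I → A) (hf : LinearIndependent k fun u => ∑ a, j (f u a) • b a)
    (hGP : GPS nab (Submodule.span k (Set.range fun u => ∑ a, j (f u a) • b a)) (Fintype.card V)
      (Set.range fun s => cls j b (t s)) (Set.range fun s => fcn j b (τ s))) :
    ∃ p₀ : ℕ, ∀ p : ℕ, p.Prime → p₀ < p → ∀ c : V → I → L p,
      (∀ lam : V → L p, (∀ a, ∑ v, lam v * c v a = 0) → lam = 0) →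
      (∀ l, ∃ δ : Derivation ℤ (L p) (L p), (∀ x, δ (φ p x) = φ p (D l x)) ∧
        ∃ ν : V → V → L p, ∀ v a,
          δ (c v a) = ∑ a', φ p (G l a' a) * c v a' + ∑ v', ν v v' * c v' a) →
      (∀ v s, ∑ a, φ p (t s a) * c v a = 0) →
      (∀ s, ∃ x : V → L p, ∀ a, φ p (τ s a) = ∑ v, x v * c v a) →
      (Matrix.of fun v u => ∑ a, φ p (f u a) * c v a).det ≠ 0 := by
  classical
  by_contra hcon
  push Not at hcon
  choose p hpp hpi c hc1 hc2 hc3 hc4 hbad using fun i => hcon (i + B 0)
  have hbp : ∀ i, B 0 < p i := fun i => by have := hpi i; omega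
  have hip : ∀ i, i < p i := fun i => by have := hpi i; omega
  choose δ hδ ν hν using hc2
  choose x hx using hc4
  let U : Ultrafilter ℕ := Filter.hyperfilter ℕ
  let K : ℕ → Type u := fun i => L (p i)
  let ψ : ∀ i, A →+* K i := fun i => φ (p i)
  have hge : ∀ n : ℕ, ∀ᶠ i in (U : Filter ℕ), n ≤ i := by
    intro n
    apply Filter.hyperfilter_le_cofinite
    rw [Filter.mem_cofinite]
    refine (Set.finite_lt_nat n).subset ?_
    intro i hi
    simp only [Set.mem_compl_iff, Set.mem_ofPred_eq, not_le] at hi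
    exact hi
  choose Δ hΔ using fun l => exists_ultD U K (fun i => δ i l)
  let ιh : A →+* Ult U K := (ultMk U K).comp (RingHom.pi ψ)
  have hιh : ∀ x, ιh x = ultMk U K (fun i => ψ i x) := fun x => rfl
  let C : V → I → Ult U K := fun v a => ultMk U K (fun i => c i v a)
  have hsum : ∀ (y : I → A) (v : V), ∑ a, ιh (y a) * C v a =
      ultMk U K (fun i => ∑ a, ψ i (y a) * c i v a) := by
    intro y v
    have h1 : (fun i => ∑ a, ψ i (y a) * c i v a) =
        ∑ a, (fun i => ψ i (y a)) * (fun i => c i v a) := by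
      funext i
      rw [Finset.sum_apply]
      rfl
    rw [h1, map_sum]
    refine Finset.sum_congr rfl fun a _ => ?_
    rw [map_mul, hιh]
  have key := key_gps hj (L := Ult U K) (ι := ιh) ?_ b hnab D Δ ?_ G hDk C ?_ ?_ t ?_ τ ?_ f hf hGP
  · apply key
    have h1 : (Matrix.of fun v u : V => ∑ a, ιh (f u a) * C v a) =
        (ultMk U K).mapMatrix (Matrix.of fun (v u : V) (i : ℕ) => ∑ a, ψ i (f u a) * c i v a) := by
      ext v u
      rw [Matrix.of_apply, hsum]
      rfl
    rw [h1, ← RingHom.map_det]
    have h2 : (Matrix.of fun (v u : V) (i : ℕ) => ∑ a, ψ i (f u a) * c i v a).det = 0 := by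
      funext i
      have h3 := (Pi.evalRingHom K i).map_det
        (Matrix.of fun (v u : V) (i : ℕ) => ∑ a, ψ i (f u a) * c i v a)
      rw [Pi.evalRingHom_apply] at h3
      rw [h3]
      exact hbad i
    rw [h2, map_zero]
  · rw [injective_iff_map_eq_zero]
    intro x hx
    by_contra hx0
    rw [hιh, ultMk_eq_zero] at hx
    obtain ⟨i, hi1, hi2⟩ := (hx.and (hge (B x))).exists
    exact hB.ne (p i) (hpp i) (hbp i) x hx0 (lt_of_le_of_lt hi2 (hip i)) hi1
  · intro l x
    rw [hιh]
    refine (hΔ l fun i => ψ i x).trans ?_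
    rw [hιh]
    exact congrArg _ (funext fun i => hδ i l x)
  · intro l
    refine ⟨fun v v' => ultMk U K fun i => ν i l v v', fun v a => ?_⟩
    refine (hΔ l fun i => c i v a).trans ?_
    have h1 : (fun i => δ i l (c i v a)) = ∑ a', (fun i => ψ i (G l a' a)) * (fun i => c i v a') +
        ∑ v', (fun i => ν i l v v') * (fun i => c i v' a) := by
      funext i
      rw [hν i l v a, Pi.add_apply, Finset.sum_apply, Finset.sum_apply]
      rfl
    rw [h1, map_add, map_sum, map_sum]
    refine congrArg₂ (· + ·) ?_ ?_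
    · refine Finset.sum_congr rfl fun a' _ => ?_
      rw [map_mul, hιh]
    · refine Finset.sum_congr rfl fun v' _ => ?_
      rw [map_mul]
  · intro lam hlam
    choose lam' hlam' using fun v => ultMk_surjective U K (lam v)
    have h2 : ∀ᶠ i in (U : Filter ℕ), ∀ a : I, ∑ v, lam' v i * c i v a = 0 := by
      rw [Filter.eventually_all]
      intro a
      have h3 := hlam a
      have h4 : ultMk U K (∑ v, lam' v * fun i => c i v a) = 0 := by
        rw [map_sum, ← h3]
        refine Finset.sum_congr rfl fun v _ => ?_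
        rw [map_mul, hlam']
      rw [ultMk_eq_zero] at h4
      filter_upwards [h4] with i hi
      rw [Finset.sum_apply] at hi
      exact hi
    funext v
    rw [Pi.zero_apply, ← hlam' v, ultMk_eq_zero]
    filter_upwards [h2] with i hi
    exact congrFun (hc1 i (fun v => lam' v i) hi) v
  · intro v s
    rw [hsum]
    have h1 : (fun i => ∑ a, ψ i (t s a) * c i v a) = 0 := funext fun i => hc3 i v s
    rw [h1, map_zero]
  · intro s
    refine ⟨fun v => ultMk U K fun i => x i s v, fun a => ?_⟩
    have h1 : (fun i => ψ i (τ s a)) = ∑ v, (fun i => x i s v) * (fun i => c i v a) := by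
      funext i
      rw [Finset.sum_apply]
      exact hx i s a
    rw [hιh, h1, map_sum]
    refine Finset.sum_congr rfl fun v _ => ?_
    rw [map_mul]

end

end MPadcGP
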