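import Pool.Agent.Lib.MP_adc574_ag_GP.Gen2
import Pool.Agent.Lib.MP_adc574_ag_GP.Key

/-!
# GP2: linear data over a ring, indexed by an additive type (helper10)

`LinW ι A`: as `LinD A` of Lin.lean, with the spaces indexed by `ι` (pairs of a degree and a weight).
-/

set_option autoImplicit false

namespace MPadcGP

universe u v

/-- Linear data over the ring `A`, indexed by `ι`. -/
structure LinW (ι : Type) [Add ι] (A : Type u) [CommRing A] where
  /-- The number of the derivations. -/
  N : ℕ
  /-- The derivations. -/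
  D : Fin N → Derivation ℤ A A
  /-- The index set of the basis of the space `t`. -/
  β : ι → Type
  [fin : ∀ t, Fintype (β t)]
  [dec : ∀ t, DecidableEq (β t)]
  /-- The level. -/
  lev : ∀ t, β t → ℕ
  /-- The matrices of the connection. -/
  G : ∀ t, Fin N → β t → β t → A
  /-- The structure constants. -/
  mu : ∀ s t, β s → β t → β (s + t) → A
  /-- The logarithmic classes. -/
  Lg : ∀ t : ι, ℕ → Set (β t → A)
  bound : ∃ B : Finset ι, ∀ t, t ∉ B → IsEmpty (β t)

attribute [instance] LinW.fin LinW.dec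

namespace LinW

section

variable {ι : Type} [Add ι] {A : Type u} [CommRing A] (X : LinW ι A) {E : Type v} [Field E]
  (φ : A →+* E)

/-- The product. -/
def mul (s t : ι) (x : X.β s → E) (y : X.β t → E) : X.β (s + t) → E :=
  fun c => ∑ a, ∑ b, φ (X.mu s t a b c) * (x a * y b)

/-- The connection in the direction `l`, for an extension `δ` of `D l` to `E`. -/
def con (t : ι) (l : Fin X.N) (δ : Derivation ℤ E E) (x : X.β t → E) : X.β t → E :=
  fun b' => δ (x b') + ∑ b, φ (X.G t l b' b) * x b

/-- The Hodge filtration. -/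
def fl (E : Type v) [Field E] (t : ι) (i : ℕ) : Submodule E (X.β t → E) where
  carrier := {x | ∀ b, X.lev t b < i → x b = 0}
  add_mem' := fun {x y} hx hy b hb => by rw [Pi.add_apply, hx b hb, hy b hb, add_zero]
  zero_mem' := fun b _ => rfl
  smul_mem' := fun c x hx b hb => by rw [Pi.smul_apply, hx b hb, smul_zero]

/-- Filtrations of conjugate type. -/
structure IsConj (P : ∀ t, ℕ → Submodule E (X.β t → E)) : Prop where
  mono : ∀ t i, P t i ≤ P t (i + 1)
  dim : ∀ t i, Module.finrank E (P t i) = Fintype.card {b : X.β t // X.lev t b ≤ i}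
  mul : ∀ s t i i', ∀ x ∈ P s i, ∀ y ∈ P t i', X.mul φ s t x y ∈ P (s + t) (i + i')
  log : ∀ t j, ∀ g ∈ X.Lg t j, (fun b => φ (g b)) ∈ P t j

/-- Stable filtrations. -/
def IsStab (δ : Fin X.N → Derivation ℤ E E) (P : ∀ t, ℕ → Submodule E (X.β t → E)) : Prop :=
  ∀ t i l, ∀ x ∈ P t i, X.con φ t l (δ l) x ∈ P t i

/-- The filtrations `P t` are opposite to the Hodge filtration. -/
def IsOpp (P : ∀ t, ℕ → Submodule E (X.β t → E)) : Prop :=
  ∀ t i, ∀ x ∈ P t i, x ∈ X.fl E t (i + 1) → x = 0

end

section

variable {ι : Type} [Add ι] {A : Type u} [CommRing A] (X : LinW ι A) {k : Type u} [Field k]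
  (j : A →+* k)

/-- The connection over `k`: `y` is the derivative of `x` in the direction `D'`. -/
def nabk (t : ι) (D' : Derivation ℤ k k) (x y : X.β t → k) : Prop :=
  ∃ c : Fin X.N → k, (∀ a, D' (j a) = ∑ l, c l * j (X.D l a)) ∧
    ∀ b', y b' = D' (x b') + ∑ l, c l * ∑ b, j (X.G t l b' b) * x b

/-- The linear data are in general position over `k`. -/
def Gen : Prop :=
  MPadcGP2.InGeneralPosition (X.nabk j) (fun t i => X.fl k t i) (fun s t x y z => z = X.mul j s t x y)
    (fun t i => {x | ∃ g ∈ X.Lg t i, x = fun b => j (g b)})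

end

end LinW

end MPadcGP
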