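import Mathlib

/-!
# Filtered complexes (GP, helper88)

`T` is a vector space over `κ` with an endomorphism `D`; a graded subcomplex is a family `S : ℕ → Submodule κ T` with
`D (S m) ≤ S (m + 1)`. For `S ≤ S'` the cohomology of `S' / S` in degree `m` is `ZZ / BB` with
`ZZ = {x ∈ S' m : D x ∈ S (m + 1)}` and `BB = S m + D (S' (m - 1))`.
-/

set_option autoImplicit false

namespace MPadcGP

open Module

section Fil

variable {κ T : Type*} [Field κ] [AddCommGroup T] [Module κ T]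

/-- The previous step. -/
def pr (S : ℕ → Submodule κ T) : ℕ → Submodule κ T
  | 0 => ⊥
  | n + 1 => S n

/-- A graded subcomplex. -/
def IsSub (D : T →ₗ[κ] T) (S : ℕ → Submodule κ T) : Prop := ∀ m, ∀ x ∈ S m, D x ∈ S (m + 1)

/-- The cocycles of `S' / S`. -/
def ZZ (D : T →ₗ[κ] T) (S S' : ℕ → Submodule κ T) (m : ℕ) : Submodule κ T := S' m ⊓ (S (m + 1)).comap D

/-- The coboundaries of `S' / S`. -/
def BB (D : T →ₗ[κ] T) (S S' : ℕ → Submodule κ T) (m : ℕ) : Submodule κ T := S m ⊔ (pr S' m).map D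

/-- The cohomology of `S' / S`. -/
abbrev HH (D : T →ₗ[κ] T) (S S' : ℕ → Submodule κ T) (m : ℕ) : Type _ :=
  ↥(ZZ D S S' m) ⧸ (BB D S S' m).submoduleOf (ZZ D S S' m)

theorem mem_ZZ {D : T →ₗ[κ] T} {S S' : ℕ → Submodule κ T} {m : ℕ} {x : T} :
    x ∈ ZZ D S S' m ↔ x ∈ S' m ∧ D x ∈ S (m + 1) := Iff.rfl

theorem mem_BB {D : T →ₗ[κ] T} {S S' : ℕ → Submodule κ T} {m : ℕ} {x : T} :
    x ∈ BB D S S' m ↔ ∃ s ∈ S m, ∃ y ∈ pr S' m, x = s + D y := by
  unfold BB
  rw [Submodule.mem_sup]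
  constructor
  · rintro ⟨s, hs, z, hz, rfl⟩
    obtain ⟨y, hy, rfl⟩ := Submodule.mem_map.mp hz
    exact ⟨s, hs, y, hy, rfl⟩
  · rintro ⟨s, hs, y, hy, rfl⟩
    exact ⟨s, hs, D y, Submodule.mem_map_of_mem hy, rfl⟩

theorem pr_mono {S S' : ℕ → Submodule κ T} (h : ∀ m, S m ≤ S' m) (m : ℕ) : pr S m ≤ pr S' m := by
  cases m with
  | zero => exact le_rfl
  | succ n => exact h n

theorem ZZ_mono {D : T →ₗ[κ] T} {S0 S1 S0' S1' : ℕ → Submodule κ T} (h0 : ∀ m, S0 m ≤ S0' m) (h1 : ∀ m, S1 m ≤ S1' m)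
    (m : ℕ) : ZZ D S0 S1 m ≤ ZZ D S0' S1' m := fun _ hx => ⟨h1 m hx.1, h0 (m + 1) hx.2⟩

theorem BB_mono {D : T →ₗ[κ] T} {S0 S1 S0' S1' : ℕ → Submodule κ T} (h0 : ∀ m, S0 m ≤ S0' m) (h1 : ∀ m, S1 m ≤ S1' m)
    (m : ℕ) : BB D S0 S1 m ≤ BB D S0' S1' m :=
  sup_le_sup (h0 m) (Submodule.map_mono (pr_mono h1 m))

/-- The map of subquotients induced by inclusions. -/
noncomputable def sq {Z B Z' B' : Submodule κ T} (hZ : Z ≤ Z') (hB : B ≤ B') :
    (↥Z ⧸ B.submoduleOf Z) →ₗ[κ] (↥Z' ⧸ B'.submoduleOf Z') :=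
  Submodule.mapQ _ _ (Submodule.inclusion hZ) fun _ hx => hB hx

theorem sq_mk {Z B Z' B' : Submodule κ T} (hZ : Z ≤ Z') (hB : B ≤ B') (x : Z) :
    sq hZ hB (Submodule.Quotient.mk x) = Submodule.Quotient.mk (⟨x, hZ x.2⟩ : Z') := rfl

theorem sq_injective {Z B Z' B' : Submodule κ T} (hZ : Z ≤ Z') (hB : B ≤ B')
    (h : ∀ x ∈ Z, x ∈ B' → x ∈ B) : Function.Injective (sq hZ hB) := by
  rw [injective_iff_map_eq_zero]
  intro a ha
  induction a using Submodule.Quotient.induction_on with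
  | H x =>
    rw [sq_mk, Submodule.Quotient.mk_eq_zero] at ha
    rw [Submodule.Quotient.mk_eq_zero]
    exact h x x.2 ha

theorem of_sq_injective {Z B Z' B' : Submodule κ T} (hZ : Z ≤ Z') (hB : B ≤ B')
    (h : Function.Injective (sq hZ hB)) : ∀ x ∈ Z, x ∈ B' → x ∈ B := by
  intro x hx hx'
  have h1 : sq hZ hB (Submodule.Quotient.mk (⟨x, hx⟩ : Z)) = 0 := by
    rw [sq_mk, Submodule.Quotient.mk_eq_zero]
    exact hx'
  have h2 := (injective_iff_map_eq_zero _).mp h _ h1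
  rw [Submodule.Quotient.mk_eq_zero] at h2
  exact h2

theorem sq_surjective {Z B Z' B' : Submodule κ T} (hZ : Z ≤ Z') (hB : B ≤ B')
    (h : ∀ x ∈ Z', ∃ y ∈ Z, x - y ∈ B') : Function.Surjective (sq hZ hB) := by
  intro a
  induction a using Submodule.Quotient.induction_on with
  | H x =>
    obtain ⟨y, hy, hxy⟩ := h x x.2
    refine ⟨Submodule.Quotient.mk (⟨y, hy⟩ : Z), ?_⟩
    rw [sq_mk, Submodule.Quotient.eq]
    have h2 : y - (x : T) ∈ B' := by
      rw [← neg_sub]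
      exact B'.neg_mem hxy
    exact h2

theorem of_sq_surjective {Z B Z' B' : Submodule κ T} (hZ : Z ≤ Z') (hB : B ≤ B')
    (h : Function.Surjective (sq hZ hB)) : ∀ x ∈ Z', ∃ y ∈ Z, x - y ∈ B' := by
  intro x hx
  obtain ⟨a, ha⟩ := h (Submodule.Quotient.mk (⟨x, hx⟩ : Z'))
  induction a using Submodule.Quotient.induction_on with
  | H y =>
    rw [sq_mk, Submodule.Quotient.eq] at ha
    refine ⟨y, y.2, ?_⟩
    have h2 : (y : T) - x ∈ B' := ha
    rw [← neg_sub]
    exact B'.neg_mem h2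

section Three

variable {D : T →ₗ[κ] T} {S0 S1 S2 : ℕ → Submodule κ T}

/-- `H^m(S1/S0) → H^m(S2/S0)` -/
noncomputable def al (D : T →ₗ[κ] T) (h12 : ∀ m, S1 m ≤ S2 m) (m : ℕ) : HH D S0 S1 m →ₗ[κ] HH D S0 S2 m :=
  sq (ZZ_mono (fun _ => le_rfl) h12 m) (BB_mono (fun _ => le_rfl) h12 m)

/-- `H^m(S2/S0) → H^m(S2/S1)` -/
noncomputable def be (D : T →ₗ[κ] T) (h01 : ∀ m, S0 m ≤ S1 m) (m : ℕ) : HH D S0 S2 m →ₗ[κ] HH D S1 S2 m :=
  sq (ZZ_mono h01 (fun _ => le_rfl) m) (BB_mono h01 (fun _ => le_rfl) m)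

theorem ker_be (hD : D ∘ₗ D = 0) (h01 : ∀ m, S0 m ≤ S1 m) (h12 : ∀ m, S1 m ≤ S2 m) (hS2 : IsSub D S2) (m : ℕ) :
    LinearMap.ker (be (S2 := S2) D h01 m) = LinearMap.range (al (S0 := S0) D h12 m) := by
  have hDD : ∀ y, D (D y) = 0 := fun y => by
    have := LinearMap.congr_fun hD y
    exact this
  have hpr : ∀ y ∈ pr S2 m, D y ∈ S2 m := by
    intro y hy
    cases m with
    | zero =>
      have : y = 0 := by simpa [pr] using hy
      rw [this, map_zero]
      exact zero_mem _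
    | succ n => exact hS2 n y hy
  apply le_antisymm
  · intro a ha
    induction a using Submodule.Quotient.induction_on with
    | H x =>
      rw [LinearMap.mem_ker] at ha
      unfold be at ha
      rw [sq_mk, Submodule.Quotient.mk_eq_zero] at ha
      have hx' : (x : T) ∈ BB D S1 S2 m := ha
      obtain ⟨s, hs, y, hy, hxs⟩ := mem_BB.mp hx'
      have hsZ : s ∈ ZZ D S0 S1 m := by
        refine ⟨hs, ?_⟩
        have e : D s = D x := by
          rw [hxs, map_add, hDD, add_zero]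
        change D s ∈ S0 (m + 1)
        rw [e]
        exact x.2.2
      refine ⟨Submodule.Quotient.mk (⟨s, hsZ⟩ : ZZ D S0 S1 m), ?_⟩
      unfold al
      rw [sq_mk, Submodule.Quotient.eq]
      change s - (x : T) ∈ BB D S0 S2 m
      rw [mem_BB]
      refine ⟨0, zero_mem _, -y, Submodule.neg_mem _ hy, ?_⟩
      rw [hxs, map_neg]
      abel
  · rintro _ ⟨a, rfl⟩
    induction a using Submodule.Quotient.induction_on with
    | H x =>
      rw [LinearMap.mem_ker]
      unfold al be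
      rw [sq_mk, sq_mk, Submodule.Quotient.mk_eq_zero]
      change (x : T) ∈ BB D S1 S2 m
      rw [mem_BB]
      refine ⟨x, x.2.1, 0, zero_mem _, ?_⟩
      rw [map_zero, add_zero]

theorem finite_mid (hD : D ∘ₗ D = 0) (h01 : ∀ m, S0 m ≤ S1 m) (h12 : ∀ m, S1 m ≤ S2 m) (hS2 : IsSub D S2) (m : ℕ)
    (f1 : FiniteDimensional κ (HH D S0 S1 m)) (f2 : FiniteDimensional κ (HH D S1 S2 m)) :
    FiniteDimensional κ (HH D S0 S2 m) := by
  have h1 := ker_be (S2 := S2) hD h01 h12 hS2 m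
  have h2 : FiniteDimensional κ (LinearMap.range (al (S0 := S0) (S1 := S1) (S2 := S2) D h12 m)) := inferInstance
  have h3 : FiniteDimensional κ (LinearMap.range (be (S0 := S0) (S1 := S1) (S2 := S2) D h01 m)) := inferInstance
  rw [← h1] at h2
  have h4 : FiniteDimensional κ (HH D S0 S2 m ⧸ LinearMap.ker (be (S0 := S0) (S1 := S1) (S2 := S2) D h01 m)) :=
    Module.Finite.equiv (LinearMap.quotKerEquivRange _).symm
  exact Module.Finite.of_submodule_quotient (LinearMap.ker (be (S0 := S0) (S1 := S1) (S2 := S2) D h01 m))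

theorem finrank_mid (hD : D ∘ₗ D = 0) (h01 : ∀ m, S0 m ≤ S1 m) (h12 : ∀ m, S1 m ≤ S2 m) (hS2 : IsSub D S2) (m : ℕ)
    (f1 : FiniteDimensional κ (HH D S0 S1 m)) (f2 : FiniteDimensional κ (HH D S1 S2 m)) :
    finrank κ (HH D S0 S2 m) =
      finrank κ (LinearMap.range (be (S0 := S0) (S1 := S1) (S2 := S2) D h01 m)) +
        finrank κ (LinearMap.range (al (S0 := S0) (S1 := S1) (S2 := S2) D h12 m)) := by
  have f3 := finite_mid hD h01 h12 hS2 m f1 f2
  rw [← ker_be (S2 := S2) hD h01 h12 hS2 m]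
  exact (LinearMap.finrank_range_add_finrank_ker _).symm

theorem finrank_mid_le (hD : D ∘ₗ D = 0) (h01 : ∀ m, S0 m ≤ S1 m) (h12 : ∀ m, S1 m ≤ S2 m) (hS2 : IsSub D S2) (m : ℕ)
    (f1 : FiniteDimensional κ (HH D S0 S1 m)) (f2 : FiniteDimensional κ (HH D S1 S2 m)) :
    finrank κ (HH D S0 S2 m) ≤ finrank κ (HH D S0 S1 m) + finrank κ (HH D S1 S2 m) := by
  rw [finrank_mid hD h01 h12 hS2 m f1 f2, add_comm]
  exact add_le_add (LinearMap.finrank_range_le _) (Submodule.finrank_le _)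

theorem exact_of_finrank (hD : D ∘ₗ D = 0) (h01 : ∀ m, S0 m ≤ S1 m) (h12 : ∀ m, S1 m ≤ S2 m) (hS2 : IsSub D S2) (m : ℕ)
    (f1 : FiniteDimensional κ (HH D S0 S1 m)) (f2 : FiniteDimensional κ (HH D S1 S2 m))
    (h : finrank κ (HH D S0 S1 m) + finrank κ (HH D S1 S2 m) ≤ finrank κ (HH D S0 S2 m)) :
    Function.Injective (al (S0 := S0) (S1 := S1) (S2 := S2) D h12 m) ∧
      Function.Surjective (be (S0 := S0) (S1 := S1) (S2 := S2) D h01 m) := by
  have e := finrank_mid hD h01 h12 hS2 m f1 f2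
  have g1 : finrank κ (LinearMap.range (al (S0 := S0) (S1 := S1) (S2 := S2) D h12 m)) ≤ finrank κ (HH D S0 S1 m) :=
    LinearMap.finrank_range_le _
  have g2 : finrank κ (LinearMap.range (be (S0 := S0) (S1 := S1) (S2 := S2) D h01 m)) ≤ finrank κ (HH D S1 S2 m) :=
    Submodule.finrank_le _
  constructor
  · have e1 : finrank κ (LinearMap.range (al (S0 := S0) (S1 := S1) (S2 := S2) D h12 m)) = finrank κ (HH D S0 S1 m) := by
      omega
    rw [← LinearMap.ker_eq_bot]
    have e2 := LinearMap.finrank_range_add_finrank_ker (al (S0 := S0) (S1 := S1) (S2 := S2) D h12 m)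
    have e3 : finrank κ (LinearMap.ker (al (S0 := S0) (S1 := S1) (S2 := S2) D h12 m)) = 0 := by omega
    exact Submodule.finrank_eq_zero.mp e3
  · have e1 : finrank κ (LinearMap.range (be (S0 := S0) (S1 := S1) (S2 := S2) D h01 m)) = finrank κ (HH D S1 S2 m) := by
      omega
    rw [← LinearMap.range_eq_top]
    exact Submodule.eq_top_of_finrank_eq e1

end Three

/-! ## Chains of subcomplexes -/

section Chain

variable {D : T →ₗ[κ] T} {S : ℕ → ℕ → Submodule κ T}

theorem chain_mono (hS : ∀ j m, S j m ≤ S (j + 1) m) {i j : ℕ} (hij : i ≤ j) (m : ℕ) : S i m ≤ S j m := by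
  induction j, hij using Nat.le_induction with
  | base => exact le_rfl
  | succ j _ ih => exact ih.trans (hS j m)

theorem HH_self_subsingleton (D : T →ₗ[κ] T) (S0 : ℕ → Submodule κ T) (m : ℕ) : Subsingleton (HH D S0 S0 m) := by
  refine subsingleton_of_forall_eq 0 fun a => ?_
  induction a using Submodule.Quotient.induction_on with
  | H x =>
    rw [Submodule.Quotient.mk_eq_zero]
    change (x : T) ∈ BB D S0 S0 m
    rw [mem_BB]
    exact ⟨x, x.2.1, 0, zero_mem _, by rw [map_zero, add_zero]⟩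

theorem chain_finite (hD : D ∘ₗ D = 0) (hS : ∀ j m, S j m ≤ S (j + 1) m) (hsub : ∀ j, IsSub D (S j)) (m : ℕ)
    (f : ∀ j, FiniteDimensional κ (HH D (S j) (S (j + 1)) m)) (r : ℕ) : FiniteDimensional κ (HH D (S 0) (S r) m) := by
  induction r with
  | zero =>
    have := HH_self_subsingleton D (S 0) m
    exact Module.Finite.of_finite
  | succ r ih => exact finite_mid hD (chain_mono hS (Nat.zero_le r)) (hS r) (hsub (r + 1)) m ih (f r)

/-- The dimension of `H^m(S_r/S_0)` is at most the sum of the dimensions of the `H^m(S_(j+1)/S_j)`. -/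
theorem chain_le (hD : D ∘ₗ D = 0) (hS : ∀ j m, S j m ≤ S (j + 1) m) (hsub : ∀ j, IsSub D (S j)) (m : ℕ)
    (f : ∀ j, FiniteDimensional κ (HH D (S j) (S (j + 1)) m)) (r : ℕ) :
    finrank κ (HH D (S 0) (S r) m) ≤ ∑ j ∈ Finset.range r, finrank κ (HH D (S j) (S (j + 1)) m) := by
  induction r with
  | zero =>
    have := HH_self_subsingleton D (S 0) m
    rw [Module.finrank_zero_of_subsingleton]
    exact Nat.zero_le _
  | succ r ih =>
    rw [Finset.sum_range_succ]
    have h1 := finrank_mid_le hD (chain_mono hS (Nat.zero_le r)) (hS r) (hsub (r + 1)) m (chain_finite hD hS hsub m f r) (f r)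
    omega

/-- Equality of the dimensions: all the steps are exact. -/
theorem chain_exact (hD : D ∘ₗ D = 0) (hS : ∀ j m, S j m ≤ S (j + 1) m) (hsub : ∀ j, IsSub D (S j)) (m : ℕ)
    (f : ∀ j, FiniteDimensional κ (HH D (S j) (S (j + 1)) m)) (r : ℕ)
    (h : ∑ j ∈ Finset.range r, finrank κ (HH D (S j) (S (j + 1)) m) ≤ finrank κ (HH D (S 0) (S r) m)) :
    ∀ j < r, finrank κ (HH D (S 0) (S j) m) = ∑ l ∈ Finset.range j, finrank κ (HH D (S l) (S (l + 1)) m) ∧
      Function.Injective (al (S0 := S 0) (S1 := S j) (S2 := S (j + 1)) D (hS j) m) ∧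
      Function.Surjective (be (S0 := S 0) (S1 := S j) (S2 := S (j + 1)) D (chain_mono hS (Nat.zero_le j)) m) := by
  have key : ∀ r : ℕ, ∑ j ∈ Finset.range r, finrank κ (HH D (S j) (S (j + 1)) m) ≤ finrank κ (HH D (S 0) (S r) m) →
      ∀ j < r, finrank κ (HH D (S 0) (S j) m) = ∑ l ∈ Finset.range j, finrank κ (HH D (S l) (S (l + 1)) m) ∧
      Function.Injective (al (S0 := S 0) (S1 := S j) (S2 := S (j + 1)) D (hS j) m) ∧
      Function.Surjective (be (S0 := S 0) (S1 := S j) (S2 := S (j + 1)) D (chain_mono hS (Nat.zero_le j)) m) := by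
    intro r
    induction r with
    | zero => intro _ j hj; omega
    | succ r ih =>
      intro h j hj
      rw [Finset.sum_range_succ] at h
      have fr := chain_finite hD hS hsub m f r
      have h1 := finrank_mid_le hD (chain_mono hS (Nat.zero_le r)) (hS r) (hsub (r + 1)) m fr (f r)
      have h2 := chain_le hD hS hsub m f r
      have h3 : ∑ j ∈ Finset.range r, finrank κ (HH D (S j) (S (j + 1)) m) ≤ finrank κ (HH D (S 0) (S r) m) := by omega
      rcases Nat.lt_succ_iff_lt_or_eq.mp hj with hj' | rfl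
      · exact ih h3 j hj'
      · refine ⟨le_antisymm h2 h3, ?_⟩
        exact exact_of_finrank hD (chain_mono hS (Nat.zero_le j)) (hS j) (hsub (j + 1)) m fr (f j) (by omega)
  exact key r h

/-- In the case of equality the map from the cohomology of `S_j/S_0` to the one of `S_r/S_0` is injective. -/
theorem chain_injective (hD : D ∘ₗ D = 0) (hS : ∀ j m, S j m ≤ S (j + 1) m) (hsub : ∀ j, IsSub D (S j)) (m : ℕ)
    (f : ∀ j, FiniteDimensional κ (HH D (S j) (S (j + 1)) m)) (r : ℕ)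
    (h : ∑ j ∈ Finset.range r, finrank κ (HH D (S j) (S (j + 1)) m) ≤ finrank κ (HH D (S 0) (S r) m)) :
    ∀ j ≤ r, ∀ x ∈ ZZ D (S 0) (S j) m, x ∈ BB D (S 0) (S r) m → x ∈ BB D (S 0) (S j) m := by
  have h1 := chain_exact hD hS hsub m f r h
  intro j hj
  induction r, hj using Nat.le_induction with
  | base => intro x _ hx; exact hx
  | succ r hjr ih =>
    intro x hx hx'
    have h2 := (h1 r (Nat.lt_succ_self r)).2.1
    have h3 : ∑ j ∈ Finset.range r, finrank κ (HH D (S j) (S (j + 1)) m) ≤ finrank κ (HH D (S 0) (S r) m) :=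
      (h1 r (Nat.lt_succ_self r)).1.symm.le
    refine ih h3 (fun i hi => h1 i (hi.trans (Nat.lt_succ_self r))) x hx ?_
    exact of_sq_injective _ _ h2 x (ZZ_mono (fun _ => le_rfl) (chain_mono hS hjr) m hx) hx'

/-- If all the maps to the graded pieces are surjective, the dimensions add up. -/
theorem chain_eq (hD : D ∘ₗ D = 0) (hS : ∀ j m, S j m ≤ S (j + 1) m) (hsub : ∀ j, IsSub D (S j))
    (f : ∀ j m, FiniteDimensional κ (HH D (S j) (S (j + 1)) m))
    (h : ∀ j m, ∀ x ∈ ZZ D (S j) (S (j + 1)) m, ∃ y ∈ ZZ D (S 0) (S (j + 1)) m, x - y ∈ BB D (S j) (S (j + 1)) m)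
    (r m : ℕ) :
    finrank κ (HH D (S 0) (S r) m) = ∑ j ∈ Finset.range r, finrank κ (HH D (S j) (S (j + 1)) m) := by
  have hDD : ∀ y, D (D y) = 0 := fun y => by
    have := LinearMap.congr_fun hD y
    exact this
  induction r with
  | zero =>
    have := HH_self_subsingleton D (S 0) m
    rw [Module.finrank_zero_of_subsingleton, Finset.sum_range_zero]
  | succ r ih =>
    rw [Finset.sum_range_succ, ← ih]
    have h0r := chain_mono hS (Nat.zero_le r)
    have fr := chain_finite hD hS hsub m (fun j => f j m) r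
    rw [finrank_mid hD h0r (hS r) (hsub (r + 1)) m fr (f r m)]
    have hs : Function.Surjective (be (S0 := S 0) (S1 := S r) (S2 := S (r + 1)) D h0r m) :=
      sq_surjective _ _ (h r m)
    have hi : Function.Injective (al (S0 := S 0) (S1 := S r) (S2 := S (r + 1)) D (hS r) m) := by
      refine sq_injective _ _ fun x hx hx' => ?_
      obtain ⟨s, hs0, y, hy, hxy⟩ := mem_BB.mp hx'
      cases m with
      | zero =>
        have hy0 : y = 0 := by simpa [pr] using hy
        rw [hxy, hy0, map_zero, add_zero]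
        exact mem_BB.mpr ⟨s, hs0, 0, zero_mem _, by rw [map_zero, add_zero]⟩
      | succ n =>
        have hyZ : y ∈ ZZ D (S r) (S (r + 1)) n := by
          refine ⟨hy, ?_⟩
          have e : D y = x - s := by rw [hxy]; abel
          change D y ∈ S r (n + 1)
          rw [e]
          exact sub_mem hx.1 (h0r (n + 1) hs0)
        obtain ⟨y', hy', hyy⟩ := h r n y hyZ
        obtain ⟨s', hs', w, hw, hsw⟩ := mem_BB.mp hyy
        have e : D y = D y' + D s' := by
          have e1 : y = y' + (s' + D w) := by rw [← hsw]; abel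
          rw [e1, map_add, map_add, hDD, add_zero]
        refine mem_BB.mpr ⟨s + D y', add_mem hs0 hy'.2, s', hs', ?_⟩
        rw [hxy, e]
        abel
    rw [LinearMap.range_eq_top.mpr hs, finrank_top, LinearMap.finrank_range_of_inj hi, add_comm]

end Chain

/-! ## Two opposite subcomplexes -/

/-- If the cohomology of `K` is the direct sum of the cohomologies of the subcomplexes `F` and `N`, `F ∩ N = 0`, then
`K / (F + N)` is acyclic. -/
theorem acyclic_of_opposite {D : T →ₗ[κ] T} (hD : D ∘ₗ D = 0) {K F N : ℕ → Submodule κ T}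
    (hF : IsSub D F) (hN : IsSub D N) (hFK : ∀ m, F m ≤ K m) (hNK : ∀ m, N m ≤ K m)
    (hFN : ∀ m, F m ⊓ N m = ⊥)
    (iF : ∀ m, ∀ x ∈ F m, D x = 0 → x ∈ (pr K m).map D → x ∈ (pr F m).map D)
    (iN : ∀ m, ∀ x ∈ N m, D x = 0 → x ∈ (pr K m).map D → x ∈ (pr N m).map D)
    (hopp : ∀ m, ∀ x ∈ F m, ∀ y ∈ N m, D x = 0 → D y = 0 → x + y ∈ (pr K m).map D → x ∈ (pr K m).map D)
    (hspan : ∀ m, ∀ x ∈ K m, D x = 0 → ∃ y ∈ F m, ∃ z ∈ N m, D y = 0 ∧ D z = 0 ∧ x - y - z ∈ (pr K m).map D)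
    (m : ℕ) (x : T) (hx : x ∈ K m) (hDx : D x ∈ F (m + 1) ⊔ N (m + 1)) :
    x ∈ F m ⊔ N m ⊔ (pr K m).map D := by
  have hDD : ∀ y, D (D y) = 0 := fun y => by
    have := LinearMap.congr_fun hD y
    exact this
  obtain ⟨f, hf, n, hn, hfn⟩ := Submodule.mem_sup.mp hDx
  have h0 : D f + D n = 0 := by rw [← map_add, hfn, hDD]
  have hDf : D f = 0 := by
    have h1 : D f ∈ F (m + 2) ⊓ N (m + 2) := by
      refine ⟨hF (m + 1) f hf, ?_⟩
      have e : D f = -D n := eq_neg_of_add_eq_zero_left h0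
      rw [e]
      exact neg_mem (hN (m + 1) n hn)
    rw [hFN] at h1
    exact (Submodule.mem_bot κ).mp h1
  have hDn : D n = 0 := by rwa [hDf, zero_add] at h0
  have h2 : f + n ∈ (pr K (m + 1)).map D := by
    rw [hfn]
    exact Submodule.mem_map_of_mem hx
  have h3 : f ∈ (pr K (m + 1)).map D := hopp (m + 1) f hf n hn hDf hDn h2
  have h4 : n ∈ (pr K (m + 1)).map D := by
    have := sub_mem h2 h3
    rwa [add_sub_cancel_left] at this
  obtain ⟨f', hf', hff⟩ := Submodule.mem_map.mp (iF (m + 1) f hf hDf h3)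
  obtain ⟨n', hn', hnn⟩ := Submodule.mem_map.mp (iN (m + 1) n hn hDn h4)
  have hf'' : f' ∈ F m := hf'
  have hn'' : n' ∈ N m := hn'
  have h5 : D (x - f' - n') = 0 := by
    rw [map_sub, map_sub, hff, hnn, ← hfn]
    abel
  obtain ⟨y, hy, z, hz, -, -, hyz⟩ := hspan m (x - f' - n')
    (sub_mem (sub_mem hx (hFK m hf'')) (hNK m hn'')) h5
  have e : x = (f' + y + (n' + z)) + (x - f' - n' - y - z) := by abel
  rw [e]
  refine Submodule.add_mem_sup (Submodule.add_mem_sup (add_mem hf'' hy) (add_mem hn'' hz)) hyz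

end Fil

end MPadcGP
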