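import Pool.Agent.Lib.MP_adc574_ag_GP.Lit
import Pool.Agent.Lib.MP_adc574_ag_GP.Fil

/-!
# GP: adapted bases of the de Rham cohomology

`IsAd X lev z`: the classes of the cocycles `z m b` are a basis of `H^m`, those with `lev m b ≥ i` a basis
of `F^i H^m`. `crd`: the coordinates.
-/

set_option autoImplicit false

namespace MPadcGP

universe u v w x

/-- The specialization morphism. -/
noncomputable def prH {A : Type u} [CommRing A] {B : Type v} [CommRing B] {n : ℕ} (φ : A →+* B)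
    (I : Ideal (MvPolynomial (Fin n) A)) : CovD.Hm φ (prC I) (prC (bI φ I)) where
  h J := cb φ I J
  base J a := cb_base φ I J a
  comm h r := cb_tr φ I h r

/-- Adapted bases of the cohomology. -/
structure IsAd {A : Type u} [CommRing A] {n : ℕ} (X : CovD.{u, v} A n) {β : ℕ → Type}
    [∀ m, Fintype (β m)] (lev : ∀ m, β m → ℕ) (z : ∀ m, β m → X.Ch) : Prop where
  mem : ∀ m b, z m b ∈ X.Fi (lev m b) m
  coc : ∀ m b, X.Dt (z m b) = 0
  gen : ∀ m i, ∀ x ∈ X.Fi i m, X.Dt x = 0 →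
    ∃ c : β m → A, (∀ b, lev m b < i → c b = 0) ∧ x - ∑ b, c b • z m b ∈ X.Bc m
  ind : ∀ m (c : β m → A), ∑ b, c b • z m b ∈ X.Bc m → c = 0

namespace CovD

variable {A : Type u} [CommRing A] {n : ℕ} {X : CovD.{u, v} A n}

theorem mem_Zc {m : ℕ} {c : X.Ch} : c ∈ X.Zc m ↔ c ∈ X.Tt m ∧ X.Dt c = 0 := Iff.rfl

theorem Bc_le_Zc (m : ℕ) : X.Bc m ≤ X.Zc m := by
  cases m with
  | zero => exact bot_le
  | succ m =>
    rintro _ ⟨c, hc, rfl⟩
    exact ⟨Dt_mem hc, Dt_Dt c⟩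

theorem cl_eq_zero {m : ℕ} {c : ↥(X.Zc m)} : X.cl m c = 0 ↔ (c : X.Ch) ∈ X.Bc m := by
  unfold cl
  rw [Submodule.mkQ_apply, Submodule.Quotient.mk_eq_zero]
  rfl

theorem cl_eq {m : ℕ} {c c' : ↥(X.Zc m)} : X.cl m c = X.cl m c' ↔ (c : X.Ch) - c' ∈ X.Bc m := by
  rw [← sub_eq_zero, ← map_sub, cl_eq_zero]
  rfl

theorem cl_surjective (m : ℕ) : Function.Surjective (X.cl m) := Submodule.mkQ_surjective _

theorem mem_Fil {m i : ℕ} {x : X.HdR m} :
    x ∈ X.Fil m i ↔ ∃ c : ↥(X.Zc m), (c : X.Ch) ∈ X.Fi i m ∧ X.cl m c = x := Iff.rfl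

theorem mem_Con {m i : ℕ} {x : X.HdR m} :
    x ∈ X.Con m i ↔ ∃ c : ↥(X.Zc m), (c : X.Ch) ∈ X.Ni i m ∧ X.cl m c = x := Iff.rfl

end CovD

namespace IsAd

variable {A : Type u} [CommRing A] {n : ℕ} {X : CovD.{u, v} A n} {β : ℕ → Type}
    [∀ m, Fintype (β m)] {lev : ∀ m, β m → ℕ} {z : ∀ m, β m → X.Ch} (h : IsAd X lev z)

include h in
theorem mem_Zc (m : ℕ) (b : β m) : z m b ∈ X.Zc m := ⟨(h.mem m b).1, h.coc m b⟩

/-- The linear map from the coordinates to the cohomology. -/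
noncomputable def crd (m : ℕ) : (β m → A) →ₗ[A] X.HdR m :=
  Fintype.linearCombination A fun b => X.cl m ⟨z m b, h.mem_Zc m b⟩

/-- The linear combination of the cocycles. -/
noncomputable def lc (m : ℕ) (c : β m → A) : ↥(X.Zc m) :=
  ⟨∑ b, c b • z m b, Submodule.sum_mem _ fun b _ => Submodule.smul_mem _ _ (h.mem_Zc m b)⟩

theorem lc_coe (m : ℕ) (c : β m → A) : (h.lc m c : X.Ch) = ∑ b, c b • z m b := rfl

theorem crd_eq (m : ℕ) (c : β m → A) : h.crd m c = X.cl m (h.lc m c) := by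
  have h1 : h.lc m c = ∑ b, c b • (⟨z m b, h.mem_Zc m b⟩ : ↥(X.Zc m)) := by
    apply Subtype.ext
    rw [lc_coe, Submodule.coe_sum]
    exact Finset.sum_congr rfl fun b _ => rfl
  rw [h1, map_sum, crd, Fintype.linearCombination_apply]
  exact Finset.sum_congr rfl fun b _ => (map_smul _ _ _).symm

theorem crd_injective (m : ℕ) : Function.Injective (h.crd m) := by
  rw [injective_iff_map_eq_zero]
  intro c hc
  rw [crd_eq, CovD.cl_eq_zero] at hc
  exact h.ind m c hc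

theorem crd_surjective (m : ℕ) : Function.Surjective (h.crd m) := by
  intro x
  obtain ⟨c, rfl⟩ := CovD.cl_surjective m x
  obtain ⟨a, -, ha⟩ := h.gen m 0 c (by rw [CovD.Fi_zero]; exact c.2.1) c.2.2
  refine ⟨a, ?_⟩
  rw [crd_eq, eq_comm, CovD.cl_eq, lc_coe]
  exact ha

/-- The coordinates. -/
noncomputable def eqv (m : ℕ) : (β m → A) ≃ₗ[A] X.HdR m :=
  LinearEquiv.ofBijective (h.crd m) ⟨h.crd_injective m, h.crd_surjective m⟩

theorem eqv_apply (m : ℕ) (c : β m → A) : h.eqv m c = X.cl m (h.lc m c) := h.crd_eq m c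

theorem eqv_mem_Fil {m i : ℕ} {c : β m → A} :
    h.eqv m c ∈ X.Fil m i ↔ ∀ b, lev m b < i → c b = 0 := by
  constructor
  · intro hc
    obtain ⟨y, hy, hyc⟩ := CovD.mem_Fil.1 hc
    obtain ⟨a, ha, hya⟩ := h.gen m i y hy y.2.2
    have h1 : h.eqv m a = h.eqv m c := by
      rw [← hyc, eqv_apply, eq_comm, CovD.cl_eq, lc_coe]
      exact hya
    rw [← (h.eqv m).injective h1]
    exact ha
  · intro hc
    refine CovD.mem_Fil.2 ⟨h.lc m c, ?_, (h.eqv_apply m c).symm⟩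
    rw [lc_coe]
    refine Submodule.sum_mem _ fun b _ => ?_
    rcases Nat.lt_or_ge (lev m b) i with h1 | h1
    · rw [hc b h1, zero_smul]
      exact Submodule.zero_mem _
    · exact Submodule.smul_mem _ _ (CovD.Fi_anti h1 m (h.mem m b))

end IsAd

section field

variable {κ : Type u} [Field κ] {n : ℕ} {X : CovD.{u, v} κ n} {β : ℕ → Type}
    [∀ m, Fintype (β m)] {lev : ∀ m, β m → ℕ} {z : ∀ m, β m → X.Ch} (h : IsAd X lev z)

include h in
theorem IsAd.finrank (m : ℕ) : Module.finrank κ (X.HdR m) = Fintype.card (β m) := by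
  rw [← (h.eqv m).finrank_eq, Module.finrank_fintype_fun_eq_card]

include h in
theorem IsAd.finite (m : ℕ) : FiniteDimensional κ (X.HdR m) :=
  Module.Finite.equiv (h.eqv m)

/-- The conjugate filtration in coordinates. -/
noncomputable def IsAd.con (m i : ℕ) : Submodule κ (β m → κ) := (X.Con m i).comap (h.crd m)

end field

end MPadcGP
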