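import Pool.Agent.Lib.MP_adc574_ag_GP.GrA

/-!
# GP2: weights of polynomials, and gradings of abstract rings
-/

set_option autoImplicit false
set_option linter.unusedSectionVars false

namespace MPadcGP

open MvPolynomial

universe u v w x y

section poly

variable {A : Type u} [CommRing A] {n : ℕ} {M : Type y} [AddCommGroup M] [Fintype M] [DecidableEq M]
  (wt : Fin n → M)

/-- The ideal contains the components of every weight of its elements. -/
def IsWHomog (I : Ideal (MvPolynomial (Fin n) A)) : Prop :=
  ∀ f ∈ I, ∀ μ : M, weightedHomogeneousComponent wt μ f ∈ I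

/-- The coaction on the polynomial ring. -/
noncomputable def pg : MvPolynomial (Fin n) A →+* AddMonoidAlgebra (MvPolynomial (Fin n) A) M :=
  eval₂Hom (AddMonoidAlgebra.singleZeroRingHom.comp C) fun l => AddMonoidAlgebra.single (wt l) (X l)

theorem prod_single_pow {R : Type*} [CommRing R] (ν : Fin n → M) (x : Fin n → R) (e : Fin n →₀ ℕ) :
    ∏ l, (AddMonoidAlgebra.single (ν l) (x l) : AddMonoidAlgebra R M) ^ e l =
      AddMonoidAlgebra.single (∑ l, e l • ν l) (∏ l, x l ^ e l) := by
  rw [← AddMonoidAlgebra.prod_single]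
  exact Finset.prod_congr rfl fun l _ => AddMonoidAlgebra.single_pow _ _ _

theorem pg_coeff (f : MvPolynomial (Fin n) A) (μ : M) :
    (pg wt f).coeff μ = weightedHomogeneousComponent wt μ f := by
  have h1 : ∀ (e : Fin n →₀ ℕ) (a : A), pg wt (monomial e a) =
      AddMonoidAlgebra.single (∑ l, e l • wt l) (monomial e a) := by
    intro e a
    unfold pg
    rw [coe_eval₂Hom, eval₂_monomial, Finsupp.prod_fintype _ _ fun i => pow_zero _, prod_single_pow]
    change AddMonoidAlgebra.single 0 (C a) * _ = _
    rw [AddMonoidAlgebra.single_mul_single, zero_add, monomial_eq, Finsupp.prod_fintype _ _ fun i => pow_zero _]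
  have h2 : ∀ (e : Fin n →₀ ℕ) (a : A), weightedHomogeneousComponent wt μ (monomial e a) =
      if ∑ l, e l • wt l = μ then monomial e a else 0 := by
    intro e a
    have h3 : IsWeightedHomogeneous wt (monomial e a) (∑ l, e l • wt l) := by
      refine isWeightedHomogeneous_monomial wt e a ?_
      rw [Finsupp.weight_apply,
        Finsupp.sum_fintype e (fun i c => c • wt i) (fun i => zero_smul ℕ (wt i))]
    split_ifs with h
    · rw [← h]
      exact h3.weightedHomogeneousComponent_same
    · exact h3.weightedHomogeneousComponent_ne μ (Ne.symm h)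
  induction f using MvPolynomial.induction_on' with
  | monomial e a =>
    rw [h1, h2, AddMonoidAlgebra.coeff_single, Finsupp.single_apply]
  | add f g hf hg =>
    rw [map_add, map_add, AddMonoidAlgebra.coeff_add, Finsupp.add_apply, hf, hg]

theorem sum_whc (f : MvPolynomial (Fin n) A) : ∑ μ, weightedHomogeneousComponent wt μ f = f := by
  ext e
  rw [coeff_sum]
  simp only [coeff_weightedHomogeneousComponent]
  rw [Finset.sum_ite_eq, if_pos (Finset.mem_univ _)]

theorem whc_mul (f g : MvPolynomial (Fin n) A) (μ : M) : weightedHomogeneousComponent wt μ (f * g) =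
    ∑ ν, weightedHomogeneousComponent wt ν f * weightedHomogeneousComponent wt (μ - ν) g := by
  rw [← pg_coeff, map_mul, gra_mul]
  exact Finset.sum_congr rfl fun ν _ => by rw [pg_coeff, pg_coeff]

theorem whc_map {B : Type v} [CommRing B] (φ : A →+* B) (f : MvPolynomial (Fin n) A) (μ : M) :
    weightedHomogeneousComponent wt μ (MvPolynomial.map φ f) =
      MvPolynomial.map φ (weightedHomogeneousComponent wt μ f) := by
  ext e
  rw [coeff_weightedHomogeneousComponent, coeff_map, coeff_map, coeff_weightedHomogeneousComponent]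
  split_ifs
  · rfl
  · rw [map_zero]

end poly

section absgr

variable {A : Type u} [CommRing A] {n : ℕ} {M : Type y} [AddCommGroup M] [Fintype M] [DecidableEq M]
  {wt : Fin n → M}

theorem eval₂_single {R : Type*} [CommRing R] [Algebra A R] (y : Fin n → R) (i : Fin n) (d : ℕ) (κ : M)
    (g : MvPolynomial (Fin n) A)
    (hg : ∀ e ∈ g.support, ∑ l, e l = d ∧ ∑ l, e l • wt l = κ) :
    eval₂ ((AddMonoidAlgebra.singleZeroRingHom : R →+* AddMonoidAlgebra R M).comp (algebraMap A R))
        (fun l => AddMonoidAlgebra.single (wt l - wt i) (y l)) g =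
      AddMonoidAlgebra.single (κ - d • wt i) (eval₂ (algebraMap A R) y g) := by
  rw [eval₂_eq', eval₂_eq']
  have h1 := map_sum (AddMonoidAlgebra.singleAddHom (R := R) (κ - d • wt i))
    (fun e => algebraMap A R (coeff e g) * ∏ l, y l ^ e l) g.support
  refine Eq.trans ?_ h1.symm
  refine Finset.sum_congr rfl fun e he => ?_
  obtain ⟨h2, h3⟩ := hg e he
  rw [prod_single_pow]
  change AddMonoidAlgebra.single 0 (algebraMap A R (coeff e g)) * _ = AddMonoidAlgebra.single _ _
  rw [AddMonoidAlgebra.single_mul_single, zero_add]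
  congr 1
  simp only [smul_sub]
  rw [Finset.sum_sub_distrib, h3, ← Finset.sum_smul, h2]

theorem coeff_single' {R : Type*} [CommRing R] (ν μ : M) (r : R) :
    (AddMonoidAlgebra.single ν r : AddMonoidAlgebra R M).coeff μ = if ν = μ then r else 0 := by
  rw [AddMonoidAlgebra.coeff_single, Finsupp.single_apply]

/-- The sum of the components: sums. -/
theorem grs_add {R : Type*} [CommRing R] (g : R →+* AddMonoidAlgebra R M) {x y : R}
    (hx : ∑ μ, (g x).coeff μ = x) (hy : ∑ μ, (g y).coeff μ = y) : ∑ μ, (g (x + y)).coeff μ = x + y := by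
  rw [map_add]
  simp only [AddMonoidAlgebra.coeff_add, Finsupp.add_apply]
  rw [Finset.sum_add_distrib, hx, hy]

/-- The sum of the components: products. -/
theorem grs_mul {R : Type*} [CommRing R] (g : R →+* AddMonoidAlgebra R M) {x y : R}
    (hx : ∑ μ, (g x).coeff μ = x) (hy : ∑ μ, (g y).coeff μ = y) : ∑ μ, (g (x * y)).coeff μ = x * y := by
  rw [map_mul]
  simp only [gra_mul]
  rw [gra_conv (fun ν κ => (g x).coeff ν * (g y).coeff κ), ← Finset.sum_mul_sum, hx, hy]

/-- The sum of the components: one term. -/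
theorem grs_single {R : Type*} [CommRing R] (ν : M) (x : R) :
    ∑ μ, (AddMonoidAlgebra.single ν x : AddMonoidAlgebra R M).coeff μ = x := by
  simp only [coeff_single']
  rw [Finset.sum_ite_eq, if_pos (Finset.mem_univ _)]

/-- The components of the components: sums. -/
theorem grc_add {R : Type*} [CommRing R] (g : R →+* AddMonoidAlgebra R M) {x y : R}
    (hx : ∀ μ, g ((g x).coeff μ) = AddMonoidAlgebra.single μ ((g x).coeff μ))
    (hy : ∀ μ, g ((g y).coeff μ) = AddMonoidAlgebra.single μ ((g y).coeff μ)) (μ : M) :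
    g ((g (x + y)).coeff μ) = AddMonoidAlgebra.single μ ((g (x + y)).coeff μ) := by
  rw [map_add, AddMonoidAlgebra.coeff_add, Finsupp.add_apply, map_add, hx, hy,
    AddMonoidAlgebra.single_add]

/-- The components of the components: products. -/
theorem grc_mul {R : Type*} [CommRing R] (g : R →+* AddMonoidAlgebra R M) {x y : R}
    (hx : ∀ μ, g ((g x).coeff μ) = AddMonoidAlgebra.single μ ((g x).coeff μ))
    (hy : ∀ μ, g ((g y).coeff μ) = AddMonoidAlgebra.single μ ((g y).coeff μ)) (μ : M) :
    g ((g (x * y)).coeff μ) = AddMonoidAlgebra.single μ ((g (x * y)).coeff μ) := by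
  rw [map_mul, gra_mul, map_sum]
  have h1 := map_sum (AddMonoidAlgebra.singleAddHom (R := R) μ)
    (fun ν => (g x).coeff ν * (g y).coeff (μ - ν)) Finset.univ
  refine Eq.trans ?_ h1.symm
  refine Finset.sum_congr rfl fun ν _ => ?_
  rw [map_mul, hx, hy, AddMonoidAlgebra.single_mul_single, add_sub_cancel]
  rfl

/-- The components of the components: one term. -/
theorem grc_single {R : Type*} [CommRing R] (g : R →+* AddMonoidAlgebra R M) {ν : M} {x : R}
    (h : g x = AddMonoidAlgebra.single ν x) (μ : M) :
    g ((g x).coeff μ) = AddMonoidAlgebra.single μ ((g x).coeff μ) := by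
  rw [h, coeff_single']
  split_ifs with h1
  · rw [h, h1]
  · rw [map_zero, AddMonoidAlgebra.single_zero]

/-- Graded homomorphisms: sums. -/
theorem grh_add {R : Type*} {R' : Type*} [CommRing R] [CommRing R'] (g : R →+* AddMonoidAlgebra R M)
    (g' : R' →+* AddMonoidAlgebra R' M) (φ : R →+* R') {x y : R}
    (hx : ∀ μ, (g' (φ x)).coeff μ = φ ((g x).coeff μ)) (hy : ∀ μ, (g' (φ y)).coeff μ = φ ((g y).coeff μ)) (μ : M) :
    (g' (φ (x + y))).coeff μ = φ ((g (x + y)).coeff μ) := by
  rw [map_add, map_add, map_add, AddMonoidAlgebra.coeff_add, Finsupp.add_apply, hx, hy,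
    AddMonoidAlgebra.coeff_add, Finsupp.add_apply, map_add]

/-- Graded homomorphisms: products. -/
theorem grh_mul {R : Type*} {R' : Type*} [CommRing R] [CommRing R'] (g : R →+* AddMonoidAlgebra R M)
    (g' : R' →+* AddMonoidAlgebra R' M) (φ : R →+* R') {x y : R}
    (hx : ∀ μ, (g' (φ x)).coeff μ = φ ((g x).coeff μ)) (hy : ∀ μ, (g' (φ y)).coeff μ = φ ((g y).coeff μ)) (μ : M) :
    (g' (φ (x * y))).coeff μ = φ ((g (x * y)).coeff μ) := by
  rw [map_mul, map_mul, map_mul, gra_mul, gra_mul, map_sum]
  exact Finset.sum_congr rfl fun ν _ => by rw [hx, hy, map_mul]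

/-- Graded homomorphisms: one term. -/
theorem grh_single {R : Type*} {R' : Type*} [CommRing R] [CommRing R'] (g : R →+* AddMonoidAlgebra R M)
    (g' : R' →+* AddMonoidAlgebra R' M) (φ : R →+* R') {ν : M} {x : R} {x' : R'} (hφ : φ x = x')
    (h : g x = AddMonoidAlgebra.single ν x) (h' : g' x' = AddMonoidAlgebra.single ν x') (μ : M) :
    (g' (φ x)).coeff μ = φ ((g x).coeff μ) := by
  rw [hφ, h, h', coeff_single', coeff_single']
  split_ifs
  · exact hφ.symm
  · rw [map_zero]

end absgr

end MPadcGP
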