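import Pool.Agent.Lib.MP_adc574_ag_GP.GrB
import Pool.Agent.Lib.MP_adc574_ag_GP.GrDa
import Pool.Agent.Lib.MP_adc574_ag_GP.Ad

/-!
# GP2: the charts of a projective scheme with a diagonal group action are graded

`w l` is the weight of the coordinate `x_l`; `IsWHomog w I`: the ideal is homogeneous for these weights.
`grP hI hw : GrX (prC I) M`.
-/

set_option autoImplicit false
set_option linter.unusedSectionVars false

namespace MPadcGP

open MvPolynomial

universe u v w x y

section poly

variable {A : Type u} [CommRing A] {n : ℕ} {M : Type y} [AddCommGroup M] [Fintype M] [DecidableEq M]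
  (wt : Fin n → M)

variable {wt} in
theorem IsWHomog.map {I : Ideal (MvPolynomial (Fin n) A)} (hI : IsWHomog wt I) {B : Type v} [CommRing B]
    (φ : A →+* B) : IsWHomog wt (bI φ I) := by
  intro f hf μ
  induction hf using Submodule.span_induction generalizing μ with
  | mem x hx =>
    obtain ⟨g, hg, rfl⟩ := hx
    rw [whc_map]
    exact Ideal.mem_map_of_mem _ (hI g hg μ)
  | zero => rw [map_zero]; exact Ideal.zero_mem _
  | add x y _ _ hx hy => rw [map_add]; exact Ideal.add_mem _ (hx μ) (hy μ)
  | smul a x _ hx =>
    rw [smul_eq_mul, whc_mul]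
    exact Ideal.sum_mem _ fun ν _ => Ideal.mul_mem_left _ _ (hx _)

end poly

section chart

variable {A : Type u} [CommRing A] {n : ℕ} {M : Type y} [AddCommGroup M] [Fintype M] [DecidableEq M]
  {wt : Fin n → M} {I : Ideal (MvPolynomial (Fin n) A)}

theorem exists_gc (hI : IsHomog I) (hw : IsWHomog wt I) (J : Finset (Fin n)) :
    ∃ g : chart I J →+* AddMonoidAlgebra (chart I J) M,
      (∀ a, g (algebraMap A _ a) = AddMonoidAlgebra.single 0 (algebraMap A _ a)) ∧
      ∀ l j (hj : j ∈ J), g (cq I J l hj) = AddMonoidAlgebra.single (wt l - wt j) (cq I J l hj) := by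
  rcases J.eq_empty_or_nonempty with hJ | ⟨i, hi⟩
  · subst hJ
    exact ⟨AddMonoidAlgebra.singleZeroRingHom, fun a => rfl, fun l j hj => absurd hj (Finset.notMem_empty j)⟩
  · obtain ⟨g, hg1, hg2⟩ := exists_chart_lift I J
      (R' := AddMonoidAlgebra (chart I J) M)
      ((AddMonoidAlgebra.singleZeroRingHom : chart I J →+* _).comp (algebraMap A (chart I J))) hi
      (fun l => AddMonoidAlgebra.single (wt l - wt i) (cq I J l hi))
      (by rw [cq_self, sub_self]; rfl)
      (by
        intro j hj
        refine IsUnit.of_mul_eq_one (AddMonoidAlgebra.single (wt i - wt j) (cq I J i hj)) ?_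
        rw [AddMonoidAlgebra.single_mul_single, cq_mul, cq_self, sub_add_sub_cancel, sub_self]
        rfl)
      (by
        intro f hf
        have h1 : ∀ d : ℕ, ∀ κ : M, eval₂
            ((AddMonoidAlgebra.singleZeroRingHom : chart I J →+* AddMonoidAlgebra (chart I J) M).comp
              (algebraMap A (chart I J)))
            (fun l => AddMonoidAlgebra.single (wt l - wt i) (cq I J l hi))
            (weightedHomogeneousComponent wt κ (homogeneousComponent d f)) = 0 := by
          intro d κ
          rw [eval₂_single (fun l => cq I J l hi) i d κ]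
          · rw [eval₂_cq hI hi (hw _ (hI f hf d) κ), AddMonoidAlgebra.single_zero]
          · intro e he
            rw [mem_support_iff, coeff_weightedHomogeneousComponent] at he
            split_ifs at he with h2
            · rw [coeff_homogeneousComponent] at he
              split_ifs at he with h3
              · refine ⟨?_, ?_⟩
                · rw [← h3, Finsupp.degree_eq_sum]
                · rw [← h2, Finsupp.weight_apply,
                    Finsupp.sum_fintype e (fun i c => c • wt i) (fun i => zero_smul ℕ (wt i))]
              · exact absurd rfl he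
            · exact absurd rfl he
        have h2 : ∀ d : ℕ, eval₂Hom
            ((AddMonoidAlgebra.singleZeroRingHom : chart I J →+* AddMonoidAlgebra (chart I J) M).comp
              (algebraMap A (chart I J)))
            (fun l => AddMonoidAlgebra.single (wt l - wt i) (cq I J l hi))
            (homogeneousComponent d f) = 0 := by
          intro d
          rw [← sum_whc wt (homogeneousComponent d f), map_sum]
          exact Finset.sum_eq_zero fun κ _ => h1 d κ
        have h3 := congrArg (eval₂Hom
            ((AddMonoidAlgebra.singleZeroRingHom : chart I J →+* AddMonoidAlgebra (chart I J) M).comp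
              (algebraMap A (chart I J)))
            (fun l => AddMonoidAlgebra.single (wt l - wt i) (cq I J l hi))) (sum_homogeneousComponent f)
        rw [map_sum] at h3
        change _ = eval₂ _ _ f at h3
        rw [← h3]
        exact Finset.sum_eq_zero fun d _ => h2 d)
    refine ⟨g, fun a => by rw [hg1]; rfl, fun l j hj => ?_⟩
    have hu : IsUnit (AddMonoidAlgebra.single (wt j - wt i) (cq I J j hi) :
        AddMonoidAlgebra (chart I J) M) := by
      refine IsUnit.of_mul_eq_one (AddMonoidAlgebra.single (wt i - wt j) (cq I J i hj)) ?_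
      rw [AddMonoidAlgebra.single_mul_single, cq_mul, cq_self, sub_add_sub_cancel, sub_self]
      rfl
    apply hu.mul_right_cancel
    rw [← hg2 j, ← map_mul, cq_mul, hg2, hg2, AddMonoidAlgebra.single_mul_single, cq_mul,
      sub_add_sub_cancel]

/-- The coaction on the chart. -/
noncomputable def gc (hI : IsHomog I) (hw : IsWHomog wt I) (J : Finset (Fin n)) :
    chart I J →+* AddMonoidAlgebra (chart I J) M := (exists_gc hI hw J).choose

theorem gc_base (hI : IsHomog I) (hw : IsWHomog wt I) (J : Finset (Fin n)) (a : A) :
    gc hI hw J (algebraMap A _ a) = AddMonoidAlgebra.single 0 (algebraMap A _ a) :=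
  (exists_gc hI hw J).choose_spec.1 a

theorem gc_cq (hI : IsHomog I) (hw : IsWHomog wt I) (J : Finset (Fin n)) (l : Fin n) {j : Fin n}
    (hj : j ∈ J) :
    gc hI hw J (cq I J l hj) = AddMonoidAlgebra.single (wt l - wt j) (cq I J l hj) :=
  (exists_gc hI hw J).choose_spec.2 l j hj

/-- The grading of the chart. -/
noncomputable def grC (hI : IsHomog I) (hw : IsWHomog wt I) (J : Finset (Fin n)) :
    Grd A (chart I J) M where
  g := gc hI hw J
  base := gc_base hI hw J
  sum r := by
    induction r using chart_ind with
    | h1 a => exact (congrArg (fun z => ∑ μ, z.coeff μ) (gc_base hI hw J a)).trans (grs_single _ _)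
    | h2 l m hm => exact (congrArg (fun z => ∑ μ, z.coeff μ) (gc_cq hI hw J l hm)).trans (grs_single _ _)
    | h3 x y hx hy => exact grs_add (R := chart I J) (gc hI hw J) hx hy
    | h4 x y hx hy => exact grs_mul (R := chart I J) (gc hI hw J) hx hy
  co r := by
    induction r using chart_ind with
    | h1 a => exact grc_single (R := chart I J) (gc hI hw J) (gc_base hI hw J a)
    | h2 l m hm => exact grc_single (R := chart I J) (gc hI hw J) (gc_cq hI hw J l hm)
    | h3 x y hx hy => exact grc_add (R := chart I J) (gc hI hw J) hx hy
    | h4 x y hx hy => exact grc_mul (R := chart I J) (gc hI hw J) hx hy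

/-- The cover data of a projective scheme with weights is graded. -/
noncomputable def grP (hI : IsHomog I) (hw : IsWHomog wt I) : GrX (prC I) M where
  G J := grC hI hw J
  comm {J K} h μ r := by
    revert μ
    change ∀ μ, (gc hI hw K ((tr I h : chart I J →+* chart I K) r)).coeff μ =
      (tr I h : chart I J →+* chart I K) ((gc hI hw J r).coeff μ)
    induction r using chart_ind with
    | h1 a =>
      exact grh_single (R := chart I J) (R' := chart I K) (gc hI hw J) (gc hI hw K) (tr I h : chart I J →+* chart I K)
        (AlgHom.commutes (tr I h) a) (gc_base hI hw J a) (gc_base hI hw K a)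
    | h2 l m hm =>
      exact grh_single (R := chart I J) (R' := chart I K) (gc hI hw J) (gc hI hw K) (tr I h : chart I J →+* chart I K)
        (tr_cq I h l hm) (gc_cq hI hw J l hm) (gc_cq hI hw K l (h hm))
    | h3 x y hx hy =>
      exact grh_add (R := chart I J) (R' := chart I K) (gc hI hw J) (gc hI hw K) (tr I h : chart I J →+* chart I K) hx hy
    | h4 x y hx hy =>
      exact grh_mul (R := chart I J) (R' := chart I K) (gc hI hw J) (gc hI hw K) (tr I h : chart I J →+* chart I K) hx hy

/-- The specialization respects the gradings. -/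
theorem prH_gr {B : Type v} [CommRing B] (φ : A →+* B) (hI : IsHomog I) (hw : IsWHomog wt I) :
    GrX.HmGr (grP hI hw) (grP (hI.map φ) (hw.map φ)) (prH φ I) := by
  intro J μ r
  revert μ
  change ∀ μ, (gc (hI.map φ) (hw.map φ) J (cb φ I J r)).coeff μ = cb φ I J ((gc hI hw J r).coeff μ)
  induction r using chart_ind with
  | h1 a =>
    exact grh_single (R := chart I J) (R' := chart (bI φ I) J) (gc hI hw J) (gc (hI.map φ) (hw.map φ) J) (cb φ I J)
      (cb_base φ I J a) (gc_base hI hw J a) (gc_base (hI.map φ) (hw.map φ) J (φ a))
  | h2 l m hm =>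
    exact grh_single (R := chart I J) (R' := chart (bI φ I) J) (gc hI hw J) (gc (hI.map φ) (hw.map φ) J) (cb φ I J)
      (cb_cq φ I J l hm) (gc_cq hI hw J l hm) (gc_cq (hI.map φ) (hw.map φ) J l hm)
  | h3 x y hx hy =>
    exact grh_add (R := chart I J) (R' := chart (bI φ I) J) (gc hI hw J) (gc (hI.map φ) (hw.map φ) J) (cb φ I J) hx hy
  | h4 x y hx hy =>
    exact grh_mul (R := chart I J) (R' := chart (bI φ I) J) (gc hI hw J) (gc (hI.map φ) (hw.map φ) J) (cb φ I J) hx hy

end chart

end MPadcGP
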