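import Pool.Agent.Lib.MP_adc574_ag_GP.Fil

/-!
# Filtered complexes with a decomposition (GP2, helper59)

`π μ`: orthogonal projectors with sum `1` which commute with `D`, `W μ` the image of `π μ`.
* `finrank_HH_sum`: the cohomology of `S' / S` is the direct sum of its parts of weight `μ`.
* `eqw`: equality of the total dimensions gives the equality in every weight.
-/

set_option autoImplicit false

namespace MPadcGP

open Module

section Dec

variable {κ T M : Type*} [Field κ] [AddCommGroup T] [Module κ T] [Fintype M]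

/-- Orthogonal projectors with the sum `1` which commute with `D`, and their images. -/
structure IsDec (D : T →ₗ[κ] T) (π : M → T →ₗ[κ] T) (W : M → Submodule κ T) : Prop where
  mem : ∀ μ x, x ∈ W μ ↔ π μ x = x
  idem : ∀ μ x, π μ (π μ x) = π μ x
  orth : ∀ μ ν x, μ ≠ ν → π μ (π ν x) = 0
  sum : ∀ x, ∑ μ, π μ x = x
  comm : ∀ μ x, D (π μ x) = π μ (D x)

/-- A family of submodules which is stable under the projectors. -/
def IsSt (π : M → T →ₗ[κ] T) (S : ℕ → Submodule κ T) : Prop := ∀ μ m, ∀ x ∈ S m, π μ x ∈ S m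

/-- The part of weight `μ`. -/
def Sw (W : M → Submodule κ T) (S : ℕ → Submodule κ T) (μ : M) (m : ℕ) : Submodule κ T := S m ⊓ W μ

variable {D : T →ₗ[κ] T} {π : M → T →ₗ[κ] T} {W : M → Submodule κ T} {S S' : ℕ → Submodule κ T}

omit [Fintype M] in
theorem IsSt.pr (h : IsSt π S) : IsSt π (pr S) := by
  intro μ m x hx
  cases m with
  | zero =>
    have h1 : x = 0 := hx
    rw [h1, map_zero]
    exact Submodule.zero_mem _
  | succ m => exact h μ m x hx

theorem IsSub.sw (hd : IsDec D π W) (h : IsSub D S) (μ : M) : IsSub D (Sw W S μ) := by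
  intro m x hx
  refine ⟨h m x hx.1, (hd.mem _ _).2 ?_⟩
  rw [← hd.comm, (hd.mem μ x).1 hx.2]

omit [Fintype M] in
theorem Sw_mono (h : ∀ m, S m ≤ S' m) (μ : M) (m : ℕ) : Sw W S μ m ≤ Sw W S' μ m :=
  inf_le_inf_right _ (h m)

theorem pi_ZZ (hd : IsDec D π W) (hS : IsSt π S) (hS' : IsSt π S') {μ : M} {m : ℕ} {x : T}
    (hx : x ∈ ZZ D S S' m) : π μ x ∈ ZZ D (Sw W S μ) (Sw W S' μ) m := by
  refine ⟨⟨hS' μ m x hx.1, (hd.mem _ _).2 (hd.idem μ x)⟩, ?_⟩
  change D (π μ x) ∈ S (m + 1) ⊓ W μ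
  rw [hd.comm]
  exact ⟨hS μ _ _ hx.2, (hd.mem _ _).2 (hd.idem μ _)⟩

theorem pi_BB (hd : IsDec D π W) (hS : IsSt π S) (hS' : IsSt π S') {μ : M} {m : ℕ} {x : T}
    (hx : x ∈ BB D S S' m) : π μ x ∈ BB D (Sw W S μ) (Sw W S' μ) m := by
  obtain ⟨s, hs, y, hy, rfl⟩ := mem_BB.1 hx
  refine mem_BB.2 ⟨π μ s, ⟨hS μ m s hs, (hd.mem _ _).2 (hd.idem μ s)⟩, π μ y, ?_, by rw [map_add, hd.comm]⟩
  cases m with
  | zero =>
    have h1 : y = 0 := hy
    rw [h1, map_zero]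
    exact Submodule.zero_mem _
  | succ m => exact ⟨hS' μ m y hy, (hd.mem _ _).2 (hd.idem μ y)⟩

omit [Fintype M] in
theorem Sw_ZZ {μ : M} {m : ℕ} {x : T} (hx : x ∈ ZZ D (Sw W S μ) (Sw W S' μ) m) : x ∈ ZZ D S S' m :=
  ⟨hx.1.1, (show D x ∈ S (m + 1) ⊓ W μ from hx.2).1⟩

omit [Fintype M] in
theorem Sw_BB {μ : M} {m : ℕ} {x : T} (hx : x ∈ BB D (Sw W S μ) (Sw W S' μ) m) : x ∈ BB D S S' m := by
  obtain ⟨s, hs, y, hy, rfl⟩ := mem_BB.1 hx
  refine mem_BB.2 ⟨s, hs.1, y, ?_, rfl⟩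
  cases m with
  | zero => exact hy
  | succ m => exact (show y ∈ S' m ⊓ W μ from hy).1

/-- The projection to the weight `μ` on the cohomology. -/
noncomputable def hpr (hd : IsDec D π W) (hS : IsSt π S) (hS' : IsSt π S') (μ : M) (m : ℕ) :
    HH D S S' m →ₗ[κ] HH D (Sw W S μ) (Sw W S' μ) m :=
  Submodule.mapQ _ _ ((π μ).restrict fun _ hx => pi_ZZ hd hS hS' hx) fun _ hx => pi_BB hd hS hS' hx

theorem hpr_mk (hd : IsDec D π W) (hS : IsSt π S) (hS' : IsSt π S') (μ : M) (m : ℕ) (x : ZZ D S S' m) :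
    hpr hd hS hS' μ m (Submodule.Quotient.mk x) = Submodule.Quotient.mk ⟨π μ x, pi_ZZ hd hS hS' x.2⟩ := rfl

/-- All the projections. -/
noncomputable def hpi (hd : IsDec D π W) (hS : IsSt π S) (hS' : IsSt π S') (m : ℕ) :
    HH D S S' m →ₗ[κ] ∀ μ, HH D (Sw W S μ) (Sw W S' μ) m := LinearMap.pi fun μ => hpr hd hS hS' μ m

theorem hpi_injective (hd : IsDec D π W) (hS : IsSt π S) (hS' : IsSt π S') (m : ℕ) :
    Function.Injective (hpi hd hS hS' m) := by
  rw [injective_iff_map_eq_zero]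
  intro a ha
  induction a using Submodule.Quotient.induction_on with
  | H x =>
    rw [Submodule.Quotient.mk_eq_zero]
    have h1 : ∀ μ, π μ x ∈ BB D S S' m := by
      intro μ
      have h2 := congrFun ha μ
      change hpr hd hS hS' μ m (Submodule.Quotient.mk x) = 0 at h2
      rw [hpr_mk, Submodule.Quotient.mk_eq_zero] at h2
      exact Sw_BB h2
    change (x : T) ∈ BB D S S' m
    rw [← hd.sum x]
    exact Submodule.sum_mem _ fun μ _ => h1 μ

theorem hpi_surjective (hd : IsDec D π W) (hS : IsSt π S) (hS' : IsSt π S') (m : ℕ) :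
    Function.Surjective (hpi hd hS hS' m) := by
  classical
  intro a
  have h1 : ∀ μ, ∃ x : ZZ D (Sw W S μ) (Sw W S' μ) m, Submodule.Quotient.mk x = a μ := fun μ =>
    Submodule.Quotient.mk_surjective _ (a μ)
  choose x hx using h1
  have hz : ∑ μ, (x μ : T) ∈ ZZ D S S' m := Submodule.sum_mem _ fun μ _ => Sw_ZZ (x μ).2
  have hw : ∀ μ, π μ (x μ) = x μ := fun μ => (hd.mem μ _).1 (x μ).2.1.2
  refine ⟨Submodule.Quotient.mk ⟨∑ μ, (x μ : T), hz⟩, ?_⟩
  funext ν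
  rw [← hx ν]
  change hpr hd hS hS' ν m (Submodule.Quotient.mk ⟨∑ μ, (x μ : T), hz⟩) = _
  rw [hpr_mk]
  congr 1
  apply Subtype.ext
  change π ν (∑ μ, (x μ : T)) = x ν
  rw [map_sum, Finset.sum_eq_single ν (fun μ _ hμ => ?_) (fun h => absurd (Finset.mem_univ ν) h), hw]
  rw [← hw μ, hd.orth _ _ _ hμ.symm]

theorem hpr_surjective (hd : IsDec D π W) (hS : IsSt π S) (hS' : IsSt π S') (μ : M) (m : ℕ) :
    Function.Surjective (hpr hd hS hS' μ m) := by
  classical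
  intro a
  obtain ⟨b, hb⟩ := hpi_surjective hd hS hS' m (Function.update 0 μ a)
  refine ⟨b, ?_⟩
  have h1 := congrFun hb μ
  rw [Function.update_self] at h1
  exact h1

theorem finite_weight (hd : IsDec D π W) (hS : IsSt π S) (hS' : IsSt π S') (μ : M) (m : ℕ)
    (hf : FiniteDimensional κ (HH D S S' m)) : FiniteDimensional κ (HH D (Sw W S μ) (Sw W S' μ) m) :=
  Module.Finite.of_surjective _ (hpr_surjective hd hS hS' μ m)

theorem finite_of_weight (hd : IsDec D π W) (hS : IsSt π S) (hS' : IsSt π S') (m : ℕ)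
    (hf : ∀ μ, FiniteDimensional κ (HH D (Sw W S μ) (Sw W S' μ) m)) : FiniteDimensional κ (HH D S S' m) :=
  Module.Finite.of_injective _ (hpi_injective hd hS hS' m)

/-- The cohomology is the direct sum of its parts. -/
theorem finrank_HH_sum (hd : IsDec D π W) (hS : IsSt π S) (hS' : IsSt π S') (m : ℕ)
    (hf : ∀ μ, FiniteDimensional κ (HH D (Sw W S μ) (Sw W S' μ) m)) :
    finrank κ (HH D S S' m) = ∑ μ, finrank κ (HH D (Sw W S μ) (Sw W S' μ) m) := by
  rw [(LinearEquiv.ofBijective (hpi hd hS hS' m) ⟨hpi_injective hd hS hS' m,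
    hpi_surjective hd hS hS' m⟩).finrank_eq, finrank_pi_fintype]

end Dec

section Eqw

variable {κ T M : Type*} [Field κ] [AddCommGroup T] [Module κ T] [Fintype M]
  {D : T →ₗ[κ] T} {π : M → T →ₗ[κ] T} {W : M → Submodule κ T} {S : ℕ → ℕ → Submodule κ T}

/-- If the graded pieces of the chain `S` in the weight `σ μ` have at most the dimensions `e j μ` and the
total dimension is at least the sum of all `e j μ`, then all these dimensions are equal and the chain is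
exact in every weight. -/
theorem eqw (hd : IsDec D π W) (hD : D ∘ₗ D = 0) (hS : ∀ j m, S j m ≤ S (j + 1) m)
    (hsub : ∀ j, IsSub D (S j)) (hst : ∀ j, IsSt π (S j)) (σ : Equiv.Perm M) (m r : ℕ)
    (e : ℕ → M → ℕ)
    (f : ∀ j μ, FiniteDimensional κ (HH D (Sw W (S j) (σ μ)) (Sw W (S (j + 1)) (σ μ)) m))
    (he : ∀ j μ, finrank κ (HH D (Sw W (S j) (σ μ)) (Sw W (S (j + 1)) (σ μ)) m) ≤ e j μ)
    (h : ∑ j ∈ Finset.range r, ∑ μ, e j μ ≤ finrank κ (HH D (S 0) (S r) m)) (μ : M) :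
    (∀ j < r, finrank κ (HH D (Sw W (S j) (σ μ)) (Sw W (S (j + 1)) (σ μ)) m) = e j μ) ∧
    (∀ j ≤ r, finrank κ (HH D (Sw W (S 0) (σ μ)) (Sw W (S j) (σ μ)) m) = ∑ l ∈ Finset.range j, e l μ) ∧
    ∀ j ≤ r, ∀ x ∈ ZZ D (Sw W (S 0) (σ μ)) (Sw W (S j) (σ μ)) m,
      x ∈ BB D (Sw W (S 0) (σ μ)) (Sw W (S r) (σ μ)) m →
      x ∈ BB D (Sw W (S 0) (σ μ)) (Sw W (S j) (σ μ)) m := by
  have hmono : ∀ ν j m, Sw W (S j) ν m ≤ Sw W (S (j + 1)) ν m := fun ν j m => Sw_mono (hS j) ν m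
  have hsub' : ∀ ν j, IsSub D (Sw W (S j) ν) := fun ν j => (hsub j).sw hd ν
  have f' : ∀ ν j, FiniteDimensional κ (HH D (Sw W (S j) ν) (Sw W (S (j + 1)) ν) m) := by
    intro ν j
    have h1 := f j (σ.symm ν)
    rw [Equiv.apply_symm_apply] at h1
    exact h1
  have hle : ∀ ν, finrank κ (HH D (Sw W (S 0) (σ ν)) (Sw W (S r) (σ ν)) m) ≤
      ∑ j ∈ Finset.range r, finrank κ (HH D (Sw W (S j) (σ ν)) (Sw W (S (j + 1)) (σ ν)) m) := fun ν =>
    chain_le (S := fun j => Sw W (S j) (σ ν)) hD (hmono _) (hsub' _) m (f' _) r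
  have hle2 : ∀ ν, ∑ j ∈ Finset.range r, finrank κ (HH D (Sw W (S j) (σ ν)) (Sw W (S (j + 1)) (σ ν)) m) ≤
      ∑ j ∈ Finset.range r, e j ν := fun ν => Finset.sum_le_sum fun j _ => he j ν
  have htot : ∑ ν, ∑ j ∈ Finset.range r, e j ν ≤
      ∑ ν, finrank κ (HH D (Sw W (S 0) (σ ν)) (Sw W (S r) (σ ν)) m) := by
    rw [Finset.sum_comm, Equiv.sum_comp σ fun ν => finrank κ (HH D (Sw W (S 0) ν) (Sw W (S r) ν) m),
      ← finrank_HH_sum hd (hst 0) (hst r) m fun ν =>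
        chain_finite (S := fun j => Sw W (S j) ν) hD (hmono _) (hsub' _) m (f' _) r]
    exact h
  have heq : ∀ ν, finrank κ (HH D (Sw W (S 0) (σ ν)) (Sw W (S r) (σ ν)) m) =
      ∑ j ∈ Finset.range r, e j ν := by
    have h1 : ∀ ν ∈ (Finset.univ : Finset M), finrank κ (HH D (Sw W (S 0) (σ ν)) (Sw W (S r) (σ ν)) m) ≤
        ∑ j ∈ Finset.range r, e j ν := fun ν _ => (hle ν).trans (hle2 ν)
    intro ν
    exact (Finset.sum_eq_sum_iff_of_le h1).1 (le_antisymm (Finset.sum_le_sum h1) htot) ν (Finset.mem_univ ν)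
  have heq2 : ∑ j ∈ Finset.range r, finrank κ (HH D (Sw W (S j) (σ μ)) (Sw W (S (j + 1)) (σ μ)) m) =
      ∑ j ∈ Finset.range r, e j μ := le_antisymm (hle2 μ) ((heq μ).symm.le.trans (hle μ))
  have hpt : ∀ j < r, finrank κ (HH D (Sw W (S j) (σ μ)) (Sw W (S (j + 1)) (σ μ)) m) = e j μ := fun j hj =>
    (Finset.sum_eq_sum_iff_of_le fun j _ => he j μ).1 heq2 j (Finset.mem_range.2 hj)
  have hx : ∑ j ∈ Finset.range r, finrank κ (HH D (Sw W (S j) (σ μ)) (Sw W (S (j + 1)) (σ μ)) m) ≤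
      finrank κ (HH D (Sw W (S 0) (σ μ)) (Sw W (S r) (σ μ)) m) := by
    rw [heq2, heq μ]
  refine ⟨hpt, fun j hj => ?_, chain_injective (S := fun j => Sw W (S j) (σ μ)) hD (hmono _) (hsub' _) m
    (f' _) r hx⟩
  rcases hj.lt_or_eq with hj | rfl
  · rw [(chain_exact (S := fun j => Sw W (S j) (σ μ)) hD (hmono _) (hsub' _) m (f' _) r hx j hj).1]
    exact Finset.sum_congr rfl fun l hl => hpt l ((Finset.mem_range.1 hl).trans hj)
  · exact heq μ

end Eqw

end MPadcGP
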