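import Pool.Agent.Lib.MP_adc574_ag_GP.FB3

/-!
# Base change with filtrations (GP, helper79)

`IsBCm B φ N N'`: the submodule `N'` is the base change of `N` to `B` through `φ`.
`IsBas D S a m y`: `y` is a basis of `H ^ m (S)` up to `a`.
`IsAdapted D F a m z lev`: `z` is a basis of `H ^ m (F 0)` up to `a`, adapted to the filtration `F i`.
`exists_adapted`: for a bounded filtered complex with finitely generated cohomology over a domain there are
adapted bases up to some `a ≠ 0`.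
`bas_bc`, `adapted_bc`: they become bases (adapted bases) over every algebra `B` in which `a` is a unit.
-/

set_option autoImplicit false

namespace MPadcGP

open scoped TensorProduct

section bc

universe u v w x y

variable {A : Type u} [CommRing A] {T : Type v} [AddCommGroup T] [Module A T] {D : T →ₗ[A] T}
  (B : Type w) [CommRing B] [Algebra A B] {T' : Type x} [AddCommGroup T'] [Module B T']
  {D' : T' →ₗ[B] T'} {φ : T →+ T'}

/-- `N'` is the base change of `N` through `φ`. -/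
def IsBCm (φ : T →+ T') (N : Submodule A T) (N' : Submodule B T') : Prop :=
  ∃ g : B ⊗[A] ↥N ≃ₗ[B] ↥N', ∀ x : N, (g (1 ⊗ₜ x) : T') = φ x

variable {B}

theorem IsBCm.mem {N : Submodule A T} {N' : Submodule B T'} (h : IsBCm B φ N N') {x : T} (hx : x ∈ N) :
    φ x ∈ N' := by
  obtain ⟨g, hg⟩ := h
  have h1 := hg ⟨x, hx⟩
  rw [← h1]
  exact (g (1 ⊗ₜ ⟨x, hx⟩)).2

/-- A basis of the cohomology up to `a` becomes a basis over every algebra in which `a` is a unit. -/
theorem bas_bc {S : ℕ → Submodule A T} {S' : ℕ → Submodule B T'}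
    (hS : ∀ m, ∀ x ∈ S m, D x ∈ S (m + 1)) (hD : ∀ x, D (D x) = 0)
    (hS' : ∀ m, ∀ x ∈ S' m, D' x ∈ S' (m + 1))
    (hflat : ∀ m, Module.Flat A (S m)) (N : ℕ) (htop : ∀ m, N < m → S m = ⊥)
    (hφD : ∀ x, φ (D x) = D' (φ x)) (hbc : ∀ m, IsBCm B φ (S m) (S' m))
    {a : A} (ha : IsUnit (algebraMap A B a)) {ι : ℕ → Type y} [∀ m, Fintype (ι m)] {y : ∀ m, ι m → T}
    (hy : ∀ m, IsBas D S a m (y m)) (m : ℕ) : IsBas D' S' (1 : B) m (fun j => φ (y m j)) := by
  let R := Localization.Away a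
  let : Algebra R B := (IsLocalization.Away.lift (S := R) a ha).toAlgebra
  have : IsScalarTower A R B := IsScalarTower.of_algebraMap_eq fun r => by
    change algebraMap A B r = (IsLocalization.Away.lift (S := R) a ha) (algebraMap A R r)
    rw [IsLocalization.Away.lift_eq]
  choose g0 hg0 using hbc
  let g : ∀ m, B ⊗[R] (R ⊗[A] ↥(S m)) ≃ₗ[B] ↥(S' m) := fun m =>
    (TensorProduct.AlgebraTensorModule.cancelBaseChange A R B B (S m)).trans (g0 m)
  have hg1 : ∀ m (b : B) (r : R) (s : S m), g m (b ⊗ₜ (r ⊗ₜ s)) = (r • b) • g0 m (1 ⊗ₜ s) := by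
    intro m b r s
    change g0 m ((r • b) ⊗ₜ s) = _
    rw [← map_smul, TensorProduct.smul_tmul', smul_eq_mul, mul_one]
  have hg2 : ∀ m (s : S m), g0 (m + 1) (1 ⊗ₜ dS hS m s) = dS hS' m (g0 m (1 ⊗ₜ s)) := by
    intro m s
    apply Subtype.ext
    rw [hg0, dS_coe, dS_coe, hg0, hφD]
  have hg : ∀ m (b : B) (z : R ⊗[A] ↥(S m)), g (m + 1) (b ⊗ₜ dlc hS R m z) = dS hS' m (g m (b ⊗ₜ z)) := by
    intro m b z
    induction z with
    | zero => simp only [map_zero, TensorProduct.tmul_zero]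
    | add x y hx hy => simp only [map_add, TensorProduct.tmul_add, hx, hy]
    | tmul r s => rw [dl_tmul, hg1, hg1, map_smul, hg2]
  have hd := dl_dl hS R hD
  have hC : ∀ m, Module.Flat R (R ⊗[A] ↥(S m)) := fun m => by
    have := hflat m
    exact inferInstance
  have hH : ∀ m, Module.Flat R (Hh (dlc hS R) m) := fun m => by
    have := loc_free hS R a (hy m)
    exact inferInstance
  have htop' : ∀ m, N < m → Subsingleton (R ⊗[A] ↥(S m)) := fun m hm => by
    have h1 : Subsingleton ↥(S m) := by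
      rw [htop m hm]
      exact inferInstance
    exact inferInstance
  have hall := flat_all hd hC hH N htop'
  have hcy : ∀ j, (1 : R) ⊗ₜ[A] (⟨y m j, ((hy m).mem j).1⟩ : S m) ∈ ccy (dlc hS R) m := fun j => by
    rw [mem_cy, dl_tmul]
    have h1 : dS hS m (⟨y m j, ((hy m).mem j).1⟩ : S m) = 0 := Subtype.ext ((hy m).mem j).2
    rw [h1, TensorProduct.tmul_zero]
  have hgy : ∀ j, ((g m (1 ⊗ₜ ((1 : R) ⊗ₜ[A] (⟨y m j, ((hy m).mem j).1⟩ : S m))) : S' m) : T') = φ (y m j) := by
    intro j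
    rw [hg1, one_smul, one_smul, hg0]
  have hsum : ∀ c : ι m → B, ((∑ j, c j • g m (1 ⊗ₜ ((1 : R) ⊗ₜ[A] (⟨y m j, ((hy m).mem j).1⟩ : S m))) : S' m) : T') =
      ∑ j, c j • φ (y m j) := by
    intro c
    rw [Submodule.coe_sum]
    refine Finset.sum_congr rfl fun j _ => ?_
    rw [Submodule.coe_smul, hgy]
  have := hH (m + 1)
  have := (hall (m + 1 + 1)).2
  have := (hall (m + 1)).2
  refine ⟨fun j => ⟨?_, ?_⟩, fun c hc => ?_, fun x hx => ?_⟩
  · rw [← hgy]
    exact Subtype.coe_prop _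
  · change D' (φ (y m j)) = 0
    rw [← hφD, ((hy m).mem j).2, map_zero]
  · refine bc_indep B g hd hg m _ hcy (loc_span hS R a (hy m)) (loc_indep hS R a (hy m)) c ?_
    rw [mem_bd_dS, hsum]
    exact hc
  · obtain ⟨c, hc⟩ := bc_span B g hd hg m _ (loc_span hS R a (hy m)) ⟨x, hx.1⟩ (Subtype.ext hx.2)
    refine ⟨c, ?_⟩
    rw [mem_bd_dS, Submodule.coe_sub, hsum] at hc
    rw [one_smul]
    exact hc

end bc

end MPadcGP
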