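import Pool.Agent.Lib.MP_adc574_ag_GP.GrE
import Pool.Agent.Lib.MP_adc574_ag_GP.Eqw
import Pool.Agent.Lib.MP_adc574_ag_GP.FB4

/-!
# GP2: the complexes of the forms of a given weight

* `GrX.isDec`, `GrX.isSt_Tt`, ...: the decomposition of the cochains by the weights.
* `IsBCm.weight`, `flat_weight`: base change and flatness of the part of weight `μ`.
-/

set_option autoImplicit false
set_option linter.unusedSectionVars false

namespace MPadcGP

universe u v w x y

open TensorProduct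

namespace GrX

section field

variable {κ : Type u} [Field κ] {n : ℕ} {X : CovD.{u, v} κ n} {M : Type y} [AddCommGroup M]
  [Fintype M] [DecidableEq M] (W : GrX X M)

/-- The decomposition of the cochains by the weights. -/
theorem isDec : IsDec X.Dt W.P W.Wt where
  mem μ x := Iff.rfl
  idem μ x := by rw [W.P_P, if_pos rfl]
  orth μ ν x h := by rw [W.P_P, if_neg h]
  sum x := W.sum_P x
  comm μ x := (W.P_Dt μ x).symm

theorem isSt_Tt : IsSt W.P X.Tt := fun μ _ _ hx => W.P_mem_Tt hx μ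

theorem isSt_Fi (i : ℕ) : IsSt W.P (X.Fi i) := fun μ _ _ hx => W.P_mem_Fi hx μ

theorem isSt_Ni (i : ℕ) : IsSt W.P (X.Ni i) := fun μ _ _ hx => W.P_mem_Ni hx μ

theorem isSt_Np (a : ℕ) : IsSt W.P (X.Np a) := by
  intro μ m x hx
  cases a with
  | zero =>
    have h : x = 0 := (Submodule.mem_bot κ).mp hx
    rw [h, map_zero]
    exact zero_mem _
  | succ a => exact W.P_mem_Ni hx μ

theorem wp_exq {R : Type*} [CommRing R] [Algebra κ R] (G : Grd κ R M) (μ : M) {q : ℕ} {e : Fm κ R}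
    (he : e ∈ exq κ R q) : wp G μ e ∈ exq κ R q := by
  cases q with
  | zero =>
    rw [mem_exq_zero.mp he, wp_zero]
    exact zero_mem _
  | succ q =>
    obtain ⟨f, hf, rfl⟩ := mem_exq_succ.mp he
    exact mem_exq_succ.mpr ⟨wp G μ f, wp_mem G hf μ, (wp_dd G μ f).symm⟩

theorem isSt_Mi (a : ℕ) : IsSt W.P (X.Mi a) := fun μ _ _ hx =>
  ⟨W.P_mem_Tt hx.1 μ, fun J => ⟨fun h => by rw [W.P_apply, (hx.2 J).1 h, wp_zero], fun h =>
    wp_exq (W.G J) μ ((hx.2 J).2 h)⟩⟩

end field

end GrX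

section proj

variable {A : Type u} [CommRing A] {T : Type v} [AddCommGroup T] [Module A T]

/-- The part of a stable submodule fixed by a projector is a direct summand. -/
theorem flat_weight {π : T →ₗ[A] T} (hπ : ∀ x, π (π x) = π x) {W : Submodule A T}
    (hW : ∀ x, x ∈ W ↔ π x = x) {N : Submodule A T} (hN : ∀ x ∈ N, π x ∈ N) [Module.Flat A ↥N] :
    Module.Flat A ↥(N ⊓ W) := by
  let i : ↥(N ⊓ W) →ₗ[A] ↥N := Submodule.inclusion inf_le_left
  let r : ↥N →ₗ[A] ↥(N ⊓ W) :=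
    (π.comp N.subtype).codRestrict (N ⊓ W) fun x => ⟨hN x x.2, (hW _).2 (hπ x)⟩
  have h : r.comp i = LinearMap.id := by
    ext x
    exact (hW x).1 x.2.2
  exact Module.Flat.of_retract i r h

variable {B : Type w} [CommRing B] [Algebra A B] {T' : Type x} [AddCommGroup T'] [Module B T']
  {φ : T →+ T'}

/-- Base change of the part fixed by a projector. -/
theorem IsBCm.weight {π : T →ₗ[A] T} (hπ : ∀ x, π (π x) = π x) {W : Submodule A T}
    (hW : ∀ x, x ∈ W ↔ π x = x) {π' : T' →ₗ[B] T'}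
    {W' : Submodule B T'} (hW' : ∀ x, x ∈ W' ↔ π' x = x) (hφ : ∀ x, φ (π x) = π' (φ x))
    {N : Submodule A T} {N' : Submodule B T'} (hN : ∀ x ∈ N, π x ∈ N)
    (h : IsBCm B φ N N') : IsBCm B φ (N ⊓ W) (N' ⊓ W') := by
  obtain ⟨g, hg⟩ := h
  let i : ↥(N ⊓ W) →ₗ[A] ↥N := Submodule.inclusion inf_le_left
  let r : ↥N →ₗ[A] ↥(N ⊓ W) :=
    (π.comp N.subtype).codRestrict (N ⊓ W) fun x => ⟨hN x x.2, (hW _).2 (hπ x)⟩
  have hri : r.comp i = LinearMap.id := by
    ext x
    exact (hW x).1 x.2.2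
  have hgt : ∀ (b : B) (x : N), (g (b ⊗ₜ x) : T') = b • φ x := by
    intro b x
    have e : (b ⊗ₜ[A] x : B ⊗[A] ↥N) = b • ((1 : B) ⊗ₜ[A] x) := by
      rw [TensorProduct.smul_tmul', smul_eq_mul, mul_one]
    rw [e, map_smul, Submodule.coe_smul, hg]
  -- `g` composed with the projection
  have h1 : ∀ t : B ⊗[A] ↥N, (g ((i.comp r).baseChange B t) : T') = π' (g t : T') := by
    intro t
    induction t using TensorProduct.induction_on with
    | zero => rw [map_zero, map_zero, Submodule.coe_zero, map_zero]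
    | tmul b x =>
      rw [LinearMap.baseChange_tmul, hgt, hgt, map_smul, ← hφ]
      rfl
    | add s t hs ht => rw [map_add, map_add, Submodule.coe_add, hs, ht, map_add, Submodule.coe_add, map_add]
  have h2 : ∀ t : B ⊗[A] ↥(N ⊓ W), r.baseChange B (i.baseChange B t) = t := by
    intro t
    have h3 : r.baseChange B ∘ₗ i.baseChange B = LinearMap.id := by
      rw [← LinearMap.baseChange_comp, hri, LinearMap.baseChange_id]
    exact LinearMap.congr_fun h3 t
  have h4 : ∀ t : B ⊗[A] ↥(N ⊓ W), (g (i.baseChange B t) : T') ∈ N' ⊓ W' := by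
    intro t
    refine ⟨(g _).2, (hW' _).2 ?_⟩
    rw [← h1, LinearMap.baseChange_comp, LinearMap.comp_apply, h2]
  let G : B ⊗[A] ↥(N ⊓ W) →ₗ[B] ↥(N' ⊓ W') :=
    (N'.subtype ∘ₗ (g : B ⊗[A] ↥N →ₗ[B] ↥N') ∘ₗ i.baseChange B).codRestrict (N' ⊓ W') h4
  have hG : ∀ t, (G t : T') = g (i.baseChange B t) := fun t => rfl
  have hGi : Function.Injective G := by
    intro s t hst
    have h5 : g (i.baseChange B s) = g (i.baseChange B t) := Subtype.ext (by
      rw [← hG, ← hG, hst])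
    rw [← h2 s, ← h2 t, g.injective h5]
  have hGs : Function.Surjective G := by
    intro y
    obtain ⟨t, ht⟩ := g.surjective ⟨(y : T'), y.2.1⟩
    refine ⟨r.baseChange B t, Subtype.ext ?_⟩
    rw [hG, ← LinearMap.comp_apply, ← LinearMap.baseChange_comp, h1, ht]
    exact (hW' _).1 y.2.2
  exact ⟨LinearEquiv.ofBijective G ⟨hGi, hGs⟩, fun x => by
    change (G (1 ⊗ₜ x) : T') = φ x
    rw [hG, LinearMap.baseChange_tmul, hgt, one_smul]
    rfl⟩

end proj

end MPadcGP
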