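import Pool.Agent.Lib.MP_adc574_ag_GP.Parts
import Pool.Agent.Lib.MP_adc574_ag_GP.GrD
import Pool.Agent.Lib.MP_adc574_ag_GP.GrF
import Pool.Agent.Lib.MP_adc574_ag_GP.G2Lin

/-!
# GP2: adapted bases of the graded cohomology; the definitions used in the statements of the parts

The index `a = (m, μ)`: degree and weight.
-/

set_option autoImplicit false
set_option linter.unusedSectionVars false

namespace MPadcGP

universe u v w x

namespace GrX

variable {A : Type u} [CommRing A] {n : ℕ} {X : CovD.{u, v} A n} {M : Type} [AddCommGroup M]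
  [Fintype M] [DecidableEq M] (W : GrX X M)

/-- The part of weight `μ` of the cohomology. -/
noncomputable def HW (m : ℕ) (μ : M) : Submodule A (X.HdR m) :=
  ((W.Wt μ).submoduleOf (X.Zc m)).map (X.cl m)

theorem mem_HW {m : ℕ} {μ : M} {x : X.HdR m} :
    x ∈ W.HW m μ ↔ ∃ c : ↥(X.Zc m), (c : X.Ch) ∈ W.Wt μ ∧ X.cl m c = x := Iff.rfl

/-- The components of weight `μ` of the logarithmic classes. -/
def logW (m : ℕ) (μ : M) (j : ℕ) : Set ↥(W.HW m μ) :=
  {x | ∃ c c' : ↥(X.Zc m), IsLogCoc X m j c ∧ (c' : X.Ch) = W.P μ c ∧ X.cl m c' = x}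

theorem P_mem_Zc {m : ℕ} {c : X.Ch} (hc : c ∈ X.Zc m) (μ : M) : W.P μ c ∈ X.Zc m := by
  refine ⟨W.P_mem_Tt hc.1 μ, ?_⟩
  have h : X.Dt c = 0 := hc.2
  change X.Dt (W.P μ c) = 0
  rw [← W.P_Dt, h, map_zero]

theorem P_mem_Bc {m : ℕ} {c : X.Ch} (hc : c ∈ X.Bc m) (μ : M) : W.P μ c ∈ X.Bc m := by
  cases m with
  | zero =>
    have h : c = 0 := hc
    rw [h, map_zero]
    exact Submodule.zero_mem _
  | succ m =>
    obtain ⟨b, hb, rfl⟩ := hc
    exact ⟨W.P μ b, W.P_mem_Tt hb μ, (W.P_Dt μ b).symm⟩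

/-- The cohomology algebra, graded by the degree and the weight, is in general position. -/
def IsGeneralW {k : Type u} [Field k] {n : ℕ} {X : CovD.{u, v} k n} (W : GrX X M) : Prop :=
  letI : ∀ a : ℕ × M, AddCommGroup ↥(W.HW a.1 a.2) := fun _ => inferInstance
  letI : ∀ a : ℕ × M, Module k ↥(W.HW a.1 a.2) := fun _ => inferInstance
  MPadcGP2.InGeneralPosition (H := fun a : ℕ × M => ↥(W.HW a.1 a.2))
    (fun a D x y => X.gaussManin a.1 D x y) (fun a i => (X.Fil a.1 i).submoduleOf (W.HW a.1 a.2))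
    (fun a b x y z => X.cupRel a.1 b.1 x y z) (fun a j => W.logW a.1 a.2 j)

end GrX

/-- Adapted bases of the graded cohomology. -/
structure IsAdW {A : Type u} [CommRing A] {n : ℕ} {X : CovD.{u, v} A n} {M : Type} [AddCommGroup M]
    [Fintype M] [DecidableEq M] (W : GrX X M) {β : ℕ × M → Type} [∀ a, Fintype (β a)]
    (lev : ∀ a, β a → ℕ) (z : ∀ a, β a → X.Ch) : Prop where
  mem : ∀ a b, z a b ∈ X.Fi (lev a b) a.1
  wt : ∀ a b, z a b ∈ W.Wt a.2
  coc : ∀ a b, X.Dt (z a b) = 0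
  gen : ∀ a i, ∀ x ∈ X.Fi i a.1, x ∈ W.Wt a.2 → X.Dt x = 0 →
    ∃ c : β a → A, (∀ b, lev a b < i → c b = 0) ∧ x - ∑ b, c b • z a b ∈ X.Bc a.1
  ind : ∀ a (c : β a → A), ∑ b, c b • z a b ∈ X.Bc a.1 → c = 0

namespace IsAdW

variable {A : Type u} [CommRing A] {n : ℕ} {X : CovD.{u, v} A n} {M : Type} [AddCommGroup M]
    [Fintype M] [DecidableEq M] {W : GrX X M} {β : ℕ × M → Type} [∀ a, Fintype (β a)]
    {lev : ∀ a, β a → ℕ} {z : ∀ a, β a → X.Ch} (h : IsAdW W lev z)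

include h in
theorem mem_Zc (a : ℕ × M) (b : β a) : z a b ∈ X.Zc a.1 := ⟨(h.mem a b).1, h.coc a b⟩

/-- The linear combination of the cocycles. -/
noncomputable def lc (a : ℕ × M) (c : β a → A) : ↥(X.Zc a.1) :=
  ⟨∑ b, c b • z a b, Submodule.sum_mem _ fun b _ => Submodule.smul_mem _ _ (h.mem_Zc a b)⟩

theorem lc_coe (a : ℕ × M) (c : β a → A) : (h.lc a c : X.Ch) = ∑ b, c b • z a b := rfl

include h in
theorem lc_mem_Wt (a : ℕ × M) (c : β a → A) : ∑ b, c b • z a b ∈ W.Wt a.2 :=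
  Submodule.sum_mem _ fun b _ => Submodule.smul_mem _ _ (h.wt a b)

/-- The linear map from the coordinates to the cohomology. -/
noncomputable def crd (a : ℕ × M) : (β a → A) →ₗ[A] X.HdR a.1 :=
  Fintype.linearCombination A fun b => X.cl a.1 ⟨z a b, h.mem_Zc a b⟩

theorem crd_eq (a : ℕ × M) (c : β a → A) : h.crd a c = X.cl a.1 (h.lc a c) := by
  have h1 : h.lc a c = ∑ b, c b • (⟨z a b, h.mem_Zc a b⟩ : ↥(X.Zc a.1)) := by
    apply Subtype.ext
    rw [lc_coe, Submodule.coe_sum]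
    exact Finset.sum_congr rfl fun b _ => rfl
  rw [h1, map_sum, crd, Fintype.linearCombination_apply]
  exact Finset.sum_congr rfl fun b _ => (map_smul _ _ _).symm

theorem crd_injective (a : ℕ × M) : Function.Injective (h.crd a) := by
  rw [injective_iff_map_eq_zero]
  intro c hc
  rw [crd_eq, CovD.cl_eq_zero] at hc
  exact h.ind a c hc

theorem crd_mem (a : ℕ × M) (c : β a → A) : h.crd a c ∈ W.HW a.1 a.2 :=
  W.mem_HW.2 ⟨h.lc a c, h.lc_mem_Wt a c, (h.crd_eq a c).symm⟩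

theorem exists_crd {a : ℕ × M} {x : X.HdR a.1} (hx : x ∈ W.HW a.1 a.2) : ∃ c, h.crd a c = x := by
  obtain ⟨c, hc, rfl⟩ := W.mem_HW.1 hx
  obtain ⟨e, -, he⟩ := h.gen a 0 c (by rw [CovD.Fi_zero]; exact c.2.1) hc c.2.2
  refine ⟨e, ?_⟩
  rw [crd_eq, eq_comm, CovD.cl_eq, lc_coe]
  exact he

/-- The coordinates. -/
noncomputable def eqv (a : ℕ × M) : (β a → A) ≃ₗ[A] ↥(W.HW a.1 a.2) :=
  LinearEquiv.ofBijective ((h.crd a).codRestrict (W.HW a.1 a.2) (h.crd_mem a))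
    ⟨fun c c' hc => h.crd_injective a (congrArg Subtype.val hc), fun x => by
      obtain ⟨c, hc⟩ := h.exists_crd x.2
      exact ⟨c, Subtype.ext hc⟩⟩

theorem eqv_coe (a : ℕ × M) (c : β a → A) : (h.eqv a c : X.HdR a.1) = h.crd a c := rfl

theorem eqv_apply (a : ℕ × M) (c : β a → A) : (h.eqv a c : X.HdR a.1) = X.cl a.1 (h.lc a c) :=
  h.crd_eq a c

theorem crd_mem_Fil {a : ℕ × M} {i : ℕ} {c : β a → A} :
    h.crd a c ∈ X.Fil a.1 i ↔ ∀ b, lev a b < i → c b = 0 := by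
  constructor
  · intro hc
    obtain ⟨y, hy, hyc⟩ := CovD.mem_Fil.1 hc
    obtain ⟨e, he, hye⟩ := h.gen a i (W.P a.2 y) (W.P_mem_Fi hy _) (W.P_mem _ _)
      (W.P_mem_Zc y.2 a.2).2
    have h1 : h.crd a e = h.crd a c := by
      rw [crd_eq, crd_eq, CovD.cl_eq]
      rw [crd_eq, CovD.cl_eq] at hyc
      have h2 := W.P_mem_Bc hyc a.2
      rw [map_sub, lc_coe, W.mem_Wt.1 (h.lc_mem_Wt a c)] at h2
      have h3 := Submodule.sub_mem _ h2 hye
      rw [lc_coe, lc_coe]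
      rw [sub_sub_sub_cancel_left] at h3
      exact h3
    rw [← h.crd_injective a h1]
    exact he
  · intro hc
    refine CovD.mem_Fil.2 ⟨h.lc a c, ?_, (h.crd_eq a c).symm⟩
    rw [lc_coe]
    refine Submodule.sum_mem _ fun b _ => ?_
    rcases Nat.lt_or_ge (lev a b) i with h1 | h1
    · rw [hc b h1, zero_smul]
      exact Submodule.zero_mem _
    · exact Submodule.smul_mem _ _ (CovD.Fi_anti h1 a.1 (h.mem a b))

include h in
/-- The bases of the parts give a basis of the cohomology. -/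
theorem total : IsAd X (β := fun m => Σ μ, β (m, μ)) (fun m b => lev (m, b.1) b.2)
    (fun m b => z (m, b.1) b.2) where
  mem m b := h.mem (m, b.1) b.2
  coc m b := h.coc (m, b.1) b.2
  gen m i x hx hD := by
    have h1 : ∀ μ, ∃ c : β (m, μ) → A, (∀ b, lev (m, μ) b < i → c b = 0) ∧
        W.P μ x - ∑ b, c b • z (m, μ) b ∈ X.Bc m := fun μ =>
      h.gen (m, μ) i (W.P μ x) (W.P_mem_Fi hx μ) (W.P_mem μ x) (by rw [← W.P_Dt, hD, map_zero])
    choose c hc1 hc2 using h1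
    refine ⟨fun b => c b.1 b.2, fun b hb => hc1 b.1 b.2 hb, ?_⟩
    rw [Fintype.sum_sigma]
    have h2 : x - ∑ μ, ∑ b, c μ b • z (m, μ) b = ∑ μ, (W.P μ x - ∑ b, c μ b • z (m, μ) b) := by
      rw [Finset.sum_sub_distrib, W.sum_P]
    rw [h2]
    exact Submodule.sum_mem _ fun μ _ => hc2 μ
  ind m c hc := by
    rw [Fintype.sum_sigma] at hc
    funext ⟨μ, b⟩
    have h1 := W.P_mem_Bc hc μ
    rw [map_sum, Finset.sum_eq_single μ] at h1
    · rw [W.mem_Wt.1 (h.lc_mem_Wt (m, μ) fun b => c ⟨μ, b⟩)] at h1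
      exact congrFun (h.ind (m, μ) _ h1) b
    · intro ν _ hν
      rw [W.P_of_mem (h.lc_mem_Wt (m, ν) fun b => c ⟨ν, b⟩), if_neg (Ne.symm hν)]
    · intro h
      exact absurd (Finset.mem_univ _) h

end IsAdW

section field

variable {κ : Type u} [Field κ] {n : ℕ} {X : CovD.{u, v} κ n} {M : Type} [AddCommGroup M]
    [Fintype M] [DecidableEq M] {W : GrX X M} {β : ℕ × M → Type} [∀ a, Fintype (β a)]
    {lev : ∀ a, β a → ℕ} {z : ∀ a, β a → X.Ch} (h : IsAdW W lev z)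

include h in
theorem IsAdW.finrank (a : ℕ × M) : Module.finrank κ ↥(W.HW a.1 a.2) = Fintype.card (β a) := by
  rw [← (h.eqv a).finrank_eq, Module.finrank_fintype_fun_eq_card]

include h in
theorem IsAdW.finite (a : ℕ × M) : FiniteDimensional κ ↥(W.HW a.1 a.2) :=
  Module.Finite.equiv (h.eqv a)

/-- The conjugate filtration in coordinates. -/
noncomputable def IsAdW.con (a : ℕ × M) (i : ℕ) : Submodule κ (β a → κ) :=
  (X.Con a.1 i).comap (h.crd a)

end field

section dat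

variable {A : Type u} [CommRing A] {n : ℕ} {I : Ideal (MvPolynomial (Fin n) A)} {M : Type}
  [AddCommGroup M] [Fintype M] [DecidableEq M] {wt : Fin n → M}

/-- `z` is an adapted basis of the graded de Rham cohomology and stays so after every base change;
`h q m` is the dimension of `H^(m-q)(Ω^q)` over every field. -/
structure DatW (hI : IsHomog I) (hw : IsWHomog wt I) {β : ℕ × M → Type} [∀ a, Fintype (β a)]
    [∀ a, DecidableEq (β a)] (lev : ∀ a, β a → ℕ) (z : ∀ a, β a → (prC I).Ch)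
    (h : ℕ → ℕ → ℕ) : Prop where
  self : IsAdW (grP hI hw) lev z
  ad : ∀ (B : Type u) [CommRing B] (φ : A →+* B),
    IsAdW (grP (hI.map φ) (hw.map φ)) lev (fun a b => (prH φ I).push (z a b))
  hodge : ∀ (κ : Type u) [Field κ] (φ : A →+* κ) (q m : ℕ),
    FiniteDimensional κ (HH (prC (bI φ I)).Dt ((prC (bI φ I)).Fi (q + 1)) ((prC (bI φ I)).Fi q) m) ∧
    Module.finrank κ (HH (prC (bI φ I)).Dt ((prC (bI φ I)).Fi (q + 1)) ((prC (bI φ I)).Fi q) m) = h q m
  ad0 : ∀ (κ : Type) [Field κ] (φ : A →+* κ),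
    IsAdW (grP (hI.map φ) (hw.map φ)) lev (fun a b => (prH φ I).push (z a b))
  hodge0 : ∀ (κ : Type) [Field κ] (φ : A →+* κ) (q m : ℕ),
    FiniteDimensional κ (HH (prC (bI φ I)).Dt ((prC (bI φ I)).Fi (q + 1)) ((prC (bI φ I)).Fi q) m) ∧
    Module.finrank κ (HH (prC (bI φ I)).Dt ((prC (bI φ I)).Fi (q + 1)) ((prC (bI φ I)).Fi q) m) = h q m
  bound : ∃ N, ∀ a : ℕ × M, N ≤ a.1 → IsEmpty (β a)

/-- The underlying data without the weights. -/
theorem DatW.total {hI : IsHomog I} {hw : IsWHomog wt I} {β : ℕ × M → Type} [∀ a, Fintype (β a)]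
    [∀ a, DecidableEq (β a)] {lev : ∀ a, β a → ℕ} {z : ∀ a, β a → (prC I).Ch} {h : ℕ → ℕ → ℕ}
    (hD : DatW hI hw lev z h) : Dat (β := fun m => Σ μ, β (m, μ)) I (fun m b => lev (m, b.1) b.2)
      (fun m b => z (m, b.1) b.2) h where
  self := hD.self.total
  ad B _ φ := (hD.ad B φ).total
  hodge := hD.hodge
  ad0 κ _ φ := (hD.ad0 κ φ).total
  hodge0 := hD.hodge0
  bound := by
    obtain ⟨N, hN⟩ := hD.bound
    refine ⟨N, fun m hm => ⟨fun b => ?_⟩⟩
    exact (hN (m, b.1) hm).false b.2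

theorem DatW.bound' {hI : IsHomog I} {hw : IsWHomog wt I} {β : ℕ × M → Type} [∀ a, Fintype (β a)]
    [∀ a, DecidableEq (β a)] {lev : ∀ a, β a → ℕ} {z : ∀ a, β a → (prC I).Ch} {h : ℕ → ℕ → ℕ}
    (hD : DatW hI hw lev z h) : ∃ B : Finset (ℕ × M), ∀ a, a ∉ B → IsEmpty (β a) := by
  obtain ⟨N, hN⟩ := hD.bound
  refine ⟨Finset.range N ×ˢ Finset.univ, fun a ha => hN a ?_⟩
  by_contra h
  exact ha (Finset.mem_product.2 ⟨Finset.mem_range.2 (not_le.1 h), Finset.mem_univ _⟩)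

end dat

/-- The linear data over `A` belonging to the adapted basis `z` and the lifts `V` of the derivations:
`G` the matrices of the connection, `mu` the structure constants, `Lg` coordinate vectors of the weight
components of logarithmic cocycles. -/
structure LinRelW {A : Type u} [CommRing A] {n : ℕ} {X : CovD.{u, v} A n} {M : Type} [AddCommGroup M]
    [Fintype M] [DecidableEq M] (W : GrX X M) {β : ℕ × M → Type} [∀ a, Fintype (β a)]
    (z : ∀ a, β a → X.Ch) {N : ℕ} {D : Fin N → Derivation ℤ A A}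
    (V : ∀ l, Lft X (D l)) (G : ∀ a, Fin N → β a → β a → A)
    (mu : ∀ a a', β a → β a' → β (a + a') → A) (Lg : ∀ a : ℕ × M, ℕ → Set (β a → A)) : Prop where
  gm : ∀ a l b, (V l).Gm (z a b) - ∑ b', G a l b' b • z a b' ∈ X.Bc a.1
  cup : ∀ a a' b b', X.cup (z a b) (z a' b') - ∑ c, mu a a' b b' c • z (a + a') c ∈
    X.Bc (a.1 + a'.1)
  log : ∀ a j, ∀ g ∈ Lg a j, ∃ c, IsLogCoc X a.1 j c ∧ W.P a.2 c - ∑ b, g b • z a b ∈ X.Bc a.1

/-- The linear data. -/
@[reducible] def mkLinW {A : Type u} [CommRing A] {ι : Type} [Add ι] {β : ι → Type}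
    [fi : ∀ a, Fintype (β a)] [de : ∀ a, DecidableEq (β a)] (lev : ∀ a, β a → ℕ) {N : ℕ}
    (D : Fin N → Derivation ℤ A A) (G : ∀ a, Fin N → β a → β a → A)
    (mu : ∀ a a', β a → β a' → β (a + a') → A) (Lg : ∀ a : ι, ℕ → Set (β a → A))
    (hb : ∃ B : Finset ι, ∀ a, a ∉ B → IsEmpty (β a)) : LinW ι A where
  N := N
  D := D
  β := β
  lev := lev
  G := G
  mu := mu
  Lg := Lg
  bound := hb

/-- The dimensions of the conjugate filtration are complementary to those of the Hodge filtration, in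
every weight. -/
def DimCW {κ : Type u} [Field κ] {n : ℕ} {X : CovD.{u, v} κ n} {M : Type} [AddCommGroup M]
    [Fintype M] [DecidableEq M] (W : GrX X M) : Prop :=
  ∀ (m i : ℕ) (μ : M), Module.finrank κ ↥(X.Con m i ⊓ W.HW m μ) +
    Module.finrank κ ↥(X.Fil m (i + 1) ⊓ W.HW m μ) = Module.finrank κ ↥(W.HW m μ)

end MPadcGP
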