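import Pool.Agent.Lib.MP_adc574_ag_GP.DRm

/-!
# Localization of the algebra of forms (helper27)

`S` the localization of `R` at `M`.
* `mp_surj`: every form of degree `q` on `S` becomes the image of a form of degree `q` on `R` after
  multiplication by an element of `M`.
* `mp_ker`: a form on `R` which vanishes on `S` is killed by an element of `M`.
-/

set_option autoImplicit false

namespace MPadcGP

universe u v w

section

variable {A : Type u} {R : Type v} {S : Type w} [CommRing A] [CommRing R] [CommRing S] [Algebra A R]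
  [Algebra A S] [Algebra R S] [IsScalarTower A R S] (M : Submonoid R) [IsLocalization M S]

omit M in
omit [IsLocalization M S] in
theorem cc_alg : CC A A (algebraMap R S) := fun a => ⟨a, (IsScalarTower.algebraMap_apply A R S a).symm⟩

omit [IsScalarTower A R S] in
theorem mp_surj (h : CC A A (algebraMap R S)) {q : ℕ} {e : Fm A S} (he : e ∈ Fd A S q) :
    ∃ m ∈ M, ∃ e₀ ∈ Fd A R q, fz A (algebraMap R S m) * e = mp (algebraMap R S) h e₀ := by
  have h1 : ∀ t : S, ∃ m ∈ M, ∃ e₀ ∈ Fd A R 1,
      fz A (algebraMap R S m) * df A t = mp (algebraMap R S) h e₀ := by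
    intro t
    obtain ⟨a, m, rfl⟩ := IsLocalization.exists_mk'_eq M t
    refine ⟨m * m, M.mul_mem m.2 m.2, fz A (m : R) * df A a - fz A a * df A (m : R),
      Submodule.sub_mem _ (fz_mul_mem _ (df_mem a)) (fz_mul_mem _ (df_mem _)), ?_⟩
    have h2 : algebraMap R S m * IsLocalization.mk' S a m = algebraMap R S a :=
      IsLocalization.mk'_spec' S a m
    have h3 : df A (algebraMap R S a) = fz A (algebraMap R S m) * df A (IsLocalization.mk' S a m) +
        fz A (IsLocalization.mk' S a m) * df A (algebraMap R S m) := by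
      rw [← h2, df_mul]
    rw [map_sub, map_mul (mp (algebraMap R S) h), map_mul (mp (algebraMap R S) h), mp_fz, mp_df,
      mp_fz, mp_df, h3, ← h2, map_mul (algebraMap R S), map_mul (fz A), map_mul (fz A), mul_add,
      mul_assoc, mul_assoc, add_sub_cancel_right]
  have h2 : ∀ (q : ℕ) (t : Fin q → S), ∃ m ∈ M, ∃ e₀ ∈ Fd A R q,
      fz A (algebraMap R S m) * wd A t = mp (algebraMap R S) h e₀ := by
    intro q
    induction q with
    | zero =>
      intro t
      refine ⟨1, M.one_mem, 1, ?_, ?_⟩
      · rw [← map_one (fz A)]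
        exact fz_mem 1
      · rw [map_one, map_one, one_mul, wd_zero, map_one]
    | succ q ih =>
      intro t
      obtain ⟨m, hm, a, ha, h3⟩ := h1 (t 0)
      obtain ⟨m', hm', b, hb, h4⟩ := ih (Fin.tail t)
      refine ⟨m * m', M.mul_mem hm hm', a * b, ?_, ?_⟩
      · have h5 := fd_mul ha hb
        rw [add_comm] at h5
        exact h5
      · rw [wd_succ, map_mul, map_mul, map_mul, ← h3, ← h4, mul_assoc, mul_assoc, ← mul_assoc
          (fz A (algebraMap R S m')), fz_comm _ (df A (t 0)), mul_assoc]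
  refine fd_ind (P := fun e => ∃ m ∈ M, ∃ e₀ ∈ Fd A R q,
    fz A (algebraMap R S m) * e = mp (algebraMap R S) h e₀) ?_ ?_ ?_ he
  · exact ⟨1, M.one_mem, 0, Submodule.zero_mem _, by rw [mul_zero, map_zero]⟩
  · intro r t
    obtain ⟨a, m, rfl⟩ := IsLocalization.exists_mk'_eq M r
    obtain ⟨m', hm', b, hb, h4⟩ := h2 q t
    refine ⟨m * m', M.mul_mem m.2 hm', fz A a * b, fz_mul_mem _ hb, ?_⟩
    have h2 : algebraMap R S m * IsLocalization.mk' S a m = algebraMap R S a :=
      IsLocalization.mk'_spec' S a m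
    rw [map_mul, map_mul, map_mul, mp_fz, ← h4, ← h2, map_mul, mul_assoc, mul_assoc,
      ← mul_assoc (fz A (algebraMap R S m')), ← mul_assoc (fz A (IsLocalization.mk' S a m)),
      fz_comm (algebraMap R S m')]
  · rintro a b ⟨m, hm, a₀, ha₀, h3⟩ ⟨m', hm', b₀, hb₀, h4⟩
    refine ⟨m * m', M.mul_mem hm hm', fz A m' * a₀ + fz A m * b₀,
      Submodule.add_mem _ (fz_mul_mem _ ha₀) (fz_mul_mem _ hb₀), ?_⟩
    rw [map_add, map_mul (mp (algebraMap R S) h), map_mul (mp (algebraMap R S) h), mp_fz,
      mp_fz, ← h3, ← h4, map_mul (algebraMap R S), mul_add, ← mul_assoc, ← mul_assoc,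
      ← map_mul (fz A), ← map_mul (fz A), mul_comm (algebraMap R S m')]

attribute [local instance] LocalizedModule.algebraOfIsLocalization

theorem exists_back (h : CC A A (algebraMap R S)) :
    ∃ F : Fm A S →+* LocalizedModule M (Fm A R), ∀ e : Fm A R,
      F (mp (algebraMap R S) h e) = LocalizedModule.mk e 1 := by
  have hfe : Algebra.FormallyEtale R S := Algebra.FormallyEtale.of_isLocalization M
  have hbc : IsBaseChange S (KaehlerDifferential.map A A R S) :=
    KaehlerDifferential.isBaseChange_of_formallyEtale A R S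
  have hloc : IsLocalizedModule M (KaehlerDifferential.map A A R S) :=
    (isLocalizedModule_iff_isBaseChange M S _).2 hbc
  let T := LocalizedModule M (Fm A R)
  have tower : IsScalarTower R S T := inferInstance
  let ℓ0 : Ω[R⁄A] →ₗ[R] T :=
    (LocalizedModule.mkLinearMap M (Fm A R)) ∘ₗ (ExteriorAlgebra.ι R)
  have hℓ0 : ∀ x, ℓ0 x = LocalizedModule.mk (ExteriorAlgebra.ι R x) 1 := fun x => rfl
  let ℓ : Ω[S⁄A] →ₗ[S] T := hbc.lift ℓ0
  have hℓ : ∀ x, ℓ (KaehlerDifferential.map A A R S x) = ℓ0 x := fun x => hbc.lift_eq ℓ0 x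
  have hsq : ∀ y, ℓ y * ℓ y = 0 := by
    intro y
    obtain ⟨⟨x, m⟩, hx⟩ := IsLocalizedModule.surj M (KaehlerDifferential.map A A R S) y
    have h1 : (m : R) • ℓ y = ℓ0 x := by
      rw [← hℓ]
      have h2 := congrArg ℓ hx
      rw [← h2]
      exact (map_smul (ℓ.restrictScalars R) (m : R) y).symm
    have h3 : ((m * m : M) : R) • (ℓ y * ℓ y) = 0 := by
      have h4 : ((m * m : M) : R) • (ℓ y * ℓ y) = ((m : R) • ℓ y) * ((m : R) • ℓ y) := by
        rw [smul_mul_smul_comm]
        rfl
      rw [h4, h1, hℓ0, LocalizedModule.mk_mul_mk, ExteriorAlgebra.ι_sq_zero,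
        LocalizedModule.zero_mk]
    exact LocalizedModule.eq_zero_of_smul_eq_zero _ (m * m).2 _ h3
  obtain ⟨F, hF1, hF2⟩ := exists_hom (A := A) (R := S) (E := T) (algebraMap S T)
    (fun r x => Algebra.commutes r x)
    { toFun := fun t => ℓ (KaehlerDifferential.D A S t)
      map_zero' := by rw [map_zero, map_zero]
      map_add' := fun s t => by rw [map_add, map_add] }
    (by
      intro r t
      change ℓ _ = algebraMap S T r * ℓ _ + algebraMap S T t * ℓ _
      rw [Derivation.leibniz, map_add, map_smul, map_smul, Algebra.smul_def, Algebra.smul_def])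
    (by
      intro a
      change ℓ _ = 0
      rw [Derivation.map_algebraMap, map_zero])
    (by
      intro s t
      change ℓ _ * ℓ _ + ℓ _ * ℓ _ = 0
      have h1 := hsq (KaehlerDifferential.D A S s + KaehlerDifferential.D A S t)
      rw [map_add, mul_add, add_mul, add_mul, hsq, hsq, zero_add, add_zero, add_comm] at h1
      exact h1)
    (by
      intro s
      exact hsq _)
  refine ⟨F, ?_⟩
  intro e
  have h1 : F.comp (mp (algebraMap R S) h) = LocalizedModule.numeratorRingHom := by
    refine hom_ext' ?_ ?_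
    · intro r
      rw [RingHom.comp_apply, mp_fz, hF1]
      have h2 : algebraMap R S r = IsLocalization.mk' S r (1 : M) := by
        rw [IsLocalization.mk'_one]
      rw [h2]
      exact LocalizedModule.algebraMap_mk' (S := M) S (A := Fm A R) r 1
    · intro t
      rw [RingHom.comp_apply, mp_df, hF2]
      change ℓ _ = _
      rw [← KaehlerDifferential.map_D A A R S t, hℓ]
      rfl
  exact DFunLike.congr_fun h1 e

theorem mp_ker (h : CC A A (algebraMap R S)) {e : Fm A R} (he : mp (algebraMap R S) h e = 0) :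
    ∃ m ∈ M, fz A m * e = 0 := by
  obtain ⟨F, hF⟩ := exists_back M h
  have h1 := hF e
  rw [he, map_zero, ← LocalizedModule.zero_mk 1, LocalizedModule.mk_eq] at h1
  obtain ⟨m, hm⟩ := h1
  refine ⟨m, m.2, ?_⟩
  rw [one_smul, one_smul, smul_zero] at hm
  rw [← fz_smul]
  exact hm.symm

end

end MPadcGP
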