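import Pool.Agent.Lib.MP_adc574_ag_GP.Parts

/-!
# GP: general position in coordinates (PART GL1b, helper92)
-/

set_option autoImplicit false

namespace MPadcGP

universe u v w x

section coh

variable {A : Type u} [CommRing A] {n : ℕ} {X : CovD.{u, v} A n}

namespace CovD

theorem Bc_of_eq {m l : ℕ} (h : m = l + 1) {x : X.Ch} (hx : x ∈ (X.Tt l).map X.Dt) : x ∈ X.Bc m := by
  subst h
  exact hx

theorem Dt_mem_Bc {m : ℕ} {c : X.Ch} (hc : c ∈ X.Tt m) : X.Dt c ∈ X.Bc (m + 1) := ⟨c, hc, rfl⟩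

theorem cup_zero_left (b : X.Ch) : X.cup 0 b = 0 := by
  have h := cup_smul_left (0 : A) (0 : X.Ch) b
  rw [zero_smul, zero_smul] at h
  exact h

theorem cup_zero_right (a : X.Ch) : X.cup a 0 = 0 := by
  have h := cup_smul_right (0 : A) a (0 : X.Ch)
  rw [zero_smul, zero_smul] at h
  exact h

theorem cup_sum_left {ι : Type*} (s : Finset ι) (f : ι → X.Ch) (b : X.Ch) :
    X.cup (∑ i ∈ s, f i) b = ∑ i ∈ s, X.cup (f i) b := by
  classical
  induction s using Finset.induction_on with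
  | empty => rw [Finset.sum_empty, Finset.sum_empty, cup_zero_left]
  | insert a s ha ih => rw [Finset.sum_insert ha, Finset.sum_insert ha, cup_add_left, ih]

theorem cup_sum_right {ι : Type*} (s : Finset ι) (f : ι → X.Ch) (a : X.Ch) :
    X.cup a (∑ i ∈ s, f i) = ∑ i ∈ s, X.cup a (f i) := by
  classical
  induction s using Finset.induction_on with
  | empty => rw [Finset.sum_empty, Finset.sum_empty, cup_zero_right]
  | insert b s ha ih => rw [Finset.sum_insert ha, Finset.sum_insert ha, cup_add_right, ih]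

theorem cup_mem_Zc {m m' : ℕ} {a b : X.Ch} (ha : a ∈ X.Zc m) (hb : b ∈ X.Zc m') :
    X.cup a b ∈ X.Zc (m + m') := by
  refine ⟨cup_mem ha.1 hb.1, ?_⟩
  have h := Dt_cup ha.1 hb.1
  have h1 : X.Dt a = 0 := ha.2
  have h2 : X.Dt b = 0 := hb.2
  rw [h1, h2, cup_zero_left, cup_zero_right, smul_zero, add_zero] at h
  exact h

theorem cup_Bc_right {m m' : ℕ} {a b : X.Ch} (ha : a ∈ X.Zc m) (hb : b ∈ X.Bc m') :
    X.cup a b ∈ X.Bc (m + m') := by
  cases m' with
  | zero =>
    have h1 : b = 0 := hb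
    rw [h1, cup_zero_right]
    exact Submodule.zero_mem _
  | succ m' =>
    obtain ⟨c, hc, rfl⟩ := hb
    have h := Dt_cup ha.1 hc
    have h1 : X.Dt a = 0 := ha.2
    rw [h1, cup_zero_left, zero_add] at h
    have h2 : X.cup a (X.Dt c) = ((-1 : ℤ) ^ m) • X.Dt (X.cup a c) := by
      rw [h, smul_smul, ← mul_pow, neg_one_mul, neg_neg, one_pow, one_smul]
    rw [h2]
    exact zsmul_mem (Bc_of_eq (add_assoc m m' 1).symm ⟨_, cup_mem ha.1 hc, rfl⟩) _

theorem cup_Bc_left {m m' : ℕ} {a b : X.Ch} (ha : a ∈ X.Bc m) (hb : b ∈ X.Zc m') :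
    X.cup a b ∈ X.Bc (m + m') := by
  cases m with
  | zero =>
    have h1 : a = 0 := ha
    rw [h1, cup_zero_left]
    exact Submodule.zero_mem _
  | succ m =>
    obtain ⟨c, hc, rfl⟩ := ha
    have h := Dt_cup hc hb.1
    have h1 : X.Dt b = 0 := hb.2
    rw [h1, cup_zero_right, smul_zero, add_zero] at h
    rw [← h]
    exact Bc_of_eq (by omega) ⟨_, cup_mem hc hb.1, rfl⟩

theorem cup_sub_mem_Bc {m m' : ℕ} {a a' b b' : X.Ch} (hb : b ∈ X.Zc m')
    (ha' : a' ∈ X.Zc m) (h : a - a' ∈ X.Bc m) (h' : b - b' ∈ X.Bc m') :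
    X.cup a b - X.cup a' b' ∈ X.Bc (m + m') := by
  have e1 : X.cup a b = X.cup (a - a') b + X.cup a' b := by
    rw [← cup_add_left, sub_add_cancel]
  have e2 : X.cup a' b = X.cup a' (b - b') + X.cup a' b' := by
    rw [← cup_add_right, sub_add_cancel]
  rw [e1, e2, ← add_assoc, add_sub_cancel_right]
  exact Submodule.add_mem _ (cup_Bc_left h hb) (cup_Bc_right ha' h')

end CovD

namespace Lft

variable {D : Derivation ℤ A A} (V V' : Lft X D)

theorem Gm_zero : V.Gm 0 = 0 := by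
  unfold Gm
  rw [map_zero, map_zero, map_zero, sub_zero]

theorem Gm_mem_Zc {m : ℕ} {c : X.Ch} (hc : c ∈ X.Zc m) : V.Gm c ∈ X.Zc m := by
  refine ⟨Gm_mem hc.1, ?_⟩
  have h1 : X.Dt c = 0 := hc.2
  change X.Dt (V.Gm c) = 0
  rw [← Gm_Dt hc.1.1, h1, Gm_zero]

theorem Gm_mem_Bc {m : ℕ} {c : X.Ch} (hc : c ∈ X.Bc m) : V.Gm c ∈ X.Bc m := by
  cases m with
  | zero =>
    have h1 : c = 0 := hc
    rw [h1, Gm_zero]
    exact Submodule.zero_mem _
  | succ m =>
    obtain ⟨b, hb, rfl⟩ := hc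
    rw [Gm_Dt hb.1]
    exact ⟨_, Gm_mem hb, rfl⟩

theorem Gm_sub (a b : X.Ch) : V.Gm (a - b) = V.Gm a - V.Gm b := by
  have h := V.Gm_add (a - b) b
  rw [sub_add_cancel] at h
  rw [h, add_sub_cancel_right]

theorem Gm_sum {ι : Type*} (s : Finset ι) (f : ι → X.Ch) :
    V.Gm (∑ i ∈ s, f i) = ∑ i ∈ s, V.Gm (f i) := by
  classical
  induction s using Finset.induction_on with
  | empty => rw [Finset.sum_empty, Finset.sum_empty, Gm_zero]
  | insert b s ha ih => rw [Finset.sum_insert ha, Finset.sum_insert ha, Gm_add, ih]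

theorem Hc_mem {m : ℕ} {c : X.Ch} (hc : c ∈ X.Tt (m + 1)) : Hc V V' c ∈ X.Tt m := by
  refine ⟨by rw [Hc_apply, hc.1, map_zero], fun J => ⟨fun q hq => ?_, fun h => ?_⟩⟩
  · rw [Hc_apply]
    exact cz_mem ((hc.2 J).1 (q + 1) (by omega))
  · rw [Hc_apply]
    rcases Nat.lt_or_ge (m + 2) J.card with h2 | h2
    · rw [(hc.2 J).2 h2, map_zero]
    · exact cz_mem_zero ((hc.2 J).1 0 (by omega))

theorem Hc_zero {c : X.Ch} (hc : c ∈ X.Tt 0) : Hc V V' c = 0 := by
  funext J
  rw [Hc_apply]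
  rcases Nat.lt_or_ge 1 J.card with h2 | h2
  · rw [(hc.2 J).2 h2, map_zero]
    rfl
  · rcases J.eq_empty_or_nonempty with hJ | hJ
    · subst hJ
      rw [hc.1, map_zero]
      rfl
    · have h3 := hJ.card_pos
      rw [cz_mem_zero ((hc.2 J).1 0 (by omega))]
      rfl

theorem Gm_sub_mem_Bc {m : ℕ} {c : X.Ch} (hc : c ∈ X.Zc m) : V.Gm c - V'.Gm c ∈ X.Bc m := by
  have h1 : X.Dt c = 0 := hc.2
  rw [Gm_homotopy V V' hc.1.1, h1, map_zero, add_zero]
  cases m with
  | zero =>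
    rw [Hc_zero V V' hc.1, map_zero]
    exact Submodule.zero_mem _
  | succ m => exact ⟨_, Hc_mem V V' hc.1, rfl⟩

end Lft

end coh

section push

variable {A : Type u} {B : Type w} [CommRing A] [CommRing B] {n : ℕ} {f : A →+* B}
  {X : CovD.{u, v} A n} {Y : CovD.{w, x} B n} {F : CovD.Hm f X Y}

theorem push_mem_Zc {m : ℕ} {c : X.Ch} (hc : c ∈ X.Zc m) : F.push c ∈ Y.Zc m := by
  refine ⟨CovD.Hm.push_mem_Tt hc.1, ?_⟩
  have h1 : X.Dt c = 0 := hc.2
  change Y.Dt (F.push c) = 0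
  rw [← CovD.Hm.push_Dt, h1, map_zero]

theorem push_mem_Bc {m : ℕ} {c : X.Ch} (hc : c ∈ X.Bc m) : F.push c ∈ Y.Bc m := by
  cases m with
  | zero =>
    have h1 : c = 0 := hc
    rw [h1, map_zero]
    exact Submodule.zero_mem _
  | succ m =>
    obtain ⟨b, hb, rfl⟩ := hc
    rw [CovD.Hm.push_Dt]
    exact ⟨_, CovD.Hm.push_mem_Tt hb, rfl⟩

theorem push_lin {ι : Type*} (s : Finset ι) (g : ι → A) (z : ι → X.Ch) :
    F.push (∑ b ∈ s, g b • z b) = ∑ b ∈ s, f (g b) • F.push (z b) := by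
  rw [map_sum]
  exact Finset.sum_congr rfl fun b _ => CovD.Hm.push_smul _ _

variable {β : ℕ → Type} [∀ m, Fintype (β m)] {lev : ∀ m, β m → ℕ} {z : ∀ m, β m → X.Ch}
  (h : IsAd Y lev fun m b => F.push (z m b))

theorem IsAd.cl_eq_eqv (m : ℕ) (c : ↥(Y.Zc m)) (g : β m → B)
    (hc : (c : Y.Ch) - ∑ b, g b • F.push (z m b) ∈ Y.Bc m) : Y.cl m c = h.eqv m g := by
  rw [IsAd.eqv_apply, CovD.cl_eq, IsAd.lc_coe]
  exact hc

theorem IsAd.sub_lc_mem {m : ℕ} {c : ↥(Y.Zc m)} {g : β m → B} (hc : Y.cl m c = h.eqv m g) :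
    (c : Y.Ch) - ∑ b, g b • F.push (z m b) ∈ Y.Bc m := by
  rw [IsAd.eqv_apply, CovD.cl_eq, IsAd.lc_coe] at hc
  exact hc

/-- The product in coordinates. -/
theorem glgen_cup {mu : ∀ m m', β m → β m' → β (m + m') → A}
    (hmu : ∀ m m' a b, X.cup (z m a) (z m' b) - ∑ c, mu m m' a b c • z (m + m') c ∈ X.Bc (m + m'))
    {m m' : ℕ} {x : β m → B} {y : β m' → B} {t : Y.HdR (m + m')}
    (ht : Y.cupRel m m' (h.eqv m x) (h.eqv m' y) t) :
    t = h.eqv (m + m') (fun c => ∑ a, ∑ b, f (mu m m' a b c) * (x a * y b)) := by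
  obtain ⟨a, b, c, hab, ha, hb, rfl⟩ := ht
  apply h.cl_eq_eqv
  have ha' := h.sub_lc_mem ha
  have hb' := h.sub_lc_mem hb
  have hza : ∑ b, x b • F.push (z m b) ∈ Y.Zc m := (h.lc m x).2
  have h1 := CovD.cup_sub_mem_Bc b.2 hza ha' hb'
  rw [hab] at h1
  have h2 : Y.cup (∑ b, x b • F.push (z m b)) (∑ b, y b • F.push (z m' b)) -
      ∑ c, (∑ a, ∑ b, f (mu m m' a b c) * (x a * y b)) • F.push (z (m + m') c) ∈ Y.Bc (m + m') := by
    have e1 : Y.cup (∑ b, x b • F.push (z m b)) (∑ b, y b • F.push (z m' b)) =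
        ∑ a, ∑ b, (x a * y b) • F.push (X.cup (z m a) (z m' b)) := by
      rw [CovD.cup_sum_left]
      refine Finset.sum_congr rfl fun a _ => ?_
      rw [CovD.cup_sum_right]
      refine Finset.sum_congr rfl fun b _ => ?_
      rw [CovD.cup_smul_left, CovD.cup_smul_right, smul_smul, CovD.Hm.push_cup]
    have e2 : ∑ c, (∑ a, ∑ b, f (mu m m' a b c) * (x a * y b)) • F.push (z (m + m') c) =
        ∑ a, ∑ b, (x a * y b) • F.push (∑ c, mu m m' a b c • z (m + m') c) := by
      simp only [Finset.sum_smul]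
      rw [Finset.sum_comm]
      refine Finset.sum_congr rfl fun a _ => ?_
      rw [Finset.sum_comm]
      refine Finset.sum_congr rfl fun b _ => ?_
      rw [push_lin, Finset.smul_sum]
      refine Finset.sum_congr rfl fun c _ => ?_
      rw [smul_smul, mul_comm]
    rw [e1, e2, ← Finset.sum_sub_distrib]
    refine Submodule.sum_mem _ fun a _ => ?_
    rw [← Finset.sum_sub_distrib]
    refine Submodule.sum_mem _ fun b _ => ?_
    rw [← smul_sub, ← map_sub]
    exact Submodule.smul_mem _ _ (push_mem_Bc (hmu m m' a b))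
  have h3 := Submodule.add_mem _ h1 h2
  rw [sub_add_sub_cancel] at h3
  exact h3

/-- The connection in coordinates. -/
theorem glgen_nab {N : ℕ} {D : Fin N → Derivation ℤ A A} (V : ∀ l, Lft X (D l))
    {G : ∀ m, Fin N → β m → β m → A}
    (hG : ∀ m l b, (V l).Gm (z m b) - ∑ b', G m l b' b • z m b' ∈ X.Bc m)
    (hz : ∀ m b, z m b ∈ X.Tt m) {D' : Derivation ℤ B B} (α : Fin N → B) (V'' : Lft Y D')
    (hc : ∀ K J : Finset (Fin n), K.Nonempty → K ⊆ J → ∀ x : X.R J,
      V''.V K J (F.h J x) = ∑ l, algebraMap B (Y.R J) (α l) * F.h J ((V l).V K J x))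
    {m : ℕ} {x : β m → B} {y : Y.HdR m} (hy : Y.gaussManin m D' (h.eqv m x) y) :
    y = h.eqv m (fun b' => D' (x b') + ∑ l, α l * ∑ b, f (G m l b' b) * x b) := by
  obtain ⟨V', c, c', hV, hcx, rfl⟩ := hy
  apply h.cl_eq_eqv
  rw [← hV]
  have h1 := V'.Gm_sub_mem_Bc V'' c.2
  have h2 := h.sub_lc_mem hcx
  have h3 := V''.Gm_mem_Bc h2
  rw [Lft.Gm_sub] at h3
  have h4 := Submodule.add_mem _ h1 h3
  rw [sub_add_sub_cancel] at h4
  have h5 : V''.Gm (∑ b, x b • F.push (z m b)) -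
      ∑ b', (D' (x b') + ∑ l, α l * ∑ b, f (G m l b' b) * x b) • F.push (z m b') ∈ Y.Bc m := by
    have hz0 : ∀ b, F.push (z m b) ∅ = 0 := fun b => (CovD.Hm.push_mem_Tt (hz m b)).1
    have e1 : V''.Gm (∑ b, x b • F.push (z m b)) =
        ∑ b, ∑ l, (x b * α l) • F.push ((V l).Gm (z m b)) + ∑ b, D' (x b) • F.push (z m b) := by
      rw [Lft.Gm_sum, ← Finset.sum_add_distrib]
      refine Finset.sum_congr rfl fun b _ => ?_
      rw [Lft.Gm_smul _ (hz0 b), CovD.Hm.push_Gm_comb V α V'' hc (hz m b).1, Finset.smul_sum]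
      congr 1
      refine Finset.sum_congr rfl fun l _ => ?_
      rw [smul_smul]
    have e2 : ∑ b', (D' (x b') + ∑ l, α l * ∑ b, f (G m l b' b) * x b) • F.push (z m b') =
        ∑ b, ∑ l, (x b * α l) • F.push (∑ b', G m l b' b • z m b') +
          ∑ b, D' (x b) • F.push (z m b) := by
      simp only [add_smul]
      rw [Finset.sum_add_distrib, add_comm]
      congr 1
      simp only [push_lin, Finset.smul_sum, smul_smul, Finset.sum_smul, Finset.mul_sum]
      rw [Finset.sum_comm]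
      rw [Finset.sum_congr rfl fun l _ => Finset.sum_comm, Finset.sum_comm]
      refine Finset.sum_congr rfl fun b _ => Finset.sum_congr rfl fun l _ =>
        Finset.sum_congr rfl fun b' _ => ?_
      congr 1
      ring
    rw [e1, e2, add_sub_add_right_eq_sub, ← Finset.sum_sub_distrib]
    refine Submodule.sum_mem _ fun b _ => ?_
    rw [← Finset.sum_sub_distrib]
    refine Submodule.sum_mem _ fun l _ => ?_
    rw [← smul_sub, ← map_sub]
    exact Submodule.smul_mem _ _ (push_mem_Bc (hG m l b))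
  have h6 := Submodule.add_mem _ h4 h5
  rw [sub_add_sub_cancel] at h6
  exact h6

end push

section gp

/-- General position, with the dimension as a variable. -/
private theorem glgen_cast {k : Type u} [Field k] {H : ℕ → Type v} [∀ n, AddCommGroup (H n)]
    [∀ n, Module k (H n)] {nab : ∀ n, Derivation ℤ k k → H n → H n → Prop}
    {Fl : ∀ n, ℕ → Submodule k (H n)} {cup : ∀ n n', H n → H n' → H (n + n') → Prop}
    {lg : ∀ n, ℕ → Set (H n)} (h : InGeneralPosition nab Fl cup lg) {P : ∀ n, ℕ → Submodule k (H n)}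
    (hP : IsConjugateType Fl cup lg P) (n i r : ℕ) (hr : Module.finrank k (Fl n (i + 1)) = r)
    (W : Submodule k (H n [⋀^Fin r]→ₗ[k] k)) (hW : IsHorizontal (nab n) W)
    (hW' : ∃ ω ∈ W, ω ≠ 0 ∧ ∀ x, (∃ u, x u ∈ P n i) → ω x = 0) :
    ∃ ω ∈ W, ∃ x, (∀ u, x u ∈ Fl n (i + 1)) ∧ ω x ≠ 0 := by
  subst hr
  exact h P hP n i W hW hW'

/-- Transport of general position along linear equivalences. -/
private theorem glgen_transport {k : Type u} [Field k] {H : ℕ → Type v} [∀ n, AddCommGroup (H n)]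
    [∀ n, Module k (H n)] {nab : ∀ n, Derivation ℤ k k → H n → H n → Prop}
    {Fl : ∀ n, ℕ → Submodule k (H n)} {cup : ∀ n n', H n → H n' → H (n + n') → Prop}
    {lg : ∀ n, ℕ → Set (H n)} (h : InGeneralPosition nab Fl cup lg)
    {H' : ℕ → Type w} [∀ n, AddCommGroup (H' n)]
    [∀ n, Module k (H' n)] {nab' : ∀ n, Derivation ℤ k k → H' n → H' n → Prop}
    {Fl' : ∀ n, ℕ → Submodule k (H' n)} {cup' : ∀ n n', H' n → H' n' → H' (n + n') → Prop}
    {lg' : ∀ n, ℕ → Set (H' n)} (e : ∀ n, H' n ≃ₗ[k] H n)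
    (hFl : ∀ n i x, e n x ∈ Fl n i ↔ x ∈ Fl' n i)
    (hnab : ∀ n D x y, nab n D (e n x) (e n y) → nab' n D x y)
    (hcup : ∀ n n' x y z, cup n n' (e n x) (e n' y) (e (n + n') z) → cup' n n' x y z)
    (hlg : ∀ (P : ∀ n, ℕ → Submodule k (H' n)), (∀ n j, ∀ x ∈ lg' n j, x ∈ P n j) →
      ∀ n j, ∀ x, e n x ∈ lg n j → x ∈ P n j) :
    InGeneralPosition nab' Fl' cup' lg' := by
  intro P hP n i W hW hWP
  have hmap : ∀ n i x, e n x ∈ (P n i).map (e n).toLinearMap ↔ x ∈ P n i := by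
    intro n i x
    constructor
    · rintro ⟨y, hy, hyx⟩
      have h1 : y = x := (e n).injective hyx
      rw [← h1]
      exact hy
    · intro hx
      exact ⟨x, hx, rfl⟩
  have hFl2 : ∀ n i, Fl n i = (Fl' n i).map (e n).toLinearMap := by
    intro n i
    ext x
    obtain ⟨y, rfl⟩ := (e n).surjective x
    rw [hFl]
    constructor
    · intro hy
      exact ⟨y, hy, rfl⟩
    · rintro ⟨y', hy', he⟩
      have h1 : y' = y := (e n).injective he
      rw [← h1]
      exact hy'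
  have hfr : ∀ n i, Module.finrank k (Fl n i) = Module.finrank k (Fl' n i) := by
    intro n i
    rw [hFl2]
    exact LinearEquiv.finrank_map_eq (e n) (Fl' n i)
  have hP' : IsConjugateType Fl cup lg fun n i => (P n i).map (e n).toLinearMap := by
    refine ⟨fun n i => Submodule.map_mono (hP.mono n i), fun n i => ?_, ?_, ?_⟩
    · have h1 : Module.finrank k ((P n i).map (e n).toLinearMap) = Module.finrank k (P n i) :=
        LinearEquiv.finrank_map_eq (e n) (P n i)
      rw [h1, hfr, ← (e n).finrank_eq]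
      exact hP.dim n i
    · rintro n n' i i' _ ⟨x, hx, rfl⟩ _ ⟨y, hy, rfl⟩ z hz
      obtain ⟨z, rfl⟩ := (e (n + n')).surjective z
      exact ⟨z, hP.mul n n' i i' x hx y hy z (hcup n n' x y z hz), rfl⟩
    · intro n j x hx
      obtain ⟨x, rfl⟩ := (e n).surjective x
      exact (hmap n j x).2 (hlg P hP.log n j x hx)
  let E := AlternatingMap.domLCongr k k (Fin (Module.finrank k (Fl' n (i + 1)))) k (e n)
  have hE : ∀ ω x, E ω x = ω fun u => (e n).symm (x u) := fun ω x => rfl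
  obtain ⟨ω, hω, x, hx, hne⟩ := glgen_cast h hP' n i _ (hfr n (i + 1))
    (W.map E.toLinearMap) (by
      rintro D _ ⟨ω, hω, rfl⟩
      obtain ⟨ω', hω', hD⟩ := hW D ω hω
      refine ⟨E ω', ⟨ω', hω', rfl⟩, fun x y hxy => ?_⟩
      have h1 := hD (fun u => (e n).symm (x u)) (fun u => (e n).symm (y u)) (fun u => hnab n D _ _ (by
        rw [LinearEquiv.apply_symm_apply, LinearEquiv.apply_symm_apply]
        exact hxy u))
      rw [hE, h1]
      change _ = D (E ω x) - ∑ u, E ω (Function.update x u (y u))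
      rw [hE]
      congr 1
      refine Finset.sum_congr rfl fun u _ => ?_
      rw [hE]
      congr 1
      funext v
      rcases eq_or_ne v u with hv | hv
      · subst hv
        rw [Function.update_self, Function.update_self]
      · rw [Function.update_of_ne hv, Function.update_of_ne hv]) (by
      obtain ⟨ω, hω, hω0, hωP⟩ := hWP
      refine ⟨E ω, ⟨ω, hω, rfl⟩, ?_, ?_⟩
      · intro h0
        exact hω0 (E.map_eq_zero_iff.1 h0)
      · rintro x ⟨u, hu⟩
        rw [hE]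
        refine hωP _ ⟨u, ?_⟩
        rw [← hmap, LinearEquiv.apply_symm_apply]
        exact hu)
  obtain ⟨ω, hω, rfl⟩ := hω
  refine ⟨ω, hω, fun u => (e n).symm (x u), fun u => ?_, hne⟩
  rw [← hFl, LinearEquiv.apply_symm_apply]
  exact hx u

variable {β : ℕ → Type} [∀ m, Fintype (β m)] [∀ m, DecidableEq (β m)] {lev : ∀ m, β m → ℕ}
    {h : ℕ → ℕ → ℕ}

/-- General position in coordinates. -/
theorem gen_of_rel_aux {k : Type u} [Field k] {A : Subalgebra ℤ k} {n : ℕ}
    {I : Ideal (MvPolynomial (Fin n) A)} {z : ∀ m, β m → (prC I).Ch}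
    (hD : Dat I lev z h) {N : ℕ} {D : Fin N → Derivation ℤ A A} (hg : Good' A D)
    (V : ∀ l, Lft (prC I) (D l))
    (hlft : ∀ (α : Fin N → k) (D' : Derivation ℤ k k),
      (∀ a, D' (algebraMap A k a) = ∑ l, α l * algebraMap A k (D l a)) →
      ∃ V' : Lft (prC (bI (algebraMap A k) I)) D', ∀ K J : Finset (Fin n), K.Nonempty → K ⊆ J →
        ∀ x : (prC I).R J, V'.V K J ((prH (algebraMap A k) I).h J x) =
          ∑ l, algebraMap k ((prC (bI (algebraMap A k) I)).R J) (α l) *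
            (prH (algebraMap A k) I).h J ((V l).V K J x))
    {G : ∀ m, Fin N → β m → β m → A}
    {mu : ∀ m m', β m → β m' → β (m + m') → A} {Lg : ∀ m : ℕ, ℕ → Set (β m → A)}
    (hR : LinRel I z V G mu Lg) (S : ∀ _ _ : ℕ, Set (prC I).Ch)
    (hSL : ∀ m j, ∀ c ∈ S m j, ∃ g ∈ Lg m j, c - ∑ b, g b • z m b ∈ (prC I).Bc m)
    (hS : ∀ m j, ∀ x, IsLogCoc (prC (bI (algebraMap A k) I)) m j x →
          x ∈ Submodule.span k ((prH (algebraMap A k) _).push '' S m j) ⊔ CovD.Bc _ m)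
    (hgen : (prC (bI (algebraMap A k) I)).IsGeneral) :
    (mkLin lev D G mu Lg hD.bound).Gen (algebraMap A k) := by
  have had := hD.ad k (algebraMap A k)
  refine glgen_transport hgen (fun m => had.eqv m) ?_ ?_ ?_ ?_
  · intro m i x
    exact had.eqv_mem_Fil
  · intro m D' x y hxy
    obtain ⟨α, hα⟩ := hg.der D'
    obtain ⟨V'', hV''⟩ := hlft α D' hα
    have h1 := glgen_nab had V hR.gm (fun m b => (hD.self.mem m b).1) α V'' hV'' hxy
    have h2 := (had.eqv m).injective h1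
    exact ⟨α, hα, fun b' => congrFun h2 b'⟩
  · intro m m' x y t ht
    exact (had.eqv (m + m')).injective (glgen_cup had hR.cup ht)
  · intro P hP m j x hx
    obtain ⟨c, hc, hcJ⟩ := hx
    have h1 : (c : (prC (bI (algebraMap A k) I)).Ch) ∈
        Submodule.span k ((prH (algebraMap A k) I).push '' S m j) ⊔ CovD.Bc _ m :=
      hS m j _ ⟨c.2, hcJ⟩
    -- the classes of the elements of the span are in `P`
    have h2 : ∀ y ∈ Submodule.span k ((prH (algebraMap A k) I).push '' S m j),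
        ∃ g ∈ P m j, y - ∑ b, g b • (prH (algebraMap A k) I).push (z m b) ∈
          (prC (bI (algebraMap A k) I)).Bc m := by
      intro y hy
      induction hy using Submodule.span_induction with
      | mem y hy =>
        obtain ⟨c', hc', rfl⟩ := hy
        obtain ⟨g, hgL, hgc⟩ := hSL m j c' hc'
        refine ⟨fun b => algebraMap A k (g b), hP m j _ ⟨g, hgL, rfl⟩, ?_⟩
        have h3 := push_mem_Bc (F := prH (algebraMap A k) I) hgc
        rw [map_sub, push_lin] at h3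
        exact h3
      | zero =>
        refine ⟨0, Submodule.zero_mem _, ?_⟩
        simp only [Pi.zero_apply, zero_smul, Finset.sum_const_zero, sub_zero]
        exact Submodule.zero_mem _
      | add y y' _ _ ih ih' =>
        obtain ⟨g, hg1, hg2⟩ := ih
        obtain ⟨g', hg1', hg2'⟩ := ih'
        refine ⟨g + g', Submodule.add_mem _ hg1 hg1', ?_⟩
        have h3 := Submodule.add_mem _ hg2 hg2'
        simp only [Pi.add_apply, add_smul, Finset.sum_add_distrib]
        rw [add_sub_add_comm]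
        exact h3
      | smul a y _ ih =>
        obtain ⟨g, hg1, hg2⟩ := ih
        refine ⟨a • g, Submodule.smul_mem _ _ hg1, ?_⟩
        have h3 := Submodule.smul_mem _ a hg2
        simp only [Pi.smul_apply, smul_assoc]
        rw [← Finset.smul_sum, ← smul_sub]
        exact h3
    obtain ⟨y, hy, y', hy', hyy⟩ := Submodule.mem_sup.1 h1
    obtain ⟨g, hgP, hgy⟩ := h2 y hy
    have h4 : (c : (prC (bI (algebraMap A k) I)).Ch) -
        ∑ b, g b • (prH (algebraMap A k) I).push (z m b) ∈ (prC (bI (algebraMap A k) I)).Bc m := by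
      rw [← hyy, add_sub_right_comm]
      exact Submodule.add_mem _ hgy hy'
    have h5 := had.cl_eq_eqv m c g h4
    rw [hc] at h5
    rw [(had.eqv m).injective h5]
    exact hgP

end gp

end MPadcGP
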