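import Pool.Agent.Lib.MP_adc574_ag_GP.Deg

/-!
# Opposite filtrations and Bloch-Kato ordinarity (helper88)

`BKlit X`: `H^j(X, BΩ^(q+1)) = 0` for all `q`, `j`, computed by the Čech complex of `J ↦ BΩ^(q+1)(R J)`.
`bk_of_opposite`: if `NH i m` and `FH (i+1) m` intersect in `0` for all `i`, `m` (and the dimensions are complementary,
`Deg.lean`), then `BKlit X`.
-/

set_option autoImplicit false

namespace MPadcGP

universe u v w x

namespace CovD

open Module

variable {κ : Type u} [Field κ] {n : ℕ} (X : CovD.{u, v} κ n)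

/-- `H^j(X, BΩ^(q+1)) = 0` for all `q` and `j`: every Čech cocycle of exact forms of degree `q + 1` on the
intersections of `j + 1` charts is a coboundary. -/
def BKlit : Prop := ∀ q j : ℕ, ∀ c : X.Ch, (∀ J : Finset (Fin n), J.card = j + 1 → c J ∈ exq κ (X.R J) (q + 1)) →
  (∀ K : Finset (Fin n), K.card = j + 2 → X.del c K = 0) →
  ∃ e : X.Ch, e ∅ = 0 ∧ (∀ J : Finset (Fin n), J.card = j → e J ∈ exq κ (X.R J) (q + 1)) ∧
    ∀ J : Finset (Fin n), J.card = j + 1 → X.del e J = c J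

variable {X}

theorem mem_FH {i m : ℕ} {x : X.Ch} (hx : x ∈ ZZ X.Dt X.zs X.Tt m) :
    (Submodule.Quotient.mk (⟨x, hx⟩ : ZZ X.Dt X.zs X.Tt m) : X.Hmz m) ∈ X.FH i m ↔
      ∃ y ∈ X.Fi i m, X.Dt y = 0 ∧ x - y ∈ (pr X.Tt m).map X.Dt := by
  constructor
  · rintro ⟨a, ha⟩
    induction a using Submodule.Quotient.induction_on with
    | H y =>
      unfold MPadcGP.al at ha
      rw [sq_mk, Submodule.Quotient.eq] at ha
      have h1 : (y : X.Ch) - x ∈ BB X.Dt X.zs X.Tt m := ha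
      obtain ⟨s, hs, z, hz, e⟩ := mem_BB.mp h1
      have hs0 : s = 0 := (Submodule.mem_bot κ).mp hs
      rw [hs0, zero_add] at e
      refine ⟨y, y.2.1, (Submodule.mem_bot κ).mp y.2.2, ?_⟩
      have e' : x - y = X.Dt (-z) := by
        rw [map_neg, ← e]
        abel
      rw [e']
      exact Submodule.mem_map_of_mem (Submodule.neg_mem _ hz)
  · rintro ⟨y, hy, hDy, h⟩
    have hyZ : y ∈ ZZ X.Dt X.zs (X.Fi i) m := ⟨hy, by
      have h2 : X.Dt y ∈ X.zs (m + 1) := by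
        rw [hDy]
        exact zero_mem _
      exact h2⟩
    refine ⟨Submodule.Quotient.mk ⟨y, hyZ⟩, ?_⟩
    unfold MPadcGP.al
    rw [sq_mk, Submodule.Quotient.eq]
    obtain ⟨z, hz, e⟩ := Submodule.mem_map.mp h
    have h1 : y - x ∈ BB X.Dt X.zs X.Tt m := mem_BB.mpr ⟨0, zero_mem _, -z, Submodule.neg_mem _ hz, by
      rw [map_neg, e]
      abel⟩
    exact h1

theorem mem_NH {i m : ℕ} {x : X.Ch} (hx : x ∈ ZZ X.Dt X.zs X.Tt m) :
    (Submodule.Quotient.mk (⟨x, hx⟩ : ZZ X.Dt X.zs X.Tt m) : X.Hmz m) ∈ X.NH i m ↔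
      ∃ y ∈ X.Ni i m, X.Dt y = 0 ∧ x - y ∈ (pr X.Tt m).map X.Dt := by
  constructor
  · rintro ⟨a, ha⟩
    induction a using Submodule.Quotient.induction_on with
    | H y =>
      unfold MPadcGP.al at ha
      rw [sq_mk, Submodule.Quotient.eq] at ha
      have h1 : (y : X.Ch) - x ∈ BB X.Dt X.zs X.Tt m := ha
      obtain ⟨s, hs, z, hz, e⟩ := mem_BB.mp h1
      have hs0 : s = 0 := (Submodule.mem_bot κ).mp hs
      rw [hs0, zero_add] at e
      refine ⟨y, y.2.1, (Submodule.mem_bot κ).mp y.2.2, ?_⟩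
      have e' : x - y = X.Dt (-z) := by
        rw [map_neg, ← e]
        abel
      rw [e']
      exact Submodule.mem_map_of_mem (Submodule.neg_mem _ hz)
  · rintro ⟨y, hy, hDy, h⟩
    have hyZ : y ∈ ZZ X.Dt X.zs (X.Ni i) m := ⟨hy, by
      have h2 : X.Dt y ∈ X.zs (m + 1) := by
        rw [hDy]
        exact zero_mem _
      exact h2⟩
    refine ⟨Submodule.Quotient.mk ⟨y, hyZ⟩, ?_⟩
    unfold MPadcGP.al
    rw [sq_mk, Submodule.Quotient.eq]
    obtain ⟨z, hz, e⟩ := Submodule.mem_map.mp h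
    have h1 : y - x ∈ BB X.Dt X.zs X.Tt m := mem_BB.mpr ⟨0, zero_mem _, -z, Submodule.neg_mem _ hz, by
      rw [map_neg, e]
      abel⟩
    exact h1

theorem mk_eq_zero_iff {m : ℕ} {x : X.Ch} (hx : x ∈ ZZ X.Dt X.zs X.Tt m) :
    (Submodule.Quotient.mk (⟨x, hx⟩ : ZZ X.Dt X.zs X.Tt m) : X.Hmz m) = 0 ↔ x ∈ (pr X.Tt m).map X.Dt := by
  rw [Submodule.Quotient.mk_eq_zero]
  constructor
  · intro h
    have h1 : x ∈ BB X.Dt X.zs X.Tt m := h
    obtain ⟨s, hs, z, hz, e⟩ := mem_BB.mp h1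
    have hs0 : s = 0 := (Submodule.mem_bot κ).mp hs
    rw [hs0, zero_add] at e
    rw [e]
    exact Submodule.mem_map_of_mem hz
  · intro h
    obtain ⟨z, hz, e⟩ := Submodule.mem_map.mp h
    have h1 : x ∈ BB X.Dt X.zs X.Tt m := mem_BB.mpr ⟨0, zero_mem _, z, hz, by rw [zero_add, e]⟩
    exact h1

theorem Fi_inf_Ni (i m : ℕ) : X.Fi (i + 1) m ⊓ X.Ni i m = ⊥ := by
  rw [eq_bot_iff]
  rintro c ⟨h1, h2⟩
  rw [Submodule.mem_bot]
  funext J
  change c J = 0
  rcases Nat.lt_or_ge (J.card + i) (m + 1) with h | h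
  · exact (h2.2 J).1 h
  · exact h1.2 J (by omega)

variable (hfin : ∀ a m, FiniteDimensional κ (HH X.Dt (X.Fi (a + 1)) (X.Fi a) m))
  (hsum : ∀ m, ∑ a ∈ Finset.range (m + 2), X.hn a m ≤ finrank κ (X.Hmz m))
  (p : ℕ) [hp : Fact p.Prime] [CharP κ p] {L : Type} [Fintype L] (b : L → κ)
  (hc : ∀ J : Finset (Fin n), J.Nonempty → CarP p b (X.R J))

include hfin hsum hc

/-- If the filtrations are opposite then `X` is ordinary in the sense of Bloch and Kato. -/
theorem bk_of_opposite (hopp : ∀ i m, X.NH i m ⊓ X.FH (i + 1) m = ⊥) : X.BKlit := by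
  classical
  have hcompl : ∀ i m, X.NH i m ⊔ X.FH (i + 1) m = ⊤ := by
    intro i m
    have hf := Hmz_finite hfin m
    refine Submodule.eq_top_of_finrank_eq ?_
    have h1 := Submodule.finrank_sup_add_finrank_inf_eq (X.NH i m) (X.FH (i + 1) m)
    rw [hopp, finrank_bot, add_zero, finrank_add hfin hsum p b hc] at h1
    exact h1
  have key : ∀ i m : ℕ, ∀ x ∈ X.Tt m, X.Dt x ∈ X.Fi (i + 1) (m + 1) ⊔ X.Ni i (m + 1) →
      x ∈ X.Fi (i + 1) m ⊔ X.Ni i m ⊔ (pr X.Tt m).map X.Dt := by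
    intro i m x hx hDx
    refine acyclic_of_opposite (K := X.Tt) (F := X.Fi (i + 1)) (N := X.Ni i) Dt_comp (Fi_sub _)
      (fun m x hx => Dt_mem_Ni hx) (X.Fi_le_Tt _) (X.Ni_le_Tt _) (Fi_inf_Ni i)
      (F_strict hfin hsum (i + 1)) (N_strict hfin hsum p b hc i) ?_ ?_ m x hx hDx
    · intro m x hx y hy hDx hDy hxy
      have hxZ : x ∈ ZZ X.Dt X.zs X.Tt m := ⟨hx.1, by
        have h2 : X.Dt x ∈ X.zs (m + 1) := by
          rw [hDx]
          exact zero_mem _
        exact h2⟩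
      rw [← mk_eq_zero_iff hxZ, ← Submodule.mem_bot κ, ← hopp i m]
      refine ⟨(mem_NH hxZ).mpr ⟨-y, Submodule.neg_mem _ hy, by rw [map_neg, hDy, neg_zero], ?_⟩,
        (mem_FH hxZ).mpr ⟨x, hx, hDx, by rw [sub_self]; exact zero_mem _⟩⟩
      rw [sub_neg_eq_add]
      exact hxy
    · intro m x hx hDx
      have hxZ : x ∈ ZZ X.Dt X.zs X.Tt m := ⟨hx, by
        have h2 : X.Dt x ∈ X.zs (m + 1) := by
          rw [hDx]
          exact zero_mem _
        exact h2⟩
      have h1 : (Submodule.Quotient.mk (⟨x, hxZ⟩ : ZZ X.Dt X.zs X.Tt m) : X.Hmz m) ∈ X.NH i m ⊔ X.FH (i + 1) m := by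
        rw [hcompl]
        exact Submodule.mem_top
      obtain ⟨a, ha, c, hc', hac⟩ := Submodule.mem_sup.mp h1
      induction a using Submodule.Quotient.induction_on with
      | H a =>
        obtain ⟨z, hz, hDz, h2⟩ := (mem_NH a.2).mp ha
        have hcx : (Submodule.Quotient.mk (⟨x - a, sub_mem hxZ a.2⟩ : ZZ X.Dt X.zs X.Tt m) : X.Hmz m) ∈ X.FH (i + 1) m := by
          have e : (Submodule.Quotient.mk (⟨x - a, sub_mem hxZ a.2⟩ : ZZ X.Dt X.zs X.Tt m) : X.Hmz m) = c := by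
            have e1 : (Submodule.Quotient.mk (⟨x - a, sub_mem hxZ a.2⟩ : ZZ X.Dt X.zs X.Tt m) : X.Hmz m) =
              Submodule.Quotient.mk (⟨x, hxZ⟩ : ZZ X.Dt X.zs X.Tt m) - Submodule.Quotient.mk a := rfl
            rw [e1, ← hac]
            abel
          rw [e]
          exact hc'
        obtain ⟨y, hy, hDy, h3⟩ := (mem_FH _).mp hcx
        refine ⟨y, hy, z, hz, hDy, hDz, ?_⟩
        have e : x - y - z = (x - a - y) + (a - z) := by abel
        rw [e]
        exact add_mem h3 h2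
  intro q j c hc1 hc2
  have hex : ∀ J : Finset (Fin n), J.card = j + 1 → ∃ f ∈ Fd κ (X.R J) q, dd κ f = c J := fun J hJ =>
    mem_exq_succ.mp (hc1 J hJ)
  let w : X.Ch := fun J => if h : J.card = j + 1 then (hex J h).choose else 0
  have hw1 : ∀ J : Finset (Fin n), J.card = j + 1 → w J ∈ Fd κ (X.R J) q ∧ dd κ (w J) = c J := by
    intro J hJ
    have e : w J = (hex J hJ).choose := dif_pos hJ
    rw [e]
    exact (hex J hJ).choose_spec
  have hw2 : ∀ J : Finset (Fin n), J.card ≠ j + 1 → w J = 0 := fun J hJ => dif_neg hJ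
  have hwT : w ∈ X.Tt (j + q) := by
    refine ⟨hw2 ∅ (by rw [Finset.card_empty]; omega), fun J => ⟨fun r hr => ?_, fun hJ => hw2 J (by omega)⟩⟩
    by_cases hJ : J.card = j + 1
    · have e : r = q := by omega
      rw [e]
      exact (hw1 J hJ).1
    · rw [hw2 J hJ]
      exact Submodule.zero_mem _
  have hDw : X.Dt w ∈ X.Fi (q + 1) (j + q + 1) ⊔ X.Ni q (j + q + 1) := by
    rw [Dt_apply]
    refine Submodule.add_mem_sup ⟨dc_mem hwT, fun J hJ => ?_⟩ ⟨del_mem (ic_mem hwT), fun J => ⟨fun hJ => ?_, fun hJ => ?_⟩⟩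
    · rw [dc_apply, hw2 J (by omega), map_zero]
    · rw [del_apply]
      refine Finset.sum_eq_zero fun i hi => ?_
      have h1 := Finset.card_erase_add_one hi
      rw [ev_ic, ev_eq_zero (hw2 _ (by omega)), map_zero, smul_zero]
    · have h1 : dd κ (X.del (X.ic w) J) = -X.del (X.ic (X.dc w)) J := by
        rw [ic_dc, map_neg, Pi.neg_apply, neg_neg, del_dc]
        rfl
      have h2 : X.del (X.ic (X.dc w)) J = X.ic (X.del c) J := by
        rw [← del_ic, del_apply, del_apply]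
        refine Finset.sum_congr rfl fun i hi => ?_
        have h3 := Finset.card_erase_add_one hi
        rw [ev_ic, ev_ic]
        unfold ev
        rw [dc_apply, (hw1 _ (show (J.erase i).card = j + 1 by omega)).2]
      rw [h1, h2, ic_apply, hc2 J (by omega), map_zero, neg_zero]
  have h1 := key q (j + q) w hwT hDw
  obtain ⟨fn, hfn, t, ht, hfnt⟩ := Submodule.mem_sup.mp h1
  obtain ⟨f, hf, g, hg, hfg⟩ := Submodule.mem_sup.mp hfn
  obtain ⟨y, hy, rfl⟩ := Submodule.mem_map.mp ht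
  have hy0 : y ∅ = 0 ∧ ∀ J : Finset (Fin n), J.card = j → y J ∈ Fd κ (X.R J) q := by
    by_cases h0 : j + q = 0
    · have e : j = 0 := by omega
      have e' : q = 0 := by omega
      subst e
      subst e'
      have e2 : y = 0 := (Submodule.mem_bot κ).mp hy
      rw [e2]
      exact ⟨rfl, fun J _ => Submodule.zero_mem _⟩
    · obtain ⟨m, hm⟩ : ∃ m, j + q = m + 1 := ⟨j + q - 1, by omega⟩
      rw [hm] at hy
      have hy' : y ∈ X.Tt m := hy
      exact ⟨hy'.1, fun J hJ => (hy'.2 J).1 q (by omega)⟩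
  refine ⟨X.dc (X.ic y), ?_, fun J hJ => ?_, fun J hJ => ?_⟩
  · rw [dc_apply, ic_apply, hy0.1, map_zero, map_zero]
  · exact mem_exq_succ.mpr ⟨inv κ (y J), inv_mem' (hy0.2 J hJ), rfl⟩
  · have e1 : w J = f J + g J + X.Dt y J := by
      rw [← Pi.add_apply, ← Pi.add_apply, hfg, hfnt]
    have e2 : f J = 0 := hf.2 J (by omega)
    have e3 : dd κ (g J) = 0 := (hg.2 J).2 (by omega)
    have e4 : dd κ (w J) = dd κ (X.del (X.ic y) J) := by
      rw [e1, e2, zero_add, map_add, e3, zero_add, Dt_apply, Pi.add_apply, map_add, dc_apply, dd_dd, zero_add]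
    rw [← (hw1 J hJ).2, e4, del_dc]
    rfl

end CovD

end MPadcGP
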