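import Pool.Agent.Lib.MP_adc574_ag_GP.Ad
import Pool.Agent.Lib.MP_adc574_ag_GP.BKo

/-!
# From the Cartier isomorphism on the charts to the dimensions and to Bloch-Kato (helper88)

The bridge between `Hmz`, `FH`, `NH`, `BKlit` and `HdR`, `Fil`, `Con`, `IsBlochKatoOrdinary`.
-/

set_option autoImplicit false

namespace MPadcGP

universe u v w x

namespace CovD

open Module

variable {κ : Type u} [Field κ] {n : ℕ} {X : CovD.{u, v} κ n}

theorem brd_ZZ (m : ℕ) : ZZ X.Dt X.zs X.Tt m = X.Zc m := rfl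

theorem brd_pr (m : ℕ) : (pr X.Tt m).map X.Dt = X.Bc m := by
  cases m with
  | zero => exact Submodule.map_bot _
  | succ m => rfl

theorem brd_BB (m : ℕ) : BB X.Dt X.zs X.Tt m = X.Bc m := by
  unfold BB
  rw [brd_pr]
  exact bot_sup_eq _

/-- The two cohomologies agree. -/
noncomputable def brdE (X : CovD.{u, v} κ n) (m : ℕ) : X.Hmz m ≃ₗ[κ] X.HdR m :=
  Submodule.quotEquivOfEq _ _ (by rw [brd_BB]; rfl)

theorem brdE_mk (m : ℕ) (x : ↥(ZZ X.Dt X.zs X.Tt m)) :
    brdE X m (Submodule.Quotient.mk x) = X.cl m ⟨(x : X.Ch), x.2⟩ := rfl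

theorem brd_Fil (i m : ℕ) : (X.FH i m).map (brdE X m).toLinearMap = X.Fil m i := by
  ext y
  obtain ⟨x, rfl⟩ := (brdE X m).surjective y
  rw [Submodule.mem_map_equiv, LinearEquiv.symm_apply_apply]
  induction x using Submodule.Quotient.induction_on with
  | H x =>
    rw [mem_FH x.2, brdE_mk, mem_Fil]
    constructor
    · rintro ⟨y, hy, hDy, h⟩
      refine ⟨⟨y, hy.1, hDy⟩, hy, ?_⟩
      rw [eq_comm, cl_eq, ← brd_pr]
      exact h
    · rintro ⟨c, hc, h⟩
      refine ⟨c, hc, c.2.2, ?_⟩
      rw [eq_comm, cl_eq, ← brd_pr] at h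
      exact h

theorem brd_Con (i m : ℕ) : (X.NH i m).map (brdE X m).toLinearMap = X.Con m i := by
  ext y
  obtain ⟨x, rfl⟩ := (brdE X m).surjective y
  rw [Submodule.mem_map_equiv, LinearEquiv.symm_apply_apply]
  induction x using Submodule.Quotient.induction_on with
  | H x =>
    rw [mem_NH x.2, brdE_mk, mem_Con]
    constructor
    · rintro ⟨y, hy, hDy, h⟩
      refine ⟨⟨y, hy.1, hDy⟩, hy, ?_⟩
      rw [eq_comm, cl_eq, ← brd_pr]
      exact h
    · rintro ⟨c, hc, h⟩
      refine ⟨c, hc, c.2.2, ?_⟩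
      rw [eq_comm, cl_eq, ← brd_pr] at h
      exact h

theorem hn_zero {a m : ℕ} (h : m < a) : X.hn a m = 0 := by
  unfold hn
  have h1 : Subsingleton (HH X.Dt (X.Fi (a + 1)) (X.Fi a) m) := by
    refine ⟨fun x y => ?_⟩
    induction x using Submodule.Quotient.induction_on with
    | H x =>
      induction y using Submodule.Quotient.induction_on with
      | H y =>
        have hx : (x : X.Ch) = 0 := by
          have h2 := x.2.1
          rw [Fi_bot h] at h2
          exact (Submodule.mem_bot κ).mp h2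
        have hy : (y : X.Ch) = 0 := by
          have h2 := y.2.1
          rw [Fi_bot h] at h2
          exact (Submodule.mem_bot κ).mp h2
        rw [Subtype.ext (hx.trans hy.symm)]
  exact finrank_zero_of_subsingleton

theorem brd_sum
    (hsum : ∀ m, ∑ q ∈ Finset.range (m + 1), finrank κ (HH X.Dt (X.Fi (q + 1)) (X.Fi q) m) ≤
      finrank κ (X.HdR m)) (m : ℕ) :
    ∑ a ∈ Finset.range (m + 2), X.hn a m ≤ finrank κ (X.Hmz m) := by
  rw [Finset.sum_range_succ, hn_zero (Nat.lt_succ_self m), add_zero, (brdE X m).finrank_eq]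
  exact hsum m

theorem bk_of_BKlit (h : X.BKlit) : X.IsBlochKatoOrdinary := by
  intro q j c hc hd
  have hq : ∀ (J : Finset (Fin n)) (e : X.E J), e ∈ exq κ (X.R J) (q + 1) ↔ e ∈ exactForms κ (X.R J) q :=
    fun J e => Iff.rfl
  obtain ⟨e, he0, he1, he2⟩ := h q j c (fun J _ => (hq J _).mpr (hc.2 J).1) (fun K _ => by rw [hd]; rfl)
  refine ⟨fun J => if J.card = j then e J else 0, fun J => ⟨?_, fun hJ => if_neg hJ⟩, ?_, ?_⟩
  · change (if J.card = j then e J else 0) ∈ exactForms κ (X.R J) q
    by_cases hJ : J.card = j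
    · rw [if_pos hJ]
      exact (hq J _).mp (he1 J hJ)
    · rw [if_neg hJ]
      exact Submodule.zero_mem _
  · change (if (∅ : Finset (Fin n)).card = j then e ∅ else 0) = 0
    rw [he0, ite_self]
  · funext J
    by_cases hJ : J.card = j + 1
    · rw [← he2 J hJ, del_apply, del_apply]
      refine Finset.sum_congr rfl fun i hi => ?_
      have h3 : (J.erase i).card = j := by
        have := Finset.card_erase_add_one hi
        omega
      have h4 : (fun J : Finset (Fin n) => if J.card = j then e J else 0 : X.Ch) (J.erase i) = e (J.erase i) := if_pos h3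
      unfold ev
      rw [h4]
    · rw [(hc.2 J).2 hJ, del_apply]
      refine Finset.sum_eq_zero fun i hi => ?_
      have h3 : (J.erase i).card ≠ j := by
        have := Finset.card_erase_add_one hi
        omega
      rw [ev_eq_zero (if_neg h3), smul_zero]

variable (hf : ∀ q m, FiniteDimensional κ (HH X.Dt (X.Fi (q + 1)) (X.Fi q) m))
  (hsum : ∀ m, ∑ q ∈ Finset.range (m + 1), finrank κ (HH X.Dt (X.Fi (q + 1)) (X.Fi q) m) ≤
    finrank κ (X.HdR m))
  {p : ℕ} [hp : Fact p.Prime] [CharP κ p] {L : Type} [Fintype L] {b : L → κ}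
  (hc : ∀ J : Finset (Fin n), J.Nonempty → CarP p b (X.R J))

include hf hsum hc

/-- The dimensions of the conjugate and of the Hodge filtration are complementary. -/
theorem dim_of_carP (m i : ℕ) : finrank κ (X.Con m i) + finrank κ (X.Fil m (i + 1)) = finrank κ (X.HdR m) := by
  rw [← brd_Con, ← brd_Fil, LinearEquiv.finrank_map_eq, LinearEquiv.finrank_map_eq, ← (brdE X m).finrank_eq]
  exact finrank_add hf (brd_sum hsum) p b hc i m

/-- If the conjugate filtration is opposite to the Hodge filtration then `X` is ordinary. -/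
theorem bk_of_carP (hopp : ∀ m i, X.Con m i ⊓ X.Fil m (i + 1) = ⊥) : X.IsBlochKatoOrdinary := by
  refine bk_of_BKlit (bk_of_opposite hf (brd_sum hsum) p b hc fun i m => ?_)
  have h1 := hopp m i
  rw [← brd_Con, ← brd_Fil, ← Submodule.map_inf _ (brdE X m).injective] at h1
  exact Submodule.map_eq_bot_iff.mp h1

end CovD

end MPadcGP
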