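import Pool.Agent.Lib.MP_adc574_ag_GP.CarLocG
import Pool.Agent.Lib.MP_adc574_ag_GP.FmLoc

/-!
# The Cartier isomorphism for smooth algebras (helper27)

* `carP_glue`: `CarP` is local on `R`.
* `carP_of_smooth`: `κ` a field of characteristic `p` with the finite `p`-basis `b`, `R` smooth over `κ`;
  then `CarP p b R`.
-/

set_option autoImplicit false

namespace MPadcGP

universe u v w

section

variable {p : ℕ} [hp : Fact p.Prime] {κ : Type u} [Field κ] [CharP κ p] {L : Type} [Fintype L]
  {b : L → κ} {R : Type v} [CommRing R] [Algebra κ R]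

omit [Fact p.Prime] [CharP κ p] in
private theorem smul_eq (a : κ) (e : Fm κ R) : a • e = fz κ (algebraMap κ R a) * e := by
  rw [← fz_smul, algebraMap_smul]

omit [Fact p.Prime] [CharP κ p] in
private theorem mp_smul' {S : Type w} [CommRing S] [Algebra κ S] [Algebra R S] [IsScalarTower κ R S]
    (h : CC κ κ (algebraMap R S)) (a : κ) (e : Fm κ R) :
    mp (algebraMap R S) h (a • e) = a • mp (algebraMap R S) h e := by
  rw [smul_eq, smul_eq, map_mul, mp_fz, ← IsScalarTower.algebraMap_apply]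

/-- exact forms are stable under multiplication by `p`-th powers -/
private theorem exq_pmul {a : ℕ} (r : R) {e : Fm κ R} (he : e ∈ exq κ R a) :
    fz κ (r ^ p) * e ∈ exq κ R a := by
  cases a with
  | zero =>
    rw [mem_exq_zero.1 he, mul_zero]
    exact zero_mem _
  | succ a =>
    obtain ⟨f, hf, rfl⟩ := mem_exq_succ.1 he
    refine mem_exq_succ.2 ⟨fz κ (r ^ p) * f, fz_mul_mem _ hf, ?_⟩
    rw [dd_mul, dd_fz_pow, zero_mul, zero_add, inv_fz]

/-- the conclusion of `CarP.surj` -/
private def Gd (p : ℕ) [Fact p.Prime] [CharP κ p] (b : L → κ) (a : ℕ) (ω : Fm κ R) : Prop :=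
  ∃ x z : L → Fm κ R, (∀ l, x l ∈ Fd κ R a) ∧ (∀ l, z l ∈ Fd κ R a) ∧ (∀ l, Rep p (x l) (z l)) ∧
    ω - ∑ l, b l • z l ∈ exq κ R a

private theorem Gd.zero (a : ℕ) : Gd (R := R) p b a 0 := by
  refine ⟨fun _ => 0, fun _ => 0, fun _ => Submodule.zero_mem _, fun _ => Submodule.zero_mem _,
    fun _ => Rep.zero, ?_⟩
  rw [Finset.sum_congr rfl fun l _ => smul_zero (b l), Finset.sum_const_zero, sub_zero]
  exact zero_mem _

private theorem Gd.add {a : ℕ} {ω ω' : Fm κ R} (h : Gd p b a ω) (h' : Gd p b a ω') :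
    Gd p b a (ω + ω') := by
  obtain ⟨x, z, h1, h2, h3, h4⟩ := h
  obtain ⟨x', z', h1', h2', h3', h4'⟩ := h'
  refine ⟨fun l => x l + x' l, fun l => z l + z' l, fun l => Submodule.add_mem _ (h1 l) (h1' l),
    fun l => Submodule.add_mem _ (h2 l) (h2' l), fun l => (h3 l).add (h3' l), ?_⟩
  have e : ω + ω' - ∑ l, b l • (z l + z' l) =
      (ω - ∑ l, b l • z l) + (ω' - ∑ l, b l • z' l) := by
    rw [Finset.sum_congr rfl fun l _ => smul_add (b l) (z l) (z' l), Finset.sum_add_distrib]
    abel
  rw [e]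
  exact add_mem h4 h4'

private theorem Gd.pmul {a : ℕ} {ω : Fm κ R} (r : R) (h : Gd p b a ω) :
    Gd p b a (fz κ (r ^ p) * ω) := by
  obtain ⟨x, z, h1, h2, h3, h4⟩ := h
  refine ⟨fun l => fz κ r * x l, fun l => fz κ (r ^ p) * z l, fun l => fz_mul_mem _ (h1 l),
    fun l => fz_mul_mem _ (h2 l), fun l => (Rep.fz r).mul (h3 l), ?_⟩
  have e : fz κ (r ^ p) * ω - ∑ l, b l • (fz κ (r ^ p) * z l) =
      fz κ (r ^ p) * (ω - ∑ l, b l • z l) := by
    rw [mul_sub, Finset.mul_sum]
    congr 1
    refine Finset.sum_congr rfl fun l _ => ?_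
    rw [mul_smul_comm]
  rw [e]
  exact exq_pmul r h4

/-- exact forms on a localization -/
private theorem exq_lift {S : Type w} [CommRing S] [Algebra κ S] [Algebra R S] [IsScalarTower κ R S]
    (M : Submonoid R) [IsLocalization M S] (h : CC κ κ (algebraMap R S)) {a : ℕ} {e : Fm κ S}
    (he : e ∈ exq κ S a) : ∃ m ∈ M, ∃ e₀ ∈ exq κ R a,
      fz κ (algebraMap R S m ^ p) * e = mp (algebraMap R S) h e₀ := by
  cases a with
  | zero =>
    refine ⟨1, M.one_mem, 0, zero_mem _, ?_⟩
    rw [mem_exq_zero.1 he, mul_zero, map_zero]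
  | succ a =>
    obtain ⟨f, hf, rfl⟩ := mem_exq_succ.1 he
    obtain ⟨m, hm, f₀, hf₀, h1⟩ := mp_surj M h hf
    refine ⟨m, hm, dd κ (fz κ (m ^ (p - 1)) * f₀),
      mem_exq_succ.2 ⟨_, fz_mul_mem _ hf₀, rfl⟩, ?_⟩
    rw [mp_dd, map_mul, mp_fz, ← h1, ← mul_assoc, ← map_mul, map_pow (algebraMap R S),
      pow_sub_one_mul hp.out.ne_zero, dd_mul, dd_fz_pow, zero_mul, zero_add, inv_fz]

/-- the local step -/
private theorem Gd.loc {S : Type w} [CommRing S] [Algebra κ S] [Algebra R S] [IsScalarTower κ R S]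
    (M : Submonoid R) [IsLocalization M S] (hS : CarP p b S) {a : ℕ} {ω : Fm κ R}
    (hω : ω ∈ Fd κ R a) (hd : dd κ ω = 0) : ∃ m ∈ M, Gd p b a (fz κ (m ^ p) * ω) := by
  classical
  have h : CC κ κ (algebraMap R S) := cc_alg
  obtain ⟨x', z', h1, h2, h3, h4⟩ := hS.surj a (mp (algebraMap R S) h ω) (mp_mem h hω) (by
    rw [← mp_dd, hd, map_zero])
  choose m hm y hy hmy using fun l => mp_surj M h (h1 l)
  -- a common denominator
  have hdvd : ∀ l, ∃ c ∈ M, c * m l = ∏ k, m k := by
    intro l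
    refine ⟨∏ k ∈ Finset.univ.erase l, m k, M.prod_mem fun k _ => hm k, ?_⟩
    exact Finset.prod_erase_mul _ _ (Finset.mem_univ l)
  choose c hc hcm using hdvd
  set t : R := ∏ k, m k with ht
  have htM : t ∈ M := M.prod_mem fun k _ => hm k
  have hx : ∀ l, fz κ (algebraMap R S t) * x' l = mp (algebraMap R S) h (fz κ (c l) * y l) := by
    intro l
    rw [map_mul, mp_fz, ← hmy, ← mul_assoc, ← map_mul, ← map_mul, hcm]
  choose z hz hrz using fun l => Rep.exists (p := p) (fz_mul_mem (c l) (hy l))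
  -- the comparison on `S`
  have h5 : ∀ l, fz κ (algebraMap R S t ^ p) * z' l - mp (algebraMap R S) h (z l) ∈ exq κ S a := by
    intro l
    refine mem_exq_of_exact (Submodule.sub_mem _ (fz_mul_mem _ (h2 l)) (mp_mem h (hz l))) ?_
    have h6 : Rep p (fz κ (algebraMap R S t) * x' l) (fz κ (algebraMap R S t ^ p) * z' l) :=
      (Rep.fz _).mul (h3 l)
    rw [hx] at h6
    exact h6.exact_sub ((hrz l).map h)
  have h6 : fz κ (algebraMap R S t ^ p) * mp (algebraMap R S) h ω -
      ∑ l, b l • mp (algebraMap R S) h (z l) ∈ exq κ S a := by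
    have e : fz κ (algebraMap R S t ^ p) * mp (algebraMap R S) h ω -
        ∑ l, b l • mp (algebraMap R S) h (z l) =
        fz κ (algebraMap R S t ^ p) * (mp (algebraMap R S) h ω - ∑ l, b l • z' l) +
        ∑ l, b l • (fz κ (algebraMap R S t ^ p) * z' l - mp (algebraMap R S) h (z l)) := by
      rw [mul_sub, Finset.mul_sum, Finset.sum_congr rfl fun l _ => smul_sub (b l) _ _,
        Finset.sum_sub_distrib, Finset.sum_congr rfl fun l _ => mul_smul_comm (b l) _ _]
      abel
    rw [e]
    exact add_mem (exq_pmul _ h4) (sum_mem fun l _ => exq_smul _ (h5 l))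
  obtain ⟨s, hs, E, hE, h7⟩ := exq_lift (p := p) M h h6
  have h8 : mp (algebraMap R S) h
      (fz κ (s ^ p) * (fz κ (t ^ p) * ω - ∑ l, b l • z l) - E) = 0 := by
    rw [map_sub, ← h7, map_mul, mp_fz, map_sub, map_mul, mp_fz, map_pow (algebraMap R S),
      map_pow (algebraMap R S), map_sum,
      Finset.sum_congr rfl fun l _ => mp_smul' h (b l) (z l), sub_self]
  obtain ⟨q, hq, h9⟩ := mp_ker M h h8
  have h10 : fz κ (q ^ p) * (fz κ (s ^ p) * (fz κ (t ^ p) * ω - ∑ l, b l • z l) - E) = 0 := by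
    rw [← pow_sub_one_mul hp.out.ne_zero, map_mul, mul_assoc, h9, mul_zero]
  refine ⟨q * s * t, M.mul_mem (M.mul_mem hq hs) htM, fun l => fz κ (q * s) * (fz κ (c l) * y l),
    fun l => fz κ ((q * s) ^ p) * z l, fun l => fz_mul_mem _ (fz_mul_mem _ (hy l)),
    fun l => fz_mul_mem _ (hz l), fun l => (Rep.fz _).mul (hrz l), ?_⟩
  have e : fz κ ((q * s * t) ^ p) * ω - ∑ l, b l • (fz κ ((q * s) ^ p) * z l) =
      fz κ (q ^ p) * E := by
    rw [mul_sub, sub_eq_zero] at h10
    rw [← h10, Finset.sum_congr rfl fun l _ => (mul_smul_comm (b l) (fz κ ((q * s) ^ p)) (z l)).symm,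
      ← Finset.mul_sum, mul_pow (q * s) t, map_mul, mul_assoc, ← mul_sub, mul_pow, map_mul,
      mul_assoc]
  rw [e]
  exact exq_pmul q hE

/-- The Cartier isomorphism is a local property. -/
theorem carP_glue (s : Set R) (hs : Ideal.span s = ⊤)
    (h : ∀ f ∈ s, CarP p b (Localization.Away f)) : CarP p b R := by
  classical
  have key : ∀ I : Ideal R, (∀ f ∈ s, ∃ n, f ^ n ∈ I) → (1 : R) ∈ I := by
    intro I hI
    rw [← Ideal.eq_top_iff_one, ← Ideal.radical_eq_top, eq_top_iff, ← hs, Ideal.span_le]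
    exact hI
  constructor
  · intro a ω hω hd
    let I : Ideal R :=
      { carrier := {r | Gd p b a (fz κ (r ^ p) * ω)}
        add_mem' := by
          intro r r' hr hr'
          change Gd p b a (fz κ ((r + r') ^ p) * ω)
          rw [add_pow_p p κ R, map_add, add_mul]
          exact Gd.add hr hr'
        zero_mem' := by
          change Gd p b a (fz κ ((0 : R) ^ p) * ω)
          rw [zero_pow hp.out.ne_zero, map_zero, zero_mul]
          exact Gd.zero a
        smul_mem' := by
          intro r r' hr'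
          change Gd p b a (fz κ ((r * r') ^ p) * ω)
          rw [mul_pow, map_mul, mul_assoc]
          exact Gd.pmul r hr' }
    have h1 : (1 : R) ∈ I := by
      apply key
      intro f hf
      obtain ⟨m, ⟨n, rfl⟩, hm⟩ := Gd.loc (S := Localization.Away f) (Submonoid.powers f) (h f hf)
        hω hd
      exact ⟨n, hm⟩
    have h2 : Gd p b a (fz κ ((1 : R) ^ p) * ω) := h1
    rw [one_pow, map_one, one_mul] at h2
    exact h2
  · intro x z hxz hg l
    obtain ⟨g, hg⟩ := hg
    let I : Ideal R :=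
      { carrier := {r | fz κ r * x l = 0}
        add_mem' := by
          intro r r' hr hr'
          change fz κ (r + r') * x l = 0
          rw [map_add, add_mul, show fz κ r * x l = 0 from hr, show fz κ r' * x l = 0 from hr',
            add_zero]
        zero_mem' := by
          change fz κ (0 : R) * x l = 0
          rw [map_zero, zero_mul]
        smul_mem' := by
          intro r r' hr'
          change fz κ (r * r') * x l = 0
          rw [map_mul, mul_assoc, show fz κ r' * x l = 0 from hr', mul_zero] }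
    have h1 : (1 : R) ∈ I := by
      apply key
      intro f hf
      have hc : CC κ κ (algebraMap R (Localization.Away f)) := cc_alg
      have h2 := (h f hf).inj (fun l => mp _ hc (x l)) (fun l => mp _ hc (z l))
        (fun l => (hxz l).map hc) ⟨mp _ hc g, by
          rw [← mp_dd, hg, map_sum]
          exact Finset.sum_congr rfl fun l _ => mp_smul' hc (b l) (z l)⟩ l
      obtain ⟨m, ⟨n, rfl⟩, hm⟩ := mp_ker (Submonoid.powers f) hc h2
      exact ⟨n, hm⟩
    have h2 : fz κ (1 : R) * x l = 0 := h1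
    rw [map_one, one_mul] at h2
    exact h2

/-- The Cartier isomorphism for smooth algebras. -/
theorem carP_of_smooth [Algebra.Smooth κ R] (hb : PBas p b) : CarP p b R := by
  refine carP_glue {f | CarP p b (Localization.Away f)} ?_ fun f hf => hf
  by_contra hne
  obtain ⟨P, hP, hle⟩ := Ideal.exists_le_maximal _ hne
  have hPp : P.IsPrime := hP.isPrime
  obtain ⟨f, hf, n, i1, i2, i3⟩ := Algebra.IsSmoothAt.exists_isStandardEtale_mvPolynomial
    (R := κ) (S := R) (p := P)
  apply hf
  apply hle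
  apply Ideal.subset_span
  exact carP_of_etale n hb

end

end MPadcGP
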