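import Pool.Agent.Lib.MP_adc574_ag_GP.Conj
import Pool.Agent.Lib.MP_adc574_ag_GP.Eqw

/-!
# The graded pieces of the conjugate filtration in every weight (GP2, helper59)

`conj_le_w`: the part of weight `σ μ` of the cohomology of `Np (a + 1) / Np a` has at most the dimension of
the part of weight `μ` of the cohomology of `Fi a / Fi (a + 1)`, if the inverse Cartier operator maps the
weight `μ` to the weight `σ μ`.
-/

set_option autoImplicit false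

namespace MPadcGP

universe u v w x y

namespace CovD

open Module

section

variable {κ : Type u} [Field κ] {n : ℕ} {X : CovD.{u, v} κ n} {M : Type y} [Fintype M]
  {π : M → X.Ch →ₗ[κ] X.Ch} {W : M → Submodule κ X.Ch}
  (p : ℕ) [hp : Fact p.Prime] [CharP κ p] {L : Type} [Fintype L] (b : L → κ)

theorem conj_le_w (hd : IsDec X.Dt π W) (hF : ∀ a, IsSt π (X.Fi a)) (hN : ∀ a, IsSt π (X.Np a))
    (hM : ∀ a, IsSt π (X.Mi a)) (σ : Equiv.Perm M)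
    (hR : ∀ (a m : ℕ) (x z : X.Ch) (μ : M), RepC p a m x z → RepC p a m (π μ x) (π (σ μ) z))
    (hc : ∀ J : Finset (Fin n), J.Nonempty → CarP p b (X.R J)) (a m : ℕ)
    (hf : FiniteDimensional κ (HH X.Dt (X.Fi (a + 1)) (X.Fi a) m)) (μ : M) :
    FiniteDimensional κ (HH X.Dt (Sw W (X.Np a) (σ μ)) (Sw W (X.Np (a + 1)) (σ μ)) m) ∧
      finrank κ (HH X.Dt (Sw W (X.Np a) (σ μ)) (Sw W (X.Np (a + 1)) (σ μ)) m) ≤
        finrank κ (HH X.Dt (Sw W (X.Fi (a + 1)) μ) (Sw W (X.Fi a) μ) m) := by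
  classical
  have hfw : ∀ ν, FiniteDimensional κ (HH X.Dt (Sw W (X.Fi (a + 1)) ν) (Sw W (X.Fi a) ν) m) := fun ν =>
    finite_weight hd (hF (a + 1)) (hF a) ν m hf
  set r : M → ℕ := fun ν => finrank κ (HH X.Dt (Sw W (X.Fi (a + 1)) ν) (Sw W (X.Fi a) ν) m) with hr
  let bas : ∀ ν, Basis (Fin (r ν)) κ (HH X.Dt (Sw W (X.Fi (a + 1)) ν) (Sw W (X.Fi a) ν) m) := fun ν =>
    Module.finBasis κ _
  have h1 : ∀ k : (Σ ν, Fin (r ν)), ∃ x : ZZ X.Dt (Sw W (X.Fi (a + 1)) k.1) (Sw W (X.Fi a) k.1) m,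
      Submodule.Quotient.mk x = bas k.1 k.2 := fun k => Submodule.Quotient.mk_surjective _ (bas k.1 k.2)
  choose x hx using h1
  have hxw : ∀ k, π k.1 (x k : X.Ch) = x k := fun k => (hd.mem _ _).1 (x k).2.1.2
  have hxF : ∀ k, (x k : X.Ch) ∈ X.Fi a m := fun k => (x k).2.1.1
  have h2 : ∀ k, ∃ z : X.Ch, RepC p a m (x k : X.Ch) z ∧ π (σ k.1) z = z := by
    intro k
    obtain ⟨z, hz⟩ := RepC.exists (p := p) (a := a) (m := m) (hxF k).1.1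
      (fun J hJ => ((hxF k).1.2 J).1 a (by omega))
    have h3 := hR a m _ z k.1 hz
    rw [hxw k] at h3
    exact ⟨_, h3, hd.idem _ _⟩
  choose z hz hzw using h2
  -- the span
  have hspw : ∀ ν, ∀ y ∈ ZZ X.Dt (Sw W (X.Fi (a + 1)) ν) (Sw W (X.Fi a) ν) m, ∃ c : Fin (r ν) → κ,
      y - ∑ i, c i • (x ⟨ν, i⟩ : X.Ch) ∈ BB X.Dt (X.Fi (a + 1)) (X.Fi a) m := by
    intro ν y hy
    let v : HH X.Dt (Sw W (X.Fi (a + 1)) ν) (Sw W (X.Fi a) ν) m :=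
      Submodule.Quotient.mk (⟨y, hy⟩ : ZZ X.Dt (Sw W (X.Fi (a + 1)) ν) (Sw W (X.Fi a) ν) m)
    refine ⟨fun i => (bas ν).repr v i, ?_⟩
    have h3 : v = ∑ i, (bas ν).repr v i • bas ν i := ((bas ν).sum_repr v).symm
    have h5 : (Submodule.Quotient.mk (∑ i, (bas ν).repr v i • x ⟨ν, i⟩) :
        HH X.Dt (Sw W (X.Fi (a + 1)) ν) (Sw W (X.Fi a) ν) m) =
        ∑ i, (bas ν).repr v i • Submodule.Quotient.mk (x ⟨ν, i⟩) := by
      rw [← Submodule.mkQ_apply, map_sum]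
      exact Finset.sum_congr rfl fun i _ => by rw [map_smul, Submodule.mkQ_apply]
    have h4 : v = Submodule.Quotient.mk (∑ i, (bas ν).repr v i • x ⟨ν, i⟩) := by
      rw [h5]
      conv_lhs => rw [h3]
      exact Finset.sum_congr rfl fun i _ => by rw [hx ⟨ν, i⟩]
    have h6 := (Submodule.Quotient.eq _).mp h4
    have h7 : y - ((∑ i, (bas ν).repr v i • x ⟨ν, i⟩ :
        ZZ X.Dt (Sw W (X.Fi (a + 1)) ν) (Sw W (X.Fi a) ν) m) : X.Ch) ∈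
        BB X.Dt (Sw W (X.Fi (a + 1)) ν) (Sw W (X.Fi a) ν) m := h6
    have h8 : ((∑ i, (bas ν).repr v i • x ⟨ν, i⟩ :
        ZZ X.Dt (Sw W (X.Fi (a + 1)) ν) (Sw W (X.Fi a) ν) m) : X.Ch) =
        ∑ i, (bas ν).repr v i • (x ⟨ν, i⟩ : X.Ch) := by
      refine (map_sum (ZZ X.Dt (Sw W (X.Fi (a + 1)) ν) (Sw W (X.Fi a) ν) m).subtype
        (fun i => (bas ν).repr v i • x ⟨ν, i⟩) Finset.univ).trans ?_
      exact Finset.sum_congr rfl fun i _ => rfl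
    rw [h8] at h7
    exact Sw_BB h7
  have hspan : ∀ y ∈ ZZ X.Dt (X.Fi (a + 1)) (X.Fi a) m, ∃ c : (Σ ν, Fin (r ν)) → κ,
      y - ∑ k, c k • (x k : X.Ch) ∈ BB X.Dt (X.Fi (a + 1)) (X.Fi a) m := by
    intro y hy
    choose c hcc using fun ν => hspw ν (π ν y) (pi_ZZ hd (hF (a + 1)) (hF a) hy)
    refine ⟨fun k => c k.1 k.2, ?_⟩
    have h3 : y - ∑ k : (Σ ν, Fin (r ν)), c k.1 k.2 • (x k : X.Ch) =
        ∑ ν, (π ν y - ∑ i, c ν i • (x ⟨ν, i⟩ : X.Ch)) := by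
      rw [Finset.sum_sub_distrib, hd.sum, Fintype.sum_sigma]
    rw [h3]
    exact Submodule.sum_mem _ fun ν _ => hcc ν
  -- the weight σ μ
  let eq := Fintype.equivFin (Σ ν, Fin (r ν))
  have hsp2 : ∀ w ∈ ZZ X.Dt (Sw W (X.Mi a) (σ μ)) (Sw W (X.Np (a + 1)) (σ μ)) m, ∃ c : Fin (r μ) → κ,
      w - ∑ i, c i • z ⟨μ, i⟩ ∈ BB X.Dt (Sw W (X.Mi a) (σ μ)) (Sw W (X.Np (a + 1)) (σ μ)) m := by
    intro w hw
    obtain ⟨c, hcc⟩ := conj_comb p b hc a m (fun i => (x (eq.symm i) : X.Ch)) (fun i => z (eq.symm i))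
      (fun i => hz _) (fun y hy => by
        obtain ⟨c, hcc⟩ := hspan y hy
        refine ⟨fun i => c (eq.symm i), ?_⟩
        rw [Equiv.sum_comp eq.symm fun k => c k • (x k : X.Ch)]
        exact hcc) w (Sw_ZZ hw)
    have h3 : ∑ i, c i • z (eq.symm i) = ∑ k, c (eq k) • z k := by
      rw [← Equiv.sum_comp eq]
      exact Finset.sum_congr rfl fun k _ => by rw [Equiv.symm_apply_apply]
    rw [h3] at hcc
    refine ⟨fun i => c (eq ⟨μ, i⟩), ?_⟩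
    have h4 := pi_BB (μ := σ μ) hd (hM a) (hN (a + 1)) hcc
    have h5 : π (σ μ) (w - ∑ k, c (eq k) • z k) = w - ∑ i, c (eq ⟨μ, i⟩) • z ⟨μ, i⟩ := by
      rw [map_sub, (hd.mem _ _).1 hw.1.2, map_sum, Fintype.sum_sigma]
      congr 1
      rw [Finset.sum_eq_single μ (fun ν _ hν => ?_) (fun h => absurd (Finset.mem_univ μ) h)]
      · refine Finset.sum_congr rfl fun i _ => ?_
        rw [map_smul, hzw ⟨μ, i⟩]
      · refine Finset.sum_eq_zero fun i _ => ?_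
        rw [map_smul, ← hzw ⟨ν, i⟩, hd.orth _ _ _ (fun h => hν (σ.injective h).symm), smul_zero]
    rw [h5] at h4
    exact h4
  have hzZ : ∀ i, z ⟨μ, i⟩ ∈ ZZ X.Dt (Sw W (X.Mi a) (σ μ)) (Sw W (X.Np (a + 1)) (σ μ)) m := by
    intro i
    have h3 : z ⟨μ, i⟩ ∈ ZZ X.Dt (X.Mi a) (X.Np (a + 1)) m := (hz ⟨μ, i⟩).mem_ZZ (Sw_ZZ (x ⟨μ, i⟩).2)
    have h4 := pi_ZZ (μ := σ μ) hd (hM a) (hN (a + 1)) h3
    rw [hzw ⟨μ, i⟩] at h4
    exact h4
  let g : (Fin (r μ) → κ) →ₗ[κ] HH X.Dt (Sw W (X.Mi a) (σ μ)) (Sw W (X.Np (a + 1)) (σ μ)) m :=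
    Fintype.linearCombination κ fun i => Submodule.Quotient.mk
      (⟨z ⟨μ, i⟩, hzZ i⟩ : ZZ X.Dt (Sw W (X.Mi a) (σ μ)) (Sw W (X.Np (a + 1)) (σ μ)) m)
  have hg : Function.Surjective g := by
    intro u
    induction u using Submodule.Quotient.induction_on with
    | H w =>
      obtain ⟨c, hcc⟩ := hsp2 w w.2
      refine ⟨c, ?_⟩
      have h3 : g c = Submodule.Quotient.mk (∑ i, c i •
          (⟨z ⟨μ, i⟩, hzZ i⟩ : ZZ X.Dt (Sw W (X.Mi a) (σ μ)) (Sw W (X.Np (a + 1)) (σ μ)) m)) := by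
        have e2 : ((BB X.Dt (Sw W (X.Mi a) (σ μ)) (Sw W (X.Np (a + 1)) (σ μ)) m).submoduleOf
            (ZZ X.Dt (Sw W (X.Mi a) (σ μ)) (Sw W (X.Np (a + 1)) (σ μ)) m)).mkQ (∑ i, c i •
              (⟨z ⟨μ, i⟩, hzZ i⟩ : ZZ X.Dt (Sw W (X.Mi a) (σ μ)) (Sw W (X.Np (a + 1)) (σ μ)) m)) =
            ∑ i, c i • ((BB X.Dt (Sw W (X.Mi a) (σ μ)) (Sw W (X.Np (a + 1)) (σ μ)) m).submoduleOf
              (ZZ X.Dt (Sw W (X.Mi a) (σ μ)) (Sw W (X.Np (a + 1)) (σ μ)) m)).mkQ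
              (⟨z ⟨μ, i⟩, hzZ i⟩ : ZZ X.Dt (Sw W (X.Mi a) (σ μ)) (Sw W (X.Np (a + 1)) (σ μ)) m) := by
          rw [map_sum]
          exact Finset.sum_congr rfl fun i _ => map_smul _ _ _
        exact e2.symm
      rw [h3]
      symm
      rw [Submodule.Quotient.eq]
      change (w : X.Ch) - ((∑ i, c i • (⟨z ⟨μ, i⟩, hzZ i⟩ :
        ZZ X.Dt (Sw W (X.Mi a) (σ μ)) (Sw W (X.Np (a + 1)) (σ μ)) m) :
        ZZ X.Dt (Sw W (X.Mi a) (σ μ)) (Sw W (X.Np (a + 1)) (σ μ)) m) : X.Ch) ∈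
        BB X.Dt (Sw W (X.Mi a) (σ μ)) (Sw W (X.Np (a + 1)) (σ μ)) m
      rw [Submodule.coe_sum]
      exact hcc
  have f1 : FiniteDimensional κ (HH X.Dt (Sw W (X.Mi a) (σ μ)) (Sw W (X.Np (a + 1)) (σ μ)) m) :=
    Module.Finite.of_surjective g hg
  have f2 : finrank κ (HH X.Dt (Sw W (X.Mi a) (σ μ)) (Sw W (X.Np (a + 1)) (σ μ)) m) ≤ r μ := by
    have := LinearMap.finrank_le_finrank_of_surjective (f := g) hg
    rwa [Module.finrank_fin_fun] at this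
  have hinj : Function.Injective (be (S0 := Sw W (X.Np a) (σ μ)) (S1 := Sw W (X.Mi a) (σ μ))
      (S2 := Sw W (X.Np (a + 1)) (σ μ)) X.Dt (Sw_mono (Np_le_Mi a) (σ μ)) m) := by
    refine sq_injective _ _ fun y hy hy' => ?_
    have h3 := be_injective a m y (Sw_ZZ hy) (Sw_BB hy')
    have h4 := pi_BB (μ := σ μ) hd (hN a) (hN (a + 1)) h3
    rw [(hd.mem _ _).1 hy.1.2] at h4
    exact h4
  exact ⟨Module.Finite.of_injective _ hinj, (LinearMap.finrank_le_finrank_of_injective hinj).trans f2⟩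

end

end CovD

end MPadcGP
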