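import Pool.Agent.Lib.MP_adc574_ag_GP.Deg
import Pool.Agent.Lib.MP_adc574_ag_GP.Ad
import Pool.Agent.Lib.MP_adc574_ag_GP.ConjW

/-!
# Degeneration of the Hodge and of the conjugate filtration in every weight (GP2, helper59)

`Wt W m μ`: the classes of weight `μ`. `hnw W q m μ`: the Hodge number `h^(q, m - q)` in weight `μ`.
-/

set_option autoImplicit false

namespace MPadcGP

universe u v w x y

namespace CovD

open Module

section cln

variable {κ : Type u} [Field κ] {n : ℕ} (X : CovD.{u, v} κ n)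

/-- The classes of the cocycles in `N`. -/
noncomputable def cln (N : Submodule κ X.Ch) (m : ℕ) : Submodule κ (X.HdR m) :=
  (N.submoduleOf (X.Zc m)).map (X.cl m)

variable {X}

theorem mem_cln {N : Submodule κ X.Ch} {m : ℕ} {x : X.HdR m} :
    x ∈ X.cln N m ↔ ∃ c : ↥(X.Zc m), (c : X.Ch) ∈ N ∧ X.cl m c = x := Iff.rfl

theorem Fil_eq_cln (m i : ℕ) : X.Fil m i = X.cln (X.Fi i m) m := rfl

theorem Con_eq_cln (m i : ℕ) : X.Con m i = X.cln (X.Ni i m) m := rfl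

theorem Bc_eq (m : ℕ) : X.Bc m = (pr X.Tt m).map X.Dt := by
  cases m with
  | zero =>
    change (⊥ : Submodule κ X.Ch) = (⊥ : Submodule κ X.Ch).map X.Dt
    rw [Submodule.map_bot]
  | succ m => rfl

/-- The dimension of the space of the classes of cocycles in `N`, if the differential is strict for `N`. -/
theorem finrank_cln {N : ℕ → Submodule κ X.Ch} {m : ℕ} (hN : N m ≤ X.Tt m)
    (hpr : (pr N m).map X.Dt ≤ X.Bc m)
    (hs : ∀ x ∈ N m, X.Dt x = 0 → x ∈ X.Bc m → x ∈ (pr N m).map X.Dt) :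
    finrank κ (X.cln (N m) m) = finrank κ (HH X.Dt X.zs N m) := by
  have hZ : ∀ x ∈ ZZ X.Dt X.zs N m, x ∈ X.Zc m := fun x hx =>
    ⟨hN hx.1, LinearMap.mem_ker.2 ((Submodule.mem_bot κ).1 hx.2)⟩
  have hB : ∀ x, x ∈ BB X.Dt X.zs N m ↔ x ∈ (pr N m).map X.Dt := by
    intro x
    rw [mem_BB]
    constructor
    · rintro ⟨s, hs0, y, hy, rfl⟩
      rw [(Submodule.mem_bot κ).1 hs0, zero_add]
      exact Submodule.mem_map_of_mem hy
    · intro h
      obtain ⟨y, hy, rfl⟩ := Submodule.mem_map.1 h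
      exact ⟨0, Submodule.zero_mem _, y, hy, by rw [zero_add]⟩
  let f : HH X.Dt X.zs N m →ₗ[κ] X.HdR m :=
    sq (B := BB X.Dt X.zs N m) (B' := X.Bc m) (fun x hx => hZ x hx) fun x hx => hpr ((hB x).1 hx)
  have hf : Function.Injective f := sq_injective _ _ fun x hx hx' =>
    (hB x).2 (hs x hx.1 ((Submodule.mem_bot κ).1 hx.2) hx')
  have hr : LinearMap.range f = X.cln (N m) m := by
    ext a
    rw [mem_cln]
    constructor
    · rintro ⟨b, rfl⟩
      induction b using Submodule.Quotient.induction_on with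
      | H x => exact ⟨⟨x, hZ x x.2⟩, x.2.1, rfl⟩
    · rintro ⟨c, hc, rfl⟩
      refine ⟨Submodule.Quotient.mk ⟨c, hc, ?_⟩, rfl⟩
      have h1 : X.Dt (c : X.Ch) = 0 := c.2.2
      change X.Dt (c : X.Ch) ∈ (⊥ : Submodule κ X.Ch)
      rw [h1]
      exact Submodule.zero_mem _
  rw [← hr, LinearMap.finrank_range_of_inj hf]

end cln

section weights

variable {κ : Type u} [Field κ] {n : ℕ} {X : CovD.{u, v} κ n} {M : Type y} [Fintype M]
  {π : M → X.Ch →ₗ[κ] X.Ch} {W : M → Submodule κ X.Ch}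

variable (W) in
/-- The Hodge numbers in weight `μ`. -/
noncomputable def hnw (q m : ℕ) (μ : M) : ℕ :=
  finrank κ (HH X.Dt (Sw W (X.Fi (q + 1)) μ) (Sw W (X.Fi q) μ) m)

/-- The classes in `N` of weight `μ` are the classes of the cocycles in `N ⊓ W μ`. -/
theorem cln_inf (hd : IsDec X.Dt π W) (hT : IsSt π X.Tt) {N : Submodule κ X.Ch}
    (hN : ∀ μ, ∀ x ∈ N, π μ x ∈ N) {m : ℕ} (μ : M) :
    X.cln N m ⊓ X.cln (W μ) m = X.cln (N ⊓ W μ) m := by
  apply le_antisymm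
  · rintro x ⟨h1, h2⟩
    obtain ⟨c, hc, hcx⟩ := mem_cln.1 h1
    obtain ⟨c', hc', hcx'⟩ := mem_cln.1 h2
    have hZ : ∀ y ∈ X.Zc m, π μ y ∈ X.Zc m := fun y hy =>
      ⟨hT μ m y hy.1, LinearMap.mem_ker.2 (by rw [hd.comm, LinearMap.mem_ker.1 hy.2, map_zero])⟩
    have hB : ∀ y ∈ X.Bc m, π μ y ∈ X.Bc m := by
      intro y hy
      cases m with
      | zero =>
        rw [(Submodule.mem_bot κ).1 hy, map_zero]
        exact Submodule.zero_mem _
      | succ m =>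
        obtain ⟨t, ht, rfl⟩ := Submodule.mem_map.1 hy
        rw [← hd.comm]
        exact Submodule.mem_map_of_mem (hT μ m t ht)
    refine mem_cln.2 ⟨⟨π μ c, hZ c c.2⟩, ⟨hN μ c hc, (hd.mem _ _).2 (hd.idem _ _)⟩, ?_⟩
    rw [← hcx', cl_eq]
    have h3 : (c : X.Ch) - c' ∈ X.Bc m := cl_eq.1 (hcx.trans hcx'.symm)
    have h4 := hB _ h3
    rw [map_sub, (hd.mem _ _).1 hc'] at h4
    exact h4
  · rintro x hx
    obtain ⟨c, hc, hcx⟩ := mem_cln.1 hx
    exact ⟨mem_cln.2 ⟨c, hc.1, hcx⟩, mem_cln.2 ⟨c, hc.2, hcx⟩⟩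

end weights

section main

variable {κ : Type u} [Field κ] {n : ℕ} {X : CovD.{u, v} κ n} {M : Type y} [Fintype M]
  {π : M → X.Ch →ₗ[κ] X.Ch} {W : M → Submodule κ X.Ch}
  (hd : IsDec X.Dt π W) (hF : ∀ a, IsSt π (X.Fi a))
  (hfin : ∀ a m, FiniteDimensional κ (HH X.Dt (X.Fi (a + 1)) (X.Fi a) m))
  (hsum : ∀ m, ∑ a ∈ Finset.range (m + 2), X.hn a m ≤ finrank κ (X.Hmz m))

include hd hF hfin in
theorem hn_eq_sum (a m : ℕ) : X.hn a m = ∑ μ, X.hnw W a m μ :=
  finrank_HH_sum hd (hF (a + 1)) (hF a) m fun ν => finite_weight hd (hF (a + 1)) (hF a) ν m (hfin a m)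

omit [Fintype M] in
theorem Sw_bot {S : ℕ → Submodule κ X.Ch} {m : ℕ} (h : S m = ⊥) (μ : M) : Sw W S μ m = ⊥ := by
  unfold Sw
  rw [h, bot_inf_eq]

omit [Fintype M] in
theorem Fc_sum_weight (r j m : ℕ) (hj : j ≤ r) (μ : M) :
    ∑ l ∈ Finset.range j, finrank κ (HH X.Dt (Sw W (X.Fc r l) μ) (Sw W (X.Fc r (l + 1)) μ) m) =
      ∑ a ∈ Finset.Ico (r - j) r, X.hnw W a m μ := by
  induction j with
  | zero => rw [Finset.sum_range_zero, Nat.sub_zero, Finset.Ico_self, Finset.sum_empty]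
  | succ j ih =>
    rw [Finset.sum_range_succ, ih (by omega)]
    have h1 : r - j = (r - (j + 1)) + 1 := by omega
    rw [Finset.sum_eq_sum_Ico_succ_bot (show r - (j + 1) < r by omega), h1, add_comm]
    congr 1
    unfold Fc hnw
    rw [← h1]

include hd hF hfin hsum in
theorem HH_Fi_weight (i m : ℕ) (hi : i ≤ m + 2) (μ : M) :
    finrank κ (HH X.Dt X.zs (Sw W (X.Fi i) μ) m) = ∑ a ∈ Finset.Ico i (m + 2), X.hnw W a m μ := by
  have hst : ∀ j, IsSt π (X.Fc (m + 2) j) := fun j => hF _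
  have h1 := (eqw (S := X.Fc (m + 2)) hd Dt_comp (fun j k => Fc_mono _ j k) (fun j => Fi_sub _) hst
    (Equiv.refl M) m (m + 2)
    (fun j μ => finrank κ (HH X.Dt (Sw W (X.Fc (m + 2) j) μ) (Sw W (X.Fc (m + 2) (j + 1)) μ) m))
    (fun j μ => finite_weight hd (hst j) (hst (j + 1)) μ m (Fc_finite hfin _ j m)) (fun j μ => le_rfl) (by
      have h2 : ∀ j ∈ Finset.range (m + 2),
          ∑ μ, finrank κ (HH X.Dt (Sw W (X.Fc (m + 2) j) μ) (Sw W (X.Fc (m + 2) (j + 1)) μ) m) =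
            finrank κ (HH X.Dt (X.Fc (m + 2) j) (X.Fc (m + 2) (j + 1)) m) := fun j _ =>
        (finrank_HH_sum hd (hst j) (hst (j + 1)) m fun μ =>
          finite_weight hd (hst j) (hst (j + 1)) μ m (Fc_finite hfin _ j m)).symm
      rw [Finset.sum_congr rfl h2, Hmz_finrank_F, Fc_sum _ _ _ le_rfl, Nat.sub_self,
        ← Finset.range_eq_Ico]
      exact hsum m) μ).2.1 (m + 2 - i) (Nat.sub_le _ _)
  have h3 := Fc_sum_weight (X := X) (W := W) (m + 2) (m + 2 - i) m (Nat.sub_le _ _) μ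
  have e : m + 2 - (m + 2 - i) = i := by omega
  rw [e] at h3
  rw [← h3]
  refine Eq.trans ?_ h1
  have e2 : X.Fc (m + 2) (m + 2 - i) = X.Fi i := by
    unfold Fc
    rw [e]
  rw [e2]
  refine (HH_congr (ZZ_congr ?_ rfl) (BB_congr ?_ rfl)).symm
  · exact Sw_bot (Fi_bot (by omega)) μ
  · exact Sw_bot (Fi_bot (by omega)) μ

include hd in
theorem map_weight {S : ℕ → Submodule κ X.Ch} (hS : IsSt π S) {m : ℕ} {x : X.Ch} {μ : M}
    (hx : x ∈ W μ) (h : x ∈ (pr S m).map X.Dt) : x ∈ (pr (Sw W S μ) m).map X.Dt := by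
  obtain ⟨y, hy, rfl⟩ := Submodule.mem_map.1 h
  refine Submodule.mem_map.2 ⟨π μ y, ?_, by rw [hd.comm, (hd.mem _ _).1 hx]⟩
  cases m with
  | zero =>
    rw [(Submodule.mem_bot κ).1 hy, map_zero]
    exact Submodule.zero_mem _
  | succ m => exact ⟨hS μ m y hy, (hd.mem _ _).2 (hd.idem _ _)⟩

theorem map_weight_le {S : ℕ → Submodule κ X.Ch} (h : ∀ m, S m ≤ X.Tt m) (m : ℕ) :
    (pr S m).map X.Dt ≤ X.Bc m := by
  rw [Bc_eq]
  exact Submodule.map_mono (pr_mono h m)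

include hd hF hfin hsum in
/-- The Hodge filtration in weight `μ`. -/
theorem finrank_Fil_weight (i m : ℕ) (hi : i ≤ m + 2) (μ : M) :
    finrank κ (X.cln (X.Fi i m ⊓ W μ) m) = ∑ a ∈ Finset.Ico i (m + 2), X.hnw W a m μ := by
  rw [← HH_Fi_weight hd hF hfin hsum i m hi μ]
  refine finrank_cln (N := Sw W (X.Fi i) μ) (inf_le_left.trans (X.Fi_le_Tt i m))
    (map_weight_le (fun m => inf_le_left.trans (X.Fi_le_Tt i m)) m) fun x hx hDx hxB => ?_
  rw [Bc_eq] at hxB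
  exact map_weight hd (hF i) hx.2 (F_strict hfin hsum i m x hx.1 hDx hxB)

omit [Fintype M] in
/-- The classes of weight `μ`. -/
theorem cln_W (m : ℕ) (μ : M) : X.cln (W μ) m = X.cln (X.Fi 0 m ⊓ W μ) m := by
  ext x
  rw [mem_cln, mem_cln]
  constructor
  · rintro ⟨c, hc, hcx⟩
    refine ⟨c, ⟨?_, hc⟩, hcx⟩
    rw [Fi_zero]
    exact c.2.1
  · rintro ⟨c, hc, hcx⟩
    exact ⟨c, hc.2, hcx⟩

include hd hF hfin hsum in
theorem finrank_weight (m : ℕ) (μ : M) :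
    finrank κ (X.cln (W μ) m) = ∑ a ∈ Finset.range (m + 2), X.hnw W a m μ := by
  rw [cln_W, finrank_Fil_weight hd hF hfin hsum 0 m (Nat.zero_le _) μ, Finset.range_eq_Ico]

end main

section N

variable {κ : Type u} [Field κ] {n : ℕ} {X : CovD.{u, v} κ n} {M : Type y} [Fintype M]
  {π : M → X.Ch →ₗ[κ] X.Ch} {W : M → Submodule κ X.Ch}
  (hd : IsDec X.Dt π W) (hF : ∀ a, IsSt π (X.Fi a)) (hN : ∀ a, IsSt π (X.Np a))
  (hM : ∀ a, IsSt π (X.Mi a))
  (hfin : ∀ a m, FiniteDimensional κ (HH X.Dt (X.Fi (a + 1)) (X.Fi a) m))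
  (hsum : ∀ m, ∑ a ∈ Finset.range (m + 2), X.hn a m ≤ finrank κ (X.Hmz m))
  (p : ℕ) [hp : Fact p.Prime] [CharP κ p] {L : Type} [Fintype L] (b : L → κ)
  (hc : ∀ J : Finset (Fin n), J.Nonempty → CarP p b (X.R J)) (σ : Equiv.Perm M)
  (hR : ∀ (a m : ℕ) (x z : X.Ch) (μ : M), RepC p a m x z → RepC p a m (π μ x) (π (σ μ) z))

include hd hF hN hM hfin hsum hc hR

theorem HH_Np_weight (j m : ℕ) (hj : j ≤ m + 2) (μ : M) :
    finrank κ (HH X.Dt (Sw W (X.Np 0) (σ μ)) (Sw W (X.Np j) (σ μ)) m) =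
      ∑ a ∈ Finset.range j, X.hnw W a m μ :=
  (eqw (S := X.Np) hd Dt_comp Np_le Np_sub hN σ m (m + 2) (fun a μ => X.hnw W a m μ)
    (fun a μ => (conj_le_w p b hd hF hN hM σ hR hc a m (hfin a m) μ).1)
    (fun a μ => (conj_le_w p b hd hF hN hM σ hR hc a m (hfin a m) μ).2) (by
      rw [Finset.sum_congr rfl fun a _ => (hn_eq_sum hd hF hfin a m).symm, Hmz_finrank_N]
      exact hsum m) μ).2.1 j hj

/-- The conjugate filtration in weight `σ μ`. -/
theorem finrank_Con_weight (i m : ℕ) (hi : i ≤ m + 1) (μ : M) :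
    finrank κ (X.cln (X.Ni i m ⊓ W (σ μ)) m) = ∑ a ∈ Finset.range (i + 1), X.hnw W a m μ := by
  rw [← HH_Np_weight hd hF hN hM hfin hsum p b hc σ hR (i + 1) m (by omega) μ]
  have h1 : finrank κ (HH X.Dt (Sw W (X.Np 0) (σ μ)) (Sw W (X.Np (i + 1)) (σ μ)) m) =
      finrank κ (HH X.Dt X.zs (Sw W (X.Ni i) (σ μ)) m) :=
    HH_congr (ZZ_congr (Sw_bot rfl _) rfl) (BB_congr (Sw_bot rfl _) rfl)
  rw [h1]
  refine finrank_cln (N := Sw W (X.Ni i) (σ μ)) (inf_le_left.trans (X.Ni_le_Tt i m))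
    (map_weight_le (fun m => inf_le_left.trans (X.Ni_le_Tt i m)) m) fun x hx hDx hxB => ?_
  rw [Bc_eq] at hxB
  exact map_weight hd (hN (i + 1)) hx.2 (N_strict hfin hsum p b hc i m x hx.1 hDx hxB)

/-- The dimensions of the two filtrations are complementary in every weight. -/
theorem finrank_add_weight (i m : ℕ) (μ : M) :
    finrank κ (X.cln (X.Ni i m ⊓ W (σ μ)) m) + finrank κ (X.cln (X.Fi (i + 1) m ⊓ W μ) m) =
      finrank κ (X.cln (W μ) m) := by
  have h0 : ∀ i, i ≤ m + 1 → finrank κ (X.cln (X.Ni i m ⊓ W (σ μ)) m) +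
      finrank κ (X.cln (X.Fi (i + 1) m ⊓ W μ) m) = finrank κ (X.cln (W μ) m) := by
    intro i hi
    rw [finrank_Con_weight hd hF hN hM hfin hsum p b hc σ hR i m hi μ,
      finrank_Fil_weight hd hF hfin hsum (i + 1) m (by omega) μ, finrank_weight hd hF hfin hsum m μ,
      Finset.range_eq_Ico, Finset.sum_Ico_consecutive _ (Nat.zero_le _) (by omega),
      ← Finset.range_eq_Ico]
  rcases Nat.lt_or_ge (m + 1) i with h | h
  · have h1 := h0 (m + 1) le_rfl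
    rw [Ni_top (show m < m + 1 by omega), Fi_bot (show m < m + 1 + 1 by omega)] at h1
    rw [Ni_top (show m < i by omega), Fi_bot (show m < i + 1 by omega)]
    exact h1
  · exact h0 i h

/-- The weight spaces `μ` and `σ μ` have the same dimension. -/
theorem finrank_weight_perm (m : ℕ) (μ : M) :
    finrank κ (X.cln (W (σ μ)) m) = finrank κ (X.cln (W μ) m) := by
  have h1 := finrank_add_weight hd hF hN hM hfin hsum p b hc σ hR (m + 1) m μ
  rw [Ni_top (show m < m + 1 by omega), Fi_bot (show m < m + 1 + 1 by omega), bot_inf_eq] at h1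
  rw [cln_W, Fi_zero, ← h1]
  have h2 : finrank κ (X.cln (⊥ : Submodule κ X.Ch) m) = 0 := by
    have h3 : X.cln (⊥ : Submodule κ X.Ch) m = ⊥ := by
      rw [eq_bot_iff]
      intro x hx
      obtain ⟨c, hc, rfl⟩ := mem_cln.1 hx
      rw [Submodule.mem_bot, cl_eq_zero, (Submodule.mem_bot κ).1 hc]
      exact Submodule.zero_mem _
    rw [h3, finrank_bot]
  rw [h2, add_zero]

end N

end CovD

end MPadcGP
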