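import Pool.Agent.Lib.MP_adc574_ag_GP.GrD
import Pool.Agent.Lib.MP_adc574_ag_GP.GrF
import Pool.Agent.Lib.MP_adc574_ag_GP.DegW
import Pool.Agent.Lib.MP_adc574_ag_GP.CarBr
import Pool.Agent.Lib.MP_adc574_ag_GP.CarGl

/-!
# The conjugate filtration in every weight (GP2, helper59)
-/

set_option autoImplicit false

namespace MPadcGP

universe u v w x y

open Module

section abs

variable {κ : Type u} [Field κ] {n : ℕ} {X : CovD.{u, v} κ n} {M : Type y} [AddCommGroup M]
  [Fintype M] [DecidableEq M] (W : GrX X M) {p : ℕ} [hp : Fact p.Prime] [CharP κ p] {L : Type}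
  [Fintype L] {b : L → κ}

/-- Multiplication by `p` as a permutation. -/
noncomputable def mulPerm (hM : Function.Injective fun μ : M => p • μ) : Equiv.Perm M :=
  Equiv.ofBijective _ (Finite.injective_iff_bijective.1 hM)

omit [DecidableEq M] in
theorem mulPerm_apply (hM : Function.Injective fun μ : M => p • μ) (μ : M) : mulPerm hM μ = p • μ := rfl

variable (hM : Function.Injective fun μ : M => p • μ)
  (hf : ∀ q m, FiniteDimensional κ (HH X.Dt (X.Fi (q + 1)) (X.Fi q) m))
  (hsum : ∀ m, ∑ q ∈ Finset.range (m + 1), Module.finrank κ (HH X.Dt (X.Fi (q + 1)) (X.Fi q) m) ≤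
        Module.finrank κ (X.HdR m))
  (hc : ∀ J : Finset (Fin n), J.Nonempty → CarP p b (X.R J))

include hM hf hsum hc

theorem GrX.finrank_add (i m : ℕ) (μ : M) :
    finrank κ (X.cln (X.Ni i m ⊓ W.Wt (p • μ)) m) + finrank κ (X.cln (X.Fi (i + 1) m ⊓ W.Wt μ) m) =
      finrank κ (X.cln (W.Wt μ) m) :=
  CovD.finrank_add_weight W.isDec W.isSt_Fi W.isSt_Np W.isSt_Mi hf
    (CovD.brd_sum hsum) p b hc (mulPerm hM)
    (fun _ _ _ _ μ h => CovD.RepC.P W hM h μ) i m μ

end abs

end MPadcGP
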