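import Pool.Agent.Lib.MP_adc574_ag_GP.Gen

/-!
# GP2: general position of the Hodge filtration of a graded cohomology algebra

`H a`, `a : ι` (`ι` an additive monoid of degrees): vector spaces over `k` with filtrations `Fl a`,
connections `nab a`, products `cup a b` and sets `lg a j` of classes.
-/

set_option autoImplicit false

namespace MPadcGP2

open MPadcGP

section

variable {k : Type*} [Field k] {ι : Type*} [Add ι] {H : ι → Type*} [∀ a, AddCommGroup (H a)]
  [∀ a, Module k (H a)] (nab : ∀ a, Derivation ℤ k k → H a → H a → Prop)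
  (Fl : ∀ a, ℕ → Submodule k (H a)) (cup : ∀ a b, H a → H b → H (a + b) → Prop)
  (lg : ∀ a, ℕ → Set (H a))

/-- The filtrations `P a` of the spaces `H a` are of conjugate type: increasing, of the dimensions
complementary to those of the filtrations `Fl a`, multiplicative, and `P a j` contains `lg a j`. -/
structure IsConjugateType (P : ∀ a, ℕ → Submodule k (H a)) : Prop where
  mono : ∀ a i, P a i ≤ P a (i + 1)
  dim : ∀ a i, Module.finrank k (P a i) + Module.finrank k (Fl a (i + 1)) = Module.finrank k (H a)
  mul : ∀ a b i j, ∀ x ∈ P a i, ∀ y ∈ P b j, ∀ z, cup a b x y z → z ∈ P (a + b) (i + j)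
  log : ∀ a j, ∀ x ∈ lg a j, x ∈ P a j

/-- General position: let `P` be filtrations of conjugate type and let `r` be the dimension of
`Fl a (i + 1)`. Every horizontal space `W` of alternating `r`-forms on `H a` which contains a nonzero
form killed by `P a i` contains a form which does not vanish on `Fl a (i + 1)`. -/
def InGeneralPosition : Prop :=
  ∀ P : ∀ a, ℕ → Submodule k (H a), IsConjugateType Fl cup lg P → ∀ (a : ι) (i : ℕ),
    ∀ W : Submodule k (H a [⋀^Fin (Module.finrank k (Fl a (i + 1)))]→ₗ[k] k),
      IsHorizontal (nab a) W →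
      (∃ ω ∈ W, ω ≠ 0 ∧ ∀ x, (∃ u, x u ∈ P a i) → ω x = 0) →
        ∃ ω ∈ W, ∃ x, (∀ u, x u ∈ Fl a (i + 1)) ∧ ω x ≠ 0

end

end MPadcGP2
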