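import Pool.Agent.Lib.MP_adc574_ag_GP.Lit
import Pool.Agent.Lib.MP_adc574_ag_GP.Gen2

/-!
# GP2: the cohomology of a projective scheme with a grading of the homogeneous coordinates

`M` is a commutative group (the group of characters of a diagonalizable group which acts on the
homogeneous coordinates), `w l` the weight of `x_l`.
-/

set_option autoImplicit false

namespace MPadcGP2

open MPadcGP MvPolynomial

universe u v

section weights

variable {A : Type u} [CommRing A] {n : ℕ} (I : Ideal (MvPolynomial (Fin n) A)) {M : Type v}
  [AddCommGroup M] (w : Fin n → M)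

/-- The ideal contains the components of its elements for the weights `w`. -/
def IsWtHomog : Prop := ∀ f ∈ I, ∀ μ, weightedHomogeneousComponent w μ f ∈ I

/-- The forms of weight `μ` on the open set `x_j ≠ 0`, `j ∈ J`: the combinations of the products of
functions `x_l / x_j` and differentials `d (x_l / x_j)` with the total weight `μ`. -/
noncomputable def wtForms (J : Finset (Fin n)) (μ : M) : Submodule A (Fm A (chart I J)) :=
  Submodule.span A {ω | ∃ (r : ℕ) (s : Fin r → Bool) (l : Fin r → Fin n) (j : Fin r → J),
    ω = (List.ofFn fun t => bif s t then df A (cq I J (l t) (j t).2)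
      else fz A (cq I J (l t) (j t).2)).prod ∧ ∑ t, (w (l t) - w (j t)) = μ}

/-- The cochains of weight `μ`. -/
noncomputable def wtCh (μ : M) : Submodule A (prC I).Ch where
  carrier := {c | ∀ J, c J ∈ wtForms I w J μ}
  add_mem' := fun ha hb J => Submodule.add_mem _ (ha J) (hb J)
  zero_mem' := fun J => Submodule.zero_mem _
  smul_mem' := fun a _ hc J => Submodule.smul_mem _ a (hc J)

/-- The part of weight `μ` of the de Rham cohomology of degree `m`: the classes of the cocycles of
weight `μ`. -/
noncomputable def wtHdR (m : ℕ) (μ : M) : Submodule A ((prC I).HdR m) :=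
  ((wtCh I w μ).submoduleOf ((prC I).Zc m)).map ((prC I).cl m)

/-- The Hodge filtration of the part of weight `μ`. -/
noncomputable def wtFil (m : ℕ) (μ : M) (i : ℕ) : Submodule A ↥(wtHdR I w m μ) :=
  ((prC I).Fil m i).submoduleOf (wtHdR I w m μ)

end weights

/-- The cohomology algebra, graded by the degree and the weight, with the Gauss-Manin connection and
the logarithmic classes is in general position with respect to the Hodge filtration. -/
def IsGeneral {k : Type u} [Field k] {n : ℕ} (I : Ideal (MvPolynomial (Fin n) k)) {M : Type v}
    [AddCommGroup M] (w : Fin n → M) : Prop :=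
  letI : ∀ a : ℕ × M, AddCommGroup ↥(wtHdR I w a.1 a.2) := fun _ => inferInstance
  letI : ∀ a : ℕ × M, Module k ↥(wtHdR I w a.1 a.2) := fun _ => inferInstance
  InGeneralPosition (H := fun a : ℕ × M => ↥(wtHdR I w a.1 a.2))
    (fun a D x y => (prC I).gaussManin a.1 D x y) (fun a i => wtFil I w a.1 a.2 i)
    (fun a b x y z => (prC I).cupRel a.1 b.1 x y z)
    (fun a j => {x | (x : (prC I).HdR a.1) ∈ (prC I).logClasses a.1 j})

end MPadcGP2
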