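import Pool.Agent.Lib.MP_adc574_ag_GP.Mod

/-!
# Homogeneous ideals: base change
-/

set_option autoImplicit false

namespace MPadcGP

open MvPolynomial TensorProduct

universe u v w

section Homog

variable {A : Type u} [CommRing A] {B : Type v} [CommRing B] {n : ℕ} (φ : A →+* B)
  (I : Ideal (MvPolynomial (Fin n) A))

/-- the ideal generated by `I` over `B` -/
noncomputable abbrev bI : Ideal (MvPolynomial (Fin n) B) := I.map (MvPolynomial.map φ)

theorem bI_mem : ∀ f ∈ I, MvPolynomial.map φ f ∈ bI φ I := fun _ hf => Ideal.mem_map_of_mem _ hf

theorem homogeneousComponent_map (d : ℕ) (f : MvPolynomial (Fin n) A) :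
    homogeneousComponent d (MvPolynomial.map φ f) = MvPolynomial.map φ (homogeneousComponent d f) := by
  ext e
  rw [coeff_homogeneousComponent, coeff_map, coeff_map, coeff_homogeneousComponent]
  split_ifs with h
  · rfl
  · rw [map_zero]

variable {I}

theorem IsHomog.map (hI : IsHomog I) : IsHomog (bI φ I) := by
  intro f hf d
  induction hf using Submodule.span_induction generalizing d with
  | mem x hx =>
    obtain ⟨g, hg, rfl⟩ := hx
    rw [homogeneousComponent_map]
    exact Ideal.mem_map_of_mem _ (hI g hg d)
  | zero => rw [map_zero]; exact Ideal.zero_mem _
  | add x y _ _ hx hy => rw [map_add]; exact Ideal.add_mem _ (hx d) (hy d)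
  | smul a x _ hx =>
    rw [smul_eq_mul, ← sum_homogeneousComponent a, Finset.sum_mul, map_sum]
    refine Ideal.sum_mem _ fun e _ => ?_
    by_cases h : e ≤ d
    · have h1 : homogeneousComponent d (homogeneousComponent e a * x) =
          homogeneousComponent e a * homogeneousComponent (d - e) x := by
        obtain ⟨c, rfl⟩ := Nat.exists_eq_add_of_le h
        rw [Nat.add_sub_cancel_left]
        have h2 := sum_homogeneousComponent x
        conv_lhs => rw [← h2, Finset.mul_sum, map_sum]
        have h3 : ∀ m, homogeneousComponent (e + c) (homogeneousComponent e a * homogeneousComponent m x) =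
            if m = c then homogeneousComponent e a * homogeneousComponent m x else 0 := by
          intro m
          have h4 := (homogeneousComponent_isHomogeneous e a).mul (homogeneousComponent_isHomogeneous m x)
          split_ifs with hm
          · subst hm
            exact homogeneousComponent_of_mem h4 |>.trans (if_pos rfl)
          · refine (homogeneousComponent_of_mem h4).trans (if_neg fun h5 => hm ?_)
            omega
        rw [Finset.sum_congr rfl fun m _ => h3 m, Finset.sum_ite_eq']
        split_ifs with hc
        · rfl
        · have h5 : homogeneousComponent c x = 0 := by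
            refine homogeneousComponent_eq_zero c x ?_
            rw [Finset.mem_range] at hc
            omega
          rw [h5, mul_zero]
      rw [h1]
      exact Ideal.mul_mem_left _ _ (hx _)
    · have h1 : homogeneousComponent d (homogeneousComponent e a * x) = 0 := by
        have h2 := sum_homogeneousComponent x
        rw [← h2, Finset.mul_sum, map_sum]
        refine Finset.sum_eq_zero fun m _ => ?_
        have h4 := (homogeneousComponent_isHomogeneous e a).mul (homogeneousComponent_isHomogeneous m x)
        refine (homogeneousComponent_of_mem h4).trans (if_neg fun h5 => h ?_)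
        omega
      rw [h1]
      exact Ideal.zero_mem _

end Homog

section Sm

variable {A : Type u} [CommRing A] {n : ℕ}

/-- `Proj (A[x]/I)` is smooth over `A`: its standard affine charts are smooth. -/
def IsSmoothProj (I : Ideal (MvPolynomial (Fin n) A)) : Prop :=
  ∀ i : Fin n, Algebra.Smooth A (chart I {i})

end Sm

end MPadcGP
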