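import Pool.Agent.Lib.MP_adc574_ag_GP.Mod2
import Pool.Agent.Lib.MP_adc574_ag_GP.Mod3a

/-!
# The standard charts: base change and smoothness
-/

set_option autoImplicit false

namespace MPadcGP

open MvPolynomial TensorProduct

universe u v w

section abs

variable {A : Type u} {B : Type v} {R : Type u} {S : Type v} [CommRing A] [CommRing B] [Algebra A B] [CommRing R] [Algebra A R]
  [CommRing S] [Algebra B S] [Algebra A S] [IsScalarTower A B S]

private theorem bc_rel {n : ℕ} {I : Ideal (MvPolynomial (Fin n) A)} {q : Fin n → R}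
    (h : ∀ f ∈ I, eval₂ (algebraMap A R) q f = 0) : ∀ f ∈ bI (algebraMap A B) I,
      eval₂ (algebraMap B (B ⊗[A] R)) (fun l => (1 : B) ⊗ₜ[A] q l) f = 0 := by
  have h1 : bI (algebraMap A B) I ≤
      RingHom.ker (eval₂Hom (algebraMap B (B ⊗[A] R)) (fun l => (1 : B) ⊗ₜ[A] q l)) := by
    rw [Ideal.map_le_iff_le_comap]
    intro f hf
    rw [Ideal.mem_comap, RingHom.mem_ker]
    have h3 : (eval₂Hom (algebraMap B (B ⊗[A] R)) (fun l => (1 : B) ⊗ₜ[A] q l)).comp (MvPolynomial.map (algebraMap A B)) =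
        ((Algebra.TensorProduct.includeRight : R →ₐ[A] B ⊗[A] R) : R →+* B ⊗[A] R).comp (eval₂Hom (algebraMap A R) q) := by
      refine MvPolynomial.ringHom_ext (fun a => ?_) fun l => ?_
      · rw [RingHom.comp_apply, map_C, eval₂Hom_C, RingHom.comp_apply, eval₂Hom_C, RingHom.coe_coe,
          AlgHom.commutes, ← IsScalarTower.algebraMap_apply A B (B ⊗[A] R)]
      · rw [RingHom.comp_apply, map_X, eval₂Hom_X', RingHom.comp_apply, eval₂Hom_X']
        rfl
    refine (RingHom.congr_fun h3 f).trans ?_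
    have h4 : eval₂Hom (algebraMap A R) q f = 0 := h f hf
    rw [RingHom.comp_apply, h4, map_zero]
  intro f hf
  exact h1 hf

omit [CommRing S] [Algebra B S] [Algebra A S] [IsScalarTower A B S] in
private theorem bc_one {x : R} (h : x = 1) : (1 : B) ⊗ₜ[A] x = 1 := by
  rw [h]
  rfl

private theorem bc_base (G : S →+* B ⊗[A] R) (hG0 : ∀ b, G (algebraMap B S b) = algebraMap B (B ⊗[A] R) b) (cm : R →ₐ[A] S)
    (a : A) : G (cm (algebraMap A R a)) = (1 : B) ⊗ₜ[A] algebraMap A R a := by
  have h1 : (1 : B) ⊗ₜ[A] algebraMap A R a = algebraMap A (B ⊗[A] R) a :=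
    (Algebra.TensorProduct.includeRight : R →ₐ[A] B ⊗[A] R).commutes a
  rw [AlgHom.commutes, IsScalarTower.algebraMap_apply A B S, hG0, h1, ← IsScalarTower.algebraMap_apply A B (B ⊗[A] R)]

private theorem bc_bij (G : S →+* B ⊗[A] R) (hG0 : ∀ b, G (algebraMap B S b) = algebraMap B (B ⊗[A] R) b) (cm : R →ₐ[A] S)
    (h1 : ∀ x, G (cm x) = (1 : B) ⊗ₜ[A] x) (bc : B ⊗[A] R →ₐ[B] S) (hbc : ∀ b x, bc (b ⊗ₜ x) = algebraMap B S b * cm x)
    (h5 : ∀ y, bc (G y) = y) : Function.Bijective bc := by
  have h3 : ∀ t, G (bc t) = t := by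
    intro t
    induction t using TensorProduct.induction_on with
    | zero => rw [map_zero, map_zero]
    | tmul b x =>
      rw [hbc, map_mul, hG0, h1]
      have h4 : algebraMap B (B ⊗[A] R) b = b ⊗ₜ[A] (1 : R) := rfl
      rw [h4, Algebra.TensorProduct.tmul_mul_tmul, mul_one, one_mul]
    | add s t hs ht => rw [map_add, map_add, hs, ht]
  exact ⟨fun x y hxy => by rw [← h3 x, ← h3 y, hxy], fun y => ⟨G y, h5 y⟩⟩

private theorem bc_gen (bc : B ⊗[A] R →ₐ[B] S) {cm : R → S} (hbc : ∀ b x, bc (b ⊗ₜ x) = algebraMap B S b * cm x) (x : R) :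
    bc ((1 : B) ⊗ₜ[A] x) = cm x := by
  rw [hbc, map_one, one_mul]

end abs

section BC

variable {A : Type u} [CommRing A] {B : Type v} [CommRing B] [Algebra A B] {n : ℕ}
  (I : Ideal (MvPolynomial (Fin n) A)) (J : Finset (Fin n))

/-- the base change map on charts, as a homomorphism of `A`-algebras -/
noncomputable def cmA : chart I J →ₐ[A] chart (bI (algebraMap A B) I) J :=
  { cmap (algebraMap A B) (bI_mem _ I) (Finset.Subset.refl J) with
    commutes' := fun a => by
      refine (cmap_base (algebraMap A B) (bI_mem _ I) (Finset.Subset.refl J) a).trans ?_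
      exact (IsScalarTower.algebraMap_apply A B (chart (bI (algebraMap A B) I) J) a).symm }

theorem cmA_apply (x : chart I J) :
    cmA (B := B) I J x = cmap (algebraMap A B) (bI_mem _ I) (Finset.Subset.refl J) x := rfl

theorem cmA_cq (l : Fin n) {j : Fin n} (hj : j ∈ J) :
    cmA (B := B) I J (cq I J l hj) = cq (bI (algebraMap A B) I) J l hj :=
  cmap_cq (algebraMap A B) (bI_mem _ I) (Finset.Subset.refl J) l hj

/-- the base change map -/
noncomputable def bcm : B ⊗[A] chart I J →ₐ[B] chart (bI (algebraMap A B) I) J :=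
  Algebra.TensorProduct.lift (Algebra.ofId B _) (cmA I J) fun _ _ => mul_comm _ _

theorem bcm_tmul (b : B) (x : chart I J) : bcm I J (b ⊗ₜ x) = algebraMap B _ b * cmA I J x := by
  rw [bcm, Algebra.TensorProduct.lift_tmul]
  rfl

variable {I J}

/-- The charts commute with base change. -/
theorem bcm_bijective (hI : IsHomog I) (hJ : J.Nonempty) : Function.Bijective (bcm (B := B) I J) := by
  obtain ⟨i, hi⟩ := hJ
  obtain ⟨G, hG0, hG⟩ := exists_chart_lift (bI (algebraMap A B) I) J (algebraMap B (B ⊗[A] chart I J)) hi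
    (fun l => (1 : B) ⊗ₜ[A] cq I J l hi) (bc_one (cq_self I J hi))
    (fun j hj => (cq_isUnit I J hj hi).map (Algebra.TensorProduct.includeRight : chart I J →ₐ[A] B ⊗[A] chart I J))
    (bc_rel fun f hf => eval₂_cq hI hi hf)
  have h2 : G.comp (cmA (B := B) I J : chart I J →+* _) =
      ((Algebra.TensorProduct.includeRight : chart I J →ₐ[A] B ⊗[A] chart I J) : chart I J →+* B ⊗[A] chart I J) :=
    chart_hom_ext' I J hi (fun a => bc_base G hG0 (cmA (B := B) I J) a) fun l =>
      (congrArg G (cmA_cq I J l hi)).trans (hG l)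
  have h6 : (bcm (B := B) I J : B ⊗[A] chart I J →+* _).comp G = RingHom.id _ :=
    chart_hom_ext' _ J hi (fun b => (congrArg (bcm (B := B) I J) (hG0 b)).trans ((bcm (B := B) I J).commutes b)) fun l =>
      (congrArg (bcm (B := B) I J) (hG l)).trans ((bc_gen (bcm (B := B) I J) (fun b x => bcm_tmul I J b x) _).trans
        (cmA_cq I J l hi))
  exact bc_bij G hG0 (cmA (B := B) I J) (fun x => RingHom.congr_fun h2 x) (bcm (B := B) I J) (fun b x => bcm_tmul I J b x)
    (fun y => RingHom.congr_fun h6 y)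

/-- the base change isomorphism -/
noncomputable def bce (hI : IsHomog I) (hJ : J.Nonempty) :
    B ⊗[A] chart I J ≃ₐ[B] chart (bI (algebraMap A B) I) J :=
  AlgEquiv.ofBijective (bcm I J) (bcm_bijective hI hJ)

theorem bce_tmul (hI : IsHomog I) (hJ : J.Nonempty) (b : B) (x : chart I J) :
    bce hI hJ (b ⊗ₜ x) = algebraMap B _ b * cmA I J x := bcm_tmul I J b x

/-- `chart (I over B) J` is the base change of the `A`-module `chart I J` -/
theorem cmA_isBaseChange (hI : IsHomog I) (hJ : J.Nonempty) :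
    IsBaseChange B (cmA (B := B) I J).toLinearMap := by
  refine IsBaseChange.of_equiv (bce (B := B) hI hJ).toLinearEquiv fun x => ?_
  have h1 : (bce (B := B) hI hJ).toLinearEquiv ((1 : B) ⊗ₜ[A] x) = bce hI hJ (1 ⊗ₜ x) := rfl
  rw [h1, bce_tmul, map_one, one_mul]
  rfl

end BC

section Sm

variable {A : Type u} [CommRing A] {n : ℕ} {I : Ideal (MvPolynomial (Fin n) A)}

/-- all the charts are smooth -/
theorem IsSmoothProj.smooth (hI : IsHomog I) (hs : IsSmoothProj I) {J : Finset (Fin n)} (hJ : J.Nonempty) :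
    Algebra.Smooth A (chart I J) := by
  obtain ⟨i, hi⟩ := hJ
  have hsub : ({i} : Finset (Fin n)) ⊆ J := Finset.singleton_subset_iff.2 hi
  let _ : Algebra (chart I {i}) (chart I J) := (tr I hsub).toRingHom.toAlgebra
  have h1 : IsScalarTower A (chart I {i}) (chart I J) :=
    IsScalarTower.of_algebraMap_eq fun a => ((tr I hsub).commutes a).symm
  have h2 : IsLocalization.Away (∏ l ∈ J, cq I {i} l (Finset.mem_singleton_self i)) (chart I J) :=
    tr_isLocalization hI hsub (Finset.mem_singleton_self i)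
  have h3 : Algebra.Smooth (chart I {i}) (chart I J) :=
    Algebra.Smooth.of_isLocalization_Away (∏ l ∈ J, cq I {i} l (Finset.mem_singleton_self i))
  have h4 := hs i
  exact Algebra.Smooth.comp A (chart I {i}) (chart I J)

/-- smoothness is preserved by base change -/
theorem IsSmoothProj.map {B : Type v} [CommRing B] (hI : IsHomog I) (hs : IsSmoothProj I) (φ : A →+* B) :
    IsSmoothProj (bI φ I) := by
  intro i
  let _ := φ.toAlgebra
  have h1 := hs i
  have h2 : Algebra.Smooth B (B ⊗[A] chart I {i}) := inferInstance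
  exact Algebra.Smooth.of_equiv (bce (B := B) hI (Finset.singleton_nonempty i))

end Sm

end MPadcGP
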