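import Pool.Agent.Lib.MP_adc574_ag_GP.GrWc
import Pool.Agent.Lib.MP_adc574_ag_GP.Mod3
import Pool.Agent.Lib.MP_adc574_ag_GP.Lit2
import Pool.Agent.Lib.MP_adc574_ag_GP.DegP

/-!
# GP2: the literal definition of the weights (helper59)

`grP_Wt`: the cochains of weight `μ` of `grP` are those of `wtCh`.
-/

set_option autoImplicit false

namespace MPadcGP2

open MPadcGP MvPolynomial

universe u v w x y

section

variable {A : Type u} [CommRing A] {n : ℕ} {M : Type y} [AddCommGroup M] [Fintype M] [DecidableEq M]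
  {wt : Fin n → M} {I : Ideal (MvPolynomial (Fin n) A)} (hI : IsHomog I) (hw : IsWHomog wt I)
  {J : Finset (Fin n)}

theorem mem_wtForms_iff {e : Fm A (chart I J)} {μ : M} :
    e ∈ wtForms I wt J μ ↔ wp (grC hI hw J) μ e = e :=
  ⟨fun he => wp_of_memF (Λ := Fin n) (Θ := J) (q := fun l j => cq I J l j.2) (wt := fun l j => wt l - wt j) (grC hI hw J)
      (fun l j μ => grC_c_cq hI hw l j.2 μ) he,
    fun h => h ▸ wp_mem_wtF (Λ := Fin n) (Θ := J) (q := fun l j => cq I J l j.2) (wt := fun l j => wt l - wt j) (grC hI hw J)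
      (fun _ h1 h2 h3 h4 => chart_ind I J h1 (fun l m hm => h2 l ⟨m, hm⟩) h3 h4) (fun l j μ => grC_c_cq hI hw l j.2 μ) e μ⟩

/-- The literal definition of the cochains of weight `μ` agrees with the one by projectors. -/
theorem grP_Wt (μ : M) : (grP hI hw).Wt μ = wtCh I wt μ := by
  ext c
  constructor
  · intro h J
    exact (mem_wtForms_iff hI hw).2 (congrFun h J)
  · intro h
    funext J
    exact (mem_wtForms_iff hI hw).1 (h J)

theorem wtHdR_eq {κ : Type u} [Field κ] {I : Ideal (MvPolynomial (Fin n) κ)} (hI : IsHomog I)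
    (hw : IsWHomog wt I) (m : ℕ) (μ : M) : wtHdR I wt m μ = (prC I).cln ((grP hI hw).Wt μ) m := by
  rw [grP_Wt]
  rfl

theorem finrank_submoduleOf {κ : Type u} [Field κ] {V : Type v} [AddCommGroup V] [Module κ V]
    (N S : Submodule κ V) : Module.finrank κ (N.submoduleOf S) = Module.finrank κ ↥(N ⊓ S) := by
  rw [(Submodule.equivMapOfInjective S.subtype Subtype.val_injective (N.submoduleOf S)).finrank_eq]
  have h1 : (N.submoduleOf S).map S.subtype = N ⊓ S := by
    unfold Submodule.submoduleOf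
    rw [Submodule.map_comap_subtype, inf_comm]
  rw [h1]

/-- The conjugate filtration in weight `p • μ` has the dimension complementary to the one of the Hodge
filtration in weight `μ`. -/
theorem conj_dim_wt {p : ℕ} [Fact p.Prime] {κ : Type u} [Field κ] [CharP κ p] {L : Type} [Fintype L]
    {b : L → κ} (hb : PBas p b) {I : Ideal (MvPolynomial (Fin n) κ)} (hI : IsHomog I)
    (hs : IsSmoothProj I) (hw : IsWHomog wt I) (hM : Function.Injective fun μ : M => p • μ)
    (hf : ∀ q m, FiniteDimensional κ (HH (prC I).Dt ((prC I).Fi (q + 1)) ((prC I).Fi q) m))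
    (hsum : ∀ m, ∑ q ∈ Finset.range (m + 1),
      Module.finrank κ (HH (prC I).Dt ((prC I).Fi (q + 1)) ((prC I).Fi q) m) ≤
        Module.finrank κ ((prC I).HdR m)) (m i : ℕ) (μ : M) :
    Module.finrank κ (((prC I).Con m i).submoduleOf (wtHdR I wt m (p • μ))) +
      Module.finrank κ (wtFil I wt m μ (i + 1)) = Module.finrank κ (wtHdR I wt m μ) := by
  have hW := fun ν : M => wtHdR_eq hI hw m ν
  have hc : ∀ J : Finset (Fin n), J.Nonempty → CarP p b ((prC I).R J) := by
    intro J hJ
    have : Algebra.Smooth κ ((prC I).R J) := IsSmoothProj.smooth hI hs hJ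
    exact carP_of_smooth hb
  unfold wtFil
  rw [finrank_submoduleOf, finrank_submoduleOf, hW, hW, CovD.Con_eq_cln, CovD.Fil_eq_cln,
    CovD.cln_inf (grP hI hw).isDec (grP hI hw).isSt_Tt (fun ν x hx => (grP hI hw).isSt_Ni i ν m x hx),
    CovD.cln_inf (grP hI hw).isDec (grP hI hw).isSt_Tt (fun ν x hx => (grP hI hw).isSt_Fi (i + 1) ν m x hx)]
  exact (grP hI hw).finrank_add hM hf hsum hc i m μ

end

end MPadcGP2
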