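import Pool.Agent.Lib.MP_adc574_ag_GP.BCd

/-!
# Base change, continued (helper90)

* `push_injective`: `push` is injective for flat cochains and an injective base homomorphism.
* `bc_Ni`: the conjugate filtration commutes with flat base change.
* `exists_bcD`: derivations of the base change of a ring; `exists_bcLft`: lifts on the base change.
-/

set_option autoImplicit false

namespace MPadcGP

open TensorProduct

universe u v w x y z

section inj

variable {A : Type*} {B : Type*} [CommRing A] [CommRing B] [Algebra A B] {M N : Type*}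
  [AddCommGroup M] [Module A M] [AddCommGroup N] [Module B N]

theorem one_tmul_injective [Module.Flat A M] (h : Function.Injective (algebraMap A B)) {m : M}
    (hm : (1 : B) ⊗ₜ[A] m = 0) : m = 0 := by
  have h1 : Function.Injective ((Algebra.linearMap A B).rTensor M) :=
    Module.Flat.rTensor_preserves_injective_linearMap _ h
  have h2 : (Algebra.linearMap A B).rTensor M ((1 : A) ⊗ₜ[A] m) = 0 := by
    rw [LinearMap.rTensor_tmul]
    simpa using hm
  have h3 : (1 : A) ⊗ₜ[A] m = 0 := h1 (by rw [h2, map_zero])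
  have h4 := congrArg (TensorProduct.lid A M) h3
  rw [TensorProduct.lid_tmul, one_smul, map_zero] at h4
  exact h4

theorem inj_of_bcl [Module.Flat A M] (h : Function.Injective (algebraMap A B)) (φ : M →+ N)
    (hφ : ∀ (a : A) (m : M), φ (a • m) = algebraMap A B a • φ m)
    (hb : Function.Injective (bcl φ hφ)) {m : M} (hm : φ m = 0) : m = 0 := by
  apply one_tmul_injective (B := B) h
  apply hb
  rw [map_zero, bcl_tmul, one_smul, hm]

end inj

namespace CovD

section ni

variable {A : Type u} {B : Type w} [CommRing A] [CommRing B] [Algebra A B] {n : ℕ}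
  {X : CovD.{u, v} A n} {Y : CovD.{w, x} B n}

/-- `push` is injective on the cochains of total degree `m`. -/
theorem Hm.push_injective (F : Hm (algebraMap A B) X Y) (hF : F.IsBC)
    (h : Function.Injective (algebraMap A B))
    (hX : ∀ J : Finset (Fin n), J.Nonempty → Module.Flat A (X.R J) ∧
      Algebra.FormallySmooth A (X.R J)) {m : ℕ} {c : X.Ch} (hc : c ∈ X.Tt m)
    (h0 : F.push c = 0) : c = 0 := by
  have hfl := flat_Tt X hX m
  have h1 := inj_of_bcl h _ _ (F.bc_Tt hF m).1 (m := ⟨c, hc⟩) (Subtype.ext h0)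
  exact congrArg Subtype.val h1

/-- The cochains with prescribed degrees. -/
noncomputable def Cd (X : CovD.{u, v} A n) (dg : Finset (Fin n) → Option ℕ) :
    Submodule A X.Ch where
  carrier := {c | ∀ J, c J ∈ FdO A (X.R J) (dg J)}
  add_mem' hb hc J := Submodule.add_mem _ (hb J) (hc J)
  zero_mem' _ := Submodule.zero_mem _
  smul_mem' a _ hc J := Submodule.smul_mem _ a (hc J)

theorem mem_Cd {X : CovD.{u, v} A n} {dg : Finset (Fin n) → Option ℕ} {c : X.Ch} :
    c ∈ X.Cd dg ↔ ∀ J, c J ∈ FdO A (X.R J) (dg J) := Iff.rfl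

/-- The degrees of the cochains of total degree `m` with form degrees `≤ i`. -/
def dgN (n i m : ℕ) (J : Finset (Fin n)) : Option ℕ :=
  if J = ∅ ∨ m + 1 < J.card ∨ J.card + i < m + 1 then none else some (m + 1 - J.card)

/-- The degrees of the derivatives of the top components. -/
def dgE (n i m : ℕ) (J : Finset (Fin n)) : Option ℕ :=
  if J ≠ ∅ ∧ J.card + i = m + 1 then some (i + 1) else none

open Classical in
/-- The exterior derivative of the components of form degree `i`. -/
noncomputable def kd (X : CovD.{u, v} A n) (i m : ℕ) : X.Ch →ₗ[A] X.Ch :=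
  LinearMap.pi fun J => if J.card + i = m + 1 then (ddl A (X.R J)).comp (LinearMap.proj J) else 0

theorem kd_pos {X : CovD.{u, v} A n} {i m : ℕ} (c : X.Ch) {J : Finset (Fin n)}
    (h : J.card + i = m + 1) : X.kd i m c J = dd A (c J) := by
  unfold kd
  rw [LinearMap.pi_apply, if_pos h]
  rfl

theorem kd_neg {X : CovD.{u, v} A n} {i m : ℕ} (c : X.Ch) {J : Finset (Fin n)}
    (h : ¬ J.card + i = m + 1) : X.kd i m c J = 0 := by
  unfold kd
  rw [LinearMap.pi_apply, if_neg h]
  rfl

theorem Hm.push_kd {F : Hm (algebraMap A B) X Y} (i m : ℕ) (c : X.Ch) :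
    F.push (X.kd i m c) = Y.kd i m (F.push c) := by
  funext J
  by_cases h : J.card + i = m + 1
  · rw [kd_pos _ h, Hm.push_apply, kd_pos _ h, Hm.e_dd]
    rfl
  · rw [kd_neg _ h, Hm.push_apply, kd_neg _ h, map_zero]

theorem mem_Ni_iff (X : CovD.{u, v} A n) (i m : ℕ) (c : X.Ch) :
    c ∈ X.Ni i m ↔ c ∈ X.Cd (dgN n i m) ∧ X.kd i m c = 0 := by
  constructor
  · intro hc
    refine ⟨fun J => ?_, ?_⟩
    · unfold dgN
      split_ifs with h
      · rw [mem_FdO_none]
        rcases h with h | h | h
        · rw [h, hc.1.1]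
        · exact (hc.1.2 J).2 h
        · exact (hc.2 J).1 h
      · push Not at h
        exact (hc.1.2 J).1 _ (by omega)
    · funext J
      by_cases h : J.card + i = m + 1
      · rw [kd_pos _ h, (hc.2 J).2 h]
        rfl
      · rw [kd_neg _ h]
        rfl
  · rintro ⟨hc, hk⟩
    have h1 : ∀ J, (J = ∅ ∨ m + 1 < J.card ∨ J.card + i < m + 1) → c J = 0 := by
      intro J h
      have h2 := hc J
      unfold dgN at h2
      rw [if_pos h, mem_FdO_none] at h2
      exact h2
    have h3 : ∀ J, ¬ (J = ∅ ∨ m + 1 < J.card ∨ J.card + i < m + 1) →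
        c J ∈ Fd A (X.R J) (m + 1 - J.card) := by
      intro J h
      have h2 := hc J
      unfold dgN at h2
      rw [if_neg h] at h2
      exact h2
    refine ⟨⟨h1 ∅ (Or.inl rfl), fun J => ⟨fun q hq => ?_, fun h => h1 J (Or.inr (Or.inl h))⟩⟩,
      fun J => ⟨fun h => h1 J (Or.inr (Or.inr h)), fun h => ?_⟩⟩
    · by_cases h : J = ∅ ∨ m + 1 < J.card ∨ J.card + i < m + 1
      · rw [h1 J h]
        exact Submodule.zero_mem _
      · have h2 := h3 J h
        have h4 : m + 1 - J.card = q := by omega
        rwa [h4] at h2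
    · rw [← kd_pos c h, hk]
      rfl

theorem kd_mem {X : CovD.{u, v} A n} {i m : ℕ} {c : X.Ch} (hc : c ∈ X.Cd (dgN n i m)) :
    X.kd i m c ∈ X.Cd (dgE n i m) := by
  intro J
  unfold dgE
  split_ifs with h
  · rw [kd_pos _ h.2, mem_FdO_some]
    have h2 := hc J
    unfold dgN at h2
    split_ifs at h2 with h3
    · rw [mem_FdO_none] at h2
      rw [h2, map_zero]
      exact Submodule.zero_mem _
    · have h4 : m + 1 - J.card = i := by omega
      rw [h4] at h2
      exact dd_mem h2
  · rw [mem_FdO_none]
    by_cases h2 : J.card + i = m + 1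
    · have h3 : J = ∅ := by
        by_contra h4
        exact h ⟨h4, h2⟩
      have h4 := hc J
      unfold dgN at h4
      rw [if_pos (Or.inl h3), mem_FdO_none] at h4
      rw [kd_pos _ h2, h4, map_zero]
    · exact kd_neg _ h2

/-- The conjugate filtration commutes with flat base change. -/
theorem Hm.bc_Ni (F : Hm (algebraMap A B) X Y) (hF : F.IsBC) [Module.Flat A B] (i m : ℕ) :
    Function.Bijective (bcl (F.pushT (X.Ni i m) (Y.Ni i m) fun _ hc => Hm.push_mem_Ni hc)
      (F.pushT_smul _ _ _)) := by
  obtain ⟨hm1, hb1⟩ := F.bc_ch hF (dgN n i m) (by unfold dgN; rw [if_pos (Or.inl rfl)])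
    (X.Cd (dgN n i m)) (Y.Cd (dgN n i m)) (fun c => mem_Cd) (fun c => mem_Cd)
  obtain ⟨hm2, hb2⟩ := F.bc_ch hF (dgE n i m) (by unfold dgE; rw [if_neg (fun h => h.1 rfl)])
    (X.Cd (dgE n i m)) (Y.Cd (dgE n i m)) (fun c => mem_Cd) (fun c => mem_Cd)
  let K : ↥(X.Cd (dgN n i m)) →ₗ[A] ↥(X.Cd (dgE n i m)) :=
    { toFun := fun c => ⟨X.kd i m c, kd_mem c.2⟩
      map_add' := fun a b => Subtype.ext (map_add (X.kd i m) _ _)
      map_smul' := fun a b => Subtype.ext (map_smul (X.kd i m) a _) }
  let ι1 : ↥(X.Ni i m) →ₗ[A] ↥(X.Cd (dgN n i m)) :=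
    { toFun := fun c => ⟨c, ((mem_Ni_iff X i m c).1 c.2).1⟩
      map_add' := fun a b => rfl
      map_smul' := fun a b => rfl }
  have hι1 : Function.Injective ι1 := by
    intro a b hab
    exact Subtype.ext (congrArg (fun z : ↥(X.Cd (dgN n i m)) => (z : X.Ch)) hab)
  have hι2 : Function.Injective (ι1.baseChange B) :=
    Module.Flat.lTensor_preserves_injective_linearMap ι1 hι1
  have hcomp : ∀ x : B ⊗[A] ↥(X.Ni i m),
      ((bcl (F.pushT (X.Ni i m) (Y.Ni i m) fun _ hc => Hm.push_mem_Ni hc)
        (F.pushT_smul _ _ _) x : ↥(Y.Ni i m)) : Y.Ch) =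
      ((bcl (F.pushT _ _ hm1) (F.pushT_smul _ _ hm1) (ι1.baseChange B x) :
        ↥(Y.Cd (dgN n i m))) : Y.Ch) := by
    intro x
    induction x using TensorProduct.induction_on with
    | zero => simp only [map_zero]; rfl
    | tmul b m =>
      rw [bcl_tmul, LinearMap.baseChange_tmul, bcl_tmul]
      rfl
    | add x y hx hy =>
      rw [map_add, map_add, map_add, Submodule.coe_add, Submodule.coe_add, hx, hy]
  constructor
  · rw [injective_iff_map_eq_zero]
    intro x hx
    apply hι2
    rw [map_zero]
    apply hb1.1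
    rw [map_zero]
    apply Subtype.ext
    rw [← hcomp, hx]
    rfl
  · intro y
    have hy := (mem_Ni_iff Y i m y).1 y.2
    obtain ⟨z, hz⟩ := hb1.2 ⟨y, hy.1⟩
    have hK : ∀ z : B ⊗[A] ↥(X.Cd (dgN n i m)),
        ((bcl (F.pushT _ _ hm2) (F.pushT_smul _ _ hm2) (K.baseChange B z) :
          ↥(Y.Cd (dgE n i m))) : Y.Ch) =
        Y.kd i m ((bcl (F.pushT _ _ hm1) (F.pushT_smul _ _ hm1) z :
          ↥(Y.Cd (dgN n i m))) : Y.Ch) := by
      intro z
      induction z using TensorProduct.induction_on with
      | zero => simp only [map_zero]; exact (map_zero _).symm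
      | tmul b c =>
        rw [bcl_tmul, LinearMap.baseChange_tmul, bcl_tmul]
        change b • F.push (X.kd i m c) = Y.kd i m (b • F.push c)
        rw [map_smul, Hm.push_kd]
      | add x y hx hy =>
        rw [map_add, map_add, map_add, Submodule.coe_add, Submodule.coe_add, hx, hy, map_add]
    have hz0 : K.baseChange B z = 0 := by
      apply hb2.1
      rw [map_zero]
      apply Subtype.ext
      rw [hK, hz]
      exact hy.2
    have hker : z ∈ LinearMap.ker (TensorProduct.AlgebraTensorModule.lTensor B B K) := hz0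
    rw [Module.Flat.ker_lTensor_eq] at hker
    obtain ⟨w, hw⟩ := hker
    let ι3 : ↥(LinearMap.ker K) →ₗ[A] ↥(X.Ni i m) :=
      { toFun := fun c => ⟨((c : ↥(X.Cd (dgN n i m))) : X.Ch), (mem_Ni_iff X i m _).2
          ⟨(c : ↥(X.Cd (dgN n i m))).2, congrArg Subtype.val (LinearMap.mem_ker.1 c.2)⟩⟩
        map_add' := fun a b => rfl
        map_smul' := fun a b => rfl }
    refine ⟨ι3.baseChange B w, Subtype.ext ?_⟩
    rw [hcomp]
    have h5 : ι1.baseChange B (ι3.baseChange B w) = z := by
      rw [← hw]
      clear hw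
      induction w using TensorProduct.induction_on with
      | zero => simp only [map_zero]
      | tmul b c => rfl
      | add x y hx hy => rw [map_add, map_add, map_add, hx, hy]
    rw [h5, hz]

end ni

end CovD

section der

variable {A : Type u} {B : Type w} [CommRing A] [CommRing B] [Algebra A B] {R : Type v}
  {S : Type x} [CommRing R] [CommRing S] [Algebra A R] [Algebra B S] {h : R →+* S}

theorem bcr_ind (hb : HB A B h) (hs : Function.Surjective (bcr hb)) {P : S → Prop} (h0 : P 0)
    (h1 : ∀ (b : B) (r : R), P (b • h r)) (h2 : ∀ s t, P s → P t → P (s + t)) (s : S) : P s := by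
  obtain ⟨z, rfl⟩ := hs s
  induction z using TensorProduct.induction_on with
  | zero => rw [map_zero]; exact h0
  | tmul b r => rw [bcr_tmul]; exact h1 b r
  | add x y hx hy => rw [map_add]; exact h2 _ _ hx hy

/-- Derivations of the base change. -/
theorem exists_bcD (hb : HB A B h) (hbij : Function.Bijective (bcr hb)) {m : ℕ}
    (D : Fin m → Derivation ℤ A A) (V : Fin m → Derivation ℤ R R)
    (hV : ∀ l a, V l (algebraMap A R a) = algebraMap A R (D l a)) (α : Fin m → B)
    (D' : Derivation ℤ B B)
    (hD' : ∀ a, D' (algebraMap A B a) = ∑ l, α l * algebraMap A B (D l a)) :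
    ∃ W : Derivation ℤ S S, (∀ b, W (algebraMap B S b) = algebraMap B S (D' b)) ∧
      ∀ r, W (h r) = ∑ l, algebraMap B S (α l) * h (V l r) := by
  have hVs : ∀ l (a : A) (r : R), V l (a • r) = a • V l r + D l a • r := by
    intro l a r
    rw [Algebra.smul_def, Derivation.leibniz, hV, smul_eq_mul, smul_eq_mul, Algebra.smul_def,
      Algebra.smul_def, mul_comm r]
  -- the additive map on the tensor product
  let g0 : B →+ R →+ S :=
    { toFun := fun b =>
        { toFun := fun r => D' b • h r + b • ∑ l, α l • h (V l r)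
          map_zero' := by simp
          map_add' := by
            intro r s
            simp only [map_add, smul_add, Finset.sum_add_distrib]
            abel }
      map_zero' := by
        ext r
        simp
      map_add' := by
        intro b c
        ext r
        simp only [map_add, add_smul, AddMonoidHom.coe_mk, ZeroHom.coe_mk,
          AddMonoidHom.add_apply]
        abel }
  have hg0 : ∀ b r, g0 b r = D' b • h r + b • ∑ l, α l • h (V l r) := fun b r => rfl
  let g : B ⊗[A] R →+ S := TensorProduct.liftAddHom g0 (by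
    intro a b r
    rw [hg0, hg0]
    have h1 : a • b = algebraMap A B a * b := Algebra.smul_def a b
    rw [h1, Derivation.leibniz, hD', hb.smul]
    have h2 : ∀ l, h (V l (a • r)) = algebraMap A B a • h (V l r) +
        algebraMap A B (D l a) • h r := by
      intro l
      rw [hVs, map_add, hb.smul, hb.smul]
    simp only [h2, smul_add, Finset.sum_add_distrib, smul_eq_mul]
    simp only [Algebra.smul_def, map_add, map_mul, map_sum, Finset.sum_mul, Finset.mul_sum,
      add_mul]
    have e1 : ∀ x y z t : S, x * y * z = y * (x * z) ∧ t = t := fun x y z t => ⟨by ring, rfl⟩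
    have e2 : ∑ l, algebraMap B S b * (algebraMap B S (α l) *
        algebraMap B S (algebraMap A B (D l a))) * h r =
        ∑ l, algebraMap B S b * (algebraMap B S (α l) *
          (algebraMap B S (algebraMap A B (D l a)) * h r)) :=
      Finset.sum_congr rfl fun l _ => by ring
    have e3 : ∑ l, algebraMap B S (algebraMap A B a) * algebraMap B S b *
        (algebraMap B S (α l) * h (V l r)) =
        ∑ l, algebraMap B S b * (algebraMap B S (α l) *
          (algebraMap B S (algebraMap A B a) * h (V l r))) :=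
      Finset.sum_congr rfl fun l _ => by ring
    rw [e2, e3]
    ring)
  have hg : ∀ b r, g (b ⊗ₜ[A] r) = D' b • h r + b • ∑ l, α l • h (V l r) := fun b r => rfl
  let E : (B ⊗[A] R) ≃ₗ[B] S := LinearEquiv.ofBijective (bcr hb) hbij
  have hE : ∀ x, E x = bcr hb x := fun x => rfl
  have hEr : ∀ (b : B) (r : R), E.symm (b • h r) = b ⊗ₜ[A] r := by
    intro b r
    apply E.injective
    rw [LinearEquiv.apply_symm_apply, hE, bcr_tmul]
  let W0 : S →+ S := g.comp (E.symm : S →+ B ⊗[A] R)
  have hW0 : ∀ (b : B) (r : R), W0 (b • h r) = D' b • h r + b • ∑ l, α l • h (V l r) := by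
    intro b r
    change g (E.symm (b • h r)) = _
    rw [hEr, hg]
  have hleib : ∀ s t, W0 (s * t) = s • W0 t + t • W0 s := by
    intro s t
    induction s using bcr_ind hb hbij.2 with
    | h0 => rw [zero_mul, map_zero, zero_smul, smul_zero, add_zero]
    | h2 s s' hs hs' =>
      rw [add_mul, map_add, hs, hs', map_add, add_smul, smul_add]
      abel
    | h1 b r =>
      induction t using bcr_ind hb hbij.2 with
      | h0 => rw [mul_zero, map_zero, zero_smul, smul_zero, add_zero]
      | h2 s s' hs hs' =>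
        rw [mul_add, map_add, hs, hs', map_add, add_smul, smul_add]
        abel
      | h1 b' r' =>
        rw [smul_mul_smul_comm, ← map_mul, hW0, hW0, hW0, Derivation.leibniz]
        have h3 : ∀ l, h (V l (r * r')) = h r * h (V l r') + h r' * h (V l r) := by
          intro l
          rw [Derivation.leibniz, map_add, smul_eq_mul, smul_eq_mul, map_mul, map_mul]
        simp only [h3, smul_eq_mul, Algebra.smul_def, map_add, map_mul, mul_add, add_mul,
          Finset.sum_add_distrib, Finset.mul_sum]
        have e1 : ∑ l, algebraMap B S b * algebraMap B S b' *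
            (algebraMap B S (α l) * (h r * h (V l r'))) =
            ∑ l, algebraMap B S b * h r * (algebraMap B S b' * (algebraMap B S (α l) *
              h (V l r'))) := Finset.sum_congr rfl fun l _ => by ring
        have e2 : ∑ l, algebraMap B S b * algebraMap B S b' *
            (algebraMap B S (α l) * (h r' * h (V l r))) =
            ∑ l, algebraMap B S b' * h r' * (algebraMap B S b * (algebraMap B S (α l) *
              h (V l r))) := Finset.sum_congr rfl fun l _ => by ring
        rw [e1, e2]
        ring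
  refine ⟨Derivation.mk' W0.toIntLinearMap hleib, fun b => ?_, fun r => ?_⟩
  · change W0 (algebraMap B S b) = _
    have h1 : algebraMap B S b = b • h 1 := by rw [map_one, Algebra.smul_def, mul_one]
    rw [h1, hW0]
    have h2 : ∀ l, V l (1 : R) = 0 := fun l => Derivation.map_one_eq_zero _
    simp only [h2, map_zero, smul_zero, Finset.sum_const_zero, add_zero, map_one]
    rw [Algebra.smul_def, mul_one]
  · change W0 (h r) = _
    have h1 : h r = (1 : B) • h r := (one_smul _ _).symm
    rw [h1, hW0, Derivation.map_one_eq_zero, zero_smul, zero_add, one_smul]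
    exact Finset.sum_congr rfl fun l _ => Algebra.smul_def _ _

end der

namespace CovD

variable {A : Type u} {B : Type w} [CommRing A] [CommRing B] [Algebra A B] {n : ℕ}
  {X : CovD.{u, v} A n} {Y : CovD.{w, x} B n}

/-- Lifts on the base change. -/
theorem Hm.exists_bcLft (F : Hm (algebraMap A B) X Y) (hF : F.IsBC) {m : ℕ}
    (D : Fin m → Derivation ℤ A A) (V : ∀ l, Lft X (D l)) (α : Fin m → B)
    (D' : Derivation ℤ B B)
    (hD' : ∀ a, D' (algebraMap A B a) = ∑ l, α l * algebraMap A B (D l a)) :
    ∃ V' : Lft Y D', ∀ K J : Finset (Fin n), K.Nonempty → K ⊆ J → ∀ x : X.R J,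
      V'.V K J (F.h J x) = ∑ l, algebraMap B (Y.R J) (α l) * F.h J ((V l).V K J x) := by
  classical
  have h1 : ∀ K J : Finset (Fin n), ∃ W : Derivation ℤ (Y.R J) (Y.R J),
      K.Nonempty → K ⊆ J → (∀ b, W (algebraMap B (Y.R J) b) = algebraMap B (Y.R J) (D' b)) ∧
      ∀ r, W (F.h J r) = ∑ l, algebraMap B (Y.R J) (α l) * F.h J ((V l).V K J r) := by
    intro K J
    by_cases h : K.Nonempty ∧ K ⊆ J
    · obtain ⟨W, hW⟩ := exists_bcD (F.hb J) (hF J (h.1.mono h.2)) D (fun l => (V l).V K J)
        (fun l a => (V l).base K J h.1 h.2 a) α D' hD'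
      exact ⟨W, fun _ _ => hW⟩
    · exact ⟨0, fun h2 h3 => absurd ⟨h2, h3⟩ h⟩
  choose W hW using h1
  refine ⟨⟨W, fun K J hK hJ b => (hW K J hK hJ).1 b, fun K J L hK hJ h x => ?_⟩,
    fun K J hK hJ x => (hW K J hK hJ).2 x⟩
  have hJ' : J.Nonempty := hK.mono hJ
  induction x using bcr_ind (F.hb J) (hF J hJ').2 with
  | h0 => rw [map_zero, map_zero, map_zero]
  | h2 s t hs ht => rw [map_add, map_add, hs, ht, map_add, map_add]
  | h1 b r =>
    have e1 : W K J (b • F.h J r) = algebraMap B (Y.R J) (D' b) * F.h J r +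
        algebraMap B (Y.R J) b * ∑ l, algebraMap B (Y.R J) (α l) * F.h J ((V l).V K J r) := by
      rw [Algebra.smul_def, Derivation.leibniz, (hW K J hK hJ).1, (hW K J hK hJ).2, smul_eq_mul,
        smul_eq_mul, add_comm, mul_comm (F.h J r)]
    have e2 : W K L (Y.ρ h (b • F.h J r)) = algebraMap B (Y.R L) (D' b) * F.h L (X.ρ h r) +
        algebraMap B (Y.R L) b *
          ∑ l, algebraMap B (Y.R L) (α l) * F.h L ((V l).V K L (X.ρ h r)) := by
      rw [Algebra.smul_def, map_mul, AlgHom.commutes, ← F.comm h r, Derivation.leibniz,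
        (hW K L hK (hJ.trans h)).1, (hW K L hK (hJ.trans h)).2, smul_eq_mul,
        smul_eq_mul, add_comm, mul_comm (F.h L (X.ρ h r))]
    rw [e1, e2, map_add, map_mul, map_mul, AlgHom.commutes, AlgHom.commutes, map_sum, ← F.comm h r]
    refine congrArg₂ (· + ·) rfl (congrArg₂ (· * ·) rfl ?_)
    refine Finset.sum_congr rfl fun l _ => ?_
    rw [map_mul, AlgHom.commutes, ← F.comm h, (V l).comm K J L hK hJ h]

/-- The connection on the base change. -/
theorem Hm.exists_bcGm (F : Hm (algebraMap A B) X Y) (hF : F.IsBC) {m : ℕ}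
    (D : Fin m → Derivation ℤ A A) (V : ∀ l, Lft X (D l)) (α : Fin m → B)
    (D' : Derivation ℤ B B)
    (hD' : ∀ a, D' (algebraMap A B a) = ∑ l, α l * algebraMap A B (D l a)) :
    ∃ V' : Lft Y D', ∀ c : X.Ch, c ∅ = 0 →
      V'.Gm (F.push c) = ∑ l, α l • F.push ((V l).Gm c) := by
  obtain ⟨V', hV'⟩ := F.exists_bcLft hF D V α D' hD'
  exact ⟨V', fun c hc => Hm.push_Gm_comb V α V' hV' hc⟩

end CovD

end MPadcGP
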