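import Pool.Agent.Lib.MP_adc574_ag_GP.Ad
import Pool.Agent.Lib.MP_adc574_ag_GP.BCe

/-!
# GP: existence of lifts of derivations

* `exists_lift_der`: a derivation of `A` extends to every formally smooth `A`-algebra.
* `der_unique`: uniqueness over formally unramified algebras.
* `prH_isBC`: the charts commute with base change.
* `exists_lft`, `exists_lft_map`.
-/

set_option autoImplicit false

namespace MPadcGP

open TensorProduct

universe u v w x

section ring

/-- The lifting property in terms of ring homomorphisms. -/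
theorem exists_lift_ring {A R T : Type*} [CommRing A] [CommRing R] [CommRing T] [Algebra A R]
    [Algebra.FormallySmooth A R] (ι : A →+* T) (π : T →+* R) (hπ : Function.Surjective π)
    (hk : IsNilpotent (RingHom.ker π)) (h : ∀ a, π (ι a) = algebraMap A R a) :
    ∃ g : R →+* T, (∀ a, g (algebraMap A R a) = ι a) ∧ ∀ r, π (g r) = r := by
  let _ : Algebra A T := ι.toAlgebra
  let π' : T →ₐ[A] R := { π with commutes' := h }
  have hk' : IsNilpotent (RingHom.ker π') := hk
  let g : R →ₐ[A] T := Algebra.FormallySmooth.liftOfSurjective (AlgHom.id A R) π' hπ hk'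
  exact ⟨g.toRingHom, fun a => g.commutes a, fun r =>
    Algebra.FormallySmooth.liftOfSurjective_apply (AlgHom.id A R) π' hπ hk' r⟩

theorem fst_mul' {R : Type*} [CommRing R] (x y : TrivSqZeroExt R R) : (x * y).fst = x.fst * y.fst :=
  TrivSqZeroExt.fst_mul x y

theorem snd_mul' {R : Type*} [CommRing R] (x y : TrivSqZeroExt R R) :
    (x * y).snd = x.fst * y.snd + y.fst * x.snd := by
  rw [TrivSqZeroExt.snd_mul, smul_eq_mul, op_smul_eq_mul, mul_comm y.fst]

/-- The homomorphism to the dual numbers defined by a derivation. -/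
noncomputable def dnh {A : Type u} {R : Type v} [CommRing A] [CommRing R] [Algebra A R]
    (D : Derivation ℤ A A) : A →+* TrivSqZeroExt R R where
  toFun a := (algebraMap A R a, algebraMap A R (D a))
  map_one' := by
    refine TrivSqZeroExt.ext (map_one _) ?_
    change algebraMap A R (D 1) = 0
    rw [D.map_one_eq_zero, map_zero]
  map_mul' a b := by
    refine TrivSqZeroExt.ext ?_ ?_
    · rw [fst_mul']
      exact map_mul _ _ _
    · rw [snd_mul']
      change algebraMap A R (D (a * b)) =
        algebraMap A R a * algebraMap A R (D b) + algebraMap A R b * algebraMap A R (D a)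
      rw [Derivation.leibniz, map_add, smul_eq_mul, smul_eq_mul, map_mul, map_mul]
  map_zero' := by
    refine TrivSqZeroExt.ext (map_zero _) ?_
    change algebraMap A R (D 0) = 0
    rw [map_zero, map_zero]
  map_add' a b := by
    refine TrivSqZeroExt.ext (map_add _ _ _) ?_
    change algebraMap A R (D (a + b)) = algebraMap A R (D a) + algebraMap A R (D b)
    rw [map_add, map_add]

/-- A derivation of `A` extends to every formally smooth algebra. -/
theorem exists_lift_der {A : Type u} {R : Type v} [CommRing A] [CommRing R] [Algebra A R]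
    [Algebra.FormallySmooth A R] (D : Derivation ℤ A A) :
    ∃ V : Derivation ℤ R R, ∀ a, V (algebraMap A R a) = algebraMap A R (D a) := by
  let π : TrivSqZeroExt R R →+* R := (TrivSqZeroExt.fstHom ℤ R R).toRingHom
  have hk : IsNilpotent (RingHom.ker π) := by
    refine ⟨2, ?_⟩
    have h1 : RingHom.ker π ^ 2 = RingHom.ker π * RingHom.ker π := pow_two _
    rw [h1, Ideal.zero_eq_bot, eq_bot_iff, Ideal.mul_le]
    intro s hs t ht
    have hs' : s.fst = 0 := hs
    have ht' : t.fst = 0 := ht
    rw [Ideal.mem_bot]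
    refine TrivSqZeroExt.ext ?_ ?_
    · rw [fst_mul', hs', zero_mul, TrivSqZeroExt.fst_zero]
    · rw [snd_mul', hs', ht', zero_mul, zero_mul, add_zero, TrivSqZeroExt.snd_zero]
  obtain ⟨g, hg1, hg2⟩ := exists_lift_ring (A := A) (R := R) (dnh (R := R) D) π
    (fun r => ⟨TrivSqZeroExt.inl r, rfl⟩) hk (fun a => rfl)
  have hg3 : ∀ r, (g r).fst = r := fun r => hg2 r
  let V0 : R →+ R :=
    { toFun := fun r => (g r).snd
      map_zero' := by rw [map_zero, TrivSqZeroExt.snd_zero]
      map_add' := fun r s => by rw [map_add, TrivSqZeroExt.snd_add] }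
  refine ⟨Derivation.mk' V0.toIntLinearMap fun r s => ?_, fun a => ?_⟩
  · change (g (r * s)).snd = r * (g s).snd + s * (g r).snd
    rw [map_mul, snd_mul', hg3, hg3]
  · change (g (algebraMap A R a)).snd = _
    rw [hg1]
    rfl

/-- Uniqueness of the extension of derivations to formally unramified algebras. -/
theorem der_unique {R S T : Type*} [CommRing R] [CommRing S] [CommRing T] [Algebra R S]
    [Algebra.FormallyUnramified R S] (f : S →+* T) (W : S →+ T)
    (hW : ∀ x y, W (x * y) = f x * W y + f y * W x) (h0 : ∀ r, W (algebraMap R S r) = 0) (x : S) :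
    W x = 0 := by
  let _ : Algebra S T := f.toAlgebra
  let _ : Algebra R T := (f.comp (algebraMap R S)).toAlgebra
  have hT : IsScalarTower R S T := IsScalarTower.of_algebraMap_eq fun _ => rfl
  have hs : ∀ (s : S) (t : T), s • t = f s * t := fun s t => rfl
  let W1 : S →ₗ[R] T :=
    { toFun := W
      map_add' := map_add W
      map_smul' := fun r s => by
        rw [Algebra.smul_def, hW, h0, mul_zero, add_zero]
        rfl }
  let W2 : Derivation R S T := Derivation.mk' W1 fun x y => hW x y
  have h1 : W2.liftKaehlerDifferential = 0 := LinearMap.ext fun y => by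
    rw [Subsingleton.elim y 0, map_zero, map_zero]
  have h2 : W2 x = 0 := by
    rw [← W2.liftKaehlerDifferential_comp_D x, h1, LinearMap.zero_apply]
  exact h2

end ring

namespace CovD

variable {A : Type u} [CommRing A] {n : ℕ}

/-- Lifts exist if the rings are formally smooth and the restrictions formally étale. -/
theorem exists_lft (X : CovD.{u, v} A n)
    (h1 : ∀ K : Finset (Fin n), K.Nonempty → Algebra.FormallySmooth A (X.R K))
    (h2 : ∀ (K J : Finset (Fin n)), K.Nonempty → ∀ h : K ⊆ J,
      @Algebra.FormallyEtale (X.R K) (X.R J) _ _ (X.ρ h).toRingHom.toAlgebra)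
    (D : Derivation ℤ A A) : Nonempty (Lft X D) := by
  classical
  have h3 : ∀ K : Finset (Fin n), ∃ V : Derivation ℤ (X.R K) (X.R K), K.Nonempty →
      ∀ a, V (algebraMap A _ a) = algebraMap A _ (D a) := by
    intro K
    by_cases hK : K.Nonempty
    · have := h1 K hK
      obtain ⟨V, hV⟩ := exists_lift_der (R := X.R K) D
      exact ⟨V, fun _ => hV⟩
    · exact ⟨0, fun h => absurd h hK⟩
  choose V0 hV0 using h3
  have h4 : ∀ K J : Finset (Fin n), ∃ V : Derivation ℤ (X.R J) (X.R J), K.Nonempty →
      ∀ h : K ⊆ J, ∀ x, V (X.ρ h x) = X.ρ h (V0 K x) := by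
    intro K J
    by_cases hK : K.Nonempty ∧ K ⊆ J
    · let _ : Algebra (X.R K) (X.R J) := (X.ρ hK.2).toRingHom.toAlgebra
      have h5 : Algebra.FormallyEtale (X.R K) (X.R J) := h2 K J hK.1 hK.2
      obtain ⟨V, hV⟩ := exists_lift_der (R := X.R J) (V0 K)
      exact ⟨V, fun _ _ => hV⟩
    · exact ⟨0, fun h h' => absurd ⟨h, h'⟩ hK⟩
  choose V hV using h4
  refine ⟨⟨V, fun K J hK hJ a => ?_, fun K J L hK hJ h x => ?_⟩⟩
  · rw [← (X.ρ hJ).commutes a, hV K J hK hJ, hV0 K hK, (X.ρ hJ).commutes]
  · let _ : Algebra (X.R K) (X.R J) := (X.ρ hJ).toRingHom.toAlgebra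
    have h5 : Algebra.FormallyEtale (X.R K) (X.R J) := h2 K J hK hJ
    have h6 := der_unique (R := X.R K) (S := X.R J) (T := X.R L) (X.ρ h).toRingHom
      (((X.ρ h : X.R J →+* X.R L) : X.R J →+ X.R L).comp
          ((V K J : X.R J →ₗ[ℤ] X.R J) : X.R J →+ X.R J) -
        ((V K L : X.R L →ₗ[ℤ] X.R L) : X.R L →+ X.R L).comp
          ((X.ρ h : X.R J →+* X.R L) : X.R J →+ X.R L))
      (fun x y => by
        change X.ρ h (V K J (x * y)) - V K L (X.ρ h (x * y)) =
          X.ρ h x * (X.ρ h (V K J y) - V K L (X.ρ h y)) +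
            X.ρ h y * (X.ρ h (V K J x) - V K L (X.ρ h x))
        rw [Derivation.leibniz, map_mul, Derivation.leibniz, map_add, smul_eq_mul, smul_eq_mul,
          smul_eq_mul, smul_eq_mul, map_mul, map_mul]
        ring)
      (fun r => by
        change X.ρ h (V K J (X.ρ hJ r)) - V K L (X.ρ h (X.ρ hJ r)) = 0
        rw [hV K J hK hJ, X.ρ_comp, X.ρ_comp, hV K L hK, sub_self]) x
    exact sub_eq_zero.1 h6

end CovD

section pr

variable {A : Type u} [CommRing A] {n : ℕ} {I : Ideal (MvPolynomial (Fin n) A)}

/-- The restriction maps between the charts are formally étale. -/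
theorem tr_formallyEtale (hI : IsHomog I) {K J : Finset (Fin n)} (hK : K.Nonempty) (h : K ⊆ J) :
    @Algebra.FormallyEtale (chart I K) (chart I J) _ _ (tr I h).toRingHom.toAlgebra := by
  obtain ⟨i, hi⟩ := hK
  let _ := (tr I h).toRingHom.toAlgebra
  have h1 : IsLocalization.Away (∏ l ∈ J, cq I K l hi) (chart I J) := tr_isLocalization hI h hi
  exact Algebra.FormallyEtale.of_isLocalization (Submonoid.powers (∏ l ∈ J, cq I K l hi))

/-- Lifts exist on smooth projective schemes. -/
theorem exists_lft (hI : IsHomog I) (hs : IsSmoothProj I) (D : Derivation ℤ A A) :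
    Nonempty (Lft (prC I) D) :=
  CovD.exists_lft (prC I) (fun _K hK => (hs.smooth hI hK).formallySmooth)
    (fun _K _J hK h => tr_formallyEtale hI hK h) D

theorem bcr_eq {B : Type w} {R : Type v} {S : Type x} [CommRing B] [CommRing R] [CommRing S]
    [Algebra A B] [Algebra A R] [Algebra B S] {h : R →+* S} (hb : HB A B h)
    (F : TensorProduct A B R →ₗ[B] S) (hF : ∀ b r, F (b ⊗ₜ[A] r) = b • h r) : bcr hb = F := by
  refine LinearMap.ext fun t => ?_
  induction t using TensorProduct.induction_on with
  | zero => rw [map_zero, map_zero]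
  | tmul b x => rw [bcr_tmul, hF]
  | add s t hs ht => rw [map_add, map_add, hs, ht]

theorem cb_bcr_bijective {B : Type v} [CommRing B] [Algebra A B] (hI : IsHomog I) {J : Finset (Fin n)}
    (hJ : J.Nonempty) (hb : HB A B (cb (algebraMap A B) I J)) : Function.Bijective (bcr hb) := by
  have h1 := bcm_bijective (B := B) (J := J) hI hJ
  rw [bcr_eq hb (bcm (B := B) I J).toLinearMap fun b r => by
    rw [AlgHom.toLinearMap_apply, bcm_tmul, Algebra.smul_def]
    rfl]
  exact h1

/-- The specialization morphism is a base change. -/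
theorem prH_isBC {B : Type v} [CommRing B] [Algebra A B] (hI : IsHomog I) :
    (prH (algebraMap A B) I).IsBC := fun _J hJ => cb_bcr_bijective hI hJ _

/-- Lifts after base change. -/
theorem exists_lft_map {B : Type v} [CommRing B] (hI : IsHomog I) (φ : A →+* B) {N : ℕ}
    (D : Fin N → Derivation ℤ A A) (V : ∀ l, Lft (prC I) (D l)) (α : Fin N → B)
    (D' : Derivation ℤ B B) (hD' : ∀ a, D' (φ a) = ∑ l, α l * φ (D l a)) :
    ∃ V' : Lft (prC (bI φ I)) D', ∀ K J : Finset (Fin n), K.Nonempty → K ⊆ J → ∀ x : (prC I).R J,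
      V'.V K J ((prH φ I).h J x) =
        ∑ l, algebraMap B ((prC (bI φ I)).R J) (α l) * (prH φ I).h J ((V l).V K J x) := by
  let _ : Algebra A B := φ.toAlgebra
  exact CovD.Hm.exists_bcLft (prH (algebraMap A B) I) (prH_isBC (B := B) hI) D V α D' hD'

end pr

end MPadcGP
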