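import Pool.Agent.Lib.MP_adc574_ag_GP.Cov
import Pool.Agent.Lib.MP_adc574_ag_GP.Rep

/-!
# Base change of the de Rham algebra and of cover data (helper90)

`bcl φ`: the `B`-linear extension `B ⊗ M → N` of a semilinear map `φ`.
`bc_fm`: if `B ⊗ R → S` is bijective, so is `B ⊗ Fm A R → Fm B S`; `bc_fd`: the same in degree `q`.
-/

set_option autoImplicit false

namespace MPadcGP

open TensorProduct

universe u v w x y z

section bcl

variable {A : Type*} {B : Type*} [CommRing A] [CommRing B] [Algebra A B] {M N : Type*}
  [AddCommGroup M] [Module A M] [AddCommGroup N] [Module B N]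

/-- The linear extension of a semilinear map. -/
noncomputable def bcl (φ : M →+ N) (hφ : ∀ (a : A) (m : M), φ (a • m) = algebraMap A B a • φ m) :
    B ⊗[A] M →ₗ[B] N :=
  letI : Module A N := Module.compHom N (algebraMap A B)
  haveI : IsScalarTower A B N := ⟨fun a b n => by
    rw [Algebra.smul_def, mul_smul]
    rfl⟩
  LinearMap.liftBaseChange B
    ({ φ with map_smul' := fun a m => (hφ a m).trans rfl } : M →ₗ[A] N)

theorem bcl_tmul (φ : M →+ N) (hφ : ∀ (a : A) (m : M), φ (a • m) = algebraMap A B a • φ m)
    (b : B) (m : M) : bcl φ hφ (b ⊗ₜ[A] m) = b • φ m := by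
  let _ : Module A N := Module.compHom N (algebraMap A B)
  have _ : IsScalarTower A B N := ⟨fun a b n => by
    rw [Algebra.smul_def, mul_smul]
    rfl⟩
  exact LinearMap.liftBaseChange_tmul (A := B)
    ({ φ with map_smul' := fun a m => (hφ a m).trans rfl } : M →ₗ[A] N) b m

/-- A linear map with the values of `bcl`. -/
theorem bcl_unique {φ : M →+ N} {hφ : ∀ (a : A) (m : M), φ (a • m) = algebraMap A B a • φ m}
    (g : B ⊗[A] M →+ N) (hg : ∀ (b : B) (m : M), g (b ⊗ₜ[A] m) = b • φ m) (x : B ⊗[A] M) :
    g x = bcl φ hφ x := by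
  induction x using TensorProduct.induction_on with
  | zero => rw [map_zero, map_zero]
  | tmul b m => rw [hg, bcl_tmul]
  | add x y hx hy => rw [map_add, map_add, hx, hy]

/-- Products. -/
theorem bcl_pi {κ : Type*} [Fintype κ] {M' N' : κ → Type*} [∀ j, AddCommGroup (M' j)]
    [∀ j, Module A (M' j)] [∀ j, AddCommGroup (N' j)] [∀ j, Module B (N' j)]
    (φ : ∀ j, M' j →+ N' j)
    (hφ : ∀ j (a : A) (m : M' j), φ j (a • m) = algebraMap A B a • φ j m)
    (hb : ∀ j, Function.Bijective (bcl (φ j) (hφ j)))
    (Φ : (∀ j, M' j) →+ ∀ j, N' j) (hΦ : ∀ c j, Φ c j = φ j (c j))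
    (hΦs : ∀ (a : A) (c : ∀ j, M' j), Φ (a • c) = algebraMap A B a • Φ c) :
    Function.Bijective (bcl Φ hΦs) := by
  classical
  have h1 : ∀ (x : B ⊗[A] (∀ j, M' j)) (j : κ), bcl Φ hΦs x j =
      bcl (φ j) (hφ j) (TensorProduct.piRight A B B M' x j) := by
    intro x j
    induction x using TensorProduct.induction_on with
    | zero => simp
    | tmul b c =>
      rw [bcl_tmul]
      change b • Φ c j = _
      rw [hΦ]
      have h2 : TensorProduct.piRight A B B M' (b ⊗ₜ[A] c) j = b ⊗ₜ[A] c j := by
        simp
      rw [h2, bcl_tmul]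
    | add x y hx hy => simp only [map_add, Pi.add_apply, hx, hy]
  constructor
  · rw [injective_iff_map_eq_zero]
    intro x hx
    apply (TensorProduct.piRight A B B M').injective
    rw [map_zero]
    funext j
    apply (hb j).1
    rw [← h1, hx]
    simp
  · intro y
    choose z hz using fun j => (hb j).2 (y j)
    refine ⟨(TensorProduct.piRight A B B M').symm z, ?_⟩
    funext j
    rw [h1, LinearEquiv.apply_symm_apply, hz]

end bcl

section fm

variable {A : Type u} {B : Type w} [CommRing A] [CommRing B] [Algebra A B] {R : Type v}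
  {S : Type x} [CommRing R] [CommRing S] [Algebra A R] [Algebra B S] (h : R →+* S)

/-- The base change condition for ring homomorphisms. -/
def HB (A : Type u) (B : Type w) [CommRing A] [CommRing B] [Algebra A B] [Algebra A R]
    [Algebra B S] (h : R →+* S) : Prop :=
  ∀ a : A, h (algebraMap A R a) = algebraMap B S (algebraMap A B a)

variable {h}

theorem HB.cc (hb : HB A B h) : CC A B h := fun a => ⟨_, hb a⟩

theorem HB.smul (hb : HB A B h) (a : A) (r : R) : h (a • r) = algebraMap A B a • h r := by
  rw [Algebra.smul_def, map_mul, hb, Algebra.smul_def]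

theorem HB.mp_smul (hb : HB A B h) (a : A) (e : Fm A R) :
    mp h hb.cc (a • e) = algebraMap A B a • mp h hb.cc e := by
  rw [smul_fm, map_mul, mp_fz, hb, smul_fm]

/-- The base change map of the rings. -/
noncomputable def bcr (hb : HB A B h) : B ⊗[A] R →ₗ[B] S := bcl (h : R →+ S) hb.smul

/-- The base change map of the forms. -/
noncomputable def bcf (hb : HB A B h) : B ⊗[A] Fm A R →ₗ[B] Fm B S :=
  bcl (mp h hb.cc : Fm A R →+ Fm B S) hb.mp_smul

theorem bcr_tmul (hb : HB A B h) (b : B) (r : R) : bcr hb (b ⊗ₜ[A] r) = b • h r :=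
  bcl_tmul _ _ _ _

theorem bcf_tmul (hb : HB A B h) (b : B) (e : Fm A R) :
    bcf hb (b ⊗ₜ[A] e) = b • mp h hb.cc e := bcl_tmul _ _ _ _

theorem bcr_mul (hb : HB A B h) (x y : B ⊗[A] R) : bcr hb (x * y) = bcr hb x * bcr hb y := by
  induction x using TensorProduct.induction_on with
  | zero => rw [zero_mul, map_zero, zero_mul]
  | add x x' hx hx' => rw [add_mul, map_add, map_add, hx, hx', add_mul]
  | tmul b r =>
    induction y using TensorProduct.induction_on with
    | zero => rw [mul_zero, map_zero, mul_zero]
    | add x x' hx hx' => rw [mul_add, map_add, map_add, hx, hx', mul_add]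
    | tmul b' r' =>
      rw [Algebra.TensorProduct.tmul_mul_tmul, bcr_tmul, bcr_tmul, bcr_tmul, map_mul,
        smul_mul_smul_comm]

theorem bcf_mul (hb : HB A B h) (x y : B ⊗[A] Fm A R) : bcf hb (x * y) = bcf hb x * bcf hb y := by
  induction x using TensorProduct.induction_on with
  | zero => rw [zero_mul, map_zero, zero_mul]
  | add x x' hx hx' => rw [add_mul, map_add, map_add, hx, hx', add_mul]
  | tmul b r =>
    induction y using TensorProduct.induction_on with
    | zero => rw [mul_zero, map_zero, mul_zero]
    | add x x' hx hx' => rw [mul_add, map_add, map_add, hx, hx', mul_add]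
    | tmul b' r' =>
      rw [Algebra.TensorProduct.tmul_mul_tmul, bcf_tmul, bcf_tmul, bcf_tmul, map_mul,
        smul_mul_smul_comm]

variable (A R) in
/-- Functions as a linear map. -/
noncomputable def fzl : R →ₗ[A] Fm A R where
  toFun := fz A
  map_add' := map_add _
  map_smul' a r := by
    rw [Algebra.smul_def, map_mul, RingHom.id_apply, smul_fm]

variable (A R) in
/-- Differentials as a linear map. -/
noncomputable def dfl : R →ₗ[A] Fm A R where
  toFun := df A
  map_add' := df_add
  map_smul' a r := by
    rw [Algebra.smul_def, df_mul, df_base, mul_zero, add_zero, RingHom.id_apply, smul_fm]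

/-- `b ⊗ r ↦ b ⊗ fz r`. -/
noncomputable def tz : B ⊗[A] R →ₗ[B] B ⊗[A] Fm A R := (fzl A R).baseChange B

/-- `b ⊗ r ↦ b ⊗ df r`. -/
noncomputable def td : B ⊗[A] R →ₗ[B] B ⊗[A] Fm A R := (dfl A R).baseChange B

theorem tz_tmul (b : B) (r : R) : tz (b ⊗ₜ[A] r) = b ⊗ₜ[A] fz A r := rfl

theorem td_tmul (b : B) (r : R) : td (b ⊗ₜ[A] r) = b ⊗ₜ[A] df A r := rfl

theorem tz_mul (x y : B ⊗[A] R) : tz (x * y) = tz x * tz y := by
  induction x using TensorProduct.induction_on with
  | zero => rw [zero_mul, map_zero, zero_mul]
  | add x x' hx hx' => rw [add_mul, map_add, map_add, hx, hx', add_mul]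
  | tmul b r =>
    induction y using TensorProduct.induction_on with
    | zero => rw [mul_zero, map_zero, mul_zero]
    | add x x' hx hx' => rw [mul_add, map_add, map_add, hx, hx', mul_add]
    | tmul b' r' =>
      rw [Algebra.TensorProduct.tmul_mul_tmul, tz_tmul, tz_tmul, tz_tmul, map_mul,
        Algebra.TensorProduct.tmul_mul_tmul]

theorem tz_comm (x : B ⊗[A] R) (e : B ⊗[A] Fm A R) : tz x * e = e * tz x := by
  induction x using TensorProduct.induction_on with
  | zero => rw [map_zero, zero_mul, mul_zero]
  | add x x' hx hx' => rw [map_add, add_mul, mul_add, hx, hx']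
  | tmul b r =>
    induction e using TensorProduct.induction_on with
    | zero => rw [zero_mul, mul_zero]
    | add x x' hx hx' => rw [mul_add, add_mul, hx, hx']
    | tmul b' r' =>
      rw [tz_tmul, Algebra.TensorProduct.tmul_mul_tmul, Algebra.TensorProduct.tmul_mul_tmul,
        fz_comm, mul_comm b]

theorem td_mul (x y : B ⊗[A] R) : td (x * y) = tz x * td y + tz y * td x := by
  induction x using TensorProduct.induction_on with
  | zero => rw [zero_mul, map_zero, map_zero, zero_mul, mul_zero, add_zero]
  | add x x' hx hx' =>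
    rw [add_mul, map_add, hx, hx', map_add, map_add, add_mul, mul_add]
    abel
  | tmul b r =>
    induction y using TensorProduct.induction_on with
    | zero => rw [mul_zero, map_zero, map_zero, mul_zero, zero_mul, add_zero]
    | add x x' hx hx' =>
      rw [mul_add, map_add, hx, hx', map_add, map_add, add_mul, mul_add]
      abel
    | tmul b' r' =>
      rw [Algebra.TensorProduct.tmul_mul_tmul, td_tmul, td_tmul, td_tmul, tz_tmul, tz_tmul,
        df_mul, Algebra.TensorProduct.tmul_mul_tmul, Algebra.TensorProduct.tmul_mul_tmul,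
        mul_comm b' b, TensorProduct.tmul_add]

theorem td_swap (x y : B ⊗[A] R) : td x * td y + td y * td x = 0 := by
  induction x using TensorProduct.induction_on with
  | zero => rw [map_zero, zero_mul, mul_zero, add_zero]
  | add x x' hx hx' =>
    have e : td (x + x') * td y + td y * td (x + x') = (td x * td y + td y * td x) +
        (td x' * td y + td y * td x') := by
      rw [map_add, add_mul, mul_add]
      abel
    rw [e, hx, hx', add_zero]
  | tmul b r =>
    induction y using TensorProduct.induction_on with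
    | zero => rw [map_zero, zero_mul, mul_zero, add_zero]
    | add x x' hx hx' =>
      have e : td (b ⊗ₜ[A] r) * td (x + x') + td (x + x') * td (b ⊗ₜ[A] r) =
          (td (b ⊗ₜ[A] r) * td x + td x * td (b ⊗ₜ[A] r)) +
          (td (b ⊗ₜ[A] r) * td x' + td x' * td (b ⊗ₜ[A] r)) := by
        rw [map_add, add_mul, mul_add]
        abel
      rw [e, hx, hx', add_zero]
    | tmul b' r' =>
      rw [td_tmul, td_tmul, Algebra.TensorProduct.tmul_mul_tmul,
        Algebra.TensorProduct.tmul_mul_tmul, mul_comm b' b, ← TensorProduct.tmul_add, df_swap,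
        neg_add_cancel, TensorProduct.tmul_zero]

theorem td_sq (x : B ⊗[A] R) : td x * td x = 0 := by
  induction x using TensorProduct.induction_on with
  | zero => rw [map_zero, zero_mul]
  | add x y hx hy =>
    have e : td (x + y) * td (x + y) = td x * td x + td y * td y + (td x * td y + td y * td x) := by
      rw [map_add, add_mul, mul_add, mul_add]
      abel
    rw [e, hx, hy, td_swap, add_zero, add_zero]
  | tmul b r =>
    rw [td_tmul, Algebra.TensorProduct.tmul_mul_tmul, df_sq, TensorProduct.tmul_zero]

/-- Base change of the algebra of forms. -/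
theorem bcf_bijective (hb : HB A B h) (hbij : Function.Bijective (bcr hb)) :
    Function.Bijective (bcf hb) := by
  let E : (B ⊗[A] R) ≃ₗ[B] S := LinearEquiv.ofBijective (bcr hb) hbij
  have hE : ∀ x, E x = bcr hb x := fun x => rfl
  have hE1 : ∀ x y, E.symm (x * y) = E.symm x * E.symm y := by
    intro x y
    apply E.injective
    rw [LinearEquiv.apply_symm_apply, hE, bcr_mul, ← hE, ← hE, LinearEquiv.apply_symm_apply,
      LinearEquiv.apply_symm_apply]
  have hE2 : ∀ r, E.symm (h r) = (1 : B) ⊗ₜ[A] r := by
    intro r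
    apply E.injective
    rw [LinearEquiv.apply_symm_apply, hE, bcr_tmul, one_smul]
  have hE3 : ∀ b : B, E.symm (algebraMap B S b) = b ⊗ₜ[A] (1 : R) := by
    intro b
    apply E.injective
    rw [LinearEquiv.apply_symm_apply, hE, bcr_tmul, map_one, Algebra.smul_def, mul_one]
  let φ : S →+* B ⊗[A] Fm A R :=
    { toFun := fun s => tz (E.symm s)
      map_one' := by
        rw [← map_one h, hE2, tz_tmul, map_one]
        rfl
      map_mul' := fun s t => by rw [hE1, tz_mul]
      map_zero' := by rw [map_zero, map_zero]
      map_add' := fun s t => by rw [map_add, map_add] }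
  obtain ⟨F, hF1, hF2⟩ := exists_hom (A := B) φ (fun s e => tz_comm _ _)
    { toFun := fun s => td (E.symm s)
      map_zero' := by rw [map_zero, map_zero]
      map_add' := fun s t => by rw [map_add, map_add] }
    (by
      intro s t
      change td (E.symm (s * t)) = tz (E.symm s) * td (E.symm t) + tz (E.symm t) * td (E.symm s)
      rw [hE1, td_mul])
    (by
      intro b
      change td (E.symm (algebraMap B S b)) = 0
      rw [hE3, td_tmul, df_one, TensorProduct.tmul_zero])
    (fun s t => td_swap _ _) (fun s => td_sq _)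
  have hF1' : ∀ s, F (fz B s) = tz (E.symm s) := hF1
  have hF2' : ∀ s, F (df B s) = td (E.symm s) := hF2
  -- the ring homomorphism `bcf`
  let G : B ⊗[A] Fm A R →+* Fm B S :=
    { toFun := bcf hb
      map_one' := by
        change bcf hb ((1 : B) ⊗ₜ[A] (1 : Fm A R)) = 1
        rw [bcf_tmul, one_smul, map_one]
      map_mul' := bcf_mul hb
      map_zero' := map_zero _
      map_add' := map_add _ }
  have hG : ∀ x, G x = bcf hb x := fun x => rfl
  have hGz : ∀ x : B ⊗[A] R, bcf hb (tz x) = fz B (E x) := by
    intro x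
    induction x using TensorProduct.induction_on with
    | zero => rw [map_zero, map_zero, map_zero, map_zero]
    | add x y hx hy => rw [map_add, map_add, hx, hy, map_add, map_add]
    | tmul b r =>
      rw [tz_tmul, bcf_tmul, mp_fz, hE, bcr_tmul, smul_fm, Algebra.smul_def, map_mul]
  have hGd : ∀ x : B ⊗[A] R, bcf hb (td x) = df B (E x) := by
    intro x
    induction x using TensorProduct.induction_on with
    | zero => rw [map_zero, map_zero, map_zero, df_zero]
    | add x y hx hy => rw [map_add, map_add, hx, hy, map_add, df_add]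
    | tmul b r =>
      rw [td_tmul, bcf_tmul, mp_df, hE, bcr_tmul, smul_fm, Algebra.smul_def, df_mul, df_base,
        mul_zero, add_zero]
  have hGF : G.comp F = RingHom.id _ := hom_ext'
    (fun s => by
      rw [RingHom.comp_apply G F, hF1', hG, hGz, LinearEquiv.apply_symm_apply]
      rfl)
    (fun s => by
      rw [RingHom.comp_apply G F, hF2', hG, hGd, LinearEquiv.apply_symm_apply]
      rfl)
  -- F is B-linear and inverse to G on pure tensors
  have hFb : ∀ b : B, F (fz B (algebraMap B S b)) = b ⊗ₜ[A] (1 : Fm A R) := by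
    intro b
    rw [hF1', hE3, tz_tmul, map_one]
  let i2 : Fm A R →+* B ⊗[A] Fm A R :=
    { toFun := fun e => (1 : B) ⊗ₜ[A] e
      map_one' := rfl
      map_mul' := fun e f => by rw [Algebra.TensorProduct.tmul_mul_tmul, one_mul]
      map_zero' := TensorProduct.tmul_zero _ _
      map_add' := fun e f => TensorProduct.tmul_add _ _ _ }
  have hFm : F.comp (mp h hb.cc) = i2 := hom_ext'
    (fun r => by
      rw [RingHom.comp_apply F (mp h hb.cc), mp_fz, hF1', hE2, tz_tmul]
      rfl)
    (fun r => by
      rw [RingHom.comp_apply F (mp h hb.cc), mp_df, hF2', hE2, td_tmul]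
      rfl)
  have hFG : ∀ x, F (bcf hb x) = x := by
    intro x
    induction x using TensorProduct.induction_on with
    | zero => rw [map_zero, map_zero]
    | add x y hx hy => rw [map_add, map_add, hx, hy]
    | tmul b e =>
      have h1 : F (mp h hb.cc e) = (1 : B) ⊗ₜ[A] e := congrArg (fun g : Fm A R →+* _ => g e) hFm
      rw [bcf_tmul, smul_fm, map_mul, hFb, h1, Algebra.TensorProduct.tmul_mul_tmul, mul_one,
        one_mul]
  refine ⟨fun x y hxy => ?_, fun y => ⟨F y, ?_⟩⟩
  · rw [← hFG x, hxy, hFG]
  · have h1 : G (F y) = y := congrArg (fun g : Fm B S →+* Fm B S => g y) hGF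
    exact h1

end fm

end MPadcGP
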