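import Pool.Agent.Lib.MP_adc574_ag_GP.Hom

/-!
# The cup product on the Čech–de Rham complex (helper90)

`(a ∪ b) J = ∑_{s ∈ J} a (J ≤ s) * inv ^ #(J < s) b (J ≥ s)`.
-/

set_option autoImplicit false

namespace MPadcGP

universe u v w x y z

section it

variable (A : Type u) {R : Type v} [CommRing A] [CommRing R] [Algebra A R]

/-- The powers of the grade involution. -/
noncomputable def it (p : ℕ) : Fm A R →+* Fm A R := if Even p then RingHom.id _ else inv A

theorem it_even {p : ℕ} (h : Even p) (e : Fm A R) : it A p e = e := by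
  unfold it
  rw [if_pos h, RingHom.id_apply]

theorem it_odd {p : ℕ} (h : ¬ Even p) (e : Fm A R) : it A p e = inv A e := by
  unfold it
  rw [if_neg h]

theorem it_zero (e : Fm A R) : it A 0 e = e := it_even A (by decide) e

theorem it_succ (p : ℕ) (e : Fm A R) : it A (p + 1) e = inv A (it A p e) := by
  by_cases h : Even p
  · rw [it_even A h, it_odd A (Nat.even_add_one.not.2 (not_not.2 h))]
  · rw [it_odd A h, it_even A (Nat.even_add_one.2 h), inv_inv]

theorem it_inv (p : ℕ) (e : Fm A R) : it A p (inv A e) = inv A (it A p e) := by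
  by_cases h : Even p
  · rw [it_even A h, it_even A h]
  · rw [it_odd A h, it_odd A h]

theorem dd_it (p : ℕ) (e : Fm A R) : dd A (it A p e) = ((-1 : ℤ) ^ p) • it A p (dd A e) := by
  by_cases h : Even p
  · rw [it_even A h, it_even A h, h.neg_one_pow, one_smul]
  · rw [it_odd A h, it_odd A h, (Nat.not_even_iff_odd.1 h).neg_one_pow, neg_one_smul, inv_dd,
      neg_neg]

theorem it_mem {p q : ℕ} {e : Fm A R} (he : e ∈ Fd A R q) : it A p e ∈ Fd A R q := by
  by_cases h : Even p
  · rw [it_even A h]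
    exact he
  · rw [it_odd A h]
    exact inv_mem' he

theorem mp_it {B : Type w} {S : Type x} [CommRing B] [CommRing S] [Algebra B S] {φ : R →+* S}
    (h : CC A B φ) (p : ℕ) (e : Fm A R) : mp φ h (it A p e) = it B p (mp φ h e) := by
  by_cases hp : Even p
  · rw [it_even A hp, it_even B hp]
  · rw [it_odd A hp, it_odd B hp, mp_inv]

theorem inv_zsmul {q : ℕ} {e : Fm A R} (he : e ∈ Fd A R q) : inv A e = ((-1 : ℤ) ^ q) • e := by
  rw [inv_mem he, zsmul_eq_mul]
  push_cast
  rfl

end it

/-- Telescoping over the cuts of a finite set. -/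
theorem sum_cuts {ι M : Type*} [LinearOrder ι] [AddCommGroup M] (f : Finset ι → M) (J : Finset ι) :
    ∑ s ∈ J, f (J.filter (· ≤ s)) - ∑ s ∈ J, f (J.filter (· < s)) = f J - f ∅ := by
  induction J using Finset.induction_on_max with
  | empty => rw [Finset.sum_empty, Finset.sum_empty, sub_self, sub_self]
  | insert x K hx ih =>
    have hxK : x ∉ K := fun h => lt_irrefl x (hx x h)
    have h1 : ∀ s ∈ K, (insert x K).filter (· ≤ s) = K.filter (· ≤ s) := by
      intro s hs
      rw [Finset.filter_insert, if_neg (not_le.2 (hx s hs))]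
    have h2 : ∀ s ∈ K, (insert x K).filter (· < s) = K.filter (· < s) := by
      intro s hs
      rw [Finset.filter_insert, if_neg (not_lt.2 (hx s hs).le)]
    have h3 : (insert x K).filter (· ≤ x) = insert x K := by
      rw [Finset.filter_eq_self]
      intro s hs
      rcases Finset.mem_insert.1 hs with rfl | h
      · exact le_rfl
      · exact (hx s h).le
    have h4 : (insert x K).filter (· < x) = K := by
      rw [Finset.filter_insert, if_neg (lt_irrefl x), Finset.filter_eq_self]
      exact hx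
    have e1 : ∑ s ∈ K, f ((insert x K).filter (· ≤ s)) = ∑ s ∈ K, f (K.filter (· ≤ s)) :=
      Finset.sum_congr rfl fun s hs => congrArg f (h1 s hs)
    have e2 : ∑ s ∈ K, f ((insert x K).filter (· < s)) = ∑ s ∈ K, f (K.filter (· < s)) :=
      Finset.sum_congr rfl fun s hs => congrArg f (h2 s hs)
    rw [Finset.sum_insert hxK, Finset.sum_insert hxK, h3, h4, e1, e2]
    have h5 : ∑ s ∈ K, f (K.filter (· ≤ s)) = (f K - f ∅) + ∑ s ∈ K, f (K.filter (· < s)) := by
      rw [← ih]
      abel
    rw [h5]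
    abel

section cuts

variable {n : ℕ} {J : Finset (Fin n)} {s j : Fin n}

theorem card_cuts (hs : s ∈ J) :
    (J.filter (· ≤ s)).card + (J.filter (s ≤ ·)).card = J.card + 1 := by
  have h1 : J.filter (· ≤ s) ∪ J.filter (s ≤ ·) = J := by
    ext k
    simp only [Finset.mem_union, Finset.mem_filter]
    constructor
    · rintro (h | h)
      · exact h.1
      · exact h.1
    · intro h
      rcases le_total k s with h2 | h2
      · exact Or.inl ⟨h, h2⟩
      · exact Or.inr ⟨h, h2⟩
  have h2 : J.filter (· ≤ s) ∩ J.filter (s ≤ ·) = {s} := by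
    ext k
    simp only [Finset.mem_inter, Finset.mem_filter, Finset.mem_singleton]
    constructor
    · rintro ⟨⟨_, h3⟩, ⟨_, h4⟩⟩
      exact le_antisymm h3 h4
    · rintro rfl
      exact ⟨⟨hs, le_rfl⟩, ⟨hs, le_rfl⟩⟩
  have h3 := Finset.card_union_add_card_inter (J.filter (· ≤ s)) (J.filter (s ≤ ·))
  rw [h1, h2, Finset.card_singleton] at h3
  exact h3.symm

theorem card_le (hs : s ∈ J) : (J.filter (· ≤ s)).card = (J.filter (· < s)).card + 1 := by
  have h1 : J.filter (· ≤ s) = insert s (J.filter (· < s)) := by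
    ext k
    simp only [Finset.mem_filter, Finset.mem_insert]
    constructor
    · rintro ⟨h1, h2⟩
      rcases h2.lt_or_eq with h3 | h3
      · exact Or.inr ⟨h1, h3⟩
      · exact Or.inl h3
    · rintro (rfl | ⟨h1, h2⟩)
      · exact ⟨hs, le_rfl⟩
      · exact ⟨h1, h2.le⟩
  rw [h1, Finset.card_insert_of_notMem (by simp)]

theorem erase_le_of_lt :
    (J.erase j).filter (· ≤ s) = (J.filter (· ≤ s)).erase j := by
  ext k
  simp only [Finset.mem_filter, Finset.mem_erase]
  tauto

theorem erase_ge_of_lt (h : j < s) : (J.erase j).filter (s ≤ ·) = J.filter (s ≤ ·) := by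
  ext k
  simp only [Finset.mem_filter, Finset.mem_erase]
  constructor
  · rintro ⟨⟨_, h1⟩, h2⟩
    exact ⟨h1, h2⟩
  · rintro ⟨h1, h2⟩
    exact ⟨⟨ne_of_gt (lt_of_lt_of_le h h2), h1⟩, h2⟩

theorem erase_le_of_gt (h : s < j) : (J.erase j).filter (· ≤ s) = J.filter (· ≤ s) := by
  ext k
  simp only [Finset.mem_filter, Finset.mem_erase]
  constructor
  · rintro ⟨⟨_, h1⟩, h2⟩
    exact ⟨h1, h2⟩
  · rintro ⟨h1, h2⟩
    exact ⟨⟨ne_of_lt (lt_of_le_of_lt h2 h), h1⟩, h2⟩

theorem erase_ge_of_gt :
    (J.erase j).filter (s ≤ ·) = (J.filter (s ≤ ·)).erase j := by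
  ext k
  simp only [Finset.mem_filter, Finset.mem_erase]
  tauto

theorem erase_lt_of_gt (h : s < j) : (J.erase j).filter (· < s) = J.filter (· < s) := by
  ext k
  simp only [Finset.mem_filter, Finset.mem_erase]
  constructor
  · rintro ⟨⟨_, h1⟩, h2⟩
    exact ⟨h1, h2⟩
  · rintro ⟨h1, h2⟩
    exact ⟨⟨ne_of_lt (h2.trans h), h1⟩, h2⟩

theorem card_erase_lt (hj : j ∈ J) (h : j < s) :
    ((J.erase j).filter (· < s)).card + 1 = (J.filter (· < s)).card := by
  have h1 : (J.erase j).filter (· < s) = (J.filter (· < s)).erase j := by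
    ext k
    simp only [Finset.mem_filter, Finset.mem_erase]
    tauto
  rw [h1]
  exact Finset.card_erase_add_one (Finset.mem_filter.2 ⟨hj, h⟩)

theorem sg_le (h : j ≤ s) : sg j (J.filter (· ≤ s)) = sg j J := by
  unfold sg
  congr 2
  ext k
  simp only [Finset.mem_filter]
  constructor
  · rintro ⟨⟨h1, _⟩, h2⟩
    exact ⟨h1, h2⟩
  · rintro ⟨h1, h2⟩
    exact ⟨⟨h1, (lt_of_lt_of_le h2 h).le⟩, h2⟩

theorem sg_ge (h : s ≤ j) :
    sg j J = (-1) ^ (J.filter (· < s)).card * sg j (J.filter (s ≤ ·)) := by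
  unfold sg
  rw [← pow_add, ← Finset.card_union_of_disjoint]
  · congr 2
    ext k
    simp only [Finset.mem_filter, Finset.mem_union]
    constructor
    · rintro ⟨h1, h2⟩
      rcases lt_or_ge k s with h3 | h3
      · exact Or.inl ⟨h1, h3⟩
      · exact Or.inr ⟨⟨h1, h3⟩, h2⟩
    · rintro (⟨h1, h2⟩ | ⟨⟨h1, _⟩, h2⟩)
      · exact ⟨h1, lt_of_lt_of_le h2 h⟩
      · exact ⟨h1, h2⟩
  · rw [Finset.disjoint_left]
    intro k h1 h2
    simp only [Finset.mem_filter] at h1 h2
    exact absurd h1.2 (not_lt.2 h2.1.2)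

theorem sg_self_ge : sg s (J.filter (s ≤ ·)) = 1 := by
  unfold sg
  have h1 : (J.filter (s ≤ ·)).filter (· < s) = ∅ := by
    ext k
    simp only [Finset.mem_filter, Finset.notMem_empty, iff_false]
    rintro ⟨⟨_, h1⟩, h2⟩
    exact absurd h2 (not_lt.2 h1)
  rw [h1, Finset.card_empty, pow_zero]

theorem erase_self_le : (J.filter (· ≤ s)).erase s = J.filter (· < s) := by
  ext k
  simp only [Finset.mem_filter, Finset.mem_erase]
  constructor
  · rintro ⟨h1, h2, h3⟩
    exact ⟨h2, lt_of_le_of_ne h3 h1⟩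
  · rintro ⟨h1, h2⟩
    exact ⟨ne_of_lt h2, h1, h2.le⟩

end cuts

namespace CovD

variable {A : Type u} [CommRing A] {n : ℕ} (X : CovD.{u, v} A n)

/-- The cup product. -/
noncomputable def cup (a b : X.Ch) : X.Ch := fun J => ∑ s ∈ J, X.ev a (J.filter (· ≤ s)) J *
  it A (J.filter (· < s)).card (X.ev b (J.filter (s ≤ ·)) J)

variable {X}

theorem cup_apply (a b : X.Ch) (J : Finset (Fin n)) : X.cup a b J =
    ∑ s ∈ J, X.ev a (J.filter (· ≤ s)) J *
      it A (J.filter (· < s)).card (X.ev b (J.filter (s ≤ ·)) J) := rfl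

theorem cup_add_left (a a' b : X.Ch) : X.cup (a + a') b = X.cup a b + X.cup a' b := by
  funext J
  rw [Pi.add_apply, cup_apply, cup_apply, cup_apply, ← Finset.sum_add_distrib]
  refine Finset.sum_congr rfl fun s _ => ?_
  rw [ev_add, add_mul]

theorem cup_add_right (a b b' : X.Ch) : X.cup a (b + b') = X.cup a b + X.cup a b' := by
  funext J
  rw [Pi.add_apply, cup_apply, cup_apply, cup_apply, ← Finset.sum_add_distrib]
  refine Finset.sum_congr rfl fun s _ => ?_
  rw [ev_add, map_add, mul_add]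

theorem it_smul' {R : Type*} [CommRing R] [Algebra A R] (p : ℕ) (a : A) (e : Fm A R) :
    it A p (a • e) = a • it A p e := by
  have h : it A p (fz A (algebraMap A R a)) = fz A (algebraMap A R a) := by
    by_cases h : Even p
    · rw [it_even A h]
    · rw [it_odd A h, inv_fz]
  rw [smul_fm, map_mul, h, smul_fm]

theorem cup_smul_left (r : A) (a b : X.Ch) : X.cup (r • a) b = r • X.cup a b := by
  funext J
  rw [Pi.smul_apply, cup_apply, cup_apply, Finset.smul_sum]
  refine Finset.sum_congr rfl fun s _ => ?_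
  rw [ev_smul, smul_mul_assoc]

theorem cup_smul_right (r : A) (a b : X.Ch) : X.cup a (r • b) = r • X.cup a b := by
  funext J
  rw [Pi.smul_apply, cup_apply, cup_apply, Finset.smul_sum]
  refine Finset.sum_congr rfl fun s _ => ?_
  rw [ev_smul, it_smul', mul_smul_comm]

theorem cup_mem {m m' : ℕ} {a b : X.Ch} (ha : a ∈ X.Tt m) (hb : b ∈ X.Tt m') :
    X.cup a b ∈ X.Tt (m + m') := by
  refine ⟨by rw [cup_apply, Finset.sum_empty], fun J => ⟨fun q hq => ?_, fun h => ?_⟩⟩
  · rw [cup_apply]
    refine Submodule.sum_mem _ fun s hs => ?_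
    have h1 := card_cuts hs
    rcases Nat.lt_or_ge (m + 1) (J.filter (· ≤ s)).card with h2 | h2
    · rw [ev_eq_zero ((ha.2 _).2 h2), zero_mul]
      exact Submodule.zero_mem _
    · rcases Nat.lt_or_ge (m' + 1) (J.filter (s ≤ ·)).card with h3 | h3
      · rw [ev_eq_zero ((hb.2 _).2 h3), map_zero, mul_zero]
        exact Submodule.zero_mem _
      · have h4 := ev_mem ((ha.2 (J.filter (· ≤ s))).1 (m + 1 - (J.filter (· ≤ s)).card)
          (by omega)) J
        have h5 := it_mem A (p := (J.filter (· < s)).card)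
          (ev_mem ((hb.2 (J.filter (s ≤ ·))).1 (m' + 1 - (J.filter (s ≤ ·)).card) (by omega)) J)
        have h6 := fd_mul h4 h5
        have h7 : m + 1 - (J.filter (· ≤ s)).card + (m' + 1 - (J.filter (s ≤ ·)).card) = q := by
          omega
        rw [h7] at h6
        exact h6
  · rw [cup_apply]
    refine Finset.sum_eq_zero fun s hs => ?_
    have h1 := card_cuts hs
    rcases Nat.lt_or_ge (m + 1) (J.filter (· ≤ s)).card with h2 | h2
    · rw [ev_eq_zero ((ha.2 _).2 h2), zero_mul]
    · rw [ev_eq_zero ((hb.2 (J.filter (s ≤ ·))).2 (by omega)), map_zero, mul_zero]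

/-- The cup product respects the Hodge filtration. -/
theorem cup_mem_Fi {m m' i i' : ℕ} {a b : X.Ch} (ha : a ∈ X.Fi i m) (hb : b ∈ X.Fi i' m') :
    X.cup a b ∈ X.Fi (i + i') (m + m') := by
  refine ⟨cup_mem ha.1 hb.1, fun J hJ => ?_⟩
  rw [cup_apply]
  refine Finset.sum_eq_zero fun s hs => ?_
  have h1 := card_cuts hs
  rcases Nat.lt_or_ge (m + 1) ((J.filter (· ≤ s)).card + i) with h2 | h2
  · rw [ev_eq_zero (ha.2 _ h2), zero_mul]
  · rw [ev_eq_zero (hb.2 (J.filter (s ≤ ·)) (by omega)), map_zero, mul_zero]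

/-- The cup product respects the conjugate filtration. -/
theorem cup_mem_Ni {m m' i i' : ℕ} {a b : X.Ch} (ha : a ∈ X.Ni i m) (hb : b ∈ X.Ni i' m') :
    X.cup a b ∈ X.Ni (i + i') (m + m') := by
  refine ⟨cup_mem ha.1 hb.1, fun J => ⟨fun hJ => ?_, fun hJ => ?_⟩⟩
  · rw [cup_apply]
    refine Finset.sum_eq_zero fun s hs => ?_
    have h1 := card_cuts hs
    rcases Nat.lt_or_ge ((J.filter (· ≤ s)).card + i) (m + 1) with h2 | h2
    · rw [ev_eq_zero ((ha.2 _).1 h2), zero_mul]
    · rw [ev_eq_zero ((hb.2 (J.filter (s ≤ ·))).1 (by omega)), map_zero, mul_zero]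
  · rw [cup_apply, map_sum]
    refine Finset.sum_eq_zero fun s hs => ?_
    have h1 := card_cuts hs
    rcases Nat.lt_or_ge ((J.filter (· ≤ s)).card + i) (m + 1) with h2 | h2
    · rw [ev_eq_zero ((ha.2 _).1 h2), zero_mul, map_zero]
    · rcases Nat.lt_or_ge ((J.filter (s ≤ ·)).card + i') (m' + 1) with h3 | h3
      · rw [ev_eq_zero ((hb.2 _).1 h3), map_zero, mul_zero, map_zero]
      · have e1 : dd A (X.ev a (J.filter (· ≤ s)) J) = 0 := by
          rw [← ev_dc]
          refine ev_eq_zero ?_ _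
          rw [dc_apply]
          exact (ha.2 _).2 (by omega)
        have e2 : dd A (X.ev b (J.filter (s ≤ ·)) J) = 0 := by
          rw [← ev_dc]
          refine ev_eq_zero ?_ _
          rw [dc_apply]
          exact (hb.2 _).2 (by omega)
        rw [dd_mul, e1, zero_mul, zero_add, dd_it, e2, map_zero, smul_zero, mul_zero]

theorem ev_ev_erase {c : X.Ch} {K J : Finset (Fin n)} (h : K ⊆ J) :
    X.ev (X.del c) K J = ∑ j ∈ K, sg j K • X.ev c (K.erase j) J := ev_del h c

/-- The Leibniz rule for the Čech differential. -/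
theorem del_cup (a b : X.Ch) (J : Finset (Fin n)) :
    X.del (X.cup a b) J =
      X.cup (X.del a) (X.ic b) J - ∑ s ∈ J, ((-1 : ℤ) ^ (J.filter (· < s)).card) •
        (X.ev a (J.filter (· < s)) J * it A (J.filter (· < s)).card
          (X.ev (X.ic b) (J.filter (s ≤ ·)) J)) +
      ∑ s ∈ J, ((-1 : ℤ) ^ (J.filter (· < s)).card) •
        (X.ev a (J.filter (· ≤ s)) J * it A (J.filter (· < s)).card
          (X.ev (X.del b) (J.filter (s ≤ ·)) J - X.ev b (J.filter (s < ·)) J)) := by
  -- expand the left side as a sum over pairs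
  have hL : X.del (X.cup a b) J = ∑ j ∈ J, ∑ s ∈ J.erase j, sg j J •
      (X.ev a ((J.erase j).filter (· ≤ s)) J *
        it A ((J.erase j).filter (· < s)).card (X.ev b ((J.erase j).filter (s ≤ ·)) J)) := by
    rw [del_apply]
    refine Finset.sum_congr rfl fun j _ => ?_
    rw [ev_of (Finset.erase_subset j J), cup_apply, map_sum, Finset.smul_sum]
    refine Finset.sum_congr rfl fun s _ => ?_
    rw [map_mul, rs_ev (Finset.filter_subset _ _) (Finset.erase_subset j J)]
    congr 2
    refine (mp_it A _ _ _).trans ?_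
    congr 1
    exact rs_ev (Finset.filter_subset _ _) (Finset.erase_subset j J)
  have hswap : ∀ g : Fin n → Fin n → X.E J, ∑ j ∈ J, ∑ s ∈ J.erase j, g j s =
      ∑ s ∈ J, (∑ j ∈ J.filter (· < s), g j s + ∑ j ∈ J.filter (s < ·), g j s) := by
    intro g
    have h1 : ∀ j ∈ J, ∑ s ∈ J.erase j, g j s = ∑ s ∈ J, if s = j then 0 else g j s := by
      intro j _
      rw [← Finset.sum_filter_add_sum_filter_not J (fun s => s = j)]
      rw [Finset.sum_eq_zero (s := J.filter fun s => s = j), zero_add]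
      · have h2 : J.filter (fun s => ¬ s = j) = J.erase j := by
          ext k
          simp only [Finset.mem_filter, Finset.mem_erase]
          tauto
        rw [h2]
        refine Finset.sum_congr rfl fun s hs => ?_
        rw [if_neg (Finset.ne_of_mem_erase hs)]
      · intro s hs
        rw [if_pos (Finset.mem_filter.1 hs).2]
    rw [Finset.sum_congr rfl h1, Finset.sum_comm]
    refine Finset.sum_congr rfl fun s hs => ?_
    rw [← Finset.sum_filter_add_sum_filter_not J (fun j => j < s)]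
    congr 1
    · refine Finset.sum_congr rfl fun j hj => ?_
      rw [if_neg (ne_of_gt (Finset.mem_filter.1 hj).2)]
    · have h2 : J.filter (fun j => ¬ j < s) = insert s (J.filter (s < ·)) := by
        ext k
        simp only [Finset.mem_filter, Finset.mem_insert, not_lt]
        constructor
        · rintro ⟨h3, h4⟩
          rcases h4.lt_or_eq with h5 | h5
          · exact Or.inr ⟨h3, h5⟩
          · exact Or.inl h5.symm
        · rintro (rfl | ⟨h3, h4⟩)
          · exact ⟨hs, le_rfl⟩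
          · exact ⟨h3, h4.le⟩
      rw [h2, Finset.sum_insert (by simp), if_pos rfl, zero_add]
      refine Finset.sum_congr rfl fun j hj => ?_
      rw [if_neg (ne_of_lt (Finset.mem_filter.1 hj).2)]
  rw [hL, hswap, cup_apply, ← Finset.sum_sub_distrib, ← Finset.sum_add_distrib]
  refine Finset.sum_congr rfl fun s hs => ?_
  congr 1
  · -- the elements smaller than s
    rw [ev_del (Finset.filter_subset _ _)]
    have h1 : J.filter (· ≤ s) = insert s (J.filter (· < s)) := by
      ext k
      simp only [Finset.mem_filter, Finset.mem_insert]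
      constructor
      · rintro ⟨h1, h2⟩
        rcases h2.lt_or_eq with h3 | h3
        · exact Or.inr ⟨h1, h3⟩
        · exact Or.inl h3
      · rintro (rfl | ⟨h1, h2⟩)
        · exact ⟨hs, le_rfl⟩
        · exact ⟨h1, h2.le⟩
    have h2 : ∑ j ∈ J.filter (· ≤ s), sg j (J.filter (· ≤ s)) •
        X.ev a ((J.filter (· ≤ s)).erase j) J =
        ((-1 : ℤ) ^ (J.filter (· < s)).card) • X.ev a (J.filter (· < s)) J +
          ∑ j ∈ J.filter (· < s), sg j J • X.ev a ((J.filter (· ≤ s)).erase j) J := by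
      conv_lhs =>
        rw [h1]
      rw [Finset.sum_insert (by simp), ← h1, erase_self_le, sg_le le_rfl]
      congr 1
      refine Finset.sum_congr rfl fun j hj => ?_
      rw [sg_le (Finset.mem_filter.1 hj).2.le]
    rw [h2, add_mul, smul_mul_assoc, add_sub_cancel_left, Finset.sum_mul]
    refine Finset.sum_congr rfl fun j hj => ?_
    have hj1 := (Finset.mem_filter.1 hj).1
    have hj2 := (Finset.mem_filter.1 hj).2
    rw [erase_le_of_lt, erase_ge_of_lt hj2, smul_mul_assoc, ev_ic, ← card_erase_lt hj1 hj2,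
      it_succ, it_inv, inv_inv]
  · rw [ev_del (Finset.filter_subset _ _)]
    have h1 : J.filter (s ≤ ·) = insert s (J.filter (s < ·)) := by
      ext k
      simp only [Finset.mem_filter, Finset.mem_insert]
      constructor
      · rintro ⟨h3, h4⟩
        rcases h4.lt_or_eq with h5 | h5
        · exact Or.inr ⟨h3, h5⟩
        · exact Or.inl h5.symm
      · rintro (rfl | ⟨h3, h4⟩)
        · exact ⟨hs, le_rfl⟩
        · exact ⟨h3, h4.le⟩
    have h3 : (J.filter (s ≤ ·)).erase s = J.filter (s < ·) := by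
      rw [h1, Finset.erase_insert (by simp)]
    have h2 : ∑ j ∈ J.filter (s ≤ ·), sg j (J.filter (s ≤ ·)) •
        X.ev b ((J.filter (s ≤ ·)).erase j) J =
        X.ev b (J.filter (s < ·)) J +
          ∑ j ∈ J.filter (s < ·), sg j (J.filter (s ≤ ·)) • X.ev b ((J.filter (s ≤ ·)).erase j) J := by
      conv_lhs =>
        rw [h1]
      rw [Finset.sum_insert (by simp), ← h1, h3, sg_self_ge, one_smul]
    rw [h2, add_sub_cancel_left, map_sum, Finset.mul_sum, Finset.smul_sum]
    refine Finset.sum_congr rfl fun j hj => ?_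
    have hj1 := (Finset.mem_filter.1 hj).1
    have hj2 := (Finset.mem_filter.1 hj).2
    rw [erase_le_of_gt hj2, erase_ge_of_gt, erase_lt_of_gt hj2, sg_ge hj2.le, map_zsmul,
      mul_smul_comm, mul_smul]

theorem ic_cup (a b : X.Ch) : X.ic (X.cup a b) = X.cup (X.ic a) (X.ic b) := by
  funext J
  rw [ic_apply, cup_apply, cup_apply, map_sum]
  refine Finset.sum_congr rfl fun s _ => ?_
  rw [map_mul, ev_ic, ev_ic, it_inv]

private theorem cup_sign {m : ℕ} {a : X.Ch} (ha : a ∈ X.Tt m) {K J : Finset (Fin n)} {p : ℕ}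
    (h : K.card = p + 1) :
    ((-1 : ℤ) ^ p) • inv A (X.ev a K J) = ((-1 : ℤ) ^ m) • X.ev a K J := by
  rcases Nat.lt_or_ge (m + 1) K.card with h2 | h2
  · rw [ev_eq_zero ((ha.2 _).2 h2), map_zero, smul_zero, smul_zero]
  · have h3 := ev_mem ((ha.2 K).1 (m + 1 - K.card) (by omega)) J
    rw [inv_zsmul A h3, smul_smul, ← pow_add]
    congr 2
    omega

/-- The Leibniz rule. -/
theorem Dt_cup {m m' : ℕ} {a b : X.Ch} (ha : a ∈ X.Tt m) (hb : b ∈ X.Tt m') :
    X.Dt (X.cup a b) = X.cup (X.Dt a) b + ((-1 : ℤ) ^ m) • X.cup a (X.Dt b) := by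
  funext J
  have e1 : X.Dt (X.cup a b) J = dd A (X.cup a b J) + X.del (X.cup (X.ic a) (X.ic b)) J := by
    rw [Dt_apply, ic_cup]
    rfl
  have e2 : X.cup (X.Dt a) b J = X.cup (X.dc a) b J + X.cup (X.del (X.ic a)) b J := by
    rw [Dt_apply, cup_add_left]
    rfl
  have e3 : X.cup a (X.Dt b) J = X.cup a (X.dc b) J + X.cup a (X.del (X.ic b)) J := by
    rw [Dt_apply, cup_add_right]
    rfl
  have e4 : (X.cup (X.Dt a) b + ((-1 : ℤ) ^ m) • X.cup a (X.Dt b)) J =
      X.cup (X.Dt a) b J + ((-1 : ℤ) ^ m) • X.cup a (X.Dt b) J := rfl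
  rw [e1, e4, e2, e3, del_cup, ic_ic]
  have hcard : ∀ s ∈ J, (J.filter (· ≤ s)).card = (J.filter (· < s)).card + 1 :=
    fun s hs => card_le hs
  -- the part of the exterior derivative
  have h1 : dd A (X.cup a b J) = X.cup (X.dc a) b J + ((-1 : ℤ) ^ m) • X.cup a (X.dc b) J := by
    rw [cup_apply, cup_apply, cup_apply, map_sum, Finset.smul_sum, ← Finset.sum_add_distrib]
    refine Finset.sum_congr rfl fun s hs => ?_
    rw [dd_mul, ev_dc, ev_dc, dd_it, mul_smul_comm, ← smul_mul_assoc, cup_sign ha (hcard s hs),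
      smul_mul_assoc]
  -- the regular part of the Čech differential
  have h2 : ∑ s ∈ J, ((-1 : ℤ) ^ (J.filter (· < s)).card) •
        (X.ev (X.ic a) (J.filter (· ≤ s)) J * it A (J.filter (· < s)).card
          (X.ev (X.del (X.ic b)) (J.filter (s ≤ ·)) J - X.ev (X.ic b) (J.filter (s < ·)) J)) =
      ((-1 : ℤ) ^ m) • X.cup a (X.del (X.ic b)) J - ∑ s ∈ J, ((-1 : ℤ) ^ m) •
        (X.ev a (J.filter (· ≤ s)) J * it A (J.filter (· ≤ s)).card
          (X.ev b (J.filter (s < ·)) J)) := by
    rw [cup_apply, Finset.smul_sum, ← Finset.sum_sub_distrib]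
    refine Finset.sum_congr rfl fun s hs => ?_
    rw [map_sub, mul_sub, smul_sub, ev_ic, ev_ic, ← smul_mul_assoc, ← smul_mul_assoc,
      cup_sign ha (hcard s hs), smul_mul_assoc, smul_mul_assoc, hcard s hs, it_succ, it_inv]
  have h3 : ∑ s ∈ J, ((-1 : ℤ) ^ (J.filter (· < s)).card) •
        (X.ev (X.ic a) (J.filter (· < s)) J * it A (J.filter (· < s)).card
          (X.ev b (J.filter (s ≤ ·)) J)) =
      -∑ s ∈ J, ((-1 : ℤ) ^ m) • (X.ev a (J.filter (· < s)) J * it A (J.filter (· < s)).card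
          (X.ev b (J.filter (s ≤ ·)) J)) := by
    rw [← Finset.sum_neg_distrib]
    refine Finset.sum_congr rfl fun s hs => ?_
    rw [ev_ic]
    rcases (J.filter (· < s)).eq_empty_or_nonempty with hK | hK
    · rw [hK, ev_eq_zero ha.1, map_zero, zero_mul, smul_zero, smul_zero, neg_zero]
    · obtain ⟨p, hp⟩ := Nat.exists_eq_succ_of_ne_zero (Finset.card_ne_zero.2 hK)
      have h5 := cup_sign (J := J) ha (p := p) (K := J.filter (· < s)) hp
      rw [← smul_mul_assoc, hp, Nat.succ_eq_add_one, pow_succ, mul_neg_one, neg_smul, h5,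
        ← smul_mul_assoc, neg_mul]
  have h4 := sum_cuts (fun K : Finset (Fin n) => ((-1 : ℤ) ^ m) • (X.ev a K J *
    it A K.card (X.ev b (J \ K) J))) J
  have h5 : ((-1 : ℤ) ^ m) • (X.ev a J J * it A J.card (X.ev b (J \ J) J)) = 0 := by
    rw [Finset.sdiff_self, ev_eq_zero hb.1, map_zero, mul_zero, smul_zero]
  have h6 : ((-1 : ℤ) ^ m) • (X.ev a ∅ J * it A (∅ : Finset (Fin n)).card
      (X.ev b (J \ ∅) J)) = 0 := by
    rw [ev_eq_zero ha.1, zero_mul, smul_zero]
  have h7 : ∀ s, J \ J.filter (· ≤ s) = J.filter (s < ·) := by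
    intro s
    ext k
    simp only [Finset.mem_sdiff, Finset.mem_filter, not_and, not_le]
    tauto
  have h8 : ∀ s, J \ J.filter (· < s) = J.filter (s ≤ ·) := by
    intro s
    ext k
    simp only [Finset.mem_sdiff, Finset.mem_filter, not_and, not_lt]
    tauto
  simp only [h5, h6, h7, h8, sub_zero] at h4
  rw [h1, h2, h3, smul_add, sub_neg_eq_add]
  rw [sub_eq_zero.1 h4]
  abel

/-- The cup product and morphisms. -/
theorem Hm.push_cup {B : Type w} [CommRing B] {f : A →+* B} {Y : CovD.{w, x} B n} {F : Hm f X Y}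
    (a b : X.Ch) : F.push (X.cup a b) = Y.cup (F.push a) (F.push b) := by
  funext J
  rw [Hm.push_apply, cup_apply, cup_apply, map_sum]
  refine Finset.sum_congr rfl fun s _ => ?_
  rw [map_mul, Hm.ev_push, Hm.ev_push]
  congr 1
  exact mp_it A (F.cc J) _ _

end CovD

end MPadcGP
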