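import Pool.Agent.Lib.MP_adc574_ag_GP.Mod2a

/-!
# The restriction maps of the charts are localizations
-/

set_option autoImplicit false

namespace MPadcGP

open MvPolynomial TensorProduct

universe u v w

section Tr

variable {A : Type u} [CommRing A] {n : ℕ} {I : Ideal (MvPolynomial (Fin n) A)}

/-- `chart I J'` is the localization of `chart I J` at the product of the `x_l / x_i`, `l ∈ J'`. -/
theorem tr_isLocalization (hI : IsHomog I) {J J' : Finset (Fin n)} (hJ : J ⊆ J') {i : Fin n} (hi : i ∈ J) :
    letI := (tr I hJ).toRingHom.toAlgebra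
    IsLocalization.Away (∏ l ∈ J', cq I J l hi) (chart I J') := by
  let := (tr I hJ).toRingHom.toAlgebra
  show IsLocalization.Away (∏ l ∈ J', cq I J l hi) (chart I J')
  set g := ∏ l ∈ J', cq I J l hi with hg
  let L := Localization.Away g
  have hmap : ∀ x, algebraMap (chart I J) (chart I J') x = tr I hJ x := fun x => rfl
  have hu : IsUnit (algebraMap (chart I J) (chart I J') g) := by
    have h9 : tr I hJ g = ∏ l ∈ J', cq I J' l (hJ hi) :=
      (map_prod (tr I hJ) _ _).trans (Finset.prod_congr rfl fun l _ => tr_cq I hJ l hi)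
    rw [hmap, h9]
    exact Finset.prod_induction _ _ (fun _ _ h1 h2 => h1.mul h2) isUnit_one fun l hl =>
      cq_isUnit I J' hl (hJ hi)
  let α : L →+* chart I J' := IsLocalization.Away.lift g hu
  have hα : ∀ x, α (algebraMap (chart I J) L x) = tr I hJ x := fun x => IsLocalization.Away.lift_eq g hu x
  have hgu : IsUnit (algebraMap (chart I J) L g) := IsLocalization.Away.algebraMap_isUnit g
  have hz : ∀ f : MvPolynomial (Fin n) A,
      eval₂ ((algebraMap (chart I J) L).comp (algebraMap A (chart I J)))
        (fun l => algebraMap (chart I J) L (cq I J l hi)) f =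
      algebraMap (chart I J) L (eval₂ (algebraMap A (chart I J)) (fun l => cq I J l hi) f) := fun f =>
    (eval₂_comp_left (algebraMap (chart I J) L) (algebraMap A (chart I J)) (fun l => cq I J l hi) f).symm
  obtain ⟨β, hβ0, hβ⟩ := exists_chart_lift I J' (R' := L)
    ((algebraMap (chart I J) L).comp (algebraMap A (chart I J))) (hJ hi)
    (fun l => algebraMap (chart I J) L (cq I J l hi)) (by rw [cq_self, map_one])
    (fun j hj => isUnit_of_dvd_unit (map_dvd _ (Finset.dvd_prod_of_mem (fun l => cq I J l hi) hj)) hgu)
    (fun f hf => by rw [hz, eval₂_cq hI hi hf, map_zero])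
  have h1 : α.comp β = RingHom.id _ := by
    refine chart_hom_ext' I J' (hJ hi) (fun a => ?_) fun l => ?_
    · rw [RingHom.comp_apply, hβ0, RingHom.comp_apply, hα, AlgHom.commutes]
      rfl
    · rw [RingHom.comp_apply, hβ, hα, tr_cq]
      rfl
  have h2 : β.comp α = RingHom.id _ := by
    refine IsLocalization.ringHom_ext (Submonoid.powers g) ?_
    refine chart_hom_ext' I J hi (fun a => ?_) fun l => ?_
    · rw [RingHom.comp_apply, RingHom.comp_apply, hα, AlgHom.commutes, hβ0]
      rfl
    · rw [RingHom.comp_apply, RingHom.comp_apply, hα, tr_cq, hβ]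
      rfl
  let e : L ≃ₐ[chart I J] chart I J' :=
    { RingEquiv.ofRingHom α β h1 h2 with
      commutes' := fun x => hα x }
  exact IsLocalization.isLocalization_of_algEquiv (Submonoid.powers g) e

end Tr

end MPadcGP
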