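import Pool.Agent.Lib.MP_adc574_ag_GP.Fin3e

/-!
# REL: open sets of ordinary points
-/

set_option autoImplicit false
set_option linter.unusedSectionVars false

namespace MPadcGP

universe u v w x

/-- The fibres over a nonempty open subset of `V(𝔓)` are smooth and ordinary. -/
def IsOpenOrd {A : Type u} [CommRing A] {n : ℕ} (I : Ideal (MvPolynomial (Fin n) A))
    (𝔓 : Ideal A) : Prop :=
  ∃ f ∉ 𝔓, ∀ 𝔪 : Ideal A, 𝔪.IsMaximal → 𝔓 ≤ 𝔪 → f ∉ 𝔪 →
    IsSmoothProj (bI (Ideal.Quotient.mk 𝔪) I) ∧ (prC (bI (Ideal.Quotient.mk 𝔪) I)).IsBlochKatoOrdinary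

section

variable {A : Type u} [CommRing A] [IsDomain A] [CharZero A] [Algebra.FiniteType ℤ A]

/-- From the generic point of `V(𝔓)` to an open set. -/
theorem open_of_opp {n : ℕ} {I : Ideal (MvPolynomial (Fin n) A)} (hI : IsHomog I) {a : A} (ha : a ≠ 0)
    (hd : HasDat I a) {𝔓 : Ideal A}
    {p : ℕ} [Fact p.Prime] {K : Type u} [Field K] [CharP K p] (φ : A →+* K) (hker : RingHom.ker φ = 𝔓)
    (hφ : ∀ x : K, ∃ a b : A, φ b ≠ 0 ∧ x = φ a / φ b)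
    {Λ : Type} [Fintype Λ] {bb : Λ → K} (hbb : PBas p bb)
    (ha𝔓 : φ a ≠ 0) (hopp : IsOppC (prC (bI φ I))) : IsOpenOrd I 𝔓 := by
  have hd' : IsDomain (Localization.Away a) := away_isDomain ha
  have hft' : Algebra.FiniteType ℤ (Localization.Away a) := away_finiteType a
  have hft := away_finiteType' a
  have hcz : CharZero (Localization.Away a) := away_charZero ha
  have hn : IsNoetherianRing (Localization.Away a) := Algebra.FiniteType.isNoetherianRing ℤ _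
  obtain ⟨hs, β, i1, i2, lev, z, h, hD⟩ := hd
  set ι := algebraMap A (Localization.Away a) with hι
  have huK : IsUnit (φ a) := IsUnit.mk0 _ ha𝔓
  set φ' : Localization.Away a →+* K := IsLocalization.Away.lift a huK with hφ'
  have hcomp : φ'.comp ι = φ := IsLocalization.Away.lift_comp a huK
  have hcomp' : ∀ x, φ' (ι x) = φ x := fun x => RingHom.congr_fun hcomp x
  have hI' := hI.map ι
  have hdimK := (dimC_of_aff hI ha hs hD φ hbb ha𝔓).1
  obtain ⟨f, hf, hall⟩ := spread_opp (p := p) hI' hs hD φ' (fun x => by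
    obtain ⟨c, d, hd1, hd2⟩ := hφ x
    exact ⟨ι c, ι d, by rw [hcomp']; exact hd1, by rw [hcomp', hcomp']; exact hd2⟩)
    (by rw [bI_bI, hcomp]; exact hopp) (by rw [bI_bI, hcomp]; exact hdimK)
  obtain ⟨y, r, hy⟩ := away_surj a f
  have hy0 : φ y ≠ 0 := by
    rw [← hcomp', ← hy, map_mul, map_pow, hcomp']
    exact mul_ne_zero hf (pow_ne_zero r ha𝔓)
  refine ⟨a * y, ?_, fun 𝔪 h𝔪 hle hb𝔪 => ?_⟩
  · rw [← hker, RingHom.mem_ker, map_mul]
    exact mul_ne_zero ha𝔓 hy0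
  let _ : Field (A ⧸ 𝔪) := Ideal.Quotient.field 𝔪
  have hcp : CharP (A ⧸ 𝔪) p := by
    have h1 : ((p : ℕ) : A ⧸ 𝔪) = 0 := by
      rw [← map_natCast (Ideal.Quotient.mk 𝔪) p, Ideal.Quotient.eq_zero_iff_mem]
      refine hle ?_
      rw [← hker, RingHom.mem_ker, map_natCast]
      exact CharP.cast_eq_zero K p
    exact charP_of_cast_zero (Fact.out : p.Prime) h1
  have hfinq : Finite (A ⧸ 𝔪) := finite_quot (p := p) 𝔪
  have ha𝔪 : Ideal.Quotient.mk 𝔪 a ≠ 0 := fun h =>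
    hb𝔪 (Ideal.mul_mem_right _ _ (Ideal.Quotient.eq_zero_iff_mem.1 h))
  have hy𝔪 : Ideal.Quotient.mk 𝔪 y ≠ 0 := fun h =>
    hb𝔪 (Ideal.mul_mem_left _ _ (Ideal.Quotient.eq_zero_iff_mem.1 h))
  obtain ⟨ψ, hψ⟩ : ∃ ψ : Localization.Away a →+* A ⧸ 𝔪, ψ = IsLocalization.Away.lift a (IsUnit.mk0 _ ha𝔪) :=
    ⟨_, rfl⟩
  have hψc : ψ.comp ι = Ideal.Quotient.mk 𝔪 := hψ ▸ IsLocalization.Away.lift_comp a _
  have hψc' : ∀ x, ψ (ι x) = Ideal.Quotient.mk 𝔪 x := fun x => RingHom.congr_fun hψc x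
  have hsm : IsSmoothProj (bI (Ideal.Quotient.mk 𝔪) I) :=
    IsSmoothProj.of_away hI hs (Ideal.Quotient.mk 𝔪) (IsUnit.mk0 _ ha𝔪)
  refine ⟨hsm, ?_⟩
  have hbI : bI ψ (bI ι I) = bI (Ideal.Quotient.mk 𝔪) I := by rw [bI_bI, hψc]
  have hdim := (dimC_of_aff (p := p) hI ha hs hD (Ideal.Quotient.mk 𝔪) (pbas_finite (κ := A ⧸ 𝔪)) ha𝔪).1
  have hopp' : IsOppC (prC (bI ψ (bI ι I))) := by
    refine hall (A ⧸ 𝔪) ψ (fun x hx => ?_) ?_ (by rw [hbI]; exact hdim)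
    · obtain ⟨y', r', hy'⟩ := away_surj a x
      have h2 : φ y' = 0 := by
        rw [← hcomp', ← hy', map_mul, hx, zero_mul]
      have h3 : y' ∈ 𝔪 := hle (hker ▸ (RingHom.mem_ker.2 h2))
      have h4 : ψ x * ψ (ι a) ^ r' = 0 := by
        rw [← map_pow, ← map_mul, hy', hψc', Ideal.Quotient.eq_zero_iff_mem.2 h3]
      rw [hψc'] at h4
      exact (mul_eq_zero.1 h4).resolve_right (pow_ne_zero _ ha𝔪)
    · intro h2
      apply hy𝔪
      rw [← hψc', ← hy, map_mul, h2, zero_mul]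
  have hbk := bk_of_opp (p := p) (hI'.map _) (hs.map hI' ψ) (fun q m => (hD.hodge _ ψ q m).1)
      (dat_sum hI' hs hD ψ) hopp'
  rw [hbI] at hbk
  exact hbk

end

theorem exists_max_not_mem {A : Type u} [CommRing A] [Algebra.FiniteType ℤ A] {p : ℕ} [Fact p.Prime]
    (𝔓 : Ideal A) [𝔓.IsPrime] (hp : (p : A) ∈ 𝔓) (f : A) (hf : f ∉ 𝔓) :
    ∃ 𝔪 : Ideal A, 𝔪.IsMaximal ∧ 𝔓 ≤ 𝔪 ∧ f ∉ 𝔪 := by
  have hcp : CharP (A ⧸ 𝔓) p := by
    have h1 : ((p : ℕ) : A ⧸ 𝔓) = 0 := by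
      rw [← map_natCast (Ideal.Quotient.mk 𝔓) p, Ideal.Quotient.eq_zero_iff_mem]
      exact hp
    obtain ⟨q, hq⟩ := CharP.exists (A ⧸ 𝔓)
    have h2 := (CharP.cast_eq_zero_iff (A ⧸ 𝔓) q p).1 h1
    rcases (Nat.dvd_prime (Fact.out : p.Prime)).1 h2 with rfl | rfl
    · exact absurd ((CharP.cast_eq_zero_iff (A ⧸ 𝔓) 1 1).2 (dvd_refl 1)) (by
        rw [Nat.cast_one]
        exact one_ne_zero)
    · exact hq
  have hft : @Algebra.FiniteType ℤ (A ⧸ 𝔓) _ _ (Ring.toIntAlgebra _) := by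
    have h1 : (Int.castRingHom A).FiniteType := by
      have h3 : (algebraMap ℤ A).FiniteType := RingHom.finiteType_algebraMap.2 inferInstance
      have h4 : algebraMap ℤ A = Int.castRingHom A := Subsingleton.elim _ _
      rwa [h4] at h3
    have h2 : ((Ideal.Quotient.mk 𝔓).comp (Int.castRingHom A)).FiniteType :=
      (RingHom.FiniteType.of_surjective _ Ideal.Quotient.mk_surjective).comp h1
    have h3 : (Ideal.Quotient.mk 𝔓).comp (Int.castRingHom A) =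
        @algebraMap ℤ (A ⧸ 𝔓) _ _ (Ring.toIntAlgebra _) := Subsingleton.elim _ _
    rw [h3] at h2
    exact RingHom.finiteType_algebraMap.1 h2
  have hf' : Ideal.Quotient.mk 𝔓 f ≠ 0 := fun h => hf (Ideal.Quotient.eq_zero_iff_mem.1 h)
  obtain ⟨m, hm, -, hfm⟩ := exists_finite_point (A ⧸ 𝔓) p hft _ hf'
  refine ⟨m.comap (Ideal.Quotient.mk 𝔓), Ideal.comap_isMaximal_of_surjective _ Ideal.Quotient.mk_surjective,
    fun x hx => ?_, fun h => hfm h⟩
  rw [Ideal.mem_comap, Ideal.Quotient.eq_zero_iff_mem.2 hx]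
  exact Ideal.zero_mem _

end MPadcGP
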