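import Pool.Agent.Lib.MP_adc574_ag_GP.Mod4
import Pool.Agent.Lib.MP_adc574_ag_GP.Mod3

/-!
# The standard charts: spreading out of smoothness
-/

set_option autoImplicit false

namespace MPadcGP

open MvPolynomial TensorProduct

universe u v w

section Gen

variable {A : Type u} [CommRing A] [IsDomain A] {R : Type v} [CommRing R] [Algebra A R]

/-- smoothness over a field containing `A` gives smoothness over the fraction field of `A` -/
theorem smooth_frac {K : Type w} [Field K] [Algebra A K] (hinj : Function.Injective (algebraMap A K))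
    [Algebra.Smooth K (K ⊗[A] R)] : Algebra.Smooth (FractionRing A) (FractionRing A ⊗[A] R) := by
  let F := FractionRing A
  let _ : Algebra F K := (IsFractionRing.lift hinj : F →+* K).toAlgebra
  have h1 : IsScalarTower A F K := IsScalarTower.of_algebraMap_eq fun a =>
    (IsFractionRing.lift_algebraMap hinj a).symm
  have h2 : Algebra.Smooth K (K ⊗[F] (F ⊗[A] R)) :=
    Algebra.Smooth.of_equiv (Algebra.TensorProduct.cancelBaseChange A F K K R).symm
  exact Algebra.Smooth.of_smooth_tensorProduct_of_faithfullyFlat (R := F) (S := F ⊗[A] R) K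

/-- the primes over the generic point are in the smooth locus -/
theorem isSmoothAt_of_frac [Algebra.Smooth (FractionRing A) (FractionRing A ⊗[A] R)]
    (q : Ideal R) [q.IsPrime] (hq : ∀ a : A, algebraMap A R a ∈ q → a = 0) :
    Algebra.IsSmoothAt A q := by
  let F := FractionRing A
  let S := F ⊗[A] R
  let _ : Algebra R S := Algebra.TensorProduct.rightAlgebra
  let M : Submonoid R := Algebra.algebraMapSubmonoid R (nonZeroDivisors A)
  have h1 : IsLocalization M S := by
    exact IsLocalization.tensorRight F (nonZeroDivisors A)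
  have h2 : M ≤ q.primeCompl := by
    rintro _ ⟨a, ha, rfl⟩ h
    exact nonZeroDivisors.ne_zero ha (hq a h)
  let Rq := Localization.AtPrime q
  let _ : Algebra S Rq := IsLocalization.localizationAlgebraOfSubmonoidLe S Rq M q.primeCompl h2
  have h3 : IsScalarTower R S Rq := IsLocalization.localization_isScalarTower_of_submonoid_le S Rq M q.primeCompl h2
  have h4 : IsLocalization (q.primeCompl.map (algebraMap R S)) Rq :=
    IsLocalization.isLocalization_of_submonoid_le S Rq M q.primeCompl h2
  have h5 : Algebra.FormallySmooth S Rq :=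
    Algebra.FormallySmooth.of_isLocalization (q.primeCompl.map (algebraMap R S))
  have h6 : Algebra.FormallySmooth A F := Algebra.FormallySmooth.of_isLocalization (nonZeroDivisors A)
  have h7 : Algebra.FormallySmooth A S := Algebra.FormallySmooth.comp A F S
  have h8 : IsScalarTower A S Rq := by
    refine IsScalarTower.of_algebraMap_eq (R := A) (S := S) (A := Rq) fun a => ?_
    rw [IsScalarTower.algebraMap_apply A R Rq, IsScalarTower.algebraMap_apply R S Rq,
      ← IsScalarTower.algebraMap_apply A R S]
  exact Algebra.FormallySmooth.comp A S Rq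

theorem exists_smooth_base (R : Type v) [CommRing R] [Algebra A R] [Algebra.FinitePresentation A R]
    [Algebra.Smooth (FractionRing A) (FractionRing A ⊗[A] R)] :
    ∃ a : A, a ≠ 0 ∧ Algebra.Smooth (Localization.Away a) (Localization.Away a ⊗[A] R) := by
  have h0 : IsOpen (Algebra.smoothLocus A R) := Algebra.isOpen_smoothLocus
  obtain ⟨c, hc⟩ := (PrimeSpectrum.isClosed_iff_zeroLocus_ideal (Algebra.smoothLocus A R)ᶜ).1 h0.isClosed_compl
  have h1 : ∃ a : A, a ≠ 0 ∧ algebraMap A R a ∈ c := by
    by_contra hcon
    push Not at hcon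
    have h2 : Disjoint (c : Set R) (Algebra.algebraMapSubmonoid R (nonZeroDivisors A) : Set R) := by
      rw [Set.disjoint_left]
      rintro _ hx ⟨a, ha, rfl⟩
      exact hcon a (nonZeroDivisors.ne_zero ha) hx
    obtain ⟨q, hq, hcq, hdis⟩ := Ideal.exists_le_prime_disjoint c _ h2
    have h3 : (⟨q, hq⟩ : PrimeSpectrum R) ∈ (Algebra.smoothLocus A R)ᶜ := by
      rw [hc]
      exact hcq
    apply h3
    refine isSmoothAt_of_frac q fun a ha => ?_
    by_contra ha0
    exact Set.disjoint_left.1 hdis ha ⟨a, mem_nonZeroDivisors_of_ne_zero ha0, rfl⟩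
  obtain ⟨a, ha0, ha⟩ := h1
  refine ⟨a, ha0, ?_⟩
  have h4 : (PrimeSpectrum.basicOpen (algebraMap A R a) : Set (PrimeSpectrum R)) ⊆ Algebra.smoothLocus A R := by
    intro p hp
    by_contra hp2
    have h5 : p ∈ (Algebra.smoothLocus A R)ᶜ := hp2
    rw [hc] at h5
    exact hp (h5 ha)
  rw [Algebra.basicOpen_subset_smoothLocus_iff_smooth] at h4
  let B := Localization.Away a
  let S := B ⊗[A] R
  let _ : Algebra R S := Algebra.TensorProduct.rightAlgebra
  have h6 : IsLocalization.Away (algebraMap A R a) S := by
    have h7 : IsLocalization (Algebra.algebraMapSubmonoid R (Submonoid.powers a)) S :=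
      IsLocalization.tensorRight B (Submonoid.powers a)
    rw [Algebra.algebraMapSubmonoid, Submonoid.map_powers] at h7
    exact h7
  let e : Localization.Away (algebraMap A R a) ≃ₐ[R] S :=
    IsLocalization.algEquiv (Submonoid.powers (algebraMap A R a)) _ _
  have h8 : Algebra.Smooth A S := Algebra.Smooth.of_equiv (e.restrictScalars A)
  have h9 : Algebra.FormallyUnramified A B := Algebra.FormallyUnramified.of_isLocalization (Submonoid.powers a)
  exact ⟨Algebra.FormallySmooth.of_restrictScalars A B S, inferInstance⟩

end Gen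

section Ch

variable {A : Type u} [CommRing A] {n : ℕ} (I : Ideal (MvPolynomial (Fin n) A))

/-- the charts are of finite type -/
theorem chart_finiteType (J : Finset (Fin n)) : Algebra.FiniteType A (chart I J) := by
  have h1 : {z | ∃ l, ∃ j ∈ J, z * lx I J j = lx I J l}.Finite := by
    have h2 : {z | ∃ l, ∃ j ∈ J, z * lx I J j = lx I J l} ⊆
        Set.range fun p : Fin n × J => (cq I J p.1 p.2.2 : LR I J) := by
      rintro z ⟨l, j, hj, hz⟩
      refine ⟨(l, ⟨j, hj⟩), ?_⟩
      apply (lx_isUnit I J hj).mul_right_cancel
      rw [hz]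
      exact cq_mul_lx I J l hj
    exact (Set.finite_range _).subset h2
  have h3 : (chart I J).FG := by
    rw [Subalgebra.fg_def]
    exact ⟨_, h1, rfl⟩
  exact (Subalgebra.fg_iff_finiteType _).1 h3

theorem chart_isNoetherian [IsNoetherianRing A] (J : Finset (Fin n)) : IsNoetherianRing (chart I J) :=
  have := chart_finiteType I J
  Algebra.FiniteType.isNoetherianRing A _

theorem chart_finitePresentation [IsNoetherianRing A] (J : Finset (Fin n)) :
    Algebra.FinitePresentation A (chart I J) :=
  Algebra.FinitePresentation.of_finiteType.1 (chart_finiteType I J)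

variable {I}

/-- If `Proj (A[x]/I)` is smooth over `A[1/a]` then it is smooth over every `A`-algebra in which `a` is invertible. -/
theorem IsSmoothProj.of_away {B : Type v} [CommRing B] (hI : IsHomog I) {a : A}
    (hs : IsSmoothProj (bI (algebraMap A (Localization.Away a)) I)) (φ : A →+* B) (hφ : IsUnit (φ a)) :
    IsSmoothProj (bI φ I) := by
  have h1 := (hs.map (hI.map _) (IsLocalization.Away.lift a hφ : Localization.Away a →+* B))
  rw [bI_bI] at h1
  have h2 : (IsLocalization.Away.lift a hφ : Localization.Away a →+* B).comp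
      (algebraMap A (Localization.Away a)) = φ := IsLocalization.Away.lift_comp a hφ
  rw [h2] at h1
  exact h1

/-- Spreading out of smoothness. -/
theorem IsSmoothProj.exists_away [IsDomain A] [IsNoetherianRing A] {K : Type w} [Field K] (hI : IsHomog I)
    (j : A →+* K) (hj : Function.Injective j) (hs : IsSmoothProj (bI j I)) :
    ∃ a : A, a ≠ 0 ∧ IsSmoothProj (bI (algebraMap A (Localization.Away a)) I) := by
  let _ := j.toAlgebra
  have h1 : ∀ i : Fin n, ∃ a : A, a ≠ 0 ∧
      Algebra.Smooth (Localization.Away a) (Localization.Away a ⊗[A] chart I {i}) := by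
    intro i
    have h2 := hs i
    have h3 : Algebra.Smooth K (K ⊗[A] chart I {i}) :=
      Algebra.Smooth.of_equiv (bce (B := K) hI (Finset.singleton_nonempty i)).symm
    have h4 : Algebra.Smooth (FractionRing A) (FractionRing A ⊗[A] chart I {i}) := smooth_frac hj
    have h5 := chart_finitePresentation I {i}
    exact exists_smooth_base (chart I {i})
  choose a ha0 ha using h1
  refine ⟨∏ i, a i, Finset.prod_ne_zero_iff.2 fun i _ => ha0 i, fun i => ?_⟩
  have h2 := ha i
  have h3 : Algebra.Smooth (Localization.Away (a i)) (chart (bI (algebraMap A (Localization.Away (a i))) I) {i}) :=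
    Algebra.Smooth.of_equiv (bce (B := Localization.Away (a i)) hI (Finset.singleton_nonempty i))
  let B := Localization.Away (∏ i, a i)
  have hu : IsUnit (algebraMap A B (a i)) := by
    have h4 : IsUnit (algebraMap A B (∏ i, a i)) := IsLocalization.Away.algebraMap_isUnit _
    exact isUnit_of_dvd_unit (map_dvd _ (Finset.dvd_prod_of_mem a (Finset.mem_univ i))) h4
  let ψ : Localization.Away (a i) →+* B := IsLocalization.Away.lift (a i) hu
  have h5 : ψ.comp (algebraMap A (Localization.Away (a i))) = algebraMap A B := IsLocalization.Away.lift_comp (a i) hu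
  rw [← h5, ← bI_bI]
  let _ := ψ.toAlgebra
  have h6 : Algebra.Smooth B (B ⊗[Localization.Away (a i)] chart (bI (algebraMap A (Localization.Away (a i))) I) {i}) :=
    inferInstance
  exact Algebra.Smooth.of_equiv (bce (B := B) (hI.map _) (Finset.singleton_nonempty i))

end Ch

end MPadcGP
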