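import Pool.Agent.Lib.MP_adc574_ag_GP.Parts2
import Pool.Agent.Lib.MP_adc574_ag_GP.GlGen
import Pool.Agent.Lib.MP_adc574_ag_GP.Lifts

/-!
# GP2: general position in coordinates (PART W4, helper2)
-/

set_option autoImplicit false
set_option linter.unusedSectionVars false

namespace MPadcGP

universe u v w x

section pushW

variable {A : Type u} {B : Type w} [CommRing A] [CommRing B] {n : ℕ} {f : A →+* B}
  {X : CovD.{u, v} A n} {Y : CovD.{w, x} B n} {F : CovD.Hm f X Y} {M : Type} [AddCommGroup M]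
  [Fintype M] [DecidableEq M] {W : GrX Y M}
  {β : ℕ × M → Type} [∀ a, Fintype (β a)] {lev : ∀ a, β a → ℕ} {z : ∀ a, β a → X.Ch}
  (h : IsAdW W lev fun a b => F.push (z a b))

theorem IsAdW.cl_eq_crd (a : ℕ × M) (c : ↥(Y.Zc a.1)) (g : β a → B)
    (hc : (c : Y.Ch) - ∑ b, g b • F.push (z a b) ∈ Y.Bc a.1) : Y.cl a.1 c = h.crd a g := by
  rw [IsAdW.crd_eq, CovD.cl_eq, IsAdW.lc_coe]
  exact hc

theorem IsAdW.sub_lc_mem {a : ℕ × M} {c : ↥(Y.Zc a.1)} {g : β a → B}
    (hc : Y.cl a.1 c = h.crd a g) :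
    (c : Y.Ch) - ∑ b, g b • F.push (z a b) ∈ Y.Bc a.1 := by
  rw [IsAdW.crd_eq, CovD.cl_eq, IsAdW.lc_coe] at hc
  exact hc

/-- The product in coordinates. -/
theorem glgenW_cup {mu : ∀ a a', β a → β a' → β (a + a') → A}
    (hmu : ∀ a a' b b', X.cup (z a b) (z a' b') - ∑ c, mu a a' b b' c • z (a + a') c ∈
      X.Bc (a.1 + a'.1))
    {a a' : ℕ × M} {x : β a → B} {y : β a' → B} {t : Y.HdR (a + a').1}
    (ht : Y.cupRel a.1 a'.1 (h.crd a x) (h.crd a' y) t) :
    t = h.crd (a + a') (fun c => ∑ b, ∑ b', f (mu a a' b b' c) * (x b * y b')) := by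
  obtain ⟨d, e, c, hde, hd, he, rfl⟩ := ht
  refine h.cl_eq_crd (a + a') c _ ?_
  have ha' := h.sub_lc_mem hd
  have hb' := h.sub_lc_mem he
  have hza : ∑ b, x b • F.push (z a b) ∈ Y.Zc a.1 := (h.lc a x).2
  have h1 := CovD.cup_sub_mem_Bc e.2 hza ha' hb'
  rw [hde] at h1
  have h2 : Y.cup (∑ b, x b • F.push (z a b)) (∑ b, y b • F.push (z a' b)) -
      ∑ c, (∑ b, ∑ b', f (mu a a' b b' c) * (x b * y b')) • F.push (z (a + a') c) ∈
        Y.Bc (a.1 + a'.1) := by
    have e1 : Y.cup (∑ b, x b • F.push (z a b)) (∑ b, y b • F.push (z a' b)) =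
        ∑ b, ∑ b', (x b * y b') • F.push (X.cup (z a b) (z a' b')) := by
      rw [CovD.cup_sum_left]
      refine Finset.sum_congr rfl fun a _ => ?_
      rw [CovD.cup_sum_right]
      refine Finset.sum_congr rfl fun b _ => ?_
      rw [CovD.cup_smul_left, CovD.cup_smul_right, smul_smul, CovD.Hm.push_cup]
    have e2 : ∑ c, (∑ b, ∑ b', f (mu a a' b b' c) * (x b * y b')) • F.push (z (a + a') c) =
        ∑ b, ∑ b', (x b * y b') • F.push (∑ c, mu a a' b b' c • z (a + a') c) := by
      simp only [Finset.sum_smul]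
      rw [Finset.sum_comm]
      refine Finset.sum_congr rfl fun b _ => ?_
      rw [Finset.sum_comm]
      refine Finset.sum_congr rfl fun b' _ => ?_
      rw [push_lin, Finset.smul_sum]
      refine Finset.sum_congr rfl fun c _ => ?_
      rw [smul_smul, mul_comm]
    rw [e1, e2, ← Finset.sum_sub_distrib]
    refine Submodule.sum_mem _ fun b _ => ?_
    rw [← Finset.sum_sub_distrib]
    refine Submodule.sum_mem _ fun b' _ => ?_
    rw [← smul_sub, ← map_sub]
    exact Submodule.smul_mem _ _ (push_mem_Bc (hmu a a' b b'))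
  have h3 := Submodule.add_mem _ h1 h2
  rw [sub_add_sub_cancel] at h3
  exact h3

/-- The connection in coordinates. -/
theorem glgenW_nab {N : ℕ} {D : Fin N → Derivation ℤ A A} (V : ∀ l, Lft X (D l))
    {G : ∀ a, Fin N → β a → β a → A}
    (hG : ∀ a l b, (V l).Gm (z a b) - ∑ b', G a l b' b • z a b' ∈ X.Bc a.1)
    (hz : ∀ a b, z a b ∈ X.Tt a.1) {D' : Derivation ℤ B B} (α : Fin N → B) (V'' : Lft Y D')
    (hc : ∀ K J : Finset (Fin n), K.Nonempty → K ⊆ J → ∀ x : X.R J,
      V''.V K J (F.h J x) = ∑ l, algebraMap B (Y.R J) (α l) * F.h J ((V l).V K J x))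
    {a : ℕ × M} {x : β a → B} {y : Y.HdR a.1} (hy : Y.gaussManin a.1 D' (h.crd a x) y) :
    y = h.crd a (fun b' => D' (x b') + ∑ l, α l * ∑ b, f (G a l b' b) * x b) := by
  obtain ⟨V', c, c', hV, hcx, rfl⟩ := hy
  apply h.cl_eq_crd
  rw [← hV]
  have h1 := V'.Gm_sub_mem_Bc V'' c.2
  have h2 := h.sub_lc_mem hcx
  have h3 := V''.Gm_mem_Bc h2
  rw [Lft.Gm_sub] at h3
  have h4 := Submodule.add_mem _ h1 h3
  rw [sub_add_sub_cancel] at h4
  have h5 : V''.Gm (∑ b, x b • F.push (z a b)) -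
      ∑ b', (D' (x b') + ∑ l, α l * ∑ b, f (G a l b' b) * x b) • F.push (z a b') ∈
        Y.Bc a.1 := by
    have hz0 : ∀ b, F.push (z a b) ∅ = 0 := fun b => (CovD.Hm.push_mem_Tt (hz a b)).1
    have e1 : V''.Gm (∑ b, x b • F.push (z a b)) =
        ∑ b, ∑ l, (x b * α l) • F.push ((V l).Gm (z a b)) + ∑ b, D' (x b) • F.push (z a b) := by
      rw [Lft.Gm_sum, ← Finset.sum_add_distrib]
      refine Finset.sum_congr rfl fun b _ => ?_
      rw [Lft.Gm_smul _ (hz0 b), CovD.Hm.push_Gm_comb V α V'' hc (hz a b).1, Finset.smul_sum]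
      congr 1
      refine Finset.sum_congr rfl fun l _ => ?_
      rw [smul_smul]
    have e2 : ∑ b', (D' (x b') + ∑ l, α l * ∑ b, f (G a l b' b) * x b) • F.push (z a b') =
        ∑ b, ∑ l, (x b * α l) • F.push (∑ b', G a l b' b • z a b') +
          ∑ b, D' (x b) • F.push (z a b) := by
      simp only [add_smul]
      rw [Finset.sum_add_distrib, add_comm]
      congr 1
      simp only [push_lin, Finset.smul_sum, smul_smul, Finset.sum_smul, Finset.mul_sum]
      rw [Finset.sum_comm]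
      rw [Finset.sum_congr rfl fun l _ => Finset.sum_comm, Finset.sum_comm]
      refine Finset.sum_congr rfl fun b _ => Finset.sum_congr rfl fun l _ =>
        Finset.sum_congr rfl fun b' _ => ?_
      congr 1
      ring
    rw [e1, e2, add_sub_add_right_eq_sub, ← Finset.sum_sub_distrib]
    refine Submodule.sum_mem _ fun b _ => ?_
    rw [← Finset.sum_sub_distrib]
    refine Submodule.sum_mem _ fun l _ => ?_
    rw [← smul_sub, ← map_sub]
    exact Submodule.smul_mem _ _ (push_mem_Bc (hG a l b))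
  have h6 := Submodule.add_mem _ h4 h5
  rw [sub_add_sub_cancel] at h6
  exact h6

end pushW

section gpW

/-- General position, with the dimension as a variable. -/
private theorem glgenW_cast {k : Type u} [Field k] {ι : Type*} [Add ι] {H : ι → Type v}
    [∀ a, AddCommGroup (H a)]
    [∀ a, Module k (H a)] {nab : ∀ a, Derivation ℤ k k → H a → H a → Prop}
    {Fl : ∀ a, ℕ → Submodule k (H a)} {cup : ∀ a a', H a → H a' → H (a + a') → Prop}
    {lg : ∀ a, ℕ → Set (H a)} (h : MPadcGP2.InGeneralPosition nab Fl cup lg)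
    {P : ∀ a, ℕ → Submodule k (H a)}
    (hP : MPadcGP2.IsConjugateType Fl cup lg P) (n : ι) (i r : ℕ)
    (hr : Module.finrank k (Fl n (i + 1)) = r)
    (W : Submodule k (H n [⋀^Fin r]→ₗ[k] k)) (hW : IsHorizontal (nab n) W)
    (hW' : ∃ ω ∈ W, ω ≠ 0 ∧ ∀ x, (∃ u, x u ∈ P n i) → ω x = 0) :
    ∃ ω ∈ W, ∃ x, (∀ u, x u ∈ Fl n (i + 1)) ∧ ω x ≠ 0 := by
  subst hr
  exact h P hP n i W hW hW'

/-- Transport of general position along linear equivalences. -/
private theorem glgenW_transport {k : Type u} [Field k] {ι : Type*} [Add ι] {H : ι → Type v}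
    [∀ n, AddCommGroup (H n)]
    [∀ n, Module k (H n)] {nab : ∀ n, Derivation ℤ k k → H n → H n → Prop}
    {Fl : ∀ n, ℕ → Submodule k (H n)} {cup : ∀ n n', H n → H n' → H (n + n') → Prop}
    {lg : ∀ n, ℕ → Set (H n)} (h : MPadcGP2.InGeneralPosition nab Fl cup lg)
    {H' : ι → Type w} [∀ n, AddCommGroup (H' n)]
    [∀ n, Module k (H' n)] {nab' : ∀ n, Derivation ℤ k k → H' n → H' n → Prop}
    {Fl' : ∀ n, ℕ → Submodule k (H' n)} {cup' : ∀ n n', H' n → H' n' → H' (n + n') → Prop}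
    {lg' : ∀ n, ℕ → Set (H' n)} (e : ∀ n, H' n ≃ₗ[k] H n)
    (hFl : ∀ n i x, e n x ∈ Fl n i ↔ x ∈ Fl' n i)
    (hnab : ∀ n D x y, nab n D (e n x) (e n y) → nab' n D x y)
    (hcup : ∀ n n' x y z, cup n n' (e n x) (e n' y) (e (n + n') z) → cup' n n' x y z)
    (hlg : ∀ (P : ∀ n, ℕ → Submodule k (H' n)), (∀ n j, ∀ x ∈ lg' n j, x ∈ P n j) →
      ∀ n j, ∀ x, e n x ∈ lg n j → x ∈ P n j) :
    MPadcGP2.InGeneralPosition nab' Fl' cup' lg' := by
  intro P hP n i W hW hWP
  have hmap : ∀ n i x, e n x ∈ (P n i).map (e n).toLinearMap ↔ x ∈ P n i := by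
    intro n i x
    constructor
    · rintro ⟨y, hy, hyx⟩
      have h1 : y = x := (e n).injective hyx
      rw [← h1]
      exact hy
    · intro hx
      exact ⟨x, hx, rfl⟩
  have hFl2 : ∀ n i, Fl n i = (Fl' n i).map (e n).toLinearMap := by
    intro n i
    ext x
    obtain ⟨y, rfl⟩ := (e n).surjective x
    rw [hFl]
    constructor
    · intro hy
      exact ⟨y, hy, rfl⟩
    · rintro ⟨y', hy', he⟩
      have h1 : y' = y := (e n).injective he
      rw [← h1]
      exact hy'
  have hfr : ∀ n i, Module.finrank k (Fl n i) = Module.finrank k (Fl' n i) := by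
    intro n i
    rw [hFl2]
    exact LinearEquiv.finrank_map_eq (e n) (Fl' n i)
  have hP' : MPadcGP2.IsConjugateType Fl cup lg fun n i => (P n i).map (e n).toLinearMap := by
    refine ⟨fun n i => Submodule.map_mono (hP.mono n i), fun n i => ?_, ?_, ?_⟩
    · have h1 : Module.finrank k ((P n i).map (e n).toLinearMap) = Module.finrank k (P n i) :=
        LinearEquiv.finrank_map_eq (e n) (P n i)
      rw [h1, hfr, ← (e n).finrank_eq]
      exact hP.dim n i
    · rintro n n' i i' _ ⟨x, hx, rfl⟩ _ ⟨y, hy, rfl⟩ z hz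
      obtain ⟨z, rfl⟩ := (e (n + n')).surjective z
      exact ⟨z, hP.mul n n' i i' x hx y hy z (hcup n n' x y z hz), rfl⟩
    · intro n j x hx
      obtain ⟨x, rfl⟩ := (e n).surjective x
      exact (hmap n j x).2 (hlg P hP.log n j x hx)
  let E := AlternatingMap.domLCongr k k (Fin (Module.finrank k (Fl' n (i + 1)))) k (e n)
  have hE : ∀ ω x, E ω x = ω fun u => (e n).symm (x u) := fun ω x => rfl
  obtain ⟨ω, hω, x, hx, hne⟩ := glgenW_cast h hP' n i _ (hfr n (i + 1))
    (W.map E.toLinearMap) (by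
      rintro D _ ⟨ω, hω, rfl⟩
      obtain ⟨ω', hω', hD⟩ := hW D ω hω
      refine ⟨E ω', ⟨ω', hω', rfl⟩, fun x y hxy => ?_⟩
      have h1 := hD (fun u => (e n).symm (x u)) (fun u => (e n).symm (y u)) (fun u => hnab n D _ _ (by
        rw [LinearEquiv.apply_symm_apply, LinearEquiv.apply_symm_apply]
        exact hxy u))
      rw [hE, h1]
      change _ = D (E ω x) - ∑ u, E ω (Function.update x u (y u))
      rw [hE]
      congr 1
      refine Finset.sum_congr rfl fun u _ => ?_
      rw [hE]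
      congr 1
      funext v
      rcases eq_or_ne v u with hv | hv
      · subst hv
        rw [Function.update_self, Function.update_self]
      · rw [Function.update_of_ne hv, Function.update_of_ne hv]) (by
      obtain ⟨ω, hω, hω0, hωP⟩ := hWP
      refine ⟨E ω, ⟨ω, hω, rfl⟩, ?_, ?_⟩
      · intro h0
        exact hω0 (E.map_eq_zero_iff.1 h0)
      · rintro x ⟨u, hu⟩
        rw [hE]
        refine hωP _ ⟨u, ?_⟩
        rw [← hmap, LinearEquiv.apply_symm_apply]
        exact hu)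
  obtain ⟨ω, hω, rfl⟩ := hω
  refine ⟨ω, hω, fun u => (e n).symm (x u), fun u => ?_, hne⟩
  rw [← hFl, LinearEquiv.apply_symm_apply]
  exact hx u

end gpW

section

variable {M : Type} [AddCommGroup M] [Fintype M] [DecidableEq M]

section

variable {A : Type u} [CommRing A] {n : ℕ} {I : Ideal (MvPolynomial (Fin n) A)} {wt : Fin n → M}
  {hI : IsHomog I} {hw : IsWHomog wt I} {β : ℕ × M → Type}
  [∀ a, Fintype (β a)] [∀ a, DecidableEq (β a)] {lev : ∀ a, β a → ℕ}
  {z : ∀ a, β a → (prC I).Ch} {h : ℕ → ℕ → ℕ}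

/-- PART W4: general position in coordinates. -/
theorem gen_of_relW {k : Type u} [Field k] {A : Subalgebra ℤ k} {n : ℕ}
    {I : Ideal (MvPolynomial (Fin n) A)} {wt : Fin n → M}
    {hI : IsHomog I} {hw : IsWHomog wt I} {z : ∀ a, β a → (prC I).Ch}
    (hD : DatW hI hw lev z h) {N : ℕ} {D : Fin N → Derivation ℤ A A} (hg : Good' A D)
    (V : ∀ l, Lft (prC I) (D l)) (hV : ∀ l, (grP hI hw).IsGr (V l)) {G : ∀ a, Fin N → β a → β a → A}
    {mu : ∀ a a', β a → β a' → β (a + a') → A} {Lg : ∀ a : ℕ × M, ℕ → Set (β a → A)}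
    (hR : LinRelW (grP hI hw) z V G mu Lg) (S : ∀ _ _ : ℕ, Set (prC I).Ch)
    (hSL : ∀ (a : ℕ × M) j, ∀ c ∈ S a.1 j, ∃ g ∈ Lg a j,
      (grP hI hw).P a.2 c - ∑ b, g b • z a b ∈ (prC I).Bc a.1)
    (hS : ∀ m j, ∀ x, IsLogCoc (prC (bI (algebraMap A k) I)) m j x →
          x ∈ Submodule.span k ((prH (algebraMap A k) _).push '' S m j) ⊔ CovD.Bc _ m)
    (hgen : (grP (hI.map (algebraMap A k)) (hw.map (algebraMap A k))).IsGeneralW) :
    (mkLinW lev D G mu Lg hD.bound').Gen (algebraMap A k) := by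
  have had := hD.ad k (algebraMap A k)
  let i1 : ∀ a : ℕ × M, AddCommGroup
      ↥((grP (hI.map (algebraMap A k)) (hw.map (algebraMap A k))).HW a.1 a.2) :=
    fun _ => inferInstance
  let i2 : ∀ a : ℕ × M, Module k
      ↥((grP (hI.map (algebraMap A k)) (hw.map (algebraMap A k))).HW a.1 a.2) :=
    fun _ => inferInstance
  refine glgenW_transport (H := fun a : ℕ × M =>
    ↥((grP (hI.map (algebraMap A k)) (hw.map (algebraMap A k))).HW a.1 a.2))
    hgen (fun a => had.eqv a) ?_ ?_ ?_ ?_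
  · intro a i x
    change ((had.eqv a x : _) : (prC (bI (algebraMap A k) I)).HdR a.1) ∈
      (prC (bI (algebraMap A k) I)).Fil a.1 i ↔ _
    rw [had.eqv_coe, had.crd_mem_Fil]
    exact Iff.rfl
  · intro a D' x y hxy
    obtain ⟨α, hα⟩ := hg.der D'
    obtain ⟨V'', hV''⟩ := exists_lft_map hI (algebraMap A k) D V α D' hα
    have h1 := glgenW_nab had V hR.gm (fun a b => (hD.self.mem a b).1) α V'' hV'' hxy
    have h2 := had.crd_injective a h1
    exact ⟨α, hα, fun b' => congrFun h2 b'⟩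
  · intro a a' x y t ht
    exact had.crd_injective (a + a') (glgenW_cup had hR.cup ht)
  · intro P hP a j x hx
    obtain ⟨c, c', hc, hcc', hcx⟩ := hx
    have h1 : (c : (prC (bI (algebraMap A k) I)).Ch) ∈
        Submodule.span k ((prH (algebraMap A k) I).push '' S a.1 j) ⊔ CovD.Bc _ a.1 :=
      hS a.1 j _ hc
    -- the classes of the components of the elements of the span are in `P`
    have h2 : ∀ y ∈ Submodule.span k ((prH (algebraMap A k) I).push '' S a.1 j),
        ∃ g ∈ P a j, (grP (hI.map (algebraMap A k)) (hw.map (algebraMap A k))).P a.2 y -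
          ∑ b, g b • (prH (algebraMap A k) I).push (z a b) ∈
          (prC (bI (algebraMap A k) I)).Bc a.1 := by
      intro y hy
      induction hy using Submodule.span_induction with
      | mem y hy =>
        obtain ⟨c', hc', rfl⟩ := hy
        obtain ⟨g, hgL, hgc⟩ := hSL a j c' hc'
        refine ⟨fun b => algebraMap A k (g b), hP a j _ ⟨g, hgL, rfl⟩, ?_⟩
        have h3 := push_mem_Bc (F := prH (algebraMap A k) I) hgc
        rw [map_sub, push_lin, (prH_gr (algebraMap A k) hI hw).push_P] at h3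
        exact h3
      | zero =>
        refine ⟨0, Submodule.zero_mem _, ?_⟩
        simp only [Pi.zero_apply, zero_smul, Finset.sum_const_zero, sub_zero, map_zero]
        exact Submodule.zero_mem _
      | add y y' _ _ ih ih' =>
        obtain ⟨g, hg1, hg2⟩ := ih
        obtain ⟨g', hg1', hg2'⟩ := ih'
        refine ⟨g + g', Submodule.add_mem _ hg1 hg1', ?_⟩
        have h3 := Submodule.add_mem _ hg2 hg2'
        simp only [Pi.add_apply, add_smul, Finset.sum_add_distrib, map_add]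
        rw [add_sub_add_comm]
        exact h3
      | smul r y _ ih =>
        obtain ⟨g, hg1, hg2⟩ := ih
        refine ⟨r • g, Submodule.smul_mem _ _ hg1, ?_⟩
        have h3 := Submodule.smul_mem _ r hg2
        simp only [Pi.smul_apply, smul_assoc, map_smul]
        rw [← Finset.smul_sum, ← smul_sub]
        exact h3
    obtain ⟨y, hy, y', hy', hyy⟩ := Submodule.mem_sup.1 h1
    obtain ⟨g, hgP, hgy⟩ := h2 y hy
    have h4 : (c' : (prC (bI (algebraMap A k) I)).Ch) -
        ∑ b, g b • (prH (algebraMap A k) I).push (z a b) ∈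
          (prC (bI (algebraMap A k) I)).Bc a.1 := by
      rw [hcc', ← hyy, map_add, add_sub_right_comm]
      exact Submodule.add_mem _ hgy (GrX.P_mem_Bc _ hy' a.2)
    have h5 := had.cl_eq_crd a c' g h4
    rw [hcx] at h5
    rw [had.crd_injective a h5]
    exact hgP

end

end

end MPadcGP
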