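import Pool.Agent.Lib.MP_adc574_ag_GP.Parts2
import Pool.Agent.Lib.MP_adc574_ag_GP.DegP

/-!
# GP2, part W2: dimensions of the conjugate filtration per weight (helper59)
-/

set_option autoImplicit false
set_option linter.unusedSectionVars false

namespace MPadcGP

universe u v w x

section

variable {M : Type} [AddCommGroup M] [Fintype M] [DecidableEq M]

/-- PART W2 (helper59): dimensions of the conjugate filtration per weight. -/
theorem conj_dimW {p : ℕ} [Fact p.Prime] {κ : Type u} [Field κ] [CharP κ p] {L : Type} [Fintype L]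
    {b : L → κ} (hb : PBas p b) {n : ℕ} {I : Ideal (MvPolynomial (Fin n) κ)} (hI : IsHomog I)
    (hs : IsSmoothProj I) {wt : Fin n → M} (hw : IsWHomog wt I)
    (hM : Function.Injective fun μ : M => p • μ)
    (hf : ∀ q m, FiniteDimensional κ (HH (prC I).Dt ((prC I).Fi (q + 1)) ((prC I).Fi q) m))
    (hsum : ∀ m, ∑ q ∈ Finset.range (m + 1),
      Module.finrank κ (HH (prC I).Dt ((prC I).Fi (q + 1)) ((prC I).Fi q) m) ≤
        Module.finrank κ ((prC I).HdR m)) (m i : ℕ) (μ : M) :
    Module.finrank κ ↥((prC I).Con m i ⊓ (grP hI hw).HW m (p • μ)) +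
      Module.finrank κ ↥((prC I).Fil m (i + 1) ⊓ (grP hI hw).HW m μ) =
        Module.finrank κ ↥((grP hI hw).HW m μ) := by
  have hc : ∀ J : Finset (Fin n), J.Nonempty → CarP p b ((prC I).R J) := by
    intro J hJ
    have : Algebra.Smooth κ ((prC I).R J) := IsSmoothProj.smooth hI hs hJ
    exact carP_of_smooth hb
  have hW : ∀ ν, (grP hI hw).HW m ν = (prC I).cln ((grP hI hw).Wt ν) m := fun ν => rfl
  rw [hW, hW, CovD.Con_eq_cln, CovD.Fil_eq_cln,
    CovD.cln_inf (grP hI hw).isDec (grP hI hw).isSt_Tt (fun ν x hx => (grP hI hw).isSt_Ni i ν m x hx),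
    CovD.cln_inf (grP hI hw).isDec (grP hI hw).isSt_Tt (fun ν x hx => (grP hI hw).isSt_Fi (i + 1) ν m x hx)]
  exact (grP hI hw).finrank_add hM hf hsum hc i m μ

end

end MPadcGP
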