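import Pool.Agent.Lib.MP_adc574_ag_GP.Rep

/-!
# The Cartier isomorphism as a property of an algebra (helper88)

`κ` has the finite `p`-basis `b : L → κ`. `CarP p b R`: every closed form `ω` of degree `a` on `R` is
`∑ b_l z_l` up to an exact form, where `z_l` represents `γ (x_l)`, `x_l` of degree `a`; and `∑ b_l γ (x_l) = 0`
only for `x = 0`.
-/

set_option autoImplicit false

namespace MPadcGP

universe u v w x

/-- The family `b` is a finite `p`-basis of `κ`: every `c` is `∑ c_l ^ p * b_l` with unique `c_l`. -/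
def PBas (p : ℕ) {κ : Type u} [CommRing κ] {L : Type} [Fintype L] (b : L → κ) : Prop :=
  ∀ c : κ, ∃! a : L → κ, c = ∑ l, a l ^ p * b l

section

variable (p : ℕ) [hp : Fact p.Prime] {κ : Type u} [Field κ] [CharP κ p] {L : Type} [Fintype L] (b : L → κ)
  (R : Type v) [CommRing R] [Algebra κ R]

/-- The Cartier isomorphism for `R`. -/
structure CarP : Prop where
  surj : ∀ (a : ℕ) (ω : Fm κ R), ω ∈ Fd κ R a → dd κ ω = 0 → ∃ x z : L → Fm κ R, (∀ l, x l ∈ Fd κ R a) ∧
    (∀ l, z l ∈ Fd κ R a) ∧ (∀ l, Rep p (x l) (z l)) ∧ ω - ∑ l, b l • z l ∈ exq κ R a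
  inj : ∀ x z : L → Fm κ R, (∀ l, Rep p (x l) (z l)) → (∃ g, dd κ g = ∑ l, b l • z l) → ∀ l, x l = 0

variable {p b R}

/-- For a perfect field: every ring endomorphism of the forms which lifts `γ` induces the Cartier isomorphism. -/
theorem CarP.lift (h : CarP p (fun _ : Unit => (1 : κ)) R) (F : Fm κ R →+* Fm κ R)
    (h1 : ∀ r, F (fz κ r) = fz κ (r ^ p))
    (h2 : ∀ t, ∃ u, F (df κ t) = fz κ (t ^ (p - 1)) * df κ t + df κ u) :
    (∀ e ∈ Fd κ R 0, F e = 0 → e = 0) ∧
    (∀ q, ∀ e ∈ Fd κ R (q + 1), (∃ b ∈ Fd κ R q, F e = dd κ b) → e = 0) ∧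
    (∀ w ∈ Fd κ R 0, dd κ w = 0 → ∃ e ∈ Fd κ R 0, w = F e) ∧
    (∀ q, ∀ w ∈ Fd κ R (q + 1), dd κ w = 0 → ∃ e ∈ Fd κ R (q + 1), ∃ b ∈ Fd κ R q, w = F e + dd κ b) := by
  have hR : ∀ x : Fm κ R, Rep p x (F x) := by
    intro x
    induction x using fm_ind with
    | h1 r =>
      rw [h1]
      exact Rep.fz r
    | h2 t =>
      obtain ⟨u, hu⟩ := h2 t
      rw [hu]
      have := (Rep.df (p := p) (A := κ) t).add (Rep.of_exact (p := p) ⟨fz κ u, dd_fz κ u⟩)
      rwa [add_zero] at this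
    | h3 a b ha hb =>
      rw [map_mul]
      exact ha.mul hb
    | h4 a b ha hb =>
      rw [map_add]
      exact ha.add hb
  have hdeg : ∀ (q : ℕ) (x : Fm κ R), x ∈ Fd κ R q → F x ∈ Fd κ R q := by
    have hd1 : ∀ t, F (df κ t) ∈ Fd κ R 1 := by
      intro t
      obtain ⟨u, hu⟩ := h2 t
      rw [hu]
      exact Submodule.add_mem _ (fz_mul_mem _ (df_mem t)) (df_mem u)
    have hwd : ∀ (q : ℕ) (t : Fin q → R), F (wd κ t) ∈ Fd κ R q := by
      intro q
      induction q with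
      | zero =>
        intro t
        rw [wd_zero, map_one, ← map_one (fz κ)]
        exact fz_mem 1
      | succ q ih =>
        intro t
        have h3 : F (df κ (t 0)) * F (wd κ (Fin.tail t)) ∈ Fd κ R (1 + q) := fd_mul (hd1 _) (ih _)
        have h4 : 1 + q = q + 1 := add_comm 1 q
        rw [h4] at h3
        rw [wd_succ, map_mul]
        exact h3
    intro q x hx
    refine fd_ind (P := fun x => F x ∈ Fd κ R q) ?_ ?_ ?_ hx
    · rw [map_zero]
      exact Submodule.zero_mem _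
    · intro r t
      rw [map_mul, h1]
      exact fz_mul_mem _ (hwd q t)
    · intro a b ha hb
      rw [map_add]
      exact Submodule.add_mem _ ha hb
  have hinj : ∀ x : Fm κ R, (∃ g, dd κ g = F x) → x = 0 := by
    intro x ⟨g, hg⟩
    refine h.inj (fun _ => x) (fun _ => F x) (fun _ => hR x) ⟨g, ?_⟩ ()
    rw [Finset.univ_unique, Finset.sum_singleton, one_smul]
    exact hg
  have hsurj : ∀ (a : ℕ) (ω : Fm κ R), ω ∈ Fd κ R a → dd κ ω = 0 → ∃ x ∈ Fd κ R a, ω - F x ∈ exq κ R a := by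
    intro a ω hω hd
    obtain ⟨x, z, hx, hz, hxz, hex⟩ := h.surj a ω hω hd
    rw [Finset.univ_unique, Finset.sum_singleton, one_smul] at hex
    refine ⟨x default, hx _, ?_⟩
    have h3 := (hxz default).exact_sub (hR (x default))
    have h4 : z default - F (x default) ∈ exq κ R a :=
      mem_exq_of_exact (Submodule.sub_mem _ (hz _) (hdeg a _ (hx _))) h3
    have e : ω - F (x default) = (ω - z default) + (z default - F (x default)) := by abel
    rw [e]
    exact add_mem hex h4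
  refine ⟨?_, ?_, ?_, ?_⟩
  · intro e _ hFe
    exact hinj e ⟨0, by rw [hFe, map_zero]⟩
  · rintro q e _ ⟨b, _, hb⟩
    exact hinj e ⟨b, hb.symm⟩
  · intro w hw hd
    obtain ⟨x, hx, h3⟩ := hsurj 0 w hw hd
    exact ⟨x, hx, sub_eq_zero.mp (mem_exq_zero.mp h3)⟩
  · intro q w hw hd
    obtain ⟨x, hx, h3⟩ := hsurj (q + 1) w hw hd
    obtain ⟨f, hf, hf'⟩ := mem_exq_succ.mp h3
    exact ⟨x, hx, f, hf, by rw [hf']; abel⟩

end

end MPadcGP
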