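import Pool.Agent.Lib.MP_adc574_ag_GP.DId2

/-!
# Deligne-Illusie IX (helper59): the graded pieces of the conjugate and of the Hodge filtration

`gr_equiv`: `Psi` induces an isomorphism of the cohomology of `Fi a / Fi (a + 1)` with the cohomology of
`NN (a + 1) / NN a`.
-/

set_option autoImplicit false

namespace MPadcGP

universe v w

namespace LiftD

variable {p : ℕ} {n : ℕ} {X : CovD.{0, v} (ZMod p) n} {hp : p.Prime} {L : LiftD.{v, w} p X}

/-- `Psi` is injective on the cohomology of the graded pieces. -/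
theorem exists_inj [Fact p.Prime] (L : LiftD.{v, w} p X)
    (hC : ∀ J : Finset (Fin n), J.Nonempty → IsCart p (X.R J))
    (hd : ∀ J : Finset (Fin n), J.Nonempty → ∀ q, p ≤ q → ∀ e ∈ Fd (ZMod p) (X.R J) q, e = 0)
    {a m : ℕ} {c : X.Ch} (hcT : c ∈ X.Tt m)
    (hcz : ∀ K : Finset (Fin n), K.card + a ≠ m + 1 → c K = 0)
    (h : L.Psi hp c ∈ BB X.Dt (NN X a) (NN X (a + 1)) m) :
    ∃ y ∈ pr X.Tt m, (∀ K : Finset (Fin n), K.card + a ≠ m → y K = 0) ∧ c = X.del (X.ic y) := by
  obtain ⟨s, hs, z, hz, hsz⟩ := mem_BB.1 h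
  have hsJ : ∀ J : Finset (Fin n), J.card + a = m + 1 → s J = 0 := by
    intro J hJ
    cases a with
    | zero =>
      have h1 : s = 0 := hs
      rw [h1]
      rfl
    | succ q =>
      have h1 : s ∈ X.Ni q m := hs
      exact (h1.2 J).1 (by omega)
  -- properties of z
  have hz0 : z ∅ = 0 := by
    cases m with
    | zero =>
      have h1 : z = 0 := hz
      rw [h1]
      rfl
    | succ m' =>
      have h1 : z ∈ X.Ni a m' := hz
      exact h1.1.1
  have hz1 : ∀ J : Finset (Fin n), J.card + a = m → z J ∈ Fd (ZMod p) (X.R J) a ∧ dd (ZMod p) (z J) = 0 := by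
    intro J hJ
    cases m with
    | zero =>
      have h1 : z = 0 := hz
      rw [h1, Pi.zero_apply, map_zero]
      exact ⟨Submodule.zero_mem _, rfl⟩
    | succ m' =>
      have h1 : z ∈ X.Ni a m' := hz
      exact ⟨(h1.1.2 J).1 a (by omega), (h1.2 J).2 hJ⟩
  have hz2 : ∀ J : Finset (Fin n), J.card + a = m + 1 → dd (ZMod p) (z J) ∈ EX (ZMod p) (X.R J) a := by
    intro J hJ
    cases m with
    | zero =>
      have h1 : z = 0 := hz
      rw [h1, Pi.zero_apply, map_zero]
      exact AddSubgroup.zero_mem _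
    | succ m' =>
      have h1 : z ∈ X.Ni a m' := hz
      cases a with
      | zero =>
        rw [(h1.1.2 J).2 (by omega), map_zero]
        exact AddSubgroup.zero_mem _
      | succ q => exact mem_EX_succ.2 ⟨z J, (h1.1.2 J).1 q (by omega), rfl⟩
  -- the cochain y
  have hsel : ∀ J : Finset (Fin n), ∃ e : X.E J,
      (∀ hJ : J.Nonempty, J.card + a = m → e ∈ Fd (ZMod p) (X.R J) a ∧
        z J - L.Phi hp J {J.max' hJ} e ∈ EX (ZMod p) (X.R J) a) ∧
      (¬ (J.Nonempty ∧ J.card + a = m) → e = 0) := by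
    intro J
    by_cases hJ : J.Nonempty ∧ J.card + a = m
    · obtain ⟨e, he, h1⟩ := cart_surj (L := L) (hp := hp) hC hd (J.max'_mem hJ.1)
        (hz1 J hJ.2).1 (hz1 J hJ.2).2
      exact ⟨e, fun _ _ => ⟨he, h1⟩, fun h2 => absurd hJ h2⟩
    · exact ⟨0, fun h1 h2 => absurd ⟨h1, h2⟩ hJ, fun _ => rfl⟩
  choose y hy1 hy2 using hsel
  have hye : y ∅ = 0 := hy2 ∅ (fun h => Finset.not_nonempty_empty h.1)
  have hyz : ∀ K : Finset (Fin n), K.card + a ≠ m → y K = 0 := fun K hK =>
    hy2 K fun h => hK h.2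
  have hyd : ∀ K : Finset (Fin n), y K ∈ Fd (ZMod p) (X.R K) a := by
    intro K
    by_cases hK : K.Nonempty ∧ K.card + a = m
    · exact (hy1 K hK.1 hK.2).1
    · rw [hy2 K hK]
      exact Submodule.zero_mem _
  have hyT : y ∈ pr X.Tt m := by
    cases m with
    | zero =>
      have h1 : y = 0 := by
        funext K
        rw [Pi.zero_apply]
        rcases K.eq_empty_or_nonempty with rfl | hKn
        · exact hye
        · have := Finset.card_pos.2 hKn
          exact hyz K (by omega)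
      rw [h1]
      exact Submodule.zero_mem _
    | succ m' =>
      change y ∈ X.Tt m'
      refine ⟨hye, fun J => ⟨fun q hq => ?_, fun h => hyz J (by omega)⟩⟩
      by_cases hqa : J.card + a = m' + 1
      · have h1 : q = a := by omega
        rw [h1]
        exact hyd J
      · rw [hyz J hqa]
        exact Submodule.zero_mem _
  -- transport
  have htr : ∀ (J K : Finset (Fin n)) (i : Fin n), J ⊆ K → i ∈ K → J.card + a = m →
      X.ev z J K - L.Phi hp K {i} (X.ev y J K) ∈ EX (ZMod p) (X.R K) a := by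
    intro J K i hJK hi hJ
    rcases J.eq_empty_or_nonempty with rfl | hJn
    · rw [CovD.ev_eq_zero hz0, CovD.ev_eq_zero hye, map_zero, sub_zero]
      exact AddSubgroup.zero_mem _
    · have h1 := rs_mem_EX hJK (hy1 J hJn hJ).2
      rw [map_sub, Phi_natural hJK hJn (Finset.singleton_subset_iff.2 (J.max'_mem hJn)) (hyd J),
        ← CovD.ev_of, ← CovD.ev_of] at h1
      have h2 := vertex (L := L) (hp := hp) (hJK (J.max'_mem hJn)) hi (CovD.ev_mem (hyd J) K)
      have h3 := AddSubgroup.add_mem _ h1 h2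
      rwa [sub_add_sub_cancel] at h3
  refine ⟨y, hyT, hyz, ?_⟩
  funext K
  rcases K.eq_empty_or_nonempty with rfl | hKn
  · rw [hcT.1, CovD.del_apply, Finset.sum_empty]
  by_cases hK : K.card + a = m + 1
  · have hcK : c K ∈ Fd (ZMod p) (X.R K) a := (hcT.2 K).1 a (by omega)
    have hi := K.max'_mem hKn
    have he : X.del (X.ic y) K ∈ Fd (ZMod p) (X.R K) a := by
      rw [CovD.del_apply]
      refine Submodule.sum_mem _ fun j _ => zsmul_mem ?_ _
      rw [CovD.ev_ic]
      exact inv_mem' (CovD.ev_mem (hyd _) K)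
    rw [← sub_eq_zero]
    refine cart_inj (L := L) (hp := hp) hC hd hi (Submodule.sub_mem _ hcK he) ?_
    have h1 : X.del (X.ic z) K - L.Phi hp K {K.max' hKn} (X.del (X.ic y) K) ∈ EX (ZMod p) (X.R K) a := by
      rw [CovD.del_apply, CovD.del_apply, map_sum, ← Finset.sum_sub_distrib]
      refine AddSubgroup.sum_mem _ fun j hj => ?_
      have hj1 := Finset.card_erase_add_one hj
      have h2 := htr (K.erase j) K _ (Finset.erase_subset _ _) hi (by omega)
      have h3 := inv_mem_EX h2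
      have h4 := Phi_inv (L := L) (hp := hp) (Finset.singleton_subset_iff.2 hi)
        ⟨K.max' hKn, Finset.mem_singleton_self _⟩ (CovD.ev_mem (hyd (K.erase j)) K)
      rw [Finset.card_singleton] at h4
      norm_num at h4
      rw [map_sub, h4] at h3
      rw [map_zsmul, ← smul_sub, CovD.ev_ic, CovD.ev_ic]
      exact AddSubgroup.zsmul_mem _ h3 _
    have h2 : L.Phi hp K {K.max' hKn} (c K) = dd (ZMod p) (z K) + X.del (X.ic z) K := by
      rw [← Psi_top hcz hK hKn, hsz, Pi.add_apply, hsJ K hK, zero_add]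
      rfl
    rw [map_sub, h2, add_sub_assoc]
    exact AddSubgroup.add_mem _ (hz2 K hK) h1
  · rw [hcz K hK, CovD.del_apply]
    refine (Finset.sum_eq_zero fun j hj => ?_).symm
    have hj1 := Finset.card_erase_add_one hj
    rw [CovD.ev_ic, CovD.ev_eq_zero (hyz _ (by omega)), map_zero, smul_zero]

/-- The component of form degree `a`. -/
noncomputable def cmp (X : CovD.{0, v} (ZMod p) n) (a m : ℕ) (x : X.Ch) : X.Ch := fun J =>
  if J.card + a = m + 1 then x J else 0

theorem cmp_of {a m : ℕ} {x : X.Ch} {J : Finset (Fin n)} (h : J.card + a = m + 1) :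
    cmp X a m x J = x J := if_pos h

theorem cmp_ne {a m : ℕ} {x : X.Ch} {J : Finset (Fin n)} (h : J.card + a ≠ m + 1) :
    cmp X a m x J = 0 := if_neg h

theorem cmp_mem {a m : ℕ} {x : X.Ch} (hx : x ∈ X.Tt m) : cmp X a m x ∈ X.Tt m := by
  refine ⟨?_, fun J => ⟨fun q hq => ?_, fun h => ?_⟩⟩
  · unfold cmp
    split_ifs
    · exact hx.1
    · rfl
  · unfold cmp
    split_ifs
    · exact (hx.2 J).1 q hq
    · exact Submodule.zero_mem _
  · exact cmp_ne (by omega)

theorem Psi_add (b c : X.Ch) : L.Psi hp (b + c) = L.Psi hp b + L.Psi hp c := by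
  funext J
  rw [Pi.add_apply, Psi_apply, Psi_apply, Psi_apply, ← Finset.sum_add_distrib]
  refine Finset.sum_congr rfl fun s _ => ?_
  rw [CovD.ev_add, map_add, smul_add]

theorem cmp_add (a m : ℕ) (x y : X.Ch) : cmp X a m (x + y) = cmp X a m x + cmp X a m y := by
  funext J
  rw [Pi.add_apply]
  unfold cmp
  split_ifs
  · rfl
  · rw [add_zero]

theorem del_cmp [Fact p.Prime] {a m : ℕ} {x : X.Ch}
    (hx : x ∈ ZZ (κ := ZMod p) X.Dt (X.Fi (a + 1)) (X.Fi a) m) :
    X.del (X.ic (cmp X a m x)) = 0 := by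
  funext K
  by_cases hK : K.card + a = m + 2
  · have hx1 : x ∈ X.Fi a m := hx.1
    have hx2 : X.Dt x ∈ X.Fi (a + 1) (m + 1) := hx.2
    have h1 : X.Dt x K = dd (ZMod p) (x K) + X.del (X.ic x) K := rfl
    rw [hx2.2 K (by omega), hx1.2 K (by omega), map_zero, zero_add] at h1
    rw [Pi.zero_apply, h1, CovD.del_apply, CovD.del_apply]
    refine Finset.sum_congr rfl fun j hj => ?_
    have hj1 := Finset.card_erase_add_one hj
    rw [CovD.ev_ic, CovD.ev_ic, CovD.ev_of (Finset.erase_subset j K), CovD.ev_of (Finset.erase_subset j K),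
      cmp_of (by omega)]
  · rw [CovD.del_apply]
    refine Finset.sum_eq_zero fun j hj => ?_
    have hj1 := Finset.card_erase_add_one hj
    rw [CovD.ev_ic, CovD.ev_eq_zero (cmp_ne (by omega)), map_zero, smul_zero]

theorem Psi_cmp_mem [Fact p.Prime] {a m : ℕ} {x : X.Ch}
    (hx : x ∈ ZZ (κ := ZMod p) X.Dt (X.Fi (a + 1)) (X.Fi a) m) :
    L.Psi hp (cmp X a m x) ∈ ZZ (κ := ZMod p) X.Dt (NN X a) (NN X (a + 1)) m := by
  have hx1 : x ∈ X.Fi a m := hx.1
  refine ⟨Psi_mem_Ni (cmp_mem hx1.1) fun K hK => cmp_ne hK, ?_⟩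
  change X.Dt _ ∈ NN X a (m + 1)
  rw [Dt_Psi (cmp_mem hx1.1), del_cmp hx, Psi_zero]
  exact Submodule.zero_mem _

variable (hp L)

/-- The map induced by `Psi`. -/
noncomputable def grMap [Fact p.Prime] (a m : ℕ) :
    ↥(ZZ (κ := ZMod p) X.Dt (X.Fi (a + 1)) (X.Fi a) m) →ₗ[ZMod p]
      HH (κ := ZMod p) X.Dt (NN X a) (NN X (a + 1)) m :=
  AddMonoidHom.toZModLinearMap p
    { toFun := fun x => Submodule.Quotient.mk ⟨L.Psi hp (cmp X a m x), Psi_cmp_mem x.2⟩
      map_zero' := by
        rw [Submodule.Quotient.mk_eq_zero]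
        change L.Psi hp (cmp X a m 0) ∈ BB (κ := ZMod p) X.Dt (NN X a) (NN X (a + 1)) m
        have h1 : cmp X a m (0 : X.Ch) = 0 := by
          funext J
          unfold cmp
          split_ifs <;> rfl
        rw [h1, Psi_zero]
        exact Submodule.zero_mem _
      map_add' := by
        intro x y
        rw [← Submodule.Quotient.mk_add]
        congr 1
        apply Subtype.ext
        change L.Psi hp (cmp X a m ((x : X.Ch) + (y : X.Ch))) = _
        rw [cmp_add, Psi_add]
        rfl }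

variable {hp L}

theorem grMap_apply [Fact p.Prime] (a m : ℕ)
    (x : ↥(ZZ (κ := ZMod p) X.Dt (X.Fi (a + 1)) (X.Fi a) m)) :
    grMap hp L a m x = Submodule.Quotient.mk ⟨L.Psi hp (cmp X a m x), Psi_cmp_mem x.2⟩ := rfl

theorem grMap_surjective [Fact p.Prime] (hC : ∀ J : Finset (Fin n), J.Nonempty → IsCart p (X.R J))
    (hd : ∀ J : Finset (Fin n), J.Nonempty → ∀ q, p ≤ q → ∀ e ∈ Fd (ZMod p) (X.R J) q, e = 0)
    (a m : ℕ) : Function.Surjective (grMap hp L a m) := by
  intro y
  induction y using Submodule.Quotient.induction_on with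
  | H x =>
    obtain ⟨c, hcT, hcz, hdel, h1⟩ := exists_rep (hp := hp) L hC hd a m x x.2
    have hc : c ∈ ZZ (κ := ZMod p) X.Dt (X.Fi (a + 1)) (X.Fi a) m := by
      refine ⟨⟨hcT, fun J hJ => hcz J (by omega)⟩, ?_⟩
      change X.Dt c ∈ X.Fi (a + 1) (m + 1)
      refine ⟨CovD.Dt_mem hcT, fun J hJ => ?_⟩
      have h2 : X.Dt c J = dd (ZMod p) (c J) + X.del (X.ic c) J := rfl
      rw [h2, hdel, hcz J (by omega), map_zero, zero_add]
      rfl
    refine ⟨⟨c, hc⟩, ?_⟩
    rw [grMap_apply, Submodule.Quotient.eq]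
    have h3 : cmp X a m c = c := by
      funext J
      by_cases hJ : J.card + a = m + 1
      · exact cmp_of hJ
      · rw [cmp_ne hJ, hcz J hJ]
    change L.Psi hp (cmp X a m c) - (x : X.Ch) ∈ BB (κ := ZMod p) X.Dt (NN X a) (NN X (a + 1)) m
    rw [h3, ← neg_sub]
    exact Submodule.neg_mem _ h1

theorem grMap_ker [Fact p.Prime] (hC : ∀ J : Finset (Fin n), J.Nonempty → IsCart p (X.R J))
    (hd : ∀ J : Finset (Fin n), J.Nonempty → ∀ q, p ≤ q → ∀ e ∈ Fd (ZMod p) (X.R J) q, e = 0)
    (a m : ℕ) : LinearMap.ker (grMap hp L a m) =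
      (BB (κ := ZMod p) X.Dt (X.Fi (a + 1)) (X.Fi a) m).submoduleOf
        (ZZ (κ := ZMod p) X.Dt (X.Fi (a + 1)) (X.Fi a) m) := by
  ext x
  rw [LinearMap.mem_ker, grMap_apply, Submodule.Quotient.mk_eq_zero]
  change L.Psi hp (cmp X a m x) ∈ BB (κ := ZMod p) X.Dt (NN X a) (NN X (a + 1)) m ↔
    (x : X.Ch) ∈ BB (κ := ZMod p) X.Dt (X.Fi (a + 1)) (X.Fi a) m
  have hx1 : (x : X.Ch) ∈ X.Fi a m := x.2.1
  constructor
  · intro h
    obtain ⟨y, hyT, hyz, hcy⟩ := exists_inj (hp := hp) L hC hd (cmp_mem hx1.1)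
      (fun K hK => cmp_ne hK) h
    have hDy : ∀ J : Finset (Fin n), J.card + a ≠ m → X.Dt y J = cmp X a m x J := by
      intro J hJ
      have h2 : X.Dt y J = dd (ZMod p) (y J) + X.del (X.ic y) J := rfl
      rw [h2, ← hcy, hyz J hJ, map_zero, zero_add]
    have hyF : y ∈ pr (X.Fi a) m := by
      cases m with
      | zero => exact hyT
      | succ m' => exact ⟨hyT, fun J hJ => hyz J (by omega)⟩
    have hDyT : X.Dt y ∈ X.Tt m := by
      cases m with
      | zero =>
        have h1 : y = 0 := hyT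
        rw [h1, map_zero]
        exact Submodule.zero_mem _
      | succ m' =>
        have h1 : y ∈ X.Tt m' := hyT
        exact CovD.Dt_mem h1
    refine mem_BB.2 ⟨(x : X.Ch) - X.Dt y, ⟨Submodule.sub_mem _ hx1.1 hDyT, fun J hJ => ?_⟩, y, hyF,
      by abel⟩
    rw [Pi.sub_apply, hDy J (by omega)]
    by_cases h2 : J.card + a = m + 1
    · rw [cmp_of h2, sub_self]
    · rw [cmp_ne h2, hx1.2 J (by omega), sub_zero]
  · intro h
    obtain ⟨s, hs, y, hy, hxy⟩ := mem_BB.1 h
    have hs' : s ∈ X.Fi (a + 1) m := hs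
    cases m with
    | zero =>
      have h1 : y = 0 := hy
      have h2 : cmp X a 0 (x : X.Ch) = 0 := by
        funext J
        rw [hxy, h1, map_zero, add_zero]
        by_cases hJ : J.card + a = 0 + 1
        · rw [cmp_of hJ, hs'.2 J (by omega)]
          rfl
        · rw [cmp_ne hJ]
          rfl
      rw [h2, Psi_zero]
      exact Submodule.zero_mem _
    | succ m' =>
      have hy' : y ∈ X.Fi a m' := hy
      have h2 : cmp X a (m' + 1) (x : X.Ch) = X.del (X.ic (cmp X a m' y)) := by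
        funext J
        by_cases hJ : J.card + a = m' + 1 + 1
        · have h3 : X.Dt y J = dd (ZMod p) (y J) + X.del (X.ic y) J := rfl
          rw [cmp_of hJ, hxy, Pi.add_apply, hs'.2 J (by omega), zero_add, h3, hy'.2 J (by omega), map_zero,
            zero_add, CovD.del_apply, CovD.del_apply]
          refine Finset.sum_congr rfl fun j hj => ?_
          have hj1 := Finset.card_erase_add_one hj
          rw [CovD.ev_ic, CovD.ev_ic, CovD.ev_of (Finset.erase_subset j J),
            CovD.ev_of (Finset.erase_subset j J), cmp_of (by omega)]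
        · rw [cmp_ne hJ, CovD.del_apply]
          refine (Finset.sum_eq_zero fun j hj => ?_).symm
          have hj1 := Finset.card_erase_add_one hj
          rw [CovD.ev_ic, CovD.ev_eq_zero (cmp_ne (by omega)), map_zero, smul_zero]
      rw [h2, ← Dt_Psi (cmp_mem hy'.1)]
      refine mem_BB.2 ⟨0, Submodule.zero_mem _, L.Psi hp (cmp X a m' y), ?_, by rw [zero_add]⟩
      exact Psi_mem_Ni (cmp_mem hy'.1) fun K hK => cmp_ne hK

/-- The cohomologies of the graded pieces of the two filtrations are isomorphic. -/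
noncomputable def gr_equiv [Fact p.Prime] (L : LiftD.{v, w} p X)
    (hC : ∀ J : Finset (Fin n), J.Nonempty → IsCart p (X.R J))
    (hd : ∀ J : Finset (Fin n), J.Nonempty → ∀ q, p ≤ q → ∀ e ∈ Fd (ZMod p) (X.R J) q, e = 0)
    (a m : ℕ) : HH (κ := ZMod p) X.Dt (X.Fi (a + 1)) (X.Fi a) m ≃ₗ[ZMod p]
      HH (κ := ZMod p) X.Dt (NN X a) (NN X (a + 1)) m :=
  (Submodule.quotEquivOfEq _ _ (grMap_ker (hp := Fact.out) (L := L) hC hd a m).symm).trans
    (LinearMap.quotKerEquivOfSurjective _ (grMap_surjective (hp := Fact.out) (L := L) hC hd a m))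

theorem NN_mono (j m : ℕ) : NN X j m ≤ NN X (j + 1) m := by
  cases j with
  | zero => exact bot_le
  | succ j => exact CovD.Ni_mono (Nat.le_succ j) m

theorem NN_sub [Fact p.Prime] (j : ℕ) : IsSub (κ := ZMod p) X.Dt (NN X j) := by
  intro m x hx
  cases j with
  | zero =>
    have h1 : x = 0 := hx
    rw [h1, map_zero]
    exact Submodule.zero_mem _
  | succ j => exact CovD.Dt_mem_Ni hx

/-- The degeneration of the Hodge spectral sequence. -/
theorem sum_gr [Fact p.Prime] (L : LiftD.{v, w} p X)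
    (hC : ∀ J : Finset (Fin n), J.Nonempty → IsCart p (X.R J))
    (hd : ∀ J : Finset (Fin n), J.Nonempty → ∀ q, p ≤ q → ∀ e ∈ Fd (ZMod p) (X.R J) q, e = 0)
    (hf : ∀ q m, FiniteDimensional (ZMod p) (HH (κ := ZMod p) X.Dt (X.Fi (q + 1)) (X.Fi q) m)) (r m : ℕ) :
    Module.finrank (ZMod p) (HH (κ := ZMod p) X.Dt (NN X 0) (NN X r) m) =
      ∑ q ∈ Finset.range r, Module.finrank (ZMod p) (HH (κ := ZMod p) X.Dt (X.Fi (q + 1)) (X.Fi q) m) := by
  have h1 := chain_eq (κ := ZMod p) (D := X.Dt) (S := NN X) CovD.Dt_comp NN_mono NN_sub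
    (fun j m => by
      have := hf j m
      exact Module.Finite.equiv (gr_equiv L hC hd j m))
    (fun j m x hx => surj_gr L hC hd j m x hx) r m
  rw [h1]
  exact Finset.sum_congr rfl fun q _ => (LinearEquiv.finrank_eq (gr_equiv L hC hd q m)).symm

end LiftD

end MPadcGP
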