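import Pool.Agent.Lib.MP_adc574_ag_GP.Ad
import Pool.Agent.Lib.MP_adc574_ag_GP.CarP
import Pool.Agent.Lib.MP_adc574_ag_GP.DIf

/-!
# Deligne-Illusie X (helper59): the de Rham cohomology has the dimension of the Hodge cohomology
-/

set_option autoImplicit false

namespace MPadcGP

universe v w

namespace LiftD

variable {p : ℕ} {n : ℕ} {X : CovD.{0, v} (ZMod p) n}

theorem finrank_top [Fact p.Prime] (X : CovD.{0, v} (ZMod p) n) {r m : ℕ} (hr : m + 1 < r) :
    Module.finrank (ZMod p) (HH (κ := ZMod p) X.Dt (NN X 0) (NN X r) m) =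
      Module.finrank (ZMod p) (X.HdR m) := by
  obtain ⟨s, rfl⟩ : ∃ s, r = s + 1 := ⟨r - 1, by omega⟩
  have hT : ∀ l, l ≤ m → NN X (s + 1) l = X.Tt l := fun l hl => CovD.Ni_top (by omega)
  have hZ : ZZ (κ := ZMod p) X.Dt (NN X 0) (NN X (s + 1)) m = X.Zc m := by
    ext x
    rw [mem_ZZ, hT m le_rfl]
    exact Iff.rfl
  have hB : BB (κ := ZMod p) X.Dt (NN X 0) (NN X (s + 1)) m = X.Bc m := by
    cases m with
    | zero =>
      ext x
      rw [mem_BB]
      constructor
      · rintro ⟨s', hs, y, hy, rfl⟩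
        have h1 : s' = 0 := hs
        have h2 : y = 0 := hy
        rw [h1, h2, map_zero, add_zero]
        exact Submodule.zero_mem _
      · intro hx
        have h1 : x = 0 := hx
        exact ⟨0, Submodule.zero_mem _, 0, Submodule.zero_mem _, by rw [h1, map_zero, add_zero]⟩
    | succ m' =>
      ext x
      rw [mem_BB]
      constructor
      · rintro ⟨s', hs, y, hy, rfl⟩
        have h1 : s' = 0 := hs
        have h2 : y ∈ NN X (s + 1) m' := hy
        rw [hT m' (Nat.le_succ _)] at h2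
        rw [h1, zero_add]
        exact ⟨y, h2, rfl⟩
      · rintro ⟨y, hy, rfl⟩
        refine ⟨0, Submodule.zero_mem _, y, ?_, by rw [zero_add]⟩
        change y ∈ NN X (s + 1) m'
        rw [hT m' (Nat.le_succ _)]
        exact hy
  unfold HH CovD.HdR
  rw [hZ, hB]

/-- The de Rham cohomology has the dimension of the Hodge cohomology. -/
theorem finrank_HdR [Fact p.Prime] (L : LiftD.{v, w} p X)
    (hC : ∀ J : Finset (Fin n), J.Nonempty → IsCart p (X.R J))
    (hd : ∀ J : Finset (Fin n), J.Nonempty → ∀ q, p ≤ q → ∀ e ∈ Fd (ZMod p) (X.R J) q, e = 0)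
    (hf : ∀ q m, FiniteDimensional (ZMod p) (HH (κ := ZMod p) X.Dt (X.Fi (q + 1)) (X.Fi q) m)) {r m : ℕ}
    (hr : m + 1 < r) : Module.finrank (ZMod p) (X.HdR m) =
      ∑ q ∈ Finset.range r, Module.finrank (ZMod p) (HH (κ := ZMod p) X.Dt (X.Fi (q + 1)) (X.Fi q) m) := by
  rw [← finrank_top X hr]
  exact sum_gr L hC hd hf r m

end LiftD

theorem CarP.isCart {p : ℕ} [Fact p.Prime] {R : Type v} [CommRing R] [Algebra (ZMod p) R]
    (h : CarP p (fun _ : Unit => (1 : ZMod p)) R) : IsCart p R := fun F h1 h2 => h.lift F h1 h2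

end MPadcGP
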