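import Pool.Agent.Lib.MP_adc574_ag_GP.DR

/-!
# Functoriality and degrees of the de Rham algebra (helper90)

* `mp φ h`: the homomorphism of the algebras of forms given by a commutative square.
* `Fd A R q`: the forms of degree `q`, additively generated by the `fz r * wd t`, `wd t` the product
  of the `df (t i)`.
-/

set_option autoImplicit false

namespace MPadcGP

universe u v w x y z

section mp

variable {A : Type u} {B : Type w} {C : Type y} {R : Type v} {S : Type x} {T : Type z} [CommRing A]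
  [CommRing B] [CommRing C] [CommRing R] [CommRing S] [CommRing T] [Algebra A R] [Algebra B S]
  [Algebra C T]

/-- The homomorphism `φ` maps the constants to constants. -/
def CC (A : Type u) (B : Type w) [CommRing A] [CommRing B] [Algebra A R] [Algebra B S]
    (φ : R →+* S) : Prop :=
  ∀ a : A, ∃ b : B, φ (algebraMap A R a) = algebraMap B S b

theorem CC.id : CC A A (RingHom.id R) := fun a => ⟨a, rfl⟩

theorem CC.comp {φ : R →+* S} {ψ : S →+* T} (h : CC A B φ) (h' : CC B C ψ) :
    CC A C (ψ.comp φ) := by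
  intro a
  obtain ⟨b, hb⟩ := h a
  obtain ⟨c, hc⟩ := h' b
  exact ⟨c, by rw [RingHom.comp_apply, hb, hc]⟩

theorem CC.of_algHom {R' : Type*} [CommRing R'] [Algebra A R'] (φ : R →ₐ[A] R') :
    CC A A (φ : R →+* R') := fun a => ⟨a, AlgHom.commutes φ a⟩

private theorem mp_exists {φ : R →+* S} (h : CC A B φ) : ∃ F : Fm A R →+* Fm B S,
    (∀ r, F (fz A r) = fz B (φ r)) ∧ ∀ t, F (df A t) = df B (φ t) :=
  exists_hom (A := A) ((fz B).comp φ) (fun r x => fz_comm _ _)
    { toFun := fun t => df B (φ t)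
      map_zero' := by rw [map_zero, df_zero]
      map_add' := fun s t => by rw [map_add, df_add] }
    (by
      intro r t
      change df B (φ (r * t)) = fz B (φ r) * df B (φ t) + fz B (φ t) * df B (φ r)
      rw [map_mul, df_mul])
    (by
      intro a
      obtain ⟨b, hb⟩ := h a
      change df B (φ (algebraMap A R a)) = 0
      rw [hb, df_base])
    (by
      intro s t
      change df B (φ s) * df B (φ t) + df B (φ t) * df B (φ s) = 0
      rw [df_swap, neg_add_cancel])
    (by
      intro t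
      exact df_sq _)

/-- The homomorphism of the algebras of forms. -/
noncomputable def mp (φ : R →+* S) (h : CC A B φ) : Fm A R →+* Fm B S := (mp_exists h).choose

theorem mp_fz {φ : R →+* S} (h : CC A B φ) (r : R) : mp φ h (fz A r) = fz B (φ r) :=
  (mp_exists h).choose_spec.1 r

theorem mp_df {φ : R →+* S} (h : CC A B φ) (t : R) : mp φ h (df A t) = df B (φ t) :=
  (mp_exists h).choose_spec.2 t

theorem mp_smul {φ : R →+* S} (h : CC A B φ) (r : R) (e : Fm A R) :
    mp φ h (r • e) = φ r • mp φ h e := by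
  rw [fz_smul, map_mul, mp_fz, fz_smul]

theorem mp_id (h : CC A A (RingHom.id R)) (e : Fm A R) : mp (RingHom.id R) h e = e := by
  have h1 : mp (RingHom.id R) h = RingHom.id (Fm A R) :=
    hom_ext' (fun r => mp_fz _ r) (fun t => mp_df _ t)
  rw [h1, RingHom.id_apply]

theorem mp_comp {φ : R →+* S} {ψ : S →+* T} (h : CC A B φ) (h' : CC B C ψ)
    (h'' : CC A C (ψ.comp φ)) (e : Fm A R) : mp (ψ.comp φ) h'' e = mp ψ h' (mp φ h e) := by
  have h1 : mp (ψ.comp φ) h'' = (mp ψ h').comp (mp φ h) :=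
    hom_ext' (fun r => by
        rw [RingHom.comp_apply (mp ψ h') (mp φ h), mp_fz, mp_fz, mp_fz, RingHom.comp_apply])
      (fun t => by
        rw [RingHom.comp_apply (mp ψ h') (mp φ h), mp_df, mp_df, mp_df, RingHom.comp_apply])
  rw [h1, RingHom.comp_apply]

theorem mp_congr {φ ψ : R →+* S} (h : CC A B φ) (h' : CC A B ψ) (e : φ = ψ) (z : Fm A R) :
    mp φ h z = mp ψ h' z := by
  subst e
  rfl

theorem mp_inv {φ : R →+* S} (h : CC A B φ) (e : Fm A R) : mp φ h (inv A e) = inv B (mp φ h e) := by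
  induction e using fm_ind with
  | h1 r => rw [inv_fz, mp_fz, inv_fz]
  | h2 t => rw [inv_df, map_neg, mp_df, inv_df]
  | h3 a b ha hb => rw [map_mul, map_mul, ha, hb, map_mul, map_mul]
  | h4 a b ha hb => rw [map_add, map_add, ha, hb, map_add, map_add]

theorem mp_dd {φ : R →+* S} (h : CC A B φ) (e : Fm A R) : mp φ h (dd A e) = dd B (mp φ h e) := by
  induction e using fm_ind with
  | h1 r => rw [dd_fz, mp_fz, mp_df, dd_fz]
  | h2 t => rw [dd_df, mp_df, dd_df, map_zero]
  | h3 a b ha hb => rw [dd_mul, map_add, map_mul, map_mul, ha, hb, map_mul, dd_mul, mp_inv]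
  | h4 a b ha hb => rw [map_add, map_add, ha, hb, map_add, map_add]

/-- The derivation `D` preserves the constants. -/
def PC (A : Type u) [CommRing A] [Algebra A R] (D : Derivation ℤ R R) : Prop :=
  ∀ a : A, ∃ a', D (algebraMap A R a) = algebraMap A R a'

theorem mp_LL {φ : R →+* S} (h : CC A B φ) {D : Derivation ℤ R R} {D' : Derivation ℤ S S}
    (hD : PC A D) (hD' : PC B D') (hc : ∀ x, φ (D x) = D' (φ x)) (e : Fm A R) :
    mp φ h (LL A D e) = LL B D' (mp φ h e) := by
  induction e using fm_ind with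
  | h1 r => rw [LL_fz A hD, mp_fz, mp_fz, LL_fz B hD', hc]
  | h2 t => rw [LL_df A hD, mp_df, mp_df, LL_df B hD', hc]
  | h3 a b ha hb =>
    rw [LL_mul A hD, map_add, map_mul, map_mul, ha, hb, map_mul, LL_mul B hD']
  | h4 a b ha hb => rw [map_add, map_add, ha, hb, map_add, map_add]

theorem mp_ct {φ : R →+* S} (h : CC A B φ) {θ : Derivation A R R} {θ' : Derivation B S S}
    (hc : ∀ x, φ (θ x) = θ' (φ x)) (e : Fm A R) :
    mp φ h (ct A θ e) = ct B θ' (mp φ h e) := by
  induction e using fm_ind with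
  | h1 r => rw [ct_fz, mp_fz, ct_fz, map_zero]
  | h2 t => rw [ct_df, mp_df, ct_df, mp_fz, hc]
  | h3 a b ha hb => rw [ct_mul, map_add, map_mul, map_mul, ha, hb, map_mul, ct_mul, mp_inv]
  | h4 a b ha hb => rw [map_add, map_add, ha, hb, map_add, map_add]

/-- The Lie derivative is additive in the derivation. -/
theorem LL_add {D D' : Derivation ℤ R R} (hD : PC A D) (hD' : PC A D') (e : Fm A R) :
    LL A (D + D') e = LL A D e + LL A D' e := by
  have hDD : PC A (D + D') := by
    intro a
    obtain ⟨b, hb⟩ := hD a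
    obtain ⟨c, hc⟩ := hD' a
    exact ⟨b + c, by rw [Derivation.add_apply, hb, hc, map_add]⟩
  induction e using fm_ind with
  | h1 r => rw [LL_fz A hDD, LL_fz A hD, LL_fz A hD', Derivation.add_apply, map_add]
  | h2 t => rw [LL_df A hDD, LL_df A hD, LL_df A hD', Derivation.add_apply, df_add]
  | h3 a b ha hb =>
    rw [LL_mul A hDD, LL_mul A hD, LL_mul A hD', ha, hb, add_mul, mul_add]
    abel
  | h4 a b ha hb =>
    rw [map_add, map_add, ha, hb, map_add]
    abel

/-- The contraction is additive in the vector field. -/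
theorem ct_add (θ θ' : Derivation A R R) (e : Fm A R) :
    ct A (θ + θ') e = ct A θ e + ct A θ' e := by
  induction e using fm_ind with
  | h1 r => rw [ct_fz, ct_fz, ct_fz, add_zero]
  | h2 t => rw [ct_df, ct_df, ct_df, Derivation.add_apply, map_add]
  | h3 a b ha hb =>
    rw [ct_mul, ct_mul, ct_mul, ha, hb, add_mul, mul_add]
    abel
  | h4 a b ha hb =>
    rw [map_add, map_add, ha, hb, map_add]
    abel

theorem ct_smul (r : R) (θ : Derivation A R R) (e : Fm A R) :
    ct A (r • θ) e = fz A r * ct A θ e := by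
  induction e using fm_ind with
  | h1 r => rw [ct_fz, ct_fz, mul_zero]
  | h2 t => rw [ct_df, ct_df, Derivation.smul_apply, smul_eq_mul, map_mul]
  | h3 a b ha hb =>
    rw [ct_mul, ct_mul, ha, hb, mul_add, mul_assoc, ← mul_assoc (inv A a), ← fz_comm r (inv A a),
      mul_assoc]
  | h4 a b ha hb =>
    rw [map_add, map_add, ha, hb, mul_add]

end mp

section degrees

variable (A : Type u) (R : Type v) [CommRing A] [CommRing R] [Algebra A R]

/-- The forms of degree `q`. -/
noncomputable def Fd (q : ℕ) : Submodule R (Fm A R) := ⋀[R]^q (Ω[R⁄A])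

variable {R}

/-- The product of the differentials `df (t i)`. -/
noncomputable def wd {q : ℕ} (t : Fin q → R) : Fm A R :=
  ExteriorAlgebra.ιMulti R q fun i => KaehlerDifferential.D A R (t i)

variable {A}

theorem wd_zero (t : Fin 0 → R) : wd A t = 1 := ExteriorAlgebra.ιMulti_zero_apply _

theorem wd_succ {q : ℕ} (t : Fin (q + 1) → R) :
    wd A t = df A (t 0) * wd A (Fin.tail t) := by
  unfold wd df Fin.tail
  rw [ExteriorAlgebra.ιMulti_succ_apply]
  rfl

theorem wd_cons {q : ℕ} (s : R) (t : Fin q → R) :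
    wd A (Fin.cons s t : Fin (q + 1) → R) = df A s * wd A t := by
  rw [wd_succ, Fin.cons_zero, Fin.tail_cons]

theorem wd_mem {q : ℕ} (t : Fin q → R) : wd A t ∈ Fd A R q :=
  ExteriorAlgebra.ιMulti_range R q (Set.mem_range_self _)

theorem fz_mul_mem {q : ℕ} (r : R) {e : Fm A R} (he : e ∈ Fd A R q) : fz A r * e ∈ Fd A R q := by
  rw [← fz_smul]
  exact Submodule.smul_mem _ _ he

/-- The forms of degree `q` are additively generated by the products `r dt_1 … dt_q`. -/
theorem fd_ind {q : ℕ} {P : Fm A R → Prop} (h0 : P 0)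
    (h1 : ∀ (r : R) (t : Fin q → R), P (fz A r * wd A t)) (h2 : ∀ a b, P a → P b → P (a + b))
    {e : Fm A R} (he : e ∈ Fd A R q) : P e := by
  have h := exteriorPower.ιMulti_span_fixedDegree_of_span_eq_top R q (Ω[R⁄A])
    (KaehlerDifferential.span_range_derivation A R)
  have he' : e ∈ ⋀[R]^q (Ω[R⁄A]) := he
  rw [← h] at he'
  refine Submodule.closure_induction (p := fun e _ => P e) h0 (fun a b _ _ ha hb => h2 a b ha hb)
    ?_ he'
  rintro r _ ⟨a, ha, rfl⟩
  rw [Set.mem_ofPred_eq, Set.range_subset_iff] at ha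
  choose t ht using ha
  have h3 : r • ExteriorAlgebra.ιMulti R q a = fz A r * wd A t := by
    rw [fz_smul]
    unfold wd
    congr 2
    funext i
    exact (ht i).symm
  rw [h3]
  exact h1 r t

theorem fd_mul {p q : ℕ} {a b : Fm A R} (ha : a ∈ Fd A R p) (hb : b ∈ Fd A R q) :
    a * b ∈ Fd A R (p + q) := by
  unfold Fd at *
  rw [show ⋀[R]^(p + q) (Ω[R⁄A]) = ⋀[R]^p (Ω[R⁄A]) * ⋀[R]^q (Ω[R⁄A]) from pow_add _ _ _]
  exact Submodule.mul_mem_mul ha hb

theorem fz_mem (r : R) : fz A r ∈ Fd A R 0 := by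
  have h := fz_mul_mem r (wd_mem (A := A) (Fin.elim0 : Fin 0 → R))
  rwa [wd_zero, mul_one] at h

theorem df_mem (t : R) : df A t ∈ Fd A R 1 := by
  have h := wd_mem (A := A) (Fin.cons t Fin.elim0 : Fin 1 → R)
  rwa [wd_cons, wd_zero, mul_one] at h

theorem inv_wd {q : ℕ} (t : Fin q → R) : inv A (wd A t) = (-1) ^ q * wd A t := by
  induction q with
  | zero => rw [wd_zero, map_one, pow_zero, mul_one]
  | succ q ih =>
    rw [wd_succ, map_mul, ih, inv_df, pow_succ', neg_mul, ← mul_assoc, ← mul_assoc,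
      neg_one_mul, neg_mul, neg_mul, ((Commute.neg_one_right (df A (t 0))).pow_right q).eq]

theorem inv_mem {q : ℕ} {e : Fm A R} (he : e ∈ Fd A R q) : inv A e = (-1) ^ q * e := by
  refine fd_ind (P := fun e => inv A e = (-1) ^ q * e) ?_ ?_ ?_ he
  · rw [map_zero, mul_zero]
  · intro r t
    rw [map_mul, inv_fz, inv_wd, ← mul_assoc, ← mul_assoc,
      (Commute.neg_one_right (fz A r)).pow_right q |>.eq]
  · intro a b ha hb
    rw [map_add, ha, hb, mul_add]

theorem neg_one_pow_mul_mem {q : ℕ} (p : ℕ) {e : Fm A R} (he : e ∈ Fd A R q) :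
    (-1) ^ p * e ∈ Fd A R q := by
  rcases neg_one_pow_eq_or (Fm A R) p with h | h
  · rw [h, one_mul]
    exact he
  · rw [h, neg_one_mul]
    exact Submodule.neg_mem _ he

theorem inv_mem' {q : ℕ} {e : Fm A R} (he : e ∈ Fd A R q) : inv A e ∈ Fd A R q := by
  rw [inv_mem he]
  exact neg_one_pow_mul_mem _ he

theorem dd_wd {q : ℕ} (t : Fin q → R) : dd A (wd A t) = 0 := by
  induction q with
  | zero => rw [wd_zero, dd_one]
  | succ q ih => rw [wd_succ, dd_mul, ih, dd_df, zero_mul, mul_zero, add_zero]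

theorem dd_fz_wd {q : ℕ} (r : R) (t : Fin q → R) :
    dd A (fz A r * wd A t) = wd A (Fin.cons r t : Fin (q + 1) → R) := by
  rw [dd_mul, dd_wd, mul_zero, add_zero, dd_fz, wd_cons]

theorem dd_mem {q : ℕ} {e : Fm A R} (he : e ∈ Fd A R q) : dd A e ∈ Fd A R (q + 1) := by
  refine fd_ind (P := fun e => dd A e ∈ Fd A R (q + 1)) ?_ ?_ ?_ he
  · rw [map_zero]
    exact Submodule.zero_mem _
  · intro r t
    rw [dd_fz_wd]
    exact wd_mem _
  · intro a b ha hb
    rw [map_add]
    exact Submodule.add_mem _ ha hb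

theorem ct_wd (θ : Derivation A R R) {q : ℕ} (t : Fin (q + 1) → R) :
    ct A θ (wd A t) ∈ Fd A R q := by
  induction q with
  | zero =>
    rw [wd_succ, wd_zero, mul_one, ct_df]
    exact fz_mem _
  | succ q ih =>
    rw [wd_succ, ct_df_mul]
    refine Submodule.sub_mem _ (fz_mul_mem _ (wd_mem _)) ?_
    have h := fd_mul (df_mem (A := A) (t 0)) (ih (Fin.tail t))
    rwa [add_comm] at h

theorem ct_mem (θ : Derivation A R R) {q : ℕ} {e : Fm A R} (he : e ∈ Fd A R (q + 1)) :
    ct A θ e ∈ Fd A R q := by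
  refine fd_ind (P := fun e => ct A θ e ∈ Fd A R q) ?_ ?_ ?_ he
  · rw [map_zero]
    exact Submodule.zero_mem _
  · intro r t
    rw [← fz_smul, map_smul]
    exact Submodule.smul_mem _ _ (ct_wd _ _)
  · intro a b ha hb
    rw [map_add]
    exact Submodule.add_mem _ ha hb

theorem ct_mem_zero (θ : Derivation A R R) {e : Fm A R} (he : e ∈ Fd A R 0) : ct A θ e = 0 := by
  refine fd_ind (P := fun e => ct A θ e = 0) ?_ ?_ ?_ he
  · rw [map_zero]
  · intro r t
    rw [wd_zero, mul_one, ct_fz]
  · intro a b ha hb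
    rw [map_add, ha, hb, add_zero]

theorem LL_wd {D : Derivation ℤ R R} (hD : PC A D) {q : ℕ} (t : Fin q → R) :
    LL A D (wd A t) ∈ Fd A R q := by
  induction q with
  | zero =>
    rw [wd_zero, ← map_one (fz A), LL_fz A hD]
    exact fz_mem _
  | succ q ih =>
    rw [wd_succ, LL_mul A hD, LL_df A hD, ← wd_cons]
    refine Submodule.add_mem _ (wd_mem _) ?_
    have h := fd_mul (df_mem (A := A) (t 0)) (ih (Fin.tail t))
    rwa [add_comm] at h

theorem LL_mem {D : Derivation ℤ R R} (hD : PC A D) {q : ℕ} {e : Fm A R} (he : e ∈ Fd A R q) :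
    LL A D e ∈ Fd A R q := by
  refine fd_ind (P := fun e => LL A D e ∈ Fd A R q) ?_ ?_ ?_ he
  · rw [map_zero]
    exact Submodule.zero_mem _
  · intro r t
    rw [LL_mul A hD, LL_fz A hD]
    exact Submodule.add_mem _ (fz_mul_mem _ (wd_mem _)) (fz_mul_mem _ (LL_wd hD t))
  · intro a b ha hb
    rw [map_add]
    exact Submodule.add_mem _ ha hb

theorem mp_wd {B : Type w} {S : Type x} [CommRing B] [CommRing S] [Algebra B S] {φ : R →+* S}
    (h : CC A B φ) {q : ℕ} (t : Fin q → R) : mp φ h (wd A t) = wd B fun i => φ (t i) := by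
  induction q with
  | zero => rw [wd_zero, wd_zero, map_one]
  | succ q ih =>
    rw [wd_succ, map_mul, ih, mp_df, wd_succ]
    rfl

theorem mp_mem {B : Type w} {S : Type x} [CommRing B] [CommRing S] [Algebra B S] {φ : R →+* S}
    (h : CC A B φ) {q : ℕ} {e : Fm A R} (he : e ∈ Fd A R q) : mp φ h e ∈ Fd B S q := by
  refine fd_ind (P := fun e => mp φ h e ∈ Fd B S q) ?_ ?_ ?_ he
  · rw [map_zero]
    exact Submodule.zero_mem _
  · intro r t
    rw [map_mul, mp_fz, mp_wd]
    exact fz_mul_mem _ (wd_mem _)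
  · intro a b ha hb
    rw [map_add]
    exact Submodule.add_mem _ ha hb

/-- The exact forms are additively generated by the products of differentials. -/
theorem dd_image {q : ℕ} (ω : Fm A R) : (∃ e ∈ Fd A R q, dd A e = ω) ↔
    ω ∈ AddSubgroup.closure (Set.range fun t : Fin (q + 1) → R => wd A t) := by
  constructor
  · rintro ⟨e, he, rfl⟩
    refine fd_ind (P := fun e => dd A e ∈
      AddSubgroup.closure (Set.range fun t : Fin (q + 1) → R => wd A t)) ?_ ?_ ?_ he
    · rw [map_zero]
      exact AddSubgroup.zero_mem _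
    · intro r t
      rw [dd_fz_wd]
      exact AddSubgroup.subset_closure ⟨_, rfl⟩
    · intro a b ha hb
      rw [map_add]
      exact AddSubgroup.add_mem _ ha hb
  · intro h
    induction h using AddSubgroup.closure_induction with
    | mem x hx =>
      obtain ⟨t, rfl⟩ := hx
      refine ⟨fz A (t 0) * wd A (Fin.tail t), fz_mul_mem _ (wd_mem _), ?_⟩
      rw [dd_fz_wd, Fin.cons_self_tail]
    | zero => exact ⟨0, Submodule.zero_mem _, map_zero _⟩
    | add x y _ _ hx hy =>
      obtain ⟨e, he, rfl⟩ := hx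
      obtain ⟨f, hf, rfl⟩ := hy
      exact ⟨e + f, Submodule.add_mem _ he hf, map_add _ _ _⟩
    | neg x _ hx =>
      obtain ⟨e, he, rfl⟩ := hx
      exact ⟨-e, Submodule.neg_mem _ he, map_neg _ _⟩

end degrees

end MPadcGP
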