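import Pool.Agent.Lib.MP_adc574_ag_GP.Mod5
import Pool.Agent.Lib.MP_adc574_ag_GP.DRm

/-!
# The forms of degree `≥ n` on the charts in `n` homogeneous coordinates are zero
-/

set_option autoImplicit false

namespace MPadcGP

open MvPolynomial

universe u v w x

/-- alternating maps with more arguments than generators vanish -/
theorem alt_eq_zero {R : Type u} [CommRing R] {M : Type v} [AddCommGroup M] [Module R M] {N : Type w} [AddCommGroup N]
    [Module R N] {ι : Type x} [Fintype ι] (b : ι → M) (hb : ∀ m : M, m ∈ Submodule.span R (Set.range b)) {q : ℕ}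
    (hq : Fintype.card ι < q) (f : M [⋀^Fin q]→ₗ[R] N) (v : Fin q → M) : f v = 0 := by
  classical
  let π : (ι → R) →ₗ[R] M := Fintype.linearCombination R b
  have hπ : ∀ m : M, ∃ y, π y = m := by
    intro m
    obtain ⟨c, hc⟩ := (Submodule.mem_span_range_iff_exists_fun R).1 (hb m)
    exact ⟨c, hc⟩
  have h1 : f.compLinearMap π = 0 := by
    refine Module.Basis.ext_alternating (Pi.basisFun R ι) fun v hv => ?_
    have h2 := Fintype.card_le_of_injective v hv
    rw [Fintype.card_fin] at h2
    omega
  choose y hy using fun i => hπ (v i)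
  have h2 := congrArg (fun g : (ι → R) [⋀^Fin q]→ₗ[R] N => g y) h1
  have h3 : (fun i => π (y i)) = v := funext hy
  change f (fun i => π (y i)) = 0 at h2
  rw [h3] at h2
  exact h2

variable {A : Type u} [CommRing A] {n : ℕ} (I : Ideal (MvPolynomial (Fin n) A)) {J : Finset (Fin n)}

/-- the differentials on the chart are generated by those of the `x_l / x_i` -/
theorem chart_span {i : Fin n} (hi : i ∈ J) (w : Ω[chart I J⁄A]) :
    w ∈ Submodule.span (chart I J)
      (Set.range fun l : {l : Fin n // l ≠ i} => KaehlerDifferential.D A (chart I J) (cq I J l hi)) := by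
  set V := Submodule.span (chart I J)
      (Set.range fun l : {l : Fin n // l ≠ i} => KaehlerDifferential.D A (chart I J) (cq I J l hi)) with hV
  have h1 : ∀ l : Fin n, KaehlerDifferential.D A (chart I J) (cq I J l hi) ∈ V := by
    intro l
    by_cases hl : l = i
    · subst hl
      rw [cq_self, Derivation.map_one_eq_zero]
      exact Submodule.zero_mem _
    · exact Submodule.subset_span ⟨⟨l, hl⟩, rfl⟩
  have h2 : ∀ x : chart I J, KaehlerDifferential.D A (chart I J) x ∈ V := by
    intro x
    induction x using chart_ind with
    | h1 a =>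
      rw [Derivation.map_algebraMap]
      exact Submodule.zero_mem _
    | h2 l m hm =>
      have h3 := congrArg (KaehlerDifferential.D A (chart I J)) (cq_mul I J (l := l) hm hi)
      rw [Derivation.leibniz] at h3
      have h4 : cq I J m hi • KaehlerDifferential.D A (chart I J) (cq I J l hm) ∈ V := by
        have h5 : cq I J m hi • KaehlerDifferential.D A (chart I J) (cq I J l hm) =
            KaehlerDifferential.D A (chart I J) (cq I J l hi) -
              cq I J l hm • KaehlerDifferential.D A (chart I J) (cq I J m hi) := by
          rw [← h3]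
          abel
        rw [h5]
        exact Submodule.sub_mem _ (h1 l) (Submodule.smul_mem _ _ (h1 m))
      exact (Submodule.smul_mem_iff_of_isUnit V (cq_isUnit I J hm hi)).1 h4
    | h3 x y hx hy =>
      rw [map_add]
      exact Submodule.add_mem _ hx hy
    | h4 x y hx hy =>
      rw [Derivation.leibniz]
      exact Submodule.add_mem _ (Submodule.smul_mem _ _ hy) (Submodule.smul_mem _ _ hx)
  have h3 : (⊤ : Submodule (chart I J) Ω[chart I J⁄A]) ≤ V := by
    rw [← KaehlerDifferential.span_range_derivation A (chart I J), Submodule.span_le]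
    rintro _ ⟨x, rfl⟩
    exact h2 x
  exact h3 Submodule.mem_top

/-- There are no forms of degree `q ≥ n` on the charts. -/
theorem chart_fd_eq_zero (hJ : J.Nonempty) {q : ℕ} (hq : n ≤ q) {e : Fm A (chart I J)} (he : e ∈ Fd A (chart I J) q) :
    e = 0 := by
  obtain ⟨i, hi⟩ := hJ
  refine fd_ind (P := fun e => e = 0) rfl (fun r t => ?_) (fun a b ha hb => by rw [ha, hb, add_zero]) he
  have hc : Fintype.card {l : Fin n // l ≠ i} < q := by
    have h1 : Fintype.card {l : Fin n // l ≠ i} = n - 1 := by
      rw [Fintype.card_subtype_compl, Fintype.card_fin, Fintype.card_unique]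
    have h2 := i.pos
    omega
  have h3 : wd A t = 0 := alt_eq_zero _ (chart_span I hi) hc (ExteriorAlgebra.ιMulti (chart I J) q) _
  rw [h3, mul_zero]

end MPadcGP
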