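import Pool.Agent.Lib.MP_adc574_ag_GP.CarP

/-!
# Finite `p`-bases of fields (helper27)

* `pbas_perfect`: a perfect field has the `p`-basis `1`.
* `exists_pbas_of_finite`: a field `K` which is finite over `K ^ p` has a finite `p`-basis.
* `exists_pbas_of_gen`: this is the case if `K` is the fraction field of the image of a finitely
  generated ring.
-/

set_option autoImplicit false

namespace MPadcGP

universe u v

theorem pbas_perfect {K : Type u} [Field K] {p : ℕ} [Fact p.Prime] [CharP K p]
    (h : ∀ a : K, ∃ b, b ^ p = a) : PBas p (fun _ : Unit => (1 : K)) := by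
  intro c
  obtain ⟨b, hb⟩ := h c
  refine ⟨fun _ => b, ?_, ?_⟩
  · beta_reduce
    rw [Finset.univ_unique, Finset.sum_singleton, mul_one, hb]
  · intro a ha
    rw [Finset.univ_unique, Finset.sum_singleton, mul_one] at ha
    funext x
    apply frobenius_inj K p
    rw [frobenius_def, frobenius_def, hb, ha]

theorem exists_pbas_of_finite {K : Type u} [Field K] {p : ℕ} [Fact p.Prime] [CharP K p]
    [Module.Finite (frobenius K p).fieldRange K] :
    ∃ (L : Type) (_ : Fintype L) (b : L → K), PBas p b := by
  let B := Module.finBasis (frobenius K p).fieldRange K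
  refine ⟨_, inferInstance, fun l => B l, fun c => ?_⟩
  have hmem : ∀ a : K, a ^ p ∈ (frobenius K p).fieldRange := fun a => ⟨a, rfl⟩
  have hex : ∀ x : (frobenius K p).fieldRange, ∃ a : K, a ^ p = x := by
    rintro ⟨x, a, rfl⟩
    exact ⟨a, rfl⟩
  choose r hr using hex
  refine ⟨fun l => r (B.repr c l), ?_, ?_⟩
  · beta_reduce
    have h1 := B.sum_repr c
    conv_lhs => rw [← h1]
    refine Finset.sum_congr rfl fun l _ => ?_
    rw [hr, Subfield.smul_def, smul_eq_mul]
  · intro a ha
    have h1 : c = ∑ l, (⟨a l ^ p, hmem _⟩ : (frobenius K p).fieldRange) • B l := by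
      rw [ha]
      refine Finset.sum_congr rfl fun l _ => ?_
      rw [Subfield.smul_def, smul_eq_mul]
    funext l
    apply frobenius_inj K p
    rw [frobenius_def, frobenius_def, hr, h1, B.repr_sum_self]

/-- A field which is generated by the image of a finitely generated ring has a finite `p`-basis. -/
theorem exists_pbas_of_gen {A : Type v} [CommRing A] [Algebra.FiniteType ℤ A] {K : Type u} [Field K]
    {p : ℕ} [Fact p.Prime] [CharP K p] (φ : A →+* K)
    (h : ∀ x : K, ∃ a b : A, φ b ≠ 0 ∧ x = φ a / φ b) :
    ∃ (L : Type) (_ : Fintype L) (b : L → K), PBas p b := by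
  obtain ⟨S, hS⟩ := (inferInstance : Algebra.FiniteType ℤ A)
  let F := (frobenius K p).fieldRange
  have hint : ∀ x : K, IsIntegral F x := by
    intro x
    have h1 : IsIntegral F (x ^ p) := by
      have h2 : x ^ p = algebraMap F K ⟨x ^ p, x, rfl⟩ := rfl
      rw [h2]
      exact isIntegral_algebraMap
    exact h1.of_pow (Fact.out : p.Prime).pos
  have hfin : Module.Finite F (IntermediateField.adjoin F (φ '' (S : Set A))) :=
    IntermediateField.finiteDimensional_adjoin fun x _ => hint x
  have htop : IntermediateField.adjoin F (φ '' (S : Set A)) = ⊤ := by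
    rw [eq_top_iff]
    intro x _
    have hA : ∀ a : A, φ a ∈ IntermediateField.adjoin F (φ '' (S : Set A)) := by
      intro a
      have ha : a ∈ Algebra.adjoin ℤ (S : Set A) := by
        rw [hS]
        exact Algebra.mem_top
      induction ha using Algebra.adjoin_induction with
      | mem x hx => exact IntermediateField.subset_adjoin _ _ ⟨x, hx, rfl⟩
      | algebraMap n =>
        rw [eq_intCast, map_intCast]
        exact intCast_mem _ n
      | add x y _ _ hx hy =>
        rw [map_add]
        exact add_mem hx hy
      | mul x y _ _ hx hy =>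
        rw [map_mul]
        exact mul_mem hx hy
    obtain ⟨a, b, -, rfl⟩ := h x
    exact div_mem (hA a) (hA b)
  rw [htop] at hfin
  have hfin' : Module.Finite F K := Module.Finite.equiv (IntermediateField.topEquiv (F := F) (E := K)).toLinearEquiv
  exact exists_pbas_of_finite

end MPadcGP
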