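import Pool.Agent.Lib.MP_adc574_ag.Primes

/-!
# Generic smoothness over `ℤ`, points in `ℤ/p²` for infinitely many primes
-/

set_option autoImplicit false

namespace MPadcGP

universe u

private theorem isLoc_congr {A K : Type u} [CommRing A] [CommRing K] [Algebra A K] {M N : Submonoid A} (h : M = N)
    (hM : IsLocalization M K) : IsLocalization N K := by
  subst h
  exact hM

private theorem formallySmooth_field (K : Type u) [Field K] [CharZero K] [iK : Algebra ℤ K]
    (h : Algebra.EssFiniteType ℤ K) : Algebra.FormallySmooth ℤ K := by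
  obtain rfl : iK = Ring.toIntAlgebra K := Subsingleton.elim _ _
  have h4 : Algebra.EssFiniteType ℚ K := .of_comp ℤ ℚ K
  have h5 : Algebra.FormallySmooth ℚ K := inferInstance
  have h6 : Algebra.FormallySmooth ℤ ℚ := .of_isLocalization (nonZeroDivisors ℤ)
  exact .comp ℤ ℚ K

private theorem exists_hom' (C : Type u) [CommRing C] [IsDomain C] [CharZero C] [iC : Algebra ℤ C]
    (h : Algebra.FiniteType ℤ C) (N : ℕ) :
    ∃ p : ℕ, p.Prime ∧ N < p ∧ p % 4 = 1 ∧ Nonempty (C →+* ZMod p) := by
  obtain rfl : iC = Ring.toIntAlgebra C := Subsingleton.elim _ _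
  exact MPadc574.exists_hom C N

/-- A finitely generated domain of characteristic zero becomes smooth over `ℤ` after inverting one element. -/
theorem exists_smooth_away (A : Type u) [CommRing A] [IsDomain A] [CharZero A]
    [Algebra.FiniteType ℤ A] :
    ∃ f : A, f ≠ 0 ∧ Algebra.Smooth ℤ (Localization.Away f) := by
  have hfp : Algebra.FinitePresentation ℤ A := Algebra.FinitePresentation.of_finiteType.1 inferInstance
  let K := Localization.AtPrime (⊥ : Ideal A)
  have hfr : IsFractionRing A K := by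
    have h1 : (⊥ : Ideal A).primeCompl = nonZeroDivisors A := by
      ext x
      rw [mem_nonZeroDivisors_iff_ne_zero, Ideal.mem_primeCompl_iff, Ideal.mem_bot]
    exact isLoc_congr h1 inferInstance
  let _ : Field K := IsFractionRing.toField A
  have hK : CharZero K := charZero_of_injective_algebraMap (IsFractionRing.injective A K)
  have h7 : Algebra.FormallySmooth ℤ K := formallySmooth_field K (.comp ℤ A K)
  have h8 : Algebra.IsSmoothAt ℤ (⊥ : Ideal A) := h7
  obtain ⟨f, hf, hs⟩ := Algebra.IsSmoothAt.exists_notMem_smooth ℤ (⊥ : Ideal A)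
  exact ⟨f, fun h => hf (by rw [h]; exact Ideal.zero_mem _), hs⟩

/-- Points in `ℤ/p` of smooth rings lift to `ℤ/p²`. -/
theorem exists_lift_sq (C : Type u) [CommRing C] [iC : Algebra ℤ C] (h : Algebra.FormallySmooth ℤ C)
    (p : ℕ) [Fact p.Prime] (ψ : C →+* ZMod p) :
    ∃ θ : C →+* ZMod (p ^ 2), ∀ c, ZMod.castHom (dvd_pow_self p two_ne_zero) (ZMod p) (θ c) = ψ c := by
  obtain rfl : iC = Ring.toIntAlgebra C := Subsingleton.elim _ _
  have hp : p.Prime := Fact.out
  have hdvd : p ∣ p ^ 2 := dvd_pow_self p two_ne_zero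
  let π : ZMod (p ^ 2) →+* ZMod p := ZMod.castHom hdvd (ZMod p)
  have hπ : Function.Surjective π := ZMod.castHom_surjective hdvd
  have hpp : (p : ZMod (p ^ 2)) * p = 0 := by
    have h1 : ((p ^ 2 : ℕ) : ZMod (p ^ 2)) = 0 := ZMod.natCast_self _
    rw [← h1]
    push_cast
    ring
  have key : ∀ z : ZMod (p ^ 2), z ∈ RingHom.ker π → ∃ w : ZMod (p ^ 2), z = (p : ZMod (p ^ 2)) * w := by
    intro z hz
    have : NeZero (p ^ 2) := ⟨pow_ne_zero 2 hp.ne_zero⟩
    obtain ⟨n, rfl⟩ := ZMod.natCast_zmod_surjective z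
    rw [RingHom.mem_ker, map_natCast, ZMod.natCast_eq_zero_iff] at hz
    obtain ⟨m, rfl⟩ := hz
    exact ⟨(m : ZMod (p ^ 2)), by push_cast; ring⟩
  have hnil : IsNilpotent (RingHom.ker π) := by
    refine ⟨2, ?_⟩
    refine le_antisymm ?_ bot_le
    refine (pow_two (RingHom.ker π)).le.trans (Ideal.mul_le.2 ?_)
    intro x hx y hy
    obtain ⟨x', rfl⟩ := key x hx
    obtain ⟨y', rfl⟩ := key y hy
    refine Ideal.mem_bot.2 ?_
    linear_combination (x' * y') * hpp
  exact ⟨((Algebra.FormallySmooth.liftOfSurjective ψ.toIntAlgHom π.toIntAlgHom hπ hnil :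
    C →ₐ[ℤ] ZMod (p ^ 2)) : C →+* ZMod (p ^ 2)),
    fun c => Algebra.FormallySmooth.liftOfSurjective_apply ψ.toIntAlgHom π.toIntAlgHom hπ hnil c⟩

/-- A finitely generated domain of characteristic zero has points in `ℤ/p²` for infinitely many `p`, at which
a given `a ≠ 0` is a unit. -/
theorem exists_hom_sq (A : Type u) [CommRing A] [IsDomain A] [CharZero A]
    [Algebra.FiniteType ℤ A] (a : A) (ha : a ≠ 0) (N : ℕ) :
    ∃ p : ℕ, p.Prime ∧ N < p ∧ ∃ φ : A →+* ZMod (p ^ 2), IsUnit (φ a) := by
  obtain ⟨f, hf, hs⟩ := exists_smooth_away A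
  let B := Localization.Away f
  have hBd : IsDomain B := IsLocalization.isDomain_localization
    (powers_le_nonZeroDivisors_of_noZeroDivisors hf)
  have hinj : Function.Injective (algebraMap A B) :=
    IsLocalization.injective B (powers_le_nonZeroDivisors_of_noZeroDivisors hf)
  let b : B := algebraMap A B a
  have hb : b ≠ 0 := fun h => ha (hinj (h.trans (map_zero _).symm))
  let C := Localization.Away b
  have hBs : Algebra.Smooth ℤ B := hs
  have hCs : Algebra.Smooth B C := Algebra.Smooth.of_isLocalization_Away b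
  have hZC : Algebra.Smooth ℤ C := Algebra.Smooth.comp ℤ B C
  have hCd : IsDomain C := IsLocalization.isDomain_localization
    (powers_le_nonZeroDivisors_of_noZeroDivisors hb)
  have hBinj : Function.Injective (algebraMap B C) :=
    IsLocalization.injective C (powers_le_nonZeroDivisors_of_noZeroDivisors hb)
  have hB0 : CharZero B := charZero_of_injective_algebraMap hinj
  have hC0 : CharZero C := charZero_of_injective_algebraMap hBinj
  have hfpC : Algebra.FinitePresentation ℤ C := hZC.finitePresentation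
  obtain ⟨p, hp, hN, -, ⟨ψ⟩⟩ := exists_hom' C Algebra.FiniteType.of_finitePresentation N
  have : Fact p.Prime := ⟨hp⟩
  have hfs : Algebra.FormallySmooth ℤ C := hZC.formallySmooth
  obtain ⟨θ, -⟩ := exists_lift_sq C hfs p ψ
  refine ⟨p, hp, hN, θ.comp ((algebraMap B C).comp (algebraMap A B)), ?_⟩
  have hu : IsUnit (algebraMap B C b) := IsLocalization.Away.algebraMap_isUnit b
  exact hu.map θ

end MPadcGP
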