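import Pool.Agent.Lib.MP_adc574_ag_GP.DIe
import Pool.Agent.Lib.MP_adc574_ag_GP.DIg
import Pool.Agent.Lib.MP_adc574_ag_GP.FdV
import Pool.Agent.Lib.MP_adc574_ag_GP.CarGl
import Pool.Agent.Lib.MP_adc574_ag_GP.PBas
import Pool.Agent.Lib.MP_adc574_ag_GP.Pt

/-!
# Deligne-Illusie XI (helper59): smooth projective varieties
-/

set_option autoImplicit false

namespace MPadcGP

universe u v w

/-- The de Rham cohomology of the reduction modulo `p` of a smooth projective variety over `ℤ/p²` has the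
dimension of the Hodge cohomology, if `p ≥ n`. -/
theorem finrank_HdR_red {p : ℕ} [Fact p.Prime] {A : Type u} [CommRing A] {n : ℕ}
    {I : Ideal (MvPolynomial (Fin n) A)} (hI : IsHomog I) (hs : IsSmoothProj I) (θ : A →+* ZMod (p ^ 2))
    (hn : n ≤ p)
    (hf : ∀ q m, FiniteDimensional (ZMod p) (HH (κ := ZMod p) (prC (bI ((rd p).comp θ) I)).Dt
      ((prC (bI ((rd p).comp θ) I)).Fi (q + 1)) ((prC (bI ((rd p).comp θ) I)).Fi q) m)) {r m : ℕ}
    (hr : m + 1 < r) :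
    Module.finrank (ZMod p) ((prC (bI ((rd p).comp θ) I)).HdR m) =
      ∑ q ∈ Finset.range r, Module.finrank (ZMod p) (HH (κ := ZMod p) (prC (bI ((rd p).comp θ) I)).Dt
        ((prC (bI ((rd p).comp θ) I)).Fi (q + 1)) ((prC (bI ((rd p).comp θ) I)).Fi q) m) := by
  obtain ⟨L⟩ := exists_liftD_of_hom (Fact.out : p.Prime) hI θ (hs.map hI θ)
  have hIp : IsHomog (bI ((rd p).comp θ) I) := hI.map _
  have hsp : IsSmoothProj (bI ((rd p).comp θ) I) := hs.map hI _
  refine LiftD.finrank_HdR L (fun J hJ => ?_) (fun J hJ q hq e he => ?_) hf hr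
  · have h1 : Algebra.Smooth (ZMod p) ((prC (bI ((rd p).comp θ) I)).R J) := hsp.smooth hIp hJ
    refine CarP.isCart (carP_of_smooth (pbas_perfect fun a => ⟨a, ZMod.pow_card a⟩))
  · exact chart_fd_eq_zero _ hJ (hn.trans hq) he

/-- PART DI: the sum of the Hodge numbers is at most the Betti number. -/
theorem sum_hodge_of {A : Type u} [CommRing A] [IsDomain A] [CharZero A] [Algebra.FiniteType ℤ A] {n : ℕ}
    {I : Ideal (MvPolynomial (Fin n) A)} (hI : IsHomog I) (hs : IsSmoothProj I) {β : ℕ → Type}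
    [∀ m, Fintype (β m)] {lev : ∀ m, β m → ℕ} {z : ∀ m, β m → (prC I).Ch} {h : ℕ → ℕ → ℕ}
    (had : ∀ (κ : Type) [Field κ] (φ : A →+* κ),
      IsAd (prC (bI φ I)) lev (fun m b => (prH φ I).push (z m b)))
    (hho : ∀ (κ : Type) [Field κ] (φ : A →+* κ) (q m : ℕ),
      FiniteDimensional κ (HH (prC (bI φ I)).Dt ((prC (bI φ I)).Fi (q + 1)) ((prC (bI φ I)).Fi q) m) ∧
      Module.finrank κ (HH (prC (bI φ I)).Dt ((prC (bI φ I)).Fi (q + 1)) ((prC (bI φ I)).Fi q) m) = h q m)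
    (m : ℕ) {r : ℕ} (hr : m + 1 < r) : Fintype.card (β m) = ∑ q ∈ Finset.range r, h q m := by
  obtain ⟨p, hp, hnp, θ, -⟩ := exists_hom_sq A 1 one_ne_zero n
  have hF : Fact p.Prime := ⟨hp⟩
  rw [← (had (ZMod p) ((rd p).comp θ)).finrank m,
    finrank_HdR_red hI hs θ hnp.le (fun q m => (hho (ZMod p) ((rd p).comp θ) q m).1) hr]
  exact Finset.sum_congr rfl fun q _ => (hho (ZMod p) ((rd p).comp θ) q m).2

end MPadcGP
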