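import Pool.Agent.Lib.MP_adc574_ag_GP.Parts
import Pool.Agent.Lib.MP_adc574_ag_GP.DIh

/-!
# Deligne-Illusie XII (helper59): part DI
-/

set_option autoImplicit false

namespace MPadcGP

universe u v w

/-- PART DI (helper59, helper24): degeneration of the Hodge spectral sequence. -/
theorem sum_hodge {A : Type u} [CommRing A] [IsDomain A] [CharZero A] [Algebra.FiniteType ℤ A] {n : ℕ}
    {I : Ideal (MvPolynomial (Fin n) A)} (hI : IsHomog I) (hs : IsSmoothProj I) {β : ℕ → Type}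
    [∀ m, Fintype (β m)] {lev : ∀ m, β m → ℕ} {z : ∀ m, β m → (prC I).Ch} {h : ℕ → ℕ → ℕ}
    (hD : Dat I lev z h) (m : ℕ) : ∑ q ∈ Finset.range (m + 1), h q m ≤ Fintype.card (β m) := by
  rw [sum_hodge_of hI hs (fun κ _ φ => hD.ad0 κ φ) (fun κ _ φ => hD.hodge0 κ φ) m (Nat.lt_succ_self (m + 1)),
    Finset.sum_range_succ _ (m + 1)]
  exact Nat.le_add_right _ _

end MPadcGP
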