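import Pool.Agent.Lib.MP_adc574_ag_GP.CarFin
import Pool.Agent.Lib.MP_adc574_ag_GP.SumH

/-!
# GP: the assembly, lemmas
-/

set_option autoImplicit false

namespace MPadcGP

universe u v w x

/-- Inverting an element. -/
theorem exists_inv {k : Type u} [Field k] (A : Subalgebra ℤ k) (hA : A.FG) (a : A) (ha : a ≠ 0) :
    ∃ (A' : Subalgebra ℤ k) (hle : A ≤ A'), A'.FG ∧
      IsUnit ((Subalgebra.inclusion hle).toRingHom a) := by
  refine ⟨A ⊔ Algebra.adjoin ℤ {(a : k)⁻¹}, le_sup_left, hA.sup ⟨{(a : k)⁻¹}, by simp⟩, ?_⟩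
  have h0 : (a : k) ≠ 0 := fun h => ha (Subtype.ext h)
  refine IsUnit.of_mul_eq_one ⟨(a : k)⁻¹, ?_⟩ (Subtype.ext ?_)
  · exact (le_sup_right : Algebra.adjoin ℤ {(a : k)⁻¹} ≤ A ⊔ Algebra.adjoin ℤ {(a : k)⁻¹})
      (Algebra.subset_adjoin (Set.mem_singleton _))
  · exact mul_inv_cancel₀ h0

theorem pbas_finite {p : ℕ} [hp : Fact p.Prime] {κ : Type u} [Field κ] [CharP κ p] [Finite κ] :
    PBas p (fun _ : Unit => (1 : κ)) := by
  intro c
  have hinj : Function.Injective (frobenius κ p) := frobenius_inj κ p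
  obtain ⟨d, hd⟩ := (Finite.injective_iff_surjective.1 hinj) c
  have hd' : d ^ p = c := hd
  refine ⟨fun _ => d, ?_, fun a ha => ?_⟩
  · change c = ∑ l : Unit, d ^ p * 1
    rw [Fintype.sum_unique, mul_one, hd']
  · replace ha : c = ∑ l : Unit, a l ^ p * 1 := ha
    rw [Fintype.sum_unique, mul_one] at ha
    funext _
    apply hinj
    change a default ^ p = d ^ p
    rw [hd', ← ha]

/-- In a field the specialized data give the hypotheses of the Cartier part. -/
theorem dat_sum {A : Type u} [CommRing A] [IsDomain A] [CharZero A] [Algebra.FiniteType ℤ A] {n : ℕ}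
    {I : Ideal (MvPolynomial (Fin n) A)} (hI : IsHomog I) (hs : IsSmoothProj I) {β : ℕ → Type}
    [∀ m, Fintype (β m)] {lev : ∀ m, β m → ℕ} {z : ∀ m, β m → (prC I).Ch} {h : ℕ → ℕ → ℕ}
    (hD : Dat I lev z h) {κ : Type u} [Field κ] (φ : A →+* κ) (m : ℕ) :
    ∑ q ∈ Finset.range (m + 1), Module.finrank κ
      (HH (prC (bI φ I)).Dt ((prC (bI φ I)).Fi (q + 1)) ((prC (bI φ I)).Fi q) m) ≤
        Module.finrank κ ((prC (bI φ I)).HdR m) := by
  rw [(hD.ad κ φ).finrank m]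
  refine le_trans (le_of_eq ?_) (sum_hodge hI hs hD m)
  exact Finset.sum_congr rfl fun q _ => (hD.hodge κ φ q m).2

end MPadcGP
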