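import Pool.Agent.Lib.MP_adc574_ag_GP.Parts2
import Pool.Agent.Lib.MP_adc574_ag_GP.GlGen

/-!
# GP2: the linear data over `A` with weights (parts W3 and W8, helper10)
-/

set_option autoImplicit false
set_option linter.unusedSectionVars false

namespace MPadcGP

universe u v w x

section

variable {M : Type} [AddCommGroup M] [Fintype M] [DecidableEq M]

/-- Every cocycle of weight `a.2` is a combination of the adapted basis up to a coboundary. -/
theorem IsAdW.exists_coord {A : Type u} [CommRing A] {n : ℕ} {X : CovD.{u, v} A n} {W : GrX X M}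
    {β : ℕ × M → Type} [∀ a, Fintype (β a)] {lev : ∀ a, β a → ℕ} {z : ∀ a, β a → X.Ch}
    (h : IsAdW W lev z) (a : ℕ × M) {x : X.Ch} (hx : x ∈ X.Zc a.1) (hw : x ∈ W.Wt a.2) :
    ∃ c : β a → A, x - ∑ b, c b • z a b ∈ X.Bc a.1 := by
  obtain ⟨c, -, hc⟩ := h.gen a 0 x (by rw [CovD.Fi_zero]; exact hx.1) hw hx.2
  exact ⟨c, hc⟩

/-- PART W3: the linear data. `S m j`: sets of logarithmic cocycles. -/
theorem exists_relW {A : Type u} [CommRing A] {n : ℕ} {X : CovD.{u, v} A n} {W : GrX X M}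
    {β : ℕ × M → Type} [∀ a, Fintype (β a)] {lev : ∀ a, β a → ℕ} {z : ∀ a, β a → X.Ch}
    (hD : IsAdW W lev z) {N : ℕ} {D : Fin N → Derivation ℤ A A}
    (V : ∀ l, Lft X (D l)) (hV : ∀ l, W.IsGr (V l)) (S : ∀ _ _ : ℕ, Set X.Ch)
    (hS : ∀ m j, ∀ c ∈ S m j, IsLogCoc X m j c) :
    ∃ (G : ∀ a, Fin N → β a → β a → A) (mu : ∀ a a', β a → β a' → β (a + a') → A)
      (Lg : ∀ a : ℕ × M, ℕ → Set (β a → A)), LinRelW W z V G mu Lg ∧
        ∀ (a : ℕ × M) j, ∀ c ∈ S a.1 j, ∃ g ∈ Lg a j, W.P a.2 c - ∑ b, g b • z a b ∈ X.Bc a.1 := by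
  have h1 : ∀ a l b, ∃ c : β a → A, (V l).Gm (z a b) - ∑ b', c b' • z a b' ∈ X.Bc a.1 := by
    intro a l b
    refine hD.exists_coord a (Lft.Gm_mem_Zc (V l) (hD.mem_Zc a b)) ?_
    rw [W.mem_Wt, W.P_Gm (hV l) a.2 (hD.mem a b).1.1, W.mem_Wt.1 (hD.wt a b)]
  choose G hG using h1
  have h2 : ∀ a a' b b', ∃ c : β (a + a') → A,
      X.cup (z a b) (z a' b') - ∑ e, c e • z (a + a') e ∈ X.Bc (a.1 + a'.1) :=
    fun a a' b b' => hD.exists_coord (a + a')
      (CovD.cup_mem_Zc (hD.mem_Zc a b) (hD.mem_Zc a' b')) (W.cup_mem_Wt (hD.wt a b) (hD.wt a' b'))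
  choose mu hmu using h2
  refine ⟨fun a l b' b => G a l b b', mu,
    fun a j => {g | ∃ c ∈ S a.1 j, W.P a.2 c - ∑ b, g b • z a b ∈ X.Bc a.1}, ⟨hG, hmu, ?_⟩, ?_⟩
  · rintro a j g ⟨c, hc, hg⟩
    exact ⟨c, hS a.1 j c hc, hg⟩
  · intro a j c hc
    obtain ⟨g, hg⟩ := hD.exists_coord a (W.P_mem_Zc (hS a.1 j c hc).1 a.2) (W.P_mem a.2 c)
    exact ⟨g, ⟨c, hc, hg⟩, hg⟩

/-- PART W8: the dimensions of the Hodge filtration per weight. -/
theorem IsAdW.finrank_Fil {κ : Type u} [Field κ] {n : ℕ} {X : CovD.{u, v} κ n} {W : GrX X M}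
    {β : ℕ × M → Type} [∀ a, Fintype (β a)] {lev : ∀ a, β a → ℕ} {z : ∀ a, β a → X.Ch}
    (h : IsAdW W lev z) (a : ℕ × M) (i : ℕ) :
    Module.finrank κ ↥(X.Fil a.1 i ⊓ W.HW a.1 a.2) = Fintype.card {b : β a // ¬ lev a b < i} := by
  classical
  let f : ({b : β a // ¬ lev a b < i} → κ) →ₗ[κ] (β a → κ) :=
    { toFun := fun c b => if hb : ¬ lev a b < i then c ⟨b, hb⟩ else 0
      map_add' := fun c c' => by
        funext b
        rw [Pi.add_apply]
        by_cases hb : ¬ lev a b < i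
        · rw [dif_pos hb, dif_pos hb, dif_pos hb, Pi.add_apply]
        · rw [dif_neg hb, dif_neg hb, dif_neg hb, add_zero]
      map_smul' := fun r c => by
        funext b
        rw [RingHom.id_apply, Pi.smul_apply]
        by_cases hb : ¬ lev a b < i
        · rw [dif_pos hb, dif_pos hb, Pi.smul_apply]
        · rw [dif_neg hb, dif_neg hb, smul_zero] }
  have hf : ∀ c b, f c b = if hb : ¬ lev a b < i then c ⟨b, hb⟩ else 0 := fun c b => rfl
  have hfi : Function.Injective f := by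
    intro c c' hc
    funext b
    have h1 := congrFun hc b.1
    rw [hf, hf, dif_pos b.2, dif_pos b.2] at h1
    exact h1
  have hr : LinearMap.range ((h.crd a).comp f) = X.Fil a.1 i ⊓ W.HW a.1 a.2 := by
    ext y
    constructor
    · rintro ⟨c, rfl⟩
      rw [LinearMap.comp_apply]
      refine ⟨h.crd_mem_Fil.2 fun b hb => ?_, h.crd_mem a _⟩
      rw [hf, dif_neg (not_not.2 hb)]
    · rintro ⟨h1, h2⟩
      obtain ⟨c, rfl⟩ := h.exists_crd h2
      refine ⟨fun b => c b.1, ?_⟩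
      rw [LinearMap.comp_apply]
      congr 1
      funext b
      rw [hf]
      by_cases hb : ¬ lev a b < i
      · rw [dif_pos hb]
      · rw [dif_neg hb, h.crd_mem_Fil.1 h1 b (not_not.1 hb)]
  rw [← hr, LinearMap.finrank_range_of_inj (by
    rw [LinearMap.coe_comp]
    exact (h.crd_injective a).comp hfi), Module.finrank_fintype_fun_eq_card]

end

end MPadcGP
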