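import Pool.Agent.Lib.MP_adc574_ag_GP.DatWb

/-!
# GP2, part W1: the adapted bases of the graded cohomology, assembly
-/

set_option autoImplicit false
set_option linter.unusedSectionVars false

namespace MPadcGP

universe u v w x

variable {M : Type} [AddCommGroup M] [Fintype M] [DecidableEq M]

/-- Part W1 from part F + BC. -/
theorem exists_datW_of {A : Type u} [CommRing A] [IsDomain A] {n : ℕ}
    {I : Ideal (MvPolynomial (Fin n) A)} (hI : IsHomog I) {wt : Fin n → M} (hw : IsWHomog wt I)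
    (hdat : ∃ a : A, a ≠ 0 ∧ ∀ (A' : Type u) [CommRing A'] (φ : A →+* A'), IsUnit (φ a) →
      ∃ (β : ℕ → Type) (_ : ∀ m, Fintype (β m)) (_ : ∀ m, DecidableEq (β m))
        (lev : ∀ m, β m → ℕ) (z : ∀ m, β m → (prC (bI φ I)).Ch) (h : ℕ → ℕ → ℕ),
        Dat (bI φ I) lev z h) :
    ∃ a : A, a ≠ 0 ∧ ∀ (A' : Type u) [CommRing A'] (φ : A →+* A'), IsUnit (φ a) →
      ∃ (β : ℕ × M → Type) (_ : ∀ a, Fintype (β a)) (_ : ∀ a, DecidableEq (β a))
        (lev : ∀ a, β a → ℕ) (z : ∀ a, β a → (prC (bI φ I)).Ch) (h : ℕ → ℕ → ℕ),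
        DatW (hI.map φ) (hw.map φ) lev z h := by
  obtain ⟨a, ha, H⟩ := hdat
  let A₁ : Type u := Localization.Away a
  let φ₁ : A →+* A₁ := algebraMap A A₁
  have hle : Submonoid.powers a ≤ nonZeroDivisors A := by
    rintro _ ⟨k, rfl⟩
    exact pow_mem (mem_nonZeroDivisors_of_ne_zero ha) k
  have hdom : IsDomain A₁ := IsLocalization.isDomain_localization hle
  have hu₁ : IsUnit (φ₁ a) := (IsLocalization.Away.algebraMap_isUnit a : IsUnit (algebraMap A A₁ a))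
  obtain ⟨β, fi, de, lev, z, h, hD⟩ := H A₁ φ₁ hu₁
  obtain ⟨s, hs, S, hS⟩ := exists_datW_of_dat (wt := wt) (hI.map φ₁) (hw.map φ₁) hD
  obtain ⟨k, x, hx⟩ := IsLocalization.Away.surj a s
  have hx0 : x ≠ 0 := by
    rintro rfl
    rw [map_zero] at hx
    rcases mul_eq_zero.1 hx with h1 | h1
    · exact hs h1
    · exact (pow_ne_zero k (IsUnit.ne_zero hu₁)) h1
  refine ⟨a * x, mul_ne_zero ha hx0, fun A' _ φ hφ => ?_⟩
  rw [map_mul] at hφ
  have hφa : IsUnit (φ a) := isUnit_of_mul_isUnit_left hφ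
  have hφx : IsUnit (φ x) := isUnit_of_mul_isUnit_right hφ
  let ψ : A₁ →+* A' := IsLocalization.Away.lift a hφa
  have hψ : ψ.comp φ₁ = φ := IsLocalization.Away.lift_comp a hφa
  have hψ1 : ∀ y, ψ (φ₁ y) = φ y := fun y => by rw [← hψ, RingHom.comp_apply]
  have hψs : IsUnit (ψ s) := by
    have h1 := congrArg ψ hx
    rw [map_mul, map_pow] at h1
    have h2 : ψ (algebraMap A A₁ a) = φ a := hψ1 a
    have h3 : ψ (algebraMap A A₁ x) = φ x := hψ1 x
    rw [h2, h3] at h1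
    rw [← h1] at hφx
    exact isUnit_of_mul_isUnit_left hφx
  have hDW := hS A' ψ hψs
  have key : ∀ (J : Ideal (MvPolynomial (Fin n) A')) (hJ : IsHomog J) (hJw : IsWHomog wt J),
      J = bI ψ (bI φ₁ I) → ∃ (β : ℕ × M → Type) (_ : ∀ a, Fintype (β a))
        (_ : ∀ a, DecidableEq (β a)) (lev : ∀ a, β a → ℕ) (z : ∀ a, β a → (prC J).Ch)
        (h : ℕ → ℕ → ℕ), DatW hJ hJw lev z h := by
    rintro J hJ hJw rfl
    exact ⟨_, inferInstance, inferInstance, _, _, _, hDW⟩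
  exact key (bI φ I) (hI.map φ) (hw.map φ) (by rw [bI_bI, hψ])

end MPadcGP
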