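import Pool.Agent.Lib.MP_adc574_ag_GP.Cw

/-!
# Finiteness of the de Rham cohomology and of its Hodge filtration
-/

set_option autoImplicit false

namespace MPadcGP

universe u v w

namespace CovD

variable {A : Type u} [CommRing A] {n : ℕ} (X : CovD.{u, u} A n)

/-- The Hodge filtration in the previous degree. -/
noncomputable def Fp (i : ℕ) : ℕ → Submodule A X.Ch
  | 0 => ⊥
  | m + 1 => X.Fi i m

variable {X}

theorem Fp_zero (i : ℕ) : X.Fp i 0 = ⊥ := rfl

theorem Fp_succ (i m : ℕ) : X.Fp i (m + 1) = X.Fi i m := rfl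

theorem Fp_anti {i j : ℕ} (h : i ≤ j) (m : ℕ) : X.Fp j m ≤ X.Fp i m := by
  cases m with
  | zero => exact le_rfl
  | succ m => exact Fi_anti h m

theorem Fi_eq_bot {i m : ℕ} (h : m < i) : X.Fi i m = ⊥ := by
  rw [eq_bot_iff]
  rintro c ⟨hc, hc'⟩
  rw [Submodule.mem_bot]
  funext J
  rcases Nat.eq_zero_or_pos J.card with h1 | h1
  · rw [Finset.card_eq_zero.1 h1]
    exact hc.1
  · exact hc' J (by omega)

theorem Cq_le {i j : ℕ} : X.Cq i (j + 1) ≤ X.Fi i (i + j) := by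
  rintro c ⟨hc0, hc⟩
  refine ⟨⟨hc0, fun J => ⟨fun q hq => ?_, fun hJ => (hc J).2 (by omega)⟩⟩, fun J hJ => (hc J).2 (by omega)⟩
  by_cases h1 : J.card = j + 1
  · have h2 : q = i := by omega
    rw [h2]
    exact (hc J).1 h1
  · rw [(hc J).2 h1]
    exact Submodule.zero_mem _

theorem Cq_zero {i : ℕ} : X.Cq i 0 = ⊥ := by
  rw [eq_bot_iff]
  rintro c ⟨hc0, hc⟩
  rw [Submodule.mem_bot]
  funext J
  by_cases h1 : J.card = 0
  · rw [Finset.card_eq_zero.1 h1]
    exact hc0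
  · exact (hc J).2 h1

/-- The exterior derivative of a Čech cochain of `i`-forms lies in the next step of the Hodge filtration. -/
theorem dc_Cq {i j : ℕ} {c : X.Ch} (hc : c ∈ X.Cq i (j + 1)) : X.dc c ∈ X.Fi (i + 1) (i + j + 1) := by
  obtain ⟨hc0, hc'⟩ := hc
  refine ⟨⟨by rw [dc_apply, hc0, map_zero], fun J => ⟨fun q hq => ?_, fun hJ => ?_⟩⟩, fun J hJ => ?_⟩
  · by_cases h1 : J.card = j + 1
    · have h2 : q = i + 1 := by omega
      rw [h2, dc_apply]
      exact dd_mem ((hc' J).1 h1)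
    · rw [dc_apply, (hc' J).2 h1, map_zero]
      exact Submodule.zero_mem _
  · rw [dc_apply, (hc' J).2 (by omega), map_zero]
  · rw [dc_apply, (hc' J).2 (by omega), map_zero]

theorem ic_Cq {i j : ℕ} {c : X.Ch} (hc : c ∈ X.Cq i j) : X.ic c = ((-1 : ℤ) ^ i) • c := by
  funext J
  rw [ic_apply, Pi.smul_apply]
  by_cases h1 : J.card = j
  · rw [inv_mem ((hc.2 J).1 h1), zsmul_eq_mul]
    push_cast
    rfl
  · rw [(hc.2 J).2 h1, map_zero, smul_zero]

theorem del_Cq {i j : ℕ} {c : X.Ch} (hc : c ∈ X.Cq i j) : X.del c ∈ X.Cq i (j + 1) := by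
  obtain ⟨hc0, hc'⟩ := hc
  refine ⟨by rw [del_apply, Finset.sum_empty], fun J => ⟨fun hJ => ?_, fun hJ => ?_⟩⟩
  · rw [del_apply]
    refine Submodule.sum_mem _ fun l hl => zsmul_mem ?_ _
    have h1 := Finset.card_erase_add_one hl
    exact ev_mem ((hc' _).1 (by omega)) _
  · rw [del_apply]
    refine Finset.sum_eq_zero fun l hl => ?_
    have h1 := Finset.card_erase_add_one hl
    rw [ev_eq_zero ((hc' _).2 (by omega)), smul_zero]

theorem zpow_smul_mem {T : Type v} [AddCommGroup T] [Module A T] (P : Submodule A T) (i : ℕ) {x : T} :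
    ((-1 : ℤ) ^ i) • x ∈ P ↔ x ∈ P := by
  rcases neg_one_pow_eq_or ℤ i with h | h
  · rw [h, one_smul]
  · rw [h, neg_one_smul, Submodule.neg_mem_iff]

/-- The part of form degree `i`. -/
theorem exists_lead {i j : ℕ} {c : X.Ch} (hc : c ∈ X.Fi i (i + j)) :
    ∃ c1 ∈ X.Cq i (j + 1), c - c1 ∈ X.Fi (i + 1) (i + j) := by
  classical
  obtain ⟨⟨hc0, hc1⟩, hc2⟩ := hc
  refine ⟨fun J => if J.card = j + 1 then c J else 0, ⟨if_neg (by simp), fun J => ⟨fun hJ => ?_, fun hJ => if_neg hJ⟩⟩,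
    ⟨⟨?_, fun J => ⟨fun q hq => ?_, fun hJ => ?_⟩⟩, fun J hJ => ?_⟩⟩
  · change (if J.card = j + 1 then c J else 0) ∈ _
    rw [if_pos hJ]
    exact (hc1 J).1 i (by omega)
  · change c ∅ - (if (∅ : Finset (Fin n)).card = j + 1 then c ∅ else 0) = 0
    rw [if_neg (by simp), hc0, sub_zero]
  · change c J - (if J.card = j + 1 then c J else 0) ∈ _
    split_ifs with h1
    · rw [sub_self]
      exact Submodule.zero_mem _
    · rw [sub_zero]
      exact (hc1 J).1 q hq
  · change c J - (if J.card = j + 1 then c J else 0) = 0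
    rw [if_neg (by omega), sub_zero]
    exact (hc1 J).2 hJ
  · change c J - (if J.card = j + 1 then c J else 0) = 0
    split_ifs with h1
    · rw [sub_self]
    · rw [sub_zero]
      exact hc2 J (by omega)

theorem Cq_inf_Fi {i j m : ℕ} {c : X.Ch} (h1 : c ∈ X.Cq i j) (h2 : c ∈ X.Fi (i + 1) m) (hm : m + 1 = i + j) :
    c = 0 := by
  funext J
  by_cases h3 : J.card = j
  · exact h2.2 J (by omega)
  · exact (h1.2 J).2 h3

end CovD

namespace IsProj

variable {A : Type u} [CommRing A] {n : ℕ} {X : CovD.{u, u} A n}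
  {μ : ∀ J : Finset (Fin n), (Fin n → ℤ) → X.R J}

open CovD

/-- One step of the Hodge filtration. -/
theorem fg_gr [IsNoetherianRing A] (h : IsProj X μ) (i m : ℕ) :
    FGq (X.Fi i m ⊓ (X.Fi (i + 1) (m + 1)).comap X.Dt) (X.Fi (i + 1) m ⊔ (X.Fp i m).map X.Dt) := by
  rcases Nat.lt_or_ge m i with hm | hm
  · rw [Fi_eq_bot hm, bot_inf_eq]
    exact FGq.bot _
  obtain ⟨j, rfl⟩ := Nat.exists_eq_add_of_le hm
  obtain ⟨s, hs, hsZ, hZs⟩ := h.fg_Cq i j
  refine ⟨s, hs, ?_, ?_⟩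
  · intro c hc
    obtain ⟨h1, h2⟩ := hsZ hc
    refine ⟨Cq_le h1, ?_⟩
    change X.Dt c ∈ X.Fi (i + 1) (i + j + 1)
    have h3 : X.del c = 0 := h2
    rw [Dt_apply, ic_Cq h1, map_zsmul, h3, smul_zero, add_zero]
    exact dc_Cq h1
  · rintro c ⟨hc, hc'⟩
    obtain ⟨c1, hc1, hc2⟩ := exists_lead hc
    -- the leading part is a cocycle
    have h3 : X.Dt c1 ∈ X.Fi (i + 1) (i + j + 1) := by
      have h4 : X.Dt c1 = X.Dt c - X.Dt (c - c1) := by
        rw [map_sub]
        abel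
      rw [h4]
      exact Submodule.sub_mem _ hc' (Dt_mem_Fi hc2)
    have h5 : X.del c1 = 0 := by
      refine Cq_inf_Fi (del_Cq hc1) ?_ (show i + j + 1 + 1 = i + (j + 1 + 1) by omega)
      rw [← zpow_smul_mem (X.Fi (i + 1) (i + j + 1)) i]
      have h6 : ((-1 : ℤ) ^ i) • X.del c1 = X.Dt c1 - X.dc c1 := by
        rw [Dt_apply, ic_Cq hc1, map_zsmul]
        abel
      rw [h6]
      exact Submodule.sub_mem _ h3 (dc_Cq hc1)
    obtain ⟨b, hb, _, ⟨e, he, rfl⟩, hbe⟩ := Submodule.mem_sup.1 (hZs ⟨hc1, h5⟩)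
    have h7 : X.del e ∈ X.Fi (i + 1) (i + j) ⊔ (X.Fp i (i + j)).map X.Dt := by
      cases j with
      | zero =>
        have h8 : e = 0 := by
          rw [Cq_zero] at he
          exact (Submodule.mem_bot A).1 he
        rw [h8, map_zero]
        exact Submodule.zero_mem _
      | succ j =>
        rw [← zpow_smul_mem _ i]
        have h6 : ((-1 : ℤ) ^ i) • X.del e = -X.dc e + X.Dt e := by
          rw [Dt_apply, ic_Cq he, map_zsmul]
          abel
        rw [h6]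
        exact Submodule.mem_sup.2 ⟨_, Submodule.neg_mem _ (dc_Cq he), _, ⟨e, Cq_le he, rfl⟩, rfl⟩
    have h8 : c = b + (X.del e + (c - c1)) := by
      rw [← hbe]
      abel
    rw [h8]
    exact Submodule.add_mem _ (Submodule.mem_sup_left hb)
      (Submodule.mem_sup_right (Submodule.add_mem _ h7 (Submodule.mem_sup_left hc2)))

/-- The cohomology of `F^i / F^(i+k)` is finitely generated. -/
theorem fg_Fi [IsNoetherianRing A] (h : IsProj X μ) (i k m : ℕ) :
    FGq (X.Fi i m ⊓ (X.Fi (i + k) (m + 1)).comap X.Dt) (X.Fi (i + k) m ⊔ (X.Fp i m).map X.Dt) := by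
  induction k with
  | zero =>
    rw [add_zero]
    refine ⟨∅, Set.finite_empty, Set.empty_subset _, ?_⟩
    exact le_sup_of_le_right (le_sup_of_le_left inf_le_left)
  | succ k ih =>
    exact les_fil X.Dt Dt_Dt (X.Fi (i + (k + 1)) m) (X.Fi (i + k) m) (X.Fi i m) (X.Fp (i + k) m) (X.Fp i m)
      (X.Fi (i + (k + 1)) (m + 1)) (X.Fi (i + k) (m + 1)) (Fi_anti (by omega) m) (Fp_anti (by omega) m)
      (Fi_anti (by omega) (m + 1)) (h.fg_gr (i + k) m) ih

/-- The cohomology of the step `F^i` of the Hodge filtration is finitely generated. -/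
theorem fg_F [IsNoetherianRing A] (h : IsProj X μ) (i m : ℕ) :
    FGq (X.Fi i m ⊓ LinearMap.ker X.Dt) ((X.Fp i m).map X.Dt) := by
  have h1 := h.fg_Fi i (m + 2) m
  rw [Fi_eq_bot (show m + 1 < i + (m + 2) by omega), Fi_eq_bot (show m < i + (m + 2) by omega), bot_sup_eq] at h1
  exact h1

/-- The de Rham cohomology is finitely generated. -/
theorem fg_T [IsNoetherianRing A] (h : IsProj X μ) (m : ℕ) :
    FGq (X.Tt m ⊓ LinearMap.ker X.Dt) ((X.Fp 0 m).map X.Dt) := by
  rw [← Fi_zero]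
  exact h.fg_F 0 m

end IsProj

end MPadcGP
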