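import Pool.Agent.Lib.MP_adc574_ag_GP.Cch
import Pool.Agent.Lib.MP_adc574_ag_GP.Cu

/-!
# Finiteness: final forms
-/

set_option autoImplicit false

namespace MPadcGP

universe u v w

namespace CovD

variable {A : Type u} [CommRing A] {n : ℕ} (X : CovD.{u, u} A n)

/-- The cochains of total degree `m` and form degree `q`. -/
noncomputable def Gq (q m : ℕ) : Submodule A X.Ch where
  carrier := {c | c ∈ X.Tt m ∧ ∀ J : Finset (Fin n), q + J.card ≠ m + 1 → c J = 0}
  add_mem' := by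
    rintro b c ⟨hb, hb'⟩ ⟨hc, hc'⟩
    exact ⟨Submodule.add_mem _ hb hc, fun J hJ => by rw [Pi.add_apply, hb' J hJ, hc' J hJ, add_zero]⟩
  zero_mem' := ⟨Submodule.zero_mem _, fun _ _ => rfl⟩
  smul_mem' := by
    rintro a c ⟨hc, hc'⟩
    exact ⟨Submodule.smul_mem _ a hc, fun J hJ => by rw [Pi.smul_apply, hc' J hJ, smul_zero]⟩

/-- The cochains of total degree `m - 1` and form degree `q`. -/
noncomputable def Gp (q : ℕ) : ℕ → Submodule A X.Ch
  | 0 => ⊥
  | m + 1 => X.Gq q m

variable {X}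

theorem Gq_eq (q j : ℕ) : X.Gq q (q + j) = X.Cq q (j + 1) := by
  ext c
  constructor
  · rintro ⟨⟨h0, h1⟩, h2⟩
    exact ⟨h0, fun J => ⟨fun hJ => (h1 J).1 q (by omega), fun hJ => h2 J (by omega)⟩⟩
  · rintro ⟨h0, h1⟩
    refine ⟨⟨h0, fun J => ⟨fun p hp => ?_, fun hJ => (h1 J).2 (by omega)⟩⟩, fun J hJ => (h1 J).2 (by omega)⟩
    by_cases h3 : J.card = j + 1
    · have h4 : p = q := by omega
      rw [h4]
      exact (h1 J).1 h3
    · rw [(h1 J).2 h3]
      exact Submodule.zero_mem _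

theorem Gq_bot {q m : ℕ} (h : m < q) : X.Gq q m = ⊥ := by
  rw [eq_bot_iff]
  rintro c ⟨⟨h0, h1⟩, h2⟩
  rw [Submodule.mem_bot]
  funext J
  by_cases h3 : q + J.card = m + 1
  · have h4 : J = ∅ := Finset.card_eq_zero.1 (by omega)
    rw [h4]
    exact h0
  · exact h2 J h3

theorem Gp_eq (q j : ℕ) : X.Gp q (q + j) = X.Cq q j := by
  cases j with
  | succ j => exact Gq_eq q j
  | zero =>
    rw [Cq_zero]
    cases q with
    | zero => rfl
    | succ q => exact Gq_bot (show q < q + 1 by omega)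

end CovD

namespace IsProj

variable {A : Type u} [CommRing A] {n : ℕ} {X : CovD.{u, u} A n}
  {μ : ∀ J : Finset (Fin n), (Fin n → ℤ) → X.R J}

open CovD

/-- The cohomology of the forms of degree `q`, in the form of a complex of cochains of total degree `m`. -/
theorem fg_Gq [IsNoetherianRing A] (h : IsProj X μ) (q m : ℕ) :
    FGq (X.Gq q m ⊓ LinearMap.ker (X.del ∘ₗ X.ic)) ((X.Gp q m).map (X.del ∘ₗ X.ic)) := by
  rcases Nat.lt_or_ge m q with hm | hm
  · rw [Gq_bot hm, bot_inf_eq]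
    exact FGq.bot _
  obtain ⟨j, rfl⟩ := Nat.exists_eq_add_of_le hm
  have h1 : X.Gq q (q + j) ⊓ LinearMap.ker (X.del ∘ₗ X.ic) = X.Cq q (j + 1) ⊓ LinearMap.ker X.del := by
    rw [Gq_eq]
    ext c
    constructor
    · rintro ⟨hc, hc'⟩
      refine ⟨hc, ?_⟩
      have h2 : X.del (X.ic c) = 0 := hc'
      rw [ic_Cq hc, map_zsmul] at h2
      change X.del c = 0
      have h3 : ((-1 : ℤ) ^ q) • X.del c ∈ (⊥ : Submodule A X.Ch) := by
        rw [h2]
        exact Submodule.zero_mem _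
      exact (Submodule.mem_bot A).1 ((zpow_smul_mem _ q).1 h3)
    · rintro ⟨hc, hc'⟩
      refine ⟨hc, ?_⟩
      change X.del (X.ic c) = 0
      have h2 : X.del c = 0 := hc'
      rw [ic_Cq hc, map_zsmul, h2, smul_zero]
  have h2 : (X.Gp q (q + j)).map (X.del ∘ₗ X.ic) = (X.Cq q j).map X.del := by
    rw [Gp_eq]
    ext c
    constructor
    · rintro ⟨e, he, rfl⟩
      refine ⟨((-1 : ℤ) ^ q) • e, (zpow_smul_mem _ q).2 he, ?_⟩
      rw [LinearMap.comp_apply, ic_Cq he]
    · rintro ⟨e, he, rfl⟩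
      refine ⟨((-1 : ℤ) ^ q) • e, (zpow_smul_mem _ q).2 he, ?_⟩
      rw [LinearMap.comp_apply, map_zsmul, ic_Cq he, smul_smul, ← mul_pow]
      norm_num
  rw [h1, h2]
  exact h.fg_Cq q j

end IsProj

section Final

open MvPolynomial

variable {A : Type u} [CommRing A] [IsNoetherianRing A] {n : ℕ} {I : Ideal (MvPolynomial (Fin n) A)}

/-- The cohomology of the forms of degree `q` on a projective scheme over a noetherian ring is finitely generated. -/
theorem prC_fg_Cq (hI : IsHomog I) (q j : ℕ) :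
    FGq ((prC I).Cq q (j + 1) ⊓ LinearMap.ker (prC I).del) (((prC I).Cq q j).map (prC I).del) :=
  (chart_isProj hI).fg_Cq q j

/-- The same in terms of the cochains of total degree `m`. -/
theorem prC_fg_Gq (hI : IsHomog I) (q m : ℕ) :
    FGq ((prC I).Gq q m ⊓ LinearMap.ker ((prC I).del ∘ₗ (prC I).ic))
      (((prC I).Gp q m).map ((prC I).del ∘ₗ (prC I).ic)) :=
  (chart_isProj hI).fg_Gq q m

/-- The cohomology of the step `F^i` of the Hodge filtration is finitely generated. -/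
theorem prC_fg_F (hI : IsHomog I) (i m : ℕ) :
    FGq ((prC I).Fi i m ⊓ LinearMap.ker (prC I).Dt) (((prC I).Fp i m).map (prC I).Dt) :=
  (chart_isProj hI).fg_F i m

/-- The cohomology of `F^i / F^(i+k)` is finitely generated. -/
theorem prC_fg_Fi (hI : IsHomog I) (i k m : ℕ) :
    FGq ((prC I).Fi i m ⊓ ((prC I).Fi (i + k) (m + 1)).comap (prC I).Dt)
      ((prC I).Fi (i + k) m ⊔ ((prC I).Fp i m).map (prC I).Dt) :=
  (chart_isProj hI).fg_Fi i k m

/-- The de Rham cohomology of a projective scheme over a noetherian ring is finitely generated. -/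
theorem prC_fg_T (hI : IsHomog I) (m : ℕ) :
    FGq ((prC I).Tt m ⊓ LinearMap.ker (prC I).Dt) (((prC I).Fp 0 m).map (prC I).Dt) :=
  (chart_isProj hI).fg_T m

end Final

end MPadcGP
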