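import Pool.Agent.Lib.MP_adc574_ag_GP.Gen
import Pool.Agent.Lib.MP_adc574_ag_GP.Key

/-!
# GP: linear data over a ring

`LinD A`: derivations `D l` of `A`, bases (index sets `β n`) with levels (`lev n b ≥ i` for the basis of the
Hodge filtration `F^i`), matrices `G n l` of the connection, structure constants `mu` of the product, sets
`Lg n j` of vectors (the logarithmic classes).
-/

set_option autoImplicit false

namespace MPadcGP

universe u v

/-- Linear data over the ring `A`. -/
structure LinD (A : Type u) [CommRing A] where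
  /-- The number of the derivations. -/
  N : ℕ
  /-- The derivations. -/
  D : Fin N → Derivation ℤ A A
  /-- The index set of the basis in degree `n`. -/
  β : ℕ → Type
  [fin : ∀ n, Fintype (β n)]
  [dec : ∀ n, DecidableEq (β n)]
  /-- The level. -/
  lev : ∀ n, β n → ℕ
  /-- The matrices of the connection. -/
  G : ∀ n, Fin N → β n → β n → A
  /-- The structure constants. -/
  mu : ∀ n n', β n → β n' → β (n + n') → A
  /-- The logarithmic classes. -/
  Lg : ∀ n : ℕ, ℕ → Set (β n → A)
  bound : ∃ B, ∀ n, B ≤ n → IsEmpty (β n)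

attribute [instance] LinD.fin LinD.dec

namespace LinD

section

variable {A : Type u} [CommRing A] (X : LinD A) {E : Type v} [Field E] (φ : A →+* E)

/-- The product. -/
def mul (n n' : ℕ) (x : X.β n → E) (y : X.β n' → E) : X.β (n + n') → E :=
  fun c => ∑ a, ∑ b, φ (X.mu n n' a b c) * (x a * y b)

/-- The connection in the direction `l`, for an extension `δ` of `D l` to `E`. -/
def con (n : ℕ) (l : Fin X.N) (δ : Derivation ℤ E E) (x : X.β n → E) : X.β n → E :=
  fun b' => δ (x b') + ∑ b, φ (X.G n l b' b) * x b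

/-- The Hodge filtration. -/
def fl (E : Type v) [Field E] (n i : ℕ) : Submodule E (X.β n → E) where
  carrier := {x | ∀ b, X.lev n b < i → x b = 0}
  add_mem' := fun {x y} hx hy b hb => by rw [Pi.add_apply, hx b hb, hy b hb, add_zero]
  zero_mem' := fun b _ => rfl
  smul_mem' := fun c x hx b hb => by rw [Pi.smul_apply, hx b hb, smul_zero]

/-- Filtrations of conjugate type. -/
structure IsConj (P : ∀ n, ℕ → Submodule E (X.β n → E)) : Prop where
  mono : ∀ n i, P n i ≤ P n (i + 1)
  dim : ∀ n i, Module.finrank E (P n i) = Fintype.card {b : X.β n // X.lev n b ≤ i}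
  mul : ∀ n n' i i', ∀ x ∈ P n i, ∀ y ∈ P n' i', X.mul φ n n' x y ∈ P (n + n') (i + i')
  log : ∀ n j, ∀ g ∈ X.Lg n j, (fun b => φ (g b)) ∈ P n j

/-- Stable filtrations. -/
def IsStab (δ : Fin X.N → Derivation ℤ E E) (P : ∀ n, ℕ → Submodule E (X.β n → E)) : Prop :=
  ∀ n i l, ∀ x ∈ P n i, X.con φ n l (δ l) x ∈ P n i

/-- The filtrations `P n` are opposite to the Hodge filtration. -/
def IsOpp (P : ∀ n, ℕ → Submodule E (X.β n → E)) : Prop :=
  ∀ n i, ∀ x ∈ P n i, x ∈ X.fl E n (i + 1) → x = 0

end

section

variable {A : Type u} [CommRing A] (X : LinD A) {k : Type u} [Field k] (j : A →+* k)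

/-- The connection over `k`: `y` is the derivative of `x` in the direction `D'`. -/
def nabk (n : ℕ) (D' : Derivation ℤ k k) (x y : X.β n → k) : Prop :=
  ∃ c : Fin X.N → k, (∀ a, D' (j a) = ∑ l, c l * j (X.D l a)) ∧
    ∀ b', y b' = D' (x b') + ∑ l, c l * ∑ b, j (X.G n l b' b) * x b

/-- The linear data are in general position over `k`. -/
def Gen : Prop :=
  InGeneralPosition (X.nabk j) (fun n i => X.fl k n i) (fun n n' x y z => z = X.mul j n n' x y)
    (fun n i => {x | ∃ g ∈ X.Lg n i, x = fun b => j (g b)})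

end

end LinD

end MPadcGP
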