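import Pool.Agent.Lib.MP_adc574_ag_GP.Ad
import Pool.Agent.Lib.MP_adc574_ag_GP.Lin
import Pool.Agent.Lib.MP_adc574_ag_GP.CarP
import Pool.Agent.Lib.MP_adc574_ag_GP.Pt

/-!
# GP: the definitions used in the statements of the parts
-/

set_option autoImplicit false

namespace MPadcGP

universe u v w x

section

variable {A : Type u} [CommRing A] {n : ℕ} (I : Ideal (MvPolynomial (Fin n) A))

/-- `z` is an adapted basis of the de Rham cohomology and stays so after every base change; `h q m` is the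
dimension of `H^(m-q)(Ω^q)` over every field. -/
structure Dat {β : ℕ → Type} [∀ m, Fintype (β m)] (lev : ∀ m, β m → ℕ)
    (z : ∀ m, β m → (prC I).Ch) (h : ℕ → ℕ → ℕ) : Prop where
  self : IsAd (prC I) lev z
  ad : ∀ (B : Type u) [CommRing B] (φ : A →+* B),
    IsAd (prC (bI φ I)) lev (fun m b => (prH φ I).push (z m b))
  hodge : ∀ (κ : Type u) [Field κ] (φ : A →+* κ) (q m : ℕ),
    FiniteDimensional κ (HH (prC (bI φ I)).Dt ((prC (bI φ I)).Fi (q + 1)) ((prC (bI φ I)).Fi q) m) ∧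
    Module.finrank κ (HH (prC (bI φ I)).Dt ((prC (bI φ I)).Fi (q + 1)) ((prC (bI φ I)).Fi q) m) = h q m
  ad0 : ∀ (κ : Type) [Field κ] (φ : A →+* κ),
    IsAd (prC (bI φ I)) lev (fun m b => (prH φ I).push (z m b))
  hodge0 : ∀ (κ : Type) [Field κ] (φ : A →+* κ) (q m : ℕ),
    FiniteDimensional κ (HH (prC (bI φ I)).Dt ((prC (bI φ I)).Fi (q + 1)) ((prC (bI φ I)).Fi q) m) ∧
    Module.finrank κ (HH (prC (bI φ I)).Dt ((prC (bI φ I)).Fi (q + 1)) ((prC (bI φ I)).Fi q) m) = h q m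
  bound : ∃ N, ∀ m, N ≤ m → IsEmpty (β m)

end

/-- Logarithmic cocycles of degree `j` in the total degree `m`. -/
def IsLogCoc {A : Type u} [CommRing A] {n : ℕ} (X : CovD.{u, v} A n) (m j : ℕ) (c : X.Ch) : Prop :=
  c ∈ X.Zc m ∧ ∀ J : Finset (Fin n), c J ∈ logForms A (X.R J) j ∧ (J.card + j ≠ m + 1 → c J = 0)

/-- Good derivations: `D l (t m') = δ`. -/
structure Good' {k : Type u} [Field k] (A : Subalgebra ℤ k) {N : ℕ} (D : Fin N → Derivation ℤ A A) :
    Prop where
  fg : A.FG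
  der : ∀ D' : Derivation ℤ k k, ∃ a : Fin N → k, ∀ x : A, D' (x : k) = ∑ l, a l * ((D l x : A) : k)
  dual : ∃ t : Fin N → A, ∀ l l', D l (t l') = if l = l' then 1 else 0

/-- The linear data over `A` belonging to the adapted basis `z` and the lifts `V` of the derivations:
`G` the matrices of the connection, `mu` the structure constants, `Lg` coordinate vectors of logarithmic
cocycles. -/
structure LinRel {A : Type u} [CommRing A] {n : ℕ} (I : Ideal (MvPolynomial (Fin n) A)) {β : ℕ → Type}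
    [∀ m, Fintype (β m)] (z : ∀ m, β m → (prC I).Ch) {N : ℕ} {D : Fin N → Derivation ℤ A A}
    (V : ∀ l, Lft (prC I) (D l)) (G : ∀ m, Fin N → β m → β m → A)
    (mu : ∀ m m', β m → β m' → β (m + m') → A) (Lg : ∀ m : ℕ, ℕ → Set (β m → A)) : Prop where
  gm : ∀ m l b, (V l).Gm (z m b) - ∑ b', G m l b' b • z m b' ∈ (prC I).Bc m
  cup : ∀ m m' a b, (prC I).cup (z m a) (z m' b) - ∑ c, mu m m' a b c • z (m + m') c ∈
    (prC I).Bc (m + m')
  log : ∀ m j, ∀ g ∈ Lg m j, ∃ c, IsLogCoc (prC I) m j c ∧ c - ∑ b, g b • z m b ∈ (prC I).Bc m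

/-- The linear data. -/
@[reducible] def mkLin {A : Type u} [CommRing A] {β : ℕ → Type} [fi : ∀ m, Fintype (β m)]
    [de : ∀ m, DecidableEq (β m)] (lev : ∀ m, β m → ℕ) {N : ℕ} (D : Fin N → Derivation ℤ A A)
    (G : ∀ m, Fin N → β m → β m → A) (mu : ∀ m m', β m → β m' → β (m + m') → A)
    (Lg : ∀ m : ℕ, ℕ → Set (β m → A)) (hb : ∃ B, ∀ n, B ≤ n → IsEmpty (β n)) : LinD A where
  N := N
  D := D
  β := β
  lev := lev
  G := G
  mu := mu
  Lg := Lg
  bound := hb

/-- The conjugate filtration over `κ` is opposite to the Hodge filtration. -/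
def IsOppC {κ : Type u} [Field κ] {n : ℕ} (X : CovD.{u, v} κ n) : Prop :=
  ∀ m i, X.Con m i ⊓ X.Fil m (i + 1) = ⊥

/-- The dimensions of the conjugate filtration are complementary to those of the Hodge filtration. -/
def DimC {κ : Type u} [Field κ] {n : ℕ} (X : CovD.{u, v} κ n) : Prop :=
  ∀ m i, Module.finrank κ (X.Con m i) + Module.finrank κ (X.Fil m (i + 1)) = Module.finrank κ (X.HdR m)

end MPadcGP
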