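import Pool.Agent.Lib.MP_adc574_ag_GP.DatB
import Pool.Agent.Lib.MP_adc574_ag_GP.Parts
import Pool.Agent.Lib.MP_adc574_ag_GP.Lifts
import Pool.Agent.Lib.MP_adc574_ag_GP.FdV
import Pool.Agent.Lib.MP_adc574_ag_GP.Cgr

/-!
# `exists_dat`: adapted bases of the de Rham cohomology and all their base changes (GP, helper79)
-/

set_option autoImplicit false

namespace MPadcGP

open TensorProduct

universe u v w x

section

variable {A : Type u} [CommRing A] {n : ℕ} {I : Ideal (MvPolynomial (Fin n) A)}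

theorem finset_of_FGq {T : Type v} [AddCommGroup T] [Module A T] {Z Z' B B' : Submodule A T} (h : FGq Z B)
    (hZ : Z' = Z) (hB : B' = B) :
    ∃ G : Finset T, (∀ g ∈ G, g ∈ Z') ∧ Z' ≤ Submodule.span A (G : Set T) ⊔ B' := by
  subst hZ hB
  obtain ⟨s, hs, hs1, hs2⟩ := h
  refine ⟨hs.toFinset, fun g hg => hs1 (hs.mem_toFinset.1 hg), ?_⟩
  rw [hs.coe_toFinset]
  exact hs2

theorem prC_flat_smooth (hI : IsHomog I) (hs : IsSmoothProj I) (J : Finset (Fin n)) (hJ : J.Nonempty) :
    Module.Flat A ((prC I).R J) ∧ Algebra.FormallySmooth A ((prC I).R J) := by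
  have h1 : Algebra.Smooth A (chart I J) := hs.smooth hI hJ
  have h2 : Algebra.FormallySmooth A (chart I J) := h1.formallySmooth
  have h3 : Algebra.FinitePresentation A (chart I J) := h1.finitePresentation
  have h4 : Module.Flat A (chart I J) := inferInstance
  exact ⟨h4, h2⟩

theorem prC_Tt_top (m : ℕ) (hm : 2 * n < m) : (prC I).Tt m = ⊥ := by
  rw [eq_bot_iff]
  intro c hc
  rw [Submodule.mem_bot]
  funext J
  rcases J.eq_empty_or_nonempty with hJ | hJ
  · rw [hJ, hc.1]
    rfl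
  · have h1 : J.card ≤ n := by
      have := Finset.card_le_univ J
      rwa [Fintype.card_fin] at this
    have h2 := (hc.2 J).1 (m + 1 - J.card) (by omega)
    exact chart_fd_eq_zero I hJ (by omega) h2

theorem Gr_eq_Gq {X : CovD.{u, u} A n} (q m : ℕ) : X.Gr q m = X.Gq q m := by
  ext c
  rw [CovD.mem_Gr']
  constructor
  · intro h
    have h1 : c ∈ X.Tt m := (CovD.Gr_le_Fi q m (CovD.mem_Gr'.2 h)).1
    exact ⟨h1, fun J hJ => (h.2 J).2 hJ⟩
  · rintro ⟨h1, h2⟩
    exact ⟨h1.1, fun J => ⟨fun hJ => (h1.2 J).1 q hJ, fun hJ => h2 J hJ⟩⟩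

/-- Base change of the data along any ring homomorphism which makes `a` invertible. -/
theorem PreDat.map {B : Type v} [CommRing B] (hI : IsHomog I) (hs : IsSmoothProj I) {a : A} {r : ℕ → ℕ}
    {z : ∀ m, Fin (r m) → (prC I).Ch} {lev : ∀ m, Fin (r m) → ℕ} {h : ℕ → ℕ → ℕ}
    (hp : PreDat (prC I) a z lev h) (φ : A →+* B) (ha : IsUnit (φ a)) :
    PreDat (prC (bI φ I)) (1 : B) (fun m b => (prH φ I).push (z m b)) lev h := by
  let _ : Algebra A B := φ.toAlgebra
  exact hp.bc (prC_flat_smooth hI hs) (prH (algebraMap A B) I) (prH_isBC (B := B) hI) ha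

/-- The data give `Dat`. -/
theorem dat_of_preDat (hI : IsHomog I) (hs : IsSmoothProj I) {r : ℕ → ℕ}
    {z : ∀ m, Fin (r m) → (prC I).Ch} {lev : ∀ m, Fin (r m) → ℕ} {h : ℕ → ℕ → ℕ}
    (hp : PreDat (prC I) (1 : A) z lev h) (hb : ∃ N, ∀ m, N ≤ m → IsEmpty (Fin (r m))) :
    Dat I lev z h where
  self := hp.isAd
  ad B _ φ := (hp.map hI hs φ (by rw [map_one]; exact isUnit_one)).isAd
  hodge κ _ φ q m := by
    obtain ⟨y, hy⟩ := (hp.map hI hs φ (by rw [map_one]; exact isUnit_one)).gr q m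
    obtain ⟨h1, h2⟩ := gr_finrank hy
    exact ⟨h1, h2.trans (Fintype.card_fin _)⟩
  ad0 κ _ φ := (hp.map hI hs φ (by rw [map_one]; exact isUnit_one)).isAd
  hodge0 κ _ φ q m := by
    obtain ⟨y, hy⟩ := (hp.map hI hs φ (by rw [map_one]; exact isUnit_one)).gr q m
    obtain ⟨h1, h2⟩ := gr_finrank hy
    exact ⟨h1, h2.trans (Fintype.card_fin _)⟩
  bound := hb

end

/-- PART F + BC: adapted bases of the de Rham cohomology exist after inverting one `a ≠ 0`, and they are
compatible with every base change. -/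
theorem exists_dat {A : Type u} [CommRing A] [IsDomain A] [IsNoetherianRing A] {n : ℕ}
    {I : Ideal (MvPolynomial (Fin n) A)} (hI : IsHomog I) (hs : IsSmoothProj I) :
    ∃ a : A, a ≠ 0 ∧ ∀ (A' : Type u) [CommRing A'] (φ : A →+* A'), IsUnit (φ a) →
      ∃ (β : ℕ → Type) (_ : ∀ m, Fintype (β m)) (_ : ∀ m, DecidableEq (β m))
        (lev : ∀ m, β m → ℕ) (z : ∀ m, β m → (prC (bI φ I)).Ch) (h : ℕ → ℕ → ℕ),
        Dat (bI φ I) lev z h := by
  obtain ⟨a, r, z, lev, h, ha, hp⟩ := exists_preDat (X := prC I) (2 * n) (fun m hm => prC_Tt_top m hm)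
    (fun i m => finset_of_FGq (prC_fg_F hI i m) rfl (by
        cases m with
        | zero =>
          change (⊥ : Submodule A (prC I).Ch) = (⊥ : Submodule A (prC I).Ch).map _
          rw [Submodule.map_bot]
        | succ m => rfl))
    (fun q m => finset_of_FGq (prC_fg_Gq hI q m) (by
        rw [← Gr_eq_Gq]
        rfl) (by
        cases m with
        | zero =>
          change (⊥ : Submodule A (prC I).Ch) = (⊥ : Submodule A (prC I).Ch).map _
          rw [Submodule.map_bot]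
        | succ m =>
          change ((prC I).Gr q m).map (prC I).Dq = ((prC I).Gq q m).map _
          rw [Gr_eq_Gq]
          rfl))
  exact ⟨a, ha, fun A' _ φ hu => ⟨fun m => Fin (r m), fun m => inferInstance, fun m => inferInstance, lev, _, h,
    dat_of_preDat (IsHomog.map φ hI) (hs.map hI φ) (hp.map hI hs φ hu) hp.bound⟩⟩

end MPadcGP
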