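import Pool.Agent.Lib.MP_adc574_ag_GP.Gen3
import Pool.Agent.Lib.MP_adc574_ag_GP.Parts2

/-!
# REL: the definitions used in the statements of the parts

`I₀ ≤ I` homogeneous ideals, `Y ⊇ X` the closed subschemes of the projective space.
-/

set_option autoImplicit false
set_option linter.unusedSectionVars false

namespace MPadcGP

universe u v w x

section rs

variable {A : Type u} [CommRing A] {n : ℕ} {I₀ I : Ideal (MvPolynomial (Fin n) A)}

theorem rs_mem (hle : I₀ ≤ I) : ∀ f ∈ I₀, MvPolynomial.map (RingHom.id A) f ∈ I := fun f hf => by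
  rw [MvPolynomial.map_id]
  exact hle hf

/-- The restriction from `Y` to `X`. -/
noncomputable def rsH (hle : I₀ ≤ I) : CovD.Hm (RingHom.id A) (prC I₀) (prC I) where
  h J := cmap (RingHom.id A) (rs_mem hle) (Finset.Subset.refl J)
  base J a := cmap_base (RingHom.id A) (rs_mem hle) (Finset.Subset.refl J) a
  comm {J K} hJ r := by
    change cmap (RingHom.id A) (rs_mem hle) (Finset.Subset.refl K) (tr I₀ hJ r) =
      tr I hJ (cmap (RingHom.id A) (rs_mem hle) (Finset.Subset.refl J) r)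
    induction r using chart_ind with
    | h1 a => rw [AlgHom.commutes, cmap_base, cmap_base, AlgHom.commutes]
    | h2 l m hm => rw [tr_cq, cmap_cq, cmap_cq, tr_cq]
    | h3 x y hx hy => rw [map_add, map_add, map_add, map_add, hx, hy]
    | h4 x y hx hy => rw [map_mul, map_mul, map_mul, map_mul, hx, hy]

theorem bI_mono {B : Type v} [CommRing B] (φ : A →+* B) (hle : I₀ ≤ I) : bI φ I₀ ≤ bI φ I :=
  Ideal.map_mono hle

end rs

section im

variable {A : Type u} [CommRing A] {n : ℕ} {X₀ X : CovD.{u, v} A n} {M : Type} [AddCommGroup M]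
  [Fintype M] [DecidableEq M]

/-- The image of the classes of weight `μ`. -/
noncomputable def imW (F : CovD.Hm (RingHom.id A) X₀ X) (W₀ : GrX X₀ M) (W : GrX X M) (a : ℕ × M) :
    Submodule A ↥(W.HW a.1 a.2) :=
  Submodule.span A {x | ∃ (c : ↥(X₀.Zc a.1)) (c' : ↥(X.Zc a.1)), (c : X₀.Ch) ∈ W₀.Wt a.2 ∧
    (c' : X.Ch) = F.push c ∧ X.cl a.1 c' = x}

/-- General position of `X` relative to `Y`. -/
def IsGeneral3 {k : Type u} [Field k] {n : ℕ} {X₀ X : CovD.{u, v} k n}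
    (F : CovD.Hm (RingHom.id k) X₀ X) (W₀ : GrX X₀ M) (W : GrX X M) : Prop :=
  letI : ∀ a : ℕ × M, AddCommGroup ↥(W.HW a.1 a.2) := fun _ => inferInstance
  letI : ∀ a : ℕ × M, Module k ↥(W.HW a.1 a.2) := fun _ => inferInstance
  MPadcGP3.InGeneralPosition (H := fun a : ℕ × M => ↥(W.HW a.1 a.2))
    (fun a D x y => X.gaussManin a.1 D x y) (fun a i => (X.Fil a.1 i).submoduleOf (W.HW a.1 a.2))
    (fun a b x y z => X.cupRel a.1 b.1 x y z) (fun a j => W.logW a.1 a.2 j) (fun a => imW F W₀ W a)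

end im

/-- The linear data with the generators of the subspaces `T`. -/
@[reducible] def mkLinT {A : Type u} [CommRing A] {ι : Type} [Add ι] {β : ι → Type}
    [fi : ∀ a, Fintype (β a)] [de : ∀ a, DecidableEq (β a)] (lev : ∀ a, β a → ℕ) {N : ℕ}
    (D : Fin N → Derivation ℤ A A) (G : ∀ a, Fin N → β a → β a → A)
    (mu : ∀ a a', β a → β a' → β (a + a') → A) (Lg : ∀ a : ι, ℕ → Set (β a → A))
    (hb : ∃ B : Finset ι, ∀ a, a ∉ B → IsEmpty (β a)) {τ : ι → Type} [ft : ∀ a, Fintype (τ a)]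
    (Tv : ∀ a, τ a → β a → A) : LinT ι A where
  toLinW := mkLinW lev D G mu Lg hb
  τ := τ
  Tv := Tv

/-- The closed points `s` of `V(𝔓)` whose fibre `X_s` is smooth and ordinary are dense in `V(𝔓)`. -/
def IsDenseOrd {A : Type u} [CommRing A] {n : ℕ} (I : Ideal (MvPolynomial (Fin n) A))
    (𝔓 : Ideal A) : Prop :=
  ∀ b ∉ 𝔓, ∃ 𝔪 : Ideal A, 𝔪.IsMaximal ∧ 𝔓 ≤ 𝔪 ∧ b ∉ 𝔪 ∧
    IsSmoothProj (bI (Ideal.Quotient.mk 𝔪) I) ∧ (prC (bI (Ideal.Quotient.mk 𝔪) I)).IsBlochKatoOrdinary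

end MPadcGP
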