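import Pool.Agent.Lib.MP_adc574_ag_GP.R3Spr

/-!
# REL, part R10: the opposition over an open set
-/

set_option autoImplicit false
set_option linter.unusedSectionVars false

namespace MPadcGP

open MvPolynomial

universe u v w x

section

variable {A : Type u} [CommRing A] {n : ℕ} {I : Ideal (MvPolynomial (Fin n) A)} {β : ℕ → Type}
    [∀ m, Fintype (β m)] [∀ m, DecidableEq (β m)] {lev : ∀ m, β m → ℕ}
    {z : ∀ m, β m → (prC I).Ch} {h : ℕ → ℕ → ℕ}

/-- PART R10: if the generic fibre over `V(ker φ)` is opposite then so are the fibres over an open set. -/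
theorem spread_opp (hI : IsHomog I) (hs : IsSmoothProj I)
    (hD : Dat I lev z h) {p : ℕ} [Fact p.Prime] {K : Type u} [Field K] [CharP K p] (φ : A →+* K)
    (hφ : ∀ x : K, ∃ a b : A, φ b ≠ 0 ∧ x = φ a / φ b)
    (hopp : IsOppC (prC (bI φ I))) (hdim : DimC (prC (bI φ I))) :
    ∃ f : A, φ f ≠ 0 ∧ ∀ (κ : Type u) [Field κ] (ψ : A →+* κ), (∀ a, φ a = 0 → ψ a = 0) → ψ f ≠ 0 →
      DimC (prC (bI ψ I)) → IsOppC (prC (bI ψ I)) := by
  classical
  obtain ⟨N, hN⟩ := hD.bound
  have hadK := hD.ad K φ
  have hz : ∀ m b, z m b ∈ (prC I).Tt m := fun m b => (hD.self.mem m b).1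
  -- the bound of the levels
  let M : ℕ := (Finset.range N).sup fun m => Finset.univ.sup fun b => lev m b + 1
  have hM : ∀ m b, lev m b < M := by
    intro m b
    have hm : m < N := by
      by_contra hm
      exact (hN m (by omega)).false b
    have h1 : lev m b + 1 ≤ Finset.univ.sup fun b => lev m b + 1 :=
      Finset.le_sup (f := fun b => lev m b + 1) (Finset.mem_univ b)
    have h2 : (Finset.univ.sup fun b => lev m b + 1) ≤ M :=
      Finset.le_sup (f := fun m => Finset.univ.sup fun b => lev m b + 1) (Finset.mem_range.2 hm)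
    omega
  -- the finitely many coefficients
  choose t ht using fun (m i : ℕ) (s : β m) =>
    SpV.descent hI hs hz φ (hadK.spV hopp hdim m i s)
  let T : Finset K := (Finset.range N).biUnion fun m => (Finset.range M).biUnion fun i =>
    Finset.univ.biUnion fun s => t m i s
  obtain ⟨f, hf, S, hS, hTS, hθ⟩ := exists_frac_subring φ hφ T
  have hsp : ∀ m i (s : β m), m < N → i < M →
      SpV (prC (bI (rto φ S hS) I)) lev (fun m b => (prH (rto φ S hS) I).push (z m b)) m i s := by
    intro m i s hm hi
    refine ht m i s S hS fun x hx => hTS ?_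
    refine Finset.mem_coe.2 (Finset.mem_biUnion.2 ⟨m, Finset.mem_range.2 hm,
      Finset.mem_biUnion.2 ⟨i, Finset.mem_range.2 hi, Finset.mem_biUnion.2
        ⟨s, Finset.mem_univ s, Finset.mem_coe.1 hx⟩⟩⟩)
  refine ⟨f, hf, fun κ _ ψ hψ hψf hd m i => ?_⟩
  obtain ⟨θ, hθψ⟩ := hθ κ ψ hψ hψf
  have had := hD.ad κ ψ
  by_cases hm : m < N
  · by_cases hi : i < M
    · refine had.inf_eq_bot hd m i fun s => ?_
      have h1 := (hsp m i s hm hi).push (prT hθψ I)
      have h2 : (fun (m : ℕ) (b : β m) => (prT hθψ I).push ((prH (rto φ S hS) I).push (z m b))) =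
          fun m b => (prH ψ I).push (z m b) := by
        funext m b
        exact prT_push hθψ I (z m b)
      rw [h2] at h1
      exact h1
    · rw [eq_bot_iff]
      rintro y ⟨-, hy⟩
      obtain ⟨x, rfl⟩ := (had.eqv m).surjective y
      rw [SetLike.mem_coe, had.eqv_mem_Fil] at hy
      have h1 : x = 0 := by
        funext b
        exact hy b (by have := hM m b; omega)
      rw [h1, map_zero]
      exact Submodule.zero_mem _
  · rw [eq_bot_iff]
    rintro y -
    obtain ⟨x, rfl⟩ := (had.eqv m).surjective y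
    have h1 : x = 0 := by
      funext b
      exact ((hN m (by omega)).false b).elim
    rw [h1, map_zero]
    exact Submodule.zero_mem _

end

end MPadcGP
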