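import Pool.Agent.Lib.MP_adc574_ag_GP.Parts

/-!
# REL, part R4 (helper88): ordinary implies opposite

If `H^j(X, BΩ^(i+1)) = 0` for all `i`, `j`, then the conjugate filtration and the Hodge filtration intersect in `0`.
If `c - c' = D y` with `c` of form degrees `≤ i`, closed in degree `i`, and `c'` of form degrees `> i`, then
`d y_i` is a Čech cocycle of exact forms, so `d y_i = d (δ w)` and `c = D (y_(<i) + (y_i - δ w))`.
-/

set_option autoImplicit false

namespace MPadcGP

universe u v

open CovD in
/-- Ordinary implies opposite (formal). -/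
theorem opp_of_bk {κ : Type u} [Field κ] {n : ℕ} {X : CovD.{u, v} κ n} (h : X.IsBlochKatoOrdinary) :
    IsOppC X := by
  classical
  intro m i
  rw [eq_bot_iff]
  rintro x ⟨hx1, hx2⟩
  obtain ⟨c, hc, rfl⟩ := mem_Con.mp hx1
  obtain ⟨c', hc', hcc⟩ := mem_Fil.mp hx2
  rw [Submodule.mem_bot, cl_eq_zero]
  rw [eq_comm, cl_eq] at hcc
  cases m with
  | zero =>
    have h1 : (c : X.Ch) - c' = 0 := (Submodule.mem_bot κ).mp hcc
    have h2 : (c : X.Ch) = c' := sub_eq_zero.mp h1
    have h3 : (c : X.Ch) = 0 := by
      funext J
      change (c : X.Ch) J = 0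
      rcases Nat.lt_or_ge (0 + 1) (J.card + (i + 1)) with h4 | h4
      · rw [h2]
        exact hc'.2 J h4
      · rcases Nat.eq_zero_or_pos J.card with h5 | h5
        · rw [Finset.card_eq_zero.mp h5]
          exact hc.1.1
        · omega
    rw [h3]
    exact Submodule.zero_mem _
  | succ m =>
    obtain ⟨y, hy, hDy⟩ := Submodule.mem_map.mp hcc
    have hy : y ∈ X.Tt m := hy
    -- the components of `D y` of form degree at most `i`
    have e1 : ∀ J : Finset (Fin n), m + 2 ≤ J.card + i → X.Dt y J = (c : X.Ch) J := by
      intro J hJ
      have h1 : (c' : X.Ch) J = 0 := hc'.2 J (by omega)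
      rw [hDy, Pi.sub_apply, h1, sub_zero]
    rcases Nat.lt_or_ge m i with him | him
    · refine Submodule.mem_map.mpr ⟨y, hy, ?_⟩
      funext J
      rcases Nat.eq_zero_or_pos J.card with h5 | h5
      · have h6 := (Dt_mem hy).1
        have h7 := hc.1.1
        rw [Finset.card_eq_zero.mp h5]
        exact h6.trans h7.symm
      · exact e1 J (by omega)
    · obtain ⟨j, hj⟩ := Nat.exists_eq_add_of_le him
      -- `d y_i` is a Čech cocycle
      have e2 : ∀ K : Finset (Fin n), K.card = j + 2 → X.del (X.dc y) K = 0 := by
        intro K hK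
        have h1 : dd κ ((c : X.Ch) K) = 0 := (hc.2 K).2 (by omega)
        have h2 : X.Dt y K = (c : X.Ch) K := e1 K (by omega)
        rw [← h2, Dt_apply, Pi.add_apply, map_add, dc_apply, dd_dd, zero_add] at h1
        have h3 : X.dc (X.del (X.ic y)) K = 0 := h1
        rw [← del_dc] at h3
        have h4 : X.del (X.dc (X.ic y)) = -X.ic (X.del (X.dc y)) := by
          rw [← del_ic, ic_dc, map_neg, neg_neg]
        rw [h4] at h3
        have h5 : X.ic (X.del (X.dc y)) K = 0 := neg_eq_zero.mp h3
        have h6 : X.ic (X.ic (X.del (X.dc y))) K = 0 := by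
          rw [ic_apply, h5, map_zero]
        rwa [ic_ic] at h6
      obtain ⟨c0, hc0⟩ : ∃ c0 : X.Ch, ∀ J : Finset (Fin n), c0 J = if J.card = j + 1 then dd κ (y J) else 0 :=
        ⟨fun J => if J.card = j + 1 then dd κ (y J) else 0, fun J => rfl⟩
      have hc1 : X.exCoc i j c0 := by
        refine ⟨?_, fun J => ⟨?_, fun hJ => ?_⟩⟩
        · rw [hc0, Finset.card_empty, if_neg (by omega)]
        · rw [hc0]
          by_cases hJ : J.card = j + 1
          · rw [if_pos hJ]
            exact Submodule.mem_map.mpr ⟨y J, (hy.2 J).1 i (by omega), rfl⟩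
          · rw [if_neg hJ]
            exact Submodule.zero_mem _
        · rw [hc0, if_neg hJ]
      have hc2 : X.del c0 = 0 := by
        funext K
        rw [Pi.zero_apply]
        by_cases hK : K.card = j + 2
        · rw [← e2 K hK, del_apply, del_apply]
          refine Finset.sum_congr rfl fun l hl => ?_
          have h3 : (K.erase l).card = j + 1 := by
            have := Finset.card_erase_add_one hl
            omega
          unfold ev
          rw [hc0, if_pos h3, dc_apply]
        · rw [del_apply]
          refine Finset.sum_eq_zero fun l hl => ?_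
          have h3 : (K.erase l).card ≠ j + 1 := by
            have := Finset.card_erase_add_one hl
            omega
          rw [ev_eq_zero (by rw [hc0, if_neg h3]), smul_zero]
      obtain ⟨b, hb1, hb2, hb3⟩ := h i j c0 hc1 hc2
      have hw : ∀ J : Finset (Fin n), ∃ f : X.E J, f ∈ Fd κ (X.R J) i ∧ dd κ f = b J ∧
          (J.card ≠ j ∨ J = ∅ → f = 0) := by
        intro J
        by_cases hJ : J.card ≠ j ∨ J = ∅
        · refine ⟨0, Submodule.zero_mem _, ?_, fun _ => rfl⟩
          rw [map_zero]
          rcases hJ with hJ | rfl
          · exact ((hb1 J).2 hJ).symm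
          · exact hb2.symm
        · obtain ⟨f, hf, hf'⟩ := Submodule.mem_map.mp (hb1 J).1
          exact ⟨f, hf, hf', fun h9 => absurd h9 hJ⟩
      choose w hw1 hw2 hw3 using hw
      have hdw : X.dc w = b := by
        funext J
        exact hw2 J
      obtain ⟨z, hz⟩ : ∃ z : X.Ch, ∀ J : Finset (Fin n), z J =
          if J.card + i < m + 1 then 0 else if J.card + i = m + 1 then y J - X.del w J else y J :=
        ⟨fun J => if J.card + i < m + 1 then 0 else if J.card + i = m + 1 then y J - X.del w J else y J,
          fun J => rfl⟩
      have hz1 : ∀ J : Finset (Fin n), J.card + i < m + 1 → z J = 0 := fun J hJ => by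
        rw [hz, if_pos hJ]
      have hz2 : ∀ J : Finset (Fin n), J.card + i = m + 1 → z J = y J - X.del w J := fun J hJ => by
        rw [hz, if_neg (by omega), if_pos hJ]
      have hz3 : ∀ J : Finset (Fin n), m + 1 < J.card + i → z J = y J := fun J hJ => by
        rw [hz, if_neg (by omega), if_neg (by omega)]
      have hdelw : ∀ J : Finset (Fin n), X.del w J ∈ Fd κ (X.R J) i := by
        intro J
        rw [del_apply]
        refine Submodule.sum_mem _ fun l _ => ?_
        exact zsmul_mem (ev_mem (hw1 _) _) _
      refine Submodule.mem_map.mpr ⟨z, ⟨hz1 ∅ (by rw [Finset.card_empty]; omega), fun J => ⟨fun q hq => ?_,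
        fun hJ => ?_⟩⟩, ?_⟩
      · rcases Nat.lt_trichotomy (J.card + i) (m + 1) with hJ | hJ | hJ
        · rw [hz1 J hJ]
          exact Submodule.zero_mem _
        · have e : q = i := by omega
          subst e
          rw [hz2 J hJ]
          exact Submodule.sub_mem _ ((hy.2 J).1 _ hq) (hdelw J)
        · rw [hz3 J hJ]
          exact (hy.2 J).1 q hq
      · rw [hz3 J (by omega)]
        exact (hy.2 J).2 hJ
      · funext J
        rcases Nat.lt_trichotomy (J.card + i) (m + 1) with hJ | hJ | hJ
        · -- form degree above `i + 1`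
          have h1 : (c : X.Ch) J = 0 := (hc.2 J).1 (by omega)
          rw [h1, Dt_apply, Pi.add_apply, dc_apply, hz1 J hJ, map_zero, zero_add, del_apply]
          refine Finset.sum_eq_zero fun l hl => ?_
          have h2 := Finset.card_erase_add_one hl
          rw [ev_ic, ev_eq_zero (hz1 _ (by omega)), map_zero, smul_zero]
        · -- form degree `i + 1`
          have h1 : (c : X.Ch) J = 0 := (hc.2 J).1 (by omega)
          have h2 : dd κ (X.del w J) = dd κ (y J) := by
            have h3 : X.dc (X.del w) J = c0 J := by
              rw [← del_dc, hdw, hb3]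
            rw [hc0, if_pos (by omega)] at h3
            exact h3
          rw [h1, Dt_apply, Pi.add_apply, dc_apply, hz2 J hJ, map_sub, h2, sub_self, zero_add, del_apply]
          refine Finset.sum_eq_zero fun l hl => ?_
          have h2 := Finset.card_erase_add_one hl
          rw [ev_ic, ev_eq_zero (hz1 _ (by omega)), map_zero, smul_zero]
        · -- form degree at most `i`
          rw [← e1 J (by omega), Dt_apply, Dt_apply, Pi.add_apply, Pi.add_apply, dc_apply, dc_apply, hz3 J hJ]
          refine congrArg (fun t => dd κ (y J) + t) ?_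
          rcases Nat.lt_or_ge (m + 2) (J.card + i) with hJ2 | hJ2
          · rw [del_apply, del_apply]
            refine Finset.sum_congr rfl fun l hl => ?_
            have h2 := Finset.card_erase_add_one hl
            rw [ev_ic, ev_ic]
            unfold ev
            rw [hz3 _ (by omega)]
          · have h1 : X.del (X.ic z) J = X.del (X.ic y) J - X.del (X.ic (X.del w)) J := by
              rw [del_apply, del_apply, del_apply, ← Finset.sum_sub_distrib]
              refine Finset.sum_congr rfl fun l hl => ?_
              have h2 := Finset.card_erase_add_one hl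
              rw [ev_ic, ev_ic, ev_ic, ← smul_sub, ← map_sub]
              refine congrArg (fun t => sg l J • inv κ t) ?_
              rw [ev_of (Finset.erase_subset _ _), ev_of (Finset.erase_subset _ _), ev_of (Finset.erase_subset _ _),
                ← map_sub, hz2 _ (by omega)]
            rw [h1, ← del_ic, del_del, Pi.zero_apply, sub_zero]

end MPadcGP

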