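import Pool.Agent.Lib.MP_adc574_ag_GP.ClD
import Pool.Agent.Lib.MP_adc574_ag_GP.DatC
import Pool.Agent.Lib.MP_adc574_ag_GP.FinL
import Pool.Agent.Lib.MP_adc574_ag_GP.Parts3
import Pool.Agent.Lib.MP_adc574_ag_GP.R3Opn
import Pool.Agent.Lib.MP_adc574_ag_GP.R3Opp

/-!
# REL: from closed points of `V(𝔓)` to the generic point and back
-/

set_option autoImplicit false
set_option linter.unusedSectionVars false

namespace MPadcGP

universe u v w x

section

variable {A : Type u} [CommRing A] [IsDomain A] [CharZero A] [Algebra.FiniteType ℤ A]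

theorem away_isDomain {a : A} (ha : a ≠ 0) : IsDomain (Localization.Away a) :=
  IsLocalization.isDomain_localization (powers_le_nonZeroDivisors_of_noZeroDivisors ha)

theorem away_inj {a : A} (ha : a ≠ 0) : Function.Injective (algebraMap A (Localization.Away a)) :=
  IsLocalization.injective _ (powers_le_nonZeroDivisors_of_noZeroDivisors ha)

theorem away_charZero {a : A} (ha : a ≠ 0) : CharZero (Localization.Away a) :=
  charZero_of_injective_algebraMap (away_inj ha)

theorem away_finiteType (a : A) : Algebra.FiniteType ℤ (Localization.Away a) := by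
  have h : Algebra.FiniteType A (Localization.Away a) := IsLocalization.finiteType_of_monoid_fg
    (Submonoid.powers a) _
  exact Algebra.FiniteType.trans (S := A) inferInstance h

theorem away_finiteType' (a : A) :
    @Algebra.FiniteType ℤ (Localization.Away a) _ _ (Ring.toIntAlgebra _) := by
  have h := away_finiteType a
  have e : ∀ i j : Algebra ℤ (Localization.Away a), i = j := fun i j => Subsingleton.elim i j
  rw [e (Ring.toIntAlgebra _) _]
  exact h

/-- Every element is a fraction. -/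
theorem away_surj (a : A) (x : Localization.Away a) : ∃ (y : A) (r : ℕ),
    x * algebraMap A _ a ^ r = algebraMap A _ y := by
  obtain ⟨⟨y, s⟩, hs⟩ := IsLocalization.surj (Submonoid.powers a) x
  obtain ⟨r, hr⟩ := s.2
  refine ⟨y, r, ?_⟩
  rw [← map_pow]
  have h1 : a ^ r = (s : A) := hr
  rw [h1]
  exact hs

/-- Data over the localization at one element. -/
theorem exists_aff {n : ℕ} {I : Ideal (MvPolynomial (Fin n) A)} (hI : IsHomog I) {k : Type u} [Field k]
    (j : A →+* k) (hj : Function.Injective j) (hs : IsSmoothProj (bI j I)) :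
    ∃ a : A, a ≠ 0 ∧ (∀ (B : Type u) [CommRing B] (φ : A →+* B), IsUnit (φ a) → IsSmoothProj (bI φ I)) ∧
      ∀ (B : Type u) [CommRing B] (φ : A →+* B), IsUnit (φ a) →
        ∃ (β : ℕ → Type) (_ : ∀ m, Fintype (β m)) (_ : ∀ m, DecidableEq (β m))
          (lev : ∀ m, β m → ℕ) (z : ∀ m, β m → (prC (bI φ I)).Ch) (h : ℕ → ℕ → ℕ),
          Dat (bI φ I) lev z h := by
  have hnA : IsNoetherianRing A := Algebra.FiniteType.isNoetherianRing ℤ A
  obtain ⟨a₁, ha₁, hs₁⟩ := IsSmoothProj.exists_away hI j hj hs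
  have hd : IsDomain (Localization.Away a₁) := away_isDomain ha₁
  have hft : Algebra.FiniteType ℤ (Localization.Away a₁) := away_finiteType a₁
  have hn : IsNoetherianRing (Localization.Away a₁) := Algebra.FiniteType.isNoetherianRing ℤ _
  set ι := algebraMap A (Localization.Away a₁) with hι
  have hu : IsUnit (ι a₁) := IsLocalization.Away.algebraMap_isUnit a₁
  obtain ⟨a₂, ha₂, hdat⟩ := exists_dat (hI.map ι) (IsSmoothProj.of_away hI hs₁ ι hu)
  obtain ⟨y, r, hy⟩ := away_surj a₁ a₂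
  have hy0 : y ≠ 0 := by
    rintro rfl
    rw [map_zero] at hy
    exact mul_ne_zero ha₂ (pow_ne_zero r hu.ne_zero) hy
  refine ⟨a₁ * y, mul_ne_zero ha₁ hy0, fun B _ φ hφ => ?_, fun B _ φ hφ => ?_⟩
  · rw [map_mul] at hφ
    exact IsSmoothProj.of_away hI hs₁ φ (isUnit_of_mul_isUnit_left hφ)
  · rw [map_mul] at hφ
    have hu₁ : IsUnit (φ a₁) := isUnit_of_mul_isUnit_left hφ
    set φ' : Localization.Away a₁ →+* B := IsLocalization.Away.lift a₁ hu₁ with hφ'
    have hcomp : φ'.comp ι = φ := IsLocalization.Away.lift_comp a₁ hu₁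
    have h1 : IsUnit (φ' a₂) := by
      have h2 : φ' a₂ * φ' (ι a₁) ^ r = φ y := by
        rw [← map_pow, ← map_mul, hy, ← RingHom.comp_apply, hcomp]
      exact isUnit_of_mul_isUnit_left (h2 ▸ isUnit_of_mul_isUnit_right hφ)
    have h2 := hdat B φ' h1
    rw [bI_bI, hcomp] at h2
    exact h2

/-- From the closed points to the generic point of `V(𝔓)`. -/
theorem opp_of_dense {n : ℕ} {I : Ideal (MvPolynomial (Fin n) A)} (hI : IsHomog I) {a : A} (ha : a ≠ 0)
    (hs : IsSmoothProj (bI (algebraMap A (Localization.Away a)) I)) {β : ℕ → Type}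
    [∀ m, Fintype (β m)] [∀ m, DecidableEq (β m)] {lev : ∀ m, β m → ℕ}
    {z : ∀ m, β m → (prC (bI (algebraMap A (Localization.Away a)) I)).Ch} {h : ℕ → ℕ → ℕ}
    (hD : Dat (bI (algebraMap A (Localization.Away a)) I) lev z h) {𝔓 : Ideal A}
    (hd : IsDenseOrd I 𝔓) {K : Type u} [Field K] (φ : A →+* K) (hker : RingHom.ker φ = 𝔓)
    (hφ : ∀ x : K, ∃ a b : A, φ b ≠ 0 ∧ x = φ a / φ b) (ha𝔓 : φ a ≠ 0) :
    IsOppC (prC (bI φ I)) := by
  have hd' : IsDomain (Localization.Away a) := away_isDomain ha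
  have hft : Algebra.FiniteType ℤ (Localization.Away a) := away_finiteType a
  have hn : IsNoetherianRing (Localization.Away a) := Algebra.FiniteType.isNoetherianRing ℤ _
  set ι := algebraMap A (Localization.Away a) with hι
  have huK : IsUnit (φ a) := IsUnit.mk0 _ ha𝔓
  set φ' : Localization.Away a →+* K := IsLocalization.Away.lift a huK with hφ'
  have hcomp : φ'.comp ι = φ := IsLocalization.Away.lift_comp a huK
  have hcomp' : ∀ x, φ' (ι x) = φ x := fun x => RingHom.congr_fun hcomp x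
  by_contra hn'
  have h1 : ¬ IsOppC (prC (bI φ' (bI ι I))) := by
    rw [bI_bI, hcomp]
    exact hn'
  obtain ⟨f, hf, hall⟩ := spread_not_opp (hI.map ι) hs hD φ' (fun x => by
    obtain ⟨c, d, hd1, hd2⟩ := hφ x
    exact ⟨ι c, ι d, by rw [hcomp']; exact hd1, by rw [hcomp', hcomp']; exact hd2⟩) h1
  obtain ⟨y, r, hy⟩ := away_surj a f
  have hy0 : φ y ≠ 0 := by
    rw [← hcomp', ← hy, map_mul, map_pow, hcomp']
    exact mul_ne_zero hf (pow_ne_zero r ha𝔓)
  have hb : a * y ∉ 𝔓 := by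
    rw [← hker, RingHom.mem_ker, map_mul]
    exact mul_ne_zero ha𝔓 hy0
  obtain ⟨𝔪, h𝔪, hle, hb𝔪, hs𝔪, hbk⟩ := hd (a * y) hb
  let _ : Field (A ⧸ 𝔪) := Ideal.Quotient.field 𝔪
  have ha𝔪 : Ideal.Quotient.mk 𝔪 a ≠ 0 := fun h =>
    hb𝔪 (Ideal.mul_mem_right _ _ (Ideal.Quotient.eq_zero_iff_mem.1 h))
  have hy𝔪 : Ideal.Quotient.mk 𝔪 y ≠ 0 := fun h =>
    hb𝔪 (Ideal.mul_mem_left _ _ (Ideal.Quotient.eq_zero_iff_mem.1 h))
  set ψ : Localization.Away a →+* A ⧸ 𝔪 := IsLocalization.Away.lift a (IsUnit.mk0 _ ha𝔪) with hψ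
  have hψc : ψ.comp ι = Ideal.Quotient.mk 𝔪 := IsLocalization.Away.lift_comp a _
  have hψc' : ∀ x, ψ (ι x) = Ideal.Quotient.mk 𝔪 x := fun x => RingHom.congr_fun hψc x
  refine hall (A ⧸ 𝔪) ψ (fun x hx => ?_) ?_ ?_
  · obtain ⟨y', r', hy'⟩ := away_surj a x
    have h2 : φ y' = 0 := by
      rw [← hcomp', ← hy', map_mul, hx, zero_mul]
    have h3 : y' ∈ 𝔪 := hle (hker ▸ (RingHom.mem_ker.2 h2))
    have h4 : ψ x * ψ (ι a) ^ r' = 0 := by
      rw [← map_pow, ← map_mul, hy', hψc', Ideal.Quotient.eq_zero_iff_mem.2 h3]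
    rw [hψc'] at h4
    exact (mul_eq_zero.1 h4).resolve_right (pow_ne_zero _ ha𝔪)
  · intro h2
    apply hy𝔪
    rw [← hψc', ← hy, map_mul, h2, zero_mul]
  · rw [bI_bI, hψc]
    exact opp_of_bk hbk

/-- From the generic point of `V(𝔓)` to the closed points. -/
theorem dense_of_opp {n : ℕ} {I : Ideal (MvPolynomial (Fin n) A)} (hI : IsHomog I) {a : A} (ha : a ≠ 0)
    (hs : IsSmoothProj (bI (algebraMap A (Localization.Away a)) I)) {β : ℕ → Type}
    [∀ m, Fintype (β m)] [∀ m, DecidableEq (β m)] {lev : ∀ m, β m → ℕ}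
    {z : ∀ m, β m → (prC (bI (algebraMap A (Localization.Away a)) I)).Ch} {h : ℕ → ℕ → ℕ}
    (hD : Dat (bI (algebraMap A (Localization.Away a)) I) lev z h) {𝔓 : Ideal A}
    {p : ℕ} [Fact p.Prime] {K : Type u} [Field K] [CharP K p] (φ : A →+* K) (hker : RingHom.ker φ = 𝔓)
    {Λ : Type} [Fintype Λ] {bb : Λ → K} (hbb : PBas p bb)
    (ha𝔓 : φ a ≠ 0) (hopp : IsOppC (prC (bI φ I))) : IsDenseOrd I 𝔓 := by
  have hd' : IsDomain (Localization.Away a) := away_isDomain ha
  have hft' : Algebra.FiniteType ℤ (Localization.Away a) := away_finiteType a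
  have hft := away_finiteType' a
  have hcz : CharZero (Localization.Away a) := away_charZero ha
  have hn : IsNoetherianRing (Localization.Away a) := Algebra.FiniteType.isNoetherianRing ℤ _
  set ι := algebraMap A (Localization.Away a) with hι
  have huK : IsUnit (φ a) := IsUnit.mk0 _ ha𝔓
  set φ' : Localization.Away a →+* K := IsLocalization.Away.lift a huK with hφ'
  have hcomp : φ'.comp ι = φ := IsLocalization.Away.lift_comp a huK
  have hcomp' : ∀ x, φ' (ι x) = φ x := fun x => RingHom.congr_fun hcomp x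
  intro b hb
  have hI' := hI.map ι
  have hfin : ∀ (κ : Type u) [Field κ] (ψ : Localization.Away a →+* κ) (q m : ℕ),
      FiniteDimensional κ (HH (prC (bI ψ (bI ι I))).Dt ((prC (bI ψ (bI ι I))).Fi (q + 1))
        ((prC (bI ψ (bI ι I))).Fi q) m) := fun κ _ ψ q m => (hD.hodge κ ψ q m).1
  have hdim : DimC (prC (bI φ' (bI ι I))) := fun m i =>
    conj_dim hbb (hI'.map _) (hs.map hI' φ') (hfin K φ') (dat_sum hI' hs hD φ') m i
  obtain ⟨κ, iκ, hκf, hκc, ψ, hψk, hψf, hψo⟩ := exists_closed' hI' hs hD φ' (ι (a * b)) (by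
      rw [hcomp', map_mul]
      refine mul_ne_zero ha𝔓 fun h => hb ?_
      rw [← hker]
      exact RingHom.mem_ker.2 h) (by rw [bI_bI, hcomp]; exact hopp) hdim
  have hdimκ : DimC (prC (bI ψ (bI ι I))) := fun m i =>
    conj_dim (p := p) pbas_finite (hI'.map _) (hs.map hI' ψ) (hfin κ ψ) (dat_sum hI' hs hD ψ) m i
  have hbk : (prC (bI ψ (bI ι I))).IsBlochKatoOrdinary :=
    bk_of_opp (p := p) (hI'.map _) (hs.map hI' ψ) (hfin κ ψ) (dat_sum hI' hs hD ψ) (hψo hdimκ)
  set 𝔪 : Ideal A := RingHom.ker (ψ.comp ι) with h𝔪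
  let ψ' : A ⧸ 𝔪 →+* κ := RingHom.kerLift (ψ.comp ι)
  have hψ'inj : Function.Injective ψ' := RingHom.kerLift_injective _
  have hψ'mk : ψ'.comp (Ideal.Quotient.mk 𝔪) = ψ.comp ι := by
    ext x
    rfl
  have hfinq : Finite (A ⧸ 𝔪) := Finite.of_injective _ hψ'inj
  have hprime𝔪 : 𝔪.IsPrime := RingHom.ker_isPrime _
  have hmax : 𝔪.IsMaximal := Ideal.Quotient.maximal_of_isField _ (Finite.isField_of_domain _)
  have hba : a * b ∉ 𝔪 := fun h => hψf h
  refine ⟨𝔪, hmax, fun x hx => ?_, fun h => hba (Ideal.mul_mem_left _ _ h), ?_, ?_⟩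
  · rw [← hker, RingHom.mem_ker, ← hcomp'] at hx
    exact hψk _ hx
  · let _ : Field (A ⧸ 𝔪) := Ideal.Quotient.field 𝔪
    refine IsSmoothProj.of_away hI hs (Ideal.Quotient.mk 𝔪) (IsUnit.mk0 _ fun h => ?_)
    exact hba (Ideal.mul_mem_right _ _ (Ideal.Quotient.eq_zero_iff_mem.1 h))
  · refine bk_descent ψ' ?_ (hI.map _) ?_
    · let _ : Field (A ⧸ 𝔪) := Ideal.Quotient.field 𝔪
      let _ : Algebra (A ⧸ 𝔪) κ := ψ'.toAlgebra
      obtain ⟨r, hr⟩ := (Algebra.linearMap (A ⧸ 𝔪) κ).exists_leftInverse_of_injective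
        (LinearMap.ker_eq_bot.2 hψ'inj)
      refine ⟨r.toAddMonoidHom, ?_, fun x y => ?_⟩
      · have h1 := LinearMap.congr_fun hr 1
        rw [LinearMap.comp_apply, Algebra.linearMap_apply, map_one] at h1
        exact h1
      · have h1 : ψ' x * y = x • y := (Algebra.smul_def x y).symm
        change r (ψ' x * y) = x * r y
        rw [h1, map_smul, smul_eq_mul]
    · rw [bI_bI, hψ'mk]
      rw [bI_bI] at hbk
      exact hbk

end

end MPadcGP
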