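import Pool.Agent.Lib.MP_adc574_ag_GP.GrD

/-!
# GP2: the homogeneity for the weights descends to a finitely generated ring
-/

set_option autoImplicit false
set_option linter.unusedSectionVars false

namespace MPadcGP

open MvPolynomial

universe u

section

variable {k : Type u} [Field k] (A : Subalgebra ℤ k) {n : ℕ}

/-- The elements of the ideal over `k` come from the ideal over a finitely generated ring. -/
theorem exists_descent_ideal (I : Ideal (MvPolynomial (Fin n) A))
    (y : MvPolynomial (Fin n) k) (hy : y ∈ bI (algebraMap A k) I) :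
    ∃ t : Finset k, ∀ (A' : Subalgebra ℤ k) (h : A ≤ A'), (t : Set k) ⊆ A' →
      ∃ y' ∈ bI (Subalgebra.inclusion h).toRingHom I, MvPolynomial.map (algebraMap A' k) y' = y := by
  classical
  induction hy using Submodule.span_induction with
  | mem x hx =>
    obtain ⟨f, hf, rfl⟩ := hx
    refine ⟨∅, fun A' h _ => ⟨MvPolynomial.map (Subalgebra.inclusion h).toRingHom f,
      Ideal.mem_map_of_mem _ hf, ?_⟩⟩
    rw [MvPolynomial.map_map]
    rfl
  | zero => exact ⟨∅, fun A' h _ => ⟨0, Ideal.zero_mem _, map_zero _⟩⟩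
  | add x y _ _ hx hy =>
    obtain ⟨s, hs⟩ := hx
    obtain ⟨t, ht⟩ := hy
    refine ⟨s ∪ t, fun A' h hst => ?_⟩
    rw [Finset.coe_union, Set.union_subset_iff] at hst
    obtain ⟨x', hx', hxx⟩ := hs A' h hst.1
    obtain ⟨y', hy', hyy⟩ := ht A' h hst.2
    exact ⟨x' + y', Ideal.add_mem _ hx' hy', by rw [map_add, hxx, hyy]⟩
  | smul a x _ hx =>
    obtain ⟨s, hs⟩ := hx
    refine ⟨s ∪ a.support.image fun e => coeff e a, fun A' h hst => ?_⟩
    rw [Finset.coe_union, Set.union_subset_iff] at hst
    obtain ⟨x', hx', hxx⟩ := hs A' h hst.1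
    have h1 : ∀ e ∈ a.support, coeff e a ∈ A' := fun e he =>
      hst.2 (Finset.mem_coe.2 (Finset.mem_image_of_mem _ he))
    let a' : MvPolynomial (Fin n) A' := ∑ e ∈ a.support.attach, monomial e.1 ⟨coeff e.1 a, h1 e.1 e.2⟩
    have ha : MvPolynomial.map (algebraMap A' k) a' = a := by
      rw [map_sum]
      have h2 : ∀ e ∈ a.support.attach, MvPolynomial.map (algebraMap A' k)
          (monomial e.1 (⟨coeff e.1 a, h1 e.1 e.2⟩ : A')) = monomial e.1 (coeff e.1 a) := by
        intro e _
        rw [map_monomial]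
        rfl
      rw [Finset.sum_congr rfl h2, Finset.sum_attach a.support fun e => monomial e (coeff e a)]
      exact a.support_sum_monomial_coeff
    exact ⟨a' * x', Ideal.mul_mem_left _ _ hx', by rw [map_mul, ha, hxx, smul_eq_mul]⟩

end

variable {M : Type} [AddCommGroup M] [Fintype M] [DecidableEq M]

/-- PART W7: if the ideal over `k` is homogeneous for the weights, so is the ideal over a larger
finitely generated ring. -/
theorem exists_wHomog {k : Type u} [Field k] (A : Subalgebra ℤ k) (hA : A.FG) {n : ℕ}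
    (I : Ideal (MvPolynomial (Fin n) A)) {wt : Fin n → M} (hw : IsWHomog wt (bI (algebraMap A k) I)) :
    ∃ (A' : Subalgebra ℤ k) (hle : A ≤ A'), A'.FG ∧
      IsWHomog wt (bI (Subalgebra.inclusion hle).toRingHom I) := by
  classical
  have hft : Algebra.FiniteType ℤ A := (Subalgebra.fg_iff_finiteType A).1 hA
  have hn : IsNoetherianRing A := Algebra.FiniteType.isNoetherianRing ℤ A
  obtain ⟨F, hF⟩ := (isNoetherianRing_iff_ideal_fg (MvPolynomial (Fin n) A)).1 inferInstance I
  have h1 : ∀ (f : MvPolynomial (Fin n) A) (μ : M), f ∈ I →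
      MvPolynomial.map (algebraMap A k) (weightedHomogeneousComponent wt μ f) ∈
        bI (algebraMap A k) I := by
    intro f μ hf
    rw [← whc_map]
    exact hw _ (Ideal.mem_map_of_mem _ hf) μ
  have hFI : ∀ f : F, (f : MvPolynomial (Fin n) A) ∈ I := fun f => by
    rw [← hF]
    exact Submodule.subset_span f.2
  choose t ht using fun (f : F) (μ : M) => exists_descent_ideal A I _ (h1 f μ (hFI f))
  let T : Finset k := Finset.univ.biUnion fun f : F => Finset.univ.biUnion fun μ : M => t f μ
  let A' : Subalgebra ℤ k := A ⊔ Algebra.adjoin ℤ (T : Set k)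
  have hle : A ≤ A' := le_sup_left
  have hT : (T : Set k) ⊆ A' := fun x hx =>
    (le_sup_right : Algebra.adjoin ℤ (T : Set k) ≤ A') (Algebra.subset_adjoin hx)
  refine ⟨A', hle, hA.sup ⟨T, rfl⟩, ?_⟩
  have hinj : Function.Injective (MvPolynomial.map (σ := Fin n) (algebraMap A' k)) :=
    MvPolynomial.map_injective _ Subtype.val_injective
  have h2 : ∀ (f : F) (μ : M), MvPolynomial.map (Subalgebra.inclusion hle).toRingHom
      (weightedHomogeneousComponent wt μ (f : MvPolynomial (Fin n) A)) ∈
        bI (Subalgebra.inclusion hle).toRingHom I := by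
    intro f μ
    obtain ⟨y', hy', hyy⟩ := ht f μ A' hle fun x hx => hT (Finset.mem_coe.2
      (Finset.mem_biUnion.2 ⟨f, Finset.mem_univ _, Finset.mem_biUnion.2
        ⟨μ, Finset.mem_univ _, Finset.mem_coe.1 hx⟩⟩))
    have h3 : MvPolynomial.map (Subalgebra.inclusion hle).toRingHom
        (weightedHomogeneousComponent wt μ (f : MvPolynomial (Fin n) A)) = y' := by
      apply hinj
      rw [hyy, MvPolynomial.map_map]
      rfl
    rw [h3]
    exact hy'
  -- all the elements of `I`
  have h3 : ∀ f ∈ I, ∀ μ : M, MvPolynomial.map (Subalgebra.inclusion hle).toRingHom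
      (weightedHomogeneousComponent wt μ f) ∈ bI (Subalgebra.inclusion hle).toRingHom I := by
    intro f hf
    rw [← hF] at hf
    induction hf using Submodule.span_induction with
    | mem x hx => exact fun μ => h2 ⟨x, hx⟩ μ
    | zero => exact fun μ => by rw [map_zero, map_zero]; exact Ideal.zero_mem _
    | add x y _ _ hx hy => exact fun μ => by rw [map_add, map_add]; exact Ideal.add_mem _ (hx μ) (hy μ)
    | smul a x _ hx =>
      intro μ
      rw [smul_eq_mul, whc_mul, map_sum]
      refine Ideal.sum_mem _ fun ν _ => ?_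
      rw [map_mul]
      exact Ideal.mul_mem_left _ _ (hx _)
  intro f hf μ
  induction hf using Submodule.span_induction generalizing μ with
  | mem x hx =>
    obtain ⟨g, hg, rfl⟩ := hx
    change weightedHomogeneousComponent wt μ
      (MvPolynomial.map (Subalgebra.inclusion hle).toRingHom g) ∈ _
    rw [whc_map]
    exact h3 g hg μ
  | zero => rw [map_zero]; exact Ideal.zero_mem _
  | add x y _ _ hx hy => rw [map_add]; exact Ideal.add_mem _ (hx μ) (hy μ)
  | smul a x _ hx =>
    rw [smul_eq_mul, whc_mul]
    exact Ideal.sum_mem _ fun ν _ => Ideal.mul_mem_left _ _ (hx _)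

end MPadcGP
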