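import Pool.Agent.Lib.MP_adc574_ag_GP.DatW

/-!
# GP2: the assembly, lemmas
-/

set_option autoImplicit false
set_option linter.unusedSectionVars false

namespace MPadcGP

universe u v w x

section

variable {M : Type} [AddCommGroup M] [Fintype M] [DecidableEq M]

theorem isGeneralW_congr {k : Type u} [Field k] {n : ℕ} {wt : Fin n → M}
    {I I' : Ideal (MvPolynomial (Fin n) k)} (h : I = I') (hI : IsHomog I) (hw : IsWHomog wt I)
    (hI' : IsHomog I') (hw' : IsWHomog wt I') (hg : (grP hI hw).IsGeneralW) :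
    (grP hI' hw').IsGeneralW := by
  subst h
  exact hg

theorem dimHW_congr {k : Type u} [Field k] {n : ℕ} {wt : Fin n → M}
    {I I' : Ideal (MvPolynomial (Fin n) k)} (h : I = I') (hI : IsHomog I) (hw : IsWHomog wt I)
    (hI' : IsHomog I') (hw' : IsWHomog wt I') (m i : ℕ) (μ : M) :
    Module.finrank k ↥((prC I).Fil m i ⊓ (grP hI hw).HW m μ) =
      Module.finrank k ↥((prC I').Fil m i ⊓ (grP hI' hw').HW m μ) := by
  subst h
  rfl

/-- Opposite in every weight implies opposite. -/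
theorem oppC_of_weights {κ : Type u} [Field κ] {n : ℕ} {X : CovD.{u, v} κ n} {W : GrX X M}
    {β : ℕ × M → Type} [∀ a, Fintype (β a)] {lev : ∀ a, β a → ℕ} {z : ∀ a, β a → X.Ch}
    (h : IsAdW W lev z)
    (hopp : ∀ a i, ∀ c ∈ h.con a i, (∀ b, lev a b < i + 1 → c b = 0) → c = 0) : IsOppC X := by
  intro m i
  rw [Submodule.eq_bot_iff]
  rintro x ⟨hx1, hx2⟩
  obtain ⟨c, hc, rfl⟩ := CovD.mem_Con.1 hx1
  obtain ⟨c', hc', hcc⟩ := CovD.mem_Fil.1 hx2
  rw [CovD.cl_eq] at hcc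
  rw [CovD.cl_eq_zero, ← W.sum_P (c : X.Ch)]
  refine Submodule.sum_mem _ fun μ _ => ?_
  have hPc : W.P μ c ∈ X.Zc m := W.P_mem_Zc c.2 μ
  have hPc' : W.P μ c' ∈ X.Zc m := W.P_mem_Zc c'.2 μ
  obtain ⟨e, he⟩ := h.exists_crd (a := (m, μ)) (x := X.cl m ⟨W.P μ c, hPc⟩)
    (W.mem_HW.2 ⟨⟨_, hPc⟩, W.P_mem _ _, rfl⟩)
  have h1 : X.cl m ⟨W.P μ c, hPc⟩ = X.cl m ⟨W.P μ c', hPc'⟩ := by
    rw [CovD.cl_eq]
    change W.P μ c - W.P μ c' ∈ X.Bc m
    rw [← map_sub, ← neg_mem_iff, ← map_neg, neg_sub]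
    exact W.P_mem_Bc hcc μ
  have h2 : e = 0 := by
    refine hopp (m, μ) i e ?_ ?_
    · change h.crd (m, μ) e ∈ X.Con m i
      rw [he]
      exact CovD.mem_Con.2 ⟨⟨_, hPc⟩, W.P_mem_Ni hc μ, rfl⟩
    · rw [← h.crd_mem_Fil (a := (m, μ)), he, h1]
      exact CovD.mem_Fil.2 ⟨⟨_, hPc'⟩, W.P_mem_Fi hc' μ, rfl⟩
  rw [h2, map_zero] at he
  exact (CovD.cl_eq_zero (c := ⟨W.P μ c, hPc⟩)).1 he.symm

theorem smul_injective_of_lt {p : ℕ} (hp : p.Prime) (h : Fintype.card M < p) :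
    Function.Injective fun μ : M => p • μ := by
  have h0 : 0 < Fintype.card M := Fintype.card_pos
  have h1 : (Nat.card M).Coprime p := by
    rw [Nat.card_eq_fintype_card]
    exact (Nat.coprime_of_lt_prime h0.ne' h hp).symm
  exact (nsmulCoprime h1).injective

end

end MPadcGP
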