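import Pool.Agent.Lib.MP_adc574_ag_GP.R9c

/-!
# REL, part R9: the kernel, the base case and the assembly
-/

set_option autoImplicit false
set_option linter.unusedSectionVars false

namespace MPadcGP

open MvPolynomial

universe u v w x y z

/-- A minimal family of generators of an ideal killed by a maximal ideal. -/
theorem exists_eps {B : Type u} [CommRing B] (K M : Ideal B) (hM : M.IsMaximal) (hK : K.FG)
    (hKM : ∀ a ∈ K, ∀ b ∈ M, a * b = 0) :
    ∃ (r : ℕ) (ε : Fin r → B), (∀ j, ε j ∈ K) ∧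
      (∀ a ∈ K, ∃ y : Fin r → B, a = ∑ j, ε j * y j) ∧
      ∀ y : Fin r → B, ∑ j, y j * ε j = 0 → ∀ j, y j ∈ M := by
  classical
  have h0 : ∃ r : ℕ, ∃ ε : Fin r → B, (∀ j, ε j ∈ K) ∧
      ∀ a ∈ K, ∃ y : Fin r → B, a = ∑ j, ε j * y j := by
    obtain ⟨r, ε, hε⟩ := Submodule.fg_iff_exists_fin_generating_family.1 hK
    refine ⟨r, ε, fun j => ?_, fun a ha => ?_⟩
    · rw [← hε]
      exact Submodule.subset_span ⟨j, rfl⟩
    · rw [← hε, Submodule.mem_span_range_iff_exists_fun] at ha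
      obtain ⟨c, hc⟩ := ha
      refine ⟨c, ?_⟩
      rw [← hc]
      exact Finset.sum_congr rfl fun j _ => by rw [smul_eq_mul, mul_comm]
  obtain ⟨ε, hε, hgen⟩ := Nat.find_spec h0
  refine ⟨Nat.find h0, ε, hε, hgen, ?_⟩
  have hmin := fun s hs => Nat.find_min h0 (m := s) hs
  revert hmin
  generalize Nat.find h0 = r at ε hε hgen
  intro hmin y hy j₀
  by_contra hj
  obtain ⟨r', rfl⟩ : ∃ r', r = r' + 1 := ⟨r - 1, by have := j₀.2; omega⟩
  obtain ⟨b, c, hc, hbc⟩ := hM.exists_inv hj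
  have h1 : ε j₀ = -(b * ∑ k, y (j₀.succAbove k) * ε (j₀.succAbove k)) := by
    have h2 : ε j₀ * c = 0 := hKM _ (hε j₀) _ hc
    rw [Fin.sum_univ_succAbove _ j₀] at hy
    have h3 : ε j₀ = b * (y j₀ * ε j₀) + ε j₀ * c := by
      calc ε j₀ = ε j₀ * (b * y j₀ + c) := by rw [hbc, mul_one]
        _ = _ := by ring
    rw [h2, add_zero] at h3
    have h4 : y j₀ * ε j₀ = -∑ k, y (j₀.succAbove k) * ε (j₀.succAbove k) :=
      eq_neg_of_add_eq_zero_left hy
    rw [h4, mul_neg] at h3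
    exact h3
  refine hmin r' (Nat.lt_succ_self r') ⟨fun k => ε (j₀.succAbove k), fun k => hε _, fun a ha => ?_⟩
  obtain ⟨t, ht⟩ := hgen a ha
  refine ⟨fun k => t (j₀.succAbove k) - b * y (j₀.succAbove k) * t j₀, ?_⟩
  rw [ht, Fin.sum_univ_succAbove _ j₀]
  have h5 : ε j₀ * t j₀ = -∑ k, ε (j₀.succAbove k) * (b * y (j₀.succAbove k) * t j₀) := by
    rw [h1, Finset.mul_sum, neg_mul, Finset.sum_mul]
    congr 1
    exact Finset.sum_congr rfl fun k _ => by ring
  rw [h5, ← Finset.sum_neg_distrib, ← Finset.sum_add_distrib]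
  exact Finset.sum_congr rfl fun k _ => by ring

theorem exists_pbas (p : ℕ) [Fact p.Prime] (κ : Type u) [Field κ] [CharP κ p] [Finite κ] :
    PBas p (fun _ : Unit => (1 : κ)) := by
  intro c
  have hinj : Function.Injective (frobenius κ p) := frobenius_inj κ p
  obtain ⟨d, hd⟩ := (Finite.injective_iff_surjective.1 hinj) c
  have hd' : d ^ p = c := hd
  refine ⟨fun _ => d, ?_, fun a ha => ?_⟩
  · change c = ∑ l : Unit, d ^ p * 1
    rw [Fintype.sum_unique, mul_one, hd']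
  · replace ha : c = ∑ l : Unit, a l ^ p * 1 := ha
    rw [Fintype.sum_unique, mul_one] at ha
    funext _
    apply hinj
    change a default ^ p = d ^ p
    rw [hd', ← ha]

/-- Over a finite field with degenerating Hodge filtration. -/
theorem strictN_field {p : ℕ} [Fact p.Prime] {κ : Type u} [Field κ] [CharP κ p] [Finite κ] {n : ℕ}
    {I : Ideal (MvPolynomial (Fin n) κ)} (hI : IsHomog I) (hs : IsSmoothProj I)
    (hf : ∀ q m, FiniteDimensional κ (HH (prC I).Dt ((prC I).Fi (q + 1)) ((prC I).Fi q) m))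
    (hsum : ∀ m, ∑ q ∈ Finset.range (m + 1),
      Module.finrank κ (HH (prC I).Dt ((prC I).Fi (q + 1)) ((prC I).Fi q) m) ≤
        Module.finrank κ ((prC I).HdR m)) : StrictN (prC I) := by
  intro i m e he hde
  have hc : ∀ J : Finset (Fin n), J.Nonempty → CarP p (fun _ : Unit => (1 : κ)) ((prC I).R J) := by
    intro J hJ
    have : Algebra.Smooth κ ((prC I).R J) := IsSmoothProj.smooth hI hs hJ
    exact carP_of_smooth (exists_pbas p κ)
  obtain ⟨b, hb, hbb⟩ := Submodule.mem_map.1 (CovD.N_strict hf (CovD.brd_sum hsum) p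
    (fun _ : Unit => (1 : κ)) hc i (m + 1) _ hde (CovD.Dt_Dt e) ⟨e, he, rfl⟩)
  exact ⟨b, hb, hbb⟩

section

variable {A : Type u} [CommRing A] {n : ℕ} {I : Ideal (MvPolynomial (Fin n) A)} {β : ℕ → Type}
    [∀ m, Fintype (β m)] {lev : ∀ m, β m → ℕ} {z : ∀ m, β m → (prC I).Ch} {h : ℕ → ℕ → ℕ}

/-- The Hodge numbers of one fibre bound those of the others. -/
theorem hsum_of_hsum (hD : Dat I lev z h) {κ : Type u} [Field κ] (ψ : A →+* κ)
    (hsum : ∀ m, ∑ q ∈ Finset.range (m + 1), Module.finrank κ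
      (HH (prC (bI ψ I)).Dt ((prC (bI ψ I)).Fi (q + 1)) ((prC (bI ψ I)).Fi q) m) ≤
        Module.finrank κ ((prC (bI ψ I)).HdR m)) {κ' : Type u} [Field κ'] (ψ' : A →+* κ') (m : ℕ) :
    ∑ q ∈ Finset.range (m + 1), Module.finrank κ'
      (HH (prC (bI ψ' I)).Dt ((prC (bI ψ' I)).Fi (q + 1)) ((prC (bI ψ' I)).Fi q) m) ≤
        Module.finrank κ' ((prC (bI ψ' I)).HdR m) := by
  have h1 := hsum m
  rw [(hD.ad κ ψ).finrank, Finset.sum_congr rfl fun q _ => (hD.hodge κ ψ q m).2] at h1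
  rw [(hD.ad κ' ψ').finrank, Finset.sum_congr rfl fun q _ => (hD.hodge κ' ψ' q m).2]
  exact h1

end

end MPadcGP
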