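import Pool.Agent.Lib.MP_adc574_ag_GP.R9b
import Pool.Agent.Lib.MP_adc574_ag_GP.R9d

/-!
# REL, part R9: the assembly
-/

set_option autoImplicit false
set_option linter.unusedSectionVars false

namespace MPadcGP

open MvPolynomial

universe u v w x y z

section

variable {A : Type u} [CommRing A] {n : ℕ} {I : Ideal (MvPolynomial (Fin n) A)} {β : ℕ → Type}
    [∀ m, Fintype (β m)] {lev : ∀ m, β m → ℕ} {z : ∀ m, β m → (prC I).Ch} {h : ℕ → ℕ → ℕ}

/-- The data of the step for projective schemes. -/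
theorem stepD_of (hI : IsHomog I) (hs : IsSmoothProj I) {p : ℕ} [Fact p.Prime] {B B₂ κ : Type u}
    [CommRing B] [CommRing B₂] [Field κ] [CharP B p] [CharP B₂ p] [CharP κ p] [Finite κ]
    {ρ : A →+* B} {ρ₂ : A →+* B₂} {ψ : A →+* κ}
    {f : B →+* B₂} {g : B →+* κ} {g₂ : B₂ →+* κ} (hf : Function.Surjective f)
    (hg : Function.Surjective g) (hfg : g₂.comp f = g) {N : ℕ} (hnil : (RingHom.ker g₂) ^ N = ⊥)
    (hρ₂ : f.comp ρ = ρ₂) (hψ : g.comp ρ = ψ) {r : ℕ} (ε : Fin r → B)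
    (hgen : ∀ a, f a = 0 → ∃ y : Fin r → B, a = ∑ j, ε j * y j)
    (hkill : ∀ j a, g a = 0 → ε j * a = 0)
    (hind : ∀ y : Fin r → B, ∑ j, y j * ε j = 0 → ∀ j, g (y j) = 0) :
    StepD (prT hρ₂ I) (prT hψ I) ε := by
  let _ : Algebra B B₂ := f.toAlgebra
  let _ : Algebra B κ := g.toAlgebra
  let _ : Algebra B₂ κ := g₂.toAlgebra
  have hψ₂ : g₂.comp ρ₂ = ψ := by rw [← hρ₂, ← RingHom.comp_assoc, hfg, hψ]
  let F : CovD.Hm (algebraMap B B₂) (prC (bI ρ I)) (prC (bI ρ₂ I)) := prT hρ₂ I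
  let G : CovD.Hm (algebraMap B κ) (prC (bI ρ I)) (prC (bI ψ I)) := prT hψ I
  let G₂ : CovD.Hm (algebraMap B₂ κ) (prC (bI ρ₂ I)) (prC (bI ψ I)) := prT hψ₂ I
  have hF : F.IsBC := by
    refine prM_isBC (hI.map _) ?_ _
    change bI ρ₂ I = bI f (bI ρ I)
    rw [bI_bI, hρ₂]
  have hG : G.IsBC := by
    refine prM_isBC (hI.map _) ?_ _
    change bI ψ I = bI g (bI ρ I)
    rw [bI_bI, hψ]
  have hG₂ : G₂.IsBC := by
    refine prM_isBC (hI.map _) ?_ _
    change bI ψ I = bI g₂ (bI ρ₂ I)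
    rw [bI_bI, hψ₂]
  have hg₂ : Function.Surjective g₂ := fun y => by
    obtain ⟨b, rfl⟩ := hg y
    exact ⟨f b, by rw [← RingHom.comp_apply, hfg]⟩
  have hX : ∀ J : Finset (Fin n), J.Nonempty → Algebra.Smooth B ((prC (bI ρ I)).R J) :=
    fun J hJ => IsSmoothProj.smooth (hI.map _) (hs.map hI _) hJ
  have hY : ∀ J : Finset (Fin n), J.Nonempty → Algebra.Smooth B₂ ((prC (bI ρ₂ I)).R J) :=
    fun J hJ => IsSmoothProj.smooth (hI.map _) (hs.map hI _) hJ
  have hZ : ∀ J : Finset (Fin n), J.Nonempty → Algebra.Smooth κ ((prC (bI ψ I)).R J) :=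
    fun J hJ => IsSmoothProj.smooth (hI.map _) (hs.map hI _) hJ
  have hpb : PBas p (fun _ : Unit => (1 : κ)) := exists_pbas p κ
  refine ⟨hf, hgen, hkill, fun i m c hc => ?_, fun m c hc => ?_, fun i m c hc => ?_,
    fun m c hc h0 => ?_, fun m c hc h0 j => ?_, fun i m c hc h0 j => ?_⟩
  · exact F.Ni_lift hpb hF hf G₂ hG₂ hg₂ hnil hY hZ hc
  · exact F.Tt_lift hF hf hc
  · exact G.Ni_lift_field hpb hG hg hZ hc
  · refine F.ker_Tt hF hf (fun a ha => ?_) hc h0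
    obtain ⟨y, rfl⟩ := hgen a ha
    exact Ideal.sum_mem _ fun j _ => Ideal.mul_mem_right _ _ (Ideal.subset_span ⟨j, rfl⟩)
  · exact G.kill hG hg (fun a ha => hkill j a ha) hc h0
  · exact G.Ni_comp hX (fun y hy => hind y hy) hc h0 j

theorem strict_opp_step (hI : IsHomog I) (hs : IsSmoothProj I)
    (hD : Dat I lev z h) {p : ℕ} [Fact p.Prime] {B B₂ κ : Type u}
    [CommRing B] [CommRing B₂] [Field κ] [CharP B p] [CharP B₂ p] [CharP κ p] [Finite κ]
    [IsNoetherianRing B]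
    {ρ : A →+* B} {ρ₂ : A →+* B₂} {ψ : A →+* κ}
    {f : B →+* B₂} {g : B →+* κ} {g₂ : B₂ →+* κ} (hf : Function.Surjective f)
    (hg : Function.Surjective g) (hfg : g₂.comp f = g) {N : ℕ} (hnil : (RingHom.ker g₂) ^ N = ⊥)
    (hρ₂ : f.comp ρ = ρ₂) (hψ : g.comp ρ = ψ)
    (hKM : ∀ a, f a = 0 → ∀ b, g b = 0 → a * b = 0)
    (hsZ : StrictN (prC (bI ψ I))) (hoZ : IsOppR ψ I lev z)
    (hsY : StrictN (prC (bI ρ₂ I))) (hoY : IsOppR ρ₂ I lev z) :
    StrictN (prC (bI ρ I)) ∧ IsOppR ρ I lev z := by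
  obtain ⟨r, ε, h1, h2, h3⟩ := exists_eps (RingHom.ker f) (RingHom.ker g)
    (RingHom.ker_isMaximal_of_surjective g hg) (IsNoetherian.noetherian _)
    (fun a ha b hb => hKM a ha b hb)
  have hS : StepD (prT hρ₂ I) (prT hψ I) ε := stepD_of hI hs (p := p) hf hg hfg hnil hρ₂ hψ ε
    (fun a ha => h2 a ha) (fun j a ha => hKM _ (h1 j) a ha) h3
  have hz : ∀ m b, (prH ρ I).push (z m b) ∈ (prC (bI ρ I)).Zc m := (hD.ad B ρ).mem_Zc
  have e1 : (fun (m : ℕ) (b : β m) => (prT hρ₂ I).push ((prH ρ I).push (z m b))) =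
      fun m b => (prH ρ₂ I).push (z m b) := by
    funext m b
    exact prT_push hρ₂ I _
  have e2 : (fun (m : ℕ) (b : β m) => (prT hψ I).push ((prH ρ I).push (z m b))) =
      fun m b => (prH ψ I).push (z m b) := by
    funext m b
    exact prT_push hψ I _
  have hY : IsAd (prC (bI ρ₂ I)) lev
      (fun (m : ℕ) (b : β m) => (prT hρ₂ I).push ((prH ρ I).push (z m b))) := by
    rw [e1]
    exact hD.ad B₂ ρ₂
  refine ⟨hS.strict hz hY hsY hsZ, hS.opp hz hY hsY ?_ ?_⟩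
  · rw [e1]
    exact hoY
  · rw [e2]
    exact hoZ

/-- PART R9: if the fibre over one closed point of `V(ker φ)` is opposite then so is the generic fibre over
`V(ker φ)`. -/
theorem opp_of_closed [∀ m, DecidableEq (β m)] [IsNoetherianRing A] (hI : IsHomog I)
    (hs : IsSmoothProj I)
    (hD : Dat I lev z h) {p : ℕ} [Fact p.Prime] {K : Type u} [Field K] [CharP K p] (φ : A →+* K)
    (hφ : ∀ x : K, ∃ a b : A, φ b ≠ 0 ∧ x = φ a / φ b) {κ : Type u} [Field κ] [Finite κ] [CharP κ p]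
    (ψ : A →+* κ) (hψ : Function.Surjective ψ) (hk : ∀ a, φ a = 0 → ψ a = 0)
    (hsum : ∀ m, ∑ q ∈ Finset.range (m + 1), Module.finrank κ
      (HH (prC (bI ψ I)).Dt ((prC (bI ψ I)).Fi (q + 1)) ((prC (bI ψ I)).Fi q) m) ≤
        Module.finrank κ ((prC (bI ψ I)).HdR m))
    (hopp : IsOppC (prC (bI ψ I))) : IsOppC (prC (bI φ I)) := by
  refine opp_of_art hI hs hD φ hφ ψ hk ?_
  -- the ring `A / ker φ`
  let A' := A ⧸ RingHom.ker φ
  let π : A →+* A' := Ideal.Quotient.mk (RingHom.ker φ)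
  let ψ' : A' →+* κ := Ideal.Quotient.lift (RingHom.ker φ) ψ fun a ha => hk a (RingHom.mem_ker.1 ha)
  have hψπ : ψ'.comp π = ψ := RingHom.ext fun a => rfl
  have hψ' : Function.Surjective ψ' := fun y => by
    obtain ⟨a, rfl⟩ := hψ y
    exact ⟨π a, rfl⟩
  let 𝔪 : Ideal A' := (RingHom.ker ψ).map π
  have hker : RingHom.ker ψ' = 𝔪 := by
    apply le_antisymm
    · intro a ha
      obtain ⟨a, rfl⟩ := Ideal.Quotient.mk_surjective a
      exact Ideal.mem_map_of_mem π (RingHom.mem_ker.2 (RingHom.mem_ker.1 ha))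
    · exact Ideal.map_le_iff_le_comap.2 fun a ha => ha
  have hmem : ∀ a, ψ' a = 0 ↔ a ∈ 𝔪 := fun a => by rw [← hker]; exact Iff.rfl
  have hmax : 𝔪.IsMaximal := by
    rw [← hker]
    exact RingHom.ker_isMaximal_of_surjective ψ' hψ'
  -- the quotients
  let g : ∀ N : ℕ, A' ⧸ 𝔪 ^ (N + 1) →+* κ := fun N =>
    Ideal.Quotient.lift (𝔪 ^ (N + 1)) ψ' fun a ha => (hmem a).2 (Ideal.pow_le_self (Nat.succ_ne_zero N) ha)
  have hgs : ∀ N, Function.Surjective (g N) := fun N y => by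
    obtain ⟨a, rfl⟩ := hψ' y
    exact ⟨Ideal.Quotient.mk _ a, rfl⟩
  let ρ : ∀ N : ℕ, A →+* A' ⧸ 𝔪 ^ N := fun N => (Ideal.Quotient.mk (𝔪 ^ N)).comp π
  have hgρ : ∀ N, (g N).comp (ρ (N + 1)) = ψ := fun N => RingHom.ext fun a => rfl
  have hgk : ∀ N, RingHom.ker (g N) = 𝔪.map (Ideal.Quotient.mk (𝔪 ^ (N + 1))) := by
    intro N
    apply le_antisymm
    · intro a ha
      obtain ⟨a, rfl⟩ := Ideal.Quotient.mk_surjective a
      exact Ideal.mem_map_of_mem _ ((hmem a).1 (RingHom.mem_ker.1 ha))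
    · exact Ideal.map_le_iff_le_comap.2 fun a ha => (hmem a).2 ha
  have hnil : ∀ N, (RingHom.ker (g N)) ^ (N + 1) = ⊥ := by
    intro N
    have h1 : (𝔪.map (Ideal.Quotient.mk (𝔪 ^ (N + 1)))) ^ (N + 1) =
        (𝔪 ^ (N + 1)).map (Ideal.Quotient.mk (𝔪 ^ (N + 1))) := (Ideal.map_pow _ _ _).symm
    rw [hgk, h1, Ideal.map_quotient_self]
  have hcA : CharP A' p := RingHom.charP (RingHom.kerLift φ) (RingHom.kerLift_injective φ) p
  have hnt : ∀ N, Nontrivial (A' ⧸ 𝔪 ^ (N + 1)) := fun N => by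
    obtain ⟨a, ha⟩ := hgs N 1
    exact ⟨a, 0, fun h0 => one_ne_zero (α := κ) (by rw [← ha, h0, map_zero])⟩
  have hcp : ∀ N, CharP (A' ⧸ 𝔪 ^ (N + 1)) p := by
    intro N
    have := hnt N
    rw [CharP.charP_iff_prime_eq_zero Fact.out, ← map_natCast (Ideal.Quotient.mk (𝔪 ^ (N + 1))),
      CharP.cast_eq_zero A' p, map_zero]
  have hoκ : IsOppR ψ I lev z := oppR_of_isOppC hD ψ hopp
  have hsκ : StrictN (prC (bI ψ I)) := strictN_field (p := p) (hI.map _) (hs.map hI _)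
    (fun q m => (hD.hodge κ ψ q m).1) hsum
  -- the induction
  have hmain : ∀ N : ℕ, StrictN (prC (bI (ρ (N + 1)) I)) ∧ IsOppR (ρ (N + 1)) I lev z := by
    intro N
    induction N with
    | zero =>
      have hmax1 : (𝔪 ^ (0 + 1)).IsMaximal := by
        rw [zero_add, pow_one]
        exact hmax
      let _ : Field (A' ⧸ 𝔪 ^ (0 + 1)) := Ideal.Quotient.field (𝔪 ^ (0 + 1))
      have hinj : Function.Injective (g 0) := (g 0).injective
      have hfin : Finite (A' ⧸ 𝔪 ^ (0 + 1)) := Finite.of_injective (g 0) hinj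
      have hch := hcp 0
      let e : (A' ⧸ 𝔪 ^ (0 + 1)) ≃+* κ := RingEquiv.ofBijective (g 0) ⟨hinj, hgs 0⟩
      refine ⟨strictN_field (p := p) (hI.map _) (hs.map hI _)
        (fun q m => (hD.hodge _ (ρ (0 + 1)) q m).1) (hsum_of_hsum hD ψ hsum _), ?_⟩
      refine oppR_of_frac hI hs hD (ρ := ψ) (φ₁ := e.symm.toRingHom) ?_ e.symm.injective
        (fun x => ⟨e x, 1, ?_, ?_⟩) hoκ
      · refine RingHom.ext fun a => ?_
        change e.symm (ψ a) = _
        rw [RingEquiv.symm_apply_eq]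
        rfl
      · rw [map_one]
        exact one_ne_zero
      · rw [map_one, div_one]
        exact (e.symm_apply_apply x).symm
    | succ N ih =>
      let f : A' ⧸ 𝔪 ^ (N + 1 + 1) →+* A' ⧸ 𝔪 ^ (N + 1) :=
        Ideal.Quotient.factor (Ideal.pow_le_pow_right (Nat.le_succ (N + 1)))
      have hch := hcp (N + 1)
      have hch2 := hcp N
      refine strict_opp_step hI hs hD (p := p) (f := f) (g := g (N + 1)) (g₂ := g N)
        (ψ := ψ) (ρ₂ := ρ (N + 1)) (Ideal.Quotient.factor_surjective _) (hgs (N + 1))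
        (Ideal.Quotient.ringHom_ext (RingHom.ext fun a => rfl)) (hnil N)
        (RingHom.ext fun a => rfl) (hgρ (N + 1)) ?_ hsκ hoκ ih.1 ih.2
      intro a ha b hb
      obtain ⟨a, rfl⟩ := Ideal.Quotient.mk_surjective a
      obtain ⟨b, rfl⟩ := Ideal.Quotient.mk_surjective b
      have ha' : a ∈ 𝔪 ^ (N + 1) := Ideal.Quotient.eq_zero_iff_mem.1 ha
      have hb' : b ∈ 𝔪 := (hmem b).1 hb
      rw [← map_mul, Ideal.Quotient.eq_zero_iff_mem, pow_succ]
      exact Ideal.mul_mem_mul ha' hb'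
  intro N
  cases N with
  | zero =>
    intro m i x hx c hc w hw he
    have h1 : Subsingleton (A' ⧸ 𝔪 ^ 0) := by
      rw [pow_zero, Ideal.one_eq_top]
      exact Ideal.Quotient.subsingleton_iff.2 rfl
    funext b
    exact Subsingleton.elim (α := A' ⧸ 𝔪 ^ 0) _ _
  | succ N => exact (hmain N).2

end

end MPadcGP
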