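import Pool.Agent.Lib.MP_adc574_ag_GP.Fin3b
import Pool.Agent.Lib.MP_adc574_ag_GP.R9e

/-!
# REL: from one closed point to the generic point
-/

set_option autoImplicit false
set_option linter.unusedSectionVars false

namespace MPadcGP

universe u v w x

section

variable {A : Type u} [CommRing A] [IsDomain A] [CharZero A] [Algebra.FiniteType ℤ A]

/-- From one closed point to the generic point of `V(𝔓)`. -/
theorem opp_generic {n : ℕ} {I : Ideal (MvPolynomial (Fin n) A)} (hI : IsHomog I) {a : A} (ha : a ≠ 0)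
    (hs : IsSmoothProj (bI (algebraMap A (Localization.Away a)) I)) {β : ℕ → Type}
    [∀ m, Fintype (β m)] [∀ m, DecidableEq (β m)] {lev : ∀ m, β m → ℕ}
    {z : ∀ m, β m → (prC (bI (algebraMap A (Localization.Away a)) I)).Ch} {h : ℕ → ℕ → ℕ}
    (hD : Dat (bI (algebraMap A (Localization.Away a)) I) lev z h) {p : ℕ} [Fact p.Prime]
    {K : Type u} [Field K] [CharP K p] (φ : A →+* K)
    (hφ : ∀ x : K, ∃ a b : A, φ b ≠ 0 ∧ x = φ a / φ b) (ha𝔓 : φ a ≠ 0) {𝔪 : Ideal A}
    (h𝔪 : 𝔪.IsMaximal) (ha𝔪 : a ∉ 𝔪) (hle : ∀ x, φ x = 0 → x ∈ 𝔪)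
    (hbk : (prC (bI (Ideal.Quotient.mk 𝔪) I)).IsBlochKatoOrdinary) : IsOppC (prC (bI φ I)) := by
  have hd' : IsDomain (Localization.Away a) := away_isDomain ha
  have hft' : Algebra.FiniteType ℤ (Localization.Away a) := away_finiteType a
  have hft := away_finiteType' a
  have hcz : CharZero (Localization.Away a) := away_charZero ha
  have hn : IsNoetherianRing (Localization.Away a) := Algebra.FiniteType.isNoetherianRing ℤ _
  set ι := algebraMap A (Localization.Away a) with hι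
  have huK : IsUnit (φ a) := IsUnit.mk0 _ ha𝔓
  set φ' : Localization.Away a →+* K := IsLocalization.Away.lift a huK with hφ'
  have hcomp : φ'.comp ι = φ := IsLocalization.Away.lift_comp a huK
  have hcomp' : ∀ x, φ' (ι x) = φ x := fun x => RingHom.congr_fun hcomp x
  let _ : Field (A ⧸ 𝔪) := Ideal.Quotient.field 𝔪
  have ha𝔪' : Ideal.Quotient.mk 𝔪 a ≠ 0 := fun h => ha𝔪 (Ideal.Quotient.eq_zero_iff_mem.1 h)
  have hcp : CharP (A ⧸ 𝔪) p := by
    have h1 : ((p : ℕ) : A ⧸ 𝔪) = 0 := by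
      rw [← map_natCast (Ideal.Quotient.mk 𝔪) p, Ideal.Quotient.eq_zero_iff_mem]
      refine hle _ ?_
      rw [map_natCast]
      exact CharP.cast_eq_zero K p
    exact charP_of_cast_zero (Fact.out : p.Prime) h1
  have hfinq : Finite (A ⧸ 𝔪) := finite_quot (p := p) 𝔪
  set ψ : Localization.Away a →+* A ⧸ 𝔪 := IsLocalization.Away.lift a (IsUnit.mk0 _ ha𝔪') with hψ
  have hψc : ψ.comp ι = Ideal.Quotient.mk 𝔪 := IsLocalization.Away.lift_comp a _
  have hψc' : ∀ x, ψ (ι x) = Ideal.Quotient.mk 𝔪 x := fun x => RingHom.congr_fun hψc x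
  have h1 := opp_of_closed (p := p) (hI.map ι) hs hD φ' (fun x => by
    obtain ⟨c, d, hd1, hd2⟩ := hφ x
    exact ⟨ι c, ι d, by rw [hcomp']; exact hd1, by rw [hcomp', hcomp']; exact hd2⟩) ψ (fun x => by
      obtain ⟨y, rfl⟩ := Ideal.Quotient.mk_surjective x
      exact ⟨ι y, hψc' y⟩) (fun x hx => by
        obtain ⟨y', r', hy'⟩ := away_surj a x
        have h2 : φ y' = 0 := by
          rw [← hcomp', ← hy', map_mul, hx, zero_mul]
        have h4 : ψ x * ψ (ι a) ^ r' = 0 := by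
          rw [← map_pow, ← map_mul, hy', hψc', Ideal.Quotient.eq_zero_iff_mem.2 (hle _ h2)]
        rw [hψc'] at h4
        exact (mul_eq_zero.1 h4).resolve_right (pow_ne_zero _ ha𝔪')) (dat_sum (hI.map ι) hs hD ψ) (by
          rw [bI_bI, hψc]
          exact opp_of_bk hbk)
  rw [bI_bI, hcomp] at h1
  exact h1

end

end MPadcGP
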