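import Pool.Agent.Lib.MP_adc574_ag_GP.Lit

/-!
# Ordinary reduction: the definitions used in the statement

`k` is a field, `X` the projective scheme with the homogeneous ideal `I ⊆ k[x_0, …, x_{n-1}]`, `U_J` the affine open set
where the coordinates `x_j`, `j ∈ J`, do not vanish (`J` a nonempty set of indices; the components of all
cochains at `J = ∅` are required to be `0`).

* `proj I`: the rings of functions on the `U_J` and the restriction maps (a `Cover`).
* `Om A R`: differential forms; `fn`, `dif`, `gr`, `ext`: functions, differentials, grade involution, exterior derivative.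
* `Cover.Cochain`, `Cover.tot`: the Čech–de Rham complex; `Cover.DR`: its cohomology, `H^m_dR(X)`; `Cover.hodge`: Hodge
  filtration; `Cover.nabla`: Gauss–Manin connection (relation `y = ∇_D x`); `Cover.prod`: the product;
  `Cover.dlog`: classes of Čech cocycles of products of logarithmic differentials.
* `part I w m μ`: the part of weight `μ` of `H^m_dR(X)`, if the coordinate `x_l` has the weight `w l` in a finite
  abelian group `M` and `I` is `WeightHomogeneous` (that is, the group of characters of `M` acts on `X`). For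
  `M = 0` the only part is `H^m_dR(X)`.
* `Horizontal`, `ConjugateType`, `General`: the hypothesis of general position.
* `Cover.Ordinary`: all `H^j(X, BΩ^{q+1})` vanish (Bloch–Kato); over an affine open set the sections of the sheaf
  `BΩ^{q+1}` are the derivatives of the forms of degree `q`.
-/

set_option autoImplicit false

namespace OrdRed

open MPadcGP

universe u v w x

/-! ## Differential forms -/

section forms

/-- The algebra of differential forms of the `A`-algebra `R`: the exterior algebra of the Kähler differentials. -/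
def Om (A : Type u) (R : Type v) [CommRing A] [CommRing R] [Algebra A R] : Type v :=
  ExteriorAlgebra R (Ω[R⁄A])

variable (A : Type u) {R : Type v} [CommRing A] [CommRing R] [Algebra A R]

noncomputable instance ringOm : Ring (Om A R) := (inferInstance : Ring (ExteriorAlgebra R (Ω[R⁄A])))

noncomputable instance moduleOm : Module A (Om A R) := (inferInstance : Module A (ExteriorAlgebra R (Ω[R⁄A])))

/-- A function as a form of degree `0`. -/
noncomputable def fn (r : R) : Om A R := algebraMap R (ExteriorAlgebra R (Ω[R⁄A])) r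

/-- The differential of a function. -/
noncomputable def dif (r : R) : Om A R := ExteriorAlgebra.ι R (KaehlerDifferential.D A R r)

theorem exists_gr : ∃ g : Om A R → Om A R, (∀ x y, g (x + y) = g x + g y) ∧ (∀ x y, g (x * y) = g x * g y) ∧
    (∀ r, g (fn A r) = fn A r) ∧ ∀ r, g (dif A r) = -dif A r :=
  ⟨inv A, map_add _, map_mul _, inv_fz, inv_df⟩

/-- The grade involution: multiplication with `(-1)^q` in degree `q`. -/
noncomputable def gr : Om A R → Om A R := (exists_gr A).choose

theorem gr_eq (x : Om A R) : gr A x = inv A x := by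
  have h := (exists_gr A (R := R)).choose_spec
  refine fm_ind (P := fun x => gr A x = inv A x) (fun r => (h.2.2.1 r).trans (inv_fz r).symm)
    (fun t => (h.2.2.2 t).trans (inv_df t).symm) (fun x y hx hy => ?_) (fun x y hx hy => ?_) x
  · exact (h.2.1 x y).trans ((congrArg₂ (· * ·) hx hy).trans (map_mul (inv A) x y).symm)
  · exact (h.1 x y).trans ((congrArg₂ (· + ·) hx hy).trans (map_add (inv A) x y).symm)

theorem exists_ext : ∃ g : Om A R → Om A R, (∀ x y, g (x + y) = g x + g y) ∧
    (∀ x y, g (x * y) = g x * y + gr A x * g y) ∧ (∀ r, g (fn A r) = dif A r) ∧ ∀ r, g (dif A r) = 0 := by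
  refine ⟨dd A, map_add _, fun x y => ?_, dd_fz A, dd_df A⟩
  rw [gr_eq]
  exact dd_mul A x y

/-- The exterior derivative. -/
noncomputable def ext : Om A R → Om A R := (exists_ext A).choose

variable {A}

theorem exists_pull {B : Type w} {S : Type x} [CommRing B] [CommRing S] [Algebra B S] (φ : R →+* S)
    (hφ : ∀ a : A, ∃ b : B, φ (algebraMap A R a) = algebraMap B S b) :
    ∃ g : Om A R → Om B S, (∀ x y, g (x + y) = g x + g y) ∧ (∀ x y, g (x * y) = g x * g y) ∧
      (∀ r, g (fn A r) = fn B (φ r)) ∧ ∀ r, g (dif A r) = dif B (φ r) :=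
  ⟨mp φ hφ, map_add _, map_mul _, mp_fz hφ, mp_df hφ⟩

/-- The map of forms induced by a ring homomorphism. -/
noncomputable def pull {B : Type w} {S : Type x} [CommRing B] [CommRing S] [Algebra B S] (φ : R →+* S)
    (hφ : ∀ a : A, ∃ b : B, φ (algebraMap A R a) = algebraMap B S b) : Om A R → Om B S :=
  (exists_pull φ hφ).choose

/-- Forms of degree `q`: sums of forms `r dt_1 ∧ … ∧ dt_q`. -/
def OfDegree (q : ℕ) (ω : Om A R) : Prop :=
  ω ∈ AddSubgroup.closure {η | ∃ (r : R) (t : Fin q → R), η = fn A r * (List.ofFn fun l => dif A (t l)).prod}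

/-- Exact forms of degree `q + 1`: the derivatives of the forms of degree `q`. (On an affine smooth scheme over a field
of characteristic `p` they are the sections of the sheaf `BΩ^{q+1}`.) -/
def Exact (q : ℕ) (ω : Om A R) : Prop := ∃ η : Om A R, OfDegree q η ∧ ext A η = ω

/-- Sums and differences of the forms `dlog u_1 ∧ … ∧ dlog u_j`, `u_l` units. -/
def Logarithmic (j : ℕ) (ω : Om A R) : Prop :=
  ω ∈ AddSubgroup.closure {η | ∃ u : Fin j → Rˣ, η = (List.ofFn fun l => fn A ((u l)⁻¹ : Rˣ).val * dif A (u l).val).prod}

end forms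

/-! ## The Čech–de Rham complex -/

/-- The rings of functions `R J` of the intersections `U_J` (`J` nonempty) of the open sets of an affine covering of
a scheme over `A`, with the restriction maps. (Only `proj I` below is used, where the `res` are the restriction maps.) -/
structure Cover (A : Type u) [CommRing A] (n : ℕ) where
  /-- The functions on `U_J`. -/
  R : Finset (Fin n) → Type v
  [ring : ∀ J, CommRing (R J)]
  [alg : ∀ J, Algebra A (R J)]
  /-- The restriction maps. -/
  res : ∀ {J K : Finset (Fin n)}, J ⊆ K → (R J →ₐ[A] R K)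

attribute [instance] Cover.ring Cover.alg

namespace Cover

variable {A : Type u} [CommRing A] {n : ℕ} (X : Cover.{u, v} A n)

/-- Families of forms on the `U_J`. -/
def Cochain : Type v := ∀ J : Finset (Fin n), Om A (X.R J)

noncomputable instance groupCochain : AddCommGroup X.Cochain := Pi.addCommGroup

noncomputable instance moduleCochain : Module A X.Cochain := Pi.module _ _ _

/-- The restriction of forms. -/
noncomputable def rest {J K : Finset (Fin n)} (h : J ⊆ K) : Om A (X.R J) → Om A (X.R K) :=
  pull (X.res h : X.R J →+* X.R K) fun a => ⟨a, (X.res h).commutes a⟩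

/-- `(-1)^(number of elements of J smaller than j)` -/
def sign (j : Fin n) (J : Finset (Fin n)) : ℤ := (-1) ^ (J.filter (· < j)).card

/-- The Čech differential `(δ c)_J = ∑_j ± c_{J - j}`. -/
noncomputable def cech (c : X.Cochain) : X.Cochain := fun J =>
  ∑ j ∈ J, sign j J • X.rest (Finset.erase_subset j J) (c (J.erase j))

/-- The total differential `d c + δ ((-1)^q c)`, `q` the degree of forms. -/
noncomputable def tot (c : X.Cochain) : X.Cochain := fun J =>
  ext A (c J) + X.cech (fun K => gr A (c K)) J

/-- Cochains of total degree `m`: on `U_J` with `|J| = p + 1` they are forms of degree `m - p`. -/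
def Deg (m : ℕ) (c : X.Cochain) : Prop :=
  c ∅ = 0 ∧ ∀ J : Finset (Fin n), (∀ q, q + J.card = m + 1 → OfDegree q (c J)) ∧ (m + 1 < J.card → c J = 0)

/-- The cocycles of degree `m`. -/
noncomputable def Z (m : ℕ) : Submodule A X.Cochain := Submodule.span A {c | X.Deg m c ∧ X.tot c = 0}

/-- The coboundaries of degree `m`. -/
noncomputable def B (m : ℕ) : Submodule A X.Cochain :=
  Submodule.span A {c | ∃ (l : ℕ) (b : X.Cochain), l + 1 = m ∧ X.Deg l b ∧ X.tot b = c}

/-- The de Rham cohomology `H^m_dR`. -/
def DR (m : ℕ) : Type v := ↥(X.Z m) ⧸ (X.B m).submoduleOf (X.Z m)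

noncomputable instance groupDR (m : ℕ) : AddCommGroup (X.DR m) :=
  Submodule.Quotient.addCommGroup ((X.B m).submoduleOf (X.Z m))

noncomputable instance moduleDR (m : ℕ) : Module A (X.DR m) :=
  Submodule.Quotient.module ((X.B m).submoduleOf (X.Z m))

/-- The class of a cocycle. -/
noncomputable def cls (m : ℕ) (c : ↥(X.Z m)) : X.DR m := (Submodule.Quotient.mk c : ↥(X.Z m) ⧸ (X.B m).submoduleOf (X.Z m))

/-- `c` is a cocycle of degree `m` with the cohomology class `x`. -/
def HasClass (m : ℕ) (c : X.Cochain) (x : X.DR m) : Prop := ∃ h : c ∈ X.Z m, X.cls m ⟨c, h⟩ = x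

/-- The Hodge filtration `F^i H^m_dR`: classes of cocycles of forms of degree `≥ i`. -/
noncomputable def hodge (m i : ℕ) : Submodule A (X.DR m) :=
  Submodule.span A {x | ∃ c, X.HasClass m c x ∧ ∀ J : Finset (Fin n), m + 1 < J.card + i → c J = 0}

/-- `z` is the product of `x` and `y`. -/
def prod (m m' : ℕ) (x : X.DR m) (y : X.DR m') (z : X.DR (m + m')) : Prop :=
  ∃ a b c : X.Cochain, X.HasClass m a x ∧ X.HasClass m' b y ∧ X.HasClass (m + m') c z ∧
    ∀ J : Finset (Fin n), c J = ∑ s ∈ J, X.rest (Finset.filter_subset (· ≤ s) J) (a (J.filter (· ≤ s))) *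
      (gr A)^[(J.filter (· < s)).card] (X.rest (Finset.filter_subset (s ≤ ·) J) (b (J.filter (s ≤ ·))))

/-- The classes of the Čech cocycles of degree `m - j` with values in the sheaf of logarithmic forms of degree `j`: on
`U_J` sums and differences of products of logarithmic differentials of units of `R J`. -/
def dlog (m j : ℕ) : Set (X.DR m) :=
  {x | ∃ c, X.HasClass m c x ∧ ∀ J : Finset (Fin n), Logarithmic j (c J) ∧ (J.card + j ≠ m + 1 → c J = 0)}

/-- The same scheme considered over the ring of integers; `Om ℤ (X.R J)` are the absolute forms. -/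
def abs : Cover ℤ n where
  R := X.R
  res h := (X.res h : _ →+* _).toIntAlgHom

theorem int_base (R : Type v) [CommRing R] [Algebra A R] (a : ℤ) :
    ∃ b : A, RingHom.id R (algebraMap ℤ R a) = algebraMap A R b :=
  ⟨a, by rw [RingHom.id_apply, eq_intCast, map_intCast]⟩

/-- The map from the absolute forms on `U_J` to the forms over `A`. -/
noncomputable def toRel (J : Finset (Fin n)) : Om ℤ (X.R J) → Om A (X.R J) :=
  pull (RingHom.id (X.R J)) (int_base (X.R J))

/-- The image of a cochain of absolute forms in the forms over `A`. -/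
noncomputable def rel (C : X.abs.Cochain) : X.Cochain := fun J => X.toRel J (C J)

/-- `y = ∇_D x` (Gauss–Manin connection, construction of Katz and Oda): a cocycle of `x` lifts to a cochain `C` of
absolute forms (forms over `ℤ`), whose total differential is `∑ da_i ∧ η_i` with `a_i` in the base field, and `y` is the
class of `∑ D(a_i) η_i`. -/
def nabla (m : ℕ) (D : Derivation ℤ A A) (x y : X.DR m) : Prop :=
  ∃ (C : X.abs.Cochain) (r : ℕ) (a : Fin r → A) (η : Fin r → X.abs.Cochain),
    X.abs.Deg m C ∧ (∀ i, X.abs.Deg m (η i)) ∧ X.HasClass m (X.rel C) x ∧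
    (∀ J, X.abs.tot C J = ∑ i, (dif ℤ (algebraMap A (X.R J) (a i)) : Om ℤ (X.abs.R J)) * η i J) ∧
    X.HasClass m (∑ i, D (a i) • X.rel (η i)) y

/-- Ordinary in the sense of Bloch and Kato: `H^j(X, BΩ^{q+1}) = 0` for all `j` and `q`. -/
def Ordinary : Prop :=
  ∀ (q j : ℕ) (c : X.Cochain), c ∅ = 0 → (∀ J : Finset (Fin n), Exact q (c J) ∧ (J.card ≠ j + 1 → c J = 0)) →
    X.cech c = 0 → ∃ b : X.Cochain, b ∅ = 0 ∧ (∀ J : Finset (Fin n), Exact q (b J) ∧ (J.card ≠ j → b J = 0)) ∧
      X.cech b = c

end Cover

/-! ## General position -/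

section linear

variable {k : Type u} [Field k]

/-- The space `W` of alternating forms on `H` is horizontal; `nab D x y` says `y = ∇_D x`. -/
def Horizontal {H : Type v} [AddCommGroup H] [Module k H] (nab : Derivation ℤ k k → H → H → Prop) {r : ℕ}
    (W : Submodule k (H [⋀^Fin r]→ₗ[k] k)) : Prop :=
  ∀ D : Derivation ℤ k k, ∀ ω ∈ W, ∃ ω' ∈ W, ∀ x y : Fin r → H, (∀ l, nab D (x l) (y l)) →
    ω' x = D (ω x) - ∑ l, ω (Function.update x l (y l))

/-- Every horizontal space `W` of alternating forms on `V` with `r` arguments which contains a nonzero form killed by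
the elements of `P` contains a form which does not vanish on `F`. -/
def Position {V : Type v} [AddCommGroup V] [Module k V] (nab : Derivation ℤ k k → V → V → Prop) (r : ℕ)
    (F P : Set V) : Prop :=
  ∀ W : Submodule k (V [⋀^Fin r]→ₗ[k] k), Horizontal nab W →
    (∃ ω ∈ W, ω ≠ 0 ∧ ∀ x, (∃ l, x l ∈ P) → ω x = 0) → ∃ ω ∈ W, ∃ x, (∀ l, x l ∈ F) ∧ ω x ≠ 0

variable {n : ℕ} {M : Type w} (X : Cover.{u, v} k n) (H : ∀ m : ℕ, M → Submodule k (X.DR m))

/-- The filtrations `P m` of the `H^m_dR(X)` are of conjugate type: increasing, sums of their intersections with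
the parts `H m μ` of weight `μ`, of dimensions complementary to those of the Hodge filtration in every weight,
multiplicative, and containing the logarithmic classes. -/
structure ConjugateType (P : ∀ m : ℕ, ℕ → Submodule k (X.DR m)) : Prop where
  mono : ∀ m i, P m i ≤ P m (i + 1)
  homog : ∀ m i, P m i ≤ ⨆ μ, P m i ⊓ H m μ
  dim : ∀ m i μ, Module.finrank k ↥(P m i ⊓ H m μ) + Module.finrank k ↥(X.hodge m (i + 1) ⊓ H m μ) =
    Module.finrank k (H m μ)
  mul : ∀ m m' i i', ∀ x ∈ P m i, ∀ y ∈ P m' i', ∀ z, X.prod m m' x y z → z ∈ P (m + m') (i + i')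
  log : ∀ m j, ∀ x ∈ X.dlog m j, x ∈ P m j

/-- General position: for filtrations `P` of conjugate type every horizontal space `W` of alternating forms on
`H m μ` with `dim (F^{i+1} ∩ H m μ)` arguments which contains a nonzero form killed by `P m i ∩ H m μ` contains a
form which does not vanish on `F^{i+1} ∩ H m μ`. -/
def General : Prop :=
  ∀ P : ∀ m : ℕ, ℕ → Submodule k (X.DR m), ConjugateType X H P → ∀ (m i : ℕ) (μ : M),
    Position (fun D (x y : H m μ) => X.nabla m D x y) (Module.finrank k ↥(X.hodge m (i + 1) ⊓ H m μ))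
      {x | (x : X.DR m) ∈ X.hodge m (i + 1)} {x | (x : X.DR m) ∈ P m i}

end linear

/-! ## Projective schemes -/

section proj

open MvPolynomial

variable {A : Type u} [CommRing A] {n : ℕ} (I : Ideal (MvPolynomial (Fin n) A)) (J : Finset (Fin n))

/-- The ideal contains the homogeneous components of its elements. -/
def Homogeneous : Prop := ∀ f ∈ I, ∀ d, homogeneousComponent d f ∈ I

/-- The homogeneous coordinate ring with the product of the `x_j`, `j ∈ J`, inverted. -/
def Loc : Type u := Localization.Away (Ideal.Quotient.mk I (∏ j ∈ J, X j))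

noncomputable instance ringLoc : CommRing (Loc I J) :=
  (inferInstance : CommRing (Localization.Away (Ideal.Quotient.mk I (∏ j ∈ J, X j))))

noncomputable instance algebraLoc : Algebra A (Loc I J) :=
  (inferInstance : Algebra A (Localization.Away (Ideal.Quotient.mk I (∏ j ∈ J, X j))))

/-- The coordinate `x_l`. -/
noncomputable def coord (l : Fin n) : Loc I J := Localization.mk (Ideal.Quotient.mk I (X l)) 1

/-- The functions on `U_J`: the subring generated by `A` and the `x_l / x_j`, `j ∈ J`. -/
noncomputable def functions : Subalgebra A (Loc I J) :=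
  Algebra.adjoin A {z | ∃ l, ∃ j ∈ J, z * coord I J j = coord I J l}

/-- The ring of functions on `U_J`. -/
def Fun : Type u := ↥(functions I J)

noncomputable instance ringFun : CommRing (Fun I J) := (functions I J).toCommRing

noncomputable instance algebraFun : Algebra A (Fun I J) := (functions I J).algebra

variable {I J}

/-- The function `z` on `U_J` is equal to `x_l / x_j`. -/
def IsQuot (l j : Fin n) (z : Fun I J) : Prop := z.1 * coord I J j = coord I J l

theorem exists_restriction {K : Finset (Fin n)} (h : J ⊆ K) : ∃ g : Fun I J →ₐ[A] Fun I K,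
    ∀ (l j : Fin n) (z : Fun I J), j ∈ J → IsQuot l j z → IsQuot l j (g z) := by
  refine ⟨tr I h, fun l j z hj hz => ?_⟩
  have h1 : (z : chart I J) = cq I J l hj := by
    apply Subtype.ext
    apply (lx_isUnit I J hj).mul_right_cancel
    rw [cq_mul_lx]
    exact hz
  have h2 : tr I h z = cq I K l (h hj) := by rw [h1, tr_cq]
  change (tr I h z).1 * lx I K j = lx I K l
  rw [h2, cq_mul_lx]

/-- The restriction map: `x_l / x_j ↦ x_l / x_j`. -/
noncomputable def restriction {K : Finset (Fin n)} (h : J ⊆ K) : Fun I J →ₐ[A] Fun I K :=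
  (exists_restriction h).choose

variable (I)

/-- The projective scheme with the ideal `I`, covered by the sets `x_j ≠ 0`. -/
noncomputable def proj : Cover A n where
  R J := Fun I J
  res h := restriction h

/-- Forms of weight `μ` on `U_J`: combinations of products of functions `x_l / x_j` and differentials
`d(x_l / x_j)` of total weight `μ`, where `x_l / x_j` has the weight `w l - w j`. -/
def OfWeight {M : Type w} [AddCommGroup M] (w : Fin n → M) (J : Finset (Fin n)) (μ : M) (ω : Om A (Fun I J)) : Prop :=
  ω ∈ Submodule.span A {η | ∃ (r : ℕ) (s : Fin r → Bool) (l j : Fin r → Fin n) (z : Fin r → Fun I J),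
    (∀ t, j t ∈ J ∧ IsQuot (l t) (j t) (z t)) ∧ ∑ t, (w (l t) - w (j t)) = μ ∧
      η = (List.ofFn fun t => bif s t then dif A (z t) else fn A (z t)).prod}

/-- The part of weight `μ` of `H^m_dR`: the span of the classes of the cocycles of forms of weight `μ`. -/
noncomputable def part {M : Type w} [AddCommGroup M] (w : Fin n → M) (m : ℕ) (μ : M) : Submodule A ((proj I).DR m) :=
  Submodule.span A {x | ∃ c, (proj I).HasClass m c x ∧ ∀ J, OfWeight I w J μ (c J)}

/-- The ideal contains the components of its elements for the weights `w l` of the coordinates `x_l`. -/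
def WeightHomogeneous {M : Type w} [AddCommGroup M] (w : Fin n → M) : Prop :=
  ∀ f ∈ I, ∀ μ, weightedHomogeneousComponent w μ f ∈ I

/-- `dim (F^i ∩ H^m_dR(X)_μ)`. -/
noncomputable def hodgeDim {M : Type w} [AddCommGroup M] (w : Fin n → M) (m i : ℕ) (μ : M) : ℕ :=
  Module.finrank A ↥((proj I).hodge m i ⊓ part I w m μ)

/-- The projective scheme is smooth. -/
def SmoothProj : Prop := ∀ i : Fin n, Algebra.Smooth A (Fun I {i})

/-- The ideal of the base change: it is generated by the images of the elements of `I`. -/
noncomputable def change {B : Type v} [CommRing B] (f : A →+* B) : Ideal (MvPolynomial (Fin n) B) :=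
  I.map (MvPolynomial.map f)

/-- There is a closed point `s` of `Spec A` of characteristic `p`, with `b(s) ≠ 0`, such that the fibre `X_s` over the
residue field `A ⧸ 𝔪` (a finite field if `A` is a finitely generated ring) is smooth and ordinary. -/
def HasOrdinaryFibre (b : A) (p : ℕ) : Prop :=
  ∃ 𝔪 : Ideal A, 𝔪.IsMaximal ∧ b ∉ 𝔪 ∧ (p : A) ∈ 𝔪 ∧
    SmoothProj (change I (Ideal.Quotient.mk 𝔪)) ∧ (proj (change I (Ideal.Quotient.mk 𝔪))).Ordinary

end proj

end OrdRed
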