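import Pool.Agent.Lib.MP_adc574_ag_GP.DRm

/-!
# GP2: gradings of the algebra of differential forms

`M` is a finite abelian group (the weights). `Grd A R M`: a grading of the `A`-algebra `R` by `M`, given by
the coaction `g : R → R[M]`; `G.c μ r` is the component of weight `μ`. `wp G μ` is the projector on the forms
of weight `μ`.
-/

set_option autoImplicit false
set_option linter.unusedSectionVars false

namespace MPadcGP

universe u v w x y

section ama

variable {M : Type y} [AddCommGroup M] [Fintype M] {E : Type w} [Ring E]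

/-- The coefficients of a product. -/
theorem gra_mul (a b : AddMonoidAlgebra E M) (μ : M) :
    (a * b).coeff μ = ∑ ν, a.coeff ν * b.coeff (μ - ν) := by
  rw [AddMonoidAlgebra.coeff_mul_apply_left, Finsupp.sum_fintype _ _ fun i => by rw [zero_mul]]
  exact Finset.sum_congr rfl fun ν _ => by rw [neg_add_eq_sub]

/-- The substitution `ν ↦ μ - ν`. -/
theorem gra_refl {N : Type*} [AddCommMonoid N] (μ : M) (f : M → M → N) :
    ∑ ν, f ν (μ - ν) = ∑ ν, f (μ - ν) ν :=
  Fintype.sum_equiv (Equiv.subLeft μ) _ _ fun ν => by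
    rw [Equiv.subLeft_apply, sub_sub_cancel]

/-- The substitution in double sums. -/
theorem gra_conv {N : Type*} [AddCommMonoid N] (f : M → M → N) :
    ∑ μ, ∑ ν, f ν (μ - ν) = ∑ ν, ∑ κ, f ν κ := by
  rw [Finset.sum_comm]
  refine Finset.sum_congr rfl fun ν _ => ?_
  exact Fintype.sum_equiv (Equiv.subRight ν) _ _ fun μ => rfl

end ama

/-- A grading of the `A`-algebra `R` by the finite abelian group `M`. -/
structure Grd (A : Type u) (R : Type v) (M : Type y) [CommRing A] [CommRing R] [Algebra A R]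
    [AddCommGroup M] [Fintype M] where
  /-- The coaction. -/
  g : R →+* AddMonoidAlgebra R M
  base : ∀ a : A, g (algebraMap A R a) = AddMonoidAlgebra.single 0 (algebraMap A R a)
  sum : ∀ r, ∑ μ, (g r).coeff μ = r
  co : ∀ r μ, g ((g r).coeff μ) = AddMonoidAlgebra.single μ ((g r).coeff μ)

section grd

variable {A : Type u} {R : Type v} {M : Type y} [CommRing A] [CommRing R] [Algebra A R]
  [AddCommGroup M] [Fintype M] [DecidableEq M] (G : Grd A R M)

/-- The component of weight `μ`. -/
noncomputable def Grd.c (μ : M) (r : R) : R := (G.g r).coeff μ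

namespace Grd

theorem c_add (μ : M) (r s : R) : G.c μ (r + s) = G.c μ r + G.c μ s := by
  unfold c
  rw [map_add, AddMonoidAlgebra.coeff_add, Finsupp.add_apply]

theorem c_zero (μ : M) : G.c μ (0 : R) = 0 := by
  unfold c
  rw [map_zero]
  rfl

theorem c_mul (μ : M) (r s : R) : G.c μ (r * s) = ∑ ν, G.c ν r * G.c (μ - ν) s := by
  unfold c
  rw [map_mul, gra_mul]

theorem c_base (μ : M) (a : A) : G.c μ (algebraMap A R a) = if μ = 0 then algebraMap A R a else 0 := by
  unfold c
  rw [G.base, AddMonoidAlgebra.coeff_single, Finsupp.single_apply]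
  exact if_congr eq_comm rfl rfl

theorem sum_c (r : R) : ∑ μ, G.c μ r = r := G.sum r

theorem c_c (ν μ : M) (r : R) : G.c ν (G.c μ r) = if ν = μ then G.c μ r else 0 := by
  unfold c
  rw [G.co, AddMonoidAlgebra.coeff_single, Finsupp.single_apply]
  exact if_congr eq_comm rfl rfl

/-- The component as an additive map. -/
noncomputable def cadd (μ : M) : R →+ R where
  toFun := G.c μ
  map_zero' := G.c_zero μ
  map_add' := G.c_add μ

theorem c_base_mul (μ : M) (a : A) (r : R) :
    G.c μ (algebraMap A R a * r) = algebraMap A R a * G.c μ r := by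
  rw [c_mul, Finset.sum_eq_single 0]
  · rw [c_base, if_pos rfl, sub_zero]
  · intro ν _ hν
    rw [c_base, if_neg hν, zero_mul]
  · intro h
    exact absurd (Finset.mem_univ _) h

end Grd

private theorem gf_exists : ∃ F : Fm A R →+* AddMonoidAlgebra (Fm A R) M,
    (∀ r μ, (F (fz A r)).coeff μ = fz A (G.c μ r)) ∧ ∀ t μ, (F (df A t)).coeff μ = df A (G.c μ t) := by
  let dfh : R →+ Fm A R :=
    { toFun := df A
      map_zero' := df_zero
      map_add' := df_add }
  let φ : R →+* AddMonoidAlgebra (Fm A R) M := (AddMonoidAlgebra.mapRingHom M (fz A)).comp G.g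
  let δ : R →+ AddMonoidAlgebra (Fm A R) M :=
    { toFun := fun t => AddMonoidAlgebra.map dfh (G.g t)
      map_zero' := by rw [map_zero, AddMonoidAlgebra.map_zero]
      map_add' := fun s t => by rw [map_add, AddMonoidAlgebra.map_add] }
  have hφ : ∀ r μ, (φ r).coeff μ = fz A (G.c μ r) := fun r μ => rfl
  have hδ : ∀ t μ, (δ t).coeff μ = df A (G.c μ t) := fun t μ => rfl
  obtain ⟨F, h1, h2⟩ := exists_hom (A := A) φ
    (by
      intro r x
      ext μ
      rw [gra_mul, gra_mul, gra_refl μ (fun a b => x.coeff a * (φ r).coeff b)]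
      refine Finset.sum_congr rfl fun ν _ => ?_
      rw [hφ, fz_comm])
    δ
    (by
      intro r t
      ext μ
      rw [AddMonoidAlgebra.coeff_add, Finsupp.add_apply, gra_mul, gra_mul, hδ, Grd.c_mul,
        gra_refl μ (fun a b => (φ t).coeff a * (δ r).coeff b), ← Finset.sum_add_distrib]
      have e1 : df A (∑ ν, G.c ν r * G.c (μ - ν) t) = ∑ ν, df A (G.c ν r * G.c (μ - ν) t) :=
        map_sum dfh _ _
      rw [e1]
      refine Finset.sum_congr rfl fun ν _ => ?_
      rw [df_mul, hφ, hφ, hδ, hδ])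
    (by
      intro a
      ext μ
      rw [hδ, Grd.c_base]
      split_ifs with h
      · rw [df_base]
        rfl
      · rw [df_zero]
        rfl)
    (by
      intro s t
      ext μ
      rw [AddMonoidAlgebra.coeff_add, Finsupp.add_apply, gra_mul, gra_mul,
        gra_refl μ (fun a b => (δ t).coeff a * (δ s).coeff b), ← Finset.sum_add_distrib]
      refine Finset.sum_eq_zero fun ν _ => ?_
      rw [hδ, hδ, df_swap, neg_add_cancel])
    (by
      intro s
      ext μ
      rw [gra_mul]
      refine Finset.sum_involution (fun ν _ => μ - ν) ?_ ?_ ?_ ?_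
      · intro ν _
        rw [sub_sub_cancel, hδ, hδ, df_swap, neg_add_cancel]
      · intro ν _ hne he
        apply hne
        have h3 : μ - ν = ν := he
        rw [h3, hδ, df_sq]
      · intro ν _
        exact Finset.mem_univ _
      · intro ν _
        exact sub_sub_cancel μ ν)
  exact ⟨F, fun r μ => by rw [h1, hφ], fun t μ => by rw [h2, hδ]⟩

/-- The coaction on the forms. -/
noncomputable def gf : Fm A R →+* AddMonoidAlgebra (Fm A R) M := (gf_exists G).choose

/-- The projector on the forms of weight `μ`. -/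
noncomputable def wp (μ : M) (e : Fm A R) : Fm A R := (gf G e).coeff μ

theorem wp_fz (μ : M) (r : R) : wp G μ (fz A r) = fz A (G.c μ r) := (gf_exists G).choose_spec.1 r μ

theorem wp_df (μ : M) (t : R) : wp G μ (df A t) = df A (G.c μ t) := (gf_exists G).choose_spec.2 t μ

theorem wp_add (μ : M) (a b : Fm A R) : wp G μ (a + b) = wp G μ a + wp G μ b := by
  unfold wp
  rw [map_add, AddMonoidAlgebra.coeff_add, Finsupp.add_apply]

theorem wp_zero (μ : M) : wp G μ (0 : Fm A R) = 0 := by
  unfold wp
  rw [map_zero]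
  rfl

theorem wp_mul (μ : M) (a b : Fm A R) : wp G μ (a * b) = ∑ ν, wp G ν a * wp G (μ - ν) b := by
  unfold wp
  rw [map_mul, gra_mul]

/-- The projector as an additive map. -/
noncomputable def wpa (μ : M) : Fm A R →+ Fm A R where
  toFun := wp G μ
  map_zero' := wp_zero G μ
  map_add' := wp_add G μ

theorem wpa_apply (μ : M) (e : Fm A R) : wpa G μ e = wp G μ e := rfl

theorem wp_sum {ι : Type*} (s : Finset ι) (f : ι → Fm A R) (μ : M) :
    wp G μ (∑ i ∈ s, f i) = ∑ i ∈ s, wp G μ (f i) := map_sum (wpa G μ) f s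

theorem wp_neg (μ : M) (a : Fm A R) : wp G μ (-a) = -wp G μ a := map_neg (wpa G μ) a

theorem wp_sub (μ : M) (a b : Fm A R) : wp G μ (a - b) = wp G μ a - wp G μ b := map_sub (wpa G μ) a b

theorem wp_zsmul (k : ℤ) (μ : M) (a : Fm A R) : wp G μ (k • a) = k • wp G μ a := map_zsmul (wpa G μ) k a

theorem sum_wp (e : Fm A R) : ∑ μ, wp G μ e = e := by
  induction e using fm_ind with
  | h1 r =>
    rw [Finset.sum_congr rfl fun μ _ => wp_fz G μ r, ← map_sum, G.sum_c]
  | h2 t =>
    rw [Finset.sum_congr rfl fun μ _ => wp_df G μ t]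
    have h1 := map_sum ({ toFun := df A, map_zero' := df_zero, map_add' := df_add } : R →+ Fm A R)
      (fun μ => G.c μ t) Finset.univ
    rw [G.sum_c] at h1
    exact h1.symm
  | h3 a b ha hb =>
    rw [Finset.sum_congr rfl fun μ _ => wp_mul G μ a b,
      gra_conv (fun ν κ => wp G ν a * wp G κ b), ← Finset.sum_mul_sum, ha, hb]
  | h4 a b ha hb =>
    rw [Finset.sum_congr rfl fun μ _ => wp_add G μ a b, Finset.sum_add_distrib, ha, hb]

theorem wp_wp (ν μ : M) (e : Fm A R) : wp G ν (wp G μ e) = if ν = μ then wp G μ e else 0 := by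
  induction e using fm_ind generalizing ν μ with
  | h1 r =>
    rw [wp_fz, wp_fz, G.c_c]
    split_ifs
    · rfl
    · rw [map_zero]
  | h2 t =>
    rw [wp_df, wp_df, G.c_c]
    split_ifs
    · rfl
    · rw [df_zero]
  | h3 a b ha hb =>
    have h1 : ∀ κ, wp G ν (wp G κ a * wp G (μ - κ) b) =
        if ν = μ then wp G κ a * wp G (μ - κ) b else 0 := by
      intro κ
      rw [wp_mul, Finset.sum_eq_single κ]
      · rw [ha, hb, if_pos rfl]
        by_cases h : ν = μ
        · rw [if_pos h, if_pos (by rw [h])]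
        · rw [if_neg h, if_neg fun h' => h (sub_left_injective h'), mul_zero]
      · intro l _ hl
        rw [ha, if_neg hl, zero_mul]
      · intro h
        exact absurd (Finset.mem_univ _) h
    rw [wp_mul, wp_sum, Finset.sum_congr rfl fun κ _ => h1 κ]
    split_ifs with h
    · rfl
    · exact Finset.sum_const_zero
  | h4 a b ha hb =>
    rw [wp_add, wp_add, ha, hb]
    split_ifs
    · rfl
    · rw [add_zero]

theorem wp_self (μ : M) (e : Fm A R) : wp G μ (wp G μ e) = wp G μ e := by
  rw [wp_wp, if_pos rfl]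

theorem wp_fz_base_mul (μ : M) (a : A) (e : Fm A R) :
    wp G μ (fz A (algebraMap A R a) * e) = fz A (algebraMap A R a) * wp G μ e := by
  rw [wp_mul, Finset.sum_eq_single 0]
  · rw [wp_fz, G.c_base, if_pos rfl, sub_zero]
  · intro ν _ hν
    rw [wp_fz, G.c_base, if_neg hν, map_zero, zero_mul]
  · intro h
    exact absurd (Finset.mem_univ _) h

theorem wp_inv (μ : M) (e : Fm A R) : wp G μ (inv A e) = inv A (wp G μ e) := by
  induction e using fm_ind generalizing μ with
  | h1 r => rw [inv_fz, wp_fz, inv_fz]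
  | h2 t => rw [inv_df, wp_neg, wp_df, inv_df]
  | h3 a b ha hb =>
    rw [map_mul, wp_mul, wp_mul, map_sum]
    exact Finset.sum_congr rfl fun ν _ => by rw [ha, hb, map_mul]
  | h4 a b ha hb => rw [map_add, wp_add, ha, hb, wp_add, map_add]

theorem wp_dd (μ : M) (e : Fm A R) : wp G μ (dd A e) = dd A (wp G μ e) := by
  induction e using fm_ind generalizing μ with
  | h1 r => rw [dd_fz, wp_df, wp_fz, dd_fz]
  | h2 t => rw [dd_df, wp_zero, wp_df, dd_df]
  | h3 a b ha hb =>
    rw [dd_mul, wp_add, wp_mul, wp_mul, wp_mul, map_sum, ← Finset.sum_add_distrib]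
    exact Finset.sum_congr rfl fun ν _ => by rw [ha, hb, dd_mul, wp_inv]
  | h4 a b ha hb => rw [map_add, wp_add, ha, hb, wp_add, map_add]

theorem wp_mem {q : ℕ} {e : Fm A R} (he : e ∈ Fd A R q) (μ : M) : wp G μ e ∈ Fd A R q := by
  have hwd : ∀ (q : ℕ) (t : Fin q → R) (μ : M), wp G μ (wd A t) ∈ Fd A R q := by
    intro q
    induction q with
    | zero =>
      intro t μ
      rw [wd_zero, ← map_one (fz A), wp_fz]
      exact fz_mem _
    | succ q ih =>
      intro t μ
      rw [wd_succ, wp_mul]
      refine Submodule.sum_mem _ fun ν _ => ?_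
      have h3 : wp G ν (df A (t 0)) * wp G (μ - ν) (wd A (Fin.tail t)) ∈ Fd A R (1 + q) := by
        rw [wp_df]
        exact fd_mul (df_mem _) (ih _ _)
      have h4 : 1 + q = q + 1 := add_comm 1 q
      rw [h4] at h3
      exact h3
  refine fd_ind (P := fun x => wp G μ x ∈ Fd A R q) ?_ ?_ ?_ he
  · rw [wp_zero]
    exact Submodule.zero_mem _
  · intro r t
    rw [wp_mul]
    refine Submodule.sum_mem _ fun ν _ => ?_
    rw [wp_fz]
    exact fz_mul_mem _ (hwd q t _)
  · intro a b ha hb
    rw [wp_add]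
    exact Submodule.add_mem _ ha hb

/-- Functoriality. -/
theorem wp_mp {B : Type w} {S : Type x} [CommRing B] [CommRing S] [Algebra B S] (H : Grd B S M)
    {φ : R →+* S} (hc : CC A B φ) (hφ : ∀ μ r, H.c μ (φ r) = φ (G.c μ r)) (μ : M) (e : Fm A R) :
    wp H μ (mp φ hc e) = mp φ hc (wp G μ e) := by
  induction e using fm_ind generalizing μ with
  | h1 r => rw [mp_fz, wp_fz, wp_fz, mp_fz, hφ]
  | h2 t => rw [mp_df, wp_df, wp_df, mp_df, hφ]
  | h3 a b ha hb =>
    rw [map_mul, wp_mul, wp_mul, map_sum]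
    exact Finset.sum_congr rfl fun ν _ => by rw [ha, hb, map_mul]
  | h4 a b ha hb => rw [map_add, wp_add, ha, hb, wp_add, map_add]

/-- The Lie derivative along a derivation of weight 0. -/
theorem wp_LL {D : Derivation ℤ R R} (hD : PC A D) (hc : ∀ μ r, G.c μ (D r) = D (G.c μ r)) (μ : M)
    (e : Fm A R) : wp G μ (LL A D e) = LL A D (wp G μ e) := by
  induction e using fm_ind generalizing μ with
  | h1 r => rw [LL_fz A hD, wp_fz, wp_fz, LL_fz A hD, hc]
  | h2 t => rw [LL_df A hD, wp_df, wp_df, LL_df A hD, hc]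
  | h3 a b ha hb =>
    rw [LL_mul A hD, wp_add, wp_mul, wp_mul, wp_mul, map_sum, ← Finset.sum_add_distrib]
    exact Finset.sum_congr rfl fun ν _ => by rw [ha, hb, LL_mul A hD]
  | h4 a b ha hb => rw [map_add, wp_add, ha, hb, wp_add, map_add]

/-- The contraction with a derivation of weight 0. -/
theorem wp_ct (θ : Derivation A R R) (hc : ∀ μ r, G.c μ (θ r) = θ (G.c μ r)) (μ : M)
    (e : Fm A R) : wp G μ (ct A θ e) = ct A θ (wp G μ e) := by
  induction e using fm_ind generalizing μ with
  | h1 r => rw [ct_fz, wp_zero, wp_fz, ct_fz]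
  | h2 t => rw [ct_df, wp_fz, wp_df, ct_df, hc]
  | h3 a b ha hb =>
    rw [ct_mul, wp_add, wp_mul, wp_mul, wp_mul, map_sum, ← Finset.sum_add_distrib]
    exact Finset.sum_congr rfl fun ν _ => by rw [ha, hb, ct_mul, wp_inv]
  | h4 a b ha hb => rw [map_add, wp_add, ha, hb, wp_add, map_add]

end grd

end MPadcGP
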