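import Pool.Agent.Lib.MP_adc574_ag_GP.DRm

/-!
# Cover data and the Čech–de Rham complex (helper90)

`CovD A n`: commutative `A`-algebras `R J`, `J : Finset (Fin n)`, with transition maps `ρ`.
`Ch`: the cochains, families of forms `c J` on `R J`. `Dt`: the total differential `d + δ ∘ inv`.
`Tt m`: the cochains of total degree `m`. `Fi i m`: the Hodge filtration. `Ni i m`: the conjugate
filtration (form degrees `≤ i`, closed in degree `i`).
-/

set_option autoImplicit false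

namespace MPadcGP

universe u v w x

/-- Cover data. -/
structure CovD (A : Type u) [CommRing A] (n : ℕ) where
  /-- The ring of functions on the intersection. -/
  R : Finset (Fin n) → Type v
  [cr : ∀ J, CommRing (R J)]
  [al : ∀ J, Algebra A (R J)]
  /-- The restriction. -/
  ρ : ∀ {J K : Finset (Fin n)}, J ⊆ K → (R J →ₐ[A] R K)
  ρ_id : ∀ (J : Finset (Fin n)) (x : R J), ρ (Finset.Subset.refl J) x = x
  ρ_comp : ∀ {J K L : Finset (Fin n)} (h : J ⊆ K) (h' : K ⊆ L) (x : R J),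
    ρ h' (ρ h x) = ρ (h.trans h') x

attribute [instance] CovD.cr CovD.al

section linear

variable (A : Type u) (R : Type v) [CommRing A] [CommRing R] [Algebra A R]

theorem smul_fm (a : A) (x : Fm A R) : a • x = fz A (algebraMap A R a) * x := by
  rw [← fz_smul, algebraMap_smul]

/-- The exterior derivative as a linear map. -/
noncomputable def ddl : Fm A R →ₗ[A] Fm A R :=
  { dd A with map_smul' := fun a e => dd_smul A a e }

/-- The grade involution as a linear map. -/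
noncomputable def invl : Fm A R →ₗ[A] Fm A R where
  toFun e := inv A e
  map_add' := map_add _
  map_smul' a e := by
    rw [smul_fm, map_mul, inv_fz, RingHom.id_apply, smul_fm]

variable {A R}

theorem ddl_apply (e : Fm A R) : ddl A R e = dd A e := rfl

theorem invl_apply (e : Fm A R) : invl A R e = inv A e := rfl

end linear

namespace CovD

variable {A : Type u} [CommRing A] {n : ℕ} (X : CovD.{u, v} A n)

/-- The forms on the intersection. -/
abbrev E (J : Finset (Fin n)) := Fm A (X.R J)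

/-- The restriction of forms. -/
noncomputable def rs {J K : Finset (Fin n)} (h : J ⊆ K) : X.E J →+* X.E K :=
  mp (X.ρ h : X.R J →+* X.R K) (CC.of_algHom _)

variable {X}

theorem rs_fz {J K : Finset (Fin n)} (h : J ⊆ K) (r : X.R J) :
    X.rs h (fz A r) = fz A (X.ρ h r) := mp_fz _ _

theorem rs_df {J K : Finset (Fin n)} (h : J ⊆ K) (r : X.R J) :
    X.rs h (df A r) = df A (X.ρ h r) := mp_df _ _

theorem rs_id (J : Finset (Fin n)) (h : J ⊆ J) (e : X.E J) : X.rs h e = e := by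
  have h1 : X.rs h = RingHom.id (X.E J) := hom_ext' (fun r => by
    rw [rs_fz]
    exact congrArg _ (X.ρ_id J r)) (fun t => by
    rw [rs_df]
    exact congrArg _ (X.ρ_id J t))
  rw [h1, RingHom.id_apply]

theorem rs_rs {J K L : Finset (Fin n)} (h : J ⊆ K) (h' : K ⊆ L) (e : X.E J) :
    X.rs h' (X.rs h e) = X.rs (h.trans h') e := by
  have h1 : (X.rs h').comp (X.rs h) = X.rs (h.trans h') := hom_ext' (fun r => by
    rw [RingHom.comp_apply (X.rs h') (X.rs h), rs_fz, rs_fz, rs_fz, X.ρ_comp]) (fun t => by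
    rw [RingHom.comp_apply (X.rs h') (X.rs h), rs_df, rs_df, rs_df, X.ρ_comp])
  rw [← h1, RingHom.comp_apply]

theorem rs_inv {J K : Finset (Fin n)} (h : J ⊆ K) (e : X.E J) :
    X.rs h (inv A e) = inv A (X.rs h e) := mp_inv _ _

theorem rs_dd {J K : Finset (Fin n)} (h : J ⊆ K) (e : X.E J) :
    X.rs h (dd A e) = dd A (X.rs h e) := mp_dd _ _

theorem rs_mem {J K : Finset (Fin n)} (h : J ⊆ K) {q : ℕ} {e : X.E J} (he : e ∈ Fd A (X.R J) q) :
    X.rs h e ∈ Fd A (X.R K) q := mp_mem _ he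

theorem rs_smul {J K : Finset (Fin n)} (h : J ⊆ K) (a : A) (e : X.E J) :
    X.rs h (a • e) = a • X.rs h e := by
  rw [smul_fm, map_mul, rs_fz, smul_fm, AlgHom.commutes]

variable (X)

/-- Cochains. -/
abbrev Ch := ∀ J : Finset (Fin n), X.E J

/-- The restriction of the component `c K` to `J`. -/
noncomputable def ev (c : X.Ch) (K J : Finset (Fin n)) : X.E J :=
  if h : K ⊆ J then X.rs h (c K) else 0

variable {X}

theorem ev_of {c : X.Ch} {K J : Finset (Fin n)} (h : K ⊆ J) : X.ev c K J = X.rs h (c K) := dif_pos h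

theorem ev_self (c : X.Ch) (J : Finset (Fin n)) : X.ev c J J = c J := by
  rw [ev_of (Finset.Subset.refl J), rs_id]

theorem rs_ev {c : X.Ch} {K J L : Finset (Fin n)} (h : K ⊆ J) (h' : J ⊆ L) :
    X.rs h' (X.ev c K J) = X.ev c K L := by
  rw [ev_of h, rs_rs, ev_of]

theorem ev_add (b c : X.Ch) (K J : Finset (Fin n)) : X.ev (b + c) K J = X.ev b K J + X.ev c K J := by
  unfold ev
  split_ifs with h
  · rw [Pi.add_apply, map_add]
  · rw [add_zero]

theorem ev_smul (a : A) (c : X.Ch) (K J : Finset (Fin n)) : X.ev (a • c) K J = a • X.ev c K J := by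
  unfold ev
  split_ifs with h
  · rw [Pi.smul_apply, rs_smul]
  · rw [smul_zero]

theorem ev_zero_left (K J : Finset (Fin n)) : X.ev (0 : X.Ch) K J = 0 := by
  unfold ev
  split_ifs with h
  · rw [Pi.zero_apply, map_zero]
  · rfl

theorem ev_eq_zero {c : X.Ch} {K : Finset (Fin n)} (h : c K = 0) (J : Finset (Fin n)) :
    X.ev c K J = 0 := by
  unfold ev
  split_ifs with h1
  · rw [h, map_zero]
  · rfl

theorem ev_mem {c : X.Ch} {K : Finset (Fin n)} {q : ℕ} (h : c K ∈ Fd A (X.R K) q)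
    (J : Finset (Fin n)) : X.ev c K J ∈ Fd A (X.R J) q := by
  unfold ev
  split_ifs with h1
  · exact rs_mem h1 h
  · exact Submodule.zero_mem _

end CovD

/-- The sign of `j` in `J`. -/
def sg {n : ℕ} (j : Fin n) (J : Finset (Fin n)) : ℤ := (-1) ^ (J.filter (· < j)).card

theorem sg_sq {n : ℕ} (j : Fin n) (J : Finset (Fin n)) : sg j J * sg j J = 1 := by
  unfold sg
  rw [← pow_add, ← two_mul, pow_mul]
  norm_num

/-- Removing a smaller element changes the sign. -/
theorem sg_erase_lt {n : ℕ} {i j : Fin n} {J : Finset (Fin n)} (hi : i ∈ J) (h : i < j) :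
    sg j (J.erase i) = -sg j J := by
  unfold sg
  have h1 : J.filter (· < j) = insert i ((J.erase i).filter (· < j)) := by
    ext k
    simp only [Finset.mem_filter, Finset.mem_insert, Finset.mem_erase]
    constructor
    · rintro ⟨h2, h3⟩
      by_cases hk : k = i
      · exact Or.inl hk
      · exact Or.inr ⟨⟨hk, h2⟩, h3⟩
    · rintro (rfl | ⟨⟨_, h2⟩, h3⟩)
      · exact ⟨hi, h⟩
      · exact ⟨h2, h3⟩
  have h2 : i ∉ (J.erase i).filter (· < j) := by
    simp
  rw [h1, Finset.card_insert_of_notMem h2, pow_succ]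
  ring

theorem sg_erase_gt {n : ℕ} {i j : Fin n} {J : Finset (Fin n)} (h : j ≤ i) :
    sg j (J.erase i) = sg j J := by
  unfold sg
  congr 2
  ext k
  simp only [Finset.mem_filter, Finset.mem_erase]
  constructor
  · rintro ⟨⟨_, h2⟩, h3⟩
    exact ⟨h2, h3⟩
  · rintro ⟨h2, h3⟩
    exact ⟨⟨ne_of_lt (lt_of_lt_of_le h3 h), h2⟩, h3⟩

/-- The sign identity behind `δ ∘ δ = 0`. -/
theorem sg_sg {n : ℕ} {i j : Fin n} {J : Finset (Fin n)} (hi : i ∈ J) (hj : j ∈ J) (h : i ≠ j) :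
    sg i J * sg j (J.erase i) + sg j J * sg i (J.erase j) = 0 := by
  rcases lt_or_gt_of_ne h with h1 | h1
  · rw [sg_erase_lt hi h1, sg_erase_gt h1.le]
    ring
  · rw [sg_erase_lt hj h1, sg_erase_gt h1.le]
    ring

namespace CovD

variable {A : Type u} [CommRing A] {n : ℕ} (X : CovD.{u, v} A n)

/-- The Čech differential. -/
noncomputable def del : X.Ch →ₗ[A] X.Ch where
  toFun c J := ∑ j ∈ J, sg j J • X.ev c (J.erase j) J
  map_add' b c := by
    funext J
    rw [Pi.add_apply, ← Finset.sum_add_distrib]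
    refine Finset.sum_congr rfl fun j _ => ?_
    rw [ev_add, smul_add]
  map_smul' a c := by
    funext J
    rw [RingHom.id_apply, Pi.smul_apply, Finset.smul_sum]
    refine Finset.sum_congr rfl fun j _ => ?_
    rw [ev_smul, smul_comm]

/-- The exterior derivative of cochains. -/
noncomputable def dc : X.Ch →ₗ[A] X.Ch :=
  LinearMap.pi fun J => (ddl A (X.R J)).comp (LinearMap.proj J)

/-- The grade involution of cochains. -/
noncomputable def ic : X.Ch →ₗ[A] X.Ch :=
  LinearMap.pi fun J => (invl A (X.R J)).comp (LinearMap.proj J)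

/-- The total differential. -/
noncomputable def Dt : X.Ch →ₗ[A] X.Ch := X.dc + X.del ∘ₗ X.ic

variable {X}

theorem del_apply (c : X.Ch) (J : Finset (Fin n)) :
    X.del c J = ∑ j ∈ J, sg j J • X.ev c (J.erase j) J := rfl

theorem dc_apply (c : X.Ch) (J : Finset (Fin n)) : X.dc c J = dd A (c J) := rfl

theorem ic_apply (c : X.Ch) (J : Finset (Fin n)) : X.ic c J = inv A (c J) := rfl

theorem Dt_apply (c : X.Ch) : X.Dt c = X.dc c + X.del (X.ic c) := rfl

theorem ev_del {K J : Finset (Fin n)} (h : K ⊆ J) (c : X.Ch) :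
    X.ev (X.del c) K J = ∑ j ∈ K, sg j K • X.ev c (K.erase j) J := by
  rw [ev_of h, del_apply, map_sum]
  refine Finset.sum_congr rfl fun j _ => ?_
  rw [map_zsmul, rs_ev (Finset.erase_subset _ _) h]

theorem del_del (c : X.Ch) : X.del (X.del c) = 0 := by
  funext J
  rw [del_apply, Pi.zero_apply]
  have h1 : ∀ i ∈ J, sg i J • X.ev (X.del c) (J.erase i) J =
      ∑ j ∈ J.erase i, (sg i J * sg j (J.erase i)) • X.ev c ((J.erase i).erase j) J := by
    intro i _
    rw [ev_del (Finset.erase_subset _ _), Finset.smul_sum]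
    refine Finset.sum_congr rfl fun j _ => ?_
    rw [smul_smul]
  rw [Finset.sum_congr rfl h1, Finset.sum_sigma']
  refine Finset.sum_involution (fun p _ => (⟨p.2, p.1⟩ : Σ _ : Fin n, Fin n)) ?_ ?_ ?_ ?_
  · rintro ⟨i, j⟩ h
    rw [Finset.mem_sigma, Finset.mem_erase] at h
    obtain ⟨hi, hij, hj⟩ := h
    change (sg i J * sg j (J.erase i)) • X.ev c ((J.erase i).erase j) J +
      (sg j J * sg i (J.erase j)) • X.ev c ((J.erase j).erase i) J = 0
    rw [Finset.erase_right_comm (a := j) (b := i), ← add_smul, sg_sg hi hj (Ne.symm hij), zero_smul]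
  · rintro ⟨i, j⟩ h _ he
    rw [Finset.mem_sigma, Finset.mem_erase] at h
    have h1 : (⟨j, i⟩ : Σ _ : Fin n, Fin n) = ⟨i, j⟩ := he
    have h2 : j = i := congrArg (fun p : (Σ _ : Fin n, Fin n) => p.1) h1
    exact h.2.1 h2
  · rintro ⟨i, j⟩ h
    rw [Finset.mem_sigma, Finset.mem_erase] at h ⊢
    exact ⟨h.2.2, Ne.symm h.2.1, h.1⟩
  · rintro ⟨i, j⟩ _
    rfl

theorem ev_dc (c : X.Ch) (K J : Finset (Fin n)) : X.ev (X.dc c) K J = dd A (X.ev c K J) := by
  unfold ev
  split_ifs with h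
  · rw [dc_apply, rs_dd]
  · rw [map_zero]

theorem ev_ic (c : X.Ch) (K J : Finset (Fin n)) : X.ev (X.ic c) K J = inv A (X.ev c K J) := by
  unfold ev
  split_ifs with h
  · rw [ic_apply, rs_inv]
  · rw [map_zero]

theorem del_dc (c : X.Ch) : X.del (X.dc c) = X.dc (X.del c) := by
  funext J
  rw [del_apply, dc_apply, del_apply, map_sum]
  refine Finset.sum_congr rfl fun j _ => ?_
  rw [ev_dc, map_zsmul]

theorem del_ic (c : X.Ch) : X.del (X.ic c) = X.ic (X.del c) := by
  funext J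
  rw [del_apply, ic_apply, del_apply, map_sum]
  refine Finset.sum_congr rfl fun j _ => ?_
  rw [ev_ic, map_zsmul]

theorem ic_dc (c : X.Ch) : X.ic (X.dc c) = -X.dc (X.ic c) := by
  funext J
  rw [ic_apply, dc_apply, inv_dd]
  rfl

theorem ic_ic (c : X.Ch) : X.ic (X.ic c) = c := by
  funext J
  rw [ic_apply, ic_apply, inv_inv]

theorem dc_dc (c : X.Ch) : X.dc (X.dc c) = 0 := by
  funext J
  rw [dc_apply, dc_apply, dd_dd]
  rfl

theorem Dt_Dt (c : X.Ch) : X.Dt (X.Dt c) = 0 := by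
  rw [Dt_apply, Dt_apply, map_add, map_add, map_add, dc_dc, ic_dc, map_neg, ← del_dc,
    ← del_ic, del_del, zero_add, add_zero, add_neg_cancel]

theorem Dt_comp : X.Dt ∘ₗ X.Dt = 0 := LinearMap.ext fun c => Dt_Dt c

variable (X)

/-- The cochains of total degree `m`. -/
noncomputable def Tt (m : ℕ) : Submodule A X.Ch where
  carrier := {c | c ∅ = 0 ∧ ∀ J : Finset (Fin n), (∀ q, q + J.card = m + 1 →
    c J ∈ Fd A (X.R J) q) ∧ (m + 1 < J.card → c J = 0)}
  add_mem' := by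
    rintro b c ⟨hb0, hb⟩ ⟨hc0, hc⟩
    refine ⟨by rw [Pi.add_apply, hb0, hc0, add_zero], fun J => ⟨fun q hq => ?_, fun h => ?_⟩⟩
    · exact Submodule.add_mem _ ((hb J).1 q hq) ((hc J).1 q hq)
    · rw [Pi.add_apply, (hb J).2 h, (hc J).2 h, add_zero]
  zero_mem' := ⟨rfl, fun J => ⟨fun q _ => Submodule.zero_mem _, fun _ => rfl⟩⟩
  smul_mem' := by
    rintro a c ⟨hc0, hc⟩
    refine ⟨by rw [Pi.smul_apply, hc0, smul_zero], fun J => ⟨fun q hq => ?_, fun h => ?_⟩⟩
    · rw [Pi.smul_apply, ← algebraMap_smul (X.R J)]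
      exact Submodule.smul_mem _ _ ((hc J).1 q hq)
    · rw [Pi.smul_apply, (hc J).2 h, smul_zero]

/-- The Hodge filtration on the cochains of total degree `m`: form degrees `≥ i`. -/
noncomputable def Fi (i m : ℕ) : Submodule A X.Ch where
  carrier := {c | c ∈ X.Tt m ∧ ∀ J : Finset (Fin n), m + 1 < J.card + i → c J = 0}
  add_mem' := by
    rintro b c ⟨hb0, hb⟩ ⟨hc0, hc⟩
    exact ⟨Submodule.add_mem _ hb0 hc0, fun J hJ => by
      rw [Pi.add_apply, hb J hJ, hc J hJ, add_zero]⟩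
  zero_mem' := ⟨Submodule.zero_mem _, fun J _ => rfl⟩
  smul_mem' := by
    rintro a c ⟨hc0, hc⟩
    exact ⟨Submodule.smul_mem _ _ hc0, fun J hJ => by rw [Pi.smul_apply, hc J hJ, smul_zero]⟩

/-- The conjugate filtration on the cochains of total degree `m`: form degrees `≤ i`, closed in
degree `i`. -/
noncomputable def Ni (i m : ℕ) : Submodule A X.Ch where
  carrier := {c | c ∈ X.Tt m ∧ ∀ J : Finset (Fin n), (J.card + i < m + 1 → c J = 0) ∧
    (J.card + i = m + 1 → dd A (c J) = 0)}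
  add_mem' := by
    rintro b c ⟨hb0, hb⟩ ⟨hc0, hc⟩
    exact ⟨Submodule.add_mem _ hb0 hc0, fun J => ⟨fun h => by
      rw [Pi.add_apply, (hb J).1 h, (hc J).1 h, add_zero], fun h => by
      rw [Pi.add_apply, map_add, (hb J).2 h, (hc J).2 h, add_zero]⟩⟩
  zero_mem' := ⟨Submodule.zero_mem _, fun J => ⟨fun _ => rfl, fun _ => map_zero _⟩⟩
  smul_mem' := by
    rintro a c ⟨hc0, hc⟩
    exact ⟨Submodule.smul_mem _ _ hc0, fun J => ⟨fun h => by
      rw [Pi.smul_apply, (hc J).1 h, smul_zero], fun h => by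
      rw [Pi.smul_apply, dd_smul, (hc J).2 h, smul_zero]⟩⟩

variable {X}

theorem mem_Tt {m : ℕ} {c : X.Ch} : c ∈ X.Tt m ↔ c ∅ = 0 ∧ ∀ J : Finset (Fin n),
    (∀ q, q + J.card = m + 1 → c J ∈ Fd A (X.R J) q) ∧ (m + 1 < J.card → c J = 0) := Iff.rfl

theorem mem_Fi {i m : ℕ} {c : X.Ch} : c ∈ X.Fi i m ↔ c ∈ X.Tt m ∧ ∀ J : Finset (Fin n),
    m + 1 < J.card + i → c J = 0 := Iff.rfl

theorem mem_Ni {i m : ℕ} {c : X.Ch} : c ∈ X.Ni i m ↔ c ∈ X.Tt m ∧ ∀ J : Finset (Fin n),
    (J.card + i < m + 1 → c J = 0) ∧ (J.card + i = m + 1 → dd A (c J) = 0) := Iff.rfl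

theorem dc_mem {m : ℕ} {c : X.Ch} (hc : c ∈ X.Tt m) : X.dc c ∈ X.Tt (m + 1) := by
  refine ⟨by rw [dc_apply, hc.1, map_zero], fun J => ⟨fun q hq => ?_, fun h => ?_⟩⟩
  · rw [dc_apply]
    cases q with
    | zero => rw [(hc.2 J).2 (by omega), map_zero]; exact Submodule.zero_mem _
    | succ q => exact dd_mem ((hc.2 J).1 q (by omega))
  · rw [dc_apply, (hc.2 J).2 (by omega), map_zero]

theorem ic_mem {m : ℕ} {c : X.Ch} (hc : c ∈ X.Tt m) : X.ic c ∈ X.Tt m := by
  refine ⟨by rw [ic_apply, hc.1, map_zero], fun J => ⟨fun q hq => ?_, fun h => ?_⟩⟩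
  · exact inv_mem' ((hc.2 J).1 q hq)
  · rw [ic_apply, (hc.2 J).2 h, map_zero]

theorem del_mem {m : ℕ} {c : X.Ch} (hc : c ∈ X.Tt m) : X.del c ∈ X.Tt (m + 1) := by
  refine ⟨by rw [del_apply, Finset.sum_empty], fun J => ⟨fun q hq => ?_, fun h => ?_⟩⟩
  · rw [del_apply]
    refine Submodule.sum_mem _ fun j hj => ?_
    refine zsmul_mem ?_ _
    have h1 := Finset.card_erase_add_one hj
    exact ev_mem ((hc.2 _).1 q (by omega)) _
  · rw [del_apply]
    refine Finset.sum_eq_zero fun j hj => ?_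
    have h1 := Finset.card_erase_add_one hj
    rw [ev_eq_zero ((hc.2 _).2 (by omega)), smul_zero]

theorem Dt_mem {m : ℕ} {c : X.Ch} (hc : c ∈ X.Tt m) : X.Dt c ∈ X.Tt (m + 1) := by
  rw [Dt_apply]
  exact Submodule.add_mem _ (dc_mem hc) (del_mem (ic_mem hc))

theorem Dt_mem_Fi {i m : ℕ} {c : X.Ch} (hc : c ∈ X.Fi i m) : X.Dt c ∈ X.Fi i (m + 1) := by
  refine ⟨Dt_mem hc.1, fun J hJ => ?_⟩
  rw [Dt_apply, Pi.add_apply, dc_apply, hc.2 J (by omega), map_zero, zero_add, del_apply]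
  refine Finset.sum_eq_zero fun j hj => ?_
  have h1 := Finset.card_erase_add_one hj
  rw [ev_ic, ev_eq_zero (hc.2 _ (by omega)), map_zero, smul_zero]

theorem Dt_mem_Ni {i m : ℕ} {c : X.Ch} (hc : c ∈ X.Ni i m) : X.Dt c ∈ X.Ni i (m + 1) := by
  refine ⟨Dt_mem hc.1, fun J => ⟨fun h => ?_, fun h => ?_⟩⟩
  · rw [Dt_apply, Pi.add_apply, dc_apply, del_apply]
    have h1 : dd A (c J) = 0 := by
      rcases Nat.lt_or_ge (J.card + i) (m + 1) with h2 | h2
      · rw [(hc.2 J).1 h2, map_zero]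
      · exact (hc.2 J).2 (by omega)
    rw [h1, zero_add]
    refine Finset.sum_eq_zero fun j hj => ?_
    have h2 := Finset.card_erase_add_one hj
    rw [ev_ic, ev_eq_zero ((hc.2 _).1 (by omega)), map_zero, smul_zero]
  · rw [Dt_apply, Pi.add_apply, map_add, dc_apply, dd_dd, zero_add, del_apply, map_sum]
    refine Finset.sum_eq_zero fun j hj => ?_
    have h2 := Finset.card_erase_add_one hj
    have h3 : dd A (X.ev c (J.erase j) J) = 0 := by
      rw [← ev_dc]
      refine ev_eq_zero ?_ _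
      rw [dc_apply]
      exact (hc.2 _).2 (by omega)
    rw [map_zsmul, ev_ic, ← neg_neg (dd A (inv A _)), ← inv_dd, h3, map_zero, neg_zero, smul_zero]

theorem Fi_zero (m : ℕ) : X.Fi 0 m = X.Tt m := by
  ext c
  exact ⟨fun h => h.1, fun h => ⟨h, fun J hJ => (h.2 J).2 (by omega)⟩⟩

theorem Fi_anti {i j : ℕ} (h : i ≤ j) (m : ℕ) : X.Fi j m ≤ X.Fi i m :=
  fun _ hc => ⟨hc.1, fun J hJ => hc.2 J (by omega)⟩

theorem Ni_mono {i j : ℕ} (h : i ≤ j) (m : ℕ) : X.Ni i m ≤ X.Ni j m := by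
  intro c hc
  refine ⟨hc.1, fun J => ⟨fun h1 => (hc.2 J).1 (by omega), fun h1 => ?_⟩⟩
  rcases Nat.lt_or_ge (J.card + i) (m + 1) with h2 | h2
  · rw [(hc.2 J).1 h2, map_zero]
  · exact (hc.2 J).2 (by omega)

theorem Ni_top {i m : ℕ} (h : m < i) : X.Ni i m = X.Tt m := by
  ext c
  refine ⟨fun hc => hc.1, fun hc => ⟨hc, fun J => ⟨fun h1 => by omega, fun h1 => ?_⟩⟩⟩
  have h2 : J = ∅ := Finset.card_eq_zero.1 (by omega)
  subst h2
  rw [hc.1, map_zero]

end CovD

end MPadcGP
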