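import Pool.Agent.Lib.MP_adc574_ag_GP.Mod2a
import Pool.Agent.Lib.MP_adc574_ag_GP.Mod3a
import Pool.Agent.Lib.MP_adc574_ag_GP.Cov

/-!
# The cover data of a projective scheme
-/

set_option autoImplicit false

namespace MPadcGP

open MvPolynomial TensorProduct

universe u v w

/-- The cover data of the closed subscheme `I = 0` of the projective space over `A`, for the covering by the open sets
`x_i ≠ 0`. -/
noncomputable def prC {A : Type u} [CommRing A] {n : ℕ} (I : Ideal (MvPolynomial (Fin n) A)) :
    CovD.{u, u} A n where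
  R J := chart I J
  ρ h := tr I h
  ρ_id J x := by rw [tr_id]; rfl
  ρ_comp h h' x := tr_tr I h h' x

section CB

variable {A : Type u} [CommRing A] {B : Type v} [CommRing B] {n : ℕ} (φ : A →+* B)
  (I : Ideal (MvPolynomial (Fin n) A))

/-- The specialization map on the charts, along `φ : A → B`. -/
noncomputable def cb (J : Finset (Fin n)) : chart I J →+* chart (bI φ I) J :=
  cmap φ (bI_mem φ I) (Finset.Subset.refl J)

theorem cb_base (J : Finset (Fin n)) (a : A) : cb φ I J (algebraMap A _ a) = algebraMap B _ (φ a) :=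
  cmap_base φ (bI_mem φ I) (Finset.Subset.refl J) a

theorem cb_cq (J : Finset (Fin n)) (l : Fin n) {j : Fin n} (hj : j ∈ J) :
    cb φ I J (cq I J l hj) = cq (bI φ I) J l hj := cmap_cq φ (bI_mem φ I) (Finset.Subset.refl J) l hj

/-- the specialization commutes with the restrictions -/
theorem cb_tr {J K : Finset (Fin n)} (h : J ⊆ K) (x : chart I J) :
    cb φ I K (tr I h x) = tr (bI φ I) h (cb φ I J x) := by
  induction x using chart_ind with
  | h1 a => rw [AlgHom.commutes, cb_base, cb_base, AlgHom.commutes]
  | h2 l m hm => rw [tr_cq, cb_cq, cb_cq, tr_cq]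
  | h3 x y hx hy => rw [map_add, map_add, hx, hy, map_add, map_add]
  | h4 x y hx hy => rw [map_mul, map_mul, hx, hy, map_mul, map_mul]

end CB

section BIcomp

variable {A : Type u} [CommRing A] {B : Type v} [CommRing B] {C : Type w} [CommRing C] {n : ℕ}
  (φ : A →+* B) (ψ : B →+* C) (I : Ideal (MvPolynomial (Fin n) A))

theorem bI_bI : bI ψ (bI φ I) = bI (ψ.comp φ) I := by
  rw [bI, bI, bI, Ideal.map_map]
  congr 1
  refine MvPolynomial.ringHom_ext (fun a => ?_) fun l => ?_
  · rw [RingHom.comp_apply, map_C, map_C, map_C, RingHom.comp_apply]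
  · rw [RingHom.comp_apply, map_X, map_X, map_X]

end BIcomp

end MPadcGP
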