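import Pool.Agent.Lib.MP_adc574_ag_GP.Cf

/-!
# Localization of differential forms: surjectivity
-/

/-
JOB Cfs: prove cfs_mp_surj. PROOF. Call e' good (degree q) if the conclusion holds for some k; then it holds for all k' ≥ k (multiply e by fz (t^(k'-k))). Sums of good forms of the same degree are good (common k), products of good forms of degrees p, q are good (fd_mul, fz_comm: fz (φ t^k) a fz (φ t^l) b = fz (φ t^(k+l)) a b),
fz s is good of degree 0 (h.surj s; fz_mem), df s is good of degree 1: φ r = φ t^k s gives df (φ r) = fz (φ t^k) df s + fz s df (φ t^k), so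
fz (φ t^(2k)) df s = fz (φ t^k) df (φ r) - fz (φ t^k s) df (φ (t^k)) = mp (fz (t^k) * df r - fz r * df (t^k)) (mp_fz, mp_df, df_mul). wd A t (t : Fin q → S) is good of degree q by induction on q (wd_succ, wd_zero = 1 = fz 1). By fd_ind every e' in Fd A S q is good.
-/

set_option autoImplicit false

namespace MPadcGP

universe u v w

section Loc

variable {A : Type u} {R : Type v} {S : Type w} [CommRing A] [CommRing R] [CommRing S] [Algebra A R] [Algebra A S]

private def Gd (φ : R →ₐ[A] S) (t : R) (q : ℕ) (e' : Fm A S) : Prop :=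
  ∃ (k : ℕ) (e : Fm A R), e ∈ Fd A R q ∧
    mp (φ : R →+* S) (CC.of_algHom φ) e = fz A (φ t ^ k) * e'

private theorem gd_mono {φ : R →ₐ[A] S} {t : R} {q : ℕ} {e' : Fm A S} {k : ℕ} {e : Fm A R}
    (he : e ∈ Fd A R q) (h : mp (φ : R →+* S) (CC.of_algHom φ) e = fz A (φ t ^ k) * e') (l : ℕ) :
    ∃ e1 : Fm A R, e1 ∈ Fd A R q ∧
      mp (φ : R →+* S) (CC.of_algHom φ) e1 = fz A (φ t ^ (l + k)) * e' := by
  refine ⟨fz A (t ^ l) * e, fz_mul_mem _ he, ?_⟩
  have h1 : ((φ : R →+* S) (t ^ l)) = φ t ^ l := by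
    rw [RingHom.coe_coe, map_pow]
  rw [map_mul, mp_fz, h, h1, pow_add, map_mul, mul_assoc]

private theorem gd_add {φ : R →ₐ[A] S} {t : R} {q : ℕ} {a b : Fm A S} (ha : Gd φ t q a)
    (hb : Gd φ t q b) : Gd φ t q (a + b) := by
  obtain ⟨k, e, he, h⟩ := ha
  obtain ⟨l, f, hf, h'⟩ := hb
  obtain ⟨e1, he1, h1⟩ := gd_mono he h l
  obtain ⟨f1, hf1, h2⟩ := gd_mono hf h' k
  refine ⟨l + k, e1 + f1, Submodule.add_mem _ he1 hf1, ?_⟩
  rw [map_add, h1, h2, add_comm k l, mul_add]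

private theorem gd_mul {φ : R →ₐ[A] S} {t : R} {p q : ℕ} {a b : Fm A S} (ha : Gd φ t p a)
    (hb : Gd φ t q b) : Gd φ t (p + q) (a * b) := by
  obtain ⟨k, e, he, h⟩ := ha
  obtain ⟨l, f, hf, h'⟩ := hb
  refine ⟨k + l, e * f, fd_mul he hf, ?_⟩
  rw [map_mul, h, h', pow_add, map_mul, mul_assoc, ← mul_assoc a, ← fz_comm (A := A) (φ t ^ l) a,
    mul_assoc, mul_assoc]

private theorem gd_fz {φ : R →ₐ[A] S} {t : R} (h : IsLo φ t) (s : S) : Gd φ t 0 (fz A s) := by
  obtain ⟨k, r, hr⟩ := h.surj s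
  refine ⟨k, fz A r, fz_mem r, ?_⟩
  rw [mp_fz, RingHom.coe_coe, hr, map_mul]

private theorem gd_df {φ : R →ₐ[A] S} {t : R} (h : IsLo φ t) (s : S) : Gd φ t 1 (df A s) := by
  obtain ⟨k, r, hr⟩ := h.surj s
  refine ⟨k + k, fz A (t ^ k) * df A r - fz A r * df A (t ^ k),
    Submodule.sub_mem _ (fz_mul_mem _ (df_mem _)) (fz_mul_mem _ (df_mem _)), ?_⟩
  rw [map_sub, map_mul, map_mul, mp_fz, mp_fz, mp_df, mp_df, RingHom.coe_coe, map_pow, hr, df_mul,
    pow_add, map_mul, map_mul, mul_add, mul_assoc, mul_assoc, add_sub_cancel_right]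

private theorem gd_wd {φ : R →ₐ[A] S} {t : R} (h : IsLo φ t) : ∀ (q : ℕ) (s : Fin q → S),
    Gd φ t q (wd A s) := by
  intro q
  induction q with
  | zero =>
    intro s
    rw [wd_zero]
    have := gd_fz h (1 : S)
    rwa [map_one] at this
  | succ q ih =>
    intro s
    rw [wd_succ]
    have := gd_mul (gd_df h (s 0)) (ih (Fin.tail s))
    rwa [add_comm 1 q] at this

/-- Every form on `S` times a power of `t` comes from `R`. -/
theorem cfs_mp_surj {φ : R →ₐ[A] S} {t : R} (h : IsLo φ t) {q : ℕ} {e' : Fm A S} (he' : e' ∈ Fd A S q) :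
    ∃ (k : ℕ) (e : Fm A R), e ∈ Fd A R q ∧ mp (φ : R →+* S) (CC.of_algHom φ) e = fz A (φ t ^ k) * e' := by
  refine fd_ind (P := fun e' => Gd φ t q e') ?_ ?_ ?_ he'
  · exact ⟨0, 0, Submodule.zero_mem _, by rw [map_zero, mul_zero]⟩
  · intro r s
    have := gd_mul (gd_fz h r) (gd_wd h q s)
    rwa [zero_add] at this
  · intro a b ha hb
    exact gd_add ha hb

end Loc

end MPadcGP
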