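import Pool.Agent.Lib.MP_adc574_ag_GP.DRm

/-!
# Finiteness of the modules of differential forms
-/

/-
JOB Cg: prove fd_fg. Fd A R q = ⋀[R]^q Ω[R⁄A] (unfold Fd), Ω[R⁄A] is a finite R-module (Mathlib: Module.Finite R Ω[R⁄A] for algebras (essentially) of finite type, KaehlerDifferential.finite), exterior powers of finite modules are finite (Mathlib: Module.Finite R (⋀[R]^n M), look in
LinearAlgebra/ExteriorPower; or: ⋀[R]^q M = (LinearMap.range (ExteriorAlgebra.ι R)) ^ q and Submodule.FG.pow). Then Module.Finite.iff_fg.
-/

set_option autoImplicit false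

namespace MPadcGP

universe u v w

/-- The forms of degree `q` on an algebra of finite type are finitely generated. -/
theorem fd_fg {A : Type u} {R : Type v} [CommRing A] [CommRing R] [Algebra A R] [Algebra.FiniteType A R] (q : ℕ) :
    (Fd A R q).FG := by
  have h1 : Module.Finite R (Ω[R⁄A]) := inferInstance
  have h2 : (LinearMap.range (ExteriorAlgebra.ι R : (Ω[R⁄A]) →ₗ[R] ExteriorAlgebra R (Ω[R⁄A]))).FG := by
    rw [LinearMap.range_eq_map]
    exact Submodule.FG.map _ (Module.finite_def.mp h1)
  exact Submodule.FG.pow h2 q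

end MPadcGP
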