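import Pool.Agent.Lib.MP_adc574_ag_GP.Cm
import Pool.Agent.Lib.MP_adc574_ag_GP.Cfs
import Pool.Agent.Lib.MP_adc574_ag_GP.Cg

/-!
# Finiteness of the Čech cohomology of the differential forms
-/

set_option autoImplicit false

namespace MPadcGP

universe u v w

/-- Cover data with the monomials `μ J b` of degree 0: the standard charts of a projective scheme. -/
structure IsProj {A : Type u} [CommRing A] {n : ℕ} (X : CovD.{u, u} A n)
    (μ : ∀ J : Finset (Fin n), (Fin n → ℤ) → X.R J) : Prop where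
  zero : ∀ J : Finset (Fin n), J.Nonempty → μ J 0 = 1
  add : ∀ J : Finset (Fin n), J.Nonempty → ∀ b ∈ OE n 0 J, ∀ c ∈ OE n 0 J, μ J (b + c) = μ J b * μ J c
  map : ∀ {J K : Finset (Fin n)} (h : J ⊆ K), J.Nonempty → ∀ b ∈ OE n 0 J, X.ρ h (μ J b) = μ K b
  span : ∀ (i : Fin n) (x : X.R {i}), x ∈ Submodule.span A (μ {i} '' OE n 0 {i})
  lo : ∀ (J : Finset (Fin n)), ∀ i ∈ J, ∀ l : Fin n, IsLo (X.ρ (Finset.subset_insert l J)) (μ J (ed l i))
  ft : ∀ i : Fin n, Algebra.FiniteType A (X.R {i})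

namespace CovD

variable {A : Type u} [CommRing A] {n : ℕ} (X : CovD.{u, u} A n)

/-- The restriction of forms as a linear map. -/
noncomputable def rsl {J K : Finset (Fin n)} (h : J ⊆ K) : X.E J →ₗ[A] X.E K :=
  { (X.rs h : X.E J →+* X.E K) with map_smul' := fun a e => rs_smul h a e }

theorem rsl_apply {J K : Finset (Fin n)} (h : J ⊆ K) (e : X.E J) : X.rsl h e = X.rs h e := rfl

/-- The forms of degree `q` as an `A`-module. -/
noncomputable def FA (q : ℕ) (J : Finset (Fin n)) : Submodule A (X.E J) := (Fd A (X.R J) q).restrictScalars A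

theorem mem_FA {q : ℕ} {J : Finset (Fin n)} {e : X.E J} : e ∈ X.FA q J ↔ e ∈ Fd A (X.R J) q := Iff.rfl

/-- Multiplication with a function, as an `A`-linear map. -/
noncomputable def mu {J : Finset (Fin n)} (r : X.R J) : X.E J →ₗ[A] X.E J :=
  (LinearMap.lsmul (X.R J) (X.E J) r).restrictScalars A

theorem mu_apply {J : Finset (Fin n)} (r : X.R J) (e : X.E J) : X.mu r e = fz A r * e := fz_smul r e

/-- The Čech cochains with values in the forms of degree `q`, supported on the sets with `m` elements. -/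
noncomputable def Cq (q m : ℕ) : Submodule A X.Ch where
  carrier := {c | c ∅ = 0 ∧ ∀ J : Finset (Fin n), (J.card = m → c J ∈ Fd A (X.R J) q) ∧ (J.card ≠ m → c J = 0)}
  zero_mem' := ⟨rfl, fun J => ⟨fun _ => Submodule.zero_mem _, fun _ => rfl⟩⟩
  add_mem' := by
    rintro b c ⟨hb0, hb⟩ ⟨hc0, hc⟩
    refine ⟨by rw [Pi.add_apply, hb0, hc0, add_zero], fun J => ⟨fun hJ => ?_, fun hJ => ?_⟩⟩
    · exact Submodule.add_mem _ ((hb J).1 hJ) ((hc J).1 hJ)
    · rw [Pi.add_apply, (hb J).2 hJ, (hc J).2 hJ, add_zero]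
  smul_mem' := by
    rintro a c ⟨hc0, hc⟩
    refine ⟨by rw [Pi.smul_apply, hc0, smul_zero], fun J => ⟨fun hJ => ?_, fun hJ => ?_⟩⟩
    · exact (X.FA q J).smul_mem a ((hc J).1 hJ)
    · rw [Pi.smul_apply, (hc J).2 hJ, smul_zero]

variable {X}

theorem mem_Cq {q m : ℕ} {c : X.Ch} : c ∈ X.Cq q m ↔ c ∅ = 0 ∧ ∀ J : Finset (Fin n),
    (J.card = m → c J ∈ Fd A (X.R J) q) ∧ (J.card ≠ m → c J = 0) := Iff.rfl

end CovD

namespace IsProj

variable {A : Type u} [CommRing A] {n : ℕ} {X : CovD.{u, u} A n}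
  {μ : ∀ J : Finset (Fin n), (Fin n → ℤ) → X.R J}

theorem smul_ed (h : IsProj X μ) {J : Finset (Fin n)} {i : Fin n} (hi : i ∈ J) (l : Fin n) (k : ℕ) :
    μ J (k • ed l i) = μ J (ed l i) ^ k := by
  induction k with
  | zero => rw [zero_smul, h.zero J ⟨i, hi⟩, pow_zero]
  | succ k ih =>
    have h1 : ed l i ∈ OE n 0 J := by
      have := smul_ed_mem 1 l hi
      rwa [one_smul] at this
    rw [succ_nsmul, h.add J ⟨i, hi⟩ _ (smul_ed_mem k l hi) _ h1, ih, pow_succ]

/-- The system of the forms of degree `q`. -/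
noncomputable def FS (h : IsProj X μ) (q : ℕ) : MSys.{u, u} A n where
  N J := ↥(X.FA q J)
  ρ {J K} hJK := (X.rsl hJK).restrict (fun e he => CovD.rs_mem hJK he)
  ρ_id J x := Subtype.ext (CovD.rs_id J _ _)
  ρ_comp h1 h2 x := Subtype.ext (CovD.rs_rs h1 h2 _)
  m J b := (X.mu (μ J b)).restrict (fun e he => by
    rw [CovD.mu_apply]
    exact fz_mul_mem _ he)
  m_zero J hJ x := by
    apply Subtype.ext
    change X.mu (μ J 0) (x : X.E J) = x
    rw [CovD.mu_apply, h.zero J hJ, map_one, one_mul]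
  m_add J hJ b hb c hc x := by
    apply Subtype.ext
    change X.mu (μ J (b + c)) (x : X.E J) = X.mu (μ J b) (X.mu (μ J c) (x : X.E J))
    rw [CovD.mu_apply, CovD.mu_apply, CovD.mu_apply, h.add J hJ b hb c hc, map_mul, mul_assoc]
  ρ_m {J K} hJK hJ b hb x := by
    apply Subtype.ext
    change X.rs hJK (X.mu (μ J b) (x : X.E J)) = X.mu (μ K b) (X.rs hJK (x : X.E J))
    rw [CovD.mu_apply, CovD.mu_apply, map_mul, CovD.rs_fz, h.map hJK hJ b hb]

/-- The inclusion into all forms. -/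
noncomputable def fv (h : IsProj X μ) (q : ℕ) (J : Finset (Fin n)) : (h.FS q).N J →ₗ[A] X.E J := (X.FA q J).subtype

theorem fv_inj (h : IsProj X μ) {q : ℕ} {J : Finset (Fin n)} {x y : (h.FS q).N J} (e : h.fv q J x = h.fv q J y) :
    x = y := Subtype.ext e

theorem fv_mem (h : IsProj X μ) {q : ℕ} {J : Finset (Fin n)} (x : (h.FS q).N J) : h.fv q J x ∈ Fd A (X.R J) q := x.2

theorem exists_fv (h : IsProj X μ) {q : ℕ} {J : Finset (Fin n)} {e : X.E J} (he : e ∈ Fd A (X.R J) q) :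
    ∃ x : (h.FS q).N J, h.fv q J x = e := ⟨⟨e, he⟩, rfl⟩

theorem fv_ρ (h : IsProj X μ) {q : ℕ} {J K : Finset (Fin n)} (hJK : J ⊆ K) (x : (h.FS q).N J) :
    h.fv q K ((h.FS q).ρ hJK x) = X.rs hJK (h.fv q J x) := rfl

theorem fv_m (h : IsProj X μ) {q : ℕ} {J : Finset (Fin n)} (b : Fin n → ℤ) (x : (h.FS q).N J) :
    h.fv q J ((h.FS q).m J b x) = fz A (μ J b) * h.fv q J x := X.mu_apply _ _

theorem FS_coh (h : IsProj X μ) (q : ℕ) : (h.FS q).IsCoh := by
  refine ⟨?_, ?_, ?_⟩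
  · intro J i hi l x hx
    have h1 : mp (X.ρ (Finset.subset_insert l J) : X.R J →+* X.R (insert l J)) (CC.of_algHom _) (h.fv q J x) = 0 := by
      change X.rs (Finset.subset_insert l J) (h.fv q J x) = 0
      rw [← h.fv_ρ, hx, map_zero]
    obtain ⟨k, hk⟩ := mp_eq_zero (h.lo J i hi l) h1
    refine ⟨k, ?_⟩
    apply h.fv_inj
    rw [h.fv_m, h.smul_ed hi, hk, map_zero]
  · intro J i hi l y
    obtain ⟨k, e, he, hke⟩ := cfs_mp_surj (h.lo J i hi l) (h.fv_mem y)
    obtain ⟨x, rfl⟩ := h.exists_fv he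
    refine ⟨k, x, ?_⟩
    apply h.fv_inj
    have hi' : i ∈ insert l J := Finset.mem_insert_of_mem hi
    have h1 : ed l i ∈ OE n 0 J := by
      have := smul_ed_mem 1 l hi
      rwa [one_smul] at this
    rw [h.fv_ρ, h.fv_m, h.smul_ed hi', ← h.map (Finset.subset_insert l J) ⟨i, hi⟩ _ h1]
    exact hke
  · intro i
    have := h.ft i
    obtain ⟨S, hS⟩ := fd_fg (A := A) (R := X.R {i}) q
    refine ⟨h.fv q {i} ⁻¹' (S : Set (X.E {i})), S.finite_toSet.preimage (fun x _ y _ e => h.fv_inj e), ?_⟩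
    intro P hP hPs
    rw [eq_top_iff]
    rintro x -
    -- multiplication by functions
    have h1 : ∀ (r : X.R {i}) (y : (h.FS q).N {i}), y ∈ P → ∃ z ∈ P, h.fv q {i} z = r • h.fv q {i} y := by
      intro r y hy
      have hr := h.span i r
      induction hr using Submodule.span_induction with
      | mem r hr =>
        obtain ⟨b, hb, rfl⟩ := hr
        exact ⟨_, hPs b hb y hy, by rw [h.fv_m, fz_smul]⟩
      | zero => exact ⟨0, P.zero_mem, by rw [map_zero, zero_smul]⟩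
      | add r s _ _ hr hs =>
        obtain ⟨z, hz, hz1⟩ := hr
        obtain ⟨z', hz', hz1'⟩ := hs
        exact ⟨z + z', P.add_mem hz hz', by rw [map_add, hz1, hz1', add_smul]⟩
      | smul a r _ hr =>
        obtain ⟨z, hz, hz1⟩ := hr
        exact ⟨a • z, P.smul_mem a hz, by rw [map_smul, hz1, smul_assoc]⟩
    have h2 : ∀ e ∈ Submodule.span (X.R {i}) (S : Set (X.E {i})), ∃ z ∈ P, h.fv q {i} z = e := by
      intro e he
      induction he using Submodule.span_induction with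
      | mem e he =>
        have he' : e ∈ Fd A (X.R {i}) q := by
          rw [← hS]
          exact Submodule.subset_span he
        obtain ⟨z, rfl⟩ := h.exists_fv he'
        exact ⟨z, hP he, rfl⟩
      | zero => exact ⟨0, P.zero_mem, map_zero _⟩
      | add e f _ _ he hf =>
        obtain ⟨z, hz, hz1⟩ := he
        obtain ⟨z', hz', hz1'⟩ := hf
        exact ⟨z + z', P.add_mem hz hz', by rw [map_add, hz1, hz1']⟩
      | smul r e _ he =>
        obtain ⟨z, hz, hz1⟩ := he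
        obtain ⟨z', hz', hz1'⟩ := h1 r z hz
        exact ⟨z', hz', by rw [hz1', hz1]⟩
    obtain ⟨z, hz, hzx⟩ := h2 (h.fv q {i} x) (by rw [hS]; exact h.fv_mem x)
    rw [← h.fv_inj hzx]
    exact hz

/-- The Čech cohomology of the forms of degree `q` is finitely generated over a noetherian ring. -/
theorem fg_Cq [IsNoetherianRing A] (h : IsProj X μ) (q j : ℕ) :
    FGq (X.Cq q (j + 1) ⊓ LinearMap.ker X.del) ((X.Cq q j).map X.del) := by
  obtain ⟨s, hs, hsZ, hZs⟩ := MSys.fg_coh (h.FS_coh q) j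
  let val : (h.FS q).Ch →ₗ[A] X.Ch := LinearMap.pi fun J => (h.fv q J) ∘ₗ LinearMap.proj J
  have hval : ∀ c J, val c J = h.fv q J (c J) := fun _ _ => rfl
  have hdel : ∀ c, X.del (val c) = val ((h.FS q).del c) := by
    intro c
    funext J
    rw [CovD.del_apply, hval, MSys.del_apply, map_sum]
    refine Finset.sum_congr rfl fun j _ => ?_
    rw [map_zsmul, MSys.ev_of (Finset.erase_subset _ _), CovD.ev_of (Finset.erase_subset _ _), h.fv_ρ, hval]
  have hmem : ∀ m c, c ∈ (h.FS q).Cc m → val c ∈ X.Cq q m := by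
    rintro m c ⟨hc0, hc⟩
    refine ⟨by rw [hval, hc0, map_zero], fun J => ⟨fun _ => h.fv_mem _, fun hJ => by rw [hval, hc J hJ, map_zero]⟩⟩
  have hlift : ∀ m, ∀ c ∈ X.Cq q m, ∃ c' ∈ (h.FS q).Cc m, val c' = c := by
    rintro m c ⟨hc0, hc⟩
    have h1 : ∀ J, c J ∈ Fd A (X.R J) q := by
      intro J
      by_cases hJ : J.card = m
      · exact (hc J).1 hJ
      · rw [(hc J).2 hJ]
        exact Submodule.zero_mem _
    choose c' hc' using fun J => h.exists_fv (h1 J)
    refine ⟨c', ⟨?_, fun J hJ => ?_⟩, ?_⟩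
    · apply h.fv_inj
      rw [hc', hc0, map_zero]
    · apply h.fv_inj
      rw [hc', (hc J).2 hJ, map_zero]
    · funext J
      rw [hval, hc']
  have hinj : ∀ c, val c = 0 → c = 0 := by
    intro c hc
    funext J
    apply h.fv_inj
    rw [← hval, hc, Pi.zero_apply, Pi.zero_apply, map_zero]
  refine ⟨val '' s, hs.image _, ?_, ?_⟩
  · rintro _ ⟨c, hc, rfl⟩
    have h1 := hsZ hc
    refine ⟨hmem _ c h1.1, ?_⟩
    change X.del (val c) = 0
    rw [hdel, LinearMap.mem_ker.1 h1.2, map_zero]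
  · rintro c ⟨hc, hc0⟩
    obtain ⟨c', hc', rfl⟩ := hlift _ c hc
    have h1 : c' ∈ (h.FS q).Cc (j + 1) ⊓ LinearMap.ker (h.FS q).del := by
      refine ⟨hc', hinj _ ?_⟩
      rw [← hdel]
      exact hc0
    obtain ⟨b, hb, _, ⟨e, he, rfl⟩, hbe⟩ := Submodule.mem_sup.1 (hZs h1)
    rw [← hbe, map_add]
    refine Submodule.add_mem _ (Submodule.mem_sup_left ?_) (Submodule.mem_sup_right ?_)
    · rw [← Submodule.map_span]
      exact ⟨b, hb, rfl⟩
    · exact ⟨val e, hmem _ e he, hdel e⟩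

end IsProj

end MPadcGP
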