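import Mathlib

/-!
# GP: general position of the Hodge filtration of a cohomology algebra

`H n`, `n : ℕ`: vector spaces over `k` with filtrations `Fl n`, connections `nab n` (`nab n D x y`: the
derivative of `x` in the direction `D` is `y`), products (`cup n n' x y z`: the product of `x` and `y` is
`z`) and sets `lg n j` of classes.
-/

set_option autoImplicit false

namespace MPadcGP

section

variable {k : Type*} [Field k] {H : Type*} [AddCommGroup H] [Module k H]
  (nab : Derivation ℤ k k → H → H → Prop)

/-- The space `W` of alternating forms on `H` is horizontal: it is stable under the connection.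
Here `nab D x y` says that `y` is the derivative of `x` in the direction `D`. -/
def IsHorizontal {r : ℕ} (W : Submodule k (H [⋀^Fin r]→ₗ[k] k)) : Prop :=
  ∀ D : Derivation ℤ k k, ∀ ω ∈ W, ∃ ω' ∈ W, ∀ x y : Fin r → H, (∀ u, nab D (x u) (y u)) →
    ω' x = D (ω x) - ∑ u, ω (Function.update x u (y u))

end

section

variable {k : Type*} [Field k] {H : ℕ → Type*} [∀ n, AddCommGroup (H n)] [∀ n, Module k (H n)]
  (nab : ∀ n, Derivation ℤ k k → H n → H n → Prop) (Fl : ∀ n, ℕ → Submodule k (H n))
  (cup : ∀ n n', H n → H n' → H (n + n') → Prop) (lg : ∀ n, ℕ → Set (H n))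

/-- The filtrations `P n` of the spaces `H n` are of conjugate type: increasing, of the dimensions
complementary to those of the filtrations `Fl n`, multiplicative, and `P n j` contains `lg n j`. -/
structure IsConjugateType (P : ∀ n, ℕ → Submodule k (H n)) : Prop where
  mono : ∀ n i, P n i ≤ P n (i + 1)
  dim : ∀ n i, Module.finrank k (P n i) + Module.finrank k (Fl n (i + 1)) = Module.finrank k (H n)
  mul : ∀ n n' i i', ∀ x ∈ P n i, ∀ y ∈ P n' i', ∀ z, cup n n' x y z → z ∈ P (n + n') (i + i')
  log : ∀ n j, ∀ x ∈ lg n j, x ∈ P n j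

/-- General position: let `P` be filtrations of conjugate type and let `r` be the dimension of
`Fl n (i + 1)`. Every horizontal space `W` of alternating `r`-forms on `H n` which contains a nonzero
form killed by `P n i` contains a form which does not vanish on `Fl n (i + 1)`. -/
def InGeneralPosition : Prop :=
  ∀ P : ∀ n, ℕ → Submodule k (H n), IsConjugateType Fl cup lg P → ∀ n i : ℕ,
    ∀ W : Submodule k (H n [⋀^Fin (Module.finrank k (Fl n (i + 1)))]→ₗ[k] k),
      IsHorizontal (nab n) W →
      (∃ ω ∈ W, ω ≠ 0 ∧ ∀ x, (∃ u, x u ∈ P n i) → ω x = 0) →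
        ∃ ω ∈ W, ∃ x, (∀ u, x u ∈ Fl n (i + 1)) ∧ ω x ≠ 0

end

end MPadcGP
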