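import Pool.Agent.Lib.MP_adc574_ag_GP.Mod5
import Pool.Agent.Lib.MP_adc574_ag_GP.Cup
import Pool.Agent.Lib.MP_adc574_ag_GP.Gen

/-!
# GP: the cohomology of a cover data, the literal definitions of the final statement

* `HdR m`: the de Rham cohomology (Čech–de Rham complex), `Fil m i` the Hodge filtration, `Con m i` the
  conjugate filtration.
* `gaussManin`, `cupRel`, `logClasses`: connection, product, logarithmic classes.
* `Bx q J`: the exact forms of degree `q + 1`, `IsBlochKatoOrdinary`.
-/

set_option autoImplicit false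

namespace MPadcGP

universe u v

section forms

variable (A : Type u) (R : Type v) [CommRing A] [CommRing R] [Algebra A R]

/-- The logarithmic forms of degree `j`: the sums and differences of the products
`dlog u_1 ∧ ⋯ ∧ dlog u_j` with units `u_l`. -/
noncomputable def logForms (j : ℕ) : AddSubgroup (Fm A R) :=
  AddSubgroup.closure {ω | ∃ u : Fin j → Rˣ,
    ω = (List.ofFn fun l => fz A ((u l)⁻¹ : Rˣ).val * df A (u l).val).prod}

/-- The exact forms of degree `q + 1`: the derivatives of the forms of degree `q`. -/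
noncomputable def exactForms (q : ℕ) : Submodule A (Fm A R) :=
  ((Fd A R q).restrictScalars A).map (ddl A R)

end forms

namespace CovD

variable {A : Type u} [CommRing A] {n : ℕ} (X : CovD.{u, v} A n)

/-- The cocycles of degree `m` of the total complex. -/
noncomputable def Zc (m : ℕ) : Submodule A X.Ch := X.Tt m ⊓ LinearMap.ker X.Dt

/-- The coboundaries of degree `m` of the total complex. -/
noncomputable def Bc : ℕ → Submodule A X.Ch
  | 0 => ⊥
  | m + 1 => (X.Tt m).map X.Dt

/-- The de Rham cohomology of degree `m`. -/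
abbrev HdR (m : ℕ) : Type _ := ↥(X.Zc m) ⧸ (X.Bc m).submoduleOf (X.Zc m)

/-- The class of a cocycle. -/
noncomputable def cl (m : ℕ) : ↥(X.Zc m) →ₗ[A] X.HdR m := ((X.Bc m).submoduleOf (X.Zc m)).mkQ

/-- The Hodge filtration of the cohomology. -/
noncomputable def Fil (m i : ℕ) : Submodule A (X.HdR m) :=
  ((X.Fi i m).submoduleOf (X.Zc m)).map (X.cl m)

/-- The conjugate filtration of the cohomology. -/
noncomputable def Con (m i : ℕ) : Submodule A (X.HdR m) :=
  ((X.Ni i m).submoduleOf (X.Zc m)).map (X.cl m)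

/-- The class `y` is the derivative of the class `x` in the direction `D`, for the Gauss-Manin
connection. -/
def gaussManin (m : ℕ) (D : Derivation ℤ A A) (x y : X.HdR m) : Prop :=
  ∃ (V : Lft X D) (c c' : ↥(X.Zc m)), V.Gm (c : X.Ch) = (c' : X.Ch) ∧ X.cl m c = x ∧ X.cl m c' = y

/-- The class `z` is the product of the classes `x` and `y`. -/
def cupRel (m m' : ℕ) (x : X.HdR m) (y : X.HdR m') (z : X.HdR (m + m')) : Prop :=
  ∃ (a : ↥(X.Zc m)) (b : ↥(X.Zc m')) (c : ↥(X.Zc (m + m'))),
    X.cup (a : X.Ch) (b : X.Ch) = (c : X.Ch) ∧ X.cl m a = x ∧ X.cl m' b = y ∧ X.cl (m + m') c = z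

/-- The logarithmic classes of degree `j` in the cohomology of degree `m`. -/
def logClasses (m j : ℕ) : Set (X.HdR m) :=
  {x | ∃ c : ↥(X.Zc m), X.cl m c = x ∧ ∀ J : Finset (Fin n),
    (c : X.Ch) J ∈ logForms A (X.R J) j ∧ (J.card + j ≠ m + 1 → (c : X.Ch) J = 0)}

/-- The cohomology algebra with the Gauss-Manin connection and the logarithmic classes is in general
position with respect to the Hodge filtration. -/
def IsGeneral {k : Type u} [Field k] {n : ℕ} (X : CovD.{u, v} k n) : Prop :=
  InGeneralPosition (H := fun m => X.HdR m) (fun m => X.gaussManin m) (fun m i => X.Fil m i)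
    (fun m m' => X.cupRel m m') (fun m j => X.logClasses m j)

/-- The Čech cochains with `j + 1` indices of exact forms of degree `q + 1`. -/
def exCoc (q j : ℕ) (c : X.Ch) : Prop :=
  c ∅ = 0 ∧ ∀ J : Finset (Fin n), c J ∈ exactForms A (X.R J) q ∧ (J.card ≠ j + 1 → c J = 0)

/-- `H ^ j (X, B Ω ^ (q + 1)) = 0` for all `q, j`: every Čech cocycle is a coboundary. -/
def IsBlochKatoOrdinary : Prop :=
  ∀ q j : ℕ, ∀ c, X.exCoc q j c → X.del c = 0 →
    ∃ b : X.Ch, (∀ J : Finset (Fin n), b J ∈ exactForms A (X.R J) q ∧ (J.card ≠ j → b J = 0)) ∧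
      b ∅ = 0 ∧ X.del b = c

end CovD

section final

variable {A : Type u} [CommRing A] {n : ℕ} (I : Ideal (MvPolynomial (Fin n) A))

/-- There is a closed point `s` of `Spec A` of characteristic `p`, with `b(s) ≠ 0`, such that the
fibre `X_s` is smooth and ordinary in the sense of Bloch and Kato. -/
def HasOrdinaryPoint (b : A) (p : ℕ) : Prop :=
  ∃ 𝔪 : Ideal A, 𝔪.IsMaximal ∧ b ∉ 𝔪 ∧ (p : A) ∈ 𝔪 ∧
    IsSmoothProj (bI (Ideal.Quotient.mk 𝔪) I) ∧ (prC (bI (Ideal.Quotient.mk 𝔪) I)).IsBlochKatoOrdinary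

end final

end MPadcGP
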