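import Pool.Agent.Lib.MP_adc574_ag_GP.Cz

/-!
# Finitely generated subquotients
-/

set_option autoImplicit false

namespace MPadcGP

universe u v w x

section FG

variable {A : Type u} [CommRing A] {T : Type v} [AddCommGroup T] [Module A T]

theorem FGq.fg_map {Z B : Submodule A T} (h : FGq Z B) : (Z.map B.mkQ).FG := by
  obtain ⟨s, hs, hsZ, hZ⟩ := h
  have h1 : Z.map B.mkQ = Submodule.span A (B.mkQ '' s) := by
    apply le_antisymm
    · rw [← Submodule.map_span]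
      rintro _ ⟨x, hx, rfl⟩
      obtain ⟨y, hy, z, hz, rfl⟩ := Submodule.mem_sup.1 (hZ hx)
      refine ⟨y, hy, ?_⟩
      rw [map_add, (Submodule.Quotient.mk_eq_zero B).2 hz |> fun h => (h : B.mkQ z = 0), add_zero]
    · rw [Submodule.span_le]
      rintro _ ⟨x, hx, rfl⟩
      exact ⟨x, hsZ hx, rfl⟩
  rw [h1]
  exact Submodule.fg_span (hs.image _)

theorem FGq.of_fg_map {Z B : Submodule A T} (h : (Z.map B.mkQ).FG) : FGq Z B := by
  obtain ⟨t, ht, hspan⟩ := (Submodule.fg_def).1 h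
  have h1 : ∀ y ∈ t, ∃ x ∈ Z, B.mkQ x = y := by
    intro y hy
    have : y ∈ Z.map B.mkQ := by
      rw [← hspan]
      exact Submodule.subset_span hy
    obtain ⟨x, hx, hxy⟩ := this
    exact ⟨x, hx, hxy⟩
  choose! f hf1 hf2 using h1
  refine ⟨f '' t, ht.image f, ?_, ?_⟩
  · rintro _ ⟨y, hy, rfl⟩
    exact hf1 y hy
  · intro x hx
    have h2 : B.mkQ x ∈ Submodule.span A (B.mkQ '' (f '' t)) := by
      have h3 : B.mkQ '' (f '' t) = t := by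
        ext y
        constructor
        · rintro ⟨_, ⟨z, hz, rfl⟩, rfl⟩
          rw [hf2 z hz]
          exact hz
        · intro hy
          exact ⟨f y, ⟨y, hy, rfl⟩, hf2 y hy⟩
      rw [h3, hspan]
      exact ⟨x, hx, rfl⟩
    rw [← Submodule.map_span] at h2
    obtain ⟨y, hy, hyx⟩ := h2
    refine Submodule.mem_sup.2 ⟨y, hy, x - y, ?_, by abel⟩
    have h4 : B.mkQ (x - y) = 0 := by rw [map_sub, hyx, sub_self]
    exact (Submodule.Quotient.mk_eq_zero B).1 h4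

theorem FGq.of_le [IsNoetherianRing A] {Z B Z' : Submodule A T} (h : FGq Z B) (hZ : Z' ≤ Z ⊔ B) : FGq Z' B := by
  apply FGq.of_fg_map
  refine Submodule.FG.of_le h.fg_map ?_
  rintro _ ⟨x, hx, rfl⟩
  obtain ⟨y, hy, z, hz, rfl⟩ := Submodule.mem_sup.1 (hZ hx)
  refine ⟨y, hy, ?_⟩
  rw [map_add, (Submodule.Quotient.mk_eq_zero B).2 hz |> fun h => (h : B.mkQ z = 0), add_zero]

theorem FGq.bot (B : Submodule A T) : FGq (⊥ : Submodule A T) B :=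
  ⟨∅, Set.finite_empty, Set.empty_subset _, bot_le⟩

theorem FGq.finite {Z B : Submodule A T} (h : FGq Z B) : Module.Finite A (↥Z ⧸ B.submoduleOf Z) := by
  obtain ⟨s, hs, hsZ, hZ⟩ := h
  refine ⟨?_⟩
  rw [Submodule.fg_def]
  refine ⟨(B.submoduleOf Z).mkQ '' ((↑) ⁻¹' s : Set Z),
    (hs.preimage Subtype.val_injective.injOn).image _, ?_⟩
  rw [eq_top_iff]
  rintro a -
  obtain ⟨x, rfl⟩ := Submodule.mkQ_surjective _ a
  obtain ⟨y, hy, z, hz, hyz⟩ := Submodule.mem_sup.1 (hZ x.2)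
  have hyZ : y ∈ Z := (Submodule.span_le.2 hsZ) hy
  have h1 : (B.submoduleOf Z).mkQ x = (B.submoduleOf Z).mkQ ⟨y, hyZ⟩ := by
    rw [Submodule.mkQ_apply, Submodule.mkQ_apply, Submodule.Quotient.eq]
    change ((x - ⟨y, hyZ⟩ : Z) : T) ∈ B
    rw [Submodule.coe_sub, ← hyz]
    simpa using hz
  rw [h1, ← Submodule.map_span]
  refine ⟨⟨y, hyZ⟩, ?_, rfl⟩
  have h2 : Submodule.span A s = (Submodule.span A ((↑) ⁻¹' s : Set Z)).map Z.subtype := by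
    rw [Submodule.map_span]
    congr 1
    ext w
    constructor
    · intro hw
      exact ⟨⟨w, hsZ hw⟩, hw, rfl⟩
    · rintro ⟨w', hw', rfl⟩
      exact hw'
  rw [h2] at hy
  obtain ⟨y', hy', hyy⟩ := hy
  have : y' = ⟨y, hyZ⟩ := Subtype.ext hyy
  rw [← this]
  exact hy'

theorem FGq.of_finite {Z B : Submodule A T} (h : Module.Finite A (↥Z ⧸ B.submoduleOf Z)) : FGq Z B := by
  apply FGq.of_fg_map
  have h1 : Z.map B.mkQ = LinearMap.range (Submodule.mapQ (B.submoduleOf Z) B Z.subtype (fun _ hx => hx)) := by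
    ext y
    constructor
    · rintro ⟨x, hx, rfl⟩
      exact ⟨(B.submoduleOf Z).mkQ ⟨x, hx⟩, rfl⟩
    · rintro ⟨a, rfl⟩
      obtain ⟨x, rfl⟩ := Submodule.mkQ_surjective _ a
      exact ⟨x, x.2, rfl⟩
  rw [h1, LinearMap.range_eq_map]
  exact Submodule.FG.map _ h.fg_top

end FG

section LES

variable {A : Type u} [CommRing A] [IsNoetherianRing A]

/-- The long exact sequence of `0 → C1 → C2 → C3 → 0`: `H^m(C2)` and `H^(m+1)(C1)` finitely generated imply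
`H^m(C3)` finitely generated. -/
theorem les3 {T1 : Type v} {T2 : Type w} {T3 : Type x} [AddCommGroup T1] [Module A T1] [AddCommGroup T2]
    [Module A T2] [AddCommGroup T3] [Module A T3] (D1 : T1 →ₗ[A] T1) (D2 : T2 →ₗ[A] T2) (D3 : T3 →ₗ[A] T3)
    (a : T1 →ₗ[A] T2) (b : T2 →ₗ[A] T3) (C1 : ℕ → Submodule A T1) (C2 : ℕ → Submodule A T2)
    (C3 : ℕ → Submodule A T3)
    (D1_mem : ∀ m, ∀ x ∈ C1 m, D1 x ∈ C1 (m + 1)) (D2_mem : ∀ m, ∀ x ∈ C2 m, D2 x ∈ C2 (m + 1))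
    (DD2 : ∀ m, ∀ x ∈ C2 m, D2 (D2 x) = 0)
    (a_mem : ∀ m, ∀ x ∈ C1 m, a x ∈ C2 m) (b_mem : ∀ m, ∀ x ∈ C2 m, b x ∈ C3 m)
    (aD : ∀ m, ∀ x ∈ C1 m, a (D1 x) = D2 (a x)) (bD : ∀ m, ∀ x ∈ C2 m, b (D2 x) = D3 (b x))
    (a_inj : ∀ m, ∀ x ∈ C1 m, a x = 0 → x = 0) (ba : ∀ m, ∀ x ∈ C1 m, b (a x) = 0)
    (ex : ∀ m, ∀ x ∈ C2 m, b x = 0 → ∃ w ∈ C1 m, a w = x)
    (surj : ∀ m, ∀ x ∈ C3 m, ∃ y ∈ C2 m, b y = x) (j : ℕ)
    (h2 : FGq (C2 (j + 1) ⊓ LinearMap.ker D2) ((C2 j).map D2))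
    (h1 : FGq (C1 (j + 2) ⊓ LinearMap.ker D1) ((C1 (j + 1)).map D1)) :
    FGq (C3 (j + 1) ⊓ LinearMap.ker D3) ((C3 j).map D3) := by
  -- the image of the connecting homomorphism
  let W : Submodule A T1 :=
    { carrier := {w | w ∈ C1 (j + 2) ∧ ∃ y ∈ C2 (j + 1), D2 y = a w}
      zero_mem' := ⟨Submodule.zero_mem _, 0, Submodule.zero_mem _, by rw [map_zero, map_zero]⟩
      add_mem' := by
        rintro w w' ⟨hw, y, hy, hyw⟩ ⟨hw', y', hy', hyw'⟩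
        exact ⟨Submodule.add_mem _ hw hw', y + y', Submodule.add_mem _ hy hy', by
          rw [map_add, map_add, hyw, hyw']⟩
      smul_mem' := by
        rintro r w ⟨hw, y, hy, hyw⟩
        exact ⟨Submodule.smul_mem _ r hw, r • y, Submodule.smul_mem _ r hy, by
          rw [map_smul, map_smul, hyw]⟩ }
  have hW : W ≤ C1 (j + 2) ⊓ LinearMap.ker D1 := by
    rintro w ⟨hw, y, hy, hyw⟩
    refine ⟨hw, ?_⟩
    change D1 w = 0
    refine a_inj (j + 3) _ (D1_mem _ _ hw) ?_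
    rw [aD _ _ hw, ← hyw, DD2 _ _ hy]
  obtain ⟨t, ht, htW, hWt⟩ := h1.of_le (hW.trans le_sup_left)
  obtain ⟨s, hs, hsZ, hZs⟩ := h2
  have h3 : ∀ w ∈ t, ∃ y ∈ C2 (j + 1), D2 y = a w := fun w hw => (htW hw).2
  choose! g hg1 hg2 using h3
  refine ⟨b '' (g '' t) ∪ b '' s, ((ht.image g).image b).union (hs.image b), ?_, ?_⟩
  · rintro _ (⟨_, ⟨w, hw, rfl⟩, rfl⟩ | ⟨y, hy, rfl⟩)
    · refine ⟨b_mem _ _ (hg1 w hw), ?_⟩
      change D3 (b (g w)) = 0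
      rw [← bD _ _ (hg1 w hw), hg2 w hw, ba _ _ (htW hw).1]
    · have hy' := hsZ hy
      refine ⟨b_mem _ _ hy'.1, ?_⟩
      change D3 (b y) = 0
      rw [← bD _ _ hy'.1, LinearMap.mem_ker.1 hy'.2, map_zero]
  · rintro z ⟨hz, hz0⟩
    obtain ⟨y, hy, hyz⟩ := surj _ z hz
    have h4 : b (D2 y) = 0 := by
      rw [bD _ _ hy, hyz]
      exact hz0
    obtain ⟨w, hw, hwy⟩ := ex _ _ (D2_mem _ _ hy) h4
    have hwW : w ∈ W := ⟨hw, y, hy, hwy.symm⟩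
    obtain ⟨w1, hw1, w2, ⟨k, hk, rfl⟩, hww⟩ := Submodule.mem_sup.1 (hWt hwW)
    -- lift of w1
    have h5 : ∃ y1 ∈ Submodule.span A (g '' t), y1 ∈ C2 (j + 1) ∧ D2 y1 = a w1 := by
      refine Submodule.span_induction (p := fun w1 _ => ∃ y1 ∈ Submodule.span A (g '' t), y1 ∈ C2 (j + 1) ∧
        D2 y1 = a w1) ?_ ?_ ?_ ?_ hw1
      · intro w hw
        exact ⟨g w, Submodule.subset_span ⟨w, hw, rfl⟩, hg1 w hw, hg2 w hw⟩
      · exact ⟨0, Submodule.zero_mem _, Submodule.zero_mem _, by rw [map_zero, map_zero]⟩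
      · rintro w w' - - ⟨y, hy1, hy2, hy3⟩ ⟨y', hy1', hy2', hy3'⟩
        exact ⟨y + y', Submodule.add_mem _ hy1 hy1', Submodule.add_mem _ hy2 hy2', by
          rw [map_add, map_add, hy3, hy3']⟩
      · rintro r w - ⟨y, hy1, hy2, hy3⟩
        exact ⟨r • y, Submodule.smul_mem _ r hy1, Submodule.smul_mem _ r hy2, by
          rw [map_smul, map_smul, hy3]⟩
    obtain ⟨y1, hy1, hy2, hy3⟩ := h5
    have h6 : y - y1 - a k ∈ C2 (j + 1) ⊓ LinearMap.ker D2 := by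
      refine ⟨Submodule.sub_mem _ (Submodule.sub_mem _ hy hy2) (a_mem _ _ hk), ?_⟩
      change D2 (y - y1 - a k) = 0
      rw [map_sub, map_sub, hy3, ← aD _ _ hk, ← hwy, ← hww, map_add]
      abel
    obtain ⟨y2, hy4, y3, ⟨c, hc, rfl⟩, hyy⟩ := Submodule.mem_sup.1 (hZs h6)
    have h7 : z = b y1 + (b y2 + D3 (b c)) := by
      have h8 : y = y1 + a k + (y2 + D2 c) := by
        rw [hyy]
        abel
      rw [← hyz, h8, map_add, map_add, map_add, ba _ _ hk, add_zero, bD _ _ hc]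
    rw [h7]
    refine Submodule.mem_sup.2 ⟨b y1 + b y2, ?_, D3 (b c), ⟨b c, b_mem _ _ hc, rfl⟩, by abel⟩
    refine Submodule.add_mem _ ?_ ?_
    · refine Submodule.span_mono Set.subset_union_left ?_
      rw [← Submodule.map_span]
      exact ⟨y1, hy1, rfl⟩
    · refine Submodule.span_mono Set.subset_union_right ?_
      rw [← Submodule.map_span]
      exact ⟨y2, hy4, rfl⟩

/-- Three steps of a filtration: `H(S1/S0)` and `H(S2/S1)` finitely generated imply `H(S2/S0)` finitely generated.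
`S` is the part of degree `m`, `P` of degree `m - 1`, `Q` of degree `m + 1`. -/
theorem les_fil {T : Type v} [AddCommGroup T] [Module A T] (D : T →ₗ[A] T) (hD : ∀ x, D (D x) = 0)
    (S0 S1 S2 P1 P2 Q0 Q1 : Submodule A T) (h12 : S1 ≤ S2) (hP : P1 ≤ P2) (hQ : Q0 ≤ Q1)
    (h1 : FGq (S1 ⊓ Q0.comap D) (S0 ⊔ P1.map D)) (h2 : FGq (S2 ⊓ Q1.comap D) (S1 ⊔ P2.map D)) :
    FGq (S2 ⊓ Q0.comap D) (S0 ⊔ P2.map D) := by
  have h3 : S2 ⊓ Q0.comap D ≤ (S2 ⊓ Q1.comap D) ⊔ (S1 ⊔ P2.map D) :=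
    le_sup_of_le_left (inf_le_inf_left _ (Submodule.comap_mono hQ))
  obtain ⟨s, hs, hsZ, hZs⟩ := h2.of_le h3
  obtain ⟨t, ht, htZ, hZt⟩ := h1
  refine ⟨s ∪ t, hs.union ht, Set.union_subset hsZ (fun x hx => ⟨h12 (htZ hx).1, (htZ hx).2⟩), ?_⟩
  intro x hx
  obtain ⟨y, hy, z, hz, rfl⟩ := Submodule.mem_sup.1 (hZs hx)
  obtain ⟨s1, hs1, _, ⟨p, hp, rfl⟩, rfl⟩ := Submodule.mem_sup.1 hz
  have hyZ : y ∈ S2 ⊓ Q0.comap D := (Submodule.span_le.2 hsZ) hy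
  have h4 : s1 ∈ S1 ⊓ Q0.comap D := by
    refine ⟨hs1, ?_⟩
    change D s1 ∈ Q0
    have h5 : D s1 = D (y + (s1 + D p)) - D y := by
      rw [map_add, map_add, hD]
      abel
    rw [h5]
    exact Submodule.sub_mem _ hx.2 hyZ.2
  obtain ⟨t1, ht1, _, hr, rfl⟩ := Submodule.mem_sup.1 (hZt h4)
  obtain ⟨s0, hs0, _, ⟨p', hp', rfl⟩, rfl⟩ := Submodule.mem_sup.1 hr
  refine Submodule.mem_sup.2 ⟨y + t1, Submodule.add_mem _ (Submodule.span_mono Set.subset_union_left hy)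
    (Submodule.span_mono Set.subset_union_right ht1), s0 + D (p' + p), ?_, ?_⟩
  · exact Submodule.mem_sup.2 ⟨s0, hs0, D (p' + p), ⟨p' + p, Submodule.add_mem _ (hP hp') hp, rfl⟩, rfl⟩
  · rw [map_add]
    abel

end LES

end MPadcGP
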