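import Pool.Agent.Lib.MP_adc574_ag_GP.Cov
import Pool.Agent.Lib.MP_adc574_ag_GP.Fil
import Pool.Agent.Lib.MP_adc574_ag_GP.CarP

/-!
# The graded pieces of the conjugate filtration (helper88)

`Np a`: the conjugate filtration shifted by one (`Np 0 = 0`, `Np (a + 1) = Ni a`). `Mi a`: the cochains of form degrees
`≤ a` which are exact in degree `a`. `conj_le`: for `CarP` the cohomology of `Np (a + 1) / Np a` has at most the
dimension of the cohomology of `Fi a / Fi (a + 1)`.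
-/

set_option autoImplicit false

namespace MPadcGP

universe u v w x

namespace CovD

open Module

variable {κ : Type u} [Field κ] {n : ℕ} (X : CovD.{u, v} κ n)

/-- The conjugate filtration, shifted by one. -/
noncomputable def Np : ℕ → ℕ → Submodule κ X.Ch
  | 0, _ => ⊥
  | a + 1, m => X.Ni a m

/-- Form degrees `≤ a`, exact in degree `a`. -/
noncomputable def Mi (a m : ℕ) : Submodule κ X.Ch where
  carrier := {c | c ∈ X.Tt m ∧ ∀ J : Finset (Fin n), (J.card + a < m + 1 → c J = 0) ∧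
    (J.card + a = m + 1 → c J ∈ exq κ (X.R J) a)}
  add_mem' := by
    rintro b c ⟨hb0, hb⟩ ⟨hc0, hc⟩
    exact ⟨Submodule.add_mem _ hb0 hc0, fun J => ⟨fun h => by
      rw [Pi.add_apply, (hb J).1 h, (hc J).1 h, add_zero], fun h => add_mem ((hb J).2 h) ((hc J).2 h)⟩⟩
  zero_mem' := ⟨Submodule.zero_mem _, fun J => ⟨fun _ => rfl, fun _ => zero_mem _⟩⟩
  smul_mem' := by
    rintro a c ⟨hc0, hc⟩
    exact ⟨Submodule.smul_mem _ _ hc0, fun J => ⟨fun h => by
      rw [Pi.smul_apply, (hc J).1 h, smul_zero], fun h => exq_smul a ((hc J).2 h)⟩⟩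

variable {X}

theorem mem_Mi {a m : ℕ} {c : X.Ch} : c ∈ X.Mi a m ↔ c ∈ X.Tt m ∧ ∀ J : Finset (Fin n),
    (J.card + a < m + 1 → c J = 0) ∧ (J.card + a = m + 1 → c J ∈ exq κ (X.R J) a) := Iff.rfl

theorem Mi_le_Ni (a m : ℕ) : X.Mi a m ≤ X.Ni a m := fun _ hc =>
  ⟨hc.1, fun J => ⟨(hc.2 J).1, fun h => exq_closed ((hc.2 J).2 h)⟩⟩

theorem Np_le_Mi (a m : ℕ) : X.Np a m ≤ X.Mi a m := by
  cases a with
  | zero => exact bot_le
  | succ a =>
    intro c hc
    refine ⟨hc.1, fun J => ⟨fun h => (hc.2 J).1 (by omega), fun h => ?_⟩⟩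
    rw [(hc.2 J).1 (by omega)]
    exact zero_mem _

theorem Np_le (a m : ℕ) : X.Np a m ≤ X.Np (a + 1) m := (Np_le_Mi a m).trans (Mi_le_Ni a m)

theorem Np_sub (a : ℕ) : IsSub X.Dt (X.Np a) := by
  intro m x hx
  cases a with
  | zero =>
    have h : x = 0 := (Submodule.mem_bot κ).mp hx
    rw [h, map_zero]
    exact zero_mem _
  | succ a => exact Dt_mem_Ni hx

theorem ev_exq {c : X.Ch} {K : Finset (Fin n)} {q : ℕ} (h : c K ∈ exq κ (X.R K) q)
    (J : Finset (Fin n)) : X.ev c K J ∈ exq κ (X.R J) q := by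
  unfold ev
  split_ifs with h1
  · exact mp_exq _ h
  · exact zero_mem _

theorem inv_exq {R : Type v} [CommRing R] [Algebra κ R] {q : ℕ} {e : Fm κ R} (he : e ∈ exq κ R q) :
    inv κ e ∈ exq κ R q := by
  rw [inv_mem (exq_le he)]
  rcases neg_one_pow_eq_or (Fm κ R) q with h | h
  · rw [h, one_mul]
    exact he
  · rw [h, neg_mul, one_mul]
    exact neg_mem he

/-- The first step: `Mi a / Np a` is acyclic. -/
theorem Mi_acyclic (a m : ℕ) (x : X.Ch) (hx : x ∈ X.Mi a m) (hDx : X.Dt x ∈ X.Np a (m + 1)) :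
    x ∈ BB X.Dt (X.Np a) (X.Mi a) m := by
  classical
  rw [mem_BB]
  cases a with
  | zero =>
    refine ⟨x, ?_, 0, zero_mem _, by rw [map_zero, add_zero]⟩
    change x ∈ (⊥ : Submodule κ X.Ch)
    rw [Submodule.mem_bot]
    funext J
    change x J = 0
    rcases lt_trichotomy J.card (m + 1) with h | h | h
    · exact (hx.2 J).1 h
    · exact mem_exq_zero.mp ((hx.2 J).2 h)
    · exact (hx.1.2 J).2 h
  | succ a =>
    have hex : ∀ J : Finset (Fin n), J.card + (a + 1) = m + 1 → ∃ f ∈ Fd κ (X.R J) a, dd κ f = x J := fun J hJ =>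
      mem_exq_succ.mp ((hx.2 J).2 hJ)
    let w : X.Ch := fun J => if h : J.card + (a + 1) = m + 1 ∧ J ≠ ∅ then (hex J h.1).choose else 0
    have hw1 : ∀ J : Finset (Fin n), J.card + (a + 1) = m + 1 → w J ∈ Fd κ (X.R J) a ∧ dd κ (w J) = x J := by
      intro J hJ
      by_cases h : J = ∅
      · subst h
        have e : w ∅ = 0 := dif_neg fun h => h.2 rfl
        rw [e, map_zero, hx.1.1]
        exact ⟨Submodule.zero_mem _, rfl⟩
      · have e : w J = (hex J hJ).choose := dif_pos ⟨hJ, h⟩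
        rw [e]
        exact (hex J hJ).choose_spec
    have hw2 : ∀ J : Finset (Fin n), J.card + (a + 1) ≠ m + 1 → w J = 0 := fun J hJ => dif_neg fun h => hJ h.1
    have hw0 : w ∅ = 0 := dif_neg fun h => h.2 rfl
    have hwm : w ∈ pr (X.Mi (a + 1)) m ∧ X.Dt w ∈ X.Tt m := by
      cases m with
      | zero =>
        have e : w = 0 := by
          funext J
          change w J = 0
          by_cases h : J.card + (a + 1) = 0 + 1
          · have h1 : J = ∅ := Finset.card_eq_zero.mp (by omega)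
            subst h1
            exact hw0
          · exact hw2 J h
        rw [e, map_zero]
        exact ⟨zero_mem _, zero_mem _⟩
      | succ m =>
        have h1 : w ∈ X.Tt m := by
          refine ⟨hw0, fun J => ⟨fun q hq => ?_, fun h => hw2 J (by omega)⟩⟩
          by_cases h : J.card + (a + 1) = m + 1 + 1
          · have h2 : q = a := by omega
            rw [h2]
            exact (hw1 J h).1
          · rw [hw2 J h]
            exact Submodule.zero_mem _
        refine ⟨⟨h1, fun J => ⟨fun h => hw2 J (by omega), fun h => ?_⟩⟩, Dt_mem h1⟩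
        rw [hw2 J (by omega)]
        exact zero_mem _
    refine ⟨x - X.Dt w, ?_, w, hwm.1, by abel⟩
    change x - X.Dt w ∈ X.Ni a m
    refine ⟨sub_mem hx.1 hwm.2, fun J => ⟨fun h => ?_, fun h => ?_⟩⟩
    · have e1 : X.del (X.ic w) J = 0 := by
        rw [del_apply]
        refine Finset.sum_eq_zero fun j hj => ?_
        have h1 := Finset.card_erase_add_one hj
        rw [ev_ic, ev_eq_zero (hw2 _ (by omega)), map_zero, smul_zero]
      rw [Pi.sub_apply, Dt_apply, Pi.add_apply, e1, add_zero, dc_apply]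
      rcases Nat.lt_or_ge (J.card + (a + 1)) (m + 1) with h2 | h2
      · rw [(hx.2 J).1 h2, hw2 J (by omega), map_zero, sub_zero]
      · rw [(hw1 J (by omega)).2, sub_self]
    · have h0 : X.Dt x J = 0 := (hDx.2 J).1 (by omega)
      rw [Dt_apply, Pi.add_apply, dc_apply] at h0
      have e1 : X.del (X.ic x) J = X.del (X.ic (X.dc w)) J := by
        rw [del_apply, del_apply]
        refine Finset.sum_congr rfl fun j hj => ?_
        have h1 := Finset.card_erase_add_one hj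
        have e2 : x (J.erase j) = X.dc w (J.erase j) := by
          rw [dc_apply, (hw1 _ (by omega)).2]
        rw [ev_ic, ev_ic]
        unfold ev
        rw [e2]
      have e3 : dd κ (X.del (X.ic w) J) = -X.del (X.ic (X.dc w)) J := by
        rw [ic_dc, map_neg, Pi.neg_apply, neg_neg, del_dc]
        rfl
      rw [Pi.sub_apply, map_sub, Dt_apply, Pi.add_apply, map_add, dc_apply, dd_dd, zero_add, e3, sub_neg_eq_add, ← e1]
      exact h0

/-- The cohomology of `Np (a+1) / Np a` injects into the one of `Ni a / Mi a`. -/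
theorem be_injective (a m : ℕ) (x : X.Ch) (hx : x ∈ ZZ X.Dt (X.Np a) (X.Np (a + 1)) m)
    (hx' : x ∈ BB X.Dt (X.Mi a) (X.Np (a + 1)) m) : x ∈ BB X.Dt (X.Np a) (X.Np (a + 1)) m := by
  obtain ⟨s, hs, y, hy, rfl⟩ := mem_BB.mp hx'
  have hDD : X.Dt (X.Dt y) = 0 := Dt_Dt y
  have h1 : X.Dt s ∈ X.Np a (m + 1) := by
    have h2 : X.Dt (s + X.Dt y) ∈ X.Np a (m + 1) := hx.2
    rwa [map_add, hDD, add_zero] at h2
  obtain ⟨s', hs', y', hy', rfl⟩ := mem_BB.mp (Mi_acyclic a m s hs h1)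
  refine mem_BB.mpr ⟨s', hs', y' + y, add_mem (pr_mono (fun k => Mi_le_Ni a k) m hy') hy, ?_⟩
  rw [map_add, add_assoc]

section rep

variable (p : ℕ) [hp : Fact p.Prime] [CharP κ p]

/-- `z` represents the inverse Cartier image of the component of form degree `a` of the cochain `x` of degree `m`. -/
structure RepC (a m : ℕ) (x z : X.Ch) : Prop where
  x0 : x ∅ = 0
  z0 : z ∅ = 0
  xm : ∀ J : Finset (Fin n), J.card + a = m + 1 → x J ∈ Fd κ (X.R J) a
  zm : ∀ J : Finset (Fin n), J.card + a = m + 1 → z J ∈ Fd κ (X.R J) a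
  rep : ∀ J : Finset (Fin n), J.card + a = m + 1 → Rep p (x J) (z J)
  zz : ∀ J : Finset (Fin n), J.card + a ≠ m + 1 → z J = 0

variable {p}

theorem RepC.exists {a m : ℕ} {x : X.Ch} (x0 : x ∅ = 0)
    (hx : ∀ J : Finset (Fin n), J.card + a = m + 1 → x J ∈ Fd κ (X.R J) a) : ∃ z : X.Ch, RepC p a m x z := by
  classical
  have h : ∀ J : Finset (Fin n), ∃ z : X.E J, (J.card + a = m + 1 → z ∈ Fd κ (X.R J) a ∧ Rep p (x J) z) ∧
      (J.card + a ≠ m + 1 → z = 0) ∧ (J = ∅ → z = 0) := by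
    intro J
    by_cases hJ : J.card + a = m + 1
    · by_cases h0 : J = ∅
      · subst h0
        refine ⟨0, fun _ => ⟨Submodule.zero_mem _, ?_⟩, fun _ => rfl, fun _ => rfl⟩
        rw [x0]
        exact Rep.zero
      · obtain ⟨z, hz, hr⟩ := Rep.exists (p := p) (hx J hJ)
        exact ⟨z, fun _ => ⟨hz, hr⟩, fun h => absurd hJ h, fun h => absurd h h0⟩
    · exact ⟨0, fun h => absurd h hJ, fun _ => rfl, fun _ => rfl⟩
  choose z hz using h
  exact ⟨z, x0, (hz ∅).2.2 rfl, hx, fun J hJ => ((hz J).1 hJ).1, fun J hJ => ((hz J).1 hJ).2, fun J hJ => (hz J).2.1 hJ⟩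

theorem RepC.mem_Tt {a m : ℕ} {x z : X.Ch} (h : RepC p a m x z) : z ∈ X.Tt m := by
  refine ⟨h.z0, fun J => ⟨fun q hq => ?_, fun hJ => h.zz J (by omega)⟩⟩
  by_cases hJ : J.card + a = m + 1
  · have e : q = a := by omega
    rw [e]
    exact h.zm J hJ
  · rw [h.zz J hJ]
    exact Submodule.zero_mem _

theorem RepC.mem_Ni {a m : ℕ} {x z : X.Ch} (h : RepC p a m x z) : z ∈ X.Ni a m :=
  ⟨h.mem_Tt, fun J => ⟨fun hJ => h.zz J (by omega), fun hJ => (h.rep J hJ).closed⟩⟩

theorem RepC.del_rep {a m : ℕ} {x z : X.Ch} (h : RepC p a m x z) (K : Finset (Fin n)) (hK : K.card + a = m + 2) :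
    Rep p (X.del (X.ic x) K) (X.del (X.ic z) K) := by
  rw [del_apply, del_apply]
  refine Rep.sum _ fun j hj => ?_
  have h1 := Finset.card_erase_add_one hj
  have h2 : (K.erase j).card + a = m + 1 := by omega
  refine Rep.zsmul _ ?_
  have h3 : K.erase j ⊆ K := Finset.erase_subset _ _
  rw [ev_of h3, ev_of h3, ic_apply, ic_apply]
  exact Rep.map (CC.of_algHom _) (Rep.inv (h.xm _ h2) (h.zm _ h2) (h.rep _ h2))

theorem RepC.Dt_eq {a m : ℕ} {x z : X.Ch} (h : RepC p a m x z) (K : Finset (Fin n)) (hK : K.card + a = m + 2) :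
    X.Dt z K = X.del (X.ic z) K := by
  rw [Dt_apply, Pi.add_apply, dc_apply, h.zz K (by omega), map_zero, zero_add]

theorem RepC.Dt_zero {a m : ℕ} {x z : X.Ch} (h : RepC p a m x z) (K : Finset (Fin n)) (hK : K.card + a ≠ m + 2) :
    X.Dt z K = 0 := by
  have e1 : X.del (X.ic z) K = 0 := by
    rw [del_apply]
    refine Finset.sum_eq_zero fun j hj => ?_
    have h1 := Finset.card_erase_add_one hj
    rw [ev_ic, ev_eq_zero (h.zz _ (by omega)), map_zero, smul_zero]
  rw [Dt_apply, Pi.add_apply, e1, add_zero, dc_apply]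
  by_cases hK' : K.card + a = m + 1
  · exact (h.rep K hK').closed
  · rw [h.zz K hK', map_zero]

theorem Fi_top_comp {a m : ℕ} {x : X.Ch} (hx : x ∈ X.Fi a m) (K : Finset (Fin n)) (hK : K.card + a = m + 2) :
    X.Dt x K = X.del (X.ic x) K := by
  rw [Dt_apply, Pi.add_apply, dc_apply, hx.2 K (by omega), map_zero, zero_add]

theorem RepC.mem_ZZ {a m : ℕ} {x z : X.Ch} (h : RepC p a m x z) (hx : x ∈ ZZ X.Dt (X.Fi (a + 1)) (X.Fi a) m) :
    z ∈ ZZ X.Dt (X.Mi a) (X.Np (a + 1)) m := by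
  refine ⟨h.mem_Ni, Dt_mem h.mem_Tt, fun K => ⟨fun hK => h.Dt_zero K (by omega), fun hK => ?_⟩⟩
  have h1 : X.Dt x K = 0 := hx.2.2 K (by omega)
  rw [Fi_top_comp hx.1 K (by omega)] at h1
  have h2 := h.del_rep K (by omega)
  rw [h1] at h2
  have h3 : X.Dt z K ∈ Fd κ (X.R K) a := ((Dt_mem h.mem_Tt).2 K).1 a (by omega)
  refine mem_exq_of_exact h3 ?_
  rw [h.Dt_eq K (by omega)]
  exact h2.exact

end rep

section span

variable (p : ℕ) [hp : Fact p.Prime] [CharP κ p] {L : Type} [Fintype L] (b : L → κ)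

theorem exact_sum {R : Type v} [CommRing R] [Algebra κ R] {ι : Type*} (s : Finset ι) (f : ι → Fm κ R)
    (h : ∀ i ∈ s, ∃ g, dd κ g = f i) : ∃ g, dd κ g = ∑ i ∈ s, f i := by
  classical
  induction s using Finset.induction_on with
  | empty => exact ⟨0, by rw [map_zero, Finset.sum_empty]⟩
  | insert a s ha ih =>
    obtain ⟨g, hg⟩ := h a (Finset.mem_insert_self a s)
    obtain ⟨g', hg'⟩ := ih fun i hi => h i (Finset.mem_insert_of_mem hi)
    exact ⟨g + g', by rw [map_add, hg, hg', Finset.sum_insert ha]⟩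

theorem exact_smul {R : Type v} [CommRing R] [Algebra κ R] (c : κ) (f : Fm κ R)
    (h : ∃ g, dd κ g = f) : ∃ g, dd κ g = c • f := by
  obtain ⟨g, rfl⟩ := h
  exact ⟨c • g, dd_smul κ c g⟩

theorem exact_sub {R : Type v} [CommRing R] [Algebra κ R] {f f' : Fm κ R}
    (h : ∃ g, dd κ g = f) (h' : ∃ g, dd κ g = f') : ∃ g, dd κ g = f - f' := by
  obtain ⟨g, rfl⟩ := h
  obtain ⟨g', rfl⟩ := h'
  exact ⟨g - g', map_sub _ _ _⟩

theorem exact_ev {c : X.Ch} {K J : Finset (Fin n)} (h : ∃ g, dd κ g = c K) : ∃ g, dd κ g = X.ev c K J := by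
  obtain ⟨g, hg⟩ := h
  unfold ev
  split_ifs with h1
  · exact ⟨X.rs h1 g, by rw [← rs_dd, hg]⟩
  · exact ⟨0, map_zero _⟩

/-- If the components `c (K \ j)` are exact then `(δ (inv c)) K` is exact. -/
theorem exact_del {c : X.Ch} {K : Finset (Fin n)} (h : ∀ j ∈ K, ∃ g, dd κ g = c (K.erase j)) :
    ∃ g, dd κ g = X.del (X.ic c) K := by
  rw [del_apply]
  refine exact_sum _ _ fun j hj => ?_
  obtain ⟨g, hg⟩ := exact_ev (X := X) (J := K) (h j hj)
  refine ⟨sg j K • (-inv κ g), ?_⟩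
  rw [map_zsmul, map_neg, ev_ic, ← hg, inv_dd]

/-- The key step: a cocycle of `Ni a / Mi a` is a combination of the representatives. -/
theorem conj_comb (hc : ∀ J : Finset (Fin n), J.Nonempty → CarP p b (X.R J)) (a m : ℕ) {r : ℕ}
    (x z : Fin r → X.Ch) (hxz : ∀ i, RepC p a m (x i) (z i))
    (hspan : ∀ y ∈ ZZ X.Dt (X.Fi (a + 1)) (X.Fi a) m, ∃ c : Fin r → κ,
      y - ∑ i, c i • x i ∈ BB X.Dt (X.Fi (a + 1)) (X.Fi a) m)
    (w : X.Ch) (hw : w ∈ ZZ X.Dt (X.Mi a) (X.Np (a + 1)) m) :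
    ∃ c : Fin r → κ, w - ∑ i, c i • z i ∈ BB X.Dt (X.Mi a) (X.Np (a + 1)) m := by
  classical
  have hwN : w ∈ X.Ni a m := hw.1
  -- decomposition on the charts
  have h1 : ∀ J : Finset (Fin n), ∃ (x z : L → X.E J), (J.card + a = m + 1 → (∀ l, x l ∈ Fd κ (X.R J) a) ∧
      (∀ l, z l ∈ Fd κ (X.R J) a) ∧ (∀ l, Rep p (x l) (z l)) ∧ w J - ∑ l, b l • z l ∈ exq κ (X.R J) a) ∧
      (J.card + a ≠ m + 1 → z = 0 ∧ x = 0) ∧ (J = ∅ → x = 0 ∧ z = 0) := by
    intro J
    by_cases hJ : J.card + a = m + 1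
    · by_cases h0 : J = ∅
      · subst h0
        refine ⟨0, 0, fun _ => ⟨fun _ => Submodule.zero_mem _, fun _ => Submodule.zero_mem _, fun _ => Rep.zero, ?_⟩,
          fun h => absurd hJ h, fun _ => ⟨rfl, rfl⟩⟩
        rw [hwN.1.1, Finset.sum_eq_zero (fun l _ => by rw [Pi.zero_apply, smul_zero]), sub_zero]
        exact zero_mem _
      · obtain ⟨x, z, h2, h3, h4, h5⟩ := (hc J (Finset.nonempty_iff_ne_empty.mpr h0)).surj a (w J)
          ((hwN.1.2 J).1 a (by omega)) ((hwN.2 J).2 hJ)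
        exact ⟨x, z, fun _ => ⟨h2, h3, h4, h5⟩, fun h => absurd hJ h, fun h => absurd h h0⟩
    · exact ⟨0, 0, fun h => absurd h hJ, fun _ => ⟨rfl, rfl⟩, fun _ => ⟨rfl, rfl⟩⟩
  choose xl zl hl using h1
  have hR : ∀ l, RepC p a m (fun J => xl J l) (fun J => zl J l) := fun l =>
    { x0 := by
        change xl ∅ l = 0
        rw [((hl ∅).2.2 rfl).1, Pi.zero_apply]
      z0 := by
        change zl ∅ l = 0
        rw [((hl ∅).2.2 rfl).2, Pi.zero_apply]
      xm := fun J hJ => ((hl J).1 hJ).1 l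
      zm := fun J hJ => ((hl J).1 hJ).2.1 l
      rep := fun J hJ => ((hl J).1 hJ).2.2.1 l
      zz := fun J hJ => by
        change zl J l = 0
        rw [((hl J).2.1 hJ).1, Pi.zero_apply] }
  set X1 : L → X.Ch := fun l J => xl J l with hX1
  set Z1 : L → X.Ch := fun l J => zl J l with hZ1
  have hX0 : ∀ l (J : Finset (Fin n)), J.card + a ≠ m + 1 → X1 l J = 0 := fun l J hJ => by
    change xl J l = 0
    rw [((hl J).2.1 hJ).2, Pi.zero_apply]
  have hXF : ∀ l, X1 l ∈ X.Fi a m := by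
    intro l
    refine ⟨⟨(hR l).x0, fun J => ⟨fun q hq => ?_, fun hJ => hX0 l J (by omega)⟩⟩, fun J hJ => hX0 l J (by omega)⟩
    by_cases hJ : J.card + a = m + 1
    · have e : q = a := by omega
      rw [e]
      exact (hR l).xm J hJ
    · rw [hX0 l J hJ]
      exact Submodule.zero_mem _
  have hT : ∀ J : Finset (Fin n), J.card + a = m + 1 → w J - ∑ l, b l • Z1 l J ∈ exq κ (X.R J) a := fun J hJ =>
    ((hl J).1 hJ).2.2.2
  -- the components are cocycles
  have hK : ∀ K : Finset (Fin n), K.card + a = m + 2 → ∀ l, X.del (X.ic (X1 l)) K = 0 := by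
    intro K hK
    by_cases h0 : K = ∅
    · subst h0
      intro l
      rw [del_apply, Finset.sum_empty]
    refine (hc K (Finset.nonempty_iff_ne_empty.mpr h0)).inj _ (fun l => X.del (X.ic (Z1 l)) K)
      (fun l => (hR l).del_rep K hK) ?_
    have e1 : ∃ g, dd κ g = X.del (X.ic w) K := by
      have h2 : X.Dt w K ∈ exq κ (X.R K) a := (hw.2.2 K).2 (by omega)
      have h3 : X.Dt w K = dd κ (w K) + X.del (X.ic w) K := by
        rw [Dt_apply, Pi.add_apply, dc_apply]
      obtain ⟨g, hg⟩ := exq_exact h2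
      refine ⟨g - w K, ?_⟩
      rw [map_sub, hg, h3]
      abel
    have e2 : ∃ g, dd κ g = X.del (X.ic (w - ∑ l, b l • Z1 l)) K := by
      refine exact_del fun j hj => ?_
      have h3 := Finset.card_erase_add_one hj
      have h4 := exq_exact (hT (K.erase j) (by omega))
      have e : (w - ∑ l, b l • Z1 l) (K.erase j) = w (K.erase j) - ∑ l, b l • Z1 l (K.erase j) := by
        rw [Pi.sub_apply, Finset.sum_apply]
        rfl
      rw [e]
      exact h4
    have e3 : ∑ l, b l • X.del (X.ic (Z1 l)) K = X.del (X.ic w) K - X.del (X.ic (w - ∑ l, b l • Z1 l)) K := by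
      rw [map_sub, map_sub, Pi.sub_apply, sub_sub_cancel, map_sum, map_sum, Finset.sum_apply]
      refine Finset.sum_congr rfl fun l _ => ?_
      rw [map_smul, map_smul, Pi.smul_apply]
    rw [e3]
    exact exact_sub e1 e2
  have hXZ : ∀ l, X1 l ∈ ZZ X.Dt (X.Fi (a + 1)) (X.Fi a) m := by
    intro l
    refine ⟨hXF l, Dt_mem (hXF l).1, fun K hK1 => ?_⟩
    by_cases h2 : K.card + a = m + 2
    · rw [Fi_top_comp (hXF l) K h2]
      exact hK K h2 l
    · have h3 := (Dt_mem_Fi (hXF l)).2 K (by omega)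
      exact h3
  choose c hc1 using fun l => hspan (X1 l) (hXZ l)
  choose f hf y hy hfy using fun l => mem_BB.mp (hc1 l)
  -- representatives of `y`
  have hy' : ∀ l, ∃ y' ∈ pr (X.Ni a) m, (∀ J : Finset (Fin n), J.card + a = m + 1 →
      Rep p (X.Dt (y l) J) (X.Dt y' J)) ∧ (∀ J : Finset (Fin n), J.card + a ≠ m + 1 → X.Dt y' J = 0) ∧
      X.Dt y' ∈ X.Tt m := by
    intro l
    cases m with
    | zero =>
      have e : y l = 0 := (Submodule.mem_bot κ).mp (hy l)
      refine ⟨0, zero_mem _, fun J _ => ?_, fun J _ => ?_, ?_⟩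
      · rw [e, map_zero]
        exact Rep.zero
      · rw [map_zero]
        rfl
      · rw [map_zero]
        exact zero_mem _
    | succ m =>
      have hyl : y l ∈ X.Fi a m := hy l
      obtain ⟨y', hR'⟩ := RepC.exists (p := p) (a := a) (m := m) (x := y l) hyl.1.1
        (fun J hJ => (hyl.1.2 J).1 a (by omega))
      refine ⟨y', hR'.mem_Ni, fun J hJ => ?_, fun J hJ => hR'.Dt_zero J (by omega), Dt_mem hR'.mem_Tt⟩
      rw [Fi_top_comp hyl J (by omega), hR'.Dt_eq J (by omega)]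
      exact hR'.del_rep J (by omega)
  choose y' hy1 hy2 hy3 hy4 using hy'
  refine ⟨fun i => ∑ l, b l * c l i ^ p, ?_⟩
  rw [mem_BB]
  refine ⟨w - ∑ i, (∑ l, b l * c l i ^ p) • z i - X.Dt (∑ l, b l • y' l), ?_, ∑ l, b l • y' l, ?_, by abel⟩
  · have hm : w - ∑ i, (∑ l, b l * c l i ^ p) • z i - X.Dt (∑ l, b l • y' l) ∈ X.Tt m := by
      refine sub_mem (sub_mem hwN.1 (sum_mem fun i _ => Submodule.smul_mem _ _ (hxz i).mem_Tt)) ?_
      rw [map_sum]
      refine sum_mem fun l _ => ?_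
      rw [map_smul]
      exact Submodule.smul_mem _ _ (hy4 l)
    have eJ : ∀ J : Finset (Fin n), (w - ∑ i, (∑ l, b l * c l i ^ p) • z i - X.Dt (∑ l, b l • y' l)) J =
        w J - ∑ i, (∑ l, b l * c l i ^ p) • z i J - ∑ l, b l • X.Dt (y' l) J := by
      intro J
      rw [Pi.sub_apply, Pi.sub_apply, Finset.sum_apply, map_sum, Finset.sum_apply]
      congr 1
      refine Finset.sum_congr rfl fun l _ => ?_
      rw [map_smul, Pi.smul_apply]
    refine ⟨hm, fun J => ⟨fun hJ => ?_, fun hJ => ?_⟩⟩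
    · rw [eJ, (hwN.2 J).1 hJ, Finset.sum_eq_zero, Finset.sum_eq_zero, sub_zero, sub_zero]
      · intro l _
        rw [hy3 l J (by omega), smul_zero]
      · intro i _
        rw [(hxz i).zz J (by omega), smul_zero]
    · refine mem_exq_of_exact ((hm.2 J).1 a (by omega)) ?_
      rw [eJ]
      have g1 : ∀ l, ∃ g, dd κ g = Z1 l J - ∑ i, c l i ^ p • z i J - X.Dt (y' l) J := by
        intro l
        have h2 : Rep p (X1 l J - ∑ i, c l i • x i J - X.Dt (y l) J) (Z1 l J - ∑ i, c l i ^ p • z i J - X.Dt (y' l) J) :=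
          (((hR l).rep J hJ).sub (Rep.sum _ fun i _ => ((hxz i).rep J hJ).smul (c l i))).sub (hy2 l J hJ)
        have h3 : X1 l J - ∑ i, c l i • x i J - X.Dt (y l) J = 0 := by
          have h4 : (X1 l - ∑ i, c l i • x i) J = (f l + X.Dt (y l)) J := by rw [hfy l]
          rw [Pi.sub_apply, Finset.sum_apply, Pi.add_apply, (hf l).2 J (by omega), zero_add] at h4
          rw [← h4]
          exact sub_self _
        rw [h3] at h2
        exact h2.exact
      have g2 : ∃ g, dd κ g = ∑ l, b l • (Z1 l J - ∑ i, c l i ^ p • z i J - X.Dt (y' l) J) :=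
        exact_sum _ _ fun l _ => exact_smul _ _ (g1 l)
      obtain ⟨g3, hg3⟩ := exq_exact (hT J hJ)
      obtain ⟨g4, hg4⟩ := g2
      refine ⟨g3 + g4, ?_⟩
      rw [map_add, hg3, hg4]
      have e5 : ∑ i, (∑ l, b l * c l i ^ p) • z i J = ∑ l, b l • ∑ i, c l i ^ p • z i J := by
        have e6 : ∀ i, (∑ l, b l * c l i ^ p) • z i J = ∑ l, b l • (c l i ^ p • z i J) := fun i => by
          rw [Finset.sum_smul]
          exact Finset.sum_congr rfl fun l _ => mul_smul _ _ _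
        rw [Finset.sum_congr rfl fun i _ => e6 i, Finset.sum_comm]
        exact Finset.sum_congr rfl fun l _ => (Finset.smul_sum).symm
      rw [e5]
      have e7 : ∑ l, b l • (Z1 l J - ∑ i, c l i ^ p • z i J - X.Dt (y' l) J) =
          ∑ l, b l • Z1 l J - ∑ l, b l • ∑ i, c l i ^ p • z i J - ∑ l, b l • X.Dt (y' l) J := by
        rw [← Finset.sum_sub_distrib, ← Finset.sum_sub_distrib]
        exact Finset.sum_congr rfl fun l _ => by rw [smul_sub, smul_sub]
      rw [e7]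
      abel
  · have h2 : ∀ l, y' l ∈ pr (X.Np (a + 1)) m := by
      intro l
      have h3 := hy1 l
      cases m with
      | zero => exact h3
      | succ m => exact h3
    exact sum_mem fun l _ => Submodule.smul_mem _ _ (h2 l)

/-- The graded pieces of the conjugate filtration are at most as large as those of the Hodge filtration. -/
theorem conj_le (hc : ∀ J : Finset (Fin n), J.Nonempty → CarP p b (X.R J)) (a m : ℕ)
    (hf : FiniteDimensional κ (HH X.Dt (X.Fi (a + 1)) (X.Fi a) m)) :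
    FiniteDimensional κ (HH X.Dt (X.Np a) (X.Np (a + 1)) m) ∧
      finrank κ (HH X.Dt (X.Np a) (X.Np (a + 1)) m) ≤ finrank κ (HH X.Dt (X.Fi (a + 1)) (X.Fi a) m) := by
  classical
  set r := finrank κ (HH X.Dt (X.Fi (a + 1)) (X.Fi a) m) with hr
  let bas : Basis (Fin r) κ (HH X.Dt (X.Fi (a + 1)) (X.Fi a) m) := Module.finBasis κ _
  have h1 : ∀ i, ∃ x : ZZ X.Dt (X.Fi (a + 1)) (X.Fi a) m, Submodule.Quotient.mk x = bas i := fun i =>
    Submodule.Quotient.mk_surjective _ (bas i)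
  choose x hx using h1
  have h2 : ∀ i, ∃ z : X.Ch, RepC p a m (x i : X.Ch) z := fun i =>
    RepC.exists (x i).2.1.1.1 (fun J hJ => ((x i).2.1.1.2 J).1 a (by omega))
  choose z hz using h2
  have hspan : ∀ y ∈ ZZ X.Dt (X.Fi (a + 1)) (X.Fi a) m, ∃ c : Fin r → κ,
      y - ∑ i, c i • (x i : X.Ch) ∈ BB X.Dt (X.Fi (a + 1)) (X.Fi a) m := by
    intro y hy
    let v : HH X.Dt (X.Fi (a + 1)) (X.Fi a) m := Submodule.Quotient.mk (⟨y, hy⟩ : ZZ X.Dt (X.Fi (a + 1)) (X.Fi a) m)
    have h3 : v = ∑ i, bas.repr v i • bas i := (bas.sum_repr v).symm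
    refine ⟨fun i => bas.repr v i, ?_⟩
    have h4 : v = Submodule.Quotient.mk (∑ i, bas.repr v i • x i) := by
      rw [h3]
      have h5 : (Submodule.Quotient.mk (∑ i, bas.repr v i • x i) : HH X.Dt (X.Fi (a + 1)) (X.Fi a) m) =
          ∑ i, bas.repr v i • Submodule.Quotient.mk (x i) := by
        rw [← Submodule.mkQ_apply, map_sum]
        exact Finset.sum_congr rfl fun i _ => by rw [map_smul, Submodule.mkQ_apply]
      rw [← h3, h5]
      conv_lhs => rw [h3]
      exact Finset.sum_congr rfl fun i _ => by rw [hx i]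
    have h6 := (Submodule.Quotient.eq _).mp h4
    have h7 : y - ((∑ i, bas.repr v i • x i : ZZ X.Dt (X.Fi (a + 1)) (X.Fi a) m) : X.Ch) ∈
        BB X.Dt (X.Fi (a + 1)) (X.Fi a) m := h6
    have h8 : ((∑ i, bas.repr v i • x i : ZZ X.Dt (X.Fi (a + 1)) (X.Fi a) m) : X.Ch) =
        ∑ i, bas.repr v i • (x i : X.Ch) := by
      rw [Submodule.coe_sum]
      rfl
    rwa [h8] at h7
  have hzZ : ∀ i, z i ∈ ZZ X.Dt (X.Mi a) (X.Np (a + 1)) m := fun i => (hz i).mem_ZZ (x i).2
  let g : (Fin r → κ) →ₗ[κ] HH X.Dt (X.Mi a) (X.Np (a + 1)) m :=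
    Fintype.linearCombination κ fun i => Submodule.Quotient.mk (⟨z i, hzZ i⟩ : ZZ X.Dt (X.Mi a) (X.Np (a + 1)) m)
  have hg : Function.Surjective g := by
    intro u
    induction u using Submodule.Quotient.induction_on with
    | H w =>
      obtain ⟨c, hcc⟩ := conj_comb p b hc a m (fun i => (x i : X.Ch)) z hz hspan w w.2
      refine ⟨c, ?_⟩
      have h3 : g c = Submodule.Quotient.mk (∑ i, c i • (⟨z i, hzZ i⟩ : ZZ X.Dt (X.Mi a) (X.Np (a + 1)) m)) := by
        have e2 : ((BB X.Dt (X.Mi a) (X.Np (a + 1)) m).submoduleOf (ZZ X.Dt (X.Mi a) (X.Np (a + 1)) m)).mkQ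
            (∑ i, c i • (⟨z i, hzZ i⟩ : ZZ X.Dt (X.Mi a) (X.Np (a + 1)) m)) =
            ∑ i, c i • ((BB X.Dt (X.Mi a) (X.Np (a + 1)) m).submoduleOf (ZZ X.Dt (X.Mi a) (X.Np (a + 1)) m)).mkQ
              (⟨z i, hzZ i⟩ : ZZ X.Dt (X.Mi a) (X.Np (a + 1)) m) := by
          rw [map_sum]
          exact Finset.sum_congr rfl fun i _ => map_smul _ _ _
        exact e2.symm
      rw [h3]
      symm
      rw [Submodule.Quotient.eq]
      change (w : X.Ch) - ((∑ i, c i • (⟨z i, hzZ i⟩ : ZZ X.Dt (X.Mi a) (X.Np (a + 1)) m) :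
        ZZ X.Dt (X.Mi a) (X.Np (a + 1)) m) : X.Ch) ∈ BB X.Dt (X.Mi a) (X.Np (a + 1)) m
      rw [Submodule.coe_sum]
      exact hcc
  have f1 : FiniteDimensional κ (HH X.Dt (X.Mi a) (X.Np (a + 1)) m) := Module.Finite.of_surjective g hg
  have f2 : finrank κ (HH X.Dt (X.Mi a) (X.Np (a + 1)) m) ≤ r := by
    have := LinearMap.finrank_le_finrank_of_surjective (f := g) hg
    rwa [Module.finrank_fin_fun] at this
  have hinj : Function.Injective (be (S0 := X.Np a) (S1 := X.Mi a) (S2 := X.Np (a + 1)) X.Dt (Np_le_Mi a) m) :=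
    sq_injective _ _ (be_injective a m)
  exact ⟨Module.Finite.of_injective _ hinj, (LinearMap.finrank_le_finrank_of_injective hinj).trans f2⟩

end span

end CovD

end MPadcGP
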