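import Pool.Agent.Lib.MP_adc574_ag_GP.Main
import Pool.Agent.Lib.MP_adc574_ag_GP.FinL

/-!
# GP: the assembly
-/

set_option autoImplicit false

namespace MPadcGP

universe u v w x

/-- The final theorem. -/
theorem gp_main {k : Type u} [Field k] [IsAlgClosed k] [CharZero k] (A : Subalgebra ℤ k) (hA : A.FG)
    {n : ℕ} (I : Ideal (MvPolynomial (Fin n) A)) (hI : IsHomog I)
    (hs : IsSmoothProj (bI (algebraMap A k) I))
    (hg : (prC (bI (algebraMap A k) I)).IsGeneral) (b : A) (hb : b ≠ 0) :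
    ∃ p₀ : ℕ, ∀ p : ℕ, p₀ ≤ p → p.Prime → HasOrdinaryPoint I b p := by
  classical
  have ft : ∀ A' : Subalgebra ℤ k, A'.FG → Algebra.FiniteType ℤ A' := fun A' h =>
    (Subalgebra.fg_iff_finiteType A').1 h
  have noe : ∀ A' : Subalgebra ℤ k, A'.FG → IsNoetherianRing A' := fun A' h =>
    have := ft A' h
    Algebra.FiniteType.isNoetherianRing ℤ A'
  have cz : ∀ A' : Subalgebra ℤ k, CharZero A' := fun A' =>
    ⟨fun a b h => by
      have h1 := congrArg (algebraMap A' k) h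
      rw [map_natCast, map_natCast] at h1
      exact Nat.cast_injective h1⟩
  have hnA := noe A hA
  have halg : ∀ {A' A'' : Subalgebra ℤ k} (h : A' ≤ A''),
      (algebraMap A'' k).comp (Subalgebra.inclusion h).toRingHom = algebraMap A' k := fun h => rfl
  obtain ⟨a₁, ha₁, hs₁⟩ := IsSmoothProj.exists_away hI (algebraMap A k) Subtype.val_injective hs
  obtain ⟨A₁, hle₁, hfg₁, hu₁⟩ := exists_inv A hA a₁ ha₁
  set ι₁ : A →+* A₁ := (Subalgebra.inclusion hle₁).toRingHom with hι₁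
  have hsm₁ : IsSmoothProj (bI ι₁ I) := IsSmoothProj.of_away hI hs₁ ι₁ hu₁
  have hI₁ : IsHomog (bI ι₁ I) := hI.map _
  have hnA₁ := noe A₁ hfg₁
  obtain ⟨a₂, ha₂, hdat⟩ := exists_dat hI₁ hsm₁
  obtain ⟨A₂, hle₂, hfg₂, hu₂⟩ := exists_inv A₁ hfg₁ a₂ ha₂
  have hfin : (∀ m, FiniteDimensional k ((prC (bI (algebraMap A₁ k) (bI ι₁ I))).HdR m)) ∧
      ∃ M, ∀ m, M ≤ m → Subsingleton ((prC (bI (algebraMap A₁ k) (bI ι₁ I))).HdR m) := by
    obtain ⟨β, i1, i2, lev, z, h, hD⟩ := hdat k (algebraMap A₁ k)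
      (IsUnit.mk0 _ fun h => ha₂ (Subtype.ext h))
    refine ⟨fun m => hD.self.finite m, ?_⟩
    obtain ⟨M, hM⟩ := hD.bound
    refine ⟨M, fun m hm => ?_⟩
    have := hM m hm
    exact (hD.self.eqv m).symm.toEquiv.subsingleton
  obtain ⟨A₁', hle₁', hfg₁', hlog⟩ := exists_logs A₁ hfg₁ hI₁ hsm₁ hfin.1 hfin.2
  obtain ⟨A₃, hle₃, N, D, hgood⟩ := exists_good' (A₂ ⊔ A₁') (hfg₂.sup hfg₁')
  have h13 : A₁ ≤ A₃ := (hle₂.trans le_sup_left).trans hle₃
  have h1'3 : A₁' ≤ A₃ := le_sup_right.trans hle₃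
  have h23 : A₂ ≤ A₃ := le_sup_left.trans hle₃
  have hlog₃ := hlog A₃ h1'3 h13
  set ι₃ : A₁ →+* A₃ := (Subalgebra.inclusion h13).toRingHom with hι₃
  have hu₃ : IsUnit (ι₃ a₂) := hu₂.map (Subalgebra.inclusion h23)
  have hdat₃ := hdat A₃ ι₃ hu₃
  have hI₃ : IsHomog (bI ι₃ (bI ι₁ I)) := hI₁.map _
  set I₃ := bI ι₃ (bI ι₁ I) with hI₃def
  choose S hSf hSl hSs using hlog₃
  obtain ⟨β, i1, i2, lev, z, h, hD⟩ := hdat₃
  have hsm₃ : IsSmoothProj I₃ := hsm₁.map hI₁ ι₃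
  have V : ∀ l, Lft (prC I₃) (D l) := fun l => (exists_lft hI₃ hsm₃ (D l)).some
  obtain ⟨G, mu, Lg, hR, hSL⟩ := exists_rel hD V S hSl
  have hgen : (prC (bI (algebraMap A₃ k) I₃)).IsGeneral := by
    rw [hI₃def, bI_bI, bI_bI]
    exact hg
  have hGen := gen_of_rel hI₃ hD hgood V hR S hSL hSs hgen
  have hft₃ := ft A₃ hgood.fg
  have hn₃ := noe A₃ hgood.fg
  have hc₃ := cz A₃
  obtain ⟨L, iL, φ, B, hB, hBb⟩ := exists_resFields' A₃
  obtain ⟨t, ht⟩ := hgood.dual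
  obtain ⟨p₀, hp₀⟩ := LinD.key_U (j := algebraMap A₃ k) Subtype.val_injective (mkLin lev D G mu Lg hD.bound)
    hgood.der (by
      intro m c c' hcc b₁ b₂
      have h1 : c = c' := by
        funext l'
        have h2 := hcc (t l')
        have h3 : ∀ l, algebraMap A₃ k (D l (t l')) = if l = l' then 1 else 0 := by
          intro l
          rw [ht]
          split_ifs
          · exact map_one _
          · exact map_zero _
        have h4 : ∀ c : Fin N → k, ∑ l, c l * algebraMap A₃ k (D l (t l')) = c l' := by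
          intro c
          simp only [h3, mul_ite, mul_one, mul_zero, Finset.sum_ite_eq', Finset.mem_univ, if_true]
        rw [← h4 c, ← h4 c']
        exact h2
      rw [h1]) hGen hB
  set ι : A →+* A₃ := ι₃.comp ι₁ with hι
  have hιinj : Function.Injective ι := fun x y hxy => by
    have := congrArg (algebraMap A₃ k) hxy
    exact Subtype.ext this
  set f : A₃ := ι (b * a₁) with hf
  have hf0 : f ≠ 0 := by
    rw [hf]
    intro h0
    have := hιinj (h0.trans (map_zero ι).symm)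
    exact mul_ne_zero hb ha₁ this
  refine ⟨p₀ + B 0 + B f + 1, fun p hp hprime => ?_⟩
  have hfact : Fact p.Prime := ⟨hprime⟩
  have hcp : CharP (L p) p := hB.char p hprime (by omega)
  obtain ⟨Λ, iΛ, bb, hbb⟩ := hBb p hprime (by omega)
  have hdim : DimC (prC (bI (φ p) I₃)) := fun m i =>
    conj_dim hbb (hI₃.map _) (hsm₃.map hI₃ (φ p)) (fun q m => (hD.hodge (L p) (φ p) q m).1)
      (dat_sum hI₃ hsm₃ hD (φ p)) m i
  choose δ hδ using fun l => hB.der p hprime (by omega) (D l)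
  have hopp' := hp₀ p hprime (by omega) δ hδ (fun m i => (hD.ad (L p) (φ p)).con m i)
    (con_conj hI₃ hD V hR (φ p) hdim) (con_stab hI₃ hD V hR (φ p) δ hδ)
  have hopp : IsOppC (prC (bI (φ p) I₃)) := by
    intro m i
    rw [Submodule.eq_bot_iff]
    rintro x ⟨hx1, hx2⟩
    obtain ⟨c, rfl⟩ := ((hD.ad (L p) (φ p)).eqv m).surjective x
    have h2 := (hD.ad (L p) (φ p)).eqv_mem_Fil.1 hx2
    have h3 : c = 0 := hopp' m i c hx1 h2
    rw [h3, map_zero]
  obtain ⟨κ, iκ, hκf, hκc, ψ, -, hψf, hψo⟩ := exists_closed_ker hI₃ hsm₃ hD (φ p) f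
    (hB.ne p hprime (by omega) f hf0 (by omega)) hopp hdim
  have hdimκ : DimC (prC (bI ψ I₃)) := fun m i =>
    conj_dim (p := p) pbas_finite (hI₃.map _) (hsm₃.map hI₃ ψ) (fun q m => (hD.hodge κ ψ q m).1)
      (dat_sum hI₃ hsm₃ hD ψ) m i
  have hbk : (prC (bI ψ I₃)).IsBlochKatoOrdinary :=
    bk_of_opp (p := p) (hI₃.map _) (hsm₃.map hI₃ ψ) (fun q m => (hD.hodge κ ψ q m).1)
      (dat_sum hI₃ hsm₃ hD ψ) (hψo hdimκ)
  -- the closed point
  set 𝔪 : Ideal A := RingHom.ker (ψ.comp ι) with h𝔪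
  let ψ' : A ⧸ 𝔪 →+* κ := RingHom.kerLift (ψ.comp ι)
  have hψ'inj : Function.Injective ψ' := RingHom.kerLift_injective _
  have hψ'mk : ψ'.comp (Ideal.Quotient.mk 𝔪) = ψ.comp ι := by
    ext x
    rfl
  have hfinq : Finite (A ⧸ 𝔪) := Finite.of_injective _ hψ'inj
  have hprime𝔪 : 𝔪.IsPrime := RingHom.ker_isPrime _
  have hmax : 𝔪.IsMaximal := Ideal.Quotient.maximal_of_isField _ (Finite.isField_of_domain _)
  have hba : b * a₁ ∉ 𝔪 := fun h => hψf h
  refine ⟨𝔪, hmax, fun h => hba (Ideal.mul_mem_right _ _ h), ?_, ?_, ?_⟩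
  · change ψ (ι (p : A)) = 0
    rw [map_natCast, map_natCast, CharP.cast_eq_zero]
  · let _ : Field (A ⧸ 𝔪) := Ideal.Quotient.field 𝔪
    refine IsSmoothProj.of_away hI hs₁ (Ideal.Quotient.mk 𝔪) (IsUnit.mk0 _ fun h => ?_)
    exact hba (Ideal.mul_mem_left _ _ (Ideal.Quotient.eq_zero_iff_mem.1 h))
  · refine bk_descent ψ' ?_ (hI.map _) ?_
    · let _ : Field (A ⧸ 𝔪) := Ideal.Quotient.field 𝔪
      let _ : Algebra (A ⧸ 𝔪) κ := ψ'.toAlgebra
      obtain ⟨r, hr⟩ := (Algebra.linearMap (A ⧸ 𝔪) κ).exists_leftInverse_of_injective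
        (LinearMap.ker_eq_bot.2 hψ'inj)
      refine ⟨r.toAddMonoidHom, ?_, fun x y => ?_⟩
      · have h1 := LinearMap.congr_fun hr 1
        rw [LinearMap.comp_apply, Algebra.linearMap_apply, map_one] at h1
        exact h1
      · have h1 : ψ' x * y = x • y := (Algebra.smul_def x y).symm
        change r (ψ' x * y) = x * r y
        rw [h1, map_smul, smul_eq_mul]
    · rw [bI_bI, hψ'mk]
      have h1 : bI ψ I₃ = bI (ψ.comp ι) I := by
        rw [hI₃def, bI_bI, bI_bI, hι, RingHom.comp_assoc]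
      rw [← h1]
      exact hbk

end MPadcGP
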