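import Pool.Agent.Lib.MP_adc574_ag_GP.DRm

/-!
# Deligne-Illusie I (helper59): lifts of the Frobenius modulo `p²`

`FlatLift p π`: `π : S → R` is the reduction modulo `p` of a flat `ℤ/p²`-algebra `S`. `IsFr p π φ`: `φ : S → S` lifts the
Frobenius. `dl φ x = (φ x - x ^ p) / p` modulo `p`. `th φ : R → Ω`, `th t = t ^ (p - 1) dt + d (dl t)`. `hd φ ψ = dl ψ - dl φ`.
-/

set_option autoImplicit false

namespace MPadcGP

universe u v w x

/-- `π` is the reduction modulo `p` of a flat algebra over `ℤ/p²`. -/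
structure FlatLift (p : ℕ) {S : Type v} {R : Type w} [CommRing S] [CommRing R] (π : S →+* R) :
    Prop where
  surj : Function.Surjective π
  sq : (p : S) * p = 0
  ker : ∀ x, π x = 0 ↔ ∃ y, x = (p : S) * y
  flat : ∀ x, (p : S) * x = 0 → π x = 0

/-- `φ` lifts the Frobenius. -/
def IsFr (p : ℕ) {S : Type v} {R : Type w} [CommRing S] [CommRing R] (π : S →+* R) (φ : S →+* S) :
    Prop :=
  ∀ x, π (φ x) = π x ^ p

/-- The polynomial `((x + y) ^ p - x ^ p - y ^ p) / p`. -/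
def wt (p : ℕ) {S : Type v} [CommRing S] (x y : S) : S :=
  ∑ k ∈ Finset.Ioo 0 p, x ^ k * y ^ (p - k) * ((p.choose k / p : ℕ) : S)

theorem add_pow_wt {p : ℕ} (hp : p.Prime) {S : Type v} [CommRing S] (x y : S) :
    (x + y) ^ p = x ^ p + y ^ p + (p : S) * wt p x y := add_pow_prime_eq' hp x y

theorem map_wt {p : ℕ} {S : Type v} {R : Type w} [CommRing S] [CommRing R] (π : S →+* R) (x y : S) :
    π (wt p x y) = wt p (π x) (π y) := by
  unfold wt
  rw [map_sum]
  refine Finset.sum_congr rfl fun k _ => ?_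
  rw [map_mul, map_mul, map_pow, map_pow, map_natCast]

theorem wt_zero {p : ℕ} {R : Type w} [CommRing R] (x : R) : wt p x 0 = 0 := by
  unfold wt
  refine Finset.sum_eq_zero fun k hk => ?_
  rw [Finset.mem_Ioo] at hk
  rw [zero_pow (by omega), mul_zero, zero_mul]

/-- In characteristic `p` the Frobenius is additive. -/
theorem dia_add_pow_of_zero {p : ℕ} (hp : p.Prime) {R : Type w} [CommRing R] (h0 : (p : R) = 0) (x y : R) :
    (x + y) ^ p = x ^ p + y ^ p := by
  rw [add_pow_wt hp, h0, zero_mul, add_zero]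

section forms

variable {A : Type u} {R : Type w} [CommRing A] [CommRing R] [Algebra A R]

theorem df_nat_mul (n : ℕ) (r : R) : df A ((n : R) * r) = (n : Fm A R) * df A r := by
  induction n with
  | zero => rw [Nat.cast_zero, zero_mul, df_zero, Nat.cast_zero, zero_mul]
  | succ n ih => rw [Nat.cast_succ, add_mul, one_mul, df_add, ih, Nat.cast_succ, add_mul, one_mul]

theorem df_neg (r : R) : df A (-r) = -df A r := by
  refine eq_neg_of_add_eq_zero_left ?_
  rw [← df_add, neg_add_cancel, df_zero]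

theorem dia_df_pow (r : R) (k : ℕ) : df A (r ^ k) = (k : Fm A R) * (fz A (r ^ (k - 1)) * df A r) := by
  induction k with
  | zero => rw [pow_zero, df_one, Nat.cast_zero, zero_mul]
  | succ k ih =>
    rw [pow_succ, df_mul, ih, Nat.add_sub_cancel, Nat.cast_succ, add_mul, one_mul]
    rcases k with _ | k
    · rw [Nat.cast_zero, zero_mul, mul_zero, add_zero, zero_add]
    · rw [Nat.add_sub_cancel, pow_succ r k, map_mul]
      rw [add_comm, ← mul_assoc (fz A r), ← (Nat.cast_commute (k + 1) (fz A r)).eq, mul_assoc,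
        ← mul_assoc (fz A r), ← map_mul, ← map_mul, mul_comm r (r ^ k)]

theorem fz_natCast (n : ℕ) : fz A (n : R) = (n : Fm A R) := map_natCast _ n

/-- the binomial identities -/
theorem choose_div_mul {p k : ℕ} (hp : p.Prime) (hk : k ∈ Finset.Ioo 0 p) :
    p.choose k / p * k = (p - 1).choose (k - 1) := by
  rw [Finset.mem_Ioo] at hk
  obtain ⟨c, hc⟩ := hp.dvd_choose_self (by omega) hk.2
  rw [hc, Nat.mul_div_cancel_left _ hp.pos]
  have h1 := Nat.add_one_mul_choose_eq (p - 1) (k - 1)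
  have e1 : p - 1 + 1 = p := by have := hp.pos; omega
  have e2 : k - 1 + 1 = k := by omega
  rw [e1, e2, hc] at h1
  have h2 : p * (p - 1).choose (k - 1) = p * (c * k) := by rw [h1]; ring
  exact (Nat.eq_of_mul_eq_mul_left hp.pos h2).symm

theorem choose_div_mul' {p k : ℕ} (hp : p.Prime) (hk : k ∈ Finset.Ioo 0 p) :
    p.choose k / p * (p - k) = (p - 1).choose k := by
  have hk' := Finset.mem_Ioo.1 hk
  have h1 := choose_div_mul hp (k := p - k) (by rw [Finset.mem_Ioo]; omega)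
  rw [Nat.choose_symm (by omega)] at h1
  rw [h1, ← Nat.choose_symm (by omega)]
  congr 1
  omega

/-- `d` of the polynomial `((x + y) ^ p - x ^ p - y ^ p) / p` -/
theorem df_wt {p : ℕ} (hp : p.Prime) (x y : R) :
    df A (wt p x y) = fz A ((x + y) ^ (p - 1)) * (df A x + df A y) - fz A (x ^ (p - 1)) * df A x -
      fz A (y ^ (p - 1)) * df A y := by
  have hp0 := hp.pos
  have hsum : df A (wt p x y) =
      ∑ k ∈ Finset.Ioo 0 p, (fz A (x ^ (k - 1) * y ^ (p - k) * (((p - 1).choose (k - 1) : ℕ) : R)) * df A x +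
        fz A (x ^ k * y ^ (p - k - 1) * (((p - 1).choose k : ℕ) : R)) * df A y) := by
    have h0 : df A (wt p x y) = ∑ k ∈ Finset.Ioo 0 p,
        df A (x ^ k * y ^ (p - k) * ((p.choose k / p : ℕ) : R)) := by
      unfold wt df
      rw [map_sum, map_sum]
    rw [h0]
    refine Finset.sum_congr rfl fun k hk => ?_
    rw [mul_comm, df_nat_mul, df_mul, dia_df_pow, dia_df_pow, ← choose_div_mul hp hk,
      ← choose_div_mul' hp hk]
    have c1 : ∀ (m : ℕ) (z : Fm A R), (m : Fm A R) * z = fz A (m : R) * z := fun m z => by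
      rw [fz_natCast]
    rw [c1, c1, c1]
    simp only [mul_add, ← mul_assoc, ← map_mul]
    rw [add_comm]
    push_cast
    have e1 : ((p.choose k / p : ℕ) : R) * y ^ (p - k) * (k : R) * x ^ (k - 1) =
        x ^ (k - 1) * y ^ (p - k) * (((p.choose k / p : ℕ) : R) * (k : R)) := by ring
    have e2 : ((p.choose k / p : ℕ) : R) * x ^ k * ((p - k : ℕ) : R) * y ^ (p - k - 1) =
        x ^ k * y ^ (p - k - 1) * (((p.choose k / p : ℕ) : R) * ((p - k : ℕ) : R)) := by ring
    rw [e1, e2]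
  rw [hsum, Finset.sum_add_distrib, ← Finset.sum_mul, ← Finset.sum_mul, ← map_sum, ← map_sum]
  have hx : ∑ k ∈ Finset.Ioo 0 p, x ^ (k - 1) * y ^ (p - k) * (((p - 1).choose (k - 1) : ℕ) : R) =
      (x + y) ^ (p - 1) - x ^ (p - 1) := by
    rw [add_pow, Finset.sum_range_succ]
    have e0 : (p - 1) - (p - 1) = 0 := by omega
    rw [e0, pow_zero, Nat.choose_self, Nat.cast_one, mul_one, mul_one, add_sub_cancel_right]
    refine Finset.sum_bij' (fun k _ => k - 1) (fun k _ => k + 1) ?_ ?_ ?_ ?_ ?_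
    · intro k hk
      rw [Finset.mem_Ioo] at hk
      rw [Finset.mem_range]
      omega
    · intro k hk
      rw [Finset.mem_range] at hk
      rw [Finset.mem_Ioo]
      omega
    · intro k hk
      rw [Finset.mem_Ioo] at hk
      omega
    · intro k hk
      omega
    · intro k hk
      rw [Finset.mem_Ioo] at hk
      have e1 : p - 1 - (k - 1) = p - k := by omega
      rw [e1]
  have hy : ∑ k ∈ Finset.Ioo 0 p, x ^ k * y ^ (p - k - 1) * (((p - 1).choose k : ℕ) : R) =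
      (x + y) ^ (p - 1) - y ^ (p - 1) := by
    rw [add_pow, Finset.sum_range_succ']
    rw [pow_zero, Nat.choose_zero_right, Nat.cast_one, mul_one, one_mul, Nat.sub_zero,
      add_sub_cancel_right]
    refine Finset.sum_bij' (fun k _ => k - 1) (fun k _ => k + 1) ?_ ?_ ?_ ?_ ?_
    · intro k hk
      rw [Finset.mem_Ioo] at hk
      rw [Finset.mem_range]
      omega
    · intro k hk
      rw [Finset.mem_range] at hk
      rw [Finset.mem_Ioo]
      omega
    · intro k hk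
      rw [Finset.mem_Ioo] at hk
      omega
    · intro k hk
      omega
    · intro k hk
      rw [Finset.mem_Ioo] at hk
      have e1 : k - 1 + 1 = k := by omega
      have e2 : p - k - 1 = p - 1 - k := by omega
      rw [e1, e2]
  rw [hx, hy, map_sub, map_sub, sub_mul, sub_mul, mul_add]
  abel

theorem natCast_fm_zero {p : ℕ} (h0 : (p : R) = 0) : (p : Fm A R) = 0 := by
  rw [← fz_natCast, h0, map_zero]

theorem df_pow_p {p : ℕ} (h0 : (p : R) = 0) (r : R) : df A (r ^ p) = 0 := by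
  rw [dia_df_pow, natCast_fm_zero h0, zero_mul]

theorem mem_one_iff {e : Fm A R} : e ∈ Fd A R 1 ↔ ∃ w : Ω[R⁄A], e = ExteriorAlgebra.ι R w := by
  have h1 : Fd A R 1 = LinearMap.range (ExteriorAlgebra.ι R (M := Ω[R⁄A])) := pow_one _
  rw [h1, LinearMap.mem_range]
  exact ⟨fun ⟨w, hw⟩ => ⟨w, hw.symm⟩, fun ⟨w, hw⟩ => ⟨w, hw.symm⟩⟩

theorem swap_one {e f : Fm A R} (he : e ∈ Fd A R 1) (hf : f ∈ Fd A R 1) : e * f = -(f * e) := by
  obtain ⟨v, rfl⟩ := mem_one_iff.1 he
  obtain ⟨w, rfl⟩ := mem_one_iff.1 hf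
  exact io_swap v w

theorem sq_one {e : Fm A R} (he : e ∈ Fd A R 1) : e * e = 0 := by
  obtain ⟨v, rfl⟩ := mem_one_iff.1 he
  exact ExteriorAlgebra.ι_sq_zero v

end forms

section lift

variable {p : ℕ} {S : Type v} {R : Type w} [CommRing S] [CommRing R] {π : S →+* R}
  {φ ψ : S →+* S}

theorem FlatLift.p_zero (h : FlatLift p π) : (p : R) = 0 := by
  have h1 := (h.ker (p : S)).2 ⟨1, (mul_one _).symm⟩
  rwa [map_natCast] at h1

theorem FlatLift.pp (h : FlatLift p π) {x y : S} (hxy : π x = π y) : (p : S) * x = (p : S) * y := by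
  have h1 : π (x - y) = 0 := by rw [map_sub, hxy, sub_self]
  obtain ⟨z, hz⟩ := (h.ker _).1 h1
  have h2 : (p : S) * (x - y) = 0 := by rw [hz, ← mul_assoc, h.sq, zero_mul]
  rw [mul_sub] at h2
  exact sub_eq_zero.1 h2

theorem FlatLift.pp' (h : FlatLift p π) {x y : S} (hxy : (p : S) * x = (p : S) * y) : π x = π y := by
  have h1 : (p : S) * (x - y) = 0 := by rw [mul_sub, hxy, sub_self]
  have h2 := h.flat _ h1
  rw [map_sub] at h2
  exact sub_eq_zero.1 h2

open Classical in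
/-- The `p`-derivation `(φ x - x ^ p) / p` modulo `p`. -/
noncomputable def dl (p : ℕ) (π : S →+* R) (φ : S →+* S) (x : S) : R :=
  if h : ∃ u, φ x = x ^ p + (p : S) * u then π h.choose else 0

theorem dl_eq (h : FlatLift p π) {x u : S} (hu : φ x = x ^ p + (p : S) * u) :
    dl p π φ x = π u := by
  have h1 : ∃ u, φ x = x ^ p + (p : S) * u := ⟨u, hu⟩
  unfold dl
  rw [dif_pos h1]
  refine h.pp' ?_
  have h2 := hu.symm.trans h1.choose_spec
  exact (add_left_cancel h2).symm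

theorem exists_dl (h : FlatLift p π) (hφ : IsFr p π φ) (x : S) :
    ∃ u, φ x = x ^ p + (p : S) * u ∧ dl p π φ x = π u := by
  have h1 : π (φ x - x ^ p) = 0 := by rw [map_sub, hφ, map_pow, sub_self]
  obtain ⟨u, hu⟩ := (h.ker _).1 h1
  have h2 : φ x = x ^ p + (p : S) * u := by rw [← hu]; ring
  exact ⟨u, h2, dl_eq h h2⟩

theorem dl_add (hp : p.Prime) (h : FlatLift p π) (hφ : IsFr p π φ) (x y : S) :
    dl p π φ (x + y) = dl p π φ x + dl p π φ y - wt p (π x) (π y) := by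
  obtain ⟨u, hu, hu'⟩ := exists_dl h hφ x
  obtain ⟨v, hv, hv'⟩ := exists_dl h hφ y
  rw [hu', hv', ← map_wt, ← map_add, ← map_sub]
  refine dl_eq h ?_
  rw [map_add, hu, hv, add_pow_wt hp]
  ring

theorem dl_mul (h : FlatLift p π) (hφ : IsFr p π φ) (x y : S) :
    dl p π φ (x * y) = π x ^ p * dl p π φ y + π y ^ p * dl p π φ x := by
  obtain ⟨u, hu, hu'⟩ := exists_dl h hφ x
  obtain ⟨v, hv, hv'⟩ := exists_dl h hφ y
  rw [hu', hv', ← map_pow, ← map_pow, ← map_mul, ← map_mul, ← map_add]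
  refine dl_eq h ?_
  rw [map_mul, hu, hv]
  linear_combination (u * v) * h.sq

theorem dl_one (h : FlatLift p π) : dl p π φ 1 = 0 := by
  rw [← map_zero π]
  refine dl_eq h ?_
  rw [map_one, one_pow, mul_zero, add_zero]

theorem dl_p_mul (hp : p.Prime) (h : FlatLift p π) (hφ : IsFr p π φ) (z : S) :
    dl p π φ ((p : S) * z) = π z ^ p := by
  obtain ⟨u, hu, hu'⟩ := exists_dl h hφ z
  rw [← map_pow]
  refine dl_eq h ?_
  have h1 : ((p : S) * z) ^ p = 0 := by
    obtain ⟨k, hk⟩ : ∃ k, p = k + 2 := ⟨p - 2, by have := hp.two_le; omega⟩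
    have h2 : ((p : S) * z) ^ p = ((p : S) * z) ^ (k + 2) := by rw [← hk]
    rw [h2, mul_pow, pow_add, pow_two (p : S), h.sq, mul_zero, zero_mul]
  rw [map_mul, map_natCast, hu, h1]
  linear_combination u * h.sq

theorem dl_add_p (hp : p.Prime) (h : FlatLift p π) (hφ : IsFr p π φ) (x z : S) :
    dl p π φ (x + (p : S) * z) = dl p π φ x + π z ^ p := by
  have h1 : π ((p : S) * z) = 0 := (h.ker _).2 ⟨z, rfl⟩
  rw [dl_add hp h hφ, dl_p_mul hp h hφ, h1, wt_zero, sub_zero]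

end lift

section theta

variable (A : Type u) {p : ℕ} {S : Type v} {R : Type w} [CommRing A] [CommRing S] [CommRing R]
  [Algebra A R] {π : S →+* R} {φ ψ χ : S →+* S}

/-- `t ^ (p - 1) dt + d (dl t)` for a lift of `t`. -/
noncomputable def th0 (p : ℕ) (π : S →+* R) (φ : S →+* S) (x : S) : Fm A R :=
  fz A (π x ^ (p - 1)) * df A (π x) + df A (dl p π φ x)

theorem th0_congr (hp : p.Prime) (h : FlatLift p π) (hφ : IsFr p π φ) {x y : S} (hxy : π x = π y) :
    th0 A p π φ x = th0 A p π φ y := by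
  have h1 : π (x - y) = 0 := by rw [map_sub, hxy, sub_self]
  obtain ⟨z, hz⟩ := (h.ker _).1 h1
  have h2 : x = y + (p : S) * z := by rw [← hz]; ring
  unfold th0
  rw [hxy, h2, dl_add_p hp h hφ, df_add, df_pow_p h.p_zero, add_zero]

open Classical in
/-- The differential of the Frobenius divided by `p`. -/
noncomputable def th (p : ℕ) (π : S →+* R) (φ : S →+* S) (t : R) : Fm A R :=
  if h : ∃ x, π x = t then th0 A p π φ h.choose else 0

theorem th_eq (hp : p.Prime) (h : FlatLift p π) (hφ : IsFr p π φ) (x : S) :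
    th A p π φ (π x) = th0 A p π φ x := by
  have h1 : ∃ y, π y = π x := ⟨x, rfl⟩
  unfold th
  rw [dif_pos h1]
  exact th0_congr A hp h hφ h1.choose_spec

theorem th_add (hp : p.Prime) (h : FlatLift p π) (hφ : IsFr p π φ) (s t : R) :
    th A p π φ (s + t) = th A p π φ s + th A p π φ t := by
  obtain ⟨x, rfl⟩ := h.surj s
  obtain ⟨y, rfl⟩ := h.surj t
  rw [← map_add, th_eq A hp h hφ, th_eq A hp h hφ, th_eq A hp h hφ]
  unfold th0
  rw [dl_add hp h hφ, sub_eq_add_neg, df_add, df_add, df_neg, df_wt hp, map_add, df_add]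
  abel

theorem th_mul (hp : p.Prime) (h : FlatLift p π) (hφ : IsFr p π φ) (s t : R) :
    th A p π φ (s * t) = fz A (s ^ p) * th A p π φ t + fz A (t ^ p) * th A p π φ s := by
  obtain ⟨x, rfl⟩ := h.surj s
  obtain ⟨y, rfl⟩ := h.surj t
  rw [← map_mul, th_eq A hp h hφ, th_eq A hp h hφ, th_eq A hp h hφ]
  unfold th0
  have hp1 : ∀ a : R, a ^ p = a ^ (p - 1) * a := fun a => by
    rw [← pow_succ]
    congr 1
    have := hp.pos
    omega
  rw [dl_mul h hφ, df_add, df_mul (π x ^ p), df_mul (π y ^ p), df_pow_p h.p_zero,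
    df_pow_p h.p_zero, mul_zero, mul_zero, add_zero, add_zero, map_mul, df_mul, mul_pow,
    mul_add, mul_add, mul_add]
  have e1 : fz A (π x ^ (p - 1) * π y ^ (p - 1)) * (fz A (π x) * df A (π y)) =
      fz A (π x ^ p) * (fz A (π y ^ (p - 1)) * df A (π y)) := by
    rw [← mul_assoc, ← mul_assoc, ← map_mul, ← map_mul, hp1 (π x)]
    congr 2
    ring
  have e2 : fz A (π x ^ (p - 1) * π y ^ (p - 1)) * (fz A (π y) * df A (π x)) =
      fz A (π y ^ p) * (fz A (π x ^ (p - 1)) * df A (π x)) := by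
    rw [← mul_assoc, ← mul_assoc, ← map_mul, ← map_mul, hp1 (π y)]
    congr 2
    ring
  rw [e1, e2]
  abel

theorem th_one (hp : p.Prime) (h : FlatLift p π) (hφ : IsFr p π φ) : th A p π φ 1 = 0 := by
  rw [← map_one π, th_eq A hp h hφ]
  unfold th0
  rw [dl_one h, df_zero, add_zero, map_one, df_one, mul_zero]

theorem th_zero (hp : p.Prime) (h : FlatLift p π) (hφ : IsFr p π φ) : th A p π φ 0 = 0 := by
  have h1 := th_add A hp h hφ 0 0
  rw [add_zero] at h1
  exact left_eq_add.1 h1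

theorem th_natCast (hp : p.Prime) (h : FlatLift p π) (hφ : IsFr p π φ) (m : ℕ) :
    th A p π φ (m : R) = 0 := by
  induction m with
  | zero => rw [Nat.cast_zero, th_zero A hp h hφ]
  | succ m ih => rw [Nat.cast_succ, th_add A hp h hφ, ih, th_one A hp h hφ, add_zero]

theorem th_mem (hp : p.Prime) (h : FlatLift p π) (hφ : IsFr p π φ) (t : R) :
    th A p π φ t ∈ Fd A R 1 := by
  obtain ⟨x, rfl⟩ := h.surj t
  rw [th_eq A hp h hφ]
  exact Submodule.add_mem _ (fz_mul_mem _ (df_mem _)) (df_mem _)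

theorem dd_th (hp : p.Prime) (h : FlatLift p π) (hφ : IsFr p π φ) (t : R) :
    dd A (th A p π φ t) = 0 := by
  obtain ⟨x, rfl⟩ := h.surj t
  rw [th_eq A hp h hφ]
  unfold th0
  rw [map_add, dd_df, add_zero, dd_mul, dd_df, mul_zero, add_zero, dd_fz, dia_df_pow, mul_assoc,
    mul_assoc, df_sq, mul_zero, mul_zero]

/-- The difference of two lifts of the Frobenius, divided by `p`. -/
noncomputable def hd (p : ℕ) (π : S →+* R) (φ ψ : S →+* S) (t : R) : R :=
  open Classical in if h : ∃ x, π x = t then dl p π ψ h.choose - dl p π φ h.choose else 0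

omit [Algebra A R] in
theorem hd_eq (hp : p.Prime) (h : FlatLift p π) (hφ : IsFr p π φ) (hψ : IsFr p π ψ) (x : S) :
    hd p π φ ψ (π x) = dl p π ψ x - dl p π φ x := by
  have h1 : ∃ y, π y = π x := ⟨x, rfl⟩
  unfold hd
  rw [dif_pos h1]
  have h2 : π (h1.choose - x) = 0 := by rw [map_sub, h1.choose_spec, sub_self]
  obtain ⟨z, hz⟩ := (h.ker _).1 h2
  have h3 : h1.choose = x + (p : S) * z := by rw [← hz]; ring
  rw [h3, dl_add_p hp h hφ, dl_add_p hp h hψ, add_sub_add_right_eq_sub]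

theorem hd_add (hp : p.Prime) (h : FlatLift p π) (hφ : IsFr p π φ) (hψ : IsFr p π ψ) (s t : R) :
    hd p π φ ψ (s + t) = hd p π φ ψ s + hd p π φ ψ t := by
  obtain ⟨x, rfl⟩ := h.surj s
  obtain ⟨y, rfl⟩ := h.surj t
  rw [← map_add, hd_eq hp h hφ hψ, hd_eq hp h hφ hψ, hd_eq hp h hφ hψ, dl_add hp h hφ,
    dl_add hp h hψ]
  ring

theorem hd_mul (hp : p.Prime) (h : FlatLift p π) (hφ : IsFr p π φ) (hψ : IsFr p π ψ) (s t : R) :
    hd p π φ ψ (s * t) = s ^ p * hd p π φ ψ t + t ^ p * hd p π φ ψ s := by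
  obtain ⟨x, rfl⟩ := h.surj s
  obtain ⟨y, rfl⟩ := h.surj t
  rw [← map_mul, hd_eq hp h hφ hψ, hd_eq hp h hφ hψ, hd_eq hp h hφ hψ, dl_mul h hφ,
    dl_mul h hψ]
  ring

theorem hd_one (hp : p.Prime) (h : FlatLift p π) (hφ : IsFr p π φ) (hψ : IsFr p π ψ) :
    hd p π φ ψ 1 = 0 := by
  rw [← map_one π, hd_eq hp h hφ hψ, dl_one h, dl_one h, sub_self]

theorem hd_zero (hp : p.Prime) (h : FlatLift p π) (hφ : IsFr p π φ) (hψ : IsFr p π ψ) :
    hd p π φ ψ 0 = 0 := by
  have h1 := hd_add hp h hφ hψ 0 0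
  rw [add_zero] at h1
  exact left_eq_add.1 h1

theorem hd_natCast (hp : p.Prime) (h : FlatLift p π) (hφ : IsFr p π φ) (hψ : IsFr p π ψ) (m : ℕ) :
    hd p π φ ψ (m : R) = 0 := by
  induction m with
  | zero => rw [Nat.cast_zero, hd_zero hp h hφ hψ]
  | succ m ih => rw [Nat.cast_succ, hd_add hp h hφ hψ, ih, hd_one hp h hφ hψ, add_zero]

theorem hd_trans (hp : p.Prime) (h : FlatLift p π) (hφ : IsFr p π φ) (hψ : IsFr p π ψ)
    (hχ : IsFr p π χ) (t : R) : hd p π φ ψ t + hd p π ψ χ t = hd p π φ χ t := by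
  obtain ⟨x, rfl⟩ := h.surj t
  rw [hd_eq hp h hφ hψ, hd_eq hp h hψ hχ, hd_eq hp h hφ hχ]
  ring

theorem df_hd (hp : p.Prime) (h : FlatLift p π) (hφ : IsFr p π φ) (hψ : IsFr p π ψ) (t : R) :
    df A (hd p π φ ψ t) = th A p π ψ t - th A p π φ t := by
  obtain ⟨x, rfl⟩ := h.surj t
  rw [hd_eq hp h hφ hψ, th_eq A hp h hφ, th_eq A hp h hψ]
  unfold th0
  rw [sub_eq_add_neg, df_add, df_neg]
  abel

/-- `th` differs from `t ^ (p - 1) dt` by an exact form -/
theorem exists_th (hp : p.Prime) (h : FlatLift p π) (hφ : IsFr p π φ) (t : R) :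
    ∃ u, th A p π φ t = fz A (t ^ (p - 1)) * df A t + df A u := by
  obtain ⟨x, rfl⟩ := h.surj t
  exact ⟨_, th_eq A hp h hφ x⟩

end theta

section natural

variable (A : Type u) {p : ℕ} {S : Type v} {R : Type w} [CommRing A] [CommRing S] [CommRing R]
  [Algebra A R] {π : S →+* R} {φ ψ : S →+* S}
  {S' : Type v} {R' : Type w} [CommRing S'] [CommRing R'] [Algebra A R'] {π' : S' →+* R'}
  {φ' ψ' : S' →+* S'} {τ : S →+* S'} {ρ : R →ₐ[A] R'}

omit [Algebra A R] [Algebra A R'] in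
theorem dl_natural {ρ : R →+* R'} (h : FlatLift p π) (h' : FlatLift p π') (hφ : IsFr p π φ)
    (hτ : ∀ x, π' (τ x) = ρ (π x)) (hc : ∀ x, φ' (τ x) = τ (φ x)) (x : S) :
    dl p π' φ' (τ x) = ρ (dl p π φ x) := by
  obtain ⟨u, hu, hu'⟩ := exists_dl h hφ x
  rw [hu', ← hτ]
  refine dl_eq h' ?_
  rw [hc, hu, map_add, map_pow, map_mul, map_natCast]

theorem hd_natural {ρ : R →+* R'} (hp : p.Prime) (h : FlatLift p π) (h' : FlatLift p π')
    (hφ : IsFr p π φ) (hψ : IsFr p π ψ) (hφ' : IsFr p π' φ') (hψ' : IsFr p π' ψ')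
    (hτ : ∀ x, π' (τ x) = ρ (π x)) (hc : ∀ x, φ' (τ x) = τ (φ x)) (hc' : ∀ x, ψ' (τ x) = τ (ψ x))
    (t : R) : hd p π' φ' ψ' (ρ t) = ρ (hd p π φ ψ t) := by
  obtain ⟨x, rfl⟩ := h.surj t
  rw [← hτ, hd_eq hp h' hφ' hψ', hd_eq hp h hφ hψ, dl_natural h h' hφ hτ hc,
    dl_natural h h' hψ hτ hc', map_sub]

theorem th_natural (hp : p.Prime) (h : FlatLift p π) (h' : FlatLift p π')
    (hφ : IsFr p π φ) (hφ' : IsFr p π' φ')
    (hτ : ∀ x, π' (τ x) = ρ (π x)) (hc : ∀ x, φ' (τ x) = τ (φ x))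
    (hCC : CC A A (ρ : R →+* R')) (t : R) :
    mp (ρ : R →+* R') hCC (th A p π φ t) = th A p π' φ' (ρ t) := by
  obtain ⟨x, rfl⟩ := h.surj t
  rw [← hτ, th_eq A hp h' hφ', th_eq A hp h hφ]
  unfold th0
  rw [dl_natural (ρ := (ρ : R →+* R')) h h' hφ hτ hc, map_add, map_mul, mp_fz, mp_df, mp_df, hτ]
  rw [map_pow]
  rfl

end natural

end MPadcGP
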