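import Pool.Agent.Lib.MP_adc574_ag_GP.Lit

/-!
# The Gauss–Manin connection by absolute forms (Katz–Oda)

If the total differential of a cochain `C` of absolute forms is `∑ da_i ∧ η_i`, then the connection maps the image of
`C` in the relative forms to `∑ D(a_i) η_i` up to a coboundary.
-/

set_option autoImplicit false

namespace MPadcGP

universe u v w x

section rl

variable (A : Type u) [CommRing A] {R : Type v} [CommRing R] [Algebra A R]

theorem cc_int : CC ℤ A (RingHom.id R) := fun a => ⟨a, by rw [RingHom.id_apply, eq_intCast, map_intCast]⟩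

/-- From absolute forms to relative forms. -/
noncomputable def rl : Fm ℤ R →+* Fm A R := mp (RingHom.id R) (cc_int A)

theorem rl_fz (r : R) : rl A (fz ℤ r) = fz A r := mp_fz _ _

theorem rl_df (r : R) : rl A (df ℤ r) = df A r := mp_df _ _

theorem rl_inv (e : Fm ℤ R) : rl A (inv ℤ e) = inv A (rl A e) := mp_inv _ _

theorem rl_dd (e : Fm ℤ R) : rl A (dd ℤ e) = dd A (rl A e) := mp_dd _ _

theorem pc_int (δ : Derivation ℤ R R) : PC ℤ δ := fun a => ⟨0, by
  rw [Derivation.map_algebraMap, map_zero]⟩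

theorem rl_ct_dd (δ : Derivation ℤ R R) (hδ : PC A δ) (e : Fm ℤ R) :
    rl A (ct ℤ δ (dd ℤ e)) = LL A δ (rl A e) - dd A (rl A (ct ℤ δ e)) := by
  have h1 : LL ℤ δ e = dd ℤ (ct ℤ δ e) + ct ℤ δ (dd ℤ e) := cartan (A := ℤ) δ e
  have h4 : rl A (LL ℤ δ e) = LL A δ (rl A e) := mp_LL (cc_int A) (pc_int δ) hδ (fun x => rfl) e
  rw [← h4, h1, map_add, rl_dd]
  abel

theorem rl_ct (δ : Derivation ℤ R R) (hδ : ∀ a : A, δ (algebraMap A R a) = 0) (e : Fm ℤ R) :
    rl A (ct ℤ δ e) = cz A δ (rl A e) := by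
  rw [cz_of hδ]
  exact mp_ct (cc_int A) (fun x => rfl) e

theorem ct_sub (δ δ' : Derivation ℤ R R) (e : Fm ℤ R) : ct ℤ (δ - δ') e = ct ℤ δ e - ct ℤ δ' e := by
  have h : ct ℤ δ e = ct ℤ (δ - δ') e + ct ℤ δ' e := by rw [← ct_add, sub_add_cancel]
  rw [h, add_sub_cancel_right]

theorem rl_ct_df_mul (δ : Derivation ℤ R R) (a b : A) (h : δ (algebraMap A R a) = algebraMap A R b) (e : Fm ℤ R) :
    rl A (ct ℤ δ (df ℤ (algebraMap A R a) * e)) = b • rl A e := by
  rw [ct_df_mul, map_sub, map_mul, map_mul, rl_fz, rl_df, df_base, zero_mul, sub_zero, h, smul_fm]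

end rl

section cov

variable {A : Type u} [CommRing A] {n : ℕ}

/-- The cover data over the ring of integers. -/
def absD (X : CovD.{u, v} A n) : CovD.{0, v} ℤ n where
  R := X.R
  cr := X.cr
  ρ {J K} h := RingHom.toIntAlgHom (X.ρ h : X.R J →+* X.R K)
  ρ_id J x := X.ρ_id J x
  ρ_comp h h' x := X.ρ_comp h h' x

/-- From absolute cochains to relative cochains. -/
noncomputable def rlC (X : CovD.{u, v} A n) (C : (absD X).Ch) : X.Ch := fun J => rl A (R := X.R J) (C J)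

variable {X : CovD.{u, v} A n}

theorem rl_rs {J K : Finset (Fin n)} (h : J ⊆ K) (e : (absD X).E J) :
    rl A (R := X.R K) ((absD X).rs h e) = X.rs h (rl A (R := X.R J) e) := by
  have h1 : (rl A (R := X.R K)).comp ((absD X).rs h) = (X.rs h).comp (rl A (R := X.R J)) := by
    refine hom_ext' (fun r => ?_) fun t => ?_
    · change rl A (R := X.R K) ((absD X).rs h (fz ℤ r)) = X.rs h (rl A (R := X.R J) (fz ℤ r))
      rw [CovD.rs_fz, rl_fz, CovD.rs_fz]
      exact rl_fz A _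
    · change rl A (R := X.R K) ((absD X).rs h (df ℤ t)) = X.rs h (rl A (R := X.R J) (df ℤ t))
      rw [CovD.rs_df, rl_df, CovD.rs_df]
      exact rl_df A _
  exact congrArg (fun g : (absD X).E J →+* X.E K => g e) h1

variable {D : Derivation ℤ A A} (V : Lft X D)

/-- The contraction of an absolute cochain with the lifts. -/
noncomputable def hV (C : (absD X).Ch) : X.Ch := fun J => rl A (R := X.R J) (ct ℤ (V.V J J) (C J : Fm ℤ (X.R J)))

theorem hV_rs {J K : Finset (Fin n)} (hK : K.Nonempty) (h : K ⊆ J) (e : (absD X).E K) :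
    rl A (R := X.R J) (ct ℤ (V.V J J) ((absD X).rs h e : Fm ℤ (X.R J))) =
      X.rs h (rl A (R := X.R K) (ct ℤ (V.V K K) (e : Fm ℤ (X.R K)))) -
        cz A (V.V K J - V.V J J) (X.rs h (rl A (R := X.R K) e)) := by
  have hJ : J.Nonempty := hK.mono h
  have h1 : ct ℤ (V.V J J) ((absD X).rs h e : Fm ℤ (X.R J)) =
      ct ℤ (V.V K J) ((absD X).rs h e : Fm ℤ (X.R J)) -
        ct ℤ (V.V K J - V.V J J) ((absD X).rs h e : Fm ℤ (X.R J)) := by
    rw [ct_sub, sub_sub_cancel]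
  have h2 : ct ℤ (V.V K J) ((absD X).rs h e : Fm ℤ (X.R J)) =
      (absD X).rs h (ct ℤ (V.V K K) (e : Fm ℤ (X.R K))) := by
    refine (mp_ct _ (fun x => ?_) e).symm
    exact V.comm K K J hK (Finset.Subset.refl K) h x
  rw [h1, map_sub, h2, rl_ct, rl_rs, rl_rs]
  intro a
  rw [Derivation.sub_apply, V.base K J hK h, V.base J J hJ (Finset.Subset.refl J), sub_self]

/-- The contraction with a lift followed by the map to relative forms. -/
noncomputable def kt (J : Finset (Fin n)) : (absD X).E J →+ X.E J :=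
  ((rl A (R := X.R J)).toAddMonoidHom.comp (ct ℤ (V.V J J)).toAddMonoidHom : Fm ℤ (X.R J) →+ Fm A (X.R J))

theorem kt_apply (J : Finset (Fin n)) (e : (absD X).E J) :
    kt V J e = rl A (R := X.R J) (ct ℤ (V.V J J) (e : Fm ℤ (X.R J))) := rfl

/-- The term of the Čech differential. -/
theorem hV_ev {C : (absD X).Ch} (h0 : C ∅ = 0) {K J : Finset (Fin n)} (h : K ⊆ J) :
    rl A (R := X.R J) (ct ℤ (V.V J J) ((absD X).ev ((absD X).ic C) K J : Fm ℤ (X.R J))) =
      -X.ev (X.ic (hV V C)) K J - cz A (V.V K J - V.V J J) (X.ev (X.ic (rlC X C)) K J) := by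
  rcases K.eq_empty_or_nonempty with hK | hK
  · subst hK
    have h1 : (absD X).ic C ∅ = 0 := by rw [CovD.ic_apply, h0, map_zero]
    have h2 : X.ic (hV V C) ∅ = 0 := by
      rw [CovD.ic_apply]
      have h3 : hV V C ∅ = 0 := by
        change rl A (R := X.R ∅) (ct ℤ (V.V ∅ ∅) (C ∅ : Fm ℤ (X.R ∅))) = 0
        rw [h0]
        exact (congrArg (rl A (R := X.R ∅)) (map_zero _)).trans (map_zero _)
      rw [h3, map_zero]
    have h3 : X.ic (rlC X C) ∅ = 0 := by
      rw [CovD.ic_apply]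
      have h4 : rlC X C ∅ = 0 := by
        change rl A (R := X.R ∅) (C ∅) = 0
        rw [h0]
        exact map_zero _
      rw [h4, map_zero]
    rw [CovD.ev_eq_zero h1, CovD.ev_eq_zero h2, CovD.ev_eq_zero h3, map_zero, neg_zero, sub_zero]
    exact (congrArg (rl A (R := X.R J)) (map_zero _)).trans (map_zero _)
  · have h1 : X.ic (hV V C) K = -rl A (R := X.R K) (ct ℤ (V.V K K) ((absD X).ic C K : Fm ℤ (X.R K))) := by
      rw [CovD.ic_apply, CovD.ic_apply]
      have h2 : ct ℤ (V.V K K) (inv ℤ (C K) : Fm ℤ (X.R K)) = -inv ℤ (ct ℤ (V.V K K) (C K : Fm ℤ (X.R K))) :=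
        ct_inv _ _ _
      have h3 : rl A (R := X.R K) (ct ℤ (V.V K K) (inv ℤ (C K) : Fm ℤ (X.R K))) =
          -inv A (rl A (R := X.R K) (ct ℤ (V.V K K) (C K : Fm ℤ (X.R K)))) := by
        rw [h2, map_neg, rl_inv]
      exact (neg_eq_iff_eq_neg.2 h3).symm
    have h2 : X.ic (rlC X C) K = rl A (R := X.R K) ((absD X).ic C K) := by
      rw [CovD.ic_apply, CovD.ic_apply]
      exact (rl_inv A _).symm
    rw [CovD.ev_of h, CovD.ev_of h, CovD.ev_of h, h1, h2, map_neg, neg_neg]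
    exact hV_rs V hK h _

/-- The main formula. -/
theorem hV_Dt {C : (absD X).Ch} (h0 : C ∅ = 0) :
    hV V ((absD X).Dt C) = V.Gm (rlC X C) - X.Dt (hV V C) := by
  funext J
  have hR : (V.Gm (rlC X C) - X.Dt (hV V C)) J = LL A (V.V J J) (rl A (R := X.R J) (C J)) -
      (∑ j ∈ J, sg j J • cz A (V.V (J.erase j) J - V.V J J) (X.ev (X.ic (rlC X C)) (J.erase j) J)) -
      (dd A (hV V C J) + ∑ j ∈ J, sg j J • X.ev (X.ic (hV V C)) (J.erase j) J) := rfl
  have hL : hV V ((absD X).Dt C) J = kt V J (dd ℤ (C J) +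
      ∑ j ∈ J, sg j J • (absD X).ev ((absD X).ic C) (J.erase j) J) := rfl
  rw [hL, hR, map_add, map_sum]
  have h1 : ∀ j ∈ J, kt V J (sg j J • (absD X).ev ((absD X).ic C) (J.erase j) J) =
      sg j J • (-X.ev (X.ic (hV V C)) (J.erase j) J -
        cz A (V.V (J.erase j) J - V.V J J) (X.ev (X.ic (rlC X C)) (J.erase j) J)) := by
    intro j _
    rw [map_zsmul]
    exact congrArg (fun z => sg j J • z) (hV_ev V h0 (Finset.erase_subset j J))
  rw [Finset.sum_congr rfl h1]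
  have h2 : ∑ j ∈ J, sg j J • (-X.ev (X.ic (hV V C)) (J.erase j) J -
        cz A (V.V (J.erase j) J - V.V J J) (X.ev (X.ic (rlC X C)) (J.erase j) J)) =
      -(∑ j ∈ J, sg j J • X.ev (X.ic (hV V C)) (J.erase j) J) -
      ∑ j ∈ J, sg j J • cz A (V.V (J.erase j) J - V.V J J) (X.ev (X.ic (rlC X C)) (J.erase j) J) := by
    rw [← Finset.sum_neg_distrib, ← Finset.sum_sub_distrib]
    exact Finset.sum_congr rfl fun j _ => by rw [smul_sub, smul_neg]
  rw [h2]
  have h3 : kt V J (dd ℤ (C J)) =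
      LL A (V.V J J) (rl A (R := X.R J) (C J)) - dd A (hV V C J) := by
    rcases J.eq_empty_or_nonempty with hJ | hJ
    · subst hJ
      have e1 : hV V C ∅ = 0 := by
        change rl A (R := X.R ∅) (ct ℤ (V.V ∅ ∅) (C ∅ : Fm ℤ (X.R ∅))) = 0
        rw [h0]
        exact (congrArg (rl A (R := X.R ∅)) (map_zero _)).trans (map_zero _)
      rw [e1, h0]
      have e2 : dd ℤ (0 : (absD X).E ∅) = 0 := map_zero _
      rw [e2]
      have e3 : rl A (R := X.R ∅) (0 : (absD X).E ∅) = 0 := map_zero _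
      rw [e3, map_zero, map_zero, map_zero, sub_zero]
    · exact rl_ct_dd A (V.V J J) (V.pc hJ (Finset.Subset.refl J)) _
  rw [h3]
  abel

theorem kt_df_mul {J : Finset (Fin n)} (hJ : J.Nonempty) (a : A) (e : (absD X).E J) :
    kt V J ((df ℤ (algebraMap A (X.R J) a) : (absD X).E J) * e) = D a • rl A (R := X.R J) e :=
  rl_ct_df_mul A (V.V J J) a (D a) (V.base J J hJ (Finset.Subset.refl J) a) e

theorem hV_eta {C : (absD X).Ch} {r : ℕ} (a : Fin r → A) (η : Fin r → (absD X).Ch) (hη : ∀ i, η i ∅ = 0)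
    (hd : ∀ J, (absD X).Dt C J = ∑ i, (df ℤ (algebraMap A (X.R J) (a i)) : (absD X).E J) * η i J) :
    hV V ((absD X).Dt C) = ∑ i, D (a i) • rlC X (η i) := by
  funext J
  have h1 : hV V ((absD X).Dt C) J = kt V J ((absD X).Dt C J) := rfl
  have h2 : (∑ i, D (a i) • rlC X (η i)) J = ∑ i, D (a i) • rl A (R := X.R J) (η i J) := by
    rw [Finset.sum_apply]
    rfl
  rw [h1, h2, hd, map_sum]
  refine Finset.sum_congr rfl fun i _ => ?_
  rcases J.eq_empty_or_nonempty with hJ | hJ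
  · subst hJ
    rw [hη, mul_zero, map_zero]
    have h3 : rl A (R := X.R ∅) (0 : (absD X).E ∅) = 0 := map_zero _
    rw [h3, smul_zero]
  · exact kt_df_mul V hJ (a i) (η i J)

theorem rlC_mem {m : ℕ} {C : (absD X).Ch} (hC : C ∈ (absD X).Tt m) : rlC X C ∈ X.Tt m := by
  refine ⟨?_, fun J => ⟨fun q hq => ?_, fun h => ?_⟩⟩
  · change rl A (R := X.R ∅) (C ∅) = 0
    rw [hC.1]
    exact map_zero _
  · exact mp_mem (cc_int A) ((hC.2 J).1 q hq)
  · change rl A (R := X.R J) (C J) = 0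
    rw [(hC.2 J).2 h]
    exact map_zero _

theorem kt_mem {J : Finset (Fin n)} {q : ℕ} {e : (absD X).E J} (he : e ∈ Fd ℤ ((absD X).R J) (q + 1)) :
    kt V J e ∈ Fd A (X.R J) q :=
  mp_mem (cc_int A) (ct_mem (V.V J J) (e := (e : Fm ℤ (X.R J))) he)

theorem kt_mem_zero {J : Finset (Fin n)} {e : (absD X).E J} (he : e ∈ Fd ℤ ((absD X).R J) 0) :
    kt V J e = 0 :=
  (congrArg (rl A (R := X.R J)) (ct_mem_zero (V.V J J) (e := (e : Fm ℤ (X.R J))) he)).trans (map_zero _)

theorem hV_mem {m : ℕ} {C : (absD X).Ch} (hC : C ∈ (absD X).Tt (m + 1)) : hV V C ∈ X.Tt m := by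
  have h1 : ∀ J, hV V C J = kt V J (C J) := fun J => rfl
  refine ⟨by rw [h1, hC.1, map_zero], fun J => ⟨fun q hq => ?_, fun h => ?_⟩⟩
  · rw [h1]
    exact kt_mem V ((hC.2 J).1 (q + 1) (by omega))
  · rw [h1]
    rcases Nat.lt_or_ge (m + 1 + 1) J.card with h2 | h2
    · rw [(hC.2 J).2 h2, map_zero]
    · exact kt_mem_zero V ((hC.2 J).1 0 (by omega))

theorem hV_zero {C : (absD X).Ch} (hC : C ∈ (absD X).Tt 0) : hV V C = 0 := by
  funext J
  have h1 : hV V C J = kt V J (C J) := rfl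
  rw [h1]
  rcases Nat.lt_or_ge 1 J.card with h2 | h2
  · rw [(hC.2 J).2 h2, map_zero]
    rfl
  · rcases J.eq_empty_or_nonempty with hJ | hJ
    · subst hJ
      rw [hC.1, map_zero]
      rfl
    · have h3 := Finset.card_pos.2 hJ
      exact kt_mem_zero V ((hC.2 J).1 0 (by omega))

include V in
/-- The Katz–Oda relation implies the relation of the connection given by lifts. -/
theorem gaussManin_of_abs {m r : ℕ} {C : (absD X).Ch} (a : Fin r → A) (η : Fin r → (absD X).Ch)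
    (hC : C ∈ (absD X).Tt m) (hη : ∀ i, η i ∈ (absD X).Tt m)
    (hd : ∀ J, (absD X).Dt C J = ∑ i, (df ℤ (algebraMap A (X.R J) (a i)) : (absD X).E J) * η i J)
    (c c' : ↥(X.Zc m)) (hc : (c : X.Ch) = rlC X C) (hc' : (c' : X.Ch) = ∑ i, D (a i) • rlC X (η i)) :
    X.gaussManin m D (X.cl m c) (X.cl m c') := by
  have h1 := hV_Dt V hC.1
  have h2 := hV_eta V a η (fun i => (hη i).1) hd
  have h3 : V.Gm (c : X.Ch) = c' + X.Dt (hV V C) := by
    rw [hc, hc', ← h2, h1]
    abel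
  have h4 : V.Gm (c : X.Ch) ∈ X.Zc m := by
    refine ⟨V.Gm_mem c.2.1, ?_⟩
    have h5 : X.Dt (c : X.Ch) = 0 := c.2.2
    change X.Dt (V.Gm (c : X.Ch)) = 0
    rw [← V.Gm_Dt c.2.1.1, h5]
    have h6 := V.Gm_add 0 0
    rw [add_zero] at h6
    exact left_eq_add.1 h6
  refine ⟨V, c, ⟨V.Gm (c : X.Ch), h4⟩, rfl, rfl, ?_⟩
  have h5 : (V.Gm (c : X.Ch)) - c' ∈ X.Bc m := by
    rw [h3, add_sub_cancel_left]
    cases m with
    | zero =>
      rw [hV_zero V hC, map_zero]
      exact Submodule.zero_mem _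
    | succ m => exact ⟨hV V C, hV_mem V hC, rfl⟩
  have h6 : X.cl m ⟨V.Gm (c : X.Ch), h4⟩ - X.cl m c' = 0 := by
    rw [← map_sub]
    exact (Submodule.Quotient.mk_eq_zero _).2 h5
  exact sub_eq_zero.1 h6

end cov

end MPadcGP
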