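import Pool.Agent.Lib.MP_adc574_ag_GP.BrC
import Pool.Agent.Lib.MP_adc574_ag_GP.KO

/-!
# The bridge to the internal definitions IV: the connection
-/

set_option autoImplicit false

namespace OrdRed

open MPadcGP

universe u v w x

section cov

variable {A : Type u} [CommRing A] {n : ℕ} {X : CovD.{u, v} A n}

theorem abs_eq : (cov X).abs = cov (absD X) := rfl

theorem rel_eq (C : (absD X).Ch) : (cov X).rel C = rlC X C :=
  funext fun J => pull_eq (RingHom.id (X.R J)) (cc_int A) (C J)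

theorem nabla_imp {m : ℕ} {D : Derivation ℤ A A} (V : Lft X D) {x y : X.HdR m}
    (h : (cov X).nabla m D (cmp X m x) (cmp X m y)) : X.gaussManin m D x y := by
  obtain ⟨C, r, a, η, h1, h2, h3, h4, h5⟩ := h
  obtain ⟨c, hc, rfl⟩ := hasClass_iff.1 h3
  obtain ⟨c', hc', rfl⟩ := hasClass_iff.1 h5
  refine gaussManin_of_abs V a η (deg_iff.1 h1) (fun i => deg_iff.1 (h2 i)) (fun J => ?_) c c' (hc.trans (rel_eq C))
    (hc'.trans ?_)
  · exact (congrFun (tot_eq (X := absD X) C) J).symm.trans (h4 J)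
  · exact Finset.sum_congr rfl fun i _ => congrArg (fun z : X.Ch => D (a i) • z) (rel_eq (η i))

theorem ordinary_of (h : X.IsBlochKatoOrdinary) : (cov X).Ordinary := by
  intro q j c h0 hc hd
  obtain ⟨b, hb, hb0, hbc⟩ := h q j c ⟨h0, fun J => ⟨exact_iff.1 (hc J).1, (hc J).2⟩⟩ ((cech_eq c).symm.trans hd)
  exact ⟨b, hb0, fun J => ⟨exact_iff.2 (hb J).1, (hb J).2⟩, (cech_eq b).trans hbc⟩

end cov

end OrdRed
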