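import Pool.Agent.Lib.MP_adc574_ag_GP.Bridge
import Pool.Agent.Lib.MP_adc574_ag_GP.BrD

/-!
# The bridge to the internal definitions: ordinary
-/

set_option autoImplicit false

namespace OrdRed

open MPadcGP MvPolynomial

universe u v w x

theorem ordinary_to {A : Type u} [CommRing A] {n : ℕ} {X : CovD.{u, v} A n} (h : (cov X).Ordinary) :
    X.IsBlochKatoOrdinary := by
  rintro q j c ⟨h0, hc⟩ hd
  obtain ⟨b, hb0, hb, hbc⟩ := h q j c h0 (fun J => ⟨exact_iff.2 (hc J).1, (hc J).2⟩) ((cech_eq c).trans hd)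
  exact ⟨b, fun J => ⟨exact_iff.1 (hb J).1, (hb J).2⟩, hb0, (cech_eq b).symm.trans hbc⟩

theorem ordinary_proj_iff {A : Type u} [CommRing A] {n : ℕ} (I : Ideal (MvPolynomial (Fin n) A)) :
    (proj I).Ordinary ↔ (prC I).IsBlochKatoOrdinary := by
  rw [proj_eq]
  exact ⟨ordinary_to, ordinary_of⟩

end OrdRed
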