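import Pool.Agent.Lib.MP_adc574_ag_GP.Ad

/-!
# Descent of cochains to finitely generated rings of constants, part A

* `prM`, `prT`, `prS`: the morphisms of the cover data of a projective scheme given by a change of the constants.
* `exists_descent_Tt`: a cochain over the field `K` comes from all sufficiently large rings of constants.
* `exists_finite_point`: a finitely generated domain of characteristic `p` has finite residue fields.
-/

set_option autoImplicit false

namespace MPadcGP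

open MvPolynomial

universe u v w x

section prH

variable {A : Type u} [CommRing A] {B : Type v} [CommRing B] {C : Type w} [CommRing C] {n : ℕ}

/-- The morphism of the cover data given by the homomorphism `ψ` of the constants. -/
noncomputable def prM (ψ : A →+* B) {I : Ideal (MvPolynomial (Fin n) A)}
    {I' : Ideal (MvPolynomial (Fin n) B)} (h : ∀ f ∈ I, MvPolynomial.map ψ f ∈ I') :
    CovD.Hm ψ (prC I) (prC I') where
  h J := cmap ψ h (Finset.Subset.refl J)
  base J a := cmap_base ψ h (Finset.Subset.refl J) a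
  comm := by
    intro J K hJ r
    change cmap ψ h (Finset.Subset.refl K) (tr I hJ r) = tr I' hJ (cmap ψ h (Finset.Subset.refl J) r)
    induction r using chart_ind with
    | h1 a => rw [AlgHom.commutes, cmap_base, cmap_base, AlgHom.commutes]
    | h2 l m hm => rw [tr_cq, cmap_cq, cmap_cq, tr_cq]
    | h3 x y hx hy => rw [map_add, map_add, hx, hy, map_add, map_add]
    | h4 x y hx hy => rw [map_mul, map_mul, hx, hy, map_mul, map_mul]

theorem prM_h (ψ : A →+* B) {I : Ideal (MvPolynomial (Fin n) A)}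
    {I' : Ideal (MvPolynomial (Fin n) B)} (h : ∀ f ∈ I, MvPolynomial.map ψ f ∈ I')
    (J : Finset (Fin n)) (r : chart I J) :
    (prM ψ h).h J r = cmap ψ h (Finset.Subset.refl J) r := rfl

theorem prM_push_comp (φ : A →+* B) (ψ : B →+* C) (χ : A →+* C) (hχ : ψ.comp φ = χ)
    {I : Ideal (MvPolynomial (Fin n) A)} {I' : Ideal (MvPolynomial (Fin n) B)}
    {I'' : Ideal (MvPolynomial (Fin n) C)} (h : ∀ f ∈ I, MvPolynomial.map φ f ∈ I')
    (h' : ∀ f ∈ I', MvPolynomial.map ψ f ∈ I'') (h'' : ∀ f ∈ I, MvPolynomial.map χ f ∈ I'')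
    (c : (prC I).Ch) : (prM ψ h').push ((prM φ h).push c) = (prM χ h'').push c := by
  subst hχ
  rw [← CovD.Hm.comp_push]
  funext J
  have h2 : (cmap ψ h' (Finset.Subset.refl J)).comp (cmap φ h (Finset.Subset.refl J)) =
      cmap (ψ.comp φ) h'' (Finset.Subset.refl J) := cmap_comp φ ψ h h' h'' _ _
  exact mp_congr (((prM ψ h').comp (prM φ h)).cc J) ((prM (ψ.comp φ) h'').cc J) h2 (c J)

theorem prH_eq_prM (φ : A →+* B) (I : Ideal (MvPolynomial (Fin n) A)) :
    prH φ I = prM φ (bI_mem φ I) := rfl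

theorem bI_mem_of_comp {φ : A →+* B} {ψ : B →+* C} {χ : A →+* C} (hχ : ψ.comp φ = χ)
    (I : Ideal (MvPolynomial (Fin n) A)) : ∀ f ∈ bI φ I, MvPolynomial.map ψ f ∈ bI χ I := by
  intro f hf
  have h1 : MvPolynomial.map ψ f ∈ bI ψ (bI φ I) := bI_mem ψ (bI φ I) f hf
  rw [bI_bI, hχ] at h1
  exact h1

/-- The morphism between two base changes. -/
noncomputable abbrev prT {φ : A →+* B} {ψ : B →+* C} {χ : A →+* C} (hχ : ψ.comp φ = χ)
    (I : Ideal (MvPolynomial (Fin n) A)) : CovD.Hm ψ (prC (bI φ I)) (prC (bI χ I)) :=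
  prM ψ (bI_mem_of_comp hχ I)

theorem prT_push {φ : A →+* B} {ψ : B →+* C} {χ : A →+* C} (hχ : ψ.comp φ = χ)
    (I : Ideal (MvPolynomial (Fin n) A)) (c : (prC I).Ch) :
    (prT hχ I).push ((prH φ I).push c) = (prH χ I).push c :=
  prM_push_comp φ ψ χ hχ _ _ _ c

end prH

section Desc

variable {A : Type u} [CommRing A] {K : Type v} [CommRing K] {n : ℕ} {φ : A →+* K}

/-- The homomorphism to a subring. -/
def rto (φ : A →+* K) (S : Subring K) (hS : ∀ a, φ a ∈ S) : A →+* S := φ.codRestrict S hS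

theorem rto_comp (φ : A →+* K) (S : Subring K) (hS : ∀ a, φ a ∈ S) :
    S.subtype.comp (rto φ S hS) = φ := by
  ext a
  rfl

/-- The morphism from the projective scheme over the subring `S`. -/
noncomputable abbrev prS (φ : A →+* K) (I : Ideal (MvPolynomial (Fin n) A)) (S : Subring K)
    (hS : ∀ a, φ a ∈ S) : CovD.Hm S.subtype (prC (bI (rto φ S hS) I)) (prC (bI φ I)) :=
  prT (rto_comp φ S hS) I

theorem exists_descent_fun_aux (φ : A →+* K) (I : Ideal (MvPolynomial (Fin n) A))
    (J : Finset (Fin n)) (r : chart (bI φ I) J) :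
    ∃ s : Finset K, ∀ (S : Subring K) (hS : ∀ a, φ a ∈ S), (s : Set K) ⊆ S →
      ∃ r' : chart (bI (rto φ S hS) I) J,
        cmap S.subtype (bI_mem_of_comp (rto_comp φ S hS) I) (Finset.Subset.refl J) r' = r := by
  classical
  induction r using chart_ind with
  | h1 a =>
    refine ⟨{a}, fun S hS hs => ?_⟩
    have ha : a ∈ S := hs (by simp)
    exact ⟨algebraMap S _ ⟨a, ha⟩, cmap_base _ _ _ _⟩
  | h2 l m hm =>
    refine ⟨∅, fun S hS _ => ⟨cq _ J l hm, ?_⟩⟩
    exact cmap_cq _ _ _ l hm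
  | h3 x y hx hy =>
    obtain ⟨s, hs⟩ := hx
    obtain ⟨t, ht⟩ := hy
    refine ⟨s ∪ t, fun S hS h => ?_⟩
    rw [Finset.coe_union, Set.union_subset_iff] at h
    obtain ⟨x', hx'⟩ := hs S hS h.1
    obtain ⟨y', hy'⟩ := ht S hS h.2
    exact ⟨x' + y', by rw [map_add, hx', hy']⟩
  | h4 x y hx hy =>
    obtain ⟨s, hs⟩ := hx
    obtain ⟨t, ht⟩ := hy
    refine ⟨s ∪ t, fun S hS h => ?_⟩
    rw [Finset.coe_union, Set.union_subset_iff] at h
    obtain ⟨x', hx'⟩ := hs S hS h.1
    obtain ⟨y', hy'⟩ := ht S hS h.2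
    exact ⟨x' * y', by rw [map_mul, hx', hy']⟩

/-- Functions descend. -/
theorem exists_descent_fun (φ : A →+* K) (I : Ideal (MvPolynomial (Fin n) A))
    (J : Finset (Fin n)) (r : (prC (bI φ I)).R J) :
    ∃ s : Finset K, ∀ (S : Subring K) (hS : ∀ a, φ a ∈ S), (s : Set K) ⊆ S →
      ∃ r' : (prC (bI (rto φ S hS) I)).R J, (prS φ I S hS).h J r' = r :=
  exists_descent_fun_aux φ I J r

/-- Families of functions descend. -/
theorem exists_descent_funs (φ : A →+* K) (I : Ideal (MvPolynomial (Fin n) A))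
    (J : Finset (Fin n)) {q : ℕ} (t : Fin q → (prC (bI φ I)).R J) :
    ∃ s : Finset K, ∀ (S : Subring K) (hS : ∀ a, φ a ∈ S), (s : Set K) ⊆ S →
      ∃ t' : Fin q → (prC (bI (rto φ S hS) I)).R J, ∀ i, (prS φ I S hS).h J (t' i) = t i := by
  classical
  choose s hs using fun i => exists_descent_fun φ I J (t i)
  refine ⟨Finset.univ.biUnion s, fun S hS h => ?_⟩
  have h1 : ∀ i, (s i : Set K) ⊆ S := fun i =>
    (Finset.coe_subset.2 (Finset.subset_biUnion_of_mem s (Finset.mem_univ i))).trans h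
  choose t' ht' using fun i => hs i S hS (h1 i)
  exact ⟨t', ht'⟩

/-- Forms of degree `q` descend. -/
theorem exists_descent_form (φ : A →+* K) (I : Ideal (MvPolynomial (Fin n) A))
    (J : Finset (Fin n)) {q : ℕ} {e : (prC (bI φ I)).E J}
    (he : e ∈ Fd K ((prC (bI φ I)).R J) q) :
    ∃ s : Finset K, ∀ (S : Subring K) (hS : ∀ a, φ a ∈ S), (s : Set K) ⊆ S →
      ∃ e' ∈ Fd S ((prC (bI (rto φ S hS) I)).R J) q, (prS φ I S hS).e J e' = e := by
  classical
  refine fd_ind (P := fun e => ∃ s : Finset K, ∀ (S : Subring K) (hS : ∀ a, φ a ∈ S),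
    (s : Set K) ⊆ S → ∃ e' ∈ Fd S ((prC (bI (rto φ S hS) I)).R J) q,
      (prS φ I S hS).e J e' = e) ?_ ?_ ?_ he
  · exact ⟨∅, fun S hS _ => ⟨0, Submodule.zero_mem _, map_zero _⟩⟩
  · intro r t
    obtain ⟨s1, h1⟩ := exists_descent_fun φ I J r
    obtain ⟨s2, h2⟩ := exists_descent_funs φ I J t
    refine ⟨s1 ∪ s2, fun S hS h => ?_⟩
    rw [Finset.coe_union, Set.union_subset_iff] at h
    obtain ⟨r', hr'⟩ := h1 S hS h.1
    obtain ⟨t', ht'⟩ := h2 S hS h.2
    refine ⟨fz S r' * wd S t', fz_mul_mem _ (wd_mem _), ?_⟩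
    rw [map_mul, CovD.Hm.e_fz, hr']
    have h3 : (prS φ I S hS).e J (wd S t') = wd K t := by
      refine (mp_wd _ _).trans ?_
      exact congrArg _ (funext ht')
    rw [h3]
  · rintro a b ⟨s1, h1⟩ ⟨s2, h2⟩
    refine ⟨s1 ∪ s2, fun S hS h => ?_⟩
    rw [Finset.coe_union, Set.union_subset_iff] at h
    obtain ⟨a', ha, ha'⟩ := h1 S hS h.1
    obtain ⟨b', hb, hb'⟩ := h2 S hS h.2
    exact ⟨a' + b', Submodule.add_mem _ ha hb, by rw [map_add, ha', hb']⟩

/-- Cochains of total degree `m` descend. -/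
theorem exists_descent_Tt (φ : A →+* K) (I : Ideal (MvPolynomial (Fin n) A)) {m : ℕ}
    {c : (prC (bI φ I)).Ch} (hc : c ∈ (prC (bI φ I)).Tt m) :
    ∃ s : Finset K, ∀ (S : Subring K) (hS : ∀ a, φ a ∈ S), (s : Set K) ⊆ S →
      ∃ c' ∈ (prC (bI (rto φ S hS) I)).Tt m, (prS φ I S hS).push c' = c := by
  classical
  have h1 : ∀ J : Finset (Fin n), ∃ s : Finset K, ∀ (S : Subring K) (hS : ∀ a, φ a ∈ S),
      (s : Set K) ⊆ S → ∃ e' : (prC (bI (rto φ S hS) I)).E J,
        (J = ∅ → e' = 0) ∧ (∀ q, q + J.card = m + 1 → e' ∈ Fd S ((prC (bI (rto φ S hS) I)).R J) q) ∧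
        (m + 1 < J.card → e' = 0) ∧ (prS φ I S hS).e J e' = c J := by
    intro J
    by_cases h0 : J = ∅
    · subst h0
      exact ⟨∅, fun S hS _ => ⟨0, fun _ => rfl, fun _ _ => Submodule.zero_mem _, fun _ => rfl, by
        rw [map_zero, hc.1]⟩⟩
    · by_cases h2 : m + 1 < J.card
      · exact ⟨∅, fun S hS _ => ⟨0, fun _ => rfl, fun _ _ => Submodule.zero_mem _, fun _ => rfl, by
          rw [map_zero, (hc.2 J).2 h2]⟩⟩
      · obtain ⟨s, hs⟩ := exists_descent_form φ I J (q := m + 1 - J.card)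
          ((hc.2 J).1 (m + 1 - J.card) (by omega))
        refine ⟨s, fun S hS h => ?_⟩
        obtain ⟨e', he', he⟩ := hs S hS h
        refine ⟨e', fun h3 => absurd h3 h0, fun q hq => ?_, fun h3 => absurd h3 h2, he⟩
        have h3 : q = m + 1 - J.card := by omega
        rw [h3]
        exact he'
  choose s hs using h1
  refine ⟨Finset.univ.biUnion s, fun S hS h => ?_⟩
  have h2 : ∀ J, (s J : Set K) ⊆ S := fun J =>
    (Finset.coe_subset.2 (Finset.subset_biUnion_of_mem s (Finset.mem_univ J))).trans h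
  choose c' h3 h4 h5 h6 using fun J => hs J S hS (h2 J)
  refine ⟨c', ⟨h3 ∅ rfl, fun J => ⟨h4 J, h5 J⟩⟩, ?_⟩
  funext J
  exact h6 J

end Desc

/-- A finitely generated domain of characteristic `p` has finite residue fields at which a given nonzero
element does not vanish. -/
theorem exists_finite_point (A : Type u) [CommRing A] [IsDomain A] (p : ℕ) [Fact p.Prime] [CharP A p]
    (hft : Algebra.FiniteType ℤ A) (f : A) (hf : f ≠ 0) :
    ∃ m : Ideal A, m.IsMaximal ∧ Finite (A ⧸ m) ∧ f ∉ m := by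
  let _ : Algebra (ZMod p) A := ZMod.algebra A p
  have hft' : Algebra.FiniteType (ZMod p) A := by
    have : IsScalarTower ℤ (ZMod p) A := inferInstance
    exact Algebra.FiniteType.of_restrictScalars_finiteType ℤ (ZMod p) A
  let B := Localization.Away f
  have hB : Nontrivial B := (IsLocalization.injective B
    (powers_le_nonZeroDivisors_of_noZeroDivisors hf)).nontrivial
  have hftB : Algebra.FiniteType (ZMod p) B := by
    have h1 : Algebra.FiniteType A B := inferInstance
    exact Algebra.FiniteType.trans hft' h1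
  obtain ⟨M, hM⟩ := Ideal.exists_maximal B
  let _ : Field (B ⧸ M) := Ideal.Quotient.field M
  have hftM : Algebra.FiniteType (ZMod p) (B ⧸ M) := inferInstance
  have hfin : Module.Finite (ZMod p) (B ⧸ M) := finite_of_finite_type_of_isJacobsonRing (ZMod p) (B ⧸ M)
  have hfin' : Finite (B ⧸ M) := Module.finite_of_finite (ZMod p)
  let m : Ideal A := M.comap (algebraMap A B)
  have hinj : Function.Injective (Ideal.quotientMap M (algebraMap A B) le_rfl : A ⧸ m →+* B ⧸ M) :=
    Ideal.quotientMap_injective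
  have hfinA : Finite (A ⧸ m) := Finite.of_injective _ hinj
  have hprime : m.IsPrime := Ideal.comap_isPrime _ _
  have hdom : IsDomain (A ⧸ m) := Ideal.Quotient.isDomain m
  have hfield : IsField (A ⧸ m) := Finite.isField_of_domain _
  refine ⟨m, Ideal.Quotient.maximal_of_isField m hfield, hfinA, fun h => ?_⟩
  have h1 : algebraMap A B f ∈ M := h
  exact hM.ne_top (Ideal.eq_top_of_isUnit_mem M h1 (IsLocalization.Away.algebraMap_isUnit f))

end MPadcGP
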