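import Mathlib

/-!
# GP2, W1 (a): selection of an adapted basis (helper59)
-/

set_option autoImplicit false

namespace MPadcGP

universe u

private theorem dwa_chain {K V P : Type*} [Field K] [AddCommGroup V] [Module K V] [Fintype P]
    (w : P → V) (lp : P → ℕ) (N : ℕ) (hN : ∀ p, lp p < N) :
    ∀ d i, i + d = N → ∃ S : Set P, S ⊆ {p | i ≤ lp p} ∧ LinearIndepOn K w S ∧
      ∀ j, i ≤ j → w '' {p | j ≤ lp p} ⊆ Submodule.span K (w '' (S ∩ {p | j ≤ lp p})) := by
  intro d
  induction d with
  | zero =>
    intro i hi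
    refine ⟨∅, Set.empty_subset _, linearIndepOn_empty K w, fun j hj => ?_⟩
    rintro _ ⟨p, hp, rfl⟩
    have h1 : j ≤ lp p := hp
    have h2 := hN p
    omega
  | succ d ih =>
    intro i hi
    obtain ⟨S, hS, hli, hsp⟩ := ih (i + 1) (by omega)
    have hst : S ⊆ {p | i ≤ lp p} := fun p hp => by
      have h1 : i + 1 ≤ lp p := hS hp
      exact Nat.le_of_succ_le h1
    obtain ⟨b, hb, hSb, hsb, hbl⟩ := exists_linearIndepOn_extension hli hst
    refine ⟨b, hb, hbl, fun j hj => ?_⟩
    rcases hj.eq_or_lt with rfl | hj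
    · rw [Set.inter_eq_left.2 hb]
      exact hsb
    · exact (hsp j hj).trans (Submodule.span_mono (Set.image_mono (Set.inter_subset_inter_left _ hSb)))

theorem dw_select {A : Type u} [CommRing A] [IsDomain A] {β P : Type} [Fintype β] [DecidableEq β]
    [Fintype P] [DecidableEq P]
    (lev : β → ℕ) (lp : P → ℕ) (T : P → β → A)
    (hT : ∀ p b, lev b < lp p → T p b = 0)
    (hg : ∀ b, ∃ e : P → A, (∀ p, lp p < lev b → e p = 0) ∧
      ∀ b', ∑ p, e p * T p b' = if b = b' then 1 else 0) :
    ∃ (S : Finset P) (s : A) (u : β → P → A), s ≠ 0 ∧ (∀ b p, lp p < lev b → u b p = 0) ∧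
      (∀ b b', ∑ p ∈ S, u b p * T p b' = if b = b' then s else 0) ∧
      (∀ p ∈ S, ∀ p' ∈ S, ∑ b, T p b * u b p' = if p = p' then s else 0) := by
  classical
  let K := FractionRing A
  let a := algebraMap A K
  have ha : Function.Injective a := IsFractionRing.injective A K
  let w : P → β → K := fun p b => a (T p b)
  obtain ⟨S0, -, hli, hsp⟩ := dwa_chain (K := K) w lp (∑ p, lp p + 1)
    (fun p => Nat.lt_succ_of_le (Finset.single_le_sum (fun _ _ => Nat.zero_le _) (Finset.mem_univ p)))
    (∑ p, lp p + 1) 0 (Nat.zero_add _)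
  -- the standard basis
  have hmem : ∀ b, (Pi.single b 1 : β → K) ∈ Submodule.span K (w '' (S0 ∩ {p | lev b ≤ lp p})) := by
    intro b
    obtain ⟨e, he, hsum⟩ := hg b
    have h1 : (Pi.single b 1 : β → K) = ∑ p, a (e p) • w p := by
      funext b'
      rw [Finset.sum_apply]
      have h2 := congrArg a (hsum b')
      rw [map_sum] at h2
      have h3 : ∀ p, (a (e p) • w p) b' = a (e p * T p b') := fun p => (map_mul a _ _).symm
      rw [Finset.sum_congr rfl fun p _ => h3 p, h2, Pi.single_apply]
      by_cases hb : b = b'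
      · rw [if_pos hb, if_pos hb.symm, map_one]
      · rw [if_neg hb, if_neg (Ne.symm hb), map_zero]
    rw [h1]
    refine Submodule.sum_mem _ fun p _ => ?_
    rcases Nat.lt_or_ge (lp p) (lev b) with h | h
    · rw [he p h, map_zero, zero_smul]
      exact Submodule.zero_mem _
    · exact Submodule.smul_mem _ _ (hsp (lev b) (Nat.zero_le _) ⟨p, h, rfl⟩)
  have hcoef : ∀ b, ∃ t : P → K, (∀ p, p ∉ S0 → t p = 0) ∧ (∀ p, lp p < lev b → t p = 0) ∧
      ∑ p, t p • w p = Pi.single b 1 := by
    intro b
    obtain ⟨l, hl, hlc⟩ := (Finsupp.mem_span_image_iff_linearCombination K).1 (hmem b)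
    have hz : ∀ p, p ∉ S0 ∩ {p | lev b ≤ lp p} → l p = 0 := fun p hp => by
      by_contra h
      exact hp ((Finsupp.mem_supported K l).1 hl (Finsupp.mem_support_iff.2 h))
    refine ⟨l, fun p hp => hz p fun h => hp h.1, fun p hp => hz p fun h => ?_, ?_⟩
    · have h1 : lev b ≤ lp p := h.2
      omega
    · rw [← hlc, Finsupp.linearCombination_apply, Finsupp.sum_fintype l (fun i c => c • w i) fun i => zero_smul K (w i)]
  choose t ht1 ht2 ht3 using hcoef
  obtain ⟨s, hs⟩ := IsLocalization.exist_integer_multiples_of_finite (nonZeroDivisors A)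
    (fun q : β × P => t q.1 q.2)
  choose u hu using hs
  have hu' : ∀ b p, a (u (b, p)) = a s * t b p := fun b p => by
    have h1 := hu (b, p)
    rw [Algebra.smul_def] at h1
    exact h1
  have hzero : ∀ b p, t b p = 0 → u (b, p) = 0 := fun b p h => by
    apply ha
    rw [hu', h, mul_zero, map_zero]
  have hrel : ∀ b b', ∑ p, t b p * a (T p b') = if b = b' then 1 else 0 := by
    intro b b'
    have h1 := congrFun (ht3 b) b'
    rw [Finset.sum_apply, Pi.single_apply] at h1
    have h2 : ∀ p, (t b p • w p) b' = t b p * a (T p b') := fun p => rfl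
    rw [Finset.sum_congr rfl fun p _ => h2 p] at h1
    rw [h1]
    by_cases hb : b = b'
    · rw [if_pos hb, if_pos hb.symm]
    · rw [if_neg hb, if_neg (Ne.symm hb)]
  -- the second relation over `K`
  have hrel2 : ∀ p ∈ S0, ∀ p', ∑ b, a (T p b) * t b p' = if p = p' then 1 else 0 := by
    intro p hp
    let l : P →₀ K := Finsupp.equivFunOnFinite.symm
      (fun p' => ∑ b, a (T p b) * t b p' - if p = p' then 1 else 0)
    have hl : ∀ p', l p' = ∑ b, a (T p b) * t b p' - if p = p' then 1 else 0 := fun p' => rfl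
    have hsup : l ∈ Finsupp.supported K K S0 := by
      rw [Finsupp.mem_supported]
      intro p' hp'
      by_contra h
      refine Finsupp.mem_support_iff.1 hp' ?_
      rw [hl, Finset.sum_eq_zero fun b _ => by rw [ht1 b p' h, mul_zero], if_neg, sub_zero]
      rintro rfl
      exact h hp
    have hlc : Finsupp.linearCombination K w l = 0 := by
      rw [Finsupp.linearCombination_apply, Finsupp.sum_fintype l (fun i c => c • w i) fun i => zero_smul K (w i)]
      have h1 : ∀ p', l p' • w p' = (∑ b, a (T p b) • (t b p' • w p')) - (if p = p' then w p' else 0) := by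
        intro p'
        rw [hl, sub_smul, Finset.sum_smul, ite_smul, one_smul, zero_smul]
        congr 1
        exact Finset.sum_congr rfl fun b _ => mul_smul _ _ _
      rw [Finset.sum_congr rfl fun p' _ => h1 p', Finset.sum_sub_distrib, Finset.sum_comm,
        Finset.sum_ite_eq, if_pos (Finset.mem_univ p)]
      have h2 : ∀ b, ∑ p', a (T p b) • (t b p' • w p') = a (T p b) • (Pi.single b 1 : β → K) := fun b => by
        rw [← Finset.smul_sum, ht3]
      rw [Finset.sum_congr rfl fun b _ => h2 b, sub_eq_zero]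
      funext b'
      rw [Finset.sum_apply]
      have h3 : ∀ b, (a (T p b) • (Pi.single b 1 : β → K)) b' = if b' = b then a (T p b) else 0 := fun b => by
        rw [Pi.smul_apply, Pi.single_apply, smul_eq_mul, mul_ite, mul_one, mul_zero]
      rw [Finset.sum_congr rfl fun b _ => h3 b, Finset.sum_ite_eq, if_pos (Finset.mem_univ b')]
    have h0 := linearIndepOn_iff.1 hli l hsup hlc
    intro p'
    have h1 := DFunLike.congr_fun h0 p'
    rw [hl, Finsupp.zero_apply, sub_eq_zero] at h1
    exact h1
  have hS : ∀ p, p ∈ S0.toFinset ↔ p ∈ S0 := fun p => Set.mem_toFinset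
  refine ⟨S0.toFinset, s, fun b p => u (b, p), nonZeroDivisors.coe_ne_zero s, fun b p h =>
    hzero b p (ht2 b p h), fun b b' => ?_, fun p hp p' hp' => ?_⟩
  · have h1 : ∑ p ∈ S0.toFinset, u (b, p) * T p b' = ∑ p, u (b, p) * T p b' := by
      refine Finset.sum_subset (Finset.subset_univ _) fun p _ hp => ?_
      rw [hzero b p (ht1 b p fun h => hp ((hS p).2 h)), zero_mul]
    rw [h1]
    apply ha
    rw [map_sum]
    have h2 : ∀ p, a (u (b, p) * T p b') = a s * (t b p * a (T p b')) := fun p => by
      rw [map_mul, hu', mul_assoc]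
    rw [Finset.sum_congr rfl fun p _ => h2 p, ← Finset.mul_sum, hrel]
    split_ifs
    · rw [mul_one]
    · rw [mul_zero, map_zero]
  · apply ha
    rw [map_sum]
    have h2 : ∀ b, a (T p b * u (b, p')) = a s * (a (T p b) * t b p') := fun b => by
      rw [map_mul, hu']
      ring
    rw [Finset.sum_congr rfl fun b _ => h2 b, ← Finset.mul_sum, hrel2 p ((hS p).1 hp)]
    split_ifs
    · rw [mul_one]
    · rw [mul_zero, map_zero]

end MPadcGP
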