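import Pool.Agent.Lib.MP_adc574_ag_GP.Parts2
import Pool.Agent.Lib.MP_adc574_ag_GP.ClA
import Pool.Agent.Lib.MP_adc574_ag_GP.DatWa

/-!
# GP2, part W1: adapted bases of the graded cohomology

* `Dat.map`: the adapted bases are stable under base change.
* `DwR`: the relations between an adapted basis and the weight components of its elements;
  `isAdW_of_rel`: a selection of the components is an adapted basis of the graded cohomology.
* `exists_datW_of_dat`: a selection exists over a domain, after inverting one element.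
-/

set_option autoImplicit false
set_option linter.unusedSectionVars false

namespace MPadcGP

universe u v w x

section map

variable {A : Type u} [CommRing A] {n : ℕ} {I : Ideal (MvPolynomial (Fin n) A)} {β : ℕ → Type}
  [∀ m, Fintype (β m)] {lev : ∀ m, β m → ℕ} {z : ∀ m, β m → (prC I).Ch} {h : ℕ → ℕ → ℕ}

private theorem dw_isAd {B : Type v} [CommRing B] (φ : A →+* B)
    {I' : Ideal (MvPolynomial (Fin n) B)} (hI' : I' = bI φ I)
    (hm : ∀ f ∈ I, MvPolynomial.map φ f ∈ I')
    (hz : IsAd (prC (bI φ I)) lev (fun m b => (prH φ I).push (z m b))) :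
    IsAd (prC I') lev (fun m b => (prM φ hm).push (z m b)) := by
  subst hI'
  exact hz

private theorem dw_isAd_comp {B : Type v} {C : Type w} [CommRing B] [CommRing C] (φ : A →+* B)
    (ψ : B →+* C)
    (hz : IsAd (prC (bI (ψ.comp φ) I)) lev (fun m b => (prH (ψ.comp φ) I).push (z m b))) :
    IsAd (prC (bI ψ (bI φ I))) lev
      (fun m b => (prH ψ (bI φ I)).push ((prH φ I).push (z m b))) := by
  have hm : ∀ f ∈ I, MvPolynomial.map (ψ.comp φ) f ∈ bI ψ (bI φ I) := by
    intro f hf
    rw [bI_bI]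
    exact bI_mem _ _ f hf
  have h1 := dw_isAd (ψ.comp φ) (bI_bI φ ψ I) hm hz
  have h2 : (fun m (b : β m) => (prM (ψ.comp φ) hm).push (z m b)) =
      fun m b => (prH ψ (bI φ I)).push ((prH φ I).push (z m b)) := by
    funext m b
    exact (prM_push_comp φ ψ _ rfl (bI_mem φ I) (bI_mem ψ _) hm (z m b)).symm
  rw [h2] at h1
  exact h1

/-- The adapted bases are stable under base change. -/
theorem Dat.map (hD : Dat I lev z h) {A' : Type u} [CommRing A'] (φ : A →+* A') :
    Dat (bI φ I) lev (fun m b => (prH φ I).push (z m b)) h where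
  self := hD.ad A' φ
  ad B _ ψ := dw_isAd_comp φ ψ (hD.ad B (ψ.comp φ))
  hodge κ _ ψ q m := by
    rw [bI_bI]
    exact hD.hodge κ (ψ.comp φ) q m
  ad0 κ _ ψ := dw_isAd_comp φ ψ (hD.ad0 κ (ψ.comp φ))
  hodge0 κ _ ψ q m := by
    rw [bI_bI]
    exact hD.hodge0 κ (ψ.comp φ) q m
  bound := hD.bound

end map

section crit

/-- The index sets of the selection. -/
abbrev DwI (β : ℕ → Type) (M : Type) (S : ∀ m, Finset (β m × M)) (a : ℕ × M) : Type :=
  {b : β a.1 // (b, a.2) ∈ S a.1}

private theorem dw_sum {b M N : Type*} [DecidableEq b] [DecidableEq M] [AddCommMonoid N] [Fintype b]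
    (S : Finset (b × M)) (μ : M) (f : b × M → N) (hf : ∀ p ∈ S, p.2 ≠ μ → f p = 0) :
    ∑ p ∈ S, f p = ∑ c : {c : b // (c, μ) ∈ S}, f (c.1, μ) := by
  symm
  refine Finset.sum_bij_ne_zero (fun c _ _ => (c.1, μ)) (fun c _ _ => c.2) ?_ ?_ (fun c _ _ => rfl)
  · intro c _ _ c' _ _ hc
    exact Subtype.ext (Prod.ext_iff.1 hc).1
  · intro p hp hp0
    have h1 : p.2 = μ := by
      by_contra h2
      exact hp0 (hf p hp h2)
    obtain ⟨p1, p2⟩ := p
    subst h1
    exact ⟨⟨p1, hp⟩, Finset.mem_univ _, hp0, rfl⟩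

variable {A : Type u} [CommRing A] {n : ℕ} {X : CovD.{u, v} A n} {M : Type} [AddCommGroup M]
  [Fintype M] [DecidableEq M] (W : GrX X M) {β : ℕ → Type} [∀ m, Fintype (β m)]
  [∀ m, DecidableEq (β m)] (lev : ∀ m, β m → ℕ) (z : ∀ m, β m → X.Ch)

/-- The relations between an adapted basis and the weight components of its elements. -/
structure DwR (S : ∀ m, Finset (β m × M)) (T : ∀ m, β m × M → β m → A)
    (t : ∀ m, β m → β m × M → A) : Prop where
  rel : ∀ m p, W.P p.2 (z m p.1) - ∑ b, T m p b • z m b ∈ X.Bc m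
  lev0 : ∀ m b p, lev m p.1 < lev m b → t m b p = 0
  inv1 : ∀ m b b', ∑ p ∈ S m, t m b p * T m p b' = if b = b' then 1 else 0
  inv2 : ∀ m, ∀ p ∈ S m, ∀ p' ∈ S m, ∑ b, T m p b * t m b p' = if p = p' then 1 else 0

variable {W lev z}

/-- A selection of the weight components is an adapted basis of the graded cohomology. -/
theorem isAdW_of_rel (hz : IsAd X lev z) {S : ∀ m, Finset (β m × M)}
    {T : ∀ m, β m × M → β m → A} {t : ∀ m, β m → β m × M → A} (hR : DwR W lev z S T t) :
    IsAdW W (β := DwI β M S) (fun a b => lev a.1 b.1) (fun a b => W.P a.2 (z a.1 b.1)) where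
  mem a b := W.P_mem_Fi (hz.mem a.1 b.1) a.2
  wt a b := W.P_mem _ _
  coc a b := by rw [← W.P_Dt, hz.coc, map_zero]
  gen := by
    rintro ⟨m, μ⟩ i x hx hw hD
    obtain ⟨c, hc, hcx⟩ := hz.gen m i x hx hD
    have hlev : ∀ b : β m, ∀ p : β m × M, lev m p.1 < i → c b * t m b p = 0 := by
      intro b p hp
      rcases Nat.lt_or_ge (lev m b) i with h1 | h1
      · rw [hc b h1, zero_mul]
      · rw [hR.lev0 m b p (lt_of_lt_of_le hp h1), mul_zero]
    refine ⟨fun b => ∑ b', c b' * t m b' (b.1, μ), fun b hb => Finset.sum_eq_zero fun b' _ =>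
      hlev b' (b.1, μ) hb, ?_⟩
    -- the sum of all components
    have h1 : ∑ p ∈ S m, (∑ b', c b' * t m b' p) • (W.P p.2 (z m p.1) - ∑ b, T m p b • z m b) ∈
        X.Bc m := Submodule.sum_mem _ fun p _ => Submodule.smul_mem _ _ (hR.rel m p)
    have h2 : ∑ p ∈ S m, (∑ b', c b' * t m b' p) • (∑ b, T m p b • z m b) = ∑ b, c b • z m b := by
      have e1 : ∀ p, (∑ b', c b' * t m b' p) • (∑ b, T m p b • z m b) =
          ∑ b, (∑ b', c b' * (t m b' p * T m p b)) • z m b := by
        intro p
        rw [Finset.smul_sum]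
        refine Finset.sum_congr rfl fun b _ => ?_
        rw [smul_smul, Finset.sum_mul]
        simp only [mul_assoc]
      rw [Finset.sum_congr rfl fun p _ => e1 p, Finset.sum_comm]
      refine Finset.sum_congr rfl fun b _ => ?_
      rw [← Finset.sum_smul, Finset.sum_comm]
      congr 1
      have e2 : ∀ b', ∑ p ∈ S m, c b' * (t m b' p * T m p b) = if b' = b then c b' else 0 := by
        intro b'
        rw [← Finset.mul_sum, hR.inv1, mul_ite, mul_one, mul_zero]
      rw [Finset.sum_congr rfl fun b' _ => e2 b', Finset.sum_ite_eq', if_pos (Finset.mem_univ _)]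
    simp only [smul_sub] at h1
    rw [Finset.sum_sub_distrib, h2] at h1
    have h3 : x - ∑ p ∈ S m, (∑ b', c b' * t m b' p) • W.P p.2 (z m p.1) ∈ X.Bc m := by
      have h4 := Submodule.sub_mem _ hcx h1
      rw [sub_sub_sub_cancel_right] at h4
      exact h4
    have h5 := W.P_mem_Bc h3 μ
    rw [map_sub, W.mem_Wt.1 hw, map_sum] at h5
    simp only [map_smul, W.P_P] at h5
    rw [dw_sum (S m) μ] at h5
    · simp only [if_true] at h5
      exact h5
    · intro p _ hp
      rw [if_neg (Ne.symm hp), smul_zero]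
  ind := by
    rintro ⟨m, μ⟩ c hc
    have h1 : ∑ b : DwI β M S (m, μ), c b • (W.P μ (z m b.1) - ∑ b', T m (b.1, μ) b' • z m b') ∈
        X.Bc m := Submodule.sum_mem _ fun b _ => Submodule.smul_mem _ _ (hR.rel m (b.1, μ))
    simp only [smul_sub] at h1
    rw [Finset.sum_sub_distrib] at h1
    have h2 := Submodule.sub_mem _ hc h1
    rw [sub_sub_cancel] at h2
    have h3 : ∑ b : DwI β M S (m, μ), c b • ∑ b', T m (b.1, μ) b' • z m b' =
        ∑ b', (∑ b : DwI β M S (m, μ), c b * T m (b.1, μ) b') • z m b' := by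
      simp only [Finset.smul_sum, smul_smul, Finset.sum_smul]
      exact Finset.sum_comm
    rw [h3] at h2
    have h4 := hz.ind m _ h2
    funext b0
    have h5 : ∑ b', (∑ b : DwI β M S (m, μ), c b * T m (b.1, μ) b') * t m b' (b0.1, μ) = 0 :=
      Finset.sum_eq_zero fun b' _ => by rw [congrFun h4 b', Pi.zero_apply, zero_mul]
    simp only [Finset.sum_mul] at h5
    rw [Finset.sum_comm] at h5
    have h6 : ∀ b : DwI β M S (m, μ), ∑ b', c b * T m (b.1, μ) b' * t m b' (b0.1, μ) =
        if b = b0 then c b else 0 := by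
      intro b
      have e1 := hR.inv2 m (b.1, μ) b.2 (b0.1, μ) b0.2
      simp only [mul_assoc]
      rw [← Finset.mul_sum, e1, mul_ite, mul_one, mul_zero]
      by_cases hb : b = b0
      · rw [if_pos hb, if_pos (by rw [hb])]
      · rw [if_neg hb, if_neg fun h' => hb (Subtype.ext (Prod.ext_iff.1 h').1)]
    rw [Finset.sum_congr rfl fun b _ => h6 b, Finset.sum_ite_eq', if_pos (Finset.mem_univ _)] at h5
    exact h5

/-- The relations are stable under morphisms. -/
theorem DwR.push {B : Type w} [CommRing B] {f : A →+* B} {Y : CovD.{w, x} B n} {W' : GrX Y M}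
    {F : CovD.Hm f X Y} (hF : GrX.HmGr W W' F) {S : ∀ m, Finset (β m × M)}
    {T : ∀ m, β m × M → β m → A} {t : ∀ m, β m → β m × M → A} (hR : DwR W lev z S T t) :
    DwR W' lev (fun m b => F.push (z m b)) S (fun m p b => f (T m p b)) (fun m b p => f (t m b p)) where
  rel m p := by
    have h1 : F.push (W.P p.2 (z m p.1) - ∑ b, T m p b • z m b) ∈ Y.Bc m := by
      have h2 := hR.rel m p
      cases m with
      | zero =>
        have h3 : W.P p.2 (z 0 p.1) - ∑ b, T 0 p b • z 0 b = 0 := h2
        rw [h3, map_zero]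
        exact Submodule.zero_mem _
      | succ m =>
        obtain ⟨y, hy, hyx⟩ := h2
        rw [← hyx]
        exact ⟨F.push y, CovD.Hm.push_mem_Tt hy, (CovD.Hm.push_Dt y).symm⟩
    rw [map_sub, hF.push_P, map_sum] at h1
    simp only [CovD.Hm.push_smul] at h1
    exact h1
  lev0 m b p hp := by rw [hR.lev0 m b p hp, map_zero]
  inv1 m b b' := by
    have h1 := congrArg f (hR.inv1 m b b')
    rw [map_sum, apply_ite f, map_one, map_zero] at h1
    simp only [map_mul] at h1
    exact h1
  inv2 m p hp p' hp' := by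
    have h1 := congrArg f (hR.inv2 m p hp p' hp')
    rw [map_sum, apply_ite f, map_one, map_zero] at h1
    simp only [map_mul] at h1
    exact h1

end crit

section dat

variable {A : Type u} [CommRing A] {n : ℕ} {I : Ideal (MvPolynomial (Fin n) A)} {M : Type}
  [AddCommGroup M] [Fintype M] [DecidableEq M] {wt : Fin n → M} {β : ℕ → Type}
  [∀ m, Fintype (β m)] [∀ m, DecidableEq (β m)] {lev : ∀ m, β m → ℕ}
  {z : ∀ m, β m → (prC I).Ch} {h : ℕ → ℕ → ℕ}

theorem datW_of_rel (hI : IsHomog I) (hw : IsWHomog wt I) (hD : Dat I lev z h)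
    {S : ∀ m, Finset (β m × M)} {T : ∀ m, β m × M → β m → A} {t : ∀ m, β m → β m × M → A}
    (hR : DwR (grP hI hw) lev z S T t) :
    DatW hI hw (β := DwI β M S) (fun a b => lev a.1 b.1)
      (fun a b => (grP hI hw).P a.2 (z a.1 b.1)) h where
  self := isAdW_of_rel hD.self hR
  ad B _ φ := by
    have h1 := isAdW_of_rel (hD.ad B φ) (hR.push (prH_gr φ hI hw))
    have h2 : (fun (a : ℕ × M) (b : DwI β M S a) =>
        (prH φ I).push ((grP hI hw).P a.2 (z a.1 b.1))) =
        fun a b => (grP (hI.map φ) (hw.map φ)).P a.2 ((prH φ I).push (z a.1 b.1)) := by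
      funext a b
      exact (prH_gr φ hI hw).push_P a.2 _
    rw [h2]
    exact h1
  hodge := hD.hodge
  ad0 κ _ φ := by
    have h1 := isAdW_of_rel (hD.ad0 κ φ) (hR.push (prH_gr φ hI hw))
    have h2 : (fun (a : ℕ × M) (b : DwI β M S a) =>
        (prH φ I).push ((grP hI hw).P a.2 (z a.1 b.1))) =
        fun a b => (grP (hI.map φ) (hw.map φ)).P a.2 ((prH φ I).push (z a.1 b.1)) := by
      funext a b
      exact (prH_gr φ hI hw).push_P a.2 _
    rw [h2]
    exact h1
  hodge0 := hD.hodge0
  bound := by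
    obtain ⟨N, hN⟩ := hD.bound
    exact ⟨N, fun a ha => ⟨fun b => (hN a.1 ha).false b.1⟩⟩

/-- The selection exists over a domain, after inverting one element. -/
theorem exists_datW_of_dat [IsDomain A] (hI : IsHomog I) (hw : IsWHomog wt I)
    (hD : Dat I lev z h) :
    ∃ s : A, s ≠ 0 ∧ ∃ S : ∀ m, Finset (β m × M), ∀ (A' : Type u) [CommRing A'] (φ : A →+* A'),
      IsUnit (φ s) → DatW (hI.map φ) (hw.map φ) (β := DwI β M S) (fun a b => lev a.1 b.1)
        (fun a b => (grP (hI.map φ) (hw.map φ)).P a.2 ((prH φ I).push (z a.1 b.1))) h := by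
  -- the coordinates of the components
  have hT0 : ∀ m (p : β m × M), ∃ c : β m → A, (∀ b, lev m b < lev m p.1 → c b = 0) ∧
      (grP hI hw).P p.2 (z m p.1) - ∑ b, c b • z m b ∈ (prC I).Bc m := by
    intro m p
    refine hD.self.gen m (lev m p.1) _ ((grP hI hw).P_mem_Fi (hD.self.mem m p.1) p.2) ?_
    rw [← GrX.P_Dt, hD.self.coc, map_zero]
  choose T hT1 hT2 using hT0
  have hg : ∀ m (b : β m), ∃ e : β m × M → A, (∀ p, lev m p.1 < lev m b → e p = 0) ∧
      ∀ b', ∑ p, e p * T m p b' = if b = b' then 1 else 0 := by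
    intro m b
    refine ⟨fun p => if p.1 = b then 1 else 0, fun p hp => if_neg fun h1 => ?_, fun b' => ?_⟩
    · rw [h1] at hp
      exact absurd hp (lt_irrefl _)
    · rw [Fintype.sum_prod_type]
      simp only [ite_mul, one_mul, zero_mul]
      rw [Finset.sum_eq_single b (fun c _ hc => Finset.sum_eq_zero fun μ _ => if_neg hc)
        (fun hb => absurd (Finset.mem_univ _) hb)]
      simp only [if_true]
      have h1 : ∑ μ, ((grP hI hw).P μ (z m b) - ∑ b', T m (b, μ) b' • z m b') ∈ (prC I).Bc m :=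
        Submodule.sum_mem _ fun μ _ => hT2 m (b, μ)
      rw [Finset.sum_sub_distrib, GrX.sum_P] at h1
      have h2 : z m b - ∑ μ, ∑ b', T m (b, μ) b' • z m b' =
          ∑ b', ((if b = b' then 1 else 0) - ∑ μ, T m (b, μ) b') • z m b' := by
        simp only [sub_smul, Finset.sum_sub_distrib, ite_smul, one_smul, zero_smul]
        rw [Finset.sum_ite_eq, if_pos (Finset.mem_univ _), Finset.sum_comm]
        simp only [Finset.sum_smul]
      rw [h2] at h1
      have h3 := congrFun (hD.self.ind m _ h1) b'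
      rw [Pi.zero_apply, sub_eq_zero] at h3
      exact h3.symm
  have hsel := fun m => dw_select (lev m) (fun p : β m × M => lev m p.1) (T m)
    (fun p b hb => hT1 m p b hb) (hg m)
  choose S s u hs0 hu0 hu1 hu2 using hsel
  obtain ⟨N, hN⟩ := hD.bound
  refine ⟨∏ m ∈ Finset.range N, s m, Finset.prod_ne_zero_iff.2 fun m _ => hs0 m, S, ?_⟩
  intro A' _ φ hφ
  have hun : ∀ m, IsUnit (φ (s m)) ∨ IsEmpty (β m) := by
    intro m
    rcases Nat.lt_or_ge m N with h1 | h1
    · left
      obtain ⟨c, hc⟩ := Finset.dvd_prod_of_mem s (Finset.mem_range.2 h1)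
      rw [hc, map_mul] at hφ
      exact isUnit_of_mul_isUnit_left hφ
    · exact Or.inr (hN m h1)
  have ht : ∀ m, ∃ r : A', ∀ b : β m, φ (s m) * r = 1 := by
    intro m
    rcases hun m with h1 | h1
    · obtain ⟨c, hc⟩ := h1.exists_right_inv
      exact ⟨c, fun _ => hc⟩
    · exact ⟨0, fun b => (h1.false b).elim⟩
  choose r hr using ht
  refine datW_of_rel (hI.map φ) (hw.map φ) (hD.map φ) (T := fun m p b => φ (T m p b))
    (t := fun m b p => φ (u m b p) * r m) ⟨fun m p => ?_, fun m b p hp => ?_, fun m b b' => ?_,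
      fun m p hp p' hp' => ?_⟩
  · have h1 := (prH_gr φ hI hw).push_P p.2 (z m p.1)
    have h2 : (prH φ I).push ((grP hI hw).P p.2 (z m p.1) - ∑ b, T m p b • z m b) ∈
        (prC (bI φ I)).Bc m := by
      have h2 := hT2 m p
      cases m with
      | zero =>
        have h3 : (grP hI hw).P p.2 (z 0 p.1) - ∑ b, T 0 p b • z 0 b = 0 := h2
        rw [h3, map_zero]
        exact Submodule.zero_mem _
      | succ m =>
        obtain ⟨y, hy, hyx⟩ := h2
        rw [← hyx]
        exact ⟨(prH φ I).push y, CovD.Hm.push_mem_Tt hy, (CovD.Hm.push_Dt y).symm⟩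
    rw [map_sub, h1, map_sum] at h2
    simp only [CovD.Hm.push_smul] at h2
    exact h2
  · rw [hu0 m b p hp, map_zero, zero_mul]
  · have h1 := congrArg φ (hu1 m b b')
    rw [map_sum, apply_ite φ, map_zero] at h1
    simp only [map_mul] at h1
    have h2 : ∑ p ∈ S m, φ (u m b p) * r m * φ (T m p b') =
        (∑ p ∈ S m, φ (u m b p) * φ (T m p b')) * r m := by
      rw [Finset.sum_mul]
      exact Finset.sum_congr rfl fun p _ => by ring
    refine h2.trans ?_
    rw [h1, ite_mul, zero_mul, hr m b]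
  · have h1 := congrArg φ (hu2 m p hp p' hp')
    rw [map_sum, apply_ite φ, map_zero] at h1
    simp only [map_mul] at h1
    have h2 : ∑ b, φ (T m p b) * (φ (u m b p') * r m) =
        (∑ b, φ (T m p b) * φ (u m b p')) * r m := by
      rw [Finset.sum_mul]
      exact Finset.sum_congr rfl fun b _ => by ring
    refine h2.trans ?_
    rw [h1, ite_mul, zero_mul, hr m p.1]

end dat

end MPadcGP
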