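import Pool.Agent.Lib.MP_adc574_ag_GP.BrD
import Pool.Agent.Lib.MP_adc574_ag_GP.Parts2
import Pool.Agent.Lib.MP_adc574_ag_GP.GrW

/-!
# The bridge to the internal definitions: weights (helper59)
-/

set_option autoImplicit false
set_option linter.unusedSectionVars false

namespace OrdRed

open MPadcGP

universe u v w x

section proj

variable {A : Type u} [CommRing A] {n : ℕ} {X : CovD.{u, v} A n} {M : Type} [AddCommGroup M]
  [Fintype M] [DecidableEq M] (W : GrX X M)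

/-- The projector on the part of weight `μ` of the cohomology. -/
noncomputable def pH (m : ℕ) (μ : M) : X.HdR m →ₗ[A] X.HdR m :=
  Submodule.mapQ _ _ ((W.P μ).restrict fun _ hx => W.P_mem_Zc hx μ) fun _ hx => W.P_mem_Bc hx μ

theorem pH_cl (m : ℕ) (μ : M) (c : ↥(X.Zc m)) :
    pH W m μ (X.cl m c) = X.cl m ⟨W.P μ c, W.P_mem_Zc c.2 μ⟩ := rfl

theorem pH_mem (m : ℕ) (μ : M) (x : X.HdR m) : pH W m μ x ∈ W.HW m μ := by
  obtain ⟨c, rfl⟩ := CovD.cl_surjective m x
  exact W.mem_HW.2 ⟨_, W.P_mem μ c, (pH_cl W m μ c).symm⟩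

theorem sum_pH (m : ℕ) (x : X.HdR m) : ∑ μ, pH W m μ x = x := by
  obtain ⟨c, rfl⟩ := CovD.cl_surjective m x
  have h1 : c = ∑ ν, (⟨W.P ν c, W.P_mem_Zc c.2 ν⟩ : ↥(X.Zc m)) := by
    apply Subtype.ext
    rw [Submodule.coe_sum]
    exact (W.sum_P (c : X.Ch)).symm
  have h2 : ∑ μ, pH W m μ (X.cl m c) = X.cl m (∑ ν, (⟨W.P ν c, W.P_mem_Zc c.2 ν⟩ : ↥(X.Zc m))) := by
    rw [map_sum]
    exact Finset.sum_congr rfl fun μ _ => pH_cl W m μ c
  rw [h2, ← h1]

theorem pH_of_mem {m : ℕ} {μ : M} {x : X.HdR m} (hx : x ∈ W.HW m μ) (ν : M) :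
    pH W m ν x = if ν = μ then x else 0 := by
  obtain ⟨c, hc, rfl⟩ := W.mem_HW.1 hx
  rw [pH_cl]
  split_ifs with h
  · congr 1
    apply Subtype.ext
    change W.P ν c = c
    rw [W.P_of_mem hc, if_pos h]
  · rw [CovD.cl_eq_zero]
    change W.P ν c ∈ X.Bc m
    rw [W.P_of_mem hc, if_neg h]
    exact Submodule.zero_mem _

variable (G : ∀ a : ℕ × M, Submodule A ↥(W.HW a.1 a.2))

/-- The sum of submodules of the parts. -/
noncomputable def smW (m : ℕ) : Submodule A (X.HdR m) := ⨆ μ, (G (m, μ)).map (W.HW m μ).subtype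

theorem mem_smW_iff {m : ℕ} {x : X.HdR m} :
    x ∈ smW W G m ↔ ∀ μ, pH W m μ x ∈ (G (m, μ)).map (W.HW m μ).subtype := by
  constructor
  · intro hx μ
    refine Submodule.iSup_induction _ (motive := fun x => pH W m μ x ∈ (G (m, μ)).map (W.HW m μ).subtype) hx
      (fun ν y hy => ?_) ?_ ?_
    · obtain ⟨z, hz, rfl⟩ := hy
      have h0 : pH W m μ ((W.HW m ν).subtype z) = if μ = ν then (z : X.HdR m) else 0 := pH_of_mem W z.2 μ
      rw [h0]
      split_ifs with h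
      · subst h
        exact ⟨z, hz, rfl⟩
      · exact Submodule.zero_mem _
    · rw [map_zero]
      exact Submodule.zero_mem _
    · intro y z hy hz
      rw [map_add]
      exact Submodule.add_mem _ hy hz
  · intro h
    rw [← sum_pH W m x]
    exact Submodule.sum_mem _ fun μ _ => Submodule.mem_iSup_of_mem μ (h μ)

theorem smW_inf (m : ℕ) (μ : M) : smW W G m ⊓ W.HW m μ = (G (m, μ)).map (W.HW m μ).subtype := by
  apply le_antisymm
  · rintro x ⟨h1, h2⟩
    have h3 := (mem_smW_iff W G).1 h1 μ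
    rw [pH_of_mem W h2 μ, if_pos rfl] at h3
    exact h3
  · rintro _ ⟨x, hx, rfl⟩
    exact ⟨Submodule.mem_iSup_of_mem μ ⟨x, hx, rfl⟩, x.2⟩

end proj

section general

variable {k : Type u} [Field k] {n : ℕ} {X : CovD.{u, v} k n} {M : Type} [AddCommGroup M]
  [Fintype M] [DecidableEq M] {W : GrX X M}

/-- The parts of the cohomology of `cov X`. -/
noncomputable def HC (W : GrX X M) (m : ℕ) (μ : M) : Submodule k ((cov X).DR m) :=
  (W.HW m μ).map (cmp X m : X.HdR m →ₗ[k] (cov X).DR m)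

theorem map_cmp_mem {m : ℕ} (S : Submodule k (X.HdR m)) (x : X.HdR m) :
    cmp X m x ∈ S.map (cmp X m : X.HdR m →ₗ[k] (cov X).DR m) ↔ x ∈ S := by
  constructor
  · rintro ⟨y, hy, hyx⟩
    rw [← (cmp X m).injective hyx]
    exact hy
  · exact fun hx => ⟨x, hx, rfl⟩

theorem map_cmp_inf {m : ℕ} (S T : Submodule k (X.HdR m)) :
    S.map (cmp X m : X.HdR m →ₗ[k] (cov X).DR m) ⊓ T.map (cmp X m : X.HdR m →ₗ[k] (cov X).DR m) =
      (S ⊓ T).map (cmp X m : X.HdR m →ₗ[k] (cov X).DR m) :=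
  (Submodule.map_inf _ (cmp X m).injective).symm

theorem finrank_map_cmp {m : ℕ} (S : Submodule k (X.HdR m)) :
    Module.finrank k (S.map (cmp X m : X.HdR m →ₗ[k] (cov X).DR m)) = Module.finrank k S :=
  LinearEquiv.finrank_map_eq (cmp X m) S

theorem hodge_map (m i : ℕ) :
    (cov X).hodge m i = (X.Fil m i).map (cmp X m : X.HdR m →ₗ[k] (cov X).DR m) := by
  ext y
  obtain ⟨x, rfl⟩ := (cmp X m).surjective y
  rw [hodge_iff, map_cmp_mem]

theorem cup_class {m m' : ℕ} {a : ↥(X.Zc m)} {b : ↥(X.Zc m')} (ν κ : M) :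
    X.cup (W.P ν a) (W.P κ b) ∈ X.Zc (m + m') := by
  have ha := W.P_mem_Zc a.2 ν
  have hb := W.P_mem_Zc b.2 κ
  refine ⟨CovD.cup_mem ha.1 hb.1, ?_⟩
  have ha2 : X.Dt (W.P ν a) = 0 := ha.2
  have hb2 : X.Dt (W.P κ b) = 0 := hb.2
  change X.Dt _ = 0
  rw [CovD.Dt_cup ha.1 hb.1, ha2, hb2]
  have h1 := CovD.cup_smul_left (X := X) (0 : k) (0 : X.Ch) (W.P κ b)
  have h2 := CovD.cup_smul_right (X := X) (0 : k) (W.P ν a) (0 : X.Ch)
  rw [zero_smul, zero_smul] at h1 h2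
  rw [h1, h2, smul_zero, add_zero]

theorem generalW_imp (hV : ∀ D : Derivation ℤ k k, Nonempty (Lft X D)) (h : General (cov X) (HC W)) :
    W.IsGeneralW := by
  let i1 : ∀ a : ℕ × M, AddCommGroup ↥(W.HW a.1 a.2) := fun _ => inferInstance
  let i2 : ∀ a : ℕ × M, Module k ↥(W.HW a.1 a.2) := fun _ => inferInstance
  intro P hP a i
  obtain ⟨m, μ⟩ := a
  -- the filtrations
  let Q : ∀ m : ℕ, ℕ → Submodule k (X.HdR m) := fun m i => smW W (fun a => P a i) m
  let P' : ∀ m : ℕ, ℕ → Submodule k ((cov X).DR m) := fun m i =>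
    (Q m i).map (cmp X m : X.HdR m →ₗ[k] (cov X).DR m)
  have hQ : ∀ m i μ, Q m i ⊓ W.HW m μ = (P (m, μ) i).map (W.HW m μ).subtype := fun m i μ =>
    smW_inf W (fun a => P a i) m μ
  have hfrs : ∀ m i μ, Module.finrank k ((P (m, μ) i).map (W.HW m μ).subtype) = Module.finrank k (P (m, μ) i) :=
    fun m i μ => (Submodule.equivMapOfInjective (W.HW m μ).subtype Subtype.val_injective
      (P (m, μ) i)).finrank_eq.symm
  have hconj : ConjugateType (cov X) (HC W) P' :=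
    { mono := fun m i => Submodule.map_mono (iSup_mono fun μ => Submodule.map_mono (hP.mono (m, μ) i))
      homog := by
        rintro m i _ ⟨x, hx, rfl⟩
        have h1 : (cmp X m : X.HdR m →ₗ[k] (cov X).DR m) x =
            ∑ μ, (cmp X m : X.HdR m →ₗ[k] (cov X).DR m) (pH W m μ x) := by
          rw [← map_sum, sum_pH]
        rw [h1]
        refine Submodule.sum_mem _ fun μ _ => Submodule.mem_iSup_of_mem μ ⟨⟨_, ?_, rfl⟩, ⟨_, pH_mem W m μ x, rfl⟩⟩
        have h2 := (mem_smW_iff W (fun a => P a i)).1 hx μ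
        exact Submodule.mem_iSup_of_mem μ h2
      dim := by
        intro m i μ
        change Module.finrank k ↥((Q m i).map (cmp X m : X.HdR m →ₗ[k] (cov X).DR m) ⊓
          (W.HW m μ).map (cmp X m : X.HdR m →ₗ[k] (cov X).DR m)) + Module.finrank k ↥((cov X).hodge m (i + 1) ⊓
          (W.HW m μ).map (cmp X m : X.HdR m →ₗ[k] (cov X).DR m)) = Module.finrank k
            ((W.HW m μ).map (cmp X m : X.HdR m →ₗ[k] (cov X).DR m))
        rw [hodge_map, map_cmp_inf, map_cmp_inf, finrank_map_cmp, finrank_map_cmp, finrank_map_cmp, hQ, hfrs,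
          ← MPadcGP2.finrank_submoduleOf]
        exact hP.dim (m, μ) i
      mul := by
        rintro m m' i i' _ ⟨x, hx, rfl⟩ _ ⟨y, hy, rfl⟩ z hz
        obtain ⟨z, rfl⟩ := (cmp X (m + m')).surjective z
        obtain ⟨a, b, c, habc, rfl, rfl, rfl⟩ := prod_iff.1 hz
        refine (map_cmp_mem _ _).2 ?_
        have hx' := fun ν => (mem_smW_iff W (fun a => P a i)).1 hx ν
        have hy' := fun ν => (mem_smW_iff W (fun a => P a i')).1 hy ν
        have hterm : ∀ ν κ, X.cl (m + m') ⟨X.cup (W.P ν a) (W.P κ b), cup_class ν κ⟩ ∈ Q (m + m') (i + i') := by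
          intro ν κ
          obtain ⟨x1, hx1, hx2⟩ := hx' ν
          obtain ⟨y1, hy1, hy2⟩ := hy' κ
          have hw : X.cl (m + m') ⟨X.cup (W.P ν a) (W.P κ b), cup_class ν κ⟩ ∈ W.HW (m + m') (ν + κ) :=
            W.mem_HW.2 ⟨_, W.cup_mem_Wt (W.P_mem ν a) (W.P_mem κ b), rfl⟩
          have h1 := hP.mul (m, ν) (m', κ) i i' x1 hx1 y1 hy1 ⟨_, hw⟩
            ⟨⟨W.P ν a, W.P_mem_Zc a.2 ν⟩, ⟨W.P κ b, W.P_mem_Zc b.2 κ⟩, ⟨_, cup_class ν κ⟩, rfl, ?_, ?_, rfl⟩
          · exact Submodule.mem_iSup_of_mem (ν + κ) ⟨_, h1, rfl⟩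
          · rw [← pH_cl]
            exact hx2.symm
          · rw [← pH_cl]
            exact hy2.symm
        have hc : c = ∑ ρ, ∑ ν, (⟨X.cup (W.P ν a) (W.P (ρ - ν) b), cup_class ν (ρ - ν)⟩ : ↥(X.Zc (m + m'))) := by
          apply Subtype.ext
          rw [Submodule.coe_sum, ← habc, ← W.sum_P (X.cup (a : X.Ch) b)]
          refine Finset.sum_congr rfl fun ρ _ => ?_
          rw [Submodule.coe_sum, W.P_cup]
        rw [hc, map_sum]
        refine Submodule.sum_mem _ fun ρ _ => ?_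
        rw [map_sum]
        exact Submodule.sum_mem _ fun ν _ => hterm ν (ρ - ν)
      log := by
        intro m j x hx
        obtain ⟨x, rfl⟩ := (cmp X m).surjective x
        obtain ⟨c, rfl, hc⟩ := dlog_iff.1 hx
        refine (map_cmp_mem _ _).2 ((mem_smW_iff W (fun a => P a j)).2 fun μ => ?_)
        refine ⟨⟨pH W m μ (X.cl m c), pH_mem W m μ _⟩, hP.log (m, μ) j _ ?_, rfl⟩
        exact ⟨c, ⟨W.P μ c, W.P_mem_Zc c.2 μ⟩, ⟨c.2, hc⟩, rfl, (pH_cl W m μ c).symm⟩ }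
  generalize hr : Module.finrank k ((X.Fil m (i + 1)).submoduleOf (W.HW m μ)) = r
  intro U hU hω
  have hU' : IsHorizontal (fun D (x y : ↥(W.HW m μ)) => X.gaussManin m D x y) U := hU
  have hω' : ∃ ω ∈ U, ω ≠ 0 ∧ ∀ x, (∃ u, x u ∈ P (m, μ) i) → ω x = 0 := hω
  change ∃ ω ∈ U, ∃ x : Fin r → ↥(W.HW m μ), (∀ u, x u ∈ (X.Fil m (i + 1)).submoduleOf (W.HW m μ)) ∧ ω x ≠ 0
  clear hω hU
  -- the forms
  let e : ↥(W.HW m μ) ≃ₗ[k] ↥(HC W m μ) := (cmp X m).submoduleMap (W.HW m μ)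
  have he : ∀ x, (e x : (cov X).DR m) = cmp X m x := fun x => rfl
  have he' : ∀ y, cmp X m (e.symm y : X.HdR m) = y := fun y => by
    rw [← he, e.apply_symm_apply]
  let T : (↥(W.HW m μ) [⋀^Fin r]→ₗ[k] k) →ₗ[k] (↥(HC W m μ) [⋀^Fin r]→ₗ[k] k) :=
    { toFun := fun ω => ω.compLinearMap (e.symm : ↥(HC W m μ) →ₗ[k] ↥(W.HW m μ))
      map_add' := fun ω ω' => by
        ext x
        rfl
      map_smul' := fun a ω => by
        ext x
        rfl }
  have hT : ∀ ω x, T ω x = ω fun l => e.symm (x l) := fun ω x => rfl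
  have hT' : ∀ ω (x : Fin r → ↥(W.HW m μ)), T ω (fun l => e (x l)) = ω x := by
    intro ω x
    rw [hT]
    congr 1
    funext l
    exact e.symm_apply_apply (x l)
  obtain ⟨ω, hω1, hω2, hω3⟩ := hω'
  have hrr : r = Module.finrank k ↥((cov X).hodge m (i + 1) ⊓ HC W m μ) := by
    change r = Module.finrank k ↥((cov X).hodge m (i + 1) ⊓
      (W.HW m μ).map (cmp X m : X.HdR m →ₗ[k] (cov X).DR m))
    rw [hodge_map, map_cmp_inf, finrank_map_cmp, ← MPadcGP2.finrank_submoduleOf]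
    exact hr.symm
  have hpos := h P' hconj m i μ
  rw [← hrr] at hpos
  have hmain := hpos (U.map T) ?_ ⟨T ω, ⟨ω, hω1, rfl⟩, ?_, ?_⟩
  · obtain ⟨_, ⟨ω', hω', rfl⟩, x, hx, hne⟩ := hmain
    refine ⟨ω', hω', fun l => e.symm (x l), fun l => ?_, ?_⟩
    · change (e.symm (x l) : X.HdR m) ∈ X.Fil m (i + 1)
      apply hodge_iff.1
      rw [he']
      exact hx l
    · rw [← hT]
      exact hne
  · intro D
    rintro _ ⟨ω, hω, rfl⟩
    obtain ⟨ω', hω', h1⟩ := hU' D ω hω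
    refine ⟨T ω', ⟨ω', hω', rfl⟩, fun x y hxy => ?_⟩
    obtain ⟨V⟩ := hV D
    have h2 := h1 (fun l => e.symm (x l)) (fun l => e.symm (y l)) fun l => by
      apply nabla_imp V
      rw [he', he']
      exact hxy l
    rw [hT, hT, h2]
    congr 1
    refine Finset.sum_congr rfl fun l _ => ?_
    rw [hT]
    congr 1
    funext l'
    by_cases hl : l' = l
    · subst hl
      rw [Function.update_self, Function.update_self]
    · rw [Function.update_of_ne hl, Function.update_of_ne hl]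
  · intro h0
    apply hω2
    ext x
    rw [← hT' ω x, h0]
    rfl
  · rintro x ⟨l, hl⟩
    rw [hT]
    apply hω3
    refine ⟨l, ?_⟩
    have h1 : cmp X m (e.symm (x l) : X.HdR m) ∈ (Q m i).map (cmp X m : X.HdR m →ₗ[k] (cov X).DR m) := by
      rw [he']
      exact hl
    have h2 : (e.symm (x l) : X.HdR m) ∈ Q m i ⊓ W.HW m μ := ⟨(map_cmp_mem _ _).1 h1, (e.symm (x l)).2⟩
    rw [hQ] at h2
    obtain ⟨y, hy, hyx⟩ := h2
    have h3 : y = e.symm (x l) := Subtype.ext hyx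
    change e.symm (x l) ∈ P (m, μ) i
    rw [← h3]
    exact hy

end general

end OrdRed
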