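import Pool.Agent.Lib.MP_adc574_ag_GP.Fin3d
import Pool.Agent.Lib.MP_adc574_ag_GP.Fin4a
import Pool.Agent.Lib.MP_adc574_ag_GP.GL0

/-!
# The absolute version, open form
-/

set_option autoImplicit false
set_option linter.unusedSectionVars false

namespace MPadcGP

universe u v w x

section

variable {M : Type} [AddCommGroup M] [Fintype M] [DecidableEq M]

/-- The linear data in general position. -/
theorem exists_linW {k : Type u} [Field k] [IsAlgClosed k] [CharZero k] (A : Subalgebra ℤ k) (hA : A.FG)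
    {n : ℕ} (I : Ideal (MvPolynomial (Fin n) A)) (hI : IsHomog I)
    (hs : IsSmoothProj (bI (algebraMap A k) I)) {wt : Fin n → M}
    (hw : IsWHomog wt (bI (algebraMap A k) I))
    (hg : (grP (hI.map (algebraMap A k)) hw).IsGeneralW) :
    ∃ (A₃ : Subalgebra ℤ k) (h3 : A ≤ A₃) (N : ℕ) (D : Fin N → Derivation ℤ A₃ A₃) (_ : Good' A₃ D)
      (hw₃ : IsWHomog wt (bI (Subalgebra.inclusion h3).toRingHom I))
      (_ : IsSmoothProj (bI (Subalgebra.inclusion h3).toRingHom I))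
      (β : ℕ × M → Type) (_ : ∀ a, Fintype (β a)) (_ : ∀ a, DecidableEq (β a))
      (lev : ∀ a, β a → ℕ) (z : ∀ a, β a → (prC (bI (Subalgebra.inclusion h3).toRingHom I)).Ch)
      (h : ℕ → ℕ → ℕ) (hD : DatW (hI.map _) hw₃ lev z h)
      (V : ∀ l, Lft (prC (bI (Subalgebra.inclusion h3).toRingHom I)) (D l))
      (G : ∀ a, Fin N → β a → β a → A₃) (mu : ∀ a a', β a → β a' → β (a + a') → A₃)
      (Lg : ∀ a : ℕ × M, ℕ → Set (β a → A₃)) (_ : LinRelW (grP (hI.map _) hw₃) z V G mu Lg),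
      (mkLinW lev D G mu Lg hD.bound').Gen (algebraMap A₃ k) := by
  classical
  obtain ⟨B₁, hf₁, hB₁⟩ := ev_data A hA I hI hs hw
  obtain ⟨B₃, hf₃, hB₃⟩ := ev_logs A hA I hI hs hw
  obtain ⟨A₃, hle₃, N, D, hgood⟩ := exists_good' (A ⊔ (B₁ ⊔ B₃)) (hA.sup (hf₁.sup hf₃))
  have h3 : A ≤ A₃ := le_sup_left.trans hle₃
  have hb1 : B₁ ≤ A₃ := (le_sup_left.trans le_sup_right).trans hle₃
  have hb3 : B₃ ≤ A₃ := (le_sup_right.trans le_sup_right).trans hle₃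
  obtain ⟨hsm, hw₃, β, i1, i2, lev, z, h, hD⟩ := hB₁ A₃ h3 hb1
  choose S hSf hSl hSs using hB₃ A₃ h3 hb3
  have hV0 : ∀ l, ∃ V : Lft (prC (bI (Subalgebra.inclusion h3).toRingHom I)) (D l),
      (grP (hI.map _) hw₃).IsGr V := fun l =>
    (grP (hI.map _) hw₃).exists_isGr (exists_lft (hI.map _) hsm (D l)).some
  choose V hV using hV0
  obtain ⟨G, mu, Lg, hR, hSL⟩ := exists_relW hD.self V hV S hSl
  refine ⟨A₃, h3, N, D, hgood, hw₃, hsm, β, i1, i2, lev, z, h, hD, V, G, mu, Lg, hR, ?_⟩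
  have hIk : bI (algebraMap A₃ k) (bI (Subalgebra.inclusion h3).toRingHom I) = bI (algebraMap A k) I := by
    rw [bI_bI]
    rfl
  exact gen_of_relW hD hgood V hV hR S hSL hSs
    (isGeneralW_congr hIk.symm _ hw _ _ hg)

/-- From `A₃` to the generic points of `Spec A`. -/
theorem dense_of_opp' {A A₃ : Type u} [CommRing A] [IsDomain A] [CharZero A] [Algebra.FiniteType ℤ A]
    [CommRing A₃] (ι : A →+* A₃) {n : ℕ} {I : Ideal (MvPolynomial (Fin n) A)}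
    (hI : IsHomog I) {a : A} (ha0 : a ≠ 0) (hd : HasDat I a) {p : ℕ}
    [Fact p.Prime] {𝔓 : Ideal A} (hmin : 𝔓 ∈ (Ideal.span {(p : A)}).minimalPrimes)
    {𝔔 : Ideal A₃} (h𝔓 : 𝔔.comap ι = 𝔓) {L : Type u} [Field L] [CharP L p]
    (φ : A₃ →+* L) (hker : RingHom.ker φ = 𝔔)
    (hK : ∀ 𝔓 ∈ (Ideal.span {(p : A)}).minimalPrimes, ∀ (K : Type u) [Field K] (φ : A →+* K),
      RingHom.ker φ = 𝔓 → (∀ x : K, ∃ a b : A, φ b ≠ 0 ∧ x = φ a / φ b) → CharP K p ∧ φ a ≠ 0 ∧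
        ∃ (Λ : Type) (_ : Fintype Λ) (b : Λ → K), PBas p b)
    (hopp : IsOppC (prC (bI φ (bI ι I)))) : IsDenseOrd I 𝔓 := by
  have hpr : 𝔓.IsPrime := hmin.1.1
  obtain ⟨φK, hφK⟩ : ∃ φK, φK = (algebraMap (A ⧸ 𝔓) (FractionRing (A ⧸ 𝔓))).comp
    (Ideal.Quotient.mk 𝔓) := ⟨_, rfl⟩
  have hkerK : RingHom.ker φK = 𝔓 := hφK ▸ frac_ker 𝔓
  have hfrK : ∀ x : FractionRing (A ⧸ 𝔓), ∃ a b : A, φK b ≠ 0 ∧ x = φK a / φK b := hφK ▸ frac_surj 𝔓
  obtain ⟨hcK, haK, ΛK, iΛK, bbK, hbbK⟩ := hK 𝔓 hmin (FractionRing (A ⧸ 𝔓)) φK hkerK hfrK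
  have hker' : RingHom.ker (φ.comp ι) = 𝔓 := by
    rw [← h𝔓, ← hker]
    rfl
  obtain ⟨ρ, hρ⟩ := exists_hom_frac 𝔓 (φ.comp ι) hker'
  rw [← hφK] at hρ
  obtain ⟨hsa₁, βa₁, i1a₁, i2a₁, leva₁, za₁, ha₁', hDa₁⟩ := hd
  have hoppK : IsOppC (prC (bI φK I)) := by
    refine isOppC_of_ext (hI.map φK) ρ ?_
    rw [bI_bI, hρ, ← bI_bI]
    exact hopp
  exact dense_of_opp (p := p) hI ha0 hsa₁ hDa₁ φK hkerK hbbK haK hoppK

/-- The final theorem, absolute version, uniform. -/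
theorem abs_core {k : Type u} [Field k] [IsAlgClosed k] [CharZero k] (A : Subalgebra ℤ k) (hA : A.FG)
    {n : ℕ} (I : Ideal (MvPolynomial (Fin n) A)) (hI : IsHomog I)
    (hs : IsSmoothProj (bI (algebraMap A k) I)) {wt : Fin n → M}
    (hw : IsWHomog wt (bI (algebraMap A k) I))
    (hg : (grP (hI.map (algebraMap A k)) hw).IsGeneralW) :
    ∃ p₀ : ℕ, ∀ p : ℕ, p₀ ≤ p → p.Prime →
      (∀ (m i : ℕ) (μ : M), Module.finrank k ↥((prC (bI (algebraMap A k) I)).Fil m i ⊓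
        (grP (hI.map (algebraMap A k)) hw).HW m (p • μ)) =
          Module.finrank k ↥((prC (bI (algebraMap A k) I)).Fil m i ⊓
            (grP (hI.map (algebraMap A k)) hw).HW m μ)) →
      ∀ 𝔓 ∈ (Ideal.span {(p : A)}).minimalPrimes, IsDenseOrd I 𝔓 := by
  classical
  have ft : ∀ A' : Subalgebra ℤ k, A'.FG → Algebra.FiniteType ℤ A' := fun A' h =>
    (Subalgebra.fg_iff_finiteType A').1 h
  have noe : ∀ A' : Subalgebra ℤ k, A'.FG → IsNoetherianRing A' := fun A' h =>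
    have := ft A' h
    Algebra.FiniteType.isNoetherianRing ℤ A'
  have cz : ∀ A' : Subalgebra ℤ k, CharZero A' := fun A' =>
    ⟨fun a b h => by
      have h1 := congrArg (algebraMap A' k) h
      rw [map_natCast, map_natCast] at h1
      exact Nat.cast_injective h1⟩
  have hnA := noe A hA
  have hfA := ft A hA
  have hcA := cz A
  obtain ⟨a, ha0, -, hd⟩ := exists_hasDat hI hI (algebraMap A k) Subtype.val_injective hs hs
  obtain ⟨A₃, h3, N, D, hgood, hw₃, hsm₃, β, i1, i2, lev, z, h, hD, V, G, mu, Lg, hR, hGen⟩ :=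
    exists_linW A hA I hI hs hw hg
  have hft₃ := ft A₃ hgood.fg
  have hn₃ := noe A₃ hgood.fg
  have hc₃ := cz A₃
  obtain ⟨p₁, hover⟩ := exists_over A A₃ (Subalgebra.inclusion h3).toRingHom
    (Subalgebra.inclusion_injective h3)
  obtain ⟨BA, hBA⟩ := exists_resB A
  obtain ⟨L, iL, φ, B, hB, hBb⟩ := exists_family3 A₃
    (fun p 𝔔 => 𝔔.comap (Subalgebra.inclusion h3).toRingHom ∈ (Ideal.span {(p : A)}).minimalPrimes ∧
      ¬ IsDenseOrd I (𝔔.comap (Subalgebra.inclusion h3).toRingHom))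
  obtain ⟨t, ht⟩ := hgood.dual
  obtain ⟨p₀, hp₀⟩ := LinW.key_U (j := algebraMap A₃ k) Subtype.val_injective
    (mkLinW lev D G mu Lg hD.bound') hgood.der (fun m c c' hcc b₁ b₂ => by
      rw [coef_unique ht hcc]) hGen hB
  refine ⟨p₀ + B 0 + BA 0 + BA a + p₁ + Fintype.card M + 1,
    fun p hp hprime hdimk 𝔓 h𝔓 => ?_⟩
  by_contra hbad
  have hfact : Fact p.Prime := ⟨hprime⟩
  obtain ⟨𝔔₀, h𝔔₀, h𝔔₀c⟩ := hover p hprime (by omega) 𝔓 h𝔓
  obtain ⟨𝔔, h𝔔, ⟨hbad1, hbad2⟩, hker, Λ, iΛ, bb, hbb⟩ := hBb p hprime (by omega)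
    ⟨𝔔₀, h𝔔₀, by rw [h𝔔₀c]; exact h𝔓, by rw [h𝔔₀c]; exact hbad⟩
  have hcp : CharP (L p) p := hB.char p hprime (by omega)
  apply hbad2
  refine dense_of_opp' (p := p) (Subalgebra.inclusion h3).toRingHom hI ha0 hd hbad1 rfl (φ p) hker
    (fun 𝔓 h𝔓 K _ φK hk hf => by
      obtain ⟨h1, -, h2, h3⟩ := hBA p hprime (by omega) 𝔓 h𝔓 K φK hk hf
      exact ⟨h1, h2 a ha0 (by omega), h3⟩) ?_
  have hMp : Function.Injective fun μ : M => p • μ := smul_injective_of_lt hprime (by omega)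
  have hIk : bI (algebraMap A₃ k) (bI (Subalgebra.inclusion h3).toRingHom I) = bI (algebraMap A k) I := by
    rw [bI_bI]
    rfl
  have hdimW := dimCW_of (hI.map _) hw₃ hsm₃ hD hIk (hI.map _) hw (φ p) hbb hMp hdimk
  choose δ hδ using fun l => hB.der p hprime (by omega) (D l)
  have hopp' := hp₀ p hprime (by omega) δ hδ (fun a i => (hD.ad (L p) (φ p)).con a i)
    (con_conjW hD V hR (φ p) hdimW) (con_stabW hD V hR (φ p) δ hδ)
  exact oppC_of_weights (hD.ad (L p) (φ p)) fun a i c hc1 hc2 => hopp' a i c hc1 hc2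

/-- The absolute version, open form. -/
theorem abs_open {k : Type u} [Field k] [IsAlgClosed k] [CharZero k] (A : Subalgebra ℤ k) (hA : A.FG)
    {n : ℕ} (I : Ideal (MvPolynomial (Fin n) A)) (hI : IsHomog I)
    (hs : IsSmoothProj (bI (algebraMap A k) I)) {wt : Fin n → M}
    (hw : IsWHomog wt (bI (algebraMap A k) I))
    (hg : (grP (hI.map (algebraMap A k)) hw).IsGeneralW) :
    ∃ p₀ : ℕ, ∀ p : ℕ, p₀ ≤ p → p.Prime →
      (∀ (m i : ℕ) (μ : M), Module.finrank k ↥((prC (bI (algebraMap A k) I)).Fil m i ⊓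
        (grP (hI.map (algebraMap A k)) hw).HW m (p • μ)) =
          Module.finrank k ↥((prC (bI (algebraMap A k) I)).Fil m i ⊓
            (grP (hI.map (algebraMap A k)) hw).HW m μ)) →
      ∀ 𝔓 ∈ (Ideal.span {(p : A)}).minimalPrimes, IsOpenOrd I 𝔓 := by
  have hfA : Algebra.FiniteType ℤ A := (Subalgebra.fg_iff_finiteType A).1 hA
  have hcA : CharZero A := ⟨fun a b h => by
      have h1 := congrArg (algebraMap A k) h
      rw [map_natCast, map_natCast] at h1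
      exact Nat.cast_injective h1⟩
  obtain ⟨p₀, hp₀⟩ := abs_core A hA I hI hs hw hg
  obtain ⟨c, hc0, -, hdc⟩ := exists_hasDat hI hI (algebraMap A k) Subtype.val_injective hs hs
  obtain ⟨BA, hBA⟩ := exists_resB A
  refine ⟨p₀ + BA 0 + BA c + 1, fun p hp hprime hdimk 𝔓 h𝔓 => ?_⟩
  have hfact : Fact p.Prime := ⟨hprime⟩
  have hpr : 𝔓.IsPrime := h𝔓.1.1
  obtain ⟨hcK, -, hne, Λ, iΛ, bb, hbb⟩ := hBA p hprime (by omega) 𝔓 h𝔓 (FractionRing (A ⧸ 𝔓)) _ (frac_ker 𝔓)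
    (frac_surj 𝔓)
  have hcφ := hne c hc0 (by omega)
  have hd : IsDenseOrd I 𝔓 := hp₀ p (by omega) hprime hdimk 𝔓 h𝔓
  have hopp : IsOppC (prC (bI ((algebraMap (A ⧸ 𝔓) (FractionRing (A ⧸ 𝔓))).comp (Ideal.Quotient.mk 𝔓)) I)) := by
    obtain ⟨hs', β, i1, i2, lev, z, h, hD⟩ := hdc
    exact opp_of_dense hI hc0 hs' hD hd _ (frac_ker 𝔓) (frac_surj 𝔓) hcφ
  exact open_of_opp (p := p) hI hc0 hdc _ (frac_ker 𝔓) (frac_surj 𝔓) hbb hcφ hopp

end

end MPadcGP
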