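import Pool.Agent.Lib.MP_adc574_ag_GP.Parts
import Pool.Agent.Lib.MP_adc574_ag_GP.CarGl
import Pool.Agent.Lib.MP_adc574_ag_GP.CarBr

/-!
# GP: the conjugate filtration of a smooth projective scheme over a field (from CarGl, CarBr)
-/

set_option autoImplicit false

namespace MPadcGP

universe u v w x

/-- PART CAR, dimensions (helper88, helper27). -/
theorem conj_dim {p : ℕ} [Fact p.Prime] {κ : Type u} [Field κ] [CharP κ p] {L : Type} [Fintype L]
    {b : L → κ} (hb : PBas p b) {n : ℕ} {I : Ideal (MvPolynomial (Fin n) κ)} (hI : IsHomog I)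
    (hs : IsSmoothProj I)
    (hf : ∀ q m, FiniteDimensional κ (HH (prC I).Dt ((prC I).Fi (q + 1)) ((prC I).Fi q) m))
    (hsum : ∀ m, ∑ q ∈ Finset.range (m + 1),
      Module.finrank κ (HH (prC I).Dt ((prC I).Fi (q + 1)) ((prC I).Fi q) m) ≤
        Module.finrank κ ((prC I).HdR m)) (m i : ℕ) :
    Module.finrank κ ((prC I).Con m i) + Module.finrank κ ((prC I).Fil m (i + 1)) =
      Module.finrank κ ((prC I).HdR m) := by
  refine CovD.dim_of_carP (b := b) hf hsum (fun J hJ => ?_) m i
  have : Algebra.Smooth κ ((prC I).R J) := IsSmoothProj.smooth hI hs hJ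
  exact carP_of_smooth hb

/-- PART CAR, Bloch-Kato (helper88, helper27). -/
theorem bk_of_opp {p : ℕ} [Fact p.Prime] {κ : Type u} [Field κ] [CharP κ p] [Finite κ] {n : ℕ}
    {I : Ideal (MvPolynomial (Fin n) κ)} (hI : IsHomog I) (hs : IsSmoothProj I)
    (hf : ∀ q m, FiniteDimensional κ (HH (prC I).Dt ((prC I).Fi (q + 1)) ((prC I).Fi q) m))
    (hsum : ∀ m, ∑ q ∈ Finset.range (m + 1),
      Module.finrank κ (HH (prC I).Dt ((prC I).Fi (q + 1)) ((prC I).Fi q) m) ≤
        Module.finrank κ ((prC I).HdR m))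
    (hopp : IsOppC (prC I)) : (prC I).IsBlochKatoOrdinary := by
  have hb : PBas p (fun _ : Unit => (1 : κ)) := by
    intro c
    have hinj : Function.Injective (frobenius κ p) := frobenius_inj κ p
    obtain ⟨d, hd⟩ := (Finite.injective_iff_surjective.1 hinj) c
    have hd' : d ^ p = c := hd
    refine ⟨fun _ => d, ?_, fun a ha => ?_⟩
    · change c = ∑ l : Unit, d ^ p * 1
      rw [Fintype.sum_unique, mul_one, hd']
    · replace ha : c = ∑ l : Unit, a l ^ p * 1 := ha
      rw [Fintype.sum_unique, mul_one] at ha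
      funext _
      apply hinj
      change a default ^ p = d ^ p
      rw [hd', ← ha]
  refine CovD.bk_of_carP (b := fun _ : Unit => (1 : κ)) (p := p) hf hsum (fun J hJ => ?_) hopp
  have : Algebra.Smooth κ ((prC I).R J) := IsSmoothProj.smooth hI hs hJ
  exact carP_of_smooth hb

end MPadcGP
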