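import Pool.Agent.Lib.MP_adc574_ag_GP.GlGen
import Pool.Agent.Lib.MP_adc574_ag_GP.Lifts

/-!
# GP: the conjugate filtration in coordinates (PART GL2)

* `logForms_mem`, `logForms_dd`: logarithmic forms are closed of degree `j`.
* `con_conj`: the conjugate filtration is of conjugate type; `con_stab`: it is stable.
-/

set_option autoImplicit false

namespace MPadcGP

universe u v w x

section lg

variable {A : Type u} {R : Type v} [CommRing A] [CommRing R] [Algebra A R]

private theorem glcon_dlog (u : Rˣ) :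
    fz A ((u⁻¹ : Rˣ) : R) * df A (u : R) ∈ Fd A R 1 ∧ dd A (fz A ((u⁻¹ : Rˣ) : R) * df A (u : R)) = 0 := by
  refine ⟨fz_mul_mem _ (df_mem _), ?_⟩
  rw [dd_mul, dd_fz, dd_df, mul_zero, add_zero]
  have h1 : fz A (u : R) * df A ((u⁻¹ : Rˣ) : R) + fz A ((u⁻¹ : Rˣ) : R) * df A (u : R) = 0 := by
    rw [← df_mul, Units.mul_inv, df_one]
  have h2 : fz A (u : R) * (df A ((u⁻¹ : Rˣ) : R) * df A (u : R)) = 0 := by
    rw [← mul_assoc, eq_neg_of_add_eq_zero_left h1, neg_mul, mul_assoc, df_sq, mul_zero, neg_zero]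
  have h3 : fz A ((u⁻¹ : Rˣ) : R) * (fz A (u : R) * (df A ((u⁻¹ : Rˣ) : R) * df A (u : R))) = 0 := by
    rw [h2, mul_zero]
  rw [← mul_assoc, ← map_mul, Units.inv_mul, map_one, one_mul] at h3
  exact h3

private theorem glcon_prod (j : ℕ) (u : Fin j → Rˣ) :
    (List.ofFn fun l => fz A ((u l)⁻¹ : Rˣ).val * df A (u l).val).prod ∈ Fd A R j ∧
      dd A (List.ofFn fun l => fz A ((u l)⁻¹ : Rˣ).val * df A (u l).val).prod = 0 := by
  induction j with
  | zero =>
    rw [List.ofFn_zero, List.prod_nil]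
    refine ⟨?_, dd_one A⟩
    rw [← map_one (fz A)]
    exact fz_mem 1
  | succ j ih =>
    rw [List.ofFn_succ, List.prod_cons]
    obtain ⟨h1, h2⟩ := ih fun l => u l.succ
    obtain ⟨h3, h4⟩ := glcon_dlog (A := A) (u 0)
    refine ⟨?_, ?_⟩
    · have h5 := fd_mul h3 h1
      have h6 : 1 + j = j + 1 := add_comm 1 j
      rw [h6] at h5
      exact h5
    · rw [dd_mul, h4, h2, zero_mul, mul_zero, add_zero]

theorem logForms_mem {j : ℕ} {ω : Fm A R} (h : ω ∈ logForms A R j) : ω ∈ Fd A R j := by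
  induction h using AddSubgroup.closure_induction with
  | mem x hx =>
    obtain ⟨u, rfl⟩ := hx
    exact (glcon_prod j u).1
  | zero => exact Submodule.zero_mem _
  | add x y _ _ hx hy => exact Submodule.add_mem _ hx hy
  | neg x _ hx => exact Submodule.neg_mem _ hx

theorem logForms_dd {j : ℕ} {ω : Fm A R} (h : ω ∈ logForms A R j) : dd A ω = 0 := by
  induction h using AddSubgroup.closure_induction with
  | mem x hx =>
    obtain ⟨u, rfl⟩ := hx
    exact (glcon_prod j u).2
  | zero => exact map_zero _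
  | add x y _ _ hx hy => rw [map_add, hx, hy, add_zero]
  | neg x _ hx => rw [map_neg, hx, neg_zero]

/-- Logarithmic cocycles are in the conjugate filtration. -/
theorem IsLogCoc.mem_Ni {n : ℕ} {X : CovD.{u, v} A n} {m j : ℕ} {c : X.Ch} (h : IsLogCoc X m j c) :
    c ∈ X.Ni j m :=
  ⟨h.1.1, fun J => ⟨fun h1 => (h.2 J).2 (by omega), fun _ => logForms_dd (h.2 J).1⟩⟩

end lg

section

variable {κ : Type u} [Field κ] {n : ℕ} {X : CovD.{u, v} κ n} {β : ℕ → Type}
    [∀ m, Fintype (β m)] {lev : ∀ m, β m → ℕ} {z : ∀ m, β m → X.Ch} (h : IsAd X lev z)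

theorem IsAd.mem_con {m i : ℕ} {x : β m → κ} : x ∈ h.con m i ↔ h.eqv m x ∈ X.Con m i := Iff.rfl

theorem IsAd.finrank_con (m i : ℕ) : Module.finrank κ (h.con m i) = Module.finrank κ (X.Con m i) := by
  have h1 : X.Con m i = (h.con m i).map (h.eqv m).toLinearMap := by
    ext x
    obtain ⟨y, rfl⟩ := (h.eqv m).surjective x
    constructor
    · intro hy
      exact ⟨y, hy, rfl⟩
    · rintro ⟨y', hy', he⟩
      have h2 : y' = y := (h.eqv m).injective he
      rw [← h2]
      exact hy'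
  rw [h1]
  exact (LinearEquiv.finrank_map_eq (h.eqv m) (h.con m i)).symm

/-- The vectors with zero coordinates outside of `s`. -/
private theorem glcon_finrank {ι : Type} [Fintype ι] (P : ι → Prop) [DecidablePred P]
    (W : Submodule κ (ι → κ)) (hW : ∀ x, x ∈ W ↔ ∀ b, P b → x b = 0) :
    Module.finrank κ W = Fintype.card {b : ι // ¬ P b} := by
  classical
  let e : W ≃ₗ[κ] ({b : ι // ¬ P b} → κ) :=
    { toFun := fun x b => (x : ι → κ) b
      map_add' := fun _ _ => rfl
      map_smul' := fun _ _ => rfl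
      invFun := fun y => ⟨fun b => if hb : P b then 0 else y ⟨b, hb⟩, by
        rw [hW]
        intro b hb
        rw [dif_pos hb]⟩
      left_inv := fun x => by
        apply Subtype.ext
        funext b
        change (if hb : P b then 0 else (x : ι → κ) b) = (x : ι → κ) b
        split_ifs with hb
        · exact ((hW _).1 x.2 b hb).symm
        · rfl
      right_inv := fun y => by
        funext b
        exact dif_neg b.2 }
  rw [e.finrank_eq, Module.finrank_fintype_fun_eq_card]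

include h in
theorem IsAd.finrank_Fil (m i : ℕ) :
    Module.finrank κ (X.Fil m i) = Fintype.card {b : β m // ¬ lev m b < i} := by
  have h1 : X.Fil m i = ((X.Fil m i).comap (h.eqv m).toLinearMap).map (h.eqv m).toLinearMap :=
    (Submodule.map_comap_eq_of_surjective (h.eqv m).surjective _).symm
  rw [h1]
  have h2 : Module.finrank κ (((X.Fil m i).comap (h.eqv m).toLinearMap).map (h.eqv m).toLinearMap) =
      Module.finrank κ ((X.Fil m i).comap (h.eqv m).toLinearMap) := LinearEquiv.finrank_map_eq (h.eqv m) _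
  rw [h2]
  exact glcon_finrank (fun b => lev m b < i) _ fun x => h.eqv_mem_Fil

end

section

variable {A : Type u} [CommRing A] {n : ℕ} {I : Ideal (MvPolynomial (Fin n) A)} {β : ℕ → Type}
    [∀ m, Fintype (β m)] [∀ m, DecidableEq (β m)] {lev : ∀ m, β m → ℕ}
    {z : ∀ m, β m → (prC I).Ch} {h : ℕ → ℕ → ℕ}

set_option linter.unusedVariables false in
/-- PART GL2a: over a field of characteristic `p` the conjugate filtration in coordinates is of
conjugate type. -/
theorem con_conj (hI : IsHomog I) (hD : Dat I lev z h) {N : ℕ} {D : Fin N → Derivation ℤ A A}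
    (V : ∀ l, Lft (prC I) (D l)) {G : ∀ m, Fin N → β m → β m → A}
    {mu : ∀ m m', β m → β m' → β (m + m') → A} {Lg : ∀ m : ℕ, ℕ → Set (β m → A)}
    (hR : LinRel I z V G mu Lg) {κ : Type u} [Field κ] (φ : A →+* κ)
    (hdim : DimC (prC (bI φ I))) :
    (mkLin lev D G mu Lg hD.bound).IsConj φ fun m i => (hD.ad κ φ).con m i := by
  have had := hD.ad κ φ
  refine ⟨fun m i => ?_, fun m i => ?_, fun m m' i i' x hx y hy => ?_, fun m j g hg => ?_⟩
  · intro x hx
    obtain ⟨c, hc, hcx⟩ := CovD.mem_Con.1 hx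
    exact CovD.mem_Con.2 ⟨c, CovD.Ni_mono (Nat.le_succ i) m hc, hcx⟩
  · have h1 := hdim m i
    have h2 := had.finrank_Fil m (i + 1)
    have h3 := had.finrank m
    have h4 := had.finrank_con m i
    have h5 : Fintype.card {b : β m // ¬ lev m b < i + 1} + Fintype.card {b : β m // lev m b < i + 1} =
        Fintype.card (β m) := by
      rw [add_comm, Fintype.card_subtype_compl]
      have h6 := Fintype.card_subtype_le fun b : β m => lev m b < i + 1
      omega
    have h7 : Fintype.card {b : β m // lev m b < i + 1} = Fintype.card {b : β m // lev m b ≤ i} :=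
      Fintype.card_congr (Equiv.subtypeEquivRight fun b => Nat.lt_succ_iff)
    change Module.finrank κ ((hD.ad κ φ).con m i) = Fintype.card {b : β m // lev m b ≤ i}
    omega
  · obtain ⟨c, hc, hcx⟩ := CovD.mem_Con.1 hx
    obtain ⟨c', hc', hcy⟩ := CovD.mem_Con.1 hy
    have h1 : (prC (bI φ I)).cupRel m m' (had.eqv m x) (had.eqv m' y)
        ((prC (bI φ I)).cl (m + m') ⟨_, CovD.cup_mem_Zc c.2 c'.2⟩) := ⟨c, c', _, rfl, hcx, hcy, rfl⟩
    have h2 := glgen_cup had hR.cup h1
    change had.eqv (m + m') _ ∈ (prC (bI φ I)).Con (m + m') (i + i')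
    refine CovD.mem_Con.2 ⟨⟨_, CovD.cup_mem_Zc c.2 c'.2⟩, CovD.cup_mem_Ni hc hc', h2⟩
  · obtain ⟨c, hc, hcg⟩ := hR.log m j g hg
    have h1 := push_mem_Bc (F := prH φ I) hcg
    rw [map_sub, push_lin] at h1
    refine CovD.mem_Con.2 ⟨⟨(prH φ I).push c, push_mem_Zc hc.1⟩, CovD.Hm.push_mem_Ni hc.mem_Ni, ?_⟩
    exact had.cl_eq_eqv m ⟨(prH φ I).push c, push_mem_Zc hc.1⟩ (fun b => φ (g b)) h1

/-- PART GL2b: it is stable. -/
theorem con_stab (hI : IsHomog I) (hD : Dat I lev z h) {N : ℕ} {D : Fin N → Derivation ℤ A A}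
    (V : ∀ l, Lft (prC I) (D l)) {G : ∀ m, Fin N → β m → β m → A}
    {mu : ∀ m m', β m → β m' → β (m + m') → A} {Lg : ∀ m : ℕ, ℕ → Set (β m → A)}
    (hR : LinRel I z V G mu Lg) {κ : Type u} [Field κ] (φ : A →+* κ)
    (δ : Fin N → Derivation ℤ κ κ) (hδ : ∀ l x, δ l (φ x) = φ (D l x)) :
    (mkLin lev D G mu Lg hD.bound).IsStab φ δ fun m i => (hD.ad κ φ).con m i := by
  have had := hD.ad κ φ
  intro m i l x hx
  obtain ⟨V'', hV''⟩ := exists_lft_map hI φ D V (fun l' => if l' = l then (1 : κ) else 0) (δ l)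
    (fun a => by
      simp only [ite_mul, one_mul, zero_mul, Finset.sum_ite_eq', Finset.mem_univ, if_true]
      exact hδ l a)
  obtain ⟨c, hc, hcx⟩ := CovD.mem_Con.1 hx
  have h1 : (prC (bI φ I)).gaussManin m (δ l) (had.eqv m x)
      ((prC (bI φ I)).cl m ⟨V''.Gm c, V''.Gm_mem_Zc c.2⟩) := ⟨V'', c, _, rfl, hcx, rfl⟩
  have h2 := glgen_nab had V hR.gm (fun m b => (hD.self.mem m b).1) _ V'' hV'' h1
  have h3 : (fun b' => δ l (x b') + ∑ l', (if l' = l then (1 : κ) else 0) *
      ∑ b, φ (G m l' b' b) * x b) = (mkLin lev D G mu Lg hD.bound).con φ m l (δ l) x := by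
    funext b'
    simp only [ite_mul, one_mul, zero_mul, Finset.sum_ite_eq', Finset.mem_univ, if_true]
    rfl
  rw [h3] at h2
  exact CovD.mem_Con.2 ⟨⟨V''.Gm c, V''.Gm_mem_Zc c.2⟩, V''.Gm_mem_Ni hc, h2⟩

end

end MPadcGP
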