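import Pool.Agent.Lib.MP_adc574_ag_GP.Def

/-!
# Ordinary reduction: the definitions for the relative version

`X ⊆ Y` are the projective schemes with the ideals `I₀ ⊆ I`: `I₀` is the ideal of `Y`, `I` the ideal of `X`.
-/

set_option autoImplicit false

namespace OrdRed

universe u v w x

section linear

variable {k : Type u} [Field k] {n : ℕ} {M : Type w} (X : Cover.{u, v} k n)
  (H : ∀ m : ℕ, M → Submodule k (X.DR m)) (T : ∀ m : ℕ, Submodule k (X.DR m))

/-- General position relative to `T m ⊆ H^m_dR(X)`: the condition `General` is only demanded for the filtrations `P` of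
conjugate type which are opposite to the Hodge filtration on `T m`: every element of `T m` is the sum of an element of
`P m i ∩ T m` and an element of `F^{i+1} ∩ T m`. -/
def GeneralRel : Prop :=
  ∀ P : ∀ m : ℕ, ℕ → Submodule k (X.DR m), ConjugateType X H P →
    (∀ m i, T m ≤ P m i ⊓ T m ⊔ X.hodge m (i + 1) ⊓ T m) → ∀ (m i : ℕ) (μ : M),
      Position (fun D (x y : H m μ) => X.nabla m D x y) (Module.finrank k ↥(X.hodge m (i + 1) ⊓ H m μ))
        {x | (x : X.DR m) ∈ X.hodge m (i + 1)} {x | (x : X.DR m) ∈ P m i}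

end linear

section proj

variable {A : Type u} [CommRing A] {n : ℕ} (I₀ I : Ideal (MvPolynomial (Fin n) A))

/-- The image of `H^m_dR(Y)` in `H^m_dR(X)`: the span of the classes of the restrictions of the cocycles of `Y`, where
the restriction `Fun I₀ J → Fun I J` is the homomorphism `x_l / x_j ↦ x_l / x_j`. -/
noncomputable def image (m : ℕ) : Submodule A ((proj I).DR m) :=
  Submodule.span A {x | ∃ (g : ∀ J, Fun I₀ J →ₐ[A] Fun I J) (c : (proj I₀).Cochain),
    (∀ J (l j : Fin n) (z : Fun I₀ J), j ∈ J → IsQuot l j z → IsQuot l j (g J z)) ∧ c ∈ (proj I₀).Z m ∧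
      (proj I).HasClass m (fun J => pull (g J : Fun I₀ J →+* Fun I J) (fun a => ⟨a, (g J).commutes a⟩) (c J)) x}

/-- The closed points `s` of `V(𝔓)` for which the fibre `X_s` is smooth and ordinary are dense in `V(𝔓) ⊆ Spec A`. -/
def DenseOrdinary (𝔓 : Ideal A) : Prop :=
  ∀ b ∉ 𝔓, ∃ 𝔪 : Ideal A, 𝔪.IsMaximal ∧ 𝔓 ≤ 𝔪 ∧ b ∉ 𝔪 ∧
    SmoothProj (change I (Ideal.Quotient.mk 𝔪)) ∧ (proj (change I (Ideal.Quotient.mk 𝔪))).Ordinary

end proj

end OrdRed
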