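import Pool.Agent.Lib.MP_adc574_ag_GP.BrW
import Pool.Agent.Lib.MP_adc574_ag_GP.Def3
import Pool.Agent.Lib.MP_adc574_ag_GP.Parts3

/-!
# The bridge to the internal definitions: the relative version
-/

set_option autoImplicit false
set_option linter.unusedSectionVars false

namespace OrdRed

open MPadcGP

universe u v w x

section image

variable {k : Type u} [Field k] {n : ℕ} {X₀ X : CovD.{u, v} k n} {M : Type} [AddCommGroup M]
  [Fintype M] [DecidableEq M] {W₀ : GrX X₀ M} {W : GrX X M} (F : CovD.Hm (RingHom.id k) X₀ X)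

/-- The image of the cohomology. -/
noncomputable def imU (m : ℕ) : Submodule k (X.HdR m) :=
  Submodule.span k {x | ∃ (c : ↥(X₀.Zc m)) (c' : ↥(X.Zc m)), (c' : X.Ch) = F.push c ∧ X.cl m c' = x}

/-- The image of the cohomology, for the cover of `X`. -/
noncomputable def imC (m : ℕ) : Submodule k ((cov X).DR m) :=
  (imU F m).map (cmp X m : X.HdR m →ₗ[k] (cov X).DR m)

variable {F}

theorem imU_part (hF : GrX.HmGr W₀ W F) {m : ℕ} {x : X.HdR m} (hx : x ∈ imU F m) (μ : M) :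
    ∃ y ∈ imW F W₀ W (m, μ), (y : X.HdR m) = pH W m μ x := by
  have h1 : pH W m μ x ∈ (imW F W₀ W (m, μ)).map (W.HW m μ).subtype := by
    refine Submodule.span_induction (p := fun x _ => pH W m μ x ∈ (imW F W₀ W (m, μ)).map (W.HW m μ).subtype)
      ?_ ?_ ?_ ?_ hx
    · rintro _ ⟨c, c', h, rfl⟩
      have h2 : W.P μ (c' : X.Ch) = F.push (W₀.P μ c) := by rw [h, hF.push_P]
      refine ⟨⟨pH W m μ (X.cl m c'), pH_mem W m μ _⟩, Submodule.subset_span
        ⟨⟨W₀.P μ c, W₀.P_mem_Zc c.2 μ⟩, ⟨W.P μ c', W.P_mem_Zc c'.2 μ⟩, W₀.P_mem μ c, h2, (pH_cl W m μ c').symm⟩, rfl⟩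
    · rw [map_zero]
      exact Submodule.zero_mem _
    · intro x y _ _ hx hy
      rw [map_add]
      exact Submodule.add_mem _ hx hy
    · intro a x _ hx
      rw [map_smul]
      exact Submodule.smul_mem _ a hx
  obtain ⟨y, hy, hyx⟩ := h1
  exact ⟨y, hy, hyx⟩

theorem imU_of_part {m : ℕ} {μ : M} {y : ↥(W.HW m μ)} (hy : y ∈ imW F W₀ W (m, μ)) : (y : X.HdR m) ∈ imU F m := by
  have h1 : imW F W₀ W (m, μ) ≤ (imU F m).comap (W.HW m μ).subtype := by
    refine Submodule.span_le.2 ?_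
    rintro y ⟨c, c', _, h, hy⟩
    exact Submodule.subset_span ⟨c, c', h, hy⟩
  exact h1 hy

end image

section general

variable {k : Type u} [Field k] {n : ℕ} {X₀ X : CovD.{u, v} k n} {M : Type} [AddCommGroup M]
  [Fintype M] [DecidableEq M] {W₀ : GrX X₀ M} {W : GrX X M} {F : CovD.Hm (RingHom.id k) X₀ X}

theorem generalRel_imp (hF : GrX.HmGr W₀ W F) (hV : ∀ D : Derivation ℤ k k, Nonempty (Lft X D))
    (h : GeneralRel (cov X) (HC W) (imC F)) : IsGeneral3 F W₀ W := by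
  let i1 : ∀ a : ℕ × M, AddCommGroup ↥(W.HW a.1 a.2) := fun _ => inferInstance
  let i2 : ∀ a : ℕ × M, Module k ↥(W.HW a.1 a.2) := fun _ => inferInstance
  intro P hP a i
  obtain ⟨m, μ⟩ := a
  -- the filtrations
  let Q : ∀ m : ℕ, ℕ → Submodule k (X.HdR m) := fun m i => smW W (fun a => P a i) m
  let P' : ∀ m : ℕ, ℕ → Submodule k ((cov X).DR m) := fun m i =>
    (Q m i).map (cmp X m : X.HdR m →ₗ[k] (cov X).DR m)
  have hQ : ∀ m i μ, Q m i ⊓ W.HW m μ = (P (m, μ) i).map (W.HW m μ).subtype := fun m i μ =>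
    smW_inf W (fun a => P a i) m μ
  have hfrs : ∀ m i μ, Module.finrank k ((P (m, μ) i).map (W.HW m μ).subtype) = Module.finrank k (P (m, μ) i) :=
    fun m i μ => (Submodule.equivMapOfInjective (W.HW m μ).subtype Subtype.val_injective
      (P (m, μ) i)).finrank_eq.symm
  have hconj : ConjugateType (cov X) (HC W) P' :=
    { mono := fun m i => Submodule.map_mono (iSup_mono fun μ => Submodule.map_mono (hP.mono (m, μ) i))
      homog := by
        rintro m i _ ⟨x, hx, rfl⟩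
        have h1 : (cmp X m : X.HdR m →ₗ[k] (cov X).DR m) x =
            ∑ μ, (cmp X m : X.HdR m →ₗ[k] (cov X).DR m) (pH W m μ x) := by
          rw [← map_sum, sum_pH]
        rw [h1]
        refine Submodule.sum_mem _ fun μ _ => Submodule.mem_iSup_of_mem μ ⟨⟨_, ?_, rfl⟩, ⟨_, pH_mem W m μ x, rfl⟩⟩
        have h2 := (mem_smW_iff W (fun a => P a i)).1 hx μ
        exact Submodule.mem_iSup_of_mem μ h2
      dim := by
        intro m i μ
        change Module.finrank k ↥((Q m i).map (cmp X m : X.HdR m →ₗ[k] (cov X).DR m) ⊓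
          (W.HW m μ).map (cmp X m : X.HdR m →ₗ[k] (cov X).DR m)) + Module.finrank k ↥((cov X).hodge m (i + 1) ⊓
          (W.HW m μ).map (cmp X m : X.HdR m →ₗ[k] (cov X).DR m)) = Module.finrank k
            ((W.HW m μ).map (cmp X m : X.HdR m →ₗ[k] (cov X).DR m))
        rw [hodge_map, map_cmp_inf, map_cmp_inf, finrank_map_cmp, finrank_map_cmp, finrank_map_cmp, hQ, hfrs,
          ← MPadcGP2.finrank_submoduleOf]
        exact hP.dim (m, μ) i
      mul := by
        rintro m m' i i' _ ⟨x, hx, rfl⟩ _ ⟨y, hy, rfl⟩ z hz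
        obtain ⟨z, rfl⟩ := (cmp X (m + m')).surjective z
        obtain ⟨a, b, c, habc, rfl, rfl, rfl⟩ := prod_iff.1 hz
        refine (map_cmp_mem _ _).2 ?_
        have hx' := fun ν => (mem_smW_iff W (fun a => P a i)).1 hx ν
        have hy' := fun ν => (mem_smW_iff W (fun a => P a i')).1 hy ν
        have hterm : ∀ ν κ, X.cl (m + m') ⟨X.cup (W.P ν a) (W.P κ b), cup_class ν κ⟩ ∈ Q (m + m') (i + i') := by
          intro ν κ
          obtain ⟨x1, hx1, hx2⟩ := hx' ν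
          obtain ⟨y1, hy1, hy2⟩ := hy' κ
          have hw : X.cl (m + m') ⟨X.cup (W.P ν a) (W.P κ b), cup_class ν κ⟩ ∈ W.HW (m + m') (ν + κ) :=
            W.mem_HW.2 ⟨_, W.cup_mem_Wt (W.P_mem ν a) (W.P_mem κ b), rfl⟩
          have h1 := hP.mul (m, ν) (m', κ) i i' x1 hx1 y1 hy1 ⟨_, hw⟩
            ⟨⟨W.P ν a, W.P_mem_Zc a.2 ν⟩, ⟨W.P κ b, W.P_mem_Zc b.2 κ⟩, ⟨_, cup_class ν κ⟩, rfl, ?_, ?_, rfl⟩
          · exact Submodule.mem_iSup_of_mem (ν + κ) ⟨_, h1, rfl⟩
          · rw [← pH_cl]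
            exact hx2.symm
          · rw [← pH_cl]
            exact hy2.symm
        have hc : c = ∑ ρ, ∑ ν, (⟨X.cup (W.P ν a) (W.P (ρ - ν) b), cup_class ν (ρ - ν)⟩ : ↥(X.Zc (m + m'))) := by
          apply Subtype.ext
          rw [Submodule.coe_sum, ← habc, ← W.sum_P (X.cup (a : X.Ch) b)]
          refine Finset.sum_congr rfl fun ρ _ => ?_
          rw [Submodule.coe_sum, W.P_cup]
        rw [hc, map_sum]
        refine Submodule.sum_mem _ fun ρ _ => ?_
        rw [map_sum]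
        exact Submodule.sum_mem _ fun ν _ => hterm ν (ρ - ν)
      log := by
        intro m j x hx
        obtain ⟨x, rfl⟩ := (cmp X m).surjective x
        obtain ⟨c, rfl, hc⟩ := dlog_iff.1 hx
        refine (map_cmp_mem _ _).2 ((mem_smW_iff W (fun a => P a j)).2 fun μ => ?_)
        refine ⟨⟨pH W m μ (X.cl m c), pH_mem W m μ _⟩, hP.log (m, μ) j _ ?_, rfl⟩
        exact ⟨c, ⟨W.P μ c, W.P_mem_Zc c.2 μ⟩, ⟨c.2, hc⟩, rfl, (pH_cl W m μ c).symm⟩ }
  have hrel : ∀ m i, imC F m ≤ P' m i ⊓ imC F m ⊔ (cov X).hodge m (i + 1) ⊓ imC F m := by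
    rintro m i _ ⟨x, hx, rfl⟩
    have h1 : (cmp X m : X.HdR m →ₗ[k] (cov X).DR m) x =
        ∑ μ, (cmp X m : X.HdR m →ₗ[k] (cov X).DR m) (pH W m μ x) := by
      rw [← map_sum, sum_pH]
    rw [h1]
    refine Submodule.sum_mem _ fun μ _ => ?_
    obtain ⟨y, hy, hyx⟩ := imU_part hF hx μ
    obtain ⟨a, ⟨ha1, ha2⟩, b, ⟨hb1, hb2⟩, hab⟩ := Submodule.mem_sup.1 (hP.rel (m, μ) i hy)
    have h2 : pH W m μ x = (a : X.HdR m) + b := by rw [← hyx, ← hab]; rfl
    rw [h2, map_add]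
    refine Submodule.add_mem_sup ⟨?_, ?_⟩ ⟨?_, ?_⟩
    · exact (map_cmp_mem _ _).2 (Submodule.mem_iSup_of_mem μ ⟨a, ha1, rfl⟩)
    · exact ⟨_, imU_of_part ha2, rfl⟩
    · exact hodge_iff.2 hb1
    · exact ⟨_, imU_of_part hb2, rfl⟩
  generalize hr : Module.finrank k ((X.Fil m (i + 1)).submoduleOf (W.HW m μ)) = r
  intro U hU hω
  have hU' : IsHorizontal (fun D (x y : ↥(W.HW m μ)) => X.gaussManin m D x y) U := hU
  have hω' : ∃ ω ∈ U, ω ≠ 0 ∧ ∀ x, (∃ u, x u ∈ P (m, μ) i) → ω x = 0 := hω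
  change ∃ ω ∈ U, ∃ x : Fin r → ↥(W.HW m μ), (∀ u, x u ∈ (X.Fil m (i + 1)).submoduleOf (W.HW m μ)) ∧ ω x ≠ 0
  clear hω hU
  -- the forms
  let e : ↥(W.HW m μ) ≃ₗ[k] ↥(HC W m μ) := (cmp X m).submoduleMap (W.HW m μ)
  have he : ∀ x, (e x : (cov X).DR m) = cmp X m x := fun x => rfl
  have he' : ∀ y, cmp X m (e.symm y : X.HdR m) = y := fun y => by
    rw [← he, e.apply_symm_apply]
  let T : (↥(W.HW m μ) [⋀^Fin r]→ₗ[k] k) →ₗ[k] (↥(HC W m μ) [⋀^Fin r]→ₗ[k] k) :=
    { toFun := fun ω => ω.compLinearMap (e.symm : ↥(HC W m μ) →ₗ[k] ↥(W.HW m μ))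
      map_add' := fun ω ω' => by
        ext x
        rfl
      map_smul' := fun a ω => by
        ext x
        rfl }
  have hT : ∀ ω x, T ω x = ω fun l => e.symm (x l) := fun ω x => rfl
  have hT' : ∀ ω (x : Fin r → ↥(W.HW m μ)), T ω (fun l => e (x l)) = ω x := by
    intro ω x
    rw [hT]
    congr 1
    funext l
    exact e.symm_apply_apply (x l)
  obtain ⟨ω, hω1, hω2, hω3⟩ := hω'
  have hrr : r = Module.finrank k ↥((cov X).hodge m (i + 1) ⊓ HC W m μ) := by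
    change r = Module.finrank k ↥((cov X).hodge m (i + 1) ⊓
      (W.HW m μ).map (cmp X m : X.HdR m →ₗ[k] (cov X).DR m))
    rw [hodge_map, map_cmp_inf, finrank_map_cmp, ← MPadcGP2.finrank_submoduleOf]
    exact hr.symm
  have hpos := h P' hconj hrel m i μ
  rw [← hrr] at hpos
  have hmain := hpos (U.map T) ?_ ⟨T ω, ⟨ω, hω1, rfl⟩, ?_, ?_⟩
  · obtain ⟨_, ⟨ω', hω', rfl⟩, x, hx, hne⟩ := hmain
    refine ⟨ω', hω', fun l => e.symm (x l), fun l => ?_, ?_⟩
    · change (e.symm (x l) : X.HdR m) ∈ X.Fil m (i + 1)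
      apply hodge_iff.1
      rw [he']
      exact hx l
    · rw [← hT]
      exact hne
  · intro D
    rintro _ ⟨ω, hω, rfl⟩
    obtain ⟨ω', hω', h1⟩ := hU' D ω hω
    refine ⟨T ω', ⟨ω', hω', rfl⟩, fun x y hxy => ?_⟩
    obtain ⟨V⟩ := hV D
    have h2 := h1 (fun l => e.symm (x l)) (fun l => e.symm (y l)) fun l => by
      apply nabla_imp V
      rw [he', he']
      exact hxy l
    rw [hT, hT, h2]
    congr 1
    refine Finset.sum_congr rfl fun l _ => ?_
    rw [hT]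
    congr 1
    funext l'
    by_cases hl : l' = l
    · subst hl
      rw [Function.update_self, Function.update_self]
    · rw [Function.update_of_ne hl, Function.update_of_ne hl]
  · intro h0
    apply hω2
    ext x
    rw [← hT' ω x, h0]
    rfl
  · rintro x ⟨l, hl⟩
    rw [hT]
    apply hω3
    refine ⟨l, ?_⟩
    have h1 : cmp X m (e.symm (x l) : X.HdR m) ∈ (Q m i).map (cmp X m : X.HdR m →ₗ[k] (cov X).DR m) := by
      rw [he']
      exact hl
    have h2 : (e.symm (x l) : X.HdR m) ∈ Q m i ⊓ W.HW m μ := ⟨(map_cmp_mem _ _).1 h1, (e.symm (x l)).2⟩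
    rw [hQ] at h2
    obtain ⟨y, hy, hyx⟩ := h2
    have h3 : y = e.symm (x l) := Subtype.ext hyx
    change e.symm (x l) ∈ P (m, μ) i
    rw [← h3]
    exact hy

end general

end OrdRed
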