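import Pool.Agent.Lib.MP_adc574_ag_GP.BrD
import Pool.Agent.Lib.MP_adc574_ag_GP.Fin

/-!
# The bridge to the internal definitions V: projective schemes
-/

set_option autoImplicit false

namespace OrdRed

open MPadcGP

universe u v w x

section proj

variable {A : Type u} [CommRing A] {n : ℕ} (I : Ideal (MvPolynomial (Fin n) A)) {J K : Finset (Fin n)}

theorem tr_unique (h : J ⊆ K) (g : chart I J →ₐ[A] chart I K)
    (h1 : ∀ (l j : Fin n) (z : chart I J), j ∈ J → z.1 * lx I J j = lx I J l → (g z).1 * lx I K j = lx I K l) :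
    g = tr I h := by
  refine AlgHom.ext fun x => ?_
  refine chart_ind (P := fun x => g x = tr I h x) I J (fun a => ?_) (fun l m hm => ?_) (fun x y hx hy => ?_)
    (fun x y hx hy => ?_) x
  · exact (g.commutes a).trans ((tr I h).commutes a).symm
  · have h2 : (g (cq I J l hm)).1 * lx I K m = lx I K l := h1 l m (cq I J l hm) hm (cq_mul_lx I J l hm)
    rw [tr_cq]
    apply Subtype.ext
    apply (lx_isUnit I K (h hm)).mul_right_cancel
    rw [cq_mul_lx]
    exact h2
  · rw [map_add, map_add, hx, hy]
  · rw [map_mul, map_mul, hx, hy]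

theorem restriction_eq (h : J ⊆ K) : (restriction h : chart I J →ₐ[A] chart I K) = tr I h :=
  tr_unique I h _ (exists_restriction (I := I) h).choose_spec

theorem proj_eq : proj I = cov (prC I) := by
  have h2 : ∀ f g : ∀ J K : Finset (Fin n), J ⊆ K → (chart I J →ₐ[A] chart I K),
      f = g → (({ R := fun J => chart I J, res := fun {J K} h => f J K h } : Cover.{u, u} A n) =
        { R := fun J => chart I J, res := fun {J K} h => g J K h }) := by
    rintro f g rfl
    rfl
  exact h2 _ _ (funext fun J => funext fun K => funext fun h => restriction_eq I h)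

end proj

section main

theorem hasOrdinaryFibre_of {A : Type u} [CommRing A] {n : ℕ} {I : Ideal (MvPolynomial (Fin n) A)} {b : A} {p : ℕ}
    (h : HasOrdinaryPoint I b p) : HasOrdinaryFibre I b p := by
  obtain ⟨𝔪, h1, h2, h3, h4, h5⟩ := h
  refine ⟨𝔪, h1, h2, h3, h4, ?_⟩
  rw [proj_eq]
  exact ordinary_of h5

end main

end OrdRed
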