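import Pool.Agent.Lib.MP_adc574_ag_GP.ClB

/-!
# Descent of the vanishing of the cohomology of the exact forms along a split extension of the constants
-/

set_option autoImplicit false

namespace MPadcGP

open MvPolynomial TensorProduct

universe u v w x

namespace CovD

section retr

variable {A : Type u} {B : Type w} [CommRing A] [CommRing B] [Algebra A B] {n : ℕ}
  {X : CovD.{u, v} A n} {Y : CovD.{w, x} B n} (F : Hm (algebraMap A B) X Y) (hF : F.IsBC)
  (r : B →ₗ[A] A)

/-- The retraction of the forms given by a retraction of the constants. -/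
noncomputable def Hm.rt (J : Finset (Fin n)) (hJ : J.Nonempty) : Y.E J →+ X.E J :=
  ((TensorProduct.lid A (X.E J)).toLinearMap.comp (r.rTensor (X.E J))).toAddMonoidHom.comp
    (LinearEquiv.ofBijective (bcf (F.hb J)) (bcf_bijective (F.hb J) (hF J hJ))).symm.toLinearMap.toAddMonoidHom

theorem Hm.rt_smul (J : Finset (Fin n)) (hJ : J.Nonempty) (b : B) (e : X.E J) :
    F.rt hF r J hJ (b • F.e J e) = r b • e := by
  let E := LinearEquiv.ofBijective (bcf (F.hb J)) (bcf_bijective (F.hb J) (hF J hJ))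
  have h1 : E.symm (b • F.e J e) = b ⊗ₜ[A] e := by
    apply E.injective
    rw [LinearEquiv.apply_symm_apply]
    exact (bcf_tmul (F.hb J) b e).symm
  change (TensorProduct.lid A (X.E J)) (r.rTensor (X.E J) (E.symm (b • F.e J e))) = _
  rw [h1, LinearMap.rTensor_tmul, TensorProduct.lid_tmul]

include hF in
/-- Induction on the forms of the base change. -/
theorem Hm.e_ind {J : Finset (Fin n)} (hJ : J.Nonempty) {P : Y.E J → Prop} (h0 : P 0)
    (h1 : ∀ (b : B) (e : X.E J), P (b • F.e J e)) (h2 : ∀ x y, P x → P y → P (x + y))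
    (y : Y.E J) : P y := by
  obtain ⟨x, rfl⟩ := (bcf_bijective (F.hb J) (hF J hJ)).2 y
  induction x using TensorProduct.induction_on with
  | zero => rw [map_zero]; exact h0
  | tmul b e => rw [bcf_tmul]; exact h1 b e
  | add x y hx hy => rw [map_add]; exact h2 _ _ hx hy

include hF in
theorem Hm.e_ind_mem {J : Finset (Fin n)} (hJ : J.Nonempty) {q : ℕ} {P : Y.E J → Prop} (h0 : P 0)
    (h1 : ∀ (b : B), ∀ e ∈ Fd A (X.R J) q, P (b • F.e J e)) (h2 : ∀ x y, P x → P y → P (x + y))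
    {y : Y.E J} (hy : y ∈ Fd B (Y.R J) q) : P y := by
  obtain ⟨x, hx⟩ := (bc_fo (F.hb J) (hF J hJ) (some q)).2 ⟨y, hy⟩
  have h3 : ∀ x : B ⊗[A] ↥(FdO A (X.R J) (some q)),
      P ((bcl (mpo (F.hb J) (some q)) (mpo_smul (F.hb J) (some q)) x : ↥(FdO B (Y.R J) (some q))) :
        Y.E J) := by
    intro x
    induction x using TensorProduct.induction_on with
    | zero => rw [map_zero]; exact h0
    | tmul b e => rw [bcl_tmul]; exact h1 b e e.2
    | add x y hx hy => rw [map_add]; exact h2 _ _ hx hy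
  have h4 := h3 x
  rw [hx] at h4
  exact h4

theorem Hm.rt_dd {J : Finset (Fin n)} (hJ : J.Nonempty) (y : Y.E J) :
    dd A (F.rt hF r J hJ y) = F.rt hF r J hJ (dd B y) := by
  induction y using F.e_ind hF hJ with
  | h0 => simp only [map_zero]
  | h1 b e => rw [Hm.rt_smul, dd_smul, dd_smul, ← Hm.e_dd, Hm.rt_smul]
  | h2 x y hx hy => simp only [map_add, hx, hy]

theorem Hm.rt_rs {J K : Finset (Fin n)} (hJ : J.Nonempty) (hK : K.Nonempty) (h : J ⊆ K)
    (y : Y.E J) : X.rs h (F.rt hF r J hJ y) = F.rt hF r K hK (Y.rs h y) := by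
  induction y using F.e_ind hF hJ with
  | h0 => simp only [map_zero]
  | h1 b e => rw [Hm.rt_smul, rs_smul, rs_smul, ← Hm.e_rs, Hm.rt_smul]
  | h2 x y hx hy => simp only [map_add, hx, hy]

theorem Hm.rt_mem {J : Finset (Fin n)} (hJ : J.Nonempty) {q : ℕ} {y : Y.E J}
    (hy : y ∈ Fd B (Y.R J) q) : F.rt hF r J hJ y ∈ Fd A (X.R J) q := by
  refine F.e_ind_mem hF hJ (P := fun y => F.rt hF r J hJ y ∈ Fd A (X.R J) q) ?_ ?_ ?_ hy
  · rw [map_zero]
    exact Submodule.zero_mem _
  · intro b e he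
    rw [Hm.rt_smul, ← algebraMap_smul (X.R J)]
    exact Submodule.smul_mem _ _ he
  · intro x y hx hy
    rw [map_add]
    exact Submodule.add_mem _ hx hy

theorem mem_exactForms {A : Type u} {R : Type v} [CommRing A] [CommRing R] [Algebra A R] {q : ℕ}
    {e : Fm A R} : e ∈ exactForms A R q ↔ ∃ f ∈ Fd A R q, dd A f = e := Iff.rfl

theorem Hm.rt_exact {J : Finset (Fin n)} (hJ : J.Nonempty) {q : ℕ} {y : Y.E J}
    (hy : y ∈ exactForms B (Y.R J) q) : F.rt hF r J hJ y ∈ exactForms A (X.R J) q := by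
  obtain ⟨f, hf, rfl⟩ := mem_exactForms.1 hy
  exact mem_exactForms.2 ⟨_, F.rt_mem hF r hJ hf, F.rt_dd hF r hJ f⟩

theorem Hm.e_exact {J : Finset (Fin n)} {q : ℕ} {e : X.E J} (he : e ∈ exactForms A (X.R J) q) :
    F.e J e ∈ exactForms B (Y.R J) q := by
  obtain ⟨f, hf, rfl⟩ := mem_exactForms.1 he
  exact mem_exactForms.2 ⟨_, Hm.e_mem hf, (Hm.e_dd J f).symm⟩

/-- The descent. -/
theorem Hm.bk_descent (hF : F.IsBC) (hr : r 1 = 1) (h : Y.IsBlochKatoOrdinary) :
    X.IsBlochKatoOrdinary := by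
  classical
  intro q j c hc hd
  have h1 : Y.exCoc q j (F.push c) := by
    refine ⟨by rw [push_apply, hc.1, map_zero], fun J => ⟨F.e_exact (hc.2 J).1, fun hJ => ?_⟩⟩
    rw [push_apply, (hc.2 J).2 hJ, map_zero]
  obtain ⟨b, hb, hb0, hdb⟩ := h q j (F.push c) h1 (by rw [← push_del, hd, map_zero])
  let a : X.Ch := fun J => if hJ : J.Nonempty then F.rt hF r J hJ (b J) else 0
  have ha : ∀ J (hJ : J.Nonempty), a J = F.rt hF r J hJ (b J) := fun J hJ => dif_pos hJ
  have ha0 : a ∅ = 0 := dif_neg Finset.not_nonempty_empty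
  refine ⟨a, fun J => ?_, ha0, ?_⟩
  · rcases J.eq_empty_or_nonempty with hJ | hJ
    · subst hJ
      rw [ha0]
      exact ⟨Submodule.zero_mem _, fun _ => rfl⟩
    · rw [ha J hJ]
      exact ⟨F.rt_exact hF r hJ (hb J).1, fun h2 => by rw [(hb J).2 h2, map_zero]⟩
  · funext J
    rcases J.eq_empty_or_nonempty with hJ | hJ
    · subst hJ
      rw [hc.1, del_apply, Finset.sum_empty]
    · have h2 : c J = F.rt hF r J hJ (F.e J (c J)) := by
        have h3 := F.rt_smul hF r J hJ 1 (c J)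
        rw [one_smul, hr, one_smul] at h3
        exact h3.symm
      have h3 : F.e J (c J) = Y.del b J := by rw [hdb]; rfl
      rw [h2, h3, del_apply, del_apply, map_sum]
      refine Finset.sum_congr rfl fun i hi => ?_
      rw [map_zsmul]
      congr 1
      have hs := Finset.erase_subset i J
      rcases (J.erase i).eq_empty_or_nonempty with hK | hK
      · rw [hK, ev_eq_zero ha0, ev_eq_zero hb0, map_zero]
      · rw [ev_of hs, ev_of hs, ha _ hK, F.rt_rs hF r hK hJ hs]

end retr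

end CovD

/-- Descent of the vanishing of `H ^ j (B Ω ^ (q + 1))`. -/
theorem bk_descent {κ₀ : Type u} [CommRing κ₀] {κ : Type v} [CommRing κ] (φ : κ₀ →+* κ)
    (hφ : ∃ r : κ →+ κ₀, r 1 = 1 ∧ ∀ a b, r (φ a * b) = a * r b) {n : ℕ}
    {I : Ideal (MvPolynomial (Fin n) κ₀)} (hI : IsHomog I)
    (h : (prC (bI φ I)).IsBlochKatoOrdinary) : (prC I).IsBlochKatoOrdinary := by
  obtain ⟨r, hr1, hr⟩ := hφ
  let _ : Algebra κ₀ κ := φ.toAlgebra
  let r' : κ →ₗ[κ₀] κ₀ :=
    { toFun := r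
      map_add' := map_add r
      map_smul' := fun a b => hr a b }
  have hBC : (prH φ I : CovD.Hm (algebraMap κ₀ κ) (prC I) (prC (bI φ I))).IsBC :=
    prM_isBC hI rfl (bI_mem φ I)
  exact CovD.Hm.bk_descent (prH φ I) r' hBC hr1 h

end MPadcGP
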