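import Pool.Agent.Lib.MP_adc574_ag_GP.Parts
import Pool.Agent.Lib.MP_adc574_ag_GP.Lifts

/-!
# GP: part LOG, descent of the logarithmic classes (helper10)

* `lg_inj`: injectivity of the maps of the charts.
* `lg_fun`, `lg_unit`, `lg_form`, `lg_coc`: functions, units, logarithmic forms and logarithmic cocycles
  over `k` come from every large ring of constants.
* `exists_logs`: the logarithmic classes over `k` are spanned by finitely many logarithmic cocycles over
  every large ring.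
-/

set_option autoImplicit false

namespace MPadcGP

open MvPolynomial

universe u

section mor

variable {A B C : Type u} [CommRing A] [CommRing B] [CommRing C] {n : ℕ}

/-- The morphism of the cover data given by the homomorphism `ψ` of the constants. -/
noncomputable def lgM (ψ : A →+* B) {I : Ideal (MvPolynomial (Fin n) A)}
    {I' : Ideal (MvPolynomial (Fin n) B)} (h : ∀ f ∈ I, MvPolynomial.map ψ f ∈ I') :
    CovD.Hm ψ (prC I) (prC I') where
  h J := cmap ψ h (Finset.Subset.refl J)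
  base J a := cmap_base ψ h (Finset.Subset.refl J) a
  comm := by
    intro J K hJ r
    change cmap ψ h (Finset.Subset.refl K) (tr I hJ r) = tr I' hJ (cmap ψ h (Finset.Subset.refl J) r)
    induction r using chart_ind with
    | h1 a => rw [AlgHom.commutes, cmap_base, cmap_base, AlgHom.commutes]
    | h2 l m hm => rw [tr_cq, cmap_cq, cmap_cq, tr_cq]
    | h3 x y hx hy => rw [map_add, map_add, hx, hy, map_add, map_add]
    | h4 x y hx hy => rw [map_mul, map_mul, hx, hy, map_mul, map_mul]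

theorem lg_mem {φ : A →+* B} {ψ : B →+* C} {χ : A →+* C} (hχ : ψ.comp φ = χ)
    (I : Ideal (MvPolynomial (Fin n) A)) : ∀ f ∈ bI φ I, MvPolynomial.map ψ f ∈ bI χ I := by
  intro f hf
  have h1 : MvPolynomial.map ψ f ∈ bI ψ (bI φ I) := bI_mem ψ (bI φ I) f hf
  rw [bI_bI, hχ] at h1
  exact h1

theorem lg_isBC [Algebra A B] {I : Ideal (MvPolynomial (Fin n) A)} (hI : IsHomog I)
    {I' : Ideal (MvPolynomial (Fin n) B)} (hI' : I' = bI (algebraMap A B) I)
    (h : ∀ f ∈ I, MvPolynomial.map (algebraMap A B) f ∈ I') : (lgM (algebraMap A B) h).IsBC := by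
  subst hI'
  exact prH_isBC hI

/-- The maps of the charts are injective for an injective homomorphism of the constants. -/
theorem lg_inj {ψ : A →+* B} (hψ : Function.Injective ψ) {I : Ideal (MvPolynomial (Fin n) A)}
    (hI : IsHomog I) (hs : IsSmoothProj I) {I' : Ideal (MvPolynomial (Fin n) B)}
    (hI' : I' = bI ψ I) (h : ∀ f ∈ I, MvPolynomial.map ψ f ∈ I') {J : Finset (Fin n)}
    (hJ : J.Nonempty) {r : (prC I).R J} (hr : (lgM ψ h).h J r = 0) : r = 0 := by
  let _ : Algebra A B := ψ.toAlgebra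
  have h1 : (lgM (algebraMap A B) (I := I) (I' := I') h).IsBC := lg_isBC hI hI' h
  have h2 : Algebra.Smooth A ((prC I).R J) := hs.smooth hI hJ
  have h3 : Module.Flat A ((prC I).R J) := inferInstance
  exact inj_of_bcl (A := A) (B := B) (M := (prC I).R J) (N := (prC I').R J) hψ _ _ (h1 J hJ).1 hr

/-- Push is injective on the cochains of total degree `m`. -/
theorem lg_push {ψ : A →+* B} (hψ : Function.Injective ψ) {I : Ideal (MvPolynomial (Fin n) A)}
    (hI : IsHomog I) (hs : IsSmoothProj I) {I' : Ideal (MvPolynomial (Fin n) B)}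
    (hI' : I' = bI ψ I) (h : ∀ f ∈ I, MvPolynomial.map ψ f ∈ I') {m : ℕ} {c : (prC I).Ch}
    (hc : c ∈ (prC I).Tt m) (h0 : (lgM ψ h).push c = 0) : c = 0 := by
  let _ : Algebra A B := ψ.toAlgebra
  have h1 : (lgM (algebraMap A B) (I := I) (I' := I') h).IsBC := lg_isBC hI hI' h
  refine CovD.Hm.push_injective (lgM (algebraMap A B) (I := I) (I' := I') h) h1 hψ
    (fun J hJ => ?_) hc h0
  have h2 : Algebra.Smooth A ((prC I).R J) := hs.smooth hI hJ
  exact ⟨inferInstance, inferInstance⟩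

end mor

theorem lg_prod_mem {A : Type u} {R : Type u} [CommRing A] [CommRing R] [Algebra A R] {j : ℕ}
    (f : Fin j → Fm A R) (h : ∀ l, f l ∈ Fd A R 1) : (List.ofFn f).prod ∈ Fd A R j := by
  induction j with
  | zero =>
    rw [List.ofFn_zero, List.prod_nil]
    have h1 := fz_mem (A := A) (1 : R)
    rw [map_one] at h1
    exact h1
  | succ j ih =>
    rw [List.ofFn_succ, List.prod_cons]
    have h1 := fd_mul (h 0) (ih (fun l => f l.succ) fun l => h l.succ)
    rwa [add_comm 1 j] at h1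

/-- Logarithmic forms of degree `j` are forms of degree `j`. -/
theorem lg_le {A : Type u} {R : Type u} [CommRing A] [CommRing R] [Algebra A R] {j : ℕ}
    {ω : Fm A R} (h : ω ∈ logForms A R j) : ω ∈ Fd A R j := by
  refine AddSubgroup.closure_induction (p := fun ω _ => ω ∈ Fd A R j) ?_ (Submodule.zero_mem _)
    (fun x y _ _ hx hy => Submodule.add_mem _ hx hy) (fun x _ hx => Submodule.neg_mem _ hx) h
  rintro _ ⟨u, rfl⟩
  exact lg_prod_mem _ fun l => fz_mul_mem _ (df_mem _)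

section desc

variable {A K : Type u} [CommRing A] [CommRing K] {n : ℕ}

/-- Functions descend. -/
theorem lg_fun (χ : A →+* K) (I : Ideal (MvPolynomial (Fin n) A)) (J : Finset (Fin n))
    (r : (prC (bI χ I)).R J) :
    ∃ s : Finset K, ∀ (B : Type u) [CommRing B] (φ : A →+* B) (ψ : B →+* K) (hχ : ψ.comp φ = χ),
      (∀ x ∈ s, ∃ b, ψ b = x) →
      ∃ r' : (prC (bI φ I)).R J, (lgM ψ (lg_mem hχ I)).h J r' = r := by
  classical
  change chart (bI χ I) J at r
  induction r using chart_ind with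
  | h1 a =>
    refine ⟨{a}, fun B _ φ ψ hχ hs => ?_⟩
    obtain ⟨b, hb⟩ := hs a (Finset.mem_singleton_self a)
    exact ⟨algebraMap B _ b, by rw [← hb]; exact cmap_base _ _ _ _⟩
  | h2 l m hm =>
    refine ⟨∅, fun B _ φ ψ hχ _ => ⟨cq _ J l hm, ?_⟩⟩
    exact cmap_cq _ _ _ l hm
  | h3 x y hx hy =>
    obtain ⟨s, hs⟩ := hx
    obtain ⟨t, ht⟩ := hy
    refine ⟨s ∪ t, fun B _ φ ψ hχ h => ?_⟩
    obtain ⟨x', hx'⟩ := hs B φ ψ hχ fun x hx => h x (Finset.mem_union_left _ hx)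
    obtain ⟨y', hy'⟩ := ht B φ ψ hχ fun x hx => h x (Finset.mem_union_right _ hx)
    exact ⟨x' + y', by rw [map_add, hx', hy']; rfl⟩
  | h4 x y hx hy =>
    obtain ⟨s, hs⟩ := hx
    obtain ⟨t, ht⟩ := hy
    refine ⟨s ∪ t, fun B _ φ ψ hχ h => ?_⟩
    obtain ⟨x', hx'⟩ := hs B φ ψ hχ fun x hx => h x (Finset.mem_union_left _ hx)
    obtain ⟨y', hy'⟩ := ht B φ ψ hχ fun x hx => h x (Finset.mem_union_right _ hx)
    exact ⟨x' * y', by rw [map_mul, hx', hy']; rfl⟩

/-- Units descend. -/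
theorem lg_unit (χ : A →+* K) {I : Ideal (MvPolynomial (Fin n) A)} (hI : IsHomog I)
    (hs : IsSmoothProj I) {J : Finset (Fin n)} (hJ : J.Nonempty) (r : ((prC (bI χ I)).R J)ˣ) :
    ∃ s : Finset K, ∀ (B : Type u) [CommRing B] (φ : A →+* B) (ψ : B →+* K) (hχ : ψ.comp φ = χ),
      Function.Injective ψ → (∀ x ∈ s, ∃ b, ψ b = x) →
      ∃ r' : ((prC (bI φ I)).R J)ˣ, (lgM ψ (lg_mem hχ I)).h J r' = r ∧
        (lgM ψ (lg_mem hχ I)).h J (r'⁻¹ : ((prC (bI φ I)).R J)ˣ) = (r⁻¹ : ((prC (bI χ I)).R J)ˣ) := by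
  classical
  obtain ⟨s, h1⟩ := lg_fun χ I J r
  obtain ⟨t, h2⟩ := lg_fun χ I J (r⁻¹ : ((prC (bI χ I)).R J)ˣ)
  refine ⟨s ∪ t, fun B _ φ ψ hχ hψ h => ?_⟩
  obtain ⟨x, hx⟩ := h1 B φ ψ hχ fun x hx => h x (Finset.mem_union_left _ hx)
  obtain ⟨y, hy⟩ := h2 B φ ψ hχ fun x hx => h x (Finset.mem_union_right _ hx)
  have hb : bI χ I = bI ψ (bI φ I) := by rw [bI_bI, hχ]
  have hxy : x * y = 1 := by
    refine sub_eq_zero.1 (lg_inj hψ (hI.map φ) (hs.map hI φ) hb (lg_mem hχ I) hJ ?_)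
    rw [map_sub, map_mul, map_one, hx, hy, Units.mul_inv, sub_self]
  exact ⟨⟨x, y, hxy, by rw [mul_comm, hxy]⟩, hx, hy⟩

/-- Logarithmic forms descend. -/
theorem lg_form (χ : A →+* K) {I : Ideal (MvPolynomial (Fin n) A)} (hI : IsHomog I)
    (hs : IsSmoothProj I) {J : Finset (Fin n)} (hJ : J.Nonempty) {j : ℕ} {ω : (prC (bI χ I)).E J}
    (hω : ω ∈ logForms K ((prC (bI χ I)).R J) j) :
    ∃ s : Finset K, ∀ (B : Type u) [CommRing B] (φ : A →+* B) (ψ : B →+* K) (hχ : ψ.comp φ = χ),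
      Function.Injective ψ → (∀ x ∈ s, ∃ b, ψ b = x) →
      ∃ ω' ∈ logForms B ((prC (bI φ I)).R J) j, (lgM ψ (lg_mem hχ I)).e J ω' = ω := by
  classical
  refine AddSubgroup.closure_induction (p := fun ω _ => ∃ s : Finset K, ∀ (B : Type u) [CommRing B]
      (φ : A →+* B) (ψ : B →+* K) (hχ : ψ.comp φ = χ),
      Function.Injective ψ → (∀ x ∈ s, ∃ b, ψ b = x) →
      ∃ ω' ∈ logForms B ((prC (bI φ I)).R J) j, (lgM ψ (lg_mem hχ I)).e J ω' = ω) ?_ ?_ ?_ ?_ hω
  · rintro _ ⟨u, rfl⟩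
    choose s hs' using fun l => lg_unit χ hI hs hJ (u l)
    refine ⟨Finset.univ.biUnion s, fun B _ φ ψ hχ hψ h => ?_⟩
    choose u' hu hu' using fun l => hs' l B φ ψ hχ hψ fun x hx =>
      h x (Finset.mem_biUnion.2 ⟨l, Finset.mem_univ _, hx⟩)
    refine ⟨_, AddSubgroup.subset_closure ⟨u', rfl⟩, ?_⟩
    rw [map_list_prod, List.map_ofFn]
    refine congrArg List.prod (congrArg List.ofFn (funext fun l => ?_))
    rw [Function.comp_apply, map_mul, CovD.Hm.e_fz, CovD.Hm.e_df, hu, hu']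
  · exact ⟨∅, fun B _ φ ψ hχ hψ h => ⟨0, AddSubgroup.zero_mem _, map_zero _⟩⟩
  · rintro x y _ _ ⟨s, hs1⟩ ⟨t, ht1⟩
    refine ⟨s ∪ t, fun B _ φ ψ hχ hψ h => ?_⟩
    obtain ⟨x', hx, hx'⟩ := hs1 B φ ψ hχ hψ fun x hx => h x (Finset.mem_union_left _ hx)
    obtain ⟨y', hy, hy'⟩ := ht1 B φ ψ hχ hψ fun x hx => h x (Finset.mem_union_right _ hx)
    exact ⟨x' + y', AddSubgroup.add_mem _ hx hy, by rw [map_add, hx', hy']⟩
  · rintro x _ ⟨s, hs1⟩
    refine ⟨s, fun B _ φ ψ hχ hψ h => ?_⟩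
    obtain ⟨x', hx, hx'⟩ := hs1 B φ ψ hχ hψ h
    exact ⟨-x', AddSubgroup.neg_mem _ hx, by rw [map_neg, hx']⟩

/-- Logarithmic cocycles descend. -/
theorem lg_coc (χ : A →+* K) {I : Ideal (MvPolynomial (Fin n) A)} (hI : IsHomog I)
    (hs : IsSmoothProj I) {m j : ℕ} {c : (prC (bI χ I)).Ch} (hc : IsLogCoc (prC (bI χ I)) m j c) :
    ∃ s : Finset K, ∀ (B : Type u) [CommRing B] (φ : A →+* B) (ψ : B →+* K) (hχ : ψ.comp φ = χ),
      Function.Injective ψ → (∀ x ∈ s, ∃ b, ψ b = x) →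
      ∃ c' : (prC (bI φ I)).Ch, IsLogCoc (prC (bI φ I)) m j c' ∧
        (lgM ψ (lg_mem hχ I)).push c' = c := by
  classical
  have h1 : ∀ J : Finset (Fin n), ∃ s : Finset K, ∀ (B : Type u) [CommRing B] (φ : A →+* B)
      (ψ : B →+* K) (hχ : ψ.comp φ = χ), Function.Injective ψ → (∀ x ∈ s, ∃ b, ψ b = x) →
      ∃ ω' ∈ logForms B ((prC (bI φ I)).R J) j, (J = ∅ → ω' = 0) ∧
        (J.card + j ≠ m + 1 → ω' = 0) ∧ (lgM ψ (lg_mem hχ I)).e J ω' = c J := by
    intro J
    by_cases h0 : J = ∅ ∨ J.card + j ≠ m + 1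
    · refine ⟨∅, fun B _ φ ψ hχ hψ h => ⟨0, AddSubgroup.zero_mem _, fun _ => rfl, fun _ => rfl, ?_⟩⟩
      rw [map_zero]
      rcases h0 with h0 | h0
      · rw [h0]
        exact hc.1.1.1.symm
      · exact ((hc.2 J).2 h0).symm
    · push Not at h0
      obtain ⟨s, hs1⟩ := lg_form χ hI hs h0.1 (hc.2 J).1
      refine ⟨s, fun B _ φ ψ hχ hψ h => ?_⟩
      obtain ⟨ω', h2, h3⟩ := hs1 B φ ψ hχ hψ h
      exact ⟨ω', h2, fun h4 => absurd h4 h0.1.ne_empty, fun h4 => absurd h0.2 h4, h3⟩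
  choose s hs1 using h1
  refine ⟨Finset.univ.biUnion s, fun B _ φ ψ hχ hψ h => ?_⟩
  choose c' h2 h3 h4 h5 using fun J => hs1 J B φ ψ hχ hψ fun x hx =>
    h x (Finset.mem_biUnion.2 ⟨J, Finset.mem_univ _, hx⟩)
  have hb : bI χ I = bI ψ (bI φ I) := by rw [bI_bI, hχ]
  have hpush : (lgM ψ (lg_mem hχ I)).push c' = c := funext fun J => h5 J
  have hT : c' ∈ (prC (bI φ I)).Tt m := by
    refine ⟨h3 ∅ rfl, fun J => ⟨fun q hq => ?_, fun hJ => h4 J (by omega)⟩⟩
    by_cases h6 : J.card + j = m + 1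
    · have h7 : q = j := by omega
      rw [h7]
      exact lg_le (h2 J)
    · rw [h4 J h6]
      exact Submodule.zero_mem _
  refine ⟨c', ⟨⟨hT, ?_⟩, fun J => ⟨h2 J, h4 J⟩⟩, hpush⟩
  refine lg_push hψ (hI.map φ) (hs.map hI φ) hb (lg_mem hχ I) (CovD.Dt_mem hT) ?_
  rw [CovD.Hm.push_Dt, hpush]
  exact hc.1.2

end desc

/-- Over a field the logarithmic classes are spanned by finitely many. -/
theorem lg_field {k : Type u} [Field k] {n : ℕ} (X : CovD.{u, u} k n) (m j : ℕ)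
    [FiniteDimensional k (X.HdR m)] : ∃ T : Set X.Ch, T.Finite ∧ (∀ c ∈ T, IsLogCoc X m j c) ∧
      ∀ x, IsLogCoc X m j x → x ∈ Submodule.span k T ⊔ X.Bc m := by
  classical
  let L : Set (X.HdR m) := {y | ∃ c : ↥(X.Zc m), IsLogCoc X m j c ∧ X.cl m c = y}
  have hfg : (Submodule.span k L).FG := IsNoetherian.noetherian _
  obtain ⟨F, hF, hFs⟩ := (Submodule.fg_span_iff_fg_span_finset_subset L).1 hfg
  have h1 : ∀ y : F, ∃ c : ↥(X.Zc m), IsLogCoc X m j c ∧ X.cl m c = y := fun y => hF y.2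
  choose g hg hgc using h1
  refine ⟨Set.range fun y => (g y : X.Ch), Set.finite_range _, ?_, ?_⟩
  · rintro _ ⟨y, rfl⟩
    exact hg y
  · intro x hx
    have h2 : X.cl m ⟨x, hx.1⟩ ∈ Submodule.span k (F : Set (X.HdR m)) := by
      rw [← hFs]
      exact Submodule.subset_span ⟨_, hx, rfl⟩
    have h3 : (F : Set (X.HdR m)) = Set.range fun y : F => X.cl m (g y) := by
      ext y
      constructor
      · intro hy
        exact ⟨⟨y, hy⟩, hgc _⟩
      · rintro ⟨z, rfl⟩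
        have h5 : X.cl m (g z) = z := hgc z
        change X.cl m (g z) ∈ (F : Set (X.HdR m))
        rw [h5]
        exact z.2
    rw [h3, Submodule.mem_span_range_iff_exists_fun] at h2
    obtain ⟨a, ha⟩ := h2
    have h4 : X.cl m (∑ i, a i • g i) = X.cl m ⟨x, hx.1⟩ := by
      rw [← ha, map_sum]
      exact Finset.sum_congr rfl fun i _ => map_smul _ _ _
    have h5 := CovD.cl_eq.1 h4.symm
    rw [Submodule.coe_sum] at h5
    have h6 : x = ∑ i, ((a i • g i : ↥(X.Zc m)) : X.Ch) +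
        (((⟨x, hx.1⟩ : ↥(X.Zc m)) : X.Ch) - ∑ i, ((a i • g i : ↥(X.Zc m)) : X.Ch)) := by
      rw [add_sub_cancel]
    rw [h6]
    refine Submodule.add_mem_sup (Submodule.sum_mem _ fun i _ => ?_) h5
    exact Submodule.smul_mem _ _ (Submodule.subset_span ⟨i, rfl⟩)

theorem lg_transport {B K : Type u} [CommRing B] [Field K] {n : ℕ} (ψ : B →+* K)
    {I : Ideal (MvPolynomial (Fin n) B)} {I' : Ideal (MvPolynomial (Fin n) K)} (hI' : I' = bI ψ I)
    (h : ∀ f ∈ I, MvPolynomial.map ψ f ∈ I') {m j : ℕ} (S : Set (prC I).Ch)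
    (H : ∀ x, IsLogCoc (prC I') m j x →
      x ∈ Submodule.span K ((lgM ψ h).push '' S) ⊔ (prC I').Bc m) :
    ∀ x, IsLogCoc (prC (bI ψ I)) m j x →
      x ∈ Submodule.span K ((prH ψ I).push '' S) ⊔ (prC (bI ψ I)).Bc m := by
  subst hI'
  exact H

/-- PART LOG (helper10): the logarithmic classes over `k` are spanned by finitely many logarithmic
cocycles over every large ring `A''`. -/
theorem exists_logs {k : Type u} [Field k] [CharZero k] (A : Subalgebra ℤ k) (hA : A.FG) {n : ℕ}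
    {I : Ideal (MvPolynomial (Fin n) A)} (hI : IsHomog I) (hs : IsSmoothProj I)
    (hfin : ∀ m, FiniteDimensional k ((prC (bI (algebraMap A k) I)).HdR m))
    (hbd : ∃ M, ∀ m, M ≤ m → Subsingleton ((prC (bI (algebraMap A k) I)).HdR m)) :
    ∃ (A' : Subalgebra ℤ k) (_ : A ≤ A') (_ : A'.FG), ∀ (A'' : Subalgebra ℤ k) (_ : A' ≤ A'')
      (hle : A ≤ A''),
      ∀ (m j : ℕ), ∃ S : Set (prC (bI (Subalgebra.inclusion hle).toRingHom I)).Ch, S.Finite ∧
        (∀ c ∈ S, IsLogCoc _ m j c) ∧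
        ∀ x, IsLogCoc (prC (bI (algebraMap A'' k) (bI (Subalgebra.inclusion hle).toRingHom I))) m j x →
          x ∈ Submodule.span k ((prH (algebraMap A'' k) _).push '' S) ⊔ CovD.Bc _ m := by
  classical
  obtain ⟨M, hM⟩ := hbd
  -- the finite sets over k
  have h1 : ∀ m j : ℕ, ∃ T : Set (prC (bI (algebraMap A k) I)).Ch, T.Finite ∧
      (∀ c ∈ T, IsLogCoc _ m j c) ∧
      ∀ x, IsLogCoc _ m j x → x ∈ Submodule.span k T ⊔ CovD.Bc _ m := fun m j => by
    have := hfin m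
    exact lg_field _ m j
  choose T hT hTl hTs using h1
  have h2 : ∀ m j : ℕ, ∃ s : Finset k, ∀ (B : Type u) [CommRing B] (φ : A →+* B) (ψ : B →+* k)
      (hχ : ψ.comp φ = algebraMap A k), Function.Injective ψ → (∀ x ∈ s, ∃ b, ψ b = x) →
      ∃ S : Set (prC (bI φ I)).Ch, S.Finite ∧ (∀ c ∈ S, IsLogCoc (prC (bI φ I)) m j c) ∧
        (lgM ψ (lg_mem hχ I)).push '' S = T m j := by
    intro m j
    have h3 : ∀ c : T m j, ∃ s : Finset k, ∀ (B : Type u) [CommRing B] (φ : A →+* B) (ψ : B →+* k)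
      (hχ : ψ.comp φ = algebraMap A k), Function.Injective ψ → (∀ x ∈ s, ∃ b, ψ b = x) →
      ∃ c' : (prC (bI φ I)).Ch, IsLogCoc (prC (bI φ I)) m j c' ∧
        (lgM ψ (lg_mem hχ I)).push c' = c := fun c => lg_coc _ hI hs (hTl m j c c.2)
    choose s hs1 using h3
    have hfT : Fintype (T m j) := (hT m j).fintype
    refine ⟨Finset.univ.biUnion s, fun B _ φ ψ hχ hψ h => ?_⟩
    choose c' h4 h5 using fun c => hs1 c B φ ψ hχ hψ fun x hx =>
      h x (Finset.mem_biUnion.2 ⟨c, Finset.mem_univ _, hx⟩)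
    refine ⟨Set.range c', Set.finite_range _, ?_, ?_⟩
    · rintro _ ⟨c, rfl⟩
      exact h4 c
    · ext y
      constructor
      · rintro ⟨_, ⟨c, rfl⟩, rfl⟩
        rw [h5]
        exact c.2
      · intro hy
        exact ⟨_, ⟨⟨y, hy⟩, rfl⟩, h5 ⟨y, hy⟩⟩
  choose s hs2 using h2
  let s' : Finset k := (Finset.range M).biUnion fun m => (Finset.range (m + 1)).biUnion fun j => s m j
  refine ⟨A ⊔ Algebra.adjoin ℤ (s' : Set k), le_sup_left,
    hA.sup (Subalgebra.fg_adjoin_finset s'), fun A'' hA'' hle m j => ?_⟩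
  have hχ : (algebraMap A'' k).comp (Subalgebra.inclusion hle).toRingHom = algebraMap A k :=
    RingHom.ext fun x => rfl
  have hb : bI (algebraMap A k) I = bI (algebraMap A'' k) (bI (Subalgebra.inclusion hle).toRingHom I) := by
    rw [bI_bI, hχ]
  have key : ∃ S : Set (prC (bI (Subalgebra.inclusion hle).toRingHom I)).Ch, S.Finite ∧
        (∀ c ∈ S, IsLogCoc _ m j c) ∧
        ∀ x, IsLogCoc (prC (bI (algebraMap A k) I)) m j x →
          x ∈ Submodule.span k ((lgM (algebraMap A'' k) (lg_mem hχ I)).push '' S) ⊔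
            (prC (bI (algebraMap A k) I)).Bc m := by
    rcases Nat.lt_or_ge m M with hm | hm
    · rcases Nat.lt_or_ge m j with hj | hj
      · refine ⟨∅, Set.finite_empty, fun c hc => absurd hc (Set.notMem_empty c), fun x hx => ?_⟩
        have h3 : x = 0 := by
          funext J
          by_cases h4 : J = ∅
          · rw [h4]
            exact hx.1.1.1
          · refine (hx.2 J).2 fun h5 => ?_
            have h6 := Finset.card_pos.2 (Finset.nonempty_iff_ne_empty.2 h4)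
            omega
        rw [h3]
        exact Submodule.zero_mem _
      · obtain ⟨S, hS1, hS2, hS3⟩ := hs2 m j A'' (Subalgebra.inclusion hle).toRingHom
          (algebraMap A'' k) hχ Subtype.val_injective fun x hx => by
            have h3 : x ∈ A'' := hA'' (le_sup_right (a := A) (Algebra.subset_adjoin
              (Finset.mem_biUnion.2 ⟨m, Finset.mem_range.2 hm, Finset.mem_biUnion.2
                ⟨j, Finset.mem_range.2 (by omega), hx⟩⟩)))
            exact ⟨⟨x, h3⟩, rfl⟩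
        refine ⟨S, hS1, hS2, fun x hx => ?_⟩
        rw [hS3]
        exact hTs m j x hx
    · refine ⟨∅, Set.finite_empty, fun c hc => absurd hc (Set.notMem_empty c), fun x hx => ?_⟩
      have h3 : Subsingleton ((prC (bI (algebraMap A k) I)).HdR m) := hM m hm
      have h4 : (prC (bI (algebraMap A k) I)).cl m ⟨x, hx.1⟩ = 0 := Subsingleton.elim _ _
      exact Submodule.mem_sup_right (CovD.cl_eq_zero.1 h4)
  obtain ⟨S, hS1, hS2, hS3⟩ := key
  exact ⟨S, hS1, hS2, lg_transport (algebraMap A'' k) hb (lg_mem hχ I) S hS3⟩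

end MPadcGP
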