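import Pool.Agent.Lib.MP_adc574_ag_GP.Parts2
import Pool.Agent.Lib.MP_adc574_ag_GP.GlCon

/-!
# GP2: the conjugate filtration in coordinates (PARTS W5, W6)

* `con_conjW`: the conjugate filtration is of conjugate type; `con_stabW`: it is stable.
-/

set_option autoImplicit false

namespace MPadcGP

universe u v w x

section push

variable {A : Type u} {B : Type w} [CommRing A] [CommRing B] {n : ℕ} {f : A →+* B}
  {X : CovD.{u, v} A n} {Y : CovD.{w, x} B n} {F : CovD.Hm f X Y}

/-- The product of linear combinations. -/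
private theorem gw_cup {β1 β2 β3 : Type} [Fintype β1] [Fintype β2] [Fintype β3] {z1 : β1 → X.Ch}
    {z2 : β2 → X.Ch} {z3 : β3 → X.Ch} {mu : β1 → β2 → β3 → A} {m m' : ℕ}
    (hmu : ∀ a b, X.cup (z1 a) (z2 b) - ∑ c, mu a b c • z3 c ∈ X.Bc (m + m'))
    (x : β1 → B) (y : β2 → B) :
    Y.cup (∑ a, x a • F.push (z1 a)) (∑ b, y b • F.push (z2 b)) -
      ∑ c, (∑ a, ∑ b, f (mu a b c) * (x a * y b)) • F.push (z3 c) ∈ Y.Bc (m + m') := by
  have e1 : Y.cup (∑ b, x b • F.push (z1 b)) (∑ b, y b • F.push (z2 b)) =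
      ∑ a, ∑ b, (x a * y b) • F.push (X.cup (z1 a) (z2 b)) := by
    rw [CovD.cup_sum_left]
    refine Finset.sum_congr rfl fun a _ => ?_
    rw [CovD.cup_sum_right]
    refine Finset.sum_congr rfl fun b _ => ?_
    rw [CovD.cup_smul_left, CovD.cup_smul_right, smul_smul, CovD.Hm.push_cup]
  have e2 : ∑ c, (∑ a, ∑ b, f (mu a b c) * (x a * y b)) • F.push (z3 c) =
      ∑ a, ∑ b, (x a * y b) • F.push (∑ c, mu a b c • z3 c) := by
    simp only [Finset.sum_smul]
    rw [Finset.sum_comm]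
    refine Finset.sum_congr rfl fun a _ => ?_
    rw [Finset.sum_comm]
    refine Finset.sum_congr rfl fun b _ => ?_
    rw [push_lin, Finset.smul_sum]
    refine Finset.sum_congr rfl fun c _ => ?_
    rw [smul_smul, mul_comm]
  rw [e1, e2, ← Finset.sum_sub_distrib]
  refine Submodule.sum_mem _ fun a _ => ?_
  rw [← Finset.sum_sub_distrib]
  refine Submodule.sum_mem _ fun b _ => ?_
  rw [← smul_sub, ← map_sub]
  exact Submodule.smul_mem _ _ (push_mem_Bc (hmu a b))

/-- The connection on linear combinations. -/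
private theorem gw_nab {N : ℕ} {D : Fin N → Derivation ℤ A A} (V : ∀ l, Lft X (D l))
    {β : Type} [Fintype β] {z : β → X.Ch} {G : Fin N → β → β → A} {m : ℕ}
    (hG : ∀ l b, (V l).Gm (z b) - ∑ b', G l b' b • z b' ∈ X.Bc m)
    (hz : ∀ b, z b ∈ X.Tt m) {D' : Derivation ℤ B B} (α : Fin N → B) (V'' : Lft Y D')
    (hc : ∀ K J : Finset (Fin n), K.Nonempty → K ⊆ J → ∀ x : X.R J,
      V''.V K J (F.h J x) = ∑ l, algebraMap B (Y.R J) (α l) * F.h J ((V l).V K J x))
    (x : β → B) :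
    V''.Gm (∑ b, x b • F.push (z b)) -
      ∑ b', (D' (x b') + ∑ l, α l * ∑ b, f (G l b' b) * x b) • F.push (z b') ∈ Y.Bc m := by
  have hz0 : ∀ b, F.push (z b) ∅ = 0 := fun b => (CovD.Hm.push_mem_Tt (hz b)).1
  have e1 : V''.Gm (∑ b, x b • F.push (z b)) =
      ∑ b, ∑ l, (x b * α l) • F.push ((V l).Gm (z b)) + ∑ b, D' (x b) • F.push (z b) := by
    rw [Lft.Gm_sum, ← Finset.sum_add_distrib]
    refine Finset.sum_congr rfl fun b _ => ?_
    rw [Lft.Gm_smul _ (hz0 b), CovD.Hm.push_Gm_comb V α V'' hc (hz b).1, Finset.smul_sum]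
    congr 1
    refine Finset.sum_congr rfl fun l _ => ?_
    rw [smul_smul]
  have e2 : ∑ b', (D' (x b') + ∑ l, α l * ∑ b, f (G l b' b) * x b) • F.push (z b') =
      ∑ b, ∑ l, (x b * α l) • F.push (∑ b', G l b' b • z b') +
        ∑ b, D' (x b) • F.push (z b) := by
    simp only [add_smul]
    rw [Finset.sum_add_distrib, add_comm]
    congr 1
    simp only [push_lin, Finset.smul_sum, smul_smul, Finset.sum_smul, Finset.mul_sum]
    rw [Finset.sum_comm]
    rw [Finset.sum_congr rfl fun l _ => Finset.sum_comm, Finset.sum_comm]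
    refine Finset.sum_congr rfl fun b _ => Finset.sum_congr rfl fun l _ =>
      Finset.sum_congr rfl fun b' _ => ?_
    congr 1
    ring
  rw [e1, e2, add_sub_add_right_eq_sub, ← Finset.sum_sub_distrib]
  refine Submodule.sum_mem _ fun b _ => ?_
  rw [← Finset.sum_sub_distrib]
  refine Submodule.sum_mem _ fun l _ => ?_
  rw [← smul_sub, ← map_sub]
  exact Submodule.smul_mem _ _ (push_mem_Bc (hG l b))

end push

section field

variable {κ : Type u} [Field κ] {n : ℕ} {X : CovD.{u, v} κ n} {M : Type} [AddCommGroup M]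
    [Fintype M] [DecidableEq M] {W : GrX X M} {β : ℕ × M → Type} [∀ a, Fintype (β a)]
    {lev : ∀ a, β a → ℕ} {z : ∀ a, β a → X.Ch} (h : IsAdW W lev z)

/-- Subspaces of the part of weight `μ` in coordinates. -/
private theorem gw_finrank (a : ℕ × M) (L : Submodule κ (X.HdR a.1)) :
    Module.finrank κ (L.comap (h.crd a)) = Module.finrank κ ↥(L ⊓ W.HW a.1 a.2) := by
  have h1 : L ⊓ W.HW a.1 a.2 = (L.comap (h.crd a)).map (h.crd a) := by
    ext x
    constructor
    · rintro ⟨hx, hx'⟩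
      obtain ⟨c, rfl⟩ := h.exists_crd hx'
      exact ⟨c, hx, rfl⟩
    · rintro ⟨c, hc, rfl⟩
      exact ⟨hc, h.crd_mem a c⟩
  rw [h1]
  exact (Submodule.equivMapOfInjective (h.crd a) (h.crd_injective a) _).finrank_eq

private theorem gw_card {ι : Type} [Fintype ι] (P : ι → Prop) [DecidablePred P]
    (W : Submodule κ (ι → κ)) (hW : ∀ x, x ∈ W ↔ ∀ b, P b → x b = 0) :
    Module.finrank κ W = Fintype.card {b : ι // ¬ P b} := by
  classical
  let e : W ≃ₗ[κ] ({b : ι // ¬ P b} → κ) :=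
    { toFun := fun x b => (x : ι → κ) b
      map_add' := fun _ _ => rfl
      map_smul' := fun _ _ => rfl
      invFun := fun y => ⟨fun b => if hb : P b then 0 else y ⟨b, hb⟩, by
        rw [hW]
        intro b hb
        rw [dif_pos hb]⟩
      left_inv := fun x => by
        apply Subtype.ext
        funext b
        change (if hb : P b then 0 else (x : ι → κ) b) = (x : ι → κ) b
        split_ifs with hb
        · exact ((hW _).1 x.2 b hb).symm
        · rfl
      right_inv := fun y => by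
        funext b
        exact dif_neg b.2 }
  rw [e.finrank_eq, Module.finrank_fintype_fun_eq_card]

end field

section

variable {M : Type} [AddCommGroup M] [Fintype M] [DecidableEq M]
  {A : Type u} [CommRing A] {n : ℕ} {I : Ideal (MvPolynomial (Fin n) A)} {wt : Fin n → M}
  {hI : IsHomog I} {hw : IsWHomog wt I} {β : ℕ × M → Type}
  [∀ a, Fintype (β a)] [∀ a, DecidableEq (β a)] {lev : ∀ a, β a → ℕ}
  {z : ∀ a, β a → (prC I).Ch} {h : ℕ → ℕ → ℕ}

set_option linter.unusedVariables false in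
/-- PART W5: the conjugate filtration is of conjugate type. -/
theorem con_conjW (hD : DatW hI hw lev z h) {N : ℕ} {D : Fin N → Derivation ℤ A A}
    (V : ∀ l, Lft (prC I) (D l)) {G : ∀ a, Fin N → β a → β a → A}
    {mu : ∀ a a', β a → β a' → β (a + a') → A} {Lg : ∀ a : ℕ × M, ℕ → Set (β a → A)}
    (hR : LinRelW (grP hI hw) z V G mu Lg) {κ : Type u} [Field κ] (φ : A →+* κ)
    (hdim : DimCW (grP (hI.map φ) (hw.map φ))) :
    (mkLinW lev D G mu Lg hD.bound').IsConj φ fun a i => (hD.ad κ φ).con a i := by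
  have had := hD.ad κ φ
  refine ⟨fun a i => ?_, fun a i => ?_, fun a a' i i' x hx y hy => ?_, fun a j g hg => ?_⟩
  · intro x hx
    obtain ⟨c, hc, hcx⟩ := CovD.mem_Con.1 hx
    exact CovD.mem_Con.2 ⟨c, CovD.Ni_mono (Nat.le_succ i) a.1 hc, hcx⟩
  · have h1 := hdim a.1 i a.2
    have h2 : Module.finrank κ ↥((prC (bI φ I)).Fil a.1 (i + 1) ⊓ (grP (hI.map φ) (hw.map φ)).HW a.1 a.2) =
        Fintype.card {b : β a // ¬ lev a b < i + 1} := by
      rw [← gw_finrank had]
      exact gw_card (fun b => lev a b < i + 1) _ fun x => had.crd_mem_Fil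
    have h3 := had.finrank a
    have h4 : Module.finrank κ ((hD.ad κ φ).con a i) = Module.finrank κ
        ↥((prC (bI φ I)).Con a.1 i ⊓ (grP (hI.map φ) (hw.map φ)).HW a.1 a.2) := gw_finrank had a _
    have h5 : Fintype.card {b : β a // ¬ lev a b < i + 1} + Fintype.card {b : β a // lev a b < i + 1} =
        Fintype.card (β a) := by
      rw [add_comm, Fintype.card_subtype_compl]
      have h6 := Fintype.card_subtype_le fun b : β a => lev a b < i + 1
      omega
    have h7 : Fintype.card {b : β a // lev a b < i + 1} = Fintype.card {b : β a // lev a b ≤ i} :=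
      Fintype.card_congr (Equiv.subtypeEquivRight fun b => Nat.lt_succ_iff)
    change Module.finrank κ ((hD.ad κ φ).con a i) = Fintype.card {b : β a // lev a b ≤ i}
    omega
  · obtain ⟨c, hc, hcx⟩ := CovD.mem_Con.1 hx
    obtain ⟨c', hc', hcy⟩ := CovD.mem_Con.1 hy
    rw [had.crd_eq, CovD.cl_eq, IsAdW.lc_coe] at hcx hcy
    have h1 := CovD.cup_sub_mem_Bc c'.2 (had.lc a x).2 hcx hcy
    have h2 := gw_cup (F := prH φ I) (m := a.1) (m' := a'.1) (hR.cup a a') x y
    have h3 := Submodule.add_mem _ h1 h2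
    rw [IsAdW.lc_coe, sub_add_sub_cancel] at h3
    refine CovD.mem_Con.2 ⟨⟨_, CovD.cup_mem_Zc c.2 c'.2⟩, CovD.cup_mem_Ni hc hc', ?_⟩
    rw [had.crd_eq, CovD.cl_eq, IsAdW.lc_coe]
    exact h3
  · obtain ⟨c, hc, hcg⟩ := hR.log a j g hg
    have h1 := push_mem_Bc (F := prH φ I) hcg
    rw [map_sub, push_lin] at h1
    have h2 := (grP hI hw).P_mem_Zc hc.1 a.2
    refine CovD.mem_Con.2 ⟨⟨(prH φ I).push ((grP hI hw).P a.2 c), push_mem_Zc h2⟩,
      CovD.Hm.push_mem_Ni ((grP hI hw).P_mem_Ni hc.mem_Ni a.2), ?_⟩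
    rw [had.crd_eq, CovD.cl_eq, IsAdW.lc_coe]
    exact h1

/-- PART W6: the conjugate filtration is horizontal. -/
theorem con_stabW (hD : DatW hI hw lev z h) {N : ℕ} {D : Fin N → Derivation ℤ A A}
    (V : ∀ l, Lft (prC I) (D l)) {G : ∀ a, Fin N → β a → β a → A}
    {mu : ∀ a a', β a → β a' → β (a + a') → A} {Lg : ∀ a : ℕ × M, ℕ → Set (β a → A)}
    (hR : LinRelW (grP hI hw) z V G mu Lg) {κ : Type u} [Field κ] (φ : A →+* κ)
    (δ : Fin N → Derivation ℤ κ κ) (hδ : ∀ l x, δ l (φ x) = φ (D l x)) :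
    (mkLinW lev D G mu Lg hD.bound').IsStab φ δ fun a i => (hD.ad κ φ).con a i := by
  have had := hD.ad κ φ
  intro a i l x hx
  obtain ⟨V'', hV''⟩ := exists_lft_map hI φ D V (fun l' => if l' = l then (1 : κ) else 0) (δ l)
    (fun a => by
      simp only [ite_mul, one_mul, zero_mul, Finset.sum_ite_eq', Finset.mem_univ, if_true]
      exact hδ l a)
  obtain ⟨c, hc, hcx⟩ := CovD.mem_Con.1 hx
  rw [had.crd_eq, CovD.cl_eq, IsAdW.lc_coe] at hcx
  have h1 := V''.Gm_mem_Bc hcx
  rw [Lft.Gm_sub] at h1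
  have h2 := gw_nab V (hR.gm a) (fun b => (hD.self.mem a b).1) _ V'' hV'' x
  have h3 : (fun b' => δ l (x b') + ∑ l', (if l' = l then (1 : κ) else 0) *
      ∑ b, φ (G a l' b' b) * x b) = (mkLinW lev D G mu Lg hD.bound').con φ a l (δ l) x := by
    funext b'
    simp only [ite_mul, one_mul, zero_mul, Finset.sum_ite_eq', Finset.mem_univ, if_true]
    rfl
  have h4 := Submodule.add_mem _ h1 h2
  rw [sub_add_sub_cancel] at h4
  refine CovD.mem_Con.2 ⟨⟨V''.Gm c, V''.Gm_mem_Zc c.2⟩, V''.Gm_mem_Ni hc, ?_⟩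
  rw [← h3, had.crd_eq, CovD.cl_eq, IsAdW.lc_coe]
  exact h4

end

end MPadcGP
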