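import Pool.Agent.Lib.MP_adc574_ag_GP.ConW
import Pool.Agent.Lib.MP_adc574_ag_GP.DatC
import Pool.Agent.Lib.MP_adc574_ag_GP.DatW
import Pool.Agent.Lib.MP_adc574_ag_GP.G2U
import Pool.Agent.Lib.MP_adc574_ag_GP.GlConW
import Pool.Agent.Lib.MP_adc574_ag_GP.GlGenW
import Pool.Agent.Lib.MP_adc574_ag_GP.GlRelW
import Pool.Agent.Lib.MP_adc574_ag_GP.WHom

/-!
# GP2: the parts
-/

set_option autoImplicit false
set_option linter.unusedSectionVars false

namespace MPadcGP

universe u v w x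

section

variable {M : Type} [AddCommGroup M] [Fintype M] [DecidableEq M]

/-- PART W1. -/
theorem exists_datW {A : Type u} [CommRing A] [IsDomain A] [IsNoetherianRing A] {n : ℕ}
    {I : Ideal (MvPolynomial (Fin n) A)} (hI : IsHomog I) (hs : IsSmoothProj I) {wt : Fin n → M}
    (hw : IsWHomog wt I) :
    ∃ a : A, a ≠ 0 ∧ ∀ (A' : Type u) [CommRing A'] (φ : A →+* A'), IsUnit (φ a) →
      ∃ (β : ℕ × M → Type) (_ : ∀ a, Fintype (β a)) (_ : ∀ a, DecidableEq (β a))
        (lev : ∀ a, β a → ℕ) (z : ∀ a, β a → (prC (bI φ I)).Ch) (h : ℕ → ℕ → ℕ),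
        DatW (hI.map φ) (hw.map φ) lev z h :=
  exists_datW_of hI hw (exists_dat hI hs)

end

end MPadcGP
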