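import Pool.Agent.Lib.MP_adc574_ag_GP.Key
import Pool.Agent.Lib.MP_adc574_ag_GP.PBas

/-!
# Residue fields generated by the image, with finite `p`-bases (helper27)

`exists_fields_gen`: `MPadcGM.exists_fields` with the additional information that the field is generated
by the image of `A`.
`exists_resFields_pbas`: `ResFields` whose fields are generated by the image of `A` and have finite
`p`-bases.
-/

set_option autoImplicit false

universe u

namespace MPadcGP

open Algebra MPadcGM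

theorem exists_fields_gen (A : Type u) [CommRing A] [IsDomain A] [CharZero A]
    [Algebra.FiniteType ℤ A] :
    ∃ B : A → ℕ, ∀ p : ℕ, p.Prime → B 0 < p →
      ∃ (kp : Type u) (_ : Field kp) (φ : A →+* kp), CharP kp p ∧
        (∀ D : Derivation ℤ A A, ∃ dl : Derivation ℤ kp kp, ∀ a, dl (φ a) = φ (D a)) ∧
        (∀ b, b ≠ 0 → B b < p → φ b ≠ 0) ∧
        ∀ x : kp, ∃ a b : A, φ b ≠ 0 ∧ x = φ a / φ b := by
  classical
  have hfaith : FaithfulSMul ℤ A := inferInstance
  obtain ⟨X, hX⟩ := exists_isTranscendenceBasis ℤ A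
  have hfin : Algebra.trdeg ℤ A < Cardinal.aleph0 := trdeg_lt_aleph0_of_finiteType
  have hXfin : Finite X := by
    rw [← Cardinal.lt_aleph0_iff_finite, hX.cardinalMk_eq_trdeg]
    exact hfin
  let R := MvPolynomial X ℤ
  let θ : R →ₐ[ℤ] A := MvPolynomial.aeval ((↑) : X → A)
  have hθ : Function.Injective θ.toRingHom := hX.1
  let _ : Algebra R A := θ.toRingHom.toAlgebra
  have hmap : (algebraMap R A) = θ.toRingHom := rfl
  have hfaithR : FaithfulSMul R A := (faithfulSMul_iff_algebraMap_injective R A).2 hθ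
  have htower : IsScalarTower ℤ R A := IsScalarTower.of_algebraMap_eq' (Subsingleton.elim _ _)
  have hftR : Algebra.FiniteType R A := Algebra.FiniteType.of_restrictScalars_finiteType ℤ R A
  have halg : Algebra.IsAlgebraic R A := by
    have h1 := hX.isAlgebraic
    have hran : adjoin ℤ (Set.range ((↑) : X → A)) = θ.range :=
      Algebra.adjoin_range_eq_range_aeval ℤ ((↑) : X → A)
    constructor
    intro a
    obtain ⟨P, hP, hPa⟩ := h1.isAlgebraic a
    let f : R →+* adjoin ℤ (Set.range ((↑) : X → A)) :=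
      RingHom.codRestrict θ.toRingHom (adjoin ℤ (Set.range ((↑) : X → A))) (fun x => by
        rw [hran]
        exact ⟨x, rfl⟩)
    have hsur : Function.Surjective f := by
      intro y
      have h2 : (y : A) ∈ θ.range := by
        rw [← hran]
        exact y.2
      obtain ⟨x, hx⟩ := h2
      exact ⟨x, Subtype.ext hx⟩
    obtain ⟨P', rfl⟩ := Polynomial.map_surjective f hsur P
    refine ⟨P', fun h => hP (by rw [h, Polynomial.map_zero]), ?_⟩
    rw [← hPa, Polynomial.aeval_def, Polynomial.aeval_def, Polynomial.eval₂_map]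
    rfl
  have hunr : IsUnramifiedAt R (⊥ : Ideal A) := isUnramifiedAt_bot
  obtain ⟨f, hf, hfun⟩ := exists_formallyUnramified_of_isUnramifiedAt (R := R) (⊥ : Ideal A)
  have hf0 : f ≠ 0 := fun h => hf (by rw [h]; exact Ideal.zero_mem _)
  have hft : θ.toRingHom.FiniteType := RingHom.finiteType_algebraMap.2 hftR
  obtain ⟨h, hh, hlift⟩ := exists_prime_lift θ.toRingHom hθ hft f hf0
  obtain ⟨m, hm⟩ := MvPolynomial.ne_zero_iff.1 hh
  -- multiples in `R`
  have hdvd : ∀ b : A, ∃ N : ℕ, b ≠ 0 → ∃ g : R, b ∣ algebraMap R A g ∧ ∃ m, g.coeff m ≠ 0 ∧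
      (g.coeff m).natAbs ≤ N := by
    intro b
    by_cases hb : b = 0
    · exact ⟨0, fun h => absurd hb h⟩
    · obtain ⟨g, hg, hbg⟩ := (halg.isAlgebraic b).exists_nonzero_dvd
        (mem_nonZeroDivisors_of_ne_zero hb)
      obtain ⟨m', hm'⟩ := MvPolynomial.ne_zero_iff.1 hg
      exact ⟨(g.coeff m').natAbs, fun _ => ⟨g, hbg, m', hm', le_rfl⟩⟩
  choose N hN using hdvd
  have hndvd : ∀ (g : R) (m : X →₀ ℕ) (p : ℕ), g.coeff m ≠ 0 → (g.coeff m).natAbs < p →
      g ∉ Ideal.span {((p : ℕ) : R)} := by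
    intro g m p hgm hlt hmem
    rw [Ideal.mem_span_singleton] at hmem
    obtain ⟨r, hr⟩ := hmem
    have h1 : g.coeff m = (p : ℤ) * MvPolynomial.coeff m r := by
      rw [hr]
      have h2 : ((p : ℕ) : R) = MvPolynomial.C ((p : ℕ) : ℤ) := by simp [R]
      rw [h2, MvPolynomial.coeff_C_mul]
    have h3 : (p : ℤ) ∣ g.coeff m := ⟨_, h1⟩
    have h4 := Int.natAbs_dvd_natAbs.2 h3
    rw [Int.natAbs_natCast] at h4
    have := Nat.le_of_dvd (Int.natAbs_pos.2 hgm) h4
    omega
  refine ⟨fun b => if b = 0 then (h.coeff m).natAbs else N b, ?_⟩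
  intro p hp hB
  replace hB : (h.coeff m).natAbs < p := by simpa using hB
  have hprime : (Ideal.span {((p : ℕ) : R)}).IsPrime := by
    have h1 : Prime ((MvPolynomial.C ((p : ℕ) : ℤ)) : MvPolynomial X ℤ) :=
      (MvPolynomial.prime_C_iff X).2 (Nat.prime_iff_prime_int.1 hp)
    have h2 : ((p : ℕ) : R) = MvPolynomial.C ((p : ℕ) : ℤ) := by simp [R]
    rw [h2]
    exact (Ideal.span_singleton_prime h1.ne_zero).2 h1
  obtain ⟨Q, hQ, hfQ, hcomap⟩ := hlift (Ideal.span {((p : ℕ) : R)}) hprime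
    (hndvd h m p hm hB)
  have hpQ : (p : A) ∈ Q := by
    have h1 : ((p : ℕ) : R) ∈ Q.comap θ.toRingHom := by
      rw [hcomap]
      exact Ideal.mem_span_singleton_self _
    rw [Ideal.mem_comap, map_natCast] at h1
    exact h1
  have hunQ : IsUnramifiedAt R Q := by
    have h1 := basicOpen_subset_unramifiedLocus_iff.2 hfun
    exact h1 (show (⟨Q, hQ⟩ : PrimeSpectrum A) ∈ PrimeSpectrum.basicOpen f from hfQ)
  -- derivations preserve `Q`
  have hstab : ∀ (D : Derivation ℤ A A), ∀ q ∈ Q, D q ∈ Q := by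
    intro D q hq
    obtain ⟨s, hs, a, ha⟩ := exists_mul_eq ((p : ℕ) : R) (Ideal.span {((p : ℕ) : R)}) rfl Q hcomap
      hunQ q hq
    rw [map_natCast] at ha
    have h1 := congrArg D ha
    rw [Derivation.leibniz, Derivation.leibniz, Derivation.map_natCast, smul_zero, add_zero,
      smul_eq_mul, smul_eq_mul, smul_eq_mul] at h1
    have h2 : s * D q ∈ Q := by
      have h3 : s * D q = (p : A) * D a - q * D s := by
        rw [← h1]
        ring
      rw [h3]
      exact Q.sub_mem (Q.mul_mem_right _ hpQ) (Q.mul_mem_right _ hq)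
    exact (hQ.mem_or_mem h2).resolve_left hs
  refine ⟨FractionRing (A ⧸ Q), inferInstance,
    (algebraMap (A ⧸ Q) (FractionRing (A ⧸ Q))).comp (Ideal.Quotient.mk Q), ?_, ?_, ?_, ?_⟩
  · apply charP_of_cast_eq_zero hp
    have h1 : ((p : ℕ) : A ⧸ Q) = 0 := by
      rw [← map_natCast (Ideal.Quotient.mk Q)]
      exact Ideal.Quotient.eq_zero_iff_mem.2 hpQ
    rw [← map_natCast (algebraMap (A ⧸ Q) (FractionRing (A ⧸ Q))), h1, map_zero]
  · intro D
    exact exists_residue_derivation Q D (hstab D)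
  · intro b hb hBb
    replace hBb : N b < p := by simpa [hb] using hBb
    obtain ⟨g, hbg, m', hm', hle⟩ := hN b hb
    have h1 : g ∉ Ideal.span {((p : ℕ) : R)} := hndvd g m' p hm' (lt_of_le_of_lt hle hBb)
    intro h2
    rw [RingHom.comp_apply, map_eq_zero_iff _ (IsFractionRing.injective (A ⧸ Q) _),
      Ideal.Quotient.eq_zero_iff_mem] at h2
    apply h1
    rw [← hcomap, Ideal.mem_comap]
    exact Q.mem_of_dvd hbg h2
  · intro x
    obtain ⟨a, b, hb, rfl⟩ := IsFractionRing.div_surjective (A := A ⧸ Q) x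
    obtain ⟨a, rfl⟩ := Ideal.Quotient.mk_surjective a
    obtain ⟨b, rfl⟩ := Ideal.Quotient.mk_surjective b
    refine ⟨a, b, ?_, rfl⟩
    rw [RingHom.comp_apply, Ne, map_eq_zero_iff _ (IsFractionRing.injective (A ⧸ Q) _)]
    exact nonZeroDivisors.ne_zero hb

private structure ResF' (A : Type u) [CommRing A] where
  L : Type u
  fld : Field L
  f : A →+* L

theorem exists_resFields_pbas (A : Type u) [CommRing A] [IsDomain A] [CharZero A]
    [Algebra.FiniteType ℤ A] :
    ∃ (L : ℕ → Type u) (_ : ∀ p, Field (L p)) (φ : ∀ p, A →+* L p) (B : A → ℕ),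
      ResFields A L φ B ∧ ∀ p : ℕ, p.Prime → B 0 < p →
        (∀ x : L p, ∃ a b : A, φ p b ≠ 0 ∧ x = φ p a / φ p b) ∧
        ∃ (Λ : Type) (_ : Fintype Λ) (b : Λ → L p), PBas p b := by
  classical
  obtain ⟨B, hB⟩ := exists_fields_gen A
  have h : ∀ p : ℕ, ∃ S : ResF' A, p.Prime → B 0 < p →
      (letI := S.fld; CharP S.L p ∧
        (∀ D : Derivation ℤ A A, ∃ dl : Derivation ℤ S.L S.L, ∀ a, dl (S.f a) = S.f (D a)) ∧
        (∀ b, b ≠ 0 → B b < p → S.f b ≠ 0) ∧ ∀ x : S.L, ∃ a b : A, S.f b ≠ 0 ∧ x = S.f a / S.f b) := by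
    intro p
    by_cases hp : p.Prime ∧ B 0 < p
    · obtain ⟨kp, i, φ, h1, h2, h3, h4⟩ := hB p hp.1 hp.2
      exact ⟨⟨kp, i, φ⟩, fun _ _ => ⟨h1, h2, h3, h4⟩⟩
    · exact ⟨⟨FractionRing A, inferInstance, algebraMap A (FractionRing A)⟩,
        fun h1 h2 => absurd ⟨h1, h2⟩ hp⟩
  choose S hS using h
  let i : ∀ p, Field (S p).L := fun p => (S p).fld
  refine ⟨fun p => (S p).L, i, fun p => (S p).f, B,
    ⟨fun p h1 h2 => (hS p h1 h2).1, fun p h1 h2 => (hS p h1 h2).2.1,
      fun p h1 h2 => (hS p h1 h2).2.2.1⟩, fun p h1 h2 => ⟨(hS p h1 h2).2.2.2, ?_⟩⟩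
  have hF : Fact p.Prime := ⟨h1⟩
  have hC : CharP (S p).L p := (hS p h1 h2).1
  exact exists_pbas_of_gen (S p).f (hS p h1 h2).2.2.2

/-- PART GL0: residue fields with a finite `p`-basis. -/
theorem exists_resFields' (A : Type u) [CommRing A] [IsDomain A] [CharZero A]
    [Algebra.FiniteType ℤ A] :
    ∃ (L : ℕ → Type u) (_ : ∀ p, Field (L p)) (φ : ∀ p, A →+* L p) (B : A → ℕ),
      ResFields A L φ B ∧ ∀ p : ℕ, p.Prime → B 0 < p → ∃ (Λ : Type) (_ : Fintype Λ) (b : Λ → L p),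
        PBas p b := by
  obtain ⟨L, i, φ, B, h1, h2⟩ := exists_resFields_pbas A
  exact ⟨L, i, φ, B, h1, fun p hp hB => (h2 p hp hB).2⟩

end MPadcGP
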