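import Pool.Agent.Lib.MP_adc574_ag_GP.ClC
import Pool.Agent.Lib.MP_adc574_ag_GP.ClD
import Pool.Agent.Lib.MP_adc574_ag_GP.Fin2L
import Pool.Agent.Lib.MP_adc574_ag_GP.FinL
import Pool.Agent.Lib.MP_adc574_ag_GP.GL0
import Pool.Agent.Lib.MP_adc574_ag_GP.Logs
import Pool.Agent.Lib.MP_adc574_ag_GP.Main2
import Pool.Agent.Lib.MP_adc574_ag_GP.ResF

/-!
# GP2: the assembly
-/

set_option autoImplicit false
set_option linter.unusedSectionVars false

namespace MPadcGP

universe u v w x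

section

variable {M : Type} [AddCommGroup M] [Fintype M] [DecidableEq M]

/-- The final theorem, graded version. -/
theorem gp2_main {k : Type u} [Field k] [IsAlgClosed k] [CharZero k] (A : Subalgebra ℤ k) (hA : A.FG)
    {n : ℕ} (I : Ideal (MvPolynomial (Fin n) A)) (hI : IsHomog I)
    (hs : IsSmoothProj (bI (algebraMap A k) I)) {wt : Fin n → M}
    (hw : IsWHomog wt (bI (algebraMap A k) I))
    (hg : (grP (hI.map (algebraMap A k)) hw).IsGeneralW) (b : A) (hb : b ≠ 0) :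
    ∃ p₀ : ℕ, ∀ p : ℕ, p₀ ≤ p → p.Prime →
      (∀ (m i : ℕ) (μ : M), Module.finrank k ↥((prC (bI (algebraMap A k) I)).Fil m i ⊓
        (grP (hI.map (algebraMap A k)) hw).HW m (p • μ)) =
          Module.finrank k ↥((prC (bI (algebraMap A k) I)).Fil m i ⊓
            (grP (hI.map (algebraMap A k)) hw).HW m μ)) →
      HasOrdinaryPoint I b p := by
  classical
  have ft : ∀ A' : Subalgebra ℤ k, A'.FG → Algebra.FiniteType ℤ A' := fun A' h =>
    (Subalgebra.fg_iff_finiteType A').1 h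
  have noe : ∀ A' : Subalgebra ℤ k, A'.FG → IsNoetherianRing A' := fun A' h =>
    have := ft A' h
    Algebra.FiniteType.isNoetherianRing ℤ A'
  have cz : ∀ A' : Subalgebra ℤ k, CharZero A' := fun A' =>
    ⟨fun a b h => by
      have h1 := congrArg (algebraMap A' k) h
      rw [map_natCast, map_natCast] at h1
      exact Nat.cast_injective h1⟩
  have hnA := noe A hA
  obtain ⟨a₁, ha₁, hs₁⟩ := IsSmoothProj.exists_away hI (algebraMap A k) Subtype.val_injective hs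
  obtain ⟨A₀, hle₀, hfg₀, hu₀⟩ := exists_inv A hA a₁ ha₁
  obtain ⟨A₁, hle₀₁, hfg₁, hwh⟩ := exists_wHomog A₀ hfg₀
    (bI (Subalgebra.inclusion hle₀).toRingHom I) (wt := wt) (by
      rw [bI_bI]
      exact hw)
  have hle₁ : A ≤ A₁ := hle₀.trans hle₀₁
  have hu₁ : IsUnit ((Subalgebra.inclusion hle₁).toRingHom a₁) :=
    hu₀.map (Subalgebra.inclusion hle₀₁)
  set ι₁ : A →+* A₁ := (Subalgebra.inclusion hle₁).toRingHom with hι₁
  have hsm₁ : IsSmoothProj (bI ι₁ I) := IsSmoothProj.of_away hI hs₁ ι₁ hu₁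
  have hI₁ : IsHomog (bI ι₁ I) := hI.map _
  have hw₁ : IsWHomog wt (bI ι₁ I) := by
    rw [bI_bI] at hwh
    exact hwh
  have hnA₁ := noe A₁ hfg₁
  obtain ⟨a₂, ha₂, hdat⟩ := exists_datW hI₁ hsm₁ hw₁
  obtain ⟨A₂, hle₂, hfg₂, hu₂⟩ := exists_inv A₁ hfg₁ a₂ ha₂
  have hfin : (∀ m, FiniteDimensional k ((prC (bI (algebraMap A₁ k) (bI ι₁ I))).HdR m)) ∧
      ∃ M, ∀ m, M ≤ m → Subsingleton ((prC (bI (algebraMap A₁ k) (bI ι₁ I))).HdR m) := by
    obtain ⟨β, i1, i2, lev, z, h, hD⟩ := hdat k (algebraMap A₁ k)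
      (IsUnit.mk0 _ fun h => ha₂ (Subtype.ext h))
    refine ⟨fun m => hD.total.self.finite m, ?_⟩
    obtain ⟨M, hM⟩ := hD.total.bound
    refine ⟨M, fun m hm => ?_⟩
    have := hM m hm
    exact (hD.total.self.eqv m).symm.toEquiv.subsingleton
  obtain ⟨A₁', hle₁', hfg₁', hlog⟩ := exists_logs A₁ hfg₁ hI₁ hsm₁ hfin.1 hfin.2
  obtain ⟨A₃, hle₃, N, D, hgood⟩ := exists_good' (A₂ ⊔ A₁') (hfg₂.sup hfg₁')
  have h13 : A₁ ≤ A₃ := (hle₂.trans le_sup_left).trans hle₃
  have h1'3 : A₁' ≤ A₃ := le_sup_right.trans hle₃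
  have h23 : A₂ ≤ A₃ := le_sup_left.trans hle₃
  have hlog₃ := hlog A₃ h1'3 h13
  set ι₃ : A₁ →+* A₃ := (Subalgebra.inclusion h13).toRingHom with hι₃
  have hu₃ : IsUnit (ι₃ a₂) := hu₂.map (Subalgebra.inclusion h23)
  have hdat₃ := hdat A₃ ι₃ hu₃
  have hI₃ : IsHomog (bI ι₃ (bI ι₁ I)) := hI₁.map _
  have hw₃ : IsWHomog wt (bI ι₃ (bI ι₁ I)) := hw₁.map _
  set I₃ := bI ι₃ (bI ι₁ I) with hI₃def
  choose S hSf hSl hSs using hlog₃
  obtain ⟨β, i1, i2, lev, z, h, hD⟩ := hdat₃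
  have hDt := hD.total
  have hsm₃ : IsSmoothProj I₃ := hsm₁.map hI₁ ι₃
  have hV0 : ∀ l, ∃ V : Lft (prC I₃) (D l), (grP hI₃ hw₃).IsGr V := fun l =>
    (grP hI₃ hw₃).exists_isGr (exists_lft hI₃ hsm₃ (D l)).some
  choose V hV using hV0
  obtain ⟨G, mu, Lg, hR, hSL⟩ := exists_relW hD.self V hV S hSl
  have hIk : bI (algebraMap A₃ k) I₃ = bI (algebraMap A k) I := by
    rw [hI₃def, bI_bI, bI_bI]
    rfl
  have hgen : (grP (hI₃.map (algebraMap A₃ k)) (hw₃.map (algebraMap A₃ k))).IsGeneralW :=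
    isGeneralW_congr hIk.symm _ hw _ _ hg
  have hGen := gen_of_relW hD hgood V hV hR S hSL hSs hgen
  have hft₃ := ft A₃ hgood.fg
  have hn₃ := noe A₃ hgood.fg
  have hc₃ := cz A₃
  obtain ⟨L, iL, φ, B, hB, hBb⟩ := exists_resFields' A₃
  obtain ⟨t, ht⟩ := hgood.dual
  obtain ⟨p₀, hp₀⟩ := LinW.key_U (j := algebraMap A₃ k) Subtype.val_injective
    (mkLinW lev D G mu Lg hD.bound') hgood.der (by
      intro m c c' hcc b₁ b₂
      have h1 : c = c' := by
        funext l'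
        have h2 := hcc (t l')
        have h3 : ∀ l, algebraMap A₃ k (D l (t l')) = if l = l' then 1 else 0 := by
          intro l
          rw [ht]
          split_ifs
          · exact map_one _
          · exact map_zero _
        have h4 : ∀ c : Fin N → k, ∑ l, c l * algebraMap A₃ k (D l (t l')) = c l' := by
          intro c
          simp only [h3, mul_ite, mul_one, mul_zero, Finset.sum_ite_eq', Finset.mem_univ, if_true]
        rw [← h4 c, ← h4 c']
        exact h2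
      rw [h1]) hGen hB
  set ι : A →+* A₃ := ι₃.comp ι₁ with hι
  have hιinj : Function.Injective ι := fun x y hxy => by
    have := congrArg (algebraMap A₃ k) hxy
    exact Subtype.ext this
  set f : A₃ := ι (b * a₁) with hf
  have hf0 : f ≠ 0 := by
    rw [hf]
    intro h0
    have := hιinj (h0.trans (map_zero ι).symm)
    exact mul_ne_zero hb ha₁ this
  refine ⟨p₀ + B 0 + B f + Fintype.card M + 1, fun p hp hprime hdimk => ?_⟩
  have hfact : Fact p.Prime := ⟨hprime⟩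
  have hcp : CharP (L p) p := hB.char p hprime (by omega)
  have hMp : Function.Injective fun μ : M => p • μ := smul_injective_of_lt hprime (by omega)
  obtain ⟨Λ, iΛ, bb, hbb⟩ := hBb p hprime (by omega)
  have hdim : DimC (prC (bI (φ p) I₃)) := fun m i =>
    conj_dim hbb (hI₃.map _) (hsm₃.map hI₃ (φ p)) (fun q m => (hD.hodge (L p) (φ p) q m).1)
      (dat_sum hI₃ hsm₃ hDt (φ p)) m i
  have hcard : ∀ (m i : ℕ) (μ : M), Fintype.card {b : β (m, p • μ) // ¬ lev (m, p • μ) b < i} =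
      Fintype.card {b : β (m, μ) // ¬ lev (m, μ) b < i} := by
    intro m i μ
    have hk := hD.ad k (algebraMap A₃ k)
    rw [← hk.finrank_Fil (m, p • μ) i, ← hk.finrank_Fil (m, μ) i]
    change Module.finrank k ↥((prC (bI (algebraMap A₃ k) I₃)).Fil m i ⊓ GrX.HW _ m (p • μ)) =
      Module.finrank k ↥((prC (bI (algebraMap A₃ k) I₃)).Fil m i ⊓ GrX.HW _ m μ)
    rw [dimHW_congr hIk _ _ (hI.map _) hw m i (p • μ), dimHW_congr hIk _ _ (hI.map _) hw m i μ]
    exact hdimk m i μ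
  have hdimW : DimCW (grP (hI₃.map (φ p)) (hw₃.map (φ p))) := by
    intro m i μ'
    obtain ⟨μ, rfl⟩ := (Finite.injective_iff_surjective.1 hMp) μ'
    have had := hD.ad (L p) (φ p)
    have h1 := conj_dimW hbb (hI₃.map (φ p)) (hsm₃.map hI₃ (φ p)) (hw₃.map (φ p)) hMp
      (fun q m => (hD.hodge (L p) (φ p) q m).1) (dat_sum hI₃ hsm₃ hDt (φ p)) m i μ
    have h2 := had.finrank_Fil (m, p • μ) (i + 1)
    have h3 := had.finrank_Fil (m, μ) (i + 1)
    have h4 := had.finrank (m, p • μ)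
    have h5 := had.finrank (m, μ)
    have h6 : Fintype.card (β (m, p • μ)) = Fintype.card (β (m, μ)) := by
      have h7 := hcard m 0 μ
      have h8 : ∀ a : ℕ × M, Fintype.card {b : β a // ¬ lev a b < 0} = Fintype.card (β a) := fun a =>
        Fintype.card_congr (Equiv.subtypeUnivEquiv fun b => Nat.not_lt_zero _)
      rw [h8, h8] at h7
      exact h7
    have h9 := hcard m (i + 1) μ
    change Module.finrank (L p) ↥((prC (bI (φ p) I₃)).Fil m (i + 1) ⊓ GrX.HW _ m (p • μ)) = _ at h2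
    change Module.finrank (L p) ↥((prC (bI (φ p) I₃)).Fil m (i + 1) ⊓ GrX.HW _ m μ) = _ at h3
    change Module.finrank (L p) ↥(GrX.HW _ m (p • μ)) = _ at h4
    change Module.finrank (L p) ↥(GrX.HW _ m μ) = _ at h5
    change Module.finrank (L p) ↥((prC (bI (φ p) I₃)).Con m i ⊓ GrX.HW _ m (p • μ)) +
      Module.finrank (L p) ↥((prC (bI (φ p) I₃)).Fil m (i + 1) ⊓ GrX.HW _ m (p • μ)) =
        Module.finrank (L p) ↥(GrX.HW _ m (p • μ))
    rw [h2, h9, ← h3, h4, h6, ← h5]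
    exact h1
  choose δ hδ using fun l => hB.der p hprime (by omega) (D l)
  have hopp' := hp₀ p hprime (by omega) δ hδ (fun a i => (hD.ad (L p) (φ p)).con a i)
    (con_conjW hD V hR (φ p) hdimW) (con_stabW hD V hR (φ p) δ hδ)
  have hopp : IsOppC (prC (bI (φ p) I₃)) :=
    oppC_of_weights (hD.ad (L p) (φ p)) fun a i c hc1 hc2 => hopp' a i c hc1 hc2
  obtain ⟨κ, iκ, hκf, hκc, ψ, -, hψf, hψo⟩ := exists_closed_ker hI₃ hsm₃ hDt (φ p) f
    (hB.ne p hprime (by omega) f hf0 (by omega)) hopp hdim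
  have hdimκ : DimC (prC (bI ψ I₃)) := fun m i =>
    conj_dim (p := p) pbas_finite (hI₃.map _) (hsm₃.map hI₃ ψ) (fun q m => (hD.hodge κ ψ q m).1)
      (dat_sum hI₃ hsm₃ hDt ψ) m i
  have hbk : (prC (bI ψ I₃)).IsBlochKatoOrdinary :=
    bk_of_opp (p := p) (hI₃.map _) (hsm₃.map hI₃ ψ) (fun q m => (hD.hodge κ ψ q m).1)
      (dat_sum hI₃ hsm₃ hDt ψ) (hψo hdimκ)
  -- the closed point
  set 𝔪 : Ideal A := RingHom.ker (ψ.comp ι) with h𝔪
  let ψ' : A ⧸ 𝔪 →+* κ := RingHom.kerLift (ψ.comp ι)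
  have hψ'inj : Function.Injective ψ' := RingHom.kerLift_injective _
  have hψ'mk : ψ'.comp (Ideal.Quotient.mk 𝔪) = ψ.comp ι := by
    ext x
    rfl
  have hfinq : Finite (A ⧸ 𝔪) := Finite.of_injective _ hψ'inj
  have hprime𝔪 : 𝔪.IsPrime := RingHom.ker_isPrime _
  have hmax : 𝔪.IsMaximal := Ideal.Quotient.maximal_of_isField _ (Finite.isField_of_domain _)
  have hba : b * a₁ ∉ 𝔪 := fun h => hψf h
  refine ⟨𝔪, hmax, fun h => hba (Ideal.mul_mem_right _ _ h), ?_, ?_, ?_⟩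
  · change ψ (ι (p : A)) = 0
    rw [map_natCast, map_natCast, CharP.cast_eq_zero]
  · let _ : Field (A ⧸ 𝔪) := Ideal.Quotient.field 𝔪
    refine IsSmoothProj.of_away hI hs₁ (Ideal.Quotient.mk 𝔪) (IsUnit.mk0 _ fun h => ?_)
    exact hba (Ideal.mul_mem_left _ _ (Ideal.Quotient.eq_zero_iff_mem.1 h))
  · refine bk_descent ψ' ?_ (hI.map _) ?_
    · let _ : Field (A ⧸ 𝔪) := Ideal.Quotient.field 𝔪
      let _ : Algebra (A ⧸ 𝔪) κ := ψ'.toAlgebra
      obtain ⟨r, hr⟩ := (Algebra.linearMap (A ⧸ 𝔪) κ).exists_leftInverse_of_injective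
        (LinearMap.ker_eq_bot.2 hψ'inj)
      refine ⟨r.toAddMonoidHom, ?_, fun x y => ?_⟩
      · have h1 := LinearMap.congr_fun hr 1
        rw [LinearMap.comp_apply, Algebra.linearMap_apply, map_one] at h1
        exact h1
      · have h1 : ψ' x * y = x • y := (Algebra.smul_def x y).symm
        change r (ψ' x * y) = x * r y
        rw [h1, map_smul, smul_eq_mul]
    · rw [bI_bI, hψ'mk]
      have h1 : bI ψ I₃ = bI (ψ.comp ι) I := by
        rw [hI₃def, bI_bI, bI_bI, hι, RingHom.comp_assoc]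
      rw [← h1]
      exact hbk

end

end MPadcGP
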