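import Pool.Agent.Lib.MP_adc574_ag_GP.BrW
import Pool.Agent.Lib.MP_adc574_ag_GP.Bridge
import Pool.Agent.Lib.MP_adc574_ag_GP.Fin2

/-!
# The bridge to the internal definitions: weights of projective schemes, the main theorem (helper59)
-/

set_option autoImplicit false
set_option linter.unusedSectionVars false

namespace OrdRed

open MPadcGP MvPolynomial

universe u v w x

theorem prod_dif_fn {A : Type u} {R : Type v} [CommRing A] [CommRing R] [Algebra A R] {r : ℕ} (s : Fin r → Bool)
    (z : Fin r → R) : ((List.ofFn fun t => bif s t then dif A (z t) else fn A (z t)).prod : Om A R) =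
      ((List.ofFn fun t => bif s t then df A (z t) else fz A (z t)).prod : Fm A R) := by
  have h1 : (fun t => bif s t then (dif A (z t) : Fm A R) else fn A (z t)) =
      fun t => bif s t then df A (z t) else fz A (z t) := by
    funext t
    cases s t
    · rfl
    · rfl
  exact congrArg (fun g : Fin r → Fm A R => (List.ofFn g).prod) h1

theorem wt_set_eq {A : Type u} {R : Type v} [CommRing A] [CommRing R] [Algebra A R] {n : ℕ} {M : Type w}
    [AddCommGroup M] (w : Fin n → M) (J : Finset (Fin n)) (q : Fin n → Fin n → R → Prop) (c : Fin n → J → R)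
    (hq : ∀ l (j : J) z, q l j z ↔ z = c l j) (μ : M) :
    {η : Om A R | ∃ (r : ℕ) (s : Fin r → Bool) (l j : Fin r → Fin n) (z : Fin r → R),
      (∀ t, j t ∈ J ∧ q (l t) (j t) (z t)) ∧ ∑ t, (w (l t) - w (j t)) = μ ∧
        η = (List.ofFn fun t => bif s t then dif A (z t) else fn A (z t)).prod} =
    ({ω : Fm A R | ∃ (r : ℕ) (s : Fin r → Bool) (l : Fin r → Fin n) (j : Fin r → J),
        ω = (List.ofFn fun t => bif s t then df A (c (l t) (j t)) else fz A (c (l t) (j t))).prod ∧
          ∑ t, (w (l t) - w (j t)) = μ} : Set (Fm A R)) := by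
  apply Set.eq_of_subset_of_subset
  · rintro η ⟨r, s, l, j, z, hz, hs, hη⟩
    have hj : ∀ t, j t ∈ J := fun t => (hz t).1
    have hz' : z = fun t => c (l t) ⟨j t, hj t⟩ := funext fun t => (hq (l t) ⟨j t, hj t⟩ (z t)).1 (hz t).2
    clear hz
    subst hz'
    exact ⟨r, s, l, fun t => ⟨j t, hj t⟩, hη.trans (prod_dif_fn s _), hs⟩
  · rintro η ⟨r, s, l, j, hη, hs⟩
    refine ⟨r, s, l, fun t => j t, fun t => c (l t) (j t), fun t => ⟨(j t).2, (hq (l t) (j t) _).2 rfl⟩, hs, ?_⟩
    exact hη.trans (prod_dif_fn s fun t => c (l t) (j t)).symm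

section weights

variable {A : Type u} [CommRing A] {n : ℕ} {I : Ideal (MvPolynomial (Fin n) A)} {M : Type}
  [AddCommGroup M] {w : Fin n → M} {J : Finset (Fin n)}

theorem isQuot_iff {l j : Fin n} (hj : j ∈ J) {z : chart I J} :
    IsQuot l j (z : Fun I J) ↔ z = cq I J l hj := by
  constructor
  · intro h
    apply Subtype.ext
    apply (lx_isUnit I J hj).mul_right_cancel
    rw [cq_mul_lx]
    exact h
  · rintro rfl
    exact cq_mul_lx I J l hj

theorem ofWeight_iff {μ : M} {ω : Fm A (chart I J)} :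
    OfWeight I w J μ (ω : Om A (Fun I J)) ↔ ω ∈ MPadcGP2.wtForms I w J μ := by
  have h1 := wt_set_eq (A := A) (R := chart I J) w J (fun l j z => IsQuot l j (z : Fun I J))
    (fun l j => cq I J l j.2) (fun l j z => isQuot_iff j.2) μ
  exact iff_of_eq (congrArg (fun S : Set (Fm A (chart I J)) => ω ∈ Submodule.span A S) h1)

/-- The covers with the rings of `prC I`. -/
noncomputable def cvr (I : Ideal (MvPolynomial (Fin n) A))
    (f : ∀ J K : Finset (Fin n), J ⊆ K → (chart I J →ₐ[A] chart I K)) : Cover.{u, u} A n where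
  R := fun J => chart I J
  res := fun {J K} h => f J K h

/-- The parts for these covers. -/
noncomputable def partF (w : Fin n → M)
    (f : ∀ J K : Finset (Fin n), J ⊆ K → (chart I J →ₐ[A] chart I K)) (m : ℕ) (μ : M) :
    Submodule A ((cvr I f).DR m) :=
  Submodule.span A {x | ∃ c, (cvr I f).HasClass m c x ∧ ∀ J, OfWeight I w J μ (c J)}

theorem partF_tr [Fintype M] [DecidableEq M] (hI : IsHomog I) (hw : IsWHomog w I) (m : ℕ) (μ : M) :
    (partF w (fun _ _ h => tr I h) m μ : Submodule A ((cov (prC I)).DR m)) =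
      ((grP hI hw).HW m μ).map (cmp (prC I) m : (prC I).HdR m →ₗ[A] (cov (prC I)).DR m) := by
  have h1 : {x : (cov (prC I)).DR m | ∃ c, (cov (prC I)).HasClass m c x ∧ ∀ J, OfWeight I w J μ (c J)} =
      (((grP hI hw).HW m μ).map (cmp (prC I) m : (prC I).HdR m →ₗ[A] (cov (prC I)).DR m) :
        Set ((cov (prC I)).DR m)) := by
    ext y
    obtain ⟨x, rfl⟩ := (cmp (prC I) m).surjective y
    constructor
    · rintro ⟨c, hc, hwt⟩
      obtain ⟨c', rfl, rfl⟩ := hasClass_iff.1 hc
      refine ⟨_, (grP hI hw).mem_HW.2 ⟨c', ?_, rfl⟩, rfl⟩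
      rw [MPadcGP2.grP_Wt hI hw μ]
      exact fun J => ofWeight_iff.1 (hwt J)
    · rintro ⟨x', hx', hxx⟩
      obtain rfl : x' = x := (cmp (prC I) m).injective hxx
      obtain ⟨c, hc, rfl⟩ := (grP hI hw).mem_HW.1 hx'
      refine ⟨(c : (prC I).Ch), hasClass_iff.2 ⟨c, rfl, rfl⟩, fun J => ofWeight_iff.2 ?_⟩
      rw [MPadcGP2.grP_Wt hI hw μ] at hc
      exact hc J
  have h2 : (partF w (fun _ _ h => tr I h) m μ : Submodule A ((cov (prC I)).DR m)) =
      Submodule.span A {x : (cov (prC I)).DR m | ∃ c, (cov (prC I)).HasClass m c x ∧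
        ∀ J, OfWeight I w J μ (c J)} := rfl
  rw [h2, h1, Submodule.span_eq]

end weights

section proj

variable {k : Type u} [Field k] {n : ℕ} {I : Ideal (MvPolynomial (Fin n) k)} {M : Type}
  [AddCommGroup M] [Fintype M] [DecidableEq M] {w : Fin n → M}

theorem general_proj (hI : IsHomog I) (hw : IsWHomog w I) (h : General (proj I) (part I w)) :
    General (cov (prC I)) (HC (grP hI hw)) := by
  have h1 : ∀ f g : ∀ J K : Finset (Fin n), J ⊆ K → (chart I J →ₐ[k] chart I K), f = g →
      General (cvr I f) (partF w f) → General (cvr I g) (partF w g) := by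
    rintro f g rfl hf
    exact hf
  have h2 : General (cvr I fun J K h => tr I h) (partF w fun J K h => tr I h) :=
    h1 _ _ (funext fun J => funext fun K => funext fun h => restriction_eq I h) h
  have h3 : (fun (m : ℕ) (μ : M) => (partF w (fun _ _ h => tr I h) m μ :
      Submodule k ((cov (prC I)).DR m))) = fun m μ => HC (grP hI hw) m μ :=
    funext fun m => funext fun μ => partF_tr hI hw m μ
  have h4 : ∀ H H' : ∀ m : ℕ, M → Submodule k ((cov (prC I)).DR m), H = H' →
      General (cov (prC I)) H → General (cov (prC I)) H' := by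
    rintro H H' rfl hH
    exact hH
  exact h4 _ _ h3 h2

theorem finrank_part (hI : IsHomog I) (hw : IsWHomog w I) (m i : ℕ) (μ : M) :
    Module.finrank k ↥((proj I).hodge m i ⊓ part I w m μ) =
      Module.finrank k ↥((prC I).Fil m i ⊓ (grP hI hw).HW m μ) := by
  have h1 : ∀ f g : ∀ J K : Finset (Fin n), J ⊆ K → (chart I J →ₐ[k] chart I K), f = g →
      Module.finrank k ↥((cvr I f).hodge m i ⊓ partF w f m μ) =
        Module.finrank k ↥((cvr I g).hodge m i ⊓ partF w g m μ) := by
    rintro f g rfl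
    rfl
  have h2 : Module.finrank k ↥((proj I).hodge m i ⊓ part I w m μ) =
      Module.finrank k ↥((cov (prC I)).hodge m i ⊓ (partF w (fun _ _ h => tr I h) m μ :
        Submodule k ((cov (prC I)).DR m))) :=
    h1 _ _ (funext fun J => funext fun K => funext fun h => restriction_eq I h)
  rw [h2, partF_tr hI hw, hodge_map, map_cmp_inf, finrank_map_cmp]

end proj

section main

/-- The main theorem. -/
theorem main {k : Type u} [Field k] [IsAlgClosed k] [CharZero k] (A : Subalgebra ℤ k) (hA : A.FG) {n : ℕ}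
    (I : Ideal (MvPolynomial (Fin n) A)) (hI : Homogeneous I) (hs : SmoothProj (change I (algebraMap A k)))
    {M : Type} [AddCommGroup M] [Finite M] (w : Fin n → M) (hw : WeightHomogeneous (change I (algebraMap A k)) w)
    (hg : General (proj (change I (algebraMap A k))) (part (change I (algebraMap A k)) w)) (b : A) (hb : b ≠ 0) :
    ∃ p₀ : ℕ, ∀ p : ℕ, p₀ ≤ p → p.Prime →
      (∀ (m i : ℕ) (μ : M),
        hodgeDim (change I (algebraMap A k)) w m i (p • μ) = hodgeDim (change I (algebraMap A k)) w m i μ) →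
      HasOrdinaryFibre I b p := by
  classical
  let _ : Fintype M := Fintype.ofFinite M
  have hs' : IsSmoothProj (bI (algebraMap A k) I) := hs
  have hI' : IsHomog I := hI
  have hI'' : IsHomog (bI (algebraMap A k) I) := hI'.map _
  have hw' : IsWHomog w (bI (algebraMap A k) I) := hw
  have hg' : (grP hI'' hw').IsGeneralW :=
    generalW_imp (fun D => exists_lft hI'' hs' D) (general_proj hI'' hw' hg)
  obtain ⟨p₀, hp₀⟩ := gp2_main A hA I hI' hs' hw' hg' b hb
  refine ⟨p₀, fun p h1 h2 hdim => hasOrdinaryFibre_of (hp₀ p h1 h2 fun m i μ => ?_)⟩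
  rw [← finrank_part hI'' hw', ← finrank_part hI'' hw']
  exact hdim m i μ

end main

end OrdRed
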