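import Pool.Agent.Lib.MP_adc574_ag_GP.BrL
import Pool.Agent.Lib.MP_adc574_ag_GP.BrR
import Pool.Agent.Lib.MP_adc574_ag_GP.BrX

/-!
# The bridge to the internal definitions: the relative version for projective schemes
-/

set_option autoImplicit false
set_option linter.unusedSectionVars false

namespace OrdRed

open MPadcGP MvPolynomial

universe u v w x

section proj

variable {A : Type u} [CommRing A] {n : ℕ} {I₀ I : Ideal (MvPolynomial (Fin n) A)}

/-- The restriction homomorphisms preserve the functions `x_l / x_j`. -/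
def IsRs (g : ∀ J : Finset (Fin n), chart I₀ J →ₐ[A] chart I J) : Prop :=
  ∀ J (l j : Fin n) (z : chart I₀ J), j ∈ J → IsQuot l j (z : Fun I₀ J) → IsQuot l j (g J z : Fun I J)

theorem IsRs.eq (hle : I₀ ≤ I) {g : ∀ J : Finset (Fin n), chart I₀ J →ₐ[A] chart I J} (hg : IsRs g)
    (J : Finset (Fin n)) : (g J : chart I₀ J →+* chart I J) = (rsH hle).h J := by
  refine RingHom.ext fun x => ?_
  refine chart_ind (P := fun x => (g J : chart I₀ J →+* chart I J) x = (rsH hle).h J x) I₀ J (fun a => ?_)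
    (fun l m hm => ?_) (fun x y hx hy => ?_) (fun x y hx hy => ?_) x
  · exact ((g J).commutes a).trans ((rsH hle).base J a).symm
  · have h1 : IsQuot l m (g J (cq I₀ J l hm) : Fun I J) := hg J l m (cq I₀ J l hm) hm ((isQuot_iff hm).2 rfl)
    have h2 : g J (cq I₀ J l hm) = cq I J l hm := (isQuot_iff hm).1 h1
    exact h2.trans (cmap_cq (RingHom.id A) (rs_mem hle) (Finset.Subset.refl J) l hm).symm
  · exact ((map_add (g J : chart I₀ J →+* chart I J) x y).trans (congrArg₂ (fun a b : chart I J => a + b) hx hy)).trans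
      (map_add ((rsH hle).h J) x y).symm
  · exact ((map_mul (g J : chart I₀ J →+* chart I J) x y).trans (congrArg₂ (fun a b : chart I J => a * b) hx hy)).trans
      (map_mul ((rsH hle).h J) x y).symm

theorem exists_isRs (hle : I₀ ≤ I) : ∃ g : ∀ J : Finset (Fin n), chart I₀ J →ₐ[A] chart I J, IsRs g ∧
    ∀ J, (g J : chart I₀ J →+* chart I J) = (rsH hle).h J := by
  let g : ∀ J : Finset (Fin n), chart I₀ J →ₐ[A] chart I J := fun J =>
    { (rsH hle).h J with commutes' := fun a => (rsH hle).base J a }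
  have hg : ∀ J, (g J : chart I₀ J →+* chart I J) = (rsH hle).h J := fun J => RingHom.ext fun x => rfl
  refine ⟨g, fun J l j z hj hz => ?_, hg⟩
  have h1 : z = cq I₀ J l hj := (isQuot_iff hj).1 hz
  subst h1
  exact (isQuot_iff hj).2 (cmap_cq (RingHom.id A) (rs_mem hle) (Finset.Subset.refl J) l hj)

/-- The image for the covers with the rings of `prC`. -/
noncomputable def imageF (f₀ : ∀ J K : Finset (Fin n), J ⊆ K → (chart I₀ J →ₐ[A] chart I₀ K))
    (f : ∀ J K : Finset (Fin n), J ⊆ K → (chart I J →ₐ[A] chart I K)) (m : ℕ) : Submodule A ((cvr I f).DR m) :=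
  Submodule.span A {x | ∃ (g : ∀ J, chart I₀ J →ₐ[A] chart I J) (c : (cvr I₀ f₀).Cochain),
    IsRs g ∧ c ∈ (cvr I₀ f₀).Z m ∧
      (cvr I f).HasClass m (fun J => pull (g J : chart I₀ J →+* chart I J) (fun a => ⟨a, (g J).commutes a⟩) (c J)) x}

theorem pull_push (hle : I₀ ≤ I) {g : ∀ J : Finset (Fin n), chart I₀ J →ₐ[A] chart I J}
    (hg : ∀ J, (g J : chart I₀ J →+* chart I J) = (rsH hle).h J) (c : (prC I₀).Ch) :
    (fun J => pull (g J : chart I₀ J →+* chart I J) (fun a => ⟨a, (g J).commutes a⟩) (c J) : (prC I).Ch) =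
      (rsH hle).push c := by
  funext J
  have h1 : ∀ (φ : chart I₀ J →+* chart I J) (hφ : ∀ a : A, ∃ b : A, φ (algebraMap A _ a) = algebraMap A _ b),
      φ = (rsH hle).h J → mp φ hφ (c J) = (rsH hle).e J (c J) := by
    rintro φ hφ rfl
    rfl
  exact (pull_eq _ _ _).trans (h1 _ _ (hg J))

theorem imageF_tr {k : Type u} [Field k] {I₀ I : Ideal (MvPolynomial (Fin n) k)} (hle : I₀ ≤ I) (m : ℕ) :
    (imageF (fun _ _ h => tr I₀ h) (fun _ _ h => tr I h) m : Submodule k ((cov (prC I)).DR m)) =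
      imC (rsH hle) m := by
  have h1 : {x : (cov (prC I)).DR m | ∃ (g : ∀ J, chart I₀ J →ₐ[k] chart I J) (c : (cov (prC I₀)).Cochain),
      IsRs g ∧ c ∈ (cov (prC I₀)).Z m ∧ (cov (prC I)).HasClass m
        (fun J => pull (g J : chart I₀ J →+* chart I J) (fun a => ⟨a, (g J).commutes a⟩) (c J)) x} =
      (cmp (prC I) m : (prC I).HdR m →ₗ[k] (cov (prC I)).DR m) ''
        {x | ∃ (c : ↥((prC I₀).Zc m)) (c' : ↥((prC I).Zc m)), (c' : (prC I).Ch) = (rsH hle).push c ∧
          (prC I).cl m c' = x} := by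
    ext y
    obtain ⟨x, rfl⟩ := (cmp (prC I) m).surjective y
    constructor
    · rintro ⟨g, c, hg, hc, hx⟩
      refine ⟨x, ?_, rfl⟩
      have h2 := pull_push hle (hg.eq hle) c
      have h3 : ∀ e e' : (prC I).Ch, e = e' → (cov (prC I)).HasClass m e (cmp (prC I) m x) →
          (cov (prC I)).HasClass m e' (cmp (prC I) m x) := by
        rintro e _ rfl h
        exact h
      obtain ⟨c', hc', hx'⟩ := hasClass_iff.1 (h3 _ _ h2 hx)
      exact ⟨⟨c, mem_Z_iff.1 hc⟩, c', hc', hx'⟩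
    · rintro ⟨x', ⟨c, c', hc, rfl⟩, hx⟩
      obtain rfl : (prC I).cl m c' = x := (cmp (prC I) m).injective hx
      obtain ⟨g, hg, hg'⟩ := exists_isRs hle
      have h2 := pull_push hle hg' (c : (prC I₀).Ch)
      have h3 : ∀ e e' : (prC I).Ch, e = e' → (cov (prC I)).HasClass m e' (cmp (prC I) m ((prC I).cl m c')) →
          (cov (prC I)).HasClass m e (cmp (prC I) m ((prC I).cl m c')) := by
        rintro e _ rfl h
        exact h
      exact ⟨g, (c : (prC I₀).Ch), hg, mem_Z_iff.2 c.2, h3 _ _ h2 (hasClass_iff.2 ⟨c', hc, rfl⟩)⟩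
  have h2 : (imageF (fun _ _ h => tr I₀ h) (fun _ _ h => tr I h) m : Submodule k ((cov (prC I)).DR m)) =
      Submodule.span k {x : (cov (prC I)).DR m | ∃ (g : ∀ J, chart I₀ J →ₐ[k] chart I J)
        (c : (cov (prC I₀)).Cochain), IsRs g ∧ c ∈ (cov (prC I₀)).Z m ∧ (cov (prC I)).HasClass m
          (fun J => pull (g J : chart I₀ J →+* chart I J) (fun a => ⟨a, (g J).commutes a⟩) (c J)) x} := rfl
  rw [h2, h1, Submodule.span_image]
  rfl

end proj

section main

variable {k : Type u} [Field k] {n : ℕ} {I₀ I : Ideal (MvPolynomial (Fin n) k)} {M : Type}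
  [AddCommGroup M] [Fintype M] [DecidableEq M] {w : Fin n → M}

theorem generalRel_proj (hI : IsHomog I) (hw : IsWHomog w I) (hle : I₀ ≤ I)
    (h : GeneralRel (proj I) (part I w) (image I₀ I)) :
    GeneralRel (cov (prC I)) (HC (grP hI hw)) (imC (rsH hle)) := by
  have h1 : ∀ (f₀ g₀ : ∀ J K : Finset (Fin n), J ⊆ K → (chart I₀ J →ₐ[k] chart I₀ K))
      (f g : ∀ J K : Finset (Fin n), J ⊆ K → (chart I J →ₐ[k] chart I K)), f₀ = g₀ → f = g →
      GeneralRel (cvr I f) (partF w f) (imageF f₀ f) → GeneralRel (cvr I g) (partF w g) (imageF g₀ g) := by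
    rintro f₀ g₀ f g rfl rfl hf
    exact hf
  have h2 : GeneralRel (cvr I fun J K h => tr I h) (partF w fun J K h => tr I h)
      (imageF (fun _ _ h => tr I₀ h) (fun _ _ h => tr I h)) :=
    h1 _ _ _ _ (funext fun J => funext fun K => funext fun h => restriction_eq I₀ h)
      (funext fun J => funext fun K => funext fun h => restriction_eq I h) h
  have h3 : (fun (m : ℕ) (μ : M) => (partF w (fun _ _ h => tr I h) m μ :
      Submodule k ((cov (prC I)).DR m))) = fun m μ => HC (grP hI hw) m μ :=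
    funext fun m => funext fun μ => partF_tr hI hw m μ
  have h3' : (fun m : ℕ => (imageF (fun _ _ h => tr I₀ h) (fun _ _ h => tr I h) m :
      Submodule k ((cov (prC I)).DR m))) = fun m => imC (rsH hle) m := funext fun m => imageF_tr hle m
  have h4 : ∀ (H H' : ∀ m : ℕ, M → Submodule k ((cov (prC I)).DR m))
      (T T' : ∀ m : ℕ, Submodule k ((cov (prC I)).DR m)), H = H' → T = T' →
      GeneralRel (cov (prC I)) H T → GeneralRel (cov (prC I)) H' T' := by
    rintro H H' T T' rfl rfl hH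
    exact hH
  exact h4 _ _ _ _ h3 h3' h2

end main

section dense

theorem denseOrdinary_iff {A : Type u} [CommRing A] {n : ℕ} {I : Ideal (MvPolynomial (Fin n) A)} {𝔓 : Ideal A} :
    DenseOrdinary I 𝔓 ↔ IsDenseOrd I 𝔓 := by
  constructor
  · intro h b hb
    obtain ⟨𝔪, h1, h2, h3, h4, h5⟩ := h b hb
    refine ⟨𝔪, h1, h2, h3, h4, ordinary_to ?_⟩
    rw [← proj_eq]
    exact h5
  · intro h b hb
    obtain ⟨𝔪, h1, h2, h3, h4, h5⟩ := h b hb
    refine ⟨𝔪, h1, h2, h3, h4, ?_⟩
    rw [proj_eq]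
    exact ordinary_of h5

end dense

end OrdRed
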