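import Pool.Agent.Lib.MP_adc574_ag_GP.BrS
import Pool.Agent.Lib.MP_adc574_ag_GP.Fin5

/-!
# The bridge to the internal definitions: the main theorem, open form
-/

set_option autoImplicit false
set_option linter.unusedSectionVars false

namespace OrdRed

open MPadcGP MvPolynomial

universe u v w x

/-- The main theorem, open form. -/
theorem main_open {k : Type u} [Field k] [IsAlgClosed k] [CharZero k] (A : Subalgebra ℤ k) (hA : A.FG) {n : ℕ}
    (I : Ideal (MvPolynomial (Fin n) A)) (hI : Homogeneous I) (hs : SmoothProj (change I (algebraMap A k)))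
    {M : Type} [AddCommGroup M] [Finite M] (w : Fin n → M) (hw : WeightHomogeneous (change I (algebraMap A k)) w)
    (hg : General (proj (change I (algebraMap A k))) (part (change I (algebraMap A k)) w)) (b : A) (hb : b ≠ 0) :
    ∃ p₀ : ℕ, ∀ p : ℕ, p₀ ≤ p → p.Prime →
      (∀ (m i : ℕ) (μ : M),
        hodgeDim (change I (algebraMap A k)) w m i (p • μ) = hodgeDim (change I (algebraMap A k)) w m i μ) →
      HasOrdinaryFibre I b p ∧ ∀ 𝔓 ∈ (Ideal.span {(p : A)}).minimalPrimes, ∃ f ∉ 𝔓, ∀ 𝔫 : Ideal A, 𝔫.IsMaximal →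
        𝔓 ≤ 𝔫 → f ∉ 𝔫 →
          SmoothProj (change I (Ideal.Quotient.mk 𝔫)) ∧ (proj (change I (Ideal.Quotient.mk 𝔫))).Ordinary := by
  classical
  let _ : Fintype M := Fintype.ofFinite M
  have hs' : IsSmoothProj (bI (algebraMap A k) I) := hs
  have hI' : IsHomog I := hI
  have hI'' : IsHomog (bI (algebraMap A k) I) := hI'.map _
  have hw' : IsWHomog w (bI (algebraMap A k) I) := hw
  have hg' : (grP hI'' hw').IsGeneralW :=
    generalW_imp (fun D => exists_lft hI'' hs' D) (general_proj hI'' hw' hg)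
  obtain ⟨p₀, hp₀⟩ := main A hA I hI hs w hw hg b hb
  obtain ⟨p₁, hp₁⟩ := abs_open A hA I hI' hs' hw' hg'
  refine ⟨p₀ + p₁, fun p hp hprime hdim => ⟨hp₀ p (by omega) hprime hdim, fun 𝔓 h𝔓 => ?_⟩⟩
  obtain ⟨f, hf, hall⟩ := hp₁ p (by omega) hprime (fun m i μ => by
    rw [← finrank_part hI'' hw', ← finrank_part hI'' hw']
    exact hdim m i μ) 𝔓 h𝔓
  refine ⟨f, hf, fun 𝔫 h𝔫 hle hf𝔫 => ?_⟩
  obtain ⟨h1, h2⟩ := hall 𝔫 h𝔫 hle hf𝔫
  refine ⟨h1, ?_⟩
  rw [proj_eq]
  exact ordinary_of h2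

end OrdRed
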