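import Pool.Agent.Lib.MP_adc574_ag_BM.LaB
import Pool.Agent.Lib.MP_adc574_ag_GP.Gen

/-!
# Big monodromy: linear algebra

* `exists_iso`: on a space `V` with a nondegenerate alternating or symmetric form (or with the form zero) there is
  an isometry `g` of determinant 1 with `g F ∩ P = 0`, if `dim F + dim P = dim V`.
* `exists_special`: the same for `H = T ⊕ V` and isometries of `V` extended by the identity of `T`, if
  `T = (T ∩ P) ⊕ (T ∩ F)`.
* `exists_nonzero`: a nonzero form killed by `P` does not vanish on `g F`.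
-/

set_option autoImplicit false

namespace MPadcGP

open MPadcBM

section one

variable {k : Type*} [Field k] {V : Type*} [AddCommGroup V] [Module k V] [FiniteDimensional k V]

/-- An automorphism of determinant one which moves `F` away from `P`. -/
theorem exists_sl (F P : Submodule k V)
    (hd : Module.finrank k F + Module.finrank k P = Module.finrank k V) :
    ∃ g : V →ₗ[k] V, LinearMap.det g = 1 ∧ ∀ x ∈ F, g x ∈ P → x = 0 := by
  obtain ⟨C, hC⟩ := P.exists_isCompl
  obtain ⟨E, hE⟩ := F.exists_isCompl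
  have h1 := Submodule.finrank_add_eq_of_isCompl hC
  have h2 := Submodule.finrank_add_eq_of_isCompl hE
  let e1 : F ≃ₗ[k] C := LinearEquiv.ofFinrankEq F C (by omega)
  let e2 : E ≃ₗ[k] P := LinearEquiv.ofFinrankEq E P (by omega)
  let g0 : V ≃ₗ[k] V := (Submodule.prodEquivOfIsCompl F E hE).symm.trans
    ((LinearEquiv.prodCongr e1 e2).trans (Submodule.prodEquivOfIsCompl C P hC.symm))
  have hg0 : ∀ x ∈ F, g0 x ∈ C := by
    intro x hx
    have h3 : (Submodule.prodEquivOfIsCompl F E hE).symm x = (⟨x, hx⟩, 0) :=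
      Submodule.prodEquivOfIsCompl_symm_apply_left F E hE ⟨x, hx⟩
    change Submodule.prodEquivOfIsCompl C P hC.symm (LinearEquiv.prodCongr e1 e2
      ((Submodule.prodEquivOfIsCompl F E hE).symm x)) ∈ C
    rw [h3]
    simp
  have hg1 : ∀ x ∈ F, g0 x ∈ P → x = 0 := by
    intro x hx h3
    have h4 : g0 x ∈ P ⊓ C := ⟨h3, hg0 x hx⟩
    rw [hC.inf_eq_bot, Submodule.mem_bot] at h4
    exact g0.map_eq_zero_iff.mp h4
  by_cases hF : F = ⊥
  · refine ⟨LinearMap.id, LinearMap.det_id, fun x hx _ => ?_⟩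
    rw [hF, Submodule.mem_bot] at hx
    exact hx
  obtain ⟨w, hwF, hw⟩ := Submodule.exists_mem_ne_zero_of_ne_bot hF
  set δ := LinearMap.det (g0 : V →ₗ[k] V) with hδ
  have hδ0 : δ ≠ 0 := by
    rw [hδ]
    exact (LinearEquiv.isUnit_det' g0).ne_zero
  obtain ⟨μ, hμ⟩ : ∃ μ : Module.Dual k V, μ w = δ⁻¹ - 1 := by
    obtain ⟨ν, hν⟩ := Module.Projective.exists_dual_ne_zero k hw
    refine ⟨((δ⁻¹ - 1) * (ν w)⁻¹) • ν, ?_⟩
    rw [LinearMap.smul_apply, smul_eq_mul, mul_assoc, inv_mul_cancel₀ hν, mul_one]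
  have hdet : LinearMap.det ((g0 : V →ₗ[k] V) ∘ₗ LinearMap.transvection μ w) = 1 := by
    rw [LinearMap.det_comp, LinearMap.transvection.det, hμ, ← hδ]
    field_simp
    ring
  refine ⟨(g0 : V →ₗ[k] V) ∘ₗ LinearMap.transvection μ w, hdet, ?_⟩
  intro x hx h3
  have h4 : LinearMap.transvection μ w x ∈ F := by
    rw [LinearMap.transvection.apply]
    exact F.add_mem hx (F.smul_mem _ hwF)
  have h5 := hg1 _ h4 h3
  have h6 : IsUnit (LinearMap.det (LinearMap.transvection μ w)) := by
    rw [LinearMap.transvection.det, hμ]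
    rw [add_sub_cancel]
    exact isUnit_iff_ne_zero.2 (inv_ne_zero hδ0)
  exact (LinearMap.equivOfDetNeZero _ h6.ne_zero).map_eq_zero_iff.mp h5

/-- An isometry of determinant one which moves `F` away from `P`. -/
theorem exists_iso [CharZero k] (B : V →ₗ[k] V →ₗ[k] k)
    (hnd : ∀ x, (∀ y, B x y = 0) → x = 0) (F P : Submodule k V)
    (hB : (∀ x, B x x = 0) ∨ (∀ x y, B y x = B x y) ∧ 2 * Module.finrank k F ≠ Module.finrank k V)
    (hd : Module.finrank k F + Module.finrank k P = Module.finrank k V) :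
    ∃ g : V →ₗ[k] V, (∀ x y, B (g x) (g y) = B x y) ∧ LinearMap.det g = 1 ∧
      ∀ x ∈ F, g x ∈ P → x = 0 := by
  classical
  set r := Module.finrank k F with hr
  have hq : Module.finrank k (V ⧸ P) = r := by
    have := P.finrank_quotient_add_finrank
    omega
  let q : Module.Basis (Fin r) k (V ⧸ P) := Module.finBasisOfFinrankEq k (V ⧸ P) hq
  let c : Fin r → V →ₗ[k] k := fun v => (q.coord v) ∘ₗ P.mkQ
  have hc : ∀ lam : Fin r → k, (∀ x, ∑ v, lam v * c v x = 0) → lam = 0 := by
    intro lam h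
    funext v₀
    obtain ⟨x, hx⟩ := P.mkQ_surjective (q v₀)
    have h1 := h x
    have h2 : ∀ v, c v x = if v₀ = v then 1 else 0 := by
      intro v
      change q.coord v (P.mkQ x) = _
      rw [hx, Module.Basis.coord_apply, Module.Basis.repr_self, Finsupp.single_apply]
    simp only [h2, mul_ite, mul_one, mul_zero, Finset.sum_ite_eq, Finset.mem_univ, if_true] at h1
    exact h1
  let b : Module.Basis (Fin r) k F := Module.finBasisOfFinrankEq k F rfl
  let f : Fin r → V := fun u => (b u : V)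
  have hf : LinearIndependent k f := b.linearIndependent.map' F.subtype F.ker_subtype
  obtain ⟨g, hg1, hg2, hg3⟩ : ∃ g : V →ₗ[k] V, (∀ x y, B (g x) (g y) = B x y) ∧
      LinearMap.det g = 1 ∧ (Mat c fun u => g (f u)).det ≠ 0 := by
    rcases hB with h | ⟨h, h'⟩
    · refine exists_isometry B hnd c hc 1 ?_ f hf (Or.inl odd_one)
      intro x y
      have h1 := h (x + y)
      simp only [map_add, LinearMap.add_apply, h x, h y, zero_add, add_zero] at h1
      rw [pow_one, neg_one_mul]
      linear_combination h1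
    · refine exists_isometry B hnd c hc 0 ?_ f hf (Or.inr h')
      intro x y
      rw [pow_zero, one_mul, h]
  refine ⟨g, hg1, hg2, ?_⟩
  intro x hx hgx
  obtain ⟨a, ha⟩ : ∃ a : Fin r → k, x = ∑ u, a u • f u := by
    refine ⟨fun u => b.repr ⟨x, hx⟩ u, ?_⟩
    have h1 := congrArg F.subtype (b.sum_repr ⟨x, hx⟩)
    rw [map_sum] at h1
    exact h1.symm
  have h1 : (Mat c fun u => g (f u)).mulVec a = 0 := by
    funext v
    have h2 : c v (g x) = 0 := by
      change q.coord v (P.mkQ (g x)) = 0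
      rw [Submodule.mkQ_apply, (Submodule.Quotient.mk_eq_zero P).2 hgx, map_zero]
    rw [ha, map_sum, map_sum] at h2
    rw [Pi.zero_apply, ← h2]
    simp only [Matrix.mulVec, dotProduct, Mat, Matrix.of_apply, map_smul, smul_eq_mul]
    exact Finset.sum_congr rfl fun u _ => mul_comm _ _
  have h2 : a = 0 := Matrix.eq_zero_of_mulVec_eq_zero hg3 h1
  rw [ha, h2]
  simp

end one

section two

variable {k : Type*} [Field k] {H : Type*} [AddCommGroup H] [Module k H]

/-- `g` is an automorphism of determinant one which is the identity on `T`, preserves `V` and is an isometry of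
the restriction of the bilinear form `B` to `V`. -/
structure IsSpecial (T V : Submodule k H) (B : H →ₗ[k] H →ₗ[k] k) (g : H →ₗ[k] H) : Prop where
  fix : ∀ x ∈ T, g x = x
  map : ∀ x ∈ V, g x ∈ V
  isom : ∀ x ∈ V, ∀ y ∈ V, B (g x) (g y) = B x y
  det : LinearMap.det g = 1

/-- The form on `V` is zero, or nondegenerate and alternating, or nondegenerate and symmetric; in the last case
`d` is not half the dimension. -/
def IsFormOn (V : Submodule k H) (B : H →ₗ[k] H →ₗ[k] k) : Prop :=
  (∀ x ∈ V, ∀ y ∈ V, B x y = 0) ∨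
    (∀ x ∈ V, (∀ y ∈ V, B x y = 0) → x = 0) ∧
      ((∀ x ∈ V, B x x = 0) ∨ ∀ x ∈ V, ∀ y ∈ V, B y x = B x y)

variable [CharZero k] [FiniteDimensional k H]

theorem exists_special {T V : Submodule k H} (hTV : IsCompl T V) {B : H →ₗ[k] H →ₗ[k] k}
    (hB : IsFormOn V B) {P F : Submodule k H}
    (hd : Module.finrank k P + Module.finrank k F = Module.finrank k H)
    (hT : T ≤ (T ⊓ P) ⊔ (T ⊓ F)) (hPF : T ⊓ P ⊓ F = ⊥)
    (hp : (∃ x ∈ V, B x x ≠ 0) →
      2 * Module.finrank k F ≠ Module.finrank k V + 2 * Module.finrank k ↥(T ⊓ F)) :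
    ∃ g : H →ₗ[k] H, IsSpecial T V B g ∧ ∀ x ∈ F, g x ∈ P → x = 0 := by
  -- the projection to `V`
  let π : H →ₗ[k] V := V.projectionOnto T hTV.symm
  have hπ0 : ∀ x, π x = 0 ↔ x ∈ T := fun x => Submodule.projectionOnto_apply_eq_zero_iff hTV.symm
  have hπV : ∀ x : V, π x = x := fun x => Submodule.projectionOnto_apply_left hTV.symm x
  have hdim : ∀ S : Submodule k H, Module.finrank k (S.map π) + Module.finrank k ↥(T ⊓ S) =
      Module.finrank k S := by
    intro S
    have h1 := LinearMap.finrank_range_add_finrank_ker (π ∘ₗ S.subtype)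
    have h2 : LinearMap.range (π ∘ₗ S.subtype) = S.map π := by
      rw [LinearMap.range_comp, Submodule.range_subtype]
    have h3 : Module.finrank k (LinearMap.ker (π ∘ₗ S.subtype)) = Module.finrank k ↥(T ⊓ S) := by
      have h4 : LinearMap.ker (π ∘ₗ S.subtype) = (T ⊓ S).comap S.subtype := by
        ext x
        rw [LinearMap.mem_ker, LinearMap.comp_apply, hπ0, Submodule.mem_comap, Submodule.mem_inf]
        exact ⟨fun h => ⟨h, x.2⟩, fun h => h.1⟩
      rw [h4]
      exact (Submodule.comapSubtypeEquivOfLe (inf_le_right : T ⊓ S ≤ S)).finrank_eq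
    rw [h2, h3] at h1
    exact h1
  have hTd : Module.finrank k ↥(T ⊓ P) + Module.finrank k ↥(T ⊓ F) = Module.finrank k T := by
    have h1 := Submodule.finrank_sup_add_finrank_inf_eq (T ⊓ P) (T ⊓ F)
    have h2 : (T ⊓ P) ⊔ (T ⊓ F) = T := le_antisymm (sup_le inf_le_left inf_le_left) hT
    have h3 : (T ⊓ P) ⊓ (T ⊓ F) = ⊥ := by
      rw [eq_bot_iff]
      rintro x ⟨⟨h4, h5⟩, -, h6⟩
      rw [← hPF]
      exact ⟨⟨h4, h5⟩, h6⟩
    rw [h2, h3, finrank_bot] at h1
    omega
  have hVT := Submodule.finrank_add_eq_of_isCompl hTV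
  have hF := hdim F
  have hP := hdim P
  have hd' : Module.finrank k (F.map π) + Module.finrank k (P.map π) = Module.finrank k V := by omega
  -- the form on `V`
  let BV : V →ₗ[k] V →ₗ[k] k := B.compl₁₂ V.subtype V.subtype
  obtain ⟨g, hg1, hg2, hg3⟩ : ∃ g : V →ₗ[k] V, (∀ x y, BV (g x) (g y) = BV x y) ∧
      LinearMap.det g = 1 ∧ ∀ x ∈ F.map π, g x ∈ P.map π → x = 0 := by
    rcases hB with h | ⟨h1, h2⟩
    · obtain ⟨g, hg1, hg2⟩ := exists_sl (F.map π) (P.map π) hd'
      refine ⟨g, fun x y => ?_, hg1, hg2⟩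
      change B (g x) (g y) = B x y
      rw [h _ (g x).2 _ (g y).2, h _ x.2 _ y.2]
    · refine exists_iso BV (fun x hx => Subtype.ext (h1 x x.2 fun y hy => hx ⟨y, hy⟩)) (F.map π) (P.map π) ?_ hd'
      by_cases h3 : ∀ x ∈ V, B x x = 0
      · exact Or.inl fun x => h3 x x.2
      · right
        rcases h2 with h2 | h2
        · exact absurd h2 h3
        · refine ⟨fun x y => h2 x x.2 y y.2, ?_⟩
          push Not at h3
          have := hp h3
          omega
  -- the extension
  let e := Submodule.prodEquivOfIsCompl T V hTV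
  let G : H →ₗ[k] H := (e : (T × V) →ₗ[k] H) ∘ₗ (LinearMap.prodMap LinearMap.id g) ∘ₗ (e.symm : H →ₗ[k] T × V)
  have hG : ∀ (t : T) (v : V), G (t + v) = t + g v := by
    intro t v
    have h1 : e.symm ((t : H) + v) = (t, v) := by
      rw [LinearEquiv.symm_apply_eq]
      exact (Submodule.coe_prodEquivOfIsCompl' T V hTV (t, v)).symm
    change e (LinearMap.prodMap LinearMap.id g (e.symm ((t : H) + v))) = _
    rw [h1]
    exact Submodule.coe_prodEquivOfIsCompl' T V hTV (t, g v)
  have hGT : ∀ x ∈ T, G x = x := by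
    intro x hx
    have h1 := hG ⟨x, hx⟩ 0
    rw [map_zero, ZeroMemClass.coe_zero, add_zero] at h1
    exact h1
  have hGV : ∀ x : V, G x = g x := by
    intro x
    have h1 := hG 0 x
    rw [ZeroMemClass.coe_zero, zero_add, zero_add] at h1
    exact h1
  refine ⟨G, ⟨hGT, fun x hx => ?_, fun x hx y hy => ?_, ?_⟩, ?_⟩
  · rw [hGV ⟨x, hx⟩]
    exact (g ⟨x, hx⟩).2
  · rw [hGV ⟨x, hx⟩, hGV ⟨y, hy⟩]
    exact hg1 ⟨x, hx⟩ ⟨y, hy⟩
  · change LinearMap.det ((e : (T × V) →ₗ[k] H) ∘ₗ (LinearMap.prodMap LinearMap.id g) ∘ₗ (e.symm : H →ₗ[k] T × V)) = 1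
    rw [LinearMap.det_conj, LinearMap.det_prodMap, LinearMap.det_id, hg2, mul_one]
  · intro x hx hgx
    have hdec : ∀ y : H, ∃ (t : T) (v : V), y = t + v ∧ π y = v := by
      intro y
      obtain ⟨t, ht, v, hv, rfl⟩ := Submodule.mem_sup.1 (hTV.sup_eq_top ▸ Submodule.mem_top : y ∈ T ⊔ V)
      refine ⟨⟨t, ht⟩, ⟨v, hv⟩, rfl, ?_⟩
      rw [map_add, (hπ0 t).2 ht, zero_add]
      exact hπV ⟨v, hv⟩
    obtain ⟨t, v, rfl, hv⟩ := hdec x
    have h1 : π (G (t + v)) = g v := by
      rw [hG, map_add, (hπ0 _).2 t.2, zero_add]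
      exact hπV (g v)
    have h2 : v = 0 := by
      apply hg3
      · exact ⟨_, hx, hv⟩
      · exact ⟨_, hgx, h1⟩
    rw [h2, ZeroMemClass.coe_zero, add_zero] at hx hgx ⊢
    rw [hGT _ t.2] at hgx
    have h3 : (t : H) ∈ T ⊓ P ⊓ F := ⟨⟨t.2, hgx⟩, hx⟩
    rw [hPF] at h3
    exact (Submodule.mem_bot k).1 h3

omit [CharZero k] in
/-- A nonzero form killed by `P` does not vanish on `g F`. -/
theorem exists_nonzero {P F : Submodule k H} {r : ℕ} (hr : Module.finrank k F = r)
    (hd : Module.finrank k P + Module.finrank k F = Module.finrank k H)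
    {ω : H [⋀^Fin r]→ₗ[k] k} (h0 : ω ≠ 0)
    (hP : ∀ x : Fin r → H, (∃ u, x u ∈ P) → ω x = 0) {g : H →ₗ[k] H}
    (hg : ∀ x ∈ F, g x ∈ P → x = 0) :
    ∃ x : Fin r → H, (∀ u, x u ∈ F) ∧ ω (fun u => g (x u)) ≠ 0 := by
  classical
  -- the form depends only on the classes modulo `P`
  have key : ∀ (s : Finset (Fin r)) (x y : Fin r → H), (∀ u, x u - y u ∈ P) →
      ω (fun u => if u ∈ s then x u else y u) = ω y := by
    intro s x y hxy
    induction s using Finset.induction_on with
    | empty => simp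
    | insert a s ha ih =>
      rw [← ih]
      have h1 : (fun u => if u ∈ insert a s then x u else y u) =
          Function.update (fun u => if u ∈ s then x u else y u) a ((x a - y a) + y a) := by
        funext u
        by_cases hu : u = a
        · subst hu
          simp
        · rw [Function.update_of_ne hu]
          simp [hu]
      have h2 : (fun u => if u ∈ s then x u else y u) =
          Function.update (fun u => if u ∈ s then x u else y u) a (y a) := by
        funext u
        by_cases hu : u = a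
        · subst hu
          simp [ha]
        · rw [Function.update_of_ne hu]
      rw [h1, ω.map_update_add, ← h2, hP _ ⟨a, by rw [Function.update_self]; exact hxy a⟩, zero_add]
  have key' : ∀ x y : Fin r → H, (∀ u, x u - y u ∈ P) → ω x = ω y := by
    intro x y hxy
    have h1 := key Finset.univ x y hxy
    simpa using h1
  let b : Module.Basis (Fin r) k F := Module.finBasisOfFinrankEq k F hr
  refine ⟨fun u => (b u : H), fun u => (b u).2, fun hcon => h0 ?_⟩
  -- the space `g F`
  let gF : F →ₗ[k] H := g ∘ₗ F.subtype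
  have hinj : Function.Injective gF := by
    rw [← LinearMap.ker_eq_bot, LinearMap.ker_eq_bot']
    intro x hx
    have h1 : g (x : H) = 0 := hx
    exact Subtype.ext (hg x x.2 (by rw [h1]; exact P.zero_mem))
  have hdisj : P ⊓ LinearMap.range gF = ⊥ := by
    rw [eq_bot_iff]
    rintro _ ⟨h1, x, rfl⟩
    have h2 := hg x x.2 h1
    have h3 : x = 0 := Subtype.ext h2
    rw [h3, map_zero]
    exact Submodule.zero_mem _
  have htop : P ⊔ LinearMap.range gF = ⊤ := by
    apply Submodule.eq_top_of_finrank_eq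
    have h1 := Submodule.finrank_sup_add_finrank_inf_eq P (LinearMap.range gF)
    rw [hdisj, finrank_bot, LinearMap.finrank_range_of_inj hinj] at h1
    omega
  ext y
  have hy : ∀ u, ∃ f : F, y u - gF f ∈ P := by
    intro u
    obtain ⟨p, hp, _, ⟨f, rfl⟩, h1⟩ := Submodule.mem_sup.1 (htop ▸ Submodule.mem_top : y u ∈ P ⊔ LinearMap.range gF)
    exact ⟨f, by rw [← h1, add_sub_cancel_right]; exact hp⟩
  choose f hf using hy
  rw [key' y (fun u => gF (f u)) hf]
  have h1 := (ω.compLinearMap gF).eq_smul_basis_det b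
  have h2 : (ω.compLinearMap gF) b = 0 := hcon
  rw [h2, zero_smul] at h1
  have h3 := congrArg (fun w => w f) h1
  exact h3

end two

end MPadcGP
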