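import Pool.Agent.Lib.MP_adc574_ag_GP.BigA

/-!
# Big monodromy implies general position

`HasBigMonodromy`: for every `n` the space `H n` is the direct sum of a space `T` spanned by logarithmic classes
and a space `V` such that every horizontal space of alternating forms is stable under the isometries of
determinant 1 of `V`.
-/

set_option autoImplicit false

namespace MPadcGP

section

variable {k : Type*} [Field k] {H : ℕ → Type*} [∀ n, AddCommGroup (H n)] [∀ n, Module k (H n)]
  (nab : ∀ n, Derivation ℤ k k → H n → H n → Prop) (Fl : ∀ n, ℕ → Submodule k (H n))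
  (cup : ∀ n n', H n → H n' → H (n + n') → Prop) (lg : ∀ n, ℕ → Set (H n))

/-- The subspace `T` of `H n` consists of classes of type `(j, j)`: it is spanned by logarithmic classes of
degree `j`, lies in `Fl n j`, meets `Fl n (j + 1)` in zero, and for every nonzero `x` in `T` there is a
logarithmic class `y` of some degree `j'` such that `x y ≠ 0` lies in a space which is equal to its subspace
`Fl (j + j')`. -/
structure IsAlgebraicPart (n j : ℕ) (T : Submodule k (H n)) : Prop where
  log : T ≤ Submodule.span k (lg n j)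
  le : ∀ i, i ≤ j → T ≤ Fl n i
  inf : ∀ i, j < i → T ⊓ Fl n i = ⊥
  dual : ∀ x ∈ T, x ≠ 0 → ∃ n' j' : ℕ, ∃ y ∈ lg n' j', ∃ z, cup n n' x y z ∧ z ≠ 0 ∧
    ∀ i, i ≤ j + j' → Fl (n + n') i = ⊤

/-- Big monodromy: every `H n` is the direct sum of a space `T` spanned by logarithmic classes and a space `V`
with a bilinear form `B` (nondegenerate alternating, nondegenerate symmetric, or zero) such that every
horizontal space of alternating forms is stable under all isometries of determinant one of `V`, extended by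
the identity of `T`. If `B` is symmetric, the image of `Fl n i` in `V` is not of dimension `(dim V) / 2`. -/
def HasBigMonodromy : Prop :=
  ∀ n : ℕ, ∃ (T V : Submodule k (H n)) (B : H n →ₗ[k] H n →ₗ[k] k) (j : ℕ),
    IsCompl T V ∧ IsAlgebraicPart Fl cup lg n j T ∧ IsFormOn V B ∧
    ((∃ x ∈ V, B x x ≠ 0) → ∀ i, 2 * Module.finrank k (Fl n i) ≠
      Module.finrank k V + 2 * Module.finrank k ↥(T ⊓ Fl n i)) ∧
    ∀ (r : ℕ) (W : Submodule k (H n [⋀^Fin r]→ₗ[k] k)), IsHorizontal (nab n) W →
      ∀ ω ∈ W, ∀ g : H n →ₗ[k] H n, IsSpecial T V B g → ω.compLinearMap g ∈ W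

variable {nab Fl cup lg}

/-- Big monodromy implies general position. -/
theorem inGeneralPosition_of_big [CharZero k] [∀ n, FiniteDimensional k (H n)]
    (h : HasBigMonodromy nab Fl cup lg) : InGeneralPosition nab Fl cup lg := by
  intro P hP n i W hW hω
  obtain ⟨ω, hωW, hω0, hωP⟩ := hω
  obtain ⟨T, V, B, j, hTV, hT, hB, hpar, hst⟩ := h n
  have hmono : ∀ a b, a ≤ b → P n a ≤ P n b := fun a b hab => monotone_nat_of_le_succ (hP.mono n) hab
  have hTP : T ≤ (T ⊓ P n i) ⊔ (T ⊓ Fl n (i + 1)) := by
    by_cases hij : j ≤ i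
    · refine le_trans (le_inf le_rfl ?_) le_sup_left
      refine (hT.log.trans ?_).trans (hmono j i hij)
      exact Submodule.span_le.2 fun x hx => hP.log n j x hx
    · exact le_trans (le_inf le_rfl (hT.le (i + 1) (by omega))) le_sup_right
  have hTPF : T ⊓ P n i ⊓ Fl n (i + 1) = ⊥ := by
    by_cases hij : j ≤ i
    · rw [eq_bot_iff, ← hT.inf (i + 1) (by omega)]
      exact le_inf (inf_le_left.trans inf_le_left) inf_le_right
    · rw [eq_bot_iff]
      rintro x ⟨⟨hxT, hxP⟩, -⟩
      by_contra hx
      obtain ⟨n', j', y, hy, z, hz, hz0, hFl⟩ := hT.dual x hxT fun h0 => hx (by rw [h0]; exact Submodule.zero_mem _)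
      have h1 := hP.mul n n' i j' x hxP y (hP.log n' j' y hy) z hz
      have h2 := hP.dim (n + n') (i + j')
      rw [hFl (i + j' + 1) (by omega), finrank_top] at h2
      have h3 : P (n + n') (i + j') = ⊥ := Submodule.finrank_eq_zero.1 (by omega)
      rw [h3, Submodule.mem_bot] at h1
      exact hz0 h1
  obtain ⟨g, hg, hgPF⟩ := exists_special hTV hB (hP.dim n i) hTP hTPF fun hx => hpar hx (i + 1)
  obtain ⟨x, hx, hne⟩ := exists_nonzero rfl (hP.dim n i) hω0 hωP hgPF
  exact ⟨ω.compLinearMap g, hst _ W hW ω hωW g hg, x, hx, hne⟩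

end

end MPadcGP
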