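import Pool.Agent.Lib.MP_adc574_ag_GP.BigA

/-!
# Big monodromy and the Lefschetz decomposition: definitions and first properties
-/

set_option autoImplicit false

namespace MPadcGP

section

variable {k : Type*} [Field k] {H : ℕ → Type*} [∀ n, AddCommGroup (H n)] [∀ n, Module k (H n)]

/-- The iterates of the Lefschetz operator. -/
def itr (ℓ : ∀ n, H n →ₗ[k] H (n + 2)) (n : ℕ) : ∀ a : ℕ, H n →ₗ[k] H (n + 2 * a)
  | 0 => LinearMap.id
  | a + 1 => ℓ (n + 2 * a) ∘ₗ itr ℓ n a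

/-- The primitive part of `H n`: the kernel of the `(d - n + 1)`-st iterate of the Lefschetz operator for
`n ≤ d`, zero for `n > d`. -/
def prim (ℓ : ∀ n, H n →ₗ[k] H (n + 2)) (d n : ℕ) : Submodule k (H n) :=
  if n ≤ d then LinearMap.ker (itr ℓ n (d - n + 1)) else ⊥

/-- The hard Lefschetz theorem in dimension `d`: `H n = 0` for `n > 2 d`, and the iterates
`ℓ ^ a : H n → H (n + 2 a)` with `n + a = d` are bijective and strictly compatible with the filtrations `Fl`. -/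
structure IsLefschetz (Fl : ∀ n, ℕ → Submodule k (H n)) (d : ℕ) (ℓ : ∀ n, H n →ₗ[k] H (n + 2)) :
    Prop where
  top : ∀ n, Fl n 0 = ⊤
  zero : ∀ n, 2 * d < n → Subsingleton (H n)
  bij : ∀ n a, n + a = d → Function.Bijective (itr ℓ n a)
  fil : ∀ n i, (Fl n i).map (ℓ n) ≤ Fl (n + 2) (i + 1)
  strict : ∀ n a, n + a = d → ∀ i, (Fl n i).map (itr ℓ n a) = Fl (n + 2 * a) (i + a)

/-- A family of automorphisms of determinant one of the spaces `H n` which commutes with the Lefschetz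
operator, is the identity on `T n`, preserves `V n` and is an isometry of `B n` on `V n`. -/
structure IsSpecialFamily (ℓ : ∀ n, H n →ₗ[k] H (n + 2)) (T V : ∀ n, Submodule k (H n))
    (B : ∀ n, H n →ₗ[k] H n →ₗ[k] k) (g : ∀ n, H n →ₗ[k] H n) : Prop where
  comm : ∀ n x, g (n + 2) (ℓ n x) = ℓ n (g n x)
  fix : ∀ n, ∀ x ∈ T n, g n x = x
  map : ∀ n, ∀ x ∈ V n, g n x ∈ V n
  isom : ∀ n, ∀ x ∈ V n, ∀ y ∈ V n, B n (g n x) (g n y) = B n x y
  det : ∀ n, LinearMap.det (g n) = 1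

/-- The primitive parts are the direct sums of the spaces `T n` and `V n`, and `B n` is a form on `V n`. If it
is symmetric, the image of `Fl n i ∩ (T n + V n)` in `V n` is not of dimension `(dim V n) / 2`. -/
structure IsPrimitiveSplit (Fl : ∀ n, ℕ → Submodule k (H n)) (d : ℕ) (ℓ : ∀ n, H n →ₗ[k] H (n + 2))
    (T V : ∀ n, Submodule k (H n)) (B : ∀ n, H n →ₗ[k] H n →ₗ[k] k) : Prop where
  disj : ∀ n, Disjoint (T n) (V n)
  sup : ∀ n, T n ⊔ V n = prim ℓ d n
  form : ∀ n, IsFormOn (V n) (B n)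
  parity : ∀ n, (∃ x ∈ V n, B n x x ≠ 0) → ∀ i, 2 * Module.finrank k ↥(prim ℓ d n ⊓ Fl n i) ≠
    Module.finrank k (V n) + 2 * Module.finrank k ↥(T n ⊓ Fl n i)

end

section itr

variable {k : Type*} [Field k] {H : ℕ → Type*} [∀ n, AddCommGroup (H n)] [∀ n, Module k (H n)]
  {ℓ : ∀ n, H n →ₗ[k] H (n + 2)}

/-- Transport along an equality of indices. -/
def cs {p q : ℕ} (e : p = q) : H p ≃ₗ[k] H q := e ▸ LinearEquiv.refl k (H p)

theorem cs_rfl {p : ℕ} (x : H p) : cs (k := k) (rfl : p = p) x = x := rfl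

theorem ell_cs {p q : ℕ} (e : p = q) (x : H p) :
    ℓ q (cs (k := k) e x) = cs (k := k) (congrArg (· + 2) e) (ℓ p x) := by
  subst e
  rfl

theorem itr_zero (n : ℕ) (x : H n) : itr ℓ n 0 x = x := rfl

theorem itr_succ (n a : ℕ) (x : H n) : itr ℓ n (a + 1) x = ℓ (n + 2 * a) (itr ℓ n a x) := rfl

theorem itr_ell (n a : ℕ) (x : H n) : itr ℓ (n + 2) a (ℓ n x) =
    cs (k := k) (by omega : n + 2 * (a + 1) = n + 2 + 2 * a) (itr ℓ n (a + 1) x) := by
  induction a with
  | zero => rfl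
  | succ a ih =>
    rw [itr_succ, ih, ell_cs]
    rfl

theorem map_cs {Q : ∀ n, ℕ → Submodule k (H n)} {p q i j : ℕ} (e : p = q) (e' : i = j) (x : H p) :
    cs (k := k) e x ∈ Q q j ↔ x ∈ Q p i := by
  subst e
  subst e'
  rfl

/-- A family of automorphisms commutes with the iterates. -/
theorem comm_itr {g : ∀ n, H n →ₗ[k] H n} (m : ℕ) (a : ℕ)
    (h : ∀ b, b < a → ∀ x, g (m + 2 * b + 2) (ℓ (m + 2 * b) x) = ℓ (m + 2 * b) (g (m + 2 * b) x)) (x : H m) :
    g (m + 2 * a) (itr ℓ m a x) = itr ℓ m a (g m x) := by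
  induction a with
  | zero => rfl
  | succ a ih =>
    rw [itr_succ, itr_succ, ← ih fun b hb => h b (by omega)]
    exact h a (by omega) _

end itr

end MPadcGP
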