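import Pool.Agent.Lib.MP_adc574_ag_GP.BigC

/-!
# The Lefschetz decomposition
-/

set_option autoImplicit false

namespace MPadcGP

section

variable {k : Type*} [Field k] {H : ℕ → Type*} [∀ n, AddCommGroup (H n)] [∀ n, Module k (H n)]
  {Fl : ∀ n, ℕ → Submodule k (H n)} {d : ℕ} {ℓ : ∀ n, H n →ₗ[k] H (n + 2)}

theorem mem_prim {n a : ℕ} (h : n + a = d) {x : H n} : x ∈ prim ℓ d n ↔ itr ℓ n (a + 1) x = 0 := by
  subst h
  unfold prim
  rw [if_pos (Nat.le_add_right n a), Nat.add_sub_cancel_left]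
  exact LinearMap.mem_ker

theorem prim_of_lt {n : ℕ} (h : d < n) : prim ℓ d n = ⊥ := by
  unfold prim
  rw [if_neg (by omega)]

/-- The image of the Lefschetz operator. -/
def Rg (ℓ : ∀ n, H n →ₗ[k] H (n + 2)) : ∀ n, Submodule k (H n)
  | 0 => ⊥
  | 1 => ⊥
  | n + 2 => LinearMap.range (ℓ n)

variable (hL : IsLefschetz Fl d ℓ)

include hL

theorem ell_injective {n : ℕ} (hn : n < d) : Function.Injective (ℓ n) := by
  obtain ⟨a, rfl⟩ := Nat.exists_eq_add_of_lt hn
  rw [← LinearMap.ker_eq_bot, LinearMap.ker_eq_bot']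
  intro x hx
  have h1 := itr_ell (ℓ := ℓ) n a x
  rw [hx, map_zero, eq_comm, LinearEquiv.map_eq_zero_iff] at h1
  exact (hL.bij n (a + 1) (by omega)).1 (h1.trans (map_zero _).symm)

theorem isCompl_prim (n : ℕ) : IsCompl (prim ℓ d (n + 2)) (LinearMap.range (ℓ n)) := by
  by_cases hn : n + 2 ≤ d
  · obtain ⟨a, ha⟩ := Nat.exists_eq_add_of_le hn
    have hbij := hL.bij n (a + 2) (by omega)
    constructor
    · rw [Submodule.disjoint_def]
      rintro _ h1 ⟨y, rfl⟩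
      rw [mem_prim ha.symm, itr_ell, LinearEquiv.map_eq_zero_iff] at h1
      rw [hbij.1 (h1.trans (map_zero _).symm), map_zero]
    · rw [codisjoint_iff, Submodule.eq_top_iff']
      intro x
      obtain ⟨y, hy⟩ := hbij.2 ((cs (k := k) (by omega : n + 2 * (a + 1 + 1) = n + 2 + 2 * (a + 1))).symm
        (itr ℓ (n + 2) (a + 1) x))
      have h2 : itr ℓ (n + 2) (a + 1) (ℓ n y) = itr ℓ (n + 2) (a + 1) x := by
        rw [itr_ell]
        have h3 : itr ℓ n (a + 1 + 1) y = _ := hy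
        rw [h3, LinearEquiv.apply_symm_apply]
      have h3 : x - ℓ n y ∈ prim ℓ d (n + 2) := by
        rw [mem_prim ha.symm, map_sub, h2, sub_self]
      have h4 : x = (x - ℓ n y) + ℓ n y := (sub_add_cancel _ _).symm
      rw [h4]
      exact Submodule.add_mem_sup h3 ⟨y, rfl⟩
  · rw [prim_of_lt (by omega)]
    have h1 : LinearMap.range (ℓ n) = ⊤ := by
      by_cases h2 : 2 * d < n + 2
      · have := hL.zero (n + 2) h2
        exact Subsingleton.elim _ _
      · obtain ⟨m, a, hma, hn'⟩ : ∃ m a, m + (a + 1) = d ∧ n = m + 2 * a :=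
          ⟨2 * d - (n + 2), n + 1 - d, by omega, by omega⟩
        subst hn'
        rw [LinearMap.range_eq_top]
        intro x
        obtain ⟨y, hy⟩ := (hL.bij m (a + 1) hma).2 x
        exact ⟨itr ℓ m a y, hy⟩
    rw [h1]
    exact isCompl_bot_top

theorem prim_zero : prim ℓ d 0 = ⊤ := by
  rw [Submodule.eq_top_iff']
  intro x
  rw [mem_prim (Nat.zero_add d)]
  have := hL.zero (0 + 2 * (d + 1)) (by omega)
  exact Subsingleton.elim _ _

theorem prim_one : prim ℓ d 1 = ⊤ := by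
  rw [Submodule.eq_top_iff']
  intro x
  rcases Nat.eq_zero_or_pos d with h | h
  · have := hL.zero 1 (by omega)
    rw [Subsingleton.elim x 0]
    exact Submodule.zero_mem _
  · obtain ⟨a, ha⟩ := Nat.exists_eq_add_of_le h
    rw [mem_prim ha.symm]
    have := hL.zero (1 + 2 * (a + 1)) (by omega)
    exact Subsingleton.elim _ _

theorem isCompl_prim_Rg (n : ℕ) : IsCompl (prim ℓ d n) (Rg ℓ n) := by
  match n with
  | 0 =>
    rw [prim_zero hL]
    exact isCompl_top_bot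
  | 1 =>
    rw [prim_one hL]
    exact isCompl_top_bot
  | n + 2 => exact isCompl_prim hL n

theorem ker_ell {m a : ℕ} (h : m + a = d) {x : H (m + 2 * a)} (hx : ℓ (m + 2 * a) x = 0) :
    ∃ y ∈ prim ℓ d m, x = itr ℓ m a y := by
  obtain ⟨y, rfl⟩ := (hL.bij m a h).2 x
  exact ⟨y, (mem_prim h).2 hx, rfl⟩

/-- Filtrations strictly compatible with the Lefschetz operator decompose. -/
theorem split_strict {X : ∀ n, ℕ → Submodule k (H n)}
    (h1 : ∀ n i, (X n i).map (ℓ n) ≤ X (n + 2) (i + 1))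
    (h2 : ∀ n a, n + a = d → ∀ i, (X n i).map (itr ℓ n a) = X (n + 2 * a) (i + a)) {n j : ℕ}
    (hn : n + 2 ≤ d) {x : H (n + 2)} {y : H n} (hx : x ∈ prim ℓ d (n + 2))
    (hxy : x + ℓ n y ∈ X (n + 2) (j + 1)) : y ∈ X n j ∧ x ∈ X (n + 2) (j + 1) := by
  obtain ⟨a, ha⟩ := Nat.exists_eq_add_of_le hn
  have h3 : ∀ (n i a : ℕ) (x : H n), x ∈ X n i → itr ℓ n a x ∈ X (n + 2 * a) (i + a) := by
    intro n i a x hx
    induction a with
    | zero => exact hx
    | succ a ih => exact h1 _ _ ⟨_, ih, rfl⟩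
  have h4 : itr ℓ (n + 2) (a + 1) (x + ℓ n y) = itr ℓ (n + 2) (a + 1) (ℓ n y) := by
    rw [map_add, (mem_prim ha.symm).1 hx, zero_add]
  have h5 := h3 _ _ (a + 1) _ hxy
  rw [h4, itr_ell] at h5
  have h6 : itr ℓ n (a + 1 + 1) y ∈ X (n + 2 * (a + 2)) (j + (a + 2)) :=
    (map_cs (k := k) (Q := X) (by omega : n + 2 * (a + 1 + 1) = n + 2 + 2 * (a + 1))
      (by omega : j + (a + 2) = j + 1 + (a + 1)) _).1 h5
  rw [← h2 n (a + 2) (by omega) j] at h6
  obtain ⟨y', hy', hyy⟩ := h6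
  have h7 : y' = y := (hL.bij n (a + 2) (by omega)).1 hyy
  rw [h7] at hy'
  refine ⟨hy', ?_⟩
  have h8 : x = (x + ℓ n y) - ℓ n y := (add_sub_cancel_right _ _).symm
  rw [h8]
  exact Submodule.sub_mem _ hxy (h1 _ _ ⟨y, hy', rfl⟩)

end

end MPadcGP
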