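import Pool.Agent.Lib.MP_adc574_ag_GP.BigCa

/-!
# Families of automorphisms commuting with the Lefschetz operator
-/

set_option autoImplicit false

namespace MPadcGP

section

variable {k : Type*} [Field k] {H : ℕ → Type*} [∀ n, AddCommGroup (H n)] [∀ n, Module k (H n)]
  {Fl : ∀ n, ℕ → Submodule k (H n)} {d : ℕ} {ℓ : ∀ n, H n →ₗ[k] H (n + 2)}

/-- Automorphisms `Γ n` of the primitive parts, extended by means of the sections `s n` of `ℓ n`. -/
def dlC (ℓ : ∀ n, H n →ₗ[k] H (n + 2)) (s : ∀ n, H (n + 2) →ₗ[k] H n) (Γ : ∀ n, H n →ₗ[k] H n) :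
    ∀ n, H n →ₗ[k] H n
  | 0 => Γ 0
  | 1 => Γ 1
  | n + 2 => Γ (n + 2) ∘ₗ (LinearMap.id - ℓ n ∘ₗ s n + ℓ n ∘ₗ dlC ℓ s Γ n ∘ₗ s n)

theorem dlC_succ (s : ∀ n, H (n + 2) →ₗ[k] H n) (Γ : ∀ n, H n →ₗ[k] H n) (n : ℕ) (x : H (n + 2)) :
    dlC ℓ s Γ (n + 2) x = Γ (n + 2) (x - ℓ n (s n x) + ℓ n (dlC ℓ s Γ n (s n x))) := rfl

theorem dlC_of_id (s : ∀ n, H (n + 2) →ₗ[k] H n) (Γ : ∀ n, H n →ₗ[k] H n) (n : ℕ)
    (hn : dlC ℓ s Γ n = LinearMap.id) : dlC ℓ s Γ (n + 2) = Γ (n + 2) := by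
  ext x
  rw [dlC_succ, hn, LinearMap.id_apply, sub_add_cancel]

theorem dlC_of_lt (s : ∀ n, H (n + 2) →ₗ[k] H n) (Γ : ∀ n, H n →ₗ[k] H n) (m : ℕ)
    (hlt : ∀ n, n < m → dlC ℓ s Γ n = LinearMap.id) : dlC ℓ s Γ m = Γ m := by
  match m, hlt with
  | 0, _ => rfl
  | 1, _ => rfl
  | m + 2, hlt => exact dlC_of_id s Γ m (hlt m (by omega))

theorem exists_section (hL : IsLefschetz Fl d ℓ) (n : ℕ) :
    ∃ s : H (n + 2) →ₗ[k] H n, (∀ x, x - ℓ n (s x) ∈ prim ℓ d (n + 2)) ∧
      ∀ x ∈ prim ℓ d (n + 2), s x = 0 := by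
  have hc := (isCompl_prim hL n).symm
  obtain ⟨σ, hσ⟩ := (ℓ n).rangeRestrict.exists_rightInverse_of_surjective (LinearMap.range_rangeRestrict _)
  have hσ' : ∀ y : LinearMap.range (ℓ n), ℓ n (σ y) = y := fun y =>
    congrArg Subtype.val (LinearMap.congr_fun hσ y)
  refine ⟨σ ∘ₗ (LinearMap.range (ℓ n)).projectionOnto (prim ℓ d (n + 2)) hc, fun x => ?_, fun x hx => ?_⟩
  · rw [LinearMap.comp_apply, hσ', ← Submodule.projectionOnto_apply_eq_zero_iff hc, map_sub,
      Submodule.projectionOnto_apply_left, sub_self]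
  · rw [LinearMap.comp_apply, (Submodule.projectionOnto_apply_eq_zero_iff hc).2 hx, map_zero]

variable {T V : ∀ n, Submodule k (H n)} {B : ∀ n, H n →ₗ[k] H n →ₗ[k] k}

section

variable (hL : IsLefschetz Fl d ℓ) (hTV : ∀ n, T n ⊔ V n = prim ℓ d n)
  {s : ∀ n, H (n + 2) →ₗ[k] H n} (hs1 : ∀ n x, x - ℓ n (s n x) ∈ prim ℓ d (n + 2))
  (hs2 : ∀ n, ∀ x ∈ prim ℓ d (n + 2), s n x = 0) {Γ : ∀ n, H n →ₗ[k] H n}
  (hΓ : ∀ n, IsSpecial (T n ⊔ Rg ℓ n) (V n) (B n) (Γ n))

include hs2 in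
theorem dlC_prim (n : ℕ) {x : H n} (hx : x ∈ prim ℓ d n) : dlC ℓ s Γ n x = Γ n x := by
  match n with
  | 0 => rfl
  | 1 => rfl
  | n + 2 => rw [dlC_succ, hs2 n x hx, map_zero, map_zero, map_zero, sub_zero, add_zero]

include hTV hΓ in
theorem gam_prim (n : ℕ) {x : H n} (hx : x ∈ prim ℓ d n) : Γ n x ∈ prim ℓ d n := by
  rw [← hTV n] at hx ⊢
  obtain ⟨t, ht, v, hv, rfl⟩ := Submodule.mem_sup.1 hx
  rw [map_add, (hΓ n).fix t (le_sup_left (α := Submodule k (H n)) ht)]
  exact Submodule.add_mem_sup ht ((hΓ n).map v hv)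

include hL hs1 in
theorem ell_sec (n : ℕ) (x : H n) : ℓ n (s n (ℓ n x)) = ℓ n x := by
  have h1 := hs1 n (ℓ n x)
  have h2 : ℓ n x - ℓ n (s n (ℓ n x)) ∈ LinearMap.range (ℓ n) := ⟨x - s n (ℓ n x), map_sub _ _ _⟩
  have h3 := (isCompl_prim hL n).inf_eq_bot ▸ Submodule.mem_inf.2 ⟨h1, h2⟩
  exact (sub_eq_zero.1 ((Submodule.mem_bot k).1 h3)).symm

include hL hTV hs1 hs2 hΓ in
theorem dlC_comm (n : ℕ) (x : H n) : dlC ℓ s Γ (n + 2) (ℓ n x) = ℓ n (dlC ℓ s Γ n x) := by
  induction n using Nat.strong_induction_on with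
  | _ n ih =>
    have hker : ∀ z : H n, ℓ n z = 0 → ℓ n (dlC ℓ s Γ n z) = 0 := by
      intro z hz
      by_cases h1 : n < d
      · have h2 : z = 0 := ell_injective hL h1 (hz.trans (map_zero _).symm)
        rw [h2, map_zero, map_zero]
      · by_cases h2 : 2 * d < n
        · have := hL.zero n h2
          rw [Subsingleton.elim z 0, map_zero, map_zero]
        · obtain ⟨m, a, hma, hn⟩ : ∃ m a, m + a = d ∧ n = m + 2 * a :=
            ⟨2 * d - n, n - d, by omega, by omega⟩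
          subst hn
          obtain ⟨y, hy, rfl⟩ := ker_ell hL hma hz
          rw [comm_itr m a (fun b hb x => ih (m + 2 * b) (by omega) x) y, dlC_prim hs2 m hy]
          exact (mem_prim hma).1 (gam_prim hTV hΓ m hy)
    have h1 := ell_sec hL hs1 n x
    rw [dlC_succ, h1, sub_self, zero_add]
    have h2 : ℓ n (dlC ℓ s Γ n (s n (ℓ n x))) = ℓ n (dlC ℓ s Γ n x) := by
      have h3 := hker (s n (ℓ n x) - x) (by rw [map_sub, h1, sub_self])
      rw [map_sub, map_sub] at h3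
      exact sub_eq_zero.1 h3
    rw [h2]
    exact (hΓ (n + 2)).fix _ (le_sup_right (α := Submodule k (H (n + 2))) ⟨_, rfl⟩)

variable [∀ n, FiniteDimensional k (H n)]

include hL hTV hs1 hs2 hΓ in
theorem dlC_det (n : ℕ) : LinearMap.det (dlC ℓ s Γ n) = 1 := by
  induction n using Nat.strong_induction_on with
  | _ n ih =>
    match n, ih with
    | 0, _ => exact (hΓ 0).det
    | 1, _ => exact (hΓ 1).det
    | n + 2, ih =>
      by_cases h1 : n + 2 ≤ d
      · have hinj := ell_injective hL (show n < d by omega)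
        have hc := isCompl_prim hL n
        let e : (prim ℓ d (n + 2) × H n) ≃ₗ[k] H (n + 2) :=
          (LinearEquiv.prodCongr (LinearEquiv.refl k (prim ℓ d (n + 2)))
            (LinearEquiv.ofInjective (ℓ n) hinj)).trans (Submodule.prodEquivOfIsCompl _ _ hc)
        have he : ∀ (c : prim ℓ d (n + 2)) (x : H n), e (c, x) = c + ℓ n x := by
          intro c x
          exact Submodule.coe_prodEquivOfIsCompl' _ _ hc (c, ⟨ℓ n x, x, rfl⟩)
        have h2 : (LinearMap.id - ℓ n ∘ₗ s n + ℓ n ∘ₗ dlC ℓ s Γ n ∘ₗ s n) =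
            (e : (prim ℓ d (n + 2) × H n) →ₗ[k] H (n + 2)) ∘ₗ
              (LinearMap.prodMap LinearMap.id (dlC ℓ s Γ n)) ∘ₗ
              (e.symm : H (n + 2) →ₗ[k] (prim ℓ d (n + 2) × H n)) := by
          ext x
          obtain ⟨⟨c, y⟩, rfl⟩ := e.surjective x
          rw [LinearMap.comp_apply, LinearMap.comp_apply, LinearEquiv.coe_coe, LinearEquiv.coe_coe,
            LinearEquiv.symm_apply_apply]
          change e (c, y) - ℓ n (s n (e (c, y))) + ℓ n (dlC ℓ s Γ n (s n (e (c, y)))) =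
            e (c, dlC ℓ s Γ n y)
          have h3 : s n (e (c, y)) = y := by
            rw [he, map_add, hs2 n c c.2, zero_add]
            exact hinj (ell_sec hL hs1 n y)
          rw [h3, he, he, add_sub_cancel_right]
        change LinearMap.det (Γ (n + 2) ∘ₗ (LinearMap.id - ℓ n ∘ₗ s n + ℓ n ∘ₗ dlC ℓ s Γ n ∘ₗ s n)) = 1
        rw [LinearMap.det_comp, (hΓ (n + 2)).det, one_mul, h2, LinearMap.det_conj, LinearMap.det_prodMap,
          LinearMap.det_id, one_mul]
        exact ih n (by omega)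
      · by_cases h2 : 2 * d < n + 2
        · have := hL.zero (n + 2) h2
          have h3 : dlC ℓ s Γ (n + 2) = LinearMap.id := by
            ext x
            exact Subsingleton.elim _ _
          rw [h3, LinearMap.det_id]
        · obtain ⟨m, a, hma, hn⟩ : ∃ m a, m + (a + 1) = d ∧ n = m + 2 * a :=
            ⟨2 * d - (n + 2), n + 1 - d, by omega, by omega⟩
          subst hn
          let e : H m ≃ₗ[k] H (m + 2 * (a + 1)) := LinearEquiv.ofBijective _ (hL.bij m (a + 1) hma)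
          have h3 : dlC ℓ s Γ (m + 2 * a + 2) = (e : H m →ₗ[k] H (m + 2 * (a + 1))) ∘ₗ dlC ℓ s Γ m ∘ₗ
              (e.symm : H (m + 2 * (a + 1)) →ₗ[k] H m) := by
            ext x
            obtain ⟨y, rfl⟩ := e.surjective x
            rw [LinearMap.comp_apply, LinearMap.comp_apply, LinearEquiv.coe_coe, LinearEquiv.coe_coe,
              LinearEquiv.symm_apply_apply]
            exact comm_itr m (a + 1) (fun b _ x => dlC_comm hL hTV hs1 hs2 hΓ _ x) y
          rw [h3, LinearMap.det_conj]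
          exact ih m (by omega)

include hL hTV hs1 hs2 hΓ in
theorem dlC_special : IsSpecialFamily ℓ T V B (dlC ℓ s Γ) where
  comm := dlC_comm hL hTV hs1 hs2 hΓ
  fix n x hx := by
    rw [dlC_prim hs2 n (hTV n ▸ le_sup_left (α := Submodule k (H n)) hx)]
    exact (hΓ n).fix x (le_sup_left (α := Submodule k (H n)) hx)
  map n x hx := by
    rw [dlC_prim hs2 n (hTV n ▸ le_sup_right (α := Submodule k (H n)) hx)]
    exact (hΓ n).map x hx
  isom n x hx y hy := by
    rw [dlC_prim hs2 n (hTV n ▸ le_sup_right (α := Submodule k (H n)) hx),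
      dlC_prim hs2 n (hTV n ▸ le_sup_right (α := Submodule k (H n)) hy)]
    exact (hΓ n).isom x hx y hy
  det := dlC_det hL hTV hs1 hs2 hΓ

end

theorem IsSpecial.refl {H : Type*} [AddCommGroup H] [Module k H] (T V : Submodule k H)
    (B : H →ₗ[k] H →ₗ[k] k) : IsSpecial T V B LinearMap.id where
  fix _ _ := rfl
  map _ hx := hx
  isom _ _ _ _ := rfl
  det := LinearMap.det_id

theorem IsSpecialFamily.refl : IsSpecialFamily ℓ T V B fun _ => LinearMap.id where
  comm _ _ := rfl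
  fix _ _ _ := rfl
  map _ _ hx := hx
  isom _ _ _ _ _ := rfl
  det _ := LinearMap.det_id

theorem IsSpecialFamily.comp {g g' : ∀ n, H n →ₗ[k] H n} (h : IsSpecialFamily ℓ T V B g)
    (h' : IsSpecialFamily ℓ T V B g') : IsSpecialFamily ℓ T V B fun n => g n ∘ₗ g' n where
  comm n x := by
    rw [LinearMap.comp_apply, LinearMap.comp_apply, h'.comm, h.comm]
  fix n x hx := by
    rw [LinearMap.comp_apply, h'.fix n x hx, h.fix n x hx]
  map n x hx := h.map n _ (h'.map n x hx)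
  isom n x hx y hy := by
    rw [LinearMap.comp_apply, LinearMap.comp_apply, h.isom n _ (h'.map n x hx) _ (h'.map n y hy),
      h'.isom n x hx y hy]
  det n := by
    rw [LinearMap.det_comp, h.det, h'.det, one_mul]

theorem IsSpecialFamily.injective [∀ n, FiniteDimensional k (H n)] {g : ∀ n, H n →ₗ[k] H n}
    (h : IsSpecialFamily ℓ T V B g) (n : ℕ) : Function.Injective (g n) := by
  have h1 : LinearMap.det (g n) ≠ 0 := by
    rw [h.det]
    exact one_ne_zero
  exact (LinearMap.equivOfDetNeZero _ h1).injective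

/-- An isometry of `V m` extends to a family. -/
theorem exists_family [∀ n, FiniteDimensional k (H n)] (hL : IsLefschetz Fl d ℓ)
    (hTV : ∀ n, T n ⊔ V n = prim ℓ d n) (m : ℕ) {G : H m →ₗ[k] H m}
    (hG : IsSpecial (T m ⊔ Rg ℓ m) (V m) (B m) G) :
    ∃ g : ∀ n, H n →ₗ[k] H n, IsSpecialFamily ℓ T V B g ∧ g m = G := by
  classical
  choose s hs1 hs2 using exists_section hL
  let Γ : ∀ n, H n →ₗ[k] H n := Function.update (fun _ => LinearMap.id) m G
  have hΓm : Γ m = G := Function.update_self _ _ _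
  have hΓn : ∀ n, n ≠ m → Γ n = LinearMap.id := fun n hn => Function.update_of_ne hn _ _
  have hΓ : ∀ n, IsSpecial (T n ⊔ Rg ℓ n) (V n) (B n) (Γ n) := by
    intro n
    by_cases hn : n = m
    · subst hn
      rw [hΓm]
      exact hG
    · rw [hΓn n hn]
      exact IsSpecial.refl _ _ _
  refine ⟨dlC ℓ s Γ, dlC_special hL hTV hs1 hs2 hΓ, ?_⟩
  have hlt : ∀ n, n < m → dlC ℓ s Γ n = LinearMap.id := by
    intro n
    induction n using Nat.strong_induction_on with
    | _ n ih =>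
      intro hn
      match n, ih, hn with
      | 0, _, hn => exact hΓn 0 (by omega)
      | 1, _, hn => exact hΓn 1 (by omega)
      | n + 2, ih, hn =>
        rw [dlC_of_id s Γ n (ih n (by omega) (by omega))]
        exact hΓn (n + 2) (by omega)
  exact (dlC_of_lt s Γ m hlt).trans hΓm

end

end MPadcGP
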