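import Pool.Agent.Lib.MP_adc574_ag_GP.BigCb

/-!
# The Lefschetz decomposition and general position

`chain`: let `Q` be filtrations of the spaces `H n` of the dimensions complementary to those of the filtrations
`Fl n`, compatible with the Lefschetz operator, such that `Q` and `Fl` are opposite on the spaces `T n`. For all
`n` and `j` there is a family `g` of special automorphisms such that `g n` moves `Fl n j` away from `Q n j`.
-/

set_option autoImplicit false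

namespace MPadcGP

section

variable {k : Type*} [Field k] {H : ℕ → Type*} [∀ n, AddCommGroup (H n)] [∀ n, Module k (H n)]
  {Fl : ∀ n, ℕ → Submodule k (H n)} {d : ℕ} {ℓ : ∀ n, H n →ₗ[k] H (n + 2)}
  {T V : ∀ n, Submodule k (H n)} {B : ∀ n, H n →ₗ[k] H n →ₗ[k] k}

/-- The filtrations `Q` and `Fl` are of complementary dimensions. -/
structure IsOpp (Fl Q : ∀ n, ℕ → Submodule k (H n)) (ℓ : ∀ n, H n →ₗ[k] H (n + 2))
    (T : ∀ n, Submodule k (H n)) : Prop where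
  zero : ∀ n, Q n 0 = ⊥
  mono : ∀ n i, Q n i ≤ Q n (i + 1)
  dim : ∀ n i, Module.finrank k (Q n i) + Module.finrank k (Fl n i) = Module.finrank k (H n)
  ell : ∀ n i, (Q n i).map (ℓ n) ≤ Q (n + 2) (i + 1)
  le : ∀ n i, T n ≤ (T n ⊓ Q n i) ⊔ (T n ⊓ Fl n i)
  bot : ∀ n i, T n ⊓ Q n i ⊓ Fl n i = ⊥

variable {Q : ∀ n, ℕ → Submodule k (H n)}

theorem finrank_map_inj {H H' : Type*} [AddCommGroup H] [Module k H] [AddCommGroup H'] [Module k H']
    {f : H →ₗ[k] H'} (hf : Function.Injective f) (S : Submodule k H) :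
    Module.finrank k (S.map f) = Module.finrank k S :=
  (Submodule.equivMapOfInjective f hf S).finrank_eq.symm

theorem isCompl_of {H : Type*} [AddCommGroup H] [Module k H] {T V R : Submodule k H}
    (h1 : Disjoint T V) (h2 : IsCompl (T ⊔ V) R) : IsCompl (T ⊔ R) V := by
  constructor
  · rw [Submodule.disjoint_def]
    intro x hx hxV
    obtain ⟨t, ht, r, hr, rfl⟩ := Submodule.mem_sup.1 hx
    have h3 : r = (t + r) - t := by abel
    have h4 : r ∈ T ⊔ V := by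
      rw [h3]
      exact Submodule.sub_mem _ (le_sup_right (α := Submodule k H) hxV) (le_sup_left (α := Submodule k H) ht)
    have h5 : r = 0 := (Submodule.disjoint_def.1 h2.disjoint) r h4 hr
    rw [h5, add_zero] at hxV ⊢
    exact (Submodule.disjoint_def.1 h1) t ht hxV
  · rw [codisjoint_iff, sup_assoc, sup_comm R V, ← sup_assoc]
    exact h2.sup_eq_top

variable [∀ n, FiniteDimensional k (H n)]

omit [∀ n, FiniteDimensional k (H n)] in
theorem IsOpp.mono_le (h : IsOpp Fl Q ℓ T) (n : ℕ) {i j : ℕ} (hij : i ≤ j) : Q n i ≤ Q n j :=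
  monotone_nat_of_le_succ (h.mono n) hij

theorem IsOpp.strict (h : IsOpp Fl Q ℓ T) (hL : IsLefschetz Fl d ℓ) (n a : ℕ) (hn : n + a = d) (i : ℕ) :
    (Q n i).map (itr ℓ n a) = Q (n + 2 * a) (i + a) := by
  have h3 : ∀ (a : ℕ) (x : H n), x ∈ Q n i → itr ℓ n a x ∈ Q (n + 2 * a) (i + a) := by
    intro a x hx
    induction a with
    | zero => exact hx
    | succ a ih => exact h.ell _ _ ⟨_, ih, rfl⟩
  have hinj := (hL.bij n a hn).1
  have hd := h.dim n i
  have hd' := h.dim (n + 2 * a) (i + a)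
  have e1 : Module.finrank k (H n) = Module.finrank k (H (n + 2 * a)) :=
    (LinearEquiv.ofBijective _ (hL.bij n a hn)).finrank_eq
  have e2 : Module.finrank k (Fl (n + 2 * a) (i + a)) = Module.finrank k (Fl n i) := by
    rw [← hL.strict n a hn i]
    exact finrank_map_inj hinj _
  have e3 : Module.finrank k ((Q n i).map (itr ℓ n a)) = Module.finrank k (Q n i) :=
    finrank_map_inj hinj _
  apply Submodule.eq_of_le_of_finrank_eq
  · rintro _ ⟨x, hx, rfl⟩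
    exact h3 a x hx
  · omega

/-- Moving `Fl n j` away from `Q n j`. -/
def Mv (Fl Q : ∀ n, ℕ → Submodule k (H n)) (ℓ : ∀ n, H n →ₗ[k] H (n + 2)) (T V : ∀ n, Submodule k (H n))
    (B : ∀ n, H n →ₗ[k] H n →ₗ[k] k) (n j : ℕ) : Prop :=
  ∃ g : ∀ n, H n →ₗ[k] H n, IsSpecialFamily ℓ T V B g ∧ ∀ x ∈ Fl n j, g n x ∈ Q n j → x = 0

omit [∀ n, FiniteDimensional k (H n)] in
theorem mv_of_bot {n j : ℕ} (h : Q n j = ⊥) : Mv Fl Q ℓ T V B n j := by
  refine ⟨_, IsSpecialFamily.refl, fun x _ hx => ?_⟩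
  rw [h] at hx
  exact (Submodule.mem_bot k).1 hx

theorem mv_base [CharZero k] (hL : IsLefschetz Fl d ℓ) (hS : IsPrimitiveSplit Fl d ℓ T V B)
    (hQ : IsOpp Fl Q ℓ T) {n : ℕ} (hn : Rg ℓ n = ⊥) (j : ℕ) : Mv Fl Q ℓ T V B n j := by
  have h1 := isCompl_prim_Rg hL n
  rw [hn] at h1
  replace h1 : prim ℓ d n = ⊤ := by
    have h2 := h1.sup_eq_top
    rwa [sup_bot_eq] at h2
  have hTV : IsCompl (T n) (V n) := ⟨hS.disj n, codisjoint_iff.2 ((hS.sup n).trans h1)⟩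
  obtain ⟨G, hG, hG'⟩ := exists_special hTV (hS.form n) (hQ.dim n j) (hQ.le n j) (hQ.bot n j) (by
    intro hx
    have h2 := hS.parity n hx j
    rwa [h1, top_inf_eq] at h2)
  obtain ⟨g, hg, hgG⟩ := exists_family hL hS.sup n (G := G) (by
    rw [hn, sup_bot_eq]
    exact hG)
  exact ⟨g, hg, by rw [hgG]; exact hG'⟩

theorem mv_step [CharZero k] (hL : IsLefschetz Fl d ℓ) (hS : IsPrimitiveSplit Fl d ℓ T V B)
    (hQ : IsOpp Fl Q ℓ T) {n : ℕ} (hn : n + 2 ≤ d) (j : ℕ) (h : Mv Fl Q ℓ T V B n j) :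
    Mv Fl Q ℓ T V B (n + 2) (j + 1) := by
  obtain ⟨g, hg, hgn⟩ := h
  have hinj := ell_injective hL (show n < d by omega)
  have hc := isCompl_prim hL n
  have hdisj := Submodule.disjoint_def.1 hc.disjoint
  have hTp : T (n + 2) ≤ prim ℓ d (n + 2) := (hS.sup (n + 2)) ▸ le_sup_left
  have hUV : IsCompl (T (n + 2) ⊔ LinearMap.range (ℓ n)) (V (n + 2)) :=
    isCompl_of (hS.disj _) ((hS.sup (n + 2)).symm ▸ hc)
  have hgi := hg.injective
  -- preservation of the primitive part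
  have hgp : ∀ x ∈ prim ℓ d (n + 2), g (n + 2) x ∈ prim ℓ d (n + 2) := by
    intro x hx
    rw [← hS.sup (n + 2)] at hx ⊢
    obtain ⟨t, ht, v, hv, rfl⟩ := Submodule.mem_sup.1 hx
    rw [map_add, hg.fix _ t ht]
    exact Submodule.add_mem_sup ht (hg.map _ v hv)
  have hFsplit := fun {x : H (n + 2)} {y : H n} (hx : x ∈ prim ℓ d (n + 2))
    (hxy : x + ℓ n y ∈ Fl (n + 2) (j + 1)) => split_strict hL hL.fil hL.strict hn hx hxy
  have hQsplit := fun {x : H (n + 2)} {y : H n} (hx : x ∈ prim ℓ d (n + 2))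
    (hxy : x + ℓ n y ∈ Q (n + 2) (j + 1)) => split_strict hL hQ.ell (fun n a hn i => hQ.strict hL n a hn i) hn hx hxy
  have hdec : ∀ x : H (n + 2), ∃ x₀ ∈ prim ℓ d (n + 2), ∃ y : H n, x = x₀ + ℓ n y := by
    intro x
    obtain ⟨x₀, h0, _, ⟨y, rfl⟩, h1⟩ := Submodule.mem_sup.1
      (hc.sup_eq_top ▸ Submodule.mem_top : x ∈ prim ℓ d (n + 2) ⊔ LinearMap.range (ℓ n))
    exact ⟨x₀, h0, y, h1.symm⟩
  have huniq : ∀ x ∈ prim ℓ d (n + 2), ∀ x' ∈ prim ℓ d (n + 2), ∀ y y' : H n, x + ℓ n y = x' + ℓ n y' →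
      x = x' ∧ y = y' := by
    intro x hx x' hx' y y' h
    have h1 : x - x' = ℓ n (y' - y) := by
      rw [map_sub]
      have h2 : x = x' + ℓ n y' - ℓ n y := by rw [← h]; abel
      rw [h2]
      abel
    have h2 := hdisj (x - x') (Submodule.sub_mem _ hx hx') (h1 ▸ ⟨_, rfl⟩)
    rw [h2] at h1
    have h3 := hinj (h1.symm.trans (map_zero _).symm)
    exact ⟨sub_eq_zero.1 h2, (sub_eq_zero.1 h3).symm⟩
  set F := Fl (n + 2) (j + 1) with hF
  set F' := F.map (g (n + 2)) with hF'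
  set U := T (n + 2) ⊔ LinearMap.range (ℓ n) with hU
  -- the space `H n`
  have hHn : ∀ y : H n, ∃ q ∈ Q n j, ∃ f ∈ Fl n j, y = q + g n f := by
    have h1 : Q n j ⊓ (Fl n j).map (g n) = ⊥ := by
      rw [eq_bot_iff]
      rintro _ ⟨h2, f, hf, rfl⟩
      rw [hgn f hf h2, map_zero]
      exact Submodule.zero_mem _
    have h2 : Q n j ⊔ (Fl n j).map (g n) = ⊤ := by
      apply Submodule.eq_top_of_finrank_eq
      have h3 := Submodule.finrank_sup_add_finrank_inf_eq (Q n j) ((Fl n j).map (g n))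
      rw [h1, finrank_bot, finrank_map_inj (hgi n)] at h3
      have h4 := hQ.dim n j
      omega
    intro y
    obtain ⟨q, hq, _, ⟨f, hf, rfl⟩, h3⟩ := Submodule.mem_sup.1 (h2 ▸ Submodule.mem_top : y ∈ Q n j ⊔ (Fl n j).map (g n))
    exact ⟨q, hq, f, hf, h3.symm⟩
  -- elements of `U ∩ F'`
  have hUF : ∀ x ∈ U, x ∈ F' → ∃ t ∈ T (n + 2) ⊓ F, ∃ f ∈ Fl n j, x = t + ℓ n (g n f) := by
    intro x hxU hxF
    obtain ⟨t, ht, _, ⟨y, rfl⟩, rfl⟩ := Submodule.mem_sup.1 hxU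
    obtain ⟨f, hf, hfx⟩ := hxF
    obtain ⟨f₀, hf₀, f₁, rfl⟩ := hdec f
    obtain ⟨hf₁, hf₀'⟩ := hFsplit hf₀ hf
    rw [map_add, hg.comm] at hfx
    obtain ⟨e1, e2⟩ := huniq _ (hgp _ hf₀) _ (hTp ht) _ _ hfx
    have e3 : f₀ = t := hgi _ (e1.trans (hg.fix _ t ht).symm)
    refine ⟨t, ⟨ht, e3 ▸ hf₀'⟩, f₁, hf₁, ?_⟩
    rw [e2]
  have hUF' : U ⊓ F' = ((T (n + 2) ⊓ F) ⊔ (Fl n j).map (ℓ n)).map (g (n + 2)) := by
    apply le_antisymm
    · rintro x ⟨h1, h2⟩
      obtain ⟨t, ht, f, hf, rfl⟩ := hUF x h1 h2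
      refine ⟨t + ℓ n f, Submodule.add_mem_sup ht ⟨f, hf, rfl⟩, ?_⟩
      rw [map_add, hg.comm, hg.fix _ t ht.1]
    · rintro _ ⟨x, hx, rfl⟩
      obtain ⟨t, ht, _, ⟨f, hf, rfl⟩, rfl⟩ := Submodule.mem_sup.1 hx
      refine ⟨?_, t + ℓ n f, ?_, rfl⟩
      · rw [map_add, hg.comm, hg.fix _ t ht.1]
        exact Submodule.add_mem_sup ht.1 ⟨_, rfl⟩
      · exact Submodule.add_mem _ ht.2 (hL.fil n j ⟨f, hf, rfl⟩)
  have hdF : Module.finrank k F = Module.finrank k ↥(prim ℓ d (n + 2) ⊓ F) + Module.finrank k (Fl n j) := by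
    have h1 : (prim ℓ d (n + 2) ⊓ F) ⊔ (Fl n j).map (ℓ n) = F := by
      apply le_antisymm
      · exact sup_le inf_le_right (hL.fil n j)
      · intro f hf
        obtain ⟨f₀, hf₀, f₁, rfl⟩ := hdec f
        obtain ⟨hf₁, hf₀'⟩ := hFsplit hf₀ hf
        exact Submodule.add_mem_sup ⟨hf₀, hf₀'⟩ ⟨f₁, hf₁, rfl⟩
    have h2 : (prim ℓ d (n + 2) ⊓ F) ⊓ (Fl n j).map (ℓ n) = ⊥ := by
      rw [eq_bot_iff]
      rintro x ⟨h3, h4⟩
      exact hdisj x h3.1 (LinearMap.map_le_range h4)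
    have h3 := Submodule.finrank_sup_add_finrank_inf_eq (prim ℓ d (n + 2) ⊓ F) ((Fl n j).map (ℓ n))
    rw [h1, h2, finrank_bot, finrank_map_inj hinj] at h3
    exact h3
  have hdU : Module.finrank k ↥(U ⊓ F') = Module.finrank k ↥(T (n + 2) ⊓ F) + Module.finrank k (Fl n j) := by
    have h2 : (T (n + 2) ⊓ F) ⊓ (Fl n j).map (ℓ n) = ⊥ := by
      rw [eq_bot_iff]
      rintro x ⟨h3, h4⟩
      exact hdisj x (hTp h3.1) (LinearMap.map_le_range h4)
    have h3 := Submodule.finrank_sup_add_finrank_inf_eq (T (n + 2) ⊓ F) ((Fl n j).map (ℓ n))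
    rw [h2, finrank_bot, finrank_map_inj hinj] at h3
    rw [hUF', finrank_map_inj (hgi _)]
    exact h3
  have hdF' : Module.finrank k F' = Module.finrank k F := finrank_map_inj (hgi _) _
  obtain ⟨G, hG, hG'⟩ := exists_special (P := Q (n + 2) (j + 1)) (F := F') hUV (hS.form (n + 2))
    (by rw [hdF']; exact hQ.dim (n + 2) (j + 1))
    (by
      refine sup_le ?_ ?_
      · refine (hQ.le (n + 2) (j + 1)).trans (sup_le_sup ?_ ?_)
        · exact inf_le_inf_right _ le_sup_left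
        · rintro t ⟨h1, h2⟩
          exact ⟨le_sup_left (α := Submodule k (H (n + 2))) h1, t, h2, hg.fix _ t h1⟩
      · rintro _ ⟨y, rfl⟩
        obtain ⟨q, hq, f, hf, rfl⟩ := hHn y
        rw [map_add]
        refine Submodule.add_mem_sup ⟨le_sup_right (α := Submodule k (H (n + 2))) ⟨_, rfl⟩, hQ.ell n j ⟨q, hq, rfl⟩⟩
          ⟨le_sup_right (α := Submodule k (H (n + 2))) ⟨_, rfl⟩, ?_⟩
        rw [← hg.comm]
        exact ⟨_, hL.fil n j ⟨f, hf, rfl⟩, rfl⟩)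
    (by
      rw [eq_bot_iff]
      rintro x ⟨⟨h1, h2⟩, h3⟩
      obtain ⟨t, ht, f, hf, rfl⟩ := hUF x h1 h3
      obtain ⟨h4, h5⟩ := hQsplit (hTp ht.1) h2
      have h6 : t ∈ T (n + 2) ⊓ Q (n + 2) (j + 1) ⊓ Fl (n + 2) (j + 1) := ⟨⟨ht.1, h5⟩, ht.2⟩
      rw [hQ.bot] at h6
      rw [(Submodule.mem_bot k).1 h6, hgn f hf h4, map_zero, map_zero, add_zero]
      exact Submodule.zero_mem _)
    (by
      intro hx
      have h1 : 2 * Module.finrank k ↥(prim ℓ d (n + 2) ⊓ F) ≠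
          Module.finrank k (V (n + 2)) + 2 * Module.finrank k ↥(T (n + 2) ⊓ F) :=
        hS.parity (n + 2) hx (j + 1)
      rw [hdF', hdF, hdU]
      omega)
  obtain ⟨g', hg', hgG⟩ := exists_family hL hS.sup (n + 2) (G := G) hG
  refine ⟨fun m => g' m ∘ₗ g m, hg'.comp hg, fun x hx hxQ => ?_⟩
  have h1 : G (g (n + 2) x) ∈ Q (n + 2) (j + 1) := by
    rw [← hgG]
    exact hxQ
  exact hgi (n + 2) ((hG' _ ⟨x, hx, rfl⟩ h1).trans (map_zero _).symm)

/-- The chain theorem. -/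
theorem chain [CharZero k] (hL : IsLefschetz Fl d ℓ) (hS : IsPrimitiveSplit Fl d ℓ T V B)
    (hQ : IsOpp Fl Q ℓ T) (n j : ℕ) : Mv Fl Q ℓ T V B n j := by
  have hle : ∀ n, n ≤ d → ∀ j, Mv Fl Q ℓ T V B n j := by
    intro n
    induction n using Nat.strong_induction_on with
    | _ n ih =>
      intro hn j
      match n, ih, hn with
      | 0, _, _ => exact mv_base hL hS hQ rfl j
      | 1, _, _ => exact mv_base hL hS hQ rfl j
      | n + 2, ih, hn =>
        match j with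
        | 0 => exact mv_of_bot (hQ.zero _)
        | j + 1 => exact mv_step hL hS hQ hn j (ih n (by omega) (by omega) j)
  by_cases h1 : n ≤ d
  · exact hle n h1 j
  by_cases h2 : 2 * d < n
  · have := hL.zero n h2
    exact ⟨_, IsSpecialFamily.refl, fun x _ _ => Subsingleton.elim _ _⟩
  obtain ⟨m, a, hma, hn⟩ : ∃ m a, m + a = d ∧ n = m + 2 * a := ⟨2 * d - n, n - d, by omega, by omega⟩
  subst hn
  by_cases hj : j < a
  · apply mv_of_bot
    rw [eq_bot_iff]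
    refine (hQ.mono_le _ (show j ≤ 0 + a by omega)).trans ?_
    rw [← hQ.strict hL m a hma 0, hQ.zero, Submodule.map_bot]
  · obtain ⟨i, rfl⟩ : ∃ i, j = i + a := ⟨j - a, by omega⟩
    obtain ⟨g, hg, hgm⟩ := hle m (by omega) i
    refine ⟨g, hg, fun x hx hxQ => ?_⟩
    rw [← hL.strict m a hma i] at hx
    obtain ⟨y, hy, rfl⟩ := hx
    rw [comm_itr m a (fun b _ x => hg.comm _ x) y, ← hQ.strict hL m a hma i] at hxQ
    obtain ⟨z, hz, hzy⟩ := hxQ
    have h3 : z = g m y := (hL.bij m a hma).1 hzy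
    rw [h3] at hz
    rw [hgm y hy hz, map_zero]

end

end MPadcGP
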