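import Pool.Agent.Lib.MP_adc574_ag_GP.BigB

/-!
# Moving the Hodge filtration by automorphisms of the cohomology algebra

* `IsGal`: the families of automorphisms of the spaces `H n` which are compatible with the products, fix the
  logarithmic classes and preserve the horizontal spaces of alternating forms (the group of the connection).
* `inGeneralPosition_of_gen`: it is enough to move the Hodge filtration away from `P` on generators.
* `inGeneralPosition_of_one`: the case of algebras generated by `H 1` and by logarithmic classes.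
-/

set_option autoImplicit false

namespace MPadcGP

section

variable {k : Type*} [Field k] {H : ℕ → Type*} [∀ n, AddCommGroup (H n)] [∀ n, Module k (H n)]
  (nab : ∀ n, Derivation ℤ k k → H n → H n → Prop) (Fl : ∀ n, ℕ → Submodule k (H n))
  (cup : ∀ n n', H n → H n' → H (n + n') → Prop) (lg : ∀ n, ℕ → Set (H n))

/-- The family `g` belongs to the group of the connection: its members are injective, compatible with the
products, fix the logarithmic classes and preserve all horizontal spaces of alternating forms. -/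
structure IsGal (g : ∀ n, H n →ₗ[k] H n) : Prop where
  inj : ∀ n, Function.Injective (g n)
  mul : ∀ n n' x y z, cup n n' x y z → cup n n' (g n x) (g n' y) (g (n + n') z)
  log : ∀ n j, ∀ x ∈ lg n j, g n x = x
  hor : ∀ (n r : ℕ) (W : Submodule k (H n [⋀^Fin r]→ₗ[k] k)), IsHorizontal (nab n) W →
    ∀ ω ∈ W, ω.compLinearMap (g n) ∈ W

variable (k) in
/-- The classes in the sets `U n` generate the algebra `H`. -/
def Generates (U : ∀ n, Set (H n)) : Prop :=
  ∀ N : ∀ n, Submodule k (H n), (∀ n, U n ⊆ N n) →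
    (∀ n n', ∀ x ∈ N n, ∀ y ∈ N n', ∀ z, cup n n' x y z → z ∈ N (n + n')) → ∀ n, N n = ⊤

/-- The standard properties of the Hodge filtration of a cohomology algebra. -/
structure IsHodge : Prop where
  anti : ∀ n i, Fl n (i + 1) ≤ Fl n i
  zero : ∀ n, Fl n 0 = ⊤
  top : ∀ n i, n < i → Fl n i = ⊥
  mul : ∀ n n' i i', ∀ x ∈ Fl n i, ∀ y ∈ Fl n' i', ∀ z, cup n n' x y z → z ∈ Fl (n + n') (i + i')
  log : ∀ n j, ∀ x ∈ lg n j, x ∈ Fl n j
  bil : ∃ μ : ∀ n n', H n →ₗ[k] H n' →ₗ[k] H (n + n'), ∀ n n' x y z, cup n n' x y z ↔ μ n n' x y = z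

variable {nab Fl cup lg}

/-- The sum of the spaces `g Fl n i ∩ P n i`. -/
def Nsum (Fl P : ∀ n, ℕ → Submodule k (H n)) (g : ∀ n, H n →ₗ[k] H n) (n : ℕ) : Submodule k (H n) :=
  ⨆ i, (Fl n i).map (g n) ⊓ P n i

theorem Nsum_mul (hF : IsHodge Fl cup lg) {P : ∀ n, ℕ → Submodule k (H n)}
    (hP : ∀ n n' i i', ∀ x ∈ P n i, ∀ y ∈ P n' i', ∀ z, cup n n' x y z → z ∈ P (n + n') (i + i'))
    {g : ∀ n, H n →ₗ[k] H n}
    (hg : ∀ n n' x y z, cup n n' x y z → cup n n' (g n x) (g n' y) (g (n + n') z)) (n n' : ℕ) :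
    ∀ x ∈ Nsum Fl P g n, ∀ y ∈ Nsum Fl P g n', ∀ z, cup n n' x y z → z ∈ Nsum Fl P g (n + n') := by
  obtain ⟨μ, hμ⟩ := hF.bil
  have h1 : Submodule.map₂ (μ n n') (Nsum Fl P g n) (Nsum Fl P g n') ≤ Nsum Fl P g (n + n') := by
    unfold Nsum
    rw [Submodule.map₂_iSup_left]
    refine iSup_le fun i => ?_
    rw [Submodule.map₂_iSup_right]
    refine iSup_le fun i' => ?_
    rw [Submodule.map₂_le]
    rintro _ ⟨⟨x, hx, rfl⟩, hx'⟩ _ ⟨⟨y, hy, rfl⟩, hy'⟩
    refine le_iSup (fun j => (Fl (n + n') j).map (g (n + n')) ⊓ P (n + n') j) (i + i') ⟨?_, ?_⟩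
    · refine ⟨μ n n' x y, hF.mul n n' i i' x hx y hy _ ((hμ _ _ _ _ _).2 rfl), ?_⟩
      exact ((hμ _ _ _ _ _).1 (hg n n' x y _ ((hμ _ _ _ _ _).2 rfl))).symm
    · exact hP n n' i i' _ hx' _ hy' _ ((hμ _ _ _ _ _).2 rfl)
  intro x hx y hy z hz
  rw [← (hμ _ _ _ _ _).1 hz]
  exact h1 (Submodule.apply_mem_map₂ _ hx hy)

theorem opp_of_Nsum (n i : ℕ) [FiniteDimensional k (H n)] (hF : ∀ i, Fl n (i + 1) ≤ Fl n i)
    {P : ∀ n, ℕ → Submodule k (H n)} (hP : ∀ i, P n i ≤ P n (i + 1))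
    (hd : Module.finrank k (P n i) + Module.finrank k (Fl n (i + 1)) = Module.finrank k (H n))
    {g : ∀ n, H n →ₗ[k] H n} (hg : Function.Injective (g n)) (hN : Nsum Fl P g n = ⊤) :
    ∀ x ∈ Fl n (i + 1), g n x ∈ P n i → x = 0 := by
  have h1 : P n i ⊔ (Fl n (i + 1)).map (g n) = ⊤ := by
    rw [eq_top_iff, ← hN]
    refine iSup_le fun i' => ?_
    rcases Nat.lt_or_ge i i' with h | h
    · refine (inf_le_left.trans (Submodule.map_mono ?_)).trans le_sup_right
      exact antitone_nat_of_succ_le (f := Fl n) hF h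
    · exact (inf_le_right.trans (monotone_nat_of_le_succ (f := P n) hP h)).trans le_sup_left
  have h2 := Submodule.finrank_sup_add_finrank_inf_eq (P n i) ((Fl n (i + 1)).map (g n))
  rw [h1, finrank_top, ← (Submodule.equivMapOfInjective (g n) hg (Fl n (i + 1))).finrank_eq, hd] at h2
  have h3 : P n i ⊓ (Fl n (i + 1)).map (g n) = ⊥ := Submodule.finrank_eq_zero.1 (by omega)
  intro x hx hgx
  have h4 : g n x ∈ P n i ⊓ (Fl n (i + 1)).map (g n) := ⟨hgx, x, hx, rfl⟩
  rw [h3, Submodule.mem_bot] at h4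
  exact hg (by rw [h4, map_zero])

/-- It is enough to move the Hodge filtration away from `P` on a set of generators. -/
theorem inGeneralPosition_of_gen [∀ n, FiniteDimensional k (H n)] (hF : IsHodge Fl cup lg)
    (h : ∀ P, IsConjugateType Fl cup lg P → ∃ g : ∀ n, H n →ₗ[k] H n, IsGal nab cup lg g ∧
      ∃ U : ∀ n, Set (H n), Generates k cup U ∧ ∀ n, U n ⊆ Nsum Fl P g n) :
    InGeneralPosition nab Fl cup lg := by
  intro P hP n i W hW hω
  obtain ⟨ω, hωW, hω0, hωP⟩ := hω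
  obtain ⟨g, hg, U, hU, hUN⟩ := h P hP
  have hN := hU (Nsum Fl P g) hUN (Nsum_mul hF hP.mul hg.mul) n
  have h1 := opp_of_Nsum n i (hF.anti n) (hP.mono n) (hP.dim n i) (hg.inj n) hN
  obtain ⟨x, hx, hne⟩ := exists_nonzero rfl (hP.dim n i) hω0 hωP h1
  exact ⟨ω.compLinearMap (g n), hg.hor _ _ W hW ω hωW, x, hx, hne⟩

variable {P : ∀ n, ℕ → Submodule k (H n)} {g : ∀ n, H n →ₗ[k] H n}

theorem log_mem_Nsum (hF : IsHodge Fl cup lg) (hP : IsConjugateType Fl cup lg P)
    (hg : IsGal nab cup lg g) (n j : ℕ) : lg n j ⊆ Nsum Fl P g n := fun x hx =>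
  le_iSup (fun i => (Fl n i).map (g n) ⊓ P n i) j
    ⟨⟨x, hF.log n j x hx, hg.log n j x hx⟩, hP.log n j x hx⟩

theorem P_top [∀ n, FiniteDimensional k (H n)] (hF : IsHodge Fl cup lg)
    (hP : IsConjugateType Fl cup lg P) (n i : ℕ) (hni : n ≤ i) : P n i = ⊤ := by
  apply Submodule.eq_top_of_finrank_eq
  have h1 := hP.dim n i
  rw [hF.top n (i + 1) (by omega), finrank_bot, add_zero] at h1
  exact h1

theorem zero_mem_Nsum [∀ n, FiniteDimensional k (H n)] (hF : IsHodge Fl cup lg)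
    (hP : IsConjugateType Fl cup lg P) (hg : IsGal nab cup lg g) : Nsum Fl P g 0 = ⊤ := by
  rw [eq_top_iff]
  refine le_trans ?_ (le_iSup (fun i => (Fl 0 i).map (g 0) ⊓ P 0 i) 0)
  have h1 : Function.Surjective (g 0) := LinearMap.injective_iff_surjective.1 (hg.inj 0)
  rw [hF.zero 0, P_top hF hP 0 0 le_rfl, Submodule.map_top, LinearMap.range_eq_top.2 h1, inf_top_eq]

theorem one_mem_Nsum [∀ n, FiniteDimensional k (H n)] (hF : IsHodge Fl cup lg)
    (hP : IsConjugateType Fl cup lg P) (hg : IsGal nab cup lg g)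
    (h : (Fl 1 1).map (g 1) ⊔ P 1 0 = ⊤) : Nsum Fl P g 1 = ⊤ := by
  rw [eq_top_iff, ← h]
  have h1 : Function.Surjective (g 1) := LinearMap.injective_iff_surjective.1 (hg.inj 1)
  refine sup_le ?_ ?_
  · refine le_trans ?_ (le_iSup (fun i => (Fl 1 i).map (g 1) ⊓ P 1 i) 1)
    rw [P_top hF hP 1 1 le_rfl, inf_top_eq]
  · refine le_trans ?_ (le_iSup (fun i => (Fl 1 i).map (g 1) ⊓ P 1 i) 0)
    rw [hF.zero 1, Submodule.map_top, LinearMap.range_eq_top.2 h1, top_inf_eq]

/-- Algebras generated by `H 1` and by the logarithmic classes: it is enough to move `Fl 1 1` away from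
`P 1 0`. -/
theorem inGeneralPosition_of_one [∀ n, FiniteDimensional k (H n)] (hF : IsHodge Fl cup lg)
    (hgen : Generates k cup fun n => {x : H n | n ≤ 1 ∨ ∃ j, x ∈ lg n j})
    (h : ∀ P, IsConjugateType Fl cup lg P → ∃ g : ∀ n, H n →ₗ[k] H n, IsGal nab cup lg g ∧
      (Fl 1 1).map (g 1) ⊔ P 1 0 = ⊤) :
    InGeneralPosition nab Fl cup lg := by
  refine inGeneralPosition_of_gen hF fun P hP => ?_
  obtain ⟨g, hg, h1⟩ := h P hP
  refine ⟨g, hg, _, hgen, fun n x hx => ?_⟩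
  rcases hx with hx | ⟨j, hx⟩
  · rcases Nat.lt_or_ge n 1 with hn | hn
    · have : n = 0 := by omega
      subst this
      rw [zero_mem_Nsum hF hP hg]
      trivial
    · have : n = 1 := by omega
      subst this
      rw [one_mem_Nsum hF hP hg h1]
      trivial
  · exact log_mem_Nsum hF hP hg n j hx

end

end MPadcGP
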