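import Pool.Agent.Lib.MP_adc574_ag_GP.BigD

/-!
# Families of alternating forms

`B j`, `j ∈ ι`: alternating forms on a space `S` such that `S` is the direct sum of the spaces
`V j = {x | B i x = 0 for all i ≠ j}` and such that `x = 0` if `B j x = 0` for all `j`.

* `exists_move`: if `P` and `F` are isotropic for all `B j` and `dim P + dim F = dim S`, then there is an
  automorphism `g` of `S` preserving all `B j` with `g F ⊕ P = S`.
-/

set_option autoImplicit false

namespace MPadcGP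

section one

variable {k : Type*} [Field k] {V : Type*} [AddCommGroup V] [Module k V] [FiniteDimensional k V]

omit [FiniteDimensional k V] in
theorem alt_swap {B : V →ₗ[k] V →ₗ[k] k} (h : ∀ x, B x x = 0) (x y : V) : B x y = -B y x := by
  have h1 := h (x + y)
  simp only [map_add, LinearMap.add_apply, h x, h y, zero_add, add_zero] at h1
  linear_combination h1

omit [FiniteDimensional k V] in
theorem alt_nondeg {B : V →ₗ[k] V →ₗ[k] k} (h : ∀ x, B x x = 0) (hnd : ∀ x, (∀ y, B x y = 0) → x = 0) :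
    LinearMap.BilinForm.Nondegenerate B := by
  refine ⟨fun x hx => hnd x hx, fun x hx => hnd x fun y => ?_⟩
  rw [alt_swap h]
  exact neg_eq_zero.2 (hx y)

/-- Isotropic spaces have at most half the dimension. -/
theorem isotropic_le {B : V →ₗ[k] V →ₗ[k] k} (h : ∀ x, B x x = 0) (hnd : ∀ x, (∀ y, B x y = 0) → x = 0)
    (L : Submodule k V) (hL : ∀ x ∈ L, ∀ y ∈ L, B x y = 0) :
    2 * Module.finrank k L ≤ Module.finrank k V := by
  have h1 := LinearMap.BilinForm.finrank_orthogonal (alt_nondeg h hnd) L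
  have h2 : L ≤ LinearMap.BilinForm.orthogonal B L := fun x hx y hy => hL y hy x hx
  have h3 := Submodule.finrank_mono h2
  have h4 := Submodule.finrank_le L
  omega

/-- Isotropic spaces of half the dimension are their own orthogonal spaces. -/
theorem lagrangian_mem {B : V →ₗ[k] V →ₗ[k] k} (h : ∀ x, B x x = 0) (hnd : ∀ x, (∀ y, B x y = 0) → x = 0)
    (L : Submodule k V) (hL : ∀ x ∈ L, ∀ y ∈ L, B x y = 0)
    (hd : 2 * Module.finrank k L = Module.finrank k V) (x : V) (hx : ∀ y ∈ L, B x y = 0) : x ∈ L := by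
  have h1 := LinearMap.BilinForm.finrank_orthogonal (alt_nondeg h hnd) L
  have h2 : L ≤ LinearMap.BilinForm.orthogonal B L := fun x hx y hy => hL y hy x hx
  have h3 : L = LinearMap.BilinForm.orthogonal B L := Submodule.eq_of_le_of_finrank_eq h2 (by omega)
  rw [h3]
  intro y hy
  change B y x = 0
  rw [alt_swap h, hx y hy, neg_zero]

/-- Spaces which are their own orthogonal spaces have half the dimension. -/
theorem lagrangian_dim {B : V →ₗ[k] V →ₗ[k] k} (h : ∀ x, B x x = 0) (hnd : ∀ x, (∀ y, B x y = 0) → x = 0)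
    (L : Submodule k V) (hL : ∀ x ∈ L, ∀ y ∈ L, B x y = 0) (hL' : ∀ x, (∀ y ∈ L, B x y = 0) → x ∈ L) :
    2 * Module.finrank k L = Module.finrank k V := by
  have h1 := LinearMap.BilinForm.finrank_orthogonal (alt_nondeg h hnd) L
  have h3 : LinearMap.BilinForm.orthogonal B L = L := by
    apply le_antisymm
    · intro x hx
      refine hL' x fun y hy => ?_
      rw [alt_swap h]
      exact neg_eq_zero.2 (hx y hy)
    · exact fun x hx y hy => hL y hy x hx
  rw [h3] at h1
  have h4 := Submodule.finrank_le L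
  omega

end one

section two

variable {k : Type*} [Field k] {S : Type*} [AddCommGroup S] [Module k S] {ι : Type*}

/-- The common radical of the forms `B i`, `i ≠ j`. -/
def Vj (B : ι → S →ₗ[k] S →ₗ[k] k) (j : ι) : Submodule k S where
  carrier := {x | ∀ i, i ≠ j → ∀ y, B i x y = 0}
  add_mem' := fun {x y} hx hy i hi z => by rw [map_add, LinearMap.add_apply, hx i hi z, hy i hi z, add_zero]
  zero_mem' := fun i _ z => by rw [map_zero, LinearMap.zero_apply]
  smul_mem' := fun c x hx i hi z => by rw [map_smul, LinearMap.smul_apply, hx i hi z, smul_zero]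

theorem mem_Vj {B : ι → S →ₗ[k] S →ₗ[k] k} {j : ι} {x : S} :
    x ∈ Vj B j ↔ ∀ i, i ≠ j → ∀ y, B i x y = 0 := Iff.rfl

variable [FiniteDimensional k S] [Fintype ι] [DecidableEq ι]

/-- The projectors. -/
theorem exists_proj {B : ι → S →ₗ[k] S →ₗ[k] k} (halt : ∀ j x, B j x x = 0)
    (hrad : ∀ x, (∀ j y, B j x y = 0) → x = 0) (hV : ⨆ j, Vj B j = ⊤) :
    ∃ e : ι → S →ₗ[k] S, (∀ x, ∑ j, e j x = x) ∧ (∀ j x, e j x ∈ Vj B j) ∧
      (∀ j, ∀ x ∈ Vj B j, e j x = x) ∧ (∀ j i, ∀ x ∈ Vj B j, i ≠ j → e i x = 0) ∧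
      ∀ (L : Submodule k S), (∀ j, ∀ x ∈ L, ∀ y ∈ L, B j x y = 0) →
        2 * Module.finrank k L ≤ Module.finrank k S ∧
        (2 * Module.finrank k L = Module.finrank k S →
          (∀ j, ∀ x ∈ L, e j x ∈ L) ∧
          ∀ j, 2 * Module.finrank k (L.comap (Vj B j).subtype) = Module.finrank k (Vj B j)) ∧
        ∀ j, ∀ x ∈ Vj B j, (∀ y ∈ Vj B j, B j x y = 0) → x = 0 := by
  let E : S →ₗ[k] S →ₗ[k] k := ∑ j, B j
  have hE : ∀ x y, E x y = ∑ j, B j x y := fun x y => by
    simp only [E, LinearMap.sum_apply]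
  have hEalt : ∀ x, E x x = 0 := fun x => by
    rw [hE]
    exact Finset.sum_eq_zero fun j _ => halt j x
  have hEj : ∀ j, ∀ x ∈ Vj B j, ∀ y, E x y = B j x y := by
    intro j x hx y
    rw [hE]
    exact Finset.sum_eq_single j (fun i _ hi => hx i hi y) fun h => absurd (Finset.mem_univ j) h
  have hEj' : ∀ j, ∀ y ∈ Vj B j, ∀ x, E x y = B j x y := by
    intro j y hy x
    rw [alt_swap hEalt, hEj j y hy, alt_swap (halt j) x y]
  -- `E` is nondegenerate
  have hnd : ∀ x, (∀ y, E x y = 0) → x = 0 := by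
    intro x hx
    refine hrad x fun j y => ?_
    have hy : y ∈ ⨆ i, Vj B i := hV ▸ Submodule.mem_top
    induction hy using Submodule.iSup_induction' with
    | mem i z hz =>
      by_cases hij : i = j
      · subst hij
        rw [← hEj' i z hz, hx]
      · rw [alt_swap (halt j), hz j (fun h => hij h.symm), neg_zero]
    | zero => rw [map_zero]
    | add y z _ _ h1 h2 => rw [map_add, h1, h2, add_zero]
  have hEN := alt_nondeg hEalt hnd
  let e : ι → S →ₗ[k] S := fun j =>
    ((LinearMap.BilinForm.toDual E hEN).symm : Module.Dual k S →ₗ[k] S) ∘ₗ B j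
  have he : ∀ j x y, E (e j x) y = B j x y := fun j x y =>
    LinearMap.BilinForm.apply_toDual_symm_apply (B := E) (hB := hEN) (B j x) y
  have hnd' : ∀ x x', (∀ y, E x y = E x' y) → x = x' := fun x x' h => by
    rw [← sub_eq_zero]
    refine hnd _ fun y => ?_
    rw [map_sub, LinearMap.sub_apply, h y, sub_self]
  have he1 : ∀ j, ∀ x ∈ Vj B j, e j x = x := fun j x hx => by
    refine hnd' _ _ fun y => ?_
    rw [he, hEj j x hx]
  have he2 : ∀ j i, ∀ x ∈ Vj B j, i ≠ j → e i x = 0 := fun j i x hx hij => by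
    refine hnd _ fun y => ?_
    rw [he, hx i hij]
  have he3 : ∀ j x, e j x ∈ Vj B j := by
    intro j x
    have hx : x ∈ ⨆ i, Vj B i := hV ▸ Submodule.mem_top
    induction hx using Submodule.iSup_induction' with
    | mem i z hz =>
      by_cases hij : i = j
      · subst hij
        rw [he1 i z hz]
        exact hz
      · rw [he2 i j z hz (fun h => hij h.symm)]
        exact Submodule.zero_mem _
    | zero => rw [map_zero]; exact Submodule.zero_mem _
    | add y z _ _ h1 h2 => rw [map_add]; exact Submodule.add_mem _ h1 h2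
  have hsum : ∀ x, ∑ j, e j x = x := fun x => by
    refine hnd' _ _ fun y => ?_
    rw [map_sum, LinearMap.sum_apply, hE]
    exact Finset.sum_congr rfl fun j _ => he j x y
  refine ⟨e, hsum, he3, he1, he2, fun L hL => ?_⟩
  have hLE : ∀ x ∈ L, ∀ y ∈ L, E x y = 0 := fun x hx y hy => by
    rw [hE]
    exact Finset.sum_eq_zero fun j _ => hL j x hx y hy
  have hndj : ∀ j, ∀ x ∈ Vj B j, (∀ y ∈ Vj B j, B j x y = 0) → x = 0 := fun j x hxj hx => by
    refine hnd x fun y => ?_
    rw [hEj j x hxj, ← hsum y, map_sum]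
    refine Finset.sum_eq_zero fun i _ => ?_
    by_cases hij : i = j
    · subst hij
      exact hx _ (he3 i y)
    · rw [alt_swap (halt j), (he3 i y) j (fun h => hij h.symm), neg_zero]
  refine ⟨isotropic_le hEalt hnd L hLE, fun hd => ?_, hndj⟩
  have hst : ∀ j, ∀ x ∈ L, e j x ∈ L := fun j x hx =>
    lagrangian_mem hEalt hnd L hLE hd _ fun y hy => by rw [he, hL j x hx y hy]
  refine ⟨hst, fun j => ?_⟩
  let Bj : Vj B j →ₗ[k] Vj B j →ₗ[k] k := (B j).compl₁₂ (Vj B j).subtype (Vj B j).subtype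
  have hBj : ∀ x y, Bj x y = B j x y := fun _ _ => rfl
  have h1 : ∀ x, Bj x x = 0 := fun x => halt j x
  have h2 : ∀ x, (∀ y, Bj x y = 0) → x = 0 := fun x hx =>
    Subtype.ext (hndj j x x.2 fun y hy => hx ⟨y, hy⟩)
  exact lagrangian_dim h1 h2 (L.comap (Vj B j).subtype)
    (fun x hx y hy => hL j x hx y hy) (fun x hx => by
      refine lagrangian_mem hEalt hnd L hLE hd (x : S) fun y hy => ?_
      have h4 : Bj x ⟨e j y, he3 j y⟩ = 0 := hx _ (hst j y hy)
      rw [hEj j x x.2, ← hsum y, map_sum]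
      refine Finset.sum_eq_zero fun i _ => ?_
      by_cases hij : i = j
      · subst hij
        exact h4
      · rw [alt_swap (halt j), (he3 i y) j (fun h => hij h.symm), neg_zero])

/-- There is an automorphism which preserves all the forms and moves `F` away from `P`. -/
theorem exists_move [CharZero k] {B : ι → S →ₗ[k] S →ₗ[k] k} (halt : ∀ j x, B j x x = 0)
    (hrad : ∀ x, (∀ j y, B j x y = 0) → x = 0) (hV : ⨆ j, Vj B j = ⊤) (P F : Submodule k S)
    (hP : ∀ j, ∀ x ∈ P, ∀ y ∈ P, B j x y = 0) (hF : ∀ j, ∀ x ∈ F, ∀ y ∈ F, B j x y = 0)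
    (hd : Module.finrank k P + Module.finrank k F = Module.finrank k S) :
    ∃ g : S →ₗ[k] S, (∀ j x y, B j (g x) (g y) = B j x y) ∧ F.map g ⊔ P = ⊤ := by
  obtain ⟨e, hsum, he3, he1, he2, hL⟩ := exists_proj halt hrad hV
  obtain ⟨hP1, hP2, -⟩ := hL P hP
  obtain ⟨hF1, hF2, hndj⟩ := hL F hF
  obtain ⟨hPe, hPd⟩ := hP2 (by omega)
  obtain ⟨hFe, hFd⟩ := hF2 (by omega)
  -- the automorphisms of the spaces `V j`
  have h1 : ∀ j, ∃ g : Vj B j →ₗ[k] Vj B j, (∀ x y, B j (g x) (g y) = B j x y) ∧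
      ∀ x : Vj B j, (x : S) ∈ F → (g x : S) ∈ P → x = 0 := by
    intro j
    obtain ⟨g, hg1, -, hg2⟩ := exists_iso ((B j).compl₁₂ (Vj B j).subtype (Vj B j).subtype)
      (fun x hx => Subtype.ext (hndj j x x.2 fun y hy => hx ⟨y, hy⟩))
      (F.comap (Vj B j).subtype) (P.comap (Vj B j).subtype) (Or.inl fun x => halt j x)
      (by have := hPd j; have := hFd j; omega)
    exact ⟨g, hg1, fun x hx hgx => hg2 x hx hgx⟩
  choose g hg1 hg2 using h1
  let e' : ∀ j, S →ₗ[k] Vj B j := fun j => (e j).codRestrict (Vj B j) (he3 j)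
  let G : S →ₗ[k] S := ∑ j, (Vj B j).subtype ∘ₗ (g j) ∘ₗ (e' j)
  have hG : ∀ x, G x = ∑ j, ((g j (e' j x) : Vj B j) : S) := fun x => by
    simp only [G, LinearMap.sum_apply]
    rfl
  have hBe : ∀ j x y, B j x y = B j (e j x) (e j y) := by
    intro j x y
    have h2 : ∀ x y, B j x y = B j (e j x) y := by
      intro x y
      conv_lhs => rw [← hsum x, map_sum, LinearMap.sum_apply]
      refine Finset.sum_eq_single j (fun i _ hi => he3 i x j (fun h => hi h.symm) y) fun h =>
        absurd (Finset.mem_univ j) h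
    rw [h2, alt_swap (halt j), h2, ← alt_swap (halt j)]
  have heG : ∀ j x, e j (G x) = g j (e' j x) := by
    intro j x
    rw [hG, map_sum]
    rw [Finset.sum_eq_single j (fun i _ hi => he2 i j _ (g i (e' i x)).2 (fun h => hi h.symm)) fun h =>
      absurd (Finset.mem_univ j) h]
    exact he1 j _ (g j (e' j x)).2
  refine ⟨G, fun j x y => ?_, ?_⟩
  · rw [hBe, heG, heG, hg1, hBe j x y]
    rfl
  · have h3 : ∀ x ∈ F, G x ∈ P → x = 0 := by
      intro x hx hgx
      rw [← hsum x]
      refine Finset.sum_eq_zero fun j _ => ?_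
      have h4 : e' j x = 0 := hg2 j _ (hFe j x hx) (by rw [← heG]; exact hPe j _ hgx)
      exact congrArg Subtype.val h4
    have h5 : LinearMap.ker (G ∘ₗ F.subtype) = ⊥ := by
      rw [LinearMap.ker_eq_bot']
      intro x hx
      exact Subtype.ext (h3 x x.2 (by
        have : G x = 0 := hx
        rw [this]
        exact P.zero_mem))
    have h6 : Module.finrank k (F.map G) = Module.finrank k F := by
      have h7 := LinearMap.finrank_range_of_inj (LinearMap.ker_eq_bot.1 h5)
      rw [LinearMap.range_comp, Submodule.range_subtype] at h7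
      exact h7
    have h7 : F.map G ⊓ P = ⊥ := by
      rw [eq_bot_iff]
      rintro _ ⟨⟨x, hx, rfl⟩, h8⟩
      rw [h3 x hx h8, map_zero]
      exact Submodule.zero_mem _
    apply Submodule.eq_top_of_finrank_eq
    have h8 := Submodule.finrank_sup_add_finrank_inf_eq (F.map G) P
    rw [h7, finrank_bot, h6] at h8
    omega

end two

section three

variable {k : Type*} [Field k] {H : ℕ → Type*} [∀ n, AddCommGroup (H n)] [∀ n, Module k (H n)]
  (nab : ∀ n, Derivation ℤ k k → H n → H n → Prop) (Fl : ∀ n, ℕ → Submodule k (H n))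
  (cup : ∀ n n', H n → H n' → H (n + n') → Prop) (lg : ∀ n, ℕ → Set (H n))

/-- The alternating form `B` on `H 1` is given by a logarithmic class `w` of degree `a`: there is a linear
function `τ` on a space `H (2 + m)` of type `(a + 1, a + 1)` with `B x y = τ (x y w)`. -/
def IsLogForm (B : H 1 →ₗ[k] H 1 →ₗ[k] k) : Prop :=
  ∃ (m a : ℕ) (w : H m) (τ : H (1 + 1 + m) →ₗ[k] k), w ∈ lg m a ∧ Fl (1 + 1 + m) (a + 1) = ⊤ ∧
    Fl (1 + 1 + m) (a + 2) = ⊥ ∧
    ∀ x y z v, cup 1 1 x y z → cup (1 + 1) m z w v → B x y = τ v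

/-- Symplectic monodromy: the algebra `H` is generated by the classes of degree at most 1 and by the
logarithmic classes, and there are alternating forms `B j` on `H 1`, given by logarithmic classes, such that
* `H 1` is the sum of the spaces `Vj B j`, and `x = 0` if `B j x = 0` for all `j` (in other words, `H 1` is the
  orthogonal direct sum of the spaces `Vj B j`, and `B j` is a nondegenerate form on `Vj B j`);
* every automorphism of `H 1` which preserves all the forms `B j` belongs to the group of the connection. -/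
def HasSymplecticMonodromy : Prop :=
  Generates k cup (fun n => {x : H n | n ≤ 1 ∨ ∃ j, x ∈ lg n j}) ∧
  ∃ (s : ℕ) (B : Fin s → H 1 →ₗ[k] H 1 →ₗ[k] k), (∀ j x, B j x x = 0) ∧
    (∀ x, (∀ j y, B j x y = 0) → x = 0) ∧ ⨆ j, Vj B j = ⊤ ∧ (∀ j, IsLogForm Fl cup lg (B j)) ∧
    ∀ g : H 1 →ₗ[k] H 1, (∀ j x y, B j (g x) (g y) = B j x y) →
      ∃ G : ∀ n, H n →ₗ[k] H n, IsGal nab cup lg G ∧ G 1 = g

variable {nab Fl cup lg}

/-- Symplectic monodromy implies general position. -/
theorem inGeneralPosition_of_symplectic [CharZero k] [∀ n, FiniteDimensional k (H n)]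
    (hF : IsHodge Fl cup lg) (h : HasSymplecticMonodromy nab Fl cup lg) :
    InGeneralPosition nab Fl cup lg := by
  obtain ⟨hgen, s, B, halt, hrad, hV, hlog, hbig⟩ := h
  refine inGeneralPosition_of_one hF hgen fun P hP => ?_
  obtain ⟨μ, hμ⟩ := hF.bil
  obtain ⟨g, hg, hgF⟩ := exists_move halt hrad hV (P 1 0) (Fl 1 1) (fun j x hx y hy => by
      obtain ⟨m, a, w, τ, hw, h1, h2, h3⟩ := hlog j
      rw [h3 x y _ _ ((hμ _ _ _ _ _).2 rfl) ((hμ _ _ _ _ _).2 rfl)]
      have h4 := hP.mul 1 1 0 0 x hx y hy _ ((hμ _ _ _ _ _).2 rfl)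
      have h5 := hP.mul (1 + 1) m (0 + 0) a _ h4 w (hP.log m a w hw) _ ((hμ _ _ _ _ _).2 rfl)
      have h6 := hP.dim (1 + 1 + m) (0 + 0 + a)
      rw [show 0 + 0 + a + 1 = a + 1 by omega, h1, finrank_top] at h6
      have h7 : P (1 + 1 + m) (0 + 0 + a) = ⊥ := Submodule.finrank_eq_zero.1 (by omega)
      rw [h7, Submodule.mem_bot] at h5
      rw [h5, map_zero]) (fun j x hx y hy => by
      obtain ⟨m, a, w, τ, hw, h1, h2, h3⟩ := hlog j
      rw [h3 x y _ _ ((hμ _ _ _ _ _).2 rfl) ((hμ _ _ _ _ _).2 rfl)]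
      have h4 := hF.mul 1 1 1 1 x hx y hy _ ((hμ _ _ _ _ _).2 rfl)
      have h5 := hF.mul (1 + 1) m (1 + 1) a _ h4 w (hF.log m a w hw) _ ((hμ _ _ _ _ _).2 rfl)
      rw [show 1 + 1 + a = a + 2 by omega, h2, Submodule.mem_bot] at h5
      rw [h5, map_zero]) (hP.dim 1 0)
  obtain ⟨G, hG, rfl⟩ := hbig g hg
  exact ⟨G, hG, hgF⟩

end three

end MPadcGP
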