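import Pool.Agent.Lib.MP_adc574_ag_GP.BigB
import Pool.Agent.Lib.MP_adc574_ag_GP.BigCc
import Pool.Agent.Lib.MP_adc574_ag_GP.Gen2

/-!
# Big monodromy on the primitive cohomology implies general position

Base version: `H n`, `n : ℕ`. Graded version: `H a`, `a : ℕ × M`.
-/

set_option autoImplicit false

namespace MPadcGP

section

variable {k : Type*} [Field k] {H : ℕ → Type*} [∀ n, AddCommGroup (H n)] [∀ n, Module k (H n)]
  (nab : ∀ n, Derivation ℤ k k → H n → H n → Prop) (Fl : ∀ n, ℕ → Submodule k (H n))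
  (cup : ∀ n n', H n → H n' → H (n + n') → Prop) (lg : ∀ n, ℕ → Set (H n))

/-- Big monodromy on the primitive cohomology: there is a Lefschetz operator `ℓ`, the product with a logarithmic
class of degree 1, and the primitive part of every `H n` is the direct sum of a space `T n` spanned by
logarithmic classes and a space `V n` with a bilinear form `B n` (nondegenerate alternating, nondegenerate
symmetric, or zero), such that every horizontal space of alternating forms on `H n` is stable under `g n` for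
every family `g` of automorphisms of determinant one which commutes with `ℓ`, is the identity on the `T m` and
isometric on the `V m`. -/
def HasBigPrimitiveMonodromy : Prop :=
  ∃ (d : ℕ) (ℓ : ∀ n, H n →ₗ[k] H (n + 2)) (T V : ∀ n, Submodule k (H n))
    (B : ∀ n, H n →ₗ[k] H n →ₗ[k] k) (j : ℕ → ℕ),
    (∃ L ∈ lg 2 1, ∀ n x, cup n 2 x L (ℓ n x)) ∧ IsLefschetz Fl d ℓ ∧
    IsPrimitiveSplit Fl d ℓ T V B ∧ (∀ n, IsAlgebraicPart Fl cup lg n (j n) (T n)) ∧
    ∀ (n r : ℕ) (W : Submodule k (H n [⋀^Fin r]→ₗ[k] k)), IsHorizontal (nab n) W →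
      ∀ ω ∈ W, ∀ g : ∀ n, H n →ₗ[k] H n, IsSpecialFamily ℓ T V B g → ω.compLinearMap (g n) ∈ W

variable {nab Fl cup lg}

/-- The filtrations `P`, shifted by one. -/
def shf (P : ∀ n, ℕ → Submodule k (H n)) (n : ℕ) : ℕ → Submodule k (H n)
  | 0 => ⊥
  | i + 1 => P n i

theorem inGeneralPosition_of_primitive [CharZero k] [∀ n, FiniteDimensional k (H n)]
    (h : HasBigPrimitiveMonodromy nab Fl cup lg) : InGeneralPosition nab Fl cup lg := by
  intro P hP n i W hW hω
  obtain ⟨ω, hωW, hω0, hωP⟩ := hω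
  obtain ⟨d, ℓ, T, V, B, j, ⟨L, hLlg, hLℓ⟩, hL, hS, hT, hst⟩ := h
  have hmono : ∀ n a b, a ≤ b → P n a ≤ P n b := fun n a b hab => monotone_nat_of_le_succ (hP.mono n) hab
  have hQ : IsOpp Fl (shf P) ℓ T := by
    refine ⟨fun n => rfl, fun n i => ?_, fun n i => ?_, fun n i => ?_, fun n i => ?_, fun n i => ?_⟩
    · match i with
      | 0 => exact bot_le
      | i + 1 => exact hP.mono n i
    · match i with
      | 0 => rw [hL.top, finrank_top]; change Module.finrank k (⊥ : Submodule k (H n)) + _ = _; rw [finrank_bot, zero_add]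
      | i + 1 => exact hP.dim n i
    · match i with
      | 0 => change Submodule.map (ℓ n) ⊥ ≤ _; rw [Submodule.map_bot]; exact bot_le
      | i + 1 =>
        rintro _ ⟨x, hx, rfl⟩
        exact hP.mul n 2 i 1 x hx L (hP.log 2 1 L hLlg) _ (hLℓ n x)
    · match i with
      | 0 => rw [hL.top]; exact le_sup_of_le_right (le_inf le_rfl le_top)
      | i + 1 =>
        by_cases hij : j n ≤ i
        · refine le_trans (le_inf le_rfl ?_) le_sup_left
          refine ((hT n).log.trans ?_).trans (hmono n (j n) i hij)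
          exact Submodule.span_le.2 fun x hx => hP.log n (j n) x hx
        · exact le_trans (le_inf le_rfl ((hT n).le (i + 1) (by omega))) le_sup_right
    · match i with
      | 0 => change T n ⊓ ⊥ ⊓ _ = ⊥; rw [inf_bot_eq, bot_inf_eq]
      | i + 1 =>
        by_cases hij : j n ≤ i
        · rw [eq_bot_iff, ← (hT n).inf (i + 1) (by omega)]
          exact le_inf (inf_le_left.trans inf_le_left) inf_le_right
        · rw [eq_bot_iff]
          rintro x ⟨⟨hxT, hxP⟩, -⟩
          by_contra hx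
          obtain ⟨n', j', y, hy, z, hz, hz0, hFl⟩ := (hT n).dual x hxT
            fun h0 => hx (by rw [h0]; exact Submodule.zero_mem _)
          have h1 := hP.mul n n' i j' x hxP y (hP.log n' j' y hy) z hz
          have h2 := hP.dim (n + n') (i + j')
          rw [hFl (i + j' + 1) (by omega), finrank_top] at h2
          have h3 : P (n + n') (i + j') = ⊥ := Submodule.finrank_eq_zero.1 (by omega)
          rw [h3, Submodule.mem_bot] at h1
          exact hz0 h1
  obtain ⟨g, hg, hgPF⟩ := chain hL hS hQ n (i + 1)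
  obtain ⟨x, hx, hne⟩ := exists_nonzero rfl (hP.dim n i) hω0 hωP hgPF
  exact ⟨ω.compLinearMap (g n), hst n _ W hW ω hωW g hg, x, hx, hne⟩

end

end MPadcGP

namespace MPadcGP2

open MPadcGP

section

variable {k : Type*} [Field k] {ι : Type*} [Add ι] {H : ι → Type*} [∀ a, AddCommGroup (H a)]
  [∀ a, Module k (H a)] (nab : ∀ a, Derivation ℤ k k → H a → H a → Prop)
  (Fl : ∀ a, ℕ → Submodule k (H a)) (cup : ∀ a b, H a → H b → H (a + b) → Prop)
  (lg : ∀ a, ℕ → Set (H a))

/-- The subspace `T` of `H a` consists of classes of type `(j, j)`: it is spanned by logarithmic classes of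
degree `j`, lies in `Fl a j`, meets `Fl a (j + 1)` in zero, and for every nonzero `x` in `T` there is a
logarithmic class `y` of some degree `j'` such that `x y ≠ 0` lies in a space which is equal to its subspace
`Fl (j + j')`. -/
structure IsAlgebraicPart (a : ι) (j : ℕ) (T : Submodule k (H a)) : Prop where
  log : T ≤ Submodule.span k (lg a j)
  le : ∀ i, i ≤ j → T ≤ Fl a i
  inf : ∀ i, j < i → T ⊓ Fl a i = ⊥
  dual : ∀ x ∈ T, x ≠ 0 → ∃ (b : ι) (j' : ℕ), ∃ y ∈ lg b j', ∃ z, cup a b x y z ∧ z ≠ 0 ∧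
    ∀ i, i ≤ j + j' → Fl (a + b) i = ⊤

/-- Big monodromy: every `H a` is the direct sum of a space `T` spanned by logarithmic classes and a space `V`
with a bilinear form `B` (nondegenerate alternating, nondegenerate symmetric, or zero) such that every
horizontal space of alternating forms is stable under all isometries of determinant one of `V`, extended by
the identity of `T`. If `B` is symmetric, the image of `Fl a i` in `V` is not of dimension `(dim V) / 2`. -/
def HasBigMonodromy : Prop :=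
  ∀ a : ι, ∃ (T V : Submodule k (H a)) (B : H a →ₗ[k] H a →ₗ[k] k) (j : ℕ),
    IsCompl T V ∧ IsAlgebraicPart Fl cup lg a j T ∧ IsFormOn V B ∧
    ((∃ x ∈ V, B x x ≠ 0) → ∀ i, 2 * Module.finrank k (Fl a i) ≠
      Module.finrank k V + 2 * Module.finrank k ↥(T ⊓ Fl a i)) ∧
    ∀ (r : ℕ) (W : Submodule k (H a [⋀^Fin r]→ₗ[k] k)), IsHorizontal (nab a) W →
      ∀ ω ∈ W, ∀ g : H a →ₗ[k] H a, IsSpecial T V B g → ω.compLinearMap g ∈ W

variable {nab Fl cup lg}

theorem IsAlgebraicPart.le_sup {a : ι} {j : ℕ} {T : Submodule k (H a)} (hT : IsAlgebraicPart Fl cup lg a j T)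
    {P : ∀ a, ℕ → Submodule k (H a)} (hP : IsConjugateType Fl cup lg P) (i : ℕ) :
    T ≤ (T ⊓ P a i) ⊔ (T ⊓ Fl a (i + 1)) := by
  have hmono : ∀ b c, b ≤ c → P a b ≤ P a c := fun b c hbc => monotone_nat_of_le_succ (hP.mono a) hbc
  by_cases hij : j ≤ i
  · refine le_trans (le_inf le_rfl ?_) le_sup_left
    refine (hT.log.trans ?_).trans (hmono j i hij)
    exact Submodule.span_le.2 fun x hx => hP.log a j x hx
  · exact le_trans (le_inf le_rfl (hT.le (i + 1) (by omega))) le_sup_right

theorem IsAlgebraicPart.inf_bot [∀ a, FiniteDimensional k (H a)] {a : ι} {j : ℕ} {T : Submodule k (H a)}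
    (hT : IsAlgebraicPart Fl cup lg a j T)
    {P : ∀ a, ℕ → Submodule k (H a)} (hP : IsConjugateType Fl cup lg P) (i : ℕ) :
    T ⊓ P a i ⊓ Fl a (i + 1) = ⊥ := by
  by_cases hij : j ≤ i
  · rw [eq_bot_iff, ← hT.inf (i + 1) (by omega)]
    exact le_inf (inf_le_left.trans inf_le_left) inf_le_right
  · rw [eq_bot_iff]
    rintro x ⟨⟨hxT, hxP⟩, -⟩
    by_contra hx
    obtain ⟨b, j', y, hy, z, hz, hz0, hFl⟩ := hT.dual x hxT
      fun h0 => hx (by rw [h0]; exact Submodule.zero_mem _)
    have h1 := hP.mul a b i j' x hxP y (hP.log b j' y hy) z hz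
    have h2 := hP.dim (a + b) (i + j')
    rw [hFl (i + j' + 1) (by omega), finrank_top] at h2
    have h3 : P (a + b) (i + j') = ⊥ := Submodule.finrank_eq_zero.1 (by omega)
    rw [h3, Submodule.mem_bot] at h1
    exact hz0 h1

/-- Big monodromy implies general position. -/
theorem inGeneralPosition_of_big [CharZero k] [∀ a, FiniteDimensional k (H a)]
    (h : HasBigMonodromy nab Fl cup lg) : InGeneralPosition nab Fl cup lg := by
  intro P hP a i W hW hω
  obtain ⟨ω, hωW, hω0, hωP⟩ := hω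
  obtain ⟨T, V, B, j, hTV, hT, hB, hpar, hst⟩ := h a
  obtain ⟨g, hg, hgPF⟩ := exists_special hTV hB (hP.dim a i) (hT.le_sup hP i) (hT.inf_bot hP i)
    fun hx => hpar hx (i + 1)
  obtain ⟨x, hx, hne⟩ := exists_nonzero rfl (hP.dim a i) hω0 hωP hgPF
  exact ⟨ω.compLinearMap g, hst _ W hW ω hωW g hg, x, hx, hne⟩

end

section

variable {k : Type*} [Field k] {M : Type*} [AddCommGroup M] {H : ℕ × M → Type*}
  [∀ a, AddCommGroup (H a)] [∀ a, Module k (H a)] (nab : ∀ a, Derivation ℤ k k → H a → H a → Prop)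
  (Fl : ∀ a, ℕ → Submodule k (H a)) (cup : ∀ a b, H a → H b → H (a + b) → Prop)
  (lg : ∀ a, ℕ → Set (H a))

/-- Big monodromy on the primitive cohomology: there is a Lefschetz operator `ℓ`, the product with a logarithmic
class of degree 1 and weight 0, and the primitive part of every `H (n, μ)` is the direct sum of a space
`T (n, μ)` spanned by logarithmic classes and a space `V (n, μ)` with a bilinear form `B (n, μ)` (nondegenerate
alternating, nondegenerate symmetric, or zero), such that every horizontal space of alternating forms on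
`H (n, μ)` is stable under `g n` for every family `g m : H (m, μ) → H (m, μ)` of automorphisms of determinant
one which commutes with `ℓ`, is the identity on the `T (m, μ)` and isometric on the `V (m, μ)`. -/
def HasBigPrimitiveMonodromy : Prop :=
  ∃ (d : ℕ) (ℓ : ∀ (μ : M) (n : ℕ), H (n, μ) →ₗ[k] H (n + 2, μ)) (T V : ∀ a, Submodule k (H a))
    (B : ∀ a, H a →ₗ[k] H a →ₗ[k] k) (j : ℕ × M → ℕ),
    (∃ L ∈ lg (2, 0) 1, ∀ μ n x, ∃ z, cup (n, μ) (2, 0) x L z ∧ HEq z (ℓ μ n x)) ∧
    (∀ μ, IsLefschetz (fun n => Fl (n, μ)) d (ℓ μ) ∧ IsPrimitiveSplit (fun n => Fl (n, μ)) d (ℓ μ)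
      (fun n => T (n, μ)) (fun n => V (n, μ)) fun n => B (n, μ)) ∧
    (∀ a, IsAlgebraicPart Fl cup lg a (j a) (T a)) ∧
    ∀ (μ : M) (n r : ℕ) (W : Submodule k (H (n, μ) [⋀^Fin r]→ₗ[k] k)), IsHorizontal (nab (n, μ)) W →
      ∀ ω ∈ W, ∀ g : ∀ n, H (n, μ) →ₗ[k] H (n, μ), IsSpecialFamily (ℓ μ) (fun n => T (n, μ))
        (fun n => V (n, μ)) (fun n => B (n, μ)) g → ω.compLinearMap (g n) ∈ W

variable {nab Fl cup lg}

theorem mem_of_heq {ι : Type*} {H : ι → Type*} [∀ a, AddCommGroup (H a)] [∀ a, Module k (H a)]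
    (P : ∀ a, Submodule k (H a)) {a b : ι} (e : a = b) {z : H a} {w : H b} (h : HEq z w) (hz : z ∈ P a) :
    w ∈ P b := by
  subst e
  rw [← eq_of_heq h]
  exact hz

theorem inGeneralPosition_of_primitive [CharZero k] [∀ a, FiniteDimensional k (H a)]
    (h : HasBigPrimitiveMonodromy nab Fl cup lg) : InGeneralPosition nab Fl cup lg := by
  rintro P hP ⟨n, μ⟩ i W hW hω
  obtain ⟨ω, hωW, hω0, hωP⟩ := hω
  obtain ⟨d, ℓ, T, V, B, j, ⟨L, hLlg, hLℓ⟩, hLS, hT, hst⟩ := h
  obtain ⟨hL, hS⟩ := hLS μ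
  have hQ : IsOpp (fun n => Fl (n, μ)) (shf fun n => P (n, μ)) (ℓ μ) (fun n => T (n, μ)) := by
    refine ⟨fun n => rfl, fun n i => ?_, fun n i => ?_, fun n i => ?_, fun n i => ?_, fun n i => ?_⟩
    · match i with
      | 0 => exact bot_le
      | i + 1 => exact hP.mono (n, μ) i
    · match i with
      | 0 =>
        rw [hL.top, finrank_top]
        change Module.finrank k (⊥ : Submodule k (H (n, μ))) + _ = _
        rw [finrank_bot, zero_add]
      | i + 1 => exact hP.dim (n, μ) i
    · match i with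
      | 0 => change Submodule.map (ℓ μ n) ⊥ ≤ _; rw [Submodule.map_bot]; exact bot_le
      | i + 1 =>
        rintro _ ⟨x, hx, rfl⟩
        obtain ⟨z, hz, hzℓ⟩ := hLℓ μ n x
        exact mem_of_heq (fun a => P a (i + 1)) (by rw [Prod.mk_add_mk, add_zero]) hzℓ
          (hP.mul (n, μ) (2, 0) i 1 x hx L (hP.log (2, 0) 1 L hLlg) z hz)
    · match i with
      | 0 => rw [hL.top]; exact le_sup_of_le_right (le_inf le_rfl le_top)
      | i + 1 => exact (hT (n, μ)).le_sup hP i
    · match i with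
      | 0 => change T (n, μ) ⊓ ⊥ ⊓ _ = ⊥; rw [inf_bot_eq, bot_inf_eq]
      | i + 1 => exact (hT (n, μ)).inf_bot hP i
  obtain ⟨g, hg, hgPF⟩ := chain hL hS hQ n (i + 1)
  obtain ⟨x, hx, hne⟩ := exists_nonzero rfl (hP.dim (n, μ) i) hω0 hωP hgPF
  exact ⟨ω.compLinearMap (g n), hst μ n _ W hW ω hωW g hg, x, hx, hne⟩

end

end MPadcGP2
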