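import Pool.Agent.Lib.MP_adc574_ag_GP.BigF

/-!
# Big monodromy on the primitive cohomology, short form

`IsBig`: one structure; the properties which follow from the standard properties `IsHodgeW` of the Hodge filtration
are left out.
-/

set_option autoImplicit false

namespace MPadcGP2

open MPadcGP

section

variable {k : Type*} [Field k] {M : Type*} [AddCommGroup M] {H : ℕ × M → Type*}
  [∀ a, AddCommGroup (H a)] [∀ a, Module k (H a)] (nab : ∀ a, Derivation ℤ k k → H a → H a → Prop)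
  (Fl : ∀ a, ℕ → Submodule k (H a)) (cup : ∀ a b, H a → H b → H (a + b) → Prop)
  (lg : ∀ a, ℕ → Set (H a))

/-- The standard properties of the Hodge filtration of a cohomology algebra graded by degree and weight. -/
structure IsHodgeW : Prop where
  anti : ∀ a i, Fl a (i + 1) ≤ Fl a i
  zero : ∀ a, Fl a 0 = ⊤
  top : ∀ (a : ℕ × M) (i : ℕ), a.1 < i → Fl a i = ⊥
  mul : ∀ a b i j, ∀ x ∈ Fl a i, ∀ y ∈ Fl b j, ∀ z, cup a b x y z → z ∈ Fl (a + b) (i + j)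
  log : ∀ a j, ∀ x ∈ lg a j, x ∈ Fl a j

/-- Big monodromy on the primitive cohomology (`d` the dimension, `ℓ` the Lefschetz operator, `T` the space of
primitive algebraic classes, `V` the big part with the form `B`). -/
structure IsBig (d : ℕ) (ℓ : ∀ (μ : M) (n : ℕ), H (n, μ) →ₗ[k] H (n + 2, μ)) (T V : ∀ a, Submodule k (H a))
    (B : ∀ a, H a →ₗ[k] H a →ₗ[k] k) (j : ℕ × M → ℕ) : Prop where
  lef : ∃ L ∈ lg (2, 0) 1, ∀ μ n x, ∃ z, cup (n, μ) (2, 0) x L z ∧ HEq z (ℓ μ n x)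
  zero : ∀ a : ℕ × M, 2 * d < a.1 → Subsingleton (H a)
  bij : ∀ μ n a, n + a = d → Function.Bijective (itr (ℓ μ) n a)
  strict : ∀ μ n a, n + a = d → ∀ i, (Fl (n, μ) i).map (itr (ℓ μ) n a) = Fl (n + 2 * a, μ) (i + a)
  disj : ∀ a, Disjoint (T a) (V a)
  prim : ∀ μ n a, n + a = d → T (n, μ) ⊔ V (n, μ) = LinearMap.ker (itr (ℓ μ) n (a + 1))
  high : ∀ a : ℕ × M, d < a.1 → T a = ⊥ ∧ V a = ⊥
  alg : ∀ a, T a ≤ Submodule.span k (lg a (j a))
  dual : ∀ a : ℕ × M, ∀ x ∈ T a, x ≠ 0 → ∃ (b : ℕ × M) (j' : ℕ), a.1 + b.1 = 2 * d ∧ j a + j' = d ∧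
    ∃ y ∈ lg b j', ∃ z, cup a b x y z ∧ z ≠ 0
  form : ∀ a, IsFormOn (V a) (B a)
  parity : ∀ a, (∃ x ∈ V a, B a x x ≠ 0) → ∀ i, 2 * Module.finrank k ↥((T a ⊔ V a) ⊓ Fl a i) ≠
    Module.finrank k (V a) + 2 * Module.finrank k ↥(T a ⊓ Fl a i)
  stable : ∀ (μ : M) (n r : ℕ) (W : Submodule k (H (n, μ) [⋀^Fin r]→ₗ[k] k)), IsHorizontal (nab (n, μ)) W →
    ∀ ω ∈ W, ∀ g : ∀ n, H (n, μ) →ₗ[k] H (n, μ), IsSpecialFamily (ℓ μ) (fun n => T (n, μ))
      (fun n => V (n, μ)) (fun n => B (n, μ)) g → ω.compLinearMap (g n) ∈ W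

variable {nab Fl cup lg}

theorem primitive_of_isBig [∀ a, FiniteDimensional k (H a)] (hF : IsHodgeW Fl cup lg) {d : ℕ}
    {ℓ : ∀ (μ : M) (n : ℕ), H (n, μ) →ₗ[k] H (n + 2, μ)}
    {T V : ∀ a, Submodule k (H a)} {B : ∀ a, H a →ₗ[k] H a →ₗ[k] k} {j : ℕ × M → ℕ}
    (h : IsBig nab Fl cup lg d ℓ T V B j) : HasBigPrimitiveMonodromy nab Fl cup lg := by
  have hanti : ∀ a b c, b ≤ c → Fl a c ≤ Fl a b := fun a b c hbc =>
    antitone_nat_of_succ_le (f := Fl a) (hF.anti a) hbc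
  have hprim : ∀ μ n, T (n, μ) ⊔ V (n, μ) = MPadcGP.prim (ℓ μ) d n := by
    intro μ n
    by_cases hn : n ≤ d
    · obtain ⟨a, ha⟩ := Nat.exists_eq_add_of_le hn
      rw [h.prim μ n a ha.symm]
      ext x
      rw [mem_prim ha.symm, LinearMap.mem_ker]
    · rw [(h.high (n, μ) (by omega)).1, (h.high (n, μ) (by omega)).2, prim_of_lt (by omega), bot_sup_eq]
  have htop : ∀ c : ℕ × M, c.1 = 2 * d → Fl c d = ⊤ ∧ Fl c (d + 1) = ⊥ := by
    rintro ⟨n, μ⟩ hn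
    obtain rfl : n = 0 + 2 * d := by omega
    constructor
    · have h1 := h.strict μ 0 d (Nat.zero_add d) 0
      rw [hF.zero, Submodule.map_top, LinearMap.range_eq_top.2 (h.bij μ 0 d (Nat.zero_add d)).2, Nat.zero_add d] at h1
      exact h1.symm
    · have h1 := h.strict μ 0 d (Nat.zero_add d) 1
      rw [hF.top (0, μ) 1 Nat.zero_lt_one, Submodule.map_bot, Nat.add_comm 1 d] at h1
      exact h1.symm
  refine ⟨d, ℓ, T, V, B, j, h.lef, fun μ => ⟨⟨fun n => hF.zero _, fun n hn => h.zero (n, μ) hn,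
    fun n a hn => h.bij μ n a hn, ?_, fun n a hn i => h.strict μ n a hn i⟩, ⟨fun n => h.disj _, hprim μ,
    fun n => h.form _, fun n hx i => ?_⟩⟩, fun a => ⟨h.alg a, ?_, ?_, ?_⟩, h.stable⟩
  · rintro n i _ ⟨x, hx, rfl⟩
    obtain ⟨L, hL, hLℓ⟩ := h.lef
    obtain ⟨z, hz, hzℓ⟩ := hLℓ μ n x
    exact mem_of_heq (fun a => Fl a (i + 1)) (by rw [Prod.mk_add_mk, add_zero]) hzℓ
      (hF.mul (n, μ) (2, 0) i 1 x hx L (hF.log (2, 0) 1 L hL) z hz)
  · have h1 := h.parity (n, μ) hx i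
    rwa [hprim μ n] at h1
  · intro i hi
    exact ((h.alg a).trans (Submodule.span_le.2 fun x hx => hF.log a (j a) x hx)).trans (hanti a i (j a) hi)
  · intro i hi
    rw [eq_bot_iff]
    rintro x ⟨hx, hxF⟩
    by_contra hx0
    obtain ⟨b, j', hb, hj, y, hy, z, hz, hz0⟩ := h.dual a x hx
      fun h0 => hx0 (by rw [h0]; exact Submodule.zero_mem _)
    have h1 := hanti (a + b) (d + 1) (i + j') (by omega)
      (hF.mul a b i j' x hxF y (hF.log b j' y hy) z hz)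
    rw [(htop (a + b) hb).2, Submodule.mem_bot] at h1
    exact hz0 h1
  · intro x hx hx0
    obtain ⟨b, j', hb, hj, y, hy, z, hz, hz0⟩ := h.dual a x hx hx0
    refine ⟨b, j', y, hy, z, hz, hz0, fun i hi => ?_⟩
    rw [eq_top_iff, ← (htop (a + b) hb).1]
    exact hanti (a + b) i d (by omega)

/-- Big monodromy on the primitive cohomology implies general position. -/
theorem inGeneralPosition_of_isBig [CharZero k] [∀ a, FiniteDimensional k (H a)]
    (hF : IsHodgeW Fl cup lg) {d : ℕ} {ℓ : ∀ (μ : M) (n : ℕ), H (n, μ) →ₗ[k] H (n + 2, μ)}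
    {T V : ∀ a, Submodule k (H a)} {B : ∀ a, H a →ₗ[k] H a →ₗ[k] k} {j : ℕ × M → ℕ}
    (h : IsBig nab Fl cup lg d ℓ T V B j) : InGeneralPosition nab Fl cup lg :=
  inGeneralPosition_of_primitive (primitive_of_isBig hF h)

end

end MPadcGP2
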