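import Pool.Agent.Lib.MP_adc574_ag_GP.BigE
import Pool.Agent.Lib.MP_adc574_ag_GP.GlCon

/-!
# The standard properties of the Hodge filtration

`CovD.isHodge`: the de Rham cohomology with the Hodge filtration, the product and the logarithmic classes has the
properties `IsHodge` (used in the criteria of big monodromy).
-/

set_option autoImplicit false

namespace MPadcGP

universe u v

namespace CovD

section

variable {A : Type u} [CommRing A] {n : ℕ} (X : CovD.{u, v} A n)

/-- The product of cocycles. -/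
noncomputable def cupZ (m m' : ℕ) : ↥(X.Zc m) →ₗ[A] ↥(X.Zc m') →ₗ[A] X.HdR (m + m') :=
  LinearMap.mk₂ A (fun a b => X.cl (m + m') ⟨X.cup (a : X.Ch) (b : X.Ch), cup_mem_Zc a.2 b.2⟩)
    (fun a a' b => by
      rw [← map_add]
      congr 1
      exact Subtype.ext (X.cup_add_left _ _ _))
    (fun r a b => by
      rw [← map_smul]
      congr 1
      exact Subtype.ext (cup_smul_left r _ _))
    (fun a b b' => by
      rw [← map_add]
      congr 1
      exact Subtype.ext (X.cup_add_right _ _ _))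
    (fun r a b => by
      rw [← map_smul]
      congr 1
      exact Subtype.ext (cup_smul_right r _ _))

theorem cupZ_apply (m m' : ℕ) (a : ↥(X.Zc m)) (b : ↥(X.Zc m')) : X.cupZ m m' a b =
    X.cl (m + m') ⟨X.cup (a : X.Ch) (b : X.Ch), cup_mem_Zc a.2 b.2⟩ := rfl

/-- The product is bilinear on the cohomology. -/
theorem exists_cupH (m m' : ℕ) : ∃ μ : X.HdR m →ₗ[A] X.HdR m' →ₗ[A] X.HdR (m + m'),
    ∀ a b, μ (X.cl m a) (X.cl m' b) = X.cupZ m m' a b := by
  have h1 : (X.Bc m').submoduleOf (X.Zc m') ≤ LinearMap.ker (X.cupZ m m').flip := by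
    intro b hb
    rw [LinearMap.mem_ker]
    refine LinearMap.ext fun a => ?_
    rw [LinearMap.flip_apply, cupZ_apply, LinearMap.zero_apply, cl_eq_zero]
    exact cup_Bc_right a.2 hb
  let f1 : X.HdR m' →ₗ[A] ↥(X.Zc m) →ₗ[A] X.HdR (m + m') :=
    ((X.Bc m').submoduleOf (X.Zc m')).liftQ (X.cupZ m m').flip h1
  have h2 : (X.Bc m).submoduleOf (X.Zc m) ≤ LinearMap.ker f1.flip := by
    intro a ha
    rw [LinearMap.mem_ker]
    refine LinearMap.ext fun y => ?_
    obtain ⟨b, rfl⟩ := X.cl_surjective m' y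
    change X.cupZ m m' a b = 0
    rw [cupZ_apply, cl_eq_zero]
    exact cup_Bc_left ha b.2
  exact ⟨((X.Bc m).submoduleOf (X.Zc m)).liftQ f1.flip h2, fun a b => rfl⟩

theorem mem_logClasses {m j : ℕ} {x : X.HdR m} (hx : x ∈ X.logClasses m j) :
    ∃ c : ↥(X.Zc m), X.cl m c = x ∧ IsLogCoc X m j c := by
  obtain ⟨c, hc, h⟩ := hx
  exact ⟨c, hc, c.2, h⟩

theorem logCoc_mem_Fi {m j : ℕ} {c : X.Ch} (h : IsLogCoc X m j c) : c ∈ X.Fi j m :=
  ⟨h.1.1, fun J hJ => (h.2 J).2 (by omega)⟩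

end

/-- The standard properties of the Hodge filtration. -/
theorem isHodge {k : Type u} [Field k] {n : ℕ} (X : CovD.{u, v} k n) :
    IsHodge (H := fun m => X.HdR m) (fun m i => X.Fil m i) (fun m m' => X.cupRel m m')
      (fun m j => X.logClasses m j) where
  anti m i x hx := by
    obtain ⟨c, hc, hcx⟩ := mem_Fil.1 hx
    exact mem_Fil.2 ⟨c, Fi_anti (Nat.le_succ i) m hc, hcx⟩
  zero m := by
    rw [eq_top_iff]
    intro x _
    obtain ⟨c, rfl⟩ := X.cl_surjective m x
    exact mem_Fil.2 ⟨c, by rw [Fi_zero]; exact c.2.1, rfl⟩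
  top m i hmi := by
    rw [eq_bot_iff]
    intro x hx
    obtain ⟨c, hc, rfl⟩ := mem_Fil.1 hx
    have h1 : c = 0 := by
      apply Subtype.ext
      funext J
      rcases J.eq_empty_or_nonempty with hJ | hJ
      · subst hJ
        exact c.2.1.1
      · have h2 := hJ.card_pos
        exact hc.2 J (by omega)
    rw [h1, map_zero, Submodule.mem_bot]
  mul m m' i i' x hx y hy z hz := by
    obtain ⟨a, b, c, hab, ha, hb, rfl⟩ := hz
    obtain ⟨a', ha', hax⟩ := mem_Fil.1 hx
    obtain ⟨b', hb', hby⟩ := mem_Fil.1 hy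
    refine mem_Fil.2 ⟨⟨_, cup_mem_Zc a'.2 b'.2⟩, cup_mem_Fi ha' hb', ?_⟩
    rw [cl_eq]
    rw [← hax, cl_eq] at ha
    rw [← hby, cl_eq] at hb
    rw [← hab]
    have h1 := cup_sub_mem_Bc b.2 a'.2 ha hb
    have h2 : X.cup (a' : X.Ch) (b' : X.Ch) - X.cup (a : X.Ch) (b : X.Ch) =
        -(X.cup (a : X.Ch) (b : X.Ch) - X.cup (a' : X.Ch) (b' : X.Ch)) := (neg_sub _ _).symm
    rw [h2]
    exact Submodule.neg_mem _ h1
  log m j x hx := by
    obtain ⟨c, hc, h⟩ := X.mem_logClasses hx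
    exact mem_Fil.2 ⟨c, X.logCoc_mem_Fi h, hc⟩
  bil := by
    choose μ hμ using fun m m' => X.exists_cupH m m'
    refine ⟨μ, fun m m' x y z => ⟨?_, ?_⟩⟩
    · rintro ⟨a, b, c, hab, rfl, rfl, rfl⟩
      rw [hμ, cupZ_apply]
      congr 1
      exact Subtype.ext hab
    · rintro rfl
      obtain ⟨a, rfl⟩ := X.cl_surjective m x
      obtain ⟨b, rfl⟩ := X.cl_surjective m' y
      have h1 := hμ m m' a b
      rw [cupZ_apply] at h1
      exact ⟨a, b, ⟨X.cup (a : X.Ch) (b : X.Ch), cup_mem_Zc a.2 b.2⟩, rfl, rfl, rfl, h1.symm⟩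

/-- Symplectic monodromy of the de Rham cohomology. -/
def HasSymplecticMonodromy {k : Type u} [Field k] {n : ℕ} (X : CovD.{u, v} k n) : Prop :=
  MPadcGP.HasSymplecticMonodromy (H := fun m => X.HdR m) (fun m => X.gaussManin m)
    (fun m i => X.Fil m i) (fun m m' => X.cupRel m m') (fun m j => X.logClasses m j)

theorem isGeneral_of_symplectic {k : Type u} [Field k] [CharZero k] {n : ℕ} (X : CovD.{u, v} k n)
    (hfin : ∀ m, FiniteDimensional k (X.HdR m)) (h : X.HasSymplecticMonodromy) : X.IsGeneral :=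
  haveI := hfin
  inGeneralPosition_of_symplectic (H := fun m => X.HdR m) X.isHodge h

end CovD

end MPadcGP
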