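import Pool.Agent.Lib.MP_adc574_ag_GP.G2Lin

/-!
# REL: general position relative to a family of subspaces

As Gen2.lean and G2Lin.lean, with subspaces `T a` of the `H a` (the image of the cohomology of a scheme `Y`
which contains `X` and is known to be ordinary) on which the filtrations are opposite to the Hodge filtration.
-/

set_option autoImplicit false

namespace MPadcGP3

open MPadcGP

section

variable {k : Type*} [Field k] {ι : Type*} [Add ι] {H : ι → Type*} [∀ a, AddCommGroup (H a)]
  [∀ a, Module k (H a)] (nab : ∀ a, Derivation ℤ k k → H a → H a → Prop)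
  (Fl : ∀ a, ℕ → Submodule k (H a)) (cup : ∀ a b, H a → H b → H (a + b) → Prop)
  (lg : ∀ a, ℕ → Set (H a)) (T : ∀ a, Submodule k (H a))

/-- The filtrations `P a` of the spaces `H a` are of conjugate type: increasing, of the dimensions
complementary to those of the filtrations `Fl a`, multiplicative, `P a j` contains `lg a j`, and on `T a` the
filtration is opposite to `Fl a`. -/
structure IsConjugateType (P : ∀ a, ℕ → Submodule k (H a)) : Prop where
  mono : ∀ a i, P a i ≤ P a (i + 1)
  dim : ∀ a i, Module.finrank k (P a i) + Module.finrank k (Fl a (i + 1)) = Module.finrank k (H a)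
  mul : ∀ a b i j, ∀ x ∈ P a i, ∀ y ∈ P b j, ∀ z, cup a b x y z → z ∈ P (a + b) (i + j)
  log : ∀ a j, ∀ x ∈ lg a j, x ∈ P a j
  rel : ∀ a i, T a ≤ (P a i ⊓ T a) ⊔ (Fl a (i + 1) ⊓ T a)

/-- General position relative to `T`. -/
def InGeneralPosition : Prop :=
  ∀ P : ∀ a, ℕ → Submodule k (H a), IsConjugateType Fl cup lg T P → ∀ (a : ι) (i : ℕ),
    ∀ W : Submodule k (H a [⋀^Fin (Module.finrank k (Fl a (i + 1)))]→ₗ[k] k),
      IsHorizontal (nab a) W →
      (∃ ω ∈ W, ω ≠ 0 ∧ ∀ x, (∃ u, x u ∈ P a i) → ω x = 0) →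
        ∃ ω ∈ W, ∃ x, (∀ u, x u ∈ Fl a (i + 1)) ∧ ω x ≠ 0

end

end MPadcGP3

namespace MPadcGP

universe u v

/-- Linear data over the ring `A`, with vectors `Tv t u` which generate the subspaces `T t`. -/
structure LinT (ι : Type) [Add ι] (A : Type u) [CommRing A] extends LinW ι A where
  /-- The index sets of the generators. -/
  τ : ι → Type
  [finτ : ∀ t, Fintype (τ t)]
  /-- The generators. -/
  Tv : ∀ t, τ t → β t → A

attribute [instance] LinT.finτ

namespace LinT

section

variable {ι : Type} [Add ι] {A : Type u} [CommRing A] (X : LinT ι A) {E : Type v} [Field E]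
  (φ : A →+* E)

/-- Filtrations of conjugate type. -/
structure IsConj (P : ∀ t, ℕ → Submodule E (X.β t → E)) : Prop where
  conj : X.toLinW.IsConj φ P
  rel : ∀ t i (u : X.τ t), ∃ s : X.τ t → E, (∑ v, s v • fun b => φ (X.Tv t v b)) ∈ P t i ∧
    ((fun b => φ (X.Tv t u b)) - ∑ v, s v • fun b => φ (X.Tv t v b)) ∈ X.toLinW.fl E t (i + 1)

end

section

variable {ι : Type} [Add ι] {A : Type u} [CommRing A] (X : LinT ι A) {k : Type u} [Field k]
  (j : A →+* k)

/-- The linear data are in general position over `k`. -/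
def Gen : Prop :=
  MPadcGP3.InGeneralPosition (X.toLinW.nabk j) (fun t i => X.toLinW.fl k t i)
    (fun s t x y z => z = X.toLinW.mul j s t x y)
    (fun t i => {x | ∃ g ∈ X.Lg t i, x = fun b => j (g b)})
    (fun t => Submodule.span k (Set.range fun u => fun b => j (X.Tv t u b)))

end

end LinT

end MPadcGP
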