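import Pool.Agent.Lib.MP_adc574_ag_GP.BigG
import Pool.Agent.Lib.MP_adc574_ag_GP.Gen3

/-!
# REL: big monodromy relative to `T` implies general position relative to `T` (helper4)

`IsBigOn nab Fl a T V B`: `H a` is the direct sum of `T` and `V`, and the horizontal spaces of alternating forms on `H a`
are stable under the isometries of determinant one of `V`, extended by the identity of `T`.
`IsNondeg Fl cup T`: the product of `T a` and `T b` into a space of type `(N, N)` is nondegenerate.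
-/

set_option autoImplicit false

namespace MPadcGP3

open MPadcGP

section

variable {k : Type*} [Field k] {ι : Type*} [Add ι] {H : ι → Type*} [∀ a, AddCommGroup (H a)]
  [∀ a, Module k (H a)] (nab : ∀ a, Derivation ℤ k k → H a → H a → Prop)
  (Fl : ∀ a, ℕ → Submodule k (H a)) (cup : ∀ a b, H a → H b → H (a + b) → Prop)
  (lg : ∀ a, ℕ → Set (H a)) (T : ∀ a, Submodule k (H a))

/-- The product is nondegenerate on the spaces `T a`: for `x ≠ 0` in `T a` there is `y` in some `T b` with `x y ≠ 0`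
in a space `H (a + b)` of type `(N, N)`. -/
def IsNondeg : Prop :=
  ∀ a, ∀ x ∈ T a, x ≠ 0 → ∃ (b : ι) (N : ℕ), Fl (a + b) N = ⊤ ∧ Fl (a + b) (N + 1) = ⊥ ∧
    ∃ y ∈ T b, ∃ z, cup a b x y z ∧ z ≠ 0

/-- Big monodromy on the complement `V` of `T a` in `H a`: every horizontal space of alternating forms on `H a` is stable
under the isometries of determinant one of the form `B` on `V`, extended by the identity of `T a`. The form is
nondegenerate and symmetric or alternating, or zero; if it is symmetric, the image of `Fl a i` in `V` is not of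
dimension `(dim V) / 2`. -/
def IsBigOn (a : ι) : Prop :=
  ∃ (V : Submodule k (H a)) (B : H a →ₗ[k] H a →ₗ[k] k), IsCompl (T a) V ∧ IsFormOn V B ∧
    ((∃ x ∈ V, B x x ≠ 0) → ∀ i, 2 * Module.finrank k (Fl a i) ≠
      Module.finrank k V + 2 * Module.finrank k ↥(T a ⊓ Fl a i)) ∧
    ∀ (r : ℕ) (W : Submodule k (H a [⋀^Fin r]→ₗ[k] k)), IsHorizontal (nab a) W →
      ∀ ω ∈ W, ∀ g : H a →ₗ[k] H a, IsSpecial (T a) V B g → ω.compLinearMap g ∈ W

variable {nab Fl cup lg T}

/-- If `T a` is everything, the condition is empty. -/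
theorem isBigOn_of_top {a : ι} (h : T a = ⊤) : IsBigOn nab Fl T a := by
  refine ⟨⊥, 0, by rw [h]; exact isCompl_top_bot, Or.inl fun x _ y _ => rfl, ?_, fun r W _ ω hω g hg => ?_⟩
  · rintro ⟨x, -, hx⟩
    exact absurd rfl hx
  · have h1 : g = LinearMap.id := LinearMap.ext fun x => hg.fix x (by rw [h]; exact Submodule.mem_top)
    rw [h1]
    have h2 : ω.compLinearMap LinearMap.id = ω := by
      ext x
      rfl
    rw [h2]
    exact hω

/-- Big monodromy relative to `T` implies general position relative to `T`. -/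
theorem inGeneralPosition_of_big [CharZero k] [∀ a, FiniteDimensional k (H a)]
    (hanti : ∀ a i, Fl a (i + 1) ≤ Fl a i) (hzero : ∀ a, Fl a 0 = ⊤)
    (hmul : ∀ a b i j, ∀ x ∈ Fl a i, ∀ y ∈ Fl b j, ∀ z, cup a b x y z → z ∈ Fl (a + b) (i + j))
    (hbil : ∃ μ : ∀ a b, H a →ₗ[k] H b →ₗ[k] H (a + b), ∀ a b x y z, cup a b x y z ↔ z = μ a b x y)
    (hnd : IsNondeg Fl cup T) (h : ∀ a, IsBigOn nab Fl T a) : InGeneralPosition nab Fl cup lg T := by
  intro P hP a i W hW hω
  obtain ⟨ω, hωW, hω0, hωP⟩ := hω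
  obtain ⟨V, B, hTV, hB, hpar, hst⟩ := h a
  have hmono : ∀ a b c, b ≤ c → Fl a c ≤ Fl a b := fun a b c hbc => antitone_nat_of_succ_le (hanti a) hbc
  obtain ⟨μ, hμ⟩ := hbil
  have hbot : T a ⊓ P a i ⊓ Fl a (i + 1) = ⊥ := by
    rw [eq_bot_iff]
    rintro x ⟨⟨hxT, hxP⟩, hxF⟩
    by_contra hx
    obtain ⟨b, N, hN, hN', y, hy, z, hz, hz0⟩ := hnd a x hxT
      fun h0 => hx (by rw [h0]; exact Submodule.zero_mem _)
    rw [hμ] at hz
    apply hz0
    rw [hz]
    rcases Nat.lt_or_ge i N with hi | hi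
    · obtain ⟨c, rfl⟩ : ∃ c, N = i + c + 1 := ⟨N - i - 1, by omega⟩
      obtain ⟨y₁, ⟨hy₁, -⟩, y₂, ⟨hy₂, -⟩, rfl⟩ := Submodule.mem_sup.1 (hP.rel b c hy)
      have h1 := hP.mul a b i c x hxP y₁ hy₁ _ ((hμ a b x y₁ _).2 rfl)
      have h2 := hmul a b (i + 1) (c + 1) x hxF y₂ hy₂ _ ((hμ a b x y₂ _).2 rfl)
      have h3 := hP.dim (a + b) (i + c)
      rw [hN, finrank_top] at h3
      have h4 : P (a + b) (i + c) = ⊥ := Submodule.finrank_eq_zero.1 (by omega)
      rw [h4, Submodule.mem_bot] at h1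
      rw [show i + 1 + (c + 1) = i + c + 1 + 1 by omega, hN', Submodule.mem_bot] at h2
      rw [map_add, h1, h2, add_zero]
    · have h2 := hmul a b (i + 1) 0 x hxF y (by rw [hzero]; exact Submodule.mem_top) _ ((hμ a b x y _).2 rfl)
      have h3 := hmono (a + b) (N + 1) (i + 1 + 0) (by omega) h2
      rw [hN', Submodule.mem_bot] at h3
      exact h3
  have hT : T a ≤ (T a ⊓ P a i) ⊔ (T a ⊓ Fl a (i + 1)) := by
    have h1 := hP.rel a i
    rw [inf_comm (P a i), inf_comm (Fl a (i + 1))] at h1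
    exact h1
  obtain ⟨g, hg, hgPF⟩ := exists_special hTV hB (hP.dim a i) hT hbot fun hx => hpar hx (i + 1)
  obtain ⟨x, hx, hne⟩ := exists_nonzero rfl (hP.dim a i) hω0 hωP hgPF
  exact ⟨ω.compLinearMap g, hst _ W hW ω hωW g hg, x, hx, hne⟩

end

end MPadcGP3
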