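import Pool.Agent.Lib.MP_adc574_ag_GP.Def

/-!
# The bridge to the internal definitions I: forms and charts
-/

set_option autoImplicit false

namespace OrdRed

open MPadcGP

universe u v w x

section forms

variable {A : Type u} {R : Type v} [CommRing A] [CommRing R] [Algebra A R]

theorem ext_eq (x : Om A R) : ext A x = dd A x := by
  have h := (exists_ext A (R := R)).choose_spec
  refine fm_ind (P := fun x : Fm A R => ext A (x : Om A R) = dd A x) (fun r => (h.2.2.1 r).trans (dd_fz A r).symm)
    (fun t => (h.2.2.2 t).trans (dd_df A t).symm) (fun (x y : Fm A R) hx hy => ?_) (fun (x y : Fm A R) hx hy => ?_) x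
  · exact (h.2.1 x y).trans ((congrArg₂ (fun a b : Fm A R => a + b) (congrArg (fun z : Fm A R => z * y) hx)
      (congrArg₂ (fun a b : Fm A R => a * b) (gr_eq A x) hy)).trans (dd_mul A x y).symm)
  · exact (h.1 x y).trans ((congrArg₂ (· + ·) hx hy).trans (map_add (dd A) x y).symm)

theorem pull_eq {B : Type w} {S : Type x} [CommRing B] [CommRing S] [Algebra B S] (φ : R →+* S)
    (hφ : ∀ a : A, ∃ b : B, φ (algebraMap A R a) = algebraMap B S b) (x : Om A R) :
    pull φ hφ x = mp φ hφ x := by
  have h := (exists_pull φ hφ).choose_spec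
  refine fm_ind (P := fun x => pull φ hφ x = mp φ hφ x) (fun r => (h.2.2.1 r).trans (mp_fz hφ r).symm)
    (fun t => (h.2.2.2 t).trans (mp_df hφ t).symm) (fun x y hx hy => ?_) (fun x y hx hy => ?_) x
  · exact (h.2.1 x y).trans ((congrArg₂ (· * ·) hx hy).trans (map_mul (mp φ hφ) x y).symm)
  · exact (h.1 x y).trans ((congrArg₂ (· + ·) hx hy).trans (map_add (mp φ hφ) x y).symm)

theorem wd_eq {q : ℕ} (t : Fin q → R) : wd A t = (List.ofFn fun l => df A (t l)).prod :=
  ExteriorAlgebra.ιMulti_apply _

theorem ofDegree_iff {q : ℕ} {ω : Om A R} : OfDegree q ω ↔ ω ∈ Fd A R q := by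
  constructor
  · intro h
    refine AddSubgroup.closure_induction (p := fun ω _ => (ω : Fm A R) ∈ Fd A R q) ?_ ?_ ?_ ?_ h
    · rintro _ ⟨r, t, rfl⟩
      have h1 := fz_mul_mem r (wd_mem (A := A) t)
      rw [wd_eq] at h1
      exact h1
    · exact Submodule.zero_mem _
    · intro x y _ _ hx hy
      exact Submodule.add_mem _ hx hy
    · intro x _ hx
      exact Submodule.neg_mem _ hx
  · intro h
    refine fd_ind (P := fun ω => OfDegree q (ω : Om A R)) ?_ ?_ ?_ h
    · exact AddSubgroup.zero_mem _
    · intro r t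
      refine AddSubgroup.subset_closure ⟨r, t, ?_⟩
      rw [wd_eq]
      rfl
    · intro a b ha hb
      exact AddSubgroup.add_mem _ ha hb

theorem exact_iff {q : ℕ} {ω : Om A R} : Exact q ω ↔ ω ∈ exactForms A R q := by
  constructor
  · rintro ⟨η, h1, h2⟩
    rw [ext_eq] at h2
    exact ⟨η, ofDegree_iff.1 h1, h2⟩
  · rintro ⟨η, h1, h2⟩
    refine ⟨η, ofDegree_iff.2 h1, ?_⟩
    rw [ext_eq]
    exact h2

theorem logarithmic_iff {j : ℕ} {ω : Om A R} : Logarithmic j ω ↔ ω ∈ logForms A R j := Iff.rfl

end forms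

section charts

open MvPolynomial

variable {A : Type u} [CommRing A] {n : ℕ} (I : Ideal (MvPolynomial (Fin n) A)) (J : Finset (Fin n))

theorem coord_eq (l : Fin n) : coord I J l = lx I J l := rfl

theorem functions_eq : functions I J = chart I J := rfl

end charts

end OrdRed
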