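import Pool.Agent.Lib.MP_adc574_ag_GP.BrA

/-!
# The bridge to the internal definitions II: the Čech–de Rham complex
-/

set_option autoImplicit false

namespace OrdRed

open MPadcGP

universe u v w x

/-- Equality of subquotients. -/
noncomputable def sqEquiv {A : Type u} {M : Type v} [CommRing A] [AddCommGroup M] [Module A M] {Z Z' B B' : Submodule A M}
    (hZ : Z = Z') (hB : B = B') : (↥Z ⧸ B.submoduleOf Z) ≃ₗ[A] (↥Z' ⧸ B'.submoduleOf Z') :=
  Submodule.Quotient.equiv _ _ (LinearEquiv.ofEq Z Z' hZ) (by subst hZ; subst hB; ext x; exact ⟨fun ⟨y, hy, h⟩ => h ▸ hy, fun h => ⟨x, h, rfl⟩⟩)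

theorem sqEquiv_mk {A : Type u} {M : Type v} [CommRing A] [AddCommGroup M] [Module A M] {Z Z' B B' : Submodule A M}
    (hZ : Z = Z') (hB : B = B') (c : M) (hc : c ∈ Z) (hc' : c ∈ Z') :
    sqEquiv hZ hB (Submodule.Quotient.mk ⟨c, hc⟩) = Submodule.Quotient.mk ⟨c, hc'⟩ := rfl

section cov

variable {A : Type u} [CommRing A] {n : ℕ}

/-- The cover of internal cover data. -/
def cov (X : CovD.{u, v} A n) : Cover.{u, v} A n where
  R := X.R
  ring := X.cr
  alg := X.al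
  res := X.ρ

variable {X : CovD.{u, v} A n}

theorem rest_eq {J K : Finset (Fin n)} (h : J ⊆ K) (x : X.E J) : (cov X).rest h x = X.rs h x :=
  pull_eq _ _ _

theorem cech_eq (c : X.Ch) : (cov X).cech c = X.del c := by
  funext J
  have h1 : X.del c J = ∑ j ∈ J, sg j J • X.rs (Finset.erase_subset j J) (c (J.erase j)) := by
    rw [CovD.del_apply]
    exact Finset.sum_congr rfl fun j _ => by rw [CovD.ev_of (Finset.erase_subset j J)]
  rw [h1]
  exact Finset.sum_congr rfl fun j _ => congrArg (fun z => sg j J • z) (rest_eq _ _)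

theorem tot_eq (c : X.Ch) : (cov X).tot c = X.Dt c := by
  have h1 : (fun K => gr A (c K)) = X.ic c := funext fun K => gr_eq A (c K)
  funext J
  have h4 : (cov X).cech (fun K => gr A (c K)) J = X.del (X.ic c) J :=
    (congrArg (fun z : X.Ch => (cov X).cech z J) h1).trans (congrFun (cech_eq (X.ic c)) J)
  exact congrArg₂ (fun a b : X.E J => a + b) (ext_eq _) h4

theorem deg_iff {m : ℕ} {c : X.Ch} : (cov X).Deg m c ↔ c ∈ X.Tt m := by
  constructor
  · rintro ⟨h0, h⟩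
    exact ⟨h0, fun J => ⟨fun q hq => ofDegree_iff.1 ((h J).1 q hq), (h J).2⟩⟩
  · rintro ⟨h0, h⟩
    exact ⟨h0, fun J => ⟨fun q hq => ofDegree_iff.2 ((h J).1 q hq), (h J).2⟩⟩

theorem Z_eq (m : ℕ) : ((cov X).Z m : Submodule A X.Ch) = X.Zc m := by
  have h1 : {c : X.Ch | (cov X).Deg m c ∧ (cov X).tot c = 0} = (X.Zc m : Set X.Ch) := by
    ext c
    constructor
    · rintro ⟨h1, h2⟩
      exact ⟨deg_iff.1 h1, (tot_eq c).symm.trans h2⟩
    · rintro ⟨h1, h2⟩
      exact ⟨deg_iff.2 h1, (tot_eq c).trans h2⟩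
  have h2 : ((cov X).Z m : Submodule A X.Ch) = Submodule.span A (X.Zc m : Set X.Ch) :=
    congrArg (fun s : Set X.Ch => Submodule.span A s) h1
  rw [h2, Submodule.span_eq]

theorem B_eq (m : ℕ) : ((cov X).B m : Submodule A X.Ch) = X.Bc m := by
  have h1 : {c : X.Ch | ∃ (l : ℕ) (b : X.Ch), l + 1 = m ∧ (cov X).Deg l b ∧ (cov X).tot b = c} =
      (X.Bc m : Set X.Ch) ∨ m = 0 := by
    cases m with
    | zero => exact Or.inr rfl
    | succ m =>
      left
      ext c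
      constructor
      · rintro ⟨l, b, h1, h2, h3⟩
        obtain rfl : l = m := by omega
        exact ⟨b, deg_iff.1 h2, (tot_eq b).symm.trans h3⟩
      · rintro ⟨b, h1, h2⟩
        exact ⟨m, b, rfl, deg_iff.2 h1, (tot_eq b).trans h2⟩
  rcases h1 with h1 | h1
  · have h2 : ((cov X).B m : Submodule A X.Ch) = Submodule.span A (X.Bc m : Set X.Ch) :=
      congrArg (fun s : Set X.Ch => Submodule.span A s) h1
    rw [h2, Submodule.span_eq]
  · subst h1
    have h2 : {c : X.Ch | ∃ (l : ℕ) (b : X.Ch), l + 1 = 0 ∧ (cov X).Deg l b ∧ (cov X).tot b = c} = ∅ := by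
      ext c
      constructor
      · rintro ⟨l, b, h1, -⟩
        omega
      · intro h
        exact h.elim
    have h3 : ((cov X).B 0 : Submodule A X.Ch) = Submodule.span A (∅ : Set X.Ch) :=
      congrArg (fun s : Set X.Ch => Submodule.span A s) h2
    rw [h3, Submodule.span_empty]
    rfl

/-- The comparison of the cohomologies. -/
noncomputable def cmp (X : CovD.{u, v} A n) (m : ℕ) : X.HdR m ≃ₗ[A] (cov X).DR m :=
  sqEquiv (Z_eq m).symm (B_eq m).symm

theorem mem_Z_iff {m : ℕ} {c : X.Ch} : (c : (cov X).Cochain) ∈ (cov X).Z m ↔ c ∈ X.Zc m := by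
  have h : ∀ S S' : Submodule A X.Ch, S = S' → (c ∈ S ↔ c ∈ S') := fun S S' h => h ▸ Iff.rfl
  exact h _ _ (Z_eq m)

theorem cmp_cl {m : ℕ} (c : X.Ch) (hc : c ∈ X.Zc m) (hc' : (c : (cov X).Cochain) ∈ (cov X).Z m) :
    cmp X m (X.cl m ⟨c, hc⟩) = (cov X).cls m ⟨c, hc'⟩ := sqEquiv_mk _ _ c hc hc'

theorem hasClass_iff {m : ℕ} {c : X.Ch} {x : X.HdR m} :
    (cov X).HasClass m c (cmp X m x) ↔ ∃ c' : ↥(X.Zc m), (c' : X.Ch) = c ∧ X.cl m c' = x := by
  constructor
  · rintro ⟨h, h1⟩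
    refine ⟨⟨c, mem_Z_iff.1 h⟩, rfl, ?_⟩
    apply (cmp X m).injective
    rw [← h1]
    exact cmp_cl c _ h
  · rintro ⟨⟨c', hc'⟩, h, rfl⟩
    obtain rfl : c' = c := h
    exact ⟨mem_Z_iff.2 hc', (cmp_cl c' hc' _).symm⟩

theorem hodge_iff {m i : ℕ} {x : X.HdR m} : cmp X m x ∈ (cov X).hodge m i ↔ x ∈ X.Fil m i := by
  have h1 : {y | ∃ c, (cov X).HasClass m c y ∧ ∀ J : Finset (Fin n), m + 1 < J.card + i → c J = 0} =
      ((X.Fil m i).map (cmp X m : X.HdR m →ₗ[A] (cov X).DR m) : Set ((cov X).DR m)) := by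
    ext y
    obtain ⟨x, rfl⟩ := (cmp X m).surjective y
    constructor
    · rintro ⟨c, h1, h2⟩
      obtain ⟨c', rfl, rfl⟩ := hasClass_iff.1 h1
      exact ⟨_, ⟨c', ⟨c'.2.1, h2⟩, rfl⟩, rfl⟩
    · rintro ⟨x', hx', h2⟩
      obtain rfl : x' = x := (cmp X m).injective h2
      obtain ⟨c, hc, rfl⟩ := hx'
      exact ⟨(c : X.Ch), hasClass_iff.2 ⟨c, rfl, rfl⟩, hc.2⟩
  have h2 : (cov X).hodge m i = (X.Fil m i).map (cmp X m : X.HdR m →ₗ[A] (cov X).DR m) := by
    rw [Cover.hodge, h1, Submodule.span_eq]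
  rw [h2]
  constructor
  · rintro ⟨x', hx', h3⟩
    obtain rfl : x' = x := (cmp X m).injective h3
    exact hx'
  · exact fun h => ⟨x, h, rfl⟩

end cov

end OrdRed
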