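import Pool.Agent.Lib.MP_adc574_ag_GP.BrB

/-!
# The bridge to the internal definitions III: products, logarithmic classes, the connection
-/

set_option autoImplicit false

namespace OrdRed

open MPadcGP

universe u v w x

section cov

variable {A : Type u} [CommRing A] {n : ℕ} {X : CovD.{u, v} A n}

theorem gr_iterate (p : ℕ) {R : Type v} [CommRing R] [Algebra A R] (x : Om A R) :
    (gr A)^[p] x = it A p x := by
  induction p with
  | zero => exact (it_zero A (R := R) x).symm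
  | succ p ih =>
    rw [Function.iterate_succ_apply', it_succ, ih]
    exact gr_eq A _

theorem prod_iff {m m' : ℕ} {x : X.HdR m} {y : X.HdR m'} {z : X.HdR (m + m')} :
    (cov X).prod m m' (cmp X m x) (cmp X m' y) (cmp X (m + m') z) ↔ X.cupRel m m' x y z := by
  have hcup : ∀ a b c : X.Ch, (∀ J : Finset (Fin n), c J = ∑ s ∈ J,
      (cov X).rest (Finset.filter_subset (· ≤ s) J) (a (J.filter (· ≤ s))) *
      (gr A)^[(J.filter (· < s)).card] ((cov X).rest (Finset.filter_subset (s ≤ ·) J) (b (J.filter (s ≤ ·))))) ↔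
      X.cup a b = c := by
    intro a b c
    have h1 : ∀ J : Finset (Fin n), ∑ s ∈ J,
        (cov X).rest (Finset.filter_subset (· ≤ s) J) (a (J.filter (· ≤ s))) *
        (gr A)^[(J.filter (· < s)).card] ((cov X).rest (Finset.filter_subset (s ≤ ·) J) (b (J.filter (s ≤ ·)))) =
        X.cup a b J := by
      intro J
      rw [CovD.cup_apply]
      refine Finset.sum_congr rfl fun s _ => ?_
      rw [CovD.ev_of (Finset.filter_subset (· ≤ s) J), CovD.ev_of (Finset.filter_subset (s ≤ ·) J), ← gr_iterate,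
        ← rest_eq, ← rest_eq]
      rfl
    constructor
    · intro h
      funext J
      rw [← h1 J]
      exact (h J).symm
    · rintro rfl J
      exact (h1 J).symm
  constructor
  · rintro ⟨a, b, c, ha, hb, hc, h⟩
    obtain ⟨a', rfl, rfl⟩ := hasClass_iff.1 ha
    obtain ⟨b', rfl, rfl⟩ := hasClass_iff.1 hb
    obtain ⟨c', rfl, rfl⟩ := hasClass_iff.1 hc
    exact ⟨a', b', c', (hcup _ _ _).1 h, rfl, rfl, rfl⟩
  · rintro ⟨a, b, c, h, rfl, rfl, rfl⟩
    exact ⟨(a : X.Ch), (b : X.Ch), (c : X.Ch), hasClass_iff.2 ⟨a, rfl, rfl⟩, hasClass_iff.2 ⟨b, rfl, rfl⟩,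
      hasClass_iff.2 ⟨c, rfl, rfl⟩, (hcup _ _ _).2 h⟩

theorem dlog_iff {m j : ℕ} {x : X.HdR m} : cmp X m x ∈ (cov X).dlog m j ↔ x ∈ X.logClasses m j := by
  constructor
  · rintro ⟨c, h1, h2⟩
    obtain ⟨c', rfl, rfl⟩ := hasClass_iff.1 h1
    exact ⟨c', rfl, h2⟩
  · rintro ⟨c, rfl, h⟩
    exact ⟨(c : X.Ch), hasClass_iff.2 ⟨c, rfl, rfl⟩, h⟩

end cov

end OrdRed
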