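import Pool.Agent.Lib.MP_adc574_ag_GP.Fin3
import Pool.Agent.Lib.MP_adc574_ag_GP.Fin4a

/-!
# REL: finitely many schemes simultaneously
-/

set_option autoImplicit false
set_option linter.unusedSectionVars false

namespace MPadcGP

universe u v w x

section

variable {M : Type} [AddCommGroup M] [Fintype M] [DecidableEq M]

/-- The relative version, open form. -/
theorem rel_open {k : Type u} [Field k] [IsAlgClosed k] [CharZero k] (A : Subalgebra ℤ k) (hA : A.FG)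
    {n : ℕ} (I₀ I : Ideal (MvPolynomial (Fin n) A)) (hle : I₀ ≤ I) (hI₀ : IsHomog I₀) (hI : IsHomog I)
    (hs₀ : IsSmoothProj (bI (algebraMap A k) I₀)) (hs : IsSmoothProj (bI (algebraMap A k) I))
    {wt : Fin n → M} (hw₀ : IsWHomog wt (bI (algebraMap A k) I₀))
    (hw : IsWHomog wt (bI (algebraMap A k) I))
    (hg : IsGeneral3 (rsH (bI_mono (algebraMap A k) hle)) (grP (hI₀.map (algebraMap A k)) hw₀)
      (grP (hI.map (algebraMap A k)) hw)) :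
    ∃ a : A, a ≠ 0 ∧ ∃ p₀ : ℕ, ∀ p : ℕ, p₀ ≤ p → p.Prime →
      (∀ (m i : ℕ) (μ : M), Module.finrank k ↥((prC (bI (algebraMap A k) I)).Fil m i ⊓
        (grP (hI.map (algebraMap A k)) hw).HW m (p • μ)) =
          Module.finrank k ↥((prC (bI (algebraMap A k) I)).Fil m i ⊓
            (grP (hI.map (algebraMap A k)) hw).HW m μ)) →
      ∀ 𝔪 : Ideal A, 𝔪.IsMaximal → a ∉ 𝔪 →
        (prC (bI (Ideal.Quotient.mk 𝔪) I₀)).IsBlochKatoOrdinary →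
          ∀ 𝔓 ∈ (Ideal.span {(p : A)}).minimalPrimes, 𝔓 ≤ 𝔪 → IsOpenOrd I 𝔓 := by
  have hfA : Algebra.FiniteType ℤ A := (Subalgebra.fg_iff_finiteType A).1 hA
  have hcA : CharZero A := ⟨fun a b h => by
      have h1 := congrArg (algebraMap A k) h
      rw [map_natCast, map_natCast] at h1
      exact Nat.cast_injective h1⟩
  obtain ⟨a, ha0, p₀, hp₀⟩ := rel_core A hA I₀ I hle hI₀ hI hs₀ hs hw₀ hw hg
  obtain ⟨c, hc0, -, hdc⟩ := exists_hasDat hI₀ hI (algebraMap A k) Subtype.val_injective hs₀ hs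
  obtain ⟨BA, hBA⟩ := exists_resB A
  refine ⟨a, ha0, p₀ + BA 0 + BA c + 1, fun p hp hprime hdimk 𝔪 h𝔪 ha𝔪 hbk 𝔓 h𝔓 h𝔓𝔪 => ?_⟩
  have hfact : Fact p.Prime := ⟨hprime⟩
  have hpr : 𝔓.IsPrime := h𝔓.1.1
  obtain ⟨hcK, -, hne, Λ, iΛ, bb, hbb⟩ := hBA p hprime (by omega) 𝔓 h𝔓 (FractionRing (A ⧸ 𝔓)) _ (frac_ker 𝔓)
    (frac_surj 𝔓)
  have hcφ := hne c hc0 (by omega)
  have hd : IsDenseOrd I 𝔓 := by
    by_contra hnd
    exact hp₀ p (by omega) hprime hdimk 𝔓 ⟨𝔪, h𝔪, ha𝔪, hbk, h𝔓, h𝔓𝔪, hnd⟩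
  have hopp : IsOppC (prC (bI ((algebraMap (A ⧸ 𝔓) (FractionRing (A ⧸ 𝔓))).comp (Ideal.Quotient.mk 𝔓)) I)) := by
    obtain ⟨hs', β, i1, i2, lev, z, h, hD⟩ := hdc
    exact opp_of_dense hI hc0 hs' hD hd _ (frac_ker 𝔓) (frac_surj 𝔓) hcφ
  exact open_of_opp (p := p) hI hc0 hdc _ (frac_ker 𝔓) (frac_surj 𝔓) hbb hcφ hopp

end

/-- All the fibres over a closed point of characteristic `p` outside of `b = 0` are smooth and ordinary. -/
def HasOrdinaryPoints {A : Type u} [CommRing A] {r : ℕ} {n : Fin r → ℕ}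
    (I : ∀ j, Ideal (MvPolynomial (Fin (n j)) A)) (b : A) (p : ℕ) : Prop :=
  ∃ 𝔪 : Ideal A, 𝔪.IsMaximal ∧ b ∉ 𝔪 ∧ (p : A) ∈ 𝔪 ∧ ∀ j,
    IsSmoothProj (bI (Ideal.Quotient.mk 𝔪) (I j)) ∧
      (prC (bI (Ideal.Quotient.mk 𝔪) (I j))).IsBlochKatoOrdinary

/-- The relative version for finitely many pairs. -/
theorem rel_family {k : Type u} [Field k] [IsAlgClosed k] [CharZero k] (A : Subalgebra ℤ k) (hA : A.FG)
    {r : ℕ} {n : Fin r → ℕ} {M : Type} [AddCommGroup M] [Fintype M] [DecidableEq M]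
    (I₀ I : ∀ j, Ideal (MvPolynomial (Fin (n j)) A)) (hle : ∀ j, I₀ j ≤ I j)
    (hI₀ : ∀ j, IsHomog (I₀ j)) (hI : ∀ j, IsHomog (I j))
    (hs₀ : ∀ j, IsSmoothProj (bI (algebraMap A k) (I₀ j)))
    (hs : ∀ j, IsSmoothProj (bI (algebraMap A k) (I j)))
    {wt : ∀ j, Fin (n j) → M} (hw₀ : ∀ j, IsWHomog (wt j) (bI (algebraMap A k) (I₀ j)))
    (hw : ∀ j, IsWHomog (wt j) (bI (algebraMap A k) (I j)))
    (hg : ∀ j, IsGeneral3 (rsH (bI_mono (algebraMap A k) (hle j)))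
      (grP ((hI₀ j).map (algebraMap A k)) (hw₀ j)) (grP ((hI j).map (algebraMap A k)) (hw j))) :
    ∃ a : A, a ≠ 0 ∧ ∀ b : A, b ≠ 0 → ∃ p₀ : ℕ, ∀ p : ℕ, p₀ ≤ p → p.Prime →
      (∀ (j : Fin r) (m i : ℕ) (μ : M), Module.finrank k ↥((prC (bI (algebraMap A k) (I j))).Fil m i ⊓
        (grP ((hI j).map (algebraMap A k)) (hw j)).HW m (p • μ)) =
          Module.finrank k ↥((prC (bI (algebraMap A k) (I j))).Fil m i ⊓
            (grP ((hI j).map (algebraMap A k)) (hw j)).HW m μ)) →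
      HasOrdinaryPoints I₀ a p → HasOrdinaryPoints I b p := by
  classical
  have hfA : Algebra.FiniteType ℤ A := (Subalgebra.fg_iff_finiteType A).1 hA
  have hcA : CharZero A := ⟨fun a b h => by
      have h1 := congrArg (algebraMap A k) h
      rw [map_natCast, map_natCast] at h1
      exact Nat.cast_injective h1⟩
  choose a ha0 p₀ hp₀ using fun j => rel_open A hA (I₀ j) (I j) (hle j) (hI₀ j) (hI j) (hs₀ j) (hs j)
    (hw₀ j) (hw j) (hg j)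
  obtain ⟨BA, hBA⟩ := exists_resB A
  refine ⟨∏ j, a j, Finset.prod_ne_zero_iff.2 fun j _ => ha0 j, fun b hb =>
    ⟨(∑ j, p₀ j) + BA 0 + BA b + 1, fun p hp hprime hdimk hY => ?_⟩⟩
  have hfact : Fact p.Prime := ⟨hprime⟩
  obtain ⟨𝔪, h𝔪, ha𝔪, hp𝔪, hY'⟩ := hY
  have hle' : Ideal.span {(p : A)} ≤ 𝔪 := by
    rw [Ideal.span_singleton_le_iff_mem]
    exact hp𝔪
  obtain ⟨𝔓, h𝔓, h𝔓𝔪⟩ := Ideal.exists_minimalPrimes_le hle'
  have hpr : 𝔓.IsPrime := h𝔓.1.1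
  have hp𝔓 : (p : A) ∈ 𝔓 := h𝔓.1.2 (Ideal.mem_span_singleton_self _)
  have hb𝔓 : b ∉ 𝔓 := by
    obtain ⟨-, -, h1, -⟩ := hBA p hprime (by omega) 𝔓 h𝔓 (FractionRing (A ⧸ 𝔓)) _ (frac_ker 𝔓) (frac_surj 𝔓)
    have h2 := h1 b hb (by omega)
    intro h3
    apply h2
    rw [← RingHom.mem_ker, frac_ker]
    exact h3
  have hop : ∀ j, IsOpenOrd (I j) 𝔓 := fun j => by
    have h1 : p₀ j ≤ ∑ j, p₀ j := Finset.single_le_sum (fun _ _ => Nat.zero_le _) (Finset.mem_univ j)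
    refine hp₀ j p (by omega) hprime (hdimk j) 𝔪 h𝔪 (fun h => ha𝔪 ?_) (hY' j).2 𝔓 h𝔓 h𝔓𝔪
    exact Ideal.mem_of_dvd _ (Finset.dvd_prod_of_mem a (Finset.mem_univ j)) h
  choose f hf hf' using hop
  have hprod : b * ∏ j, f j ∉ 𝔓 := by
    intro h
    rcases hpr.mem_or_mem h with h | h
    · exact hb𝔓 h
    · obtain ⟨j, -, hj⟩ := hpr.prod_mem_iff.1 h
      exact hf j hj
  obtain ⟨𝔪', h𝔪', hle'', hb'⟩ := exists_max_not_mem (p := p) 𝔓 hp𝔓 _ hprod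
  refine ⟨𝔪', h𝔪', fun h => hb' (Ideal.mul_mem_right _ _ h), hle'' hp𝔓, fun j =>
    hf' j 𝔪' h𝔪' hle'' fun h => hb' (Ideal.mul_mem_left _ _ ?_)⟩
  exact Ideal.mem_of_dvd _ (Finset.dvd_prod_of_mem f (Finset.mem_univ j)) h

end MPadcGP
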