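import Pool.Agent.Lib.MP_adc574_ag_GP.BrT
import Pool.Agent.Lib.MP_adc574_ag_GP.BrX
import Pool.Agent.Lib.MP_adc574_ag_GP.Fin4
import Pool.Agent.Lib.MP_adc574_ag_GP.BrL

/-!
# The bridge to the internal definitions: the final theorem, relative version
-/

set_option autoImplicit false
set_option linter.unusedSectionVars false

namespace OrdRed

open MPadcGP MvPolynomial

universe u v w x

section main

/-- General position of `X` relative to `Y`, internal form. -/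
theorem isGeneral3_of {k : Type u} [Field k] {n : ℕ} {I₀ I : Ideal (MvPolynomial (Fin n) k)} {M : Type}
    [AddCommGroup M] [Fintype M] [DecidableEq M] {w : Fin n → M} (hI₀ : IsHomog I₀) (hI : IsHomog I) (hle : I₀ ≤ I)
    (hs : IsSmoothProj I) (hw₀ : IsWHomog w I₀) (hw : IsWHomog w I)
    (h : GeneralRel (proj I) (part I w) (image I₀ I)) : IsGeneral3 (rsH hle) (grP hI₀ hw₀) (grP hI hw) :=
  generalRel_imp (rsH_gr hI₀ hw₀ hI hw hle) (fun D => exists_lft hI hs D) (generalRel_proj hI hw hle h)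

/-- The relative version, open form, finitely many pairs. -/
theorem rel_final {k : Type u} [Field k] [IsAlgClosed k] [CharZero k] (A : Subalgebra ℤ k) (hA : A.FG) {r : ℕ}
    {n : Fin r → ℕ} (I₀ I : ∀ j, Ideal (MvPolynomial (Fin (n j)) A)) (hle : ∀ j, I₀ j ≤ I j)
    (hI₀ : ∀ j, Homogeneous (I₀ j)) (hI : ∀ j, Homogeneous (I j))
    (hs₀ : ∀ j, SmoothProj (change (I₀ j) (algebraMap A k))) (hs : ∀ j, SmoothProj (change (I j) (algebraMap A k)))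
    {M : Type} [AddCommGroup M] [Finite M] (w : ∀ j, Fin (n j) → M)
    (hw₀ : ∀ j, WeightHomogeneous (change (I₀ j) (algebraMap A k)) (w j))
    (hw : ∀ j, WeightHomogeneous (change (I j) (algebraMap A k)) (w j))
    (hg : ∀ j, GeneralRel (proj (change (I j) (algebraMap A k))) (part (change (I j) (algebraMap A k)) (w j))
      (image (change (I₀ j) (algebraMap A k)) (change (I j) (algebraMap A k)))) :
    ∃ a : A, a ≠ 0 ∧ ∃ p₀ : ℕ, ∀ p : ℕ, p₀ ≤ p → p.Prime →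
      (∀ (j : Fin r) (m i : ℕ) (μ : M), hodgeDim (change (I j) (algebraMap A k)) (w j) m i (p • μ) =
        hodgeDim (change (I j) (algebraMap A k)) (w j) m i μ) →
      ∀ 𝔪 : Ideal A, 𝔪.IsMaximal → a ∉ 𝔪 → (∀ j, (proj (change (I₀ j) (Ideal.Quotient.mk 𝔪))).Ordinary) →
        ∀ 𝔓 ∈ (Ideal.span {(p : A)}).minimalPrimes, 𝔓 ≤ 𝔪 → ∃ f ∉ 𝔓, ∀ 𝔫 : Ideal A, 𝔫.IsMaximal → 𝔓 ≤ 𝔫 → f ∉ 𝔫 →
          ∀ j, SmoothProj (change (I j) (Ideal.Quotient.mk 𝔫)) ∧ (proj (change (I j) (Ideal.Quotient.mk 𝔫))).Ordinary := by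
  classical
  let _ : Fintype M := Fintype.ofFinite M
  have hI₀' : ∀ j, IsHomog (I₀ j) := hI₀
  have hI' : ∀ j, IsHomog (I j) := hI
  have hI₀'' : ∀ j, IsHomog (bI (algebraMap A k) (I₀ j)) := fun j => (hI₀' j).map _
  have hI'' : ∀ j, IsHomog (bI (algebraMap A k) (I j)) := fun j => (hI' j).map _
  have hs₀' : ∀ j, IsSmoothProj (bI (algebraMap A k) (I₀ j)) := hs₀
  have hs' : ∀ j, IsSmoothProj (bI (algebraMap A k) (I j)) := hs
  have hw₀' : ∀ j, IsWHomog (w j) (bI (algebraMap A k) (I₀ j)) := hw₀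
  have hw' : ∀ j, IsWHomog (w j) (bI (algebraMap A k) (I j)) := hw
  have hmain := fun j => rel_open A hA (I₀ j) (I j) (hle j) (hI₀' j) (hI' j) (hs₀' j) (hs' j) (hw₀' j) (hw' j)
    (isGeneral3_of (hI₀'' j) (hI'' j) (bI_mono (algebraMap A k) (hle j)) (hs' j) (hw₀' j) (hw' j) (hg j))
  choose a ha0 p₀ hp₀ using hmain
  refine ⟨∏ j, a j, Finset.prod_ne_zero_iff.2 fun j _ => ha0 j, ∑ j, p₀ j,
    fun p hp hprime hdim 𝔪 h𝔪 ha𝔪 hY 𝔓 h𝔓 h𝔓𝔪 => ?_⟩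
  have hpr : 𝔓.IsPrime := h𝔓.1.1
  have hop : ∀ j, IsOpenOrd (I j) 𝔓 := fun j => by
    have h1 : p₀ j ≤ ∑ j, p₀ j := Finset.single_le_sum (fun _ _ => Nat.zero_le _) (Finset.mem_univ j)
    refine hp₀ j p (h1.trans hp) hprime (fun m i μ => ?_) 𝔪 h𝔪 (fun h => ha𝔪 ?_)
      ((ordinary_proj_iff _).1 (hY j)) 𝔓 h𝔓 h𝔓𝔪
    · rw [← finrank_part (hI'' j) (hw' j), ← finrank_part (hI'' j) (hw' j)]
      exact hdim j m i μ
    · exact Ideal.mem_of_dvd _ (Finset.dvd_prod_of_mem a (Finset.mem_univ j)) h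
  choose f hf hf' using hop
  refine ⟨∏ j, f j, fun h => ?_, fun 𝔫 h𝔫 hle' hf𝔫 j => ?_⟩
  · obtain ⟨j, -, hj⟩ := hpr.prod_mem_iff.1 h
    exact hf j hj
  · obtain ⟨h1, h2⟩ := hf' j 𝔫 h𝔫 hle' fun h =>
      hf𝔫 (Ideal.mem_of_dvd _ (Finset.dvd_prod_of_mem f (Finset.mem_univ j)) h)
    exact ⟨h1, (ordinary_proj_iff _).2 h2⟩

/-- The same for big monodromy. -/
theorem rel_big {k : Type u} [Field k] [IsAlgClosed k] [CharZero k] (A : Subalgebra ℤ k) (hA : A.FG) {r : ℕ}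
    {n : Fin r → ℕ} (I₀ I : ∀ j, Ideal (MvPolynomial (Fin (n j)) A)) (hle : ∀ j, I₀ j ≤ I j)
    (hI₀ : ∀ j, Homogeneous (I₀ j)) (hI : ∀ j, Homogeneous (I j))
    (hs₀ : ∀ j, SmoothProj (change (I₀ j) (algebraMap A k))) (hs : ∀ j, SmoothProj (change (I j) (algebraMap A k)))
    {M : Type} [AddCommGroup M] [Finite M] (w : ∀ j, Fin (n j) → M)
    (hw₀ : ∀ j, WeightHomogeneous (change (I₀ j) (algebraMap A k)) (w j))
    (hw : ∀ j, WeightHomogeneous (change (I j) (algebraMap A k)) (w j))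
    (hg : ∀ j, BigRel (proj (change (I j) (algebraMap A k))) (part (change (I j) (algebraMap A k)) (w j))
      (image (change (I₀ j) (algebraMap A k)) (change (I j) (algebraMap A k)))) :
    ∃ a : A, a ≠ 0 ∧ ∃ p₀ : ℕ, ∀ p : ℕ, p₀ ≤ p → p.Prime →
      (∀ (j : Fin r) (m i : ℕ) (μ : M), hodgeDim (change (I j) (algebraMap A k)) (w j) m i (p • μ) =
        hodgeDim (change (I j) (algebraMap A k)) (w j) m i μ) →
      ∀ 𝔪 : Ideal A, 𝔪.IsMaximal → a ∉ 𝔪 → (∀ j, (proj (change (I₀ j) (Ideal.Quotient.mk 𝔪))).Ordinary) →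
        ∀ 𝔓 ∈ (Ideal.span {(p : A)}).minimalPrimes, 𝔓 ≤ 𝔪 → ∃ f ∉ 𝔓, ∀ 𝔫 : Ideal A, 𝔫.IsMaximal → 𝔓 ≤ 𝔫 → f ∉ 𝔫 →
          ∀ j, SmoothProj (change (I j) (Ideal.Quotient.mk 𝔫)) ∧ (proj (change (I j) (Ideal.Quotient.mk 𝔫))).Ordinary :=
  rel_final A hA I₀ I hle hI₀ hI hs₀ hs w hw₀ hw fun j => by
    have hI₀' : IsHomog (I₀ j) := hI₀ j
    have hI' : IsHomog (I j) := hI j
    exact generalRel_of_big (hI₀'.map _) (hw₀ j) (hI'.map _) (hw j) (bI_mono (algebraMap A k) (hle j)) (hs j) (hg j)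

/-- Density: the closed points where all the `X_j` are ordinary are dense if those where all the `Y_j` are ordinary
(and the characteristic satisfies the condition for the weights) are dense. -/
theorem rel_dense {k : Type u} [Field k] [IsAlgClosed k] [CharZero k] (A : Subalgebra ℤ k) (hA : A.FG) {r : ℕ}
    {n : Fin r → ℕ} (I₀ I : ∀ j, Ideal (MvPolynomial (Fin (n j)) A)) (hle : ∀ j, I₀ j ≤ I j)
    (hI₀ : ∀ j, Homogeneous (I₀ j)) (hI : ∀ j, Homogeneous (I j))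
    (hs₀ : ∀ j, SmoothProj (change (I₀ j) (algebraMap A k))) (hs : ∀ j, SmoothProj (change (I j) (algebraMap A k)))
    {M : Type} [AddCommGroup M] [Finite M] (w : ∀ j, Fin (n j) → M)
    (hw₀ : ∀ j, WeightHomogeneous (change (I₀ j) (algebraMap A k)) (w j))
    (hw : ∀ j, WeightHomogeneous (change (I j) (algebraMap A k)) (w j))
    (hg : ∀ j, GeneralRel (proj (change (I j) (algebraMap A k))) (part (change (I j) (algebraMap A k)) (w j))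
      (image (change (I₀ j) (algebraMap A k)) (change (I j) (algebraMap A k))))
    (hY : ∀ b : A, b ≠ 0 → ∃ p : ℕ, p.Prime ∧
      (∀ (j : Fin r) (m i : ℕ) (μ : M), hodgeDim (change (I j) (algebraMap A k)) (w j) m i (p • μ) =
        hodgeDim (change (I j) (algebraMap A k)) (w j) m i μ) ∧
      ∃ 𝔪 : Ideal A, 𝔪.IsMaximal ∧ b ∉ 𝔪 ∧ (p : A) ∈ 𝔪 ∧ ∀ j, (proj (change (I₀ j) (Ideal.Quotient.mk 𝔪))).Ordinary)
    (b : A) (hb : b ≠ 0) : ∃ 𝔪 : Ideal A, 𝔪.IsMaximal ∧ b ∉ 𝔪 ∧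
      ∀ j, SmoothProj (change (I j) (Ideal.Quotient.mk 𝔪)) ∧ (proj (change (I j) (Ideal.Quotient.mk 𝔪))).Ordinary := by
  have hfA : Algebra.FiniteType ℤ A := (Subalgebra.fg_iff_finiteType A).1 hA
  have hcA : CharZero A := ⟨fun a b h => by
      have h1 := congrArg (algebraMap A k) h
      rw [map_natCast, map_natCast] at h1
      exact Nat.cast_injective h1⟩
  obtain ⟨a, ha0, p₀, hp₀⟩ := rel_final A hA I₀ I hle hI₀ hI hs₀ hs w hw₀ hw hg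
  obtain ⟨p, hp, hdim, 𝔪, h𝔪, hb𝔪, hp𝔪, hord⟩ := hY (a * b * (p₀.factorial : A))
    (mul_ne_zero (mul_ne_zero ha0 hb) (Nat.cast_ne_zero.2 (Nat.factorial_ne_zero p₀)))
  have hfact : Fact p.Prime := ⟨hp⟩
  have hlt : p₀ < p := by
    by_contra hcon
    obtain ⟨c, hc⟩ := (hp.dvd_factorial (n := p₀)).2 (not_lt.1 hcon)
    apply hb𝔪
    rw [hc, Nat.cast_mul]
    exact Ideal.mul_mem_left _ _ (Ideal.mul_mem_right _ _ hp𝔪)
  have hle' : Ideal.span {(p : A)} ≤ 𝔪 := by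
    rw [Ideal.span_singleton_le_iff_mem]
    exact hp𝔪
  obtain ⟨𝔓, h𝔓, h𝔓𝔪⟩ := Ideal.exists_minimalPrimes_le hle'
  have hpr : 𝔓.IsPrime := h𝔓.1.1
  have hp𝔓 : (p : A) ∈ 𝔓 := h𝔓.1.2 (Ideal.mem_span_singleton_self _)
  obtain ⟨f, hf, hall⟩ := hp₀ p hlt.le hp hdim 𝔪 h𝔪
    (fun h => hb𝔪 (Ideal.mul_mem_right _ _ (Ideal.mul_mem_right _ _ h))) hord 𝔓 h𝔓 h𝔓𝔪
  have hbf : b * f ∉ 𝔓 := by
    intro h
    rcases hpr.mem_or_mem h with h | h
    · exact hb𝔪 (Ideal.mul_mem_right _ _ (Ideal.mul_mem_left _ _ (h𝔓𝔪 h)))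
    · exact hf h
  obtain ⟨𝔫, h𝔫, hle'', hbf𝔫⟩ := exists_max_not_mem (p := p) 𝔓 hp𝔓 _ hbf
  exact ⟨𝔫, h𝔫, fun h => hbf𝔫 (Ideal.mul_mem_right _ _ h),
    hall 𝔫 h𝔫 hle'' fun h => hbf𝔫 (Ideal.mul_mem_left _ _ h)⟩

end main

end OrdRed
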