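import Pool.Agent.Lib.MP_adc574_ag_GP.Def3

/-!
# Ordinary reduction: big monodromy relative to `T`

`BigRel X H T`: a condition on the connection which implies `GeneralRel X H T` (theorem `generalRel_of_big`). It holds for
instance if `X` is the generic member of a Lefschetz pencil of hyperplane sections of `Y` and `T m` the image of
`H^m_dR(Y)`: then `T m = H^m_dR(X)` for `m ≠ dim X`, and the complement of `T m` for `m = dim X` is the space of the
vanishing classes.
-/

set_option autoImplicit false

namespace OrdRed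

universe u v w x

variable {k : Type u} [Field k]

/-- Big monodromy on a complement `V` of `T` in `H`, with respect to a bilinear form `B` whose restriction to `V` is
zero, or nondegenerate and alternating, or nondegenerate and symmetric (then the images of the `F i` in `V` must not
have the dimension `(dim V) / 2`): every horizontal space of alternating forms on `H` is stable under the automorphisms of
determinant one which are the identity on `T` and preserve `V` and the restriction of `B` to `V`. -/
def BigOn {H : Type v} [AddCommGroup H] [Module k H] (nab : Derivation ℤ k k → H → H → Prop)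
    (F : ℕ → Submodule k H) (T : Submodule k H) : Prop :=
  ∃ (V : Submodule k H) (B : H →ₗ[k] H →ₗ[k] k), IsCompl T V ∧
    ((∀ x ∈ V, ∀ y ∈ V, B x y = 0) ∨ (∀ x ∈ V, (∀ y ∈ V, B x y = 0) → x = 0) ∧
      ((∀ x ∈ V, B x x = 0) ∨ (∀ x ∈ V, ∀ y ∈ V, B y x = B x y) ∧
        ∀ i, 2 * Module.finrank k (F i) ≠ Module.finrank k V + 2 * Module.finrank k ↥(T ⊓ F i))) ∧
    ∀ (r : ℕ) (W : Submodule k (H [⋀^Fin r]→ₗ[k] k)), Horizontal nab W → ∀ ω ∈ W, ∀ g : H →ₗ[k] H,
      LinearMap.det g = 1 → (∀ x ∈ T, g x = x) → (∀ x ∈ V, g x ∈ V) →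
        (∀ x ∈ V, ∀ y ∈ V, B (g x) (g y) = B x y) → ω.compLinearMap g ∈ W

/-- Big monodromy relative to the `T m ⊆ H^m_dR(X)`: the product is nondegenerate on `T` (for `x ≠ 0` in `T m` there is
`y` in some `T m'` with `x y ≠ 0`, and `H^{m + m'}_dR(X)` is of type `(N, N)`), and the monodromy is big on
complements of the parts of `T m` in the parts `H m μ` of `H^m_dR(X)`. -/
def BigRel {n : ℕ} {M : Type w} (X : Cover.{u, v} k n) (H : ∀ m : ℕ, M → Submodule k (X.DR m))
    (T : ∀ m : ℕ, Submodule k (X.DR m)) : Prop :=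
  (∀ m, ∀ x ∈ T m, x ≠ 0 → ∃ m' N : ℕ, X.hodge (m + m') N = ⊤ ∧ X.hodge (m + m') (N + 1) = ⊥ ∧
    ∃ y ∈ T m', ∃ z, X.prod m m' x y z ∧ z ≠ 0) ∧
  ∀ (m : ℕ) (μ : M), BigOn (fun D (x y : H m μ) => X.nabla m D x y)
    (fun i => (X.hodge m i).submoduleOf (H m μ)) ((T m).submoduleOf (H m μ))

end OrdRed
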