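import Pool.Agent.Lib.MP_adc574_ag_GP.Parts3

/-!
# REL, R7: the restriction from `Y` to `X`: base change and weights
-/

set_option autoImplicit false

namespace MPadcGP

universe u v w x

theorem mp_congr' {A : Type u} {B : Type v} [CommRing A] [CommRing B] {R : Type w} {S : Type x}
    [CommRing R] [CommRing S] [Algebra A R] [Algebra B S] {φ ψ : R →+* S} (h : φ = ψ)
    (h1 : CC A B φ) (h2 : CC A B ψ) (e : Fm A R) : mp φ h1 e = mp ψ h2 e := by
  subst h
  rfl

variable {M : Type} [AddCommGroup M] [Fintype M] [DecidableEq M]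

/-- R7a: the restriction commutes with base change. -/
theorem rsH_bc {A : Type u} [CommRing A] {B : Type v} [CommRing B] (φ : A →+* B) {n : ℕ}
    {I₀ I : Ideal (MvPolynomial (Fin n) A)} (hle : I₀ ≤ I) (c : (prC I₀).Ch) :
    (rsH (bI_mono φ hle)).push ((prH φ I₀).push c) = (prH φ I).push ((rsH hle).push c) := by
  have h1 : ∀ J : Finset (Fin n), ((rsH (bI_mono φ hle)).comp (prH φ I₀)).h J =
      ((prH φ I).comp (rsH hle)).h J := by
    intro J
    have hm : ∀ f ∈ I₀, MvPolynomial.map φ f ∈ bI φ I := fun f hf =>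
      Ideal.mem_map_of_mem _ (hle hf)
    have e1 : ((rsH (bI_mono φ hle)).comp (prH φ I₀)).h J =
        cmap φ hm (Finset.Subset.refl J) := by
      apply cmap_unique
      · intro a
        exact ((rsH (bI_mono φ hle)).comp (prH φ I₀)).base J a
      · intro l j hj
        change cmap (RingHom.id B) (rs_mem (bI_mono φ hle)) (Finset.Subset.refl J)
          (cb φ I₀ J (cq I₀ J l hj)) = _
        rw [cb_cq, cmap_cq]
    have e2 : ((prH φ I).comp (rsH hle)).h J = cmap φ hm (Finset.Subset.refl J) := by
      apply cmap_unique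
      · intro a
        exact ((prH φ I).comp (rsH hle)).base J a
      · intro l j hj
        change cb φ I J (cmap (RingHom.id A) (rs_mem hle) (Finset.Subset.refl J)
          (cq I₀ J l hj)) = _
        rw [cmap_cq, cb_cq]
    rw [e1, e2]
  rw [← CovD.Hm.comp_push, ← CovD.Hm.comp_push]
  funext J
  exact mp_congr' (h1 J) (((rsH (bI_mono φ hle)).comp (prH φ I₀)).cc J)
    (((prH φ I).comp (rsH hle)).cc J) (c J)

/-- R7b: the restriction respects the weights. -/
theorem rsH_gr {A : Type u} [CommRing A] {n : ℕ} {I₀ I : Ideal (MvPolynomial (Fin n) A)}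
    {wt : Fin n → M} (hI₀ : IsHomog I₀) (hw₀ : IsWHomog wt I₀) (hI : IsHomog I)
    (hw : IsWHomog wt I) (hle : I₀ ≤ I) : GrX.HmGr (grP hI₀ hw₀) (grP hI hw) (rsH hle) := by
  intro J μ r
  change (gc hI hw J (cmap (RingHom.id A) (rs_mem hle) (Finset.Subset.refl J) r)).coeff μ =
    cmap (RingHom.id A) (rs_mem hle) (Finset.Subset.refl J) ((gc hI₀ hw₀ J r).coeff μ)
  induction r using chart_ind generalizing μ with
  | h1 a =>
    rw [cmap_base, gc_base, gc_base, coeff_single', coeff_single']
    split_ifs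
    · rw [cmap_base]
    · rw [map_zero]
  | h2 l m hm =>
    rw [cmap_cq, gc_cq, gc_cq, coeff_single', coeff_single']
    split_ifs
    · rw [cmap_cq]
    · rw [map_zero]
  | h3 x y hx hy =>
    rw [map_add, map_add, map_add, AddMonoidAlgebra.coeff_add, Finsupp.add_apply, hx, hy,
      AddMonoidAlgebra.coeff_add, Finsupp.add_apply, map_add]
  | h4 x y hx hy =>
    rw [map_mul, map_mul, map_mul, gra_mul, gra_mul, map_sum]
    exact Finset.sum_congr rfl fun ν _ => by rw [hx, hy, map_mul]

end MPadcGP
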