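import Pool.Agent.Lib.MP_adc574_ag_GP.BrS
import Pool.Agent.Lib.MP_adc574_ag_GP.BigR
import Pool.Agent.Lib.MP_adc574_ag_GP.BigHdg
import Pool.Agent.Lib.MP_adc574_ag_GP.Def4
import Pool.Agent.Lib.MP_adc574_ag_GP.R3Rs

/-!
# Big monodromy relative to `T` implies general position relative to `T` (helper4)
-/

set_option autoImplicit false
set_option linter.unusedSectionVars false

namespace OrdRed

open MPadcGP

universe u v w x

theorem finrank_sub' {k : Type u} [Field k] {D : Type v} [AddCommGroup D] [Module k D] (S H : Submodule k D) :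
    Module.finrank k (S.submoduleOf H) = Module.finrank k ↥(S ⊓ H) := by
  have h1 : (S.submoduleOf H).map H.subtype = S ⊓ H := by
    rw [Submodule.submoduleOf, Submodule.map_comap_subtype, inf_comm]
  rw [← h1]
  exact (Submodule.equivMapOfInjective H.subtype Subtype.val_injective (S.submoduleOf H)).finrank_eq

theorem isBigOn_of {k : Type u} [Field k] {ι : Type w} [Add ι] {H : ι → Type v} [∀ a, AddCommGroup (H a)]
    [∀ a, Module k (H a)] {nab : ∀ a, Derivation ℤ k k → H a → H a → Prop} {Fl : ∀ a, ℕ → Submodule k (H a)}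
    {T : ∀ a, Submodule k (H a)} {a : ι} (h : BigOn (nab a) (Fl a) (T a)) : MPadcGP3.IsBigOn nab Fl T a := by
  obtain ⟨V, B, h1, h2, h3⟩ := h
  refine ⟨V, B, h1, ?_, ?_, fun r W hW ω hω g hg => h3 r W hW ω hω g hg.det hg.fix hg.map hg.isom⟩
  · rcases h2 with h2 | ⟨h2, h2' | ⟨h2', -⟩⟩
    · exact Or.inl h2
    · exact Or.inr ⟨h2, Or.inl h2'⟩
    · exact Or.inr ⟨h2, Or.inr h2'⟩
  · rintro ⟨x, hx, hne⟩
    rcases h2 with h2 | ⟨h2, h2' | ⟨h2', h4⟩⟩
    · exact absurd (h2 x hx x hx) hne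
    · exact absurd (h2' x hx) hne
    · exact h4

section general

variable {k : Type u} [Field k] {n : ℕ} {X : CovD.{u, v} k n} {M : Type} [AddCommGroup M]
  [Fintype M] [DecidableEq M] (W : GrX X M)

/-- The projector on the part of weight `μ`, for the cover of `X`. -/
noncomputable def pC (m : ℕ) (μ : M) : (cov X).DR m →ₗ[k] (cov X).DR m :=
  (cmp X m : X.HdR m →ₗ[k] (cov X).DR m) ∘ₗ pH W m μ ∘ₗ ((cmp X m).symm : (cov X).DR m →ₗ[k] X.HdR m)

theorem pC_cmp (m : ℕ) (μ : M) (x : X.HdR m) : pC W m μ (cmp X m x) = cmp X m (pH W m μ x) := by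
  change cmp X m (pH W m μ ((cmp X m).symm (cmp X m x))) = _
  rw [LinearEquiv.symm_apply_apply]

theorem pC_mem (m : ℕ) (μ : M) (x : (cov X).DR m) : pC W m μ x ∈ HC W m μ := by
  obtain ⟨x, rfl⟩ := (cmp X m).surjective x
  rw [pC_cmp]
  exact ⟨_, pH_mem W m μ x, rfl⟩

theorem sum_pC (m : ℕ) (x : (cov X).DR m) : ∑ μ, pC W m μ x = x := by
  obtain ⟨x, rfl⟩ := (cmp X m).surjective x
  have h1 : ∀ μ, pC W m μ (cmp X m x) = cmp X m (pH W m μ x) := fun μ => pC_cmp W m μ x
  rw [Finset.sum_congr rfl fun μ _ => h1 μ, ← map_sum, sum_pH]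

theorem pC_of_mem {m : ℕ} {μ : M} {x : (cov X).DR m} (hx : x ∈ HC W m μ) (ν : M) :
    pC W m ν x = if ν = μ then x else 0 := by
  obtain ⟨y, hy, rfl⟩ := hx
  have h1 : pC W m ν (cmp X m y) = cmp X m (if ν = μ then y else 0) := by
    rw [pC_cmp, pH_of_mem W hy]
  refine h1.trans ?_
  split_ifs
  · rfl
  · exact map_zero _

theorem hodge_pC {m i : ℕ} {x : (cov X).DR m} (hx : x ∈ (cov X).hodge m i) (μ : M) :
    pC W m μ x ∈ (cov X).hodge m i := by
  obtain ⟨y, rfl⟩ := (cmp X m).surjective x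
  obtain ⟨c, hc, rfl⟩ := CovD.mem_Fil.1 (hodge_iff.1 hx)
  rw [pC_cmp, pH_cl]
  exact hodge_iff.2 (CovD.mem_Fil.2 ⟨_, W.P_mem_Fi hc μ, rfl⟩)

theorem stable_pC {m : ℕ} {S : Submodule k ((cov X).DR m)} (hS : S ≤ ⨆ μ, S ⊓ HC W m μ) {x : (cov X).DR m}
    (hx : x ∈ S) (ν : M) : pC W m ν x ∈ S := by
  refine Submodule.iSup_induction _ (motive := fun x => pC W m ν x ∈ S) (hS hx) (fun μ y hy => ?_) ?_ ?_
  · rw [pC_of_mem W hy.2]
    split_ifs
    · exact hy.1
    · exact Submodule.zero_mem _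
  · rw [map_zero]
    exact Submodule.zero_mem _
  · intro y z hy hz
    rw [map_add]
    exact Submodule.add_mem _ hy hz

theorem exists_bilC : ∃ β : ∀ m m' : ℕ, (cov X).DR m →ₗ[k] (cov X).DR m' →ₗ[k] (cov X).DR (m + m'),
    (∀ m m' x y z, (cov X).prod m m' x y z ↔ z = β m m' x y) ∧
    ∀ m m' μ μ', ∀ x ∈ HC W m μ, ∀ y ∈ HC W m' μ', β m m' x y ∈ HC W (m + m') (μ + μ') := by
  obtain ⟨b, hb⟩ := X.isHodge.bil
  let β : ∀ m m' : ℕ, (cov X).DR m →ₗ[k] (cov X).DR m' →ₗ[k] (cov X).DR (m + m') := fun m m' =>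
    ((b m m').compl₁₂ ((cmp X m).symm : (cov X).DR m →ₗ[k] X.HdR m)
      ((cmp X m').symm : (cov X).DR m' →ₗ[k] X.HdR m')).compr₂ (cmp X (m + m') : X.HdR (m + m') →ₗ[k] (cov X).DR (m + m'))
  have hβ : ∀ m m' x y, β m m' (cmp X m x) (cmp X m' y) = cmp X (m + m') (b m m' x y) := by
    intro m m' x y
    change cmp X (m + m') (b m m' ((cmp X m).symm (cmp X m x)) ((cmp X m').symm (cmp X m' y))) = _
    rw [LinearEquiv.symm_apply_apply, LinearEquiv.symm_apply_apply]
  have h1 : ∀ m m' x y z, (cov X).prod m m' x y z ↔ z = β m m' x y := by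
    intro m m' x y z
    obtain ⟨x, rfl⟩ := (cmp X m).surjective x
    obtain ⟨y, rfl⟩ := (cmp X m').surjective y
    obtain ⟨z, rfl⟩ := (cmp X (m + m')).surjective z
    rw [hβ, prod_iff]
    have h2 : X.cupRel m m' x y z ↔ z = b m m' x y := (hb m m' x y z).trans eq_comm
    rw [h2]
    exact ⟨fun h => by rw [h], fun h => (cmp X (m + m')).injective h⟩
  refine ⟨β, h1, ?_⟩
  rintro m m' μ μ' _ ⟨x, hx, rfl⟩ _ ⟨y, hy, rfl⟩
  obtain ⟨c, hc, rfl⟩ := W.mem_HW.1 hx
  obtain ⟨d, hd, rfl⟩ := W.mem_HW.1 hy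
  have h2 : X.cupRel m m' (X.cl m c) (X.cl m' d)
      (X.cl (m + m') ⟨X.cup (c : X.Ch) (d : X.Ch), CovD.cup_mem_Zc c.2 d.2⟩) := ⟨c, d, _, rfl, rfl, rfl, rfl⟩
  have h3 := (h1 m m' _ _ _).1 (prod_iff.2 h2)
  have h4 : β m m' (cmp X m (X.cl m c)) (cmp X m' (X.cl m' d)) ∈ HC W (m + m') (μ + μ') := by
    rw [← h3]
    exact ⟨_, W.mem_HW.2 ⟨_, W.cup_mem_Wt hc hd, rfl⟩, rfl⟩
  exact h4

/-- Big monodromy relative to `T` implies general position relative to `T`. -/
theorem generalRel_of_bigC [CharZero k] (hfin : ∀ m, FiniteDimensional k (X.HdR m))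
    {T : ∀ m, Submodule k ((cov X).DR m)} (hT : ∀ m, ∀ x ∈ T m, ∀ μ, pC W m μ x ∈ T m)
    (h : BigRel (cov X) (HC W) T) : GeneralRel (cov X) (HC W) T := by
  obtain ⟨hnd, hbig⟩ := h
  obtain ⟨β, hβ, hβw⟩ := exists_bilC W
  let i1 : ∀ a : ℕ × M, AddCommGroup ↥(HC W a.1 a.2) := fun _ => inferInstance
  let i2 : ∀ a : ℕ × M, Module k ↥(HC W a.1 a.2) := fun _ => inferInstance
  have i3 : ∀ m, FiniteDimensional k ((cov X).DR m) := fun m => by
    have := hfin m
    exact Module.Finite.equiv (cmp X m)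
  have i4 : ∀ a : ℕ × M, FiniteDimensional k ↥(HC W a.1 a.2) := fun a => by
    have := i3 a.1
    infer_instance
  have hhod : ∀ m i, (cov X).hodge m i = (X.Fil m i).map (cmp X m : X.HdR m →ₗ[k] (cov X).DR m) := hodge_map
  have hF := X.isHodge
  have key : MPadcGP3.InGeneralPosition (H := fun a : ℕ × M => ↥(HC W a.1 a.2))
      (fun a D x y => (cov X).nabla a.1 D x y) (fun a i => ((cov X).hodge a.1 i).submoduleOf (HC W a.1 a.2))
      (fun a b x y z => (cov X).prod a.1 b.1 x y z) (fun _ _ => ∅)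
      (fun a => (T a.1).submoduleOf (HC W a.1 a.2)) := by
    refine MPadcGP3.inGeneralPosition_of_big ?_ ?_ ?_ ?_ ?_ fun a => isBigOn_of (hbig a.1 a.2)
    · intro a i x hx
      change (x : (cov X).DR a.1) ∈ (cov X).hodge a.1 i
      have hx' : (x : (cov X).DR a.1) ∈ (cov X).hodge a.1 (i + 1) := hx
      rw [hhod] at hx' ⊢
      exact Submodule.map_mono (hF.anti a.1 i) hx'
    · intro a
      rw [eq_top_iff]
      intro x _
      change (x : (cov X).DR a.1) ∈ (cov X).hodge a.1 0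
      have h0 : X.Fil a.1 0 = ⊤ := hF.zero a.1
      rw [hhod, h0, Submodule.map_top, LinearEquiv.range]
      exact Submodule.mem_top
    · intro a b i j x hx y hy z hz
      change (z : (cov X).DR (a.1 + b.1)) ∈ (cov X).hodge (a.1 + b.1) (i + j)
      have hx' : (x : (cov X).DR a.1) ∈ (cov X).hodge a.1 i := hx
      have hy' : (y : (cov X).DR b.1) ∈ (cov X).hodge b.1 j := hy
      have hz' : (cov X).prod a.1 b.1 (x : (cov X).DR a.1) (y : (cov X).DR b.1) (z : (cov X).DR (a.1 + b.1)) := hz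
      obtain ⟨x0, hx0⟩ := (cmp X a.1).surjective (x : (cov X).DR a.1)
      obtain ⟨y0, hy0⟩ := (cmp X b.1).surjective (y : (cov X).DR b.1)
      obtain ⟨z0, hz0⟩ := (cmp X (a.1 + b.1)).surjective (z : (cov X).DR (a.1 + b.1))
      rw [← hx0] at hx' hz'
      rw [← hy0] at hy' hz'
      rw [← hz0] at hz' ⊢
      exact hodge_iff.2 (hF.mul a.1 b.1 i j x0 (hodge_iff.1 hx') y0 (hodge_iff.1 hy') z0 (prod_iff.1 hz'))
    · refine ⟨fun a b => LinearMap.mk₂ k (fun x y => ⟨β a.1 b.1 x y, hβw a.1 b.1 a.2 b.2 x x.2 y y.2⟩)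
        (fun x x' y => Subtype.ext ?_) (fun c x y => Subtype.ext ?_) (fun x y y' => Subtype.ext ?_)
        (fun c x y => Subtype.ext ?_), fun a b x y z => ?_⟩
      · change β a.1 b.1 ((x : (cov X).DR a.1) + x') y = _
        rw [map_add]
        rfl
      · change β a.1 b.1 (c • (x : (cov X).DR a.1)) y = _
        rw [map_smul]
        rfl
      · change β a.1 b.1 x ((y : (cov X).DR b.1) + y') = _
        rw [map_add]
        rfl
      · change β a.1 b.1 x (c • (y : (cov X).DR b.1)) = _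
        rw [map_smul]
        rfl
      · exact (hβ a.1 b.1 x y z).trans ⟨fun h => Subtype.ext h, fun h => congrArg Subtype.val h⟩
    · intro a x hx hx0
      have hx0' : (x : (cov X).DR a.1) ≠ 0 := fun h0 => hx0 (Subtype.ext h0)
      obtain ⟨m', N, hN, hN', y, hy, z, hz, hz0⟩ := hnd a.1 x hx hx0'
      have hz' := (hβ _ _ _ _ _).1 hz
      have h1 : ∃ ν, β a.1 m' x (pC W m' ν y) ≠ 0 := by
        by_contra hcon
        push Not at hcon
        apply hz0
        rw [hz', ← sum_pC W m' y, map_sum]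
        exact Finset.sum_eq_zero fun ν _ => hcon ν
      obtain ⟨ν, hν⟩ := h1
      refine ⟨(m', ν), N, ?_, ?_, ⟨pC W m' ν y, pC_mem W m' ν y⟩, hT m' y hy ν,
        ⟨β a.1 m' x (pC W m' ν y), hβw a.1 m' a.2 ν x x.2 _ (pC_mem W m' ν y)⟩, (hβ _ _ _ _ _).2 rfl,
        fun h0 => hν (congrArg Subtype.val h0)⟩
      · rw [eq_top_iff]
        intro t _
        change (t : (cov X).DR (a.1 + m')) ∈ (cov X).hodge (a.1 + m') N
        rw [hN]
        exact Submodule.mem_top
      · rw [eq_bot_iff]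
        intro t ht
        have ht' : (t : (cov X).DR (a.1 + m')) ∈ (cov X).hodge (a.1 + m') (N + 1) := ht
        rw [hN', Submodule.mem_bot] at ht'
        rw [Submodule.mem_bot]
        exact Subtype.ext ht'
  intro P hP hrel m i μ
  rw [← finrank_sub']
  have h1 := key (fun a i => (P a.1 i).submoduleOf (HC W a.1 a.2)) ?_ (m, μ) i
  · exact h1
  · refine ⟨fun a i x hx => hP.mono a.1 i hx, fun a i => ?_, fun a b i j x hx y hy z hz =>
      hP.mul a.1 b.1 i j x hx y hy z hz, fun a j x hx => absurd hx (Set.notMem_empty x), fun a i x hx => ?_⟩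
    · rw [finrank_sub', finrank_sub']
      exact hP.dim a.1 i a.2
    · obtain ⟨p, ⟨hp1, hp2⟩, f, ⟨hf1, hf2⟩, hpf⟩ := Submodule.mem_sup.1 (hrel a.1 i hx)
      have h2 : (x : (cov X).DR a.1) = pC W a.1 a.2 p + pC W a.1 a.2 f := by
        rw [← map_add, hpf]
        change (x : (cov X).DR a.1) = pC W a.1 a.2 (x : (cov X).DR a.1)
        rw [pC_of_mem W x.2, if_pos rfl]
      refine Submodule.mem_sup.2 ⟨⟨pC W a.1 a.2 p, pC_mem W _ _ p⟩, ⟨?_, hT _ p hp2 _⟩,
        ⟨pC W a.1 a.2 f, pC_mem W _ _ f⟩, ⟨?_, hT _ f hf2 _⟩, Subtype.ext h2.symm⟩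
      · exact stable_pC W (hP.homog a.1 i) hp1 a.2
      · exact hodge_pC W hf1 a.2

end general

section proj

open MvPolynomial

variable {k : Type u} [Field k] {n : ℕ} {I₀ I : Ideal (MvPolynomial (Fin n) k)} {M : Type}
  [AddCommGroup M] [Finite M] {w : Fin n → M}

/-- The de Rham cohomology of a smooth projective scheme over a field is finite-dimensional. -/
theorem finite_HdR (hI : IsHomog I) (hs : IsSmoothProj I) (m : ℕ) : FiniteDimensional k ((prC I).HdR m) := by
  obtain ⟨a, ha, h⟩ := exists_dat hI hs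
  obtain ⟨β, i1, i2, lev, z, h', hD⟩ := h k (RingHom.id k) (IsUnit.mk0 _ ha)
  have h1 : bI (RingHom.id k) I = I := by
    rw [bI]
    have h2 : (MvPolynomial.map (RingHom.id k) : MvPolynomial (Fin n) k →+* MvPolynomial (Fin n) k) =
        RingHom.id _ := RingHom.ext fun f => MvPolynomial.map_id f
    rw [h2, Ideal.map_id]
  have h3 : ∀ I' : Ideal (MvPolynomial (Fin n) k), I' = I → FiniteDimensional k ((prC I').HdR m) →
      FiniteDimensional k ((prC I).HdR m) := by
    rintro _ rfl h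
    exact h
  exact h3 _ h1 (hD.self.finite m)

/-- Big monodromy of `X` relative to `Y` implies general position of `X` relative to `Y`. -/
theorem generalRel_of_big [CharZero k] (hI₀ : Homogeneous I₀) (hw₀ : WeightHomogeneous I₀ w) (hI : Homogeneous I)
    (hw : WeightHomogeneous I w) (hle : I₀ ≤ I) (hs : SmoothProj I)
    (h : BigRel (proj I) (part I w) (image I₀ I)) : GeneralRel (proj I) (part I w) (image I₀ I) := by
  classical
  let _ : Fintype M := Fintype.ofFinite M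
  have hI' : IsHomog I := hI
  have hw' : IsWHomog w I := hw
  have hI₀' : IsHomog I₀ := hI₀
  have hw₀' : IsWHomog w I₀ := hw₀
  have hs' : IsSmoothProj I := hs
  have h0 : BigRel (cov (prC I)) (HC (grP hI' hw')) (imC (rsH hle)) →
      GeneralRel (cov (prC I)) (HC (grP hI' hw')) (imC (rsH hle)) := by
    refine generalRel_of_bigC (grP hI' hw') (finite_HdR hI' hs') ?_
    rintro m _ ⟨x, hx, rfl⟩ μ
    obtain ⟨y, hy, hyx⟩ := imU_part (rsH_gr hI₀' hw₀' hI' hw' hle) hx μ
    have h1 : pC (grP hI' hw') m μ (cmp (prC I) m x) = cmp (prC I) m (pH (grP hI' hw') m μ x) :=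
      pC_cmp _ m μ x
    have h2 : pC (grP hI' hw') m μ (cmp (prC I) m x) ∈ imC (rsH hle) m := by
      rw [h1, ← hyx]
      exact ⟨_, imU_of_part hy, rfl⟩
    exact h2
  have h3 : (fun (m : ℕ) (μ : M) => (partF w (fun _ _ h => tr I h) m μ :
      Submodule k ((cov (prC I)).DR m))) = fun m μ => HC (grP hI' hw') m μ :=
    funext fun m => funext fun μ => partF_tr hI' hw' m μ
  have h3' : (fun m : ℕ => (imageF (fun _ _ h => tr I₀ h) (fun _ _ h => tr I h) m :
      Submodule k ((cov (prC I)).DR m))) = fun m => imC (rsH hle) m := funext fun m => imageF_tr hle m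
  have h4 : ∀ (H H' : ∀ m : ℕ, M → Submodule k ((cov (prC I)).DR m))
      (T T' : ∀ m : ℕ, Submodule k ((cov (prC I)).DR m)), H = H' → T = T' →
      (BigRel (cov (prC I)) H' T' → GeneralRel (cov (prC I)) H' T') →
      (BigRel (cov (prC I)) H T → GeneralRel (cov (prC I)) H T) := by
    rintro H H' T T' rfl rfl hH
    exact hH
  have h5 := h4 _ _ _ _ h3 h3' h0
  have h1 : ∀ (f₀ g₀ : ∀ J K : Finset (Fin n), J ⊆ K → (chart I₀ J →ₐ[k] chart I₀ K))
      (f g : ∀ J K : Finset (Fin n), J ⊆ K → (chart I J →ₐ[k] chart I K)), f₀ = g₀ → f = g →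
      (BigRel (cvr I g) (partF w g) (imageF g₀ g) → GeneralRel (cvr I g) (partF w g) (imageF g₀ g)) →
      (BigRel (cvr I f) (partF w f) (imageF f₀ f) → GeneralRel (cvr I f) (partF w f) (imageF f₀ f)) := by
    rintro f₀ g₀ f g rfl rfl hf
    exact hf
  exact h1 _ _ _ _ (funext fun J => funext fun K => funext fun h => restriction_eq I₀ h)
      (funext fun J => funext fun K => funext fun h => restriction_eq I h) h5 h

end proj

end OrdRed
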