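import Mathlib

/-!
# The relative Frobenius of an etale algebra is an isomorphism (helper27)

* `surj_of_unramified`: an unramified algebra of finite type, all of whose `p`-th powers come from the
  base, is a quotient of the base (characteristic `p`).
* `bij_of_frob`: for an etale algebra `P → R` in characteristic `p` the square of the absolute
  Frobenius maps is a pushout.  It is stated for a square `P → Q`, `R → T` where `Q ≃ P`, `T ≃ R` and
  the horizontal maps become the Frobenius maps.
-/

set_option autoImplicit false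

namespace MPadcGP

open TensorProduct

theorem add_pow_of_zero {S : Type*} [CommRing S] {p : ℕ} (hp : p.Prime) (h0 : (p : S) = 0)
    (x y : S) : (x + y) ^ p = x ^ p + y ^ p := by
  obtain ⟨r, hr⟩ := exists_add_pow_prime_eq hp x y
  rw [hr, h0]
  ring

theorem sub_pow_of_zero {S : Type*} [CommRing S] {p : ℕ} (hp : p.Prime) (h0 : (p : S) = 0)
    (x y : S) : (x - y) ^ p = x ^ p - y ^ p := by
  have h := add_pow_of_zero hp h0 (x - y) y
  rw [sub_add_cancel] at h
  rw [h]
  ring

/-- An unramified algebra of finite type, all of whose `p`-th powers come from the base, is a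
quotient of the base. -/
theorem surj_of_unramified {S T : Type*} [CommRing S] [CommRing T] [Algebra S T] {p : ℕ}
    (hp : p.Prime) (h0 : (p : T) = 0) [Algebra.FiniteType S T] [Algebra.FormallyUnramified S T]
    (h : ∀ x : T, ∃ y : S, algebraMap S T y = x ^ p) : Function.Surjective (algebraMap S T) := by
  have hint : Algebra.IsIntegral S T := by
    constructor
    intro x
    obtain ⟨y, hy⟩ := h x
    refine ⟨Polynomial.X ^ p - Polynomial.C y,
      Polynomial.monic_X_pow_sub_C y hp.ne_zero, ?_⟩
    rw [Polynomial.eval₂_sub, Polynomial.eval₂_X_pow, Polynomial.eval₂_C, hy, sub_self]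
  have hfin : Module.Finite S T := Algebra.IsIntegral.finite
  have h0' : (p : T ⊗[S] T) = 0 := by
    have : (p : T ⊗[S] T) = algebraMap T (T ⊗[S] T) (p : T) := by rw [map_natCast]
    rw [this, h0, map_zero]
  have hle : KaehlerDifferential.ideal S T ≤ nilradical (T ⊗[S] T) := by
    rw [← KaehlerDifferential.span_range_eq_ideal, Ideal.span_le]
    rintro _ ⟨x, rfl⟩
    change _ ∈ nilradical (T ⊗[S] T)
    rw [mem_nilradical]
    refine ⟨p, ?_⟩
    obtain ⟨y, hy⟩ := h x
    change ((1 : T) ⊗ₜ[S] x - x ⊗ₜ[S] (1 : T)) ^ p = 0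
    rw [sub_pow_of_zero hp h0', Algebra.TensorProduct.tmul_pow, Algebra.TensorProduct.tmul_pow,
      one_pow, ← hy, Algebra.algebraMap_eq_smul_one, TensorProduct.tmul_smul,
      TensorProduct.smul_tmul', sub_self]
  have hnil : IsNilpotent (KaehlerDifferential.ideal S T) :=
    (Ideal.FG.isNilpotent_iff_le_nilradical (KaehlerDifferential.ideal_fg S T)).2 hle
  have hepi : Algebra.IsEpi S T := by
    rw [Algebra.isEpi_iff_forall_one_tmul_eq]
    intro x
    have h1 := Algebra.FormallyUnramified.ext (R := S) (KaehlerDifferential.ideal S T) hnil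
      (g₁ := Algebra.TensorProduct.includeLeft (R := S) (S := S) (A := T) (B := T))
      (g₂ := Algebra.TensorProduct.includeRight (R := S) (A := T) (B := T)) (by
        intro x
        rw [Ideal.Quotient.eq]
        rw [Algebra.TensorProduct.includeLeft_apply, Algebra.TensorProduct.includeRight_apply]
        rw [← neg_mem_iff, neg_sub]
        exact KaehlerDifferential.one_smul_sub_smul_one_mem_ideal S x)
    exact (DFunLike.congr_fun h1 x).symm
  exact (Algebra.isEpi_iff_surjective_algebraMap_of_finite).1 hepi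

/-- The square of the Frobenius maps of an etale algebra is a pushout. -/
theorem bij_of_frob {P Q R T : Type*} [CommRing P] [CommRing Q] [CommRing R] [CommRing T]
    [Algebra P Q] [Algebra P R] [Algebra P T] [Algebra Q T] [Algebra R T] [IsScalarTower P Q T]
    [IsScalarTower P R T] [Algebra.Etale P R] [Algebra.Etale Q T] {p : ℕ} (hp : p.Prime)
    (h0 : (p : T) = 0) (i : Q ≃+* P) (j : T ≃+* R) (hi : ∀ a, i (algebraMap P Q a) = a ^ p)
    (hj : ∀ r, j (algebraMap R T r) = r ^ p)
    (hij : ∀ q, j (algebraMap Q T q) = algebraMap P R (i q)) :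
    Function.Bijective (Algebra.TensorProduct.lift (Algebra.ofId Q T)
      (IsScalarTower.toAlgHom P R T) (fun _ _ => Commute.all _ _) : Q ⊗[P] R →ₐ[Q] T) := by
  set μ : Q ⊗[P] R →ₐ[Q] T := Algebra.TensorProduct.lift (Algebra.ofId Q T)
      (IsScalarTower.toAlgHom P R T) (fun _ _ => Commute.all _ _) with hμ
  have hμt : ∀ q r, μ (q ⊗ₜ r) = algebraMap Q T q * algebraMap R T r := by
    intro q r
    rw [hμ, Algebra.TensorProduct.lift_tmul]
    rfl
  let _ : Algebra (Q ⊗[P] R) T := μ.toAlgebra
  have hst : IsScalarTower Q (Q ⊗[P] R) T := IsScalarTower.of_algebraMap_eq' μ.comp_algebraMap.symm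
  have hET : Algebra.Etale Q (Q ⊗[P] R) := inferInstance
  have hft : Algebra.FiniteType (Q ⊗[P] R) T := Algebra.FiniteType.of_restrictScalars_finiteType Q _ _
  have hfe : Algebra.FormallyEtale (Q ⊗[P] R) T :=
    Algebra.FormallyEtale.of_restrictScalars (R := Q)
  have hR0 : (p : R) = 0 := by
    rw [← map_natCast j p, h0, map_zero]
  have hS0 : (p : Q ⊗[P] R) = 0 := by
    have h1 : (p : Q ⊗[P] R) = Algebra.TensorProduct.includeRight (R := P) (A := Q) (B := R) (p : R) := by
      rw [map_natCast]
    rw [h1, hR0, map_zero]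
  have hsurj : Function.Surjective μ := by
    refine surj_of_unramified (S := Q ⊗[P] R) (T := T) hp h0 ?_
    intro x
    refine ⟨1 ⊗ₜ j x, ?_⟩
    change μ _ = _
    rw [hμt, map_one, one_mul]
    apply j.injective
    rw [hj, map_pow]
  -- `x ^ p = 1 ⊗ j (μ x)`
  have hpow : ∀ x : Q ⊗[P] R, x ^ p = 1 ⊗ₜ j (μ x) := by
    intro x
    induction x using TensorProduct.induction_on with
    | zero => rw [zero_pow hp.ne_zero, map_zero, map_zero, TensorProduct.tmul_zero]
    | add x y hx hy =>
      rw [add_pow_of_zero hp hS0, hx, hy, map_add, map_add, TensorProduct.tmul_add]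
    | tmul q r =>
      rw [Algebra.TensorProduct.tmul_pow, hμt, map_mul, hij, hj]
      have h1 : q ^ p = algebraMap P Q (i q) := by
        apply i.injective
        rw [hi, map_pow]
      rw [h1, Algebra.algebraMap_eq_smul_one, TensorProduct.smul_tmul, Algebra.smul_def]
  have hker : ∃ e : Q ⊗[P] R, IsIdempotentElem e ∧ RingHom.ker μ = Ideal.span {e} := by
    refine (Ideal.isIdempotentElem_iff_of_fg _ ?_).1 ?_
    · exact Algebra.FinitePresentation.ker_fG_of_surjective μ hsurj
    · exact (Algebra.FormallyEtale.iff_of_surjective (R := Q ⊗[P] R) (S := T) hsurj).1 hfe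
  obtain ⟨e, he, hke⟩ := hker
  have hμe : μ e = 0 := by
    rw [← RingHom.mem_ker, hke]
    exact Ideal.subset_span rfl
  have he0 : e = 0 := by
    have h1 : e ^ p = e := he.pow_eq hp.ne_zero
    rw [← h1, hpow, hμe, map_zero, TensorProduct.tmul_zero]
  refine ⟨?_, hsurj⟩
  rw [injective_iff_map_eq_zero]
  intro x hx
  rw [← RingHom.mem_ker, hke, he0, Ideal.span_singleton_eq_bot.2 rfl] at hx
  exact hx

end MPadcGP
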