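import Pool.Agent.Lib.MP_adc574_ag_GP.CarLocA

/-!
# A `p`-basis of the base is a `p`-basis of an etale algebra (helper27)

`etale_pbasis`: `P → R` etale in characteristic `p`, every element of `P` is uniquely
`∑ e, c e ^ p * b e`; then the same holds for `R`.
-/

set_option autoImplicit false

namespace MPadcGP

open TensorProduct

/-- The Frobenius of a ring in which `p = 0`. -/
def frb {R : Type*} [CommRing R] {p : ℕ} (hp : p.Prime) (h0 : (p : R) = 0) : R →+* R where
  toFun := fun x => x ^ p
  map_one' := one_pow p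
  map_mul' := fun x y => mul_pow x y p
  map_zero' := zero_pow hp.ne_zero
  map_add' := fun x y => add_pow_of_zero hp h0 x y

/-- a copy of a ring -/
private def Cp (R : Type*) : Type _ := R

private instance instCp {R : Type*} [h : CommRing R] : CommRing (Cp R) := h

private theorem pbasis_aux {P Q R T : Type*} [CommRing P] [CommRing Q] [CommRing R] [CommRing T]
    [Algebra P Q] [Algebra P R] [Algebra P T] [Algebra Q T] [Algebra R T] [IsScalarTower P Q T]
    [IsScalarTower P R T] [Algebra.Etale P R] [Algebra.Etale Q T] {p : ℕ} (hp : p.Prime)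
    (h0 : (p : T) = 0) (i : Q ≃+* P) (j : T ≃+* R) (hi : ∀ a, i (algebraMap P Q a) = a ^ p)
    (hj : ∀ r, j (algebraMap R T r) = r ^ p)
    (hij : ∀ q, j (algebraMap Q T q) = algebraMap P R (i q)) {ι : Type*} [Fintype ι] (b : ι → P)
    (hb : ∀ f : P, ∃! c : ι → P, f = ∑ e, c e ^ p * b e) (r : R) :
    ∃! c : ι → R, r = ∑ e, c e ^ p * algebraMap P R (b e) := by
  classical
  have hbij := bij_of_frob (P := P) (Q := Q) (R := R) (T := T) hp h0 i j hi hj hij
  set μ : Q ⊗[P] R →ₐ[Q] T := Algebra.TensorProduct.lift (Algebra.ofId Q T)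
      (IsScalarTower.toAlgHom P R T) (fun _ _ => Commute.all _ _) with hμ
  have hμt : ∀ q r, μ (q ⊗ₜ r) = algebraMap Q T q * algebraMap R T r := by
    intro q r
    rw [hμ, Algebra.TensorProduct.lift_tmul]
    rfl
  -- the basis of `Q` over `P`
  have hsm : ∀ (a : P) (q : Q), i (a • q) = a ^ p * i q := by
    intro a q
    rw [Algebra.smul_def, map_mul, hi]
  have hli : LinearIndependent P fun e => i.symm (b e) := by
    rw [Fintype.linearIndependent_iff]
    intro g hg e
    have h1 : (0 : P) = ∑ e, g e ^ p * b e := by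
      have h2 := congrArg i hg
      rw [map_zero, map_sum] at h2
      rw [← h2]
      refine Finset.sum_congr rfl fun e _ => ?_
      rw [hsm, RingEquiv.apply_symm_apply]
    have h3 : (0 : P) = ∑ e, (fun _ => (0 : P)) e ^ p * b e := by
      symm
      refine Finset.sum_eq_zero fun e _ => ?_
      rw [zero_pow hp.ne_zero, zero_mul]
    exact congrFun ((hb 0).unique h1 h3) e
  have hsp : ⊤ ≤ Submodule.span P (Set.range fun e => i.symm (b e)) := by
    intro q _
    obtain ⟨c, hc, -⟩ := hb (i q)
    have h1 : q = ∑ e, c e • i.symm (b e) := by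
      apply i.injective
      rw [map_sum]
      refine hc.trans (Finset.sum_congr rfl fun e _ => ?_)
      rw [hsm, RingEquiv.apply_symm_apply]
    rw [h1]
    exact Submodule.sum_mem _ fun e _ => Submodule.smul_mem _ _ (Submodule.subset_span ⟨e, rfl⟩)
  let B : Module.Basis ι P Q := Module.Basis.mk hli hsp
  have hB : ∀ e, B e = i.symm (b e) := fun e => Module.Basis.mk_apply hli hsp e
  have key : ∀ c : ι →₀ R, j (μ ((TensorProduct.equivFinsuppOfBasisLeft (N := R) B).symm c)) =
      ∑ e, c e ^ p * algebraMap P R (b e) := by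
    intro c
    rw [TensorProduct.equivFinsuppOfBasisLeft_symm_apply, Finsupp.sum_fintype _ _
      (fun e => TensorProduct.tmul_zero _ _), map_sum, map_sum]
    refine Finset.sum_congr rfl fun e _ => ?_
    rw [hμt, map_mul, hij, hj, hB, RingEquiv.apply_symm_apply, mul_comm]
  have hbij2 : Function.Bijective fun c : ι →₀ R =>
      j (μ ((TensorProduct.equivFinsuppOfBasisLeft (N := R) B).symm c)) :=
    j.bijective.comp (hbij.comp (TensorProduct.equivFinsuppOfBasisLeft (N := R) B).symm.bijective)
  obtain ⟨c, hc⟩ := hbij2.2 r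
  refine ⟨fun e => c e, ?_, ?_⟩
  · change r = _
    rw [← key]
    exact hc.symm
  · intro c' hc'
    have h1 : Finsupp.equivFunOnFinite.symm c' = c := by
      apply hbij2.1
      change j (μ ((TensorProduct.equivFinsuppOfBasisLeft (N := R) B).symm
        (Finsupp.equivFunOnFinite.symm c'))) = _
      rw [key]
      refine Eq.trans ?_ hc.symm
      exact hc'.symm
    funext e
    rw [← h1]
    rfl

/-- A `p`-basis of the base is a `p`-basis of an etale algebra. -/
theorem etale_pbasis {P R : Type*} [CommRing P] [CommRing R] [hPR : Algebra P R]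
    [hE : Algebra.Etale P R] {p : ℕ} (hp : p.Prime) (hP : (p : P) = 0) {ι : Type*} [Fintype ι]
    (b : ι → P) (hb : ∀ f : P, ∃! c : ι → P, f = ∑ e, c e ^ p * b e) (r : R) :
    ∃! c : ι → R, r = ∑ e, c e ^ p * algebraMap P R (b e) := by
  have hR : (p : R) = 0 := by
    rw [← map_natCast (algebraMap P R) p, hP, map_zero]
  let A1 : Algebra P (Cp P) := RingHom.toAlgebra (frb hp hP : P →+* P)
  let A2 : Algebra (Cp P) (Cp R) := hPR
  let A3 : Algebra R (Cp R) := RingHom.toAlgebra (frb hp hR : R →+* R)
  let A4 : Algebra P (Cp R) := RingHom.toAlgebra ((algebraMap P R).comp (frb hp hP) : P →+* R)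
  have T1 : IsScalarTower P (Cp P) (Cp R) := IsScalarTower.of_algebraMap_eq fun _ => rfl
  have T2 : IsScalarTower P R (Cp R) := IsScalarTower.of_algebraMap_eq fun a =>
    (map_pow (algebraMap P R) a p)
  have E2 : Algebra.Etale (Cp P) (Cp R) := hE
  exact pbasis_aux (P := P) (Q := Cp P) (R := R) (T := Cp R) hp hR (RingEquiv.refl P)
    (RingEquiv.refl R) (fun _ => rfl) (fun _ => rfl) (fun _ => rfl) b hb r

end MPadcGP
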