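import Pool.Agent.Lib.MP_adc574_ag_GP.CarLocB

/-!
# The `p`-basis of a polynomial ring over a field with a finite `p`-basis (helper27)
-/

set_option autoImplicit false

namespace MPadcGP

open MvPolynomial

section

variable {κ : Type*} [Field κ] {p : ℕ} [hF : Fact p.Prime] [CharP κ p] {n : ℕ}

/-- the exponent vector of `e` -/
private noncomputable def exv (e : Fin n → Fin p) : Fin n →₀ ℕ := Finsupp.equivFunOnFinite.symm fun i => (e i : ℕ)

omit hF in
private theorem exv_apply (e : Fin n → Fin p) (i : Fin n) : exv e i = (e i : ℕ) := rfl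

omit hF [CharP κ p] in
private theorem prod_eq_mono (e : Fin n → Fin p) :
    ∏ i, (X i : MvPolynomial (Fin n) κ) ^ (e i : ℕ) = monomial (exv e) 1 := by
  rw [monomial_eq, C_1, one_mul, Finsupp.prod_fintype _ _ fun i => pow_zero _]
  rfl

private theorem coeff_term (c : MvPolynomial (Fin n) κ) (m : Fin n →₀ ℕ) (e e' : Fin n → Fin p) :
    coeff (p • m + exv e) (c ^ p * monomial (exv e') 1) = if e' = e then coeff m c ^ p else 0 := by
  have h0 : p ≠ 0 := hF.out.ne_zero
  rw [← map_frobenius_expand p (f := c), coeff_mul_monomial', mul_one]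
  by_cases he : e' = e
  · rw [if_pos he, he, if_pos (by
      intro i
      rw [Finsupp.add_apply]
      omega), add_tsub_cancel_right, coeff_map, coeff_expand_smul _ h0]
    rfl
  · rw [if_neg he]
    split_ifs with hle
    · obtain ⟨i, hi⟩ := Function.ne_iff.1 he
      rw [coeff_map, coeff_expand_of_not_dvd (i := i), map_zero]
      rw [Finsupp.tsub_apply, Finsupp.add_apply, exv_apply, exv_apply]
      intro hd
      apply hi
      have h1 := hle i
      rw [Finsupp.add_apply, exv_apply, exv_apply] at h1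
      have h2 : (p • m) i = p * m i := rfl
      rw [h2] at hd h1
      have h3 := (e i).2
      have h4 := (e' i).2
      obtain ⟨k, hk⟩ := hd
      have h5 : p * m i + (e i : ℕ) = p * k + (e' i : ℕ) := by omega
      have h6 := congrArg (· % p) h5
      simp only [Nat.mul_add_mod, Nat.mod_eq_of_lt h3, Nat.mod_eq_of_lt h4] at h6
      exact Fin.ext h6.symm
    · rfl

theorem poly_pbasis {L : Type*} [Fintype L] {b : L → κ}
    (hb : ∀ a : κ, ∃! c : L → κ, a = ∑ l, c l ^ p * b l) (f : MvPolynomial (Fin n) κ) :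
    ∃! c : L × (Fin n → Fin p) → MvPolynomial (Fin n) κ,
      f = ∑ q, c q ^ p * (C (b q.1) * ∏ i, (X i : MvPolynomial (Fin n) κ) ^ (q.2 i : ℕ)) := by
  classical
  have h0 : p ≠ 0 := hF.out.ne_zero
  have hex : ∃ c : L × (Fin n → Fin p) → MvPolynomial (Fin n) κ,
      f = ∑ q, c q ^ p * (C (b q.1) * ∏ i, (X i : MvPolynomial (Fin n) κ) ^ (q.2 i : ℕ)) := by
    induction f using MvPolynomial.induction_on' with
    | monomial u a =>
      obtain ⟨a', ha', -⟩ := hb a
      let e : Fin n → Fin p := fun i => ⟨u i % p, Nat.mod_lt _ hF.out.pos⟩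
      let m : Fin n →₀ ℕ := Finsupp.equivFunOnFinite.symm fun i => u i / p
      have hu : u = p • m + exv e := by
        ext i
        rw [Finsupp.add_apply, exv_apply]
        exact (Nat.div_add_mod (u i) p).symm
      refine ⟨fun q => if q.2 = e then monomial m (a' q.1) else 0, ?_⟩
      rw [Fintype.sum_prod_type]
      have h1 : ∀ l : L, ∑ e' : Fin n → Fin p, (if e' = e then monomial m (a' l) else 0) ^ p *
          (C (b l) * ∏ i, (X i : MvPolynomial (Fin n) κ) ^ (e' i : ℕ)) =
          monomial u (a' l ^ p * b l) := by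
        intro l
        rw [Finset.sum_eq_single e]
        · rw [if_pos rfl, prod_eq_mono, monomial_pow, C_mul_monomial, monomial_mul, mul_one, ← hu]
        · intro e' _ he'
          rw [if_neg he', zero_pow h0, zero_mul]
        · intro h
          exact absurd (Finset.mem_univ e) h
      refine Eq.trans ?_ (Finset.sum_congr rfl fun l _ => (h1 l).symm)
      rw [← map_sum, ← ha']
    | add f g hf hg =>
      obtain ⟨c, hc⟩ := hf
      obtain ⟨c', hc'⟩ := hg
      refine ⟨c + c', ?_⟩
      rw [hc, hc', ← Finset.sum_add_distrib]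
      refine Finset.sum_congr rfl fun e _ => ?_
      rw [Pi.add_apply, add_pow_char, add_mul]
  obtain ⟨c, hc⟩ := hex
  refine ⟨c, hc, ?_⟩
  intro c' hc'
  have key : ∀ (c : L × (Fin n → Fin p) → MvPolynomial (Fin n) κ) (m : Fin n →₀ ℕ)
      (e : Fin n → Fin p), coeff (p • m + exv e)
        (∑ q, c q ^ p * (C (b q.1) * ∏ i, (X i : MvPolynomial (Fin n) κ) ^ (q.2 i : ℕ))) =
          ∑ l, coeff m (c (l, e)) ^ p * b l := by
    intro c m e
    rw [Fintype.sum_prod_type, coeff_sum]
    refine Finset.sum_congr rfl fun l _ => ?_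
    rw [coeff_sum]
    have h1 : ∀ e' : Fin n → Fin p, coeff (p • m + exv e) (c (l, e') ^ p *
        (C (b l) * ∏ i, (X i : MvPolynomial (Fin n) κ) ^ (e' i : ℕ))) =
        if e' = e then coeff m (c (l, e')) ^ p * b l else 0 := by
      intro e'
      rw [mul_left_comm, coeff_C_mul, prod_eq_mono, coeff_term]
      split_ifs
      · rw [mul_comm]
      · rw [mul_zero]
    rw [Finset.sum_congr rfl fun e' _ => h1 e', Finset.sum_ite_eq', if_pos (Finset.mem_univ e)]
  funext q
  ext m
  have h1 := key c m q.2
  have h2 := key c' m q.2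
  rw [← hc] at h1
  rw [← hc'] at h2
  exact congrFun ((hb _).unique h2 h1) q.1

end

end MPadcGP
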