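import Pool.Agent.Lib.MP_adc574_ag_GP.DRm

/-!
# Forms on an etale algebra over a polynomial ring (helper27)

`R` etale over `A[X_1, …, X_n]`, `x i` the image of `X i`.
* `om_basis`: the `D (x i)` are a basis of `Ω[R⁄A]`.
* `dxI A x I = dx_(i_1) … dx_(i_q)`, `I = {i_1 < … < i_q}`; `form_basis`: the `dxI A x I` are a basis
  of the forms.
* `exists_par`: the partial derivatives.
-/

set_option autoImplicit false

namespace MPadcGP

universe u v

/-- `dx_I`, the factors in increasing order. -/
noncomputable def dxI (A : Type u) {R : Type v} [CommRing A] [CommRing R] [Algebra A R] {n : ℕ}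
    (x : Fin n → R) (I : Finset (Fin n)) : Fm A R :=
  ((I.sort (· ≤ ·)).map fun i => df A (x i)).prod

section

variable {A : Type u} {R : Type v} [CommRing A] [CommRing R] [Algebra A R] {n : ℕ}
  [Algebra (MvPolynomial (Fin n) A) R] [IsScalarTower A (MvPolynomial (Fin n) A) R]
  [Algebra.Etale (MvPolynomial (Fin n) A) R]

variable (A R n) in
/-- The basis `D x_i` of the differentials. -/
theorem om_basis : ∃ B : Module.Basis (Fin n) R (Ω[R⁄A]), ∀ i, B i =
    KaehlerDifferential.D A R (algebraMap (MvPolynomial (Fin n) A) R (MvPolynomial.X i)) := by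
  have h := KaehlerDifferential.isBaseChange_of_formallyEtale A (MvPolynomial (Fin n) A) R
  refine ⟨h.basis (KaehlerDifferential.mvPolynomialBasis A (Fin n)), fun i => ?_⟩
  rw [h.basis_apply]
  have h1 : KaehlerDifferential.mvPolynomialBasis A (Fin n) i =
      KaehlerDifferential.D A _ (MvPolynomial.X i) := by
    rw [Module.Basis.apply_eq_iff, KaehlerDifferential.mvPolynomialBasis_repr_D_X]
  rw [h1, KaehlerDifferential.map_D]

variable (A R n) in
/-- The basis `dx_I` of the forms. -/
theorem form_basis : ∃ B : Module.Basis (Finset (Fin n)) R (Fm A R), ∀ I, B I =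
    dxI A (fun i => algebraMap (MvPolynomial (Fin n) A) R (MvPolynomial.X i)) I := by
  obtain ⟨B, hB⟩ := om_basis A R n
  refine ⟨B.ExteriorAlgebra, fun I => ?_⟩
  rw [ExteriorAlgebra.basis_apply]
  change ExteriorAlgebra.ιMulti R I.card _ = _
  rw [ExteriorAlgebra.ιMulti_apply]
  unfold dxI
  congr 1
  apply List.ext_getElem
  · rw [List.length_ofFn, List.length_map, Finset.length_sort]
  · intro k h1 h2
    rw [List.getElem_ofFn, List.getElem_map]
    unfold df
    congr 1
    rw [Function.comp_apply, hB]
    rfl

variable (A R n) in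
/-- The partial derivatives. -/
theorem exists_par : ∃ θ : Fin n → Derivation A R R, ∀ i j, θ i
    (algebraMap (MvPolynomial (Fin n) A) R (MvPolynomial.X j)) = if i = j then 1 else 0 := by
  obtain ⟨B, hB⟩ := om_basis A R n
  refine ⟨fun i => (B.coord i).compDer (KaehlerDifferential.D A R), fun i j => ?_⟩
  change B.coord i (KaehlerDifferential.D A R _) = _
  rw [← hB, Module.Basis.coord_apply, Module.Basis.repr_self, Finsupp.single_apply]
  by_cases h : i = j
  · rw [if_pos h, if_pos h.symm]
  · rw [if_neg h, if_neg (fun h' => h h'.symm)]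

end

end MPadcGP
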