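import Pool.Agent.Lib.MP_adc574_ag_GP.CarLocC
import Pool.Agent.Lib.MP_adc574_ag_GP.CarLocD

/-!
# The local Cartier isomorphism (helper27)

`κ` a field of characteristic `p` in which every element is a `p`-th power, `R` etale over
`κ[X_1, …, X_n]`, `x i` the image of `X i`. `L_j` = Lie derivative by `x_j ∂/∂x_j`,
`1 - L_j ^ (p - 1)` is the projection to the part of weight `0` in the `j`-th direction.
* `carloc_a`: a closed form is `∑_I c_I ^ p ∏_{i ∈ I} x_i ^ (p - 1) dx_I + dβ`.
* `carloc_b`: if `∑_I c_I ^ p ∏_{i ∈ I} x_i ^ (p - 1) dx_I` is exact then all `c_I = 0`.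
-/

set_option autoImplicit false

namespace MPadcGP

universe u v

section general

variable {A : Type u} {R : Type v} [CommRing A] [CommRing R] [Algebra A R] {n : ℕ}

theorem df_mul_list {x : Fin n → R} (i : Fin n) (l : List (Fin n)) (h : i ∈ l) :
    df A (x i) * (l.map fun i => df A (x i)).prod = 0 := by
  induction l with
  | nil => exact absurd h List.not_mem_nil
  | cons j l ih =>
    rw [List.map_cons, List.prod_cons, ← mul_assoc]
    by_cases hij : i = j
    · rw [hij, df_sq, zero_mul]
    · rw [df_swap, neg_mul, mul_assoc, ih ((List.mem_cons.1 h).resolve_left hij), mul_zero,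
        neg_zero]

theorem df_mul_dxI {x : Fin n → R} {i : Fin n} {I : Finset (Fin n)} (h : i ∈ I) :
    df A (x i) * dxI A x I = 0 :=
  df_mul_list i _ ((Finset.mem_sort _).2 h)

theorem dd_list (x : Fin n → R) (l : List (Fin n)) :
    dd A ((l.map fun i => df A (x i)).prod) = 0 := by
  induction l with
  | nil => rw [List.map_nil, List.prod_nil, dd_one]
  | cons j l ih => rw [List.map_cons, List.prod_cons, dd_mul, ih, dd_df, zero_mul, mul_zero, add_zero]

theorem dd_dxI (x : Fin n → R) (I : Finset (Fin n)) : dd A (dxI A x I) = 0 := dd_list x _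

theorem df_pow_zero {p : ℕ} (h0 : (p : R) = 0) (c : R) : df A (c ^ p) = 0 := by
  unfold df
  rw [Derivation.leibniz_pow, ← Nat.cast_smul_eq_nsmul R, h0, zero_smul, map_zero]

theorem df_pow (c : R) (k : ℕ) : df A (c ^ k) = fz A ((k : R) * c ^ (k - 1)) * df A c := by
  unfold df
  rw [Derivation.leibniz_pow, ← Nat.cast_smul_eq_nsmul R, smul_smul, map_smul, fz_smul]

/-- the form of weight zero -/
noncomputable def wz (p : ℕ) (x : Fin n → R) (c : Finset (Fin n) → R) : Fm A R :=
  ∑ I, fz A (c I ^ p * ∏ i ∈ I, x i ^ (p - 1)) * dxI A x I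

theorem dd_wz {p : ℕ} (h0 : (p : R) = 0) (x : Fin n → R) (c : Finset (Fin n) → R) :
    dd A (wz (A := A) p x c) = 0 := by
  unfold wz
  rw [map_sum]
  refine Finset.sum_eq_zero fun I _ => ?_
  rw [dd_mul, dd_fz, dd_dxI, mul_zero, add_zero]
  have key : ∀ J : Finset (Fin n), J ⊆ I → df A (∏ i ∈ J, x i ^ (p - 1)) * dxI A x I = 0 := by
    intro J
    induction J using Finset.induction_on with
    | empty =>
      intro _
      rw [Finset.prod_empty, df_one, zero_mul]
    | insert j J hj ih =>
      intro hJ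
      have h1 : j ∈ I := hJ (Finset.mem_insert_self j J)
      have h2 := ih ((Finset.subset_insert j J).trans hJ)
      rw [Finset.prod_insert hj, df_mul, add_mul, mul_assoc, h2, mul_zero, zero_add, df_pow,
        mul_assoc, mul_assoc, df_mul_dxI h1, mul_zero, mul_zero]
  rw [df_mul, df_pow_zero h0, mul_zero, add_zero, mul_assoc, key I subset_rfl, mul_zero]

end general

section lie

variable {κ : Type u} {R : Type v} [CommRing κ] [CommRing R] [Algebra κ R] {n : ℕ}

/-- the Lie derivative by `x_j ∂/∂x_j` -/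
noncomputable def Lj (x : Fin n → R) (θ : Fin n → Derivation κ R R) (j : Fin n) :
    AddMonoid.End (Fm κ R) := LL κ ((x j • θ j).restrictScalars ℤ)

theorem pc_theta (θ : Derivation κ R R) : ∀ a : κ, ∃ a', (θ.restrictScalars ℤ) (algebraMap κ R a) =
    algebraMap κ R a' := fun a => ⟨0, by
  rw [map_zero]
  exact θ.map_algebraMap a⟩

variable {x : Fin n → R} {θ : Fin n → Derivation κ R R}

theorem Lj_fz (j : Fin n) (r : R) : Lj x θ j (fz κ r) = fz κ (x j * θ j r) :=
  LL_fz κ (pc_theta _) r

theorem Lj_df (j : Fin n) (t : R) : Lj x θ j (df κ t) = df κ (x j * θ j t) :=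
  LL_df κ (pc_theta _) t

theorem Lj_mul (j : Fin n) (e f : Fm κ R) : Lj x θ j (e * f) = Lj x θ j e * f + e * Lj x θ j f :=
  LL_mul κ (pc_theta _) e f

theorem Lj_dd (j : Fin n) (e : Fm κ R) : Lj x θ j (dd κ e) = dd κ (Lj x θ j e) :=
  LL_dd κ (pc_theta _) e

theorem Lj_cartan (j : Fin n) (e : Fm κ R) :
    Lj x θ j e = dd κ (ct κ (x j • θ j) e) + ct κ (x j • θ j) (dd κ e) := cartan κ (x j • θ j) e

theorem Lj_pow_dd (j : Fin n) (k : ℕ) (e : Fm κ R) :
    (Lj x θ j ^ k) (dd κ e) = dd κ ((Lj x θ j ^ k) e) := by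
  induction k with
  | zero => rfl
  | succ k ih =>
    rw [pow_succ']
    change Lj x θ j ((Lj x θ j ^ k) (dd κ e)) = dd κ (Lj x θ j ((Lj x θ j ^ k) e))
    rw [ih, Lj_dd]

/-- eigenvectors -/
theorem Lj_pow_eigen (j : Fin n) (w : ℕ) (e : Fm κ R) (h : Lj x θ j e = w • e) (k : ℕ) :
    (Lj x θ j ^ k) e = (w ^ k) • e := by
  induction k with
  | zero =>
    rw [pow_zero, pow_zero, one_smul]
    rfl
  | succ k ih =>
    rw [pow_succ']
    change Lj x θ j ((Lj x θ j ^ k) e) = _
    rw [ih, map_nsmul, h, smul_smul, ← pow_succ]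

/-- the projection to the weight zero part in the direction `j` -/
noncomputable def prj (p : ℕ) (x : Fin n → R) (θ : Fin n → Derivation κ R R) (j : Fin n) :
    AddMonoid.End (Fm κ R) := 1 - Lj x θ j ^ (p - 1)

theorem prj_apply (p : ℕ) (j : Fin n) (e : Fm κ R) :
    prj p x θ j e = e - (Lj x θ j ^ (p - 1)) e := rfl

theorem prj_eigen {p : ℕ} (hp : p.Prime) (h0 : (p : R) = 0) (j : Fin n) (w : ℕ) (e : Fm κ R)
    (h : Lj x θ j e = w • e) : prj p x θ j e = if p ∣ w then e else 0 := by
  rw [prj_apply, Lj_pow_eigen j w e h]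
  have hcast : ∀ m : ℕ, m • e = fz κ (m : R) * e := by
    intro m
    rw [map_natCast, nsmul_eq_mul]
  have hmod : ∀ m k : ℕ, m % p = k % p → (m : R) = k := by
    intro m k hmk
    have h1 : ∀ m : ℕ, (m : R) = ((m % p : ℕ) : R) := by
      intro m
      conv_lhs => rw [← Nat.div_add_mod m p]
      rw [Nat.cast_add, Nat.cast_mul, h0, zero_mul, zero_add]
    rw [h1 m, h1 k, hmk]
  split_ifs with hd
  · have h1 : ((w ^ (p - 1) : ℕ) : R) = ((0 : ℕ) : R) := by
      apply hmod
      have h2 : p ∣ w ^ (p - 1) := dvd_pow hd (by have := hp.two_le; omega)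
      rw [Nat.mod_eq_zero_of_dvd h2, Nat.zero_mod]
    rw [hcast, h1, Nat.cast_zero, map_zero, zero_mul, sub_zero]
  · have h1 : ((w ^ (p - 1) : ℕ) : R) = ((1 : ℕ) : R) := by
      apply hmod
      have h2 : IsCoprime (w : ℤ) (p : ℤ) := by
        rw [Nat.isCoprime_iff_coprime]
        exact ((Nat.Prime.coprime_iff_not_dvd hp).2 hd).symm
      have h3 := Int.ModEq.pow_card_sub_one_eq_one hp h2
      have h4 : w ^ (p - 1) ≡ 1 [MOD p] := by
        rw [← Int.natCast_modEq_iff]
        push_cast
        exact h3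
      exact h4
    rw [hcast, h1, Nat.cast_one, map_one, one_mul, sub_self]

theorem prj_dd (p : ℕ) (j : Fin n) (e : Fm κ R) :
    prj p x θ j (dd κ e) = dd κ (prj p x θ j e) := by
  rw [prj_apply, prj_apply, Lj_pow_dd, map_sub]

theorem prj_closed {p : ℕ} (hp : p.Prime) (j : Fin n) (e : Fm κ R) (h : dd κ e = 0) :
    ∃ β, e = prj p x θ j e + dd κ β := by
  refine ⟨(Lj x θ j ^ (p - 2)) (ct κ (x j • θ j) e), ?_⟩
  have h1 : (Lj x θ j ^ (p - 1)) e = (Lj x θ j ^ (p - 2)) (Lj x θ j e) := by
    have h2 : p - 1 = (p - 2) + 1 := by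
      have := hp.two_le
      omega
    rw [h2, pow_succ]
    rfl
  rw [← Lj_pow_dd, prj_apply, h1, Lj_cartan, h, map_zero, add_zero, sub_add_cancel]

/-- composition of the projections of a list of directions -/
noncomputable def prl (p : ℕ) (x : Fin n → R) (θ : Fin n → Derivation κ R R) (l : List (Fin n)) :
    AddMonoid.End (Fm κ R) := (l.map (prj p x θ)).prod

theorem prl_nil (p : ℕ) (e : Fm κ R) : prl p x θ [] e = e := rfl

theorem prl_cons (p : ℕ) (j : Fin n) (l : List (Fin n)) (e : Fm κ R) :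
    prl p x θ (j :: l) e = prj p x θ j (prl p x θ l e) := by
  unfold prl
  rw [List.map_cons, List.prod_cons]
  rfl

theorem prl_dd (p : ℕ) (l : List (Fin n)) (e : Fm κ R) :
    prl p x θ l (dd κ e) = dd κ (prl p x θ l e) := by
  induction l with
  | nil => rfl
  | cons j l ih => rw [prl_cons, prl_cons, ih, prj_dd]

theorem prl_closed {p : ℕ} (hp : p.Prime) (l : List (Fin n)) (e : Fm κ R) (h : dd κ e = 0) :
    ∃ β, e = prl p x θ l e + dd κ β := by
  induction l with
  | nil => exact ⟨0, by rw [prl_nil, map_zero, add_zero]⟩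
  | cons j l ih =>
    obtain ⟨β, hβ⟩ := ih
    have h1 : dd κ (prl p x θ l e) = 0 := by rw [← prl_dd, h, map_zero]
    obtain ⟨γ, hγ⟩ := prj_closed (x := x) (θ := θ) hp j _ h1
    refine ⟨γ + β, ?_⟩
    rw [prl_cons, map_add, ← add_assoc, ← hγ, ← hβ]

theorem prl_eigen {p : ℕ} (hp : p.Prime) (h0 : (p : R) = 0) (l : List (Fin n)) (w : Fin n → ℕ)
    (e : Fm κ R) (h : ∀ j, Lj x θ j e = w j • e) :
    prl p x θ l e = if ∀ j ∈ l, p ∣ w j then e else 0 := by
  induction l with
  | nil =>
    rw [prl_nil, if_pos]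
    intro j hj
    exact absurd hj List.not_mem_nil
  | cons j l ih =>
    rw [prl_cons, ih]
    by_cases hl : ∀ j ∈ l, p ∣ w j
    · rw [if_pos hl, prj_eigen hp h0 j (w j) e (h j)]
      by_cases hj : p ∣ w j
      · rw [if_pos hj, if_pos]
        intro i hi
        rcases List.mem_cons.1 hi with h1 | h1
        · rw [h1]
          exact hj
        · exact hl i h1
      · rw [if_neg hj, if_neg]
        intro h1
        exact hj (h1 j List.mem_cons_self)
    · rw [if_neg hl, map_zero, if_neg]
      intro h1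
      exact hl fun i hi => h1 i (List.mem_cons_of_mem _ hi)

/-- the weights of the forms `c ^ p x ^ e dx_I` -/
theorem Lj_piece {p : ℕ} (h0 : (p : R) = 0) (hθ : ∀ i j, θ i (x j) = if i = j then 1 else 0)
    (c : R) (e : Fin n → ℕ) (I : Finset (Fin n)) (j : Fin n) :
    Lj x θ j (fz κ (c ^ p * ∏ i, x i ^ e i) * dxI κ x I) =
      (e j + if j ∈ I then 1 else 0) • (fz κ (c ^ p * ∏ i, x i ^ e i) * dxI κ x I) := by
  classical
  -- the differentials
  have h1 : ∀ l : List (Fin n), Lj x θ j ((l.map fun i => df κ (x i)).prod) =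
      (l.count j) • (l.map fun i => df κ (x i)).prod := by
    intro l
    induction l with
    | nil =>
      rw [List.map_nil, List.prod_nil, List.count_nil, zero_smul, ← map_one (fz κ), Lj_fz,
        Derivation.map_one_eq_zero, mul_zero, map_zero]
    | cons i l ih =>
      rw [List.map_cons, List.prod_cons, Lj_mul, ih, Lj_df, hθ, List.count_cons]
      by_cases hij : j = i
      · rw [if_pos hij, mul_one, hij, beq_self_eq_true, if_pos rfl, add_smul, one_smul,
          mul_smul_comm]
        exact add_comm _ _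
      · rw [if_neg hij, mul_zero, df_zero, zero_mul, zero_add, mul_smul_comm, if_neg, add_zero]
        intro h
        exact hij (beq_iff_eq.1 h).symm
  have h2 : Lj x θ j (dxI κ x I) = (if j ∈ I then 1 else 0) • dxI κ x I := by
    unfold dxI
    rw [h1]
    congr 1
    split_ifs with hj
    · exact List.count_eq_one_of_mem (Finset.sort_nodup _ _) ((Finset.mem_sort _).2 hj)
    · exact List.count_eq_zero_of_not_mem fun h => hj ((Finset.mem_sort _).1 h)
  -- the functions
  have h3 : ∀ J : Finset (Fin n), x j * θ j (∏ i ∈ J, x i ^ e i) =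
      ((if j ∈ J then e j else 0 : ℕ) : R) * ∏ i ∈ J, x i ^ e i := by
    intro J
    induction J using Finset.induction_on with
    | empty =>
      rw [Finset.prod_empty, Derivation.map_one_eq_zero, mul_zero, if_neg (Finset.notMem_empty j),
        Nat.cast_zero, zero_mul]
    | insert i J hi ih =>
      rw [Finset.prod_insert hi, Derivation.leibniz, smul_eq_mul, smul_eq_mul,
        Derivation.leibniz_pow, hθ]
      by_cases hij : j = i
      · subst hij
        rw [if_neg hi, Nat.cast_zero, zero_mul] at ih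
        rw [if_pos rfl, if_pos (Finset.mem_insert_self j J), mul_add, mul_left_comm, ih, mul_zero,
          zero_add, smul_eq_mul, mul_one, nsmul_eq_mul]
        rcases Nat.eq_zero_or_pos (e j) with h4 | h4
        · rw [h4, Nat.cast_zero]
          ring
        · have h5 : x j ^ e j = x j * x j ^ (e j - 1) := by
            rw [← pow_succ']
            congr 1
            omega
          rw [h5]
          ring
      · rw [if_neg hij, smul_zero, smul_zero, mul_zero, add_zero, mul_left_comm, ih]
        have h4 : (j ∈ insert i J) ↔ j ∈ J := by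
          rw [Finset.mem_insert]
          exact ⟨fun h => h.resolve_left hij, Or.inr⟩
        simp only [h4]
        ring
  have h4 : x j * θ j (c ^ p * ∏ i, x i ^ e i) = (e j : R) * (c ^ p * ∏ i, x i ^ e i) := by
    have h5 : θ j (c ^ p) = 0 := by
      rw [Derivation.leibniz_pow, ← Nat.cast_smul_eq_nsmul R, h0, zero_smul]
    rw [Derivation.leibniz, h5, smul_zero, add_zero, smul_eq_mul, mul_left_comm, h3,
      if_pos (Finset.mem_univ j)]
    ring
  rw [Lj_mul, h2, Lj_fz, h4, map_mul, map_natCast, mul_assoc, ← nsmul_eq_mul, mul_smul_comm,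
    ← add_smul]

end lie

end MPadcGP
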