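import Pool.Agent.Lib.MP_adc574_ag_GP.CarLocE

/-!
# The local Cartier isomorphism: the statements (helper27)

`κ` a field of characteristic `p` with the finite `p`-basis `b : L → κ`, `R` etale over
`κ[X_1, …, X_n]`, `xc κ R n i` the image of `X i`.
* `carloc_pbasis`: every `r` is uniquely `∑_{l, e} c_{l, e} ^ p b_l ∏_i x_i ^ (e i)`, `0 ≤ e i < p`.
* `carloc_a`: a closed form is `∑_l b_l ∑_I c_{l, I} ^ p ∏_{i ∈ I} x_i ^ (p - 1) dx_I + dβ` (`wz`).
* `carloc_b`: if `∑_l b_l ∑_I c_{l, I} ^ p ∏_{i ∈ I} x_i ^ (p - 1) dx_I` is exact, all `c_{l, I} = 0`.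
* `carloc_c`: every form is uniquely `∑_I c_I dx_I`.
-/

set_option autoImplicit false

namespace MPadcGP

universe u v

/-- the coordinates -/
noncomputable def xc (κ : Type u) (R : Type v) [CommRing κ] [CommRing R] (n : ℕ)
    [Algebra (MvPolynomial (Fin n) κ) R] : Fin n → R :=
  fun i => algebraMap (MvPolynomial (Fin n) κ) R (MvPolynomial.X i)

section

variable {κ : Type u} {R : Type v} [Field κ] [CommRing R] [Algebra κ R] {n : ℕ}
  [Algebra (MvPolynomial (Fin n) κ) R] [IsScalarTower κ (MvPolynomial (Fin n) κ) R]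
  [Algebra.Etale (MvPolynomial (Fin n) κ) R]

theorem carloc_c (w : Fm κ R) :
    ∃! c : Finset (Fin n) → R, w = ∑ I, fz κ (c I) * dxI κ (xc κ R n) I := by
  obtain ⟨B, hB⟩ := form_basis κ R n
  have hB' : ∀ I, B I = dxI κ (xc κ R n) I := hB
  refine ⟨fun I => B.repr w I, ?_, ?_⟩
  · have h1 := B.sum_repr w
    change w = _
    rw [← h1]
    refine Finset.sum_congr rfl fun I _ => ?_
    rw [fz_smul, hB', h1]
  · intro c hc
    funext I
    have h1 : w = ∑ I, c I • B I := by
      rw [hc]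
      refine Finset.sum_congr rfl fun I _ => ?_
      rw [fz_smul, hB']
    rw [h1, Module.Basis.repr_sum_self]

variable {p : ℕ} [hF : Fact p.Prime] [CharP κ p] {L : Type*} [Fintype L] {b : L → κ}

omit [Algebra (MvPolynomial (Fin n) κ) R] [IsScalarTower κ (MvPolynomial (Fin n) κ) R]
  [Algebra.Etale (MvPolynomial (Fin n) κ) R] hF [CharP κ p] in
/-- the projections are linear -/
theorem prl_smul (x : Fin n → R) (θ : Fin n → Derivation κ R R) (l : List (Fin n)) (a : κ)
    (e : Fm κ R) : prl p x θ l (a • e) = a • prl p x θ l e := by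
  have h1 : ∀ (j : Fin n) (e : Fm κ R), Lj x θ j (a • e) = a • Lj x θ j e := by
    intro j e
    have h2 : ∀ e : Fm κ R, a • e = fz κ (algebraMap κ R a) * e := by
      intro e
      rw [← fz_smul, algebraMap_smul]
    rw [h2, h2, Lj_mul, Lj_fz, Derivation.map_algebraMap, mul_zero, map_zero, zero_mul, zero_add]
  have h3 : ∀ (j : Fin n) (k : ℕ) (e : Fm κ R), (Lj x θ j ^ k) (a • e) = a • (Lj x θ j ^ k) e := by
    intro j k
    induction k with
    | zero =>
      intro e
      rw [pow_zero]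
      rfl
    | succ k ih =>
      intro e
      rw [pow_succ']
      change Lj x θ j ((Lj x θ j ^ k) (a • e)) = a • Lj x θ j ((Lj x θ j ^ k) e)
      rw [ih, h1]
  induction l with
  | nil => rfl
  | cons j l ih => rw [prl_cons, prl_cons, ih, prj_apply, prj_apply, h3, smul_sub]

omit [Algebra κ R] [IsScalarTower κ (MvPolynomial (Fin n) κ) R] in
theorem carloc_pbasis_aux (hb : ∀ a : κ, ∃! c : L → κ, a = ∑ l, c l ^ p * b l) (r : R) :
    ∃! c : L × (Fin n → Fin p) → R, r = ∑ q, c q ^ p *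
      (algebraMap (MvPolynomial (Fin n) κ) R (MvPolynomial.C (b q.1)) *
        ∏ i, xc κ R n i ^ (q.2 i : ℕ)) := by
  have hP : (p : MvPolynomial (Fin n) κ) = 0 := CharP.cast_eq_zero _ p
  have h := etale_pbasis (R := R) hF.out hP
    (fun q : L × (Fin n → Fin p) => MvPolynomial.C (b q.1) *
      ∏ i, (MvPolynomial.X i : MvPolynomial (Fin n) κ) ^ (q.2 i : ℕ))
    (fun f => poly_pbasis hb f) r
  have h1 : ∀ q : L × (Fin n → Fin p), algebraMap (MvPolynomial (Fin n) κ) R
      (MvPolynomial.C (b q.1) * ∏ i, (MvPolynomial.X i : MvPolynomial (Fin n) κ) ^ (q.2 i : ℕ)) =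
      algebraMap (MvPolynomial (Fin n) κ) R (MvPolynomial.C (b q.1)) *
        ∏ i, xc κ R n i ^ (q.2 i : ℕ) := by
    intro q
    rw [map_mul, map_prod]
    congr 1
    refine Finset.prod_congr rfl fun i _ => ?_
    rw [map_pow]
    rfl
  simp only [h1] at h
  exact h

/-- The `p`-basis of `R`. -/
theorem carloc_pbasis (hb : ∀ a : κ, ∃! c : L → κ, a = ∑ l, c l ^ p * b l) (r : R) :
    ∃! c : L × (Fin n → Fin p) → R, r = ∑ q, c q ^ p *
      (algebraMap κ R (b q.1) * ∏ i, xc κ R n i ^ (q.2 i : ℕ)) := by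
  have h := carloc_pbasis_aux (n := n) hb r
  have h1 : ∀ a : κ, algebraMap (MvPolynomial (Fin n) κ) R (MvPolynomial.C a) = algebraMap κ R a := by
    intro a
    rw [IsScalarTower.algebraMap_apply κ (MvPolynomial (Fin n) κ) R]
    rfl
  simp only [h1] at h
  exact h

/-- the exponent vector of weight zero -/
private def e0 (I : Finset (Fin n)) (i : Fin n) : Fin p :=
  ⟨if i ∈ I then p - 1 else 0, by
    have := hF.out.pos
    split_ifs
    · omega
    · omega⟩

private theorem e0_prod (x : Fin n → R) (I : Finset (Fin n)) :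
    ∏ i, x i ^ ((e0 (p := p) I i : Fin p) : ℕ) = ∏ i ∈ I, x i ^ (p - 1) := by
  rw [← Finset.prod_subset (Finset.subset_univ I)]
  · refine Finset.prod_congr rfl fun i hi => ?_
    simp only [e0, if_pos hi]
  · intro i _ hi
    simp only [e0, if_neg hi, pow_zero]

private theorem wt_iff (e : Fin n → Fin p) (I : Finset (Fin n)) :
    (∀ j ∈ List.finRange n, p ∣ (e j : ℕ) + if j ∈ I then 1 else 0) ↔ e = e0 I := by
  have hp := hF.out.pos
  constructor
  · intro h
    funext j
    have h1 := h j (List.mem_finRange j)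
    have h2 := (e j).2
    apply Fin.ext
    simp only [e0]
    split_ifs at h1 ⊢ with hj
    · have := Nat.le_of_dvd (by omega) h1
      omega
    · rw [add_zero] at h1
      exact Nat.eq_zero_of_dvd_of_lt h1 h2
  · intro h j _
    rw [h]
    simp only [e0]
    split_ifs
    · rw [Nat.sub_add_cancel hp]
    · exact dvd_zero p

/-- the projection of a form to weight zero -/
theorem carloc_proj (hb : ∀ a : κ, ∃! c : L → κ, a = ∑ l, c l ^ p * b l)
    {θ : Fin n → Derivation κ R R}
    (hθ : ∀ i j, θ i (xc κ R n j) = if i = j then 1 else 0) (w : Fm κ R) :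
    ∃ c : L → Finset (Fin n) → R,
      prl p (xc κ R n) θ (List.finRange n) w = ∑ l, b l • wz p (xc κ R n) (c l) := by
  classical
  have h0 : (p : R) = 0 := by
    rw [← map_natCast (algebraMap κ R) p, CharP.cast_eq_zero, map_zero]
  obtain ⟨a, ha, -⟩ := carloc_c (n := n) w
  choose c hc _ using fun I => carloc_pbasis (n := n) hb (a I)
  refine ⟨fun l I => c I (l, e0 I), ?_⟩
  have hsm : ∀ (a : κ) (e : Fm κ R), a • e = fz κ (algebraMap κ R a) * e := by
    intro a e
    rw [← fz_smul, algebraMap_smul]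
  have hw : w = ∑ l, b l • ∑ I, ∑ e, fz κ (c I (l, e) ^ p * ∏ i, xc κ R n i ^ (e i : ℕ)) *
      dxI κ (xc κ R n) I := by
    have h1 : ∀ l, b l • ∑ I, ∑ e, fz κ (c I (l, e) ^ p * ∏ i, xc κ R n i ^ (e i : ℕ)) *
        dxI κ (xc κ R n) I = ∑ I, ∑ e, b l • (fz κ (c I (l, e) ^ p *
          ∏ i, xc κ R n i ^ (e i : ℕ)) * dxI κ (xc κ R n) I) := by
      intro l
      rw [Finset.smul_sum]
      exact Finset.sum_congr rfl fun I _ => Finset.smul_sum
    rw [Finset.sum_congr rfl fun l _ => h1 l, Finset.sum_comm]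
    refine ha.trans (Finset.sum_congr rfl fun I _ => ?_)
    have h2 := hc I
    simp only [Fintype.sum_prod_type] at h2
    have h3 : fz κ (a I) = ∑ l, ∑ e : Fin n → Fin p, fz κ (c I (l, e) ^ p *
        (algebraMap κ R (b l) * ∏ i, xc κ R n i ^ (e i : ℕ))) := by
      conv_lhs => rw [h2]
      rw [map_sum]
      exact Finset.sum_congr rfl fun l _ => map_sum _ _ _
    rw [h3, Finset.sum_mul]
    refine Finset.sum_congr rfl fun l _ => ?_
    rw [Finset.sum_mul]
    refine Finset.sum_congr rfl fun e _ => ?_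
    rw [hsm, mul_left_comm, map_mul, mul_assoc]
  have h2 := congrArg (prl p (xc κ R n) θ (List.finRange n)) hw
  rw [h2, map_sum]
  refine Finset.sum_congr rfl fun l _ => ?_
  rw [prl_smul, map_sum]
  unfold wz
  congr 1
  refine Finset.sum_congr rfl fun I _ => ?_
  rw [map_sum]
  have h1 : ∀ e : Fin n → Fin p, prl p (xc κ R n) θ (List.finRange n)
      (fz κ (c I (l, e) ^ p * ∏ i, xc κ R n i ^ (e i : ℕ)) * dxI κ (xc κ R n) I) =
      if e = e0 I then fz κ (c I (l, e) ^ p * ∏ i, xc κ R n i ^ (e i : ℕ)) * dxI κ (xc κ R n) I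
        else 0 := by
    intro e
    rw [prl_eigen hF.out h0 _ (fun j => (e j : ℕ) + if j ∈ I then 1 else 0) _
      (fun j => Lj_piece h0 hθ (c I (l, e)) (fun i => (e i : ℕ)) I j)]
    simp only [wt_iff]
  rw [Finset.sum_congr rfl fun e _ => h1 e, Finset.sum_ite_eq', if_pos (Finset.mem_univ _),
    e0_prod]

omit [IsScalarTower κ (MvPolynomial (Fin n) κ) R] [Algebra.Etale (MvPolynomial (Fin n) κ) R] in
theorem prl_wz {θ : Fin n → Derivation κ R R}
    (hθ : ∀ i j, θ i (xc κ R n j) = if i = j then 1 else 0) (c : Finset (Fin n) → R) :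
    prl p (xc κ R n) θ (List.finRange n) (wz p (xc κ R n) c) = wz p (xc κ R n) c := by
  classical
  have h0 : (p : R) = 0 := by
    rw [← map_natCast (algebraMap κ R) p, CharP.cast_eq_zero, map_zero]
  unfold wz
  rw [map_sum]
  refine Finset.sum_congr rfl fun I _ => ?_
  have h1 := Lj_piece h0 hθ (c I) (fun i => ((e0 (p := p) I i : Fin p) : ℕ)) I
  rw [e0_prod] at h1
  rw [prl_eigen hF.out h0 _ _ _ h1, if_pos]
  exact (wt_iff (e0 I) I).2 rfl

/-- Every closed form is of weight zero modulo exact forms. -/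
theorem carloc_a (hb : ∀ a : κ, ∃! c : L → κ, a = ∑ l, c l ^ p * b l) (w : Fm κ R)
    (hw : dd κ w = 0) :
    ∃ (c : L → Finset (Fin n) → R) (β : Fm κ R),
      w = ∑ l, b l • wz p (xc κ R n) (c l) + dd κ β := by
  obtain ⟨θ, hθ⟩ := exists_par κ R n
  obtain ⟨c, hc⟩ := carloc_proj hb hθ w
  obtain ⟨β, hβ⟩ := prl_closed (x := xc κ R n) (θ := θ) hF.out (List.finRange n) w hw
  exact ⟨c, β, by rw [← hc]; exact hβ⟩

/-- An exact form of weight zero vanishes. -/
theorem carloc_b (hb : ∀ a : κ, ∃! c : L → κ, a = ∑ l, c l ^ p * b l)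
    (c : L → Finset (Fin n) → R) (β : Fm κ R)
    (h : ∑ l, b l • wz p (xc κ R n) (c l) = dd κ β) : c = 0 := by
  classical
  have h0 : (p : R) = 0 := by
    rw [← map_natCast (algebraMap κ R) p, CharP.cast_eq_zero, map_zero]
  obtain ⟨θ, hθ⟩ := exists_par κ R n
  obtain ⟨c', hc'⟩ := carloc_proj hb hθ β
  have hsm : ∀ (a : κ) (e : Fm κ R), a • e = fz κ (algebraMap κ R a) * e := by
    intro a e
    rw [← fz_smul, algebraMap_smul]
  have h1 : ∑ l, b l • wz (A := κ) p (xc κ R n) (c l) = 0 := by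
    have h2 : prl p (xc κ R n) θ (List.finRange n) (∑ l, b l • wz (A := κ) p (xc κ R n) (c l)) =
        ∑ l, b l • wz (A := κ) p (xc κ R n) (c l) := by
      rw [map_sum]
      refine Finset.sum_congr rfl fun l _ => ?_
      rw [prl_smul, prl_wz hθ]
    rw [← h2, h, prl_dd, hc', map_sum]
    refine Finset.sum_eq_zero fun l _ => ?_
    rw [dd_smul, dd_wz h0, smul_zero]
  have h2 := (carloc_c (κ := κ) (n := n) (0 : Fm κ R)).unique
    (y₁ := fun I => ∑ l, algebraMap κ R (b l) * (c l I ^ p * ∏ i ∈ I, xc κ R n i ^ (p - 1)))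
    (y₂ := fun _ => 0) (by
      rw [← h1]
      unfold wz
      have h3 : ∀ l, b l • ∑ I, fz κ (c l I ^ p * ∏ i ∈ I, xc κ R n i ^ (p - 1)) *
          dxI κ (xc κ R n) I = ∑ I, b l • (fz κ (c l I ^ p * ∏ i ∈ I, xc κ R n i ^ (p - 1)) *
          dxI κ (xc κ R n) I) := fun l => Finset.smul_sum
      rw [Finset.sum_congr rfl fun l _ => h3 l, Finset.sum_comm]
      refine Finset.sum_congr rfl fun I _ => ?_
      rw [map_sum, Finset.sum_mul]
      refine Finset.sum_congr rfl fun l _ => ?_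
      rw [hsm, ← mul_assoc, ← map_mul]) (by
      symm
      refine Finset.sum_eq_zero fun I _ => ?_
      rw [map_zero, zero_mul])
  funext l I
  have h3 : ∑ l, algebraMap κ R (b l) * (c l I ^ p * ∏ i ∈ I, xc κ R n i ^ (p - 1)) = 0 :=
    congrFun h2 I
  have h4 := (carloc_pbasis (n := n) hb (0 : R)).unique
    (y₁ := fun q => if q.2 = e0 I then c q.1 I else 0) (y₂ := 0) (by
      refine Eq.trans h3.symm ?_
      rw [Fintype.sum_prod_type]
      refine Finset.sum_congr rfl fun l _ => ?_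
      rw [Finset.sum_eq_single (e0 I)]
      · rw [if_pos rfl, e0_prod, mul_left_comm]
      · intro e _ he
        rw [if_neg he, zero_pow hF.out.ne_zero, zero_mul]
      · intro h5
        exact absurd (Finset.mem_univ _) h5) (by
      symm
      refine Finset.sum_eq_zero fun e _ => ?_
      rw [Pi.zero_apply, zero_pow hF.out.ne_zero, zero_mul])
  have h5 := congrFun h4 (l, e0 I)
  rw [if_pos rfl, Pi.zero_apply] at h5
  rw [h5]
  rfl

end

end MPadcGP
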