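import Pool.Agent.Lib.MP_adc574_ag_GP.CarLocF
import Pool.Agent.Lib.MP_adc574_ag_GP.CarP

/-!
# The Cartier isomorphism for an etale algebra over a polynomial ring (helper27)

`carP_of_etale`: `κ` a field of characteristic `p` with the finite `p`-basis `b`, `R` etale over
`κ[X_1, …, X_n]`; then `CarP p b R`.
-/

set_option autoImplicit false

namespace MPadcGP

universe u v

section

variable {p : ℕ} [hp : Fact p.Prime] {κ : Type u} [Field κ] [CharP κ p] {L : Type} [Fintype L]
  {b : L → κ} {R : Type v} [CommRing R] [Algebra κ R] {n : ℕ}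

omit [Fact p.Prime] [CharP κ p] in
private theorem dxI_mem (x : Fin n → R) (I : Finset (Fin n)) : dxI κ x I ∈ Fd κ R I.card := by
  have h : ∀ l : List (Fin n), (l.map fun i => df κ (x i)).prod ∈ Fd κ R l.length := by
    intro l
    induction l with
    | nil =>
      rw [List.map_nil, List.prod_nil, ← map_one (fz κ)]
      exact fz_mem 1
    | cons i l ih =>
      rw [List.map_cons, List.prod_cons, List.length_cons, add_comm]
      exact fd_mul (df_mem _) ih
  have h1 := h (I.sort (· ≤ ·))
  rw [Finset.length_sort] at h1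
  exact h1

/-- representatives of the forms `dx_I` -/
private theorem rep_dxI (x : Fin n → R) (I : Finset (Fin n)) :
    Rep p (dxI κ x I) (fz κ (∏ i ∈ I, x i ^ (p - 1)) * dxI κ x I) := by
  have h : ∀ l : List (Fin n), Rep p ((l.map fun i => df κ (x i)).prod)
      (fz κ ((l.map fun i => x i ^ (p - 1)).prod) * (l.map fun i => df κ (x i)).prod) := by
    intro l
    induction l with
    | nil =>
      rw [List.map_nil, List.prod_nil, List.map_nil, List.prod_nil, map_one, mul_one]
      have h := Rep.fz (p := p) (A := κ) (1 : R)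
      rwa [one_pow, map_one] at h
    | cons i l ih =>
      have h := (Rep.df (p := p) (A := κ) (x i)).mul ih
      rw [List.map_cons, List.prod_cons, List.map_cons, List.prod_cons, map_mul, mul_assoc,
        ← mul_assoc (fz κ ((l.map fun i => x i ^ (p - 1)).prod)),
        fz_comm ((l.map fun i => x i ^ (p - 1)).prod) (df κ (x i)), mul_assoc]
      rw [mul_assoc] at h
      exact h
  have h1 := h (I.sort (· ≤ ·))
  have h2 : ((I.sort (· ≤ ·)).map fun i => x i ^ (p - 1)).prod = ∏ i ∈ I, x i ^ (p - 1) := by
    rw [Finset.prod_eq_multiset_prod, ← Finset.sort_eq I (· ≤ ·), Multiset.map_coe,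
      Multiset.prod_coe]
  rw [h2] at h1
  exact h1

/-- representatives of forms -/
private theorem rep_wz (x : Fin n → R) (c : Finset (Fin n) → R) :
    Rep p (∑ I, fz κ (c I) * dxI κ x I) (wz (A := κ) p x c) := by
  refine Rep.sum _ fun I _ => ?_
  rw [map_mul, mul_assoc]
  exact (Rep.fz (c I)).mul (rep_dxI x I)

omit [CharP κ p] in
private theorem pj_wz (x : Fin n → R) (c : Finset (Fin n) → R) (a : ℕ) :
    pj κ a (wz (A := κ) p x c) = wz p x fun I => if I.card = a then c I else 0 := by
  unfold wz
  rw [map_sum]
  refine Finset.sum_congr rfl fun I _ => ?_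
  beta_reduce
  have h1 : fz κ (c I ^ p * ∏ i ∈ I, x i ^ (p - 1)) * dxI κ x I ∈ Fd κ R I.card :=
    fz_mul_mem _ (dxI_mem _ I)
  by_cases h : I.card = a
  · rw [if_pos h]
    rw [h] at h1
    exact pj_of_mem h1
  · rw [if_neg h, zero_pow hp.out.ne_zero, zero_mul, map_zero, zero_mul]
    exact pj_of_ne h1 h

omit [Fact p.Prime] [CharP κ p] in
private theorem pj_smul (a : ℕ) (t : κ) (e : Fm κ R) : pj κ a (t • e) = t • pj κ a e := by
  induction e using homog_ind with
  | h0 => rw [smul_zero, map_zero, smul_zero]
  | h1 q e he =>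
    have h1 : t • e ∈ Fd κ R q := by
      rw [← algebraMap_smul R]
      exact Submodule.smul_mem _ _ he
    by_cases h : q = a
    · subst h
      rw [pj_of_mem he, pj_of_mem h1]
    · rw [pj_of_ne he h, pj_of_ne h1 h, smul_zero]
  | h2 e f he hf => rw [smul_add, map_add, map_add, he, hf, smul_add]

/-- The Cartier isomorphism for an etale algebra over a polynomial ring. -/
theorem carP_of_etale (n : ℕ) [Algebra (MvPolynomial (Fin n) κ) R]
    [IsScalarTower κ (MvPolynomial (Fin n) κ) R] [Algebra.Etale (MvPolynomial (Fin n) κ) R]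
    (hb : PBas p b) : CarP p b R := by
  classical
  have hp0 : p ≠ 0 := hp.out.ne_zero
  constructor
  · intro a ω hω hd
    obtain ⟨c, β, hc⟩ := carloc_a (n := n) hb ω hd
    refine ⟨fun l => ∑ I, fz κ (if I.card = a then c l I else 0) * dxI κ (xc κ R n) I,
      fun l => wz p (xc κ R n) fun I => if I.card = a then c l I else 0, ?_, ?_, ?_, ?_⟩
    · intro l
      refine Submodule.sum_mem _ fun I _ => ?_
      by_cases h : I.card = a
      · rw [if_pos h, ← h]
        exact fz_mul_mem _ (dxI_mem _ I)
      · rw [if_neg h, map_zero, zero_mul]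
        exact Submodule.zero_mem _
    · intro l
      refine Submodule.sum_mem _ fun I _ => ?_
      beta_reduce
      by_cases h : I.card = a
      · rw [if_pos h, ← h]
        exact fz_mul_mem _ (dxI_mem _ I)
      · rw [if_neg h, zero_pow hp0, zero_mul, map_zero, zero_mul]
        exact Submodule.zero_mem _
    · intro l
      exact rep_wz _ _
    · have h1 : ω - ∑ l, b l • wz (A := κ) p (xc κ R n)
          (fun I => if I.card = a then c l I else 0) = pj κ a (dd κ β) := by
        have h2 := congrArg (pj κ a) hc
        rw [pj_of_mem hω, map_add, map_sum] at h2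
        rw [sub_eq_iff_eq_add, add_comm]
        refine h2.trans ?_
        congr 1
        refine Finset.sum_congr rfl fun l _ => ?_
        rw [pj_smul, pj_wz]
      rw [h1]
      refine mem_exq_of_exact (pj_mem a _) ?_
      cases a with
      | zero => exact ⟨0, by rw [map_zero, pj_dd_zero]⟩
      | succ a => exact ⟨pj κ a β, (pj_dd_succ a β).symm⟩
  · intro x z hxz hg
    obtain ⟨g, hg⟩ := hg
    choose c hc _ using fun l => carloc_c (n := n) (x l)
    have h1 : ∀ l, Rep p (x l) (wz (A := κ) p (xc κ R n) (c l)) := by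
      intro l
      have h := rep_wz (p := p) (κ := κ) (xc κ R n) (c l)
      have h2 : x l = ∑ I, fz κ (c l I) * dxI κ (xc κ R n) I := hc l
      rw [h2]
      exact h
    choose g' hg' using fun l => (hxz l).exact_sub (h1 l)
    have h2 := carloc_b (n := n) hb c (g - ∑ l, b l • g' l) (by
      rw [map_sub, hg, map_sum, ← Finset.sum_sub_distrib]
      refine Finset.sum_congr rfl fun l _ => ?_
      rw [dd_smul, hg', smul_sub, sub_sub_cancel])
    intro l
    have h3 : x l = ∑ I, fz κ (c l I) * dxI κ (xc κ R n) I := hc l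
    rw [h3, h2]
    refine Finset.sum_eq_zero fun I _ => ?_
    rw [Pi.zero_apply, Pi.zero_apply, map_zero, zero_mul]

end

end MPadcGP
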