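import Pool.Agent.Lib.MP_adc574_ag_GP.Cq
import Pool.Agent.Lib.MP_adc574_ag_GP.Cw
import Pool.Agent.Lib.MP_adc574_ag_GP.Mod4

/-!
# The standard charts of a projective scheme: finiteness
-/

set_option autoImplicit false

namespace MPadcGP

open MvPolynomial

universe u v w

section Lo

variable {A : Type u} {R : Type v} {S : Type w} [CommRing A] [CommRing R] [CommRing S] [Algebra A R] [Algebra A S]

theorem isLo_of_away {φ : R →ₐ[A] S} {g : R} (h : letI := φ.toRingHom.toAlgebra; IsLocalization.Away g S) :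
    IsLo φ g := by
  let _ : Algebra R S := φ.toRingHom.toAlgebra
  have _ : IsLocalization.Away g S := h
  have hφ : ∀ x, algebraMap R S x = φ x := fun _ => rfl
  refine ⟨?_, ?_, ?_⟩
  · rw [← hφ]
    exact IsLocalization.Away.algebraMap_isUnit g
  · intro r hr
    rw [← hφ, ← map_zero (algebraMap R S)] at hr
    obtain ⟨⟨_, k, rfl⟩, hk⟩ := (IsLocalization.eq_iff_exists (Submonoid.powers g) S).1 hr
    refine ⟨k, ?_⟩
    rw [mul_zero] at hk
    exact hk
  · intro s
    obtain ⟨⟨r, ⟨_, k, rfl⟩⟩, hr⟩ := IsLocalization.surj (Submonoid.powers g) s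
    refine ⟨k, r, ?_⟩
    rw [← hφ, ← hr, mul_comm]
    change φ (g ^ k) * s = φ g ^ k * s
    rw [map_pow]

theorem IsLo.of_mul_unit {φ : R →ₐ[A] S} {g t u : R} (h : IsLo φ g) (hu : IsUnit u) (hg : g = t * u) :
    IsLo φ t := by
  obtain ⟨v, hv⟩ := hu.exists_right_inv
  have hk : ∀ k : ℕ, g ^ k * v ^ k = t ^ k := by
    intro k
    rw [hg, mul_pow, mul_assoc, ← mul_pow u v, hv, one_pow, mul_one]
  refine ⟨?_, ?_, ?_⟩
  · have h1 := h.unit
    rw [hg, map_mul] at h1
    exact isUnit_of_mul_isUnit_left h1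
  · intro r hr
    obtain ⟨k, hk'⟩ := h.ker r hr
    refine ⟨k, ?_⟩
    rw [← hk k, mul_comm (g ^ k), mul_assoc, hk', mul_zero]
  · intro s
    obtain ⟨k, r, hr⟩ := h.surj s
    refine ⟨k, v ^ k * r, ?_⟩
    rw [map_mul, hr, ← map_pow, ← map_pow, ← hk k, map_mul, ← mul_assoc, mul_comm (φ (v ^ k))]

theorem IsLo.of_unit {φ : R →ₐ[A] S} {g t : R} (h : IsLo φ g) (hg : IsUnit g) (ht : IsUnit t) : IsLo φ t := by
  obtain ⟨s, hs⟩ := ht.exists_left_inv
  refine h.of_mul_unit (u := s * g) ((IsUnit.of_mul_eq_one t hs).mul hg) ?_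
  rw [← mul_assoc, mul_comm t s, hs, one_mul]

end Lo

section Ch

variable {A : Type u} [CommRing A] {n : ℕ} {I : Ideal (MvPolynomial (Fin n) A)}

theorem chart_ft (i : Fin n) : Algebra.FiniteType A (chart I {i}) := by
  classical
  refine ⟨⟨Finset.univ.image fun l => cq I {i} l (Finset.mem_singleton_self i), ?_⟩⟩
  rw [eq_top_iff]
  rintro x -
  induction x using chart_ind with
  | h1 a => exact Subalgebra.algebraMap_mem _ a
  | h2 l m hm =>
    refine Algebra.subset_adjoin ?_
    rw [Finset.coe_image, Finset.coe_univ, Set.image_univ]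
    have h1 : m = i := Finset.mem_singleton.1 hm
    subst h1
    exact ⟨l, rfl⟩
  | h3 x y hx hy => exact Subalgebra.add_mem _ hx hy
  | h4 x y hx hy => exact Subalgebra.mul_mem _ hx hy

theorem chart_lo (hI : IsHomog I) {J : Finset (Fin n)} {i : Fin n} (hi : i ∈ J) (l : Fin n) :
    IsLo (tr I (Finset.subset_insert l J)) (cq I J l hi) := by
  have h1 : IsLo (tr I (Finset.subset_insert l J)) (∏ m ∈ insert l J, cq I J m hi) :=
    isLo_of_away (tr_isLocalization hI (Finset.subset_insert l J) hi)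
  have h2 : IsUnit (∏ m ∈ J, cq I J m hi) :=
    Finset.prod_induction _ _ (fun _ _ h1 h2 => h1.mul h2) isUnit_one fun m hm => cq_isUnit I J hm hi
  by_cases hl : l ∈ J
  · refine h1.of_unit ?_ (cq_isUnit I J hl hi)
    rw [Finset.insert_eq_of_mem hl]
    exact h2
  · exact h1.of_mul_unit h2 (Finset.prod_insert hl)

theorem chart_isProj (hI : IsHomog I) : IsProj (prC I) (mon I) := by
  refine ⟨fun J hJ => mon_zero hJ, fun J hJ b hb c hc => mon_add hJ hb hc, fun h hJ b hb => tr_mon h hJ hb,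
    fun i x => mon_span ⟨i, Finset.mem_singleton_self i⟩ x, fun J i hi l => ?_, fun i => chart_ft i⟩
  have h1 := mon_smul_ed (I := I) hi 1 l
  rw [one_smul, pow_one] at h1
  rw [h1]
  exact chart_lo hI hi l

end Ch

end MPadcGP
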