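import Pool.Agent.Lib.MP_adc574_ag_GP.DRm

/-!
# Localization of differential forms
-/

/-
JOB Cf: prove mp_eq_zero. PROOF. Let _ : Algebra R S := φ.toRingHom.toAlgebra; IsScalarTower A R S; IsLocalization (Submonoid.powers t) S (from h). E := S ⊗[R] Fm A R is a ring (Algebra.TensorProduct), S-algebra, i : Fm A R →+* E, e ↦ 1 ⊗ e
(Algebra.TensorProduct.includeRight). (a) 1 ⊗ e = 0 implies t^k • e = 0 for some k: E is the localized module of Fm A R at powers of t (IsLocalizedModule of TensorProduct.mk: instance `IsLocalizedModule.tensorProduct..`/`isLocalizedModule_iff_isBaseChange`: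
(isLocalizedModule_iff_isBaseChange (Submonoid.powers t) S (TensorProduct.mk R S _ 1)).2 (TensorProduct.isBaseChange R _ S), then IsLocalizedModule.eq_zero_iff), and t^k • e = fz A (t^k) * e (fz_smul).
(b) A ring homomorphism ψ : Fm A S →+* E with ψ (fz s) = s ⊗ 1 and ψ (df (φ r)) = 1 ⊗ df r: the R-linear map Ω[R⁄A] → E, x ↦ 1 ⊗ ι x. KaehlerDifferential.isLocalizedModule_map (Submonoid.powers t) : Ω[R⁄A] → Ω[S⁄A] (KaehlerDifferential.map A A R S) is a localized module, the target E has t invertible, so IsLocalizedModule.lift gives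
f : Ω[S⁄A] →ₗ[R] E with f (D (φ r)) = 1 ⊗ df r; it is S-linear (LinearMap.extendScalarsOfIsLocalization). g s := f (D s). Leibniz: g (r * t) = r • g t + t • g r, S-smul on E is multiplication with s ⊗ 1. g (algebraMap a) = 0. g s * g s' + g s' * g s = 0 and g s * g s = 0: all g s are in the
S-span of the elements 1 ⊗ df r (Ω[S⁄A] is the S-span of the D (φ r): for s = (φ t^k)⁻¹ φ r; or by IsLocalizedModule.surj), for which (1 ⊗ df r)(1 ⊗ df r') = 1 ⊗ (df r * df r') anticommute (df_swap, df_sq), S is central. Then exists_hom of DR.lean. (If KaehlerDifferential.isLocalizedModule_map is awkward: g can be defined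
through the square zero extension: R → TrivSqZeroExt S M, r ↦ (φ r, 1 ⊗ df r), t ↦ unit, IsLocalization.lift.)
(c) ψ ∘ mp = i by hom_ext' (on fz r: φ r ⊗ 1 = 1 ⊗ fz r (r • over R); on df r). So mp e = 0 gives 1 ⊗ e = 0, and (a).
-/

set_option autoImplicit false

namespace MPadcGP

universe u v w

section Loc0

open TensorProduct

variable (A : Type u) (R : Type v) (S : Type w) [CommRing A] [CommRing R] [CommRing S] [Algebra A R] [Algebra A S]
  [Algebra R S] [IsScalarTower A R S]

private theorem cf_smul (s : S) (x : S ⊗[R] Fm A R) :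
    s • x = (s ⊗ₜ[R] (1 : Fm A R)) * x := by
  rw [Algebra.smul_def, Algebra.TensorProduct.algebraMap_apply]
  rfl

private theorem cf_comm (s : S) (x : S ⊗[R] Fm A R) :
    (s ⊗ₜ[R] (1 : Fm A R)) * x = x * (s ⊗ₜ[R] (1 : Fm A R)) := by
  induction x using TensorProduct.induction_on with
  | zero => rw [mul_zero, zero_mul]
  | tmul a b =>
    rw [Algebra.TensorProduct.tmul_mul_tmul, Algebra.TensorProduct.tmul_mul_tmul, one_mul, mul_one,
      mul_comm]
  | add x y hx hy => rw [mul_add, add_mul, hx, hy]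

/-- the `R`-linear map `x ↦ 1 ⊗ x` on the Kaehler differentials -/
private noncomputable def cf_f0 : Ω[R⁄A] →ₗ[R] S ⊗[R] Fm A R :=
  (TensorProduct.mk R S (Fm A R) 1).comp (ExteriorAlgebra.ι R)

private theorem cf_f0_apply (x : Ω[R⁄A]) :
    cf_f0 A R S x = (1 : S) ⊗ₜ[R] (ExteriorAlgebra.ι R x : Fm A R) := rfl

private theorem cf_f0_mul (x y : Ω[R⁄A]) : cf_f0 A R S x * cf_f0 A R S y =
    (1 : S) ⊗ₜ[R] ((ExteriorAlgebra.ι R x : Fm A R) * ExteriorAlgebra.ι R y) := by
  rw [cf_f0_apply, cf_f0_apply, Algebra.TensorProduct.tmul_mul_tmul, one_mul]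

private theorem cf_exists_hom (t : R) [IsLocalization (Submonoid.powers t) S] :
    ∃ ψ : Fm A S →+* S ⊗[R] Fm A R, (∀ s, ψ (fz A s) = s ⊗ₜ[R] (1 : Fm A R)) ∧
      ∀ r : R, ψ (df A (algebraMap R S r)) = (1 : S) ⊗ₜ[R] df A r := by
  have hL : IsLocalizedModule (Submonoid.powers t) (KaehlerDifferential.map A A R S) :=
    KaehlerDifferential.isLocalizedModule_map A R S (Submonoid.powers t)
  have hB : IsBaseChange S (KaehlerDifferential.map A A R S) :=
    (isLocalizedModule_iff_isBaseChange (Submonoid.powers t) S _).1 hL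
  let f : Ω[S⁄A] →ₗ[S] S ⊗[R] Fm A R := hB.lift (cf_f0 A R S)
  have hf : ∀ x : Ω[R⁄A], f (KaehlerDifferential.map A A R S x) = cf_f0 A R S x :=
    fun x => hB.lift_eq (cf_f0 A R S) x
  have key1 : ∀ (x : Ω[S⁄A]) (y : Ω[R⁄A]), f x * cf_f0 A R S y + cf_f0 A R S y * f x = 0 := by
    intro x y
    refine hB.inductionOn x (fun x => f x * cf_f0 A R S y + cf_f0 A R S y * f x = 0) ?_ ?_ ?_ ?_
    · rw [map_zero, zero_mul, mul_zero, add_zero]
    · intro m
      rw [hf, cf_f0_mul, cf_f0_mul, ← TensorProduct.tmul_add, io_swap, neg_add_cancel,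
        TensorProduct.tmul_zero]
    · intro s n hn
      have h : f (s • n) * cf_f0 A R S y + cf_f0 A R S y * f (s • n) =
          (s ⊗ₜ[R] (1 : Fm A R)) * (f n * cf_f0 A R S y + cf_f0 A R S y * f n) := by
        rw [map_smul, cf_smul, mul_add, mul_assoc, ← mul_assoc (cf_f0 A R S y), ← cf_comm,
          mul_assoc]
      rw [h, hn, mul_zero]
    · intro a b ha hb
      have h : f (a + b) * cf_f0 A R S y + cf_f0 A R S y * f (a + b) =
          (f a * cf_f0 A R S y + cf_f0 A R S y * f a) +
            (f b * cf_f0 A R S y + cf_f0 A R S y * f b) := by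
        rw [map_add, add_mul, mul_add]
        abel
      rw [h, ha, hb, add_zero]
  have key2 : ∀ x y : Ω[S⁄A], f x * f y + f y * f x = 0 := by
    intro x y
    refine hB.inductionOn y (fun y => f x * f y + f y * f x = 0) ?_ ?_ ?_ ?_
    · rw [map_zero, zero_mul, mul_zero, add_zero]
    · intro m
      rw [hf]
      exact key1 x m
    · intro s n hn
      have h : f x * f (s • n) + f (s • n) * f x =
          (s ⊗ₜ[R] (1 : Fm A R)) * (f x * f n + f n * f x) := by
        rw [map_smul, cf_smul, mul_add, ← mul_assoc (f x), ← cf_comm, mul_assoc, mul_assoc]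
      rw [h, hn, mul_zero]
    · intro a b ha hb
      have h : f x * f (a + b) + f (a + b) * f x =
          (f x * f a + f a * f x) + (f x * f b + f b * f x) := by
        rw [map_add, add_mul, mul_add]
        abel
      rw [h, ha, hb, add_zero]
  have key3 : ∀ x : Ω[S⁄A], f x * f x = 0 := by
    intro x
    refine hB.inductionOn x (fun x => f x * f x = 0) ?_ ?_ ?_ ?_
    · rw [map_zero, zero_mul]
    · intro m
      rw [hf, cf_f0_mul, ExteriorAlgebra.ι_sq_zero, TensorProduct.tmul_zero]
    · intro s n hn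
      have h : f (s • n) * f (s • n) =
          (s ⊗ₜ[R] (1 : Fm A R)) * ((s ⊗ₜ[R] (1 : Fm A R)) * (f n * f n)) := by
        rw [map_smul, cf_smul, mul_assoc, ← mul_assoc (f n), ← cf_comm, mul_assoc]
      rw [h, hn, mul_zero, mul_zero]
    · intro a b ha hb
      have h : f (a + b) * f (a + b) = f a * f a + f b * f b + (f a * f b + f b * f a) := by
        rw [map_add, add_mul, mul_add, mul_add]
        abel
      rw [h, ha, hb, key2, add_zero, add_zero]
  let φ' : S →+* S ⊗[R] Fm A R := Algebra.TensorProduct.includeLeftRingHom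
  have hφ' : ∀ s : S, φ' s = s ⊗ₜ[R] (1 : Fm A R) := fun s => rfl
  let g : S →+ S ⊗[R] Fm A R :=
    { toFun := fun s => f (KaehlerDifferential.D A S s)
      map_zero' := by rw [map_zero, map_zero]
      map_add' := fun a b => by rw [map_add, map_add] }
  have hg : ∀ s, g s = f (KaehlerDifferential.D A S s) := fun s => rfl
  obtain ⟨ψ, h1, h2⟩ := exists_hom (A := A) φ' (fun r x => cf_comm A R S r x) g
    (by
      intro r t
      rw [hg, hg, hg, Derivation.leibniz, map_add, map_smul, map_smul, cf_smul, cf_smul, hφ', hφ'])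
    (by
      intro a
      rw [hg, Derivation.map_algebraMap, map_zero])
    (fun s t => key2 _ _) (fun s => key3 _)
  refine ⟨ψ, fun s => (h1 s).trans (hφ' s), fun r => ?_⟩
  rw [h2, hg, ← KaehlerDifferential.map_D A A R S, hf, cf_f0_apply]
  rfl

private theorem cf_main (t : R) [IsLocalization (Submonoid.powers t) S]
    (h : CC A A (algebraMap R S)) {e : Fm A R} (he : mp (algebraMap R S) h e = 0) :
    ∃ k : ℕ, fz A (t ^ k) * e = 0 := by
  obtain ⟨ψ, h1, h2⟩ := cf_exists_hom A R S t
  have h3 : ψ.comp (mp (algebraMap R S) h) =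
      (Algebra.TensorProduct.includeRight : Fm A R →ₐ[R] S ⊗[R] Fm A R).toRingHom := by
    refine hom_ext' (fun r => ?_) (fun r => ?_)
    · rw [RingHom.comp_apply, mp_fz, h1]
      change (algebraMap R S r) ⊗ₜ[R] (1 : Fm A R) = (1 : S) ⊗ₜ[R] fz A r
      rw [Algebra.algebraMap_eq_smul_one, TensorProduct.smul_tmul, fz_smul, mul_one]
    · rw [RingHom.comp_apply, mp_df, h2]
      rfl
  have h4 : (1 : S) ⊗ₜ[R] e = 0 := by
    have h5 := congrArg (fun F : Fm A R →+* S ⊗[R] Fm A R => F e) h3
    have h6 : ψ (mp (algebraMap R S) h e) = (1 : S) ⊗ₜ[R] e := h5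
    rw [← h6, he, map_zero]
  have hM : IsLocalizedModule (Submonoid.powers t) (TensorProduct.mk R S (Fm A R) 1) :=
    (isLocalizedModule_iff_isBaseChange (Submonoid.powers t) S _).2
      (TensorProduct.isBaseChange R (Fm A R) S)
  obtain ⟨⟨_, k, rfl⟩, hs⟩ := (IsLocalizedModule.eq_zero_iff (Submonoid.powers t)
    (TensorProduct.mk R S (Fm A R) 1)).1 h4
  refine ⟨k, ?_⟩
  rw [← fz_smul]
  exact hs

end Loc0

section Loc

variable {A : Type u} {R : Type v} {S : Type w} [CommRing A] [CommRing R] [CommRing S] [Algebra A R] [Algebra A S]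

/-- `φ : R → S` is a localization at the powers of `t`. -/
structure IsLo (φ : R →ₐ[A] S) (t : R) : Prop where
  unit : IsUnit (φ t)
  ker : ∀ r : R, φ r = 0 → ∃ k : ℕ, t ^ k * r = 0
  surj : ∀ s : S, ∃ (k : ℕ) (r : R), φ r = φ t ^ k * s

/-- The kernel of the localization of forms. -/
theorem mp_eq_zero {φ : R →ₐ[A] S} {t : R} (h : IsLo φ t) {e : Fm A R}
    (he : mp (φ : R →+* S) (CC.of_algHom φ) e = 0) : ∃ k : ℕ, fz A (t ^ k) * e = 0 := by
  let _ : Algebra R S := (φ : R →+* S).toAlgebra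
  have _ : IsScalarTower A R S := IsScalarTower.of_algebraMap_eq fun a => (φ.commutes a).symm
  have hφ : ∀ r, algebraMap R S r = φ r := fun r => rfl
  have _ : IsLocalization (Submonoid.powers t) S := by
    rw [isLocalization_iff]
    refine ⟨?_, ?_, ?_⟩
    · rintro ⟨_, k, rfl⟩
      rw [hφ]
      change IsUnit (φ (t ^ k))
      rw [map_pow]
      exact h.unit.pow k
    · intro s
      obtain ⟨k, r, hr⟩ := h.surj s
      refine ⟨⟨r, ⟨t ^ k, k, rfl⟩⟩, ?_⟩
      rw [hφ, hφ]
      change s * φ (t ^ k) = φ r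
      rw [map_pow, hr, mul_comm]
    · intro x y hxy
      have h1 : φ (x - y) = 0 := by
        rw [map_sub, ← hφ x, ← hφ y, hxy, sub_self]
      obtain ⟨k, hk⟩ := h.ker _ h1
      refine ⟨⟨t ^ k, k, rfl⟩, ?_⟩
      change t ^ k * x = t ^ k * y
      rw [← sub_eq_zero, ← mul_sub, hk]
  exact cf_main A R S t (CC.of_algHom φ) he

end Loc

end MPadcGP
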