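import Pool.Agent.Lib.MP_adc574_ag_GP.Cya

/-!
# The map `O(-d)^r → M` defined by `r` sections of `M(d)`
-/

/-
JOB Cy: prove secMap_single, secMap_ρ, secMap_m.
secMap_single: J is nonempty, unfold secMap, dif_pos, Finsupp.linearCombination_single: the value is r • m J (a + d e_m) (ρ y_m), m = J.min'. By hy J m _ j hj:
ρ y_m = m J (d • ed j m) (ρ y_j), and M.m_add (a + d e_m in OE n 0 J because m in J: for l not in J: l ≠ m, (a + d e_m) l = a l ≥ 0; the sum is -d + d = 0;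
d • ed j m in OE n 0 J by smul_ed_mem): m J (a + d e_m) (m J (d • ed j m) z) = m J (a + d e_m + d • ed j m) z and a + d e_m + d • ed j m = a + d e_j.
secMap_ρ: both sides are additive in f: Oh_ind (for P f := ρ (secMap J f) = secMap K f); for f = single a r: choose j in J, secMap_single for J and for K (a in OE n (-d) K by
OE_mono), M.ρ_m, M.ρ_comp. secMap_m: Oh_ind, sh_single, secMap_single with j in J for the exponents a and b + a (b + a in OE n (0 + -d) J = OE n (-d) J), M.m_add: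
m J (b + a + d e_j) = m J b (m J (a + d e_j)). Useful: a lemma that a + d • Pi.single j 1 is in OE n 0 J for a in OE n (-d) J, j in J (sum_single).
-/

set_option autoImplicit false

namespace MPadcGP

universe u v w

namespace MSys

variable {A : Type u} [CommRing A] {n : ℕ} (M : MSys.{u, v} A n)

/-- The map `O(-d) → M` defined by a section `y` of `M(d)`, on the intersection of the charts `j ∈ J`. -/
noncomputable def secMap (d : ℕ) (y : ∀ j : Fin n, M.N {j}) (J : Finset (Fin n)) :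
    ((Fin n → ℤ) →₀ A) →ₗ[A] M.N J :=
  if h : J.Nonempty then
    Finsupp.linearCombination A fun a => M.m J (a + d • Pi.single (J.min' h) 1)
      (M.ρ (Finset.singleton_subset_iff.2 (J.min'_mem h)) (y (J.min' h)))
  else 0

/-- The map `O(-d)^r → M` defined by `r` sections of `M(d)`. -/
noncomputable def phi {r : ℕ} (d : ℕ) (y : Fin r → ∀ j : Fin n, M.N {j}) (J : Finset (Fin n)) :
    (Fin r → ((Fin n → ℤ) →₀ A)) →ₗ[A] M.N J := ∑ ν, M.secMap d (y ν) J ∘ₗ LinearMap.proj ν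

variable {M}

private theorem cy_mem {d : ℕ} {J : Finset (Fin n)} {j : Fin n} (hj : j ∈ J) {a : Fin n → ℤ}
    (ha : a ∈ OE n (-d) J) : a + d • Pi.single j 1 ∈ OE n 0 J := by
  refine ⟨?_, fun l hl => ?_⟩
  · simp only [Pi.add_apply, Finset.sum_add_distrib, Pi.smul_apply, ← Finset.smul_sum, sum_single, ha.1]
    rw [nsmul_eq_mul, mul_one, neg_add_cancel]
  · have h1 : l ≠ j := fun h => hl (h ▸ hj)
    rw [Pi.add_apply, Pi.smul_apply, Pi.single_eq_of_ne h1, smul_zero, add_zero]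
    exact ha.2 l hl

private theorem cy_add {d : ℕ} {J : Finset (Fin n)} {b a : Fin n → ℤ} (hb : b ∈ OE n 0 J)
    (ha : a ∈ OE n (-d) J) : b + a ∈ OE n (-d) J := by
  have h := add_mem_OE hb ha
  rwa [zero_add] at h

theorem secMap_single {d : ℕ} {y : ∀ j : Fin n, M.N {j}} (hy : M.IsSec d y) {J : Finset (Fin n)} {j : Fin n}
    (hj : j ∈ J) {a : Fin n → ℤ} (ha : a ∈ OE n (-d) J) (r : A) :
    M.secMap d y J (Finsupp.single a r) =
      r • M.m J (a + d • Pi.single j 1) (M.ρ (Finset.singleton_subset_iff.2 hj) (y j)) := by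
  have hJ : J.Nonempty := ⟨j, hj⟩
  have hm : J.min' hJ ∈ J := J.min'_mem hJ
  unfold secMap
  rw [dif_pos hJ, Finsupp.linearCombination_single, hy J (J.min' hJ) hm j hj,
    ← M.m_add J hJ _ (cy_mem hm ha) _ (smul_ed_mem d j hm)]
  have e : a + d • Pi.single (J.min' hJ) 1 + d • ed j (J.min' hJ) = a + d • Pi.single j 1 := by
    unfold ed
    rw [smul_sub]
    abel
  rw [e]

theorem secMap_ρ {d : ℕ} {y : ∀ j : Fin n, M.N {j}} (hy : M.IsSec d y) {J K : Finset (Fin n)} (h : J ⊆ K)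
    (hJ : J.Nonempty) {f : (Fin n → ℤ) →₀ A} (hf : f ∈ Oh A n (-d) J) :
    M.ρ h (M.secMap d y J f) = M.secMap d y K f := by
  obtain ⟨j, hj⟩ := hJ
  refine Oh_ind (P := fun f => M.ρ h (M.secMap d y J f) = M.secMap d y K f) ?_ ?_ ?_ hf
  · rw [map_zero, map_zero, map_zero]
  · intro a ha r
    rw [secMap_single hy hj ha, secMap_single hy (h hj) (OE_mono h ha), map_smul,
      M.ρ_m h ⟨j, hj⟩ _ (cy_mem hj ha), M.ρ_comp]
  · intro f g hf hg
    rw [map_add, map_add, map_add, hf, hg]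

theorem secMap_m {d : ℕ} {y : ∀ j : Fin n, M.N {j}} (hy : M.IsSec d y) {J : Finset (Fin n)} (hJ : J.Nonempty)
    {b : Fin n → ℤ} (hb : b ∈ OE n 0 J) {f : (Fin n → ℤ) →₀ A} (hf : f ∈ Oh A n (-d) J) :
    M.secMap d y J (sh A b f) = M.m J b (M.secMap d y J f) := by
  obtain ⟨j, hj⟩ := hJ
  refine Oh_ind (P := fun f => M.secMap d y J (sh A b f) = M.m J b (M.secMap d y J f)) ?_ ?_ ?_ hf
  · rw [map_zero, map_zero, map_zero]
  · intro a ha r
    rw [sh_single, secMap_single hy hj ha, secMap_single hy hj (cy_add hb ha), map_smul,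
      add_assoc, M.m_add J ⟨j, hj⟩ _ hb _ (cy_mem hj ha)]
  · intro f g hf hg
    rw [map_add, map_add, map_add, map_add, hf, hg]

theorem phi_apply {r d : ℕ} {y : Fin r → ∀ j : Fin n, M.N {j}} {J : Finset (Fin n)}
    (f : Fin r → ((Fin n → ℤ) →₀ A)) : M.phi d y J f = ∑ ν, M.secMap d (y ν) J (f ν) := by
  unfold phi
  rw [LinearMap.sum_apply]
  rfl

theorem phi_ρ {r d : ℕ} {y : Fin r → ∀ j : Fin n, M.N {j}} (hy : ∀ ν, M.IsSec d (y ν)) {J K : Finset (Fin n)}
    (h : J ⊆ K) (hJ : J.Nonempty) {f : Fin r → ((Fin n → ℤ) →₀ A)} (hf : f ∈ Oo A n r (-d) J) :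
    M.ρ h (M.phi d y J f) = M.phi d y K f := by
  rw [phi_apply, phi_apply, map_sum]
  exact Finset.sum_congr rfl fun ν _ => secMap_ρ (hy ν) h hJ (mem_Oo.1 hf ν)

theorem phi_m {r d : ℕ} {y : Fin r → ∀ j : Fin n, M.N {j}} (hy : ∀ ν, M.IsSec d (y ν)) {J : Finset (Fin n)}
    (hJ : J.Nonempty) {b : Fin n → ℤ} (hb : b ∈ OE n 0 J) {f : Fin r → ((Fin n → ℤ) →₀ A)}
    (hf : f ∈ Oo A n r (-d) J) : M.phi d y J (shV A r b f) = M.m J b (M.phi d y J f) := by
  rw [phi_apply, phi_apply, map_sum]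
  exact Finset.sum_congr rfl fun ν _ => secMap_m (hy ν) hJ hb (mem_Oo.1 hf ν)

end MSys

end MPadcGP
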