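import Pool.Agent.Lib.MP_adc574_ag_GP.Cn
import Pool.Agent.Lib.MP_adc574_ag_GP.Cy

/-!
# The kernel of `O(-d)^r → M` is a coherent system
-/

set_option autoImplicit false

namespace MPadcGP

universe u v w

namespace MSys

variable {A : Type u} [CommRing A] {n : ℕ} (M : MSys.{u, v} A n)

/-- The kernel of `O(-d)^r → M`. -/
noncomputable def kr {r : ℕ} (d : ℕ) (y : Fin r → ∀ j : Fin n, M.N {j}) (J : Finset (Fin n)) :
    Submodule A (Fin r → ((Fin n → ℤ) →₀ A)) :=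
  if J.Nonempty then Oo A n r (-d) J ⊓ LinearMap.ker (M.phi d y J) else ⊥

variable {M}

theorem mem_kr {r d : ℕ} {y : Fin r → ∀ j : Fin n, M.N {j}} {J : Finset (Fin n)} (hJ : J.Nonempty)
    {f : Fin r → ((Fin n → ℤ) →₀ A)} : f ∈ M.kr d y J ↔ f ∈ Oo A n r (-d) J ∧ M.phi d y J f = 0 := by
  unfold kr
  rw [if_pos hJ]
  exact Iff.rfl

theorem mem_kr_empty {r d : ℕ} {y : Fin r → ∀ j : Fin n, M.N {j}} {f : Fin r → ((Fin n → ℤ) →₀ A)} :
    f ∈ M.kr d y ∅ ↔ f = 0 := by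
  unfold kr
  rw [if_neg (by simp)]
  exact Submodule.mem_bot A

theorem kr_mono {r d : ℕ} {y : Fin r → ∀ j : Fin n, M.N {j}} (hy : ∀ ν, M.IsSec d (y ν)) {J K : Finset (Fin n)}
    (h : J ⊆ K) : M.kr d y J ≤ M.kr d y K := by
  intro f hf
  rcases Finset.eq_empty_or_nonempty J with rfl | hJ
  · rw [mem_kr_empty.1 hf]
    exact Submodule.zero_mem _
  · obtain ⟨h1, h2⟩ := (mem_kr hJ).1 hf
    refine (mem_kr (hJ.mono h)).2 ⟨Oo_mono h h1, ?_⟩
    rw [← phi_ρ hy h hJ h1, h2, map_zero]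

theorem kr_shV {r d : ℕ} {y : Fin r → ∀ j : Fin n, M.N {j}} (hy : ∀ ν, M.IsSec d (y ν)) {J : Finset (Fin n)}
    (hJ : J.Nonempty) {b : Fin n → ℤ} (hb : b ∈ OE n 0 J) {f : Fin r → ((Fin n → ℤ) →₀ A)}
    (hf : f ∈ M.kr d y J) : shV A r b f ∈ M.kr d y J := by
  obtain ⟨h1, h2⟩ := (mem_kr hJ).1 hf
  exact (mem_kr hJ).2 ⟨shV_mem hb h1, by rw [phi_m hy hJ hb h1, h2, map_zero]⟩

open Classical in
/-- The kernel of `O(-d)^r → M` as a system. -/
noncomputable def KS {r d : ℕ} {y : Fin r → ∀ j : Fin n, M.N {j}} (hy : ∀ ν, M.IsSec d (y ν)) :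
    MSys.{u, u} A n where
  N J := ↥(M.kr d y J)
  ρ h := Submodule.inclusion (kr_mono hy h)
  ρ_id _ _ := rfl
  ρ_comp _ _ _ := rfl
  m J b := if h : ∀ x ∈ M.kr d y J, shV A r b x ∈ M.kr d y J then (shV A r b).restrict h else 0
  m_zero J hJ x := by
    rw [dif_pos fun x hx => kr_shV hy hJ (zero_mem_OE J) hx]
    apply Subtype.ext
    funext ν
    exact sh_zero _
  m_add J hJ b hb c hc x := by
    rw [dif_pos fun x hx => kr_shV hy hJ (by simpa using add_mem_OE hb hc) hx,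
      dif_pos fun x hx => kr_shV hy hJ hb hx, dif_pos fun x hx => kr_shV hy hJ hc hx]
    apply Subtype.ext
    funext ν
    exact sh_add _ _ _
  ρ_m {J K} h hJ b hb x := by
    rw [dif_pos fun x hx => kr_shV hy hJ hb hx,
      dif_pos fun x hx => kr_shV hy (hJ.mono h) (OE_mono h hb) hx]
    rfl

/-- The inclusion of the kernel. -/
noncomputable def kv {r d : ℕ} {y : Fin r → ∀ j : Fin n, M.N {j}} (hy : ∀ ν, M.IsSec d (y ν)) (J : Finset (Fin n)) :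
    (KS hy).N J →ₗ[A] (Fin r → ((Fin n → ℤ) →₀ A)) := (M.kr d y J).subtype

theorem kv_inj {r d : ℕ} {y : Fin r → ∀ j : Fin n, M.N {j}} (hy : ∀ ν, M.IsSec d (y ν)) {J : Finset (Fin n)}
    {x x' : (KS hy).N J} (h : kv hy J x = kv hy J x') : x = x' := Subtype.ext h

theorem kv_mem {r d : ℕ} {y : Fin r → ∀ j : Fin n, M.N {j}} (hy : ∀ ν, M.IsSec d (y ν)) {J : Finset (Fin n)}
    (x : (KS hy).N J) : kv hy J x ∈ M.kr d y J := x.2

theorem exists_kv {r d : ℕ} {y : Fin r → ∀ j : Fin n, M.N {j}} (hy : ∀ ν, M.IsSec d (y ν)) {J : Finset (Fin n)}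
    {f : Fin r → ((Fin n → ℤ) →₀ A)} (hf : f ∈ M.kr d y J) : ∃ x : (KS hy).N J, kv hy J x = f := ⟨⟨f, hf⟩, rfl⟩

theorem kv_ρ {r d : ℕ} {y : Fin r → ∀ j : Fin n, M.N {j}} (hy : ∀ ν, M.IsSec d (y ν)) {J K : Finset (Fin n)}
    (h : J ⊆ K) (x : (KS hy).N J) : kv hy K ((KS hy).ρ h x) = kv hy J x := rfl

theorem kv_m {r d : ℕ} {y : Fin r → ∀ j : Fin n, M.N {j}} (hy : ∀ ν, M.IsSec d (y ν)) {J : Finset (Fin n)}
    (hJ : J.Nonempty) {b : Fin n → ℤ} (hb : b ∈ OE n 0 J) (x : (KS hy).N J) :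
    kv hy J ((KS hy).m J b x) = shV A r b (kv hy J x) := by
  have h1 : (KS hy).m J b = (shV A r b).restrict (fun x hx => kr_shV hy hJ hb hx) :=
    dif_pos fun x hx => kr_shV hy hJ hb hx
  rw [h1]
  rfl

theorem KS_coh [IsNoetherianRing A] (hM : M.IsCoh) {r d : ℕ} {y : Fin r → ∀ j : Fin n, M.N {j}}
    (hy : ∀ ν, M.IsSec d (y ν)) : (KS hy).IsCoh := by
  refine ⟨?_, ?_, ?_⟩
  · intro J i hi l x hx
    refine ⟨0, ?_⟩
    have h1 : x = 0 := by
      apply kv_inj hy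
      rw [← kv_ρ hy (Finset.subset_insert l J) x, hx, map_zero, map_zero]
    rw [h1, map_zero]
  · intro J i hi l z
    have hJ : J.Nonempty := ⟨i, hi⟩
    have hK : (insert l J).Nonempty := hJ.mono (Finset.subset_insert l J)
    obtain ⟨h1, h2⟩ := (mem_kr hK).1 (kv_mem hy z)
    obtain ⟨k, hk⟩ := exists_shV_mem hi l h1
    have h3 : M.ρ (Finset.subset_insert l J) (M.phi d y J (shV A r (k • ed l i) (kv hy (insert l J) z))) = 0 := by
      rw [phi_ρ hy _ hJ hk, phi_m hy hK (OE_mono (Finset.subset_insert l J) (smul_ed_mem k l hi)) h1, h2,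
        map_zero]
    obtain ⟨k', hk'⟩ := hM.ker J i hi l _ h3
    have h4 : shV A r (k' • ed l i) (shV A r (k • ed l i) (kv hy (insert l J) z)) ∈ M.kr d y J :=
      (mem_kr hJ).2 ⟨shV_mem (smul_ed_mem k' l hi) hk, by rw [phi_m hy hJ (smul_ed_mem k' l hi) hk, hk']⟩
    obtain ⟨x, hx⟩ := exists_kv hy h4
    refine ⟨k' + k, x, ?_⟩
    apply kv_inj hy
    rw [kv_ρ, kv_m hy hK (OE_mono (Finset.subset_insert l J) (smul_ed_mem (k' + k) l hi)), hx, add_smul]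
    funext ν
    exact (sh_add _ _ _).symm
  · intro i
    have hi : ({i} : Finset (Fin n)).Nonempty := ⟨i, Finset.mem_singleton_self i⟩
    obtain ⟨S, hS, hSP, hS'⟩ := fg_stable (M.kr d y {i})
      (fun f hf => ((mem_kr hi).1 hf).1)
      (fun b hb x hx => kr_shV hy hi hb hx)
    refine ⟨kv hy {i} ⁻¹' S, hS.preimage (fun x _ x' _ h => kv_inj hy h), ?_⟩
    intro P hP hPs
    rw [eq_top_iff]
    rintro x -
    have h1 := hS' (P.map (kv hy {i})) (fun f hf => by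
        obtain ⟨x, hx⟩ := exists_kv hy (hSP hf)
        exact ⟨x, hP (show kv hy {i} x ∈ S by rw [hx]; exact hf), hx⟩) (by
      rintro b hb _ ⟨f, hf, rfl⟩
      exact ⟨(KS hy).m {i} b f, hPs b hb f hf, kv_m hy hi hb f⟩)
    obtain ⟨x', hx', hxx⟩ := h1 (kv_mem hy x)
    rw [← kv_inj hy hxx]
    exact hx'

end MSys

end MPadcGP
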