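import Pool.Agent.Lib.MP_adc574_ag_GP.ClA
import Pool.Agent.Lib.MP_adc574_ag_GP.BCd

/-!
# Descent of cochains to finitely generated rings of constants, part B

* `prM_isBC`: the morphisms of projective schemes are base changes.
* `CovD.Hm.e_inj`: an injective base change of smooth schemes is injective on forms.
-/

set_option autoImplicit false

namespace MPadcGP

open MvPolynomial TensorProduct

universe u v w x

section isBC

variable {A : Type u} [CommRing A] {B : Type v} [CommRing B] [Algebra A B] {n : ℕ}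

theorem prM_isBC {I : Ideal (MvPolynomial (Fin n) A)} {I' : Ideal (MvPolynomial (Fin n) B)}
    (hI : IsHomog I) (hI' : I' = bI (algebraMap A B) I)
    (h : ∀ f ∈ I, MvPolynomial.map (algebraMap A B) f ∈ I') :
    (prM (algebraMap A B) h : CovD.Hm (algebraMap A B) (prC I) (prC I')).IsBC := by
  subst hI'
  intro J hJ
  have h1 := bcm_bijective (B := B) hI hJ
  have h2 : ∀ x : B ⊗[A] chart I J,
      bcr ((prM (algebraMap A B) h).hb J) x = bcm I J x := by
    intro x
    induction x using TensorProduct.induction_on with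
    | zero => exact (map_zero _).trans (map_zero _).symm
    | tmul b r =>
      rw [bcm_tmul, ← Algebra.smul_def]
      exact bcr_tmul _ b r
    | add x y hx hy =>
      refine (map_add (bcr ((prM (algebraMap A B) h).hb J)) x y).trans ?_
      exact (congrArg₂ (· + ·) hx hy).trans (map_add (bcm I J) x y).symm
  have h3 : (bcr ((prM (algebraMap A B) h).hb J) : B ⊗[A] chart I J → _) = bcm I J := funext h2
  have h4 : Function.Bijective (bcr ((prM (algebraMap A B) h).hb J) : B ⊗[A] chart I J → _) := by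
    rw [h3]
    exact h1
  exact h4

end isBC

namespace CovD

section inj

variable {A : Type u} {B : Type w} [CommRing A] [CommRing B] [Algebra A B] {n : ℕ}
  {X : CovD.{u, v} A n} {Y : CovD.{w, x} B n}

/-- The linear extension of an injective ring extension is injective on flat modules. -/
theorem bcl_inj {M N : Type*} [AddCommGroup M] [Module A M] [AddCommGroup N] [Module B N]
    (hAB : Function.Injective (algebraMap A B)) [Module.Flat A M] (φ : M →+ N)
    (hφ : ∀ (a : A) (m : M), φ (a • m) = algebraMap A B a • φ m)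
    (hb : Function.Injective (bcl φ hφ)) : Function.Injective φ := by
  intro x y hxy
  have h1 : Function.Injective ((Algebra.linearMap A B).rTensor M) :=
    Module.Flat.rTensor_preserves_injective_linearMap _ hAB
  have h2 : bcl φ hφ ((1 : B) ⊗ₜ[A] x) = bcl φ hφ ((1 : B) ⊗ₜ[A] y) := by
    rw [bcl_tmul, bcl_tmul, hxy]
  have h3 : (Algebra.linearMap A B).rTensor M ((1 : A) ⊗ₜ[A] x) =
      (Algebra.linearMap A B).rTensor M ((1 : A) ⊗ₜ[A] y) := by
    rw [LinearMap.rTensor_tmul, LinearMap.rTensor_tmul, Algebra.linearMap_apply, map_one]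
    exact hb h2
  have h4 := congrArg (TensorProduct.lid A M) (h1 h3)
  rwa [TensorProduct.lid_tmul, TensorProduct.lid_tmul, one_smul, one_smul] at h4

/-- An injective base change of smooth schemes is injective on forms. -/
theorem Hm.e_inj (F : Hm (algebraMap A B) X Y) (hF : F.IsBC)
    (hAB : Function.Injective (algebraMap A B)) (J : Finset (Fin n)) (hJ : J.Nonempty)
    (hs : Algebra.Smooth A (X.R J)) {q : ℕ} {e : X.E J} (he : e ∈ Fd A (X.R J) q)
    (h0 : F.e J e = 0) : e = 0 := by
  have h1 := bc_fo (F.hb J) (hF J hJ) (some q)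
  have h2 : Module.Flat A ↥(FdO A (X.R J) (some q)) := flat_fo (some q)
  have h3 := bcl_inj hAB (mpo (F.hb J) (some q)) (mpo_smul (F.hb J) (some q)) h1.1
  have h4 : mpo (F.hb J) (some q) (⟨e, he⟩ : ↥(FdO A (X.R J) (some q))) =
      mpo (F.hb J) (some q) 0 := by
    rw [map_zero]
    exact Subtype.ext h0
  exact congrArg Subtype.val (h3 h4)

theorem Hm.push_inj_Tt (F : Hm (algebraMap A B) X Y) (hF : F.IsBC)
    (hAB : Function.Injective (algebraMap A B))
    (hs : ∀ J : Finset (Fin n), J.Nonempty → Algebra.Smooth A (X.R J)) {m : ℕ} {c : X.Ch}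
    (hc : c ∈ X.Tt m) (h0 : F.push c = 0) : c = 0 := by
  funext J
  rcases J.eq_empty_or_nonempty with hJ | hJ
  · subst hJ
    exact hc.1
  · by_cases h1 : m + 1 < J.card
    · exact (hc.2 J).2 h1
    · exact F.e_inj hF hAB J hJ (hs J hJ) ((hc.2 J).1 (m + 1 - J.card) (by omega))
        (congrFun h0 J)

theorem Hm.mem_Ni_of_push (F : Hm (algebraMap A B) X Y) (hF : F.IsBC)
    (hAB : Function.Injective (algebraMap A B))
    (hs : ∀ J : Finset (Fin n), J.Nonempty → Algebra.Smooth A (X.R J)) {i m : ℕ} {c : X.Ch}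
    (hc : c ∈ X.Tt m) (h0 : F.push c ∈ Y.Ni i m) : c ∈ X.Ni i m := by
  refine ⟨hc, fun J => ?_⟩
  rcases J.eq_empty_or_nonempty with hJ | hJ
  · subst hJ
    rw [hc.1]
    exact ⟨fun _ => rfl, fun _ => map_zero _⟩
  · refine ⟨fun h => ?_, fun h => ?_⟩
    · exact F.e_inj hF hAB J hJ (hs J hJ) ((hc.2 J).1 (m + 1 - J.card) (by omega))
        ((h0.2 J).1 h)
    · have h1 : c J ∈ Fd A (X.R J) i := (hc.2 J).1 i (by omega)
      refine F.e_inj hF hAB J hJ (hs J hJ) (dd_mem h1) ?_
      rw [Hm.e_dd]
      exact (h0.2 J).2 h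

end inj

/-- Coboundaries are mapped to coboundaries. -/
theorem Hm.push_mem_Bc {A : Type u} {B : Type w} [CommRing A] [CommRing B] {n : ℕ} {f : A →+* B}
    {X : CovD.{u, v} A n} {Y : CovD.{w, x} B n} {F : Hm f X Y} {m : ℕ} {c : X.Ch}
    (hc : c ∈ X.Bc m) : F.push c ∈ Y.Bc m := by
  cases m with
  | zero =>
    have h1 : c = 0 := hc
    rw [h1, map_zero]
    exact Submodule.zero_mem _
  | succ m =>
    obtain ⟨w, hw, rfl⟩ := hc
    exact ⟨F.push w, Hm.push_mem_Tt hw, (Hm.push_Dt w).symm⟩

end CovD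

end MPadcGP
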