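import Pool.Agent.Lib.MP_adc574_ag_GP.Mod3
import Pool.Agent.Lib.MP_adc574_ag_GP.ClB
import Pool.Agent.Lib.MP_adc574_ag_GP.Parts

/-!
# Descent of the opposition of the filtrations to closed points

* `exists_closed_ker`: descent to a finite field, in the closed set of the kernel.
* `opp_descent`: descent to a subfield.
-/

set_option autoImplicit false

namespace MPadcGP

open MvPolynomial

universe u v w x

/-- The coordinate vector which is the `s`-th unit vector up to the step `i + 1` of the Hodge filtration, and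
is in the step `i` of the conjugate filtration. -/
def SpV {A : Type u} [CommRing A] {n : ℕ} (X : CovD.{u, v} A n) {β : ℕ → Type}
    [∀ m, Fintype (β m)] [∀ m, DecidableEq (β m)] (lev : ∀ m, β m → ℕ) (z : ∀ m, β m → X.Ch)
    (m i : ℕ) (s : β m) : Prop :=
  ∃ x : β m → A, (∀ b, lev m b ≤ i → x b = if b = s then 1 else 0) ∧
    ∃ c ∈ X.Ni i m, ∃ w ∈ X.Bc m, ∑ b, x b • z m b = c + w

section field

variable {κ : Type u} [Field κ] {n : ℕ} {X : CovD.{u, v} κ n} {β : ℕ → Type}
    [∀ m, Fintype (β m)] [∀ m, DecidableEq (β m)] {lev : ∀ m, β m → ℕ} {z : ∀ m, β m → X.Ch}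

theorem IsAd.spV (had : IsAd X lev z) (hopp : IsOppC X) (hdim : DimC X) (m i : ℕ) (s : β m) :
    SpV X lev z m i s := by
  have hfin := had.finite m
  have htop : X.Con m i ⊔ X.Fil m (i + 1) = ⊤ := by
    apply Submodule.eq_top_of_finrank_eq
    have h1 := Submodule.finrank_sup_add_finrank_inf_eq (X.Con m i) (X.Fil m (i + 1))
    rw [hopp m i, finrank_bot, add_zero, hdim m i] at h1
    exact h1
  have h1 : had.eqv m (Pi.single s 1) ∈ X.Con m i ⊔ X.Fil m (i + 1) := by
    rw [htop]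
    exact Submodule.mem_top
  obtain ⟨y, hy, y', hy', hyy⟩ := Submodule.mem_sup.1 h1
  have h2 : (had.eqv m).symm y + (had.eqv m).symm y' = Pi.single s 1 := by
    rw [← map_add, hyy, LinearEquiv.symm_apply_apply]
  have h3 : had.eqv m ((had.eqv m).symm y') ∈ X.Fil m (i + 1) := by
    rw [LinearEquiv.apply_symm_apply]
    exact hy'
  rw [had.eqv_mem_Fil] at h3
  obtain ⟨c, hc, hcy⟩ := CovD.mem_Con.1 hy
  have h4 : X.cl m c = X.cl m (had.lc m ((had.eqv m).symm y)) := by
    rw [hcy, ← had.eqv_apply, LinearEquiv.apply_symm_apply]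
  rw [CovD.cl_eq, had.lc_coe] at h4
  refine ⟨(had.eqv m).symm y, fun b hb => ?_, c, hc,
    -((c : X.Ch) - ∑ b, (had.eqv m).symm y b • z m b), Submodule.neg_mem _ h4, ?_⟩
  · have h5 := congrFun h2 b
    rw [Pi.add_apply, h3 b (by omega), add_zero, Pi.single_apply] at h5
    exact h5
  · abel

theorem IsAd.inf_eq_bot (had : IsAd X lev z) (hdim : DimC X) (m i : ℕ)
    (h : ∀ s, SpV X lev z m i s) : X.Con m i ⊓ X.Fil m (i + 1) = ⊥ := by
  have hfin := had.finite m
  choose x hx c hc w hw he using h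
  have h1 : ∀ s, had.eqv m (x s) ∈ X.Con m i := by
    intro s
    have h2 : c s = had.lc m (x s) - w s := by
      rw [had.lc_coe, he, add_sub_cancel_right]
    have h3 : c s ∈ X.Zc m := by
      rw [h2]
      exact Submodule.sub_mem _ (had.lc m (x s)).2 (CovD.Bc_le_Zc m (hw s))
    refine CovD.mem_Con.2 ⟨⟨c s, h3⟩, hc s, ?_⟩
    rw [had.eqv_apply, CovD.cl_eq]
    have h4 : c s - (had.lc m (x s) : X.Ch) = -w s := by
      rw [h2]
      abel
    change c s - (had.lc m (x s) : X.Ch) ∈ X.Bc m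
    rw [h4]
    exact Submodule.neg_mem _ (hw s)
  have htop : X.Con m i ⊔ X.Fil m (i + 1) = ⊤ := by
    rw [eq_top_iff]
    intro y _
    obtain ⟨a, rfl⟩ := (had.eqv m).surjective y
    let a' : β m → κ := ∑ s, (if lev m s ≤ i then a s else 0) • x s
    have h2 : ∀ b, lev m b ≤ i → a' b = a b := by
      intro b hb
      have h3 : a' b = ∑ s, (if lev m s ≤ i then a s else 0) * x s b := by
        simp only [a', Finset.sum_apply, Pi.smul_apply, smul_eq_mul]
      rw [h3, Finset.sum_eq_single b]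
      · rw [if_pos hb, hx b b hb, if_pos rfl, mul_one]
      · intro s _ hs
        rw [hx s b hb, if_neg (Ne.symm hs), mul_zero]
      · intro h4
        exact absurd (Finset.mem_univ b) h4
    have h3 : had.eqv m a' ∈ X.Con m i := by
      rw [map_sum]
      refine Submodule.sum_mem _ fun s _ => ?_
      rw [map_smul]
      exact Submodule.smul_mem _ _ (h1 s)
    have h4 : had.eqv m (a - a') ∈ X.Fil m (i + 1) := by
      rw [had.eqv_mem_Fil]
      intro b hb
      rw [Pi.sub_apply, h2 b (by omega), sub_self]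
    refine Submodule.mem_sup.2 ⟨_, h3, _, h4, ?_⟩
    rw [← map_add, add_sub_cancel]
  have h5 := Submodule.finrank_sup_add_finrank_inf_eq (X.Con m i) (X.Fil m (i + 1))
  rw [htop, finrank_top, hdim m i] at h5
  exact Submodule.finrank_eq_zero.1 (by omega)

end field

section push

variable {A : Type u} {B : Type w} [CommRing A] [CommRing B] {n : ℕ} {f : A →+* B}
  {X : CovD.{u, v} A n} {Y : CovD.{w, x} B n} {β : ℕ → Type}
  [∀ m, Fintype (β m)] [∀ m, DecidableEq (β m)] {lev : ∀ m, β m → ℕ} {z : ∀ m, β m → X.Ch}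

theorem push_sum (F : CovD.Hm f X Y) {ι : Type*} (s : Finset ι) (a : ι → A) (c : ι → X.Ch) :
    F.push (∑ b ∈ s, a b • c b) = ∑ b ∈ s, f (a b) • F.push (c b) := by
  rw [map_sum]
  exact Finset.sum_congr rfl fun b _ => CovD.Hm.push_smul _ _

theorem SpV.push (F : CovD.Hm f X Y) {m i : ℕ} {s : β m} (h : SpV X lev z m i s) :
    SpV Y lev (fun m b => F.push (z m b)) m i s := by
  obtain ⟨x, hx, c, hc, w, hw, he⟩ := h
  refine ⟨fun b => f (x b), fun b hb => ?_, F.push c, CovD.Hm.push_mem_Ni hc, F.push w,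
    CovD.Hm.push_mem_Bc hw, ?_⟩
  · change f (x b) = _
    rw [hx b hb]
    split_ifs
    · exact map_one f
    · exact map_zero f
  · rw [← map_add, ← he, push_sum]

end push

section descent

variable {A : Type u} [CommRing A] {n : ℕ} {I : Ideal (MvPolynomial (Fin n) A)} {K : Type v}
  [CommRing K]

theorem exists_descent_Bc (φ : A →+* K) (I : Ideal (MvPolynomial (Fin n) A)) {m : ℕ}
    {c : (prC (bI φ I)).Ch} (hc : c ∈ (prC (bI φ I)).Bc m) :
    ∃ s : Finset K, ∀ (S : Subring K) (hS : ∀ a, φ a ∈ S), (s : Set K) ⊆ S →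
      ∃ c' ∈ (prC (bI (rto φ S hS) I)).Bc m, (prS φ I S hS).push c' = c := by
  cases m with
  | zero =>
    have h1 : c = 0 := hc
    exact ⟨∅, fun S hS _ => ⟨0, Submodule.zero_mem _, by rw [h1, map_zero]⟩⟩
  | succ m =>
    obtain ⟨w, hw, rfl⟩ := hc
    obtain ⟨s, hs⟩ := exists_descent_Tt φ I hw
    refine ⟨s, fun S hS h => ?_⟩
    obtain ⟨w', hw', hww⟩ := hs S hS h
    refine ⟨_, ⟨w', hw', rfl⟩, ?_⟩
    rw [CovD.Hm.push_Dt, hww]

variable {β : ℕ → Type}
  [∀ m, Fintype (β m)] [∀ m, DecidableEq (β m)] {lev : ∀ m, β m → ℕ} {z : ∀ m, β m → (prC I).Ch}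

theorem SpV.descent (hI : IsHomog I) (hs : IsSmoothProj I) (hz : ∀ m b, z m b ∈ (prC I).Tt m)
    (φ : A →+* K) {m i : ℕ} {s : β m}
    (h : SpV (prC (bI φ I)) lev (fun m b => (prH φ I).push (z m b)) m i s) :
    ∃ t : Finset K, ∀ (S : Subring K) (hS : ∀ a, φ a ∈ S), (t : Set K) ⊆ S →
      SpV (prC (bI (rto φ S hS) I)) lev (fun m b => (prH (rto φ S hS) I).push (z m b)) m i s := by
  classical
  obtain ⟨x, hx, c, hc, w, hw, he⟩ := h
  obtain ⟨t1, h1⟩ := exists_descent_Tt φ I hc.1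
  obtain ⟨t2, h2⟩ := exists_descent_Bc φ I hw
  refine ⟨t1 ∪ t2 ∪ Finset.univ.image x, fun S hS ht => ?_⟩
  rw [Finset.coe_union, Finset.coe_union, Set.union_subset_iff, Set.union_subset_iff] at ht
  obtain ⟨⟨ht1, ht2⟩, ht3⟩ := ht
  obtain ⟨c', hc', hcc⟩ := h1 S hS ht1
  obtain ⟨w', hw', hww⟩ := h2 S hS ht2
  have hxS : ∀ b, x b ∈ S := fun b => ht3 (by simp)
  let _ : Algebra S K := S.subtype.toAlgebra
  have hBC : (prS φ I S hS : CovD.Hm (algebraMap S K) (prC (bI (rto φ S hS) I))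
      (prC (bI φ I))).IsBC := by
    refine prM_isBC (hI.map _) ?_ _
    change bI φ I = bI S.subtype (bI (rto φ S hS) I)
    rw [bI_bI, rto_comp]
  have hinj : Function.Injective (algebraMap S K) := Subtype.val_injective
  have hsm : ∀ J : Finset (Fin n), J.Nonempty →
      Algebra.Smooth S ((prC (bI (rto φ S hS) I)).R J) := fun J hJ =>
    IsSmoothProj.smooth (hI.map _) (hs.map hI _) hJ
  have hcN : c' ∈ (prC (bI (rto φ S hS) I)).Ni i m :=
    CovD.Hm.mem_Ni_of_push (prS φ I S hS) hBC hinj hsm hc' (by rw [hcc]; exact hc)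
  refine ⟨fun b => ⟨x b, hxS b⟩, fun b hb => ?_, c', hcN, w', hw', ?_⟩
  · apply Subtype.ext
    change x b = _
    rw [hx b hb]
    split_ifs
    · rfl
    · rfl
  · rw [← sub_eq_zero]
    refine CovD.Hm.push_inj_Tt (prS φ I S hS) hBC hinj hsm (m := m) ?_ ?_
    · refine Submodule.sub_mem _ (Submodule.sum_mem _ fun b _ => Submodule.smul_mem _ _ ?_)
        (Submodule.add_mem _ hc' (CovD.Bc_le_Zc m hw').1)
      exact CovD.Hm.push_mem_Tt (hz m b)
    · rw [map_sub, map_add, hcc, hww, push_sum, sub_eq_zero, ← he]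
      refine Finset.sum_congr rfl fun b _ => ?_
      rw [prT_push]
      rfl

end descent

/-- The conjugate filtrations over a subfield are opposite as well. -/
theorem opp_descent {A : Type u} [CommRing A] {n : ℕ} {I : Ideal (MvPolynomial (Fin n) A)} {β : ℕ → Type}
    [∀ m, Fintype (β m)] {lev : ∀ m, β m → ℕ}
    {z : ∀ m, β m → (prC I).Ch} {h : ℕ → ℕ → ℕ} (hD : Dat I lev z h)
    {κ₀ κ : Type u} [Field κ₀] [Field κ] (ψ₀ : A →+* κ₀) (ψ : A →+* κ) (θ : κ₀ →+* κ)
    (hθ : θ.comp ψ₀ = ψ) (hopp : IsOppC (prC (bI ψ I))) : IsOppC (prC (bI ψ₀ I)) := by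
  intro m i
  rw [eq_bot_iff]
  rintro y ⟨hy1, hy2⟩
  have h0 := hD.ad κ₀ ψ₀
  have h1 := hD.ad κ ψ
  obtain ⟨x, rfl⟩ := (h0.eqv m).surjective y
  rw [SetLike.mem_coe, h0.eqv_mem_Fil] at hy2
  obtain ⟨c, hc, hcx⟩ := CovD.mem_Con.1 hy1
  rw [h0.eqv_apply, CovD.cl_eq, h0.lc_coe] at hcx
  let F := prT hθ I
  have h2 : h1.eqv m (fun b => θ (x b)) ∈ (prC (bI ψ I)).Con m i := by
    have h3 : F.push (c : (prC (bI ψ₀ I)).Ch) ∈ (prC (bI ψ I)).Zc m :=
      CovD.mem_Zc.2 ⟨CovD.Hm.push_mem_Tt c.2.1, by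
        rw [← CovD.Hm.push_Dt, show (prC (bI ψ₀ I)).Dt c = 0 from c.2.2, map_zero]⟩
    refine CovD.mem_Con.2 ⟨⟨F.push c, h3⟩, CovD.Hm.push_mem_Ni hc, ?_⟩
    rw [h1.eqv_apply, CovD.cl_eq, h1.lc_coe]
    have h4 := CovD.Hm.push_mem_Bc (F := F) hcx
    rw [map_sub, push_sum] at h4
    have h5 : ∑ b, θ (x b) • (prH ψ I).push (z m b) =
        ∑ b, θ (x b) • F.push ((prH ψ₀ I).push (z m b)) := by
      refine Finset.sum_congr rfl fun b _ => ?_
      rw [prT_push]
    rw [h5]
    exact h4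
  have h3 : h1.eqv m (fun b => θ (x b)) ∈ (prC (bI ψ I)).Fil m (i + 1) := by
    rw [h1.eqv_mem_Fil]
    intro b hb
    rw [hy2 b hb, map_zero]
  have h4 : h1.eqv m (fun b => θ (x b)) = 0 := by
    have h5 : h1.eqv m (fun b => θ (x b)) ∈ (prC (bI ψ I)).Con m i ⊓ (prC (bI ψ I)).Fil m (i + 1) :=
      ⟨h2, h3⟩
    rw [hopp m i] at h5
    exact h5
  have h5 : x = 0 := by
    funext b
    have h6 : (fun b => θ (x b)) = 0 := (h1.eqv m).injective (by rw [h4, map_zero])
    exact θ.injective ((congrFun h6 b).trans (map_zero θ).symm)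
  rw [h5, map_zero]
  exact Submodule.zero_mem _

/-- A finite subset of `K` is contained in a finitely generated subring which contains the image of `A`. -/
theorem exists_fg_subring {A : Type u} [CommRing A] [Algebra.FiniteType ℤ A] {K : Type v} [CommRing K]
    (φ : A →+* K) (t : Finset K) :
    ∃ S : Subring K, (∀ a, φ a ∈ S) ∧ (t : Set K) ⊆ S ∧ Algebra.FiniteType ℤ S := by
  classical
  obtain ⟨s, hs⟩ := (‹Algebra.FiniteType ℤ A›).out
  let u : Finset K := t ∪ s.image φ
  let S0 : Subalgebra ℤ K := Algebra.adjoin ℤ (u : Set K)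
  have hfg : S0.FG := ⟨u, rfl⟩
  have hft : Algebra.FiniteType ℤ S0 := (Subalgebra.fg_iff_finiteType S0).1 hfg
  refine ⟨S0.toSubring, fun a => ?_, fun x hx => ?_, ?_⟩
  · have h1 : a ∈ Algebra.adjoin ℤ (s : Set A) := by
      rw [hs]
      exact Algebra.mem_top
    change φ a ∈ S0
    induction h1 using Algebra.adjoin_induction with
    | mem x hx =>
      exact Algebra.subset_adjoin (Finset.mem_coe.2 (Finset.mem_union_right _
        (Finset.mem_image_of_mem φ (Finset.mem_coe.1 hx))))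
    | algebraMap r =>
      rw [eq_intCast, map_intCast, ← eq_intCast (algebraMap ℤ K)]
      exact S0.algebraMap_mem r
    | add x y _ _ hx hy => rw [map_add]; exact S0.add_mem hx hy
    | mul x y _ _ hx hy => rw [map_mul]; exact S0.mul_mem hx hy
  · exact Algebra.subset_adjoin (Finset.mem_coe.2 (Finset.mem_union_left _ (Finset.mem_coe.1 hx)))
  · let e : S0 →+* S0.toSubring := RingHom.codRestrict S0.val.toRingHom S0.toSubring fun x => x.2
    have he : Function.Surjective e := fun y => ⟨⟨y, y.2⟩, rfl⟩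
    exact Algebra.FiniteType.of_surjective e.toIntAlgHom he

/-- A closed point of a finitely generated ring. -/
private theorem exists_pt (S : Type u) [CommRing S] [IsDomain S] (p : ℕ) [Fact p.Prime] [CharP S p]
    (hft : Algebra.FiniteType ℤ S) (f : S) (hf : f ≠ 0) :
    ∃ (κ : Type u) (_ : Field κ) (_ : Finite κ) (_ : CharP κ p) (θ : S →+* κ), θ f ≠ 0 := by
  obtain ⟨m', hm', hfin, hfm⟩ := exists_finite_point S p hft f hf
  let _ : Field (S ⧸ m') := Ideal.Quotient.field m'
  have hchar : CharP (S ⧸ m') p := by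
    rw [CharP.charP_iff_prime_eq_zero Fact.out, ← map_natCast (Ideal.Quotient.mk m'),
      CharP.cast_eq_zero S p, map_zero]
  exact ⟨S ⧸ m', inferInstance, hfin, hchar, Ideal.Quotient.mk m', fun h0 => hfm (Ideal.Quotient.eq_zero_iff_mem.1 h0)⟩

section closed

variable {A : Type u} [CommRing A] {n : ℕ} {I : Ideal (MvPolynomial (Fin n) A)} {β : ℕ → Type}
    [∀ m, Fintype (β m)] {lev : ∀ m, β m → ℕ}
    {z : ∀ m, β m → (prC I).Ch} {h : ℕ → ℕ → ℕ}

/-- The relations specialise. -/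
private theorem SpV.spec [∀ m, DecidableEq (β m)] {K : Type v} [CommRing K] (φ : A →+* K) {κ : Type w} [CommRing κ] (ψ : A →+* κ) (θ : K →+* κ)
    (hθ : θ.comp φ = ψ) {m i : ℕ} {s : β m}
    (h : SpV (prC (bI φ I)) lev (fun m b => (prH φ I).push (z m b)) m i s) :
    SpV (prC (bI ψ I)) lev (fun m b => (prH ψ I).push (z m b)) m i s := by
  have h1 := h.push (prT hθ I)
  have h2 : (fun (m : ℕ) (b : β m) => (prT hθ I).push ((prH φ I).push (z m b))) = fun m b => (prH ψ I).push (z m b) := by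
    funext m b
    exact prT_push hθ I (z m b)
  rw [h2] at h1
  exact h1

/-- The opposition at one point from finitely many relations. -/
private theorem opp_of_spV [∀ m, DecidableEq (β m)] {N M : ℕ} (hN : ∀ m, N ≤ m → IsEmpty (β m)) (hM : ∀ m b, lev m b < M)
    {κ : Type v} [Field κ] {ψ : A →+* κ} (had : IsAd (prC (bI ψ I)) lev (fun m b => (prH ψ I).push (z m b)))
    (hd : DimC (prC (bI ψ I)))
    (hsp : ∀ m i (s : β m), m < N → i < M → SpV (prC (bI ψ I)) lev (fun m b => (prH ψ I).push (z m b)) m i s) :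
    IsOppC (prC (bI ψ I)) := by
  intro m i
  by_cases hm : m < N
  · by_cases hi : i < M
    · exact had.inf_eq_bot hd m i fun s => hsp m i s hm hi
    · rw [eq_bot_iff]
      rintro y ⟨-, hy⟩
      obtain ⟨x, rfl⟩ := (had.eqv m).surjective y
      rw [SetLike.mem_coe, had.eqv_mem_Fil] at hy
      have h1 : x = 0 := by
        funext b
        exact hy b (by have := hM m b; omega)
      rw [h1, map_zero]
      exact Submodule.zero_mem _
  · rw [eq_bot_iff]
    rintro y -
    obtain ⟨x, rfl⟩ := (had.eqv m).surjective y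
    have h1 : x = 0 := by
      funext b
      exact ((hN m (by omega)).false b).elim
    rw [h1, map_zero]
    exact Submodule.zero_mem _

/-- Descent to a closed point of `V(ker φ)`. -/
theorem exists_closed_ker [∀ m, DecidableEq (β m)] [Algebra.FiniteType ℤ A] (hI : IsHomog I) (hs : IsSmoothProj I)
    (hD : Dat I lev z h) {p : ℕ} [Fact p.Prime] {K : Type u} [Field K] [CharP K p] (φ : A →+* K)
    (f : A) (hf : φ f ≠ 0) (hopp : IsOppC (prC (bI φ I))) (hdim : DimC (prC (bI φ I))) :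
    ∃ (κ : Type u) (_ : Field κ) (_ : Finite κ) (_ : CharP κ p) (ψ : A →+* κ),
      (∀ a, φ a = 0 → ψ a = 0) ∧ ψ f ≠ 0 ∧ (DimC (prC (bI ψ I)) → IsOppC (prC (bI ψ I))) := by
  classical
  obtain ⟨N, hN⟩ := hD.bound
  have hadK := hD.ad K φ
  have hz : ∀ m b, z m b ∈ (prC I).Tt m := fun m b => (hD.self.mem m b).1
  -- the bound of the levels
  obtain ⟨M, hM⟩ : ∃ M : ℕ, ∀ m b, lev m b < M := by
    refine ⟨(Finset.range N).sup fun m => Finset.univ.sup fun b => lev m b + 1, fun m b => ?_⟩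
    have hm : m < N := by
      by_contra hm
      exact (hN m (by omega)).false b
    have h1 : lev m b + 1 ≤ Finset.univ.sup fun b => lev m b + 1 :=
      Finset.le_sup (f := fun b => lev m b + 1) (Finset.mem_univ b)
    have h2 : (Finset.univ.sup fun b => lev m b + 1) ≤ (Finset.range N).sup fun m => Finset.univ.sup fun b => lev m b + 1 :=
      Finset.le_sup (f := fun m => Finset.univ.sup fun b => lev m b + 1) (Finset.mem_range.2 hm)
    omega
  -- the finitely many coefficients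
  choose t ht using fun (m i : ℕ) (s : β m) =>
    SpV.descent hI hs hz φ (hadK.spV hopp hdim m i s)
  obtain ⟨S, hS, hTS, hft⟩ := exists_fg_subring φ ((Finset.range N).biUnion fun m => (Finset.range M).biUnion fun i =>
    Finset.univ.biUnion fun s => t m i s)
  have hSp : CharP S p := RingHom.charP S.subtype Subtype.val_injective p
  obtain ⟨κ, i1, i2, i3, θ, hθ⟩ := exists_pt S p hft (rto φ S hS f) fun h0 => hf (congrArg Subtype.val h0)
  refine ⟨κ, i1, i2, i3, θ.comp (rto φ S hS), fun a ha => ?_, hθ, fun hd => opp_of_spV hN hM (hD.ad κ _) hd fun m i s hm hi => ?_⟩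
  · have h1 : rto φ S hS a = 0 := Subtype.ext ha
    exact (congrArg θ h1).trans (map_zero θ)
  · refine SpV.spec (rto φ S hS) _ θ rfl (ht m i s S hS fun x hx => hTS ?_)
    exact Finset.mem_coe.2 (Finset.mem_biUnion.2 ⟨m, Finset.mem_range.2 hm,
      Finset.mem_biUnion.2 ⟨i, Finset.mem_range.2 hi, Finset.mem_biUnion.2
        ⟨s, Finset.mem_univ s, Finset.mem_coe.1 hx⟩⟩⟩)

end closed

end MPadcGP
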