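import Pool.Agent.Lib.MP_adc574_ag_GP.Cz

/-!
# The Čech complex of `O(d)` on projective space: finiteness (helper4)

`Lau A n = (Fin n → ℤ) →₀ A`: Laurent polynomials. `Ex n d J`: exponents of total degree `d`, nonnegative
outside `J`. `Oc`: all cochains. `Ok d k`: the cochains of `O(d)` on the `J` with `k` elements, `J ≠ ∅`.
`Odel`: the Čech differential with the signs of `Cov.lean`.
-/

set_option autoImplicit false

namespace MPadcGP

universe u

/-- Laurent polynomials, as a module. -/
abbrev Lau (A : Type u) [CommRing A] (n : ℕ) := (Fin n → ℤ) →₀ A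

/-- The exponents of the monomials of `O(d)` on the chart `J`. -/
def Ex (n : ℕ) (d : ℤ) (J : Finset (Fin n)) : Set (Fin n → ℤ) :=
  {a | ∑ i, a i = d ∧ ∀ i, i ∉ J → 0 ≤ a i}

/-- All cochains. -/
abbrev Oc (A : Type u) [CommRing A] (n : ℕ) := Finset (Fin n) → Lau A n

section

variable {A : Type u} [CommRing A] {n : ℕ}

/-- The cochains of `O(d)` concentrated in the nonempty `J` with `k` elements. -/
def Ok (A : Type u) [CommRing A] (n : ℕ) (d : ℤ) (k : ℕ) : Submodule A (Oc A n) where
  carrier := {c | (∀ J, ∀ a ∈ (c J).support, a ∈ Ex n d J) ∧ (∀ J, J.card ≠ k → c J = 0) ∧ c ∅ = 0}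
  zero_mem' := ⟨fun J a ha => by simp at ha, fun J _ => rfl, rfl⟩
  add_mem' := by
    rintro b c ⟨hb1, hb2, hb3⟩ ⟨hc1, hc2, hc3⟩
    refine ⟨fun J a ha => ?_, fun J hJ => ?_, ?_⟩
    · classical
      have h1 := Finsupp.support_add ha
      rcases Finset.mem_union.mp h1 with h | h
      · exact hb1 J a h
      · exact hc1 J a h
    · rw [Pi.add_apply, hb2 J hJ, hc2 J hJ, add_zero]
    · rw [Pi.add_apply, hb3, hc3, add_zero]
  smul_mem' := by
    rintro r c ⟨hc1, hc2, hc3⟩
    refine ⟨fun J a ha => hc1 J a (Finsupp.support_smul ha), fun J hJ => ?_, ?_⟩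
    · rw [Pi.smul_apply, hc2 J hJ, smul_zero]
    · rw [Pi.smul_apply, hc3, smul_zero]

/-- The Čech differential. -/
noncomputable def Odel (A : Type u) [CommRing A] (n : ℕ) : Oc A n →ₗ[A] Oc A n where
  toFun c J := ∑ j ∈ J, sg j J • c (J.erase j)
  map_add' b c := by
    funext J
    rw [Pi.add_apply, ← Finset.sum_add_distrib]
    refine Finset.sum_congr rfl fun j _ => ?_
    rw [Pi.add_apply, smul_add]
  map_smul' a c := by
    funext J
    rw [RingHom.id_apply, Pi.smul_apply, Finset.smul_sum]
    refine Finset.sum_congr rfl fun j _ => ?_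
    rw [Pi.smul_apply, smul_comm]

theorem Odel_apply (c : Oc A n) (J : Finset (Fin n)) : Odel A n c J = ∑ j ∈ J, sg j J • c (J.erase j) := rfl

/-- an index with a nonnegative exponent -/
noncomputable def ix (a : Fin n → ℤ) : Option (Fin n) :=
  open Classical in if h : ∃ i, 0 ≤ a i then some h.choose else none

theorem ix_some {a : Fin n → ℤ} {i : Fin n} (h : ix a = some i) : 0 ≤ a i := by
  unfold ix at h
  split_ifs at h with h1
  rw [← Option.some_injective _ h]
  exact h1.choose_spec

theorem ix_none {a : Fin n → ℤ} (h : ix a = none) (i : Fin n) : a i < 0 := by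
  by_contra hcon
  push Not at hcon
  unfold ix at h
  rw [dif_pos ⟨i, hcon⟩] at h
  exact Option.some_ne_none _ h

open Classical in
/-- The contraction. -/
noncomputable def hh (c : Oc A n) : Oc A n := fun J =>
  ∑ i ∈ Finset.univ \ J, sg i (insert i J) • Finsupp.filter (fun a => ix a = some i) (c (insert i J))

open Classical in
theorem hh_at (c : Oc A n) (J : Finset (Fin n)) (a : Fin n → ℤ) (i : Fin n) (h : ix a = some i) :
    hh c J a = if i ∈ J then 0 else sg i (insert i J) • c (insert i J) a := by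
  unfold hh
  rw [Finsupp.finsetSum_apply]
  have h1 : ∀ j ∈ Finset.univ \ J, (sg j (insert j J) • Finsupp.filter (fun a => ix a = some j) (c (insert j J))) a =
      if j = i then sg i (insert i J) • c (insert i J) a else 0 := by
    intro j _
    rw [Finsupp.smul_apply, Finsupp.filter_apply]
    by_cases hj : j = i
    · subst hj
      rw [if_pos h, if_pos rfl]
    · rw [if_neg hj, if_neg, smul_zero]
      rw [h]
      intro h2
      exact hj (Option.some_injective _ h2).symm
  rw [Finset.sum_congr rfl h1, Finset.sum_ite_eq']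
  by_cases hi : i ∈ J
  · rw [if_pos hi, if_neg]
    simp [hi]
  · rw [if_neg hi, if_pos]
    simp [hi]

open Classical in
theorem hh_none (c : Oc A n) (J : Finset (Fin n)) (a : Fin n → ℤ) (h : ix a = none) : hh c J a = 0 := by
  unfold hh
  rw [Finsupp.finsetSum_apply]
  refine Finset.sum_eq_zero fun j _ => ?_
  rw [Finsupp.smul_apply, Finsupp.filter_apply, if_neg, smul_zero]
  rw [h]
  exact fun h2 => Option.some_ne_none _ h2.symm

theorem sg_key {i j : Fin n} {J : Finset (Fin n)} (hi : i ∉ J) (hj : j ∈ J) :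
    sg j J * sg i (insert i (J.erase j)) + sg i (insert i J) * sg j (insert i J) = 0 := by
  have hij : i ≠ j := fun h => hi (h ▸ hj)
  have h1 := sg_sg (J := insert i J) (Finset.mem_insert_self i J) (Finset.mem_insert_of_mem hj) hij
  have h2 : (insert i J).erase i = J := Finset.erase_insert hi
  have h3 : (insert i J).erase j = insert i (J.erase j) := Finset.erase_insert_of_ne hij
  rw [h2, h3] at h1
  have h4 := sg_sq i (insert i (J.erase j))
  have h5 := sg_sq i (insert i J)
  have h6 : sg j J = -(sg i (insert i J) * sg j (insert i J) * sg i (insert i (J.erase j))) := by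
    have h7 : sg i (insert i J) * (sg i (insert i J) * sg j J + sg j (insert i J) * sg i (insert i (J.erase j))) = 0 := by
      rw [h1, mul_zero]
    calc sg j J = (sg i (insert i J) * sg i (insert i J)) * sg j J := by rw [h5, one_mul]
      _ = -(sg i (insert i J) * sg j (insert i J) * sg i (insert i (J.erase j))) := by linear_combination h7
  rw [h6]
  calc -(sg i (insert i J) * sg j (insert i J) * sg i (insert i (J.erase j))) * sg i (insert i (J.erase j)) +
        sg i (insert i J) * sg j (insert i J) =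
      sg i (insert i J) * sg j (insert i J) * (1 - sg i (insert i (J.erase j)) * sg i (insert i (J.erase j))) := by ring
    _ = 0 := by rw [h4, sub_self, mul_zero]

/-- the homotopy formula at an exponent -/
theorem homotopy (c : Oc A n) (J : Finset (Fin n)) (a : Fin n → ℤ) (i : Fin n) (h : ix a = some i) :
    Odel A n (hh c) J a + hh (Odel A n c) J a = c J a := by
  classical
  rw [Odel_apply, Finsupp.finsetSum_apply, hh_at _ _ _ _ h]
  by_cases hi : i ∈ J
  · rw [if_pos hi, add_zero]
    have h1 : ∀ j ∈ J, (sg j J • hh c (J.erase j)) a = if j = i then c J a else 0 := by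
      intro j _
      rw [Finsupp.smul_apply, hh_at _ _ _ _ h]
      by_cases hj : j = i
      · subst hj
        rw [if_neg (Finset.notMem_erase j J), if_pos rfl, Finset.insert_erase hi, smul_smul, sg_sq, one_smul]
      · rw [if_pos (Finset.mem_erase.mpr ⟨Ne.symm hj, hi⟩), if_neg hj, smul_zero]
    rw [Finset.sum_congr rfl h1, Finset.sum_ite_eq', if_pos hi]
  · rw [if_neg hi, Odel_apply, Finsupp.finsetSum_apply, Finset.sum_insert hi, Finset.erase_insert hi,
      Finsupp.smul_apply, smul_add, smul_smul, sg_sq, one_smul]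
    have h1 : ∀ j ∈ J, (sg j J • hh c (J.erase j)) a =
        (sg j J * sg i (insert i (J.erase j))) • c (insert i (J.erase j)) a := by
      intro j _
      rw [Finsupp.smul_apply, hh_at _ _ _ _ h, if_neg (fun h2 => hi (Finset.mem_of_mem_erase h2)), smul_smul]
    have h2 : ∀ j ∈ J, (sg j (insert i J) • c ((insert i J).erase j)) a =
        sg j (insert i J) • c (insert i (J.erase j)) a := by
      intro j hj
      have hij : i ≠ j := by
        rintro rfl
        exact hi hj
      rw [Finsupp.smul_apply, Finset.erase_insert_of_ne hij]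
    rw [Finset.sum_congr rfl h1, Finset.sum_congr rfl h2, Finset.smul_sum]
    have h3 : ∑ j ∈ J, (sg j J * sg i (insert i (J.erase j))) • c (insert i (J.erase j)) a +
        ∑ j ∈ J, sg i (insert i J) • sg j (insert i J) • c (insert i (J.erase j)) a = 0 := by
      rw [← Finset.sum_add_distrib]
      refine Finset.sum_eq_zero fun j hj => ?_
      rw [smul_smul, ← add_smul, sg_key hi hj, zero_smul]
    calc ∑ j ∈ J, (sg j J * sg i (insert i (J.erase j))) • c (insert i (J.erase j)) a +
          (c J a + ∑ j ∈ J, sg i (insert i J) • sg j (insert i J) • c (insert i (J.erase j)) a) =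
        (∑ j ∈ J, (sg j J * sg i (insert i (J.erase j))) • c (insert i (J.erase j)) a +
          ∑ j ∈ J, sg i (insert i J) • sg j (insert i J) • c (insert i (J.erase j)) a) + c J a := by abel
      _ = c J a := by rw [h3, zero_add]

/-- the exponents which contribute to the cohomology -/
def Fx (n : ℕ) (d : ℤ) : Set (Fin n → ℤ) := {a | ∑ i, a i = d ∧ ((∀ i, 0 ≤ a i) ∨ ∀ i, a i < 0)}

theorem Fx_finite (n : ℕ) (d : ℤ) : (Fx n d).Finite := by
  refine (Set.finite_Icc (fun _ : Fin n => -|d|) (fun _ : Fin n => |d|)).subset ?_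
  rintro a ⟨h1, h2⟩
  have key : ∀ i, -|d| ≤ a i ∧ a i ≤ |d| := by
    intro i
    rcases h2 with h2 | h2
    · have h3 := Finset.single_le_sum (f := a) (fun j _ => h2 j) (Finset.mem_univ i)
      have h4 := h2 i
      rw [h1] at h3
      exact ⟨by have := abs_nonneg d; omega, h3.trans (le_abs_self d)⟩
    · have h3 := Finset.single_le_sum (f := fun j => -a j) (fun j _ => by have := h2 j; omega) (Finset.mem_univ i)
      have h5 : ∑ j, -a j = -d := by rw [Finset.sum_neg_distrib, h1]
      have h6 : -a i ≤ ∑ j, -a j := h3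
      rw [h5] at h6
      have h4 := h2 i
      have h7 := neg_abs_le d
      exact ⟨by omega, by have := abs_nonneg d; omega⟩
  exact ⟨fun i => (key i).1, fun i => (key i).2⟩

/-- the cochains supported on `Fx` -/
noncomputable def Of (A : Type u) [CommRing A] (n : ℕ) (d : ℤ) : Submodule A (Oc A n) :=
  Submodule.pi Set.univ fun _ => Finsupp.supported A A (Fx n d)

theorem mem_Of {d : ℤ} {c : Oc A n} : c ∈ Of A n d ↔ ∀ J, ∀ a ∈ (c J).support, a ∈ Fx n d := by
  unfold Of
  rw [Submodule.mem_pi]
  constructor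
  · intro h J a ha
    exact (Finsupp.mem_supported A (c J)).mp (h J (Set.mem_univ J)) ha
  · intro h J _
    exact (Finsupp.mem_supported A (c J)).mpr fun a ha => h J a ha

theorem Of_noetherian [IsNoetherianRing A] (d : ℤ) : IsNoetherian A (Of A n d) := by
  have hf : Finite (Fx n d) := (Fx_finite n d).to_subtype
  let f : Of A n d →ₗ[A] (Finset (Fin n) × Fx n d → A) :=
    { toFun := fun c p => c.1 p.1 p.2.1
      map_add' := fun b c => rfl
      map_smul' := fun r c => rfl }
  have h2 : IsNoetherian A (Finset (Fin n) × Fx n d → A) := inferInstance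
  refine isNoetherian_of_injective f ?_
  intro b c h
  apply Subtype.ext
  funext J
  ext a
  by_cases ha : a ∈ Fx n d
  · exact congrFun h (J, ⟨a, ha⟩)
  · have h3 : b.1 J a = 0 := by
      by_contra h4
      exact ha (mem_Of.mp b.2 J a (Finsupp.mem_support_iff.mpr h4))
    have h4 : c.1 J a = 0 := by
      by_contra h5
      exact ha (mem_Of.mp c.2 J a (Finsupp.mem_support_iff.mpr h5))
    rw [h3, h4]

theorem hh_mem {d : ℤ} {k : ℕ} (hk : 1 ≤ k) {z : Oc A n} (hz : z ∈ Ok A n d (k + 1)) : hh z ∈ Ok A n d k := by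
  classical
  obtain ⟨h1, h2, h3⟩ := hz
  have key : ∀ J : Finset (Fin n), J.card ≠ k → hh z J = 0 := by
    intro J hJ
    unfold hh
    refine Finset.sum_eq_zero fun i hi => ?_
    have hi' : i ∉ J := (Finset.mem_sdiff.mp hi).2
    have h4 : z (insert i J) = 0 := h2 _ (by rw [Finset.card_insert_of_notMem hi']; omega)
    rw [h4, Finsupp.filter_zero, smul_zero]
  refine ⟨?_, key, key ∅ (by rw [Finset.card_empty]; omega)⟩
  intro J a ha
  rcases hix : ix a with _ | i
  · exact absurd (hh_none z J a hix) (Finsupp.mem_support_iff.mp ha)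
  · have h4 := Finsupp.mem_support_iff.mp ha
    rw [hh_at z J a i hix] at h4
    by_cases hi : i ∈ J
    · rw [if_pos hi] at h4
      exact absurd rfl h4
    · rw [if_neg hi] at h4
      have h5 : z (insert i J) a ≠ 0 := fun h6 => h4 (by rw [h6, smul_zero])
      have h6 := h1 (insert i J) a (Finsupp.mem_support_iff.mpr h5)
      refine ⟨h6.1, fun j hj => ?_⟩
      by_cases hji : j = i
      · rw [hji]
        exact ix_some hix
      · exact h6.2 j (fun h7 => (Finset.mem_insert.mp h7).elim hji hj)

theorem Odel_mem {d : ℤ} {k : ℕ} {c : Oc A n} (hc : c ∈ Ok A n d k) : Odel A n c ∈ Ok A n d (k + 1) := by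
  classical
  obtain ⟨h1, h2, h3⟩ := hc
  refine ⟨?_, ?_, ?_⟩
  · intro J a ha
    have h4 : ∃ j ∈ J, (sg j J • c (J.erase j)) a ≠ 0 := by
      by_contra hcon
      push Not at hcon
      apply Finsupp.mem_support_iff.mp ha
      rw [Odel_apply, Finsupp.finsetSum_apply]
      exact Finset.sum_eq_zero hcon
    obtain ⟨j, _, hj⟩ := h4
    have h5 : c (J.erase j) a ≠ 0 := by
      intro h6
      apply hj
      rw [Finsupp.smul_apply, h6, smul_zero]
    have h6 := h1 (J.erase j) a (Finsupp.mem_support_iff.mpr h5)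
    exact ⟨h6.1, fun i hi => h6.2 i fun h7 => hi (Finset.mem_of_mem_erase h7)⟩
  · intro J hJ
    rw [Odel_apply]
    refine Finset.sum_eq_zero fun j hj => ?_
    have hpos := Finset.card_pos.mpr ⟨j, hj⟩
    rw [h2 (J.erase j) (by rw [Finset.card_erase_of_mem hj]; omega), smul_zero]
  · rw [Odel_apply, Finset.sum_empty]

theorem Odel_Odel (c : Oc A n) : Odel A n (Odel A n c) = 0 := by
  funext J
  rw [Odel_apply, Pi.zero_apply]
  have h1 : ∀ i ∈ J, sg i J • Odel A n c (J.erase i) =
      ∑ j ∈ J.erase i, (sg i J * sg j (J.erase i)) • c ((J.erase i).erase j) := by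
    intro i _
    rw [Odel_apply, Finset.smul_sum]
    refine Finset.sum_congr rfl fun j _ => ?_
    rw [smul_smul]
  rw [Finset.sum_congr rfl h1, Finset.sum_sigma']
  refine Finset.sum_involution (fun p _ => (⟨p.2, p.1⟩ : Σ _ : Fin n, Fin n)) ?_ ?_ ?_ ?_
  · rintro ⟨i, j⟩ h
    rw [Finset.mem_sigma, Finset.mem_erase] at h
    obtain ⟨hi, hij, hj⟩ := h
    change (sg i J * sg j (J.erase i)) • c ((J.erase i).erase j) +
      (sg j J * sg i (J.erase j)) • c ((J.erase j).erase i) = 0
    rw [Finset.erase_right_comm (a := j) (b := i), ← add_smul, sg_sg hi hj (Ne.symm hij), zero_smul]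
  · rintro ⟨i, j⟩ h _ he
    rw [Finset.mem_sigma, Finset.mem_erase] at h
    have h1 : (⟨j, i⟩ : Σ _ : Fin n, Fin n) = ⟨i, j⟩ := he
    have h2 : j = i := congrArg (fun p : (Σ _ : Fin n, Fin n) => p.1) h1
    exact h.2.1 h2
  · rintro ⟨i, j⟩ h
    rw [Finset.mem_sigma, Finset.mem_erase] at h ⊢
    exact ⟨h.2.2, Ne.symm h.2.1, h.1⟩
  · rintro ⟨i, j⟩ _
    rfl

/-- every cocycle of `O(d)` is cohomologous to one supported on the finite set `Fx` -/
theorem cocycle_reduce {d : ℤ} {k : ℕ} {z : Oc A n} (hz : z ∈ Ok A n d (k + 1)) (hd : Odel A n z = 0) :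
    ∃ c ∈ Ok A n d k, z - Odel A n c ∈ Of A n d := by
  classical
  rcases Nat.eq_zero_or_pos k with rfl | hk
  · -- degree zero: global sections
    refine ⟨0, Submodule.zero_mem _, ?_⟩
    rw [map_zero, sub_zero, mem_Of]
    intro J a ha
    obtain ⟨h1, h2, _⟩ := hz
    have hJ : J.card = 1 := by
      by_contra hcon
      rw [h2 J (by omega)] at ha
      simp at ha
    obtain ⟨i, rfl⟩ := Finset.card_eq_one.mp hJ
    have h3 := h1 {i} a ha
    refine ⟨h3.1, ?_⟩
    by_cases hn : ∀ j : Fin n, j = i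
    · rcases le_or_gt 0 (a i) with h4 | h4
      · left
        intro j
        rw [hn j]
        exact h4
      · right
        intro j
        rw [hn j]
        exact h4
    · left
      push Not at hn
      obtain ⟨l, hl⟩ := hn
      -- compare with the chart `l`
      have h5 : Odel A n z {i, l} a = 0 := by rw [hd]; rfl
      rw [Odel_apply, Finset.sum_pair (Ne.symm hl)] at h5
      have e1 : ({i, l} : Finset (Fin n)).erase i = {l} := by
        rw [Finset.erase_insert]
        simp [Ne.symm hl]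
      have e2 : ({i, l} : Finset (Fin n)).erase l = {i} := by
        rw [Finset.pair_comm, Finset.erase_insert]
        simp [hl]
      rw [e1, e2] at h5
      have h6 : z {l} a ≠ 0 := by
        intro h7
        rw [Finsupp.add_apply, Finsupp.smul_apply, Finsupp.smul_apply, h7, smul_zero, zero_add] at h5
        have h8 := Finsupp.mem_support_iff.mp ha
        apply h8
        have h9 : sg l {i, l} • (sg l {i, l} • z {i} a) = 0 := by rw [h5, smul_zero]
        rwa [smul_smul, sg_sq, one_smul] at h9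
      have h7 := h1 {l} a (Finsupp.mem_support_iff.mpr h6)
      intro j
      by_cases hj : j = i
      · exact h7.2 j (by simp [hj, Ne.symm hl])
      · exact h3.2 j (by simpa using hj)
  · refine ⟨hh z, hh_mem hk hz, ?_⟩
    rw [mem_Of]
    intro J a ha
    have ha' := Finsupp.mem_support_iff.mp ha
    rcases hix : ix a with _ | i
    · have h2 : Odel A n (hh z) J a = 0 := by
        rw [Odel_apply, Finsupp.finsetSum_apply]
        refine Finset.sum_eq_zero fun j _ => ?_
        rw [Finsupp.smul_apply, hh_none z _ a hix, smul_zero]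
      have h3 : z J a ≠ 0 := by
        intro h4
        apply ha'
        rw [Pi.sub_apply, Finsupp.sub_apply, h2, h4, sub_zero]
      exact ⟨(hz.1 J a (Finsupp.mem_support_iff.mpr h3)).1, Or.inr (ix_none hix)⟩
    · exfalso
      apply ha'
      have h2 := homotopy z J a i hix
      have h3 : hh (Odel A n z) J a = 0 := by
        rw [hd, hh_at _ _ _ _ hix]
        split_ifs
        · rfl
        · rw [Pi.zero_apply, Finsupp.zero_apply, smul_zero]
      rw [h3, add_zero] at h2
      rw [Pi.sub_apply, Finsupp.sub_apply, h2, sub_self]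

/-- Finiteness of the Čech cohomology of `O(d)`, explicit form. -/
theorem Oh_finite [IsNoetherianRing A] (d : ℤ) (k : ℕ) : ∃ s : Finset (Oc A n),
    (∀ b ∈ s, b ∈ Ok A n d (k + 1) ∧ Odel A n b = 0) ∧
      ∀ z ∈ Ok A n d (k + 1), Odel A n z = 0 →
        ∃ b ∈ Submodule.span A (s : Set (Oc A n)), ∃ c ∈ Ok A n d k, z = b + Odel A n c := by
  have hN := Of_noetherian (A := A) (n := n) d
  let W : Submodule A (Of A n d) :=
    (Ok A n d (k + 1) ⊓ LinearMap.ker (Odel A n)).comap (Of A n d).subtype
  obtain ⟨t, ht⟩ := (isNoetherian_submodule.mp (isNoetherian_top_iff.mpr hN)) W le_top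
  classical
  have ht' : Submodule.span A ((t.image (Of A n d).subtype : Finset (Oc A n)) : Set (Oc A n)) =
      W.map (Of A n d).subtype := by
    rw [Finset.coe_image, ← Submodule.map_span, ht]
  refine ⟨t.image (Of A n d).subtype, ?_, ?_⟩
  · intro b hb
    have h1 : b ∈ W.map (Of A n d).subtype := by
      rw [← ht']
      exact Submodule.subset_span (by exact_mod_cast hb)
    obtain ⟨w, hw, rfl⟩ := h1
    exact ⟨hw.1, hw.2⟩
  · intro z hz hd
    obtain ⟨c, hc, h1⟩ := cocycle_reduce hz hd
    have hOd : Odel A n c ∈ Ok A n d (k + 1) := Odel_mem hc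
    refine ⟨z - Odel A n c, ?_, c, hc, by rw [sub_add_cancel]⟩
    rw [ht']
    refine ⟨⟨z - Odel A n c, h1⟩, ⟨Submodule.sub_mem _ hz hOd, ?_⟩, rfl⟩
    change Odel A n (z - Odel A n c) = 0
    rw [map_sub, hd, Odel_Odel, sub_zero]

/-- Finiteness for a finite family of degrees. -/
theorem Oh_finite_fam [IsNoetherianRing A] {r : ℕ} (d : Fin r → ℤ) (k : ℕ) : ∃ s : Finset (Fin r → Oc A n),
    (∀ b ∈ s, ∀ ν, b ν ∈ Ok A n (d ν) (k + 1) ∧ Odel A n (b ν) = 0) ∧
      ∀ z : Fin r → Oc A n, (∀ ν, z ν ∈ Ok A n (d ν) (k + 1) ∧ Odel A n (z ν) = 0) →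
        ∃ b ∈ Submodule.span A (s : Set (Fin r → Oc A n)), ∃ c : Fin r → Oc A n,
          (∀ ν, c ν ∈ Ok A n (d ν) k) ∧ ∀ ν, z ν = b ν + Odel A n (c ν) := by
  classical
  choose t ht1 ht2 using fun ν => Oh_finite (A := A) (n := n) (d ν) k
  refine ⟨Finset.univ.biUnion fun ν => (t ν).image (fun b => Pi.single ν b), ?_, ?_⟩
  · intro b hb μ
    rw [Finset.mem_biUnion] at hb
    obtain ⟨ν, _, hb⟩ := hb
    rw [Finset.mem_image] at hb
    obtain ⟨a, ha, rfl⟩ := hb
    by_cases h : μ = ν
    · subst h
      rw [Pi.single_eq_same]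
      exact ht1 μ a ha
    · rw [Pi.single_eq_of_ne h]
      exact ⟨Submodule.zero_mem _, map_zero _⟩
  · intro z hz
    choose b hb c hc hbc using fun ν => ht2 ν (z ν) (hz ν).1 (hz ν).2
    refine ⟨b, ?_, c, hc, hbc⟩
    have h1 : b = ∑ ν, Pi.single ν (b ν) := (Finset.univ_sum_single b).symm
    rw [h1]
    refine Submodule.sum_mem _ fun ν _ => ?_
    have h2 : (LinearMap.single A (fun _ : Fin r => Oc A n) ν) (b ν) ∈
        (Submodule.span A ((t ν : Finset (Oc A n)) : Set (Oc A n))).map
          (LinearMap.single A (fun _ : Fin r => Oc A n) ν) := Submodule.mem_map_of_mem (hb ν)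
    rw [Submodule.map_span] at h2
    refine Submodule.span_mono ?_ h2
    rintro _ ⟨a, ha, rfl⟩
    rw [Finset.mem_coe, Finset.mem_biUnion]
    exact ⟨ν, Finset.mem_univ ν, Finset.mem_image.mpr ⟨a, by exact_mod_cast ha, rfl⟩⟩

end

section

variable {A : Type u} [CommRing A] {n : ℕ}

theorem Cv_Oh (d : ℤ) (k : ℕ) : Cv (Oh A n d) k = Ok A n d k := by
  ext c
  constructor
  · rintro ⟨h1, h2⟩
    refine ⟨fun J a ha => ?_, fun J hJ => (h2 J).2 hJ, h1⟩
    by_cases hJ : J.card = k
    · exact (Finsupp.mem_supported A (c J)).mp ((h2 J).1 hJ) ha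
    · rw [(h2 J).2 hJ] at ha
      exact absurd ha (by simp)
  · rintro ⟨h1, h2, h3⟩
    exact ⟨h3, fun J => ⟨fun _ => (Finsupp.mem_supported A (c J)).mpr fun a ha => h1 J a ha, fun hJ => h2 J hJ⟩⟩

theorem fg_Oh [IsNoetherianRing A] (d : ℤ) (j : ℕ) :
    FGq (Cv (Oh A n d) (j + 1) ⊓ LinearMap.ker (delv (A := A) (n := n) (V := (Fin n → ℤ) →₀ A)))
      ((Cv (Oh A n d) j).map (delv (A := A) (n := n) (V := (Fin n → ℤ) →₀ A))) := by
  obtain ⟨s, hs1, hs2⟩ := Oh_finite (A := A) (n := n) d j
  refine ⟨(s : Set (Oc A n)), s.finite_toSet, ?_, ?_⟩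
  · intro b hb
    obtain ⟨h1, h2⟩ := hs1 b (by exact_mod_cast hb)
    refine ⟨?_, h2⟩
    rw [Cv_Oh]
    exact h1
  · rintro z ⟨hz1, hz2⟩
    rw [Cv_Oh] at hz1
    obtain ⟨b, hb, c, hc, hbc⟩ := hs2 z hz1 hz2
    rw [hbc]
    refine Submodule.add_mem_sup hb ⟨c, ?_, rfl⟩
    rw [Cv_Oh]
    exact hc

end

end MPadcGP
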