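import Pool.Agent.Lib.MP_adc574_ag_GP.Cp
import Pool.Agent.Lib.MP_adc574_ag_GP.Ck
import Pool.Agent.Lib.MP_adc574_ag_GP.Ca
import Pool.Agent.Lib.MP_adc574_ag_GP.Oh

/-!
# Finiteness of the Čech cohomology of coherent systems
-/

set_option autoImplicit false

namespace MPadcGP

universe u v w

section Oo

variable {A : Type u} [CommRing A] {n : ℕ}

/-- The coordinate `ν` of cochains. -/
noncomputable def cpr (A : Type u) [CommRing A] {n r : ℕ} (ν : Fin r) :
    (Finset (Fin n) → Fin r → ((Fin n → ℤ) →₀ A)) →ₗ[A] (Finset (Fin n) → ((Fin n → ℤ) →₀ A)) where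
  toFun c J := c J ν
  map_add' _ _ := rfl
  map_smul' _ _ := rfl

/-- The inclusion of the coordinate `ν` of cochains. -/
noncomputable def cin (A : Type u) [CommRing A] {n r : ℕ} (ν : Fin r) :
    (Finset (Fin n) → ((Fin n → ℤ) →₀ A)) →ₗ[A] (Finset (Fin n) → Fin r → ((Fin n → ℤ) →₀ A)) where
  toFun c J := Pi.single ν (c J)
  map_add' c c' := by
    funext J
    exact Pi.single_add (f := fun _ : Fin r => ((Fin n → ℤ) →₀ A)) ν (c J) (c' J)
  map_smul' a c := by
    funext J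
    exact Pi.single_smul (f := fun _ : Fin r => ((Fin n → ℤ) →₀ A)) ν a (c J)

theorem cpr_mem {r : ℕ} {d : ℤ} {m : ℕ} {c : Finset (Fin n) → Fin r → ((Fin n → ℤ) →₀ A)}
    (hc : c ∈ Cv (Oo A n r d) m) (ν : Fin r) : cpr A ν c ∈ Cv (Oh A n d) m := by
  obtain ⟨h1, h2⟩ := hc
  refine ⟨by rw [cpr, LinearMap.coe_mk, AddHom.coe_mk, h1]; rfl, fun J => ⟨fun hJ => ?_, fun hJ => ?_⟩⟩
  · exact mem_Oo.1 ((h2 J).1 hJ) ν
  · rw [cpr, LinearMap.coe_mk, AddHom.coe_mk, (h2 J).2 hJ]
    rfl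

theorem cin_mem {r : ℕ} {d : ℤ} {m : ℕ} {c : Finset (Fin n) → ((Fin n → ℤ) →₀ A)}
    (hc : c ∈ Cv (Oh A n d) m) (ν : Fin r) : cin A ν c ∈ Cv (Oo A n r d) m := by
  obtain ⟨h1, h2⟩ := hc
  refine ⟨?_, fun J => ⟨fun hJ => ?_, fun hJ => ?_⟩⟩
  · change (Pi.single ν (c ∅) : Fin r → ((Fin n → ℤ) →₀ A)) = 0
    rw [h1, Pi.single_zero]
  · refine mem_Oo.2 fun μ => ?_
    change (Pi.single ν (c J) : Fin r → ((Fin n → ℤ) →₀ A)) μ ∈ _
    rcases eq_or_ne μ ν with rfl | h
    · rw [Pi.single_eq_same]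
      exact (h2 J).1 hJ
    · rw [Pi.single_eq_of_ne h]
      exact Submodule.zero_mem _
  · change (Pi.single ν (c J) : Fin r → ((Fin n → ℤ) →₀ A)) = 0
    rw [(h2 J).2 hJ, Pi.single_zero]

theorem delv_cin {r : ℕ} (ν : Fin r) (c : Finset (Fin n) → ((Fin n → ℤ) →₀ A)) :
    delv (A := A) (cin A ν c) = cin A ν (delv (A := A) c) := by
  funext J
  funext μ
  rw [delv_apply]
  change (∑ j ∈ J, sg j J • (Pi.single ν (c (J.erase j)) : Fin r → ((Fin n → ℤ) →₀ A))) μ =
    (Pi.single ν (∑ j ∈ J, sg j J • c (J.erase j)) : Fin r → ((Fin n → ℤ) →₀ A)) μ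
  rw [Finset.sum_apply]
  rcases eq_or_ne μ ν with rfl | h
  · rw [Pi.single_eq_same]
    exact Finset.sum_congr rfl fun j _ => by rw [Pi.smul_apply, Pi.single_eq_same]
  · rw [Pi.single_eq_of_ne h]
    exact Finset.sum_eq_zero fun j _ => by rw [Pi.smul_apply, Pi.single_eq_of_ne h, smul_zero]

theorem delv_cpr {r : ℕ} (ν : Fin r) (c : Finset (Fin n) → Fin r → ((Fin n → ℤ) →₀ A)) :
    delv (A := A) (cpr A ν c) = cpr A ν (delv (A := A) c) := by
  funext J
  rw [delv_apply]
  change ∑ j ∈ J, sg j J • c (J.erase j) ν = (∑ j ∈ J, sg j J • c (J.erase j)) ν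
  rw [Finset.sum_apply]
  rfl

theorem sum_cin_cpr {r : ℕ} (c : Finset (Fin n) → Fin r → ((Fin n → ℤ) →₀ A)) :
    ∑ ν, cin A ν (cpr A ν c) = c := by
  funext J
  rw [Finset.sum_apply]
  exact Finset.univ_sum_single (c J)

theorem fg_Oo [IsNoetherianRing A] (r : ℕ) (d : ℤ) (j : ℕ) :
    FGq (Cv (Oo A n r d) (j + 1) ⊓
        LinearMap.ker (delv (A := A) (n := n) (V := Fin r → ((Fin n → ℤ) →₀ A))))
      ((Cv (Oo A n r d) j).map (delv (A := A))) := by
  obtain ⟨s, hs, hsZ, hZs⟩ := fg_Oh (A := A) (n := n) d j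
  refine ⟨⋃ ν : Fin r, cin A ν '' s, Set.finite_iUnion fun ν => hs.image _, ?_, ?_⟩
  · intro c hc
    obtain ⟨ν, c', hc', rfl⟩ := Set.mem_iUnion.1 hc
    have h1 := hsZ hc'
    refine ⟨cin_mem h1.1 ν, ?_⟩
    change delv (A := A) (cin A ν c') = 0
    rw [delv_cin, LinearMap.mem_ker.1 h1.2, map_zero]
  · rintro c ⟨hc, hc0⟩
    rw [← sum_cin_cpr c]
    refine Submodule.sum_mem _ fun ν _ => ?_
    have h1 : cpr A ν c ∈ Cv (Oh A n d) (j + 1) ⊓
        LinearMap.ker (delv (A := A) (n := n) (V := (Fin n → ℤ) →₀ A)) := by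
      refine ⟨cpr_mem hc ν, ?_⟩
      change delv (A := A) (cpr A ν c) = 0
      rw [delv_cpr, LinearMap.mem_ker.1 hc0, map_zero]
    obtain ⟨b, hb, _, ⟨e, he, rfl⟩, hbe⟩ := Submodule.mem_sup.1 (hZs h1)
    rw [← hbe, map_add]
    refine Submodule.add_mem _ (Submodule.mem_sup_left ?_) (Submodule.mem_sup_right ?_)
    · refine Submodule.span_mono (Set.subset_iUnion (fun ν : Fin r => cin A ν '' s) ν) ?_
      rw [← Submodule.map_span]
      exact ⟨b, hb, rfl⟩
    · exact ⟨cin A ν e, cin_mem he ν, delv_cin ν e⟩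

theorem delv_delv {V : Type v} [AddCommGroup V] [Module A V] {c : Finset (Fin n) → V} :
    delv (A := A) (delv (A := A) c) = 0 := by
  funext J
  rw [delv_apply, Pi.zero_apply]
  have h1 : ∀ i ∈ J, sg i J • delv (A := A) c (J.erase i) =
      ∑ j ∈ J.erase i, (sg i J * sg j (J.erase i)) • c ((J.erase i).erase j) := by
    intro i _
    rw [delv_apply, Finset.smul_sum]
    exact Finset.sum_congr rfl fun j _ => smul_smul _ _ _
  rw [Finset.sum_congr rfl h1, Finset.sum_sigma']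
  refine Finset.sum_involution (fun p _ => (⟨p.2, p.1⟩ : Σ _ : Fin n, Fin n)) ?_ ?_ ?_ ?_
  · rintro ⟨i, j⟩ h
    rw [Finset.mem_sigma, Finset.mem_erase] at h
    obtain ⟨hi, hij, hj⟩ := h
    change (sg i J * sg j (J.erase i)) • c ((J.erase i).erase j) +
      (sg j J * sg i (J.erase j)) • c ((J.erase j).erase i) = 0
    rw [Finset.erase_right_comm (a := j) (b := i), ← add_smul, sg_sg hi hj (Ne.symm hij), zero_smul]
  · rintro ⟨i, j⟩ h _ he
    rw [Finset.mem_sigma, Finset.mem_erase] at h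
    have h1 : (⟨j, i⟩ : Σ _ : Fin n, Fin n) = ⟨i, j⟩ := he
    have h2 : j = i := congrArg (fun p : (Σ _ : Fin n, Fin n) => p.1) h1
    exact h.2.1 h2
  · rintro ⟨i, j⟩ h
    rw [Finset.mem_sigma, Finset.mem_erase] at h ⊢
    exact ⟨h.2.2, Ne.symm h.2.1, h.1⟩
  · rintro ⟨i, j⟩ _
    rfl

theorem delv_mem {V : Type v} [AddCommGroup V] [Module A V] {N : Finset (Fin n) → Submodule A V}
    (hN : ∀ J K : Finset (Fin n), J.Nonempty → J ⊆ K → N J ≤ N K) {m : ℕ} {c : Finset (Fin n) → V} (hc : c ∈ Cv N m) :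
    delv (A := A) c ∈ Cv N (m + 1) := by
  refine ⟨by rw [delv_apply, Finset.sum_empty], fun J => ⟨fun hJ => ?_, fun hJ => ?_⟩⟩
  · rw [delv_apply]
    refine Submodule.sum_mem _ fun j hj => zsmul_mem ?_ _
    have h1 := Finset.card_erase_add_one hj
    rcases Finset.eq_empty_or_nonempty (J.erase j) with h2 | h2
    · rw [h2, hc.1]
      exact Submodule.zero_mem _
    · exact hN _ _ h2 (Finset.erase_subset _ _) ((hc.2 _).1 (by omega))
  · rw [delv_apply]
    refine Finset.sum_eq_zero fun j hj => ?_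
    have h1 := Finset.card_erase_add_one hj
    rw [(hc.2 _).2 (by omega), smul_zero]

end Oo

namespace MSys

variable {A : Type u} [CommRing A] {n : ℕ} {M : MSys.{u, v} A n}

theorem del_mem {m : ℕ} {c : M.Ch} (hc : c ∈ M.Cc m) : M.del c ∈ M.Cc (m + 1) := by
  refine ⟨by rw [del_apply, Finset.sum_empty], fun J hJ => ?_⟩
  rw [del_apply]
  refine Finset.sum_eq_zero fun j hj => ?_
  have h1 := Finset.card_erase_add_one hj
  rw [ev_eq_zero (hc.2 _ (by omega)), smul_zero]

/-- The Čech cohomology in degree `j` is finitely generated if this holds in degree `j + 1` for all systems. -/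
theorem FG_step [IsNoetherianRing A] (hM : M.IsCoh) (j : ℕ)
    (h : ∀ K : MSys.{u, u} A n, K.IsCoh → K.FG (j + 1)) : M.FG j := by
  obtain ⟨r, d, y, hy, hsur⟩ := exists_pres hM
  let a : (KS hy).Ch →ₗ[A] (Finset (Fin n) → Fin r → ((Fin n → ℤ) →₀ A)) :=
    LinearMap.pi fun J => (kv hy J) ∘ₗ LinearMap.proj J
  let b : (Finset (Fin n) → Fin r → ((Fin n → ℤ) →₀ A)) →ₗ[A] M.Ch :=
    LinearMap.pi fun J => (if J.Nonempty then M.phi d y J else 0) ∘ₗ LinearMap.proj J
  have ha : ∀ c J, a c J = kv hy J (c J) := fun c J => rfl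
  have hb : ∀ c J, J.Nonempty → b c J = M.phi d y J (c J) := by
    intro c J hJ
    change (if J.Nonempty then M.phi d y J else 0) (c J) = _
    rw [if_pos hJ]
  have hb0 : ∀ c, b c ∅ = 0 := by
    intro c
    change (if (∅ : Finset (Fin n)).Nonempty then M.phi d y ∅ else 0) (c ∅) = _
    rw [if_neg (by simp)]
    rfl
  refine les3 (KS hy).del (delv (A := A)) M.del a b (KS hy).Cc (Cv (Oo A n r (-d))) M.Cc
    (fun m x hx => del_mem hx)
    (fun m x hx => delv_mem (fun J K _ hJK => Oo_mono hJK) hx) (fun m x _ => delv_delv)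
    ?_ ?_ ?_ ?_ ?_ ?_ ?_ ?_ j (fg_Oo r (-d) j) (h (KS hy) (KS_coh hM hy))
  · -- a_mem
    intro m x hx
    refine ⟨by rw [ha, hx.1, map_zero], fun J => ⟨fun hJ => ?_, fun hJ => by rw [ha, hx.2 J hJ, map_zero]⟩⟩
    rcases Finset.eq_empty_or_nonempty J with rfl | hJ'
    · rw [ha, hx.1, map_zero]
      exact Submodule.zero_mem _
    · rw [ha]
      exact ((mem_kr hJ').1 (kv_mem hy (x J))).1
  · -- b_mem
    intro m x hx
    refine ⟨hb0 x, fun J hJ => ?_⟩
    rcases Finset.eq_empty_or_nonempty J with rfl | hJ'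
    · exact hb0 x
    · rw [hb x J hJ', (hx.2 J).2 hJ, map_zero]
  · -- aD
    intro m x _
    funext J
    rw [ha, del_apply, map_sum, delv_apply]
    refine Finset.sum_congr rfl fun j _ => ?_
    rw [map_zsmul, ev_of (Finset.erase_subset _ _), kv_ρ, ha]
  · -- bD
    intro m x hx
    funext J
    rcases Finset.eq_empty_or_nonempty J with rfl | hJ'
    · rw [hb0, del_apply, Finset.sum_empty]
    · rw [hb _ J hJ', delv_apply, del_apply, map_sum]
      refine Finset.sum_congr rfl fun j hj => ?_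
      rw [map_zsmul]
      have h1 := Finset.card_erase_add_one hj
      rcases Finset.eq_empty_or_nonempty (J.erase j) with h2 | h2
      · rw [h2, hx.1, map_zero, ev_eq_zero (hb0 x)]
      · rw [ev_of (Finset.erase_subset _ _), hb x _ h2]
        by_cases h3 : (J.erase j).card = m
        · rw [phi_ρ hy (Finset.erase_subset _ _) h2 ((hx.2 _).1 h3)]
        · rw [(hx.2 _).2 h3, map_zero, map_zero, map_zero]
  · -- a_inj
    intro m x _ h0
    funext J
    apply kv_inj hy
    rw [← ha, h0, Pi.zero_apply, Pi.zero_apply, map_zero]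
  · -- ba
    intro m x _
    funext J
    rcases Finset.eq_empty_or_nonempty J with rfl | hJ'
    · rw [hb0]
      rfl
    · rw [hb _ J hJ', ha]
      exact ((mem_kr hJ').1 (kv_mem hy (x J))).2
  · -- ex
    intro m x hx h0
    have h1 : ∀ J, x J ∈ M.kr d y J := by
      intro J
      rcases Finset.eq_empty_or_nonempty J with rfl | hJ'
      · exact mem_kr_empty.2 hx.1
      · refine (mem_kr hJ').2 ⟨?_, ?_⟩
        · by_cases h3 : J.card = m
          · exact (hx.2 J).1 h3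
          · rw [(hx.2 J).2 h3]
            exact Submodule.zero_mem _
        · rw [← hb x J hJ', h0]
          rfl
    choose w hw using fun J => exists_kv hy (h1 J)
    refine ⟨w, ⟨?_, fun J hJ => ?_⟩, ?_⟩
    · apply kv_inj hy
      rw [hw, hx.1, map_zero]
    · apply kv_inj hy
      rw [hw, (hx.2 J).2 hJ, map_zero]
    · funext J
      rw [ha, hw]
  · -- surj
    intro m x hx
    have h1 : ∀ J : Finset (Fin n), ∃ f, J.Nonempty → J.card = m → f ∈ Oo A n r (-d) J ∧ M.phi d y J f = x J := by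
      intro J
      by_cases hJ : J.Nonempty
      · obtain ⟨f, hf, hfx⟩ := hsur J hJ (x J)
        exact ⟨f, fun _ _ => ⟨hf, hfx⟩⟩
      · exact ⟨0, fun h => absurd h hJ⟩
    choose f hf using h1
    classical
    refine ⟨fun J => if J.Nonempty ∧ J.card = m then f J else 0, ⟨?_, fun J => ⟨fun hJ => ?_, fun hJ => ?_⟩⟩, ?_⟩
    · exact if_neg (by simp)
    · change (if J.Nonempty ∧ J.card = m then f J else 0) ∈ _
      by_cases h2 : J.Nonempty ∧ J.card = m
      · rw [if_pos h2]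
        exact (hf J h2.1 h2.2).1
      · rw [if_neg h2]
        exact Submodule.zero_mem _
    · exact if_neg (fun h2 => hJ h2.2)
    · funext J
      rcases Finset.eq_empty_or_nonempty J with rfl | hJ'
      · rw [hb0, hx.1]
      · rw [hb _ J hJ']
        by_cases h2 : J.card = m
        · rw [if_pos ⟨hJ', h2⟩]
          exact (hf J hJ' h2).2
        · rw [if_neg (fun h => h2 h.2), map_zero, hx.2 J h2]

theorem FG_large (M : MSys.{u, v} A n) (j : ℕ) (hj : n ≤ j) : M.FG j := by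
  have h1 : M.Cc (j + 1) ⊓ LinearMap.ker M.del = ⊥ := by
    rw [eq_bot_iff]
    rintro c ⟨hc, -⟩
    rw [Submodule.mem_bot]
    funext J
    refine hc.2 J ?_
    have h2 : J.card ≤ n := (Finset.card_le_univ J).trans_eq (Fintype.card_fin n)
    omega
  unfold FG
  rw [h1]
  exact FGq.bot _

theorem FG_aux [IsNoetherianRing A] (k : ℕ) : ∀ (j : ℕ), n ≤ j + k → ∀ K : MSys.{u, u} A n, K.IsCoh → K.FG j := by
  induction k with
  | zero => exact fun j hj K _ => FG_large K j (by omega)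
  | succ k ih => exact fun j hj K hK => FG_step hK j (ih (j + 1) (by omega))

/-- The Čech cohomology of a coherent system over a noetherian ring is finitely generated. -/
theorem fg_coh [IsNoetherianRing A] (hM : M.IsCoh) (j : ℕ) : M.FG j :=
  FG_step hM j fun K hK => FG_aux n (j + 1) (by omega) K hK

end MSys

end MPadcGP
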