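import Pool.Agent.Lib.MP_adc574_ag_GP.Cya

/-!
# Noetherian property of `O(d)^r` on a chart
-/

/-
JOB Cn: prove fg_stable. PROOF. Let Po = MvPolynomial (Fin n) A (noetherian). For k : Fin n →₀ ℕ let E k : Fin n → ℤ be E k = d • e_i + ∑ l, (k l : ℤ) • ed l i (e_i = Pi.single i 1,
d : ℤ). Let θ : Po →ₗ[A] L := (MvPolynomial.basisMonomials (Fin n) A).constr A (fun k => Finsupp.single (E k) 1) (L = (Fin n → ℤ) →₀ A) and Θ : (Fin r → Po) →ₗ[A] (Fin r → L) coordinatewise
(LinearMap.pi fun ν => θ ∘ₗ LinearMap.proj ν). θ (monomial k a) = single (E k) a.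
(1) θ (X l * p) = sh A (ed l i) (θ p) (check on monomials: E (k + single l 1) = ed l i + E k; MvPolynomial.induction_on'' or the basis ext). Hence Θ (X l • p) = shV A r (ed l i) (Θ p), and
ed l i in OE n 0 {i} (smul_ed_mem with k = 1, or directly), so for a submodule P stable under all shV A r b, b in OE n 0 {i}, the set Θ⁻¹ P is a Po-submodule of Fin r → Po: closed under addition, under
X l • and under A, so under all polynomials (MvPolynomial.induction_on: C a, sum, product with X).
(2) every monomial a in OE n d {i} is E k: k l = (a l).toNat for l ≠ i and k i = 0 (a l ≥ 0 for l ≠ i; at i: d - ∑_(l ≠ i) a l = a i since ∑ a = d; ed i i = 0). So Oo A n r d {i} ≤ range Θ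
(coordinatewise: Oh_ind / supported; or: for f in Oo each f ν = θ (p ν)).
(3) Let Q = the Po-submodule Θ⁻¹ P of (Fin r → Po); noetherian: Q = span_Po T', T' finite (IsNoetherian.noetherian Q, Submodule.fg_def). S := Θ '' T'. S is finite, S ⊆ P.
If P' is stable and S ⊆ P', then Q' = Θ⁻¹ P' is a Po-submodule containing T', so Q ≤ Q'. For x in P: x = Θ p (2, hP), p in Q ≤ Q', x = Θ p in P'.
-/

set_option autoImplicit false

namespace MPadcGP

universe u v w

section Noeth

variable {A : Type u} [CommRing A] {n : ℕ}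

private def cnE (d : ℤ) (i : Fin n) (k : Fin n →₀ ℕ) : Fin n → ℤ :=
  Pi.single i d + ∑ l, (k l : ℤ) • ed l i

private theorem cnE_add (d : ℤ) (i l : Fin n) (k : Fin n →₀ ℕ) :
    cnE d i (Finsupp.single l 1 + k) = ed l i + cnE d i k := by
  unfold cnE
  have h1 : ∑ m, (((Finsupp.single l 1 + k : Fin n →₀ ℕ) m : ℕ) : ℤ) • ed m i =
      ed l i + ∑ m, (k m : ℤ) • ed m i := by
    have h2 : ∀ m : Fin n, (((Finsupp.single l 1 + k : Fin n →₀ ℕ) m : ℕ) : ℤ) • ed m i =
        (if l = m then ed m i else 0) + (k m : ℤ) • ed m i := by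
      intro m
      rw [Finsupp.add_apply, Finsupp.single_apply, Nat.cast_add, add_smul]
      congr 1
      split_ifs
      · rw [Nat.cast_one, one_smul]
      · rw [Nat.cast_zero, zero_smul]
    rw [Finset.sum_congr rfl fun m _ => h2 m, Finset.sum_add_distrib, Finset.sum_ite_eq,
      if_pos (Finset.mem_univ _)]
  rw [h1]
  abel

private theorem cnE_surj {d : ℤ} {i : Fin n} {a : Fin n → ℤ} (ha : a ∈ OE n d ({i} : Finset (Fin n))) :
    ∃ k : Fin n →₀ ℕ, cnE d i k = a := by
  obtain ⟨ha1, ha2⟩ := ha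
  refine ⟨Finsupp.equivFunOnFinite.symm fun l => (a l).toNat, ?_⟩
  have hk : ∀ l, (Finsupp.equivFunOnFinite.symm (fun l => (a l).toNat) : Fin n →₀ ℕ) l = (a l).toNat :=
    fun l => rfl
  funext m
  unfold cnE
  rw [Pi.add_apply, Finset.sum_apply]
  have h1 : ∀ l, ((((Finsupp.equivFunOnFinite.symm (fun l => (a l).toNat) : Fin n →₀ ℕ) l : ℕ) : ℤ) • ed l i) m =
      (if m = l then ((a l).toNat : ℤ) else 0) - (if m = i then ((a l).toNat : ℤ) else 0) := by
    intro l
    rw [hk, Pi.smul_apply, smul_eq_mul]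
    unfold ed
    rw [Pi.sub_apply, Pi.single_apply, Pi.single_apply]
    split_ifs <;> ring
  rw [Finset.sum_congr rfl fun l _ => h1 l, Finset.sum_sub_distrib, Finset.sum_ite_eq,
    if_pos (Finset.mem_univ _), Pi.single_apply]
  by_cases hm : m = i
  · subst hm
    rw [if_pos rfl]
    simp only [if_true]
    have h2 := Finset.add_sum_erase Finset.univ (fun l => ((a l).toNat : ℤ)) (Finset.mem_univ m)
    have h3 := Finset.add_sum_erase Finset.univ (fun l => a l) (Finset.mem_univ m)
    have h4 : ∑ l ∈ Finset.univ.erase m, ((a l).toNat : ℤ) = ∑ l ∈ Finset.univ.erase m, a l := by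
      refine Finset.sum_congr rfl fun l hl => ?_
      have h5 : 0 ≤ a l := ha2 l (by
        rw [Finset.mem_singleton]
        exact (Finset.mem_erase.1 hl).1)
      exact Int.toNat_of_nonneg h5
    rw [h4] at h2
    rw [ha1] at h3
    rw [← h2]
    linarith
  · rw [if_neg hm]
    simp only [if_neg hm, Finset.sum_const_zero]
    have h5 : 0 ≤ a m := ha2 m (by
      rw [Finset.mem_singleton]
      exact hm)
    rw [Int.toNat_of_nonneg h5]
    ring

private noncomputable def cnT (A : Type u) [CommRing A] {n : ℕ} (d : ℤ) (i : Fin n) :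
    MvPolynomial (Fin n) A →ₗ[A] ((Fin n → ℤ) →₀ A) :=
  (MvPolynomial.basisMonomials (Fin n) A).constr A fun k => Finsupp.single (cnE d i k) 1

private theorem cnT_mono (d : ℤ) (i : Fin n) (k : Fin n →₀ ℕ) (a : A) :
    cnT A d i (MvPolynomial.monomial k a) = Finsupp.single (cnE d i k) a := by
  have h1 : MvPolynomial.monomial k a = a • (MvPolynomial.basisMonomials (Fin n) A) k := by
    rw [MvPolynomial.coe_basisMonomials, MvPolynomial.smul_monomial, smul_eq_mul, mul_one]
  rw [h1, map_smul]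
  unfold cnT
  rw [Module.Basis.constr_basis, Finsupp.smul_single, smul_eq_mul, mul_one]

private theorem cnT_X (d : ℤ) (i l : Fin n) (p : MvPolynomial (Fin n) A) :
    cnT A d i (MvPolynomial.X l * p) = sh A (ed l i) (cnT A d i p) := by
  have h1 : cnT A d i ∘ₗ LinearMap.mulLeft A (MvPolynomial.X l) = sh A (ed l i) ∘ₗ cnT A d i := by
    refine (MvPolynomial.basisMonomials (Fin n) A).ext fun k => ?_
    rw [LinearMap.comp_apply, LinearMap.comp_apply, LinearMap.mulLeft_apply,
      MvPolynomial.coe_basisMonomials]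
    have h2 : (MvPolynomial.X l : MvPolynomial (Fin n) A) * MvPolynomial.monomial k 1 =
        MvPolynomial.monomial (Finsupp.single l 1 + k) 1 := by
      rw [MvPolynomial.X, MvPolynomial.monomial_mul, mul_one]
    rw [h2, cnT_mono, cnT_mono, sh_single, cnE_add]
  exact LinearMap.congr_fun h1 p

private noncomputable def cnV (A : Type u) [CommRing A] {n : ℕ} (r : ℕ) (d : ℤ) (i : Fin n) :
    (Fin r → MvPolynomial (Fin n) A) →ₗ[A] (Fin r → ((Fin n → ℤ) →₀ A)) :=
  LinearMap.pi fun ν => cnT A d i ∘ₗ LinearMap.proj ν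

private theorem cnV_X {r : ℕ} (d : ℤ) (i l : Fin n) (p : Fin r → MvPolynomial (Fin n) A) :
    cnV A r d i ((MvPolynomial.X l : MvPolynomial (Fin n) A) • p) = shV A r (ed l i) (cnV A r d i p) := by
  funext ν
  exact cnT_X d i l (p ν)

/-- The submodule over the polynomial ring of a stable submodule. -/
private noncomputable def cnQ {r : ℕ} (d : ℤ) (i : Fin n) (P : Submodule A (Fin r → ((Fin n → ℤ) →₀ A)))
    (hs : ∀ b ∈ OE n 0 ({i} : Finset (Fin n)), ∀ x ∈ P, shV A r b x ∈ P) :
    Submodule (MvPolynomial (Fin n) A) (Fin r → MvPolynomial (Fin n) A) where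
  carrier := {p | cnV A r d i p ∈ P}
  add_mem' := by
    intro p q hp hq
    change cnV A r d i (p + q) ∈ P
    rw [map_add]
    exact P.add_mem hp hq
  zero_mem' := by
    change cnV A r d i 0 ∈ P
    rw [map_zero]
    exact P.zero_mem
  smul_mem' := by
    intro c p hp
    change cnV A r d i (c • p) ∈ P
    have hp' : cnV A r d i p ∈ P := hp
    induction c using MvPolynomial.induction_on with
    | C a =>
      have h1 : (MvPolynomial.C a : MvPolynomial (Fin n) A) • p = a • p := by
        funext ν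
        rw [Pi.smul_apply, Pi.smul_apply, smul_eq_mul, MvPolynomial.C_mul']
      rw [h1, map_smul]
      exact P.smul_mem a hp'
    | add c c' hc hc' =>
      rw [add_smul, map_add]
      exact P.add_mem hc hc'
    | mul_X c l hc =>
      have h1 : (c * MvPolynomial.X l) • p = (MvPolynomial.X l : MvPolynomial (Fin n) A) • (c • p) := by
        rw [mul_comm, mul_smul]
      rw [h1, cnV_X]
      refine hs _ ?_ _ hc
      have h2 := smul_ed_mem 1 l (Finset.mem_singleton_self i)
      rwa [one_smul] at h2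

private theorem cnV_surj {r : ℕ} {d : ℤ} {i : Fin n} {f : Fin r → ((Fin n → ℤ) →₀ A)}
    (hf : f ∈ Oo A n r d {i}) : ∃ p, cnV A r d i p = f := by
  have h1 : ∀ ν, ∃ p, cnT A d i p = f ν := by
    intro ν
    refine Oh_ind (P := fun g => ∃ p, cnT A d i p = g) ⟨0, map_zero _⟩ ?_ ?_ (mem_Oo.1 hf ν)
    · intro a ha c
      obtain ⟨k, hk⟩ := cnE_surj ha
      exact ⟨MvPolynomial.monomial k c, by rw [cnT_mono, hk]⟩
    · rintro g g' ⟨p, hp⟩ ⟨p', hp'⟩
      exact ⟨p + p', by rw [map_add, hp, hp']⟩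
  choose p hp using h1
  exact ⟨p, funext fun ν => hp ν⟩

/-- Submodules of `O(d)^r` on the chart `i` which are stable under the monomials are finitely generated. -/
theorem fg_stable [IsNoetherianRing A] {r : ℕ} {d : ℤ} {i : Fin n}
    (P : Submodule A (Fin r → ((Fin n → ℤ) →₀ A))) (hP : P ≤ Oo A n r d {i})
    (hs : ∀ b ∈ OE n 0 ({i} : Finset (Fin n)), ∀ x ∈ P, shV A r b x ∈ P) :
    ∃ S : Set (Fin r → ((Fin n → ℤ) →₀ A)), S.Finite ∧ S ⊆ (P : Set (Fin r → ((Fin n → ℤ) →₀ A))) ∧
      ∀ P' : Submodule A (Fin r → ((Fin n → ℤ) →₀ A)), S ⊆ (P' : Set (Fin r → ((Fin n → ℤ) →₀ A))) →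
        (∀ b ∈ OE n 0 ({i} : Finset (Fin n)), ∀ x ∈ P', shV A r b x ∈ P') → P ≤ P' := by
  classical
  have hno : IsNoetherian (MvPolynomial (Fin n) A) (Fin r → MvPolynomial (Fin n) A) := inferInstance
  obtain ⟨T, hT⟩ := hno.noetherian (cnQ d i P hs)
  refine ⟨cnV A r d i '' (T : Set (Fin r → MvPolynomial (Fin n) A)), T.finite_toSet.image _, ?_, ?_⟩
  · rintro _ ⟨t, ht, rfl⟩
    have h1 : t ∈ cnQ d i P hs := by
      rw [← hT]
      exact Submodule.subset_span ht
    exact h1
  · intro P' hS hs' x hx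
    obtain ⟨p, rfl⟩ := cnV_surj (hP hx)
    have h1 : cnQ d i P hs ≤ cnQ d i P' hs' := by
      rw [← hT, Submodule.span_le]
      intro t ht
      exact hS ⟨t, ht, rfl⟩
    have h2 : p ∈ cnQ d i P hs := hx
    exact h1 h2

end Noeth

end MPadcGP
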