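import Pool.Agent.Lib.MP_adc574_ag_GP.Cpa

/-!
# Every coherent system is a quotient of `O(-d)^r`
-/

/-
JOB Cp: prove exists_pres. PROOF. For every i let S i be the finite generating set of N {i} (hM.fg i, choose). The type Σ i, ↥(S i) is finite: let r and an equivalence
e : Fin r ≃ Σ i, S i (Finite.exists_equiv_fin or Fintype.equivFin.symm; S i finite gives Finite ↥(S i)). For every ν let (i, x) = e ν and exists_sec hM i x: d0 ν. Put d = sup of the d0 ν
(Finset.univ.sup d0) and y ν the section for d: IsSec d (y ν), y ν i = x. Claim: for all J nonempty the submodule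
P J := (Oo A n r (-d) J).map (M.phi d y J) is ⊤. Choose i in J and apply eq_top_of_stable hM i P: (h1) phi_ρ and Oo_mono; (h2) phi_m and shV_mem;
(h3) P {i} = ⊤: by the property of S i (third part of hM.fg i): S i ⊆ P {i}: for x in S i take ν = e.symm ⟨i, x⟩ and f = Pi.single ν (Finsupp.single (-(d • Pi.single i 1)) 1):
f in Oo A n r (-d) {i} (the exponent -(d e_i) is in OE n (-d) {i}), phi f = secMap d (y ν) {i} (single ..) (phi_apply, Finset.sum_eq_single ν) =
1 • m {i} (-(d e_i) + d e_i) (ρ (y ν i)) by secMap_single = m {i} 0 (ρ x) = x (m_zero, ρ_id). Stability under m {i} b: as (h2). Then P J = ⊤ gives f for every w.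
-/

set_option autoImplicit false

namespace MPadcGP

universe u v w

namespace MSys

variable {A : Type u} [CommRing A] {n : ℕ} {M : MSys.{u, v} A n}

private theorem cp_exp (d : ℕ) (i : Fin n) :
    -(d • (Pi.single i 1 : Fin n → ℤ)) ∈ OE n (-d) {i} := by
  refine ⟨?_, fun l hl => ?_⟩
  · simp only [Pi.neg_apply, Pi.smul_apply, Finset.sum_neg_distrib, ← Finset.smul_sum, sum_single]
    rw [nsmul_eq_mul, mul_one]
  · have h : l ≠ i := fun h => hl (Finset.mem_singleton.2 h)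
    rw [Pi.neg_apply, Pi.smul_apply, Pi.single_eq_of_ne h, smul_zero, neg_zero]

private theorem cp_gen {r d : ℕ} {y : Fin r → ∀ j : Fin n, M.N {j}} (hy : ∀ ν, M.IsSec d (y ν)) (i : Fin n)
    (ν : Fin r) : ∃ f ∈ Oo A n r (-d) {i}, M.phi d y {i} f = y ν i := by
  classical
  refine ⟨Pi.single ν (Finsupp.single (-(d • (Pi.single i 1 : Fin n → ℤ))) 1), mem_Oo.2 fun μ => ?_, ?_⟩
  · rcases eq_or_ne μ ν with rfl | h
    · rw [Pi.single_eq_same]
      exact single_mem_Oh (cp_exp d i) 1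
    · rw [Pi.single_eq_of_ne h]
      exact Submodule.zero_mem _
  · rw [phi_apply, Finset.sum_eq_single ν]
    · rw [Pi.single_eq_same, secMap_single (hy ν) (Finset.mem_singleton_self i) (cp_exp d i), one_smul,
        neg_add_cancel, M.m_zero {i} ⟨i, Finset.mem_singleton_self i⟩]
      exact M.ρ_id {i} (y ν i)
    · intro μ _ h
      rw [Pi.single_eq_of_ne h, map_zero]
    · intro h
      exact absurd (Finset.mem_univ ν) h

/-- Every coherent system is a quotient of `O(-d)^r`. -/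
theorem exists_pres (hM : M.IsCoh) : ∃ (r d : ℕ) (y : Fin r → ∀ j : Fin n, M.N {j}), (∀ ν, M.IsSec d (y ν)) ∧
    ∀ J : Finset (Fin n), J.Nonempty → ∀ w : M.N J, ∃ f ∈ Oo A n r (-d) J, M.phi d y J f = w := by
  choose S hSf hS using hM.fg
  have hfin : ∀ i, Finite (S i) := fun i => (hSf i).to_subtype
  obtain ⟨r, ⟨e⟩⟩ := Finite.exists_equiv_fin (Σ i : Fin n, S i)
  choose d0 hd0 using fun ν : Fin r => exists_sec hM (e.symm ν).1 ((e.symm ν).2 : M.N {(e.symm ν).1})
  choose y hy hyx using fun ν : Fin r =>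
    hd0 ν (Finset.univ.sup d0) (Finset.le_sup (f := d0) (Finset.mem_univ ν))
  have hν : ∀ p : Σ i : Fin n, S i, y (e p) p.1 = (p.2 : M.N {p.1}) := by
    intro p
    have h := hyx (e p)
    rw [e.symm_apply_apply] at h
    exact h
  refine ⟨r, Finset.univ.sup d0, y, hy, ?_⟩
  intro J hJ w
  obtain ⟨i, hi⟩ := hJ
  have hP := eq_top_of_stable hM i
    (fun J => (Oo A n r (-(Finset.univ.sup d0 : ℕ)) J).map (M.phi (Finset.univ.sup d0) y J)) ?_ ?_ ?_ J hi
  · have hw : w ∈ (Oo A n r (-(Finset.univ.sup d0 : ℕ)) J).map (M.phi (Finset.univ.sup d0) y J) := by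
      rw [hP]
      exact Submodule.mem_top
    obtain ⟨f, hf, hfw⟩ := hw
    exact ⟨f, hf, hfw⟩
  · rintro J l hi x ⟨f, hf, rfl⟩
    exact ⟨f, Oo_mono (Finset.subset_insert l J) hf, (phi_ρ hy _ ⟨i, hi⟩ hf).symm⟩
  · rintro J hi b hb x ⟨f, hf, rfl⟩
    exact ⟨shV A r b f, shV_mem hb hf, phi_m hy ⟨i, hi⟩ hb hf⟩
  · refine hS i _ ?_ ?_
    · intro x hx
      obtain ⟨f, hf, hfx⟩ := cp_gen hy i (e ⟨i, ⟨x, hx⟩⟩)
      refine ⟨f, hf, ?_⟩
      rw [hfx]
      exact hν ⟨i, ⟨x, hx⟩⟩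
    · rintro b hb x ⟨f, hf, rfl⟩
      exact ⟨shV A r b f, shV_mem hb hf, phi_m hy ⟨i, Finset.mem_singleton_self i⟩ hb hf⟩

end MSys

end MPadcGP
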