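import Pool.Agent.Lib.MP_adc574_ag_GP.Cy

/-!
# Stable submodules of a coherent system
-/

/-
JOB Cpa: prove eq_top_of_stable. PROOF. For T : Finset (Fin n) by Finset.induction_on T: for every T, P (T ∪ {i}) = ⊤, better: prove for all J with i in J by induction:
Finset.induction_on (J.erase i) or: claim for all finite T: P (insert i T) = ⊤ with the sets written as iterated inserts. T = ∅: insert i ∅ = {i}: h3.
T = insert l T': the set insert i (insert l T') = insert l (insert i T') (Finset.insert_comm; rewrite the claim with this equality). Put J' = insert i T'. For w in N (insert l J'):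
hM.surj J' i (mem) l w: k, x with ρ x = m (insert l J') (k • ed l i) w; x in P J' = ⊤, so ρ x in P (insert l J') (h1), so m (k • ed i l) (ρ x) in P (insert l J')
(h2; k • ed i l in OE n 0 (insert l J') by smul_ed_mem since l in insert l J'), and m (k • ed i l) (m (k • ed l i) w) = w by m_cancel (i, l in insert l J'). Finally
J = insert i J when i in J (Finset.insert_eq_of_mem).
-/

set_option autoImplicit false

namespace MPadcGP

universe u v w

namespace MSys

variable {A : Type u} [CommRing A] {n : ℕ} {M : MSys.{u, v} A n}

/-- Multiplication by an invertible monomial. -/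
theorem m_cancel {J : Finset (Fin n)} {i : Fin n} (hi : i ∈ J) {l : Fin n} (hl : l ∈ J) (k : ℕ) (x : M.N J) :
    M.m J (k • ed i l) (M.m J (k • ed l i) x) = x := by
  have hJ : J.Nonempty := ⟨i, hi⟩
  rw [← M.m_add J hJ _ (smul_ed_mem k i hl) _ (smul_ed_mem k l hi), ← smul_add, ed_add, ed_self, smul_zero,
    M.m_zero J hJ]

/-- A submodule of `N J` for all `J` which contains the restrictions and is stable under the monomials is everything if
it contains `N {i}`. -/
theorem eq_top_of_stable (hM : M.IsCoh) (i : Fin n) (P : ∀ J : Finset (Fin n), Submodule A (M.N J))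
    (h1 : ∀ (J : Finset (Fin n)) (l : Fin n), i ∈ J → ∀ x ∈ P J, M.ρ (Finset.subset_insert l J) x ∈ P (insert l J))
    (h2 : ∀ J : Finset (Fin n), i ∈ J → ∀ b ∈ OE n 0 J, ∀ x ∈ P J, M.m J b x ∈ P J)
    (h3 : P {i} = ⊤) : ∀ J : Finset (Fin n), i ∈ J → P J = ⊤ := by
  have key : ∀ T J : Finset (Fin n), J = insert i T → P J = ⊤ := by
    intro T
    induction T using Finset.induction_on with
    | empty =>
      intro J hJ
      have hJ2 : J = {i} := by rw [hJ, insert_empty_eq]
      subst hJ2
      exact h3
    | insert l T' _ ih =>
      intro J hJ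
      have hJ2 : J = insert l (insert i T') := by rw [hJ, Finset.insert_comm]
      have ih' := ih (insert i T') rfl
      subst hJ2
      have hiJ : i ∈ insert i T' := Finset.mem_insert_self i T'
      have hiL : i ∈ insert l (insert i T') := Finset.mem_insert_of_mem hiJ
      have hlL : l ∈ insert l (insert i T') := Finset.mem_insert_self l _
      rw [eq_top_iff]
      rintro w -
      obtain ⟨k, x, hx⟩ := hM.surj (insert i T') i hiJ l w
      have hx1 : x ∈ P (insert i T') := by
        rw [ih']
        exact Submodule.mem_top
      have hx2 := h1 (insert i T') l hiJ x hx1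
      rw [hx] at hx2
      have hx3 := h2 _ hiL (k • ed i l) (smul_ed_mem k i hlL) _ hx2
      rw [m_cancel hiL hlL] at hx3
      exact hx3
  exact fun J hJ => key J J (Finset.insert_eq_of_mem hJ).symm

end MSys

end MPadcGP
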