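import Pool.Agent.Lib.MP_adc574_ag_GP.Cz

/-!
# Extension of sections after twisting
-/

/-
JOB Cx: prove exists_sec. PROOF. Write R(J,j) for the restriction from {j} to J (j in J), all exponents are k • ed l i, all
monomials admissible by smul_ed_mem, use M.m_add / M.ρ_m / M.ρ_comp / m_comm all the time.
Step 1. For every j apply hM.surj {j} j (mem_singleton_self j) i to the element ρ({i} ⊆ insert i {j}) x: k_j, y'_j in N {j} with
ρ(subset_insert) y'_j = m (k_j • ed i j) (ρ x). With k = sup of the k_j (Finset.univ.sup) and y''_j := m {j} ((k - k_j) • ed i j) y'_j: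
ρ y''_j = m (k • ed i j) (ρ x) in N (insert i {j}) for all j [(k-k_j) • e + k_j • e = k • e].
Step 2. For j, l let z_jl := ρ({j} ⊆ {l,j}) y''_j - m (k • ed l j) (ρ({l} ⊆ {l,j}) y''_l) in N (insert l {j}) (use insert l {j}; l, j are in it).
Its restriction to insert i (insert l {j}) is m(k • ed i j) ρx - m (k • ed l j) (m (k • ed i l) ρx) = 0, because k • ed l j + k • ed i l = k • ed i j.
By hM.ker (insert l {j}) j _ i: e_jl with m (e_jl • ed i j) z_jl = 0; with e = sup of all e_jl: m (e' • ed i j) z_jl = 0 for all e' ≥ e.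
Step 3. d0 = k + e. For d ≥ d0 put e' = d - k ≥ e, y_j := m {j} (e' • ed i j) y''_j. Then in N (insert l {j}):
ρ y_j - m (d • ed l j) (ρ y_l) = m (e' • ed i j) (ρ y''_j) - m (d • ed l j + e' • ed i l) (ρ y''_l) = m (e' • ed i j) z_jl = 0, because
d • ed l j + e' • ed i l = k • ed l j + e' • ed i j (d = k + e', ed l j + ed i l = ed i j). Restrict from insert l {j} to an arbitrary J
containing j and l (ρ_comp, ρ_m): IsSec d y.
Step 4. y i = x: ρ({i} ⊆ insert i {i}) (y i) = m (d • ed i i) (ρ x) = ρ x (ed_self, m_zero; from steps 1, 3: y_i = m (e' • ed i i) y''_i, ρ y''_i =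
m (k • ed i i) ρ x), and ρ is injective there: apply ρ(insert i {i} ⊆ {i}) and ρ_comp, ρ_id.
-/

set_option autoImplicit false

namespace MPadcGP

universe u v w

section OE

variable {n : ℕ}

theorem ed_self (i : Fin n) : ed i i = 0 := sub_self _

theorem ed_add (l i j : Fin n) : ed l i + ed i j = ed l j := by
  unfold ed
  abel

theorem zero_mem_OE (J : Finset (Fin n)) : (0 : Fin n → ℤ) ∈ OE n 0 J :=
  ⟨Finset.sum_const_zero, fun _ _ => le_rfl⟩

theorem add_mem_OE {d e : ℤ} {J : Finset (Fin n)} {a b : Fin n → ℤ} (ha : a ∈ OE n d J) (hb : b ∈ OE n e J) :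
    a + b ∈ OE n (d + e) J :=
  ⟨by simp only [Pi.add_apply, Finset.sum_add_distrib, ha.1, hb.1],
    fun l hl => add_nonneg (ha.2 l hl) (hb.2 l hl)⟩

theorem OE_mono {d : ℤ} {J K : Finset (Fin n)} (h : J ⊆ K) {a : Fin n → ℤ} (ha : a ∈ OE n d J) : a ∈ OE n d K :=
  ⟨ha.1, fun l hl => ha.2 l fun hlJ => hl (h hlJ)⟩

theorem sum_single (l : Fin n) (r : ℤ) : ∑ i, (Pi.single l r : Fin n → ℤ) i = r := by
  rw [Finset.sum_eq_single l]
  · exact Pi.single_eq_same _ _
  · intro i _ hi
    exact Pi.single_eq_of_ne hi _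
  · intro h
    exact absurd (Finset.mem_univ _) h

theorem ed_sum (l i : Fin n) : ∑ j, ed l i j = 0 := by
  unfold ed
  simp only [Pi.sub_apply, Finset.sum_sub_distrib, sum_single, sub_self]

theorem smul_ed_mem (k : ℕ) (l : Fin n) {i : Fin n} {J : Finset (Fin n)} (hi : i ∈ J) : k • ed l i ∈ OE n 0 J := by
  refine ⟨?_, fun j hj => ?_⟩
  · simp only [Pi.smul_apply, ← Finset.smul_sum, ed_sum, smul_zero]
  · have h1 : j ≠ i := fun h => hj (h ▸ hi)
    have h2 : 0 ≤ ed l i j := by
      unfold ed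
      rw [Pi.sub_apply, Pi.single_eq_of_ne h1, sub_zero]
      rcases eq_or_ne j l with rfl | h
      · rw [Pi.single_eq_same]
        exact zero_le_one
      · rw [Pi.single_eq_of_ne h]
    rw [Pi.smul_apply]
    exact nsmul_nonneg h2 k

end OE

namespace MSys

variable {A : Type u} [CommRing A] {n : ℕ} {M : MSys.{u, v} A n}

theorem m_comm {J : Finset (Fin n)} (hJ : J.Nonempty) {b c : Fin n → ℤ} (hb : b ∈ OE n 0 J) (hc : c ∈ OE n 0 J)
    (x : M.N J) : M.m J b (M.m J c x) = M.m J c (M.m J b x) := by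
  rw [← M.m_add J hJ b hb c hc, ← M.m_add J hJ c hc b hb, add_comm]

private theorem cx_mm {J : Finset (Fin n)} {l i : Fin n} (hi : i ∈ J) (a b : ℕ) (x : M.N J) :
    M.m J (a • ed l i) (M.m J (b • ed l i) x) = M.m J ((a + b) • ed l i) x := by
  rw [add_smul, M.m_add J ⟨i, hi⟩ _ (smul_ed_mem a l hi) _ (smul_ed_mem b l hi)]

/-- Every element of `N {i}` times a power of `x_i` extends to a global section of the twist. -/
theorem exists_sec (hM : M.IsCoh) (i : Fin n) (x : M.N {i}) :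
    ∃ d0 : ℕ, ∀ d, d0 ≤ d → ∃ y : ∀ j, M.N {j}, M.IsSec d y ∧ y i = x := by
  classical
  have hii : ∀ j : Fin n, ({i} : Finset (Fin n)) ⊆ insert i {j} := fun j =>
    Finset.singleton_subset_iff.2 (Finset.mem_insert_self i _)
  have s1 : ∀ j : Fin n, ∃ (k : ℕ) (y : M.N {j}), M.ρ (Finset.subset_insert i {j}) y =
      M.m (insert i {j}) (k • ed i j) (M.ρ (hii j) x) := fun j =>
    hM.surj {j} j (Finset.mem_singleton_self j) i (M.ρ (hii j) x)
  choose kf yf hyf using s1
  obtain ⟨k, hk⟩ : ∃ k : ℕ, ∀ j, kf j ≤ k :=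
    ⟨Finset.univ.sup kf, fun j => Finset.le_sup (Finset.mem_univ j)⟩
  obtain ⟨y2, hy2⟩ : ∃ y2 : ∀ j, M.N {j}, ∀ j, y2 j = M.m {j} ((k - kf j) • ed i j) (yf j) :=
    ⟨fun j => M.m {j} ((k - kf j) • ed i j) (yf j), fun _ => rfl⟩
  -- the restriction of `y2 j` to the sets which contain `i` and `j`
  have c1 : ∀ (J : Finset (Fin n)) (hiJ : i ∈ J) (j : Fin n) (hj : j ∈ J),
      M.ρ (Finset.singleton_subset_iff.2 hj) (y2 j) =
        M.m J (k • ed i j) (M.ρ (Finset.singleton_subset_iff.2 hiJ) x) := by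
    intro J hiJ j hj
    have hsub : insert i {j} ⊆ J := Finset.insert_subset hiJ (Finset.singleton_subset_iff.2 hj)
    have hjj : j ∈ insert i ({j} : Finset (Fin n)) :=
      Finset.mem_insert_of_mem (Finset.mem_singleton_self j)
    have h1 : M.ρ (Finset.subset_insert i {j}) (y2 j) =
        M.m (insert i {j}) (k • ed i j) (M.ρ (hii j) x) := by
      rw [hy2, M.ρ_m (Finset.subset_insert i {j}) (Finset.singleton_nonempty j) _
        (smul_ed_mem _ _ (Finset.mem_singleton_self j)), hyf, cx_mm hjj, Nat.sub_add_cancel (hk j)]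
    have h2 : M.ρ (Finset.singleton_subset_iff.2 hj) (y2 j) =
        M.ρ hsub (M.ρ (Finset.subset_insert i {j}) (y2 j)) := (M.ρ_comp _ _ _).symm
    rw [h2, h1, M.ρ_m hsub ⟨j, hjj⟩ _ (smul_ed_mem _ _ hjj), M.ρ_comp]
  -- step 2
  have hlK : ∀ j l : Fin n, l ∈ insert l ({j} : Finset (Fin n)) := fun j l =>
    Finset.mem_insert_self l _
  have hjK : ∀ j l : Fin n, j ∈ insert l ({j} : Finset (Fin n)) := fun j l =>
    Finset.mem_insert_of_mem (Finset.mem_singleton_self j)
  have s2 : ∀ j l : Fin n, ∃ e : ℕ, M.m (insert l {j}) (e • ed i j)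
      (M.ρ (Finset.singleton_subset_iff.2 (hjK j l)) (y2 j) - M.m (insert l {j}) (k • ed l j)
        (M.ρ (Finset.singleton_subset_iff.2 (hlK j l)) (y2 l))) = 0 := by
    intro j l
    refine hM.ker (insert l {j}) j (hjK j l) i _ ?_
    have hj' : j ∈ insert i (insert l ({j} : Finset (Fin n))) :=
      Finset.mem_insert_of_mem (hjK j l)
    have hl' : l ∈ insert i (insert l ({j} : Finset (Fin n))) :=
      Finset.mem_insert_of_mem (hlK j l)
    have hi' : i ∈ insert i (insert l ({j} : Finset (Fin n))) := Finset.mem_insert_self i _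
    rw [map_sub, M.ρ_comp, M.ρ_m _ ⟨j, hjK j l⟩ _ (smul_ed_mem _ _ (hjK j l)), M.ρ_comp,
      c1 _ hi' j hj', c1 _ hi' l hl', ← M.m_add _ ⟨j, hj'⟩ _ (smul_ed_mem _ _ hj') _
      (smul_ed_mem _ _ hl'), ← smul_add, add_comm (ed l j), ed_add, sub_self]
  choose ef hef using s2
  obtain ⟨e, he⟩ : ∃ e : ℕ, ∀ j l, ef j l ≤ e :=
    ⟨Finset.univ.sup fun p : Fin n × Fin n => ef p.1 p.2, fun j l =>
      Finset.le_sup (f := fun p : Fin n × Fin n => ef p.1 p.2) (Finset.mem_univ (j, l))⟩
  refine ⟨k + e, fun d hd => ⟨fun j => M.m {j} ((d - k) • ed i j) (y2 j), ?_, ?_⟩⟩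
  · intro J j hj l hl
    have hK : insert l {j} ⊆ J := Finset.insert_subset hl (Finset.singleton_subset_iff.2 hj)
    have key : M.ρ (Finset.singleton_subset_iff.2 (hjK j l)) (M.m {j} ((d - k) • ed i j) (y2 j)) =
        M.m (insert l {j}) (d • ed l j) (M.ρ (Finset.singleton_subset_iff.2 (hlK j l))
          (M.m {l} ((d - k) • ed i l) (y2 l))) := by
      rw [M.ρ_m _ (Finset.singleton_nonempty j) _ (smul_ed_mem _ _ (Finset.mem_singleton_self j)),
        M.ρ_m _ (Finset.singleton_nonempty l) _ (smul_ed_mem _ _ (Finset.mem_singleton_self l)),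
        ← M.m_add _ ⟨j, hjK j l⟩ _ (smul_ed_mem _ _ (hjK j l)) _ (smul_ed_mem _ _ (hlK j l))]
      have h1 : d • ed l j + (d - k) • ed i l = (d - k) • ed i j + k • ed l j := by
        rw [← ed_add i l j, smul_add]
        have h2 : d • ed l j = (d - k) • ed l j + k • ed l j := by
          rw [← add_smul]
          congr 1
          omega
        rw [h2]
        abel
      rw [h1, M.m_add _ ⟨j, hjK j l⟩ _ (smul_ed_mem _ _ (hjK j l)) _ (smul_ed_mem _ _ (hjK j l)),
        ← sub_eq_zero, ← map_sub]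
      have h3 : d - k = (d - k - ef j l) + ef j l := by
        have := he j l
        omega
      rw [h3, ← cx_mm (hjK j l), hef, map_zero]
    have h4 := congrArg (M.ρ hK) key
    rw [M.ρ_comp, M.ρ_m hK ⟨j, hjK j l⟩ _ (smul_ed_mem _ _ (hjK j l)), M.ρ_comp] at h4
    exact h4
  · have h1 := c1 {i} (Finset.mem_singleton_self i) i (Finset.mem_singleton_self i)
    rw [ed_self, smul_zero, M.m_zero {i} (Finset.singleton_nonempty i)] at h1
    have h2 : ∀ z : M.N {i}, M.ρ (Finset.singleton_subset_iff.2 (Finset.mem_singleton_self i)) z = z :=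
      fun z => M.ρ_id {i} z
    rw [h2, h2] at h1
    show M.m {i} ((d - k) • ed i i) (y2 i) = x
    rw [ed_self, smul_zero, M.m_zero {i} (Finset.singleton_nonempty i), h1]

end MSys

end MPadcGP
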