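import Pool.Agent.Lib.MP_adc574_ag_GP.Mod2
import Pool.Agent.Lib.MP_adc574_ag_GP.Cx

/-!
# The monomials of degree 0 on the standard charts
-/

/-
JOB Cq: prove lmo_isUnit, mon_spec, mon_add, tr_mon, mon_smul_ed, mon_span. In LR I J the lx I J l, l in J, are units (lx_isUnit); cq_mul_lx: cq l hi * lx i = lx l.
lmo_isUnit: for l not in J (-b l).toNat = 0, the factor is 1; for l in J it is a power of a unit (Finset.prod_induction with IsUnit). General identity (G): lmo b * lmo (-c) * lmo (-b) ... use: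
for every exponent c with nonnegative entries lmo c * lmo c' = lmo (c + c') (toNat_add); and for any b, c: lmo b * lmo c * lmo (-(b + c)) = lmo (b + c) * lmo (-b) * lmo (-c) (factorwise: x^(b+) x^(c+) x^((-(b+c))+) = x^((b+c)+) x^((-b)+) x^((-c)+),
the exponents agree by omega: b.toNat + c.toNat + (-(b+c)).toNat = (b+c).toNat + (-b).toNat + (-c).toNat).
mon_spec: existence of z: choose i in J and put z = (∏ over l with b l ≥ 0 of (cq l hi)^(b l).toNat) * (∏ over l with b l < 0 (so l in J) of (inverse of the unit cq l hi)^(-b l).toNat); or: by induction. Check: with x_l = cq l hi * x_i: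
lmo b = (∏ (cq l hi)^(b l).toNat) x_i^(∑ (b l).toNat), lmo (-b) the same with -b, and ∑ (b l).toNat = ∑ (-b l).toNat because ∑ b l = 0. So z * lmo (-b) = lmo b. (cq_isUnit.)
mon_add: mon_unique (b + c in OE n 0 J: add_mem_OE), cancel the units lmo (-b), lmo (-c) and use (G). tr_mon: mon_unique over K; tr I h is the restriction of a ring homomorphism lmap LR I J → LR I K with lx ↦ lx
(see Mod2.lean: lmap_lx, and the lemma relating tr / cmap to lmap), so it maps lmo I J b to lmo I K b. mon_smul_ed: mon_unique: (cq l hi)^k * lmo (-(k • ed l i)) = lmo (k • ed l i): if l = i both sides: ed = 0, cq = 1 (cq_self). If l ≠ i: lmo (k • ed l i) =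
lx l ^ k, lmo (-..) = lx i ^ k. mon_span: chart_ind; the span is an A-submodule containing 1 = mon 0 (so algebraMap a = a • 1), cq I J l hm = mon (1 • ed l m) (mon_smul_ed with k = 1), closed under addition, and under products: Submodule.span_induction₂ or
span_mul_span: mon b * mon c = mon (b + c), b + c in OE n 0 J.
-/

set_option autoImplicit false

namespace MPadcGP

open MvPolynomial

universe u v w

section Mon

variable {A : Type u} [CommRing A] {n : ℕ} (I : Ideal (MvPolynomial (Fin n) A)) (J : Finset (Fin n))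

/-- The product of the `x_l ^ (b l)` over the `l` with `b l ≥ 0`. -/
noncomputable def lmo (b : Fin n → ℤ) : LR I J := ∏ l, lx I J l ^ (b l).toNat

open Classical in
/-- The monomial `x^b` of degree 0 (with `b l ≥ 0` for `l ∉ J`) as a function on the chart. -/
noncomputable def mon (b : Fin n → ℤ) : chart I J :=
  if h : ∃ z : chart I J, (z : LR I J) * lmo I J (-b) = lmo I J b then h.choose else 1

variable {I J}

theorem lmo_isUnit {b : Fin n → ℤ} (hb : b ∈ OE n 0 J) : IsUnit (lmo I J (-b)) := by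
  refine Finset.prod_induction _ _ (fun _ _ h1 h2 => h1.mul h2) isUnit_one fun l _ => ?_
  by_cases hl : l ∈ J
  · exact (lx_isUnit I J hl).pow _
  · have h1 : ((-b) l).toNat = 0 := by
      have h2 := hb.2 l hl
      rw [Pi.neg_apply]
      omega
    rw [h1, pow_zero]
    exact isUnit_one

/-- the monomial in terms of the coordinates of the chart -/
private theorem Cq_lmo_eq {i : Fin n} (hi : i ∈ J) (b : Fin n → ℤ) :
    lmo I J b = ((∏ l, cq I J l hi ^ (b l).toNat : chart I J) : LR I J) *
      lx I J i ^ (∑ l, (b l).toNat) := by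
  have h1 : ((∏ l, cq I J l hi ^ (b l).toNat : chart I J) : LR I J) =
      ∏ l, (cq I J l hi : LR I J) ^ (b l).toNat := by
    rw [SubmonoidClass.coe_finsetProd]
    exact Finset.prod_congr rfl fun l _ => SubmonoidClass.coe_pow _ _
  rw [h1, ← Finset.prod_pow_eq_pow_sum, ← Finset.prod_mul_distrib]
  refine Finset.prod_congr rfl fun l _ => ?_
  rw [← mul_pow, cq_mul_lx]

private theorem Cq_sum_eq {b : Fin n → ℤ} (hb : ∑ l, b l = 0) :
    ∑ l, (b l).toNat = ∑ l, ((-b) l).toNat := by
  have h1 : ((∑ l, (b l).toNat : ℕ) : ℤ) - ((∑ l, ((-b) l).toNat : ℕ) : ℤ) = ∑ l, b l := by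
    rw [Nat.cast_sum, Nat.cast_sum, ← Finset.sum_sub_distrib]
    refine Finset.sum_congr rfl fun l _ => ?_
    rw [Pi.neg_apply]
    exact Int.toNat_sub_toNat_neg (b l)
  rw [hb] at h1
  omega

private theorem Cq_exists (hJ : J.Nonempty) {b : Fin n → ℤ} (hb : b ∈ OE n 0 J) :
    ∃ z : chart I J, (z : LR I J) * lmo I J (-b) = lmo I J b := by
  obtain ⟨i, hi⟩ := hJ
  have hu : IsUnit (∏ l, cq I J l hi ^ ((-b) l).toNat) := by
    refine Finset.prod_induction _ _ (fun _ _ h1 h2 => h1.mul h2) isUnit_one fun l _ => ?_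
    by_cases hl : l ∈ J
    · exact (cq_isUnit I J hl hi).pow _
    · have h1 : ((-b) l).toNat = 0 := by
        have h2 := hb.2 l hl
        rw [Pi.neg_apply]
        omega
      rw [h1, pow_zero]
      exact isUnit_one
  refine ⟨(∏ l, cq I J l hi ^ (b l).toNat) * ↑hu.unit⁻¹, ?_⟩
  rw [Cq_lmo_eq hi (-b), Cq_lmo_eq hi b, Cq_sum_eq hb.1, ← mul_assoc, ← Subalgebra.coe_mul,
    mul_assoc (∏ l, cq I J l hi ^ (b l).toNat), IsUnit.val_inv_mul, mul_one]

private theorem Cq_add (b c : Fin n → ℤ) :
    lmo I J b * lmo I J c * lmo I J (-(b + c)) = lmo I J (b + c) * (lmo I J (-b) * lmo I J (-c)) := by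
  unfold lmo
  rw [← Finset.prod_mul_distrib, ← Finset.prod_mul_distrib, ← Finset.prod_mul_distrib,
    ← Finset.prod_mul_distrib]
  refine Finset.prod_congr rfl fun l _ => ?_
  rw [← pow_add, ← pow_add, ← pow_add, ← pow_add]
  congr 1
  simp only [Pi.neg_apply, Pi.add_apply]
  omega

private theorem Cq_ed_neg (k : ℕ) (l i : Fin n) : -(k • ed l i) = k • ed i l := by
  unfold ed
  rw [← smul_neg, neg_sub]

private theorem Cq_lmo_ed (k : ℕ) {l i : Fin n} (h : l ≠ i) :
    lmo I J (k • ed l i) = lx I J l ^ k := by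
  unfold lmo
  rw [Finset.prod_eq_single l]
  · have h1 : (k • ed l i) l = k := by
      unfold ed
      rw [Pi.smul_apply, Pi.sub_apply, Pi.single_eq_same, Pi.single_eq_of_ne h, sub_zero,
        nsmul_eq_mul, mul_one]
    rw [h1, Int.toNat_natCast]
  · intro j _ hj
    have h1 : ((k • ed l i) j).toNat = 0 := by
      have h2 : (k • ed l i) j ≤ 0 := by
        unfold ed
        rw [Pi.smul_apply, Pi.sub_apply, Pi.single_eq_of_ne hj, zero_sub, nsmul_eq_mul]
        rcases eq_or_ne j i with rfl | h3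
        · rw [Pi.single_eq_same]
          have h4 : (0 : ℤ) ≤ k := Int.natCast_nonneg k
          linarith
        · rw [Pi.single_eq_of_ne h3, neg_zero, mul_zero]
      exact Int.toNat_of_nonpos h2
    rw [h1, pow_zero]
  · intro h1
    exact absurd (Finset.mem_univ _) h1

theorem mon_spec (hJ : J.Nonempty) {b : Fin n → ℤ} (hb : b ∈ OE n 0 J) :
    (mon I J b : LR I J) * lmo I J (-b) = lmo I J b := by
  have h := Cq_exists (I := I) hJ hb
  unfold mon
  rw [dif_pos h]
  exact h.choose_spec

theorem mon_unique (hJ : J.Nonempty) {b : Fin n → ℤ} (hb : b ∈ OE n 0 J) {z : chart I J}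
    (hz : (z : LR I J) * lmo I J (-b) = lmo I J b) : mon I J b = z := by
  apply Subtype.ext
  apply (lmo_isUnit (I := I) hb).mul_right_cancel
  rw [mon_spec hJ hb, hz]

theorem mon_zero (hJ : J.Nonempty) : mon I J 0 = 1 := by
  apply mon_unique hJ (zero_mem_OE J)
  rw [neg_zero, OneMemClass.coe_one, one_mul]

theorem mon_add (hJ : J.Nonempty) {b c : Fin n → ℤ} (hb : b ∈ OE n 0 J) (hc : c ∈ OE n 0 J) :
    mon I J (b + c) = mon I J b * mon I J c := by
  have hbc : b + c ∈ OE n 0 J := by
    have h1 := add_mem_OE hb hc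
    rwa [add_zero] at h1
  apply mon_unique hJ hbc
  apply ((lmo_isUnit (I := I) hb).mul (lmo_isUnit (I := I) hc)).mul_right_cancel
  rw [← Cq_add, ← mon_spec (I := I) hJ hb, ← mon_spec (I := I) hJ hc, Subalgebra.coe_mul]
  ring

theorem tr_mon {K : Finset (Fin n)} (h : J ⊆ K) (hJ : J.Nonempty) {b : Fin n → ℤ} (hb : b ∈ OE n 0 J) :
    tr I h (mon I J b) = mon I K b := by
  symm
  apply mon_unique (hJ.mono h) (OE_mono h hb)
  have hid : ∀ f ∈ I, MvPolynomial.map (RingHom.id A) f ∈ I := fun f hf => by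
    rwa [MvPolynomial.map_id]
  have h1 : (tr I h (mon I J b) : LR I K) = lmap (RingHom.id A) hid h (mon I J b : LR I J) := rfl
  have h2 : ∀ c : Fin n → ℤ, lmap (RingHom.id A) hid h (lmo I J c) = lmo I K c := by
    intro c
    unfold lmo
    rw [map_prod]
    exact Finset.prod_congr rfl fun l _ => by rw [map_pow, lmap_lx]
  rw [h1, ← h2, ← h2, ← map_mul, mon_spec hJ hb]

theorem mon_smul_ed {i : Fin n} (hi : i ∈ J) (k : ℕ) (l : Fin n) : mon I J (k • ed l i) = cq I J l hi ^ k := by
  apply mon_unique ⟨i, hi⟩ (smul_ed_mem k l hi)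
  rcases eq_or_ne l i with rfl | h
  · rw [ed_self, smul_zero, neg_zero, cq_self, one_pow, OneMemClass.coe_one, one_mul]
  · rw [Cq_ed_neg, Cq_lmo_ed k h, Cq_lmo_ed k h.symm, SubmonoidClass.coe_pow, ← mul_pow, cq_mul_lx]

theorem mon_span (hJ : J.Nonempty) (x : chart I J) : x ∈ Submodule.span A (mon I J '' OE n 0 J) := by
  induction x using chart_ind with
  | h1 a =>
    have h1 : algebraMap A (chart I J) a = a • mon I J 0 := by
      rw [mon_zero hJ, Algebra.algebraMap_eq_smul_one]
    rw [h1]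
    exact Submodule.smul_mem _ _ (Submodule.subset_span ⟨0, zero_mem_OE J, rfl⟩)
  | h2 l m hm =>
    have h1 : cq I J l hm = mon I J (1 • ed l m) := by
      rw [mon_smul_ed hm 1 l, pow_one]
    rw [h1]
    exact Submodule.subset_span ⟨_, smul_ed_mem 1 l hm, rfl⟩
  | h3 x y hx hy => exact Submodule.add_mem _ hx hy
  | h4 x y hx hy =>
    have h1 := Submodule.mul_mem_mul hx hy
    rw [Submodule.span_mul_span] at h1
    refine Submodule.span_mono ?_ h1
    rintro _ ⟨_, ⟨b, hb, rfl⟩, _, ⟨c, hc, rfl⟩, rfl⟩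
    have hbc : b + c ∈ OE n 0 J := by
      have h1 := add_mem_OE hb hc
      rwa [add_zero] at h1
    exact ⟨b + c, hbc, mon_add hJ hb hc⟩

end Mon

end MPadcGP
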