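import Pool.Agent.Lib.MP_adc574_ag_GP.Cx

/-!
# Multiplication by monomials on Laurent polynomials
-/

/-
JOB Cya: prove sh_zero, sh_add, sh_mem, exists_shV_mem. sh A b = Finsupp.lmapDomain A A (b + ·) (Finsupp.mapDomain). sh_zero: mapDomain_id
(zero_add). sh_add: mapDomain_comp (add_assoc). sh_mem: Oh_ind, sh_single, single_mem_Oh, add_mem_OE. exists_shV_mem: for one Laurent polynomial g in
Oh A n d (insert l J): by Oh_ind for the statement: exists k0, for all k ≥ k0, sh A (k • ed l i) g in Oh A n d J. (For a monomial a in OE n d (insert l J):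
k0 = (-(a l)).toNat; for k ≥ k0 the exponent k • ed l i + a has sum d (ed_sum), and at an m not in J: m ≠ i (i in J); if m = l (then l ≠ i) the value is
k + a l ≥ 0, if m ≠ l it is a m ≥ 0 as m is not in insert l J. If l in J nothing happens: insert l J = J.) Then take the sup of the k0 of the
r coordinates.
-/

set_option autoImplicit false

namespace MPadcGP

universe u v w

section Sh

variable {A : Type u} [CommRing A] {n : ℕ}

/-- Multiplication by the monomial `x^b`. -/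
noncomputable def sh (A : Type u) [CommRing A] {n : ℕ} (b : Fin n → ℤ) :
    ((Fin n → ℤ) →₀ A) →ₗ[A] ((Fin n → ℤ) →₀ A) := Finsupp.lmapDomain A A fun a => b + a

/-- Multiplication by the monomial `x^b` on `r`-tuples. -/
noncomputable def shV (A : Type u) [CommRing A] {n : ℕ} (r : ℕ) (b : Fin n → ℤ) :
    (Fin r → ((Fin n → ℤ) →₀ A)) →ₗ[A] (Fin r → ((Fin n → ℤ) →₀ A)) :=
  LinearMap.pi fun ν => sh A b ∘ₗ LinearMap.proj ν

/-- The `r`-tuples of elements of `Oh A n d J`. -/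
noncomputable def Oo (A : Type u) [CommRing A] (n r : ℕ) (d : ℤ) (J : Finset (Fin n)) :
    Submodule A (Fin r → ((Fin n → ℤ) →₀ A)) := Submodule.pi Set.univ fun _ => Oh A n d J

theorem sh_single (b a : Fin n → ℤ) (r : A) : sh A b (Finsupp.single a r) = Finsupp.single (b + a) r :=
  Finsupp.mapDomain_single

theorem shV_apply {r : ℕ} (b : Fin n → ℤ) (f : Fin r → ((Fin n → ℤ) →₀ A)) (ν : Fin r) :
    shV A r b f ν = sh A b (f ν) := rfl

theorem mem_Oo {r : ℕ} {d : ℤ} {J : Finset (Fin n)} {f : Fin r → ((Fin n → ℤ) →₀ A)} :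
    f ∈ Oo A n r d J ↔ ∀ ν, f ν ∈ Oh A n d J := by
  unfold Oo
  rw [Submodule.mem_pi]
  exact ⟨fun h ν => h ν (Set.mem_univ _), fun h ν _ => h ν⟩

/-- Induction on the elements of `Oh A n d J`. -/
theorem Oh_ind {d : ℤ} {J : Finset (Fin n)} {P : ((Fin n → ℤ) →₀ A) → Prop} (h0 : P 0)
    (h1 : ∀ a ∈ OE n d J, ∀ r : A, P (Finsupp.single a r)) (h2 : ∀ f g, P f → P g → P (f + g))
    {f : (Fin n → ℤ) →₀ A} (hf : f ∈ Oh A n d J) : P f := by
  classical
  unfold Oh at hf
  rw [Finsupp.mem_supported] at hf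
  rw [← Finsupp.sum_single f, Finsupp.sum]
  exact Finset.sum_induction _ P h2 h0 fun a ha => h1 a (hf ha) _

theorem single_mem_Oh {d : ℤ} {J : Finset (Fin n)} {a : Fin n → ℤ} (ha : a ∈ OE n d J) (r : A) :
    Finsupp.single a r ∈ Oh A n d J := Finsupp.single_mem_supported A r ha

theorem Oh_mono {d : ℤ} {J K : Finset (Fin n)} (h : J ⊆ K) : Oh A n d J ≤ Oh A n d K :=
  Finsupp.supported_mono fun _ ha => OE_mono h ha

theorem Oo_mono {r : ℕ} {d : ℤ} {J K : Finset (Fin n)} (h : J ⊆ K) : Oo A n r d J ≤ Oo A n r d K :=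
  fun _ hf => mem_Oo.2 fun ν => Oh_mono h (mem_Oo.1 hf ν)

theorem sh_zero (f : (Fin n → ℤ) →₀ A) : sh A 0 f = f := by
  have h : (fun a : Fin n → ℤ => 0 + a) = id := funext fun a => zero_add a
  have h1 : sh A 0 f = Finsupp.mapDomain (fun a : Fin n → ℤ => 0 + a) f := rfl
  rw [h1, h, Finsupp.mapDomain_id]

theorem sh_add (b c : Fin n → ℤ) (f : (Fin n → ℤ) →₀ A) : sh A (b + c) f = sh A b (sh A c f) := by
  have h : (fun a : Fin n → ℤ => b + c + a) = (fun a => b + a) ∘ (fun a => c + a) :=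
    funext fun a => add_assoc b c a
  have h1 : sh A (b + c) f = Finsupp.mapDomain (fun a : Fin n → ℤ => b + c + a) f := rfl
  rw [h1, h, Finsupp.mapDomain_comp]
  rfl

theorem sh_mem {d e : ℤ} {J : Finset (Fin n)} {b : Fin n → ℤ} (hb : b ∈ OE n e J) {f : (Fin n → ℤ) →₀ A}
    (hf : f ∈ Oh A n d J) : sh A b f ∈ Oh A n (e + d) J := by
  refine Oh_ind (P := fun f => sh A b f ∈ Oh A n (e + d) J) ?_ ?_ ?_ hf
  · show sh A b 0 ∈ Oh A n (e + d) J
    rw [map_zero]
    exact zero_mem _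
  · intro a ha r
    show sh A b (Finsupp.single a r) ∈ Oh A n (e + d) J
    rw [sh_single]
    exact single_mem_Oh (add_mem_OE hb ha) r
  · intro f g hf hg
    show sh A b (f + g) ∈ Oh A n (e + d) J
    rw [map_add]
    exact add_mem hf hg

theorem shV_mem {r : ℕ} {d : ℤ} {J : Finset (Fin n)} {b : Fin n → ℤ} (hb : b ∈ OE n 0 J)
    {f : Fin r → ((Fin n → ℤ) →₀ A)} (hf : f ∈ Oo A n r d J) : shV A r b f ∈ Oo A n r d J := by
  refine mem_Oo.2 fun ν => ?_
  have h := sh_mem hb (mem_Oo.1 hf ν)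
  rw [zero_add] at h
  exact h

private theorem Cya_exp {d : ℤ} {J : Finset (Fin n)} {i : Fin n} (hi : i ∈ J) (l : Fin n)
    {a : Fin n → ℤ} (ha : a ∈ OE n d (insert l J)) (k : ℕ) (hk : (-(a l)).toNat ≤ k) :
    k • ed l i + a ∈ OE n d J := by
  refine ⟨?_, fun m hm => ?_⟩
  · simp only [Pi.add_apply, Finset.sum_add_distrib, Pi.smul_apply, ← Finset.smul_sum, ed_sum,
      smul_zero, zero_add]
    exact ha.1
  · have hmi : m ≠ i := fun h => hm (h ▸ hi)
    rw [Pi.add_apply, Pi.smul_apply, nsmul_eq_mul]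
    by_cases hml : m = l
    · subst hml
      have hed : ed m i m = 1 := by
        unfold ed
        rw [Pi.sub_apply, Pi.single_eq_same, Pi.single_eq_of_ne hmi, sub_zero]
      rw [hed, mul_one]
      omega
    · have hed : ed l i m = 0 := by
        unfold ed
        rw [Pi.sub_apply, Pi.single_eq_of_ne hml, Pi.single_eq_of_ne hmi, sub_zero]
      rw [hed, mul_zero, zero_add]
      apply ha.2 m
      intro h
      rcases Finset.mem_insert.1 h with h | h
      · exact hml h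
      · exact hm h

private theorem Cya_exists {d : ℤ} {J : Finset (Fin n)} {i : Fin n} (hi : i ∈ J) (l : Fin n)
    {g : (Fin n → ℤ) →₀ A} (hg : g ∈ Oh A n d (insert l J)) :
    ∃ k0 : ℕ, ∀ k, k0 ≤ k → sh A (k • ed l i) g ∈ Oh A n d J := by
  refine Oh_ind (P := fun g => ∃ k0 : ℕ, ∀ k, k0 ≤ k → sh A (k • ed l i) g ∈ Oh A n d J)
    ?_ ?_ ?_ hg
  · refine ⟨0, fun k _ => ?_⟩
    rw [map_zero]
    exact zero_mem _
  · intro a ha r
    refine ⟨(-(a l)).toNat, fun k hk => ?_⟩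
    rw [sh_single]
    exact single_mem_Oh (Cya_exp hi l ha k hk) r
  · rintro f g ⟨k1, h1⟩ ⟨k2, h2⟩
    refine ⟨max k1 k2, fun k hk => ?_⟩
    rw [map_add]
    exact add_mem (h1 k ((le_max_left _ _).trans hk)) (h2 k ((le_max_right _ _).trans hk))

/-- A Laurent polynomial with denominators in `x_j`, `j ∈ insert l J`, times a power of `x_l / x_i` has denominators in
`x_j`, `j ∈ J`. -/
theorem exists_shV_mem {r : ℕ} {d : ℤ} {J : Finset (Fin n)} {i : Fin n} (hi : i ∈ J) (l : Fin n)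
    {f : Fin r → ((Fin n → ℤ) →₀ A)} (hf : f ∈ Oo A n r d (insert l J)) :
    ∃ k : ℕ, shV A r (k • ed l i) f ∈ Oo A n r d J := by
  classical
  have h1 : ∀ ν, ∃ k0 : ℕ, ∀ k, k0 ≤ k → sh A (k • ed l i) (f ν) ∈ Oh A n d J :=
    fun ν => Cya_exists hi l (mem_Oo.1 hf ν)
  choose k0 hk0 using h1
  refine ⟨Finset.univ.sup k0, mem_Oo.2 fun ν => ?_⟩
  rw [shV_apply]
  exact hk0 ν _ (Finset.le_sup (Finset.mem_univ ν))

end Sh

end MPadcGP
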