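import Pool.Agent.Lib.MP_adc574_ag_GP.Cov

/-!
# Čech systems: definitions (finiteness part)

`FGq Z B`: the module `(Z + B)/B` is generated by finitely many elements of `Z`.
`Cv N m`, `delv`: Čech cochains with values in submodules `N J` of one module.
`MSys`: modules `N J` on the intersections of the charts of `P^{n-1}` with restrictions and multiplication by the
monomials of degree 0. `IsCoh`: coherent systems.
-/

set_option autoImplicit false

namespace MPadcGP

universe u v w

section FG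

variable {A : Type u} [CommRing A] {T : Type v} [AddCommGroup T] [Module A T]

/-- The module `(Z + B)/B` is generated by finitely many elements of `Z`. -/
def FGq (Z B : Submodule A T) : Prop :=
  ∃ s : Set T, s.Finite ∧ s ⊆ (Z : Set T) ∧ Z ≤ Submodule.span A s ⊔ B

end FG

section Cv

variable {A : Type u} [CommRing A] {n : ℕ} {V : Type v} [AddCommGroup V] [Module A V]

/-- The Čech cochains `c` with `c J ∈ N J`, zero on the sets which do not have `m` elements and on `∅`. -/
def Cv (N : Finset (Fin n) → Submodule A V) (m : ℕ) : Submodule A (Finset (Fin n) → V) where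
  carrier := {c | c ∅ = 0 ∧ ∀ J : Finset (Fin n), (J.card = m → c J ∈ N J) ∧ (J.card ≠ m → c J = 0)}
  zero_mem' := ⟨rfl, fun J => ⟨fun _ => (N J).zero_mem, fun _ => rfl⟩⟩
  add_mem' := by
    rintro b c ⟨hb0, hb⟩ ⟨hc0, hc⟩
    refine ⟨by rw [Pi.add_apply, hb0, hc0, add_zero], fun J => ⟨fun hJ => ?_, fun hJ => ?_⟩⟩
    · exact (N J).add_mem ((hb J).1 hJ) ((hc J).1 hJ)
    · rw [Pi.add_apply, (hb J).2 hJ, (hc J).2 hJ, add_zero]
  smul_mem' := by
    rintro a c ⟨hc0, hc⟩
    refine ⟨by rw [Pi.smul_apply, hc0, smul_zero], fun J => ⟨fun hJ => ?_, fun hJ => ?_⟩⟩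
    · exact (N J).smul_mem a ((hc J).1 hJ)
    · rw [Pi.smul_apply, (hc J).2 hJ, smul_zero]

/-- The Čech differential. -/
def delv : (Finset (Fin n) → V) →ₗ[A] (Finset (Fin n) → V) where
  toFun c J := ∑ j ∈ J, sg j J • c (J.erase j)
  map_add' c c' := by
    funext J
    simp only [Pi.add_apply, smul_add, Finset.sum_add_distrib]
  map_smul' b c := by
    funext J
    simp only [Pi.smul_apply, RingHom.id_apply, Finset.smul_sum]
    exact Finset.sum_congr rfl fun i _ => smul_comm _ _ _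

theorem mem_Cv {N : Finset (Fin n) → Submodule A V} {m : ℕ} {c : Finset (Fin n) → V} :
    c ∈ Cv N m ↔ c ∅ = 0 ∧ ∀ J : Finset (Fin n), (J.card = m → c J ∈ N J) ∧ (J.card ≠ m → c J = 0) := Iff.rfl

theorem delv_apply (c : Finset (Fin n) → V) (J : Finset (Fin n)) :
    delv (A := A) c J = ∑ j ∈ J, sg j J • c (J.erase j) := rfl

end Cv

/-- The exponents of the Laurent monomials of degree `d` whose denominator is a monomial in the `x_j`, `j ∈ J`. -/
def OE (n : ℕ) (d : ℤ) (J : Finset (Fin n)) : Set (Fin n → ℤ) := {a | ∑ l, a l = d ∧ ∀ l, l ∉ J → 0 ≤ a l}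

/-- The Laurent polynomials of degree `d` whose denominator is a monomial in the `x_j`, `j ∈ J`. -/
noncomputable def Oh (A : Type u) [CommRing A] (n : ℕ) (d : ℤ) (J : Finset (Fin n)) :
    Submodule A ((Fin n → ℤ) →₀ A) := Finsupp.supported A A (OE n d J)

/-- The exponent of `x_l / x_i`. -/
def ed {n : ℕ} (l i : Fin n) : Fin n → ℤ := Pi.single l 1 - Pi.single i 1

/-- A system of modules on the intersections of the standard charts of `P^{n-1}`: restriction maps `ρ` and
multiplication `m J b` by the monomial `x^b` of degree 0 with `b l ≥ 0` for `l ∉ J`. -/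
structure MSys (A : Type u) [CommRing A] (n : ℕ) where
  /-- the module on the intersection of the charts `j ∈ J` -/
  N : Finset (Fin n) → Type v
  [ag : ∀ J, AddCommGroup (N J)]
  [md : ∀ J, Module A (N J)]
  /-- the restriction -/
  ρ : ∀ {J K : Finset (Fin n)}, J ⊆ K → (N J →ₗ[A] N K)
  ρ_id : ∀ (J : Finset (Fin n)) (x : N J), ρ (Finset.Subset.refl J) x = x
  ρ_comp : ∀ {J K L : Finset (Fin n)} (h : J ⊆ K) (h' : K ⊆ L) (x : N J), ρ h' (ρ h x) = ρ (h.trans h') x
  /-- multiplication by the monomial `x^b` -/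
  m : ∀ J : Finset (Fin n), (Fin n → ℤ) → (N J →ₗ[A] N J)
  m_zero : ∀ J : Finset (Fin n), J.Nonempty → ∀ x : N J, m J 0 x = x
  m_add : ∀ J : Finset (Fin n), J.Nonempty → ∀ b ∈ OE n 0 J, ∀ c ∈ OE n 0 J, ∀ x : N J,
    m J (b + c) x = m J b (m J c x)
  ρ_m : ∀ {J K : Finset (Fin n)} (h : J ⊆ K), J.Nonempty → ∀ b ∈ OE n 0 J, ∀ x : N J,
    ρ h (m J b x) = m K b (ρ h x)

attribute [instance] MSys.ag MSys.md

namespace MSys

variable {A : Type u} [CommRing A] {n : ℕ} (M : MSys.{u, v} A n)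

/-- A coherent system: `N (insert l J)` is the localization of `N J` at `x_l / x_i` for `i ∈ J`, `N {i}` is finitely
generated. -/
structure IsCoh : Prop where
  ker : ∀ (J : Finset (Fin n)), ∀ i ∈ J, ∀ (l : Fin n) (x : M.N J),
    M.ρ (Finset.subset_insert l J) x = 0 → ∃ k : ℕ, M.m J (k • ed l i) x = 0
  surj : ∀ (J : Finset (Fin n)), ∀ i ∈ J, ∀ (l : Fin n) (y : M.N (insert l J)),
    ∃ (k : ℕ) (x : M.N J), M.ρ (Finset.subset_insert l J) x = M.m (insert l J) (k • ed l i) y
  fg : ∀ i : Fin n, ∃ S : Set (M.N {i}), S.Finite ∧ ∀ P : Submodule A (M.N {i}), S ⊆ (P : Set (M.N {i})) →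
    (∀ b ∈ OE n 0 {i}, ∀ x ∈ P, M.m {i} b x ∈ P) → P = ⊤

/-- Cochains. -/
abbrev Ch := ∀ J : Finset (Fin n), M.N J

/-- The restriction of the component `c K` to `J`. -/
noncomputable def ev (c : M.Ch) (K J : Finset (Fin n)) : M.N J := if h : K ⊆ J then M.ρ h (c K) else 0

variable {M}

theorem ev_of {c : M.Ch} {K J : Finset (Fin n)} (h : K ⊆ J) : M.ev c K J = M.ρ h (c K) := dif_pos h

theorem ev_add (b c : M.Ch) (K J : Finset (Fin n)) : M.ev (b + c) K J = M.ev b K J + M.ev c K J := by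
  unfold ev
  split_ifs with h
  · rw [Pi.add_apply, map_add]
  · rw [add_zero]

theorem ev_smul (a : A) (c : M.Ch) (K J : Finset (Fin n)) : M.ev (a • c) K J = a • M.ev c K J := by
  unfold ev
  split_ifs with h
  · rw [Pi.smul_apply, map_smul]
  · rw [smul_zero]

theorem ev_eq_zero {c : M.Ch} {K : Finset (Fin n)} (h : c K = 0) (J : Finset (Fin n)) : M.ev c K J = 0 := by
  unfold ev
  split_ifs with h1
  · rw [h, map_zero]
  · rfl

theorem ρ_ev {c : M.Ch} {K J L : Finset (Fin n)} (h : K ⊆ J) (h' : J ⊆ L) :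
    M.ρ h' (M.ev c K J) = M.ev c K L := by
  rw [ev_of h, M.ρ_comp, ev_of]

variable (M)

/-- The Čech differential. -/
noncomputable def del : M.Ch →ₗ[A] M.Ch where
  toFun c J := ∑ j ∈ J, sg j J • M.ev c (J.erase j) J
  map_add' b c := by
    funext J
    rw [Pi.add_apply, ← Finset.sum_add_distrib]
    refine Finset.sum_congr rfl fun j _ => ?_
    rw [ev_add, smul_add]
  map_smul' a c := by
    funext J
    rw [RingHom.id_apply, Pi.smul_apply, Finset.smul_sum]
    refine Finset.sum_congr rfl fun j _ => ?_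
    rw [ev_smul, smul_comm]

/-- The cochains which are zero on the sets which do not have `m` elements and on `∅`. -/
def Cc (m : ℕ) : Submodule A M.Ch where
  carrier := {c | c ∅ = 0 ∧ ∀ J : Finset (Fin n), J.card ≠ m → c J = 0}
  zero_mem' := ⟨rfl, fun _ _ => rfl⟩
  add_mem' := by
    rintro b c ⟨hb0, hb⟩ ⟨hc0, hc⟩
    exact ⟨by rw [Pi.add_apply, hb0, hc0, add_zero], fun J hJ => by
      rw [Pi.add_apply, hb J hJ, hc J hJ, add_zero]⟩
  smul_mem' := by
    rintro a c ⟨hc0, hc⟩
    exact ⟨by rw [Pi.smul_apply, hc0, smul_zero], fun J hJ => by rw [Pi.smul_apply, hc J hJ, smul_zero]⟩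

/-- The Čech cohomology in degree `j` is a finitely generated `A`-module. -/
def FG (j : ℕ) : Prop := FGq (M.Cc (j + 1) ⊓ LinearMap.ker M.del) ((M.Cc j).map M.del)

/-- `y` is a section of the twist `M(d)`: `y j` is the section divided by `x_j^d`. -/
def IsSec (d : ℕ) (y : ∀ j : Fin n, M.N {j}) : Prop :=
  ∀ (J : Finset (Fin n)) (j : Fin n) (hj : j ∈ J) (l : Fin n) (hl : l ∈ J),
    M.ρ (Finset.singleton_subset_iff.2 hj) (y j) =
      M.m J (d • ed l j) (M.ρ (Finset.singleton_subset_iff.2 hl) (y l))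

variable {M}

theorem del_apply (c : M.Ch) (J : Finset (Fin n)) :
    M.del c J = ∑ j ∈ J, sg j J • M.ev c (J.erase j) J := rfl

theorem mem_Cc {m : ℕ} {c : M.Ch} : c ∈ M.Cc m ↔ c ∅ = 0 ∧ ∀ J : Finset (Fin n), J.card ≠ m → c J = 0 := Iff.rfl

end MSys

end MPadcGP
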