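import Pool.Agent.Lib.MP_adc574_ag_GP.Cov
import Pool.Agent.Lib.MP_adc574_ag_GP.DIa

/-!
# Deligne-Illusie (helper59): the lifting data of a cover
-/

set_option autoImplicit false

namespace MPadcGP

universe u v w

/-- The cover `X` over `ℤ/p` with a flat lift `S J` modulo `p²` of every chart, and for every `i ∈ J` a lift `φ i J` of the
Frobenius to `S J`, compatible with the restrictions. -/
structure LiftD (p : ℕ) {n : ℕ} (X : CovD.{0, v} (ZMod p) n) where
  /-- The lift of the chart. -/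
  S : Finset (Fin n) → Type w
  [cr : ∀ J, CommRing (S J)]
  /-- The restriction. -/
  τ : ∀ {J K : Finset (Fin n)}, J ⊆ K → (S J →+* S K)
  /-- The reduction. -/
  π : ∀ J, S J →+* X.R J
  /-- The lift of the Frobenius. -/
  φ : Fin n → ∀ J, S J →+* S J
  flat : ∀ J, J.Nonempty → FlatLift p (π J)
  π_τ : ∀ {J K : Finset (Fin n)} (h : J ⊆ K) (x : S J), π K (τ h x) = X.ρ h (π J x)
  fr : ∀ i J, i ∈ J → IsFr p (π J) (φ i J)
  φ_τ : ∀ i {J K : Finset (Fin n)} (h : J ⊆ K), i ∈ J → ∀ x, φ i K (τ h x) = τ h (φ i J x)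

attribute [instance] LiftD.cr

end MPadcGP
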