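import Pool.Agent.Lib.MP_adc574_ag_GP.Cov
import Pool.Agent.Lib.MP_adc574_ag_GP.DIa

/-!
# Deligne-Illusie II (helper59): the operators `Th a K` in one ring

`f i`, `h i j` are semilinear maps from the differentials to the forms of degree `1`, `0` with `d (h i j) = f j - f i`.
`Th a K (w_1, …, w_a)` is the component at `K` of the cup product of the cochains `(f i (w_l), h i j (w_l))`.
`cocycle`: `d (Th a K) + ∑ i ∈ K, sg i K inv (Th a (K \ i)) = 0`.
-/

set_option autoImplicit false

namespace MPadcGP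

universe u v

section twm

/-- The forms with the action of `R` through `χ`. -/
def TwM (A : Type u) {R : Type v} [CommRing A] [CommRing R] [Algebra A R] (_ : R →+* R) : Type v :=
  Fm A R

variable {A : Type u} {R : Type v} [CommRing A] [CommRing R] [Algebra A R] {χ : R →+* R}

noncomputable instance : AddCommGroup (TwM A χ) := inferInstanceAs (AddCommGroup (Fm A R))

noncomputable instance : Module R (TwM A χ) := Module.compHom (Fm A R) χ

/-- The identity -/
def toTw (χ : R →+* R) (e : Fm A R) : TwM A χ := e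

/-- The identity -/
def ofTw (e : TwM A χ) : Fm A R := e

theorem ofTw_smul (r : R) (e : TwM A χ) : ofTw (r • e) = fz A (χ r) * ofTw e :=
  fz_smul (χ r) (ofTw e)

theorem ofTw_add (e f : TwM A χ) : ofTw (e + f) = ofTw e + ofTw f := rfl

theorem ofTw_zero : ofTw (0 : TwM A χ) = 0 := rfl

theorem ofTw_toTw (e : Fm A R) : ofTw (toTw χ e) = e := rfl

theorem ofTw_zsmul (m : ℤ) (e : TwM A χ) : ofTw (m • e) = m • ofTw e := rfl

theorem ofTw_nsmul (m : ℕ) (e : TwM A χ) : ofTw (m • e) = m • ofTw e := rfl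

theorem tw_ext' {e f : TwM A χ} (h : ofTw e = ofTw f) : e = f := h

/-- Right multiplication with the values of `g`. -/
noncomputable def mulR (g : Ω[R⁄A] →ₗ[R] TwM A χ) : TwM A χ →ₗ[R] (Ω[R⁄A] →ₗ[R] TwM A χ) :=
  LinearMap.mk₂ R (fun e w => toTw χ (ofTw e * ofTw (g w)))
    (fun e e' w => tw_ext' (by rw [ofTw_toTw, ofTw_add, ofTw_add, add_mul]; rfl))
    (fun r e w => tw_ext' (by
      rw [ofTw_toTw, ofTw_smul, ofTw_smul, ofTw_toTw, mul_assoc]))
    (fun e w w' => tw_ext' (by rw [map_add, ofTw_toTw, ofTw_add, ofTw_add, mul_add]; rfl))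
    (fun r e w => tw_ext' (by
      rw [map_smul, ofTw_toTw, ofTw_smul, ofTw_smul, ofTw_toTw, ← mul_assoc, ← mul_assoc, fz_comm]))

theorem ofTw_mulR (g : Ω[R⁄A] →ₗ[R] TwM A χ) (e : TwM A χ) (w : Ω[R⁄A]) :
    ofTw (mulR g e w) = ofTw e * ofTw (g w) := rfl

end twm

section top

variable {n : ℕ}

/-- The largest element of `K`, with the default value `m`. -/
def tp (K : Finset (Fin n)) (m : Fin n) : Fin n := if h : K.Nonempty then K.max' h else m

theorem tp_empty (m : Fin n) : tp ∅ m = m := rfl

theorem max'_insert' {K : Finset (Fin n)} {m : Fin n} (hm : ∀ x ∈ K, x < m)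
    (h : (insert m K).Nonempty) : (insert m K).max' h = m := by
  refine le_antisymm (Finset.max'_le _ _ _ fun y hy => ?_) (Finset.le_max' _ _ (Finset.mem_insert_self _ _))
  rcases Finset.mem_insert.1 hy with rfl | hy
  · exact le_rfl
  · exact (hm y hy).le

theorem tp_insert {K : Finset (Fin n)} {m m' : Fin n} (hm : ∀ x ∈ K, x < m) :
    tp (insert m K) m' = m := by
  unfold tp
  rw [dif_pos (Finset.insert_nonempty _ _), max'_insert' hm]

theorem notMem_of_lt {K : Finset (Fin n)} {m : Fin n} (hm : ∀ x ∈ K, x < m) : m ∉ K :=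
  fun h => lt_irrefl _ (hm m h)

theorem exists_insert {K : Finset (Fin n)} (h : K.Nonempty) :
    ∃ (m : Fin n) (K' : Finset (Fin n)), (∀ x ∈ K', x < m) ∧ K = insert m K' := by
  refine ⟨K.max' h, K.erase (K.max' h), fun x hx => ?_, (Finset.insert_erase (K.max'_mem h)).symm⟩
  exact Finset.lt_max'_of_mem_erase_max' K h hx

theorem sg_insert_self {K : Finset (Fin n)} {m : Fin n} (hm : ∀ x ∈ K, x < m) :
    sg m (insert m K) = (-1) ^ K.card := by
  unfold sg
  congr 2
  ext x
  rw [Finset.mem_filter, Finset.mem_insert]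
  constructor
  · rintro ⟨rfl | h, h'⟩
    · exact absurd h' (lt_irrefl _)
    · exact h
  · intro h
    exact ⟨Or.inr h, hm x h⟩

theorem sg_insert_of_lt {K : Finset (Fin n)} {m i : Fin n} (h : i < m) :
    sg i (insert m K) = sg i K := by
  unfold sg
  congr 2
  ext x
  rw [Finset.mem_filter, Finset.mem_filter, Finset.mem_insert]
  constructor
  · rintro ⟨rfl | h1, h'⟩
    · exact absurd (h'.trans h) (lt_irrefl _)
    · exact ⟨h1, h'⟩
  · rintro ⟨h1, h2⟩
    exact ⟨Or.inr h1, h2⟩

theorem erase_insert_self {K : Finset (Fin n)} {m : Fin n} (hm : ∀ x ∈ K, x < m) :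
    (insert m K).erase m = K := Finset.erase_insert (notMem_of_lt hm)

theorem erase_insert_of_mem {K : Finset (Fin n)} {m i : Fin n} (hm : ∀ x ∈ K, x < m) (hi : i ∈ K) :
    (insert m K).erase i = insert m (K.erase i) :=
  Finset.erase_insert_of_ne (fun h => lt_irrefl _ (h ▸ hm i hi))

/-- The alternating sum over the faces. -/
def bd {V : Type*} [AddCommGroup V] (g : Finset (Fin n) → V) (K : Finset (Fin n)) : V :=
  ∑ i ∈ K, sg i K • g (K.erase i)

theorem bd_insert {V : Type*} [AddCommGroup V] (g : Finset (Fin n) → V) {K : Finset (Fin n)}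
    {m : Fin n} (hm : ∀ x ∈ K, x < m) :
    bd g (insert m K) = (-1 : ℤ) ^ K.card • g K + bd (fun L => g (insert m L)) K := by
  unfold bd
  rw [Finset.sum_insert (notMem_of_lt hm), sg_insert_self hm, erase_insert_self hm]
  congr 1
  refine Finset.sum_congr rfl fun i hi => ?_
  rw [sg_insert_of_lt (hm i hi), erase_insert_of_mem hm hi]

theorem bd_empty {V : Type*} [AddCommGroup V] (g : Finset (Fin n) → V) : bd g ∅ = 0 := rfl

theorem bd_congr {V : Type*} [AddCommGroup V] {g g' : Finset (Fin n) → V} {K : Finset (Fin n)}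
    (h : ∀ i ∈ K, g (K.erase i) = g' (K.erase i)) : bd g K = bd g' K := by
  unfold bd
  exact Finset.sum_congr rfl fun i hi => by rw [h i hi]

theorem bd_add {V : Type*} [AddCommGroup V] (g g' : Finset (Fin n) → V) (K : Finset (Fin n)) :
    bd (fun L => g L + g' L) K = bd g K + bd g' K := by
  unfold bd
  rw [← Finset.sum_add_distrib]
  exact Finset.sum_congr rfl fun i _ => smul_add _ _ _

theorem bd_map {V W : Type*} [AddCommGroup V] [AddCommGroup W] (F : V →+ W)
    (g : Finset (Fin n) → V) (K : Finset (Fin n)) : bd (fun L => F (g L)) K = F (bd g K) := by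
  unfold bd
  rw [map_sum]
  exact Finset.sum_congr rfl fun i _ => (map_zsmul _ _ _).symm

end top

section Th

variable {A : Type u} {R : Type v} [CommRing A] [CommRing R] [Algebra A R] (χ : R →+* R) {n : ℕ}
  (f : Fin n → (Ω[R⁄A] →ₗ[R] TwM A χ)) (h : Fin n → Fin n → (Ω[R⁄A] →ₗ[R] TwM A χ))

/-- The component at `K` of the cup product of the cochains `(f i (w_l), h i j (w_l))`. -/
noncomputable def Th : ∀ (a : ℕ) (_ : Finset (Fin n)),
    MultilinearMap R (fun _ : Fin a => Ω[R⁄A]) (TwM A χ)
  | 0, K => MultilinearMap.constOfIsEmpty R _ (if K.card = 1 then toTw χ 1 else 0)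
  | a + 1, K =>
    if hK : K.Nonempty then
      MultilinearMap.uncurryRight
        ((-1 : ℤ) ^ (K.erase (K.max' hK)).card • (mulR (f (K.max' hK))).compMultilinearMap (Th a K) +
          (mulR (h (tp (K.erase (K.max' hK)) (K.max' hK)) (K.max' hK))).compMultilinearMap
            (Th a (K.erase (K.max' hK))))
    else 0

theorem Th_zero_apply (K : Finset (Fin n)) (w : Fin 0 → Ω[R⁄A]) :
    ofTw (Th χ f h 0 K w) = if K.card = 1 then 1 else 0 := by
  change ofTw (if K.card = 1 then toTw χ 1 else 0) = _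
  split_ifs <;> rfl

theorem Th_empty (a : ℕ) (w : Fin a → Ω[R⁄A]) : ofTw (Th χ f h a ∅ w) = 0 := by
  cases a with
  | zero =>
    rw [Th_zero_apply, Finset.card_empty, if_neg (by norm_num)]
  | succ a =>
    unfold Th
    rw [dif_neg (by simp)]
    rfl

theorem Th_insert (a : ℕ) {K : Finset (Fin n)} {m : Fin n} (hm : ∀ x ∈ K, x < m)
    (w : Fin (a + 1) → Ω[R⁄A]) :
    ofTw (Th χ f h (a + 1) (insert m K) w) =
      (-1 : ℤ) ^ K.card • (ofTw (Th χ f h a (insert m K) (Fin.init w)) * ofTw (f m (w (Fin.last a)))) +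
        ofTw (Th χ f h a K (Fin.init w)) * ofTw (h (tp K m) m (w (Fin.last a))) := by
  have hK : (insert m K).Nonempty := Finset.insert_nonempty _ _
  rw [Th, dif_pos hK]
  rw [max'_insert' hm, erase_insert_self hm]
  rfl

/-- The hypotheses on the maps `f i`, `h i j` for `i, j ∈ J`. -/
structure DIr (J : Finset (Fin n)) : Prop where
  f_mem : ∀ i ∈ J, ∀ w, ofTw (f i w) ∈ Fd A R 1
  h_mem : ∀ i ∈ J, ∀ j ∈ J, ∀ w, ofTw (h i j w) ∈ Fd A R 0
  f_dd : ∀ i ∈ J, ∀ w, dd A (ofTw (f i w)) = 0
  h_dd : ∀ i ∈ J, ∀ j ∈ J, ∀ w, dd A (ofTw (h i j w)) = ofTw (f j w) - ofTw (f i w)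
  h_add : ∀ i ∈ J, ∀ j ∈ J, ∀ l ∈ J, ∀ w, ofTw (h i j w) + ofTw (h j l w) = ofTw (h i l w)

variable {χ f h} {J : Finset (Fin n)}

theorem tp_mem {K : Finset (Fin n)} {m : Fin n} (hm : m ∈ J) (hK : K ⊆ J) : tp K m ∈ J := by
  unfold tp
  split_ifs with h1
  · exact hK (K.max'_mem h1)
  · exact hm

theorem Th_big (a : ℕ) : ∀ (K : Finset (Fin n)) (w : Fin a → Ω[R⁄A]),
    a + 1 < K.card → ofTw (Th χ f h a K w) = 0 := by
  induction a with
  | zero =>
    intro K w hK
    rw [Th_zero_apply, if_neg (by omega)]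
  | succ a ih =>
    intro K w hK
    obtain ⟨m, K', hm, rfl⟩ := exists_insert (Finset.card_pos.1 (by omega : 0 < K.card))
    rw [Finset.card_insert_of_notMem (notMem_of_lt hm)] at hK
    rw [Th_insert χ f h a hm, ih (insert m K') _ (by
      rw [Finset.card_insert_of_notMem (notMem_of_lt hm)]; omega), ih K' _ (by omega)]
    rw [zero_mul, zero_mul, smul_zero, add_zero]

theorem Th_mem (H : DIr χ f h J) (a : ℕ) : ∀ (q : ℕ) (K : Finset (Fin n)) (w : Fin a → Ω[R⁄A]),
    K ⊆ J → K.Nonempty → q + K.card = a + 1 → ofTw (Th χ f h a K w) ∈ Fd A R q := by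
  induction a with
  | zero =>
    intro q K w _ hK hq
    have h1 := Finset.card_pos.2 hK
    have h2 : q = 0 := by omega
    have h3 : K.card = 1 := by omega
    subst h2
    rw [Th_zero_apply, if_pos h3, ← map_one (fz A)]
    exact fz_mem _
  | succ a ih =>
    intro q K w hKJ hK hq
    obtain ⟨m, K', hm, rfl⟩ := exists_insert hK
    have hmJ : m ∈ J := hKJ (Finset.mem_insert_self _ _)
    have hKJ' : K' ⊆ J := fun x hx => hKJ (Finset.mem_insert_of_mem hx)
    have hc := Finset.card_insert_of_notMem (notMem_of_lt hm)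
    rw [Th_insert χ f h a hm]
    refine Submodule.add_mem _ (zsmul_mem ?_ _) ?_
    · cases q with
      | zero =>
        rw [Th_big a (insert m K') _ (by omega), zero_mul]
        exact Submodule.zero_mem _
      | succ q =>
        exact fd_mul (ih q _ _ hKJ hK (by omega)) (H.f_mem m hmJ _)
    · rcases K'.eq_empty_or_nonempty with rfl | hK'
      · rw [Th_empty, zero_mul]
        exact Submodule.zero_mem _
      · exact fd_mul (ih q _ _ hKJ' hK' (by omega)) (H.h_mem _ (tp_mem hmJ hKJ') m hmJ _)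

theorem inv_one_mem {e : Fm A R} (he : e ∈ Fd A R 1) : inv A e = -e := by
  rw [inv_mem he, pow_one, neg_one_mul]

theorem inv_zero_mem {e : Fm A R} (he : e ∈ Fd A R 0) : inv A e = e := by
  rw [inv_mem he, pow_zero, one_mul]

private theorem cocycle_zero (K : Finset (Fin n)) (w : Fin 0 → Ω[R⁄A]) :
    dd A (ofTw (Th χ f h 0 K w)) + bd (fun L => inv A (ofTw (Th χ f h 0 L w))) K = 0 := by
  have h0 : dd A (ofTw (Th χ f h 0 K w)) = 0 := by
    rw [Th_zero_apply]
    split_ifs
    · exact dd_one A
    · exact map_zero _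
  have h1 : ∀ L : Finset (Fin n), inv A (ofTw (Th χ f h 0 L w)) = if L.card = 1 then 1 else 0 := by
    intro L
    rw [Th_zero_apply]
    split_ifs
    · exact map_one _
    · exact map_zero _
  rw [h0, zero_add]
  rcases K.eq_empty_or_nonempty with rfl | hK
  · exact bd_empty _
  obtain ⟨m, K', hm, rfl⟩ := exists_insert hK
  rw [bd_insert _ hm]
  rcases K'.eq_empty_or_nonempty with rfl | hK'
  · rw [bd_empty, add_zero, h1, Finset.card_empty, if_neg (by norm_num), smul_zero]
  obtain ⟨m', K'', hm', rfl⟩ := exists_insert hK'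
  have hm'' : ∀ x ∈ K'', x < m := fun x hx => hm x (Finset.mem_insert_of_mem hx)
  have hc := Finset.card_insert_of_notMem (notMem_of_lt hm')
  have h2 : bd (fun L => inv A (ofTw (Th χ f h 0 (insert m (insert m' L)) w))) K'' = 0 := by
    unfold bd
    refine Finset.sum_eq_zero fun i hi => ?_
    have h3 : ∀ x ∈ K''.erase i, x < m' := fun x hx => hm' x (Finset.mem_of_mem_erase hx)
    have h4 : ∀ x ∈ insert m' (K''.erase i), x < m := by
      intro x hx
      rcases Finset.mem_insert.1 hx with rfl | hx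
      · exact hm _ (Finset.mem_insert_self _ _)
      · exact hm'' x (Finset.mem_of_mem_erase hx)
    beta_reduce
    rw [h1, Finset.card_insert_of_notMem (notMem_of_lt h4),
      Finset.card_insert_of_notMem (notMem_of_lt h3), if_neg (by omega), smul_zero]
  rw [bd_insert _ hm', h2, add_zero, h1, h1, hc, Finset.card_insert_of_notMem (notMem_of_lt hm''),
    pow_succ, mul_neg_one, neg_smul, neg_add_cancel]

/-- The cup product is a cocycle. -/
theorem cocycle (H : DIr χ f h J) (a : ℕ) : ∀ (K : Finset (Fin n)) (w : Fin a → Ω[R⁄A]), K ⊆ J →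
    dd A (ofTw (Th χ f h a K w)) + bd (fun L => inv A (ofTw (Th χ f h a L w))) K = 0 := by
  induction a with
  | zero => exact fun K w _ => cocycle_zero K w
  | succ a ih =>
    intro K w hKJ
    rcases K.eq_empty_or_nonempty with rfl | hK
    · rw [Th_empty, map_zero, bd_empty, add_zero]
    obtain ⟨m, K', hm, rfl⟩ := exists_insert hK
    have hmJ : m ∈ J := hKJ (Finset.mem_insert_self _ _)
    have hKJ' : K' ⊆ J := fun x hx => hKJ (Finset.mem_insert_of_mem hx)
    rcases K'.eq_empty_or_nonempty with rfl | hK'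
    · have h1 := ih (insert m ∅) (Fin.init w) hKJ
      rw [bd_insert _ hm, bd_empty, add_zero, Th_empty, map_zero, smul_zero, add_zero] at h1
      rw [bd_insert _ hm, bd_empty, add_zero, Th_empty, map_zero, smul_zero, add_zero,
        Th_insert χ f h a hm, Th_empty, zero_mul, add_zero, map_zsmul, dd_mul, h1, zero_mul,
        H.f_dd m hmJ, mul_zero, add_zero, smul_zero]
    obtain ⟨m', K'', hm', rfl⟩ := exists_insert hK'
    have hm'J : m' ∈ J := hKJ' (Finset.mem_insert_self _ _)
    have hKJ'' : K'' ⊆ J := fun x hx => hKJ' (Finset.mem_insert_of_mem hx)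
    have hm'' : ∀ x ∈ K'', x < m := fun x hx => hm x (Finset.mem_insert_of_mem hx)
    have hc := Finset.card_insert_of_notMem (notMem_of_lt hm')
    have ih1 := ih (insert m (insert m' K'')) (Fin.init w) hKJ
    have ih2 := ih (insert m' K'') (Fin.init w) hKJ'
    rw [bd_insert _ hm, bd_insert _ hm', hc] at ih1
    rw [bd_insert _ hm'] at ih2
    have e3 : bd (fun L => inv A (ofTw (Th χ f h (a + 1) (insert m (insert m' L)) w))) K'' =
        -((-1 : ℤ) ^ K''.card • (bd (fun L => inv A (ofTw (Th χ f h a (insert m (insert m' L))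
          (Fin.init w)))) K'' * ofTw (f m (w (Fin.last a))))) +
        bd (fun L => inv A (ofTw (Th χ f h a (insert m' L) (Fin.init w)))) K'' *
          ofTw (h m' m (w (Fin.last a))) := by
      unfold bd
      rw [Finset.sum_mul, Finset.sum_mul, Finset.smul_sum, ← Finset.sum_neg_distrib,
        ← Finset.sum_add_distrib]
      refine Finset.sum_congr rfl fun i hi => ?_
      have h3 : ∀ x ∈ K''.erase i, x < m' := fun x hx => hm' x (Finset.mem_of_mem_erase hx)
      have h4 : ∀ x ∈ insert m' (K''.erase i), x < m := by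
        intro x hx
        rcases Finset.mem_insert.1 hx with rfl | hx
        · exact hm _ (Finset.mem_insert_self _ _)
        · exact hm'' x (Finset.mem_of_mem_erase hx)
      have h5 := Finset.card_erase_add_one hi
      beta_reduce
      rw [Th_insert χ f h a h4, tp_insert h3, Finset.card_insert_of_notMem (notMem_of_lt h3), h5,
        map_add, map_zsmul, map_mul, map_mul, inv_one_mem (H.f_mem m hmJ _),
        inv_zero_mem (H.h_mem m' hm'J m hmJ _), smul_add, mul_neg, smul_neg, smul_neg,
        smul_mul_assoc, smul_mul_assoc, smul_comm]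
    have key : ofTw (Th χ f h a K'' (Fin.init w)) * (ofTw (h (tp K'' m) m (w (Fin.last a))) -
        ofTw (h (tp K'' m') m' (w (Fin.last a))) - ofTw (h m' m (w (Fin.last a)))) = 0 := by
      rcases K''.eq_empty_or_nonempty with rfl | hK''
      · rw [Th_empty, zero_mul]
      · obtain ⟨m2, K3, hm2, rfl⟩ := exists_insert hK''
        rw [tp_insert hm2, tp_insert hm2,
          ← H.h_add m2 (hKJ'' (Finset.mem_insert_self _ _)) m' hm'J m hmJ, add_sub_cancel_left,
          sub_self, mul_zero]
    have key' := congrArg (inv A) key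
    rw [map_mul, map_zero, map_sub, map_sub,
      inv_zero_mem (H.h_mem _ (tp_mem hmJ hKJ'') m hmJ _),
      inv_zero_mem (H.h_mem _ (tp_mem hm'J hKJ'') m' hm'J _),
      inv_zero_mem (H.h_mem m' hm'J m hmJ _)] at key'
    rw [bd_insert _ hm, bd_insert _ hm', e3, hc, Th_insert χ f h a hm, Th_insert χ f h a hm',
      Th_insert χ f h a hm'', tp_insert hm', hc, map_add, map_zsmul, dd_mul, dd_mul,
      H.f_dd m hmJ, H.h_dd m' hm'J m hmJ, map_add, map_add, map_zsmul, map_zsmul, map_mul, map_mul,
      map_mul, map_mul, inv_one_mem (H.f_mem m hmJ _), inv_one_mem (H.f_mem m' hm'J _),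
      inv_zero_mem (H.h_mem _ (tp_mem hmJ hKJ'') m hmJ _),
      inv_zero_mem (H.h_mem _ (tp_mem hm'J hKJ'') m' hm'J _)]
    have d1 := eq_neg_of_add_eq_zero_left ih1
    have d2 := eq_neg_of_add_eq_zero_left ih2
    rw [d1, d2]
    simp only [mul_sub] at key'
    rcases neg_one_pow_eq_or ℤ K''.card with he | he
    · rw [pow_succ, he]
      simp only [one_smul, neg_smul, one_mul, mul_sub, neg_mul, add_mul, mul_neg,
        neg_add, neg_neg, mul_zero, add_zero, smul_neg]
      rw [← sub_eq_zero] at key'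
      rw [← key']
      abel
    · rw [pow_succ, he]
      simp only [one_smul, neg_smul, one_mul, mul_sub, neg_mul, add_mul, mul_neg,
        neg_add, neg_neg, mul_zero, add_zero, smul_neg]
      rw [← neg_eq_zero, ← sub_eq_zero] at key'
      rw [← key']
      abel

end Th

end MPadcGP
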