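import Pool.Agent.Lib.MP_adc574_ag_GP.DIb

/-!
# Deligne-Illusie III (helper59): the operators `Ph K` on the forms of a ring

`Ph K` is the alternatization of `Th a K`, divided by `a!` modulo `p`.
-/

set_option autoImplicit false

namespace MPadcGP

universe u v

/-- The inverse of `a!` modulo `p`. -/
noncomputable def ifac (p a : ℕ) : ℕ := ((a.factorial : ZMod p)⁻¹).val

theorem ifac_mul {p : ℕ} (hp : p.Prime) {a : ℕ} (ha : a < p) {R : Type v} [CommRing R]
    (h0 : (p : R) = 0) : ((ifac p a * a.factorial : ℕ) : R) = 1 := by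
  have : Fact p.Prime := ⟨hp⟩
  have h1 : ((ifac p a * a.factorial : ℕ) : ZMod p) = ((1 : ℕ) : ZMod p) := by
    unfold ifac
    rw [Nat.cast_mul, ZMod.natCast_val, ZMod.cast_id', id_eq, Nat.cast_one]
    refine inv_mul_cancel₀ ?_
    rw [Ne, ZMod.natCast_eq_zero_iff, hp.dvd_factorial]
    omega
  rw [ZMod.natCast_eq_natCast_iff] at h1
  have h2 : ((p : ℤ)) ∣ (1 : ℕ) - (ifac p a * a.factorial : ℕ) := h1.dvd
  obtain ⟨k, hk⟩ := h2
  have h3 : ((ifac p a * a.factorial : ℕ) : R) = 1 - (p : R) * (k : R) := by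
    have h4 : (((ifac p a * a.factorial : ℕ) : ℤ) : R) = (((1 : ℕ) - (p : ℤ) * k : ℤ) : R) := by
      rw [← hk]
      congr 1
      ring
    push_cast at h4
    push_cast
    exact h4
  rw [h3, h0, zero_mul, sub_zero]

section Ph

variable {A : Type u} {R : Type v} [CommRing A] [CommRing R] [Algebra A R] (χ : R →+* R) {n : ℕ}
  (f : Fin n → (Ω[R⁄A] →ₗ[R] TwM A χ)) (h : Fin n → Fin n → (Ω[R⁄A] →ₗ[R] TwM A χ)) (p : ℕ)

/-- The alternatization of `Th`. -/
noncomputable def Ph (K : Finset (Fin n)) : Fm A R →ₗ[R] TwM A χ :=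
  ExteriorAlgebra.liftAlternating fun a =>
    ifac p a • MultilinearMap.alternatization (Th χ f h a K)

/-- The differentials. -/
noncomputable def DD {a : ℕ} (t : Fin a → R) : Fin a → Ω[R⁄A] :=
  fun l => KaehlerDifferential.D A R (t l)

theorem ofTw_usmul (s : ℤˣ) (e : TwM A χ) : ofTw (s • e) = s • ofTw e := rfl

theorem ofTw_sum {ι : Type*} (s : Finset ι) (g : ι → TwM A χ) :
    ofTw (∑ i ∈ s, g i) = ∑ i ∈ s, ofTw (g i) := rfl

theorem Ph_wd (K : Finset (Fin n)) {a : ℕ} (r : R) (t : Fin a → R) :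
    ofTw (Ph χ f h p K (fz A r * wd A t)) = fz A (χ r) * (ifac p a •
      ∑ σ : Equiv.Perm (Fin a), Equiv.Perm.sign σ • ofTw (Th χ f h a K (DD (A := A) fun l => t (σ l)))) := by
  rw [← fz_smul, map_smul, ofTw_smul]
  congr 1
  unfold Ph wd
  rw [ExteriorAlgebra.liftAlternating_apply_ιMulti, AlternatingMap.smul_apply,
    MultilinearMap.alternatization_apply, ofTw_nsmul, ofTw_sum]
  rfl

variable {χ f h} {J : Finset (Fin n)}

theorem fz_mul_zsmul (r : R) (m : ℤ) (e : Fm A R) : fz A r * (m • e) = m • (fz A r * e) :=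
  mul_smul_comm _ _ _

theorem units_smul_mem {q : ℕ} {e : Fm A R} (s : ℤˣ) (he : e ∈ Fd A R q) : s • e ∈ Fd A R q := by
  rcases Int.units_eq_one_or s with rfl | rfl
  · rw [one_smul]
    exact he
  · rw [Units.neg_smul, one_smul]
    exact Submodule.neg_mem _ he

theorem Ph_mem (H : DIr χ f h J) {a q : ℕ} {K : Finset (Fin n)} (hKJ : K ⊆ J) (hK : K.Nonempty)
    (hq : q + K.card = a + 1) {e : Fm A R} (he : e ∈ Fd A R a) :
    ofTw (Ph χ f h p K e) ∈ Fd A R q := by
  refine fd_ind (P := fun e => ofTw (Ph χ f h p K e) ∈ Fd A R q) ?_ ?_ ?_ he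
  · rw [map_zero]
    exact Submodule.zero_mem _
  · intro r t
    rw [Ph_wd]
    refine fz_mul_mem _ (nsmul_mem ?_ _)
    exact Submodule.sum_mem _ fun σ _ => units_smul_mem _ (Th_mem H a q K _ hKJ hK hq)
  · intro x y hx hy
    rw [map_add, ofTw_add]
    exact Submodule.add_mem _ hx hy

theorem Ph_big {a : ℕ} {K : Finset (Fin n)} (hq : a + 1 < K.card) {e : Fm A R}
    (he : e ∈ Fd A R a) : ofTw (Ph χ f h p K e) = 0 := by
  refine fd_ind (P := fun e => ofTw (Ph χ f h p K e) = 0) ?_ ?_ ?_ he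
  · rw [map_zero]
    rfl
  · intro r t
    rw [Ph_wd, Finset.sum_eq_zero, smul_zero, mul_zero]
    intro σ _
    rw [Th_big a K _ hq, smul_zero]
  · intro x y hx hy
    rw [map_add, ofTw_add, hx, hy, add_zero]

theorem Ph_empty {a : ℕ} {e : Fm A R} (he : e ∈ Fd A R a) : ofTw (Ph χ f h p ∅ e) = 0 := by
  refine fd_ind (P := fun e => ofTw (Ph χ f h p ∅ e) = 0) ?_ ?_ ?_ he
  · rw [map_zero]
    rfl
  · intro r t
    rw [Ph_wd, Finset.sum_eq_zero, smul_zero, mul_zero]
    intro σ _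
    rw [Th_empty, smul_zero]
  · intro x y hx hy
    rw [map_add, ofTw_add, hx, hy, add_zero]

/-- The operators `Ph K` form a cocycle. -/
theorem Ph_cocycle (H : DIr χ f h J) (hχ : ∀ r, dd A (fz A (χ r)) = 0) {a : ℕ}
    {K : Finset (Fin n)} (hKJ : K ⊆ J) {e : Fm A R} (he : e ∈ Fd A R a) :
    dd A (ofTw (Ph χ f h p K e)) + bd (fun L => inv A (ofTw (Ph χ f h p L e))) K = 0 := by
  refine fd_ind (P := fun e => dd A (ofTw (Ph χ f h p K e)) +
    bd (fun L => inv A (ofTw (Ph χ f h p L e))) K = 0) ?_ ?_ ?_ he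
  · have h1 : bd (fun L => inv A (ofTw (Ph χ f h p L (0 : Fm A R)))) K = 0 := by
      unfold bd
      refine Finset.sum_eq_zero fun i _ => ?_
      beta_reduce
      rw [map_zero, ofTw_zero, map_zero, smul_zero]
    rw [h1, map_zero, ofTw_zero, map_zero, add_zero]
  · intro r t
    have h1 : ∀ L : Finset (Fin n), inv A (ofTw (Ph χ f h p L (fz A r * wd A t))) =
        fz A (χ r) * (ifac p a • ∑ σ : Equiv.Perm (Fin a), Equiv.Perm.sign σ •
          inv A (ofTw (Th χ f h a L (DD (A := A) fun l => t (σ l))))) := by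
      intro L
      rw [Ph_wd, map_mul, inv_fz, map_nsmul, map_sum]
      congr 2
      refine Finset.sum_congr rfl fun σ _ => ?_
      rcases Int.units_eq_one_or (Equiv.Perm.sign σ) with hs | hs
      · rw [hs, one_smul, one_smul]
      · rw [hs, Units.neg_smul, one_smul, Units.neg_smul, one_smul, map_neg]
    have h2 : bd (fun L => inv A (ofTw (Ph χ f h p L (fz A r * wd A t)))) K =
        fz A (χ r) * (ifac p a • ∑ σ : Equiv.Perm (Fin a), Equiv.Perm.sign σ •
          bd (fun L => inv A (ofTw (Th χ f h a L (DD (A := A) fun l => t (σ l))))) K) := by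
      unfold bd
      simp only [h1, Finset.smul_sum, Finset.mul_sum]
      rw [Finset.sum_comm]
      refine Finset.sum_congr rfl fun σ _ => Finset.sum_congr rfl fun i _ => ?_
      rw [← mul_smul_comm, smul_comm (sg i K) (ifac p a), smul_comm (sg i K) (Equiv.Perm.sign σ)]
    have h3 : dd A (ofTw (Ph χ f h p K (fz A r * wd A t))) =
        fz A (χ r) * (ifac p a • ∑ σ : Equiv.Perm (Fin a), Equiv.Perm.sign σ •
          dd A (ofTw (Th χ f h a K (DD (A := A) fun l => t (σ l))))) := by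
      rw [Ph_wd, dd_mul, hχ, zero_mul, zero_add, inv_fz, map_nsmul, map_sum]
      congr 2
      refine Finset.sum_congr rfl fun σ _ => ?_
      rcases Int.units_eq_one_or (Equiv.Perm.sign σ) with hs | hs
      · rw [hs, one_smul, one_smul]
      · rw [hs, Units.neg_smul, one_smul, Units.neg_smul, one_smul, map_neg]
    rw [h2, h3, ← mul_add, ← smul_add, ← Finset.sum_add_distrib]
    have h4 : ∀ σ : Equiv.Perm (Fin a), Equiv.Perm.sign σ •
        dd A (ofTw (Th χ f h a K (DD (A := A) fun l => t (σ l)))) + Equiv.Perm.sign σ •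
          bd (fun L => inv A (ofTw (Th χ f h a L (DD (A := A) fun l => t (σ l))))) K = 0 := by
      intro σ
      rw [← smul_add, cocycle H a K _ hKJ, smul_zero]
    rw [Finset.sum_congr rfl fun σ _ => h4 σ, Finset.sum_const_zero, smul_zero, mul_zero]
  · intro x y hx hy
    have h1 : bd (fun L => inv A (ofTw (Ph χ f h p L (x + y)))) K =
        bd (fun L => inv A (ofTw (Ph χ f h p L x))) K +
          bd (fun L => inv A (ofTw (Ph χ f h p L y))) K := by
      rw [← bd_add]
      unfold bd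
      refine Finset.sum_congr rfl fun i _ => ?_
      beta_reduce
      rw [map_add, ofTw_add, map_add]
    rw [h1, map_add, ofTw_add, map_add, add_add_add_comm, hx, hy, add_zero]

theorem wd_snoc {a : ℕ} (w : Fin (a + 1) → Ω[R⁄A]) :
    (ExteriorAlgebra.ιMulti R (a + 1) w : Fm A R) =
      ExteriorAlgebra.ιMulti R a (Fin.init w) * ExteriorAlgebra.ι R (w (Fin.last a)) := by
  rw [ExteriorAlgebra.ιMulti_apply, ExteriorAlgebra.ιMulti_apply, List.ofFn_succ',
    List.concat_eq_append, List.prod_append, List.prod_singleton]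
  rfl

theorem Th_single {i : Fin n} {F : Fm A R →+* Fm A R}
    (hF : ∀ w : Ω[R⁄A], F (ExteriorAlgebra.ι R w) = ofTw (f i w)) {a : ℕ} (w : Fin a → Ω[R⁄A]) :
    ofTw (Th χ f h a {i} w) = F (ExteriorAlgebra.ιMulti R a w) := by
  induction a with
  | zero =>
    rw [Th_zero_apply, Finset.card_singleton, if_pos rfl, ExteriorAlgebra.ιMulti_zero_apply, map_one]
  | succ a ih =>
    have h1 := Th_insert χ f h a (K := ∅) (m := i) (fun x hx => by simp at hx) w
    rw [Finset.card_empty, pow_zero, one_smul, Th_empty, zero_mul, add_zero] at h1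
    have h2 : (insert i ∅ : Finset (Fin n)) = {i} := rfl
    rw [h2] at h1
    rw [h1, ih, wd_snoc, map_mul, hF]

/-- On forms of degree less than `p`, `Ph {i}` is multiplicative. -/
theorem Ph_single (hp : p.Prime) (h0 : (p : R) = 0) {i : Fin n} {F : Fm A R →+* Fm A R}
    (hF0 : ∀ r : R, F (fz A r) = fz A (χ r))
    (hF : ∀ w : Ω[R⁄A], F (ExteriorAlgebra.ι R w) = ofTw (f i w)) {a : ℕ} (ha : a < p)
    {e : Fm A R} (he : e ∈ Fd A R a) :
    ofTw (Ph χ f h p {i} e) = F e := by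
  refine fd_ind (P := fun e => ofTw (Ph χ f h p {i} e) = F e) ?_ ?_ ?_ he
  · rw [map_zero, map_zero]
    rfl
  · intro r t
    rw [Ph_wd, map_mul, hF0]
    congr 1
    have h1 : ∀ σ : Equiv.Perm (Fin a), Equiv.Perm.sign σ •
        ofTw (Th χ f h a {i} (DD (A := A) fun l => t (σ l))) = F (wd A t) := by
      intro σ
      rw [Th_single hF]
      have h2 : (ExteriorAlgebra.ιMulti R a (DD (A := A) fun l => t (σ l)) : Fm A R) =
          Equiv.Perm.sign σ • wd A t :=
        (ExteriorAlgebra.ιMulti R a).map_perm (DD (A := A) t) σ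
      rw [h2]
      rcases Int.units_eq_one_or (Equiv.Perm.sign σ) with hs | hs
      · rw [hs, one_smul, one_smul]
      · rw [hs, Units.neg_smul, one_smul, Units.neg_smul, one_smul, map_neg, neg_neg]
    rw [Finset.sum_congr rfl fun σ _ => h1 σ, Finset.sum_const, Finset.card_univ, Fintype.card_perm,
      Fintype.card_fin, smul_smul, nsmul_eq_mul]
    rw [← fz_natCast (A := A) (R := R), ifac_mul hp ha h0, map_one, one_mul]
  · intro x y hx hy
    rw [map_add, ofTw_add, hx, hy, map_add]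

end Ph

section natural

variable {A : Type u} {R : Type v} [CommRing A] [CommRing R] [Algebra A R] {χ : R →+* R} {n : ℕ}
  {f : Fin n → (Ω[R⁄A] →ₗ[R] TwM A χ)} {h : Fin n → Fin n → (Ω[R⁄A] →ₗ[R] TwM A χ)}
  {R' : Type v} [CommRing R'] [Algebra A R'] {χ' : R' →+* R'}
  {f' : Fin n → (Ω[R'⁄A] →ₗ[R'] TwM A χ')} {h' : Fin n → Fin n → (Ω[R'⁄A] →ₗ[R'] TwM A χ')}
  {ρ : R →+* R'} {hρ : CC A A ρ} {J : Finset (Fin n)}

theorem Th_natural
    (hf : ∀ i ∈ J, ∀ t, mp ρ hρ (ofTw (f i (KaehlerDifferential.D A R t))) =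
      ofTw (f' i (KaehlerDifferential.D A R' (ρ t))))
    (hh : ∀ i ∈ J, ∀ j ∈ J, ∀ t, mp ρ hρ (ofTw (h i j (KaehlerDifferential.D A R t))) =
      ofTw (h' i j (KaehlerDifferential.D A R' (ρ t)))) {a : ℕ} :
    ∀ (K : Finset (Fin n)) (t : Fin a → R), K ⊆ J →
      mp ρ hρ (ofTw (Th χ f h a K (DD (A := A) t))) =
        ofTw (Th χ' f' h' a K (DD (A := A) fun l => ρ (t l))) := by
  induction a with
  | zero =>
    intro K t _
    rw [Th_zero_apply, Th_zero_apply]
    split_ifs
    · exact map_one _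
    · exact map_zero _
  | succ a ih =>
    intro K t hKJ
    rcases K.eq_empty_or_nonempty with rfl | hK
    · rw [Th_empty, Th_empty, map_zero]
    obtain ⟨m, K', hm, rfl⟩ := exists_insert hK
    have hmJ : m ∈ J := hKJ (Finset.mem_insert_self _ _)
    have hKJ' : K' ⊆ J := fun x hx => hKJ (Finset.mem_insert_of_mem hx)
    have e1 : Fin.init (DD (A := A) t) = DD (A := A) (Fin.init t) := rfl
    have e2 : Fin.init (DD (A := A) fun l => ρ (t l)) = DD (A := A) fun l => ρ (Fin.init t l) := rfl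
    rw [Th_insert χ f h a hm, Th_insert χ' f' h' a hm, e1, e2, map_add, map_zsmul, map_mul, map_mul,
      ih _ _ hKJ, ih _ _ hKJ']
    exact congrArg₂ (· + ·) (congrArg (fun z => (-1 : ℤ) ^ K'.card • (_ * z)) (hf m hmJ _))
      (congrArg (fun z => _ * z) (hh _ (tp_mem hmJ hKJ') m hmJ _))

theorem Ph_natural (p : ℕ) (hχ : ∀ r, ρ (χ r) = χ' (ρ r))
    (hf : ∀ i ∈ J, ∀ t, mp ρ hρ (ofTw (f i (KaehlerDifferential.D A R t))) =
      ofTw (f' i (KaehlerDifferential.D A R' (ρ t))))
    (hh : ∀ i ∈ J, ∀ j ∈ J, ∀ t, mp ρ hρ (ofTw (h i j (KaehlerDifferential.D A R t))) =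
      ofTw (h' i j (KaehlerDifferential.D A R' (ρ t)))) {a : ℕ} {K : Finset (Fin n)} (hKJ : K ⊆ J)
    {e : Fm A R} (he : e ∈ Fd A R a) :
    mp ρ hρ (ofTw (Ph χ f h p K e)) = ofTw (Ph χ' f' h' p K (mp ρ hρ e)) := by
  refine fd_ind (P := fun e => mp ρ hρ (ofTw (Ph χ f h p K e)) =
    ofTw (Ph χ' f' h' p K (mp ρ hρ e))) ?_ ?_ ?_ he
  · rw [map_zero, map_zero, map_zero]
    exact map_zero _
  · intro r t
    rw [Ph_wd, map_mul, mp_fz, map_mul, mp_fz, mp_wd, Ph_wd, hχ]
    congr 1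
    rw [map_nsmul, map_sum]
    congr 1
    refine Finset.sum_congr rfl fun σ _ => ?_
    rcases Int.units_eq_one_or (Equiv.Perm.sign σ) with hs | hs
    · rw [hs, one_smul, one_smul]
      exact Th_natural hf hh K _ hKJ
    · rw [hs, Units.neg_smul, one_smul, Units.neg_smul, one_smul, map_neg]
      exact congrArg _ (Th_natural hf hh K _ hKJ)
  · intro x y hx hy
    rw [map_add, ofTw_add, map_add, hx, hy, map_add, map_add, ofTw_add]

end natural

end MPadcGP
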