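import Pool.Agent.Lib.MP_adc574_ag_GP.Cup
import Pool.Agent.Lib.MP_adc574_ag_GP.DIb2
import Pool.Agent.Lib.MP_adc574_ag_GP.DIL

/-!
# Deligne-Illusie IV (helper59): cuts of a finite set
-/

set_option autoImplicit false

namespace MPadcGP

universe u v

/-- The boundary of the sum over the cuts. -/
theorem bd_cuts {n : ℕ} {E : Type*} [AddCommGroup E] (P : Finset (Fin n) → Finset (Fin n) → E)
    (J : Finset (Fin n)) (h1 : P ∅ J = 0) (h2 : P J ∅ = 0) :
    ∑ j ∈ J, sg j J • ∑ s ∈ J.erase j, P ((J.erase j).filter (· ≤ s)) ((J.erase j).filter (s ≤ ·)) =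
      ∑ s ∈ J, (bd (fun L => P L (J.filter (s ≤ ·))) (J.filter (· ≤ s)) +
        (-1 : ℤ) ^ (J.filter (· < s)).card • bd (fun U => P (J.filter (· ≤ s)) U) (J.filter (s ≤ ·))) := by
  have hswap : ∀ g : Fin n → Fin n → E, ∑ j ∈ J, ∑ s ∈ J.erase j, g j s =
      ∑ s ∈ J, (∑ j ∈ J.filter (· < s), g j s + ∑ j ∈ J.filter (s < ·), g j s) := by
    intro g
    have h1 : ∀ j ∈ J, ∑ s ∈ J.erase j, g j s = ∑ s ∈ J, if s = j then 0 else g j s := by
      intro j _
      rw [← Finset.sum_filter_add_sum_filter_not J (fun s => s = j)]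
      rw [Finset.sum_eq_zero (s := J.filter fun s => s = j), zero_add]
      · have h2 : J.filter (fun s => ¬ s = j) = J.erase j := by
          ext k
          simp only [Finset.mem_filter, Finset.mem_erase]
          tauto
        rw [h2]
        refine Finset.sum_congr rfl fun s hs => ?_
        rw [if_neg (Finset.ne_of_mem_erase hs)]
      · intro s hs
        rw [if_pos (Finset.mem_filter.1 hs).2]
    rw [Finset.sum_congr rfl h1, Finset.sum_comm]
    refine Finset.sum_congr rfl fun s hs => ?_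
    rw [← Finset.sum_filter_add_sum_filter_not J (fun j => j < s)]
    congr 1
    · refine Finset.sum_congr rfl fun j hj => ?_
      rw [if_neg (ne_of_gt (Finset.mem_filter.1 hj).2)]
    · have h2 : J.filter (fun j => ¬ j < s) = insert s (J.filter (s < ·)) := by
        ext k
        simp only [Finset.mem_filter, Finset.mem_insert, not_lt]
        constructor
        · rintro ⟨h3, h4⟩
          rcases h4.lt_or_eq with h5 | h5
          · exact Or.inr ⟨h3, h5⟩
          · exact Or.inl h5.symm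
        · rintro (rfl | ⟨h3, h4⟩)
          · exact ⟨hs, le_rfl⟩
          · exact ⟨h3, h4.le⟩
      rw [h2, Finset.sum_insert (by simp), if_pos rfl, zero_add]
      refine Finset.sum_congr rfl fun j hj => ?_
      rw [if_neg (ne_of_lt (Finset.mem_filter.1 hj).2)]
  have hL : ∀ j ∈ J, sg j J • ∑ s ∈ J.erase j, P ((J.erase j).filter (· ≤ s)) ((J.erase j).filter (s ≤ ·)) =
      ∑ s ∈ J.erase j, sg j J • P ((J.erase j).filter (· ≤ s)) ((J.erase j).filter (s ≤ ·)) :=
    fun j _ => Finset.smul_sum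
  rw [Finset.sum_congr rfl hL, hswap]
  -- the telescoping sum
  have htel := sum_cuts (fun K : Finset (Fin n) => (-1 : ℤ) ^ (K.card + 1) • P K (J \ K)) J
  have h7 : ∀ s, J \ J.filter (· ≤ s) = J.filter (s < ·) := by
    intro s
    ext k
    simp only [Finset.mem_sdiff, Finset.mem_filter, not_and, not_le]
    tauto
  have h8 : ∀ s, J \ J.filter (· < s) = J.filter (s ≤ ·) := by
    intro s
    ext k
    simp only [Finset.mem_sdiff, Finset.mem_filter, not_and, not_lt]
    tauto
  simp only [h7, h8] at htel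
  rw [Finset.sdiff_self, Finset.sdiff_empty, h1, h2, smul_zero, smul_zero, sub_zero] at htel
  rw [← add_zero (∑ s ∈ J, (∑ j ∈ J.filter (· < s), _ + ∑ j ∈ J.filter (s < ·), _)), ← htel,
    ← Finset.sum_sub_distrib, ← Finset.sum_add_distrib]
  refine Finset.sum_congr rfl fun s hs => ?_
  have hc := card_le hs
  have e1 : J.filter (· ≤ s) = insert s (J.filter (· < s)) := by
    ext k
    simp only [Finset.mem_filter, Finset.mem_insert]
    constructor
    · rintro ⟨h1, h2⟩
      rcases h2.lt_or_eq with h3 | h3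
      · exact Or.inr ⟨h1, h3⟩
      · exact Or.inl h3
    · rintro (rfl | ⟨h1, h2⟩)
      · exact ⟨hs, le_rfl⟩
      · exact ⟨h1, h2.le⟩
  have e2 : J.filter (s ≤ ·) = insert s (J.filter (s < ·)) := by
    ext k
    simp only [Finset.mem_filter, Finset.mem_insert]
    constructor
    · rintro ⟨h3, h4⟩
      rcases h4.lt_or_eq with h5 | h5
      · exact Or.inr ⟨h3, h5⟩
      · exact Or.inl h5.symm
    · rintro (rfl | ⟨h3, h4⟩)
      · exact ⟨hs, le_rfl⟩
      · exact ⟨h3, h4.le⟩
  have e3 : (J.filter (s ≤ ·)).erase s = J.filter (s < ·) := by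
    rw [e2, Finset.erase_insert (by simp)]
  have b1 : bd (fun L => P L (J.filter (s ≤ ·))) (J.filter (· ≤ s)) =
      (-1 : ℤ) ^ (J.filter (· < s)).card • P (J.filter (· < s)) (J.filter (s ≤ ·)) +
        ∑ j ∈ J.filter (· < s), sg j J • P ((J.filter (· ≤ s)).erase j) (J.filter (s ≤ ·)) := by
    unfold bd
    conv_lhs =>
      rw [e1]
    rw [Finset.sum_insert (by simp), ← e1, erase_self_le, sg_le le_rfl]
    congr 1
    refine Finset.sum_congr rfl fun j hj => ?_
    rw [sg_le (Finset.mem_filter.1 hj).2.le]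
  have b2 : bd (fun U => P (J.filter (· ≤ s)) U) (J.filter (s ≤ ·)) =
      P (J.filter (· ≤ s)) (J.filter (s < ·)) +
        ∑ j ∈ J.filter (s < ·), sg j (J.filter (s ≤ ·)) • P (J.filter (· ≤ s)) ((J.filter (s ≤ ·)).erase j) := by
    unfold bd
    conv_lhs =>
      rw [e2]
    rw [Finset.sum_insert (by simp), ← e2, e3, sg_self_ge, one_smul]
  have c1 : ∑ j ∈ J.filter (· < s), sg j J • P ((J.erase j).filter (· ≤ s)) ((J.erase j).filter (s ≤ ·)) =
      ∑ j ∈ J.filter (· < s), sg j J • P ((J.filter (· ≤ s)).erase j) (J.filter (s ≤ ·)) := by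
    refine Finset.sum_congr rfl fun j hj => ?_
    rw [erase_le_of_lt, erase_ge_of_lt (Finset.mem_filter.1 hj).2]
  have c2 : ∑ j ∈ J.filter (s < ·), sg j J • P ((J.erase j).filter (· ≤ s)) ((J.erase j).filter (s ≤ ·)) =
      (-1 : ℤ) ^ (J.filter (· < s)).card • ∑ j ∈ J.filter (s < ·), sg j (J.filter (s ≤ ·)) •
        P (J.filter (· ≤ s)) ((J.filter (s ≤ ·)).erase j) := by
    rw [Finset.smul_sum]
    refine Finset.sum_congr rfl fun j hj => ?_
    have hj2 := (Finset.mem_filter.1 hj).2
    rw [erase_le_of_gt hj2, erase_ge_of_gt, sg_ge hj2.le, mul_smul]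
  rw [b1, b2, c1, c2, hc, smul_add, pow_succ, pow_succ]
  simp only [mul_neg_one, neg_neg, neg_smul]
  abel

end MPadcGP
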