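import Pool.Agent.Lib.MP_adc574_ag_GP.Cup
import Pool.Agent.Lib.MP_adc574_ag_GP.DIL
import Pool.Agent.Lib.MP_adc574_ag_GP.DIb2

/-!
# Deligne-Illusie V (helper59): the operators of a cover with lifting data
-/

set_option autoImplicit false

namespace MPadcGP

universe u v w

section lin

variable {A : Type u} {R : Type v} [CommRing A] [CommRing R] [Algebra A R]

theorem exists_lin (χ : R →+* R) (g : R → Fm A R) (hadd : ∀ s t, g (s + t) = g s + g t)
    (hmul : ∀ s t, g (s * t) = fz A (χ s) * g t + fz A (χ t) * g s)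
    (hA : ∀ a : A, g (algebraMap A R a) = 0) :
    ∃ F : Ω[R⁄A] →ₗ[R] TwM A χ, ∀ t, ofTw (F (KaehlerDifferential.D A R t)) = g t := by
  let _ : Module A (TwM A χ) := Module.compHom (TwM A χ) (algebraMap A R)
  have hs : ∀ (a : A) (x : TwM A χ), a • x = algebraMap A R a • x := fun a x => rfl
  have _ : IsScalarTower A R (TwM A χ) := ⟨fun a r x => by
    rw [Algebra.smul_def, mul_smul, hs]⟩
  let δ0 : R →ₗ[A] TwM A χ :=
    { toFun := fun t => toTw χ (g t)
      map_add' := fun s t => tw_ext' (by rw [ofTw_toTw, hadd]; rfl)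
      map_smul' := by
        intro a t
        refine tw_ext' ?_
        rw [RingHom.id_apply, hs, ofTw_smul, ofTw_toTw, ofTw_toTw, Algebra.smul_def, hmul, hA,
          mul_zero, add_zero] }
  let δ : Derivation A R (TwM A χ) := Derivation.mk' δ0 (by
    intro s t
    refine tw_ext' ?_
    rw [ofTw_add, ofTw_smul, ofTw_smul]
    exact hmul s t)
  exact ⟨δ.liftKaehlerDifferential, fun t => congrArg ofTw (δ.liftKaehlerDifferential_comp_D t)⟩

theorem om_ind {P : Ω[R⁄A] → Prop} (h0 : P 0)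
    (h1 : ∀ (r t : R), P (r • KaehlerDifferential.D A R t))
    (h2 : ∀ x y, P x → P y → P (x + y)) (w : Ω[R⁄A]) : P w := by
  have key : ∀ r : R, P (r • w) := by
    have hx : w ∈ Submodule.span R (Set.range (KaehlerDifferential.D A R)) := by
      rw [KaehlerDifferential.span_range_derivation]
      exact Submodule.mem_top
    induction hx using Submodule.span_induction with
    | mem x hx =>
      obtain ⟨t, rfl⟩ := hx
      exact fun r => h1 r t
    | zero =>
      intro r
      rw [smul_zero]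
      exact h0
    | add x y _ _ hx hy =>
      intro r
      rw [smul_add]
      exact h2 _ _ (hx r) (hy r)
    | smul s x _ hx =>
      intro r
      rw [smul_smul]
      exact hx _
  have h := key 1
  rwa [one_smul] at h

end lin

section fr

variable {p : ℕ} {R : Type v} [CommRing R] [Algebra (ZMod p) R]

theorem p_zero_of_algebra : (p : R) = 0 := by
  rw [← map_natCast (algebraMap (ZMod p) R), ZMod.natCast_self, map_zero]

/-- The Frobenius. -/
def frz (hp : p.Prime) (R : Type v) [CommRing R] [Algebra (ZMod p) R] : R →+* R where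
  toFun r := r ^ p
  map_one' := one_pow p
  map_mul' a b := mul_pow a b p
  map_zero' := zero_pow hp.ne_zero
  map_add' a b := dia_add_pow_of_zero hp p_zero_of_algebra a b

theorem frz_apply (hp : p.Prime) (r : R) : frz hp R r = r ^ p := rfl

theorem dd_frz (hp : p.Prime) (r : R) : dd (ZMod p) (fz (ZMod p) (frz hp R r)) = 0 := by
  rw [dd_fz, frz_apply, df_pow_p p_zero_of_algebra]

theorem algebraMap_eq_natCast (hp : p.Prime) (a : ZMod p) : ∃ m : ℕ, algebraMap (ZMod p) R a = (m : R) := by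
  have : NeZero p := ⟨hp.ne_zero⟩
  obtain ⟨m, rfl⟩ := ZMod.natCast_zmod_surjective a
  exact ⟨m, map_natCast _ _⟩

end fr

namespace LiftD

variable {p : ℕ} {n : ℕ} {X : CovD.{0, v} (ZMod p) n} (hp : p.Prime) (L : LiftD.{v, w} p X)

private theorem f_exists {J : Finset (Fin n)} {i : Fin n} (hi : i ∈ J) :
    ∃ F : Ω[X.R J⁄ZMod p] →ₗ[X.R J] TwM (ZMod p) (frz hp (X.R J)), ∀ t,
      ofTw (F (KaehlerDifferential.D (ZMod p) (X.R J) t)) = th (ZMod p) p (L.π J) (L.φ i J) t :=
  exists_lin (frz hp (X.R J)) (fun t => th (ZMod p) p (L.π J) (L.φ i J) t)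
    (fun s t => th_add _ hp (L.flat J ⟨i, hi⟩) (L.fr i J hi) s t)
    (fun s t => th_mul _ hp (L.flat J ⟨i, hi⟩) (L.fr i J hi) s t)
    (fun a => by
      obtain ⟨m, hm⟩ := algebraMap_eq_natCast (R := X.R J) hp a
      beta_reduce
      rw [hm]
      exact th_natCast _ hp (L.flat J ⟨i, hi⟩) (L.fr i J hi) m)

private theorem h_exists {J : Finset (Fin n)} {i j : Fin n} (hi : i ∈ J) (hj : j ∈ J) :
    ∃ F : Ω[X.R J⁄ZMod p] →ₗ[X.R J] TwM (ZMod p) (frz hp (X.R J)), ∀ t,
      ofTw (F (KaehlerDifferential.D (ZMod p) (X.R J) t)) =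
        fz (ZMod p) (hd p (L.π J) (L.φ i J) (L.φ j J) t) :=
  exists_lin (frz hp (X.R J)) (fun t => fz (ZMod p) (hd p (L.π J) (L.φ i J) (L.φ j J) t))
    (fun s t => by
      beta_reduce
      rw [hd_add hp (L.flat J ⟨i, hi⟩) (L.fr i J hi) (L.fr j J hj), map_add])
    (fun s t => by
      beta_reduce
      rw [hd_mul hp (L.flat J ⟨i, hi⟩) (L.fr i J hi) (L.fr j J hj), map_add, map_mul, map_mul,
        frz_apply, frz_apply])
    (fun a => by
      obtain ⟨m, hm⟩ := algebraMap_eq_natCast (R := X.R J) hp a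
      beta_reduce
      rw [hm, hd_natCast hp (L.flat J ⟨i, hi⟩) (L.fr i J hi) (L.fr j J hj), map_zero])

open Classical in
/-- The maps `f i`. -/
noncomputable def f (J : Finset (Fin n)) (i : Fin n) :
    Ω[X.R J⁄ZMod p] →ₗ[X.R J] TwM (ZMod p) (frz hp (X.R J)) :=
  if hi : i ∈ J then (f_exists hp L hi).choose else 0

open Classical in
/-- The maps `h i j`. -/
noncomputable def h (J : Finset (Fin n)) (i j : Fin n) :
    Ω[X.R J⁄ZMod p] →ₗ[X.R J] TwM (ZMod p) (frz hp (X.R J)) :=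
  if hi : i ∈ J ∧ j ∈ J then (h_exists hp L hi.1 hi.2).choose else 0

variable {hp L}

theorem f_D {J : Finset (Fin n)} {i : Fin n} (hi : i ∈ J) (t : X.R J) :
    ofTw (L.f hp J i (KaehlerDifferential.D (ZMod p) (X.R J) t)) =
      th (ZMod p) p (L.π J) (L.φ i J) t := by
  unfold f
  rw [dif_pos hi]
  exact (f_exists hp L hi).choose_spec t

theorem h_D {J : Finset (Fin n)} {i j : Fin n} (hi : i ∈ J) (hj : j ∈ J) (t : X.R J) :
    ofTw (L.h hp J i j (KaehlerDifferential.D (ZMod p) (X.R J) t)) =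
      fz (ZMod p) (hd p (L.π J) (L.φ i J) (L.φ j J) t) := by
  unfold h
  rw [dif_pos ⟨hi, hj⟩]
  exact (h_exists hp L hi hj).choose_spec t

theorem dir (J : Finset (Fin n)) : DIr (frz hp (X.R J)) (L.f hp J) (L.h hp J) J := by
  refine ⟨?_, ?_, ?_, ?_, ?_⟩
  · intro i hi w
    induction w using om_ind with
    | h0 =>
      rw [map_zero, ofTw_zero]
      exact Submodule.zero_mem _
    | h1 r t =>
      rw [map_smul, ofTw_smul, f_D hi]
      exact fz_mul_mem _ (th_mem _ hp (L.flat J ⟨i, hi⟩) (L.fr i J hi) t)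
    | h2 x y hx hy =>
      rw [map_add, ofTw_add]
      exact Submodule.add_mem _ hx hy
  · intro i hi j hj w
    induction w using om_ind with
    | h0 =>
      rw [map_zero, ofTw_zero]
      exact Submodule.zero_mem _
    | h1 r t =>
      rw [map_smul, ofTw_smul, h_D hi hj, ← map_mul]
      exact fz_mem _
    | h2 x y hx hy =>
      rw [map_add, ofTw_add]
      exact Submodule.add_mem _ hx hy
  · intro i hi w
    induction w using om_ind with
    | h0 => rw [map_zero, ofTw_zero, map_zero]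
    | h1 r t =>
      rw [map_smul, ofTw_smul, f_D hi, dd_mul, dd_frz, zero_mul, zero_add,
        dd_th _ hp (L.flat J ⟨i, hi⟩) (L.fr i J hi), mul_zero]
    | h2 x y hx hy => rw [map_add, ofTw_add, map_add, hx, hy, add_zero]
  · intro i hi j hj w
    induction w using om_ind with
    | h0 =>
      rw [map_zero, map_zero, map_zero, ofTw_zero, map_zero, sub_zero]
    | h1 r t =>
      rw [map_smul, map_smul, map_smul, ofTw_smul, ofTw_smul, ofTw_smul, f_D hi, f_D hj,
        h_D hi hj, dd_mul, dd_frz, zero_mul, zero_add, inv_fz, dd_fz,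
        df_hd _ hp (L.flat J ⟨i, hi⟩) (L.fr i J hi) (L.fr j J hj), mul_sub]
    | h2 x y hx hy =>
      rw [map_add, map_add, map_add, ofTw_add, ofTw_add, ofTw_add, map_add, hx, hy]
      abel
  · intro i hi j hj l hl w
    induction w using om_ind with
    | h0 =>
      rw [map_zero, map_zero, map_zero, ofTw_zero, add_zero]
    | h1 r t =>
      rw [map_smul, map_smul, map_smul, ofTw_smul, ofTw_smul, ofTw_smul, h_D hi hj, h_D hj hl,
        h_D hi hl, ← mul_add, ← map_add,
        hd_trans hp (L.flat J ⟨i, hi⟩) (L.fr i J hi) (L.fr j J hj) (L.fr l J hl)]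
    | h2 x y hx hy =>
      rw [map_add, map_add, map_add, ofTw_add, ofTw_add, ofTw_add, ← hx, ← hy]
      abel

variable (hp L)

/-- The operators of Deligne and Illusie. -/
noncomputable def Phi (J K : Finset (Fin n)) : X.E J →+ X.E J where
  toFun e := ofTw (Ph (frz hp (X.R J)) (L.f hp J) (L.h hp J) p K e)
  map_zero' := by rw [map_zero]; rfl
  map_add' a b := by rw [map_add]; rfl

variable {hp L}

theorem Phi_mem {J K : Finset (Fin n)} {a q : ℕ} (hKJ : K ⊆ J) (hK : K.Nonempty)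
    (hq : q + K.card = a + 1) {e : X.E J} (he : e ∈ Fd (ZMod p) (X.R J) a) :
    L.Phi hp J K e ∈ Fd (ZMod p) (X.R J) q := Ph_mem p (dir J) hKJ hK hq he

theorem Phi_big {J K : Finset (Fin n)} {a : ℕ} (hq : a + 1 < K.card) {e : X.E J}
    (he : e ∈ Fd (ZMod p) (X.R J) a) : L.Phi hp J K e = 0 := Ph_big p hq he

theorem Phi_empty {J : Finset (Fin n)} {a : ℕ} {e : X.E J} (he : e ∈ Fd (ZMod p) (X.R J) a) :
    L.Phi hp J ∅ e = 0 := Ph_empty p he

theorem Phi_cocycle {J K : Finset (Fin n)} {a : ℕ} (hKJ : K ⊆ J) {e : X.E J}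
    (he : e ∈ Fd (ZMod p) (X.R J) a) :
    dd (ZMod p) (L.Phi hp J K e) + bd (fun U => inv (ZMod p) (L.Phi hp J U e)) K = 0 :=
  Ph_cocycle p (dir J) (dd_frz hp) hKJ he

theorem Phi_inv {J K : Finset (Fin n)} {a : ℕ} (hKJ : K ⊆ J) (hK : K.Nonempty) {e : X.E J}
    (he : e ∈ Fd (ZMod p) (X.R J) a) :
    inv (ZMod p) (L.Phi hp J K e) = (-1 : ℤ) ^ (K.card + 1) • L.Phi hp J K (inv (ZMod p) e) := by
  rcases Nat.lt_or_ge (a + 1) K.card with h1 | h1
  · rw [Phi_big h1 he, Phi_big h1 (inv_mem' he), map_zero, smul_zero]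
  · have h2 := Phi_mem (L := L) (hp := hp) (q := a + 1 - K.card) hKJ hK (by omega) he
    rw [inv_zsmul _ h2, inv_zsmul _ he, map_zsmul, smul_smul, ← pow_add]
    congr 1
    have h3 : (-1 : ℤ) ^ (K.card + 1 + a) = (-1 : ℤ) ^ (a + 1 - K.card + 2 * K.card) := by
      congr 1
      omega
    rw [h3, pow_add, pow_mul]
    norm_num

theorem Phi_natural {J J' K : Finset (Fin n)} (hJJ : J ⊆ J') (hJ : J.Nonempty) {a : ℕ} (hKJ : K ⊆ J)
    {e : X.E J} (he : e ∈ Fd (ZMod p) (X.R J) a) :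
    X.rs hJJ (L.Phi hp J K e) = L.Phi hp J' K (X.rs hJJ e) := by
  have hfl := L.flat J hJ
  have hfl' := L.flat J' (hJ.mono hJJ)
  refine Ph_natural (J := J) p (fun r => map_pow _ _ _) (fun i hi t => ?_) (fun i hi j hj t => ?_)
    hKJ he
  · rw [f_D hi]
    refine (th_natural (ZMod p) hp hfl hfl' (L.fr i J hi) (L.fr i J' (hJJ hi)) (τ := L.τ hJJ)
      (ρ := X.ρ hJJ) (fun x => L.π_τ hJJ x) (fun x => L.φ_τ i hJJ hi x) _ t).trans ?_
    exact (f_D (hJJ hi) _).symm
  · rw [h_D hi hj, mp_fz]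
    refine Eq.trans ?_ (h_D (hJJ hi) (hJJ hj) _).symm
    exact congrArg (fz (ZMod p)) (hd_natural (ρ := (X.ρ hJJ : X.R J →+* X.R J')) hp hfl hfl'
      (L.fr i J hi) (L.fr j J hj) (L.fr i J' (hJJ hi)) (L.fr j J' (hJJ hj)) (τ := L.τ hJJ)
      (fun x => L.π_τ hJJ x) (fun x => L.φ_τ i hJJ hi x) (fun x => L.φ_τ j hJJ hj x) t).symm

end LiftD

end MPadcGP
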