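import Pool.Agent.Lib.MP_adc574_ag_GP.DIc
import Pool.Agent.Lib.MP_adc574_ag_GP.DIc2

/-!
# Deligne-Illusie VI (helper59): the map `Psi` on cochains

`(Psi c) J = ∑ s ∈ J, ± Phi (J ≥ s) (c (J ≤ s))`; `Dt (Psi c) = Psi (del (ic c))`.
-/

set_option autoImplicit false

namespace MPadcGP

universe v w

namespace LiftD

variable {p : ℕ} {n : ℕ} {X : CovD.{0, v} (ZMod p) n} (hp : p.Prime) (L : LiftD.{v, w} p X)

/-- The map on cochains. -/
noncomputable def Psi (c : X.Ch) : X.Ch := fun J =>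
  ∑ s ∈ J, (-1 : ℤ) ^ (((J.filter (· ≤ s)).card + 1) * ((J.filter (s ≤ ·)).card + 1)) •
    L.Phi hp J (J.filter (s ≤ ·)) (X.ev c (J.filter (· ≤ s)) J)

variable {hp L}

theorem Psi_apply (c : X.Ch) (J : Finset (Fin n)) : L.Psi hp c J =
    ∑ s ∈ J, (-1 : ℤ) ^ (((J.filter (· ≤ s)).card + 1) * ((J.filter (s ≤ ·)).card + 1)) •
      L.Phi hp J (J.filter (s ≤ ·)) (X.ev c (J.filter (· ≤ s)) J) := rfl

theorem hom_ev {m : ℕ} {c : X.Ch} (hc : c ∈ X.Tt m) (K J : Finset (Fin n)) :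
    ∃ a, X.ev c K J ∈ Fd (ZMod p) (X.R J) a := by
  rcases Nat.lt_or_ge (m + 1) K.card with h1 | h1
  · refine ⟨0, ?_⟩
    rw [CovD.ev_eq_zero ((hc.2 K).2 h1)]
    exact Submodule.zero_mem _
  · exact ⟨m + 1 - K.card, CovD.ev_mem ((hc.2 K).1 _ (by omega)) J⟩

theorem ge_nonempty {J : Finset (Fin n)} {s : Fin n} (hs : s ∈ J) : (J.filter (s ≤ ·)).Nonempty :=
  ⟨s, Finset.mem_filter.2 ⟨hs, le_rfl⟩⟩

theorem Psi_mem {m : ℕ} {c : X.Ch} (hc : c ∈ X.Tt m) : L.Psi hp c ∈ X.Tt m := by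
  refine ⟨by rw [Psi_apply, Finset.sum_empty], fun J => ⟨fun q hq => ?_, fun h => ?_⟩⟩
  · rw [Psi_apply]
    refine Submodule.sum_mem _ fun s hs => zsmul_mem ?_ _
    have h1 := card_cuts hs
    rcases Nat.lt_or_ge (m + 1) (J.filter (· ≤ s)).card with h2 | h2
    · rw [CovD.ev_eq_zero ((hc.2 _).2 h2), map_zero]
      exact Submodule.zero_mem _
    · have h3 := CovD.ev_mem ((hc.2 (J.filter (· ≤ s))).1 (m + 1 - (J.filter (· ≤ s)).card)
        (by omega)) J
      exact Phi_mem (Finset.filter_subset _ _) (ge_nonempty hs) (by omega) h3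
  · rw [Psi_apply]
    refine Finset.sum_eq_zero fun s hs => ?_
    have h1 := card_cuts hs
    rcases Nat.lt_or_ge (m + 1) (J.filter (· ≤ s)).card with h2 | h2
    · rw [CovD.ev_eq_zero ((hc.2 _).2 h2), map_zero, smul_zero]
    · have h3 := CovD.ev_mem ((hc.2 (J.filter (· ≤ s))).1 (m + 1 - (J.filter (· ≤ s)).card)
        (by omega)) J
      rw [Phi_big (by omega) h3, smul_zero]

theorem Dt_Psi {m : ℕ} {c : X.Ch} (hc : c ∈ X.Tt m) :
    X.Dt (L.Psi hp c) = L.Psi hp (X.del (X.ic c)) := by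
  funext J
  have e1 : X.Dt (L.Psi hp c) J = dd (ZMod p) (L.Psi hp c J) + X.del (X.ic (L.Psi hp c)) J := rfl
  have e2 : X.del (X.ic (L.Psi hp c)) J = ∑ j ∈ J, sg j J • ∑ s ∈ J.erase j,
      inv (ZMod p) ((-1 : ℤ) ^ ((((J.erase j).filter (· ≤ s)).card + 1) *
        (((J.erase j).filter (s ≤ ·)).card + 1)) •
        L.Phi hp J ((J.erase j).filter (s ≤ ·)) (X.ev c ((J.erase j).filter (· ≤ s)) J)) := by
    rw [CovD.del_apply]
    refine Finset.sum_congr rfl fun j _ => ?_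
    rw [CovD.ev_ic, CovD.ev_of (Finset.erase_subset j J), Psi_apply, map_sum, map_sum]
    congr 1
    refine Finset.sum_congr rfl fun s hs => ?_
    obtain ⟨a, ha⟩ := hom_ev hc ((J.erase j).filter (· ≤ s)) (J.erase j)
    rw [map_zsmul, Phi_natural (Finset.erase_subset j J) ⟨s, hs⟩ (Finset.filter_subset _ _) ha,
      CovD.rs_ev (Finset.filter_subset _ _) (Finset.erase_subset j J)]
  rw [e1, e2, bd_cuts (fun A U => inv (ZMod p) ((-1 : ℤ) ^ ((A.card + 1) * (U.card + 1)) •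
    L.Phi hp J U (X.ev c A J))) J]
  · rw [Psi_apply, Psi_apply, map_sum, ← Finset.sum_add_distrib]
    refine Finset.sum_congr rfl fun s hs => ?_
    have hb := card_le hs
    obtain ⟨a, ha⟩ := hom_ev hc (J.filter (· ≤ s)) J
    have hU : J.filter (s ≤ ·) ⊆ J := Finset.filter_subset _ _
    have t1 : bd (fun A => inv (ZMod p) ((-1 : ℤ) ^ ((A.card + 1) * ((J.filter (s ≤ ·)).card + 1)) •
        L.Phi hp J (J.filter (s ≤ ·)) (X.ev c A J))) (J.filter (· ≤ s)) =
        (-1 : ℤ) ^ (((J.filter (· ≤ s)).card + 1) * ((J.filter (s ≤ ·)).card + 1)) •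
          L.Phi hp J (J.filter (s ≤ ·)) (X.ev (X.del (X.ic c)) (J.filter (· ≤ s)) J) := by
      rw [CovD.ev_del (Finset.filter_subset _ _), map_sum, Finset.smul_sum]
      unfold bd
      refine Finset.sum_congr rfl fun j hj => ?_
      have hj1 := Finset.card_erase_add_one hj
      obtain ⟨a', ha'⟩ := hom_ev hc ((J.filter (· ≤ s)).erase j) J
      beta_reduce
      rw [map_zsmul, map_zsmul, Phi_inv hU (ge_nonempty hs) ha', CovD.ev_ic, hj1, smul_smul, smul_smul,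
        smul_smul]
      congr 1
      rw [add_mul, one_mul, pow_add]
      ring
    have t2 : bd (fun U => inv (ZMod p) ((-1 : ℤ) ^ (((J.filter (· ≤ s)).card + 1) * (U.card + 1)) •
        L.Phi hp J U (X.ev c (J.filter (· ≤ s)) J))) (J.filter (s ≤ ·)) =
        (-1 : ℤ) ^ (((J.filter (· ≤ s)).card + 1) * (J.filter (s ≤ ·)).card) •
          -dd (ZMod p) (L.Phi hp J (J.filter (s ≤ ·)) (X.ev c (J.filter (· ≤ s)) J)) := by
      have h1 := Phi_cocycle (L := L) (hp := hp) hU ha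
      rw [← eq_neg_of_add_eq_zero_right h1]
      unfold bd
      rw [Finset.smul_sum]
      refine Finset.sum_congr rfl fun j hj => ?_
      have hj1 := Finset.card_erase_add_one hj
      beta_reduce
      rw [map_zsmul, hj1, smul_comm]
    rw [t1, t2, map_zsmul, smul_neg, smul_neg, smul_smul, ← pow_add]
    have h5 : (-1 : ℤ) ^ ((J.filter (· < s)).card + ((J.filter (· ≤ s)).card + 1) * (J.filter (s ≤ ·)).card) =
        (-1 : ℤ) ^ (((J.filter (· ≤ s)).card + 1) * ((J.filter (s ≤ ·)).card + 1)) := by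
      rw [hb, mul_add, mul_one, pow_add, pow_add, pow_add _ _ (1 + 1)]
      norm_num
      ring
    rw [h5]
    abel
  · rw [CovD.ev_eq_zero hc.1, map_zero, smul_zero, map_zero]
  · obtain ⟨a, ha⟩ := hom_ev hc J J
    rw [Phi_empty ha, smul_zero, map_zero]

end LiftD

end MPadcGP
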