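import Pool.Agent.Lib.MP_adc574_ag_GP.DIc2
import Pool.Agent.Lib.MP_adc574_ag_GP.Fil

/-!
# Deligne-Illusie VII (helper59): degeneration of the conjugate spectral sequence

`IsCart p R`: the Cartier isomorphism for `R`. `surj_gr`: for a cover of smooth rings over `ℤ/p` with a flat lift modulo `p²`
and lifts of the Frobenius, whose forms of degree at least `p` vanish, every cocycle of a graded piece of the conjugate
filtration lifts to a cocycle.
-/

set_option autoImplicit false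

namespace MPadcGP

universe v w

/-- The Cartier isomorphism. -/
def IsCart (p : ℕ) (R : Type v) [CommRing R] [Algebra (ZMod p) R] : Prop :=
  ∀ F : Fm (ZMod p) R →+* Fm (ZMod p) R, (∀ r, F (fz (ZMod p) r) = fz (ZMod p) (r ^ p)) →
    (∀ t, ∃ u, F (df (ZMod p) t) = fz (ZMod p) (t ^ (p - 1)) * df (ZMod p) t + df (ZMod p) u) →
    (∀ e ∈ Fd (ZMod p) R 0, F e = 0 → e = 0) ∧
    (∀ q, ∀ e ∈ Fd (ZMod p) R (q + 1), (∃ b ∈ Fd (ZMod p) R q, F e = dd (ZMod p) b) → e = 0) ∧
    (∀ x ∈ Fd (ZMod p) R 0, dd (ZMod p) x = 0 → ∃ e ∈ Fd (ZMod p) R 0, x = F e) ∧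
    (∀ q, ∀ x ∈ Fd (ZMod p) R (q + 1), dd (ZMod p) x = 0 →
      ∃ e ∈ Fd (ZMod p) R (q + 1), ∃ b ∈ Fd (ZMod p) R q, x = F e + dd (ZMod p) b)

/-- The steps of the conjugate filtration. -/
noncomputable def NN {p n : ℕ} (X : CovD.{0, v} (ZMod p) n) : ℕ → ℕ → Submodule (ZMod p) X.Ch
  | 0 => fun _ => ⊥
  | j + 1 => X.Ni j

namespace LiftD

variable {p : ℕ} {n : ℕ} {X : CovD.{0, v} (ZMod p) n} (hp : p.Prime) (L : LiftD.{v, w} p X)

theorem exists_F {J : Finset (Fin n)} {i : Fin n} (hi : i ∈ J) :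
    ∃ F : X.E J →+* X.E J, (∀ r, F (fz (ZMod p) r) = fz (ZMod p) (r ^ p)) ∧
      (∀ t, F (df (ZMod p) t) = th (ZMod p) p (L.π J) (L.φ i J) t) ∧
      ∀ w : Ω[X.R J⁄ZMod p], F (ExteriorAlgebra.ι (X.R J) w) = ofTw (L.f hp J i w) := by
  have hfl := L.flat J ⟨i, hi⟩
  have hfr := L.fr i J hi
  obtain ⟨F, hF1, hF2⟩ := exists_hom (A := ZMod p) (R := X.R J) (E := X.E J)
    ((fz (ZMod p)).comp (frz hp (X.R J))) (fun r x => fz_comm _ _)
    { toFun := fun t => th (ZMod p) p (L.π J) (L.φ i J) t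
      map_zero' := th_zero _ hp hfl hfr
      map_add' := fun s t => th_add _ hp hfl hfr s t }
    (fun r t => th_mul _ hp hfl hfr r t)
    (fun a => by
      obtain ⟨m, hm⟩ := algebraMap_eq_natCast (R := X.R J) hp a
      rw [hm]
      exact th_natCast _ hp hfl hfr m)
    (fun s t => by
      have h1 := swap_one (th_mem (ZMod p) hp hfl hfr s) (th_mem (ZMod p) hp hfl hfr t)
      exact (congrArg (· + _) h1).trans (neg_add_cancel _))
    (fun s => sq_one (th_mem (ZMod p) hp hfl hfr s))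
  refine ⟨F, hF1, hF2, fun w => ?_⟩
  induction w using om_ind with
  | h0 =>
    rw [map_zero, map_zero, map_zero]
    rfl
  | h1 r t =>
    have h3 : (ExteriorAlgebra.ι (X.R J) (r • KaehlerDifferential.D (ZMod p) (X.R J) t) : X.E J) =
        fz (ZMod p) r * df (ZMod p) t := by
      rw [map_smul, fz_smul]
      rfl
    rw [h3, map_mul, hF1, map_smul, ofTw_smul, f_D hi]
    exact congrArg _ (hF2 t)
  | h2 x y hx hy => rw [map_add, map_add, map_add, ofTw_add, hx, hy]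

variable {hp L}

/-- The Cartier isomorphism for the operators `Phi J {i}`. -/
theorem cart (hC : ∀ J : Finset (Fin n), J.Nonempty → IsCart p (X.R J))
    (hd : ∀ J : Finset (Fin n), J.Nonempty → ∀ q, p ≤ q → ∀ e ∈ Fd (ZMod p) (X.R J) q, e = 0)
    {J : Finset (Fin n)} {i : Fin n} (hi : i ∈ J) :
    (∀ e ∈ Fd (ZMod p) (X.R J) 0, L.Phi hp J {i} e = 0 → e = 0) ∧
    (∀ q, ∀ e ∈ Fd (ZMod p) (X.R J) (q + 1),
      (∃ b ∈ Fd (ZMod p) (X.R J) q, L.Phi hp J {i} e = dd (ZMod p) b) → e = 0) ∧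
    (∀ x ∈ Fd (ZMod p) (X.R J) 0, dd (ZMod p) x = 0 →
      ∃ e ∈ Fd (ZMod p) (X.R J) 0, x = L.Phi hp J {i} e) ∧
    (∀ q, ∀ x ∈ Fd (ZMod p) (X.R J) (q + 1), dd (ZMod p) x = 0 →
      ∃ e ∈ Fd (ZMod p) (X.R J) (q + 1), ∃ b ∈ Fd (ZMod p) (X.R J) q,
        x = L.Phi hp J {i} e + dd (ZMod p) b) := by
  have hJ : J.Nonempty := ⟨i, hi⟩
  obtain ⟨F, hF1, hF2, hF3⟩ := exists_F hp L hi
  have hP : ∀ a, a < p → ∀ e ∈ Fd (ZMod p) (X.R J) a, L.Phi hp J {i} e = F e := fun a ha e he =>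
    Ph_single p hp p_zero_of_algebra hF1 hF3 ha he
  obtain ⟨c1, c2, c3, c4⟩ := hC J hJ F hF1 (fun t => by
    obtain ⟨u, hu⟩ := exists_th (ZMod p) hp (L.flat J hJ) (L.fr i J hi) t
    exact ⟨u, (hF2 t).trans hu⟩)
  refine ⟨fun e he h0 => c1 e he ?_, fun q e he h0 => ?_, fun x hx h0 => ?_, fun q x hx h0 => ?_⟩
  · rw [← hP 0 hp.pos e he, h0]
  · rcases Nat.lt_or_ge (q + 1) p with hq | hq
    · refine c2 q e he ?_
      rw [← hP _ hq e he]
      exact h0
    · exact hd J hJ _ hq e he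
  · obtain ⟨e, he, h1⟩ := c3 x hx h0
    exact ⟨e, he, by rw [hP 0 hp.pos e he, h1]⟩
  · rcases Nat.lt_or_ge (q + 1) p with hq | hq
    · obtain ⟨e, he, b, hb, h1⟩ := c4 q x hx h0
      exact ⟨e, he, b, hb, by rw [hP _ hq e he, h1]⟩
    · refine ⟨0, Submodule.zero_mem _, 0, Submodule.zero_mem _, ?_⟩
      rw [hd J hJ _ hq x hx, map_zero, map_zero, add_zero]

theorem vertex_lt {J : Finset (Fin n)} {i i' : Fin n} (hi : i ∈ J) (hi' : i' ∈ J) (h : i < i') {a : ℕ}
    {e : X.E J} (he : e ∈ Fd (ZMod p) (X.R J) a) :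
    dd (ZMod p) (L.Phi hp J {i, i'} e) + (inv (ZMod p) (L.Phi hp J {i'} e) -
      inv (ZMod p) (L.Phi hp J {i} e)) = 0 := by
  have hK : ({i, i'} : Finset (Fin n)) = insert i' (insert i ∅) := by
    rw [Finset.pair_comm]
    rfl
  have hs : ({i, i'} : Finset (Fin n)) ⊆ J := by
    intro x hx
    rcases Finset.mem_insert.1 hx with rfl | hx
    · exact hi
    · rw [Finset.mem_singleton.1 hx]
      exact hi'
  have h1 := Phi_cocycle (L := L) (hp := hp) hs he
  have h2 : bd (fun U => inv (ZMod p) (L.Phi hp J U e)) {i, i'} =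
      inv (ZMod p) (L.Phi hp J {i'} e) - inv (ZMod p) (L.Phi hp J {i} e) := by
    rw [hK, bd_insert _ (K := insert i ∅) (m := i') (fun x hx => by
      rw [Finset.insert_empty, Finset.mem_singleton] at hx
      rw [hx]
      exact h), bd_insert _ (K := ∅) (m := i) (fun x hx => absurd hx (Finset.notMem_empty x)),
      bd_empty, add_zero, Finset.card_empty, pow_zero, one_smul, Finset.insert_empty,
      Finset.card_singleton, pow_one, neg_one_smul]
    rw [Finset.insert_empty]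
    abel
  rw [← h2]
  exact h1

theorem vertex_zero {J : Finset (Fin n)} {i i' : Fin n} (hi : i ∈ J) (hi' : i' ∈ J)
    {e : X.E J} (he : e ∈ Fd (ZMod p) (X.R J) 0) : L.Phi hp J {i} e = L.Phi hp J {i'} e := by
  have key : ∀ i i' : Fin n, i ∈ J → i' ∈ J → i < i' → L.Phi hp J {i} e = L.Phi hp J {i'} e := by
    intro i i' hi hi' h
    have h1 := vertex_lt (L := L) (hp := hp) hi hi' h he
    rw [Phi_big (a := 0) (by rw [Finset.card_pair h.ne]; norm_num) he, map_zero, zero_add,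
      inv_zero_mem (Phi_mem (Finset.singleton_subset_iff.2 hi') ⟨i', Finset.mem_singleton_self _⟩
        (by rw [Finset.card_singleton]) he),
      inv_zero_mem (Phi_mem (Finset.singleton_subset_iff.2 hi) ⟨i, Finset.mem_singleton_self _⟩
        (by rw [Finset.card_singleton]) he)] at h1
    exact (sub_eq_zero.1 h1).symm
  rcases lt_trichotomy i i' with h | rfl | h
  · exact key i i' hi hi' h
  · rfl
  · exact (key i' i hi' hi h).symm

theorem vertex_succ {J : Finset (Fin n)} {i i' : Fin n} (hi : i ∈ J) (hi' : i' ∈ J) {q : ℕ}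
    {e : X.E J} (he : e ∈ Fd (ZMod p) (X.R J) (q + 1)) :
    ∃ b ∈ Fd (ZMod p) (X.R J) q, L.Phi hp J {i} e = L.Phi hp J {i'} e + dd (ZMod p) b := by
  have key : ∀ i i' : Fin n, i ∈ J → i' ∈ J → i < i' →
      ∃ b ∈ Fd (ZMod p) (X.R J) q, L.Phi hp J {i} e = L.Phi hp J {i'} e + dd (ZMod p) b := by
    intro i i' hi hi' h
    have h1 := vertex_lt (L := L) (hp := hp) hi hi' h he
    have hs : ({i, i'} : Finset (Fin n)) ⊆ J := by
      intro x hx
      rcases Finset.mem_insert.1 hx with rfl | hx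
      · exact hi
      · rw [Finset.mem_singleton.1 hx]
        exact hi'
    have m0 := Phi_mem (L := L) (hp := hp) (q := q) hs ⟨i, Finset.mem_insert_self _ _⟩
      (by rw [Finset.card_pair h.ne]) he
    have m1 := Phi_mem (L := L) (hp := hp) (q := q + 1) (Finset.singleton_subset_iff.2 hi)
      ⟨i, Finset.mem_singleton_self _⟩ (by rw [Finset.card_singleton]) he
    have m2 := Phi_mem (L := L) (hp := hp) (q := q + 1) (Finset.singleton_subset_iff.2 hi')
      ⟨i', Finset.mem_singleton_self _⟩ (by rw [Finset.card_singleton]) he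
    rw [inv_zsmul _ m1, inv_zsmul _ m2] at h1
    rcases neg_one_pow_eq_or ℤ (q + 1) with hs1 | hs1
    · refine ⟨L.Phi hp J {i, i'} e, m0, ?_⟩
      rw [hs1, one_smul, one_smul] at h1
      rw [eq_neg_of_add_eq_zero_left h1]
      abel
    · refine ⟨-L.Phi hp J {i, i'} e, Submodule.neg_mem _ m0, ?_⟩
      rw [hs1, neg_one_smul, neg_one_smul] at h1
      rw [map_neg, eq_neg_of_add_eq_zero_left h1]
      abel
  rcases lt_trichotomy i i' with h | rfl | h
  · exact key i i' hi hi' h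
  · exact ⟨0, Submodule.zero_mem _, by rw [map_zero, add_zero]⟩
  · obtain ⟨b, hb, h1⟩ := key i' i hi' hi h
    exact ⟨-b, Submodule.neg_mem _ hb, by rw [h1, map_neg]; abel⟩

end LiftD

end MPadcGP
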