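import Pool.Agent.Lib.MP_adc574_ag_GP.DIc3
import Pool.Agent.Lib.MP_adc574_ag_GP.DId

/-!
# Deligne-Illusie VIII (helper59): the main theorem
-/

set_option autoImplicit false

namespace MPadcGP

universe u v w

section EX

variable (A : Type u) (R : Type v) [CommRing A] [CommRing R] [Algebra A R]

/-- The exact forms of degree `a`. -/
noncomputable def EX : ℕ → AddSubgroup (Fm A R)
  | 0 => ⊥
  | q + 1 => (Fd A R q).toAddSubgroup.map (dd A)

variable {A R}

theorem mem_EX_succ {q : ℕ} {x : Fm A R} : x ∈ EX A R (q + 1) ↔ ∃ b ∈ Fd A R q, dd A b = x := Iff.rfl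

theorem mem_EX_zero {x : Fm A R} : x ∈ EX A R 0 ↔ x = 0 := Iff.rfl

theorem inv_mem_EX {a : ℕ} {x : Fm A R} (hx : x ∈ EX A R a) : inv A x ∈ EX A R a := by
  cases a with
  | zero =>
    rw [mem_EX_zero] at hx
    rw [mem_EX_zero, hx, map_zero]
  | succ q =>
    obtain ⟨b, hb, rfl⟩ := mem_EX_succ.1 hx
    exact mem_EX_succ.2 ⟨-inv A b, Submodule.neg_mem _ (inv_mem' hb), by rw [map_neg, inv_dd]⟩

end EX

namespace LiftD

variable {p : ℕ} {n : ℕ} {X : CovD.{0, v} (ZMod p) n} {hp : p.Prime} {L : LiftD.{v, w} p X}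

theorem rs_mem_EX {J K : Finset (Fin n)} (h : J ⊆ K) {a : ℕ} {x : X.E J}
    (hx : x ∈ EX (ZMod p) (X.R J) a) : X.rs h x ∈ EX (ZMod p) (X.R K) a := by
  cases a with
  | zero =>
    rw [mem_EX_zero] at hx
    rw [mem_EX_zero, hx, map_zero]
  | succ q =>
    obtain ⟨b, hb, rfl⟩ := mem_EX_succ.1 hx
    exact mem_EX_succ.2 ⟨X.rs h b, CovD.rs_mem h hb, (CovD.rs_dd h b).symm⟩

theorem vertex {J : Finset (Fin n)} {i i' : Fin n} (hi : i ∈ J) (hi' : i' ∈ J) {a : ℕ}
    {e : X.E J} (he : e ∈ Fd (ZMod p) (X.R J) a) :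
    L.Phi hp J {i} e - L.Phi hp J {i'} e ∈ EX (ZMod p) (X.R J) a := by
  cases a with
  | zero => rw [mem_EX_zero, vertex_zero hi hi' he, sub_self]
  | succ q =>
    obtain ⟨b, hb, h1⟩ := vertex_succ (L := L) (hp := hp) hi hi' he
    exact mem_EX_succ.2 ⟨b, hb, by rw [h1, add_sub_cancel_left]⟩

theorem cart_inj (hC : ∀ J : Finset (Fin n), J.Nonempty → IsCart p (X.R J))
    (hd : ∀ J : Finset (Fin n), J.Nonempty → ∀ q, p ≤ q → ∀ e ∈ Fd (ZMod p) (X.R J) q, e = 0)
    {J : Finset (Fin n)} {i : Fin n} (hi : i ∈ J) {a : ℕ} {e : X.E J}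
    (he : e ∈ Fd (ZMod p) (X.R J) a) (h : L.Phi hp J {i} e ∈ EX (ZMod p) (X.R J) a) : e = 0 := by
  obtain ⟨c1, c2, -, -⟩ := cart (L := L) (hp := hp) hC hd hi
  cases a with
  | zero => exact c1 e he (mem_EX_zero.1 h)
  | succ q =>
    obtain ⟨b, hb, h1⟩ := mem_EX_succ.1 h
    exact c2 q e he ⟨b, hb, h1.symm⟩

theorem cart_surj (hC : ∀ J : Finset (Fin n), J.Nonempty → IsCart p (X.R J))
    (hd : ∀ J : Finset (Fin n), J.Nonempty → ∀ q, p ≤ q → ∀ e ∈ Fd (ZMod p) (X.R J) q, e = 0)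
    {J : Finset (Fin n)} {i : Fin n} (hi : i ∈ J) {a : ℕ} {x : X.E J}
    (hx : x ∈ Fd (ZMod p) (X.R J) a) (h : dd (ZMod p) x = 0) :
    ∃ e ∈ Fd (ZMod p) (X.R J) a, x - L.Phi hp J {i} e ∈ EX (ZMod p) (X.R J) a := by
  obtain ⟨-, -, c3, c4⟩ := cart (L := L) (hp := hp) hC hd hi
  cases a with
  | zero =>
    obtain ⟨e, he, h1⟩ := c3 x hx h
    exact ⟨e, he, by rw [mem_EX_zero, ← h1, sub_self]⟩
  | succ q =>
    obtain ⟨e, he, b, hb, h1⟩ := c4 q x hx h
    exact ⟨e, he, mem_EX_succ.2 ⟨b, hb, by rw [h1, add_sub_cancel_left]⟩⟩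

theorem Psi_zero : L.Psi hp 0 = 0 := by
  funext J
  rw [Psi_apply]
  refine Finset.sum_eq_zero fun s _ => ?_
  rw [CovD.ev_zero_left, map_zero, smul_zero]

theorem Psi_low {a m : ℕ} {c : X.Ch} (hc : ∀ K : Finset (Fin n), K.card + a ≠ m + 1 → c K = 0)
    {J : Finset (Fin n)} (hJ : J.card + a < m + 1) : L.Psi hp c J = 0 := by
  rw [Psi_apply]
  refine Finset.sum_eq_zero fun s hs => ?_
  have h1 := Finset.card_filter_le J (· ≤ s)
  rw [CovD.ev_eq_zero (hc _ (by omega)), map_zero, smul_zero]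

theorem Psi_top {a m : ℕ} {c : X.Ch} (hc : ∀ K : Finset (Fin n), K.card + a ≠ m + 1 → c K = 0)
    {J : Finset (Fin n)} (hJ : J.card + a = m + 1) (h : J.Nonempty) :
    L.Psi hp c J = L.Phi hp J {J.max' h} (c J) := by
  rw [Psi_apply, Finset.sum_eq_single (J.max' h)]
  · have h1 : J.filter (· ≤ J.max' h) = J := by
      rw [Finset.filter_eq_self]
      exact fun x hx => Finset.le_max' _ _ hx
    have h2 : J.filter (J.max' h ≤ ·) = {J.max' h} := by
      ext x
      rw [Finset.mem_filter, Finset.mem_singleton]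
      constructor
      · rintro ⟨hx, hx'⟩
        exact le_antisymm (Finset.le_max' _ _ hx) hx'
      · rintro rfl
        exact ⟨J.max'_mem h, le_rfl⟩
    rw [h1, h2, CovD.ev_self, Finset.card_singleton, mul_comm, pow_mul]
    norm_num
  · intro s hs hne
    have h1 : (J.filter (· ≤ s)).card < J.card := by
      refine Finset.card_lt_card (Finset.filter_ssubset.2 ⟨J.max' h, J.max'_mem h, fun h2 => ?_⟩)
      exact hne (le_antisymm (Finset.le_max' _ _ hs) h2)
    rw [CovD.ev_eq_zero (hc _ (by omega)), map_zero, smul_zero]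
  · exact fun h1 => absurd (J.max'_mem h) h1

theorem Psi_mem_Ni {a m : ℕ} {c : X.Ch} (hcT : c ∈ X.Tt m)
    (hcz : ∀ K : Finset (Fin n), K.card + a ≠ m + 1 → c K = 0) : L.Psi hp c ∈ X.Ni a m := by
  have hyT : L.Psi hp c ∈ X.Tt m := Psi_mem hcT
  refine ⟨hyT, fun J => ⟨fun h => Psi_low hcz h, fun h => ?_⟩⟩
  rcases J.eq_empty_or_nonempty with rfl | hJn
  · rw [hyT.1, map_zero]
  · have hcd := (hcT.2 J).1 a (by omega)
    rw [Psi_top hcz h hJn]
    have h1 := Phi_cocycle (L := L) (hp := hp) (Finset.singleton_subset_iff.2 (J.max'_mem hJn)) hcd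
    have h2 : bd (fun U => inv (ZMod p) (L.Phi hp J U (c J))) {J.max' hJn} = 0 := by
      rw [← Finset.insert_empty, bd_insert _ (K := ∅) (m := J.max' hJn)
        (fun x hx => absurd hx (Finset.notMem_empty x)), bd_empty, add_zero, Phi_empty hcd,
        map_zero, smul_zero]
    rwa [h2, add_zero] at h1

/-- Every cocycle of a graded piece of the conjugate filtration is represented by `Psi c`. -/
theorem exists_rep [Fact p.Prime] (L : LiftD.{v, w} p X)
    (hC : ∀ J : Finset (Fin n), J.Nonempty → IsCart p (X.R J))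
    (hd : ∀ J : Finset (Fin n), J.Nonempty → ∀ q, p ≤ q → ∀ e ∈ Fd (ZMod p) (X.R J) q, e = 0)
    (a m : ℕ) : ∀ x ∈ ZZ X.Dt (NN X a) (NN X (a + 1)) m, ∃ c ∈ X.Tt m,
      (∀ K : Finset (Fin n), K.card + a ≠ m + 1 → c K = 0) ∧ X.del (X.ic c) = 0 ∧
      x - L.Psi hp c ∈ BB X.Dt (NN X a) (NN X (a + 1)) m := by
  rintro x ⟨hx0, hDx0⟩
  have hx : x ∈ X.Ni a m := hx0
  have hDx' : X.Dt x ∈ NN X a (m + 1) := hDx0
  have hDx : ∀ J : Finset (Fin n), J.card + a = m + 2 → X.Dt x J = 0 := by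
    intro J hJ
    cases a with
    | zero =>
      have h1 : X.Dt x = 0 := hDx'
      rw [h1]
      rfl
    | succ q =>
      have h1 : X.Dt x ∈ X.Ni q (m + 1) := hDx'
      exact (h1.2 J).1 (by omega)
  -- the cochain c
  have hsel : ∀ J : Finset (Fin n), ∃ e : X.E J,
      (∀ hJ : J.Nonempty, J.card + a = m + 1 → e ∈ Fd (ZMod p) (X.R J) a ∧
        x J - L.Phi hp J {J.max' hJ} e ∈ EX (ZMod p) (X.R J) a) ∧
      (¬ (J.Nonempty ∧ J.card + a = m + 1) → e = 0) := by
    intro J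
    by_cases hJ : J.Nonempty ∧ J.card + a = m + 1
    · obtain ⟨e, he, h1⟩ := cart_surj (L := L) (hp := hp) hC hd (J.max'_mem hJ.1)
        ((hx.1.2 J).1 a (by omega)) ((hx.2 J).2 hJ.2)
      exact ⟨e, fun _ _ => ⟨he, h1⟩, fun h2 => absurd hJ h2⟩
    · exact ⟨0, fun h1 h2 => absurd ⟨h1, h2⟩ hJ, fun _ => rfl⟩
  choose c hc1 hc2 using hsel
  have hce : c ∅ = 0 := hc2 ∅ (fun h => Finset.not_nonempty_empty h.1)
  have hcz : ∀ K : Finset (Fin n), K.card + a ≠ m + 1 → c K = 0 := fun K hK =>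
    hc2 K fun h => hK h.2
  have hcd : ∀ K : Finset (Fin n), c K ∈ Fd (ZMod p) (X.R K) a := by
    intro K
    by_cases hK : K.Nonempty ∧ K.card + a = m + 1
    · exact (hc1 K hK.1 hK.2).1
    · rw [hc2 K hK]
      exact Submodule.zero_mem _
  have hcT : c ∈ X.Tt m := by
    refine ⟨hce, fun J => ⟨fun q hq => ?_, fun h => hcz J (by omega)⟩⟩
    by_cases hqa : J.card + a = m + 1
    · have h1 : q = a := by omega
      rw [h1]
      exact hcd J
    · rw [hcz J hqa]
      exact Submodule.zero_mem _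
  -- transport
  have htr : ∀ (J K : Finset (Fin n)) (i : Fin n), J ⊆ K → i ∈ K → J.card + a = m + 1 →
      X.ev x J K - L.Phi hp K {i} (X.ev c J K) ∈ EX (ZMod p) (X.R K) a := by
    intro J K i hJK hi hJ
    rcases J.eq_empty_or_nonempty with rfl | hJn
    · rw [CovD.ev_eq_zero hx.1.1, CovD.ev_eq_zero hce, map_zero, sub_zero]
      exact AddSubgroup.zero_mem _
    · have h1 := rs_mem_EX hJK (hc1 J hJn hJ).2
      rw [map_sub, Phi_natural hJK hJn (Finset.singleton_subset_iff.2 (J.max'_mem hJn)) (hcd J),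
        ← CovD.ev_of, ← CovD.ev_of] at h1
      have h2 := vertex (L := L) (hp := hp) (hJK (J.max'_mem hJn)) hi (CovD.ev_mem (hcd J) K)
      have h3 := AddSubgroup.add_mem _ h1 h2
      rwa [sub_add_sub_cancel] at h3
  -- the cocycle condition
  have hdel : X.del (X.ic c) = 0 := by
    funext K
    rcases K.eq_empty_or_nonempty with rfl | hKn
    · rw [CovD.del_apply, Finset.sum_empty]
      rfl
    by_cases hK : K.card + a = m + 2
    · obtain ⟨i, hi⟩ := hKn
      have he : X.del (X.ic c) K ∈ Fd (ZMod p) (X.R K) a := by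
        rw [CovD.del_apply]
        refine Submodule.sum_mem _ fun j _ => zsmul_mem ?_ _
        rw [CovD.ev_ic]
        exact inv_mem' (CovD.ev_mem (hcd _) K)
      refine cart_inj (L := L) (hp := hp) hC hd hi he ?_
      have h1 : X.del (X.ic x) K - L.Phi hp K {i} (X.del (X.ic c) K) ∈ EX (ZMod p) (X.R K) a := by
        rw [CovD.del_apply, CovD.del_apply, map_sum, ← Finset.sum_sub_distrib]
        refine AddSubgroup.sum_mem _ fun j hj => ?_
        have hj1 := Finset.card_erase_add_one hj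
        have h2 := htr (K.erase j) K i (Finset.erase_subset _ _) hi (by omega)
        have h3 := inv_mem_EX h2
        have h4 := Phi_inv (L := L) (hp := hp) (Finset.singleton_subset_iff.2 hi)
          ⟨i, Finset.mem_singleton_self _⟩ (CovD.ev_mem (hcd (K.erase j)) K)
        rw [Finset.card_singleton] at h4
        norm_num at h4
        rw [map_sub, h4] at h3
        rw [map_zsmul, ← smul_sub, CovD.ev_ic, CovD.ev_ic]
        exact AddSubgroup.zsmul_mem _ h3 _
      have h2 : X.del (X.ic x) K ∈ EX (ZMod p) (X.R K) a := by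
        have h3 : X.Dt x K = dd (ZMod p) (x K) + X.del (X.ic x) K := rfl
        rw [hDx K hK] at h3
        have h4 : X.del (X.ic x) K = -dd (ZMod p) (x K) := by
          rw [eq_neg_iff_add_eq_zero, add_comm]
          exact h3.symm
        rw [h4]
        refine AddSubgroup.neg_mem _ ?_
        cases a with
        | zero =>
          rw [(hx.1.2 K).2 (by omega), map_zero]
          exact AddSubgroup.zero_mem _
        | succ q => exact mem_EX_succ.2 ⟨x K, (hx.1.2 K).1 q (by omega), rfl⟩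
      have h3 := AddSubgroup.sub_mem _ h2 h1
      rwa [sub_sub_cancel] at h3
    · rw [CovD.del_apply]
      refine Finset.sum_eq_zero fun j hj => ?_
      have hj1 := Finset.card_erase_add_one hj
      rw [CovD.ev_ic, CovD.ev_eq_zero (hcz _ (by omega)), map_zero, smul_zero]
  have hDy : X.Dt (L.Psi hp c) = 0 := by
    rw [Dt_Psi hcT, hdel, Psi_zero]
  have hyT : L.Psi hp c ∈ X.Tt m := Psi_mem hcT
  refine ⟨c, hcT, hcz, hdel, ?_⟩
  cases a with
  | zero =>
    have h1 : x - L.Psi hp c = 0 := by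
      funext J
      rw [Pi.sub_apply, Pi.zero_apply]
      rcases Nat.lt_trichotomy J.card (m + 1) with h | h | h
      · rw [(hx.2 J).1 (by omega), Psi_low hcz (by omega), sub_zero]
      · have hJn : J.Nonempty := Finset.card_pos.1 (by omega)
        rw [Psi_top hcz (by omega) hJn]
        exact mem_EX_zero.1 (hc1 J hJn (by omega)).2
      · rw [(hx.1.2 J).2 h, (hyT.2 J).2 h, sub_zero]
    rw [h1]
    exact Submodule.zero_mem _
  | succ q =>
    have hselb : ∀ J : Finset (Fin n), ∃ b : X.E J,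
        (J.Nonempty ∧ J.card + (q + 1) = m + 1 → b ∈ Fd (ZMod p) (X.R J) q ∧
          dd (ZMod p) b = x J - L.Psi hp c J) ∧
        (¬ (J.Nonempty ∧ J.card + (q + 1) = m + 1) → b = 0) := by
      intro J
      by_cases hJ : J.Nonempty ∧ J.card + (q + 1) = m + 1
      · obtain ⟨b, hb, h1⟩ := mem_EX_succ.1 (hc1 J hJ.1 hJ.2).2
        exact ⟨b, fun _ => ⟨hb, by rw [h1, Psi_top hcz hJ.2 hJ.1]⟩, fun h2 => absurd hJ h2⟩
      · exact ⟨0, fun h1 => absurd h1 hJ, fun _ => rfl⟩
    choose z hz1 hz2 using hselb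
    have hze : z ∅ = 0 := hz2 ∅ (fun h => Finset.not_nonempty_empty h.1)
    have hzz : ∀ K : Finset (Fin n), K.card + (q + 1) ≠ m + 1 → z K = 0 := fun K hK =>
      hz2 K fun h => hK h.2
    have hzd : ∀ K : Finset (Fin n), z K ∈ Fd (ZMod p) (X.R K) q := by
      intro K
      by_cases hK : K.Nonempty ∧ K.card + (q + 1) = m + 1
      · exact (hz1 K hK).1
      · rw [hz2 K hK]
        exact Submodule.zero_mem _
    have hzpr : z ∈ pr (NN X (q + 1 + 1)) m := by
      cases m with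
      | zero =>
        have h1 : z = 0 := by
          funext K
          rw [Pi.zero_apply]
          rcases K.eq_empty_or_nonempty with rfl | hKn
          · exact hze
          · have := Finset.card_pos.2 hKn
            exact hzz K (by omega)
        rw [h1]
        exact Submodule.zero_mem _
      | succ m' =>
        change z ∈ X.Ni (q + 1) m'
        refine ⟨⟨hze, fun J => ⟨fun q' hq' => ?_, fun h => hzz J (by omega)⟩⟩,
          fun J => ⟨fun h => hzz J (by omega), fun h => by rw [hzz J (by omega), map_zero]⟩⟩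
        by_cases hqq : q' = q
        · rw [hqq]
          exact hzd J
        · rw [hzz J (by omega)]
          exact Submodule.zero_mem _
    have hDzT : X.Dt z ∈ X.Tt m := by
      cases m with
      | zero =>
        have h1 : z = 0 := hzpr
        rw [h1, map_zero]
        exact Submodule.zero_mem _
      | succ m' =>
        have h1 : z ∈ X.Ni (q + 1) m' := hzpr
        exact CovD.Dt_mem h1.1
    have hlow : ∀ J : Finset (Fin n), J.card + q < m + 1 → (x - L.Psi hp c - X.Dt z) J = 0 := by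
      intro J hJ
      have h1 : X.Dt z J = dd (ZMod p) (z J) := by
        have h2 : X.Dt z J = dd (ZMod p) (z J) + X.del (X.ic z) J := rfl
        rw [h2, CovD.del_apply, Finset.sum_eq_zero, add_zero]
        intro j hj
        have hj1 := Finset.card_erase_add_one hj
        rw [CovD.ev_ic, CovD.ev_eq_zero (hzz _ (by omega)), map_zero, smul_zero]
      rw [Pi.sub_apply, Pi.sub_apply, h1]
      rcases Nat.lt_or_ge (J.card + (q + 1)) (m + 1) with h2 | h2
      · rw [(hx.2 J).1 h2, Psi_low hcz h2, hzz J (by omega), map_zero, sub_zero, sub_zero]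
      · rcases J.eq_empty_or_nonempty with rfl | hJn
        · rw [hx.1.1, hyT.1, hze, map_zero, sub_zero, sub_zero]
        · rw [(hz1 J ⟨hJn, by omega⟩).2, sub_self]
    refine mem_BB.2 ⟨x - L.Psi hp c - X.Dt z, ?_, z, hzpr, by abel⟩
    change x - L.Psi hp c - X.Dt z ∈ X.Ni q m
    refine ⟨Submodule.sub_mem _ (Submodule.sub_mem _ hx.1 hyT) hDzT,
      fun J => ⟨fun h => hlow J h, fun h => ?_⟩⟩
    have h1 : X.Dt (x - L.Psi hp c - X.Dt z) = X.Dt x := by
      rw [map_sub, map_sub, hDy, CovD.Dt_Dt, sub_zero, sub_zero]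
    have h2 : X.Dt (x - L.Psi hp c - X.Dt z) J = dd (ZMod p) ((x - L.Psi hp c - X.Dt z) J) +
        X.del (X.ic (x - L.Psi hp c - X.Dt z)) J := rfl
    rw [h1, hDx J (by omega), CovD.del_apply, Finset.sum_eq_zero, add_zero] at h2
    · exact h2.symm
    · intro j hj
      have hj1 := Finset.card_erase_add_one hj
      rw [CovD.ev_ic, CovD.ev_eq_zero (hlow _ (by omega)), map_zero, smul_zero]

/-- The theorem of Deligne and Illusie: every cocycle of a graded piece of the conjugate filtration lifts. -/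
theorem surj_gr [Fact p.Prime] (L : LiftD.{v, w} p X)
    (hC : ∀ J : Finset (Fin n), J.Nonempty → IsCart p (X.R J))
    (hd : ∀ J : Finset (Fin n), J.Nonempty → ∀ q, p ≤ q → ∀ e ∈ Fd (ZMod p) (X.R J) q, e = 0)
    (a m : ℕ) : ∀ x ∈ ZZ X.Dt (NN X a) (NN X (a + 1)) m, ∃ y ∈ ZZ X.Dt (NN X 0) (NN X (a + 1)) m,
      x - y ∈ BB X.Dt (NN X a) (NN X (a + 1)) m := by
  have hp : p.Prime := Fact.out
  intro x hx
  obtain ⟨c, hcT, hcz, hdel, h1⟩ := exists_rep (hp := hp) L hC hd a m x hx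
  refine ⟨L.Psi hp c, ⟨Psi_mem_Ni hcT hcz, ?_⟩, h1⟩
  change X.Dt (L.Psi hp c) ∈ NN X 0 (m + 1)
  rw [Dt_Psi hcT, hdel, Psi_zero]
  exact Submodule.zero_mem _

end LiftD

end MPadcGP
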