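import Pool.Agent.Lib.MP_adc574_ag_GP.DIL
import Pool.Agent.Lib.MP_adc574_ag_GP.Mod4
import Pool.Agent.Lib.MP_adc574_ag_GP.Mod3

/-!
# Deligne-Illusie (helper24): existence of the lifting data
-/

set_option autoImplicit false

namespace MPadcGP

open MvPolynomial TensorProduct

universe u v w

section Gen

/-- the kernel of the reduction -/
theorem mem_of_one_tmul {A : Type u} {B : Type v} {R : Type w} [CommRing A] [CommRing B] [CommRing R]
    [Algebra A B] [Algebra A R] (hs : Function.Surjective (algebraMap A B)) {x : R}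
    (hx : (1 : B) ⊗ₜ[A] x = 0) : x ∈ (RingHom.ker (algebraMap A B)).map (algebraMap A R) := by
  have h1 := Algebra.TensorProduct.rTensor_ker (R := A) (S := A) (A := A) (B := B) (C := R) (Algebra.ofId A B) hs
  have h2 : (1 : A) ⊗ₜ[A] x ∈ RingHom.ker (Algebra.TensorProduct.map (Algebra.ofId A B) (AlgHom.id A R)) := by
    rw [RingHom.mem_ker, Algebra.TensorProduct.map_tmul, map_one]
    exact hx
  rw [h1] at h2
  have h3 : (RingHom.ker (Algebra.ofId A B)).map (Algebra.TensorProduct.includeLeft : A →ₐ[A] A ⊗[A] R) ≤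
      ((RingHom.ker (algebraMap A B)).map (algebraMap A R)).comap (Algebra.TensorProduct.lid A R) := by
    rw [Ideal.map_le_iff_le_comap]
    intro a ha
    rw [Ideal.mem_comap, Ideal.mem_comap]
    have h5 : Algebra.TensorProduct.lid A R ((Algebra.TensorProduct.includeLeft : A →ₐ[A] A ⊗[A] R) a) =
        algebraMap A R a := by
      change Algebra.TensorProduct.lid A R (a ⊗ₜ 1) = _
      rw [Algebra.TensorProduct.lid_tmul, Algebra.smul_def, mul_one]
    rw [h5]
    exact Ideal.mem_map_of_mem _ ha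
  have h4 := h3 h2
  rw [Ideal.mem_comap, Algebra.TensorProduct.lid_tmul, one_smul] at h4
  exact h4

/-- multiplication by `p` on a flat `ℤ/p²`-algebra -/
theorem flat_zmod_sq {p : ℕ} (hp : p.Prime) {R : Type w} [CommRing R] [Algebra (ZMod (p ^ 2)) R]
    [Module.Flat (ZMod (p ^ 2)) R] {x : R} (hx : (p : R) * x = 0) : ∃ y, x = (p : R) * y := by
  have hne : NeZero (p ^ 2) := ⟨pow_ne_zero 2 hp.ne_zero⟩
  have h1 : ∑ i : Fin 1, (fun _ => ((p : ℕ) : ZMod (p ^ 2))) i • (fun _ => x) i = 0 := by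
    rw [Fin.sum_univ_one, Algebra.smul_def, map_natCast]
    exact hx
  obtain ⟨k, a, y, h2, h3⟩ := Module.Flat.isTrivialRelation_of_sum_smul_eq_zero (R := ZMod (p ^ 2)) (M := R)
    (f := fun _ : Fin 1 => ((p : ℕ) : ZMod (p ^ 2))) (x := fun _ => x) h1
  have h4 : ∀ j, ∃ b : ZMod (p ^ 2), a 0 j = (p : ZMod (p ^ 2)) * b := by
    intro j
    have h5 := h3 j
    rw [Fin.sum_univ_one] at h5
    have h6 : ((p * (a 0 j).val : ℕ) : ZMod (p ^ 2)) = 0 := by
      rw [Nat.cast_mul, ZMod.natCast_val, ZMod.cast_id', id]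
      exact h5
    rw [ZMod.natCast_eq_zero_iff] at h6
    have h8 : p * p ∣ p * (a 0 j).val := by
      have h9 : p * p = p ^ 2 := (pow_two p).symm
      rw [h9]
      exact h6
    obtain ⟨b, hb⟩ := Nat.dvd_of_mul_dvd_mul_left hp.pos h8
    refine ⟨b, ?_⟩
    have h7 : ((a 0 j).val : ZMod (p ^ 2)) = a 0 j := by rw [ZMod.natCast_val, ZMod.cast_id', id]
    rw [← h7, hb, Nat.cast_mul]
  choose b hb using h4
  refine ⟨∑ j, b j • y j, ?_⟩
  have h5 := h2 0
  simp only at h5
  rw [h5, Finset.mul_sum]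
  refine Finset.sum_congr rfl fun j _ => ?_
  rw [hb, Algebra.smul_def, Algebra.smul_def, map_mul, map_natCast, mul_assoc]

variable {p : ℕ} {S : Type v} {R : Type w} [CommRing S] [CommRing R] {π : S →+* R}

theorem FlatLift.natCast_zero (h : FlatLift p π) : (p : R) = 0 := by
  have h1 : π ((p : S) * 1) = 0 := (h.ker _).2 ⟨1, rfl⟩
  rw [mul_one, map_natCast] at h1
  exact h1

/-- Frobenius on a ring where `p = 0` -/
def die_frb (hp : p.Prime) (h0 : (p : R) = 0) : R →+* R where
  toFun x := x ^ p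
  map_one' := one_pow p
  map_mul' x y := mul_pow x y p
  map_zero' := zero_pow hp.ne_zero
  map_add' x y := dia_add_pow_of_zero hp h0 x y

/-- Lifts of the Frobenius exist on formally smooth algebras over `ℤ/p²`. -/
theorem exists_isFr (hp : p.Prime) [Algebra (ZMod (p ^ 2)) S] [Algebra.FormallySmooth (ZMod (p ^ 2)) S]
    (h : FlatLift p π) : ∃ φ : S →+* S, IsFr p π φ := by
  let _ : Algebra (ZMod (p ^ 2)) R := (π.comp (algebraMap (ZMod (p ^ 2)) S)).toAlgebra
  let f : S →ₐ[ZMod (p ^ 2)] R :=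
    { (die_frb hp h.natCast_zero).comp π with
      commutes' := fun a => by
        have h1 : ((die_frb hp h.natCast_zero).comp π).comp (algebraMap (ZMod (p ^ 2)) S) =
            algebraMap (ZMod (p ^ 2)) R := RingHom.ext_zmod _ _
        exact congrArg (fun q : ZMod (p ^ 2) →+* R => q a) h1 }
  let g : S →ₐ[ZMod (p ^ 2)] R := { π with commutes' := fun a => rfl }
  have hg : Function.Surjective g := h.surj
  have hk : IsNilpotent (RingHom.ker g) := by
    refine ⟨2, ?_⟩
    have h2 : RingHom.ker g ≤ Ideal.span {(p : S)} := by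
      intro x hx
      obtain ⟨y, hy⟩ := (h.ker x).1 hx
      rw [hy]
      exact Ideal.mul_mem_right _ _ (Ideal.subset_span rfl)
    have h3 : RingHom.ker g ^ 2 ≤ Ideal.span {(p : S)} ^ 2 := Ideal.pow_right_mono h2 2
    rw [Ideal.span_singleton_pow] at h3
    have h4 : ((p : S)) ^ 2 = 0 := by
      have h5 : algebraMap (ZMod (p ^ 2)) S ((p ^ 2 : ℕ) : ZMod (p ^ 2)) = ((p ^ 2 : ℕ) : S) := map_natCast _ _
      rw [ZMod.natCast_self, map_zero, Nat.cast_pow] at h5
      exact h5.symm
    rw [h4, Ideal.span_singleton_eq_bot.2 rfl] at h3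
    exact le_bot_iff.1 h3
  refine ⟨(Algebra.FormallySmooth.liftOfSurjective f g hg hk : S →ₐ[ZMod (p ^ 2)] S), fun x => ?_⟩
  exact Algebra.FormallySmooth.liftOfSurjective_apply f g hg hk x

end Gen

section Ext

variable {p : ℕ} {S : Type v} {R : Type w} [CommRing S] [CommRing R] {π : S →+* R}
  {S' : Type v} {R' : Type w} [CommRing S'] [CommRing R'] {π' : S' →+* R'} {τ : S →+* S'} {ρ : R →+* R'}

/-- a lift of a Frobenius maps `f` to a unit, if `f` is a unit -/
theorem isUnit_fr (hπ : FlatLift p π') (hp2 : ((p : S')) ^ 2 = 0) {x y : S'} (hx : IsUnit x)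
    (hy : π' y = π' x ^ p) : IsUnit y := by
  have h1 : π' (y - x ^ p) = 0 := by rw [map_sub, map_pow, hy, sub_self]
  obtain ⟨z, hz⟩ := (hπ.ker _).1 h1
  have h2 : y = x ^ p + (p : S') * z := by rw [← hz]; ring
  rw [h2]
  refine IsNilpotent.isUnit_add_left_of_commute ⟨2, ?_⟩ (hx.pow p) (mul_comm _ _)
  rw [mul_pow, hp2, zero_mul]

/-- a lift of the Frobenius extends to a localization -/
theorem exists_fr_ext (hp : p.Prime) (h' : FlatLift p π') (hp2 : ((p : S')) ^ 2 = 0) (f : S)
    (hloc : letI := τ.toAlgebra; IsLocalization.Away f S') (hc : ∀ x, π' (τ x) = ρ (π x)) {φ : S →+* S}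
    (hφ : IsFr p π φ) : ∃ φ' : S' →+* S', IsFr p π' φ' ∧ ∀ x, φ' (τ x) = τ (φ x) := by
  let _ := τ.toAlgebra
  have hf : IsUnit (τ f) := IsLocalization.Away.algebraMap_isUnit (S := S') f
  have h1 : IsUnit ((τ.comp φ) f) := by
    refine isUnit_fr h' hp2 hf ?_
    rw [RingHom.comp_apply, hc, hc, hφ, map_pow]
  refine ⟨IsLocalization.Away.lift f h1, ?_, fun x => ?_⟩
  · have h3 : π'.comp (IsLocalization.Away.lift f h1 : S' →+* S') = (die_frb hp h'.natCast_zero).comp π' := by
      refine IsLocalization.ringHom_ext (Submonoid.powers f) ?_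
      ext x
      rw [RingHom.comp_apply, RingHom.comp_apply, IsLocalization.Away.lift_eq f h1, RingHom.comp_apply, RingHom.comp_apply,
        RingHom.comp_apply]
      change π' (τ (φ x)) = π' (τ x) ^ p
      rw [hc, hc, hφ, map_pow]
    exact fun x => congrArg (fun q : S' →+* R' => q x) h3
  · exact IsLocalization.Away.lift_eq f h1 x

end Ext

section Lit

variable {A : Type u} [CommRing A] {B : Type v} [CommRing B] {n : ℕ} (φ : A →+* B)
  {I : Ideal (MvPolynomial (Fin n) A)}

theorem cb_surjective (hφ : Function.Surjective φ) (J : Finset (Fin n)) : Function.Surjective (cb φ I J) := by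
  intro y
  induction y using chart_ind with
  | h1 b =>
    obtain ⟨a, rfl⟩ := hφ b
    exact ⟨_, cb_base φ I J a⟩
  | h2 l m hm => exact ⟨_, cb_cq φ I J l hm⟩
  | h3 x y hx hy =>
    obtain ⟨x, rfl⟩ := hx
    obtain ⟨y, rfl⟩ := hy
    exact ⟨x + y, map_add _ _ _⟩
  | h4 x y hx hy =>
    obtain ⟨x, rfl⟩ := hx
    obtain ⟨y, rfl⟩ := hy
    exact ⟨x * y, map_mul _ _ _⟩

/-- the kernel of the specialization along a surjection -/
theorem cb_ker (hI : IsHomog I) (hφ : Function.Surjective φ) {J : Finset (Fin n)} (hJ : J.Nonempty) (x : chart I J)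
    (hx : cb φ I J x = 0) : x ∈ (RingHom.ker φ).map (algebraMap A (chart I J)) := by
  let _ := φ.toAlgebra
  refine mem_of_one_tmul (B := B) hφ ?_
  apply (bce (B := B) hI hJ).injective
  rw [bce_tmul, map_one, one_mul, map_zero]
  exact hx

/-- the reduction modulo `p` -/
abbrev rd (p : ℕ) : ZMod (p ^ 2) →+* ZMod p := ZMod.castHom (dvd_pow_self p two_ne_zero) (ZMod p)

theorem flatLift_cb {p : ℕ} (hp : p.Prime) {I : Ideal (MvPolynomial (Fin n) (ZMod (p ^ 2)))} (hI : IsHomog I)
    (hs : IsSmoothProj I) {J : Finset (Fin n)} (hJ : J.Nonempty) : FlatLift p (cb (rd p) I J) where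
  surj := cb_surjective _ (ZMod.castHom_surjective _) J
  sq := by
    have h5 : algebraMap (ZMod (p ^ 2)) (chart I J) ((p ^ 2 : ℕ) : ZMod (p ^ 2)) = ((p ^ 2 : ℕ) : chart I J) :=
      map_natCast _ _
    rw [ZMod.natCast_self, map_zero] at h5
    rw [← pow_two, ← Nat.cast_pow]
    exact h5.symm
  ker x := by
    constructor
    · intro hx
      have h1 := cb_ker (rd p) hI (ZMod.castHom_surjective _) hJ x hx
      have h2 : (RingHom.ker (rd p)).map (algebraMap (ZMod (p ^ 2)) (chart I J)) ≤ Ideal.span {((p : ℕ) : chart I J)} := by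
        rw [Ideal.map_le_iff_le_comap]
        intro a ha
        have hne : NeZero (p ^ 2) := ⟨pow_ne_zero 2 hp.ne_zero⟩
        have h3 : ((a.val : ℕ) : ZMod p) = 0 := by
          have h4 : rd p a = 0 := ha
          have h5 : ((a.val : ℕ) : ZMod (p ^ 2)) = a := by rw [ZMod.natCast_val, ZMod.cast_id', id]
          rw [← h5, map_natCast] at h4
          exact h4
        rw [ZMod.natCast_eq_zero_iff] at h3
        obtain ⟨c, hc⟩ := h3
        have h5 : ((a.val : ℕ) : ZMod (p ^ 2)) = a := by rw [ZMod.natCast_val, ZMod.cast_id', id]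
        rw [Ideal.mem_comap, ← h5, hc, Nat.cast_mul, map_mul, map_natCast]
        exact Ideal.mul_mem_right _ _ (Ideal.subset_span rfl)
      exact Ideal.mem_span_singleton.1 (h2 h1)
    · rintro ⟨y, rfl⟩
      have h1 : algebraMap (ZMod p) (chart (bI (rd p) I) J) ((p : ℕ) : ZMod p) = ((p : ℕ) : chart (bI (rd p) I) J) :=
        map_natCast _ _
      rw [ZMod.natCast_self, map_zero] at h1
      rw [map_mul, map_natCast, ← h1, zero_mul]
  flat x hx := by
    have h0 := hs.smooth hI hJ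
    have hne : Fact p.Prime := ⟨hp⟩
    have h1 : Module.Flat (ZMod (p ^ 2)) (chart I J) := inferInstance
    obtain ⟨y, rfl⟩ := flat_zmod_sq hp hx
    have h1 : algebraMap (ZMod p) (chart (bI (rd p) I) J) ((p : ℕ) : ZMod p) = ((p : ℕ) : chart (bI (rd p) I) J) :=
      map_natCast _ _
    rw [ZMod.natCast_self, map_zero] at h1
    rw [map_mul, map_natCast, ← h1, zero_mul]

theorem chart_p_sq {p : ℕ} {I : Ideal (MvPolynomial (Fin n) (ZMod (p ^ 2)))} (J : Finset (Fin n)) :
    ((p : ℕ) : chart I J) ^ 2 = 0 := by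
  have h5 : algebraMap (ZMod (p ^ 2)) (chart I J) ((p ^ 2 : ℕ) : ZMod (p ^ 2)) = ((p ^ 2 : ℕ) : chart I J) :=
    map_natCast _ _
  rw [ZMod.natCast_self, map_zero, Nat.cast_pow] at h5
  exact h5.symm

/-- assembling the lifting data -/
noncomputable def mkLiftD {p : ℕ} (hp : p.Prime) {I : Ideal (MvPolynomial (Fin n) (ZMod (p ^ 2)))} (hI : IsHomog I)
    (hs : IsSmoothProj I) (φ : Fin n → ∀ J : Finset (Fin n), chart I J →+* chart I J)
    (h1 : ∀ i J, i ∈ J → IsFr p (cb (rd p) I J) (φ i J))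
    (h2 : ∀ i {J K : Finset (Fin n)} (h : J ⊆ K), i ∈ J → ∀ x : chart I J, φ i K (tr I h x) = tr I h (φ i J x)) :
    LiftD.{0, 0} p (prC (bI (rd p) I)) where
  S J := chart I J
  cr J := inferInstance
  τ h := (tr I h).toRingHom
  π J := cb (rd p) I J
  φ := φ
  flat _ hJ := flatLift_cb hp hI hs hJ
  π_τ h x := cb_tr (rd p) I h x
  fr i _ hi := h1 i _ hi
  φ_τ i _ _ h hi x := h2 i h hi x

/-- the lift of the Frobenius on a smaller chart -/
theorem exists_phi {p : ℕ} (hp : p.Prime) {I : Ideal (MvPolynomial (Fin n) (ZMod (p ^ 2)))} (hI : IsHomog I)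
    (hs : IsSmoothProj I) (i : Fin n) (φ0 : chart I {i} →+* chart I {i}) (hφ0 : IsFr p (cb (rd p) I {i}) φ0)
    (J : Finset (Fin n)) : ∃ φ : chart I J →+* chart I J, i ∈ J → IsFr p (cb (rd p) I J) φ ∧
      ∀ h : ({i} : Finset (Fin n)) ⊆ J, ∀ x : chart I {i}, φ (tr I h x) = tr I h (φ0 x) := by
  by_cases hi : i ∈ J
  · have hsub : ({i} : Finset (Fin n)) ⊆ J := Finset.singleton_subset_iff.2 hi
    have hloc := tr_isLocalization hI hsub (Finset.mem_singleton_self i)
    obtain ⟨φ, h3, h4⟩ := exists_fr_ext (π := cb (rd p) I {i}) (π' := cb (rd p) I J)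
      (τ := (tr I hsub).toRingHom)
      (ρ := (tr (bI (rd p) I) hsub).toRingHom) hp
      (flatLift_cb hp hI hs ⟨i, hi⟩) (chart_p_sq J)
      (∏ l ∈ J, cq I {i} l (Finset.mem_singleton_self i)) hloc (fun x => cb_tr (rd p) I hsub x) hφ0
    exact ⟨φ, fun _ => ⟨h3, fun _ x => h4 x⟩⟩
  · exact ⟨RingHom.id _, fun h => absurd h hi⟩

/-- two homomorphisms on a chart which agree on the chart of `{i}` -/
theorem tr_hom_ext {A : Type u} [CommRing A] {I : Ideal (MvPolynomial (Fin n) A)} (hI : IsHomog I)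
    {J : Finset (Fin n)} {i : Fin n} (hsub : ({i} : Finset (Fin n)) ⊆ J) {T : Type v} [CommRing T]
    {f g : chart I J →+* T} (h : ∀ y : chart I {i}, f (tr I hsub y) = g (tr I hsub y)) : f = g := by
  have hloc := tr_isLocalization hI hsub (Finset.mem_singleton_self i)
  let _ := (tr I hsub).toRingHom.toAlgebra
  refine IsLocalization.ringHom_ext (Submonoid.powers (∏ l ∈ J, cq I {i} l (Finset.mem_singleton_self i))) ?_
  ext y
  exact h y

/-- The lifting data of a smooth projective scheme over `ℤ/p²`. -/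
theorem exists_liftD {p : ℕ} (hp : p.Prime) {I : Ideal (MvPolynomial (Fin n) (ZMod (p ^ 2)))} (hI : IsHomog I)
    (hs : IsSmoothProj I) : Nonempty (LiftD.{0, 0} p (prC (bI (rd p) I))) := by
  have h1 : ∀ i : Fin n, ∃ φ : chart I {i} →+* chart I {i}, IsFr p (cb (rd p) I {i}) φ := by
    intro i
    have h2 := hs i
    exact exists_isFr hp (flatLift_cb hp hI hs (Finset.singleton_nonempty i))
  choose φ0 hφ0 using h1
  have h2 := fun i => exists_phi hp hI hs i (φ0 i) (hφ0 i)
  choose φ hφ using h2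
  refine ⟨mkLiftD hp hI hs φ (fun i J hi => (hφ i J hi).1) fun i J K h hi x => ?_⟩
  have hsub : ({i} : Finset (Fin n)) ⊆ J := Finset.singleton_subset_iff.2 hi
  have h3 : (φ i K).comp (tr I h).toRingHom = (tr I h).toRingHom.comp (φ i J) := by
    refine tr_hom_ext hI hsub fun y => ?_
    have h4 := (hφ i J hi).2 hsub y
    have h5 := (hφ i K (h hi)).2 (hsub.trans h) y
    change φ i K (tr I h (tr I hsub y)) = tr I h (φ i J (tr I hsub y))
    rw [h4, tr_tr, tr_tr, h5]
  exact congrArg (fun q : chart I J →+* chart I K => q x) h3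

/-- The lifting data of the reduction modulo `p` along a homomorphism `A → ℤ/p²`. -/
theorem exists_liftD_of_hom {p : ℕ} (hp : p.Prime) {A : Type u} [CommRing A] {I : Ideal (MvPolynomial (Fin n) A)}
    (hI : IsHomog I) (φ : A →+* ZMod (p ^ 2)) (hs : IsSmoothProj (bI φ I)) :
    Nonempty (LiftD.{0, 0} p (prC (bI ((rd p).comp φ) I))) := by
  have h := exists_liftD hp (hI.map φ) hs
  rw [bI_bI] at h
  exact h

end Lit

end MPadcGP
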