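import Mathlib

/-!
# The de Rham algebra of a commutative algebra (helper90)

`Fm A R` is the algebra of differential forms of the `A`-algebra `R`: the exterior algebra of
`Ω[R⁄A]`. `fz r` is the function `r`, `df t` the differential of `t`.

* `exists_hom`, `hom_ext'`: the universal property.
* `Tw E τ`: pairs `(e, x)` with `(e, x) (f, y) = (e f, x f + τ e y)`.
* `dd`: the exterior derivative; `LL D`: the Lie derivative; `mp`: functoriality.
-/

set_option autoImplicit false

namespace MPadcGP

universe u v w

section defs

variable (A : Type u) (R : Type v) [CommRing A] [CommRing R] [Algebra A R]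

/-- The algebra of differential forms of `R` over `A`. -/
abbrev Fm := ExteriorAlgebra R (Ω[R⁄A])

variable {R}

/-- Functions. -/
noncomputable def fz : R →+* Fm A R := algebraMap R (Fm A R)

/-- Differentials. -/
noncomputable def df (t : R) : Fm A R := ExteriorAlgebra.ι R (KaehlerDifferential.D A R t)

/-- The grade involution. -/
noncomputable def inv : Fm A R →+* Fm A R :=
  (CliffordAlgebra.involute : Fm A R →ₐ[R] Fm A R).toRingHom

end defs

section basic

variable {A : Type u} {R : Type v} [CommRing A] [CommRing R] [Algebra A R]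

theorem fz_smul (r : R) (e : Fm A R) : r • e = fz A r * e := Algebra.smul_def r e

theorem fz_comm (r : R) (e : Fm A R) : fz A r * e = e * fz A r := Algebra.commutes r e

theorem df_add (s t : R) : df A (s + t) = df A s + df A t := by
  unfold df
  rw [map_add, map_add]

theorem df_mul (s t : R) : df A (s * t) = fz A s * df A t + fz A t * df A s := by
  unfold df
  rw [Derivation.leibniz, map_add, map_smul, map_smul, fz_smul, fz_smul]

theorem df_base (a : A) : df A (algebraMap A R a) = 0 := by
  unfold df
  rw [Derivation.map_algebraMap, map_zero]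

theorem df_zero : df A (0 : R) = 0 := by
  unfold df
  rw [map_zero, map_zero]

theorem df_one : df A (1 : R) = 0 := by
  have h := df_base (A := A) (R := R) 1
  rwa [map_one] at h

theorem df_sq (t : R) : df A t * df A t = 0 := ExteriorAlgebra.ι_sq_zero _

theorem io_swap (x y : Ω[R⁄A]) : (ExteriorAlgebra.ι R x : Fm A R) * ExteriorAlgebra.ι R y =
    -(ExteriorAlgebra.ι R y * ExteriorAlgebra.ι R x) :=
  eq_neg_of_add_eq_zero_left (ExteriorAlgebra.ι_add_mul_swap x y)

theorem df_swap (s t : R) : df A s * df A t = -(df A t * df A s) := io_swap _ _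

theorem inv_fz (r : R) : inv A (fz A r) = fz A r := AlgHom.commutes _ r

theorem inv_io (x : Ω[R⁄A]) : inv A (ExteriorAlgebra.ι R x : Fm A R) = -ExteriorAlgebra.ι R x :=
  CliffordAlgebra.involute_ι x

theorem inv_df (t : R) : inv A (df A t) = -df A t := inv_io _

theorem inv_inv (e : Fm A R) : inv A (inv A e) = e := CliffordAlgebra.involute_involute e

/-- Odd elements commute with everything up to the involution. -/
theorem io_comm (x : Ω[R⁄A]) (e : Fm A R) :
    (ExteriorAlgebra.ι R x : Fm A R) * e = inv A e * ExteriorAlgebra.ι R x := by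
  induction e using ExteriorAlgebra.induction with
  | algebraMap r =>
    rw [show (algebraMap R (ExteriorAlgebra R (Ω[R⁄A])) r) = fz A r from rfl, inv_fz, fz_comm]
  | ι y => rw [inv_io, io_swap, neg_mul]
  | mul a b ha hb => rw [← mul_assoc, ha, mul_assoc, hb, ← mul_assoc, map_mul]
  | add a b ha hb => rw [mul_add, ha, hb, map_add, add_mul]

theorem df_comm (t : R) (e : Fm A R) : df A t * e = inv A e * df A t := io_comm _ e

/-- Induction on forms. -/
theorem fm_ind {P : Fm A R → Prop} (h1 : ∀ r, P (fz A r)) (h2 : ∀ t, P (df A t))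
    (h3 : ∀ a b, P a → P b → P (a * b)) (h4 : ∀ a b, P a → P b → P (a + b)) (e : Fm A R) : P e := by
  induction e using ExteriorAlgebra.induction with
  | algebraMap r => exact h1 r
  | ι x =>
    have hx : x ∈ Submodule.span R (Set.range (KaehlerDifferential.D A R)) := by
      rw [KaehlerDifferential.span_range_derivation]
      exact Submodule.mem_top
    induction hx using Submodule.span_induction with
    | mem x hx =>
      obtain ⟨t, rfl⟩ := hx
      exact h2 t
    | zero =>
      rw [map_zero, ← map_zero (fz A)]
      exact h1 0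
    | add x y _ _ hx hy =>
      rw [map_add]
      exact h4 _ _ hx hy
    | smul r x _ hx =>
      rw [map_smul, fz_smul]
      exact h3 _ _ (h1 r) hx
  | mul a b ha hb => exact h3 a b ha hb
  | add a b ha hb => exact h4 a b ha hb

/-- Two ring homomorphisms which agree on functions and differentials are equal. -/
theorem hom_ext' {E : Type w} [Ring E] {F G : Fm A R →+* E} (h1 : ∀ r, F (fz A r) = G (fz A r))
    (h2 : ∀ t, F (df A t) = G (df A t)) : F = G := by
  ext e
  induction e using fm_ind with
  | h1 r => exact h1 r
  | h2 t => exact h2 t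
  | h3 a b ha hb => rw [map_mul, map_mul, ha, hb]
  | h4 a b ha hb => rw [map_add, map_add, ha, hb]

end basic

section univ

variable {A : Type u} {R : Type v} [CommRing A] [CommRing R] [Algebra A R]

/-- The universal property of the algebra of differential forms. -/
theorem exists_hom {E : Type w} [Ring E] (φ : R →+* E) (hφ : ∀ r x, φ r * x = x * φ r)
    (g : R →+ E) (hg : ∀ r t, g (r * t) = φ r * g t + φ t * g r)
    (hgA : ∀ a : A, g (algebraMap A R a) = 0) (hgg : ∀ s t, g s * g t + g t * g s = 0)
    (hg2 : ∀ s, g s * g s = 0) :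
    ∃ F : Fm A R →+* E, (∀ r, F (fz A r) = φ r) ∧ ∀ t, F (df A t) = g t := by
  let _ : Algebra R E := φ.toAlgebra' hφ
  let _ : Algebra A E := (φ.comp (algebraMap A R)).toAlgebra' fun a x => hφ _ x
  have _ : IsScalarTower A R E := IsScalarTower.of_algebraMap_eq fun a => rfl
  have hs : ∀ (r : R) (x : E), r • x = φ r * x := fun r x => Algebra.smul_def r x
  have hsA : ∀ (a : A) (x : E), a • x = φ (algebraMap A R a) * x := fun r x => Algebra.smul_def r x
  let δ0 : R →ₗ[A] E :=
    { toFun := g
      map_add' := map_add g
      map_smul' := by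
        intro a t
        rw [Algebra.smul_def, hg, hgA, mul_zero, add_zero]
        exact (hsA a (g t)).symm }
  let δ : Derivation A R E := Derivation.mk' δ0 (by
    intro r t
    rw [hs, hs]
    exact hg r t)
  let f : Ω[R⁄A] →ₗ[R] E := δ.liftKaehlerDifferential
  have hf : ∀ t, f (KaehlerDifferential.D A R t) = g t := fun t =>
    δ.liftKaehlerDifferential_comp_D t
  have key1 : ∀ (x : Ω[R⁄A]) (t : R), f x * g t + g t * f x = 0 := by
    intro x t
    have hx : x ∈ Submodule.span R (Set.range (KaehlerDifferential.D A R)) := by
      rw [KaehlerDifferential.span_range_derivation]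
      exact Submodule.mem_top
    induction hx using Submodule.span_induction with
    | mem x hx =>
      obtain ⟨s, rfl⟩ := hx
      rw [hf]
      exact hgg s t
    | zero => rw [map_zero, zero_mul, mul_zero, add_zero]
    | add x y _ _ hx hy =>
      have h : f (x + y) * g t + g t * f (x + y) =
          (f x * g t + g t * f x) + (f y * g t + g t * f y) := by
        rw [map_add, add_mul, mul_add]
        abel
      rw [h, hx, hy, add_zero]
    | smul r x _ hx =>
      have h : f (r • x) * g t + g t * f (r • x) = φ r * (f x * g t + g t * f x) := by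
        rw [map_smul, hs, mul_add, mul_assoc, ← mul_assoc (g t), ← hφ r (g t), mul_assoc]
      rw [h, hx, mul_zero]
  have key2 : ∀ x y : Ω[R⁄A], f x * f y + f y * f x = 0 := by
    intro x y
    have hx : y ∈ Submodule.span R (Set.range (KaehlerDifferential.D A R)) := by
      rw [KaehlerDifferential.span_range_derivation]
      exact Submodule.mem_top
    induction hx using Submodule.span_induction with
    | mem y hy =>
      obtain ⟨s, rfl⟩ := hy
      rw [hf]
      exact key1 x s
    | zero => rw [map_zero, zero_mul, mul_zero, add_zero]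
    | add y z _ _ hx hy =>
      have h : f x * f (y + z) + f (y + z) * f x =
          (f x * f y + f y * f x) + (f x * f z + f z * f x) := by
        rw [map_add, add_mul, mul_add]
        abel
      rw [h, hx, hy, add_zero]
    | smul r y _ hx =>
      have h : f x * f (r • y) + f (r • y) * f x = φ r * (f x * f y + f y * f x) := by
        rw [map_smul, hs, mul_add, ← mul_assoc (f x), ← hφ r (f x), mul_assoc, mul_assoc]
      rw [h, hx, mul_zero]
  have key3 : ∀ x : Ω[R⁄A], f x * f x = 0 := by
    intro x
    have hx : x ∈ Submodule.span R (Set.range (KaehlerDifferential.D A R)) := by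
      rw [KaehlerDifferential.span_range_derivation]
      exact Submodule.mem_top
    induction hx using Submodule.span_induction with
    | mem x hx =>
      obtain ⟨s, rfl⟩ := hx
      rw [hf]
      exact hg2 s
    | zero => rw [map_zero, zero_mul]
    | add x y _ _ hx hy =>
      have h : f (x + y) * f (x + y) = f x * f x + f y * f y + (f x * f y + f y * f x) := by
        rw [map_add, add_mul, mul_add, mul_add]
        abel
      rw [h, hx, hy, key2, add_zero, add_zero]
    | smul r x _ hx =>
      have h : f (r • x) * f (r • x) = φ r * (φ r * (f x * f x)) := by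
        rw [map_smul, hs, mul_assoc, ← mul_assoc (f x), ← hφ r (f x), mul_assoc]
      rw [h, hx, mul_zero, mul_zero]
  refine ⟨(ExteriorAlgebra.lift R ⟨f, key3⟩).toRingHom, fun r => ?_, fun t => ?_⟩
  · exact AlgHom.commutes _ r
  · exact (ExteriorAlgebra.lift_ι_apply R f key3 _).trans (hf t)

end univ

section tw

/-- The pairs `(e, x)` with the multiplication `(e, x) (f, y) = (e f, x f + τ e y)`. -/
def Tw (E : Type w) [Ring E] (_ : E →+* E) : Type w := E × E

variable {E : Type w} [Ring E] {τ : E →+* E}

instance : AddCommGroup (Tw E τ) := inferInstanceAs (AddCommGroup (E × E))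

/-- A pair. -/
def tw (τ : E →+* E) (e x : E) : Tw E τ := (e, x)

theorem tw_ext {x y : Tw E τ} (h1 : x.1 = y.1) (h2 : x.2 = y.2) : x = y := Prod.ext h1 h2

instance : Mul (Tw E τ) := ⟨fun x y => tw τ (x.1 * y.1) (x.2 * y.1 + τ x.1 * y.2)⟩

instance : One (Tw E τ) := ⟨tw τ 1 0⟩

theorem tw_mul (x y : Tw E τ) : x * y = tw τ (x.1 * y.1) (x.2 * y.1 + τ x.1 * y.2) := rfl

theorem tw_mul_fst (x y : Tw E τ) : (x * y).1 = x.1 * y.1 := rfl

theorem tw_mul_snd (x y : Tw E τ) : (x * y).2 = x.2 * y.1 + τ x.1 * y.2 := rfl

theorem tw_add_fst (x y : Tw E τ) : (x + y).1 = x.1 + y.1 := rfl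

theorem tw_add_snd (x y : Tw E τ) : (x + y).2 = x.2 + y.2 := rfl

theorem tw_one_fst : (1 : Tw E τ).1 = 1 := rfl

theorem tw_one_snd : (1 : Tw E τ).2 = 0 := rfl

theorem tw_zero_fst : (0 : Tw E τ).1 = 0 := rfl

theorem tw_zero_snd : (0 : Tw E τ).2 = 0 := rfl

instance : Ring (Tw E τ) :=
  { (inferInstance : AddCommGroup (Tw E τ)) with
    mul := (· * ·)
    one := 1
    mul_assoc := by
      intro x y z
      apply tw_ext
      · simp only [tw_mul_fst, mul_assoc]
      · simp only [tw_mul_fst, tw_mul_snd, map_mul, add_mul, mul_add, mul_assoc, add_assoc]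
    one_mul := by
      intro x
      apply tw_ext
      · simp only [tw_mul_fst, tw_one_fst, one_mul]
      · simp only [tw_mul_snd, tw_one_fst, tw_one_snd, map_one, one_mul, zero_mul, zero_add]
    mul_one := by
      intro x
      apply tw_ext
      · simp only [tw_mul_fst, tw_one_fst, mul_one]
      · simp only [tw_mul_snd, tw_one_fst, tw_one_snd, mul_one, mul_zero, add_zero]
    left_distrib := by
      intro x y z
      apply tw_ext
      · simp only [tw_mul_fst, tw_add_fst, mul_add]
      · simp only [tw_mul_snd, tw_add_fst, tw_add_snd, mul_add]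
        abel
    right_distrib := by
      intro x y z
      apply tw_ext
      · simp only [tw_mul_fst, tw_add_fst, add_mul]
      · simp only [tw_mul_snd, tw_add_fst, tw_add_snd, add_mul, map_add]
        abel
    zero_mul := by
      intro x
      apply tw_ext
      · simp only [tw_mul_fst, tw_zero_fst, zero_mul]
      · simp only [tw_mul_snd, tw_zero_fst, tw_zero_snd, zero_mul, map_zero, add_zero]
    mul_zero := by
      intro x
      apply tw_ext
      · simp only [tw_mul_fst, tw_zero_fst, mul_zero]
      · simp only [tw_mul_snd, tw_zero_fst, tw_zero_snd, mul_zero, add_zero] }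

end tw

section twist

variable {A : Type u} {R : Type v} [CommRing A] [CommRing R] [Algebra A R]

/-- Twisted derivations of the algebra of forms. -/
theorem exists_twist (τ : Fm A R →+* Fm A R) (hτ : ∀ r, τ (fz A r) = fz A r)
    (s : R →+ Fm A R) (hs : ∀ r t, s (r * t) = fz A r * s t + fz A t * s r)
    (hsc : ∀ r e, s r * e = τ e * s r)
    (g : R →+ Fm A R)
    (hg : ∀ r t, g (r * t) = fz A r * g t + fz A t * g r + s r * df A t + s t * df A r)
    (hgA : ∀ a : A, g (algebraMap A R a) = 0)
    (hgg : ∀ r t, g r * df A t + τ (df A r) * g t + (g t * df A r + τ (df A t) * g r) = 0)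
    (hg2 : ∀ t, g t * df A t + τ (df A t) * g t = 0) :
    ∃ F : Fm A R →+ Fm A R, (∀ r, F (fz A r) = s r) ∧ (∀ t, F (df A t) = g t) ∧
      ∀ e f, F (e * f) = F e * f + τ e * F f := by
  let φ : R →+* Tw (Fm A R) τ :=
    { toFun := fun r => tw τ (fz A r) (s r)
      map_one' := by
        apply tw_ext
        · exact map_one _
        · have h := hs 1 1
          rw [mul_one, (fz A).map_one, one_mul] at h
          exact left_eq_add.1 h
      map_mul' := by
        intro r t
        apply tw_ext
        · exact map_mul _ _ _
        · change s (r * t) = s r * fz A t + τ (fz A r) * s t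
          rw [hs, hτ, ← fz_comm, add_comm]
      map_zero' := by
        apply tw_ext
        · exact map_zero _
        · exact map_zero _
      map_add' := by
        intro r t
        apply tw_ext
        · exact map_add _ _ _
        · exact map_add _ _ _ }
  let g' : R →+ Tw (Fm A R) τ :=
    { toFun := fun t => tw τ (df A t) (g t)
      map_zero' := by
        apply tw_ext
        · exact df_zero
        · exact map_zero _
      map_add' := by
        intro r t
        apply tw_ext
        · exact df_add _ _
        · exact map_add _ _ _ }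
  obtain ⟨F, h1, h2⟩ := exists_hom (A := A) φ
    (by
      intro r x
      apply tw_ext
      · exact fz_comm _ _
      · change s r * x.1 + τ (fz A r) * x.2 = x.2 * fz A r + τ x.1 * s r
        rw [hτ, hsc, fz_comm, add_comm])
    g'
    (by
      intro r t
      apply tw_ext
      · exact df_mul _ _
      · change g (r * t) = (s r * df A t + τ (fz A r) * g t) + (s t * df A r + τ (fz A t) * g r)
        rw [hg, hτ, hτ]
        abel)
    (by
      intro a
      apply tw_ext
      · exact df_base _
      · exact hgA a)
    (by
      intro r t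
      apply tw_ext
      · change df A r * df A t + df A t * df A r = 0
        rw [df_swap, neg_add_cancel]
      · exact hgg r t)
    (by
      intro t
      apply tw_ext
      · exact df_sq t
      · exact hg2 t)
  have hfst : ∀ e, (F e).1 = e := by
    intro e
    induction e using fm_ind with
    | h1 r => rw [h1]; rfl
    | h2 t => rw [h2]; rfl
    | h3 a b ha hb => rw [map_mul, tw_mul_fst, ha, hb]
    | h4 a b ha hb => rw [map_add, tw_add_fst, ha, hb]
  refine ⟨{ toFun := fun e => (F e).2
            map_zero' := by rw [map_zero]; rfl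
            map_add' := fun a b => by rw [map_add]; rfl }, fun r => ?_, fun t => ?_, fun e f => ?_⟩
  · change (F (fz A r)).2 = s r
    rw [h1]
    rfl
  · change (F (df A t)).2 = g t
    rw [h2]
    rfl
  · change (F (e * f)).2 = (F e).2 * f + τ e * (F f).2
    rw [map_mul, tw_mul_snd, hfst, hfst]

/-- A twisted derivation is determined by its values on functions and differentials. -/
theorem twist_ext {B S : Type*} [CommRing B] [CommRing S] [Algebra B S] {τ : Fm A R → Fm B S}
    {ρ : Fm A R → Fm B S}
    {F G : Fm A R →+ Fm B S} (hF : ∀ e f, F (e * f) = F e * ρ f + τ e * F f)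
    (hG : ∀ e f, G (e * f) = G e * ρ f + τ e * G f) (h1 : ∀ r, F (fz A r) = G (fz A r))
    (h2 : ∀ t, F (df A t) = G (df A t)) : F = G := by
  ext e
  induction e using fm_ind with
  | h1 r => exact h1 r
  | h2 t => exact h2 t
  | h3 a b ha hb => rw [hF, hG, ha, hb]
  | h4 a b ha hb => rw [map_add, map_add, ha, hb]

end twist

section dd

variable (A : Type u) {R : Type v} [CommRing A] [CommRing R] [Algebra A R]

private theorem dd_exists : ∃ F : Fm A R →+ Fm A R, (∀ r, F (fz A r) = df A r) ∧
    (∀ t, F (df A t) = 0) ∧ ∀ e f, F (e * f) = F e * f + inv A e * F f :=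
  exists_twist (inv A) inv_fz
    { toFun := df A
      map_zero' := df_zero
      map_add' := df_add }
    df_mul df_comm 0
    (by
      intro r t
      change 0 = fz A r * 0 + fz A t * 0 + df A r * df A t + df A t * df A r
      rw [df_swap]
      simp)
    (fun a => rfl)
    (by
      intro r t
      change 0 * df A t + inv A (df A r) * 0 + (0 * df A r + inv A (df A t) * 0) = 0
      simp)
    (by
      intro t
      change 0 * df A t + inv A (df A t) * 0 = 0
      simp)

/-- The exterior derivative. -/
noncomputable def dd : Fm A R →+ Fm A R := (dd_exists A).choose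

theorem dd_fz (r : R) : dd A (fz A r) = df A r := (dd_exists A).choose_spec.1 r

theorem dd_df (t : R) : dd A (df A t) = 0 := (dd_exists A).choose_spec.2.1 t

theorem dd_mul (e f : Fm A R) : dd A (e * f) = dd A e * f + inv A e * dd A f :=
  (dd_exists A).choose_spec.2.2 e f

theorem inv_dd (e : Fm A R) : inv A (dd A e) = -dd A (inv A e) := by
  induction e using fm_ind with
  | h1 r => rw [dd_fz, inv_df, inv_fz, dd_fz]
  | h2 t => rw [dd_df, inv_df, map_neg, dd_df, map_zero, neg_zero, neg_zero]
  | h3 a b ha hb =>
    rw [dd_mul, map_add, map_mul, map_mul, ha, hb, map_mul, dd_mul, inv_inv]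
    rw [neg_mul, mul_neg, neg_add]
  | h4 a b ha hb => rw [map_add, map_add, ha, hb, map_add, map_add, neg_add]

theorem dd_dd (e : Fm A R) : dd A (dd A e) = 0 := by
  induction e using fm_ind with
  | h1 r => rw [dd_fz, dd_df]
  | h2 t => rw [dd_df, map_zero]
  | h3 a b ha hb =>
    rw [dd_mul, map_add, dd_mul, dd_mul, ha, hb, inv_dd, inv_inv]
    rw [zero_mul, mul_zero, zero_add, add_zero, neg_mul, neg_add_cancel]
  | h4 a b ha hb => rw [map_add, map_add, ha, hb, add_zero]

theorem dd_one : dd A (1 : Fm A R) = 0 := by
  rw [← map_one (fz A), dd_fz, df_one]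

theorem dd_base (a : A) (e : Fm A R) : dd A (fz A (algebraMap A R a) * e) =
    fz A (algebraMap A R a) * dd A e := by
  rw [dd_mul, dd_fz, df_base, zero_mul, zero_add, inv_fz]

theorem dd_smul (a : A) (e : Fm A R) : dd A (a • e) = a • dd A e := by
  have h : ∀ x : Fm A R, a • x = fz A (algebraMap A R a) * x := fun x => by
    rw [← fz_smul, algebraMap_smul]
  rw [h, h, dd_base]

end dd

section lie

variable (A : Type u) {R : Type v} [CommRing A] [CommRing R] [Algebra A R]

private theorem LL_exists (D : Derivation ℤ R R) (hD : ∀ a : A, ∃ a', D (algebraMap A R a) =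
    algebraMap A R a') : ∃ F : Fm A R →+ Fm A R, (∀ r, F (fz A r) = fz A (D r)) ∧
    (∀ t, F (df A t) = df A (D t)) ∧ ∀ e f, F (e * f) = F e * f + e * F f :=
  exists_twist (RingHom.id _) (fun _ => rfl)
    { toFun := fun r => fz A (D r)
      map_zero' := by rw [map_zero, map_zero]
      map_add' := fun r t => by rw [map_add, map_add] }
    (by
      intro r t
      change fz A (D (r * t)) = fz A r * fz A (D t) + fz A t * fz A (D r)
      rw [Derivation.leibniz, smul_eq_mul, smul_eq_mul, map_add, map_mul, map_mul])
    (fun r e => fz_comm _ _)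
    { toFun := fun t => df A (D t)
      map_zero' := by rw [map_zero, df_zero]
      map_add' := fun r t => by rw [map_add, df_add] }
    (by
      intro r t
      change df A (D (r * t)) = fz A r * df A (D t) + fz A t * df A (D r) + fz A (D r) * df A t +
        fz A (D t) * df A r
      rw [Derivation.leibniz, smul_eq_mul, smul_eq_mul, df_add, df_mul, df_mul]
      abel)
    (by
      intro a
      obtain ⟨a', ha⟩ := hD a
      change df A (D (algebraMap A R a)) = 0
      rw [ha, df_base])
    (by
      intro r t
      change df A (D r) * df A t + df A r * df A (D t) + (df A (D t) * df A r +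
        df A t * df A (D r)) = 0
      rw [df_swap (D r) t, df_swap (D t) r]
      abel)
    (by
      intro t
      change df A (D t) * df A t + df A t * df A (D t) = 0
      rw [df_swap, neg_add_cancel])

open Classical in
/-- The Lie derivative with respect to a derivation which preserves `A`. -/
noncomputable def LL (D : Derivation ℤ R R) : Fm A R →+ Fm A R :=
  if hD : ∀ a : A, ∃ a', D (algebraMap A R a) = algebraMap A R a' then (LL_exists A D hD).choose
  else 0

variable {D : Derivation ℤ R R}
  (hD : ∀ a : A, ∃ a', D (algebraMap A R a) = algebraMap A R a')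

include hD

theorem LL_fz (r : R) : LL A D (fz A r) = fz A (D r) := by
  unfold LL
  rw [dif_pos hD]
  exact (LL_exists A D hD).choose_spec.1 r

theorem LL_df (t : R) : LL A D (df A t) = df A (D t) := by
  unfold LL
  rw [dif_pos hD]
  exact (LL_exists A D hD).choose_spec.2.1 t

theorem LL_mul (e f : Fm A R) : LL A D (e * f) = LL A D e * f + e * LL A D f := by
  unfold LL
  rw [dif_pos hD]
  exact (LL_exists A D hD).choose_spec.2.2 e f

theorem LL_inv (e : Fm A R) : LL A D (inv A e) = inv A (LL A D e) := by
  induction e using fm_ind with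
  | h1 r => rw [inv_fz, LL_fz A hD, inv_fz]
  | h2 t => rw [inv_df, map_neg, LL_df A hD, inv_df]
  | h3 a b ha hb => rw [map_mul, LL_mul A hD, ha, hb, LL_mul A hD, map_add, map_mul, map_mul]
  | h4 a b ha hb => rw [map_add, map_add, ha, hb, map_add, map_add]

theorem LL_dd (e : Fm A R) : LL A D (dd A e) = dd A (LL A D e) := by
  induction e using fm_ind with
  | h1 r => rw [dd_fz, LL_df A hD, LL_fz A hD, dd_fz]
  | h2 t => rw [dd_df, LL_df A hD, dd_df, map_zero]
  | h3 a b ha hb =>
    rw [dd_mul, map_add, LL_mul A hD, LL_mul A hD, ha, hb, LL_mul A hD, map_add, dd_mul, dd_mul,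
      LL_inv A hD]
    abel
  | h4 a b ha hb => rw [map_add, map_add, ha, hb, map_add, map_add]

end lie

section contraction

variable (A : Type u) {R : Type v} [CommRing A] [CommRing R] [Algebra A R]

/-- The contraction with a vector field. -/
noncomputable def ct (θ : Derivation A R R) : Fm A R →ₗ[R] Fm A R :=
  CliffordAlgebra.contractLeft θ.liftKaehlerDifferential

theorem ct_fz (θ : Derivation A R R) (r : R) : ct A θ (fz A r) = 0 :=
  CliffordAlgebra.contractLeft_algebraMap _ _ r

theorem ct_df (θ : Derivation A R R) (t : R) : ct A θ (df A t) = fz A (θ t) := by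
  unfold ct df
  refine (CliffordAlgebra.contractLeft_ι _ _ _).trans ?_
  rw [Derivation.liftKaehlerDifferential_comp_D]
  rfl

theorem ct_df_mul (θ : Derivation A R R) (t : R) (e : Fm A R) :
    ct A θ (df A t * e) = fz A (θ t) * e - df A t * ct A θ e := by
  unfold ct df
  refine (CliffordAlgebra.contractLeft_ι_mul _ _ _).trans ?_
  rw [Derivation.liftKaehlerDifferential_comp_D, fz_smul]

theorem ct_mul (θ : Derivation A R R) (e f : Fm A R) :
    ct A θ (e * f) = ct A θ e * f + inv A e * ct A θ f := by
  induction e using fm_ind generalizing f with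
  | h1 r =>
    rw [ct_fz, inv_fz, zero_mul, zero_add, ← fz_smul, ← fz_smul, map_smul]
  | h2 t =>
    rw [ct_df_mul, ct_df, inv_df, neg_mul, sub_eq_add_neg]
  | h3 a b ha hb =>
    rw [mul_assoc, ha, hb, ha b, map_mul, mul_add, add_mul, mul_assoc, mul_assoc, mul_assoc,
      add_assoc]
  | h4 a b ha hb =>
    rw [add_mul, map_add, ha, hb, map_add, map_add, add_mul, add_mul]
    abel

theorem ct_inv (θ : Derivation A R R) (e : Fm A R) : ct A θ (inv A e) = -inv A (ct A θ e) := by
  induction e using fm_ind with
  | h1 r => rw [inv_fz, ct_fz, map_zero, neg_zero]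
  | h2 t => rw [inv_df, map_neg, ct_df, inv_fz]
  | h3 a b ha hb =>
    rw [map_mul, ct_mul, ha, hb, ct_mul, map_add, map_mul, map_mul]
    rw [neg_mul, mul_neg, neg_add]
  | h4 a b ha hb => rw [map_add, map_add, ha, hb, map_add, map_add, neg_add]

/-- Cartan's formula. -/
theorem cartan (θ : Derivation A R R) (e : Fm A R) :
    LL A (θ.restrictScalars ℤ) e = dd A (ct A θ e) + ct A θ (dd A e) := by
  have hD : ∀ a : A, ∃ a', (θ.restrictScalars ℤ) (algebraMap A R a) = algebraMap A R a' :=
    fun a => ⟨0, by
      rw [map_zero]
      exact θ.map_algebraMap a⟩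
  induction e using fm_ind with
  | h1 r =>
    rw [LL_fz A hD, ct_fz, map_zero, zero_add, dd_fz, ct_df]
    rfl
  | h2 t =>
    rw [LL_df A hD, ct_df, dd_df, map_zero, add_zero, dd_fz]
    rfl
  | h3 a b ha hb =>
    rw [LL_mul A hD, ha, hb, ct_mul, map_add, dd_mul, dd_mul, dd_mul, map_add, ct_mul, ct_mul,
      inv_dd, ct_inv, inv_inv]
    rw [add_mul, mul_add, neg_mul, neg_mul]
    abel
  | h4 a b ha hb =>
    rw [map_add, ha, hb, map_add, map_add, map_add, map_add]
    abel

end contraction

end MPadcGP
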