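import Pool.Agent.Lib.MP_adc574_ag_GP.FB5

/-!
# Base change of adapted bases (GP, helper79)

`adapted_bc`: an adapted basis up to `a` becomes an adapted basis over every algebra `B` in which `a` is a
unit. `adapted_rank`: dimensions over a field.
-/

set_option autoImplicit false

namespace MPadcGP

open scoped TensorProduct

section ad

universe u v w x y

variable {A : Type u} [CommRing A] {T : Type v} [AddCommGroup T] [Module A T] {D : T →ₗ[A] T}
  {F : ℕ → ℕ → Submodule A T} {B : Type w} [CommRing B] [Algebra A B] {T' : Type x} [AddCommGroup T']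
  [Module B T'] {D' : T' →ₗ[B] T'} {F' : ℕ → ℕ → Submodule B T'} {φ : T →+ T'}

theorem bs_bc {S : ℕ → Submodule A T} {S' : ℕ → Submodule B T'} (hφD : ∀ x, φ (D x) = D' (φ x))
    (hbc : ∀ m, IsBCm B φ (S m) (S' m)) {m : ℕ} {x : T} (hx : x ∈ Bs D S m) : φ x ∈ Bs D' S' m := by
  cases m with
  | zero =>
    have h1 : x = 0 := hx
    rw [h1, map_zero]
    exact Submodule.zero_mem _
  | succ m =>
    obtain ⟨y, hy, rfl⟩ := hx
    exact ⟨φ y, (hbc m).mem hy, (hφD y).symm⟩

/-- **Base change of adapted bases.** -/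
theorem adapted_bc (hF : ∀ i m, ∀ x ∈ F i m, D x ∈ F i (m + 1)) (hD : ∀ x, D (D x) = 0)
    (hF' : ∀ i m, ∀ x ∈ F' i m, D' x ∈ F' i (m + 1)) (anti : ∀ i m, F (i + 1) m ≤ F i m)
    (anti' : ∀ i m, F' (i + 1) m ≤ F' i m)
    (hflat : ∀ i m, Module.Flat A (F i m)) (N : ℕ) (htop : ∀ i m, N < m → F i m = ⊥)
    (hφ : ∀ (r : A) (x : T), φ (r • x) = algebraMap A B r • φ x) (hφD : ∀ x, φ (D x) = D' (φ x))
    (hbc : ∀ i m, IsBCm B φ (F i m) (F' i m)) {a : A} (ha : IsUnit (algebraMap A B a))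
    {ι : ℕ → Type y} [∀ m, Fintype (ι m)] {z : ∀ m, ι m → T} {lev : ∀ m, ι m → ℕ}
    (hz : ∀ m, IsAdapted D F a m (z m) (lev m))
    (hy : ∀ i m, ∃ (r : ℕ) (y : Fin r → T), IsBas D (F i) a m y) (m : ℕ) :
    IsAdapted D' F' (1 : B) m (fun b => φ (z m b)) (lev m) := by
  have h0 := bas_bc (B := B) (S := F 0) (S' := F' 0) (hF 0) hD (hF' 0) (hflat 0) N (htop 0) hφD (hbc 0) ha
    (fun m => (hz m).isBas anti) m
  refine ⟨fun b => ⟨?_, ?_⟩, h0.indep, fun i x hx => ?_⟩
  · exact (hbc _ _).mem ((hz m).mem b).1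
  · change D' (φ (z m b)) = 0
    rw [← hφD, ((hz m).mem b).2, map_zero]
  · choose r y hy' using hy i
    have h1 := bas_bc (B := B) (S := F i) (S' := F' i) (hF i) hD (hF' i) (hflat i) N (htop i) hφD (hbc i) ha
      hy' m
    obtain ⟨c, hc⟩ := h1.span x hx
    rw [one_smul] at hc
    obtain ⟨u, hu⟩ := ha
    -- the classes of the basis of `F i` in terms of `z`
    have h2 : ∀ j, ∃ e : ι m → B, (∀ b, lev m b < i → e b = 0) ∧
        φ (y m j) - ∑ b, e b • φ (z m b) ∈ Bs D' (F' 0) m := by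
      intro j
      obtain ⟨e, he0, he⟩ := (hz m).span i (y m j) ((hy' m).mem j)
      refine ⟨fun b => ((u⁻¹ : Bˣ) : B) * algebraMap A B (e b), fun b hb => ?_, ?_⟩
      · simp only [he0 b hb, map_zero, mul_zero]
      · have h3 := bs_bc hφD (hbc 0) he
        rw [map_sub, hφ, map_sum] at h3
        have h4 := Submodule.smul_mem _ ((u⁻¹ : Bˣ) : B) h3
        rw [smul_sub, smul_smul, ← hu, Units.inv_mul, one_smul, Finset.smul_sum] at h4
        have h5 : ∑ b, ((u⁻¹ : Bˣ) : B) • φ (e b • z m b) =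
            ∑ b, (((u⁻¹ : Bˣ) : B) * algebraMap A B (e b)) • φ (z m b) := by
          refine Finset.sum_congr rfl fun b _ => ?_
          rw [hφ, smul_smul]
        rw [h5] at h4
        exact h4
    choose e he0 he using h2
    refine ⟨fun b => ∑ j, c j * e j b, fun b hb => ?_, ?_⟩
    · exact Finset.sum_eq_zero fun j _ => by rw [he0 j b hb, mul_zero]
    · rw [one_smul]
      have h6 : x - ∑ b, (∑ j, c j * e j b) • φ (z m b) =
          (x - ∑ j, c j • φ (y m j)) + ∑ j, c j • (φ (y m j) - ∑ b, e j b • φ (z m b)) := by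
        have h7 : ∑ b, (∑ j, c j * e j b) • φ (z m b) = ∑ j, c j • ∑ b, e j b • φ (z m b) := by
          simp only [Finset.sum_smul, Finset.smul_sum, mul_smul]
          exact Finset.sum_comm
        simp only [smul_sub, Finset.sum_sub_distrib]
        rw [h7]
        abel
      rw [h6]
      refine Submodule.add_mem _ ?_ (Submodule.sum_mem _ fun j _ => Submodule.smul_mem _ _ (he j))
      exact Bs_mono (fun m => Fanti anti' (Nat.zero_le i) m) m hc

/-- Over a field the number of elements of level `≥ i` is the dimension of the image of `H ^ m (F i)`. -/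
theorem adapted_coord {D : T →ₗ[A] T} {F : ℕ → ℕ → Submodule A T} (anti : ∀ i m, F (i + 1) m ≤ F i m)
    {m : ℕ} {ι : Type*} [Fintype ι] {z : ι → T} {lev : ι → ℕ} (h : IsAdapted D F 1 m z lev) (i : ℕ) (x : T) :
    (∃ t ∈ Zs D (F i) m, x - t ∈ Bs D (F 0) m) ↔
      ∃ c : ι → A, (∀ b, lev b < i → c b = 0) ∧ x - ∑ b, c b • z b ∈ Bs D (F 0) m := by
  constructor
  · rintro ⟨t, ht, hxt⟩
    obtain ⟨c, hc0, hc⟩ := h.span i t ht
    rw [one_smul] at hc
    refine ⟨c, hc0, ?_⟩
    have h1 : x - ∑ b, c b • z b = (x - t) + (t - ∑ b, c b • z b) := by abel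
    rw [h1]
    exact Submodule.add_mem _ hxt hc
  · rintro ⟨c, hc0, hc⟩
    refine ⟨∑ b, c b • z b, Submodule.sum_mem _ fun b _ => ?_, hc⟩
    rcases Nat.lt_or_ge (lev b) i with h1 | h1
    · rw [hc0 b h1, zero_smul]
      exact Submodule.zero_mem _
    · exact Submodule.smul_mem _ _ (Zs_mono (fun m => Fanti anti h1 m) m (h.mem b))

end ad

end MPadcGP
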