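import Pool.Agent.Lib.MP_adc574_ag_GP.BCd
import Pool.Agent.Lib.MP_adc574_ag_GP.Fil
import Pool.Agent.Lib.MP_adc574_ag_GP.FB6

/-!
# Cochains of pure form degree (GP, helper79)

`X.Gr q m`: the cochains of total degree `m` and form degree `q`; `X.Dq = del ∘ ic` is the differential of
`F ^ q / F ^ (q + 1)`. `gr_finrank`: a basis of the cohomology of `(Gr q, Dq)` gives the dimension of the
cohomology of `F ^ q / F ^ (q + 1)` in the sense of `Fil.lean`.
-/

set_option autoImplicit false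

namespace MPadcGP

open TensorProduct

universe u v w x

namespace CovD

variable {A : Type u} [CommRing A] {n : ℕ}

/-- The degrees of the cochains of total degree `m` and form degree `q`. -/
def dgG (n q m : ℕ) (J : Finset (Fin n)) : Option ℕ :=
  if J = ∅ ∨ q + J.card ≠ m + 1 then none else some q

theorem dgG_empty (n q m : ℕ) : dgG n q m ∅ = none := by
  unfold dgG
  rw [if_pos (Or.inl rfl)]

variable (X : CovD.{u, v} A n)

/-- The cochains of total degree `m` and form degree `q`. -/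
noncomputable def Gr (q m : ℕ) : Submodule A X.Ch where
  carrier := {c | ∀ J : Finset (Fin n), c J ∈ FdO A (X.R J) (dgG n q m J)}
  add_mem' := fun ha hb J => Submodule.add_mem _ (ha J) (hb J)
  zero_mem' := fun _ => Submodule.zero_mem _
  smul_mem' := fun a _ hc J => Submodule.smul_mem _ a (hc J)

/-- The differential of the quotients of the Hodge filtration. -/
noncomputable def Dq : X.Ch →ₗ[A] X.Ch := X.del ∘ₗ X.ic

variable {X}

theorem mem_Gr {q m : ℕ} {c : X.Ch} :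
    c ∈ X.Gr q m ↔ ∀ J : Finset (Fin n), c J ∈ FdO A (X.R J) (dgG n q m J) := Iff.rfl

theorem mem_Gr' {q m : ℕ} {c : X.Ch} : c ∈ X.Gr q m ↔ c ∅ = 0 ∧ ∀ J : Finset (Fin n),
    (q + J.card = m + 1 → c J ∈ Fd A (X.R J) q) ∧ (q + J.card ≠ m + 1 → c J = 0) := by
  rw [mem_Gr]
  constructor
  · intro h
    refine ⟨?_, fun J => ⟨fun hJ => ?_, fun hJ => ?_⟩⟩
    · have h1 := h ∅
      rw [dgG_empty, mem_FdO_none] at h1
      exact h1
    · rcases J.eq_empty_or_nonempty with hJe | hJe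
      · subst hJe
        have h1 := h ∅
        rw [dgG_empty, mem_FdO_none] at h1
        rw [h1]
        exact Submodule.zero_mem _
      · have h1 := h J
        unfold dgG at h1
        rw [if_neg (by
          rintro (h2 | h2)
          · exact hJe.ne_empty h2
          · exact h2 hJ), mem_FdO_some] at h1
        exact h1
    · have h1 := h J
      unfold dgG at h1
      rw [if_pos (Or.inr hJ), mem_FdO_none] at h1
      exact h1
  · rintro ⟨h0, h⟩ J
    unfold dgG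
    split_ifs with hJ
    · rw [mem_FdO_none]
      rcases hJ with hJ | hJ
      · rw [hJ, h0]
      · exact (h J).2 hJ
    · push Not at hJ
      rw [mem_FdO_some]
      exact (h J).1 hJ.2

theorem Dq_apply (c : X.Ch) : X.Dq c = X.del (X.ic c) := rfl

theorem Dq_Dq (c : X.Ch) : X.Dq (X.Dq c) = 0 := by
  rw [Dq_apply, Dq_apply, ← del_ic, del_del]

theorem Dt_eq (c : X.Ch) : X.Dt c = X.dc c + X.Dq c := rfl

theorem Dq_app (c : X.Ch) (J : Finset (Fin n)) :
    X.Dq c J = ∑ j ∈ J, sg j J • X.ev (X.ic c) (J.erase j) J := rfl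

theorem Gr_le_Fi (q m : ℕ) : X.Gr q m ≤ X.Fi q m := by
  intro c hc
  obtain ⟨h0, h⟩ := mem_Gr'.1 hc
  refine ⟨⟨h0, fun J => ⟨fun r hr => ?_, fun hJ => (h J).2 (by omega)⟩⟩, fun J hJ => (h J).2 (by omega)⟩
  by_cases h1 : q + J.card = m + 1
  · have h2 : r = q := by omega
    rw [h2]
    exact (h J).1 h1
  · rw [(h J).2 h1]
    exact Submodule.zero_mem _

theorem Dq_mem {q m : ℕ} {c : X.Ch} (hc : c ∈ X.Gr q m) : X.Dq c ∈ X.Gr q (m + 1) := by
  obtain ⟨h0, h⟩ := mem_Gr'.1 hc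
  refine mem_Gr'.2 ⟨by rw [Dq_app, Finset.sum_empty], fun J => ⟨fun hJ => ?_, fun hJ => ?_⟩⟩
  · rw [Dq_app]
    refine Submodule.sum_mem _ fun j hj => ?_
    refine zsmul_mem ?_ _
    have h1 := Finset.card_erase_add_one hj
    refine ev_mem ?_ _
    rw [ic_apply]
    exact inv_mem' ((h _).1 (by omega))
  · rw [Dq_app]
    refine Finset.sum_eq_zero fun j hj => ?_
    have h1 := Finset.card_erase_add_one hj
    rw [ev_eq_zero, smul_zero]
    rw [ic_apply, (h _).2 (by omega), map_zero]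

theorem dc_Gr_mem {q m : ℕ} {c : X.Ch} (hc : c ∈ X.Gr q m) : X.dc c ∈ X.Fi (q + 1) (m + 1) := by
  obtain ⟨h0, h⟩ := mem_Gr'.1 hc
  refine ⟨dc_mem (Gr_le_Fi q m hc).1, fun J hJ => ?_⟩
  rw [dc_apply, (h J).2 (by omega), map_zero]

variable (X)

/-- The projection to the cochains of form degree `q`. -/
noncomputable def pG (q m : ℕ) : X.Ch →ₗ[A] X.Ch where
  toFun c J := if J = ∅ ∨ q + J.card ≠ m + 1 then 0 else c J
  map_add' a b := by
    funext J
    simp only [Pi.add_apply]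
    split_ifs
    · rw [add_zero]
    · rfl
  map_smul' r a := by
    funext J
    simp only [Pi.smul_apply, RingHom.id_apply]
    split_ifs
    · rw [smul_zero]
    · rfl

variable {X}

theorem pG_of {q m : ℕ} (c : X.Ch) {J : Finset (Fin n)} (h0 : J ≠ ∅) (h : q + J.card = m + 1) :
    X.pG q m c J = c J := if_neg (by
      rintro (h1 | h1)
      · exact h0 h1
      · exact h1 h)

theorem pG_not {q m : ℕ} (c : X.Ch) {J : Finset (Fin n)} (h : J = ∅ ∨ q + J.card ≠ m + 1) :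
    X.pG q m c J = 0 := if_pos h

theorem pG_mem {q m : ℕ} {c : X.Ch} (hc : c ∈ X.Fi q m) : X.pG q m c ∈ X.Gr q m := by
  refine mem_Gr'.2 ⟨pG_not c (Or.inl rfl), fun J => ⟨fun hJ => ?_, fun hJ => pG_not c (Or.inr hJ)⟩⟩
  rcases J.eq_empty_or_nonempty with hJe | hJe
  · rw [pG_not c (Or.inl hJe)]
    exact Submodule.zero_mem _
  · rw [pG_of c hJe.ne_empty hJ]
    exact (hc.1.2 J).1 q hJ

theorem sub_pG_mem {q m : ℕ} {c : X.Ch} (hc : c ∈ X.Fi q m) : c - X.pG q m c ∈ X.Fi (q + 1) m := by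
  refine ⟨Submodule.sub_mem _ hc.1 (Gr_le_Fi q m (pG_mem hc)).1, fun J hJ => ?_⟩
  rw [Pi.sub_apply]
  rcases Nat.lt_or_ge (m + 1) (J.card + q) with h1 | h1
  · rw [hc.2 J h1, pG_not c (Or.inr (by omega)), sub_zero]
  · rcases J.eq_empty_or_nonempty with hJe | hJe
    · subst hJe
      rw [hc.1.1, pG_not c (Or.inl rfl), sub_zero]
    · rw [pG_of c hJe.ne_empty (by omega), sub_self]

theorem pG_zero {q m : ℕ} {c : X.Ch} (hc : c ∈ X.Fi (q + 1) m) : X.pG q m c = 0 := by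
  funext J
  by_cases h : J = ∅ ∨ q + J.card ≠ m + 1
  · exact pG_not c h
  · push Not at h
    rw [pG_of c h.1.ne_empty h.2]
    exact hc.2 J (by omega)

theorem pG_self {q m : ℕ} {c : X.Ch} (hc : c ∈ X.Gr q m) : X.pG q m c = c := by
  obtain ⟨h0, h⟩ := mem_Gr'.1 hc
  funext J
  by_cases h1 : J = ∅ ∨ q + J.card ≠ m + 1
  · rw [pG_not c h1]
    rcases h1 with h1 | h1
    · rw [h1, h0]
    · rw [(h J).2 h1]
  · push Not at h1
    exact pG_of c h1.1.ne_empty h1.2

theorem pG_Dt {q m : ℕ} {c : X.Ch} (hc : c ∈ X.Fi q m) :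
    X.pG q (m + 1) (X.Dt c) = X.Dq (X.pG q m c) := by
  have h0 : X.Dt c = X.Dt (X.pG q m c) + X.Dt (c - X.pG q m c) := by
    rw [← map_add, add_sub_cancel]
  rw [h0, map_add, pG_zero (Dt_mem_Fi (sub_pG_mem hc)), add_zero, Dt_eq, map_add,
    pG_zero (dc_Gr_mem (pG_mem hc)), zero_add, pG_self (Dq_mem (pG_mem hc))]

theorem Gr_top {q m : ℕ} (h : X.Tt m = ⊥) : X.Gr q m = ⊥ := by
  rw [eq_bot_iff, ← h]
  intro c hc
  exact (Gr_le_Fi q m hc).1

theorem Gr_gt {q m : ℕ} (h : m < q) : X.Gr q m = ⊥ := by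
  rw [eq_bot_iff]
  intro c hc
  obtain ⟨h0, h1⟩ := mem_Gr'.1 hc
  rw [Submodule.mem_bot]
  funext J
  rcases J.eq_empty_or_nonempty with hJe | hJe
  · rw [hJe, h0]
    rfl
  · have h2 := hJe.card_pos
    exact (h1 J).2 (by omega)

end CovD

section fin

variable {κ : Type u} [Field κ] {n : ℕ} {X : CovD.{u, v} κ n}

open CovD

/-- The dimension of the cohomology of `F ^ q / F ^ (q + 1)` from a basis of the cohomology of the cochains
of pure degree. -/
theorem gr_finrank {q m : ℕ} {ι : Type*} [Fintype ι] {y : ι → X.Ch} (hy : IsBas X.Dq (X.Gr q) 1 m y) :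
    FiniteDimensional κ (HH X.Dt (X.Fi (q + 1)) (X.Fi q) m) ∧
      Module.finrank κ (HH X.Dt (X.Fi (q + 1)) (X.Fi q) m) = Fintype.card ι := by
  have hZ : ∀ j, y j ∈ ZZ X.Dt (X.Fi (q + 1)) (X.Fi q) m := by
    intro j
    refine ⟨Gr_le_Fi q m (hy.mem j).1, ?_⟩
    change X.Dt (y j) ∈ X.Fi (q + 1) (m + 1)
    have h1 : X.Dq (y j) = 0 := (hy.mem j).2
    rw [Dt_eq, h1, add_zero]
    exact dc_Gr_mem (hy.mem j).1
  let L : (ι → κ) →ₗ[κ] HH X.Dt (X.Fi (q + 1)) (X.Fi q) m :=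
    Fintype.linearCombination κ fun j =>
      (Submodule.Quotient.mk (⟨y j, hZ j⟩ : ↥(ZZ X.Dt (X.Fi (q + 1)) (X.Fi q) m)) :
        HH X.Dt (X.Fi (q + 1)) (X.Fi q) m)
  have hL : ∀ c : ι → κ, L c = Submodule.Quotient.mk
      (∑ j, c j • (⟨y j, hZ j⟩ : ↥(ZZ X.Dt (X.Fi (q + 1)) (X.Fi q) m))) := by
    intro c
    rw [← Submodule.mkQ_apply, map_sum, Fintype.linearCombination_apply]
    rfl
  have hcoe : ∀ c : ι → κ, ((∑ j, c j • (⟨y j, hZ j⟩ : ↥(ZZ X.Dt (X.Fi (q + 1)) (X.Fi q) m)) :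
      ↥(ZZ X.Dt (X.Fi (q + 1)) (X.Fi q) m)) : X.Ch) = ∑ j, c j • y j := by
    intro c
    rw [Submodule.coe_sum]
    rfl
  have hinj : Function.Injective L := by
    rw [injective_iff_map_eq_zero]
    intro c hc
    rw [hL, Submodule.Quotient.mk_eq_zero] at hc
    have h1 : ∑ j, c j • y j ∈ BB X.Dt (X.Fi (q + 1)) (X.Fi q) m := by
      rw [← hcoe]
      exact hc
    refine hy.indep c ?_
    have h2 : ∑ j, c j • y j ∈ X.Gr q m :=
      Submodule.sum_mem _ fun j _ => Submodule.smul_mem _ _ (hy.mem j).1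
    obtain ⟨s, hs, w, hw, hsw⟩ := mem_BB.1 h1
    rw [← pG_self h2, hsw, map_add, pG_zero hs, zero_add]
    cases m with
    | zero =>
      have h3 : w = 0 := hw
      rw [h3, map_zero, map_zero]
      exact Submodule.zero_mem _
    | succ m =>
      rw [pG_Dt hw]
      exact ⟨_, pG_mem hw, rfl⟩
  have hsurj : Function.Surjective L := by
    intro a
    induction a using Submodule.Quotient.induction_on with
    | H x =>
      obtain ⟨x, hx⟩ := x
      have h1 : X.pG q m x ∈ Zs X.Dq (X.Gr q) m := by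
        refine ⟨pG_mem hx.1, ?_⟩
        change X.Dq (X.pG q m x) = 0
        rw [← pG_Dt hx.1]
        exact pG_zero hx.2
      obtain ⟨c, hc⟩ := hy.span _ h1
      refine ⟨c, ?_⟩
      rw [hL, eq_comm, Submodule.Quotient.eq]
      change x - ((∑ j, c j • (⟨y j, hZ j⟩ : ↥(ZZ X.Dt (X.Fi (q + 1)) (X.Fi q) m)) :
        ↥(ZZ X.Dt (X.Fi (q + 1)) (X.Fi q) m)) : X.Ch) ∈ BB X.Dt (X.Fi (q + 1)) (X.Fi q) m
      rw [hcoe]
      rw [one_smul] at hc
      have h2 : x - ∑ j, c j • y j = (x - X.pG q m x) + (X.pG q m x - ∑ j, c j • y j) := by abel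
      rw [h2]
      refine Submodule.add_mem _ (Submodule.mem_sup_left (sub_pG_mem hx.1)) ?_
      cases m with
      | zero =>
        have h3 : X.pG q 0 x - ∑ j, c j • y j = 0 := hc
        rw [h3]
        exact Submodule.zero_mem _
      | succ m =>
        obtain ⟨w, hw, hw2⟩ := hc
        refine mem_BB.2 ⟨-X.dc w, Submodule.neg_mem _ (dc_Gr_mem hw), w, Gr_le_Fi q m hw, ?_⟩
        rw [← hw2, Dt_eq]
        abel
  let e : (ι → κ) ≃ₗ[κ] HH X.Dt (X.Fi (q + 1)) (X.Fi q) m := LinearEquiv.ofBijective L ⟨hinj, hsurj⟩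
  exact ⟨Module.Finite.equiv e, by rw [← e.finrank_eq, Module.finrank_fintype_fun_eq_card]⟩

end fin

end MPadcGP
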