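import Pool.Agent.Lib.MP_adc574_ag_GP.DatA
import Pool.Agent.Lib.MP_adc574_ag_GP.Ad

/-!
# Adapted bases for cover data up to `a`, and their base change (GP, helper79)
-/

set_option autoImplicit false

namespace MPadcGP

open TensorProduct

universe u v w x

/-- Adapted bases of the de Rham cohomology up to `a`, bases of the cohomologies of the steps and of the
quotients of the Hodge filtration up to `a`. -/
structure PreDat {A : Type u} [CommRing A] {n : ℕ} (X : CovD.{u, v} A n) (a : A) {r : ℕ → ℕ}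
    (z : ∀ m, Fin (r m) → X.Ch) (lev : ∀ m, Fin (r m) → ℕ) (h : ℕ → ℕ → ℕ) : Prop where
  ad : ∀ m, IsAdapted X.Dt X.Fi a m (z m) (lev m)
  bas : ∀ i m, ∃ (k : ℕ) (y : Fin k → X.Ch), IsBas X.Dt (X.Fi i) a m y
  gr : ∀ q m, ∃ y : Fin (h q m) → X.Ch, IsBas X.Dq (X.Gr q) a m y
  top : ∃ N, ∀ m, N < m → X.Tt m = ⊥

section pre

variable {A : Type u} [CommRing A] {n : ℕ} {X : CovD.{u, v} A n}

open CovD

theorem Fi_top {m : ℕ} (h : X.Tt m = ⊥) (i : ℕ) : X.Fi i m = ⊥ := by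
  rw [eq_bot_iff, ← h]
  exact fun c hc => hc.1

theorem Fi_top_of_lt {i m : ℕ} (h : m < i) : X.Fi i m = ⊥ := by
  rw [eq_bot_iff]
  intro c hc
  rw [Submodule.mem_bot]
  funext J
  rcases J.eq_empty_or_nonempty with hJ | hJ
  · rw [hJ, hc.1.1]
    rfl
  · have h1 := hJ.card_pos
    exact hc.2 J (by omega)

/-- Existence up to some `a ≠ 0`. -/
theorem exists_preDat [IsDomain A] (N : ℕ) (htop : ∀ m, N < m → X.Tt m = ⊥)
    (fgF : ∀ i m, ∃ G : Finset X.Ch, (∀ g ∈ G, g ∈ Zs X.Dt (X.Fi i) m) ∧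
      Zs X.Dt (X.Fi i) m ≤ Submodule.span A (G : Set X.Ch) ⊔ Bs X.Dt (X.Fi i) m)
    (fgG : ∀ q m, ∃ G : Finset X.Ch, (∀ g ∈ G, g ∈ Zs X.Dq (X.Gr q) m) ∧
      Zs X.Dq (X.Gr q) m ≤ Submodule.span A (G : Set X.Ch) ⊔ Bs X.Dq (X.Gr q) m) :
    ∃ (a : A) (r : ℕ → ℕ) (z : ∀ m, Fin (r m) → X.Ch) (lev : ∀ m, Fin (r m) → ℕ) (h : ℕ → ℕ → ℕ),
      a ≠ 0 ∧ PreDat X a z lev h := by
  have htopi : ∀ i m, N < i → X.Fi i m = ⊥ := by
    intro i m hi
    rcases Nat.lt_or_ge N m with h1 | h1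
    · exact Fi_top (htop m h1) i
    · exact Fi_top_of_lt (by omega)
  obtain ⟨a, ha, h1, h2⟩ := exists_adapted (D := X.Dt) (F := X.Fi) (fun i m => Fi_anti (Nat.le_succ i) m) N
    (fun i m hm => Fi_top (htop m hm) i) htopi fgF
  have hgt : ∀ q m, N < q → X.Gr q m = ⊥ := by
    intro q m hq
    rcases Nat.lt_or_ge N m with h1 | h1
    · exact Gr_top (htop m h1)
    · exact Gr_gt (by omega)
  obtain ⟨b, hb, h3⟩ := exists_common
    (fun q b => ∀ m, ∃ (k : ℕ) (y : Fin k → X.Ch), IsBas X.Dq (X.Gr q) b m y)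
    (fun q a b h m => by
      obtain ⟨k, y, h⟩ := h m
      exact ⟨k, y, h.mul b⟩) N
    (fun q => exists_common (fun m b => ∃ (k : ℕ) (y : Fin k → X.Ch), IsBas X.Dq (X.Gr q) b m y)
      (fun m a b ⟨k, y, h⟩ => ⟨k, y, h.mul b⟩) N
      (fun m => by
        obtain ⟨a, k, y, ha, h⟩ := exists_bas_deg (D := X.Dq) (X.Gr q) m (fgG q m)
        exact ⟨a, ha, k, y, h⟩)
      (fun m hm a => ⟨0, _, bas_bot (Gr_top (htop m hm)) a⟩))
    (fun q hq a m => ⟨0, _, bas_bot (hgt q m hq) a⟩)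
  choose r z lev hz using h1
  choose h y hy using h3
  refine ⟨b * a, r, z, lev, h, mul_ne_zero hb ha, fun m => (hz m).mul b, fun i m => ?_, fun q m => ?_,
    ⟨N, htop⟩⟩
  · obtain ⟨k, y, h⟩ := h2 i m
    exact ⟨k, y, h.mul b⟩
  · rw [mul_comm]
    exact ⟨y q m, (hy q m).mul a⟩

/-- Adapted bases in the sense of `Ad.lean`. -/
theorem PreDat.isAd {r : ℕ → ℕ} {z : ∀ m, Fin (r m) → X.Ch} {lev : ∀ m, Fin (r m) → ℕ} {h : ℕ → ℕ → ℕ}
    (hp : PreDat X (1 : A) z lev h) : IsAd X lev z := by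
  have hB : ∀ m, Bs X.Dt (X.Fi 0) m = X.Bc m := by
    intro m
    cases m with
    | zero => rfl
    | succ m =>
      change (X.Fi 0 m).map X.Dt = (X.Tt m).map X.Dt
      rw [Fi_zero]
  refine ⟨fun m b => ((hp.ad m).mem b).1, fun m b => ((hp.ad m).mem b).2, fun m i x hx hx0 => ?_,
    fun m c hc => (hp.ad m).indep c ?_⟩
  · obtain ⟨c, hc0, hc⟩ := (hp.ad m).span i x ⟨hx, hx0⟩
    rw [one_smul, hB] at hc
    exact ⟨c, hc0, hc⟩
  · rw [hB]
    exact hc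

/-- The index sets are empty in large degrees. -/
theorem PreDat.bound [Nontrivial A] {a : A} {r : ℕ → ℕ} {z : ∀ m, Fin (r m) → X.Ch}
    {lev : ∀ m, Fin (r m) → ℕ} {h : ℕ → ℕ → ℕ} (hp : PreDat X a z lev h) :
    ∃ N, ∀ m, N ≤ m → IsEmpty (Fin (r m)) := by
  obtain ⟨N, hN⟩ := hp.top
  refine ⟨N + 1, fun m hm => ⟨fun b => ?_⟩⟩
  have h1 : ∀ b, z m b = 0 := by
    intro b
    have h2 : z m b ∈ X.Tt m := ((hp.ad m).mem b).1.1
    rw [hN m (by omega)] at h2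
    exact h2
  have h3 := (hp.ad m).indep (fun _ => 1) (by
    rw [Finset.sum_eq_zero fun b _ => by rw [h1 b, smul_zero]]
    exact Submodule.zero_mem _)
  exact one_ne_zero (congrFun h3 b)

end pre

section bc

variable {A : Type u} {B : Type w} [CommRing A] [CommRing B] [Algebra A B] {n : ℕ}
  {X : CovD.{u, v} A n} {Y : CovD.{w, x} B n}

open CovD

theorem isBCm_of {T : Submodule A X.Ch} {T' : Submodule B Y.Ch} (F : Hm (algebraMap A B) X Y)
    (hm : ∀ c ∈ T, F.push c ∈ T') (hb : Function.Bijective (bcl (F.pushT T T' hm)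
      (F.pushT_smul T T' hm))) : IsBCm B F.push T T' :=
  ⟨LinearEquiv.ofBijective _ hb, fun x => by
    rw [LinearEquiv.ofBijective_apply, bcl_tmul, one_smul]
    rfl⟩

/-- Base change of the cochains of pure degree. -/
theorem bc_Gr (F : Hm (algebraMap A B) X Y) (hF : F.IsBC) (q m : ℕ) :
    IsBCm B F.push (X.Gr q m) (Y.Gr q m) := by
  obtain ⟨hm, h⟩ := F.bc_ch hF (dgG n q m) (dgG_empty n q m) (X.Gr q m) (Y.Gr q m)
    (fun _ => mem_Gr) (fun _ => mem_Gr)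
  exact isBCm_of F hm h

theorem flat_Gr (hX : ∀ J : Finset (Fin n), J.Nonempty → Module.Flat A (X.R J) ∧
    Algebra.FormallySmooth A (X.R J)) (q m : ℕ) : Module.Flat A ↥(X.Gr q m) :=
  flat_ch X hX (dgG n q m) (dgG_empty n q m) (X.Gr q m) (fun _ => mem_Gr)

/-- **Base change** of the data. -/
theorem PreDat.bc {a : A} {r : ℕ → ℕ} {z : ∀ m, Fin (r m) → X.Ch} {lev : ∀ m, Fin (r m) → ℕ}
    {h : ℕ → ℕ → ℕ} (hp : PreDat X a z lev h)
    (hX : ∀ J : Finset (Fin n), J.Nonempty → Module.Flat A (X.R J) ∧ Algebra.FormallySmooth A (X.R J))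
    (F : Hm (algebraMap A B) X Y) (hF : F.IsBC) (ha : IsUnit (algebraMap A B a)) :
    PreDat Y (1 : B) (fun m b => F.push (z m b)) lev h := by
  obtain ⟨N, hN⟩ := hp.top
  have hFi : ∀ i m, IsBCm B F.push (X.Fi i m) (Y.Fi i m) := fun i m => isBCm_of F _ (F.bc_Fi hF i m)
  have hsm : ∀ (r : A) (x : X.Ch), F.push (r • x) = algebraMap A B r • F.push x :=
    fun r x => Hm.push_smul (F := F) r x
  have hDt : ∀ x, F.push (X.Dt x) = Y.Dt (F.push x) := fun x => Hm.push_Dt (F := F) x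
  have hDq : ∀ x, F.push (X.Dq x) = Y.Dq (F.push x) := fun x => by
    rw [Dq_apply, Dq_apply, Hm.push_del, Hm.push_ic]
  refine ⟨fun m => ?_, fun i m => ?_, fun q m => ?_, ⟨N, fun m hm => ?_⟩⟩
  · exact adapted_bc (B := B) (fun i m x hx => Dt_mem_Fi hx) Dt_Dt (fun i m x hx => Dt_mem_Fi hx)
      (fun i m => Fi_anti (Nat.le_succ i) m) (fun i m => Fi_anti (Nat.le_succ i) m)
      (fun i m => flat_Fi X hX i m) N (fun i m hm => Fi_top (hN m hm) i) hsm hDt hFi ha hp.ad hp.bas m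
  · choose k y hy using hp.bas i
    exact ⟨k m, _, bas_bc (B := B) (S := X.Fi i) (S' := Y.Fi i) (fun m x hx => Dt_mem_Fi hx) Dt_Dt
      (fun m x hx => Dt_mem_Fi hx) (fun m => flat_Fi X hX i m) N (fun m hm => Fi_top (hN m hm) i) hDt
      (hFi i) ha hy m⟩
  · choose y hy using hp.gr q
    exact ⟨_, bas_bc (B := B) (S := X.Gr q) (S' := Y.Gr q) (fun m x hx => Dq_mem hx) Dq_Dq
      (fun m x hx => Dq_mem hx) (fun m => flat_Gr hX q m) N (fun m hm => Gr_top (hN m hm)) hDq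
      (fun m => bc_Gr F hF q m) ha hy m⟩
  · have h1 := isBCm_of F _ (F.bc_Tt hF m)
    obtain ⟨g, hg⟩ := h1
    rw [eq_bot_iff]
    intro c hc
    obtain ⟨t, ht⟩ := g.surjective ⟨c, hc⟩
    have h2 : Subsingleton ↥(X.Tt m) := by
      rw [hN m hm]
      exact inferInstance
    have h3 : Subsingleton (B ⊗[A] ↥(X.Tt m)) := inferInstance
    have h5 : t = 0 := Subsingleton.elim t 0
    rw [h5, map_zero] at ht
    have h4 := congrArg Subtype.val ht
    exact h4.symm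

end bc

end MPadcGP
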