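import Pool.Agent.Lib.MP_adc574_ag_GP.Conj

/-!
# Degeneration of the Hodge and of the conjugate filtration (helper88)

`Hmz m`: the de Rham cohomology. `FH i m`, `NH i m`: the Hodge and the conjugate filtration on it.
`hn a m`: the dimension of the cohomology of `F^a / F^(a+1)` in degree `m` (the Hodge number `h^(a, m - a)`).
-/

set_option autoImplicit false

namespace MPadcGP

universe u v w x

namespace CovD

open Module

variable {κ : Type u} [Field κ] {n : ℕ} (X : CovD.{u, v} κ n)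

/-- The zero subcomplex. -/
noncomputable def zs (X : CovD.{u, v} κ n) (_ : ℕ) : Submodule κ X.Ch := ⊥

/-- The de Rham cohomology. -/
abbrev Hmz (m : ℕ) := HH X.Dt X.zs X.Tt m

theorem Fi_le_Tt (i m : ℕ) : X.Fi i m ≤ X.Tt m := fun _ h => h.1

theorem Ni_le_Tt (i m : ℕ) : X.Ni i m ≤ X.Tt m := fun _ h => h.1

/-- The Hodge filtration on the cohomology. -/
noncomputable def FH (i m : ℕ) : Submodule κ (X.Hmz m) :=
  LinearMap.range (MPadcGP.al (S0 := X.zs) (S1 := X.Fi i) (S2 := X.Tt) X.Dt (X.Fi_le_Tt i) m)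

/-- The conjugate filtration on the cohomology. -/
noncomputable def NH (i m : ℕ) : Submodule κ (X.Hmz m) :=
  LinearMap.range (MPadcGP.al (S0 := X.zs) (S1 := X.Ni i) (S2 := X.Tt) X.Dt (X.Ni_le_Tt i) m)

/-- The Hodge number `h^(a, m-a)`. -/
noncomputable def hn (a m : ℕ) : ℕ := finrank κ (HH X.Dt (X.Fi (a + 1)) (X.Fi a) m)

variable {X}

theorem Fi_sub (i : ℕ) : IsSub X.Dt (X.Fi i) := fun _ _ h => Dt_mem_Fi h

theorem Tt_sub : IsSub X.Dt X.Tt := fun _ _ h => Dt_mem h

theorem Fi_bot {i m : ℕ} (h : m < i) : X.Fi i m = ⊥ := by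
  rw [eq_bot_iff]
  intro c hc
  rw [Submodule.mem_bot]
  funext J
  change c J = 0
  by_cases h0 : J = ∅
  · subst h0
    exact hc.1.1
  · have h1 : 0 < J.card := Finset.card_pos.mpr (Finset.nonempty_iff_ne_empty.mpr h0)
    exact hc.2 J (by omega)

theorem Np_top {a m : ℕ} (h : m + 1 < a) : X.Np a m = X.Tt m := by
  cases a with
  | zero => omega
  | succ a => exact Ni_top (by omega)

theorem HH_congr {T : Type w} [AddCommGroup T] [Module κ T] {D : T →ₗ[κ] T} {S S' R R' : ℕ → Submodule κ T} {m : ℕ}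
    (hz : ZZ D S R m = ZZ D S' R' m) (hb : BB D S R m = BB D S' R' m) :
    finrank κ (HH D S R m) = finrank κ (HH D S' R' m) := by
  unfold HH
  rw [hz, hb]

theorem HH_finite_congr {T : Type w} [AddCommGroup T] [Module κ T] {D : T →ₗ[κ] T} {S S' R R' : ℕ → Submodule κ T}
    {m : ℕ} (hz : ZZ D S R m = ZZ D S' R' m) (hb : BB D S R m = BB D S' R' m)
    (h : FiniteDimensional κ (HH D S R m)) : FiniteDimensional κ (HH D S' R' m) := by
  unfold HH at *
  rw [hz, hb] at h
  exact h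

theorem ZZ_congr {T : Type w} [AddCommGroup T] [Module κ T] {D : T →ₗ[κ] T} {S S' R R' : ℕ → Submodule κ T} {m : ℕ}
    (h1 : S (m + 1) = S' (m + 1)) (h2 : R m = R' m) : ZZ D S R m = ZZ D S' R' m := by
  unfold ZZ
  rw [h1, h2]

theorem BB_congr {T : Type w} [AddCommGroup T] [Module κ T] {D : T →ₗ[κ] T} {S S' R R' : ℕ → Submodule κ T} {m : ℕ}
    (h1 : S m = S' m) (h2 : pr R m = pr R' m) : BB D S R m = BB D S' R' m := by
  unfold BB
  rw [h1, h2]

section F

/-- The Hodge filtration as an increasing chain. -/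
noncomputable def Fc (X : CovD.{u, v} κ n) (r j : ℕ) : ℕ → Submodule κ X.Ch := X.Fi (r - j)

theorem Fc_mono (r j m : ℕ) : X.Fc r j m ≤ X.Fc r (j + 1) m := Fi_anti (show r - (j + 1) ≤ r - j by omega) m

theorem Fc_finite (hfin : ∀ a m, FiniteDimensional κ (HH X.Dt (X.Fi (a + 1)) (X.Fi a) m)) (r j m : ℕ) :
    FiniteDimensional κ (HH X.Dt (X.Fc r j) (X.Fc r (j + 1)) m) := by
  unfold Fc
  rcases Nat.lt_or_ge j r with h | h
  · obtain ⟨a, ha⟩ : ∃ a, r - j = a + 1 := ⟨r - j - 1, by omega⟩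
    have h2 : r - (j + 1) = a := by omega
    rw [ha, h2]
    exact hfin a m
  · have h1 : r - j = 0 := by omega
    have h2 : r - (j + 1) = 0 := by omega
    rw [h1, h2]
    have := HH_self_subsingleton X.Dt (X.Fi 0) m
    exact Module.Finite.of_finite

theorem Fc_sum (r j m : ℕ) (hj : j ≤ r) : ∑ l ∈ Finset.range j, finrank κ (HH X.Dt (X.Fc r l) (X.Fc r (l + 1)) m) =
    ∑ a ∈ Finset.Ico (r - j) r, X.hn a m := by
  induction j with
  | zero => rw [Finset.sum_range_zero, Nat.sub_zero, Finset.Ico_self, Finset.sum_empty]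
  | succ j ih =>
    rw [Finset.sum_range_succ, ih (by omega)]
    have h1 : r - j = (r - (j + 1)) + 1 := by omega
    rw [Finset.sum_eq_sum_Ico_succ_bot (show r - (j + 1) < r by omega), h1, add_comm]
    congr 1
    unfold Fc hn
    rw [← h1]

theorem pr_Fi_zero (m : ℕ) : pr (X.Fi 0) m = pr X.Tt m := by
  cases m with
  | zero => rfl
  | succ m => exact Fi_zero m

theorem Hmz_finrank_F (m : ℕ) : finrank κ (HH X.Dt (X.Fc (m + 2) 0) (X.Fc (m + 2) (m + 2)) m) = finrank κ (X.Hmz m) := by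
  refine HH_congr (ZZ_congr ?_ ?_) (BB_congr ?_ ?_)
  · exact Fi_bot (by omega)
  · unfold Fc
    rw [Nat.sub_self]
    exact Fi_zero m
  · exact Fi_bot (by omega)
  · unfold Fc
    rw [Nat.sub_self]
    exact pr_Fi_zero m

theorem Hmz_finrank_N (m : ℕ) : finrank κ (HH X.Dt (X.Np 0) (X.Np (m + 2)) m) = finrank κ (X.Hmz m) := by
  refine HH_congr (ZZ_congr rfl ?_) (BB_congr rfl ?_)
  · exact Np_top (by omega)
  · cases m with
    | zero => rfl
    | succ m => exact Np_top (show m + 1 < m + 1 + 2 by omega)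

theorem Hmz_le_sum (hfin : ∀ a m, FiniteDimensional κ (HH X.Dt (X.Fi (a + 1)) (X.Fi a) m)) (m : ℕ) :
    finrank κ (X.Hmz m) ≤ ∑ a ∈ Finset.range (m + 2), X.hn a m := by
  have h := chain_le (S := X.Fc (m + 2)) Dt_comp (fun j k => Fc_mono _ j k) (fun j => Fi_sub _) m
    (fun j => Fc_finite hfin (m + 2) j m) (m + 2)
  rw [Hmz_finrank_F, Fc_sum _ _ _ le_rfl, Nat.sub_self, ← Finset.range_eq_Ico] at h
  exact h

theorem Hmz_finite (hfin : ∀ a m, FiniteDimensional κ (HH X.Dt (X.Fi (a + 1)) (X.Fi a) m)) (m : ℕ) :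
    FiniteDimensional κ (X.Hmz m) := by
  have h := chain_finite (S := X.Fc (m + 2)) Dt_comp (fun j k => Fc_mono _ j k) (fun j => Fi_sub _) m
    (fun j => Fc_finite hfin (m + 2) j m) (m + 2)
  refine HH_finite_congr (ZZ_congr ?_ ?_) (BB_congr ?_ ?_) h
  · exact Fi_bot (by omega)
  · unfold Fc
    rw [Nat.sub_self]
    exact Fi_zero m
  · exact Fi_bot (by omega)
  · unfold Fc
    rw [Nat.sub_self]
    exact pr_Fi_zero m

variable (hfin : ∀ a m, FiniteDimensional κ (HH X.Dt (X.Fi (a + 1)) (X.Fi a) m))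
  (hsum : ∀ m, ∑ a ∈ Finset.range (m + 2), X.hn a m ≤ finrank κ (X.Hmz m))

include hfin hsum

/-- Strictness of the Hodge filtration. -/
theorem F_strict (i m : ℕ) (x : X.Ch) (hx : x ∈ X.Fi i m) (hDx : X.Dt x = 0) (hx' : x ∈ (pr X.Tt m).map X.Dt) :
    x ∈ (pr (X.Fi i) m).map X.Dt := by
  rcases Nat.lt_or_ge m i with h | h
  · rw [Fi_bot h] at hx
    rw [(Submodule.mem_bot κ).mp hx]
    exact zero_mem _
  · have h1 := chain_injective (S := X.Fc (m + 2)) Dt_comp (fun j k => Fc_mono _ j k) (fun j => Fi_sub _) m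
      (fun j => Fc_finite hfin (m + 2) j m) (m + 2) (by
        rw [Hmz_finrank_F, Fc_sum _ _ _ le_rfl, Nat.sub_self, ← Finset.range_eq_Ico]
        exact hsum m) (m + 2 - i) (by omega) x ?_ ?_
    · obtain ⟨s, hs, y, hy, hxy⟩ := mem_BB.mp h1
      have hs0 : s = 0 := by
        have h2 : s ∈ X.Fi (m + 2) m := hs
        rw [Fi_bot (by omega)] at h2
        exact (Submodule.mem_bot κ).mp h2
      rw [hs0, zero_add] at hxy
      rw [hxy]
      refine Submodule.mem_map_of_mem ?_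
      have e : X.Fc (m + 2) (m + 2 - i) = X.Fi i := by
        have e0 : m + 2 - (m + 2 - i) = i := by omega
        unfold Fc
        rw [e0]
      rwa [e] at hy
    · refine ⟨?_, ?_⟩
      · have e : X.Fc (m + 2) (m + 2 - i) = X.Fi i := by
          have e0 : m + 2 - (m + 2 - i) = i := by omega
          unfold Fc
          rw [e0]
        rw [e]
        exact hx
      · have h2 : X.Dt x ∈ X.Fc (m + 2) 0 (m + 1) := by
          rw [hDx]
          exact zero_mem _
        exact h2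
    · obtain ⟨y, hy, rfl⟩ := Submodule.mem_map.mp hx'
      refine mem_BB.mpr ⟨0, zero_mem _, y, ?_, by rw [zero_add]⟩
      have e : X.Fc (m + 2) (m + 2) = X.Fi 0 := by
        unfold Fc
        rw [Nat.sub_self]
      rw [e, pr_Fi_zero]
      exact hy

theorem F_inj (i m : ℕ) : Function.Injective (MPadcGP.al (S0 := X.zs) (S1 := X.Fi i) (S2 := X.Tt) X.Dt (X.Fi_le_Tt i) m) := by
  refine sq_injective _ _ fun x hx hx' => ?_
  obtain ⟨s, hs, y, hy, hxy⟩ := mem_BB.mp hx'
  have hs0 : s = 0 := (Submodule.mem_bot κ).mp hs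
  rw [hs0, zero_add] at hxy
  have h := F_strict hfin hsum i m x hx.1 ((Submodule.mem_bot κ).mp hx.2) (hxy ▸ Submodule.mem_map_of_mem hy)
  obtain ⟨y', hy', e⟩ := Submodule.mem_map.mp h
  exact mem_BB.mpr ⟨0, zero_mem _, y', hy', by rw [zero_add, e]⟩

theorem FH_finrank (i m : ℕ) : finrank κ (X.FH i m) = ∑ a ∈ Finset.Ico i (m + 2), X.hn a m := by
  have h0 : finrank κ (X.FH i m) = finrank κ (HH X.Dt X.zs (X.Fi i) m) :=
    LinearMap.finrank_range_of_inj (F_inj hfin hsum i m)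
  rw [h0]
  rcases Nat.lt_or_ge (m + 1) i with h | h
  · rw [Finset.Ico_eq_empty (by omega), Finset.sum_empty]
    have h1 : Subsingleton (HH X.Dt X.zs (X.Fi i) m) := by
      refine subsingleton_of_forall_eq 0 fun a => ?_
      induction a using Submodule.Quotient.induction_on with
      | H x =>
        rw [Submodule.Quotient.mk_eq_zero]
        have h2 : (x : X.Ch) ∈ X.Fi i m := x.2.1
        rw [Fi_bot (by omega)] at h2
        change (x : X.Ch) ∈ BB X.Dt X.zs (X.Fi i) m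
        rw [(Submodule.mem_bot κ).mp h2]
        exact zero_mem _
    exact Module.finrank_zero_of_subsingleton
  · have hle : ∑ j ∈ Finset.range (m + 2), finrank κ (HH X.Dt (X.Fc (m + 2) j) (X.Fc (m + 2) (j + 1)) m) ≤
        finrank κ (HH X.Dt (X.Fc (m + 2) 0) (X.Fc (m + 2) (m + 2)) m) := by
      rw [Hmz_finrank_F, Fc_sum _ _ _ le_rfl, Nat.sub_self, ← Finset.range_eq_Ico]
      exact hsum m
    have h1 : finrank κ (HH X.Dt (X.Fc (m + 2) 0) (X.Fc (m + 2) (m + 2 - i)) m) = ∑ a ∈ Finset.Ico i (m + 2), X.hn a m := by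
      have e : m + 2 - (m + 2 - i) = i := by omega
      have h2 := Fc_sum (X := X) (m + 2) (m + 2 - i) m (by omega)
      rw [e] at h2
      rcases Nat.eq_zero_or_pos i with h3 | h3
      · subst h3
        rw [← h2]
        refine le_antisymm ?_ hle
        exact chain_le (S := X.Fc (m + 2)) Dt_comp (fun j k => Fc_mono _ j k) (fun j => Fi_sub _) m
          (fun j => Fc_finite hfin (m + 2) j m) (m + 2)
      · rw [← h2]
        exact (chain_exact (S := X.Fc (m + 2)) Dt_comp (fun j k => Fc_mono _ j k) (fun j => Fi_sub _) m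
          (fun j => Fc_finite hfin (m + 2) j m) (m + 2) hle (m + 2 - i) (by omega)).1
    rw [← h1]
    have e : X.Fc (m + 2) (m + 2 - i) = X.Fi i := by
      have e0 : m + 2 - (m + 2 - i) = i := by omega
      unfold Fc
      rw [e0]
    rw [e]
    exact (HH_congr (ZZ_congr (Fi_bot (by omega)) rfl) (BB_congr (Fi_bot (by omega)) rfl)).symm

end F

section N

variable (hfin : ∀ a m, FiniteDimensional κ (HH X.Dt (X.Fi (a + 1)) (X.Fi a) m))
  (hsum : ∀ m, ∑ a ∈ Finset.range (m + 2), X.hn a m ≤ finrank κ (X.Hmz m))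
  (p : ℕ) [hp : Fact p.Prime] [CharP κ p] {L : Type} [Fintype L] (b : L → κ)
  (hc : ∀ J : Finset (Fin n), J.Nonempty → CarP p b (X.R J))

include hfin hsum hc

theorem gr_eq (m : ℕ) : ∑ a ∈ Finset.range (m + 2), finrank κ (HH X.Dt (X.Np a) (X.Np (a + 1)) m) ≤
    finrank κ (HH X.Dt (X.Np 0) (X.Np (m + 2)) m) ∧
    ∀ a < m + 2, finrank κ (HH X.Dt (X.Np a) (X.Np (a + 1)) m) = X.hn a m := by
  have h1 : ∀ a, finrank κ (HH X.Dt (X.Np a) (X.Np (a + 1)) m) ≤ X.hn a m := fun a =>
    (conj_le p b hc a m (hfin a m)).2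
  have h2 := chain_le (S := X.Np) Dt_comp Np_le Np_sub m (fun a => (conj_le p b hc a m (hfin a m)).1) (m + 2)
  have h3 := hsum m
  rw [Hmz_finrank_N] at h2 ⊢
  have h4 : ∑ a ∈ Finset.range (m + 2), finrank κ (HH X.Dt (X.Np a) (X.Np (a + 1)) m) ≤
      ∑ a ∈ Finset.range (m + 2), X.hn a m := Finset.sum_le_sum fun a _ => h1 a
  refine ⟨h4.trans h3, fun a ha => ?_⟩
  have h5 : ∑ a ∈ Finset.range (m + 2), finrank κ (HH X.Dt (X.Np a) (X.Np (a + 1)) m) =
      ∑ a ∈ Finset.range (m + 2), X.hn a m := le_antisymm h4 (h3.trans h2)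
  exact (Finset.sum_eq_sum_iff_of_le fun a _ => h1 a).mp h5 a (Finset.mem_range.mpr ha)

/-- Strictness of the conjugate filtration. -/
theorem N_strict (i m : ℕ) (x : X.Ch) (hx : x ∈ X.Ni i m) (hDx : X.Dt x = 0) (hx' : x ∈ (pr X.Tt m).map X.Dt) :
    x ∈ (pr (X.Ni i) m).map X.Dt := by
  rcases Nat.lt_or_ge m i with h | h
  · have e : pr (X.Ni i) m = pr X.Tt m := by
      cases m with
      | zero => rfl
      | succ m => exact Ni_top (by omega)
    rw [e]
    exact hx'
  · have h1 := chain_injective (S := X.Np) Dt_comp Np_le Np_sub m (fun a => (conj_le p b hc a m (hfin a m)).1) (m + 2)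
      (gr_eq hfin hsum p b hc m).1 (i + 1) (by omega) x ⟨hx, by
        have h2 : X.Dt x ∈ X.Np 0 (m + 1) := by
          rw [hDx]
          exact zero_mem _
        exact h2⟩ ?_
    · obtain ⟨s, hs, y, hy, hxy⟩ := mem_BB.mp h1
      have hs0 : s = 0 := (Submodule.mem_bot κ).mp hs
      rw [hs0, zero_add] at hxy
      rw [hxy]
      exact Submodule.mem_map_of_mem hy
    · obtain ⟨y, hy, rfl⟩ := Submodule.mem_map.mp hx'
      refine mem_BB.mpr ⟨0, zero_mem _, y, ?_, by rw [zero_add]⟩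
      cases m with
      | zero => exact hy
      | succ m =>
        change y ∈ X.Np (m + 1 + 2) m
        rw [Np_top (by omega)]
        exact hy

theorem N_inj (i m : ℕ) : Function.Injective (MPadcGP.al (S0 := X.zs) (S1 := X.Ni i) (S2 := X.Tt) X.Dt (X.Ni_le_Tt i) m) := by
  refine sq_injective _ _ fun x hx hx' => ?_
  obtain ⟨s, hs, y, hy, hxy⟩ := mem_BB.mp hx'
  have hs0 : s = 0 := (Submodule.mem_bot κ).mp hs
  rw [hs0, zero_add] at hxy
  have h := N_strict hfin hsum p b hc i m x hx.1 ((Submodule.mem_bot κ).mp hx.2) (hxy ▸ Submodule.mem_map_of_mem hy)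
  obtain ⟨y', hy', e⟩ := Submodule.mem_map.mp h
  exact mem_BB.mpr ⟨0, zero_mem _, y', hy', by rw [zero_add, e]⟩

theorem NH_finrank (i m : ℕ) (hi : i ≤ m) : finrank κ (X.NH i m) = ∑ a ∈ Finset.range (i + 1), X.hn a m := by
  have h0 : finrank κ (X.NH i m) = finrank κ (HH X.Dt X.zs (X.Ni i) m) :=
    LinearMap.finrank_range_of_inj (N_inj hfin hsum p b hc i m)
  have h1 : finrank κ (HH X.Dt X.zs (X.Ni i) m) = finrank κ (HH X.Dt (X.Np 0) (X.Np (i + 1)) m) :=
    HH_congr (ZZ_congr rfl rfl) (BB_congr rfl rfl)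
  have h2 := (chain_exact (S := X.Np) Dt_comp Np_le Np_sub m (fun a => (conj_le p b hc a m (hfin a m)).1) (m + 2)
    (gr_eq hfin hsum p b hc m).1 (i + 1) (by omega)).1
  rw [h0, h1, h2]
  exact Finset.sum_congr rfl fun a ha => (gr_eq hfin hsum p b hc m).2 a (by
    have := Finset.mem_range.mp ha
    omega)

omit hfin hsum hc [Fintype L] in
theorem NH_top (i m : ℕ) (hi : m < i) : X.NH i m = ⊤ := by
  unfold NH
  rw [LinearMap.range_eq_top]
  refine sq_surjective _ _ fun x hx => ⟨x, ?_, by rw [sub_self]; exact zero_mem _⟩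
  refine ⟨?_, hx.2⟩
  rw [Ni_top hi]
  exact hx.1

/-- The dimensions of the two filtrations are complementary. -/
theorem finrank_add (i m : ℕ) : finrank κ (X.NH i m) + finrank κ (X.FH (i + 1) m) = finrank κ (X.Hmz m) := by
  have hf := Hmz_finite hfin m
  rcases Nat.lt_or_ge m i with h | h
  · rw [NH_top i m h, finrank_top, FH_finrank hfin hsum, Finset.Ico_eq_empty (by omega),
      Finset.sum_empty, add_zero]
  · rw [NH_finrank hfin hsum p b hc i m h, FH_finrank hfin hsum, Finset.range_eq_Ico,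
      Finset.sum_Ico_consecutive _ (Nat.zero_le _) (by omega)]
    refine le_antisymm ?_ ?_
    · rw [← Finset.range_eq_Ico]
      exact hsum m
    · rw [← Finset.range_eq_Ico]
      exact Hmz_le_sum hfin m

end N

end CovD

end MPadcGP
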