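import Mathlib

/-!
# Base change for bounded complexes of flat modules (GP, helper79)

`C m`, `d m : C m → C (m + 1)` is a complex of `R`-modules, `ccy d m` the cocycles, `cbd d m` the coboundaries.
If all `C m` and all cohomology modules are flat and `C m = 0` for large `m`, cohomology commutes with every
base change: `bc_span`, `bc_indep` (in terms of a basis of the cohomology).
-/

set_option autoImplicit false

namespace MPadcGP

open scoped TensorProduct

section flat

universe u

variable {R : Type u} [CommRing R] {K N P : Type*} [AddCommGroup K] [AddCommGroup N] [AddCommGroup P]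
  [Module R K] [Module R N] [Module R P]

/-- The kernel of a surjection of flat modules is flat. -/
theorem flat_of_exact (g : K →ₗ[R] N) (f : N →ₗ[R] P) (hg : Function.Injective g)
    (hf : Function.Surjective f) (H : Function.Exact g f) [Module.Flat R N] [Module.Flat R P] :
    Module.Flat R K := by
  rw [Module.Flat.iff_rTensor_preserves_injective_linearMap]
  intro X Y _ _ _ _ i hi
  have h1 : (g.lTensor Y) ∘ₗ (i.rTensor K) = (i.rTensor N) ∘ₗ (g.lTensor X) := by
    rw [LinearMap.lTensor_comp_rTensor, LinearMap.rTensor_comp_lTensor]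
  have h2 : Function.Injective ((i.rTensor N) ∘ₗ (g.lTensor X)) := by
    rw [LinearMap.coe_comp]
    exact (Module.Flat.rTensor_preserves_injective_linearMap i hi).comp
      (LinearMap.lTensor_injective_of_exact_of_flat f hf g hg H X)
  rw [← h1, LinearMap.coe_comp] at h2
  exact Function.Injective.of_comp h2

end flat

section cpx

universe u v w x

variable {R : Type u} [CommRing R] {C : ℕ → Type v} [∀ m, AddCommGroup (C m)] [∀ m, Module R (C m)]
  (d : ∀ m, C m →ₗ[R] C (m + 1))

/-- The cocycles. -/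
def ccy (m : ℕ) : Submodule R (C m) := LinearMap.ker (d m)

/-- The coboundaries. -/
def cbd : ∀ m, Submodule R (C m)
  | 0 => ⊥
  | m + 1 => LinearMap.range (d m)

variable {d}

theorem mem_cy {m : ℕ} {x : C m} : x ∈ ccy d m ↔ d m x = 0 := Iff.rfl

theorem mem_bd_succ {m : ℕ} {x : C (m + 1)} : x ∈ cbd d (m + 1) ↔ ∃ y, d m y = x := Iff.rfl

theorem mem_bd_zero {x : C 0} : x ∈ cbd d 0 ↔ x = 0 := Iff.rfl

theorem bd_le_cy (hd : ∀ m x, d (m + 1) (d m x) = 0) (m : ℕ) : cbd d m ≤ ccy d m := by
  cases m with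
  | zero =>
    intro x hx
    rw [mem_bd_zero] at hx
    rw [hx]
    exact Submodule.zero_mem _
  | succ m =>
    intro x hx
    obtain ⟨y, rfl⟩ := mem_bd_succ.mp hx
    exact hd m y

variable (d)

/-- The differential onto the coboundaries. -/
def drc (m : ℕ) : C m →ₗ[R] cbd d (m + 1) := (d m).rangeRestrict

theorem dr_apply (m : ℕ) (x : C m) : ((drc d m x : cbd d (m + 1)) : C (m + 1)) = d m x := rfl

theorem dr_surjective (m : ℕ) : Function.Surjective (drc d m) := by
  rintro ⟨x, hx⟩
  obtain ⟨y, hy⟩ := mem_bd_succ.mp hx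
  exact ⟨y, Subtype.ext hy⟩

theorem dr_exact (m : ℕ) : Function.Exact (ccy d m).subtype (drc d m) := by
  intro x
  constructor
  · intro h
    exact ⟨⟨x, congrArg Subtype.val h⟩, rfl⟩
  · rintro ⟨y, rfl⟩
    exact Subtype.ext y.2

/-- The cohomology. -/
abbrev Hh (m : ℕ) : Type _ := ↥(ccy d m) ⧸ (cbd d m).submoduleOf (ccy d m)

variable {d}

/-- All cocycles and coboundaries are flat. -/
theorem flat_all (hd : ∀ m x, d (m + 1) (d m x) = 0) (hC : ∀ m, Module.Flat R (C m))
    (hH : ∀ m, Module.Flat R (Hh d m)) (N : ℕ) (htop : ∀ m, N < m → Subsingleton (C m)) (m : ℕ) :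
    Module.Flat R (ccy d m) ∧ Module.Flat R (cbd d m) := by
  have key : ∀ k m : ℕ, N < m + k → Module.Flat R (ccy d m) ∧ Module.Flat R (cbd d m) := by
    intro k
    induction k with
    | zero =>
      intro m hm
      have := htop m hm
      exact ⟨inferInstance, inferInstance⟩
    | succ k ih =>
      intro m hm
      have := (ih (m + 1) (by omega)).2
      have := hC m
      have := hH m
      have h1 : Module.Flat R (ccy d m) :=
        flat_of_exact (ccy d m).subtype (drc d m) (Submodule.subtype_injective _) (dr_surjective d m) (dr_exact d m)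
      refine ⟨h1, ?_⟩
      refine flat_of_exact (Submodule.inclusion (bd_le_cy hd m)) ((cbd d m).submoduleOf (ccy d m)).mkQ
        (Submodule.inclusion_injective _) (Submodule.mkQ_surjective _) ?_
      intro x
      rw [Submodule.mkQ_apply, Submodule.Quotient.mk_eq_zero]
      constructor
      · intro h
        exact ⟨⟨x, h⟩, rfl⟩
      · rintro ⟨y, rfl⟩
        exact y.2
  exact key (N + 1) m (by omega)

section tensor

variable (Q : Type w) [AddCommGroup Q] [Module R Q]

theorem inj_cy (m : ℕ) [Module.Flat R (cbd d (m + 1))] :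
    Function.Injective ((ccy d m).subtype.lTensor Q) :=
  LinearMap.lTensor_injective_of_exact_of_flat (drc d m) (dr_surjective d m) _
    (Submodule.subtype_injective _) (dr_exact d m) Q

theorem inj_bd (hd : ∀ m x, d (m + 1) (d m x) = 0) (m : ℕ) [Module.Flat R (cbd d (m + 1))]
    [Module.Flat R (Hh d m)] : Function.Injective ((cbd d m).subtype.lTensor Q) := by
  have h1 : (cbd d m).subtype = (ccy d m).subtype ∘ₗ Submodule.inclusion (bd_le_cy hd m) := rfl
  rw [h1, LinearMap.lTensor_comp, LinearMap.coe_comp]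
  refine (inj_cy Q m).comp (LinearMap.lTensor_injective_of_exact_of_flat ((cbd d m).submoduleOf (ccy d m)).mkQ
    (Submodule.mkQ_surjective _) _ (Submodule.inclusion_injective _) ?_ Q)
  intro x
  rw [Submodule.mkQ_apply, Submodule.Quotient.mk_eq_zero]
  constructor
  · intro h
    exact ⟨⟨x, h⟩, rfl⟩
  · rintro ⟨y, rfl⟩
    exact y.2

/-- The cocycles of the tensor product come from the cocycles. -/
theorem ker_tensor (hd : ∀ m x, d (m + 1) (d m x) = 0) (m : ℕ) [Module.Flat R (cbd d (m + 1 + 1))]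
    [Module.Flat R (Hh d (m + 1))] (x : Q ⊗[R] C m) (hx : (d m).lTensor Q x = 0) :
    ∃ w, (ccy d m).subtype.lTensor Q w = x := by
  have h1 : (cbd d (m + 1)).subtype ∘ₗ drc d m = d m := rfl
  rw [← h1, LinearMap.lTensor_comp, LinearMap.comp_apply] at hx
  have h2 : (drc d m).lTensor Q x = 0 := by
    apply inj_bd Q hd (m + 1)
    rw [hx, map_zero]
  exact (lTensor_exact Q (dr_exact d m) (dr_surjective d m) x).mp h2

/-- The coboundaries of the tensor product. -/
def bdQ : ∀ m, Submodule R (Q ⊗[R] C m)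
  | 0 => ⊥
  | m + 1 => LinearMap.range ((d m).lTensor Q)

theorem mk_zero_of_mem (hd : ∀ m x, d (m + 1) (d m x) = 0) (m : ℕ) [Module.Flat R (cbd d (m + 1))]
    (w : Q ⊗[R] ccy d m) (hw : (ccy d m).subtype.lTensor Q w ∈ bdQ (d := d) Q m) :
    ((cbd d m).submoduleOf (ccy d m)).mkQ.lTensor Q w = 0 := by
  cases m with
  | zero =>
    have h1 : (ccy d 0).subtype.lTensor Q w = 0 := hw
    have h2 : w = 0 := by
      apply inj_cy Q 0
      rw [h1, map_zero]
    rw [h2, map_zero]
  | succ m =>
    obtain ⟨x, hx⟩ := hw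
    have h1 : (ccy d (m + 1)).subtype ∘ₗ (d m).codRestrict (ccy d (m + 1)) (fun c => hd m c) = d m := rfl
    have h2 : ((d m).codRestrict (ccy d (m + 1)) (fun c => hd m c)).lTensor Q x = w := by
      apply inj_cy Q (m + 1)
      rw [← hx, ← LinearMap.comp_apply, ← LinearMap.lTensor_comp, h1]
    have h3 : ((cbd d (m + 1)).submoduleOf (ccy d (m + 1))).mkQ ∘ₗ
        (d m).codRestrict (ccy d (m + 1)) (fun c => hd m c) = 0 := by
      ext y
      rw [LinearMap.comp_apply, LinearMap.zero_apply, Submodule.mkQ_apply, Submodule.Quotient.mk_eq_zero]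
      exact ⟨y, rfl⟩
    rw [← h2, ← LinearMap.comp_apply, ← LinearMap.lTensor_comp, h3, LinearMap.lTensor_zero,
      LinearMap.zero_apply]

end tensor

section bc

variable (B : Type w) [CommRing B] [Algebra R B] {C' : ℕ → Type x} [∀ m, AddCommGroup (C' m)]
  [∀ m, Module B (C' m)] {d' : ∀ m, C' m →ₗ[B] C' (m + 1)} (g : ∀ m, B ⊗[R] C m ≃ₗ[B] C' m)

/-- Cocycles of the base change come from cocycles. -/
theorem bc_cy (hd : ∀ m x, d (m + 1) (d m x) = 0)
    (hg : ∀ m (b : B) (x : C m), g (m + 1) (b ⊗ₜ d m x) = d' m (g m (b ⊗ₜ x))) (m : ℕ)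
    [Module.Flat R (cbd d (m + 1 + 1))] [Module.Flat R (Hh d (m + 1))] (z : C' m) (hz : d' m z = 0) :
    z ∈ Submodule.span B {z' | ∃ x ∈ ccy d m, z' = g m (1 ⊗ₜ x)} := by
  have hcomm : ∀ (m : ℕ) (x : B ⊗[R] C m), g (m + 1) ((d m).lTensor B x) = d' m (g m x) := by
    intro m x
    induction x with
    | zero => simp only [map_zero]
    | add x y hx hy => simp only [map_add, hx, hy]
    | tmul b c => rw [LinearMap.lTensor_tmul, hg]
  obtain ⟨x, rfl⟩ := (g m).surjective z
  have hx : (d m).lTensor B x = 0 := by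
    apply (g (m + 1)).injective
    rw [hcomm, hz, map_zero]
  obtain ⟨w, rfl⟩ := ker_tensor B hd m x hx
  clear hx hz
  induction w with
  | zero => simp only [map_zero]; exact Submodule.zero_mem _
  | add x y hx hy => simp only [map_add]; exact Submodule.add_mem _ hx hy
  | tmul b c =>
    rw [LinearMap.lTensor_tmul]
    have h1 : b ⊗ₜ[R] ((ccy d m).subtype c) = b • ((1 : B) ⊗ₜ[R] (c : C m)) := by
      rw [TensorProduct.smul_tmul', smul_eq_mul, mul_one]
      rfl
    rw [h1, map_smul]
    exact Submodule.smul_mem _ _ (Submodule.subset_span ⟨c, c.2, rfl⟩)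

theorem bc_map_bd (hg : ∀ m (b : B) (x : C m), g (m + 1) (b ⊗ₜ d m x) = d' m (g m (b ⊗ₜ x))) (m : ℕ)
    (x : C m) (hx : x ∈ cbd d m) : g m (1 ⊗ₜ x) ∈ cbd d' m := by
  cases m with
  | zero =>
    rw [mem_bd_zero.mp hx, TensorProduct.tmul_zero, map_zero]
    exact Submodule.zero_mem _
  | succ m =>
    obtain ⟨y, rfl⟩ := mem_bd_succ.mp hx
    exact ⟨g m (1 ⊗ₜ y), (hg m 1 y).symm⟩

/-- A generating family of the cohomology generates after base change. -/
theorem bc_span (hd : ∀ m x, d (m + 1) (d m x) = 0)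
    (hg : ∀ m (b : B) (x : C m), g (m + 1) (b ⊗ₜ d m x) = d' m (g m (b ⊗ₜ x))) (m : ℕ)
    [Module.Flat R (cbd d (m + 1 + 1))]
    [Module.Flat R (Hh d (m + 1))] {ι : Type*} [Fintype ι] (y : ι → C m)
    (hy : ∀ z ∈ ccy d m, ∃ c : ι → R, z - ∑ j, c j • y j ∈ cbd d m) (z : C' m) (hz : d' m z = 0) :
    ∃ c : ι → B, z - ∑ j, c j • g m (1 ⊗ₜ y j) ∈ cbd d' m := by
  have h1 := bc_cy B g hd hg m z hz
  clear hz
  induction h1 using Submodule.span_induction with
  | mem z h =>
    obtain ⟨z0, hz0, rfl⟩ := h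
    obtain ⟨c, hc0⟩ := hy z0 hz0
    refine ⟨fun j => algebraMap R B (c j), ?_⟩
    have h2 := bc_map_bd B g hg m _ hc0
    rw [TensorProduct.tmul_sub, TensorProduct.tmul_sum, map_sub, map_sum] at h2
    have h3 : ∑ j, g m ((1 : B) ⊗ₜ[R] (c j • y j)) = ∑ j, algebraMap R B (c j) • g m (1 ⊗ₜ y j) := by
      refine Finset.sum_congr rfl fun j _ => ?_
      rw [← map_smul, TensorProduct.smul_tmul', smul_eq_mul, mul_one, TensorProduct.tmul_smul,
        TensorProduct.smul_tmul', Algebra.smul_def, mul_one]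
    rwa [h3] at h2
  | zero =>
    refine ⟨0, ?_⟩
    simp only [Pi.zero_apply, zero_smul, Finset.sum_const_zero, sub_zero]
    exact Submodule.zero_mem _
  | add a b _ _ iha ihb =>
    obtain ⟨c, hc0⟩ := iha
    obtain ⟨c', hc'⟩ := ihb
    refine ⟨c + c', ?_⟩
    have h2 : a + b - ∑ j, (c + c') j • g m (1 ⊗ₜ y j) =
        (a - ∑ j, c j • g m (1 ⊗ₜ y j)) + (b - ∑ j, c' j • g m (1 ⊗ₜ y j)) := by
      simp only [Pi.add_apply, add_smul, Finset.sum_add_distrib]
      abel
    rw [h2]
    exact Submodule.add_mem _ hc0 hc'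
  | smul r a _ iha =>
    obtain ⟨c, hc0⟩ := iha
    refine ⟨r • c, ?_⟩
    have h2 : r • a - ∑ j, (r • c) j • g m (1 ⊗ₜ y j) = r • (a - ∑ j, c j • g m (1 ⊗ₜ y j)) := by
      rw [smul_sub, Finset.smul_sum]
      simp only [Pi.smul_apply, smul_eq_mul, mul_smul]
    rw [h2]
    exact Submodule.smul_mem _ _ hc0

/-- The basis of the cohomology given by cocycles. -/
theorem exists_basis (m : ℕ) {ι : Type*} [Fintype ι] (y : ι → C m) (hycy : ∀ j, y j ∈ ccy d m)
    (hy : ∀ z ∈ ccy d m, ∃ c : ι → R, z - ∑ j, c j • y j ∈ cbd d m)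
    (hyi : ∀ c : ι → R, ∑ j, c j • y j ∈ cbd d m → c = 0) :
    ∃ bs : Module.Basis ι R (Hh d m), ∀ j, bs j = Submodule.Quotient.mk (⟨y j, hycy j⟩ : ccy d m) := by
  let v : ι → Hh d m := fun j => Submodule.Quotient.mk (⟨y j, hycy j⟩ : ccy d m)
  have hli : LinearIndependent R v := by
    rw [Fintype.linearIndependent_iff]
    intro g hg
    have h1 : (Submodule.Quotient.mk (∑ j, g j • (⟨y j, hycy j⟩ : ccy d m)) : Hh d m) = 0 := by
      rw [← hg, ← Submodule.mkQ_apply, map_sum]
      rfl
    rw [Submodule.Quotient.mk_eq_zero] at h1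
    have h2 : ∑ j, g j • y j ∈ cbd d m := by
      have h3 : ((∑ j, g j • (⟨y j, hycy j⟩ : ccy d m) : ccy d m) : C m) = ∑ j, g j • y j := by
        rw [Submodule.coe_sum]
        rfl
      rw [← h3]
      exact h1
    intro i
    exact congrFun (hyi g h2) i
  have hsp : ⊤ ≤ Submodule.span R (Set.range v) := by
    rintro a -
    induction a using Submodule.Quotient.induction_on with
    | H z =>
      obtain ⟨g, hg⟩ := hy z z.2
      have h1 : (Submodule.Quotient.mk z : Hh d m) = ∑ j, g j • v j := by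
        have h2 : (Submodule.Quotient.mk z : Hh d m) =
            Submodule.Quotient.mk (∑ j, g j • (⟨y j, hycy j⟩ : ccy d m)) := by
          rw [Submodule.Quotient.eq]
          have h3 : ((z - ∑ j, g j • (⟨y j, hycy j⟩ : ccy d m) : ccy d m) : C m) = z - ∑ j, g j • y j := by
            rw [Submodule.coe_sub, Submodule.coe_sum]
            rfl
          change ((z - ∑ j, g j • (⟨y j, hycy j⟩ : ccy d m) : ccy d m) : C m) ∈ cbd d m
          rw [h3]
          exact hg
        rw [h2, ← Submodule.mkQ_apply, map_sum]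
        rfl
      rw [h1]
      exact Submodule.sum_mem _ fun j _ => Submodule.smul_mem _ _ (Submodule.subset_span ⟨j, rfl⟩)
  exact ⟨Module.Basis.mk hli hsp, fun j => Module.Basis.mk_apply hli hsp j⟩

/-- A basis of the cohomology stays independent after base change. -/
theorem bc_indep (hd : ∀ m x, d (m + 1) (d m x) = 0)
    (hg : ∀ m (b : B) (x : C m), g (m + 1) (b ⊗ₜ d m x) = d' m (g m (b ⊗ₜ x))) (m : ℕ)
    [Module.Flat R (cbd d (m + 1))]
    {ι : Type*} [Fintype ι] (y : ι → C m) (hycy : ∀ j, y j ∈ ccy d m)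
    (hy : ∀ z ∈ ccy d m, ∃ c : ι → R, z - ∑ j, c j • y j ∈ cbd d m)
    (hyi : ∀ c : ι → R, ∑ j, c j • y j ∈ cbd d m → c = 0) (c : ι → B)
    (hz : ∑ j, c j • g m (1 ⊗ₜ y j) ∈ cbd d' m) : c = 0 := by
  classical
  have hcomm : ∀ (m : ℕ) (x : B ⊗[R] C m), g (m + 1) ((d m).lTensor B x) = d' m (g m x) := by
    intro m x
    induction x with
    | zero => simp only [map_zero]
    | add x y hx hy => simp only [map_add, hx, hy]
    | tmul b c => rw [LinearMap.lTensor_tmul, hg]
  set w : B ⊗[R] ccy d m := ∑ j, c j ⊗ₜ[R] (⟨y j, hycy j⟩ : ccy d m) with hw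
  have hw1 : g m ((ccy d m).subtype.lTensor B w) = ∑ j, c j • g m (1 ⊗ₜ y j) := by
    rw [hw, map_sum, map_sum]
    refine Finset.sum_congr rfl fun j _ => ?_
    rw [LinearMap.lTensor_tmul, ← map_smul, TensorProduct.smul_tmul', smul_eq_mul, mul_one]
    rfl
  have hw2 : (ccy d m).subtype.lTensor B w ∈ bdQ (d := d) B m := by
    cases m with
    | zero =>
      have h1 : g 0 ((ccy d 0).subtype.lTensor B w) = 0 := by
        rw [hw1]
        exact hz
      have h2 : (ccy d 0).subtype.lTensor B w = 0 := by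
        apply (g 0).injective
        rw [h1, map_zero]
      rw [h2]
      exact Submodule.zero_mem _
    | succ m =>
      obtain ⟨t, ht⟩ := hz
      obtain ⟨x, rfl⟩ := (g m).surjective t
      refine ⟨x, ?_⟩
      apply (g (m + 1)).injective
      rw [hw1, hcomm, ht]
  have hw3 := mk_zero_of_mem B hd m w hw2
  obtain ⟨bs, hbs⟩ := exists_basis (d := d) m y hycy hy hyi
  have h4 : ∑ j, c j • (bs.baseChange B) j = 0 := by
    have h5 : ∀ j, c j • (bs.baseChange B) j =
        c j ⊗ₜ[R] (Submodule.Quotient.mk (⟨y j, hycy j⟩ : ccy d m) : Hh d m) := by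
      intro j
      rw [Module.Basis.baseChange_apply, TensorProduct.smul_tmul', smul_eq_mul, mul_one, hbs]
    rw [Finset.sum_congr rfl fun j _ => h5 j]
    rw [hw, map_sum] at hw3
    exact hw3
  have h6 := Fintype.linearIndependent_iff.mp (bs.baseChange B).linearIndependent c h4
  exact funext h6

end bc

end cpx

end MPadcGP
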