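import Pool.Agent.Lib.MP_adc574_ag_GP.FB1

/-!
# Bases up to an element `a` (GP, helper79)

`rel_basis`: a module which is finitely generated modulo `P` has a basis modulo `P` up to multiplication
by some `a ≠ 0`. `Zs`, `Bs`: cocycles and coboundaries of a graded subcomplex `S` of `(T, D)`.
`loc_span`, `loc_indep`: such a basis of the cohomology becomes a basis over `R = A[1/a]`.
-/

set_option autoImplicit false

namespace MPadcGP

open scoped TensorProduct

section rel

universe u v

variable {A : Type u} [CommRing A] {T : Type v} [AddCommGroup T] [Module A T]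

theorem mem_span_sup {ι : Type*} [Fintype ι] (y : ι → T) (P : Submodule A T) (x : T) :
    x ∈ Submodule.span A (Set.range y) ⊔ P ↔ ∃ c : ι → A, x - ∑ j, c j • y j ∈ P := by
  rw [Submodule.mem_sup]
  constructor
  · rintro ⟨s, hs, p, hp, rfl⟩
    obtain ⟨c, rfl⟩ := (Submodule.mem_span_range_iff_exists_fun A).mp hs
    refine ⟨c, ?_⟩
    rw [add_sub_cancel_left]
    exact hp
  · rintro ⟨c, hc⟩
    exact ⟨_, (Submodule.mem_span_range_iff_exists_fun A).mpr ⟨c, rfl⟩, _, hc, by abel⟩

/-- A finite set contains a basis modulo `P` up to multiplication by some `a ≠ 0`. -/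
theorem rel_basis_set [IsDomain A] (P : Submodule A T) (G : Finset T) :
    ∃ (a : A) (r : ℕ) (y : Fin r → T), a ≠ 0 ∧ (∀ j, y j ∈ G) ∧
      (∀ c : Fin r → A, ∑ j, c j • y j ∈ P → c = 0) ∧
      ∀ g ∈ G, a • g ∈ Submodule.span A (Set.range y) ⊔ P := by
  classical
  induction G using Finset.induction_on with
  | empty =>
    exact ⟨1, 0, Fin.elim0, one_ne_zero, fun j => j.elim0, fun c _ => funext fun j => j.elim0,
      fun g hg => absurd hg (Finset.notMem_empty g)⟩
  | insert g0 G _ ih =>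
    obtain ⟨a, r, y, ha, hy, hi, hs⟩ := ih
    by_cases h : ∃ b : A, b ≠ 0 ∧ b • g0 ∈ Submodule.span A (Set.range y) ⊔ P
    · obtain ⟨b, hb, hbg⟩ := h
      refine ⟨a * b, r, y, mul_ne_zero ha hb, fun j => Finset.mem_insert_of_mem (hy j), hi, fun g hg => ?_⟩
      rcases Finset.mem_insert.mp hg with rfl | hg
      · rw [mul_smul]
        exact Submodule.smul_mem _ _ hbg
      · rw [mul_comm, mul_smul]
        exact Submodule.smul_mem _ _ (hs g hg)
    · push Not at h
      refine ⟨a, r + 1, Fin.snoc y g0, ha, fun j => ?_, fun c hc => ?_, fun g hg => ?_⟩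
      · refine Fin.lastCases ?_ (fun j => ?_) j
        · rw [Fin.snoc_last]
          exact Finset.mem_insert_self _ _
        · rw [Fin.snoc_castSucc]
          exact Finset.mem_insert_of_mem (hy j)
      · rw [Fin.sum_univ_castSucc] at hc
        simp only [Fin.snoc_castSucc, Fin.snoc_last] at hc
        have h1 : c (Fin.last r) = 0 := by
          by_contra hne
          refine h _ hne ((mem_span_sup y P _).mpr ⟨fun j => -c j.castSucc, ?_⟩)
          have h2 : c (Fin.last r) • g0 - ∑ j, (-c j.castSucc) • y j =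
              ∑ j, c j.castSucc • y j + c (Fin.last r) • g0 := by
            simp only [neg_smul, Finset.sum_neg_distrib, sub_neg_eq_add]
            abel
          rw [h2]
          exact hc
        rw [h1, zero_smul, add_zero] at hc
        have h3 := hi (fun j => c j.castSucc) hc
        funext j
        refine Fin.lastCases ?_ (fun j => ?_) j
        · exact h1
        · exact congrFun h3 j
      · have hle : Submodule.span A (Set.range y) ⊔ P ≤
            Submodule.span A (Set.range (Fin.snoc y g0 : Fin (r + 1) → T)) ⊔ P := by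
          refine sup_le_sup_right (Submodule.span_mono ?_) P
          rintro x ⟨j, rfl⟩
          exact ⟨j.castSucc, by rw [Fin.snoc_castSucc]⟩
        rcases Finset.mem_insert.mp hg with rfl | hg
        · refine Submodule.mem_sup_left (Submodule.smul_mem _ _ (Submodule.subset_span ⟨Fin.last r, ?_⟩))
          rw [Fin.snoc_last]
        · exact hle (hs g hg)

/-- A module which is finitely generated modulo `P` has a basis modulo `P` up to some `a ≠ 0`. -/
theorem rel_basis [IsDomain A] (P Q : Submodule A T) (G : Finset T) (hG : ∀ g ∈ G, g ∈ Q)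
    (hQ : Q ≤ Submodule.span A (G : Set T) ⊔ P) :
    ∃ (a : A) (r : ℕ) (y : Fin r → T), a ≠ 0 ∧ (∀ j, y j ∈ Q) ∧
      (∀ c : Fin r → A, ∑ j, c j • y j ∈ P → c = 0) ∧
      ∀ x ∈ Q, a • x ∈ Submodule.span A (Set.range y) ⊔ P := by
  obtain ⟨a, r, y, ha, hy, hi, hs⟩ := rel_basis_set P G
  refine ⟨a, r, y, ha, fun j => hG _ (hy j), hi, fun x hx => ?_⟩
  obtain ⟨s, hs1, p, hp, rfl⟩ := Submodule.mem_sup.mp (hQ hx)
  rw [smul_add]
  refine Submodule.add_mem _ ?_ (Submodule.mem_sup_right (Submodule.smul_mem _ _ hp))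
  clear hx
  induction hs1 using Submodule.span_induction with
  | mem g hg => exact hs g hg
  | zero => rw [smul_zero]; exact Submodule.zero_mem _
  | add x y _ _ hx hy => rw [smul_add]; exact Submodule.add_mem _ hx hy
  | smul b x _ hx => rw [smul_comm]; exact Submodule.smul_mem _ _ hx

end rel

section sub

universe u v w

variable {A : Type u} [CommRing A] {T : Type v} [AddCommGroup T] [Module A T] (D : T →ₗ[A] T)
  (S : ℕ → Submodule A T)

/-- The cocycles of the subcomplex `S`. -/
def Zs (m : ℕ) : Submodule A T := S m ⊓ LinearMap.ker D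

/-- The coboundaries of the subcomplex `S`. -/
def Bs : ℕ → Submodule A T
  | 0 => ⊥
  | m + 1 => (S m).map D

variable {D S}

theorem mem_Zs {m : ℕ} {x : T} : x ∈ Zs D S m ↔ x ∈ S m ∧ D x = 0 := Iff.rfl

theorem Bs_le_Zs (hD : ∀ x, D (D x) = 0) (hS : ∀ m, ∀ x ∈ S m, D x ∈ S (m + 1)) (m : ℕ) :
    Bs D S m ≤ Zs D S m := by
  cases m with
  | zero => exact bot_le
  | succ m =>
    rintro x ⟨y, hy, rfl⟩
    exact ⟨hS m y hy, hD y⟩

theorem Bs_mono {S' : ℕ → Submodule A T} (h : ∀ m, S m ≤ S' m) (m : ℕ) : Bs D S m ≤ Bs D S' m := by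
  cases m with
  | zero => exact le_rfl
  | succ m => exact Submodule.map_mono (h m)

theorem Zs_mono {S' : ℕ → Submodule A T} (h : ∀ m, S m ≤ S' m) (m : ℕ) : Zs D S m ≤ Zs D S' m :=
  inf_le_inf_right _ (h m)

/-- The complex of the types `S m`. -/
def dS (hS : ∀ m, ∀ x ∈ S m, D x ∈ S (m + 1)) (m : ℕ) : ↥(S m) →ₗ[A] ↥(S (m + 1)) :=
  D.restrict (hS m)

variable (hS : ∀ m, ∀ x ∈ S m, D x ∈ S (m + 1))

theorem dS_coe (m : ℕ) (x : S m) : ((dS hS m x : S (m + 1)) : T) = D x := rfl

theorem dS_dS (hD : ∀ x, D (D x) = 0) (m : ℕ) (x : S m) : dS hS (m + 1) (dS hS m x) = 0 :=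
  Subtype.ext (hD x)

theorem mem_cy_dS {m : ℕ} {x : S m} : x ∈ ccy (dS hS) m ↔ (x : T) ∈ Zs D S m := by
  rw [mem_cy, mem_Zs]
  constructor
  · intro h
    exact ⟨x.2, congrArg Subtype.val h⟩
  · intro h
    exact Subtype.ext h.2

theorem mem_bd_dS {m : ℕ} {x : S m} : x ∈ cbd (dS hS) m ↔ (x : T) ∈ Bs D S m := by
  cases m with
  | zero =>
    rw [mem_bd_zero]
    constructor
    · intro h
      rw [h]
      exact Submodule.zero_mem _
    · intro h
      exact Subtype.ext h
  | succ m =>
    rw [mem_bd_succ]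
    constructor
    · rintro ⟨y, rfl⟩
      exact ⟨y, y.2, rfl⟩
    · rintro ⟨y, hy, h⟩
      exact ⟨⟨y, hy⟩, Subtype.ext h⟩

/-- The localised complex. -/
noncomputable def dlc (R : Type w) [CommRing R] [Algebra A R] (m : ℕ) :
    R ⊗[A] ↥(S m) →ₗ[R] R ⊗[A] ↥(S (m + 1)) :=
  (dS hS m).baseChange R

variable (R : Type w) [CommRing R] [Algebra A R]

theorem dl_tmul (m : ℕ) (r : R) (x : S m) : dlc hS R m (r ⊗ₜ x) = r ⊗ₜ dS hS m x := rfl

theorem dl_dl (hD : ∀ x, D (D x) = 0) (m : ℕ) (x : R ⊗[A] ↥(S m)) :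
    dlc hS R (m + 1) (dlc hS R m x) = 0 := by
  induction x with
  | zero => simp only [map_zero]
  | add x y hx hy => simp only [map_add, hx, hy, add_zero]
  | tmul b c => rw [dl_tmul, dl_tmul, dS_dS hS hD, TensorProduct.tmul_zero]

variable {R} {a : A} [IsLocalization.Away a R]

/-- Elements of the localised module. -/
theorem loc_surj {M : Type*} [AddCommGroup M] [Module A M] (z : R ⊗[A] M) :
    ∃ (k : ℕ) (s : M), (algebraMap A R a ^ k) • z = 1 ⊗ₜ s := by
  have h1 : IsLocalizedModule (Submonoid.powers a) (TensorProduct.mk A R M 1) := inferInstance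
  obtain ⟨⟨s, k⟩, h2⟩ := h1.surj z
  obtain ⟨k, n, hn⟩ := k
  refine ⟨n, s, ?_⟩
  rw [← map_pow, algebraMap_smul, ← TensorProduct.mk_apply, ← h2]
  congr 1

theorem loc_eq {M : Type*} [AddCommGroup M] [Module A M] (s : M) (h : (1 : R) ⊗ₜ[A] s = 0) :
    ∃ k : ℕ, a ^ k • s = 0 := by
  have h1 : IsLocalizedModule (Submonoid.powers a) (TensorProduct.mk A R M 1) := inferInstance
  obtain ⟨⟨c, n, hn⟩, h2⟩ := h1.exists_of_eq (x₁ := s) (x₂ := 0) (by
    rw [TensorProduct.mk_apply, TensorProduct.mk_apply, h, TensorProduct.tmul_zero])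
  refine ⟨n, ?_⟩
  rw [smul_zero] at h2
  have h3 : a ^ n = c := hn
  rw [h3]
  exact h2

end sub

end MPadcGP
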