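import Pool.Agent.Lib.MP_adc574_ag_GP.FB2

/-!
# From a basis up to `a` to a basis over `A[1/a]` and over all its algebras (GP, helper79)
-/

set_option autoImplicit false

namespace MPadcGP

open scoped TensorProduct

section loc

universe u v w x y

variable {A : Type u} [CommRing A] {T : Type v} [AddCommGroup T] [Module A T] {D : T →ₗ[A] T}
  {S : ℕ → Submodule A T} (hS : ∀ m, ∀ x ∈ S m, D x ∈ S (m + 1))
  (R : Type w) [CommRing R] [Algebra A R] (a : A) [IsLocalization.Away a R]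

/-- `y` generates the cohomology of `S` in degree `m` up to `a`, and the coboundary relations are trivial. -/
structure IsBas (D : T →ₗ[A] T) (S : ℕ → Submodule A T) (a : A) (m : ℕ) {ι : Type*} [Fintype ι]
    (y : ι → T) : Prop where
  mem : ∀ j, y j ∈ Zs D S m
  indep : ∀ c : ι → A, ∑ j, c j • y j ∈ Bs D S m → c = 0
  span : ∀ x ∈ Zs D S m, ∃ c : ι → A, a • x - ∑ j, c j • y j ∈ Bs D S m

include a in
theorem loc_unit : IsUnit (algebraMap A R a) := IsLocalization.Away.algebraMap_isUnit a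

theorem bd_loc {m : ℕ} (x : S m) (hx : x ∈ cbd (dS hS) m) : (1 : R) ⊗ₜ[A] x ∈ cbd (dlc hS R) m := by
  cases m with
  | zero =>
    rw [mem_bd_zero.mp hx, TensorProduct.tmul_zero]
    exact Submodule.zero_mem _
  | succ m =>
    obtain ⟨t, rfl⟩ := mem_bd_succ.mp hx
    exact ⟨1 ⊗ₜ t, dl_tmul hS R m 1 t⟩

theorem loc_span {m : ℕ} {ι : Type*} [Fintype ι] {y : ι → T} (hy : IsBas D S a m y)
    (z : R ⊗[A] ↥(S m)) (hz : z ∈ ccy (dlc hS R) m) :
    ∃ c : ι → R, z - ∑ j, c j • ((1 : R) ⊗ₜ[A] (⟨y j, (hy.mem j).1⟩ : S m)) ∈ cbd (dlc hS R) m := by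
  obtain ⟨k, s, hs⟩ := loc_surj (R := R) (a := a) z
  have h1 : (1 : R) ⊗ₜ[A] dS hS m s = 0 := by
    rw [← dl_tmul, ← hs, map_smul, mem_cy.mp hz, smul_zero]
  obtain ⟨l, hl⟩ := loc_eq (R := R) (a := a) (dS hS m s) h1
  have h2 : ((a ^ l • s : S m) : T) ∈ Zs D S m := by
    refine ⟨(a ^ l • s).2, ?_⟩
    have h3 := congrArg Subtype.val hl
    change D ((a ^ l • s : S m) : T) = 0
    rw [Submodule.coe_smul, map_smul]
    exact h3
  obtain ⟨c, hc⟩ := hy.span _ h2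
  have h4 : a • (a ^ l • s) - ∑ j, c j • (⟨y j, (hy.mem j).1⟩ : S m) ∈ cbd (dS hS) m := by
    rw [mem_bd_dS, Submodule.coe_sub, Submodule.coe_sum]
    exact hc
  have h5 := bd_loc hS R _ h4
  obtain ⟨u, hu⟩ := loc_unit R a
  have h6 : ∀ n : ℕ, ∀ w : R ⊗[A] ↥(S m), (((u⁻¹ : Rˣ) : R) ^ n) • ((algebraMap A R a) ^ n • w) = w := by
    intro n w
    rw [smul_smul, ← mul_pow, ← hu, Units.inv_mul, one_pow, one_smul]
  refine ⟨fun j => ((u⁻¹ : Rˣ) : R) ^ (1 + l + k) * algebraMap A R (c j), ?_⟩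
  have h7 : z - ∑ j, (((u⁻¹ : Rˣ) : R) ^ (1 + l + k) * algebraMap A R (c j)) •
      ((1 : R) ⊗ₜ[A] (⟨y j, (hy.mem j).1⟩ : S m)) = (((u⁻¹ : Rˣ) : R) ^ (1 + l + k)) •
        ((1 : R) ⊗ₜ[A] (a • (a ^ l • s) - ∑ j, c j • (⟨y j, (hy.mem j).1⟩ : S m))) := by
    rw [TensorProduct.tmul_sub, smul_sub, TensorProduct.tmul_sum, Finset.smul_sum]
    congr 1
    · rw [TensorProduct.tmul_smul, TensorProduct.tmul_smul, ← hs, ← algebraMap_smul R a, ← algebraMap_smul R (a ^ l),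
        map_pow]
      conv_lhs => rw [← h6 (1 + l + k) z]
      congr 1
      rw [smul_smul, smul_smul]
      congr 1
      ring
    · refine Finset.sum_congr rfl fun j _ => ?_
      rw [mul_smul, TensorProduct.tmul_smul, ← algebraMap_smul R (c j)]
  rw [h7]
  exact Submodule.smul_mem _ _ h5

theorem loc_indep {m : ℕ} {ι : Type*} [Fintype ι] {y : ι → T} (hy : IsBas D S a m y) (c : ι → R)
    (hc : ∑ j, c j • ((1 : R) ⊗ₜ[A] (⟨y j, (hy.mem j).1⟩ : S m)) ∈ cbd (dlc hS R) m) : c = 0 := by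
  obtain ⟨⟨b, n, hn⟩, hb⟩ := IsLocalization.exist_integer_multiples_of_finite (Submonoid.powers a) c
  have hn' : a ^ n = b := hn
  choose e he using hb
  have he' : ∀ j, algebraMap A R (e j) = (algebraMap A R a) ^ n * c j := by
    intro j
    rw [he j, Algebra.smul_def]
    change algebraMap A R b * c j = _
    rw [← hn', map_pow]
  obtain ⟨u, hu⟩ := loc_unit R a
  -- the integral relation
  have h1 : (1 : R) ⊗ₜ[A] (∑ j, e j • (⟨y j, (hy.mem j).1⟩ : S m)) ∈ cbd (dlc hS R) m := by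
    have h2 : (1 : R) ⊗ₜ[A] (∑ j, e j • (⟨y j, (hy.mem j).1⟩ : S m)) =
        (algebraMap A R a) ^ n • ∑ j, c j • ((1 : R) ⊗ₜ[A] (⟨y j, (hy.mem j).1⟩ : S m)) := by
      rw [TensorProduct.tmul_sum, Finset.smul_sum]
      refine Finset.sum_congr rfl fun j _ => ?_
      rw [TensorProduct.tmul_smul, ← algebraMap_smul R (e j), he', mul_smul]
    rw [h2]
    exact Submodule.smul_mem _ _ hc
  have h3 : ∃ k : ℕ, ∑ j, (a ^ k * e j) • y j ∈ Bs D S m := by
    have h4 : ∀ k : ℕ, ((a ^ k • ∑ j, e j • (⟨y j, (hy.mem j).1⟩ : S m) : S m) : T) =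
        ∑ j, (a ^ k * e j) • y j := by
      intro k
      rw [Submodule.coe_smul, Submodule.coe_sum, Finset.smul_sum]
      refine Finset.sum_congr rfl fun j _ => ?_
      rw [mul_smul]
      rfl
    cases m with
    | zero =>
      obtain ⟨k, hk⟩ := loc_eq (R := R) (a := a) _ (mem_bd_zero.mp h1)
      refine ⟨k, ?_⟩
      rw [← h4 k, hk]
      exact Submodule.zero_mem _
    | succ m =>
      obtain ⟨t, ht⟩ := mem_bd_succ.mp h1
      obtain ⟨k, s, hs⟩ := loc_surj (R := R) (a := a) t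
      have h5 : (1 : R) ⊗ₜ[A] (a ^ k • (∑ j, e j • (⟨y j, (hy.mem j).1⟩ : S (m + 1))) - dS hS m s) = 0 := by
        rw [TensorProduct.tmul_sub, TensorProduct.tmul_smul, ← ht, ← algebraMap_smul R (a ^ k), map_pow, ← map_smul,
          hs, dl_tmul, sub_self]
      obtain ⟨l, hl⟩ := loc_eq (R := R) (a := a) _ h5
      refine ⟨l + k, ?_⟩
      rw [← h4 (l + k)]
      have h6 : (a ^ (l + k) • ∑ j, e j • (⟨y j, (hy.mem j).1⟩ : S (m + 1)) : S (m + 1)) = dS hS m (a ^ l • s) := by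
        rw [smul_sub, sub_eq_zero] at hl
        rw [pow_add, mul_smul, hl, map_smul]
      rw [h6, dS_coe]
      exact ⟨_, (a ^ l • s).2, rfl⟩
  obtain ⟨k, hk⟩ := h3
  have h7 := hy.indep _ hk
  funext j
  have h8 : a ^ k * e j = 0 := congrFun h7 j
  have h9 := congrArg (algebraMap A R) h8
  rw [map_mul, map_pow, he', map_zero, ← mul_assoc, ← pow_add, ← hu] at h9
  have h10 : (((u⁻¹ : Rˣ) : R) ^ (k + n)) * ((u : R) ^ (k + n) * c j) = 0 := by
    rw [h9, mul_zero]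
  rw [← mul_assoc, ← mul_pow, Units.inv_mul, one_pow, one_mul] at h10
  exact h10

/-- The cohomology of the localised complex is free. -/
theorem loc_free {m : ℕ} {ι : Type*} [Fintype ι] {y : ι → T} (hy : IsBas D S a m y) :
    Module.Free R (Hh (dlc hS R) m) := by
  obtain ⟨bs, -⟩ := exists_basis (d := dlc hS R) m (fun j => (1 : R) ⊗ₜ[A] (⟨y j, (hy.mem j).1⟩ : S m))
    (fun j => by
      rw [mem_cy, dl_tmul]
      have h1 : dS hS m (⟨y j, (hy.mem j).1⟩ : S m) = 0 := Subtype.ext (hy.mem j).2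
      rw [h1, TensorProduct.tmul_zero])
    (loc_span hS R a hy) (loc_indep hS R a hy)
  exact Module.Free.of_basis bs

end loc

end MPadcGP
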