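import Pool.Agent.Lib.MP_adc574_ag_GP.FB4

/-!
# Adapted bases for filtered complexes (GP, helper79)

`F i m` (`i` = level of the decreasing filtration, `m` = degree) as `X.Fi i m` in `Cov.lean`.
`exists_adapted`, `exists_bas`: existence up to one `a ≠ 0`; `adapted_bc`: base change.
-/

set_option autoImplicit false

namespace MPadcGP

open scoped TensorProduct

section ad

universe u v w x y

variable {A : Type u} [CommRing A] {T : Type v} [AddCommGroup T] [Module A T]

/-- `z` is a basis of `H ^ m (F 0)` up to `a`, adapted to the images of the `H ^ m (F i)`. -/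
structure IsAdapted (D : T →ₗ[A] T) (F : ℕ → ℕ → Submodule A T) (a : A) (m : ℕ) {ι : Type*} [Fintype ι]
    (z : ι → T) (lev : ι → ℕ) : Prop where
  mem : ∀ b, z b ∈ Zs D (F (lev b)) m
  indep : ∀ c : ι → A, ∑ b, c b • z b ∈ Bs D (F 0) m → c = 0
  span : ∀ i, ∀ x ∈ Zs D (F i) m, ∃ c : ι → A, (∀ b, lev b < i → c b = 0) ∧
    a • x - ∑ b, c b • z b ∈ Bs D (F 0) m

variable {D : T →ₗ[A] T} {F : ℕ → ℕ → Submodule A T}

theorem IsBas.mul {S : ℕ → Submodule A T} {a : A} {m : ℕ} {ι : Type*} [Fintype ι] {y : ι → T}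
    (h : IsBas D S a m y) (b : A) : IsBas D S (b * a) m y := by
  refine ⟨h.mem, h.indep, fun x hx => ?_⟩
  obtain ⟨c, hc⟩ := h.span x hx
  refine ⟨b • c, ?_⟩
  have h1 : (b * a) • x - ∑ j, (b • c) j • y j = b • (a • x - ∑ j, c j • y j) := by
    rw [smul_sub, mul_smul, Finset.smul_sum]
    simp only [Pi.smul_apply, smul_eq_mul, mul_smul]
  rw [h1]
  exact Submodule.smul_mem _ _ hc

theorem IsAdapted.mul {a : A} {m : ℕ} {ι : Type*} [Fintype ι] {z : ι → T} {lev : ι → ℕ}
    (h : IsAdapted D F a m z lev) (b : A) : IsAdapted D F (b * a) m z lev := by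
  refine ⟨h.mem, h.indep, fun i x hx => ?_⟩
  obtain ⟨c, hc0, hc⟩ := h.span i x hx
  refine ⟨b • c, fun j hj => ?_, ?_⟩
  · rw [Pi.smul_apply, hc0 j hj, smul_zero]
  have h1 : (b * a) • x - ∑ j, (b • c) j • z j = b • (a • x - ∑ j, c j • z j) := by
    rw [smul_sub, mul_smul, Finset.smul_sum]
    simp only [Pi.smul_apply, smul_eq_mul, mul_smul]
  rw [h1]
  exact Submodule.smul_mem _ _ hc

theorem Fanti (anti : ∀ i m, F (i + 1) m ≤ F i m) {i j : ℕ} (h : i ≤ j) (m : ℕ) : F j m ≤ F i m := by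
  induction h with
  | refl => exact le_rfl
  | step _ ih => exact (anti _ m).trans ih

theorem IsAdapted.isBas (anti : ∀ i m, F (i + 1) m ≤ F i m) {a : A} {m : ℕ} {ι : Type*} [Fintype ι]
    {z : ι → T} {lev : ι → ℕ} (h : IsAdapted D F a m z lev) : IsBas D (F 0) a m z := by
  refine ⟨fun j => Zs_mono (fun m => Fanti anti (Nat.zero_le _) m) m (h.mem j), h.indep, fun x hx => ?_⟩
  obtain ⟨c, -, hc⟩ := h.span 0 x hx
  exact ⟨c, hc⟩

/-- Existence of adapted bases, one degree. -/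
theorem adapted_step [IsDomain A] (anti : ∀ i m, F (i + 1) m ≤ F i m) (N m : ℕ)
    (htop : F (N + 1) m = ⊥)
    (fg : ∀ i, ∃ G : Finset T, (∀ g ∈ G, g ∈ Zs D (F i) m) ∧
      Zs D (F i) m ≤ Submodule.span A (G : Set T) ⊔ Bs D (F i) m) (k : ℕ) :
    ∀ i, i + k = N + 1 → ∃ (a : A) (ι : Type) (_ : Fintype ι) (z : ι → T) (lev : ι → ℕ), a ≠ 0 ∧
      (∀ b, i ≤ lev b) ∧ (∀ b, z b ∈ Zs D (F (lev b)) m) ∧
      (∀ c : ι → A, ∑ b, c b • z b ∈ Bs D (F 0) m → c = 0) ∧
      ∀ i', i ≤ i' → ∀ x ∈ Zs D (F i') m, ∃ c : ι → A, (∀ b, lev b < i' → c b = 0) ∧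
        a • x - ∑ b, c b • z b ∈ Bs D (F 0) m := by
  induction k with
  | zero =>
    intro i hi
    refine ⟨1, Empty, inferInstance, Empty.elim, Empty.elim, one_ne_zero, fun b => b.elim, fun b => b.elim,
      fun c _ => funext fun b => b.elim, fun i' hi' x hx => ⟨0, fun b => b.elim, ?_⟩⟩
    have h1 : x ∈ F (N + 1) m := Fanti anti (by omega) m hx.1
    rw [htop, Submodule.mem_bot] at h1
    rw [h1, smul_zero, zero_sub, Finset.univ_eq_empty, Finset.sum_empty, neg_zero]
    exact Submodule.zero_mem _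
  | succ k ih =>
    intro i hi
    obtain ⟨a, ι, hι, z, lev, ha, h1, h2, h3, h4⟩ := ih (i + 1) (by omega)
    obtain ⟨G, hG1, hG2⟩ := fg i
    obtain ⟨a', r, y, ha', hy1, hy2, hy3⟩ := rel_basis (Zs D (F (i + 1)) m ⊔ Bs D (F 0) m) (Zs D (F i) m) G hG1
      (hG2.trans (sup_le_sup_left ((Bs_mono (fun m => Fanti anti (Nat.zero_le i) m) m).trans le_sup_right) _))
    refine ⟨a * a', Fin r ⊕ ι, inferInstance, Sum.elim y z, Sum.elim (fun _ => i) lev, mul_ne_zero ha ha',
      ?_, ?_, ?_, ?_⟩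
    · rintro (b | b)
      · exact le_rfl
      · exact (Nat.le_succ i).trans (h1 b)
    · rintro (b | b)
      · exact hy1 b
      · exact h2 b
    · intro c hc
      rw [Fintype.sum_sum_type] at hc
      simp only [Sum.elim_inl, Sum.elim_inr] at hc
      have h5 : ∑ b, c (Sum.inr b) • z b ∈ Zs D (F (i + 1)) m :=
        Submodule.sum_mem _ fun b _ => Submodule.smul_mem _ _
          (Zs_mono (fun m => Fanti anti (h1 b) m) m (h2 b))
      have h6 : ∑ j, c (Sum.inl j) • y j ∈ Zs D (F (i + 1)) m ⊔ Bs D (F 0) m := by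
        have h7 : ∑ j, c (Sum.inl j) • y j =
            -(∑ b, c (Sum.inr b) • z b) + (∑ j, c (Sum.inl j) • y j + ∑ b, c (Sum.inr b) • z b) := by abel
        rw [h7]
        exact Submodule.add_mem _ (Submodule.mem_sup_left (Submodule.neg_mem _ h5)) (Submodule.mem_sup_right hc)
      have h8 := hy2 (fun j => c (Sum.inl j)) h6
      have h9 : ∑ j, c (Sum.inl j) • y j = 0 :=
        Finset.sum_eq_zero fun j _ => by
          have := congrFun h8 j
          rw [this]
          exact zero_smul _ _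
      rw [h9, zero_add] at hc
      have h10 := h3 (fun b => c (Sum.inr b)) hc
      funext b
      rcases b with b | b
      · exact congrFun h8 b
      · exact congrFun h10 b
    · intro i' hi' x hx
      rcases Nat.lt_or_ge i i' with hlt | hge
      · obtain ⟨c, hc0, hc⟩ := h4 i' hlt x hx
        refine ⟨Sum.elim 0 (a' • c), ?_, ?_⟩
        · rintro (b | b) hb
          · rfl
          · rw [Sum.elim_inr, Pi.smul_apply, hc0 b hb, smul_zero]
        · rw [Fintype.sum_sum_type]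
          simp only [Sum.elim_inl, Sum.elim_inr, Pi.zero_apply, zero_smul, Finset.sum_const_zero, zero_add,
            Pi.smul_apply, smul_eq_mul]
          have h5 : (a * a') • x - ∑ b, (a' * c b) • z b = a' • (a • x - ∑ b, c b • z b) := by
            rw [smul_sub, smul_smul, mul_comm a' a, Finset.smul_sum]
            simp only [mul_smul]
          rw [h5]
          exact Submodule.smul_mem _ _ hc
      · have hii : i' = i := le_antisymm hge hi'
        subst hii
        obtain ⟨c, hc⟩ := (mem_span_sup y _ _).mp (hy3 x hx)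
        obtain ⟨t, ht, β, hβ, htβ⟩ := Submodule.mem_sup.mp hc
        obtain ⟨e, he0, he⟩ := h4 (i' + 1) le_rfl t ht
        refine ⟨Sum.elim (a • c) e, ?_, ?_⟩
        · rintro (b | b) hb
          · exact absurd hb (lt_irrefl _)
          · exact he0 b (Nat.lt_succ_of_lt hb)
        · rw [Fintype.sum_sum_type]
          simp only [Sum.elim_inl, Sum.elim_inr, Pi.smul_apply, smul_eq_mul]
          have h5 : (a * a') • x - (∑ j, (a * c j) • y j + ∑ b, e b • z b) =
              (a • t - ∑ b, e b • z b) + a • β := by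
            have h6 : a • (a' • x - ∑ j, c j • y j) = a • t + a • β := by rw [← htβ, smul_add]
            rw [smul_sub, smul_smul, Finset.smul_sum] at h6
            have h7 : ∑ j, (a * c j) • y j = ∑ j, a • c j • y j := by simp only [mul_smul]
            rw [h7, ← sub_sub, h6]
            abel
          rw [h5]
          exact Submodule.add_mem _ he (Submodule.smul_mem _ _ hβ)

/-- Existence of adapted bases, one degree. -/
theorem exists_adapted_deg [IsDomain A] (anti : ∀ i m, F (i + 1) m ≤ F i m) (N m : ℕ)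
    (htop : F (N + 1) m = ⊥)
    (fg : ∀ i, ∃ G : Finset T, (∀ g ∈ G, g ∈ Zs D (F i) m) ∧
      Zs D (F i) m ≤ Submodule.span A (G : Set T) ⊔ Bs D (F i) m) :
    ∃ (a : A) (r : ℕ) (z : Fin r → T) (lev : Fin r → ℕ), a ≠ 0 ∧ IsAdapted D F a m z lev := by
  obtain ⟨a, ι, hι, z, lev, ha, -, h2, h3, h4⟩ := adapted_step anti N m htop fg (N + 1) 0 (by omega)
  let e := Fintype.equivFin ι
  refine ⟨a, Fintype.card ι, fun b => z (e.symm b), fun b => lev (e.symm b), ha, fun b => h2 _, fun c hc => ?_,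
    fun i x hx => ?_⟩
  · have h5 : ∑ b, c b • z (e.symm b) = ∑ b, c (e b) • z b := by
      rw [← Equiv.sum_comp e]
      exact Finset.sum_congr rfl fun b _ => by rw [e.symm_apply_apply]
    rw [h5] at hc
    have h6 := h3 (fun b => c (e b)) hc
    funext b
    have h7 := congrFun h6 (e.symm b)
    simp only [e.apply_symm_apply] at h7
    exact h7
  · obtain ⟨c, hc0, hc⟩ := h4 i (Nat.zero_le i) x hx
    refine ⟨fun b => c (e.symm b), fun b hb => hc0 _ hb, ?_⟩
    have h5 : ∑ b, c (e.symm b) • z (e.symm b) = ∑ b, c b • z b := Equiv.sum_comp e.symm (fun b => c b • z b)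
    rw [h5]
    exact hc

/-- Existence of a basis up to some `a ≠ 0`, one degree. -/
theorem exists_bas_deg [IsDomain A] (S : ℕ → Submodule A T) (m : ℕ)
    (fg : ∃ G : Finset T, (∀ g ∈ G, g ∈ Zs D S m) ∧ Zs D S m ≤ Submodule.span A (G : Set T) ⊔ Bs D S m) :
    ∃ (a : A) (r : ℕ) (y : Fin r → T), a ≠ 0 ∧ IsBas D S a m y := by
  obtain ⟨G, hG1, hG2⟩ := fg
  obtain ⟨a, r, y, ha, hy1, hy2, hy3⟩ := rel_basis (Bs D S m) (Zs D S m) G hG1 hG2
  exact ⟨a, r, y, ha, hy1, hy2, fun x hx => (mem_span_sup y _ _).mp (hy3 x hx)⟩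

/-- One denominator for finitely many statements. -/
theorem exists_common [IsDomain A] (P : ℕ → A → Prop) (hP : ∀ m a b, P m a → P m (b * a)) (N : ℕ)
    (h1 : ∀ m, ∃ a : A, a ≠ 0 ∧ P m a) (h2 : ∀ m, N < m → ∀ a, P m a) : ∃ a : A, a ≠ 0 ∧ ∀ m, P m a := by
  have key : ∀ k : ℕ, ∃ a : A, a ≠ 0 ∧ ∀ m, m < k → P m a := by
    intro k
    induction k with
    | zero => exact ⟨1, one_ne_zero, fun m hm => absurd hm (Nat.not_lt_zero m)⟩
    | succ k ih =>
      obtain ⟨a, ha, h⟩ := ih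
      obtain ⟨b, hb, h'⟩ := h1 k
      refine ⟨a * b, mul_ne_zero ha hb, fun m hm => ?_⟩
      rcases Nat.lt_succ_iff_lt_or_eq.mp hm with h3 | rfl
      · rw [mul_comm]
        exact hP m a b (h m h3)
      · exact hP m b a h'
  obtain ⟨a, ha, h⟩ := key (N + 1)
  refine ⟨a, ha, fun m => ?_⟩
  rcases Nat.lt_or_ge m (N + 1) with h3 | h3
  · exact h m h3
  · exact h2 m (by omega) a

theorem bas_bot {S : ℕ → Submodule A T} {m : ℕ} (h : S m = ⊥) (a : A) :
    IsBas D S a m (Fin.elim0 : Fin 0 → T) :=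
  ⟨fun j => j.elim0, fun c _ => funext fun j => j.elim0, fun x hx => ⟨0, by
    have h1 : x ∈ S m := hx.1
    rw [h, Submodule.mem_bot] at h1
    rw [h1, smul_zero, zero_sub, Finset.univ_eq_empty, Finset.sum_empty, neg_zero]
    exact Submodule.zero_mem _⟩⟩

theorem adapted_bot (anti : ∀ i m, F (i + 1) m ≤ F i m) {m : ℕ} (h : F 0 m = ⊥) (a : A) :
    IsAdapted D F a m (Fin.elim0 : Fin 0 → T) Fin.elim0 :=
  ⟨fun j => j.elim0, fun c _ => funext fun j => j.elim0, fun i x hx => ⟨0, fun j => j.elim0, by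
    have h1 : x ∈ F 0 m := Fanti anti (Nat.zero_le i) m hx.1
    rw [h, Submodule.mem_bot] at h1
    rw [h1, smul_zero, zero_sub, Finset.univ_eq_empty, Finset.sum_empty, neg_zero]
    exact Submodule.zero_mem _⟩⟩

/-- **Adapted bases** up to one `a ≠ 0`, all degrees and levels. -/
theorem exists_adapted [IsDomain A] (anti : ∀ i m, F (i + 1) m ≤ F i m) (N : ℕ)
    (htop : ∀ i m, N < m → F i m = ⊥) (htopi : ∀ i m, N < i → F i m = ⊥)
    (fg : ∀ i m, ∃ G : Finset T, (∀ g ∈ G, g ∈ Zs D (F i) m) ∧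
      Zs D (F i) m ≤ Submodule.span A (G : Set T) ⊔ Bs D (F i) m) :
    ∃ a : A, a ≠ 0 ∧ (∀ m, ∃ (r : ℕ) (z : Fin r → T) (lev : Fin r → ℕ), IsAdapted D F a m z lev) ∧
      ∀ i m, ∃ (r : ℕ) (y : Fin r → T), IsBas D (F i) a m y := by
  obtain ⟨a, ha, h1⟩ := exists_common
    (fun m a => ∃ (r : ℕ) (z : Fin r → T) (lev : Fin r → ℕ), IsAdapted D F a m z lev)
    (fun m a b ⟨r, z, lev, h⟩ => ⟨r, z, lev, h.mul b⟩) N
    (fun m => by
      obtain ⟨a, r, z, lev, ha, h⟩ := exists_adapted_deg anti N m (htopi (N + 1) m (by omega)) (fun i => fg i m)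
      exact ⟨a, ha, r, z, lev, h⟩)
    (fun m hm a => ⟨0, _, _, adapted_bot anti (htop 0 m hm) a⟩)
  obtain ⟨b, hb, h2⟩ := exists_common
    (fun i b => ∀ m, ∃ (r : ℕ) (y : Fin r → T), IsBas D (F i) b m y)
    (fun i a b h m => by
      obtain ⟨r, y, h⟩ := h m
      exact ⟨r, y, h.mul b⟩) N
    (fun i => exists_common (fun m b => ∃ (r : ℕ) (y : Fin r → T), IsBas D (F i) b m y)
      (fun m a b ⟨r, y, h⟩ => ⟨r, y, h.mul b⟩) N
      (fun m => by
        obtain ⟨a, r, y, ha, h⟩ := exists_bas_deg (F i) m (fg i m)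
        exact ⟨a, ha, r, y, h⟩)
      (fun m hm a => ⟨0, _, bas_bot (htop i m hm) a⟩))
    (fun i hi a m => ⟨0, _, bas_bot (htopi i m hi) a⟩)
  refine ⟨b * a, mul_ne_zero hb ha, fun m => ?_, fun i m => ?_⟩
  · obtain ⟨r, z, lev, h⟩ := h1 m
    exact ⟨r, z, lev, h.mul b⟩
  · obtain ⟨r, y, h⟩ := h2 i m
    rw [mul_comm]
    exact ⟨r, y, h.mul a⟩

end ad

end MPadcGP
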