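import Pool.Agent.Lib.MP_adc574_ag_GP.Fin3c

/-!
# REL: data over a localization
-/

set_option autoImplicit false
set_option linter.unusedSectionVars false

namespace MPadcGP

universe u v w x

/-- Data over the localization at `a`. -/
def HasDat {A : Type u} [CommRing A] {n : ℕ} (I : Ideal (MvPolynomial (Fin n) A)) (a : A) : Prop :=
  IsSmoothProj (bI (algebraMap A (Localization.Away a)) I) ∧
    ∃ (β : ℕ → Type) (_ : ∀ m, Fintype (β m)) (_ : ∀ m, DecidableEq (β m))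
      (lev : ∀ m, β m → ℕ) (z : ∀ m, β m → (prC (bI (algebraMap A (Localization.Away a)) I)).Ch)
      (h : ℕ → ℕ → ℕ), Dat (bI (algebraMap A (Localization.Away a)) I) lev z h

theorem exists_hasDat {A : Type u} [CommRing A] [IsDomain A] [CharZero A] [Algebra.FiniteType ℤ A]
    {n : ℕ} {I₀ I : Ideal (MvPolynomial (Fin n) A)} (hI₀ : IsHomog I₀) (hI : IsHomog I) {k : Type u}
    [Field k] (j : A →+* k) (hj : Function.Injective j) (hs₀ : IsSmoothProj (bI j I₀))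
    (hs : IsSmoothProj (bI j I)) : ∃ a : A, a ≠ 0 ∧ HasDat I₀ a ∧ HasDat I a := by
  obtain ⟨c₀, hc₀, haff₀, hdat₀⟩ := exists_aff hI₀ j hj hs₀
  obtain ⟨c₁, hc₁, haff₁, hdat₁⟩ := exists_aff hI j hj hs
  have hu : IsUnit (algebraMap A (Localization.Away (c₀ * c₁)) (c₀ * c₁)) :=
    IsLocalization.Away.algebraMap_isUnit _
  rw [map_mul] at hu
  have huc₀ := isUnit_of_mul_isUnit_left hu
  have huc₁ := isUnit_of_mul_isUnit_right hu
  exact ⟨c₀ * c₁, mul_ne_zero hc₀ hc₁, ⟨haff₀ _ _ huc₀, hdat₀ _ _ huc₀⟩,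
    ⟨haff₁ _ _ huc₁, hdat₁ _ _ huc₁⟩⟩

end MPadcGP
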