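import Pool.Agent.Lib.MP_adc574_ag_GP.Fin3d
import Pool.Agent.Lib.MP_adc574_ag_GP.Fin3e
import Pool.Agent.Lib.MP_adc574_ag_GP.Fin3g
import Pool.Agent.Lib.MP_adc574_ag_GP.GL0

/-!
# REL: the final theorem
-/

set_option autoImplicit false
set_option linter.unusedSectionVars false

namespace MPadcGP

universe u v w x

section

variable {M : Type} [AddCommGroup M] [Fintype M] [DecidableEq M]

/-- The linear data in general position. -/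
theorem exists_linT {k : Type u} [Field k] [IsAlgClosed k] [CharZero k] (A : Subalgebra ℤ k) (hA : A.FG)
    {n : ℕ} (I₀ I : Ideal (MvPolynomial (Fin n) A)) (hle : I₀ ≤ I) (hI₀ : IsHomog I₀) (hI : IsHomog I)
    (hs₀ : IsSmoothProj (bI (algebraMap A k) I₀)) (hs : IsSmoothProj (bI (algebraMap A k) I))
    {wt : Fin n → M} (hw₀ : IsWHomog wt (bI (algebraMap A k) I₀))
    (hw : IsWHomog wt (bI (algebraMap A k) I))
    (hg : IsGeneral3 (rsH (bI_mono (algebraMap A k) hle)) (grP (hI₀.map (algebraMap A k)) hw₀)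
      (grP (hI.map (algebraMap A k)) hw)) :
    ∃ (A₃ : Subalgebra ℤ k) (h3 : A ≤ A₃) (N : ℕ) (D : Fin N → Derivation ℤ A₃ A₃) (_ : Good' A₃ D)
      (hw₃ : IsWHomog wt (bI (Subalgebra.inclusion h3).toRingHom I))
      (hw₃₀ : IsWHomog wt (bI (Subalgebra.inclusion h3).toRingHom I₀))
      (_ : IsSmoothProj (bI (Subalgebra.inclusion h3).toRingHom I))
      (_ : IsSmoothProj (bI (Subalgebra.inclusion h3).toRingHom I₀))
      (β : ℕ × M → Type) (_ : ∀ a, Fintype (β a)) (_ : ∀ a, DecidableEq (β a))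
      (lev : ∀ a, β a → ℕ) (z : ∀ a, β a → (prC (bI (Subalgebra.inclusion h3).toRingHom I)).Ch)
      (h : ℕ → ℕ → ℕ) (hD : DatW (hI.map _) hw₃ lev z h)
      (β₀ : ℕ × M → Type) (_ : ∀ a, Fintype (β₀ a)) (_ : ∀ a, DecidableEq (β₀ a))
      (lev₀ : ∀ a, β₀ a → ℕ) (z₀ : ∀ a, β₀ a → (prC (bI (Subalgebra.inclusion h3).toRingHom I₀)).Ch)
      (h₀ : ℕ → ℕ → ℕ) (_ : DatW (hI₀.map _) hw₃₀ lev₀ z₀ h₀)
      (V : ∀ l, Lft (prC (bI (Subalgebra.inclusion h3).toRingHom I)) (D l))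
      (G : ∀ a, Fin N → β a → β a → A₃) (mu : ∀ a a', β a → β a' → β (a + a') → A₃)
      (Lg : ∀ a : ℕ × M, ℕ → Set (β a → A₃)) (_ : LinRelW (grP (hI.map _) hw₃) z V G mu Lg)
      (Tv : ∀ a, β₀ a → β a → A₃),
      (∀ a u, (rsH (bI_mono (Subalgebra.inclusion h3).toRingHom hle)).push (z₀ a u) -
        ∑ b, Tv a u b • z a b ∈ (prC (bI (Subalgebra.inclusion h3).toRingHom I)).Bc a.1) ∧
      (mkLinT lev D G mu Lg hD.bound' Tv).Gen (algebraMap A₃ k) := by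
  classical
  obtain ⟨B₁, hf₁, hB₁⟩ := ev_data A hA I hI hs hw
  obtain ⟨B₂, hf₂, hB₂⟩ := ev_data A hA I₀ hI₀ hs₀ hw₀
  obtain ⟨B₃, hf₃, hB₃⟩ := ev_logs A hA I hI hs hw
  obtain ⟨A₃, hle₃, N, D, hgood⟩ := exists_good' (A ⊔ (B₁ ⊔ (B₂ ⊔ B₃))) (hA.sup (hf₁.sup (hf₂.sup hf₃)))
  have h3 : A ≤ A₃ := le_sup_left.trans hle₃
  have hb1 : B₁ ≤ A₃ := (le_sup_left.trans le_sup_right).trans hle₃
  have hb2 : B₂ ≤ A₃ := ((le_sup_left.trans le_sup_right).trans le_sup_right).trans hle₃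
  have hb3 : B₃ ≤ A₃ := ((le_sup_right.trans le_sup_right).trans le_sup_right).trans hle₃
  obtain ⟨hsm, hw₃, β, i1, i2, lev, z, h, hD⟩ := hB₁ A₃ h3 hb1
  obtain ⟨hsm₀, hw₃₀, β₀, i1₀, i2₀, lev₀, z₀, h₀, hD₀⟩ := hB₂ A₃ h3 hb2
  choose S hSf hSl hSs using hB₃ A₃ h3 hb3
  have hV0 : ∀ l, ∃ V : Lft (prC (bI (Subalgebra.inclusion h3).toRingHom I)) (D l),
      (grP (hI.map _) hw₃).IsGr V := fun l =>
    (grP (hI.map _) hw₃).exists_isGr (exists_lft (hI.map _) hsm (D l)).some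
  choose V hV using hV0
  obtain ⟨G, mu, Lg, hR, hSL⟩ := exists_relW hD.self V hV S hSl
  obtain ⟨Tv, hTv⟩ := exists_Tv (bI_mono (Subalgebra.inclusion h3).toRingHom hle) hD₀ hD
  refine ⟨A₃, h3, N, D, hgood, hw₃, hw₃₀, hsm, hsm₀, β, i1, i2, lev, z, h, hD, β₀, i1₀, i2₀, lev₀, z₀, h₀,
    hD₀, V, G, mu, Lg, hR, Tv, hTv, ?_⟩
  have hIk : bI (algebraMap A₃ k) (bI (Subalgebra.inclusion h3).toRingHom I) = bI (algebraMap A k) I := by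
    rw [bI_bI]
    rfl
  have hIk₀ : bI (algebraMap A₃ k) (bI (Subalgebra.inclusion h3).toRingHom I₀) =
      bI (algebraMap A k) I₀ := by
    rw [bI_bI]
    rfl
  exact gen_of_rel3 _ hD₀ hD hgood V hV hR S hSL hSs hTv
    (isGeneral3_congr hIk₀.symm hIk.symm _ _ _ _ _ _ _ _ _ _ hg)

/-- The statement for one prime. -/
def RelBad {A : Type u} [CommRing A] {n : ℕ} (I₀ I : Ideal (MvPolynomial (Fin n) A)) (a : A) (p : ℕ)
    (𝔓 : Ideal A) : Prop :=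
  ∃ 𝔪 : Ideal A, 𝔪.IsMaximal ∧ a ∉ 𝔪 ∧ (prC (bI (Ideal.Quotient.mk 𝔪) I₀)).IsBlochKatoOrdinary ∧
      𝔓 ∈ (Ideal.span {(p : A)}).minimalPrimes ∧ 𝔓 ≤ 𝔪 ∧ ¬ IsDenseOrd I 𝔓

/-- From `A₃` to the generic points of `Spec A`. -/
theorem dense_of_bad {A A₃ : Type u} [CommRing A] [IsDomain A] [CharZero A] [Algebra.FiniteType ℤ A]
    [CommRing A₃] (ι : A →+* A₃) {n : ℕ} {I₀ I : Ideal (MvPolynomial (Fin n) A)} (hI₀ : IsHomog I₀)
    (hI : IsHomog I) {a : A} (ha0 : a ≠ 0) (hd₀ : HasDat I₀ a) (hd : HasDat I a) {p : ℕ}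
    [Fact p.Prime] {𝔔 : Ideal A₃} (hbad : RelBad I₀ I a p (𝔔.comap ι)) {L : Type u} [Field L] [CharP L p]
    (φ : A₃ →+* L) (hker : RingHom.ker φ = 𝔔) {Λ : Type} [Fintype Λ] {bb : Λ → L} (hbb : PBas p bb)
    (hK : ∀ 𝔓 ∈ (Ideal.span {(p : A)}).minimalPrimes, ∀ (K : Type u) [Field K] (φ : A →+* K),
      RingHom.ker φ = 𝔓 → (∀ x : K, ∃ a b : A, φ b ≠ 0 ∧ x = φ a / φ b) → CharP K p ∧ φ a ≠ 0 ∧
        ∃ (Λ : Type) (_ : Fintype Λ) (b : Λ → K), PBas p b) :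
    IsOppC (prC (bI φ (bI ι I₀))) ∧ ¬ IsOppC (prC (bI φ (bI ι I))) := by
  obtain ⟨𝔪, h𝔪, ha𝔪, hbk, hmin, hle, hnd⟩ := hbad
  obtain ⟨𝔓, h𝔓⟩ : ∃ 𝔓 : Ideal A, 𝔓 = 𝔔.comap ι := ⟨_, rfl⟩
  rw [← h𝔓] at hmin hle hnd
  have hpr : 𝔓.IsPrime := hmin.1.1
  obtain ⟨φK, hφK⟩ : ∃ φK, φK = (algebraMap (A ⧸ 𝔓) (FractionRing (A ⧸ 𝔓))).comp
    (Ideal.Quotient.mk 𝔓) := ⟨_, rfl⟩
  have hkerK : RingHom.ker φK = 𝔓 := hφK ▸ frac_ker 𝔓
  have hfrK : ∀ x : FractionRing (A ⧸ 𝔓), ∃ a b : A, φK b ≠ 0 ∧ x = φK a / φK b := hφK ▸ frac_surj 𝔓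
  obtain ⟨hcK, haK, ΛK, iΛK, bbK, hbbK⟩ := hK 𝔓 hmin (FractionRing (A ⧸ 𝔓)) φK hkerK hfrK
  have hker' : RingHom.ker (φ.comp ι) = 𝔓 := by
    rw [h𝔓, ← hker]
    rfl
  obtain ⟨ρ, hρ⟩ := exists_hom_frac 𝔓 (φ.comp ι) hker'
  rw [← hφK] at hρ
  obtain ⟨hsa₀, βa₀, i1a₀, i2a₀, leva₀, za₀, ha₀, hDa₀⟩ := hd₀
  obtain ⟨hsa₁, βa₁, i1a₁, i2a₁, leva₁, za₁, ha₁', hDa₁⟩ := hd
  constructor
  · have hoppK₀ : IsOppC (prC (bI φK I₀)) :=
      opp_generic hI₀ ha0 hsa₀ hDa₀ φK hfrK haK h𝔪 ha𝔪 (fun x hx => by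
        refine hle ?_
        rw [← hkerK]
        exact hx) (p := p) hbk
    have h1 := opp_up (p := p) hI₀ ha0 hsa₀ hDa₀ φK hbbK haK ρ hbb hoppK₀
    rw [hρ] at h1
    rw [bI_bI]
    exact h1
  · intro hopp
    apply hnd
    have hoppK : IsOppC (prC (bI φK I)) := by
      refine isOppC_of_ext (hI.map φK) ρ ?_
      rw [bI_bI, hρ, ← bI_bI]
      exact hopp
    exact dense_of_opp (p := p) hI ha0 hsa₁ hDa₁ φK hkerK hbbK haK hoppK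

/-- The final theorem, relative version, uniform. -/
theorem rel_core {k : Type u} [Field k] [IsAlgClosed k] [CharZero k] (A : Subalgebra ℤ k) (hA : A.FG)
    {n : ℕ} (I₀ I : Ideal (MvPolynomial (Fin n) A)) (hle : I₀ ≤ I) (hI₀ : IsHomog I₀) (hI : IsHomog I)
    (hs₀ : IsSmoothProj (bI (algebraMap A k) I₀)) (hs : IsSmoothProj (bI (algebraMap A k) I))
    {wt : Fin n → M} (hw₀ : IsWHomog wt (bI (algebraMap A k) I₀))
    (hw : IsWHomog wt (bI (algebraMap A k) I))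
    (hg : IsGeneral3 (rsH (bI_mono (algebraMap A k) hle)) (grP (hI₀.map (algebraMap A k)) hw₀)
      (grP (hI.map (algebraMap A k)) hw)) :
    ∃ a : A, a ≠ 0 ∧ ∃ p₀ : ℕ, ∀ p : ℕ, p₀ ≤ p → p.Prime →
      (∀ (m i : ℕ) (μ : M), Module.finrank k ↥((prC (bI (algebraMap A k) I)).Fil m i ⊓
        (grP (hI.map (algebraMap A k)) hw).HW m (p • μ)) =
          Module.finrank k ↥((prC (bI (algebraMap A k) I)).Fil m i ⊓
            (grP (hI.map (algebraMap A k)) hw).HW m μ)) →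
      ∀ 𝔓, ¬ RelBad I₀ I a p 𝔓 := by
  classical
  have ft : ∀ A' : Subalgebra ℤ k, A'.FG → Algebra.FiniteType ℤ A' := fun A' h =>
    (Subalgebra.fg_iff_finiteType A').1 h
  have noe : ∀ A' : Subalgebra ℤ k, A'.FG → IsNoetherianRing A' := fun A' h =>
    have := ft A' h
    Algebra.FiniteType.isNoetherianRing ℤ A'
  have cz : ∀ A' : Subalgebra ℤ k, CharZero A' := fun A' =>
    ⟨fun a b h => by
      have h1 := congrArg (algebraMap A' k) h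
      rw [map_natCast, map_natCast] at h1
      exact Nat.cast_injective h1⟩
  have hnA := noe A hA
  have hfA := ft A hA
  have hcA := cz A
  obtain ⟨a, ha0, hd₀, hd⟩ := exists_hasDat hI₀ hI (algebraMap A k) Subtype.val_injective hs₀ hs
  obtain ⟨A₃, h3, N, D, hgood, hw₃, hw₃₀, hsm₃, hsm₃₀, β, i1, i2, lev, z, h, hD, β₀, i1₀, i2₀, lev₀, z₀, h₀,
    hD₀, V, G, mu, Lg, hR, Tv, hTv, hGen⟩ := exists_linT A hA I₀ I hle hI₀ hI hs₀ hs hw₀ hw hg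
  have hft₃ := ft A₃ hgood.fg
  have hn₃ := noe A₃ hgood.fg
  have hc₃ := cz A₃
  obtain ⟨p₁, hover⟩ := exists_over A A₃ (Subalgebra.inclusion h3).toRingHom
    (Subalgebra.inclusion_injective h3)
  obtain ⟨BA, hBA⟩ := exists_resB A
  obtain ⟨L, iL, φ, B, hB, hBb⟩ := exists_family3 A₃
    (fun p 𝔔 => RelBad I₀ I a p (𝔔.comap (Subalgebra.inclusion h3).toRingHom))
  obtain ⟨t, ht⟩ := hgood.dual
  obtain ⟨p₀, hp₀⟩ := LinT.key_U (j := algebraMap A₃ k) Subtype.val_injective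
    (mkLinT lev D G mu Lg hD.bound' Tv) hgood.der (fun m c c' hcc b₁ b₂ => by
      rw [coef_unique ht hcc]) hGen hB
  refine ⟨a, ha0, p₀ + B 0 + BA 0 + BA a + p₁ + Fintype.card M + 1,
    fun p hp hprime hdimk 𝔓 hbad => ?_⟩
  have hfact : Fact p.Prime := ⟨hprime⟩
  obtain ⟨𝔔₀, h𝔔₀, h𝔔₀c⟩ := hover p hprime (by omega) 𝔓 hbad.choose_spec.2.2.2.1
  obtain ⟨𝔔, h𝔔, hbad', hker, Λ, iΛ, bb, hbb⟩ := hBb p hprime (by omega) ⟨𝔔₀, h𝔔₀, h𝔔₀c ▸ hbad⟩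
  have hcp : CharP (L p) p := hB.char p hprime (by omega)
  obtain ⟨hoppL₀, hnot⟩ := dense_of_bad (Subalgebra.inclusion h3).toRingHom hI₀ hI ha0 hd₀ hd hbad' (φ p)
    hker hbb (fun 𝔓 h𝔓 K _ φK hk hf => by
      obtain ⟨h1, -, h2, h3⟩ := hBA p hprime (by omega) 𝔓 h𝔓 K φK hk hf
      exact ⟨h1, h2 a ha0 (by omega), h3⟩)
  apply hnot
  have hdim₀ : DimC (prC (bI (φ p) (bI (Subalgebra.inclusion h3).toRingHom I₀))) := fun m i =>
    conj_dim hbb ((hI₀.map _).map _) (hsm₃₀.map (hI₀.map _) (φ p))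
      (fun q m => (hD₀.hodge (L p) (φ p) q m).1)
      (dat_sum (hI₀.map _) hsm₃₀ hD₀.total (φ p)) m i
  have hMp : Function.Injective fun μ : M => p • μ := smul_injective_of_lt hprime (by omega)
  have hIk : bI (algebraMap A₃ k) (bI (Subalgebra.inclusion h3).toRingHom I) = bI (algebraMap A k) I := by
    rw [bI_bI]
    rfl
  have hdimW := dimCW_of (hI.map _) hw₃ hsm₃ hD hIk (hI.map _) hw (φ p) hbb hMp hdimk
  choose δ hδ using fun l => hB.der p hprime (by omega) (D l)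
  have hopp' := hp₀ p hprime (by omega) δ hδ (fun a i => (hD.ad (L p) (φ p)).con a i)
    ⟨con_conjW hD V hR (φ p) hdimW, fun b i u => con_rel _ hD₀ hD hTv (φ p) hoppL₀ hdim₀ b i u⟩
    (con_stabW hD V hR (φ p) δ hδ)
  exact oppC_of_weights (hD.ad (L p) (φ p)) fun a i c hc1 hc2 => hopp' a i c hc1 hc2

/-- The final theorem, relative version. -/
theorem rel_main {k : Type u} [Field k] [IsAlgClosed k] [CharZero k] (A : Subalgebra ℤ k) (hA : A.FG)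
    {n : ℕ} (I₀ I : Ideal (MvPolynomial (Fin n) A)) (hle : I₀ ≤ I) (hI₀ : IsHomog I₀) (hI : IsHomog I)
    (hs₀ : IsSmoothProj (bI (algebraMap A k) I₀)) (hs : IsSmoothProj (bI (algebraMap A k) I))
    {wt : Fin n → M} (hw₀ : IsWHomog wt (bI (algebraMap A k) I₀))
    (hw : IsWHomog wt (bI (algebraMap A k) I))
    (hg : IsGeneral3 (rsH (bI_mono (algebraMap A k) hle)) (grP (hI₀.map (algebraMap A k)) hw₀)
      (grP (hI.map (algebraMap A k)) hw)) :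
    ∃ a : A, a ≠ 0 ∧ ∀ b : A, b ≠ 0 → ∃ p₀ : ℕ, ∀ p : ℕ, p₀ ≤ p → p.Prime →
      (∀ (m i : ℕ) (μ : M), Module.finrank k ↥((prC (bI (algebraMap A k) I)).Fil m i ⊓
        (grP (hI.map (algebraMap A k)) hw).HW m (p • μ)) =
          Module.finrank k ↥((prC (bI (algebraMap A k) I)).Fil m i ⊓
            (grP (hI.map (algebraMap A k)) hw).HW m μ)) →
      HasOrdinaryPoint I₀ a p → HasOrdinaryPoint I b p := by
  have hfA : Algebra.FiniteType ℤ A := (Subalgebra.fg_iff_finiteType A).1 hA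
  have hcA : CharZero A := ⟨fun a b h => by
      have h1 := congrArg (algebraMap A k) h
      rw [map_natCast, map_natCast] at h1
      exact Nat.cast_injective h1⟩
  obtain ⟨a, ha0, p₀, hp₀⟩ := rel_core A hA I₀ I hle hI₀ hI hs₀ hs hw₀ hw hg
  obtain ⟨BA, hBA⟩ := exists_resB A
  refine ⟨a, ha0, fun b hb => ⟨p₀ + BA 0 + BA b + 1, fun p hp hprime hdimk hY => ?_⟩⟩
  obtain ⟨𝔪, h𝔪, ha𝔪, hp𝔪, hs𝔪, hbk⟩ := hY
  have hle' : Ideal.span {(p : A)} ≤ 𝔪 := by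
    rw [Ideal.span_singleton_le_iff_mem]
    exact hp𝔪
  obtain ⟨𝔓, h𝔓, h𝔓𝔪⟩ := Ideal.exists_minimalPrimes_le hle'
  have hpr : 𝔓.IsPrime := h𝔓.1.1
  have hb𝔓 : b ∉ 𝔓 := by
    obtain ⟨-, -, h1, -⟩ := hBA p hprime (by omega) 𝔓 h𝔓 (FractionRing (A ⧸ 𝔓)) _ (frac_ker 𝔓) (frac_surj 𝔓)
    have h2 := h1 b hb (by omega)
    intro h3
    apply h2
    rw [← RingHom.mem_ker, frac_ker]
    exact h3
  have hd : IsDenseOrd I 𝔓 := by
    by_contra hnd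
    exact hp₀ p (by omega) hprime hdimk 𝔓 ⟨𝔪, h𝔪, ha𝔪, hbk, h𝔓, h𝔓𝔪, hnd⟩
  obtain ⟨𝔪', h𝔪', hle'', hb', hs', hbk'⟩ := hd b hb𝔓
  exact ⟨𝔪', h𝔪', hb', hle'' (h𝔓.1.2 (Ideal.mem_span_singleton_self _)), hs', hbk'⟩

end

end MPadcGP
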