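import Pool.Agent.Lib.MP_adc574_ag_GP.DatC

/-!
# REL, parts R5'' and R5''' : opposite filtrations and field extensions (helper79)
-/

set_option autoImplicit false

namespace MPadcGP

universe u v w x

section

open CovD

variable {κ κ' : Type u} [Field κ] [Field κ'] {n : ℕ} {I : Ideal (MvPolynomial (Fin n) κ)}

/-- Adapted bases over a field and their base change to an extension. -/
theorem r3e_ad (hI : IsHomog I) (ψ : κ →+* κ') : ∃ (r : ℕ → ℕ) (z : ∀ m, Fin (r m) → (prC I).Ch)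
    (lev : ∀ m, Fin (r m) → ℕ), (∀ m, IsAdapted (prC I).Dt (prC I).Fi (1 : κ) m (z m) (lev m)) ∧
    ∀ m, IsAdapted (prC (bI ψ I)).Dt (prC (bI ψ I)).Fi (1 : κ') m
      (fun b => (prH ψ I).push (z m b)) (lev m) := by
  let _ : Algebra κ κ' := ψ.toAlgebra
  obtain ⟨a, r, z, lev, h, ha, hp⟩ := exists_preDat (X := prC I) (2 * n) (fun m hm => prC_Tt_top m hm)
    (fun i m => finset_of_FGq (prC_fg_F hI i m) rfl (by
        cases m with
        | zero =>
          change (⊥ : Submodule κ (prC I).Ch) = (⊥ : Submodule κ (prC I).Ch).map _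
          rw [Submodule.map_bot]
        | succ m => rfl))
    (fun q m => finset_of_FGq (prC_fg_Gq hI q m) (by
        rw [← Gr_eq_Gq]
        rfl) (by
        cases m with
        | zero =>
          change (⊥ : Submodule κ (prC I).Ch) = (⊥ : Submodule κ (prC I).Ch).map _
          rw [Submodule.map_bot]
        | succ m =>
          change ((prC I).Gr q m).map (prC I).Dq = ((prC I).Gq q m).map _
          rw [Gr_eq_Gq]
          rfl))
  have hone : ∀ m, IsAdapted (prC I).Dt (prC I).Fi (1 : κ) m (z m) (lev m) := by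
    intro m
    refine ⟨(hp.ad m).mem, (hp.ad m).indep, fun i x hx => ?_⟩
    obtain ⟨c, hc0, hc⟩ := (hp.ad m).span i x hx
    refine ⟨fun b => a⁻¹ * c b, fun b hb => by simp only [hc0 b hb, mul_zero], ?_⟩
    have h1 := Submodule.smul_mem _ a⁻¹ hc
    rw [smul_sub, smul_smul, inv_mul_cancel₀ ha, Finset.smul_sum] at h1
    simpa only [smul_smul] using h1
  refine ⟨r, z, lev, hone, fun m => ?_⟩
  let F : Hm (algebraMap κ κ') (prC I) (prC (bI (algebraMap κ κ') I)) := prH (algebraMap κ κ') I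
  have hF : F.IsBC := prH_isBC (B := κ') hI
  exact adapted_bc (B := κ') (φ := F.push) (fun i m x hx => Dt_mem_Fi hx) Dt_Dt (fun i m x hx => Dt_mem_Fi hx)
      (fun i m => Fi_anti (Nat.le_succ i) m) (fun i m => Fi_anti (Nat.le_succ i) m)
      (fun i m => inferInstance) (2 * n) (fun i m hm => Fi_top (prC_Tt_top m hm) i)
      (fun r x => Hm.push_smul (F := F) r x) (fun x => Hm.push_Dt (F := F) x)
      (fun i m => isBCm_of F _ (F.bc_Fi hF i m))
      (ha := (IsUnit.mk0 a ha).map (algebraMap κ κ')) hp.ad hp.bas m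

/-- Adapted bases in the sense of `Ad.lean`. -/
theorem r3e_isAd {A : Type u} [CommRing A] {X : CovD.{u, v} A n} {r : ℕ → ℕ}
    {z : ∀ m, Fin (r m) → X.Ch} {lev : ∀ m, Fin (r m) → ℕ}
    (h : ∀ m, IsAdapted X.Dt X.Fi (1 : A) m (z m) (lev m)) : IsAd X lev z := by
  have hB : ∀ m, Bs X.Dt (X.Fi 0) m = X.Bc m := by
    intro m
    cases m with
    | zero => rfl
    | succ m =>
      change (X.Fi 0 m).map X.Dt = (X.Tt m).map X.Dt
      rw [Fi_zero]
  refine ⟨fun m b => ((h m).mem b).1, fun m b => ((h m).mem b).2, fun m i x hx hx0 => ?_,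
    fun m c hc => (h m).indep c ?_⟩
  · obtain ⟨c, hc0, hc⟩ := (h m).span i x ⟨hx, hx0⟩
    rw [one_smul, hB] at hc
    exact ⟨c, hc0, hc⟩
  · rw [hB]
    exact hc

section push

variable {A : Type u} [CommRing A] {B : Type w} [CommRing B] {f : A →+* B} {X : CovD.{u, v} A n}
  {Y : CovD.{w, x} B n} (F : Hm f X Y)

theorem r3e_push_Zc {m : ℕ} {c : X.Ch} (hc : c ∈ X.Zc m) : F.push c ∈ Y.Zc m := by
  refine mem_Zc.2 ⟨F.push_mem_Tt hc.1, ?_⟩
  rw [← F.push_Dt, (mem_Zc.1 hc).2, map_zero]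

theorem r3e_push_Bc {m : ℕ} {c : X.Ch} (hc : c ∈ X.Bc m) : F.push c ∈ Y.Bc m := by
  cases m with
  | zero =>
    have h1 : c = 0 := hc
    rw [h1, map_zero]
    exact Submodule.zero_mem _
  | succ m =>
    obtain ⟨b, hb, rfl⟩ := hc
    rw [F.push_Dt]
    exact ⟨F.push b, F.push_mem_Tt hb, rfl⟩

theorem r3e_push_lin {ι : Type*} (s : Finset ι) (g : ι → A) (z : ι → X.Ch) :
    F.push (∑ i ∈ s, g i • z i) = ∑ i ∈ s, f (g i) • F.push (z i) := by
  rw [map_sum]
  exact Finset.sum_congr rfl fun i _ => F.push_smul _ _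

end push

/-- PART R5'' : for a field extension, opposite descends. -/
theorem isOppC_of_ext (hI : IsHomog I) (ψ : κ →+* κ') (h : IsOppC (prC (bI ψ I))) :
    IsOppC (prC I) := by
  obtain ⟨r, z, lev, h0, h1⟩ := r3e_ad hI ψ
  have h0' := r3e_isAd h0
  have h1' := r3e_isAd h1
  intro m i
  rw [eq_bot_iff]
  rintro x ⟨hx1, hx2⟩
  obtain ⟨c, hc, hcx⟩ := mem_Con.1 hx1
  obtain ⟨c', hc', hcx'⟩ := mem_Fil.1 hx2
  have h2 : (c : (prC I).Ch) - c' ∈ (prC I).Bc m := by rw [← cl_eq, hcx, hcx']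
  set F := prH ψ I with hF
  have h3 : (prC (bI ψ I)).cl m ⟨F.push c, r3e_push_Zc F c.2⟩ = 0 := by
    have h4 : (prC (bI ψ I)).cl m ⟨F.push c, r3e_push_Zc F c.2⟩ ∈
        (prC (bI ψ I)).Con m i ⊓ (prC (bI ψ I)).Fil m (i + 1) := by
      refine ⟨mem_Con.2 ⟨_, F.push_mem_Ni hc, rfl⟩, mem_Fil.2
        ⟨⟨F.push c', r3e_push_Zc F c'.2⟩, F.push_mem_Fi hc', ?_⟩⟩
      rw [eq_comm, cl_eq]
      change F.push c - F.push c' ∈ _
      rw [← map_sub]
      exact r3e_push_Bc F h2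
    rw [h m i] at h4
    exact h4
  rw [cl_eq_zero] at h3
  obtain ⟨g, -, hg⟩ := h0'.gen m 0 c (by rw [Fi_zero]; exact c.2.1) c.2.2
  have h5 := r3e_push_Bc F hg
  rw [map_sub, r3e_push_lin] at h5
  have h6 : (fun b => ψ (g b)) = 0 := by
    refine h1'.ind m (fun b => ψ (g b)) ?_
    have h7 := Submodule.sub_mem _ h3 h5
    rw [sub_sub_cancel] at h7
    exact h7
  have h8 : g = 0 := by
    funext b
    have h9 := congrFun h6 b
    exact (map_eq_zero_iff ψ ψ.injective).1 h9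
  have h9 : (c : (prC I).Ch) ∈ (prC I).Bc m := by
    rw [h8] at hg
    simpa only [Pi.zero_apply, zero_smul, Finset.sum_const_zero, sub_zero] using hg
  rw [← hcx]
  exact cl_eq_zero.2 h9

/-- PART R5''' : and is preserved (dimensions complementary over both fields). -/
theorem isOppC_ext (hI : IsHomog I) (ψ : κ →+* κ') (hd : DimC (prC I)) (hd' : DimC (prC (bI ψ I)))
    (hf : ∀ m, FiniteDimensional κ ((prC I).HdR m)) (h : IsOppC (prC I)) :
    IsOppC (prC (bI ψ I)) := by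
  obtain ⟨r, z, lev, h0, h1⟩ := r3e_ad hI ψ
  have h0' := r3e_isAd h0
  have h1' := r3e_isAd h1
  intro m i
  have hfm := hf m
  have hfm' : FiniteDimensional κ' ((prC (bI ψ I)).HdR m) := h1'.finite m
  set F := prH ψ I with hF
  -- over `κ`
  have htop : (prC I).Con m i ⊔ (prC I).Fil m (i + 1) = ⊤ := by
    refine Submodule.eq_top_of_finrank_eq ?_
    have h2 := Submodule.finrank_sup_add_finrank_inf_eq ((prC I).Con m i) ((prC I).Fil m (i + 1))
    rw [h m i, finrank_bot, add_zero, hd m i] at h2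
    exact h2
  -- the images of the basis
  have hz : ∀ b, (prC (bI ψ I)).cl m ⟨F.push (z m b), h1'.mem_Zc m b⟩ ∈
      (prC (bI ψ I)).Con m i ⊔ (prC (bI ψ I)).Fil m (i + 1) := by
    intro b
    have h2 : (prC I).cl m ⟨z m b, h0'.mem_Zc m b⟩ ∈
        (prC I).Con m i ⊔ (prC I).Fil m (i + 1) := by
      rw [htop]
      exact Submodule.mem_top
    obtain ⟨y, hy, y', hy', hyy⟩ := Submodule.mem_sup.1 h2
    obtain ⟨c, hc, hcy⟩ := mem_Con.1 hy
    obtain ⟨c', hc', hcy'⟩ := mem_Fil.1 hy'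
    have h3 : z m b - ((c : (prC I).Ch) + c') ∈ (prC I).Bc m := by
      have h4 : (prC I).cl m ⟨z m b, h0'.mem_Zc m b⟩ = (prC I).cl m (c + c') := by
        rw [map_add, hcy, hcy', hyy]
      exact cl_eq.1 h4
    have h5 := r3e_push_Bc F h3
    rw [map_sub, map_add] at h5
    have h6 : (prC (bI ψ I)).cl m ⟨F.push (z m b), h1'.mem_Zc m b⟩ =
        (prC (bI ψ I)).cl m ⟨F.push c, r3e_push_Zc F c.2⟩ +
          (prC (bI ψ I)).cl m ⟨F.push c', r3e_push_Zc F c'.2⟩ := by
      rw [← map_add, cl_eq]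
      exact h5
    rw [h6]
    exact Submodule.add_mem_sup (mem_Con.2 ⟨_, F.push_mem_Ni hc, rfl⟩)
      (mem_Fil.2 ⟨_, F.push_mem_Fi hc', rfl⟩)
  have htop' : (prC (bI ψ I)).Con m i ⊔ (prC (bI ψ I)).Fil m (i + 1) = ⊤ := by
    rw [eq_top_iff]
    intro x _
    obtain ⟨g, rfl⟩ := h1'.crd_surjective m x
    rw [IsAd.crd, Fintype.linearCombination_apply]
    exact Submodule.sum_mem _ fun b _ => Submodule.smul_mem _ _ (hz b)
  have h2 := Submodule.finrank_sup_add_finrank_inf_eq ((prC (bI ψ I)).Con m i)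
    ((prC (bI ψ I)).Fil m (i + 1))
  rw [htop', finrank_top, hd' m i] at h2
  have h3 : Module.finrank κ' ↥((prC (bI ψ I)).Con m i ⊓ (prC (bI ψ I)).Fil m (i + 1)) = 0 := by
    omega
  exact Submodule.finrank_eq_zero.1 h3

end

end MPadcGP
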