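import Pool.Agent.Lib.MP_adc574_ag_GP.ResF

/-!
# The residue fields of all generic points of `V(p)` (helper2)

`exists_etale`: a finitely generated domain `A` of characteristic zero is generically étale over a
polynomial ring over `ℤ`.
`exists_resB`: PART R2.
-/

set_option autoImplicit false

universe u

namespace MPadcGP

open Algebra MPadcGM

/-- In characteristic zero the generic point is étale. -/
theorem isEtaleAt_bot {R S : Type u} [CommRing R] [CommRing S] [Algebra R S] [IsDomain R]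
    [IsDomain S] [FaithfulSMul R S] [CharZero R] [Algebra.IsAlgebraic R S] :
    IsEtaleAt R (⊥ : Ideal S) := by
  have : IsFractionRing S (Localization.AtPrime (⊥ : Ideal S)) := by
    simpa [Ideal.primeCompl_bot] using Localization.isLocalization (M := (⊥ : Ideal S).primeCompl)
  let : Field (Localization.AtPrime (⊥ : Ideal S)) := IsFractionRing.toField S
  have : FaithfulSMul R (Localization.AtPrime (⊥ : Ideal S)) := by
    rw [faithfulSMul_iff_algebraMap_injective,
      IsScalarTower.algebraMap_eq R S (Localization.AtPrime ⊥)]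
    exact (IsFractionRing.injective S _).comp (FaithfulSMul.algebraMap_injective R S)
  let := FractionRing.liftAlgebra R (Localization.AtPrime (⊥ : Ideal S))
  have h1 : Algebra.IsAlgebraic R (Localization.AtPrime (⊥ : Ideal S)) :=
    (IsFractionRing.isAlgebraic_iff' R S _).1 inferInstance
  have : Algebra.IsAlgebraic (FractionRing R) (Localization.AtPrime (⊥ : Ideal S)) :=
    IsFractionRing.comap_isAlgebraic_iff.1 h1
  have : FormallyEtale (FractionRing R) (Localization.AtPrime (⊥ : Ideal S)) :=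
    FormallyEtale.of_isSeparable _ _
  have : FormallyEtale R (FractionRing R) :=
    FormallyEtale.of_isLocalization (nonZeroDivisors R)
  exact FormallyEtale.comp R (FractionRing R) (Localization.AtPrime ⊥)

/-- A finitely generated domain of characteristic zero is generically étale over a polynomial ring
over the integers. -/
theorem exists_etale (A : Type u) [CommRing A] [IsDomain A] [CharZero A] [Algebra.FiniteType ℤ A] :
    ∃ (X : Type u) (_ : Finite X) (_ : Algebra (MvPolynomial X ℤ) A),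
      FaithfulSMul (MvPolynomial X ℤ) A ∧ Algebra.FiniteType (MvPolynomial X ℤ) A ∧
        ∃ f : A, f ≠ 0 ∧ Algebra.Etale (MvPolynomial X ℤ) (Localization.Away f) := by
  classical
  have hfaith : FaithfulSMul ℤ A := inferInstance
  obtain ⟨X, hX⟩ := exists_isTranscendenceBasis ℤ A
  have hfin : Algebra.trdeg ℤ A < Cardinal.aleph0 := trdeg_lt_aleph0_of_finiteType
  have hXfin : Finite X := by
    rw [← Cardinal.lt_aleph0_iff_finite, hX.cardinalMk_eq_trdeg]
    exact hfin
  let R := MvPolynomial X ℤ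
  let θ : R →ₐ[ℤ] A := MvPolynomial.aeval ((↑) : X → A)
  have hθ : Function.Injective θ.toRingHom := hX.1
  let al : Algebra R A := θ.toRingHom.toAlgebra
  have hmap : (algebraMap R A) = θ.toRingHom := rfl
  have hfaithR : FaithfulSMul R A := (faithfulSMul_iff_algebraMap_injective R A).2 hθ
  have htower : IsScalarTower ℤ R A := IsScalarTower.of_algebraMap_eq' (Subsingleton.elim _ _)
  have hftR : Algebra.FiniteType R A := Algebra.FiniteType.of_restrictScalars_finiteType ℤ R A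
  have halg : Algebra.IsAlgebraic R A := by
    have h1 := hX.isAlgebraic
    have hran : adjoin ℤ (Set.range ((↑) : X → A)) = θ.range :=
      Algebra.adjoin_range_eq_range_aeval ℤ ((↑) : X → A)
    constructor
    intro a
    obtain ⟨P, hP, hPa⟩ := h1.isAlgebraic a
    let f : R →+* adjoin ℤ (Set.range ((↑) : X → A)) :=
      RingHom.codRestrict θ.toRingHom (adjoin ℤ (Set.range ((↑) : X → A))) (fun x => by
        rw [hran]
        exact ⟨x, rfl⟩)
    have hsur : Function.Surjective f := by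
      intro y
      have h2 : (y : A) ∈ θ.range := by
        rw [← hran]
        exact y.2
      obtain ⟨x, hx⟩ := h2
      exact ⟨x, Subtype.ext hx⟩
    obtain ⟨P', rfl⟩ := Polynomial.map_surjective f hsur P
    refine ⟨P', fun h => hP (by rw [h, Polynomial.map_zero]), ?_⟩
    rw [← hPa, Polynomial.aeval_def, Polynomial.aeval_def, Polynomial.eval₂_map]
    rfl
  have hpres : Algebra.FinitePresentation R A := Algebra.FinitePresentation.of_finiteType.1 hftR
  have het : IsEtaleAt R (⊥ : Ideal A) := isEtaleAt_bot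
  obtain ⟨f, hf, hfe⟩ := exists_etale_of_isEtaleAt (R := R) (⊥ : Ideal A)
  exact ⟨X, hXfin, al, hfaithR, hftR, f, fun h => hf (by rw [h]; exact Ideal.zero_mem _), hfe⟩

/-- With going down outside of `V(f)`, the minimal primes over `𝔭` outside of `V(f)` lie over `𝔭`. -/
theorem comap_of_minimal {R A : Type u} [CommRing R] [CommRing A] [Algebra R A] (f : A)
    [Algebra.HasGoingDown R (Localization.Away f)] (𝔭 : Ideal R) [𝔭.IsPrime] (𝔓 : Ideal A)
    (h𝔓 : 𝔓 ∈ (𝔭.map (algebraMap R A)).minimalPrimes) (hf : f ∉ 𝔓) :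
    𝔓.comap (algebraMap R A) = 𝔭 := by
  have hpr : 𝔓.IsPrime := h𝔓.1.1
  have hdis : Disjoint ((Submonoid.powers f : Submonoid A) : Set A) (𝔓 : Set A) :=
    (Ideal.disjoint_powers_iff_notMem f hpr.isRadical).2 hf
  let S := Localization.Away f
  let Q : Ideal S := 𝔓.map (algebraMap A S)
  have hQ : Q.IsPrime := IsLocalization.isPrime_of_isPrime_disjoint (Submonoid.powers f) S 𝔓 hpr hdis
  have hQc : Q.comap (algebraMap A S) = 𝔓 :=
    IsLocalization.under_map_of_isPrime_disjoint (Submonoid.powers f) S hpr hdis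
  have hle : 𝔭 ≤ Q.comap (algebraMap R S) := by
    rw [IsScalarTower.algebraMap_eq R A S, ← Ideal.comap_comap, hQc]
    exact Ideal.map_le_iff_le_comap.1 h𝔓.1.2
  have hover : Q.LiesOver (Q.comap (algebraMap R S)) := ⟨rfl⟩
  obtain ⟨P, hPQ, hP, hPo⟩ := Ideal.exists_ideal_le_liesOver_of_le (p := 𝔭)
    (q := Q.comap (algebraMap R S)) Q hle
  have hPo' : 𝔭 = P.comap (algebraMap R S) := hPo.over
  have h1 : P.comap (algebraMap A S) ≤ 𝔓 := by
    rw [← hQc]
    exact Ideal.comap_mono hPQ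
  have h2 : 𝔭.map (algebraMap R A) ≤ P.comap (algebraMap A S) := by
    rw [Ideal.map_le_iff_le_comap, Ideal.comap_comap, ← IsScalarTower.algebraMap_eq R A S, ← hPo']
  have h3 : 𝔓 ≤ P.comap (algebraMap A S) := h𝔓.2 ⟨hP.comap _, h2⟩ h1
  have h4 : P.comap (algebraMap A S) = 𝔓 := le_antisymm h1 h3
  rw [← h4, Ideal.comap_comap, ← IsScalarTower.algebraMap_eq R A S, ← hPo']

/-- A nonzero element of a minimal prime over a principal ideal. -/
theorem mem_minimal_of_mem {A : Type u} [CommRing A] [IsDomain A] [IsNoetherianRing A] {π b : A}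
    (hb : b ≠ 0) {𝔓 : Ideal A} (h𝔓 : 𝔓 ∈ (Ideal.span {π}).minimalPrimes) (hmem : b ∈ 𝔓) :
    𝔓 ∈ (Ideal.span {b}).minimalPrimes := by
  have hpr : 𝔓.IsPrime := h𝔓.1.1
  refine ⟨⟨hpr, (Ideal.span_singleton_le_iff_mem _).2 hmem⟩, ?_⟩
  rintro 𝔮 ⟨h𝔮, hb𝔮⟩ hle
  by_contra hn
  have hlt : 𝔮 < 𝔓 := lt_of_le_not_ge hle hn
  have hbot : (⊥ : Ideal A) < 𝔮 := by
    rw [bot_lt_iff_ne_bot]
    intro h
    rw [h, Ideal.span_singleton_le_iff_mem, Ideal.mem_bot] at hb𝔮
    exact hb hb𝔮
  have h1 : 𝔓.height ≤ 1 := Ideal.height_le_one_of_isPrincipal_of_mem_minimalPrimes _ 𝔓 h𝔓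
  have h2 : (⊥ : Ideal A).IsPrime := Ideal.isPrime_bot
  have h3 := Ideal.height_add_one_le_of_lt_of_isPrime hbot
  have h4 := Ideal.height_add_one_le_of_lt_of_isPrime hlt
  have h5 : (1 : ℕ∞) + 1 ≤ 𝔓.height := by
    refine le_trans ?_ h4
    gcongr
    exact le_trans le_add_self h3
  have h6 : (1 : ℕ∞) + 1 ≤ 1 := h5.trans h1
  exact absurd h6 (by decide)

/-- A bound for the primes `p` such that `b` lies in a minimal prime over `p`. -/
theorem exists_bound (A : Type u) [CommRing A] [IsDomain A] [IsNoetherianRing A] (b : A)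
    (hb : b ≠ 0) : ∃ N : ℕ, ∀ p : ℕ, p.Prime → N < p →
      ∀ 𝔓 ∈ (Ideal.span {(p : A)}).minimalPrimes, b ∉ 𝔓 := by
  classical
  have hfin := Ideal.finite_minimalPrimes_of_isNoetherianRing A (Ideal.span {b})
  have h1 : ∀ 𝔓 : Ideal A, ∃ N : ℕ, 𝔓.IsPrime → ∀ p : ℕ, p.Prime → (p : A) ∈ 𝔓 → p ≤ N := by
    intro 𝔓
    by_cases h : 𝔓.IsPrime ∧ ∃ q : ℕ, q.Prime ∧ (q : A) ∈ 𝔓
    · obtain ⟨h𝔓, q, hq, hqm⟩ := h
      refine ⟨q, fun _ p hp hpm => ?_⟩
      by_contra hn
      have hne : p ≠ q := by omega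
      have hco : IsCoprime (p : ℤ) (q : ℤ) := Nat.isCoprime_iff_coprime.2
        ((Nat.coprime_primes hp hq).2 hne)
      obtain ⟨x, y, hxy⟩ := hco
      have h2 : (1 : A) = (x : A) * (p : A) + (y : A) * (q : A) := by
        have h3 := congrArg (Int.cast : ℤ → A) hxy
        push_cast at h3
        exact h3.symm
      exact h𝔓.ne_top ((Ideal.eq_top_iff_one _).2 (by
        rw [h2]
        exact 𝔓.add_mem (𝔓.mul_mem_left _ hpm) (𝔓.mul_mem_left _ hqm)))
    · exact ⟨0, fun h𝔓 p hp hpm => absurd ⟨h𝔓, p, hp, hpm⟩ h⟩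
  choose N hN using h1
  refine ⟨hfin.toFinset.sup N, fun p hp hlt 𝔓 h𝔓 hmem => ?_⟩
  have h2 := mem_minimal_of_mem hb h𝔓 hmem
  have h3 : p ≤ N 𝔓 := hN 𝔓 h𝔓.1.1 p hp (h𝔓.1.2 (Ideal.mem_span_singleton_self _))
  have h4 : N 𝔓 ≤ hfin.toFinset.sup N := Finset.le_sup (hfin.mem_toFinset.2 h2)
  omega

/-- PART R2: the residue fields of the generic points of `V(p)`. -/
theorem exists_resB (A : Type u) [CommRing A] [IsDomain A] [CharZero A] [Algebra.FiniteType ℤ A] :
    ∃ B : A → ℕ, ∀ p : ℕ, p.Prime → B 0 < p → ∀ 𝔓 ∈ (Ideal.span {(p : A)}).minimalPrimes,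
      ∀ (L : Type u) [Field L] (φ : A →+* L), RingHom.ker φ = 𝔓 →
        (∀ x : L, ∃ a b : A, φ b ≠ 0 ∧ x = φ a / φ b) → CharP L p ∧
        (∀ D : Derivation ℤ A A, ∃ dl : Derivation ℤ L L, ∀ a, dl (φ a) = φ (D a)) ∧
        (∀ b, b ≠ 0 → B b < p → φ b ≠ 0) ∧ ∃ (Λ : Type) (_ : Fintype Λ) (b : Λ → L), PBas p b := by
  classical
  have hnoeth : IsNoetherianRing A := Algebra.FiniteType.isNoetherianRing ℤ A
  obtain ⟨X, hX, al, hfs, hft, f, hf, het⟩ := exists_etale A
  have hb : ∀ b : A, ∃ N : ℕ, b ≠ 0 → ∀ p : ℕ, p.Prime → N < p →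
      ∀ 𝔓 ∈ (Ideal.span {(p : A)}).minimalPrimes, b ∉ 𝔓 := by
    intro b
    by_cases h : b = 0
    · exact ⟨0, fun h' => absurd h h'⟩
    · obtain ⟨N, hN⟩ := exists_bound A b h
      exact ⟨N, fun _ => hN⟩
  choose N hN using hb
  refine ⟨fun b => if b = 0 then N f else N b, ?_⟩
  intro p hp hB 𝔓 h𝔓 L _ φ hker hgen
  replace hB : N f < p := by simpa using hB
  let R := MvPolynomial X ℤ
  have hfP : f ∉ 𝔓 := hN f hf p hp hB 𝔓 h𝔓
  have h𝔓p : 𝔓.IsPrime := h𝔓.1.1
  have hpP : (p : A) ∈ 𝔓 := h𝔓.1.2 (Ideal.mem_span_singleton_self _)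
  have hprime : (Ideal.span {((p : ℕ) : R)}).IsPrime := by
    have h1 : Prime ((MvPolynomial.C ((p : ℕ) : ℤ)) : MvPolynomial X ℤ) :=
      (MvPolynomial.prime_C_iff X).2 (Nat.prime_iff_prime_int.1 hp)
    have h2 : ((p : ℕ) : R) = MvPolynomial.C ((p : ℕ) : ℤ) := by simp [R]
    rw [h2]
    exact (Ideal.span_singleton_prime h1.ne_zero).2 h1
  have hmap : (Ideal.span {((p : ℕ) : R)}).map (algebraMap R A) = Ideal.span {(p : A)} := by
    rw [Ideal.map_span, Set.image_singleton, map_natCast]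
  have hcomap : 𝔓.comap (algebraMap R A) = Ideal.span {((p : ℕ) : R)} := by
    have hflat : Module.Flat R (Localization.Away f) := inferInstance
    exact comap_of_minimal f (Ideal.span {((p : ℕ) : R)}) 𝔓 (by rw [hmap]; exact h𝔓) hfP
  have hunP : IsUnramifiedAt R 𝔓 := by
    have h0 : FormallyUnramified R (Localization.Away f) := inferInstance
    have h1 := basicOpen_subset_unramifiedLocus_iff.2 h0
    exact h1 (show (⟨𝔓, h𝔓p⟩ : PrimeSpectrum A) ∈ PrimeSpectrum.basicOpen f from hfP)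
  -- derivations preserve the prime
  have hstab : ∀ (D : Derivation ℤ A A), ∀ q ∈ 𝔓, D q ∈ 𝔓 := by
    intro D q hq
    obtain ⟨s, hs, a, ha⟩ := exists_mul_eq ((p : ℕ) : R) (Ideal.span {((p : ℕ) : R)}) rfl 𝔓 hcomap
      hunP q hq
    rw [map_natCast] at ha
    have h1 := congrArg D ha
    rw [Derivation.leibniz, Derivation.leibniz, Derivation.map_natCast, smul_zero, add_zero,
      smul_eq_mul, smul_eq_mul, smul_eq_mul] at h1
    have h2 : s * D q ∈ 𝔓 := by
      have h3 : s * D q = (p : A) * D a - q * D s := by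
        rw [← h1]
        ring
      rw [h3]
      exact 𝔓.sub_mem (𝔓.mul_mem_right _ hpP) (𝔓.mul_mem_right _ hq)
    exact (h𝔓p.mem_or_mem h2).resolve_left hs
  have hchar : CharP L p := by
    apply charP_of_cast_eq_zero hp
    rw [← map_natCast φ, ← RingHom.mem_ker, hker]
    exact hpP
  have hF : Fact p.Prime := ⟨hp⟩
  refine ⟨hchar, fun D => ?_, fun b hb hBb h => ?_, exists_pbas_of_gen φ hgen⟩
  · let ψ : A ⧸ 𝔓 →+* L := Ideal.Quotient.lift 𝔓 φ (fun a ha => by
      rw [← RingHom.mem_ker, hker]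
      exact ha)
    have hψ : Function.Injective ψ := by
      rw [injective_iff_map_eq_zero]
      intro x hx
      obtain ⟨a, rfl⟩ := Ideal.Quotient.mk_surjective x
      rw [Ideal.Quotient.lift_mk, ← RingHom.mem_ker, hker] at hx
      exact Ideal.Quotient.eq_zero_iff_mem.2 hx
    let al2 : Algebra (A ⧸ 𝔓) L := ψ.toAlgebra
    have hal : ∀ a, algebraMap (A ⧸ 𝔓) L (Ideal.Quotient.mk 𝔓 a) = φ a := fun a => rfl
    have hfs2 : FaithfulSMul (A ⧸ 𝔓) L := (faithfulSMul_iff_algebraMap_injective _ _).2 hψ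
    have hfr : IsFractionRing (A ⧸ 𝔓) L := by
      refine IsFractionRing.of_field (A ⧸ 𝔓) L (fun z => ?_)
      obtain ⟨a, b, hb, rfl⟩ := hgen z
      exact ⟨Ideal.Quotient.mk 𝔓 a, Ideal.Quotient.mk 𝔓 b, rfl⟩
    obtain ⟨d, hd⟩ := exists_residue_derivation 𝔓 (T := L) D (hstab D)
    exact ⟨d, fun a => by
      have h1 := hd a
      rw [hal, hal] at h1
      exact h1⟩
  · replace hBb : N b < p := by simpa [hb] using hBb
    have h1 := hN b hb p hp hBb 𝔓 h𝔓
    rw [← hker, RingHom.mem_ker] at h1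
    exact h1 h

end MPadcGP
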