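import Pool.Agent.Lib.MP_adc574_ag_GP.Fin3a
import Pool.Agent.Lib.MP_adc574_ag_GP.R3Res
import Pool.Agent.Lib.MP_adc574_ag_GP.R3Ext

/-!
# REL: families of residue fields
-/

set_option autoImplicit false
set_option linter.unusedSectionVars false

namespace MPadcGP

universe u v w x

/-- Residue fields of closed points of characteristic `p` are finite. -/
theorem finite_quot {A : Type u} [CommRing A] [Algebra.FiniteType ℤ A] {p : ℕ} [Fact p.Prime]
    (𝔪 : Ideal A) [𝔪.IsMaximal] [CharP (A ⧸ 𝔪) p] : Finite (A ⧸ 𝔪) := by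
  let _ : Field (A ⧸ 𝔪) := Ideal.Quotient.field 𝔪
  have h1 : (Int.castRingHom (A ⧸ 𝔪)).FiniteType := by
    have h2 : (Int.castRingHom A).FiniteType := by
      have h3 : (algebraMap ℤ A).FiniteType := RingHom.finiteType_algebraMap.2 inferInstance
      have h4 : algebraMap ℤ A = Int.castRingHom A := Subsingleton.elim _ _
      rwa [h4] at h3
    have h3 : (Ideal.Quotient.mk 𝔪).FiniteType :=
      RingHom.FiniteType.of_surjective _ Ideal.Quotient.mk_surjective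
    have h4 := h3.comp h2
    have h5 : (Ideal.Quotient.mk 𝔪).comp (Int.castRingHom A) = Int.castRingHom (A ⧸ 𝔪) :=
      Subsingleton.elim _ _
    rwa [h5] at h4
  let _ : Algebra (ZMod p) (A ⧸ 𝔪) := ZMod.algebra (A ⧸ 𝔪) p
  have h2 : (algebraMap (ZMod p) (A ⧸ 𝔪)).FiniteType := by
    refine RingHom.FiniteType.of_comp_finiteType (f := Int.castRingHom (ZMod p)) ?_
    have h5 : (algebraMap (ZMod p) (A ⧸ 𝔪)).comp (Int.castRingHom (ZMod p)) =
        Int.castRingHom (A ⧸ 𝔪) := Subsingleton.elim _ _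
    rwa [h5]
  have h3 : Algebra.FiniteType (ZMod p) (A ⧸ 𝔪) := RingHom.finiteType_algebraMap.1 h2
  have hfin : Module.Finite (ZMod p) (A ⧸ 𝔪) := finite_of_finite_type_of_isJacobsonRing (ZMod p) (A ⧸ 𝔪)
  exact Module.finite_of_finite (ZMod p)

theorem charP_of_cast_zero {F : Type u} [Field F] {p : ℕ} (hp : p.Prime) (h : (p : F) = 0) :
    CharP F p := by
  obtain ⟨q, hq⟩ := CharP.exists F
  have h1 := (CharP.cast_eq_zero_iff F q p).1 h
  rcases (Nat.dvd_prime hp).1 h1 with rfl | rfl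
  · exact absurd ((CharP.cast_eq_zero_iff F 1 1).2 (dvd_refl 1)) (by
      rw [Nat.cast_one]
      exact one_ne_zero)
  · exact hq

private structure RF3 (A : Type u) [CommRing A] where
  L : Type u
  fld : Field L
  f : A →+* L

theorem frac_ker {A : Type u} [CommRing A] (Q : Ideal A) [Q.IsPrime] :
    RingHom.ker ((algebraMap (A ⧸ Q) (FractionRing (A ⧸ Q))).comp (Ideal.Quotient.mk Q)) = Q := by
  ext x
  rw [RingHom.mem_ker, RingHom.comp_apply, map_eq_zero_iff _ (IsFractionRing.injective (A ⧸ Q) _),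
    Ideal.Quotient.eq_zero_iff_mem]

theorem frac_surj {A : Type u} [CommRing A] (Q : Ideal A) [Q.IsPrime] (x : FractionRing (A ⧸ Q)) :
    ∃ a b : A, ((algebraMap (A ⧸ Q) (FractionRing (A ⧸ Q))).comp (Ideal.Quotient.mk Q)) b ≠ 0 ∧
      x = ((algebraMap (A ⧸ Q) (FractionRing (A ⧸ Q))).comp (Ideal.Quotient.mk Q)) a /
        ((algebraMap (A ⧸ Q) (FractionRing (A ⧸ Q))).comp (Ideal.Quotient.mk Q)) b := by
  obtain ⟨a, b, hb, rfl⟩ := IsFractionRing.div_surjective (A := A ⧸ Q) x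
  obtain ⟨a, rfl⟩ := Ideal.Quotient.mk_surjective a
  obtain ⟨b, rfl⟩ := Ideal.Quotient.mk_surjective b
  refine ⟨a, b, ?_, rfl⟩
  rw [RingHom.comp_apply, Ne, map_eq_zero_iff _ (IsFractionRing.injective (A ⧸ Q) _)]
  exact nonZeroDivisors.ne_zero hb

/-- A family of residue fields which for every prime `p` with a minimal prime satisfying `Q p` contains the residue
field of such a minimal prime. -/
theorem exists_family3 (A : Type u) [CommRing A] [IsDomain A] [CharZero A] [Algebra.FiniteType ℤ A]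
    (Q : ℕ → Ideal A → Prop) :
    ∃ (L : ℕ → Type u) (_ : ∀ p, Field (L p)) (φ : ∀ p, A →+* L p) (B : A → ℕ),
      ResFields A L φ B ∧ ∀ p : ℕ, p.Prime → B 0 < p →
        (∃ 𝔔 ∈ (Ideal.span {(p : A)}).minimalPrimes, Q p 𝔔) →
        ∃ 𝔔 ∈ (Ideal.span {(p : A)}).minimalPrimes, Q p 𝔔 ∧ RingHom.ker (φ p) = 𝔔 ∧
          ∃ (Λ : Type) (_ : Fintype Λ) (b : Λ → L p), PBas p b := by
  classical
  obtain ⟨B₁, hB₁⟩ := exists_resB A
  obtain ⟨L', i', φ', B₂, hB₂, hb₂⟩ := exists_resFields' A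
  have h : ∀ p : ℕ, ∃ S : RF3 A, p.Prime → B₁ 0 + B₂ 0 < p →
      (letI := S.fld; CharP S.L p ∧
        (∀ D : Derivation ℤ A A, ∃ dl : Derivation ℤ S.L S.L, ∀ a, dl (S.f a) = S.f (D a)) ∧
        (∀ b, b ≠ 0 → B₁ b + B₂ b < p → S.f b ≠ 0) ∧
        ((∃ 𝔔 ∈ (Ideal.span {(p : A)}).minimalPrimes, Q p 𝔔) →
          ∃ 𝔔 ∈ (Ideal.span {(p : A)}).minimalPrimes, Q p 𝔔 ∧ RingHom.ker S.f = 𝔔 ∧
            ∃ (Λ : Type) (_ : Fintype Λ) (b : Λ → S.L), PBas p b)) := by
    intro p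
    by_cases hp : p.Prime ∧ B₁ 0 + B₂ 0 < p
    · by_cases hq : ∃ 𝔔 ∈ (Ideal.span {(p : A)}).minimalPrimes, Q p 𝔔
      · obtain ⟨𝔔, h𝔔, hQ⟩ := hq
        have hpr : 𝔔.IsPrime := h𝔔.1.1
        obtain ⟨h1, h2, h3, h4⟩ := hB₁ p hp.1 (by omega) 𝔔 h𝔔 (FractionRing (A ⧸ 𝔔))
          ((algebraMap (A ⧸ 𝔔) (FractionRing (A ⧸ 𝔔))).comp (Ideal.Quotient.mk 𝔔)) (frac_ker 𝔔)
          (frac_surj 𝔔)
        exact ⟨⟨FractionRing (A ⧸ 𝔔), inferInstance, _⟩, fun _ _ => ⟨h1, h2,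
          fun b hb hb' => h3 b hb (by omega), fun _ => ⟨𝔔, h𝔔, hQ, frac_ker 𝔔, h4⟩⟩⟩
      · exact ⟨⟨L' p, i' p, φ' p⟩, fun _ _ => ⟨hB₂.char p hp.1 (by omega), hB₂.der p hp.1 (by omega),
          fun b hb hb' => hB₂.ne p hp.1 (by omega) b hb (by omega), fun h => absurd h hq⟩⟩
    · exact ⟨⟨FractionRing A, inferInstance, algebraMap A (FractionRing A)⟩,
        fun h1 h2 => absurd ⟨h1, h2⟩ hp⟩
  choose S hS using h
  let i : ∀ p, Field (S p).L := fun p => (S p).fld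
  exact ⟨fun p => (S p).L, i, fun p => (S p).f, fun a => B₁ a + B₂ a,
    ⟨fun p h1 h2 => (hS p h1 h2).1, fun p h1 h2 => (hS p h1 h2).2.1,
      fun p h1 h2 => (hS p h1 h2).2.2.1⟩, fun p h1 h2 => (hS p h1 h2).2.2.2⟩

section

variable {A : Type u} [CommRing A] [IsDomain A] [CharZero A] [Algebra.FiniteType ℤ A]

/-- The dimensions over a residue field. -/
theorem dimC_of_aff {n : ℕ} {I : Ideal (MvPolynomial (Fin n) A)} (hI : IsHomog I) {a : A} (ha : a ≠ 0)
    (hs : IsSmoothProj (bI (algebraMap A (Localization.Away a)) I)) {β : ℕ → Type}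
    [∀ m, Fintype (β m)] [∀ m, DecidableEq (β m)] {lev : ∀ m, β m → ℕ}
    {z : ∀ m, β m → (prC (bI (algebraMap A (Localization.Away a)) I)).Ch} {h : ℕ → ℕ → ℕ}
    (hD : Dat (bI (algebraMap A (Localization.Away a)) I) lev z h)
    {p : ℕ} [Fact p.Prime] {K : Type u} [Field K] [CharP K p] (φ : A →+* K)
    {Λ : Type} [Fintype Λ] {bb : Λ → K} (hbb : PBas p bb) (ha𝔓 : φ a ≠ 0) :
    DimC (prC (bI φ I)) ∧ ∀ m, FiniteDimensional K ((prC (bI φ I)).HdR m) := by
  have hd' : IsDomain (Localization.Away a) := away_isDomain ha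
  have hft' : Algebra.FiniteType ℤ (Localization.Away a) := away_finiteType a
  have hft := away_finiteType' a
  have hcz : CharZero (Localization.Away a) := away_charZero ha
  have hn : IsNoetherianRing (Localization.Away a) := Algebra.FiniteType.isNoetherianRing ℤ _
  set ι := algebraMap A (Localization.Away a) with hι
  have huK : IsUnit (φ a) := IsUnit.mk0 _ ha𝔓
  set φ' : Localization.Away a →+* K := IsLocalization.Away.lift a huK with hφ'
  have hcomp : φ'.comp ι = φ := IsLocalization.Away.lift_comp a huK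
  have hI' := hI.map ι
  have h1 : bI φ I = bI φ' (bI ι I) := by rw [bI_bI, hcomp]
  rw [h1]
  exact ⟨fun m i => conj_dim hbb (hI'.map _) (hs.map hI' φ') (fun q m => (hD.hodge K φ' q m).1)
    (dat_sum hI' hs hD φ') m i, fun m => (hD.ad K φ').finite m⟩

/-- From the generic point of `V(𝔓)` to a larger field. -/
theorem opp_up {n : ℕ} {I : Ideal (MvPolynomial (Fin n) A)} (hI : IsHomog I) {a : A} (ha : a ≠ 0)
    (hs : IsSmoothProj (bI (algebraMap A (Localization.Away a)) I)) {β : ℕ → Type}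
    [∀ m, Fintype (β m)] [∀ m, DecidableEq (β m)] {lev : ∀ m, β m → ℕ}
    {z : ∀ m, β m → (prC (bI (algebraMap A (Localization.Away a)) I)).Ch} {h : ℕ → ℕ → ℕ}
    (hD : Dat (bI (algebraMap A (Localization.Away a)) I) lev z h)
    {p : ℕ} [Fact p.Prime] {K : Type u} [Field K] [CharP K p] (φ : A →+* K)
    {Λ : Type} [Fintype Λ] {bb : Λ → K} (hbb : PBas p bb) (ha𝔓 : φ a ≠ 0)
    {L : Type u} [Field L] [CharP L p] (ρ : K →+* L) {Λ' : Type} [Fintype Λ'] {bb' : Λ' → L}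
    (hbb' : PBas p bb') (hopp : IsOppC (prC (bI φ I))) : IsOppC (prC (bI (ρ.comp φ) I)) := by
  have h1 := dimC_of_aff hI ha hs hD φ hbb ha𝔓
  have h2 := dimC_of_aff hI ha hs hD (ρ.comp φ) hbb' (by
    rw [RingHom.comp_apply]
    exact (map_ne_zero ρ).2 ha𝔓)
  have h3 := isOppC_ext (hI.map φ) ρ h1.1 (by rw [bI_bI]; exact h2.1) h1.2 hopp
  rw [bI_bI] at h3
  exact h3

end

end MPadcGP
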