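import Pool.Agent.Lib.MP_adc574_ag_GP.ConW
import Pool.Agent.Lib.MP_adc574_ag_GP.Fin2L
import Pool.Agent.Lib.MP_adc574_ag_GP.Fin3b
import Pool.Agent.Lib.MP_adc574_ag_GP.GlRelW

/-!
# REL: the assembly, lemmas
-/

set_option autoImplicit false
set_option linter.unusedSectionVars false

namespace MPadcGP

universe u v w x

theorem exists_hom_frac {A : Type u} [CommRing A] (Q : Ideal A) [Q.IsPrime] {L : Type u} [Field L]
    (φ : A →+* L) (hker : RingHom.ker φ = Q) : ∃ ρ : FractionRing (A ⧸ Q) →+* L,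
      ρ.comp ((algebraMap (A ⧸ Q) (FractionRing (A ⧸ Q))).comp (Ideal.Quotient.mk Q)) = φ := by
  have h1 : ∀ a ∈ Q, φ a = 0 := fun a ha => by
    rw [← hker] at ha
    exact ha
  have hinj : Function.Injective (Ideal.Quotient.lift Q φ h1) := by
    rw [injective_iff_map_eq_zero]
    intro x hx
    obtain ⟨x, rfl⟩ := Ideal.Quotient.mk_surjective x
    rw [Ideal.Quotient.lift_mk] at hx
    rw [Ideal.Quotient.eq_zero_iff_mem, ← hker]
    exact hx
  refine ⟨IsFractionRing.lift hinj, ?_⟩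
  ext x
  rw [RingHom.comp_apply, RingHom.comp_apply, IsFractionRing.lift_algebraMap, Ideal.Quotient.lift_mk]

theorem coef_unique {k : Type u} [Field k] {A : Subalgebra ℤ k} {N : ℕ} {D : Fin N → Derivation ℤ A A}
    {t : Fin N → A} (ht : ∀ l l', D l (t l') = if l = l' then 1 else 0) {c c' : Fin N → k}
    (hcc : ∀ a, ∑ l, c l * algebraMap A k (D l a) = ∑ l, c' l * algebraMap A k (D l a)) : c = c' := by
  funext l'
  have h2 := hcc (t l')
  have h3 : ∀ l, algebraMap A k (D l (t l')) = if l = l' then 1 else 0 := by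
    intro l
    rw [ht]
    split_ifs
    · exact map_one _
    · exact map_zero _
  have h4 : ∀ c : Fin N → k, ∑ l, c l * algebraMap A k (D l (t l')) = c l' := by
    intro c
    simp only [h3, mul_ite, mul_one, mul_zero, Finset.sum_ite_eq', Finset.mem_univ, if_true]
  rw [← h4 c, ← h4 c']
  exact h2

section

variable {M : Type} [AddCommGroup M] [Fintype M] [DecidableEq M]

/-- The dimensions of the conjugate filtration in the weights. -/
theorem dimCW_of {k : Type u} [Field k] {A₃ : Subalgebra ℤ k} [CharZero A₃] [Algebra.FiniteType ℤ A₃] {n : ℕ}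
    {I₃ : Ideal (MvPolynomial (Fin n) A₃)} {wt : Fin n → M} (hI₃ : IsHomog I₃) (hw₃ : IsWHomog wt I₃)
    (hsm₃ : IsSmoothProj I₃) {β : ℕ × M → Type} [∀ a, Fintype (β a)] [∀ a, DecidableEq (β a)]
    {lev : ∀ a, β a → ℕ} {z : ∀ a, β a → (prC I₃).Ch} {h : ℕ → ℕ → ℕ} (hD : DatW hI₃ hw₃ lev z h)
    {Ik : Ideal (MvPolynomial (Fin n) k)} (hIk : bI (algebraMap A₃ k) I₃ = Ik) (hI' : IsHomog Ik)
    (hw' : IsWHomog wt Ik) {p : ℕ} [Fact p.Prime] {L : Type u} [Field L] [CharP L p] (φ : A₃ →+* L)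
    {Λ : Type} [Fintype Λ] {bb : Λ → L} (hbb : PBas p bb) (hMp : Function.Injective fun μ : M => p • μ)
    (hdimk : ∀ (m i : ℕ) (μ : M), Module.finrank k ↥((prC Ik).Fil m i ⊓ (grP hI' hw').HW m (p • μ)) =
      Module.finrank k ↥((prC Ik).Fil m i ⊓ (grP hI' hw').HW m μ)) :
    DimCW (grP (hI₃.map φ) (hw₃.map φ)) := by
  have hDt := hD.total
  have hcard : ∀ (m i : ℕ) (μ : M), Fintype.card {b : β (m, p • μ) // ¬ lev (m, p • μ) b < i} =
      Fintype.card {b : β (m, μ) // ¬ lev (m, μ) b < i} := by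
    intro m i μ
    have hk := hD.ad k (algebraMap A₃ k)
    rw [← hk.finrank_Fil (m, p • μ) i, ← hk.finrank_Fil (m, μ) i]
    change Module.finrank k ↥((prC (bI (algebraMap A₃ k) I₃)).Fil m i ⊓ GrX.HW _ m (p • μ)) =
      Module.finrank k ↥((prC (bI (algebraMap A₃ k) I₃)).Fil m i ⊓ GrX.HW _ m μ)
    rw [dimHW_congr hIk _ _ hI' hw' m i (p • μ), dimHW_congr hIk _ _ hI' hw' m i μ]
    exact hdimk m i μ
  intro m i μ'
  obtain ⟨μ, rfl⟩ := (Finite.injective_iff_surjective.1 hMp) μ'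
  have had := hD.ad L φ
  have h1 := conj_dimW hbb (hI₃.map φ) (hsm₃.map hI₃ φ) (hw₃.map φ) hMp
    (fun q m => (hD.hodge L φ q m).1) (dat_sum hI₃ hsm₃ hDt φ) m i μ
  have h2 := had.finrank_Fil (m, p • μ) (i + 1)
  have h3 := had.finrank_Fil (m, μ) (i + 1)
  have h4 := had.finrank (m, p • μ)
  have h5 := had.finrank (m, μ)
  have h6 : Fintype.card (β (m, p • μ)) = Fintype.card (β (m, μ)) := by
    have h7 := hcard m 0 μ
    have h8 : ∀ a : ℕ × M, Fintype.card {b : β a // ¬ lev a b < 0} = Fintype.card (β a) := fun a =>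
      Fintype.card_congr (Equiv.subtypeUnivEquiv fun b => Nat.not_lt_zero _)
    rw [h8, h8] at h7
    exact h7
  have h9 := hcard m (i + 1) μ
  change Module.finrank L ↥((prC (bI φ I₃)).Fil m (i + 1) ⊓ GrX.HW _ m (p • μ)) = _ at h2
  change Module.finrank L ↥((prC (bI φ I₃)).Fil m (i + 1) ⊓ GrX.HW _ m μ) = _ at h3
  change Module.finrank L ↥(GrX.HW _ m (p • μ)) = _ at h4
  change Module.finrank L ↥(GrX.HW _ m μ) = _ at h5
  change Module.finrank L ↥((prC (bI φ I₃)).Con m i ⊓ GrX.HW _ m (p • μ)) +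
    Module.finrank L ↥((prC (bI φ I₃)).Fil m (i + 1) ⊓ GrX.HW _ m (p • μ)) =
      Module.finrank L ↥(GrX.HW _ m (p • μ))
  rw [h2, h9, ← h3, h4, h6, ← h5]
  exact h1

end

end MPadcGP
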