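import Pool.Agent.Lib.MP_adc574_ag_GP.Gen3
import Pool.Agent.Lib.MP_adc574_ag_GP.G2U

/-!
# REL, part R1: the theorem U relative to a family of subspaces (helper10)

The additional condition `rel` of the filtrations says that certain scalars exist: `RT X` describes such
conditions for the pieces data `X`, `IsRel3` is the polynomial form of the conditions (for the functionals which
define the pieces and for the scalars), it is preserved by ring homomorphisms. The scalars are additional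
variables in the specialization `exists_spec3` and in the ultraproduct `fam_large3`.
`LinT.key_U`: the theorem.
-/

set_option autoImplicit false

namespace MPadcGP

open MPadcCM MPadcGM

universe u v w

namespace U3

/-- Additional relations of a family of subspaces, with unknown scalars. -/
structure RT {A : Type u} (X : PD.{u, w} A) where
  /-- relations -/
  E3 : Type
  /-- the piece -/
  tgt3 : E3 → X.T
  /-- the scalars -/
  κ : E3 → Type
  /-- the scalars are finite in number -/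
  fin3 : ∀ e, Fintype (κ e)
  /-- the vectors with the unknown coefficients -/
  V : ∀ e, κ e → X.β (X.sp (tgt3 e)) → A
  /-- the constant vector -/
  W : ∀ e, X.β (X.sp (tgt3 e)) → A
  /-- the coordinates in which the two vectors are equal -/
  q : ∀ e, X.β (X.sp (tgt3 e)) → Prop

instance {A : Type u} {X : PD.{u, w} A} (Y : RT X) (e : Y.E3) : Fintype (Y.κ e) := Y.fin3 e

section

variable {A : Type u} [CommRing A] {R : Type v} [CommRing R] {ι κ : Type} [Fintype κ]

/-- The linear combination of the vectors `V v`. -/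
def cb (φ : A →+* R) (V : κ → ι → A) (s : κ → R) : ι → R := fun b => ∑ v, s v * φ (V v b)

theorem cb_eq (φ : A →+* R) (V : κ → ι → A) (s : κ → R) :
    cb φ V s = ∑ v, s v • fun b => φ (V v b) := by
  funext b
  rw [Finset.sum_apply]
  rfl

theorem map_cb {R' : Type w} [CommRing R'] (f : R →+* R') (φ : A →+* R) (V : κ → ι → A)
    (s : κ → R) : (fun b => f (cb φ V s b)) = cb (f.comp φ) V (fun v => f (s v)) := by
  funext b
  unfold cb
  rw [map_sum]
  exact Finset.sum_congr rfl fun v _ => map_mul _ _ _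

end

section

variable {A : Type u} [CommRing A] {X : PD.{u, w} A} (Y : RT X) {R : Type v} [CommRing R]

/-- The polynomial form of the relations. -/
structure IsRel3 (φ : A →+* R) (c : ∀ t, Fin (X.r t) → X.β (X.sp t) → R)
    (s : ∀ e, Y.κ e → R) : Prop where
  h3 : ∀ e v, c (Y.tgt3 e) v ⬝ᵥ cb φ (Y.V e) (s e) = 0
  h4 : ∀ e b, Y.q e b → φ (Y.W e b) = cb φ (Y.V e) (s e) b

variable {Y}

theorem IsRel3.map {φ : A →+* R} {c : ∀ t, Fin (X.r t) → X.β (X.sp t) → R} {s : ∀ e, Y.κ e → R}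
    (h : IsRel3 Y φ c s) {R' : Type*} [CommRing R'] (f : R →+* R') :
    IsRel3 Y (f.comp φ) (fun t v a => f (c t v a)) (fun e v => f (s e v)) := by
  refine ⟨fun e v => ?_, fun e b hb => ?_⟩
  · have h1 := congrArg f (h.h3 e v)
    rw [map_dot, map_cb, map_zero] at h1
    exact h1
  · have h1 := congrArg f (h.h4 e b hb)
    rw [← map_cb]
    exact h1

theorem IsRel3.of_jinj {φ : A →+* R} {c : ∀ t, Fin (X.r t) → X.β (X.sp t) → R}
    {s : ∀ e, Y.κ e → R} {μ : Type*} {R' : μ → Type*} [∀ l, CommRing (R' l)] (f : ∀ l, R →+* R' l)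
    (hf : ∀ x, (∀ l, f l x = 0) → x = 0)
    (h : ∀ l, IsRel3 Y ((f l).comp φ) (fun t v a => f l (c t v a)) (fun e v => f l (s e v))) :
    IsRel3 Y φ c s := by
  refine ⟨fun e v => ?_, fun e b hb => ?_⟩
  · refine hf _ fun l => ?_
    rw [map_dot, map_cb]
    exact (h l).h3 e v
  · rw [← sub_eq_zero]
    refine hf _ fun l => ?_
    have h1 := (h l).h4 e b hb
    rw [← map_cb] at h1
    rw [map_sub, sub_eq_zero]
    exact h1

variable (Y)

/-- The relations for a family of subspaces over a field. -/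
def IsFam3 {K : Type v} [Field K] (φ : A →+* K) (P : ∀ t, Submodule K (X.β (X.sp t) → K)) : Prop :=
  ∀ e, ∃ s : Y.κ e → K, cb φ (Y.V e) s ∈ P (Y.tgt3 e) ∧ ∀ b, Y.q e b → φ (Y.W e b) = cb φ (Y.V e) s b

variable {Y}

theorem IsRel3.isFam3 {K : Type v} [Field K] {φ : A →+* K}
    {c : ∀ t, Fin (X.r t) → X.β (X.sp t) → K} {s : ∀ e, Y.κ e → K} (h : IsRel3 Y φ c s) :
    IsFam3 Y φ fun t => kr (c t) := fun e => ⟨s e, fun v => h.h3 e v, h.h4 e⟩

theorem IsFam3.exists_rel3 {K : Type v} [Field K] {φ : A →+* K}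
    {P : ∀ t, Submodule K (X.β (X.sp t) → K)} (h : IsFam3 Y φ P)
    {c : ∀ t, Fin (X.r t) → X.β (X.sp t) → K} (hc : ∀ t, P t = kr (c t)) :
    ∃ s : ∀ e, Y.κ e → K, IsRel3 Y φ c s := by
  choose s hs hs' using h
  refine ⟨s, fun e v => ?_, hs'⟩
  have h1 := hs e
  rw [hc] at h1
  exact h1 v

end

section

variable {A : Type u} [CommRing A] {k L : Type u} [Field k] [Field L] {j : A →+* k} {ι : A →+* L}

theorem exists_spec3 [IsAlgClosed k] (hj : Function.Injective j) (hι : Function.Injective ι)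
    {X : PD.{u, w} A} [Finite X.T] {Y : RT X} [Finite Y.E3]
    {c E : ∀ t, Fin (X.r t) → X.β (X.sp t) → L} {s₀ : ∀ e, Y.κ e → L}
    (hrel : IsRel X ι c E) (hrel3 : IsRel3 Y ι c s₀) :
    ∃ (c' E' : ∀ t, Fin (X.r t) → X.β (X.sp t) → k) (s' : ∀ e, Y.κ e → k), IsRel X j c' E' ∧
      IsRel3 Y j c' s' ∧
      ∀ (t : X.T) (S : Type) [Fintype S] (β : S → A) (P : S → Fin (X.r t) → X.β (X.sp t) → A),
        ∑ s, ι (β s) * Lam ι (c t) (P s) = 0 → ∑ s, j (β s) * Lam j (c' t) (P s) = 0 := by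
  classical
  obtain ⟨L', _, e, e', hee⟩ := exists_comp hj hι
  let _ : Algebra k L' := e'.toAlgebra
  have hee' : ∀ a, e (ι a) = algebraMap k L' (j a) := hee
  obtain ⟨R, π, hR⟩ := exists_pt (k := k) (L' := L')
    (fun q : ((Σ t : X.T, Fin (X.r t) × X.β (X.sp t)) × Bool) ⊕ (Σ e : Y.E3, Y.κ e) =>
      match q with
      | Sum.inl q => if q.2 then e (c q.1.1 q.1.2.1 q.1.2.2) else e (E q.1.1 q.1.2.1 q.1.2.2)
      | Sum.inr q => e (s₀ q.1 q.2))
  have hRc : ∀ t v a, e (c t v a) ∈ R := fun t v a => by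
    have h1 := hR (Sum.inl (⟨t, (v, a)⟩, true))
    simpa using h1
  have hRE : ∀ t v a, e (E t v a) ∈ R := fun t v a => by
    have h1 := hR (Sum.inl (⟨t, (v, a)⟩, false))
    simpa using h1
  have hRs : ∀ q v, e (s₀ q v) ∈ R := fun q v => hR (Sum.inr ⟨q, v⟩)
  let cR : ∀ t, Fin (X.r t) → X.β (X.sp t) → R := fun t v a => ⟨e (c t v a), hRc t v a⟩
  let ER : ∀ t, Fin (X.r t) → X.β (X.sp t) → R := fun t v a => ⟨e (E t v a), hRE t v a⟩
  let sR : ∀ q, Y.κ q → R := fun q v => ⟨e (s₀ q v), hRs q v⟩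
  let φR : A →+* R := (algebraMap k R).comp j
  let i : R →+* L' := (R.val : R →ₐ[k] L')
  have hiφ : i.comp φR = e.comp ι := by
    ext a
    exact (hee' a).symm
  have hrelR : IsRel X φR cR ER := by
    refine IsRel.of_jinj (κ := Unit) (R' := fun _ => L') (fun _ => i) (fun x hx => ?_) fun _ => ?_
    · exact Subtype.ext (hx ())
    · have h1 := hrel.map e
      rw [← hiφ] at h1
      exact h1
  have hrelR3 : IsRel3 Y φR cR sR := by
    refine IsRel3.of_jinj (μ := Unit) (R' := fun _ => L') (fun _ => i) (fun x hx => ?_) fun _ => ?_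
    · exact Subtype.ext (hx ())
    · have h1 := hrel3.map e
      rw [← hiφ] at h1
      exact h1
  have hπφ : (π : R →+* k).comp φR = j := by
    ext a
    exact π.commutes (j a)
  refine ⟨fun t v a => π (cR t v a), fun t v a => π (ER t v a), fun q v => π (sR q v), ?_, ?_, ?_⟩
  · have h1 := hrelR.map (π : R →+* k)
    rw [hπφ] at h1
    exact h1
  · have h1 := hrelR3.map (π : R →+* k)
    rw [hπφ] at h1
    exact h1
  · intro t S _ β P h
    have h1 : ∑ s, φR (β s) * (Matrix.of fun v u => ∑ a, φR (P s u a) * cR t v a).det = 0 := by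
      have h2 : i (∑ s, φR (β s) * (Matrix.of fun v u => ∑ a, φR (P s u a) * cR t v a).det) = 0 := by
        rw [map_sum]
        have h3 : ∀ s, i (φR (β s) * (Matrix.of fun v u => ∑ a, φR (P s u a) * cR t v a).det) =
            e (ι (β s) * Lam ι (c t) (P s)) := by
          intro s
          rw [map_mul, map_lam, map_mul]
          unfold Lam
          rw [map_lam, hiφ]
          congr 1
          exact RingHom.congr_fun hiφ (β s)
        rw [Finset.sum_congr rfl fun s _ => h3 s, ← map_sum, h, map_zero]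
      exact Subtype.ext h2
    have h4 := congrArg (π : R →+* k) h1
    rw [map_sum, map_zero] at h4
    rw [← h4]
    refine Finset.sum_congr rfl fun s _ => ?_
    rw [map_mul, map_lam, hπφ]
    congr 1
    exact (RingHom.congr_fun hπφ (β s)).symm

/-- The key theorem for families of subspaces, for one differential field. -/
theorem key_fam3 [IsAlgClosed k] (hj : Function.Injective j) (hι : Function.Injective ι)
    {X : PD.{u, w} A} [Finite X.T] {Y : RT X} [Finite Y.E3]
    {c E : ∀ t, Fin (X.r t) → X.β (X.sp t) → L} {s₀ : ∀ e, Y.κ e → L}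
    (hrel : IsRel X ι c E) (hrel3 : IsRel3 Y ι c s₀) (t₀ : X.T)
    {nab : Derivation ℤ k k → (X.β (X.sp t₀) → k) →+ (X.β (X.sp t₀) → k)} (hnab : IsConn nab) {m : ℕ}
    (D : Fin m → Derivation ℤ A A) (Δ : Fin m → Derivation ℤ L L)
    (hΔ : ∀ l x, Δ l (ι x) = ι (D l x)) (G : Fin m → X.β (X.sp t₀) → X.β (X.sp t₀) → A)
    (hDk : ∀ D' : Derivation ℤ k k, ∃ α : Fin m → k, (∀ x, D' (j x) = ∑ l, α l * j (D l x)) ∧
      ∀ a, nab D' (Pi.basisFun k _ a) = ∑ a', (∑ l, α l * j (G l a' a)) • Pi.basisFun k _ a')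
    (hcD : ∀ l, ∃ ν : Fin (X.r t₀) → Fin (X.r t₀) → L, ∀ v a,
      Δ l (c t₀ v a) = ∑ a', ι (G l a' a) * c t₀ v a' + ∑ v', ν v v' * c t₀ v' a)
    (F : Submodule k (X.β (X.sp t₀) → k)) (f : Fin (X.r t₀) → X.β (X.sp t₀) → A)
    (hf : LinearIndependent k fun u => (fun a => j (f u a) : X.β (X.sp t₀) → k))
    (hF : F ≤ Submodule.span k (Set.range fun u => (fun a => j (f u a) : X.β (X.sp t₀) → k)))
    (hGP : ∀ P : ∀ t, Submodule k (X.β (X.sp t) → k), IsFam X j P → IsFam3 Y j P →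
      ∀ W : Submodule k ((X.β (X.sp t₀) → k) [⋀^Fin (X.r t₀)]→ₗ[k] k), IsHor nab W →
        (∃ ω ∈ W, ω ≠ 0 ∧ ∀ x, (∃ u, x u ∈ P t₀) → ω x = 0) →
          ∃ ω ∈ W, ∃ x, (∀ u, x u ∈ F) ∧ ω x ≠ 0) :
    (Matrix.of fun v u => ∑ a, ι (f u a) * c t₀ v a).det ≠ 0 := by
  classical
  intro h0
  obtain ⟨c', E', s', hrel', hrel3', hsp⟩ := exists_spec3 hj hι hrel hrel3
  have hcls : ∀ P : X.β (X.sp t₀) → A, cls j (Pi.basisFun k (X.β (X.sp t₀))) P = fun a => j (P a) := by
    intro P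
    unfold cls
    funext a
    rw [Finset.sum_apply]
    rw [Finset.sum_eq_single a]
    · rw [Pi.smul_apply, Pi.basisFun_apply, Pi.single_eq_same, smul_eq_mul, mul_one]
    · intro a' _ ha
      rw [Pi.smul_apply, Pi.basisFun_apply, Pi.single_eq_of_ne (Ne.symm ha), smul_zero]
    · intro h
      exact absurd (Finset.mem_univ _) h
  let l : Fin (X.r t₀) → (X.β (X.sp t₀) → k) →ₗ[k] k := fun v =>
    { toFun := fun x => c' t₀ v ⬝ᵥ x
      map_add' := fun x y => dotProduct_add _ _ _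
      map_smul' := fun q x => dotProduct_smul _ _ _ }
  have hl : ∀ v x, l v x = c' t₀ v ⬝ᵥ x := fun v x => rfl
  have hmem : wdg l ∈ Mk j ι (c t₀) (Pi.basisFun k (X.β (X.sp t₀))) := by
    rw [mem_mk]
    intro S _ β P h
    rw [← hsp t₀ S β P h]
    refine Finset.sum_congr rfl fun s _ => ?_
    congr 1
    rw [wdg_apply]
    unfold Lam
    congr 1
    ext v u
    rw [Matrix.of_apply, Matrix.of_apply, hl, hcls]
    unfold dotProduct
    exact Finset.sum_congr rfl fun a _ => mul_comm _ _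
  have hne : wdg l ≠ 0 := by
    intro h1
    have h2 : wdg l (E' t₀) = 1 := by
      rw [wdg_apply]
      have h3 : (Matrix.of fun v u => l v (E' t₀ u)) = (1 : Matrix (Fin (X.r t₀)) (Fin (X.r t₀)) k) := by
        ext v u
        rw [Matrix.of_apply, hl, hrel'.h, Matrix.one_apply]
      rw [h3, Matrix.det_one]
    rw [h1, AlternatingMap.zero_apply] at h2
    exact zero_ne_one h2
  have hkill : ∀ x, (∃ u, x u ∈ kr (c' t₀)) → wdg l x = 0 := by
    rintro x ⟨u, hu⟩
    rw [wdg_apply]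
    refine Matrix.det_eq_zero_of_column_eq_zero u fun v => ?_
    rw [Matrix.of_apply, hl]
    exact hu v
  have hhor : IsHor nab (Mk j ι (c t₀) (Pi.basisFun k (X.β (X.sp t₀)))) :=
    mk_hor hnab D Δ hΔ G hDk fun l => by
      obtain ⟨ν, hν⟩ := hcD l
      exact ⟨ν, hν⟩
  obtain ⟨ω, hω, f', hf', hne'⟩ := hGP _ hrel'.isFam hrel3'.isFam3 _ hhor ⟨wdg l, hmem, hne, hkill⟩
  apply hne'
  have h1 : ω (fun u => (fun a => j (f u a) : X.β (X.sp t₀) → k)) = 0 := by
    have h2 := (mem_mk j ι _ _ ω).1 hω Unit (fun _ => 1) (fun _ => f) (by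
      rw [Fintype.sum_unique]
      have h3 : Lam ι (c t₀) f = 0 := h0
      rw [h3, mul_zero])
    rw [Fintype.sum_unique, map_one, one_mul] at h2
    simp only [hcls] at h2
    exact h2
  exact vanish_span ω _ hf h1 f' fun u => hF (hf' u)

end

theorem fam_large3 {A : Type u} [CommRing A] {k : Type u} [Field k] [IsAlgClosed k] {j : A →+* k}
    (hj : Function.Injective j) {L : ℕ → Type u} [∀ p, Field (L p)] {φ : ∀ p, A →+* L p}
    {B : A → ℕ} (hB : ResFields A L φ B) (X : PD.{u, w} A) [Finite X.T] (Y : RT X) [Finite Y.E3]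
    (t₀ : X.T)
    {nab : Derivation ℤ k k → (X.β (X.sp t₀) → k) →+ (X.β (X.sp t₀) → k)} (hnab : IsConn nab) {m : ℕ}
    (D : Fin m → Derivation ℤ A A) (G : Fin m → X.β (X.sp t₀) → X.β (X.sp t₀) → A)
    (hDk : ∀ D' : Derivation ℤ k k, ∃ α : Fin m → k, (∀ x, D' (j x) = ∑ l, α l * j (D l x)) ∧
      ∀ a, nab D' (Pi.basisFun k _ a) = ∑ a', (∑ l, α l * j (G l a' a)) • Pi.basisFun k _ a')
    (F : Submodule k (X.β (X.sp t₀) → k)) (f : Fin (X.r t₀) → X.β (X.sp t₀) → A)
    (hf : LinearIndependent k fun u => (fun a => j (f u a) : X.β (X.sp t₀) → k))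
    (hF : F ≤ Submodule.span k (Set.range fun u => (fun a => j (f u a) : X.β (X.sp t₀) → k)))
    (hGP : ∀ P : ∀ t, Submodule k (X.β (X.sp t) → k), IsFam X j P → IsFam3 Y j P →
      ∀ W : Submodule k ((X.β (X.sp t₀) → k) [⋀^Fin (X.r t₀)]→ₗ[k] k), IsHor nab W →
        (∃ ω ∈ W, ω ≠ 0 ∧ ∀ x, (∃ u, x u ∈ P t₀) → ω x = 0) →
          ∃ ω ∈ W, ∃ x, (∀ u, x u ∈ F) ∧ ω x ≠ 0) :
    ∃ p₀ : ℕ, ∀ p : ℕ, p.Prime → p₀ < p →
      ∀ δ : Fin m → Derivation ℤ (L p) (L p), (∀ l x, δ l (φ p x) = φ p (D l x)) →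
        ∀ P : ∀ t, Submodule (L p) (X.β (X.sp t) → L p), IsFam X (φ p) P → IsFam3 Y (φ p) P →
          (∀ l, ∀ x ∈ P t₀, (fun a => δ l (x a) + ∑ a', φ p (G l a a') * x a') ∈ P t₀) →
            ∀ lam : Fin (X.r t₀) → L p, (∑ u, lam u • fun a => φ p (f u a)) ∈ P t₀ → lam = 0 := by
  classical
  by_contra hcon
  push Not at hcon
  choose p hpp hpi δ hδ P hP hP3 hst lam hlam hlam0 using fun i => hcon (i + B 0)
  have hbp : ∀ i, B 0 < p i := fun i => by have := hpi i; omega
  have hip : ∀ i, i < p i := fun i => by have := hpi i; omega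
  let U : Ultrafilter ℕ := Filter.hyperfilter ℕ
  let K : ℕ → Type u := fun i => L (p i)
  let ψ : ∀ i, A →+* K i := fun i => φ (p i)
  have hge : ∀ n : ℕ, ∀ᶠ i in (U : Filter ℕ), n ≤ i := by
    intro n
    apply Filter.hyperfilter_le_cofinite
    rw [Filter.mem_cofinite]
    refine (Set.finite_lt_nat n).subset ?_
    intro i hi
    simp only [Set.mem_compl_iff, Set.mem_ofPred_eq, not_le] at hi
    exact hi
  choose Δ hΔ using fun l => exists_ultD U K (fun i => δ i l)
  let ιh : A →+* Ult U K := (ultMk U K).comp (RingHom.pi ψ)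
  have hιh : ∀ x, ιh x = ultMk U K (fun i => ψ i x) := fun x => rfl
  choose c E hcE hker using fun i => (hP i).exists_rel
  choose s hs using fun i => (hP3 i).exists_rel3 (hker i)
  have hnu : ∀ i l, ∃ ν : Fin (X.r t₀) → Fin (X.r t₀) → K i, ∀ v a,
      δ i l (c i t₀ v a) = ∑ a', ψ i (G l a' a) * c i t₀ v a' + ∑ v', ν v v' * c i t₀ v' a := by
    intro i l
    refine exists_nu (φ := ψ i) (δ i l) (G l) (c i t₀) (E i t₀) ((hcE i).h t₀) fun y hy => ?_
    rw [← hker i t₀] at hy ⊢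
    exact hst i l y hy
  choose ν hν using hnu
  -- the ultraproduct of the families
  have hrelU : IsRel X ιh (fun t v a => ultMk U K fun i => c i t v a)
      (fun t v a => ultMk U K fun i => E i t v a) := by
    have h1 : IsRel X (RingHom.pi ψ) (fun t v a i => c i t v a) (fun t v a i => E i t v a) :=
      IsRel.of_jinj (κ := ℕ) (R' := K) (fun i => Pi.evalRingHom K i)
        (fun y hy => funext fun i => hy i) fun i => hcE i
    exact h1.map (ultMk U K)
  have hrelU3 : IsRel3 Y ιh (fun t v a => ultMk U K fun i => c i t v a)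
      (fun e v => ultMk U K fun i => s i e v) := by
    have h1 : IsRel3 Y (RingHom.pi ψ) (fun t v a i => c i t v a) (fun e v i => s i e v) :=
      IsRel3.of_jinj (μ := ℕ) (R' := K) (fun i => Pi.evalRingHom K i)
        (fun y hy => funext fun i => hy i) fun i => hs i
    exact h1.map (ultMk U K)
  have hιinj : Function.Injective ιh := by
    rw [injective_iff_map_eq_zero]
    intro x hx
    by_contra hx0
    rw [hιh, ultMk_eq_zero] at hx
    obtain ⟨i, hi1, hi2⟩ := (hx.and (hge (B x))).exists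
    exact hB.ne (p i) (hpp i) (hbp i) x hx0 (lt_of_le_of_lt hi2 (hip i)) hi1
  refine key_fam3 hj hιinj hrelU hrelU3 t₀ hnab D Δ ?_ G hDk ?_ F f hf hF hGP ?_
  · intro l y
    rw [hιh]
    refine (hΔ l fun i => ψ i y).trans ?_
    rw [hιh]
    exact congrArg _ (funext fun i => hδ i l y)
  · intro l
    refine ⟨fun v v' => ultMk U K fun i => ν i l v v', fun v a => ?_⟩
    refine (hΔ l fun i => c i t₀ v a).trans ?_
    have h1 : (fun i => δ i l (c i t₀ v a)) = ∑ a', (fun i => ψ i (G l a' a)) * (fun i => c i t₀ v a') +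
        ∑ v', (fun i => ν i l v v') * (fun i => c i t₀ v' a) := by
      funext i
      rw [hν i l v a, Pi.add_apply, Finset.sum_apply, Finset.sum_apply]
      rfl
    rw [h1, map_add, map_sum, map_sum]
    refine congrArg₂ (· + ·) ?_ ?_
    · refine Finset.sum_congr rfl fun a' _ => ?_
      rw [map_mul, hιh]
    · refine Finset.sum_congr rfl fun v' _ => ?_
      rw [map_mul]
  · -- the determinant vanishes
    have h1 : (Matrix.of fun v u => ∑ a, ιh (f u a) * ultMk U K fun i => c i t₀ v a) =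
        (ultMk U K).mapMatrix (Matrix.of fun (v u : Fin (X.r t₀)) (i : ℕ) =>
          ∑ a, ψ i (f u a) * c i t₀ v a) := by
      ext v u
      rw [Matrix.of_apply, RingHom.mapMatrix_apply, Matrix.map_apply, Matrix.of_apply]
      have h2 : (fun i => ∑ a, ψ i (f u a) * c i t₀ v a) =
          ∑ a, (fun i => ψ i (f u a)) * (fun i => c i t₀ v a) := by
        funext i
        rw [Finset.sum_apply]
        rfl
      rw [h2, map_sum]
      exact Finset.sum_congr rfl fun a _ => by rw [map_mul, hιh]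
    rw [h1, ← RingHom.map_det]
    have h2 : (Matrix.of fun (v u : Fin (X.r t₀)) (i : ℕ) =>
        (∑ a, ψ i (f u a) * c i t₀ v a : K i)).det = 0 := by
      funext i
      have h3 := (Pi.evalRingHom K i).map_det
        (Matrix.of fun (v u : Fin (X.r t₀)) (i : ℕ) => (∑ a, ψ i (f u a) * c i t₀ v a : K i))
      rw [Pi.evalRingHom_apply] at h3
      rw [h3, Pi.zero_apply]
      by_contra hdet
      apply hlam0 i
      refine Matrix.eq_zero_of_mulVec_eq_zero hdet ?_
      funext v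
      have h5 := hlam i
      rw [hker i t₀] at h5
      have h6 := h5 v
      rw [dot_sum] at h6
      rw [Pi.zero_apply, ← h6]
      change ∑ u, (∑ a, ψ i (f u a) * c i t₀ v a) * lam i u = _
      refine Finset.sum_congr rfl fun u _ => ?_
      rw [mul_comm]
      congr 1
      exact Finset.sum_congr rfl fun a _ => mul_comm _ _
    rw [h2, map_zero]

end U3

namespace LinT

open U3

section

variable {ι : Type} [Add ι] {A : Type u} [CommRing A] (X : LinT ι A)

/-- The additional relations. -/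
noncomputable def toRT (k : Type v) [Field k] (Bd : Finset ι) (M : ℕ) : RT (X.toLinW.toPD k Bd M) where
  E3 := Σ t : ↥Bd × Fin M, X.τ t.1
  tgt3 := Sigma.fst
  κ e := X.τ e.1.1
  fin3 e := X.finτ e.1.1
  V e := X.Tv e.1.1
  W e := X.Tv e.1.1 e.2
  q e b := X.lev e.1.1 b < e.1.2.1 + 1

theorem isFam3_of_conj (k : Type v) [Field k] (Bd : Finset ι) (M : ℕ) {E : Type*} [Field E]
    {φ : A →+* E} {P : ∀ n, ℕ → Submodule E (X.β n → E)} (hP : X.IsConj φ P) :
    IsFam3 (X.toRT k Bd M) φ fun t => P t.1 t.2 := by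
  intro e
  obtain ⟨s, hs1, hs2⟩ := hP.rel e.1.1 e.1.2 e.2
  rw [← cb_eq φ (X.Tv e.1.1) s] at hs1 hs2
  refine ⟨s, hs1, fun b hb => ?_⟩
  have h1 := hs2 b hb
  rw [Pi.sub_apply, sub_eq_zero] at h1
  exact h1

open Classical in
/-- The filtration of conjugate type of a family. -/
theorem conj_of_isFam3 {k : Type u} [Field k] {j : A →+* k} {Bd : Finset ι} {M : ℕ}
    (hBd : ∀ n, n ∉ Bd → IsEmpty (X.β n)) (hM : ∀ n b, X.lev n b < M)
    {P : ∀ t, Submodule k ((X.toLinW.toPD k Bd M).β ((X.toLinW.toPD k Bd M).sp t) → k)}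
    (hP : IsFam (X.toLinW.toPD k Bd M) j P) (hP3 : IsFam3 (X.toRT k Bd M) j P) :
    MPadcGP3.IsConjugateType (fun n i => X.toLinW.fl k n i)
      (fun n n' x y z => z = X.toLinW.mul j n n' x y)
      (fun n i => {x | ∃ g ∈ X.Lg n i, x = fun b => j (g b)})
      (fun n => Submodule.span k (Set.range fun u => fun b => j (X.Tv n u b)))
      (fun n i => if h : n ∈ Bd ∧ i < M then P (⟨n, h.1⟩, ⟨i, h.2⟩) else ⊤) := by
  have h0 := X.toLinW.conj_of_isFam hBd hM hP
  refine ⟨h0.mono, h0.dim, h0.mul, h0.log, fun n i => ?_⟩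
  by_cases h : n ∈ Bd ∧ i < M
  · rw [dif_pos h, Submodule.span_le]
    rintro _ ⟨u, rfl⟩
    obtain ⟨s, hs1, hs2⟩ := hP3 ⟨(⟨n, h.1⟩, ⟨i, h.2⟩), u⟩
    have hT : cb j (X.Tv n) s ∈ Submodule.span k (Set.range fun u => fun b => j (X.Tv n u b)) := by
      rw [cb_eq]
      exact Submodule.sum_mem _ fun v _ => Submodule.smul_mem _ _ (Submodule.subset_span ⟨v, rfl⟩)
    have hu : (fun b => j (X.Tv n u b)) ∈
        Submodule.span k (Set.range fun u => fun b => j (X.Tv n u b)) :=
      Submodule.subset_span ⟨u, rfl⟩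
    refine Submodule.mem_sup.2 ⟨cb j (X.Tv n) s, ⟨hs1, hT⟩,
      (fun b => j (X.Tv n u b)) - cb j (X.Tv n) s, ⟨fun b hb => ?_, Submodule.sub_mem _ hu hT⟩,
      add_sub_cancel _ _⟩
    rw [Pi.sub_apply, sub_eq_zero]
    exact hs2 b hb
  · rw [dif_neg h, top_inf_eq]
    exact le_sup_left

end

section

variable {ι : Type} [Add ι] {A : Type u} [CommRing A] {k : Type u} [Field k] {j : A →+* k}

/-- Theorem U for one piece. -/
theorem key_one [IsAlgClosed k] (hj : Function.Injective j) (X : LinT ι A)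
    (hgood : ∀ D' : Derivation ℤ k k, ∃ c : Fin X.N → k, ∀ a, D' (j a) = ∑ l, c l * j (X.D l a))
    (hcons : ∀ (n : ι) (c c' : Fin X.N → k),
      (∀ a, ∑ l, c l * j (X.D l a) = ∑ l, c' l * j (X.D l a)) →
        ∀ b b', ∑ l, c l * j (X.G n l b' b) = ∑ l, c' l * j (X.G n l b' b))
    (hgen : X.Gen j) {L : ℕ → Type u} [∀ p, Field (L p)] {φ : ∀ p, A →+* L p} {B : A → ℕ}
    (hB : ResFields A L φ B) {Bd : Finset ι} {M : ℕ}
    (hBd : ∀ n, n ∉ Bd → IsEmpty (X.β n))
    (hM : ∀ n b, X.lev n b < M) (n₀ : ι) (i₀ : ℕ) (hn₀ : n₀ ∈ Bd) (hi₀ : i₀ < M) :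
    ∃ p₀ : ℕ, ∀ p : ℕ, p.Prime → p₀ < p →
      ∀ δ : Fin X.N → Derivation ℤ (L p) (L p), (∀ l x, δ l (φ p x) = φ p (X.D l x)) →
        ∀ P : ∀ n, ℕ → Submodule (L p) (X.β n → L p), X.IsConj (φ p) P →
          X.toLinW.IsStab (φ p) δ P →
          ∀ x ∈ P n₀ i₀, x ∈ X.toLinW.fl (L p) n₀ (i₀ + 1) → x = 0 := by
  classical
  choose cc hcc using hgood
  -- the basis of the Hodge filtration
  have hcard : Fintype.card {b : X.β n₀ // i₀ + 1 ≤ X.lev n₀ b} =
      Module.finrank k (X.toLinW.fl k n₀ (i₀ + 1)) := (X.toLinW.finrank_fl k n₀ (i₀ + 1)).symm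
  obtain ⟨q⟩ : Nonempty (Fin (Module.finrank k (X.toLinW.fl k n₀ (i₀ + 1))) ≃
    {b : X.β n₀ // i₀ + 1 ≤ X.lev n₀ b}) := ⟨(Fintype.equivFinOfCardEq hcard).symm⟩
  let f : Fin (Module.finrank k (X.toLinW.fl k n₀ (i₀ + 1))) → X.β n₀ → A :=
    fun u => X.toLinW.idm n₀ (q u).1
  have hfφ : ∀ {R : Type u} [CommRing R] (g : A →+* R) (u) (a : X.β n₀),
      g (f u a) = if (q u).1 = a then 1 else 0 := by
    intro R _ g u a
    change g (if (q u).1 = a then 1 else 0) = _
    by_cases h : (q u).1 = a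
    · rw [if_pos h, if_pos h, map_one]
    · rw [if_neg h, if_neg h, map_zero]
  -- expansion of the vectors of the Hodge filtration
  have hexp : ∀ {R : Type u} [Field R] (g : A →+* R), ∀ x ∈ X.toLinW.fl R n₀ (i₀ + 1),
      x = ∑ u, x (q u).1 • fun a => g (f u a) := by
    intro R _ g x hx
    funext a
    rw [Finset.sum_apply]
    by_cases ha : i₀ + 1 ≤ X.lev n₀ a
    · rw [Finset.sum_eq_single (q.symm ⟨a, ha⟩)]
      · rw [Pi.smul_apply, hfφ, Equiv.apply_symm_apply, if_pos rfl, smul_eq_mul, mul_one]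
      · intro u _ hu
        rw [Pi.smul_apply, hfφ, if_neg, smul_zero]
        intro h
        apply hu
        rw [Equiv.eq_symm_apply]
        exact Subtype.ext h
      · intro h
        exact absurd (Finset.mem_univ _) h
    · rw [hx a (not_le.1 ha)]
      symm
      refine Finset.sum_eq_zero fun u _ => ?_
      rw [Pi.smul_apply, hfφ, if_neg, smul_zero]
      rintro rfl
      exact ha (q u).2
  have hlin : LinearIndependent k fun u => (fun a => j (f u a) : X.β n₀ → k) := by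
    have h1 : (fun u => (fun a => j (f u a) : X.β n₀ → k)) =
        (Pi.basisFun k (X.β n₀)) ∘ fun u => (q u).1 := by
      funext u a
      rw [hfφ, Function.comp_apply, Pi.basisFun_apply, Pi.single_apply]
      by_cases h : (q u).1 = a
      · rw [if_pos h, if_pos h.symm]
      · rw [if_neg h, if_neg (Ne.symm h)]
    rw [h1]
    exact (Pi.basisFun k (X.β n₀)).linearIndependent.comp _
      (Subtype.val_injective.comp q.injective)
  have hDk : ∀ D' : Derivation ℤ k k, ∃ α : Fin X.N → k, (∀ x, D' (j x) = ∑ l, α l * j (X.D l x)) ∧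
      ∀ a : X.β n₀, X.toLinW.nb j cc n₀ D' (Pi.basisFun k _ a) =
        ∑ a', (∑ l, α l * j (X.G n₀ l a' a)) • Pi.basisFun k _ a' := by
    intro D'
    refine ⟨cc D', hcc D', fun a => ?_⟩
    funext b'
    rw [LinW.nb_apply, Finset.sum_apply]
    have h1 : ∀ y : X.β n₀ → k, ∑ b, y b * (Pi.basisFun k (X.β n₀) a) b = y a := by
      intro y
      rw [Finset.sum_eq_single a]
      · rw [Pi.basisFun_apply, Pi.single_eq_same, mul_one]
      · intro b _ hb
        rw [Pi.basisFun_apply, Pi.single_eq_of_ne hb, mul_zero]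
      · intro h
        exact absurd (Finset.mem_univ _) h
    have h2 : D' ((Pi.basisFun k (X.β n₀) a) b') = 0 := by
      rw [Pi.basisFun_apply, Pi.single_apply]
      by_cases h : b' = a
      · rw [if_pos h, Derivation.map_one_eq_zero]
      · rw [if_neg h, map_zero]
    rw [h2, zero_add, Finset.sum_congr rfl fun l _ => by rw [h1 fun b => j (X.G n₀ l b' b)]]
    rw [Finset.sum_eq_single b']
    · rw [Pi.smul_apply, Pi.basisFun_apply, Pi.single_eq_same, smul_eq_mul, mul_one]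
    · intro b _ hb
      rw [Pi.smul_apply, Pi.basisFun_apply, Pi.single_eq_of_ne (Ne.symm hb), smul_zero]
    · intro h
      exact absurd (Finset.mem_univ _) h
  have hfin : Finite (X.toLinW.toPD k Bd M).T := inferInstanceAs (Finite (↥Bd × Fin M))
  have hfin3 : Finite (X.toRT k Bd M).E3 := inferInstanceAs (Finite (Σ t : ↥Bd × Fin M, X.τ t.1))
  obtain ⟨p₀, hp₀⟩ := fam_large3 hj hB (X.toLinW.toPD k Bd M) (X.toRT k Bd M) (⟨n₀, hn₀⟩, ⟨i₀, hi₀⟩)
    (nab := X.toLinW.nb j cc n₀) (X.toLinW.nb_conn cc n₀) X.D (X.G n₀) hDk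
    (X.toLinW.fl k n₀ (i₀ + 1)) f hlin (by
      intro x hx
      rw [hexp j x hx]
      exact Submodule.sum_mem _ fun u _ => Submodule.smul_mem _ _ (Submodule.subset_span ⟨u, rfl⟩))
    (by
      intro P' hP' hP3' W hW hex
      have h1 := hgen _ (X.conj_of_isFam3 hBd hM hP' hP3') n₀ i₀ W
        (X.toLinW.hor_of_isHor hcc hcons n₀ hW) (by
        obtain ⟨ω, hω, hω0, hk⟩ := hex
        refine ⟨ω, hω, hω0, fun x hx => hk x ?_⟩
        obtain ⟨u, hu⟩ := hx
        refine ⟨u, ?_⟩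
        rw [dif_pos ⟨hn₀, hi₀⟩] at hu
        exact hu)
      exact h1)
  refine ⟨p₀, fun p hp hpp δ hδ P hP hst x hxP hxF => ?_⟩
  have h1 := hp₀ p hp hpp δ hδ _ (X.toLinW.isFam_of_conj k Bd M hP.conj) (X.isFam3_of_conj k Bd M hP)
    (fun l y hy => hst n₀ i₀ l y hy)
    (fun u => x (q u).1) (by
      have h2 := hexp (φ p) x hxF
      have h3 : (∑ u, x (q u).1 • fun a => φ p (f u a)) ∈ P n₀ i₀ := by
        rw [← h2]
        exact hxP
      exact h3)
  rw [hexp (φ p) x hxF]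
  refine Finset.sum_eq_zero fun u _ => ?_
  have h2 : x (q u).1 = 0 := congrFun h1 u
  rw [h2, zero_smul]

end

end LinT

/-- PART R1 (helper10): theorem U relative to `T`. -/
theorem LinT.key_U {ι : Type} [Add ι] {A : Type u} [CommRing A] {k : Type u} [Field k] [IsAlgClosed k]
    {j : A →+* k} (hj : Function.Injective j) (X : LinT ι A)
    (hgood : ∀ D' : Derivation ℤ k k, ∃ c : Fin X.N → k, ∀ a, D' (j a) = ∑ l, c l * j (X.D l a))
    (hcons : ∀ (n : ι) (c c' : Fin X.N → k),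
      (∀ a, ∑ l, c l * j (X.D l a) = ∑ l, c' l * j (X.D l a)) →
        ∀ b b', ∑ l, c l * j (X.G n l b' b) = ∑ l, c' l * j (X.G n l b' b))
    (hgen : X.Gen j) {L : ℕ → Type u} [∀ p, Field (L p)] {φ : ∀ p, A →+* L p} {B : A → ℕ}
    (hB : ResFields A L φ B) :
    ∃ p₀ : ℕ, ∀ p : ℕ, p.Prime → p₀ < p →
      ∀ δ : Fin X.N → Derivation ℤ (L p) (L p), (∀ l x, δ l (φ p x) = φ p (X.D l x)) →
        ∀ P : ∀ n, ℕ → Submodule (L p) (X.β n → L p), X.IsConj (φ p) P →
          X.toLinW.IsStab (φ p) δ P → X.toLinW.IsOpp P := by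
  classical
  obtain ⟨Bd, hBd⟩ := X.bound
  obtain ⟨M, hM⟩ : ∃ M, ∀ n b, X.lev n b < M := by
    refine ⟨Bd.sup (fun n => Finset.univ.sup (X.lev n)) + 1, fun n b => ?_⟩
    have hn : n ∈ Bd := by
      by_contra h
      exact (hBd n h).false b
    have h1 : X.lev n b ≤ Finset.univ.sup (X.lev n) := Finset.le_sup (Finset.mem_univ b)
    have h2 := Finset.le_sup (f := fun n => Finset.univ.sup (X.lev n)) hn
    exact Nat.lt_succ_of_le (h1.trans h2)
  choose p₀ hp₀ using fun t : ↥Bd × Fin M =>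
    LinT.key_one hj X hgood hcons hgen hB hBd hM t.1 t.2 t.1.2 t.2.2
  refine ⟨Finset.univ.sup p₀, fun p hp hpp δ hδ P hP hst n i x hxP hxF => ?_⟩
  by_contra hx0
  obtain ⟨b, hb⟩ := Function.ne_iff.1 hx0
  have hn : n ∈ Bd := by
    by_contra h
    exact (hBd n h).false b
  have hi : i < M := by
    have h1 : ¬ X.lev n b < i + 1 := fun h => hb (hxF b h)
    have h2 := hM n b
    omega
  exact hx0 (hp₀ (⟨n, hn⟩, ⟨i, hi⟩) p hp
    (lt_of_le_of_lt (Finset.le_sup (f := p₀) (Finset.mem_univ _)) hpp) δ hδ P hP hst x hxP hxF)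

end MPadcGP
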