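import Pool.Agent.Lib.MP_adc574_ag_GP.Parts3
import Pool.Agent.Lib.MP_adc574_ag_GP.GlGenW
import Pool.Agent.Lib.MP_adc574_ag_GP.R3Rs

/-!
# REL, R8: general position relative to `Y` in coordinates (helper2)
-/

set_option autoImplicit false
set_option linter.unusedSectionVars false

namespace MPadcGP

universe u v w x

section gp3

/-- General position, with the dimension as a variable. -/
private theorem glgen3_cast {k : Type u} [Field k] {ι : Type*} [Add ι] {H : ι → Type v}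
    [∀ a, AddCommGroup (H a)]
    [∀ a, Module k (H a)] {nab : ∀ a, Derivation ℤ k k → H a → H a → Prop}
    {Fl : ∀ a, ℕ → Submodule k (H a)} {cup : ∀ a a', H a → H a' → H (a + a') → Prop}
    {lg : ∀ a, ℕ → Set (H a)} {T : ∀ a, Submodule k (H a)}
    (h : MPadcGP3.InGeneralPosition nab Fl cup lg T)
    {P : ∀ a, ℕ → Submodule k (H a)}
    (hP : MPadcGP3.IsConjugateType Fl cup lg T P) (n : ι) (i r : ℕ)
    (hr : Module.finrank k (Fl n (i + 1)) = r)
    (W : Submodule k (H n [⋀^Fin r]→ₗ[k] k)) (hW : IsHorizontal (nab n) W)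
    (hW' : ∃ ω ∈ W, ω ≠ 0 ∧ ∀ x, (∃ u, x u ∈ P n i) → ω x = 0) :
    ∃ ω ∈ W, ∃ x, (∀ u, x u ∈ Fl n (i + 1)) ∧ ω x ≠ 0 := by
  subst hr
  exact h P hP n i W hW hW'

/-- Transport of general position along linear equivalences. -/
private theorem glgen3_transport {k : Type u} [Field k] {ι : Type*} [Add ι] {H : ι → Type v}
    [∀ n, AddCommGroup (H n)]
    [∀ n, Module k (H n)] {nab : ∀ n, Derivation ℤ k k → H n → H n → Prop}
    {Fl : ∀ n, ℕ → Submodule k (H n)} {cup : ∀ n n', H n → H n' → H (n + n') → Prop}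
    {lg : ∀ n, ℕ → Set (H n)} {T : ∀ n, Submodule k (H n)}
    (h : MPadcGP3.InGeneralPosition nab Fl cup lg T)
    {H' : ι → Type w} [∀ n, AddCommGroup (H' n)]
    [∀ n, Module k (H' n)] {nab' : ∀ n, Derivation ℤ k k → H' n → H' n → Prop}
    {Fl' : ∀ n, ℕ → Submodule k (H' n)} {cup' : ∀ n n', H' n → H' n' → H' (n + n') → Prop}
    {lg' : ∀ n, ℕ → Set (H' n)} {T' : ∀ n, Submodule k (H' n)} (e : ∀ n, H' n ≃ₗ[k] H n)
    (hFl : ∀ n i x, e n x ∈ Fl n i ↔ x ∈ Fl' n i)
    (hnab : ∀ n D x y, nab n D (e n x) (e n y) → nab' n D x y)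
    (hcup : ∀ n n' x y z, cup n n' (e n x) (e n' y) (e (n + n') z) → cup' n n' x y z)
    (hlg : ∀ (P : ∀ n, ℕ → Submodule k (H' n)), (∀ n j, ∀ x ∈ lg' n j, x ∈ P n j) →
      ∀ n j, ∀ x, e n x ∈ lg n j → x ∈ P n j)
    (hT : ∀ n, T n = (T' n).map (e n).toLinearMap) :
    MPadcGP3.InGeneralPosition nab' Fl' cup' lg' T' := by
  intro P hP n i W hW hWP
  have hmap : ∀ n i x, e n x ∈ (P n i).map (e n).toLinearMap ↔ x ∈ P n i := by
    intro n i x
    constructor
    · rintro ⟨y, hy, hyx⟩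
      have h1 : y = x := (e n).injective hyx
      rw [← h1]
      exact hy
    · intro hx
      exact ⟨x, hx, rfl⟩
  have hFl2 : ∀ n i, Fl n i = (Fl' n i).map (e n).toLinearMap := by
    intro n i
    ext x
    obtain ⟨y, rfl⟩ := (e n).surjective x
    rw [hFl]
    constructor
    · intro hy
      exact ⟨y, hy, rfl⟩
    · rintro ⟨y', hy', he⟩
      have h1 : y' = y := (e n).injective he
      rw [← h1]
      exact hy'
  have hfr : ∀ n i, Module.finrank k (Fl n i) = Module.finrank k (Fl' n i) := by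
    intro n i
    rw [hFl2]
    exact LinearEquiv.finrank_map_eq (e n) (Fl' n i)
  have hP' : MPadcGP3.IsConjugateType Fl cup lg T fun n i => (P n i).map (e n).toLinearMap := by
    refine ⟨fun n i => Submodule.map_mono (hP.mono n i), fun n i => ?_, ?_, ?_, ?_⟩
    · have h1 : Module.finrank k ((P n i).map (e n).toLinearMap) = Module.finrank k (P n i) :=
        LinearEquiv.finrank_map_eq (e n) (P n i)
      rw [h1, hfr, ← (e n).finrank_eq]
      exact hP.dim n i
    · rintro n n' i i' _ ⟨x, hx, rfl⟩ _ ⟨y, hy, rfl⟩ z hz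
      obtain ⟨z, rfl⟩ := (e (n + n')).surjective z
      exact ⟨z, hP.mul n n' i i' x hx y hy z (hcup n n' x y z hz), rfl⟩
    · intro n j x hx
      obtain ⟨x, rfl⟩ := (e n).surjective x
      exact (hmap n j x).2 (hlg P hP.log n j x hx)
    · intro n i
      have hinj : Function.Injective (e n).toLinearMap := (e n).injective
      rw [hT, hFl2, ← Submodule.map_inf _ hinj, ← Submodule.map_inf _ hinj, ← Submodule.map_sup]
      exact Submodule.map_mono (hP.rel n i)
  let E := AlternatingMap.domLCongr k k (Fin (Module.finrank k (Fl' n (i + 1)))) k (e n)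
  have hE : ∀ ω x, E ω x = ω fun u => (e n).symm (x u) := fun ω x => rfl
  obtain ⟨ω, hω, x, hx, hne⟩ := glgen3_cast h hP' n i _ (hfr n (i + 1))
    (W.map E.toLinearMap) (by
      rintro D _ ⟨ω, hω, rfl⟩
      obtain ⟨ω', hω', hD⟩ := hW D ω hω
      refine ⟨E ω', ⟨ω', hω', rfl⟩, fun x y hxy => ?_⟩
      have h1 := hD (fun u => (e n).symm (x u)) (fun u => (e n).symm (y u)) (fun u => hnab n D _ _ (by
        rw [LinearEquiv.apply_symm_apply, LinearEquiv.apply_symm_apply]
        exact hxy u))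
      rw [hE, h1]
      change _ = D (E ω x) - ∑ u, E ω (Function.update x u (y u))
      rw [hE]
      congr 1
      refine Finset.sum_congr rfl fun u _ => ?_
      rw [hE]
      congr 1
      funext v
      rcases eq_or_ne v u with hv | hv
      · subst hv
        rw [Function.update_self, Function.update_self]
      · rw [Function.update_of_ne hv, Function.update_of_ne hv]) (by
      obtain ⟨ω, hω, hω0, hωP⟩ := hWP
      refine ⟨E ω, ⟨ω, hω, rfl⟩, ?_, ?_⟩
      · intro h0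
        exact hω0 (E.map_eq_zero_iff.1 h0)
      · rintro x ⟨u, hu⟩
        rw [hE]
        refine hωP _ ⟨u, ?_⟩
        rw [← hmap, LinearEquiv.apply_symm_apply]
        exact hu)
  obtain ⟨ω, hω, rfl⟩ := hω
  refine ⟨ω, hω, fun u => (e n).symm (x u), fun u => ?_, hne⟩
  rw [← hFl, LinearEquiv.apply_symm_apply]
  exact hx u

end gp3

section

variable {M : Type} [AddCommGroup M] [Fintype M] [DecidableEq M]

/-- The image of the cohomology of `Y` in coordinates. -/
theorem imW_eq_map {κ : Type u} [Field κ] {A : Type u} [CommRing A] {n : ℕ}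
    {I₀ I : Ideal (MvPolynomial (Fin n) A)} {wt : Fin n → M}
    {hI₀ : IsHomog I₀} {hI : IsHomog I} {hw₀ : IsWHomog wt I₀} {hw : IsWHomog wt I}
    {β₀ β : ℕ × M → Type} [∀ a, Fintype (β₀ a)] [∀ a, Fintype (β a)]
    {lev₀ : ∀ a, β₀ a → ℕ} {lev : ∀ a, β a → ℕ}
    {z₀ : ∀ a, β₀ a → (prC I₀).Ch} {z : ∀ a, β a → (prC I).Ch} (hle : I₀ ≤ I) (φ : A →+* κ)
    (h₀ : IsAdW (grP (hI₀.map φ) (hw₀.map φ)) lev₀ fun a b => (prH φ I₀).push (z₀ a b))
    (h : IsAdW (grP (hI.map φ) (hw.map φ)) lev fun a b => (prH φ I).push (z a b))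
    {Tv : ∀ a, β₀ a → β a → A}
    (hT : ∀ a u, (rsH hle).push (z₀ a u) - ∑ b, Tv a u b • z a b ∈ (prC I).Bc a.1) (a : ℕ × M) :
    imW (rsH (bI_mono φ hle)) (grP (hI₀.map φ) (hw₀.map φ)) (grP (hI.map φ) (hw.map φ)) a =
      (Submodule.span κ (Set.range fun u => fun b => φ (Tv a u b))).map
        (h.eqv a).toLinearMap := by
  have hTk : ∀ u, (rsH (bI_mono φ hle)).push ((prH φ I₀).push (z₀ a u)) -
      ∑ b, φ (Tv a u b) • (prH φ I).push (z a b) ∈ (prC (bI φ I)).Bc a.1 := by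
    intro u
    have h1 := push_mem_Bc (F := prH φ I) (hT a u)
    rw [map_sub, push_lin] at h1
    rw [rsH_bc]
    exact h1
  have hTs : ∀ s : β₀ a → κ, (rsH (bI_mono φ hle)).push (∑ u, s u • (prH φ I₀).push (z₀ a u)) -
      ∑ b, (∑ u, s u • fun b => φ (Tv a u b)) b • (prH φ I).push (z a b) ∈
        (prC (bI φ I)).Bc a.1 := by
    intro s
    rw [push_lin]
    have h1 : ∑ b, (∑ u, s u • fun b => φ (Tv a u b)) b • (prH φ I).push (z a b) =
        ∑ u, s u • ∑ b, φ (Tv a u b) • (prH φ I).push (z a b) := by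
      simp only [Finset.sum_apply, Pi.smul_apply, smul_eq_mul, Finset.sum_smul, Finset.smul_sum,
        smul_smul]
      rw [Finset.sum_comm]
    rw [h1, ← Finset.sum_sub_distrib]
    refine Submodule.sum_mem _ fun u _ => ?_
    rw [RingHom.id_apply, ← smul_sub]
    exact Submodule.smul_mem _ _ (hTk u)
  apply le_antisymm
  · refine Submodule.span_le.2 ?_
    rintro x ⟨c, c', hc, hcc', hx⟩
    obtain ⟨s, -, hs⟩ := h₀.gen a 0 c (by rw [CovD.Fi_zero]; exact c.2.1) hc c.2.2
    have h1 := push_mem_Bc (F := rsH (bI_mono φ hle)) hs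
    rw [map_sub] at h1
    have h2 := Submodule.add_mem _ h1 (hTs s)
    rw [sub_add_sub_cancel, ← hcc'] at h2
    have h3 := h.cl_eq_crd a c' _ h2
    refine ⟨∑ u, s u • fun b => φ (Tv a u b), ?_, ?_⟩
    · exact Submodule.sum_mem _ fun u _ => Submodule.smul_mem _ _ (Submodule.subset_span ⟨u, rfl⟩)
    · apply Subtype.ext
      rw [← hx, h3]
      rfl
  · rw [Submodule.map_span]
    refine Submodule.span_mono ?_
    rintro _ ⟨_, ⟨u, rfl⟩, rfl⟩
    refine ⟨⟨(prH φ I₀).push (z₀ a u), h₀.mem_Zc a u⟩,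
      ⟨(rsH (bI_mono φ hle)).push ((prH φ I₀).push (z₀ a u)), push_mem_Zc (h₀.mem_Zc a u)⟩,
      h₀.wt a u, rfl, ?_⟩
    exact h.cl_eq_crd a _ _ (hTk u)

section

variable {A : Type u} [CommRing A] {n : ℕ} {I₀ I : Ideal (MvPolynomial (Fin n) A)} {wt : Fin n → M}
  {hI₀ : IsHomog I₀} {hI : IsHomog I} {hw₀ : IsWHomog wt I₀} {hw : IsWHomog wt I}
  {β₀ β : ℕ × M → Type} [∀ a, Fintype (β₀ a)] [∀ a, DecidableEq (β₀ a)] [∀ a, Fintype (β a)]
  [∀ a, DecidableEq (β a)] {lev₀ : ∀ a, β₀ a → ℕ} {lev : ∀ a, β a → ℕ}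
  {z₀ : ∀ a, β₀ a → (prC I₀).Ch} {z : ∀ a, β a → (prC I).Ch} {h₀ h : ℕ → ℕ → ℕ}

/-- PART R8: general position in coordinates. -/
theorem gen_of_rel3 {k : Type u} [Field k] {A : Subalgebra ℤ k} {n : ℕ}
    {I₀ I : Ideal (MvPolynomial (Fin n) A)} {wt : Fin n → M}
    {hI₀ : IsHomog I₀} {hI : IsHomog I} {hw₀ : IsWHomog wt I₀} {hw : IsWHomog wt I}
    {z₀ : ∀ a, β₀ a → (prC I₀).Ch} {z : ∀ a, β a → (prC I).Ch}
    (hle : I₀ ≤ I) (hD₀ : DatW hI₀ hw₀ lev₀ z₀ h₀)
    (hD : DatW hI hw lev z h) {N : ℕ} {D : Fin N → Derivation ℤ A A} (hg : Good' A D)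
    (V : ∀ l, Lft (prC I) (D l)) (hV : ∀ l, (grP hI hw).IsGr (V l)) {G : ∀ a, Fin N → β a → β a → A}
    {mu : ∀ a a', β a → β a' → β (a + a') → A} {Lg : ∀ a : ℕ × M, ℕ → Set (β a → A)}
    (hR : LinRelW (grP hI hw) z V G mu Lg) (S : ∀ _ _ : ℕ, Set (prC I).Ch)
    (hSL : ∀ (a : ℕ × M) j, ∀ c ∈ S a.1 j, ∃ g ∈ Lg a j,
      (grP hI hw).P a.2 c - ∑ b, g b • z a b ∈ (prC I).Bc a.1)
    (hS : ∀ m j, ∀ x, IsLogCoc (prC (bI (algebraMap A k) I)) m j x →
          x ∈ Submodule.span k ((prH (algebraMap A k) _).push '' S m j) ⊔ CovD.Bc _ m)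
    {Tv : ∀ a, β₀ a → β a → A}
    (hT : ∀ a u, (rsH hle).push (z₀ a u) - ∑ b, Tv a u b • z a b ∈ (prC I).Bc a.1)
    (hgen : IsGeneral3 (rsH (bI_mono (algebraMap A k) hle))
      (grP (hI₀.map (algebraMap A k)) (hw₀.map (algebraMap A k)))
      (grP (hI.map (algebraMap A k)) (hw.map (algebraMap A k)))) :
    (mkLinT lev D G mu Lg hD.bound' Tv).Gen (algebraMap A k) := by
  have had := hD.ad k (algebraMap A k)
  have had₀ := hD₀.ad k (algebraMap A k)
  let i1 : ∀ a : ℕ × M, AddCommGroup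
      ↥((grP (hI.map (algebraMap A k)) (hw.map (algebraMap A k))).HW a.1 a.2) :=
    fun _ => inferInstance
  let i2 : ∀ a : ℕ × M, Module k
      ↥((grP (hI.map (algebraMap A k)) (hw.map (algebraMap A k))).HW a.1 a.2) :=
    fun _ => inferInstance
  refine glgen3_transport (H := fun a : ℕ × M =>
    ↥((grP (hI.map (algebraMap A k)) (hw.map (algebraMap A k))).HW a.1 a.2))
    hgen (fun a => had.eqv a) ?_ ?_ ?_ ?_ ?_
  · intro a i x
    change ((had.eqv a x : _) : (prC (bI (algebraMap A k) I)).HdR a.1) ∈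
      (prC (bI (algebraMap A k) I)).Fil a.1 i ↔ _
    rw [had.eqv_coe, had.crd_mem_Fil]
    exact Iff.rfl
  · intro a D' x y hxy
    obtain ⟨α, hα⟩ := hg.der D'
    obtain ⟨V'', hV''⟩ := exists_lft_map hI (algebraMap A k) D V α D' hα
    have h1 := glgenW_nab had V hR.gm (fun a b => (hD.self.mem a b).1) α V'' hV'' hxy
    have h2 := had.crd_injective a h1
    exact ⟨α, hα, fun b' => congrFun h2 b'⟩
  · intro a a' x y t ht
    exact had.crd_injective (a + a') (glgenW_cup had hR.cup ht)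
  · intro P hP a j x hx
    obtain ⟨c, c', hc, hcc', hcx⟩ := hx
    have h1 : (c : (prC (bI (algebraMap A k) I)).Ch) ∈
        Submodule.span k ((prH (algebraMap A k) I).push '' S a.1 j) ⊔ CovD.Bc _ a.1 :=
      hS a.1 j _ hc
    -- the classes of the components of the elements of the span are in `P`
    have h2 : ∀ y ∈ Submodule.span k ((prH (algebraMap A k) I).push '' S a.1 j),
        ∃ g ∈ P a j, (grP (hI.map (algebraMap A k)) (hw.map (algebraMap A k))).P a.2 y -
          ∑ b, g b • (prH (algebraMap A k) I).push (z a b) ∈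
          (prC (bI (algebraMap A k) I)).Bc a.1 := by
      intro y hy
      induction hy using Submodule.span_induction with
      | mem y hy =>
        obtain ⟨c', hc', rfl⟩ := hy
        obtain ⟨g, hgL, hgc⟩ := hSL a j c' hc'
        refine ⟨fun b => algebraMap A k (g b), hP a j _ ⟨g, hgL, rfl⟩, ?_⟩
        have h3 := push_mem_Bc (F := prH (algebraMap A k) I) hgc
        rw [map_sub, push_lin, (prH_gr (algebraMap A k) hI hw).push_P] at h3
        exact h3
      | zero =>
        refine ⟨0, Submodule.zero_mem _, ?_⟩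
        simp only [Pi.zero_apply, zero_smul, Finset.sum_const_zero, sub_zero, map_zero]
        exact Submodule.zero_mem _
      | add y y' _ _ ih ih' =>
        obtain ⟨g, hg1, hg2⟩ := ih
        obtain ⟨g', hg1', hg2'⟩ := ih'
        refine ⟨g + g', Submodule.add_mem _ hg1 hg1', ?_⟩
        have h3 := Submodule.add_mem _ hg2 hg2'
        simp only [Pi.add_apply, add_smul, Finset.sum_add_distrib, map_add]
        rw [add_sub_add_comm]
        exact h3
      | smul r y _ ih =>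
        obtain ⟨g, hg1, hg2⟩ := ih
        refine ⟨r • g, Submodule.smul_mem _ _ hg1, ?_⟩
        have h3 := Submodule.smul_mem _ r hg2
        simp only [Pi.smul_apply, smul_assoc, map_smul]
        rw [← Finset.smul_sum, ← smul_sub]
        exact h3
    obtain ⟨y, hy, y', hy', hyy⟩ := Submodule.mem_sup.1 h1
    obtain ⟨g, hgP, hgy⟩ := h2 y hy
    have h4 : (c' : (prC (bI (algebraMap A k) I)).Ch) -
        ∑ b, g b • (prH (algebraMap A k) I).push (z a b) ∈
          (prC (bI (algebraMap A k) I)).Bc a.1 := by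
      rw [hcc', ← hyy, map_add, add_sub_right_comm]
      exact Submodule.add_mem _ hgy (GrX.P_mem_Bc _ hy' a.2)
    have h5 := had.cl_eq_crd a c' g h4
    rw [hcx] at h5
    rw [had.crd_injective a h5]
    exact hgP
  · intro a
    exact imW_eq_map (hI₀ := hI₀) (hI := hI) (hw₀ := hw₀) (hw := hw) hle (algebraMap A k) had₀ had
      hT a

end

end

end MPadcGP
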