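import Pool.Agent.Lib.MP_adc574_ag_GP.R3Res

/-!
# REL, R3: the minimal primes of a finitely generated extension

`exists_basicOpen_le_range`: an injective homomorphism of finite type of domains is surjective on spectra over a
nonempty basic open set (Chevalley). A minimal prime of `pA` in this open set lies under a prime of `A'`, which
contains a minimal prime of `pA'`.
-/

set_option autoImplicit false

namespace MPadcGP

universe u

theorem exists_basicOpen_le_range {A A' : Type u} [CommRing A] [IsDomain A] [IsNoetherianRing A] [CommRing A']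
    [IsDomain A'] (ι : A →+* A') (hfin : ι.FiniteType) (hι : Function.Injective ι) :
    ∃ f : A, f ≠ 0 ∧ ∀ 𝔓 : Ideal A, 𝔓.IsPrime → f ∉ 𝔓 → ∃ 𝔔 : Ideal A', 𝔔.IsPrime ∧ 𝔔.comap ι = 𝔓 := by
  have hfp : ι.FinitePresentation := RingHom.FinitePresentation.of_finiteType.1 hfin
  obtain ⟨S, hS⟩ := PrimeSpectrum.exists_constructibleSetData_iff.2
    (PrimeSpectrum.isConstructible_range_comap hfp)
  have h0 : (⟨⊥, Ideal.isPrime_bot⟩ : PrimeSpectrum A) ∈ S.toSet := by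
    rw [hS]
    refine ⟨⟨⊥, Ideal.isPrime_bot⟩, ?_⟩
    apply PrimeSpectrum.ext
    change Ideal.comap ι ⊥ = ⊥
    rw [← RingHom.ker_eq_comap_bot]
    exact (RingHom.injective_iff_ker_eq_bot ι).1 hι
  obtain ⟨C, hC⟩ := Set.mem_iUnion.1 h0
  obtain ⟨hCS, hg, hf⟩ := Set.mem_iUnion.1 hC
  refine ⟨C.f, fun h => hf ?_, fun 𝔓 h𝔓 hf𝔓 => ?_⟩
  · rw [PrimeSpectrum.mem_zeroLocus, Set.singleton_subset_iff]
    exact (Ideal.mem_bot (x := C.f)).2 h
  · have h1 : (⟨𝔓, h𝔓⟩ : PrimeSpectrum A) ∈ S.toSet := by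
      refine Set.mem_iUnion.2 ⟨C, Set.mem_iUnion.2 ⟨hCS, ?_, ?_⟩⟩
      · intro x hx
        have h2 : x ∈ (⊥ : Ideal A) := hg hx
        rw [Ideal.mem_bot] at h2
        rw [h2]
        exact 𝔓.zero_mem
      · intro h2
        exact hf𝔓 (Set.singleton_subset_iff.1 h2)
    rw [hS] at h1
    obtain ⟨𝔔, h𝔔⟩ := h1
    exact ⟨𝔔.asIdeal, 𝔔.isPrime, congrArg PrimeSpectrum.asIdeal h𝔔⟩

/-- PART R3: the minimal primes of a finitely generated extension. -/
theorem exists_over (A A' : Type u) [CommRing A] [IsDomain A] [CharZero A] [Algebra.FiniteType ℤ A]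
    [CommRing A'] [IsDomain A'] [CharZero A'] [Algebra.FiniteType ℤ A'] (ι : A →+* A')
    (hι : Function.Injective ι) :
    ∃ p₀ : ℕ, ∀ p : ℕ, p.Prime → p₀ < p → ∀ 𝔓 ∈ (Ideal.span {(p : A)}).minimalPrimes,
      ∃ 𝔔 ∈ (Ideal.span {(p : A')}).minimalPrimes, 𝔔.comap ι = 𝔓 := by
  have hnoeth : IsNoetherianRing A := Algebra.FiniteType.isNoetherianRing ℤ A
  have hfin : ι.FiniteType := by
    have h1 : (ι.comp (algebraMap ℤ A)).FiniteType := by
      have h2 : ι.comp (algebraMap ℤ A) = algebraMap ℤ A' := RingHom.ext_int _ _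
      rw [h2, RingHom.finiteType_algebraMap]
      infer_instance
    exact RingHom.FiniteType.of_comp_finiteType h1
  obtain ⟨f, hf, hr⟩ := exists_basicOpen_le_range ι hfin hι
  obtain ⟨N, hN⟩ := exists_bound A f hf
  refine ⟨N, fun p hp hlt 𝔓 h𝔓 => ?_⟩
  obtain ⟨𝔔', h𝔔', hc⟩ := hr 𝔓 h𝔓.1.1 (hN p hp hlt 𝔓 h𝔓)
  have hp𝔔 : Ideal.span {(p : A')} ≤ 𝔔' := by
    rw [Ideal.span_singleton_le_iff_mem]
    have h1 : (p : A) ∈ 𝔔'.comap ι := by
      rw [hc]
      exact h𝔓.1.2 (Ideal.mem_span_singleton_self _)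
    rw [Ideal.mem_comap, map_natCast] at h1
    exact h1
  obtain ⟨𝔔, h𝔔, hle⟩ := Ideal.exists_minimalPrimes_le hp𝔔
  refine ⟨𝔔, h𝔔, ?_⟩
  have hpr : 𝔔.IsPrime := h𝔔.1.1
  have h1 : 𝔔.comap ι ≤ 𝔓 := by
    rw [← hc]
    exact Ideal.comap_mono hle
  have h2 : Ideal.span {(p : A)} ≤ 𝔔.comap ι := by
    rw [Ideal.span_singleton_le_iff_mem, Ideal.mem_comap, map_natCast]
    exact h𝔔.1.2 (Ideal.mem_span_singleton_self _)
  exact le_antisymm h1 (h𝔓.2 ⟨hpr.comap ι, h2⟩ h1)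

end MPadcGP
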