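import Pool.Agent.Lib.MP_adc574_ag_GP.ClC

/-!
# REL, part R5: spreading out over `V(𝔓)`

* `spread_not_opp`: not opposite over the field of fractions implies not opposite over an open set.
* `exists_closed'`: descent of the opposition to a closed point of `V(ker φ)`.
-/

set_option autoImplicit false
set_option linter.unusedSectionVars false

namespace MPadcGP

open MvPolynomial

universe u v w x

/-- Finitely many elements of the field of fractions lie in a ring of fractions with one denominator. -/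
theorem exists_frac_subring {A : Type u} [CommRing A] {K : Type u} [Field K] (φ : A →+* K)
    (hφ : ∀ x : K, ∃ a b : A, φ b ≠ 0 ∧ x = φ a / φ b) (t : Finset K) :
    ∃ f : A, φ f ≠ 0 ∧ ∃ (S : Subring K) (hS : ∀ a, φ a ∈ S), (t : Set K) ⊆ S ∧
      ∀ (κ : Type u) [Field κ] (ψ : A →+* κ), (∀ a, φ a = 0 → ψ a = 0) → ψ f ≠ 0 →
        ∃ θ : S →+* κ, θ.comp (rto φ S hS) = ψ := by
  classical
  choose num den hden hx using hφ
  let f : A := ∏ x ∈ t, den x
  have hf : φ f ≠ 0 := by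
    rw [map_prod]
    exact Finset.prod_ne_zero_iff.2 fun x _ => hden x
  let φ1 : A ⧸ RingHom.ker φ →+* K := RingHom.kerLift φ
  have hφ1 : Function.Injective φ1 := RingHom.kerLift_injective φ
  have hφm : ∀ a, φ1 (Ideal.Quotient.mk _ a) = φ a := fun a => rfl
  let f1 : A ⧸ RingHom.ker φ := Ideal.Quotient.mk _ f
  have hu : IsUnit (φ1 f1) := IsUnit.mk0 _ hf
  let g : Localization.Away f1 →+* K := IsLocalization.Away.lift f1 hu
  have hg : ∀ a, g (algebraMap _ _ a) = φ1 a := fun a => IsLocalization.Away.lift_eq f1 hu a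
  have hinj : Function.Injective g := by
    rw [injective_iff_map_eq_zero]
    intro y hy
    obtain ⟨a, s, rfl⟩ := IsLocalization.exists_mk'_eq (Submonoid.powers f1) y
    have h1 : g (algebraMap _ _ a) = 0 := by
      rw [← IsLocalization.mk'_spec (Localization.Away f1) a s, map_mul, hy, zero_mul]
    rw [hg] at h1
    have h2 : a = 0 := hφ1 (h1.trans (map_zero φ1).symm)
    rw [h2, IsLocalization.mk'_zero]
  have hinv : g (IsLocalization.Away.invSelf f1) * φ f = 1 := by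
    have h1 := IsLocalization.Away.mul_invSelf (S := Localization.Away f1) f1
    have h2 := congrArg g h1
    rw [map_mul, map_one, hg, mul_comm] at h2
    exact h2
  have hS : ∀ a, φ a ∈ g.range := fun a => ⟨algebraMap _ _ (Ideal.Quotient.mk _ a), hg _⟩
  refine ⟨f, hf, g.range, hS, fun x hxt => ?_, fun κ _ ψ hψ hψf => ?_⟩
  · have hxt' : x ∈ t := hxt
    have h1 : f = den x * ∏ y ∈ t.erase x, den y := (Finset.mul_prod_erase t den hxt').symm
    have h2 : x = φ (num x * ∏ y ∈ t.erase x, den y) * g (IsLocalization.Away.invSelf f1) := by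
      have h3 : x * φ f = φ (num x * ∏ y ∈ t.erase x, den y) := by
        have h4 : x * φ (den x) = φ (num x) := (eq_div_iff (hden x)).1 (hx x)
        rw [h1, map_mul, ← mul_assoc, h4, ← map_mul]
      rw [← h3, mul_assoc, mul_comm (φ f), hinv, mul_one]
    rw [h2]
    exact Subring.mul_mem _ (hS _) ⟨_, rfl⟩
  · let ψ1 : A ⧸ RingHom.ker φ →+* κ := Ideal.Quotient.lift (RingHom.ker φ) ψ fun a ha => hψ a (RingHom.mem_ker.1 ha)
    have hu' : IsUnit (ψ1 f1) := IsUnit.mk0 _ hψf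
    let ψ2 : Localization.Away f1 →+* κ := IsLocalization.Away.lift f1 hu'
    have hψ2 : ∀ a, ψ2 (algebraMap _ _ a) = ψ1 a := fun a => IsLocalization.Away.lift_eq f1 hu' a
    let e : Localization.Away f1 ≃+* g.range := RingEquiv.ofBijective g.rangeRestrict
      ⟨fun a b hab => hinj (congrArg Subtype.val hab), g.rangeRestrict_surjective⟩
    refine ⟨ψ2.comp e.symm.toRingHom, RingHom.ext fun a => ?_⟩
    have h1 : rto φ g.range hS a = e (algebraMap _ _ (Ideal.Quotient.mk (RingHom.ker φ) a)) := by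
      apply Subtype.ext
      exact ((hg (Ideal.Quotient.mk (RingHom.ker φ) a)).trans (hφm a)).symm
    change ψ2 (e.symm (rto φ g.range hS a)) = ψ a
    rw [h1, RingEquiv.symm_apply_apply, hψ2]
    rfl

section rel

variable {A : Type u} [CommRing A] {n : ℕ} {I : Ideal (MvPolynomial (Fin n) A)} {K : Type v}
  [CommRing K] {β : ℕ → Type}
  [∀ m, Fintype (β m)] [∀ m, DecidableEq (β m)] {z : ∀ m, β m → (prC I).Ch}

/-- The descent of a relation. -/
theorem rel_descent (hI : IsHomog I) (hs : IsSmoothProj I) (hz : ∀ m b, z m b ∈ (prC I).Tt m)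
    (φ : A →+* K) {m i : ℕ} {x : β m → K} {c w : (prC (bI φ I)).Ch}
    (hc : c ∈ (prC (bI φ I)).Ni i m) (hw : w ∈ (prC (bI φ I)).Bc m)
    (he : ∑ b, x b • (prH φ I).push (z m b) = c + w) :
    ∃ t : Finset K, ∀ (S : Subring K) (hS : ∀ a, φ a ∈ S), (t : Set K) ⊆ S →
      ∃ x' : β m → S, (∀ b, (x' b : K) = x b) ∧ ∃ c' ∈ (prC (bI (rto φ S hS) I)).Ni i m,
        ∃ w' ∈ (prC (bI (rto φ S hS) I)).Bc m,
          ∑ b, x' b • (prH (rto φ S hS) I).push (z m b) = c' + w' := by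
  classical
  obtain ⟨t1, h1⟩ := exists_descent_Tt φ I hc.1
  obtain ⟨t2, h2⟩ := exists_descent_Bc φ I hw
  refine ⟨t1 ∪ t2 ∪ Finset.univ.image x, fun S hS ht => ?_⟩
  rw [Finset.coe_union, Finset.coe_union, Set.union_subset_iff, Set.union_subset_iff] at ht
  obtain ⟨⟨ht1, ht2⟩, ht3⟩ := ht
  obtain ⟨c', hc', hcc⟩ := h1 S hS ht1
  obtain ⟨w', hw', hww⟩ := h2 S hS ht2
  have hxS : ∀ b, x b ∈ S := fun b => ht3 (by simp)
  let _ : Algebra S K := S.subtype.toAlgebra
  have hBC : (prS φ I S hS : CovD.Hm (algebraMap S K) (prC (bI (rto φ S hS) I))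
      (prC (bI φ I))).IsBC := by
    refine prM_isBC (hI.map _) ?_ _
    change bI φ I = bI S.subtype (bI (rto φ S hS) I)
    rw [bI_bI, rto_comp]
  have hinj : Function.Injective (algebraMap S K) := Subtype.val_injective
  have hsm : ∀ J : Finset (Fin n), J.Nonempty →
      Algebra.Smooth S ((prC (bI (rto φ S hS) I)).R J) := fun J hJ =>
    IsSmoothProj.smooth (hI.map _) (hs.map hI _) hJ
  have hcN : c' ∈ (prC (bI (rto φ S hS) I)).Ni i m :=
    CovD.Hm.mem_Ni_of_push (prS φ I S hS) hBC hinj hsm hc' (by rw [hcc]; exact hc)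
  refine ⟨fun b => ⟨x b, hxS b⟩, fun b => rfl, c', hcN, w', hw', ?_⟩
  rw [← sub_eq_zero]
  refine CovD.Hm.push_inj_Tt (prS φ I S hS) hBC hinj hsm (m := m) ?_ ?_
  · refine Submodule.sub_mem _ (Submodule.sum_mem _ fun b _ => Submodule.smul_mem _ _ ?_)
      (Submodule.add_mem _ hc' (CovD.Bc_le_Zc m hw').1)
    exact CovD.Hm.push_mem_Tt (hz m b)
  · rw [map_sub, map_add, hcc, hww, push_sum, sub_eq_zero, ← he]
    refine Finset.sum_congr rfl fun b _ => ?_
    rw [prT_push]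
    rfl

end rel

section

variable {A : Type u} [CommRing A] {n : ℕ} {I : Ideal (MvPolynomial (Fin n) A)} {β : ℕ → Type}
    [∀ m, Fintype (β m)] [∀ m, DecidableEq (β m)] {lev : ∀ m, β m → ℕ}
    {z : ∀ m, β m → (prC I).Ch} {h : ℕ → ℕ → ℕ}

/-- PART R5 (helper33): if the generic fibre over `V(𝔓)` is not opposite, then the fibres over an open
set are not opposite. -/
theorem spread_not_opp [IsNoetherianRing A] (hI : IsHomog I) (hs : IsSmoothProj I)
    (hD : Dat I lev z h) {K : Type u} [Field K] (φ : A →+* K)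
    (hφ : ∀ x : K, ∃ a b : A, φ b ≠ 0 ∧ x = φ a / φ b) (hn : ¬ IsOppC (prC (bI φ I))) :
    ∃ f : A, φ f ≠ 0 ∧ ∀ (κ : Type u) [Field κ] (ψ : A →+* κ), (∀ a, φ a = 0 → ψ a = 0) → ψ f ≠ 0 →
      ¬ IsOppC (prC (bI ψ I)) := by
  classical
  have hadK := hD.ad K φ
  have hz : ∀ m b, z m b ∈ (prC I).Tt m := fun m b => (hD.self.mem m b).1
  simp only [IsOppC, not_forall] at hn
  obtain ⟨m, i, hn⟩ := hn
  obtain ⟨y, hy, hy0⟩ := (Submodule.ne_bot_iff _).1 hn
  obtain ⟨x0, rfl⟩ := (hadK.eqv m).surjective y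
  have hx0 : ∃ b0, x0 b0 ≠ 0 := by
    by_contra hc
    refine hy0 ?_
    have h1 : x0 = 0 := by
      funext b
      by_contra hb
      exact hc ⟨b, hb⟩
    rw [h1, map_zero]
  obtain ⟨b0, hb0⟩ := hx0
  let x : β m → K := (x0 b0)⁻¹ • x0
  have hxb : x b0 = 1 := inv_mul_cancel₀ hb0
  have hx1 : hadK.eqv m x ∈ (prC (bI φ I)).Con m i ⊓ (prC (bI φ I)).Fil m (i + 1) := by
    rw [map_smul]
    exact Submodule.smul_mem _ _ hy
  obtain ⟨hxC, hxF⟩ := hx1
  rw [SetLike.mem_coe, hadK.eqv_mem_Fil] at hxF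
  obtain ⟨c, hc, hcx⟩ := CovD.mem_Con.1 hxC
  rw [hadK.eqv_apply, CovD.cl_eq, hadK.lc_coe] at hcx
  obtain ⟨t, ht⟩ := rel_descent hI hs hz φ (x := x) hc (Submodule.neg_mem _ hcx) (by abel)
  obtain ⟨f, hf, S, hS, htS, hS2⟩ := exists_frac_subring φ hφ t
  obtain ⟨x', hx', c', hc', w', hw', he'⟩ := ht S hS htS
  refine ⟨f, hf, fun κ _ ψ hψ hψf hopp => ?_⟩
  obtain ⟨θ, hθ⟩ := hS2 κ ψ hψ hψf
  have had := hD.ad κ ψ
  let F := prT hθ I
  have hrel : ∑ b, θ (x' b) • (prH ψ I).push (z m b) = F.push c' + F.push w' := by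
    rw [← map_add, ← he', push_sum]
    refine Finset.sum_congr rfl fun b _ => ?_
    rw [prT_push]
  have h2 : F.push c' = had.lc m (fun b => θ (x' b)) - F.push w' := by
    rw [had.lc_coe, hrel, add_sub_cancel_right]
  have hw2 : F.push w' ∈ (prC (bI ψ I)).Bc m := CovD.Hm.push_mem_Bc hw'
  have h3 : F.push c' ∈ (prC (bI ψ I)).Zc m := by
    rw [h2]
    exact Submodule.sub_mem _ (had.lc m fun b => θ (x' b)).2 (CovD.Bc_le_Zc m hw2)
  have h4 : had.eqv m (fun b => θ (x' b)) ∈ (prC (bI ψ I)).Con m i := by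
    refine CovD.mem_Con.2 ⟨⟨F.push c', h3⟩, CovD.Hm.push_mem_Ni hc', ?_⟩
    rw [had.eqv_apply, CovD.cl_eq]
    have h5 : F.push c' - (had.lc m (fun b => θ (x' b)) : (prC (bI ψ I)).Ch) = -F.push w' := by
      rw [h2]
      abel
    change F.push c' - (had.lc m (fun b => θ (x' b)) : (prC (bI ψ I)).Ch) ∈ (prC (bI ψ I)).Bc m
    rw [h5]
    exact Submodule.neg_mem _ hw2
  have h5 : had.eqv m (fun b => θ (x' b)) ∈ (prC (bI ψ I)).Fil m (i + 1) := by
    rw [had.eqv_mem_Fil]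
    intro b hb
    have h6 : x' b = 0 := Subtype.ext ((hx' b).trans (hxF b hb))
    rw [h6, map_zero]
  have h6 : had.eqv m (fun b => θ (x' b)) = 0 := by
    have h7 : had.eqv m (fun b => θ (x' b)) ∈
      (prC (bI ψ I)).Con m i ⊓ (prC (bI ψ I)).Fil m (i + 1) := ⟨h4, h5⟩
    rw [hopp m i] at h7
    exact h7
  have h7 : (fun b => θ (x' b)) = 0 := (had.eqv m).injective (h6.trans (map_zero _).symm)
  have h8 : x' b0 = 1 := Subtype.ext ((hx' b0).trans hxb)
  have h9 := congrFun h7 b0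
  simp only [h8, map_one, Pi.zero_apply] at h9
  exact one_ne_zero h9

/-- PART R5' (helper33): `exists_closed` with the closed point in `V(ker φ)`. -/
theorem exists_closed' [Algebra.FiniteType ℤ A] (hI : IsHomog I) (hs : IsSmoothProj I)
    (hD : Dat I lev z h) {p : ℕ} [Fact p.Prime] {K : Type u} [Field K] [CharP K p] (φ : A →+* K)
    (f : A) (hf : φ f ≠ 0) (hopp : IsOppC (prC (bI φ I))) (hdim : DimC (prC (bI φ I))) :
    ∃ (κ : Type u) (_ : Field κ) (_ : Finite κ) (_ : CharP κ p) (ψ : A →+* κ),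
      (∀ a, φ a = 0 → ψ a = 0) ∧ ψ f ≠ 0 ∧ (DimC (prC (bI ψ I)) → IsOppC (prC (bI ψ I))) :=
  exists_closed_ker hI hs hD φ f hf hopp hdim

end

end MPadcGP
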