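import Pool.Agent.Lib.MP_adc574_ag_GP.Parts3
import Pool.Agent.Lib.MP_adc574_ag_GP.G3U
import Pool.Agent.Lib.MP_adc574_ag_GP.R3Res
import Pool.Agent.Lib.MP_adc574_ag_GP.R3Ov
import Pool.Agent.Lib.MP_adc574_ag_GP.R3Opp
import Pool.Agent.Lib.MP_adc574_ag_GP.R3Spr
import Pool.Agent.Lib.MP_adc574_ag_GP.R3Ext
import Pool.Agent.Lib.MP_adc574_ag_GP.R3Rs
import Pool.Agent.Lib.MP_adc574_ag_GP.R3Gen
import Pool.Agent.Lib.MP_adc574_ag_GP.R3Con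
import Pool.Agent.Lib.MP_adc574_ag_GP.R3Opn
import Pool.Agent.Lib.MP_adc574_ag_GP.R9e

/-!
# REL: the parts
-/
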