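import Pool.Agent.Lib.MP_adc574_ag_GP.Fin3c
import Pool.Agent.Lib.MP_adc574_ag_GP.Logs
import Pool.Agent.Lib.MP_adc574_ag_GP.Main2
import Pool.Agent.Lib.MP_adc574_ag_GP.Main3

/-!
# REL: the assembly
-/

set_option autoImplicit false
set_option linter.unusedSectionVars false

namespace MPadcGP

universe u v w x

theorem isGeneral3_congr {M : Type} [AddCommGroup M] [Fintype M] [DecidableEq M] {k : Type u} [Field k]
    {n : ℕ} {wt : Fin n → M} {I₀ I I₀' I' : Ideal (MvPolynomial (Fin n) k)} (h₀ : I₀ = I₀') (h : I = I')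
    (hle : I₀ ≤ I) (hI₀ : IsHomog I₀) (hw₀ : IsWHomog wt I₀) (hI : IsHomog I) (hw : IsWHomog wt I)
    (hle' : I₀' ≤ I') (hI₀' : IsHomog I₀') (hw₀' : IsWHomog wt I₀') (hI' : IsHomog I')
    (hw' : IsWHomog wt I') (hg : IsGeneral3 (rsH hle) (grP hI₀ hw₀) (grP hI hw)) :
    IsGeneral3 (rsH hle') (grP hI₀' hw₀') (grP hI' hw') := by
  subst h₀
  subst h
  exact hg

section

variable {M : Type} [AddCommGroup M] [Fintype M] [DecidableEq M]

/-- Everything about `I` that holds over all large finitely generated rings. -/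
theorem ev_data {k : Type u} [Field k] [IsAlgClosed k] [CharZero k] (A : Subalgebra ℤ k) (hA : A.FG)
    {n : ℕ} (I : Ideal (MvPolynomial (Fin n) A)) (hI : IsHomog I)
    (hs : IsSmoothProj (bI (algebraMap A k) I)) {wt : Fin n → M}
    (hw : IsWHomog wt (bI (algebraMap A k) I)) :
    ∃ A₁ : Subalgebra ℤ k, A₁.FG ∧ ∀ (A' : Subalgebra ℤ k) (h : A ≤ A'), A₁ ≤ A' →
      IsSmoothProj (bI (Subalgebra.inclusion h).toRingHom I) ∧
      ∃ hw' : IsWHomog wt (bI (Subalgebra.inclusion h).toRingHom I),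
        ∃ (β : ℕ × M → Type) (_ : ∀ a, Fintype (β a)) (_ : ∀ a, DecidableEq (β a))
          (lev : ∀ a, β a → ℕ) (z : ∀ a, β a → (prC (bI (Subalgebra.inclusion h).toRingHom I)).Ch)
          (h' : ℕ → ℕ → ℕ), DatW (hI.map _) hw' lev z h' := by
  have noe : ∀ A' : Subalgebra ℤ k, A'.FG → IsNoetherianRing A' := fun A' h =>
    have : Algebra.FiniteType ℤ A' := (Subalgebra.fg_iff_finiteType A').1 h
    Algebra.FiniteType.isNoetherianRing ℤ A'
  have hnA := noe A hA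
  obtain ⟨a₁, ha₁, hs₁⟩ := IsSmoothProj.exists_away hI (algebraMap A k) Subtype.val_injective hs
  obtain ⟨A₀, hle₀, hfg₀, hu₀⟩ := exists_inv A hA a₁ ha₁
  obtain ⟨A₁, hle₀₁, hfg₁, hwh⟩ := exists_wHomog A₀ hfg₀
    (bI (Subalgebra.inclusion hle₀).toRingHom I) (wt := wt) (by
      rw [bI_bI]
      exact hw)
  have hle₁ : A ≤ A₁ := hle₀.trans hle₀₁
  have hw₁ : IsWHomog wt (bI (Subalgebra.inclusion hle₁).toRingHom I) := by
    rw [bI_bI] at hwh
    exact hwh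
  have hu₁ : IsUnit ((Subalgebra.inclusion hle₁).toRingHom a₁) :=
    hu₀.map (Subalgebra.inclusion hle₀₁)
  have hsm₁ := IsSmoothProj.of_away hI hs₁ _ hu₁
  have hnA₁ := noe A₁ hfg₁
  obtain ⟨a₂, ha₂, hdat⟩ := exists_datW (hI.map _) hsm₁ hw₁
  obtain ⟨A₂, hle₂, hfg₂, hu₂⟩ := exists_inv A₁ hfg₁ a₂ ha₂
  refine ⟨A₂, hfg₂, fun A' h h2 => ?_⟩
  have h1 : A₁ ≤ A' := hle₂.trans h2
  have hcomp : (Subalgebra.inclusion h1).toRingHom.comp (Subalgebra.inclusion hle₁).toRingHom =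
    (Subalgebra.inclusion h).toRingHom := rfl
  have hb : bI (Subalgebra.inclusion h1).toRingHom (bI (Subalgebra.inclusion hle₁).toRingHom I) =
    bI (Subalgebra.inclusion h).toRingHom I := by rw [bI_bI, hcomp]
  refine ⟨hb ▸ hsm₁.map (hI.map _) _, hb ▸ hw₁.map _, ?_⟩
  have h3 := hdat A' (Subalgebra.inclusion h1).toRingHom (hu₂.map (Subalgebra.inclusion h2))
  have key : ∀ (J : Ideal (MvPolynomial (Fin n) A')) (hJ : IsHomog J) (hwJ : IsWHomog wt J)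
      (J' : Ideal (MvPolynomial (Fin n) A')) (hJ' : IsHomog J') (hwJ' : IsWHomog wt J'), J = J' →
      (∃ (β : ℕ × M → Type) (_ : ∀ a, Fintype (β a)) (_ : ∀ a, DecidableEq (β a))
          (lev : ∀ a, β a → ℕ) (z : ∀ a, β a → (prC J).Ch) (h' : ℕ → ℕ → ℕ), DatW hJ hwJ lev z h') →
      ∃ (β : ℕ × M → Type) (_ : ∀ a, Fintype (β a)) (_ : ∀ a, DecidableEq (β a))
          (lev : ∀ a, β a → ℕ) (z : ∀ a, β a → (prC J').Ch) (h' : ℕ → ℕ → ℕ),
          DatW hJ' hwJ' lev z h' := by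
    rintro J hJ hwJ _ hJ' hwJ' rfl h
    exact h
  exact key _ _ _ _ _ _ hb h3

/-- The logarithmic classes over all large finitely generated rings. -/
theorem ev_logs {k : Type u} [Field k] [IsAlgClosed k] [CharZero k] (A : Subalgebra ℤ k) (hA : A.FG)
    {n : ℕ} (I : Ideal (MvPolynomial (Fin n) A)) (hI : IsHomog I)
    (hs : IsSmoothProj (bI (algebraMap A k) I)) {wt : Fin n → M}
    (hw : IsWHomog wt (bI (algebraMap A k) I)) :
    ∃ A₁ : Subalgebra ℤ k, A₁.FG ∧ ∀ (A' : Subalgebra ℤ k) (h : A ≤ A'), A₁ ≤ A' →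
      ∀ (m j : ℕ), ∃ S : Set (prC (bI (Subalgebra.inclusion h).toRingHom I)).Ch, S.Finite ∧
        (∀ c ∈ S, IsLogCoc _ m j c) ∧
        ∀ x, IsLogCoc (prC (bI (algebraMap A' k) (bI (Subalgebra.inclusion h).toRingHom I))) m j x →
          x ∈ Submodule.span k ((prH (algebraMap A' k) _).push '' S) ⊔ CovD.Bc _ m := by
  have noe : ∀ A' : Subalgebra ℤ k, A'.FG → IsNoetherianRing A' := fun A' h =>
    have : Algebra.FiniteType ℤ A' := (Subalgebra.fg_iff_finiteType A').1 h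
    Algebra.FiniteType.isNoetherianRing ℤ A'
  obtain ⟨A₂, hfg₂, hev⟩ := ev_data A hA I hI hs hw
  have hfgs := hA.sup hfg₂
  obtain ⟨A₁, hA₁def⟩ : ∃ A₁ : Subalgebra ℤ k, A₁ = A ⊔ A₂ := ⟨_, rfl⟩
  rw [← hA₁def] at hfgs
  have hle₁ : A ≤ A₁ := hA₁def ▸ le_sup_left
  obtain ⟨hsm₁, hw₁, β, i1, i2, lev, z, h, hD⟩ := hev A₁ hle₁ (hA₁def ▸ le_sup_right)
  have hfin : (∀ m, FiniteDimensional k ((prC (bI (algebraMap A₁ k)
      (bI (Subalgebra.inclusion hle₁).toRingHom I))).HdR m)) ∧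
      ∃ M, ∀ m, M ≤ m → Subsingleton ((prC (bI (algebraMap A₁ k)
        (bI (Subalgebra.inclusion hle₁).toRingHom I))).HdR m) := by
    refine ⟨fun m => (hD.total.ad k (algebraMap A₁ k)).finite m, ?_⟩
    obtain ⟨M, hM⟩ := hD.total.bound
    refine ⟨M, fun m hm => ?_⟩
    have := hM m hm
    exact ((hD.total.ad k (algebraMap A₁ k)).eqv m).symm.toEquiv.subsingleton
  obtain ⟨A₁', hle₁', hfg₁', hlog⟩ := exists_logs A₁ hfgs (hI.map _) hsm₁ hfin.1 hfin.2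
  refine ⟨A₁', hfg₁', fun A' h h2 m j => ?_⟩
  have h1 : A₁ ≤ A' := hle₁'.trans h2
  have h3 := hlog A' h2 h1 m j
  rw [bI_bI] at h3
  exact h3

end

end MPadcGP
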