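import Pool.Agent.Lib.MP_adc574_ag_GP.Cov

/-!
# The Gauss–Manin connection on the Čech–de Rham complex (helper90)

`Lft X D`: lifts of the derivation `D` of `A` to the rings of the cover: `V K J` is the derivation of
`R J` which extends a lift of `D` to `R K`, `K ⊆ J`, `K` nonempty.
`Gm V = L - I ∘ inv`: the connection; `gm_Dt`: it commutes with the total differential.
`gm_homotopy`: it does not depend on the lifts up to homotopy.
-/

set_option autoImplicit false

namespace MPadcGP

universe u v w x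

section cz

variable (A : Type u) {R : Type v} [CommRing A] [CommRing R] [Algebra A R]

/-- A derivation which kills the constants. -/
def toA (D : Derivation ℤ R R) (h : ∀ a : A, D (algebraMap A R a) = 0) : Derivation A R R where
  toFun := D
  map_add' := map_add D
  map_smul' := by
    intro a x
    rw [Algebra.smul_def, Derivation.leibniz, h, smul_zero, add_zero, RingHom.id_apply,
      smul_eq_mul, Algebra.smul_def]
  map_one_eq_zero' := by
    change D 1 = 0
    exact Derivation.map_one_eq_zero D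
  leibniz' := fun a b => D.leibniz a b

open Classical in
/-- The contraction with a vector field given by a derivation over the integers. -/
noncomputable def cz (D : Derivation ℤ R R) : Fm A R →+ Fm A R :=
  if h : ∀ a : A, D (algebraMap A R a) = 0 then (ct A (toA A D h)).toAddMonoidHom else 0

variable {A}

theorem cz_of {D : Derivation ℤ R R} (h : ∀ a : A, D (algebraMap A R a) = 0) (e : Fm A R) :
    cz A D e = ct A (toA A D h) e := by
  unfold cz
  rw [dif_pos h]
  rfl

theorem cz_inv (D : Derivation ℤ R R) (e : Fm A R) : cz A D (inv A e) = -inv A (cz A D e) := by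
  by_cases h : ∀ a : A, D (algebraMap A R a) = 0
  · rw [cz_of h, cz_of h, ct_inv]
  · unfold cz
    rw [dif_neg h, AddMonoidHom.zero_apply, AddMonoidHom.zero_apply, map_zero, neg_zero]

theorem cz_sub {D D' D'' : Derivation ℤ R R} (h : ∀ a : A, D (algebraMap A R a) = D' (algebraMap A R a))
    (h' : ∀ a : A, D' (algebraMap A R a) = D'' (algebraMap A R a)) (e : Fm A R) :
    cz A (D - D'') e = cz A (D - D') e + cz A (D' - D'') e := by
  have h1 : ∀ a : A, (D - D') (algebraMap A R a) = 0 := fun a => by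
    rw [Derivation.sub_apply, h, sub_self]
  have h2 : ∀ a : A, (D' - D'') (algebraMap A R a) = 0 := fun a => by
    rw [Derivation.sub_apply, h', sub_self]
  have h3 : ∀ a : A, (D - D'') (algebraMap A R a) = 0 := fun a => by
    rw [Derivation.sub_apply, h, h', sub_self]
  rw [cz_of h1, cz_of h2, cz_of h3, ← ct_add]
  congr 2
  ext x
  change D x - D'' x = (D x - D' x) + (D' x - D'' x)
  abel

theorem cz_mem {D : Derivation ℤ R R} {q : ℕ} {e : Fm A R} (he : e ∈ Fd A R (q + 1)) :
    cz A D e ∈ Fd A R q := by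
  by_cases h : ∀ a : A, D (algebraMap A R a) = 0
  · rw [cz_of h]
    exact ct_mem _ he
  · unfold cz
    rw [dif_neg h, AddMonoidHom.zero_apply]
    exact Submodule.zero_mem _

theorem cz_mem_zero {D : Derivation ℤ R R} {e : Fm A R} (he : e ∈ Fd A R 0) : cz A D e = 0 := by
  by_cases h : ∀ a : A, D (algebraMap A R a) = 0
  · rw [cz_of h]
    exact ct_mem_zero _ he
  · unfold cz
    rw [dif_neg h, AddMonoidHom.zero_apply]

/-- Two lifts of the same derivation of the constants differ by a vector field. -/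
theorem LL_sub {D D' : Derivation ℤ R R} (hD' : PC A D')
    (h : ∀ a : A, D (algebraMap A R a) = D' (algebraMap A R a)) (e : Fm A R) :
    LL A D e - LL A D' e = dd A (cz A (D - D') e) + cz A (D - D') (dd A e) := by
  have h1 : ∀ a : A, (D - D') (algebraMap A R a) = 0 := fun a => by
    rw [Derivation.sub_apply, h, sub_self]
  have h2 : PC A (D - D') := fun a => ⟨0, by rw [h1, map_zero]⟩
  have h3 : LL A D e = LL A (D - D') e + LL A D' e := by
    rw [← LL_add h2 hD', sub_add_cancel]
  rw [h3, add_sub_cancel_right, cz_of h1, cz_of h1, ← cartan]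
  rfl

theorem mp_cz {B : Type w} {S : Type x} [CommRing B] [CommRing S] [Algebra B S] {φ : R →+* S}
    (h : CC A B φ) {D : Derivation ℤ R R} {D' : Derivation ℤ S S}
    (h1 : ∀ a : A, D (algebraMap A R a) = 0) (h2 : ∀ b : B, D' (algebraMap B S b) = 0)
    (hc : ∀ x, φ (D x) = D' (φ x)) (e : Fm A R) : mp φ h (cz A D e) = cz B D' (mp φ h e) := by
  rw [cz_of h1, cz_of h2]
  exact mp_ct h hc e

end cz

variable {A : Type u} [CommRing A] {n : ℕ}

/-- Lifts of a derivation of the base to the rings of the cover. -/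
structure Lft (X : CovD.{u, v} A n) (D : Derivation ℤ A A) where
  /-- The lift to `R K`, extended to `R J`. -/
  V : ∀ (_ J : Finset (Fin n)), Derivation ℤ (X.R J) (X.R J)
  base : ∀ (K J : Finset (Fin n)), K.Nonempty → K ⊆ J →
    ∀ a : A, V K J (algebraMap A (X.R J) a) = algebraMap A (X.R J) (D a)
  comm : ∀ (K J L : Finset (Fin n)), K.Nonempty → K ⊆ J → ∀ (h : J ⊆ L) (x : X.R J),
    X.ρ h (V K J x) = V K L (X.ρ h x)

namespace Lft

variable {X : CovD.{u, v} A n} {D : Derivation ℤ A A} (V : Lft X D)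

theorem pc {K J : Finset (Fin n)} (hK : K.Nonempty) (h : K ⊆ J) : PC A (V.V K J) :=
  fun a => ⟨D a, V.base K J hK h a⟩

/-- The part of form degree 0 of the connection. -/
noncomputable def Lc : X.Ch →+ X.Ch where
  toFun c J := LL A (V.V J J) (c J)
  map_zero' := by
    funext J
    exact map_zero _
  map_add' b c := by
    funext J
    exact map_add _ _ _

/-- The part of form degree `-1` of the connection. -/
noncomputable def Ic : X.Ch →+ X.Ch where
  toFun c J := ∑ j ∈ J, sg j J • cz A (V.V (J.erase j) J - V.V J J) (X.ev c (J.erase j) J)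
  map_zero' := by
    funext J
    refine Finset.sum_eq_zero fun j _ => ?_
    rw [CovD.ev_zero_left, map_zero, smul_zero]
  map_add' b c := by
    funext J
    rw [Pi.add_apply, ← Finset.sum_add_distrib]
    refine Finset.sum_congr rfl fun j _ => ?_
    rw [CovD.ev_add, map_add, smul_add]

/-- The connection on the cochains. -/
noncomputable def Gm (c : X.Ch) : X.Ch := V.Lc c - V.Ic (X.ic c)

theorem Lc_apply (c : X.Ch) (J : Finset (Fin n)) : V.Lc c J = LL A (V.V J J) (c J) := rfl

theorem Ic_apply (c : X.Ch) (J : Finset (Fin n)) : V.Ic c J =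
    ∑ j ∈ J, sg j J • cz A (V.V (J.erase j) J - V.V J J) (X.ev c (J.erase j) J) := rfl

theorem Gm_add (b c : X.Ch) : V.Gm (b + c) = V.Gm b + V.Gm c := by
  unfold Gm
  rw [map_add, map_add, map_add]
  abel

variable {V}

theorem ev_Lc {c : X.Ch} (h0 : c ∅ = 0) {K J : Finset (Fin n)} (h : K ⊆ J) :
    X.ev (V.Lc c) K J = LL A (V.V K J) (X.ev c K J) := by
  rcases K.eq_empty_or_nonempty with hK | hK
  · subst hK
    rw [CovD.ev_eq_zero (by rw [Lc_apply, h0, map_zero]), CovD.ev_eq_zero h0, map_zero]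
  · rw [CovD.ev_of h, CovD.ev_of h, Lc_apply]
    exact mp_LL _ (V.pc hK (Finset.Subset.refl K)) (V.pc hK h)
      (fun x => V.comm K K J hK (Finset.Subset.refl K) h x) (c K)

private theorem gm_sub_base (V : Lft X D) {K L J : Finset (Fin n)} (hK : K.Nonempty) (hKJ : K ⊆ J)
    (hL : L.Nonempty) (hLJ : L ⊆ J) (a : A) :
    (V.V K J - V.V L J) (algebraMap A (X.R J) a) = 0 := by
  rw [Derivation.sub_apply, V.base K J hK hKJ, V.base L J hL hLJ, sub_self]

theorem ev_Ic {c : X.Ch} (h0 : c ∅ = 0) {K J : Finset (Fin n)} (h : K ⊆ J) :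
    X.ev (V.Ic c) K J = ∑ j ∈ K, sg j K •
      cz A (V.V (K.erase j) J - V.V K J) (X.ev c (K.erase j) J) := by
  rw [CovD.ev_of h, Ic_apply, map_sum]
  refine Finset.sum_congr rfl fun j hj => ?_
  rw [map_zsmul]
  congr 1
  rcases (K.erase j).eq_empty_or_nonempty with hK | hK
  · rw [hK, CovD.ev_eq_zero h0, CovD.ev_eq_zero h0, map_zero, map_zero, map_zero]
  · have hK' : K.Nonempty := ⟨j, hj⟩
    rw [← CovD.rs_ev (Finset.erase_subset j K) h]
    refine mp_cz _ (gm_sub_base V hK (Finset.erase_subset j K) hK' (Finset.Subset.refl K))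
      (gm_sub_base V hK ((Finset.erase_subset j K).trans h) hK' h) (fun x => ?_) _
    change X.ρ h (V.V (K.erase j) K x - V.V K K x) =
      V.V (K.erase j) J (X.ρ h x) - V.V K J (X.ρ h x)
    rw [map_sub, V.comm _ K J hK (Finset.erase_subset j K) h, V.comm K K J hK' (Finset.Subset.refl K) h]

theorem Lc_ic (c : X.Ch) : V.Lc (X.ic c) = X.ic (V.Lc c) := by
  funext J
  rcases J.eq_empty_or_nonempty with hJ | hJ
  · by_cases h : PC A (V.V J J)
    · exact LL_inv A h (c J)
    · rw [Lc_apply, CovD.ic_apply, CovD.ic_apply, Lc_apply]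
      have h1 : LL A (V.V J J) = 0 := dif_neg h
      rw [h1, AddMonoidHom.zero_apply, AddMonoidHom.zero_apply, map_zero]
  · exact LL_inv A (V.pc hJ (Finset.Subset.refl J)) (c J)

theorem Lc_dc {c : X.Ch} (h0 : c ∅ = 0) : V.Lc (X.dc c) = X.dc (V.Lc c) := by
  funext J
  rcases J.eq_empty_or_nonempty with hJ | hJ
  · subst hJ
    rw [Lc_apply, CovD.dc_apply, CovD.dc_apply, Lc_apply, h0, map_zero, map_zero, map_zero]
  · exact LL_dd A (V.pc hJ (Finset.Subset.refl J)) (c J)

theorem Ic_ic (c : X.Ch) : V.Ic (X.ic c) = -X.ic (V.Ic c) := by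
  funext J
  change V.Ic (X.ic c) J = -(X.ic (V.Ic c) J)
  rw [Ic_apply, CovD.ic_apply, Ic_apply, map_sum, ← Finset.sum_neg_distrib]
  refine Finset.sum_congr rfl fun j _ => ?_
  rw [CovD.ev_ic, cz_inv, map_zsmul, smul_neg]

/-- `δ L - L δ = d I + I d`. -/
theorem del_Lc {c : X.Ch} (h0 : c ∅ = 0) :
    X.del (V.Lc c) - V.Lc (X.del c) = X.dc (V.Ic c) + V.Ic (X.dc c) := by
  funext J
  change X.del (V.Lc c) J - V.Lc (X.del c) J = X.dc (V.Ic c) J + V.Ic (X.dc c) J
  rw [CovD.del_apply, Lc_apply, CovD.del_apply, CovD.dc_apply, Ic_apply, Ic_apply, map_sum, map_sum,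
    ← Finset.sum_sub_distrib, ← Finset.sum_add_distrib]
  refine Finset.sum_congr rfl fun j hj => ?_
  rw [ev_Lc h0 (Finset.erase_subset j J), map_zsmul, map_zsmul, CovD.ev_dc, ← smul_sub, ← smul_add]
  congr 1
  rcases (J.erase j).eq_empty_or_nonempty with hK | hK
  · rw [hK, CovD.ev_eq_zero h0, map_zero, map_zero, map_zero, map_zero, map_zero, sub_zero,
      add_zero]
  · have hJ : J.Nonempty := ⟨j, hj⟩
    exact LL_sub (V.pc hJ (Finset.Subset.refl J))
      (fun a => by rw [V.base _ J hK (Finset.erase_subset j J), V.base J J hJ (Finset.Subset.refl J)])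
      _

/-- `δ I + I δ = 0`. -/
theorem del_Ic {c : X.Ch} (h0 : c ∅ = 0) : X.del (V.Ic c) + V.Ic (X.del c) = 0 := by
  funext J
  change X.del (V.Ic c) J + V.Ic (X.del c) J = 0
  rw [CovD.del_apply, Ic_apply, ← Finset.sum_add_distrib]
  have h1 : ∀ i ∈ J, sg i J • X.ev (V.Ic c) (J.erase i) J +
      sg i J • cz A (V.V (J.erase i) J - V.V J J) (X.ev (X.del c) (J.erase i) J) =
      ∑ j ∈ J.erase i, (sg i J * sg j (J.erase i)) •
        cz A (V.V ((J.erase i).erase j) J - V.V J J) (X.ev c ((J.erase i).erase j) J) := by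
    intro i hi
    rw [ev_Ic h0 (Finset.erase_subset i J), CovD.ev_del (Finset.erase_subset i J), map_sum,
      ← smul_add, ← Finset.sum_add_distrib, Finset.smul_sum]
    refine Finset.sum_congr rfl fun j hj => ?_
    rw [map_zsmul, ← smul_add, smul_smul]
    congr 1
    rcases ((J.erase i).erase j).eq_empty_or_nonempty with hK | hK
    · rw [hK, CovD.ev_eq_zero h0, map_zero, map_zero, map_zero, add_zero]
    · have hK' : (J.erase i).Nonempty := ⟨j, hj⟩
      have hJ : J.Nonempty := ⟨i, hi⟩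
      have hs : J.erase i ⊆ J := Finset.erase_subset i J
      have hs' : (J.erase i).erase j ⊆ J := (Finset.erase_subset j _).trans hs
      exact (cz_sub (fun a => by rw [V.base _ J hK hs', V.base _ J hK' hs])
        (fun a => by rw [V.base _ J hK' hs, V.base J J hJ (Finset.Subset.refl J)]) _).symm
  rw [Finset.sum_congr rfl h1, Finset.sum_sigma']
  refine Finset.sum_involution (fun p _ => (⟨p.2, p.1⟩ : Σ _ : Fin n, Fin n)) ?_ ?_ ?_ ?_
  · rintro ⟨i, j⟩ h
    rw [Finset.mem_sigma, Finset.mem_erase] at h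
    obtain ⟨hi, hij, hj⟩ := h
    change (sg i J * sg j (J.erase i)) • cz A (V.V ((J.erase i).erase j) J - V.V J J)
        (X.ev c ((J.erase i).erase j) J) +
      (sg j J * sg i (J.erase j)) • cz A (V.V ((J.erase j).erase i) J - V.V J J)
        (X.ev c ((J.erase j).erase i) J) = 0
    rw [Finset.erase_right_comm (a := j) (b := i), ← add_smul, sg_sg hi hj (Ne.symm hij), zero_smul]
  · rintro ⟨i, j⟩ h _ he
    rw [Finset.mem_sigma, Finset.mem_erase] at h
    have h1 : (⟨j, i⟩ : Σ _ : Fin n, Fin n) = ⟨i, j⟩ := he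
    have h2 : j = i := congrArg (fun p : (Σ _ : Fin n, Fin n) => p.1) h1
    exact h.2.1 h2
  · rintro ⟨i, j⟩ h
    rw [Finset.mem_sigma, Finset.mem_erase] at h ⊢
    exact ⟨h.2.2, Ne.symm h.2.1, h.1⟩
  · rintro ⟨i, j⟩ _
    rfl

/-- The connection commutes with the total differential. -/
theorem Gm_Dt {c : X.Ch} (h0 : c ∅ = 0) : V.Gm (X.Dt c) = X.Dt (V.Gm c) := by
  have h0' : X.ic c ∅ = 0 := by rw [CovD.ic_apply, h0, map_zero]
  have e1 := del_Lc (V := V) h0'
  have e2 := del_Ic (V := V) h0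
  unfold Gm
  rw [CovD.Dt_apply, CovD.Dt_apply]
  simp only [map_add, map_sub]
  rw [Lc_dc h0, CovD.ic_dc, map_neg, CovD.del_ic, CovD.ic_ic, ← CovD.del_ic, Ic_ic (V := V),
    map_neg X.ic, CovD.ic_ic]
  rw [← Lc_ic (V := V)]
  have e3 : V.Lc (X.del (X.ic c)) = X.del (V.Lc (X.ic c)) - (X.dc (V.Ic (X.ic c)) +
      V.Ic (X.dc (X.ic c))) := by
    rw [← e1]
    abel
  have e4 : V.Ic (X.del c) = -X.del (V.Ic c) := eq_neg_of_add_eq_zero_right e2
  rw [e3, e4, Ic_ic (V := V)]
  simp only [map_neg]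
  abel

/-- The connection preserves the total degree. -/
theorem Gm_mem {m : ℕ} {c : X.Ch} (hc : c ∈ X.Tt m) : V.Gm c ∈ X.Tt m := by
  unfold Gm
  refine Submodule.sub_mem _ ?_ ?_
  · refine ⟨by rw [Lc_apply, hc.1, map_zero], fun J => ⟨fun q hq => ?_, fun h => ?_⟩⟩
    · rw [Lc_apply]
      rcases J.eq_empty_or_nonempty with hJ | hJ
      · subst hJ
        rw [hc.1, map_zero]
        exact Submodule.zero_mem _
      · exact LL_mem (V.pc hJ (Finset.Subset.refl J)) ((hc.2 J).1 q hq)
    · rw [Lc_apply, (hc.2 J).2 h, map_zero]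
  · have hi := CovD.ic_mem hc
    refine ⟨by rw [Ic_apply, Finset.sum_empty], fun J => ⟨fun q hq => ?_, fun h => ?_⟩⟩
    · rw [Ic_apply]
      refine Submodule.sum_mem _ fun j hj => zsmul_mem ?_ _
      have h1 := Finset.card_erase_add_one hj
      exact cz_mem (CovD.ev_mem ((hi.2 _).1 (q + 1) (by omega)) _)
    · rw [Ic_apply]
      refine Finset.sum_eq_zero fun j hj => ?_
      have h1 := Finset.card_erase_add_one hj
      rcases Nat.lt_or_ge (m + 1) (J.erase j).card with h2 | h2
      · rw [CovD.ev_eq_zero ((hi.2 _).2 h2), map_zero, smul_zero]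
      · rw [cz_mem_zero (CovD.ev_mem ((hi.2 _).1 0 (by omega)) _), smul_zero]

/-- The connection preserves the conjugate filtration. -/
theorem Gm_mem_Ni {i m : ℕ} {c : X.Ch} (hc : c ∈ X.Ni i m) : V.Gm c ∈ X.Ni i m := by
  refine ⟨Gm_mem hc.1, fun J => ?_⟩
  have hI : ∀ h : J.card + i ≤ m + 1, V.Ic (X.ic c) J = 0 := by
    intro h
    rw [Ic_apply]
    refine Finset.sum_eq_zero fun j hj => ?_
    have h1 := Finset.card_erase_add_one hj
    rw [CovD.ev_ic, CovD.ev_eq_zero ((hc.2 _).1 (by omega)), map_zero, map_zero, smul_zero]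
  constructor
  · intro h
    change V.Lc c J - V.Ic (X.ic c) J = 0
    rw [hI h.le, sub_zero, Lc_apply, (hc.2 J).1 h, map_zero]
  · intro h
    change dd A (V.Lc c J - V.Ic (X.ic c) J) = 0
    rw [hI h.le, sub_zero, Lc_apply]
    rcases J.eq_empty_or_nonempty with hJ | hJ
    · subst hJ
      rw [hc.1.1, map_zero, map_zero]
    · rw [← LL_dd A (V.pc hJ (Finset.Subset.refl J)), (hc.2 J).2 h, map_zero]

/-- The Leibniz rule. -/
theorem Gm_smul (a : A) {c : X.Ch} (h0 : c ∅ = 0) : V.Gm (a • c) = a • V.Gm c + D a • c := by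
  have hL : V.Lc (a • c) = a • V.Lc c + D a • c := by
    funext J
    rcases J.eq_empty_or_nonempty with hJ | hJ
    · subst hJ
      change LL A _ (a • c ∅) = a • LL A _ (c ∅) + D a • c ∅
      rw [h0, smul_zero, map_zero, smul_zero, smul_zero, add_zero]
    · change LL A _ (a • c J) = a • LL A _ (c J) + D a • c J
      have hp := V.pc hJ (Finset.Subset.refl J)
      rw [smul_fm, LL_mul A hp, LL_fz A hp, V.base J J hJ (Finset.Subset.refl J), smul_fm, smul_fm,
        add_comm]
  have hI : V.Ic (X.ic (a • c)) = a • V.Ic (X.ic c) := by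
    funext J
    change V.Ic (X.ic (a • c)) J = a • V.Ic (X.ic c) J
    rw [Ic_apply, Ic_apply, Finset.smul_sum]
    refine Finset.sum_congr rfl fun j hj => ?_
    rw [map_smul, CovD.ev_smul, smul_comm a]
    congr 1
    rcases (J.erase j).eq_empty_or_nonempty with hK | hK
    · rw [hK, CovD.ev_eq_zero (by rw [CovD.ic_apply, h0, map_zero]), smul_zero, map_zero, smul_zero]
    · have hJ : J.Nonempty := ⟨j, hj⟩
      have hb := gm_sub_base V hK (Finset.erase_subset j J) hJ (Finset.Subset.refl J)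
      rw [cz_of hb, cz_of hb, ← algebraMap_smul (X.R J) a, map_smul, algebraMap_smul]
  unfold Gm
  rw [hL, hI, smul_sub]
  abel

/-- The homotopy between the connections given by two systems of lifts. -/
noncomputable def Hc (V V' : Lft X D) : X.Ch →+ X.Ch where
  toFun c J := cz A (V.V J J - V'.V J J) (c J)
  map_zero' := by
    funext J
    exact map_zero _
  map_add' b c := by
    funext J
    exact map_add _ _ _

theorem Hc_apply (V V' : Lft X D) (c : X.Ch) (J : Finset (Fin n)) :
    Hc V V' c J = cz A (V.V J J - V'.V J J) (c J) := rfl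

private theorem gm_sub_base' (V V' : Lft X D) {K J : Finset (Fin n)} (hK : K.Nonempty)
    (hKJ : K ⊆ J) (a : A) : (V.V K J - V'.V K J) (algebraMap A (X.R J) a) = 0 := by
  rw [Derivation.sub_apply, V.base K J hK hKJ, V'.base K J hK hKJ, sub_self]

theorem ev_Hc (V V' : Lft X D) {c : X.Ch} (h0 : c ∅ = 0) {K J : Finset (Fin n)} (h : K ⊆ J) :
    X.ev (Hc V V' c) K J = cz A (V.V K J - V'.V K J) (X.ev c K J) := by
  rcases K.eq_empty_or_nonempty with hK | hK
  · subst hK
    rw [CovD.ev_eq_zero (by rw [Hc_apply, h0, map_zero]), CovD.ev_eq_zero h0, map_zero]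
  · rw [CovD.ev_of h, CovD.ev_of h, Hc_apply]
    refine mp_cz _ (gm_sub_base' V V' hK (Finset.Subset.refl K)) (gm_sub_base' V V' hK h)
      (fun x => ?_) (c K)
    change X.ρ h (V.V K K x - V'.V K K x) = V.V K J (X.ρ h x) - V'.V K J (X.ρ h x)
    rw [map_sub, V.comm K K J hK (Finset.Subset.refl K) h, V'.comm K K J hK (Finset.Subset.refl K) h]

/-- The connection does not depend on the lifts up to homotopy. -/
theorem Gm_homotopy (V V' : Lft X D) {c : X.Ch} (h0 : c ∅ = 0) :
    V.Gm c - V'.Gm c = X.Dt (Hc V V' c) + Hc V V' (X.Dt c) := by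
  have h0' : X.ic c ∅ = 0 := by rw [CovD.ic_apply, h0, map_zero]
  have e1 : V.Lc c - V'.Lc c = X.dc (Hc V V' c) + Hc V V' (X.dc c) := by
    funext J
    change LL A (V.V J J) (c J) - LL A (V'.V J J) (c J) =
      dd A (cz A (V.V J J - V'.V J J) (c J)) + cz A (V.V J J - V'.V J J) (dd A (c J))
    rcases J.eq_empty_or_nonempty with hJ | hJ
    · subst hJ
      rw [h0, map_zero, map_zero, map_zero, map_zero, map_zero, sub_zero, add_zero]
    · exact LL_sub (V'.pc hJ (Finset.Subset.refl J)) (fun a => by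
        rw [V.base J J hJ (Finset.Subset.refl J), V'.base J J hJ (Finset.Subset.refl J)]) _
  have e2 : V.Ic (X.ic c) - V'.Ic (X.ic c) = X.del (Hc V V' (X.ic c)) -
      Hc V V' (X.del (X.ic c)) := by
    funext J
    change V.Ic (X.ic c) J - V'.Ic (X.ic c) J = X.del (Hc V V' (X.ic c)) J -
      cz A (V.V J J - V'.V J J) (X.del (X.ic c) J)
    rw [Ic_apply, Ic_apply, CovD.del_apply, CovD.del_apply, map_sum, ← Finset.sum_sub_distrib,
      ← Finset.sum_sub_distrib]
    refine Finset.sum_congr rfl fun j hj => ?_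
    rw [map_zsmul, ← smul_sub, ← smul_sub, ev_Hc V V' h0' (Finset.erase_subset j J)]
    congr 1
    rcases (J.erase j).eq_empty_or_nonempty with hK | hK
    · rw [hK, CovD.ev_eq_zero h0', map_zero, map_zero, map_zero, map_zero, sub_zero]
    · have hJ : J.Nonempty := ⟨j, hj⟩
      have hs : J.erase j ⊆ J := Finset.erase_subset j J
      have hr := Finset.Subset.refl J
      have b1 := V.base _ J hK hs
      have b2 := V.base J J hJ hr
      have b3 := V'.base _ J hK hs
      have b4 := V'.base J J hJ hr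
      have f1 := cz_sub (D := V.V (J.erase j) J) (D' := V.V J J) (D'' := V'.V J J)
        (fun a => by rw [b1, b2]) (fun a => by rw [b2, b4]) (X.ev (X.ic c) (J.erase j) J)
      have f2 := cz_sub (D := V.V (J.erase j) J) (D' := V'.V (J.erase j) J) (D'' := V'.V J J)
        (fun a => by rw [b1, b3]) (fun a => by rw [b3, b4]) (X.ev (X.ic c) (J.erase j) J)
      rw [sub_eq_sub_iff_add_eq_add, ← f1, f2, add_comm]
  have e3 : Hc V V' (X.ic c) = -X.ic (Hc V V' c) := by
    funext J
    exact cz_inv _ _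
  unfold Gm
  rw [CovD.Dt_apply, CovD.Dt_apply, map_add]
  have e4 : X.del (X.ic (Hc V V' c)) = -X.del (Hc V V' (X.ic c)) := by
    rw [e3, map_neg, neg_neg]
  rw [e4]
  calc V.Lc c - V.Ic (X.ic c) - (V'.Lc c - V'.Ic (X.ic c)) =
      (V.Lc c - V'.Lc c) - (V.Ic (X.ic c) - V'.Ic (X.ic c)) := by abel
    _ = _ := by
      rw [e1, e2]
      abel

end Lft

end MPadcGP
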