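import Pool.Agent.Lib.MP_adc574_ag_GP.GlGen

/-!
# GP: the linear data over `A` (PART GL1a)
-/

set_option autoImplicit false

namespace MPadcGP

universe u v w x

/-- Every cocycle is a combination of the adapted basis up to a coboundary. -/
theorem IsAd.exists_coord {A : Type u} [CommRing A] {n : ℕ} {X : CovD.{u, v} A n} {β : ℕ → Type}
    [∀ m, Fintype (β m)] {lev : ∀ m, β m → ℕ} {z : ∀ m, β m → X.Ch} (h : IsAd X lev z) (m : ℕ)
    {x : X.Ch} (hx : x ∈ X.Zc m) : ∃ c : β m → A, x - ∑ b, c b • z m b ∈ X.Bc m := by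
  obtain ⟨c, -, hc⟩ := h.gen m 0 x (by rw [CovD.Fi_zero]; exact hx.1) hx.2
  exact ⟨c, hc⟩

variable {A : Type u} [CommRing A] {n : ℕ} {I : Ideal (MvPolynomial (Fin n) A)} {β : ℕ → Type}
    [∀ m, Fintype (β m)] {lev : ∀ m, β m → ℕ}
    {z : ∀ m, β m → (prC I).Ch} {h : ℕ → ℕ → ℕ}

/-- PART GL1a: the linear data. `S m j`: sets of logarithmic cocycles. -/
theorem exists_rel (hD : Dat I lev z h) {N : ℕ} {D : Fin N → Derivation ℤ A A}
    (V : ∀ l, Lft (prC I) (D l)) (S : ∀ _ _ : ℕ, Set (prC I).Ch)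
    (hS : ∀ m j, ∀ c ∈ S m j, IsLogCoc (prC I) m j c) :
    ∃ (G : ∀ m, Fin N → β m → β m → A) (mu : ∀ m m', β m → β m' → β (m + m') → A)
      (Lg : ∀ m : ℕ, ℕ → Set (β m → A)), LinRel I z V G mu Lg ∧
        ∀ m j, ∀ c ∈ S m j, ∃ g ∈ Lg m j, c - ∑ b, g b • z m b ∈ (prC I).Bc m := by
  have h1 : ∀ m l b, ∃ c : β m → A, (V l).Gm (z m b) - ∑ b', c b' • z m b' ∈ (prC I).Bc m :=
    fun m l b => hD.self.exists_coord m (Lft.Gm_mem_Zc (V l) (hD.self.mem_Zc m b))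
  choose G hG using h1
  have h2 : ∀ m m' a b, ∃ c : β (m + m') → A,
      (prC I).cup (z m a) (z m' b) - ∑ e, c e • z (m + m') e ∈ (prC I).Bc (m + m') :=
    fun m m' a b => hD.self.exists_coord (m + m')
      (CovD.cup_mem_Zc (hD.self.mem_Zc m a) (hD.self.mem_Zc m' b))
  choose mu hmu using h2
  refine ⟨fun m l b' b => G m l b b', mu,
    fun m j => {g | ∃ c ∈ S m j, c - ∑ b, g b • z m b ∈ (prC I).Bc m}, ⟨hG, hmu, ?_⟩, ?_⟩
  · rintro m j g ⟨c, hc, hg⟩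
    exact ⟨c, hS m j c hc, hg⟩
  · intro m j c hc
    obtain ⟨g, hg⟩ := hD.self.exists_coord m (hS m j c hc).1
    exact ⟨g, ⟨c, hc, hg⟩, hg⟩

end MPadcGP
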