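import Pool.Agent.Lib.MP_adc574_ag_GP.GrA
import Pool.Agent.Lib.MP_adc574_ag_GP.Hom
import Pool.Agent.Lib.MP_adc574_ag_GP.Cup

/-!
# GP2: graded cover data

`GrX X M`: gradings of the rings of the cover data `X` by the finite abelian group `M`, compatible with the
restrictions. `W.P μ`: the projector on the cochains of weight `μ`; `W.Wt μ`: the cochains of weight `μ`.
-/

set_option autoImplicit false
set_option linter.unusedSectionVars false

namespace MPadcGP

universe u v w x y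

/-- Gradings of the rings of a cover data, compatible with the restrictions. -/
structure GrX {A : Type u} [CommRing A] {n : ℕ} (X : CovD.{u, v} A n) (M : Type y) [AddCommGroup M]
    [Fintype M] where
  /-- The gradings. -/
  G : ∀ J, Grd A (X.R J) M
  comm : ∀ {J K : Finset (Fin n)} (h : J ⊆ K) (μ : M) (r : X.R J),
    (G K).c μ (X.ρ h r) = X.ρ h ((G J).c μ r)

namespace GrX

variable {A : Type u} [CommRing A] {n : ℕ} {X : CovD.{u, v} A n} {M : Type y} [AddCommGroup M]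
  [Fintype M] [DecidableEq M] (W : GrX X M)

/-- The projector on the cochains of weight `μ`. -/
noncomputable def P (μ : M) : X.Ch →ₗ[A] X.Ch where
  toFun c J := wp (W.G J) μ (c J)
  map_add' b c := by
    funext J
    exact wp_add _ _ _ _
  map_smul' a c := by
    funext J
    rw [Pi.smul_apply, smul_fm, wp_fz_base_mul, ← smul_fm]
    rfl

theorem P_apply (μ : M) (c : X.Ch) (J : Finset (Fin n)) : W.P μ c J = wp (W.G J) μ (c J) := rfl

/-- The cochains of weight `μ`. -/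
noncomputable def Wt (μ : M) : Submodule A X.Ch := LinearMap.eqLocus (W.P μ) LinearMap.id

theorem mem_Wt {μ : M} {c : X.Ch} : c ∈ W.Wt μ ↔ W.P μ c = c := Iff.rfl

theorem P_P (ν μ : M) (c : X.Ch) : W.P ν (W.P μ c) = if ν = μ then W.P μ c else 0 := by
  funext J
  rw [P_apply, P_apply, wp_wp]
  split_ifs
  · rfl
  · rfl

theorem P_mem (μ : M) (c : X.Ch) : W.P μ c ∈ W.Wt μ := by
  rw [mem_Wt, P_P, if_pos rfl]

theorem P_of_mem {μ ν : M} {c : X.Ch} (hc : c ∈ W.Wt μ) : W.P ν c = if ν = μ then c else 0 := by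
  have h := W.P_P ν μ c
  rw [W.mem_Wt.1 hc] at h
  exact h

theorem sum_P (c : X.Ch) : ∑ μ, W.P μ c = c := by
  funext J
  rw [Finset.sum_apply]
  exact sum_wp (W.G J) (c J)

theorem wp_rs {J K : Finset (Fin n)} (h : J ⊆ K) (μ : M) (e : X.E J) :
    wp (W.G K) μ (X.rs h e) = X.rs h (wp (W.G J) μ e) := by
  unfold CovD.rs
  exact wp_mp (W.G J) (W.G K) _ (fun μ r => W.comm h μ r) μ e

theorem ev_P (μ : M) (c : X.Ch) (K J : Finset (Fin n)) :
    X.ev (W.P μ c) K J = wp (W.G J) μ (X.ev c K J) := by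
  by_cases h : K ⊆ J
  · rw [CovD.ev_of h, CovD.ev_of h, wp_rs]
    rfl
  · unfold CovD.ev
    rw [dif_neg h, dif_neg h, wp_zero]

theorem P_dc (μ : M) (c : X.Ch) : W.P μ (X.dc c) = X.dc (W.P μ c) := by
  funext J
  rw [P_apply, CovD.dc_apply, CovD.dc_apply, P_apply, wp_dd]

theorem P_ic (μ : M) (c : X.Ch) : W.P μ (X.ic c) = X.ic (W.P μ c) := by
  funext J
  rw [P_apply, CovD.ic_apply, CovD.ic_apply, P_apply, wp_inv]

theorem P_del (μ : M) (c : X.Ch) : W.P μ (X.del c) = X.del (W.P μ c) := by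
  funext J
  rw [P_apply, CovD.del_apply, CovD.del_apply, wp_sum]
  refine Finset.sum_congr rfl fun j _ => ?_
  rw [wp_zsmul, ev_P]

theorem P_Dt (μ : M) (c : X.Ch) : W.P μ (X.Dt c) = X.Dt (W.P μ c) := by
  rw [CovD.Dt_apply, CovD.Dt_apply, map_add, P_dc, P_del, P_ic]

theorem P_mem_Tt {m : ℕ} {c : X.Ch} (hc : c ∈ X.Tt m) (μ : M) : W.P μ c ∈ X.Tt m := by
  refine ⟨by rw [P_apply, hc.1, wp_zero], fun J => ⟨fun q hq => ?_, fun h => ?_⟩⟩
  · exact wp_mem _ ((hc.2 J).1 q hq) μ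
  · rw [P_apply, (hc.2 J).2 h, wp_zero]

theorem P_mem_Fi {i m : ℕ} {c : X.Ch} (hc : c ∈ X.Fi i m) (μ : M) : W.P μ c ∈ X.Fi i m :=
  ⟨W.P_mem_Tt hc.1 μ, fun J hJ => by rw [P_apply, hc.2 J hJ, wp_zero]⟩

theorem P_mem_Ni {i m : ℕ} {c : X.Ch} (hc : c ∈ X.Ni i m) (μ : M) : W.P μ c ∈ X.Ni i m :=
  ⟨W.P_mem_Tt hc.1 μ, fun J => ⟨fun hJ => by rw [P_apply, (hc.2 J).1 hJ, wp_zero], fun hJ => by
    rw [P_apply, ← wp_dd, (hc.2 J).2 hJ, wp_zero]⟩⟩

theorem Dt_mem_Wt {μ : M} {c : X.Ch} (hc : c ∈ W.Wt μ) : X.Dt c ∈ W.Wt μ := by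
  rw [mem_Wt, P_Dt, W.mem_Wt.1 hc]

theorem wp_it {R : Type*} [CommRing R] [Algebra A R] (G : Grd A R M) (p : ℕ) (μ : M) (e : Fm A R) :
    wp G μ (it A p e) = it A p (wp G μ e) := by
  by_cases h : Even p
  · rw [it_even A h, it_even A h]
  · rw [it_odd A h, it_odd A h, wp_inv]

/-- The weight components of a cup product. -/
theorem P_cup (μ : M) (a b : X.Ch) :
    W.P μ (X.cup a b) = ∑ ν, X.cup (W.P ν a) (W.P (μ - ν) b) := by
  funext J
  rw [P_apply, CovD.cup_apply, wp_sum, Finset.sum_apply]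
  have h1 : ∀ s ∈ J, wp (W.G J) μ (X.ev a (J.filter (· ≤ s)) J *
      it A (J.filter (· < s)).card (X.ev b (J.filter (s ≤ ·)) J)) =
      ∑ ν, X.ev (W.P ν a) (J.filter (· ≤ s)) J *
        it A (J.filter (· < s)).card (X.ev (W.P (μ - ν) b) (J.filter (s ≤ ·)) J) := by
    intro s _
    rw [wp_mul]
    refine Finset.sum_congr rfl fun ν _ => ?_
    rw [wp_it, ev_P, ev_P]
  rw [Finset.sum_congr rfl h1, Finset.sum_comm]
  rfl

theorem cup_mem_Wt {μ ν : M} {a b : X.Ch} (ha : a ∈ W.Wt μ) (hb : b ∈ W.Wt ν) :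
    X.cup a b ∈ W.Wt (μ + ν) := by
  rw [mem_Wt, P_cup, Finset.sum_eq_single μ]
  · rw [W.P_of_mem ha, W.P_of_mem hb, if_pos rfl, if_pos (add_sub_cancel_left μ ν)]
  · intro κ _ hκ
    rw [W.P_of_mem ha, if_neg hκ]
    have h := CovD.cup_smul_left (X := X) (0 : A) (0 : X.Ch) (W.P (μ + ν - κ) b)
    rw [zero_smul, zero_smul] at h
    exact h
  · intro h
    exact absurd (Finset.mem_univ _) h

section lft

variable {D : Derivation ℤ A A}

/-- The lift has weight 0. -/
def IsGr (V : Lft X D) : Prop :=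
  ∀ K J : Finset (Fin n), K.Nonempty → K ⊆ J → ∀ (μ : M) (r : X.R J),
    (W.G J).c μ (V.V K J r) = V.V K J ((W.G J).c μ r)

theorem wp_cz {R : Type*} [CommRing R] [Algebra A R] (G : Grd A R M) {D : Derivation ℤ R R}
    (hc : ∀ μ r, G.c μ (D r) = D (G.c μ r)) (μ : M) (e : Fm A R) :
    wp G μ (cz A D e) = cz A D (wp G μ e) := by
  by_cases h : ∀ a : A, D (algebraMap A R a) = 0
  · rw [cz_of h, cz_of h]
    exact wp_ct G _ hc μ e
  · unfold cz
    rw [dif_neg h, AddMonoidHom.zero_apply, AddMonoidHom.zero_apply, wp_zero]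

/-- The connection respects the weights, for a lift of weight 0. -/
theorem P_Gm {V : Lft X D} (hV : W.IsGr V) (μ : M) {c : X.Ch} (h0 : c ∅ = 0) :
    W.P μ (V.Gm c) = V.Gm (W.P μ c) := by
  have h0' : W.P μ c ∅ = 0 := by rw [P_apply, h0, wp_zero]
  unfold Lft.Gm
  rw [map_sub]
  congr 1
  · funext J
    rw [P_apply, Lft.Lc_apply, Lft.Lc_apply]
    rcases J.eq_empty_or_nonempty with hJ | hJ
    · subst hJ
      rw [h0, h0', map_zero, wp_zero]
    · rw [wp_LL (W.G J) (V.pc hJ (Finset.Subset.refl J)) (hV J J hJ (Finset.Subset.refl J))]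
      rfl
  · funext J
    rw [P_apply, Lft.Ic_apply, Lft.Ic_apply, wp_sum]
    refine Finset.sum_congr rfl fun j hj => ?_
    rw [wp_zsmul, ← P_ic, ev_P]
    congr 1
    rcases (J.erase j).eq_empty_or_nonempty with hJ | hJ
    · have h1 : X.ic c (J.erase j) = 0 := by
        rw [CovD.ic_apply, hJ, h0, map_zero]
      rw [CovD.ev_eq_zero h1, map_zero, wp_zero, map_zero]
    · refine wp_cz (W.G J) (fun μ r => ?_) μ _
      have h2 : J.Nonempty := ⟨j, hj⟩
      rw [Derivation.sub_apply, Derivation.sub_apply, ← hV _ J hJ (Finset.erase_subset j J),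
        ← hV J J h2 (Finset.Subset.refl J)]
      exact map_sub ((W.G J).cadd μ) _ _

/-- Lifts of weight 0 exist. -/
theorem exists_isGr (V : Lft X D) : ∃ V' : Lft X D, W.IsGr V' := by
  have h1 : ∀ K J : Finset (Fin n), ∃ D' : Derivation ℤ (X.R J) (X.R J), ∀ r,
      D' r = ∑ μ, (W.G J).c μ (V.V K J ((W.G J).c μ r)) := by
    intro K J
    let f : X.R J →+ X.R J :=
      { toFun := fun r => ∑ μ, (W.G J).c μ (V.V K J ((W.G J).c μ r))
        map_zero' := by
          refine Finset.sum_eq_zero fun μ _ => ?_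
          rw [(W.G J).c_zero, map_zero, (W.G J).c_zero]
        map_add' := fun r s => by
          rw [← Finset.sum_add_distrib]
          refine Finset.sum_congr rfl fun μ _ => ?_
          rw [(W.G J).c_add, map_add, (W.G J).c_add] }
    refine ⟨Derivation.mk' f.toIntLinearMap fun r s => ?_, fun r => rfl⟩
    change ∑ μ, (W.G J).c μ (V.V K J ((W.G J).c μ (r * s))) =
      r * (∑ μ, (W.G J).c μ (V.V K J ((W.G J).c μ s))) +
        s * ∑ μ, (W.G J).c μ (V.V K J ((W.G J).c μ r))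
    have e1 : ∀ μ, (W.G J).c μ (V.V K J ((W.G J).c μ (r * s))) =
        ∑ ν, ((W.G J).c ν r * (W.G J).c (μ - ν) (V.V K J ((W.G J).c (μ - ν) s)) +
          (W.G J).c (μ - ν) s * (W.G J).c ν (V.V K J ((W.G J).c ν r))) := by
      intro μ
      rw [(W.G J).c_mul, map_sum]
      have e2 := map_sum ((W.G J).cadd μ)
        (fun ν => V.V K J ((W.G J).c ν r * (W.G J).c (μ - ν) s)) Finset.univ
      refine e2.trans (Finset.sum_congr rfl fun ν _ => ?_)
      change (W.G J).c μ (V.V K J ((W.G J).c ν r * (W.G J).c (μ - ν) s)) = _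
      rw [Derivation.leibniz, smul_eq_mul, smul_eq_mul, (W.G J).c_add, (W.G J).c_mul,
        (W.G J).c_mul, Finset.sum_eq_single ν, Finset.sum_eq_single (μ - ν)]
      · rw [(W.G J).c_c, if_pos rfl, (W.G J).c_c, if_pos rfl, sub_sub_cancel]
      · intro κ _ hκ
        rw [(W.G J).c_c, if_neg hκ, zero_mul]
      · intro h
        exact absurd (Finset.mem_univ _) h
      · intro κ _ hκ
        rw [(W.G J).c_c, if_neg hκ, zero_mul]
      · intro h
        exact absurd (Finset.mem_univ _) h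
    rw [Finset.sum_congr rfl fun μ _ => e1 μ,
      gra_conv (fun ν κ => (W.G J).c ν r * (W.G J).c κ (V.V K J ((W.G J).c κ s)) +
          (W.G J).c κ s * (W.G J).c ν (V.V K J ((W.G J).c ν r)))]
    simp only [Finset.sum_add_distrib]
    rw [← Finset.sum_mul_sum, (W.G J).sum_c, Finset.sum_comm, ← Finset.sum_mul_sum, (W.G J).sum_c]
  choose V' hV' using h1
  have hVb : ∀ K J : Finset (Fin n), K.Nonempty → K ⊆ J → ∀ a : A,
      V' K J (algebraMap A (X.R J) a) = algebraMap A (X.R J) (D a) := by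
    intro K J hK hJ a
    rw [hV', Finset.sum_eq_single 0]
    · rw [(W.G J).c_base, if_pos rfl, V.base K J hK hJ, (W.G J).c_base, if_pos rfl]
    · intro μ _ hμ
      rw [(W.G J).c_base, if_neg hμ, map_zero, (W.G J).c_zero]
    · intro h
      exact absurd (Finset.mem_univ _) h
  refine ⟨⟨V', hVb, fun K J L hK hJ h x => ?_⟩, fun K J _ _ μ r => ?_⟩
  · rw [hV', hV', map_sum]
    refine Finset.sum_congr rfl fun μ _ => ?_
    rw [← W.comm, V.comm K J L hK hJ h, W.comm]
  · change (W.G J).c μ (V' K J r) = V' K J ((W.G J).c μ r)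
    have e1 : V' K J ((W.G J).c μ r) = (W.G J).c μ (V.V K J ((W.G J).c μ r)) := by
      rw [hV', Finset.sum_eq_single μ]
      · rw [(W.G J).c_c, if_pos rfl]
      · intro ν _ hν
        rw [(W.G J).c_c, if_neg hν, map_zero, (W.G J).c_zero]
      · intro h
        exact absurd (Finset.mem_univ _) h
    have e2 : (W.G J).c μ (V' K J r) = (W.G J).c μ (V.V K J ((W.G J).c μ r)) := by
      rw [hV']
      refine (map_sum ((W.G J).cadd μ)
        (fun ν => (W.G J).c ν (V.V K J ((W.G J).c ν r))) Finset.univ).trans ?_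
      change ∑ ν, (W.G J).c μ ((W.G J).c ν (V.V K J ((W.G J).c ν r))) = _
      rw [Finset.sum_eq_single μ]
      · rw [(W.G J).c_c, if_pos rfl]
      · intro ν _ hν
        rw [(W.G J).c_c, if_neg (Ne.symm hν)]
      · intro h
        exact absurd (Finset.mem_univ _) h
    rw [e1, e2]

end lft

section push

variable {B : Type w} [CommRing B] {f : A →+* B} {Y : CovD.{w, x} B n}

/-- The morphism respects the gradings. -/
def HmGr (W : GrX X M) (W' : GrX Y M) (F : CovD.Hm f X Y) : Prop :=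
  ∀ (J : Finset (Fin n)) (μ : M) (r : X.R J), (W'.G J).c μ (F.h J r) = F.h J ((W.G J).c μ r)

variable {W} {W' : GrX Y M} {F : CovD.Hm f X Y}

theorem HmGr.push_P (h : HmGr W W' F) (μ : M) (c : X.Ch) : F.push (W.P μ c) = W'.P μ (F.push c) := by
  funext J
  rw [CovD.Hm.push_apply, P_apply, P_apply, CovD.Hm.push_apply]
  exact (wp_mp (W.G J) (W'.G J) (F.cc J) (fun μ r => h J μ r) μ (c J)).symm

theorem HmGr.push_mem (h : HmGr W W' F) {μ : M} {c : X.Ch} (hc : c ∈ W.Wt μ) :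
    F.push c ∈ W'.Wt μ := by
  rw [mem_Wt, ← h.push_P, W.mem_Wt.1 hc]

end push

end GrX

end MPadcGP
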