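import Pool.Agent.Lib.MP_adc574_ag_GP.GrB
import Pool.Agent.Lib.MP_adc574_ag_GP.Conj

/-!
# GP2: the Cartier map and the weights

If multiplication by `p` is injective on the group `M` of the weights then a representative `z` of `γ (x)` has as
component of weight `p μ` a representative of the component of weight `μ` of `x`.
-/

set_option autoImplicit false
set_option linter.unusedSectionVars false

namespace MPadcGP

universe u v w x y

section rep

variable {p : ℕ} [hp : Fact p.Prime] {A : Type u} {R : Type v} [CommRing A] [CharP A p] [CommRing R]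
  [Algebra A R] {M : Type y} [AddCommGroup M] [Fintype M] [DecidableEq M] (G : Grd A R M)

theorem Grd.c_pow (μ ν : M) (r : R) (k : ℕ) :
    G.c ν (G.c μ r ^ k) = if ν = k • μ then G.c μ r ^ k else 0 := by
  induction k generalizing ν with
  | zero =>
    rw [pow_zero, zero_smul]
    have h := G.c_base ν (1 : A)
    rw [map_one] at h
    exact h
  | succ k ih =>
    rw [pow_succ, G.c_mul, Finset.sum_eq_single (k • μ)]
    · rw [ih, if_pos rfl, G.c_c]
      have e : (ν - k • μ = μ) ↔ ν = (k + 1) • μ := by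
        rw [sub_eq_iff_eq_add, succ_nsmul, add_comm]
      rw [if_congr e rfl rfl]
      split_ifs
      · rfl
      · rw [mul_zero]
    · intro κ _ hκ
      rw [ih, if_neg hκ, zero_mul]
    · intro h
      exact absurd (Finset.mem_univ _) h

/-- A representative of `γ (x)` compatible with the weights. -/
private theorem rep_exists (hM : Function.Injective fun μ : M => p • μ) (x : Fm A R) :
    ∃ z, Rep p x z ∧ ∀ μ, Rep p (wp G μ x) (wp G (p • μ) z) := by
  have hbij : Function.Bijective fun μ : M => p • μ := Finite.injective_iff_bijective.1 hM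
  -- homogeneous elements
  have key : ∀ (κ : M) (x z : Fm A R), (∀ μ, wp G μ x = if μ = κ then x else 0) →
      (∀ μ, wp G μ z = if μ = p • κ then z else 0) → Rep p x z →
      ∀ μ, Rep p (wp G μ x) (wp G (p • μ) z) := by
    intro κ x z hx hz h μ
    rw [hx, hz]
    by_cases e : μ = κ
    · rw [if_pos e, if_pos (by rw [e])]
      exact h
    · rw [if_neg e, if_neg fun e' => e (hM e')]
      exact Rep.zero
  have hsum : ∀ (x z : M → Fm A R), (∀ κ μ, wp G μ (x κ) = if μ = κ then x κ else 0) →
      (∀ κ μ, wp G μ (z κ) = if μ = p • κ then z κ else 0) → (∀ κ, Rep p (x κ) (z κ)) →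
      Rep p (∑ κ, x κ) (∑ κ, z κ) ∧ ∀ μ, Rep p (wp G μ (∑ κ, x κ)) (wp G (p • μ) (∑ κ, z κ)) := by
    intro x z hx hz h
    refine ⟨Rep.sum _ fun κ _ => h κ, fun μ => ?_⟩
    rw [wp_sum, wp_sum]
    exact Rep.sum _ fun κ _ => key κ _ _ (hx κ) (hz κ) (h κ) μ
  induction x using fm_ind with
  | h1 r =>
    have h1 := hsum (fun κ => fz A (G.c κ r)) (fun κ => fz A (G.c κ r ^ p))
      (fun κ μ => by
        rw [wp_fz, G.c_c]
        split_ifs
        · rfl
        · rw [map_zero])
      (fun κ μ => by
        rw [wp_fz, G.c_pow]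
        split_ifs
        · rfl
        · rw [map_zero])
      (fun κ => Rep.fz _)
    have e : ∑ κ, fz A (G.c κ r) = fz A r := by rw [← map_sum, G.sum_c]
    rw [e] at h1
    exact ⟨_, h1⟩
  | h2 t =>
    have hp1 : 1 ≤ p := hp.out.one_lt.le
    have h1 := hsum (fun κ => df A (G.c κ t)) (fun κ => fz A (G.c κ t ^ (p - 1)) * df A (G.c κ t))
      (fun κ μ => by
        rw [wp_df, G.c_c]
        split_ifs
        · rfl
        · rw [df_zero])
      (fun κ μ => by
        rw [wp_mul, Finset.sum_eq_single ((p - 1) • κ)]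
        · rw [wp_fz, G.c_pow, if_pos rfl, wp_df, G.c_c]
          have e : (μ - (p - 1) • κ = κ) ↔ μ = p • κ := by
            rw [sub_eq_iff_eq_add]
            have e2 : κ + (p - 1) • κ = p • κ := by
              rw [add_comm, ← succ_nsmul, Nat.sub_add_cancel hp1]
            rw [e2]
          rw [if_congr e rfl rfl]
          split_ifs
          · rfl
          · rw [df_zero, mul_zero]
        · intro ν _ hν
          rw [wp_fz, G.c_pow, if_neg hν, map_zero, zero_mul]
        · intro h
          exact absurd (Finset.mem_univ _) h)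
      (fun κ => Rep.df _)
    have e : ∑ κ, df A (G.c κ t) = df A t := by
      have h2 := map_sum ({ toFun := df A, map_zero' := df_zero, map_add' := df_add } : R →+ Fm A R)
        (fun μ => G.c μ t) Finset.univ
      rw [G.sum_c] at h2
      exact h2.symm
    rw [e] at h1
    exact ⟨_, h1⟩
  | h3 a b ha hb =>
    obtain ⟨z, h1, h2⟩ := ha
    obtain ⟨w, h3, h4⟩ := hb
    refine ⟨z * w, h1.mul h3, fun μ => ?_⟩
    have e : wp G (p • μ) (z * w) = ∑ κ, wp G (p • κ) z * wp G (p • (μ - κ)) w := by
      rw [wp_mul]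
      refine (Fintype.sum_bijective (fun κ : M => p • κ) hbij _ _ fun κ => ?_).symm
      rw [smul_sub]
    rw [wp_mul, e]
    exact Rep.sum _ fun κ _ => (h2 κ).mul (h4 (μ - κ))
  | h4 a b ha hb =>
    obtain ⟨z, h1, h2⟩ := ha
    obtain ⟨w, h3, h4⟩ := hb
    refine ⟨z + w, h1.add h3, fun μ => ?_⟩
    rw [wp_add, wp_add]
    exact (h2 μ).add (h4 μ)

/-- The Cartier map multiplies the weights by `p`. -/
theorem Rep.wp (hM : Function.Injective fun μ : M => p • μ) {x z : Fm A R} (h : Rep p x z) (μ : M) :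
    Rep p (MPadcGP.wp G μ x) (MPadcGP.wp G (p • μ) z) := by
  obtain ⟨w, h1, h2⟩ := rep_exists (p := p) G hM x
  obtain ⟨g, hg⟩ := h.exact_sub h1
  have e : z = w + dd A g := by
    rw [hg]
    abel
  have h3 := (h2 μ).add (Rep.of_exact (p := p) ⟨MPadcGP.wp G (p • μ) g, rfl⟩)
  rw [add_zero, ← wp_dd, ← wp_add, ← e] at h3
  exact h3

end rep

namespace CovD

variable {κ : Type u} [Field κ] {n : ℕ} {X : CovD.{u, v} κ n} {M : Type y} [AddCommGroup M]
  [Fintype M] [DecidableEq M] (W : GrX X M) {p : ℕ} [hp : Fact p.Prime] [CharP κ p]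

theorem RepC.P (hM : Function.Injective fun μ : M => p • μ) {a m : ℕ} {x z : X.Ch}
    (h : RepC p a m x z) (μ : M) : RepC p a m (W.P μ x) (W.P (p • μ) z) where
  x0 := by rw [W.P_apply, h.x0, wp_zero]
  z0 := by rw [W.P_apply, h.z0, wp_zero]
  xm J hJ := wp_mem _ (h.xm J hJ) μ
  zm J hJ := wp_mem _ (h.zm J hJ) _
  rep J hJ := (h.rep J hJ).wp (W.G J) hM μ
  zz J hJ := by rw [W.P_apply, h.zz J hJ, wp_zero]

end CovD

end MPadcGP
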