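import Pool.Agent.Lib.MP_adc574_ag_GP.GrA
import Pool.Agent.Lib.MP_adc574_ag_GP.Cov

/-!
# GP2: the literal definition of the weights, abstract version

`R` an algebra graded by `M`, generated by homogeneous elements `q l j` of weight `wt l j`.
-/

set_option autoImplicit false

namespace MPadcGP2

open MPadcGP

universe u v w x y

variable {A : Type u} {R : Type v} {M : Type y} [CommRing A] [CommRing R] [Algebra A R]
  [AddCommGroup M] [Fintype M] [DecidableEq M] (G : Grd A R M)

theorem wp_gnA {x : R} {ν : M} (hx : ∀ μ, G.c μ x = if ν = μ then x else 0) (s : Bool) (μ : M) :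
    wp G μ (bif s then df A x else fz A x) = if ν = μ then (bif s then df A x else fz A x) else 0 := by
  cases s with
  | false =>
    change wp G μ (fz A x) = if _ then fz A x else 0
    rw [wp_fz, hx]
    split_ifs
    · rfl
    · rw [map_zero]
  | true =>
    change wp G μ (df A x) = if _ then df A x else 0
    rw [wp_df, hx]
    split_ifs
    · rfl
    · rw [df_zero]

theorem wp_gnA_mul {x : R} {ν : M} (hx : ∀ μ, G.c μ x = if ν = μ then x else 0) (s : Bool) (v : Fm A R) (μ : M) :
    wp G μ ((bif s then df A x else fz A x) * v) = (bif s then df A x else fz A x) * wp G (μ - ν) v := by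
  rw [wp_mul, Finset.sum_eq_single ν]
  · rw [wp_gnA G hx, if_pos rfl]
  · intro ν' _ hν
    rw [wp_gnA G hx, if_neg fun h => hν h.symm, zero_mul]
  · intro h
    exact absurd (Finset.mem_univ _) h

section gen

variable {Λ Θ : Type} {q : Λ → Θ → R} {wt : Λ → Θ → M}

/-- The forms of weight `μ`. -/
noncomputable def wtF (A : Type u) [CommRing A] [Algebra A R] (q : Λ → Θ → R) (wt : Λ → Θ → M) (μ : M) :
    Submodule A (Fm A R) :=
  Submodule.span A {ω | ∃ (r : ℕ) (s : Fin r → Bool) (l : Fin r → Λ) (j : Fin r → Θ),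
    ω = (List.ofFn fun t => bif s t then df A (q (l t) (j t)) else fz A (q (l t) (j t))).prod ∧
      ∑ t, wt (l t) (j t) = μ}

omit [Fintype M] [DecidableEq M] in
theorem wtF_mul_mem (s : Bool) (l : Λ) (j : Θ) {v : Fm A R} {μ : M} (hv : v ∈ wtF A q wt (μ - wt l j)) :
    (bif s then df A (q l j) else fz A (q l j)) * v ∈ wtF A q wt μ := by
  unfold wtF at hv
  induction hv using Submodule.span_induction with
  | mem x hx =>
    obtain ⟨r, s', l', j', rfl, h⟩ := hx
    refine Submodule.subset_span ⟨r + 1, Fin.cons s s', Fin.cons l l', Fin.cons j j', ?_, ?_⟩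
    · rw [List.ofFn_succ, List.prod_cons]
      rfl
    · rw [Fin.sum_univ_succ]
      simp only [Fin.cons_zero, Fin.cons_succ]
      rw [h]
      abel
  | zero =>
    rw [mul_zero]
    exact Submodule.zero_mem _
  | add x y _ _ hx hy =>
    rw [mul_add]
    exact Submodule.add_mem _ hx hy
  | smul a x _ hx =>
    rw [mul_smul_comm]
    exact Submodule.smul_mem _ a hx

theorem wp_of_memF (hq : ∀ l j μ, G.c μ (q l j) = if wt l j = μ then q l j else 0) {e : Fm A R} {μ : M}
    (he : e ∈ wtF A q wt μ) : wp G μ e = e := by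
  unfold wtF at he
  induction he using Submodule.span_induction with
  | mem x hx =>
    obtain ⟨r, s, l, j, rfl, h⟩ := hx
    induction r generalizing μ with
    | zero =>
      rw [Finset.univ_eq_empty, Finset.sum_empty] at h
      rw [List.ofFn_zero, List.prod_nil, ← map_one (fz A), wp_fz, ← h]
      congr 1
      have h1 := G.c_base 0 (1 : A)
      rw [if_pos rfl, map_one] at h1
      exact h1
    | succ r ih =>
      rw [Fin.sum_univ_succ] at h
      rw [List.ofFn_succ, List.prod_cons, wp_gnA_mul G (fun μ => hq (l 0) (j 0) μ), ih _ _ _ (by rw [← h]; abel)]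
  | zero => exact wp_zero _ _
  | add x y _ _ hx hy => rw [wp_add, hx, hy]
  | smul a x _ hx => rw [smul_fm, wp_fz_base_mul, hx]

/-- The forms whose left multiplications preserve the literal weights. -/
private def QA (q : Λ → Θ → R) (wt : Λ → Θ → M) (e : Fm A R) : Prop :=
  ∀ v : Fm A R, (∀ μ, wp G μ v ∈ wtF A q wt μ) → ∀ μ, wp G μ (e * v) ∈ wtF A q wt μ

private theorem QA_gnr (hq : ∀ l j μ, G.c μ (q l j) = if wt l j = μ then q l j else 0) (s : Bool) (l : Λ) (j : Θ) :
    QA G q wt (bif s then df A (q l j) else fz A (q l j)) := by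
  intro v hv μ
  rw [wp_gnA_mul G (fun μ => hq l j μ)]
  exact wtF_mul_mem s l j (hv _)

private theorem QA_mul {a b : Fm A R} (ha : QA G q wt a) (hb : QA G q wt b) : QA G q wt (a * b) := by
  intro v hv μ
  rw [mul_assoc]
  exact ha _ (hb v hv) μ

private theorem QA_add {a b : Fm A R} (ha : QA G q wt a) (hb : QA G q wt b) : QA G q wt (a + b) := by
  intro v hv μ
  rw [add_mul, wp_add]
  exact Submodule.add_mem _ (ha v hv μ) (hb v hv μ)

private theorem QA_zero : QA G q wt (0 : Fm A R) := by
  intro v hv μ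
  rw [zero_mul, wp_zero]
  exact Submodule.zero_mem _

private theorem QA_fz (hind : ∀ P : R → Prop, (∀ a, P (algebraMap A R a)) → (∀ l j, P (q l j)) →
    (∀ x y, P x → P y → P (x + y)) → (∀ x y, P x → P y → P (x * y)) → ∀ r, P r)
    (hq : ∀ l j μ, G.c μ (q l j) = if wt l j = μ then q l j else 0) (r : R) : QA G q wt (fz A r) := by
  refine hind (fun r => QA G q wt (fz A r)) (fun a v hv μ => ?_) (fun l j => QA_gnr G hq false l j) (fun x y hx hy => ?_) (fun x y hx hy => ?_) r
  · rw [wp_fz_base_mul, ← smul_fm]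
    exact Submodule.smul_mem _ a (hv μ)
  · rw [map_add]
    exact QA_add G hx hy
  · rw [map_mul]
    exact QA_mul G hx hy

private theorem QA_df (hind : ∀ P : R → Prop, (∀ a, P (algebraMap A R a)) → (∀ l j, P (q l j)) →
    (∀ x y, P x → P y → P (x + y)) → (∀ x y, P x → P y → P (x * y)) → ∀ r, P r)
    (hq : ∀ l j μ, G.c μ (q l j) = if wt l j = μ then q l j else 0) (t : R) : QA G q wt (df A t) := by
  refine hind (fun t => QA G q wt (df A t)) (fun a => ?_) (fun l j => QA_gnr G hq true l j) (fun x y hx hy => ?_) (fun x y hx hy => ?_) t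
  · rw [df_base]
    exact QA_zero G
  · rw [df_add]
    exact QA_add G hx hy
  · rw [df_mul]
    exact QA_add G (QA_mul G (QA_fz G hind hq x) hy) (QA_mul G (QA_fz G hind hq y) hx)

theorem wp_mem_wtF (hind : ∀ P : R → Prop, (∀ a, P (algebraMap A R a)) → (∀ l j, P (q l j)) →
    (∀ x y, P x → P y → P (x + y)) → (∀ x y, P x → P y → P (x * y)) → ∀ r, P r)
    (hq : ∀ l j μ, G.c μ (q l j) = if wt l j = μ then q l j else 0) (e : Fm A R) (μ : M) :
    wp G μ e ∈ wtF A q wt μ := by
  have hQ : QA G q wt e := by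
    induction e using fm_ind with
    | h1 r => exact QA_fz G hind hq r
    | h2 t => exact QA_df G hind hq t
    | h3 a b ha hb => exact QA_mul G ha hb
    | h4 a b ha hb => exact QA_add G ha hb
  have h1 := hQ 1 (fun ν => ?_) μ
  · rw [mul_one] at h1
    exact h1
  · rw [← map_one (fz A), wp_fz]
    have h2 := G.c_base ν (1 : A)
    rw [map_one] at h2
    rw [h2]
    split_ifs with h
    · rw [map_one]
      refine Submodule.subset_span ⟨0, Fin.elim0, Fin.elim0, Fin.elim0, ?_, ?_⟩
      · rw [List.ofFn_zero, List.prod_nil]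
      · rw [Finset.univ_eq_empty, Finset.sum_empty, h]
    · rw [map_zero]
      exact Submodule.zero_mem _

end gen

end MPadcGP2
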