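import Pool.Agent.Lib.MP_adc574_ag_GP.GrD
import Pool.Agent.Lib.MP_adc574_ag_GP.GrWa

/-!
# GP2: the weights of the generators of the algebra of forms of a chart
-/

set_option autoImplicit false

namespace MPadcGP2

open MPadcGP MvPolynomial

universe u v w x y

variable {A : Type u} [CommRing A] {n : ℕ} {M : Type y} [AddCommGroup M] [Fintype M] [DecidableEq M]
  {wt : Fin n → M} {I : Ideal (MvPolynomial (Fin n) A)} (hI : IsHomog I) (hw : IsWHomog wt I)
  {J : Finset (Fin n)}

theorem grC_c_cq (l : Fin n) {j : Fin n} (hj : j ∈ J) (μ : M) :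
    (grC hI hw J).c μ (cq I J l hj) = if wt l - wt j = μ then cq I J l hj else 0 := by
  change (gc hI hw J (cq I J l hj)).coeff μ = _
  rw [gc_cq, coeff_single']

/-- The generators of the algebra of forms. -/
noncomputable def gnr (I : Ideal (MvPolynomial (Fin n) A)) (J : Finset (Fin n)) (s : Bool) (l : Fin n)
    (j : J) : Fm A (chart I J) :=
  bif s then df A (cq I J l j.2) else fz A (cq I J l j.2)

theorem wp_gnr_mul (s : Bool) (l : Fin n) (j : J) (v : Fm A (chart I J)) (μ : M) :
    wp (grC hI hw J) μ (gnr I J s l j * v) =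
      gnr I J s l j * wp (grC hI hw J) (μ - (wt l - wt j)) v :=
  wp_gnA_mul (grC hI hw J) (fun μ => grC_c_cq hI hw l j.2 μ) s v μ

end MPadcGP2
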