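import Pool.Agent.Lib.MP_adc574_ag_GP.UC
import Pool.Agent.Lib.MP_adc574_ag_GP.Lin

/-!
# Part U, file D: the theorem U (helper10)

`LinD.toPD`: the pieces data of linear data, pieces `(n, i)` with `n < Bd`, `i < M` (the other pieces of a filtration of conjugate type are everything).
`LinD.key_one`: the theorem for one piece; `LinD.key_U`: the theorem.
-/

set_option autoImplicit false

namespace MPadcGP

open MPadcCM MPadcGM

universe u v

namespace LinD

section

variable {A : Type u} [CommRing A] (X : LinD A)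

theorem finrank_fl (E : Type v) [Field E] (n i : ℕ) :
    Module.finrank E (X.fl E n i) = Fintype.card {b : X.β n // i ≤ X.lev n b} := by
  classical
  let g : (X.fl E n i) ≃ₗ[E] ({b : X.β n // i ≤ X.lev n b} → E) :=
    { toFun := fun x b => x.1 b.1
      map_add' := fun x y => rfl
      map_smul' := fun q x => rfl
      invFun := fun y => ⟨fun b => if h : i ≤ X.lev n b then y ⟨b, h⟩ else 0, fun b hb =>
        dif_neg (not_le.2 hb)⟩
      left_inv := fun x => by
        apply Subtype.ext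
        funext b
        by_cases h : i ≤ X.lev n b
        · exact dif_pos h
        · change dite _ _ _ = _
          rw [dif_neg h, x.2 b (not_le.1 h)]
      right_inv := fun y => by
        funext b
        exact dif_pos b.2 }
  rw [g.finrank_eq, Module.finrank_fintype_fun_eq_card]

/-- The identity matrix. -/
def idm (n : ℕ) (a a' : X.β n) : A := if a = a' then 1 else 0

theorem ap1_idm {E : Type*} [CommRing E] (φ : A →+* E) (n : ℕ) (x : X.β n → E) :
    ap1 φ (X.idm n) x = x := by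
  funext a'
  unfold ap1 idm
  rw [Finset.sum_eq_single a']
  · rw [if_pos rfl, map_one, one_mul]
  · intro a _ ha
    rw [if_neg ha, map_zero, zero_mul]
  · intro h
    exact absurd (Finset.mem_univ _) h

/-- The pieces data. -/
noncomputable def toPD (k : Type v) [Field k] (Bd M : ℕ) : PD.{u, u} A where
  S := ℕ
  β := X.β
  fin := X.fin
  T := Fin Bd × Fin M
  sp t := t.1
  r t := Module.finrank k (X.fl k t.1 (t.2 + 1))
  E1 := {t : Fin Bd × Fin M // t.2.1 + 1 < M}
  src1 e := e.1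
  tgt1 e := (e.1.1, ⟨e.1.2.1 + 1, e.2⟩)
  M1 e := X.idm e.1.1
  E2 := {q : (Fin Bd × Fin M) × (Fin Bd × Fin M) // q.1.1.1 + q.2.1.1 < Bd ∧ q.1.2.1 + q.2.2.1 < M}
  srcA q := q.1.1
  srcB q := q.1.2
  tgt2 q := (⟨q.1.1.1.1 + q.1.2.1.1, q.2.1⟩, ⟨q.1.1.2.1 + q.1.2.2.1, q.2.2⟩)
  M2 _ := X.mu _ _
  E0 := Σ t : Fin Bd × Fin M, X.Lg t.1 t.2
  tgt0 := Sigma.fst
  g0 e := e.2.1

theorem card_lev (n i : ℕ) : Fintype.card {b : X.β n // X.lev n b ≤ i} +
    Fintype.card {b : X.β n // i + 1 ≤ X.lev n b} = Fintype.card (X.β n) := by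
  classical
  have h1 := Fintype.card_subtype_compl (fun b : X.β n => X.lev n b ≤ i)
  have h2 : Fintype.card {b : X.β n // i + 1 ≤ X.lev n b} =
      Fintype.card {b : X.β n // ¬ X.lev n b ≤ i} := by
    refine Fintype.card_congr (Equiv.subtypeEquivRight fun b => ?_)
    omega
  have h3 := Fintype.card_subtype_le (fun b : X.β n => X.lev n b ≤ i)
  omega

theorem isFam_of_conj (k : Type v) [Field k] (Bd M : ℕ) {E : Type*} [Field E] {φ : A →+* E}
    {P : ∀ n, ℕ → Submodule E (X.β n → E)} (hP : X.IsConj φ P) :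
    IsFam (X.toPD k Bd M) φ fun t => P t.1 t.2 := by
  classical
  refine ⟨fun t => ?_, fun e x hx => ?_, fun e x hx y hy => ?_, fun e => ?_⟩
  · have h1 := X.card_lev t.1.1 t.2.1
    have h2 := hP.dim t.1.1 t.2.1
    have h3 : (X.toPD k Bd M).r t = Fintype.card {b : X.β t.1 // t.2.1 + 1 ≤ X.lev t.1 b} :=
      X.finrank_fl k t.1 (t.2 + 1)
    rw [h3]
    change Module.finrank E (P t.1 t.2) + _ = Fintype.card (X.β t.1)
    omega
  · have h1 : ap1 φ ((X.toPD k Bd M).M1 e) x = x := X.ap1_idm φ _ x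
    rw [h1]
    exact hP.mono _ _ hx
  · exact hP.mul _ _ _ _ x hx y hy
  · exact hP.log _ _ _ e.2.2

/-- The filtration of conjugate type of a family. -/
theorem conj_of_isFam {k : Type v} [Field k] {j : A →+* k} {Bd M : ℕ}
    (hBd : ∀ n, Bd ≤ n → IsEmpty (X.β n)) (hM : ∀ n b, X.lev n b < M)
    {P : ∀ t, Submodule k ((X.toPD k Bd M).β ((X.toPD k Bd M).sp t) → k)}
    (hP : IsFam (X.toPD k Bd M) j P) :
    IsConjugateType (fun n i => X.fl k n i) (fun n n' x y z => z = X.mul j n n' x y)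
      (fun n i => {x | ∃ g ∈ X.Lg n i, x = fun b => j (g b)})
      (fun n i => if h : n < Bd ∧ i < M then P (⟨n, h.1⟩, ⟨i, h.2⟩) else ⊤) := by
  classical
  refine ⟨fun n i => ?_, fun n i => ?_, fun n n' i i' x hx y hy z hz => ?_, fun n i x hx => ?_⟩
  · by_cases h : n < Bd ∧ i + 1 < M
    · have h' : n < Bd ∧ i < M := ⟨h.1, by omega⟩
      rw [dif_pos h, dif_pos h']
      intro x hx
      have h1 := hP.rel1 ⟨(⟨n, h'.1⟩, ⟨i, h'.2⟩), h.2⟩ x hx
      have h2 : ap1 j ((X.toPD k Bd M).M1 ⟨(⟨n, h'.1⟩, ⟨i, h'.2⟩), h.2⟩) x = x := X.ap1_idm j _ x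
      rw [h2] at h1
      exact h1
    · rw [dif_neg h]
      exact le_top
  · by_cases h : n < Bd ∧ i < M
    · rw [dif_pos h, Module.finrank_fintype_fun_eq_card]
      exact hP.codim (⟨n, h.1⟩, ⟨i, h.2⟩)
    · rw [dif_neg h, finrank_top, X.finrank_fl]
      have h1 : Fintype.card {b : X.β n // i + 1 ≤ X.lev n b} = 0 := by
        rw [Fintype.card_eq_zero_iff]
        refine ⟨fun b => ?_⟩
        by_cases hn : n < Bd
        · have h2 := hM n b.1
          have h3 := b.2
          exact h ⟨hn, by omega⟩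
        · exact (hBd n (not_lt.1 hn)).false b.1
      rw [h1, add_zero]
  · by_cases h : n + n' < Bd ∧ i + i' < M
    · have h1 : n < Bd ∧ i < M := ⟨by omega, by omega⟩
      have h2 : n' < Bd ∧ i' < M := ⟨by omega, by omega⟩
      rw [dif_pos h1] at hx
      rw [dif_pos h2] at hy
      rw [dif_pos h, hz]
      exact hP.rel2 ⟨((⟨n, h1.1⟩, ⟨i, h1.2⟩), (⟨n', h2.1⟩, ⟨i', h2.2⟩)), h⟩ x hx y hy
    · rw [dif_neg h]
      exact Submodule.mem_top
  · by_cases h : n < Bd ∧ i < M
    · rw [dif_pos h]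
      obtain ⟨g, hg, rfl⟩ := hx
      exact hP.rel0 ⟨(⟨n, h.1⟩, ⟨i, h.2⟩), ⟨g, hg⟩⟩
    · rw [dif_neg h]
      exact Submodule.mem_top

end

section

variable {A : Type u} [CommRing A] {k : Type u} [Field k] {j : A →+* k}

/-- The connection over `k` as a function. -/
def nb (X : LinD A) (j : A →+* k) (c : Derivation ℤ k k → Fin X.N → k) (n : ℕ) (D' : Derivation ℤ k k) :
    (X.β n → k) →+ (X.β n → k) where
  toFun x := fun b' => D' (x b') + ∑ l, c D' l * ∑ b, j (X.G n l b' b) * x b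
  map_zero' := by
    funext b'
    simp
  map_add' x y := by
    funext b'
    have h1 : ∀ l, c D' l * ∑ b, j (X.G n l b' b) * (x + y) b =
        c D' l * ∑ b, j (X.G n l b' b) * x b + c D' l * ∑ b, j (X.G n l b' b) * y b := by
      intro l
      rw [← mul_add, ← Finset.sum_add_distrib]
      congr 1
      exact Finset.sum_congr rfl fun b _ => by rw [Pi.add_apply, mul_add]
    rw [Pi.add_apply, Pi.add_apply, map_add, Finset.sum_congr rfl fun l _ => h1 l,
      Finset.sum_add_distrib]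
    ring

theorem nb_apply (X : LinD A) (c : Derivation ℤ k k → Fin X.N → k) (n : ℕ) (D' : Derivation ℤ k k)
    (x : X.β n → k) (b' : X.β n) :
    X.nb j c n D' x b' = D' (x b') + ∑ l, c D' l * ∑ b, j (X.G n l b' b) * x b := rfl

theorem nb_conn (X : LinD A) (c : Derivation ℤ k k → Fin X.N → k) (n : ℕ) :
    IsConn (X.nb j c n) := by
  intro D' a x
  funext b'
  rw [nb_apply, Pi.add_apply, Pi.smul_apply, Pi.smul_apply, Pi.smul_apply, nb_apply,
    smul_eq_mul, smul_eq_mul, smul_eq_mul, Derivation.leibniz, smul_eq_mul, smul_eq_mul]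
  have h1 : ∀ l, c D' l * ∑ b, j (X.G n l b' b) * (a • x) b =
      a * (c D' l * ∑ b, j (X.G n l b' b) * x b) := by
    intro l
    rw [mul_left_comm, Finset.mul_sum (a := a)]
    congr 1
    exact Finset.sum_congr rfl fun b _ => by rw [Pi.smul_apply, smul_eq_mul]; ring
  rw [Finset.sum_congr rfl fun l _ => h1 l, ← Finset.mul_sum]
  ring

theorem hor_of_isHor (X : LinD A) {c : Derivation ℤ k k → Fin X.N → k}
    (hc : ∀ D' a, D' (j a) = ∑ l, c D' l * j (X.D l a))
    (hcons : ∀ (n : ℕ) (c c' : Fin X.N → k),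
      (∀ a, ∑ l, c l * j (X.D l a) = ∑ l, c' l * j (X.D l a)) →
        ∀ b b', ∑ l, c l * j (X.G n l b' b) = ∑ l, c' l * j (X.G n l b' b))
    (n : ℕ) {r : ℕ} {W : Submodule k ((X.β n → k) [⋀^Fin r]→ₗ[k] k)} (hW : IsHor (X.nb j c n) W) :
    IsHorizontal (X.nabk j n) W := by
  intro D' ω hω
  obtain ⟨ω', hω', h⟩ := hW D' ω hω
  refine ⟨ω', hω', fun x y hxy => ?_⟩
  rw [h x]
  congr 1
  refine Finset.sum_congr rfl fun u _ => ?_
  congr 2
  obtain ⟨c', hc1, hc2⟩ := hxy u
  funext b'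
  rw [nb_apply, hc2]
  congr 1
  have h1 : ∀ q : Fin X.N → k, ∑ l, q l * ∑ b, j (X.G n l b' b) * x u b =
      ∑ b, (∑ l, q l * j (X.G n l b' b)) * x u b := by
    intro q
    have e1 : ∀ l, q l * ∑ b, j (X.G n l b' b) * x u b = ∑ b, q l * j (X.G n l b' b) * x u b := by
      intro l
      rw [Finset.mul_sum]
      exact Finset.sum_congr rfl fun b _ => by ring
    rw [Finset.sum_congr rfl fun l _ => e1 l, Finset.sum_comm]
    exact Finset.sum_congr rfl fun b _ => (Finset.sum_mul _ _ _).symm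
  rw [h1, h1]
  refine Finset.sum_congr rfl fun b _ => ?_
  rw [hcons n (c D') c' (fun a => by rw [← hc, ← hc1]) b b']

/-- Theorem U for one piece. -/
theorem key_one [IsAlgClosed k] (hj : Function.Injective j) (X : LinD A)
    (hgood : ∀ D' : Derivation ℤ k k, ∃ c : Fin X.N → k, ∀ a, D' (j a) = ∑ l, c l * j (X.D l a))
    (hcons : ∀ (n : ℕ) (c c' : Fin X.N → k),
      (∀ a, ∑ l, c l * j (X.D l a) = ∑ l, c' l * j (X.D l a)) →
        ∀ b b', ∑ l, c l * j (X.G n l b' b) = ∑ l, c' l * j (X.G n l b' b))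
    (hgen : X.Gen j) {L : ℕ → Type u} [∀ p, Field (L p)] {φ : ∀ p, A →+* L p} {B : A → ℕ}
    (hB : ResFields A L φ B) {Bd M : ℕ} (hBd : ∀ n, Bd ≤ n → IsEmpty (X.β n))
    (hM : ∀ n b, X.lev n b < M) (n₀ i₀ : ℕ) (hn₀ : n₀ < Bd) (hi₀ : i₀ < M) :
    ∃ p₀ : ℕ, ∀ p : ℕ, p.Prime → p₀ < p →
      ∀ δ : Fin X.N → Derivation ℤ (L p) (L p), (∀ l x, δ l (φ p x) = φ p (X.D l x)) →
        ∀ P : ∀ n, ℕ → Submodule (L p) (X.β n → L p), X.IsConj (φ p) P → X.IsStab (φ p) δ P →
          ∀ x ∈ P n₀ i₀, x ∈ X.fl (L p) n₀ (i₀ + 1) → x = 0 := by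
  classical
  choose cc hcc using hgood
  -- the basis of the Hodge filtration
  have hcard : Fintype.card {b : X.β n₀ // i₀ + 1 ≤ X.lev n₀ b} =
      Module.finrank k (X.fl k n₀ (i₀ + 1)) := (X.finrank_fl k n₀ (i₀ + 1)).symm
  obtain ⟨q⟩ : Nonempty (Fin (Module.finrank k (X.fl k n₀ (i₀ + 1))) ≃
    {b : X.β n₀ // i₀ + 1 ≤ X.lev n₀ b}) := ⟨(Fintype.equivFinOfCardEq hcard).symm⟩
  let f : Fin (Module.finrank k (X.fl k n₀ (i₀ + 1))) → X.β n₀ → A := fun u => X.idm n₀ (q u).1
  have hfφ : ∀ {R : Type u} [CommRing R] (g : A →+* R) (u) (a : X.β n₀),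
      g (f u a) = if (q u).1 = a then 1 else 0 := by
    intro R _ g u a
    change g (if (q u).1 = a then 1 else 0) = _
    by_cases h : (q u).1 = a
    · rw [if_pos h, if_pos h, map_one]
    · rw [if_neg h, if_neg h, map_zero]
  -- expansion of the vectors of the Hodge filtration
  have hexp : ∀ {R : Type u} [Field R] (g : A →+* R), ∀ x ∈ X.fl R n₀ (i₀ + 1),
      x = ∑ u, x (q u).1 • fun a => g (f u a) := by
    intro R _ g x hx
    funext a
    rw [Finset.sum_apply]
    by_cases ha : i₀ + 1 ≤ X.lev n₀ a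
    · rw [Finset.sum_eq_single (q.symm ⟨a, ha⟩)]
      · rw [Pi.smul_apply, hfφ, Equiv.apply_symm_apply, if_pos rfl, smul_eq_mul, mul_one]
      · intro u _ hu
        rw [Pi.smul_apply, hfφ, if_neg, smul_zero]
        intro h
        apply hu
        rw [Equiv.eq_symm_apply]
        exact Subtype.ext h
      · intro h
        exact absurd (Finset.mem_univ _) h
    · rw [hx a (not_le.1 ha)]
      symm
      refine Finset.sum_eq_zero fun u _ => ?_
      rw [Pi.smul_apply, hfφ, if_neg, smul_zero]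
      rintro rfl
      exact ha (q u).2
  have hlin : LinearIndependent k fun u => (fun a => j (f u a) : X.β n₀ → k) := by
    have h1 : (fun u => (fun a => j (f u a) : X.β n₀ → k)) =
        (Pi.basisFun k (X.β n₀)) ∘ fun u => (q u).1 := by
      funext u a
      rw [hfφ, Function.comp_apply, Pi.basisFun_apply, Pi.single_apply]
      by_cases h : (q u).1 = a
      · rw [if_pos h, if_pos h.symm]
      · rw [if_neg h, if_neg (Ne.symm h)]
    rw [h1]
    exact (Pi.basisFun k (X.β n₀)).linearIndependent.comp _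
      (Subtype.val_injective.comp q.injective)
  have hDk : ∀ D' : Derivation ℤ k k, ∃ α : Fin X.N → k, (∀ x, D' (j x) = ∑ l, α l * j (X.D l x)) ∧
      ∀ a : X.β n₀, X.nb j cc n₀ D' (Pi.basisFun k _ a) =
        ∑ a', (∑ l, α l * j (X.G n₀ l a' a)) • Pi.basisFun k _ a' := by
    intro D'
    refine ⟨cc D', hcc D', fun a => ?_⟩
    funext b'
    rw [nb_apply, Finset.sum_apply]
    have h1 : ∀ y : X.β n₀ → k, ∑ b, y b * (Pi.basisFun k (X.β n₀) a) b = y a := by
      intro y
      rw [Finset.sum_eq_single a]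
      · rw [Pi.basisFun_apply, Pi.single_eq_same, mul_one]
      · intro b _ hb
        rw [Pi.basisFun_apply, Pi.single_eq_of_ne hb, mul_zero]
      · intro h
        exact absurd (Finset.mem_univ _) h
    have h2 : D' ((Pi.basisFun k (X.β n₀) a) b') = 0 := by
      rw [Pi.basisFun_apply, Pi.single_apply]
      by_cases h : b' = a
      · rw [if_pos h, Derivation.map_one_eq_zero]
      · rw [if_neg h, map_zero]
    rw [h2, zero_add, Finset.sum_congr rfl fun l _ => by rw [h1 fun b => j (X.G n₀ l b' b)]]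
    rw [Finset.sum_eq_single b']
    · rw [Pi.smul_apply, Pi.basisFun_apply, Pi.single_eq_same, smul_eq_mul, mul_one]
    · intro b _ hb
      rw [Pi.smul_apply, Pi.basisFun_apply, Pi.single_eq_of_ne (Ne.symm hb), smul_zero]
    · intro h
      exact absurd (Finset.mem_univ _) h
  have hfin : Finite (X.toPD k Bd M).T := inferInstanceAs (Finite (Fin Bd × Fin M))
  obtain ⟨p₀, hp₀⟩ := fam_large hj hB (X.toPD k Bd M) (⟨n₀, hn₀⟩, ⟨i₀, hi₀⟩)
    (nab := X.nb j cc n₀) (X.nb_conn cc n₀) X.D (X.G n₀) hDk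
    (X.fl k n₀ (i₀ + 1)) f hlin (by
      intro x hx
      rw [hexp j x hx]
      exact Submodule.sum_mem _ fun u _ => Submodule.smul_mem _ _ (Submodule.subset_span ⟨u, rfl⟩))
    (by
      intro P' hP' W hW hex
      have h1 := hgen _ (X.conj_of_isFam hBd hM hP') n₀ i₀ W (X.hor_of_isHor hcc hcons n₀ hW) (by
        obtain ⟨ω, hω, hω0, hk⟩ := hex
        refine ⟨ω, hω, hω0, fun x hx => hk x ?_⟩
        obtain ⟨u, hu⟩ := hx
        refine ⟨u, ?_⟩
        rw [dif_pos ⟨hn₀, hi₀⟩] at hu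
        exact hu)
      exact h1)
  refine ⟨p₀, fun p hp hpp δ hδ P hP hst x hxP hxF => ?_⟩
  have h1 := hp₀ p hp hpp δ hδ _ (X.isFam_of_conj k Bd M hP) (fun l y hy => hst n₀ i₀ l y hy)
    (fun u => x (q u).1) (by
      have h2 := hexp (φ p) x hxF
      have h3 : (∑ u, x (q u).1 • fun a => φ p (f u a)) ∈ P n₀ i₀ := by
        rw [← h2]
        exact hxP
      exact h3)
  rw [hexp (φ p) x hxF]
  refine Finset.sum_eq_zero fun u _ => ?_
  have h2 : x (q u).1 = 0 := congrFun h1 u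
  rw [h2, zero_smul]

/-- Theorem U. -/
theorem key_U {A : Type u} [CommRing A] {k : Type u} [Field k] [IsAlgClosed k] {j : A →+* k}
    (hj : Function.Injective j) (X : LinD A)
    (hgood : ∀ D' : Derivation ℤ k k, ∃ c : Fin X.N → k, ∀ a, D' (j a) = ∑ l, c l * j (X.D l a))
    (hcons : ∀ (n : ℕ) (c c' : Fin X.N → k),
      (∀ a, ∑ l, c l * j (X.D l a) = ∑ l, c' l * j (X.D l a)) →
        ∀ b b', ∑ l, c l * j (X.G n l b' b) = ∑ l, c' l * j (X.G n l b' b))
    (hgen : X.Gen j) {L : ℕ → Type u} [∀ p, Field (L p)] {φ : ∀ p, A →+* L p} {B : A → ℕ}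
    (hB : ResFields A L φ B) :
    ∃ p₀ : ℕ, ∀ p : ℕ, p.Prime → p₀ < p →
      ∀ δ : Fin X.N → Derivation ℤ (L p) (L p), (∀ l x, δ l (φ p x) = φ p (X.D l x)) →
        ∀ P : ∀ n, ℕ → Submodule (L p) (X.β n → L p), X.IsConj (φ p) P → X.IsStab (φ p) δ P →
          X.IsOpp P := by
  classical
  obtain ⟨Bd, hBd⟩ := X.bound
  obtain ⟨M, hM⟩ : ∃ M, ∀ n b, X.lev n b < M := by
    refine ⟨(Finset.range Bd).sup (fun n => Finset.univ.sup (X.lev n)) + 1, fun n b => ?_⟩
    have hn : n < Bd := by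
      by_contra h
      exact (hBd n (not_lt.1 h)).false b
    have h1 : X.lev n b ≤ Finset.univ.sup (X.lev n) := Finset.le_sup (Finset.mem_univ b)
    have h2 := Finset.le_sup (f := fun n => Finset.univ.sup (X.lev n)) (Finset.mem_range.2 hn)
    exact Nat.lt_succ_of_le (h1.trans h2)
  choose p₀ hp₀ using fun t : Fin Bd × Fin M =>
    key_one hj X hgood hcons hgen hB hBd hM t.1 t.2 t.1.2 t.2.2
  refine ⟨Finset.univ.sup p₀, fun p hp hpp δ hδ P hP hst n i x hxP hxF => ?_⟩
  by_contra hx0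
  obtain ⟨b, hb⟩ := Function.ne_iff.1 hx0
  have hn : n < Bd := by
    by_contra h
    exact (hBd n (not_lt.1 h)).false b
  have hi : i < M := by
    have h1 : ¬ X.lev n b < i + 1 := fun h => hb (hxF b h)
    have h2 := hM n b
    omega
  exact hx0 (hp₀ (⟨n, hn⟩, ⟨i, hi⟩) p hp
    (lt_of_le_of_lt (Finset.le_sup (f := p₀) (Finset.mem_univ _)) hpp) δ hδ P hP hst x hxP hxF)

end

end LinD

end MPadcGP
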