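import Pool.Agent.Lib.MP_adc574_ag_GP.Parts
import Pool.Agent.Lib.MP_adc574_ag_GP.ResF
import Pool.Agent.Lib.MP_adc574_ag_GP.UD
import Pool.Agent.Lib.MP_adc574_ag_GP.GL0
import Pool.Agent.Lib.MP_adc574_ag_GP.GlCon
import Pool.Agent.Lib.MP_adc574_ag_GP.ClC
import Pool.Agent.Lib.MP_adc574_ag_GP.ClD
import Pool.Agent.Lib.MP_adc574_ag_GP.GlRel
import Pool.Agent.Lib.MP_adc574_ag_GP.Logs
import Pool.Agent.Lib.MP_adc574_ag_GP.SumH
import Pool.Agent.Lib.MP_adc574_ag_GP.DatC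
import Pool.Agent.Lib.MP_adc574_ag_GP.CarFin

/-!
# GP: the parts (statements) and the assembly
-/

set_option autoImplicit false

namespace MPadcGP

universe u v w x

section

variable {A : Type u} [CommRing A] {n : ℕ} {I : Ideal (MvPolynomial (Fin n) A)} {β : ℕ → Type}
    [∀ m, Fintype (β m)] [∀ m, DecidableEq (β m)] {lev : ∀ m, β m → ℕ}
    {z : ∀ m, β m → (prC I).Ch} {h : ℕ → ℕ → ℕ}

/-- PART GL1b: general position in coordinates. -/
theorem gen_of_rel {k : Type u} [Field k] {A : Subalgebra ℤ k} {n : ℕ}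
    {I : Ideal (MvPolynomial (Fin n) A)} (hI : IsHomog I) {z : ∀ m, β m → (prC I).Ch}
    (hD : Dat I lev z h) {N : ℕ} {D : Fin N → Derivation ℤ A A} (hg : Good' A D)
    (V : ∀ l, Lft (prC I) (D l)) {G : ∀ m, Fin N → β m → β m → A}
    {mu : ∀ m m', β m → β m' → β (m + m') → A} {Lg : ∀ m : ℕ, ℕ → Set (β m → A)}
    (hR : LinRel I z V G mu Lg) (S : ∀ _ _ : ℕ, Set (prC I).Ch)
    (hSL : ∀ m j, ∀ c ∈ S m j, ∃ g ∈ Lg m j, c - ∑ b, g b • z m b ∈ (prC I).Bc m)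
    (hS : ∀ m j, ∀ x, IsLogCoc (prC (bI (algebraMap A k) I)) m j x →
          x ∈ Submodule.span k ((prH (algebraMap A k) _).push '' S m j) ⊔ CovD.Bc _ m)
    (hgen : (prC (bI (algebraMap A k) I)).IsGeneral) :
    (mkLin lev D G mu Lg hD.bound).Gen (algebraMap A k) :=
  gen_of_rel_aux hD hg V (fun α D' h => exists_lft_map hI (algebraMap A k) D V α D' h) hR S hSL hS hgen

end

end MPadcGP
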