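import Mathlib

/-!
# The standard charts of a projective scheme

`I` is a homogeneous ideal of `A[x_0, …, x_{n-1}]`, `S = A[x]/I`, `chart I J` (`J` a nonempty set of coordinates) is the
ring of functions on the open set of `Proj S` where `x_j`, `j ∈ J`, do not vanish: the `A`-algebra generated by
the `x_l / x_j`, `j ∈ J`, in the localization of `S` at `∏_{j ∈ J} x_j`.
-/

set_option autoImplicit false

namespace MPadcGP

open MvPolynomial TensorProduct

universe u v w

section Defs

variable {A : Type u} [CommRing A] {n : ℕ} (I : Ideal (MvPolynomial (Fin n) A))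

/-- the homogeneous coordinate ring -/
abbrev CR : Type u := MvPolynomial (Fin n) A ⧸ I

/-- the localization of the homogeneous coordinate ring at the product of the coordinates `x_j`, `j ∈ J` -/
abbrev LR (J : Finset (Fin n)) : Type u :=
  Localization.Away (Ideal.Quotient.mk I (∏ j ∈ J, X j))

/-- the coordinate `x_l` in this localization -/
noncomputable def lx (J : Finset (Fin n)) (l : Fin n) : LR I J :=
  algebraMap (CR I) (LR I J) (Ideal.Quotient.mk I (X l))

/-- the ring of functions on the open set `x_j ≠ 0` for `j ∈ J` (`J` nonempty) of the closed subscheme `I = 0` of the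
projective space: it is generated by the `x_l / x_j`, `j ∈ J` -/
noncomputable def chart (J : Finset (Fin n)) : Subalgebra A (LR I J) :=
  Algebra.adjoin A {z | ∃ l, ∃ j ∈ J, z * lx I J j = lx I J l}

/-- the ideal contains the homogeneous components of its elements -/
def IsHomog : Prop := ∀ f ∈ I, ∀ d, homogeneousComponent d f ∈ I

end Defs

section Basic

variable {A : Type u} [CommRing A] {n : ℕ} (I : Ideal (MvPolynomial (Fin n) A)) (J : Finset (Fin n))

theorem lx_isUnit {j : Fin n} (hj : j ∈ J) : IsUnit (lx I J j) := by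
  have h1 : IsUnit (algebraMap (CR I) (LR I J) (Ideal.Quotient.mk I (∏ j ∈ J, X j))) :=
    IsLocalization.Away.algebraMap_isUnit _
  exact isUnit_of_dvd_unit (map_dvd (algebraMap (CR I) (LR I J)) (map_dvd (Ideal.Quotient.mk I)
    (Finset.dvd_prod_of_mem X hj))) h1

/-- the function `x_l / x_j` -/
noncomputable def cq (l : Fin n) {j : Fin n} (hj : j ∈ J) : chart I J :=
  ⟨lx I J l * ↑(lx_isUnit I J hj).unit⁻¹, Algebra.subset_adjoin ⟨l, j, hj, by
    rw [mul_assoc, IsUnit.val_inv_mul, mul_one]⟩⟩

theorem cq_coe (l : Fin n) {j : Fin n} (hj : j ∈ J) :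
    (cq I J l hj : LR I J) = lx I J l * ↑(lx_isUnit I J hj).unit⁻¹ := rfl

theorem cq_mul_lx (l : Fin n) {j : Fin n} (hj : j ∈ J) :
    (cq I J l hj : LR I J) * lx I J j = lx I J l := by
  rw [cq_coe, mul_assoc, IsUnit.val_inv_mul, mul_one]

theorem cq_self {j : Fin n} (hj : j ∈ J) : cq I J j hj = 1 := by
  apply Subtype.ext
  rw [cq_coe, IsUnit.mul_val_inv]
  rfl

theorem cq_mul {l j m : Fin n} (hj : j ∈ J) (hm : m ∈ J) :
    cq I J l hj * cq I J j hm = cq I J l hm := by
  apply Subtype.ext
  apply (lx_isUnit I J hm).mul_right_cancel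
  rw [Subalgebra.coe_mul, mul_assoc, cq_mul_lx, cq_mul_lx, cq_mul_lx]

theorem cq_isUnit {l j : Fin n} (hl : l ∈ J) (hj : j ∈ J) : IsUnit (cq I J l hj) :=
  IsUnit.of_mul_eq_one (cq I J j hl) (by rw [cq_mul, cq_self])

/-- induction on the elements of the chart -/
theorem chart_ind {P : chart I J → Prop} (h1 : ∀ a, P (algebraMap A _ a))
    (h2 : ∀ l m (hm : m ∈ J), P (cq I J l hm)) (h3 : ∀ x y, P x → P y → P (x + y))
    (h4 : ∀ x y, P x → P y → P (x * y)) (x : chart I J) : P x := by
  obtain ⟨x, hx⟩ := x
  induction hx using Algebra.adjoin_induction with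
  | mem x hx =>
    obtain ⟨l, m, hm, hz⟩ := hx
    have h5 : x = (cq I J l hm : LR I J) := by
      apply (lx_isUnit I J hm).mul_right_cancel
      rw [hz, cq_mul_lx]
    have h6 : (⟨x, Algebra.subset_adjoin ⟨l, m, hm, hz⟩⟩ : chart I J) = cq I J l hm := Subtype.ext h5
    rw [h6]
    exact h2 l m hm
  | algebraMap a => exact h1 a
  | add x y hx hy ihx ihy => exact h3 _ _ ihx ihy
  | mul x y hx hy ihx ihy => exact h4 _ _ ihx ihy

/-- two ring homomorphisms on the chart agree if they agree on `A` and on the `x_l / x_i` for one `i` -/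
theorem chart_hom_ext' {R' : Type*} [CommRing R'] {i : Fin n} (hi : i ∈ J) {f g : chart I J →+* R'}
    (h0 : ∀ a, f (algebraMap A _ a) = g (algebraMap A _ a))
    (h : ∀ l, f (cq I J l hi) = g (cq I J l hi)) : f = g := by
  ext x
  induction x using chart_ind with
  | h1 a => exact h0 a
  | h2 l m hm =>
    have h1 : ∀ φ : chart I J →+* R', φ (cq I J l hm) * φ (cq I J m hi) = φ (cq I J l hi) := by
      intro φ
      rw [← map_mul, cq_mul]
    have h2 : IsUnit (f (cq I J m hi)) := (cq_isUnit I J hm hi).map f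
    apply h2.mul_right_cancel
    rw [h1 f, h, h m, h1 g]
  | h3 x y hx hy => rw [map_add, map_add, hx, hy]
  | h4 x y hx hy => rw [map_mul, map_mul, hx, hy]

theorem chart_hom_ext {R' : Type*} [CommRing R'] [Algebra A R'] {i : Fin n} (hi : i ∈ J)
    {f g : chart I J →ₐ[A] R'} (h : ∀ l, f (cq I J l hi) = g (cq I J l hi)) : f = g := by
  have h1 : (f : chart I J →+* R') = g := by
    refine chart_hom_ext' I J hi (fun a => ?_) h
    exact (f.commutes a).trans (g.commutes a).symm
  exact AlgHom.coe_ringHom_injective h1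

end Basic

section Lift

variable {A : Type u} [CommRing A] {n : ℕ} (I : Ideal (MvPolynomial (Fin n) A)) (J : Finset (Fin n))

/-- the universal property of the chart -/
theorem exists_chart_lift {R' : Type*} [CommRing R'] (φ : A →+* R') {i : Fin n} (hi : i ∈ J)
    (z : Fin n → R') (hz1 : z i = 1) (hzJ : ∀ j ∈ J, IsUnit (z j)) (hzI : ∀ f ∈ I, eval₂ φ z f = 0) :
    ∃ ρ : chart I J →+* R', (∀ a, ρ (algebraMap A _ a) = φ a) ∧ ∀ l, ρ (cq I J l hi) = z l := by
  let g0 : CR I →+* R' := Ideal.Quotient.lift I (eval₂Hom φ z) fun f hf => hzI f hf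
  have hg0 : ∀ f, g0 (Ideal.Quotient.mk I f) = eval₂ φ z f := fun f => rfl
  have hu : IsUnit (g0 (Ideal.Quotient.mk I (∏ j ∈ J, X j))) := by
    rw [hg0, eval₂_prod]
    simp only [eval₂_X]
    exact (Finset.prod_induction _ _ (fun _ _ h1 h2 => h1.mul h2) isUnit_one hzJ)
  let g : LR I J →+* R' := IsLocalization.Away.lift (Ideal.Quotient.mk I (∏ j ∈ J, X j)) hu
  have hg : ∀ x, g (algebraMap (CR I) (LR I J) x) = g0 x := fun x => IsLocalization.Away.lift_eq _ hu x
  refine ⟨g.comp (chart I J).val.toRingHom, fun a => ?_, fun l => ?_⟩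
  · have h1 : algebraMap A (LR I J) a = algebraMap (CR I) (LR I J) (Ideal.Quotient.mk I (C a)) := by
      rw [IsScalarTower.algebraMap_apply A (CR I) (LR I J)]
      rfl
    have h2 : g.comp (chart I J).val.toRingHom (algebraMap A _ a) = g (algebraMap A (LR I J) a) := rfl
    rw [h2, h1, hg, hg0, eval₂_C]
  · have h1 : ∀ m, g (lx I J m) = z m := fun m => by
      rw [lx, hg, hg0, eval₂_X]
    have h2 : g.comp (chart I J).val.toRingHom (cq I J l hi) = g (cq I J l hi : LR I J) := rfl
    have h3 : g (cq I J l hi : LR I J) * g (lx I J i) = g (lx I J l) := by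
      rw [← map_mul, cq_mul_lx]
    rw [h1, h1, hz1, mul_one] at h3
    rw [h2, h3]

/-- the homogeneous relations hold between the `x_l / x_i` -/
theorem eval₂_cq {I : Ideal (MvPolynomial (Fin n) A)} (hI : IsHomog I) {J : Finset (Fin n)} {i : Fin n} (hi : i ∈ J)
    {f : MvPolynomial (Fin n) A} (hf : f ∈ I) :
    eval₂ (algebraMap A (chart I J)) (fun l => cq I J l hi) f = 0 := by
  have key : ∀ d, ∀ g : MvPolynomial (Fin n) A, g.IsHomogeneous d → g ∈ I →
      eval₂ (algebraMap A (chart I J)) (fun l => cq I J l hi) g = 0 := by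
    intro d g hg hgI
    apply Subtype.ext
    have h1 : ((eval₂ (algebraMap A (chart I J)) (fun l => cq I J l hi) g : chart I J) : LR I J) =
        eval₂ (algebraMap A (LR I J)) (fun l => (cq I J l hi : LR I J)) g := by
      have h2 := eval₂_comp_left ((chart I J).val.toRingHom : chart I J →+* LR I J)
        (algebraMap A (chart I J)) (fun l => cq I J l hi) g
      exact h2
    have h3 : eval₂ (algebraMap A (LR I J)) (fun l => (cq I J l hi : LR I J)) g * lx I J i ^ d =
        eval₂ (algebraMap A (LR I J)) (lx I J) g := by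
      rw [eval₂_eq', eval₂_eq', Finset.sum_mul]
      refine Finset.sum_congr rfl fun e he => ?_
      have h4 : ∑ l, e l = d := by
        have h5 := hg (mem_support_iff.1 he)
        rw [Finsupp.weight_apply, Finsupp.sum_fintype _ _ (fun _ => by simp)] at h5
        simpa using h5
      rw [mul_assoc, ← h4, ← Finset.prod_pow_eq_pow_sum, ← Finset.prod_mul_distrib]
      congr 1
      refine Finset.prod_congr rfl fun l _ => ?_
      rw [← mul_pow, cq_mul_lx]
    have h6 : eval₂ (algebraMap A (LR I J)) (lx I J) g = 0 := by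
      have h7 : eval₂ (algebraMap A (LR I J)) (lx I J) g =
          algebraMap (CR I) (LR I J) (Ideal.Quotient.mk I g) := by
        have h8 : ∀ g : MvPolynomial (Fin n) A, eval₂Hom (algebraMap A (LR I J)) (lx I J) g =
            ((algebraMap (CR I) (LR I J)).comp (Ideal.Quotient.mk I)) g := by
          intro g
          congr 1
          refine MvPolynomial.ringHom_ext (fun a => ?_) (fun l => ?_)
          · rw [eval₂Hom_C, RingHom.comp_apply, IsScalarTower.algebraMap_apply A (CR I) (LR I J)]
            rfl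
          · rw [eval₂Hom_X']
            rfl
        exact h8 g
      rw [h7, Ideal.Quotient.eq_zero_iff_mem.2 hgI, map_zero]
    rw [h1]
    apply ((lx_isUnit I J hi).pow d).mul_right_cancel
    rw [h3, h6]
    exact (zero_mul _).symm
  have h2 := congrArg (eval₂Hom (algebraMap A (chart I J)) (fun l => cq I J l hi)) (sum_homogeneousComponent f)
  rw [map_sum] at h2
  change _ = eval₂ (algebraMap A (chart I J)) (fun l => cq I J l hi) f at h2
  rw [← h2]
  exact Finset.sum_eq_zero fun d _ => key d _ (homogeneousComponent_isHomogeneous d f) (hI f hf d)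

end Lift

end MPadcGP
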