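import Pool.Agent.Lib.MP_adc574_ag_GP.Mod

/-!
# The standard charts: transition maps, localization, base change, smoothness
-/

set_option autoImplicit false

namespace MPadcGP

open MvPolynomial TensorProduct

universe u v w

section CMap

variable {A : Type u} [CommRing A] {B : Type v} [CommRing B] {n : ℕ} (φ : A →+* B)
  {I : Ideal (MvPolynomial (Fin n) A)} {I' : Ideal (MvPolynomial (Fin n) B)}

private theorem lmap_exists (h : ∀ f ∈ I, MvPolynomial.map φ f ∈ I') {J J' : Finset (Fin n)} (hJ : J ⊆ J') :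
    ∃ g : LR I J →+* LR I' J', (∀ a, g (algebraMap A _ a) = algebraMap B _ (φ a)) ∧
      ∀ l, g (lx I J l) = lx I' J' l := by
  let g0 : CR I →+* LR I' J' := Ideal.Quotient.lift I
    ((algebraMap (CR I') (LR I' J')).comp ((Ideal.Quotient.mk I').comp (MvPolynomial.map φ))) fun f hf => by
      rw [RingHom.comp_apply, RingHom.comp_apply, Ideal.Quotient.eq_zero_iff_mem.2 (h f hf), map_zero]
  have hg0 : ∀ f, g0 (Ideal.Quotient.mk I f) =
      algebraMap (CR I') (LR I' J') (Ideal.Quotient.mk I' (MvPolynomial.map φ f)) := fun f => rfl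
  have hu : IsUnit (g0 (Ideal.Quotient.mk I (∏ j ∈ J, X j))) := by
    have h9 : MvPolynomial.map φ (∏ j ∈ J, X j) = ∏ j ∈ J, X j := by
      rw [map_prod]
      exact Finset.prod_congr rfl fun j _ => map_X φ j
    rw [hg0, h9]
    have h1 : IsUnit (algebraMap (CR I') (LR I' J') (Ideal.Quotient.mk I' (∏ j ∈ J', X j))) :=
      IsLocalization.Away.algebraMap_isUnit _
    exact isUnit_of_dvd_unit (map_dvd (algebraMap (CR I') (LR I' J')) (map_dvd (Ideal.Quotient.mk I')
      (Finset.prod_dvd_prod_of_subset _ _ _ hJ))) h1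
  refine ⟨IsLocalization.Away.lift (Ideal.Quotient.mk I (∏ j ∈ J, X j)) hu, fun a => ?_, fun l => ?_⟩
  · have h1 : algebraMap A (LR I J) a = algebraMap (CR I) (LR I J) (Ideal.Quotient.mk I (C a)) := by
      rw [IsScalarTower.algebraMap_apply A (CR I) (LR I J)]
      rfl
    have h2 : algebraMap B (LR I' J') (φ a) = algebraMap (CR I') (LR I' J') (Ideal.Quotient.mk I' (C (φ a))) := by
      rw [IsScalarTower.algebraMap_apply B (CR I') (LR I' J')]
      rfl
    rw [h1, h2, IsLocalization.Away.lift_eq, hg0, map_C]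
  · rw [lx, lx, IsLocalization.Away.lift_eq, hg0, map_X]

/-- the map of localizations -/
noncomputable def lmap (h : ∀ f ∈ I, MvPolynomial.map φ f ∈ I') {J J' : Finset (Fin n)} (hJ : J ⊆ J') :
    LR I J →+* LR I' J' := (lmap_exists φ h hJ).choose

theorem lmap_base (h : ∀ f ∈ I, MvPolynomial.map φ f ∈ I') {J J' : Finset (Fin n)} (hJ : J ⊆ J') (a : A) :
    lmap φ h hJ (algebraMap A _ a) = algebraMap B _ (φ a) := (lmap_exists φ h hJ).choose_spec.1 a

theorem lmap_lx (h : ∀ f ∈ I, MvPolynomial.map φ f ∈ I') {J J' : Finset (Fin n)} (hJ : J ⊆ J') (l : Fin n) :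
    lmap φ h hJ (lx I J l) = lx I' J' l := (lmap_exists φ h hJ).choose_spec.2 l

theorem lmap_cq (h : ∀ f ∈ I, MvPolynomial.map φ f ∈ I') {J J' : Finset (Fin n)} (hJ : J ⊆ J') (l : Fin n)
    {j : Fin n} (hj : j ∈ J) : lmap φ h hJ (cq I J l hj : LR I J) = (cq I' J' l (hJ hj) : LR I' J') := by
  apply (lx_isUnit I' J' (hJ hj)).mul_right_cancel
  rw [cq_mul_lx, ← lmap_lx φ h hJ j, ← map_mul, cq_mul_lx, lmap_lx]

/-- The map of charts induced by a homomorphism `A → B` that maps `I` into `I'`, for `J ⊆ J'`. -/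
noncomputable def cmap (h : ∀ f ∈ I, MvPolynomial.map φ f ∈ I') {J J' : Finset (Fin n)} (hJ : J ⊆ J') :
    chart I J →+* chart I' J' :=
  ((lmap φ h hJ).comp (chart I J).val.toRingHom).codRestrict (chart I' J') fun x => by
    induction x using chart_ind with
    | h1 a =>
      have h1 : ((lmap φ h hJ).comp (chart I J).val.toRingHom) (algebraMap A (chart I J) a) =
        algebraMap B _ (φ a) := lmap_base φ h hJ a
      rw [h1]
      exact (chart I' J').algebraMap_mem (φ a)
    | h2 l m hm =>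
      have h1 : ((lmap φ h hJ).comp (chart I J).val.toRingHom) (cq I J l hm) = (cq I' J' l (hJ hm) : LR I' J') :=
        lmap_cq φ h hJ l hm
      rw [h1]
      exact (cq I' J' l (hJ hm)).2
    | h3 x y hx hy => rw [map_add]; exact (chart I' J').add_mem hx hy
    | h4 x y hx hy => rw [map_mul]; exact (chart I' J').mul_mem hx hy

theorem cmap_base (h : ∀ f ∈ I, MvPolynomial.map φ f ∈ I') {J J' : Finset (Fin n)} (hJ : J ⊆ J') (a : A) :
    cmap φ h hJ (algebraMap A _ a) = algebraMap B _ (φ a) := Subtype.ext (lmap_base φ h hJ a)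

theorem cmap_cq (h : ∀ f ∈ I, MvPolynomial.map φ f ∈ I') {J J' : Finset (Fin n)} (hJ : J ⊆ J') (l : Fin n)
    {j : Fin n} (hj : j ∈ J) : cmap φ h hJ (cq I J l hj) = cq I' J' l (hJ hj) :=
  Subtype.ext (lmap_cq φ h hJ l hj)

theorem cmap_unique (h : ∀ f ∈ I, MvPolynomial.map φ f ∈ I') {J J' : Finset (Fin n)} (hJ : J ⊆ J')
    (g : chart I J →+* chart I' J') (h0 : ∀ a, g (algebraMap A _ a) = algebraMap B _ (φ a))
    (h1 : ∀ l j (hj : j ∈ J), g (cq I J l hj) = cq I' J' l (hJ hj)) : g = cmap φ h hJ := by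
  ext x
  congr 1
  induction x using chart_ind with
  | h1 a => rw [h0, cmap_base]
  | h2 l m hm => rw [h1, cmap_cq]
  | h3 x y hx hy => rw [map_add, map_add, hx, hy]
  | h4 x y hx hy => rw [map_mul, map_mul, hx, hy]

theorem cmap_comp {C : Type w} [CommRing C] (ψ : B →+* C) {I'' : Ideal (MvPolynomial (Fin n) C)}
    (h : ∀ f ∈ I, MvPolynomial.map φ f ∈ I') (h' : ∀ f ∈ I', MvPolynomial.map ψ f ∈ I'')
    (h'' : ∀ f ∈ I, MvPolynomial.map (ψ.comp φ) f ∈ I'')
    {J J' J'' : Finset (Fin n)} (hJ : J ⊆ J') (hJ' : J' ⊆ J'') :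
    (cmap ψ h' hJ').comp (cmap φ h hJ) = cmap (ψ.comp φ) h'' (hJ.trans hJ') := by
  apply cmap_unique
  · intro a
    rw [RingHom.comp_apply, cmap_base, cmap_base, RingHom.comp_apply]
  · intro l j hj
    rw [RingHom.comp_apply, cmap_cq, cmap_cq]

end CMap

section Tr

variable {A : Type u} [CommRing A] {n : ℕ} (I : Ideal (MvPolynomial (Fin n) A))

private theorem map_id_mem : ∀ f ∈ I, MvPolynomial.map (RingHom.id A) f ∈ I := fun f hf => by
  rwa [MvPolynomial.map_id]

/-- The restriction map `chart I J → chart I J'` for `J ⊆ J'`. -/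
noncomputable def tr {J J' : Finset (Fin n)} (hJ : J ⊆ J') : chart I J →ₐ[A] chart I J' :=
  { cmap (RingHom.id A) (map_id_mem I) hJ with
    commutes' := fun a => cmap_base (RingHom.id A) (map_id_mem I) hJ a }

theorem tr_cq {J J' : Finset (Fin n)} (hJ : J ⊆ J') (l : Fin n) {j : Fin n} (hj : j ∈ J) :
    tr I hJ (cq I J l hj) = cq I J' l (hJ hj) := cmap_cq (RingHom.id A) (map_id_mem I) hJ l hj

theorem tr_eq {J J' : Finset (Fin n)} (hJ : J ⊆ J') (x : chart I J) :
    tr I hJ x = cmap (RingHom.id A) (map_id_mem I) hJ x := rfl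

theorem tr_id (J : Finset (Fin n)) : tr I (Finset.Subset.refl J) = AlgHom.id A _ := by
  ext x
  congr 1
  induction x using chart_ind with
  | h1 a => rw [AlgHom.commutes, AlgHom.commutes]
  | h2 l m hm => rw [tr_cq]; rfl
  | h3 x y hx hy => rw [map_add, map_add, hx, hy]
  | h4 x y hx hy => rw [map_mul, map_mul, hx, hy]

theorem tr_tr {J J' J'' : Finset (Fin n)} (hJ : J ⊆ J') (hJ' : J' ⊆ J'') (x : chart I J) :
    tr I hJ' (tr I hJ x) = tr I (hJ.trans hJ') x := by
  induction x using chart_ind with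
  | h1 a => rw [AlgHom.commutes, AlgHom.commutes, AlgHom.commutes]
  | h2 l m hm => rw [tr_cq, tr_cq, tr_cq]
  | h3 x y hx hy => rw [map_add, map_add, map_add, hx, hy]
  | h4 x y hx hy => rw [map_mul, map_mul, map_mul, hx, hy]

variable {I}

end Tr

end MPadcGP
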