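import Pool.Agent.Lib.MP_adc574_ag_GP.GlGen
import Pool.Agent.Lib.MP_adc574_ag_GP.R3Rs

/-!
# REL, R6: the coordinates of the restrictions from `Y` to `X`

* `exists_Tv` (R6a): the coordinates of the restrictions of the adapted basis of `Y`;
* `con_rel` (R6b): if the conjugate filtration of `Y` is opposite, then that of `X` is opposite on the
  image of the cohomology of `Y`.
-/

set_option autoImplicit false
set_option linter.unusedSectionVars false

namespace MPadcGP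

universe u v w x

section

variable {M : Type} [AddCommGroup M] [Fintype M] [DecidableEq M]
  {A : Type u} [CommRing A] {n : ℕ} {I₀ I : Ideal (MvPolynomial (Fin n) A)} {wt : Fin n → M}
  {hI₀ : IsHomog I₀} {hI : IsHomog I} {hw₀ : IsWHomog wt I₀} {hw : IsWHomog wt I}
  {β₀ β : ℕ × M → Type} [∀ a, Fintype (β₀ a)] [∀ a, DecidableEq (β₀ a)] [∀ a, Fintype (β a)]
  [∀ a, DecidableEq (β a)] {lev₀ : ∀ a, β₀ a → ℕ} {lev : ∀ a, β a → ℕ}
  {z₀ : ∀ a, β₀ a → (prC I₀).Ch} {z : ∀ a, β a → (prC I).Ch} {h₀ h : ℕ → ℕ → ℕ}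

/-- PART R6a: the coordinates of the restrictions. -/
theorem exists_Tv (hle : I₀ ≤ I) (hD₀ : DatW hI₀ hw₀ lev₀ z₀ h₀) (hD : DatW hI hw lev z h) :
    ∃ Tv : ∀ a, β₀ a → β a → A,
      ∀ a u, (rsH hle).push (z₀ a u) - ∑ b, Tv a u b • z a b ∈ (prC I).Bc a.1 := by
  have h1 : ∀ a u, ∃ c : β a → A,
      (rsH hle).push (z₀ a u) - ∑ b, c b • z a b ∈ (prC I).Bc a.1 := by
    intro a u
    have h2 := push_mem_Zc (F := rsH hle) (hD₀.self.mem_Zc a u)
    obtain ⟨c, -, hc⟩ := hD.self.gen a 0 ((rsH hle).push (z₀ a u))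
      (by rw [CovD.Fi_zero]; exact h2.1)
      ((rsH_gr hI₀ hw₀ hI hw hle).push_mem (hD₀.self.wt a u)) h2.2
    exact ⟨c, hc⟩
  choose Tv hTv using h1
  exact ⟨Tv, hTv⟩

/-- The coordinates of the restrictions of linear combinations, after base change. -/
theorem rs_lin_mem (hle : I₀ ≤ I) {Tv : ∀ a, β₀ a → β a → A}
    (hT : ∀ a u, (rsH hle).push (z₀ a u) - ∑ b, Tv a u b • z a b ∈ (prC I).Bc a.1)
    {κ : Type u} [CommRing κ] (φ : A →+* κ) (a : ℕ × M) (s : β₀ a → κ) :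
    (rsH (bI_mono φ hle)).push (∑ v, s v • (prH φ I₀).push (z₀ a v)) -
      ∑ b, (∑ v, s v • fun b => φ (Tv a v b)) b • (prH φ I).push (z a b) ∈
        (prC (bI φ I)).Bc a.1 := by
  have e1 : ∑ b, (∑ v, s v • fun b => φ (Tv a v b)) b • (prH φ I).push (z a b) =
      ∑ v, s v • (prH φ I).push (∑ b, Tv a v b • z a b) := by
    have h1 : ∀ b, (∑ v, s v • fun b => φ (Tv a v b)) b • (prH φ I).push (z a b) =
        ∑ v, s v • (φ (Tv a v b) • (prH φ I).push (z a b)) := fun b => by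
      rw [Finset.sum_apply, Finset.sum_smul]
      exact Finset.sum_congr rfl fun v _ => mul_smul _ _ _
    rw [Finset.sum_congr rfl fun b _ => h1 b, Finset.sum_comm]
    refine Finset.sum_congr rfl fun v _ => ?_
    rw [push_lin, Finset.smul_sum]
  rw [e1, push_lin, ← Finset.sum_sub_distrib]
  refine Submodule.sum_mem _ fun v _ => ?_
  rw [RingHom.id_apply, ← smul_sub, rsH_bc φ hle, ← map_sub]
  exact Submodule.smul_mem _ _ (push_mem_Bc (hT a v))

/-- PART R6b: the conjugate filtration is opposite on the image of the cohomology of `Y`. -/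
theorem con_rel (hle : I₀ ≤ I) (hD₀ : DatW hI₀ hw₀ lev₀ z₀ h₀) (hD : DatW hI hw lev z h)
    {Tv : ∀ a, β₀ a → β a → A}
    (hT : ∀ a u, (rsH hle).push (z₀ a u) - ∑ b, Tv a u b • z a b ∈ (prC I).Bc a.1)
    {κ : Type u} [Field κ] (φ : A →+* κ) (hopp : IsOppC (prC (bI φ I₀)))
    (hdim : DimC (prC (bI φ I₀))) (a : ℕ × M) (i : ℕ) (u : β₀ a) :
    ∃ s : β₀ a → κ, (∑ v, s v • fun b => φ (Tv a v b)) ∈ (hD.ad κ φ).con a i ∧
      ∀ b, lev a b < i + 1 → ((fun b => φ (Tv a u b)) - ∑ v, s v • fun b => φ (Tv a v b)) b = 0 := by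
  have had₀ := hD₀.ad κ φ
  have had := hD.ad κ φ
  have hfin : FiniteDimensional κ ((prC (bI φ I₀)).HdR a.1) := (hD₀.total.ad κ φ).finite a.1
  have htop : (prC (bI φ I₀)).Con a.1 i ⊔ (prC (bI φ I₀)).Fil a.1 (i + 1) = ⊤ := by
    apply Submodule.eq_top_of_finrank_eq
    have h1 := Submodule.finrank_sup_add_finrank_inf_eq ((prC (bI φ I₀)).Con a.1 i)
      ((prC (bI φ I₀)).Fil a.1 (i + 1))
    rw [hopp a.1 i, finrank_bot, add_zero, hdim a.1 i] at h1
    exact h1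
  -- the decomposition on `Y`
  have h1 : (prC (bI φ I₀)).cl a.1 ⟨(prH φ I₀).push (z₀ a u), had₀.mem_Zc a u⟩ ∈
      (prC (bI φ I₀)).Con a.1 i ⊔ (prC (bI φ I₀)).Fil a.1 (i + 1) := by
    rw [htop]
    exact Submodule.mem_top
  obtain ⟨y, hy, y', hy', hyy⟩ := Submodule.mem_sup.1 h1
  obtain ⟨c, hc, rfl⟩ := CovD.mem_Con.1 hy
  obtain ⟨c', hc', rfl⟩ := CovD.mem_Fil.1 hy'
  rw [← map_add, CovD.cl_eq, Submodule.coe_add] at hyy
  -- the components of weight `a.2`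
  have h2 := (grP (hI₀.map φ) (hw₀.map φ)).P_mem_Bc hyy a.2
  rw [map_sub, map_add, (grP (hI₀.map φ) (hw₀.map φ)).mem_Wt.1 (had₀.wt a u)] at h2
  have hc1 := (grP (hI₀.map φ) (hw₀.map φ)).P_mem_Zc c.2 a.2
  have hc1' := (grP (hI₀.map φ) (hw₀.map φ)).P_mem_Zc c'.2 a.2
  have hc2 := (grP (hI₀.map φ) (hw₀.map φ)).P_mem_Ni hc a.2
  have hc2' := (grP (hI₀.map φ) (hw₀.map φ)).P_mem_Fi hc' a.2
  generalize hd : (grP (hI₀.map φ) (hw₀.map φ)).P a.2 (c : (prC (bI φ I₀)).Ch) = d at h2 hc1 hc2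
  generalize hd' : (grP (hI₀.map φ) (hw₀.map φ)).P a.2 (c' : (prC (bI φ I₀)).Ch) = d' at h2 hc1' hc2'
  have hdw : d ∈ (grP (hI₀.map φ) (hw₀.map φ)).Wt a.2 := by
    rw [← hd]
    exact (grP (hI₀.map φ) (hw₀.map φ)).P_mem _ _
  obtain ⟨s, -, hs⟩ := had₀.gen a 0 d (by rw [CovD.Fi_zero]; exact hc1.1) hdw hc1.2
  -- push to `X`
  have k1 := push_mem_Bc (F := rsH (bI_mono φ hle)) hs
  rw [map_sub] at k1
  have k2 := Submodule.add_mem _ k1 (rs_lin_mem hle hT φ a s)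
  rw [sub_add_sub_cancel] at k2
  have k3 := push_mem_Bc (F := rsH (bI_mono φ hle)) h2
  rw [map_sub, map_add] at k3
  have k4 := rs_lin_mem hle hT φ a (Pi.single u (1 : κ))
  have e1 : ∑ v, (Pi.single u (1 : κ) : β₀ a → κ) v • (prH φ I₀).push (z₀ a v) =
      (prH φ I₀).push (z₀ a u) := by
    rw [Finset.sum_eq_single u, Pi.single_eq_same, one_smul]
    · intro v _ hv
      rw [Pi.single_eq_of_ne hv, zero_smul]
    · intro h
      exact absurd (Finset.mem_univ _) h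
  have e2 : (∑ v, (Pi.single u (1 : κ) : β₀ a → κ) v • fun b => φ (Tv a v b)) =
      fun b => φ (Tv a u b) := by
    rw [Finset.sum_eq_single u, Pi.single_eq_same, one_smul]
    · intro v _ hv
      rw [Pi.single_eq_of_ne hv, zero_smul]
    · intro h
      exact absurd (Finset.mem_univ _) h
  rw [e1, e2] at k4
  refine ⟨s, ?_, ?_⟩
  · refine CovD.mem_Con.2 ⟨⟨(rsH (bI_mono φ hle)).push d, push_mem_Zc hc1⟩,
      CovD.Hm.push_mem_Ni hc2, ?_⟩
    rw [had.crd_eq, CovD.cl_eq, IsAdW.lc_coe]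
    exact k2
  · rw [← had.crd_mem_Fil]
    refine CovD.mem_Fil.2 ⟨⟨(rsH (bI_mono φ hle)).push d', push_mem_Zc hc1'⟩,
      CovD.Hm.push_mem_Fi hc2', ?_⟩
    rw [had.crd_eq, CovD.cl_eq, IsAdW.lc_coe]
    have k5 := Submodule.sub_mem _ (Submodule.add_mem _ k4 k3) k2
    have e3 : ∑ b, ((fun b => φ (Tv a u b)) - ∑ v, s v • fun b => φ (Tv a v b)) b •
        (prH φ I).push (z a b) = ∑ b, φ (Tv a u b) • (prH φ I).push (z a b) -
          ∑ b, (∑ v, s v • fun b => φ (Tv a v b)) b • (prH φ I).push (z a b) := by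
      rw [← Finset.sum_sub_distrib]
      exact Finset.sum_congr rfl fun b _ => sub_smul _ _ _
    rw [e3]
    have e4 : ∀ p q r s t : (prC (bI φ I)).Ch, (p - q) + ((r + s) - p) - (r - t) = s - (q - t) := by
      intro p q r s t
      abel
    rw [e4] at k5
    exact k5

end

end MPadcGP
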