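import Pool.Agent.Lib.MP_adc574_ag_GP.R3Spr

/-!
# REL, part R9: from the field of fractions to the Artinian quotients

* `exists_den_Tt`: cochains over the field of fractions have a denominator.
* `opp_of_art`: if the filtrations are opposite over all quotients by the powers of a prime ideal then they are
  opposite over the field of fractions.
-/

set_option autoImplicit false
set_option linter.unusedSectionVars false

namespace MPadcGP

open MvPolynomial

universe u v w x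

theorem wd_base_mul {A : Type u} {R : Type v} [CommRing A] [CommRing R] [Algebra A R] {q : ℕ}
    (a : Fin q → A) (t : Fin q → R) :
    wd A (fun i => algebraMap A R (a i) * t i) = (∏ i, a i) • wd A t := by
  unfold wd
  have h1 : (fun i => KaehlerDifferential.D A R (algebraMap A R (a i) * t i)) =
      fun i => algebraMap A R (a i) • KaehlerDifferential.D A R (t i) := by
    funext i
    rw [Derivation.leibniz, Derivation.map_algebraMap, smul_zero, add_zero]
  rw [h1]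
  refine ((ExteriorAlgebra.ιMulti R q).toMultilinearMap.map_smul_univ
    (fun i => algebraMap A R (a i)) fun i => KaehlerDifferential.D A R (t i)).trans ?_
  rw [← map_prod, algebraMap_smul]
  rfl

section den

variable {A : Type u} [CommRing A] {R : Type v} [CommRing R] {K : Type w} [Field K] {n : ℕ}
  {ρ : A →+* R} {φ₁ : R →+* K} {φ : A →+* K}

theorem exists_den_fun_aux (hχ : φ₁.comp ρ = φ)
    (hfr : ∀ x : K, ∃ a b : R, φ₁ b ≠ 0 ∧ x = φ₁ a / φ₁ b)
    (I : Ideal (MvPolynomial (Fin n) A)) (J : Finset (Fin n)) (r : chart (bI φ I) J) :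
    ∃ a : R, φ₁ a ≠ 0 ∧ ∃ r' : chart (bI ρ I) J,
      cmap φ₁ (bI_mem_of_comp hχ I) (Finset.Subset.refl J) r' = algebraMap K _ (φ₁ a) * r := by
  induction r using chart_ind with
  | h1 x =>
    obtain ⟨a, b, hb, rfl⟩ := hfr x
    refine ⟨b, hb, algebraMap R _ a, ?_⟩
    rw [cmap_base, ← map_mul, mul_div_cancel₀ _ hb]
  | h2 l m hm =>
    refine ⟨1, by rw [map_one]; exact one_ne_zero, cq _ J l hm, ?_⟩
    rw [cmap_cq, map_one, map_one, one_mul]
  | h3 x y hx hy =>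
    obtain ⟨a, ha, x', hx'⟩ := hx
    obtain ⟨b, hb, y', hy'⟩ := hy
    refine ⟨a * b, by rw [map_mul]; exact mul_ne_zero ha hb,
      algebraMap R _ b * x' + algebraMap R _ a * y', ?_⟩
    rw [map_add, map_mul, map_mul, cmap_base, cmap_base, hx', hy', map_mul, map_mul]
    ring
  | h4 x y hx hy =>
    obtain ⟨a, ha, x', hx'⟩ := hx
    obtain ⟨b, hb, y', hy'⟩ := hy
    refine ⟨a * b, by rw [map_mul]; exact mul_ne_zero ha hb, x' * y', ?_⟩
    rw [map_mul, hx', hy', map_mul, map_mul]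
    ring

/-- Functions have a denominator. -/
theorem exists_den_fun (hχ : φ₁.comp ρ = φ)
    (hfr : ∀ x : K, ∃ a b : R, φ₁ b ≠ 0 ∧ x = φ₁ a / φ₁ b)
    (I : Ideal (MvPolynomial (Fin n) A)) (J : Finset (Fin n)) (r : (prC (bI φ I)).R J) :
    ∃ a : R, φ₁ a ≠ 0 ∧ ∃ r' : (prC (bI ρ I)).R J,
      (prT hχ I).h J r' = algebraMap K _ (φ₁ a) * r :=
  exists_den_fun_aux hχ hfr I J r

/-- Forms have a denominator. -/
theorem exists_den_form (hχ : φ₁.comp ρ = φ)
    (hfr : ∀ x : K, ∃ a b : R, φ₁ b ≠ 0 ∧ x = φ₁ a / φ₁ b)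
    (I : Ideal (MvPolynomial (Fin n) A)) (J : Finset (Fin n)) {q : ℕ} {e : (prC (bI φ I)).E J}
    (he : e ∈ Fd K ((prC (bI φ I)).R J) q) :
    ∃ a : R, φ₁ a ≠ 0 ∧ ∃ e' ∈ Fd R ((prC (bI ρ I)).R J) q, (prT hχ I).e J e' = φ₁ a • e := by
  classical
  refine fd_ind (P := fun e => ∃ a : R, φ₁ a ≠ 0 ∧ ∃ e' ∈ Fd R ((prC (bI ρ I)).R J) q,
    (prT hχ I).e J e' = φ₁ a • e) ?_ ?_ ?_ he
  · exact ⟨1, by rw [map_one]; exact one_ne_zero, 0, Submodule.zero_mem _, by
      rw [map_zero, smul_zero]⟩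
  · intro r t
    obtain ⟨a, ha, r', hr'⟩ := exists_den_fun hχ hfr I J r
    choose b hb t' ht' using fun i => exists_den_fun hχ hfr I J (t i)
    refine ⟨a * ∏ i, b i, by
      rw [map_mul, map_prod]; exact mul_ne_zero ha (Finset.prod_ne_zero_iff.2 fun i _ => hb i),
      fz R r' * wd R t', fz_mul_mem _ (wd_mem _), ?_⟩
    rw [map_mul, CovD.Hm.e_fz, hr']
    have h3 : (prT hχ I).e J (wd R t') = (∏ i, φ₁ (b i)) • wd K t := by
      refine (mp_wd _ _).trans ?_
      rw [← wd_base_mul]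
      exact congrArg _ (funext ht')
    rw [h3, map_mul, ← smul_fm, smul_mul_smul_comm, map_mul, map_prod]
  · rintro x y ⟨a, ha, x', hx, hx'⟩ ⟨b, hb, y', hy, hy'⟩
    refine ⟨a * b, by rw [map_mul]; exact mul_ne_zero ha hb, fz R (algebraMap R _ b) * x' +
      fz R (algebraMap R _ a) * y', Submodule.add_mem _ (fz_mul_mem _ hx) (fz_mul_mem _ hy), ?_⟩
    rw [← smul_fm, ← smul_fm, map_add, CovD.Hm.e_smul, CovD.Hm.e_smul, hx', hy',
      smul_smul, smul_smul, map_mul, smul_add, mul_comm (φ₁ b)]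

/-- Cochains of total degree `m` have a denominator. -/
theorem exists_den_Tt (hχ : φ₁.comp ρ = φ)
    (hfr : ∀ x : K, ∃ a b : R, φ₁ b ≠ 0 ∧ x = φ₁ a / φ₁ b)
    (I : Ideal (MvPolynomial (Fin n) A)) {m : ℕ} {c : (prC (bI φ I)).Ch}
    (hc : c ∈ (prC (bI φ I)).Tt m) :
    ∃ a : R, φ₁ a ≠ 0 ∧ ∃ c' ∈ (prC (bI ρ I)).Tt m, (prT hχ I).push c' = φ₁ a • c := by
  classical
  have h1 : ∀ J : Finset (Fin n), ∃ a : R, φ₁ a ≠ 0 ∧ ∃ e' : (prC (bI ρ I)).E J,
        (J = ∅ → e' = 0) ∧ (∀ q, q + J.card = m + 1 → e' ∈ Fd R ((prC (bI ρ I)).R J) q) ∧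
        (m + 1 < J.card → e' = 0) ∧ (prT hχ I).e J e' = φ₁ a • c J := by
    intro J
    by_cases h0 : J = ∅
    · subst h0
      exact ⟨1, by rw [map_one]; exact one_ne_zero, 0, fun _ => rfl,
        fun _ _ => Submodule.zero_mem _, fun _ => rfl, by rw [map_zero, hc.1, smul_zero]⟩
    · by_cases h2 : m + 1 < J.card
      · exact ⟨1, by rw [map_one]; exact one_ne_zero, 0, fun _ => rfl,
          fun _ _ => Submodule.zero_mem _, fun _ => rfl, by
            rw [map_zero, (hc.2 J).2 h2, smul_zero]⟩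
      · obtain ⟨a, ha, e', he', he⟩ := exists_den_form hχ hfr I J (q := m + 1 - J.card)
          ((hc.2 J).1 (m + 1 - J.card) (by omega))
        refine ⟨a, ha, e', fun h3 => absurd h3 h0, fun q hq => ?_, fun h3 => absurd h3 h2, he⟩
        have h3 : q = m + 1 - J.card := by omega
        rw [h3]
        exact he'
  choose a ha c' h3 h4 h5 h6 using h1
  refine ⟨∏ J, a J, by rw [map_prod]; exact Finset.prod_ne_zero_iff.2 fun J _ => ha J,
    fun J => (∏ J' ∈ Finset.univ.erase J, a J') • c' J, ⟨?_, fun J => ⟨fun q hq => ?_,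
      fun hJ => ?_⟩⟩, ?_⟩
  · change (∏ J' ∈ Finset.univ.erase ∅, a J') • c' ∅ = 0
    rw [h3 ∅ rfl, smul_zero]
  · change (∏ J' ∈ Finset.univ.erase J, a J') • c' J ∈ _
    rw [smul_fm]
    exact fz_mul_mem _ (h4 J q hq)
  · change (∏ J' ∈ Finset.univ.erase J, a J') • c' J = 0
    rw [h5 J hJ, smul_zero]
  · funext J
    change (prT hχ I).e J ((∏ J' ∈ Finset.univ.erase J, a J') • c' J) = _
    rw [CovD.Hm.e_smul, h6, smul_smul, ← map_mul, mul_comm,
      Finset.mul_prod_erase Finset.univ a (Finset.mem_univ J)]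
    rfl

/-- Coboundaries have a denominator. -/
theorem exists_den_Bc (hχ : φ₁.comp ρ = φ)
    (hfr : ∀ x : K, ∃ a b : R, φ₁ b ≠ 0 ∧ x = φ₁ a / φ₁ b)
    (I : Ideal (MvPolynomial (Fin n) A)) {m : ℕ} {c : (prC (bI φ I)).Ch}
    (hc : c ∈ (prC (bI φ I)).Bc m) :
    ∃ a : R, φ₁ a ≠ 0 ∧ ∃ c' ∈ (prC (bI ρ I)).Bc m, (prT hχ I).push c' = φ₁ a • c := by
  cases m with
  | zero =>
    have h1 : c = 0 := hc
    exact ⟨1, by rw [map_one]; exact one_ne_zero, 0, Submodule.zero_mem _, by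
      rw [h1, map_zero, smul_zero]⟩
  | succ m =>
    obtain ⟨w, hw, rfl⟩ := hc
    obtain ⟨a, ha, w', hw', hww⟩ := exists_den_Tt hχ hfr I hw
    refine ⟨a, ha, _, ⟨w', hw', rfl⟩, ?_⟩
    rw [CovD.Hm.push_Dt, hww, map_smul]

end den

section art

variable {A : Type u} [CommRing A] {n : ℕ} {β : ℕ → Type} [∀ m, Fintype (β m)]

/-- The conjugate filtration and the Hodge filtration are opposite, in coordinates. -/
def IsOppR {R : Type v} [CommRing R] (ρ : A →+* R) (I : Ideal (MvPolynomial (Fin n) A))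
    (lev : ∀ m, β m → ℕ) (z : ∀ m, β m → (prC I).Ch) : Prop :=
  ∀ (m i : ℕ) (x : β m → R), (∀ b, lev m b ≤ i → x b = 0) →
    ∀ c ∈ (prC (bI ρ I)).Ni i m, ∀ w ∈ (prC (bI ρ I)).Bc m,
      ∑ b, x b • (prH ρ I).push (z m b) = c + w → x = 0

variable {I : Ideal (MvPolynomial (Fin n) A)} {lev : ∀ m, β m → ℕ} {z : ∀ m, β m → (prC I).Ch}
  {h : ℕ → ℕ → ℕ}

theorem oppR_of_isOppC (hD : Dat I lev z h) {κ : Type u} [Field κ] (ψ : A →+* κ)
    (hopp : IsOppC (prC (bI ψ I))) : IsOppR ψ I lev z := by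
  intro m i x hx c hc w hw he
  have had := hD.ad κ ψ
  have h2 : c = had.lc m x - w := by
    rw [had.lc_coe, he, add_sub_cancel_right]
  have h3 : c ∈ (prC (bI ψ I)).Zc m := by
    rw [h2]
    exact Submodule.sub_mem _ (had.lc m x).2 (CovD.Bc_le_Zc m hw)
  have h4 : had.eqv m x ∈ (prC (bI ψ I)).Con m i := by
    refine CovD.mem_Con.2 ⟨⟨c, h3⟩, hc, ?_⟩
    rw [had.eqv_apply, CovD.cl_eq]
    have h5 : c - (had.lc m x : (prC (bI ψ I)).Ch) = -w := by
      rw [h2]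
      abel
    change c - (had.lc m x : (prC (bI ψ I)).Ch) ∈ (prC (bI ψ I)).Bc m
    rw [h5]
    exact Submodule.neg_mem _ hw
  have h5 : had.eqv m x ∈ (prC (bI ψ I)).Fil m (i + 1) := by
    rw [had.eqv_mem_Fil]
    exact fun b hb => hx b (by omega)
  have h7 : had.eqv m x ∈ (prC (bI ψ I)).Con m i ⊓ (prC (bI ψ I)).Fil m (i + 1) := ⟨h4, h5⟩
  rw [hopp m i] at h7
  exact (had.eqv m).injective (((Submodule.mem_bot κ).1 h7).trans (map_zero _).symm)

theorem isOppC_of_oppR (hD : Dat I lev z h) {κ : Type u} [Field κ] (ψ : A →+* κ)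
    (hopp : IsOppR ψ I lev z) : IsOppC (prC (bI ψ I)) := by
  intro m i
  have had := hD.ad κ ψ
  rw [eq_bot_iff]
  rintro y ⟨hyC, hyF⟩
  obtain ⟨x, rfl⟩ := (had.eqv m).surjective y
  rw [SetLike.mem_coe, had.eqv_mem_Fil] at hyF
  obtain ⟨c, hc, hcx⟩ := CovD.mem_Con.1 hyC
  rw [had.eqv_apply, CovD.cl_eq, had.lc_coe] at hcx
  have h1 := hopp m i x (fun b hb => hyF b (by omega)) c hc _ (Submodule.neg_mem _ hcx) (by abel)
  rw [h1, map_zero]
  exact Submodule.zero_mem _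

/-- Denominators for the relations. -/
theorem oppR_of_frac [∀ m, DecidableEq (β m)] (hI : IsHomog I) (hs : IsSmoothProj I)
    (hD : Dat I lev z h) {R : Type v}
    [CommRing R] {K : Type w} [Field K] {ρ : A →+* R} {φ₁ : R →+* K} {φ : A →+* K}
    (hχ : φ₁.comp ρ = φ) (hinj : Function.Injective φ₁)
    (hfr : ∀ x : K, ∃ a b : R, φ₁ b ≠ 0 ∧ x = φ₁ a / φ₁ b) (hopp : IsOppR ρ I lev z) :
    IsOppR φ I lev z := by
  classical
  intro m i x hx c hc w hw he
  have hz : ∀ m b, z m b ∈ (prC I).Tt m := fun m b => (hD.self.mem m b).1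
  obtain ⟨a1, ha1, c', hc', hcc⟩ := exists_den_Tt hχ hfr I hc.1
  obtain ⟨a2, ha2, w', hw', hww⟩ := exists_den_Bc hχ hfr I hw
  choose nx dx hdx hnx using fun b => hfr (x b)
  let a3 : R := ∏ b, dx b
  have ha3 : φ₁ a3 ≠ 0 := by
    rw [map_prod]
    exact Finset.prod_ne_zero_iff.2 fun b _ => hdx b
  let x3 : β m → R := fun b => nx b * ∏ b' ∈ Finset.univ.erase b, dx b'
  have hx3 : ∀ b, φ₁ (x3 b) = φ₁ a3 * x b := by
    intro b
    have h1 : a3 = dx b * ∏ b' ∈ Finset.univ.erase b, dx b' :=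
      (Finset.mul_prod_erase Finset.univ dx (Finset.mem_univ b)).symm
    have h2 : x b * φ₁ (dx b) = φ₁ (nx b) := (eq_div_iff (hdx b)).1 (hnx b)
    rw [h1, map_mul, map_mul, ← h2]
    ring
  let _ : Algebra R K := φ₁.toAlgebra
  let F : CovD.Hm (algebraMap R K) (prC (bI ρ I)) (prC (bI φ I)) := prT hχ I
  have hBC : F.IsBC := by
    refine prM_isBC (hI.map _) ?_ _
    change bI φ I = bI φ₁ (bI ρ I)
    rw [bI_bI, hχ]
  have hsm : ∀ J : Finset (Fin n), J.Nonempty →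
      Algebra.Smooth R ((prC (bI ρ I)).R J) := fun J hJ =>
    IsSmoothProj.smooth (hI.map _) (hs.map hI _) hJ
  let X : β m → R := fun b => a1 * a2 * x3 b
  let C' : (prC (bI ρ I)).Ch := (a2 * a3) • c'
  let W' : (prC (bI ρ I)).Ch := (a1 * a3) • w'
  have hC' : C' ∈ (prC (bI ρ I)).Tt m := Submodule.smul_mem _ _ hc'
  have hFC : F.push C' = (φ₁ a1 * φ₁ a2 * φ₁ a3) • c := by
    change F.push ((a2 * a3) • c') = _
    rw [CovD.Hm.push_smul]
    change φ₁ (a2 * a3) • (prT hχ I).push c' = _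
    rw [hcc, smul_smul, map_mul]
    congr 1
    ring
  have hFW : F.push W' = (φ₁ a1 * φ₁ a2 * φ₁ a3) • w := by
    change F.push ((a1 * a3) • w') = _
    rw [CovD.Hm.push_smul]
    change φ₁ (a1 * a3) • (prT hχ I).push w' = _
    rw [hww, smul_smul, map_mul]
    congr 1
    ring
  have hCN : C' ∈ (prC (bI ρ I)).Ni i m :=
    CovD.Hm.mem_Ni_of_push F hBC hinj hsm hC' (by
      rw [hFC]
      exact Submodule.smul_mem _ _ hc)
  have hrel : ∑ b, X b • (prH ρ I).push (z m b) = C' + W' := by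
    rw [← sub_eq_zero]
    refine CovD.Hm.push_inj_Tt F hBC hinj hsm (m := m) ?_ ?_
    · refine Submodule.sub_mem _ (Submodule.sum_mem _ fun b _ => Submodule.smul_mem _ _ ?_)
        (Submodule.add_mem _ hC' (Submodule.smul_mem _ _ (CovD.Bc_le_Zc m hw').1))
      exact CovD.Hm.push_mem_Tt (hz m b)
    · rw [map_sub, map_add, hFC, hFW, push_sum, ← smul_add, ← he, Finset.smul_sum, sub_eq_zero]
      refine Finset.sum_congr rfl fun b _ => ?_
      have h1 : F.push ((prH ρ I).push (z m b)) = (prH φ I).push (z m b) := prT_push hχ I _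
      rw [h1, smul_smul]
      congr 1
      change φ₁ (a1 * a2 * x3 b) = _
      rw [map_mul, map_mul, hx3]
      ring
  have hX := hopp m i X (fun b hb => ?_) C' hCN W' (Submodule.smul_mem _ _ hw') hrel
  · funext b
    have h1 : φ₁ (X b) = 0 := by
      rw [hX]
      exact map_zero φ₁
    change φ₁ (a1 * a2 * x3 b) = 0 at h1
    rw [map_mul, map_mul, hx3] at h1
    have h2 := mul_ne_zero (mul_ne_zero ha1 ha2) ha3
    rw [← mul_assoc] at h1
    exact (mul_eq_zero.1 h1).resolve_left h2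
  · apply hinj
    change φ₁ (a1 * a2 * x3 b) = φ₁ 0
    rw [map_mul, map_mul, hx3, hx b hb, mul_zero, mul_zero, map_zero]

/-- Opposite over all quotients by the powers of a proper ideal of a Noetherian domain implies opposite. -/
theorem oppR_of_pow {R : Type v} [CommRing R] [IsDomain R] [IsNoetherianRing R] (ρ : A →+* R)
    (𝔪 : Ideal R) (h𝔪 : 𝔪 ≠ ⊤)
    (hN : ∀ N : ℕ, IsOppR ((Ideal.Quotient.mk (𝔪 ^ N)).comp ρ) I lev z) : IsOppR ρ I lev z := by
  intro m i x hx c hc w hw he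
  funext b
  have h1 : ∀ N : ℕ, x b ∈ 𝔪 ^ N := by
    intro N
    let G := prT (rfl : (Ideal.Quotient.mk (𝔪 ^ N)).comp ρ = _) I
    have h2 := hN N m i (fun b => Ideal.Quotient.mk (𝔪 ^ N) (x b)) (fun b hb => by
      change Ideal.Quotient.mk (𝔪 ^ N) (x b) = 0
      rw [hx b hb, map_zero]) (G.push c) (CovD.Hm.push_mem_Ni hc) (G.push w)
      (CovD.Hm.push_mem_Bc hw) (by
        rw [← map_add, ← he, push_sum]
        refine Finset.sum_congr rfl fun b _ => ?_
        rw [prT_push])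
    exact Ideal.Quotient.eq_zero_iff_mem.1 (congrFun h2 b)
  have h2 : x b ∈ ⨅ N : ℕ, 𝔪 ^ N := by
    rw [Ideal.mem_iInf]
    exact h1
  rw [Ideal.iInf_pow_eq_bot_of_isDomain 𝔪 h𝔪] at h2
  exact (Submodule.mem_bot R).1 h2

/-- PART R9a (helper33). -/
theorem opp_of_art [∀ m, DecidableEq (β m)] [IsNoetherianRing A] (hI : IsHomog I)
    (hs : IsSmoothProj I) (hD : Dat I lev z h) {K : Type u} [Field K] (φ : A →+* K)
    (hφ : ∀ x : K, ∃ a b : A, φ b ≠ 0 ∧ x = φ a / φ b) {κ : Type u} [Field κ]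
    (ψ : A →+* κ) (hk : ∀ a, φ a = 0 → ψ a = 0)
    (hN : ∀ N : ℕ, IsOppR ((Ideal.Quotient.mk (((RingHom.ker ψ).map
      (Ideal.Quotient.mk (RingHom.ker φ))) ^ N)).comp (Ideal.Quotient.mk (RingHom.ker φ))) I lev z) :
    IsOppC (prC (bI φ I)) := by
  refine isOppC_of_oppR hD φ ?_
  have hinj : Function.Injective (RingHom.kerLift φ) := RingHom.kerLift_injective φ
  have hdom : IsDomain (A ⧸ RingHom.ker φ) := hinj.isDomain
  refine oppR_of_frac hI hs hD (ρ := Ideal.Quotient.mk (RingHom.ker φ))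
    (φ₁ := RingHom.kerLift φ) (RingHom.ext fun _ => rfl) hinj (fun x => ?_) ?_
  · obtain ⟨a, b, hb, hx⟩ := hφ x
    exact ⟨Ideal.Quotient.mk _ a, Ideal.Quotient.mk _ b, hb, hx⟩
  · refine oppR_of_pow _ _ (fun h0 => ?_) hN
    have h1 : (1 : A ⧸ RingHom.ker φ) ∈ (RingHom.ker ψ).map (Ideal.Quotient.mk (RingHom.ker φ)) := by
      rw [h0]
      exact Submodule.mem_top
    obtain ⟨a, ha, ha1⟩ := (Ideal.mem_map_iff_of_surjective _ Ideal.Quotient.mk_surjective).1 h1
    have h2 : Ideal.Quotient.mk (RingHom.ker φ) (a - 1) = 0 := by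
      rw [map_sub, ha1, map_one, sub_self]
    have h3 := hk _ (RingHom.mem_ker.1 (Ideal.Quotient.eq_zero_iff_mem.1 h2))
    rw [map_sub, RingHom.mem_ker.1 ha, map_one, zero_sub] at h3
    exact one_ne_zero (neg_eq_zero.1 h3)

end art

end MPadcGP
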