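import Pool.Agent.Lib.MP_adc574_ag_GP.CarFin
import Pool.Agent.Lib.MP_adc574_ag_GP.ClB
import Pool.Agent.Lib.MP_adc574_ag_GP.BCe

/-!
# REL, part R9 (β): closed forms over Artinian rings (helper79)

* `ker_of_bcl`: the kernel of a base change along a surjective homomorphism.
* `indep_of_sum_mem`: relations with independent coefficients in flat modules.
* `Gd p`: combinations of the forms `f^p t_1^(p-1) dt_1 ⋯` and exact forms; `closed_mem_gd`: over a ring of characteristic
  `p` with a nilpotent ideal with perfect residue field every closed form is of this shape.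
* `CovD.Hm.Ni_lift`: the conjugate cochains lift. `CovD.Hm.ker_Tt`, `CovD.Hm.indep`, `CovD.Hm.Ni_comp`: the kernel.
-/

set_option autoImplicit false
set_option linter.unusedSectionVars false

namespace MPadcGP

open TensorProduct

universe u v w x y z

/-! ## Algebra -/

section alg

variable {A : Type*} {B : Type*} [CommRing A] [CommRing B] [Algebra A B] {M N : Type*}
  [AddCommGroup M] [Module A M] [AddCommGroup N] [Module B N]

/-- The kernel of a base change along a surjective homomorphism. -/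
theorem ker_of_bcl (hs : Function.Surjective (algebraMap A B)) (φ : M →+ N)
    (hφ : ∀ (a : A) (m : M), φ (a • m) = algebraMap A B a • φ m)
    (hb : Function.Injective (bcl φ hφ)) {m : M} (hm : φ m = 0) :
    m ∈ RingHom.ker (algebraMap A B) • (⊤ : Submodule A M) := by
  have h1 : (1 : B) ⊗ₜ[A] m = 0 := hb (by rw [map_zero, bcl_tmul, one_smul, hm])
  have hex : Function.Exact (Submodule.subtype (RingHom.ker (algebraMap A B))) (Algebra.linearMap A B) := by
    intro a
    constructor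
    · intro ha
      exact ⟨⟨a, ha⟩, rfl⟩
    · rintro ⟨b, rfl⟩
      exact b.2
  have h2 := rTensor_exact M hex hs
  have h3 : (Algebra.linearMap A B).rTensor M ((1 : A) ⊗ₜ[A] m) = 0 := by
    rw [LinearMap.rTensor_tmul, Algebra.linearMap_apply, map_one]
    exact h1
  obtain ⟨t, ht⟩ := (h2 _).1 h3
  have h4 : ∀ t : (RingHom.ker (algebraMap A B)) ⊗[A] M, TensorProduct.lid A M
      ((Submodule.subtype (RingHom.ker (algebraMap A B))).rTensor M t) ∈
        RingHom.ker (algebraMap A B) • (⊤ : Submodule A M) := by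
    intro t
    induction t using TensorProduct.induction_on with
    | zero =>
      rw [map_zero, map_zero]
      exact Submodule.zero_mem _
    | tmul b m =>
      rw [LinearMap.rTensor_tmul, TensorProduct.lid_tmul]
      exact Submodule.smul_mem_smul b.2 Submodule.mem_top
    | add s t hs ht =>
      rw [map_add, map_add]
      exact Submodule.add_mem _ hs ht
  have h5 := h4 t
  rwa [ht, TensorProduct.lid_tmul, one_smul] at h5

theorem exists_sum_of_mem_smul_top {K : Ideal A} {r : ℕ} {ε : Fin r → A}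
    (hε : K ≤ Ideal.span (Set.range ε)) {m : M} (hm : m ∈ K • (⊤ : Submodule A M)) :
    ∃ c : Fin r → M, m = ∑ j, ε j • c j := by
  refine Submodule.smul_induction_on (p := fun m => ∃ c : Fin r → M, m = ∑ j, ε j • c j) hm ?_ ?_
  · intro a ha m _
    obtain ⟨d, hd⟩ := (Ideal.mem_span_range_iff_exists_fun).1 (hε ha)
    refine ⟨fun j => d j • m, ?_⟩
    rw [← hd, Finset.sum_smul]
    refine Finset.sum_congr rfl fun j _ => ?_
    rw [smul_smul, mul_comm]
  · rintro x y ⟨c, rfl⟩ ⟨d, rfl⟩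
    refine ⟨c + d, ?_⟩
    rw [← Finset.sum_add_distrib]
    refine Finset.sum_congr rfl fun j _ => ?_
    rw [Pi.add_apply, smul_add]

theorem exists_fintype_sum {K : Ideal A} {m : M} (hm : m ∈ K • (⊤ : Submodule A M)) :
    ∃ (ι : Type) (_ : Fintype ι) (δ : ι → A) (z : ι → M), (∀ k, δ k ∈ K) ∧ m = ∑ k, δ k • z k := by
  refine Submodule.smul_induction_on (p := fun m => ∃ (ι : Type) (_ : Fintype ι) (δ : ι → A)
    (z : ι → M), (∀ k, δ k ∈ K) ∧ m = ∑ k, δ k • z k) hm ?_ ?_
  · intro a ha m _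
    refine ⟨Unit, inferInstance, fun _ => a, fun _ => m, fun _ => ha, ?_⟩
    rw [Finset.univ_unique, Finset.sum_singleton]
  · rintro x y ⟨ι, hι, δ, z, hδ, rfl⟩ ⟨ι', hι', δ', z', hδ', rfl⟩
    refine ⟨ι ⊕ ι', inferInstance, Sum.elim δ δ', Sum.elim z z', ?_, ?_⟩
    · rintro (k | k)
      · exact hδ k
      · exact hδ' k
    · rw [Fintype.sum_sum_type]
      rfl

/-- Relations in a flat module whose coefficients are independent modulo `I₁`. -/
theorem indep_of_sum_mem [Module.Flat A M] {I₁ K₀ : Ideal A} {r : ℕ} {ε : Fin r → A}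
    (hind : ∀ a : Fin r → A, ∑ j, a j * ε j ∈ I₁ → ∀ j, a j ∈ K₀) {c : Fin r → M}
    (hc : ∑ j, ε j • c j ∈ I₁ • (⊤ : Submodule A M)) (j : Fin r) :
    c j ∈ K₀ • (⊤ : Submodule A M) := by
  obtain ⟨ι, hι, δ, z, hδ, hz⟩ := exists_fintype_sum hc
  have h1 : ∑ l : Fin r ⊕ ι, (Sum.elim ε δ) l • (Sum.elim c (fun k => -z k)) l = 0 := by
    rw [Fintype.sum_sum_type]
    simp only [Sum.elim_inl, Sum.elim_inr, smul_neg]
    rw [Finset.sum_neg_distrib, ← hz, add_neg_cancel]
  obtain ⟨k', a, y, ha, hy⟩ := Module.Flat.isTrivialRelation_of_sum_smul_eq_zero h1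
  have h2 : ∀ i, a (Sum.inl j) i ∈ K₀ := by
    intro i
    refine hind (fun j => a (Sum.inl j) i) ?_ j
    have h3 := hy i
    rw [Fintype.sum_sum_type] at h3
    simp only [Sum.elim_inl, Sum.elim_inr] at h3
    have h4 : ∑ j, a (Sum.inl j) i * ε j = -∑ k, δ k * a (Sum.inr k) i := by
      rw [← sub_eq_zero, sub_neg_eq_add, ← h3]
      congr 1
      exact Finset.sum_congr rfl fun j _ => mul_comm _ _
    rw [h4]
    exact Ideal.neg_mem_iff _ |>.2 (Ideal.sum_mem _ fun k _ => Ideal.mul_mem_right _ _ (hδ k))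
  have h3 := ha (Sum.inl j)
  rw [Sum.elim_inl] at h3
  rw [h3]
  exact Submodule.sum_mem _ fun i _ => Submodule.smul_mem_smul (h2 i) Submodule.mem_top

theorem map_mem_smul_top {M' : Type*} [AddCommGroup M'] [Module A M'] {K : Ideal A} (D : M →ₗ[A] M') {m : M}
    (hm : m ∈ K • (⊤ : Submodule A M)) : D m ∈ K • (⊤ : Submodule A M') := by
  have h1 : D m ∈ (K • (⊤ : Submodule A M)).map D := ⟨m, hm, rfl⟩
  rw [Submodule.map_smul''] at h1
  exact Submodule.smul_mono le_rfl le_top h1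

/-- Elements of `K ⊤` are mapped to zero by base changes. -/
theorem map_zero_of_mem_ker_smul (φ : M →+ N)
    (hφ : ∀ (a : A) (m : M), φ (a • m) = algebraMap A B a • φ m) {m : M}
    (hm : m ∈ RingHom.ker (algebraMap A B) • (⊤ : Submodule A M)) : φ m = 0 := by
  refine Submodule.smul_induction_on (p := fun m => φ m = 0) hm ?_ ?_
  · intro a ha m _
    rw [hφ, RingHom.mem_ker.1 ha, zero_smul]
  · intro x y hx hy
    rw [map_add, hx, hy, add_zero]

end alg

/-! ## Combinations of the forms `f^p t_1^(p-1) dt_1 ⋯` and exact forms -/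

section gd

variable (p : ℕ) (A : Type u) (R : Type v) [CommRing A] [CommRing R] [Algebra A R]

/-- Combinations of the forms `f^p t_1^(p-1) dt_1 ⋯` and exact forms. -/
noncomputable def Gq (a : ℕ) : AddSubgroup (Fm A R) :=
  AddSubgroup.closure {e | ∃ (c : A) (f : R) (t : Fin a → R),
    e = c • (fz A (f ^ p) * (fz A (∏ i, t i ^ (p - 1)) * wd A t))} ⊔ exq A R a

variable {p A R}

theorem gq_gen {a : ℕ} (c : A) (f : R) (t : Fin a → R) :
    c • (fz A (f ^ p) * (fz A (∏ i, t i ^ (p - 1)) * wd A t)) ∈ Gq p A R a :=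
  AddSubgroup.mem_sup_left (AddSubgroup.subset_closure ⟨c, f, t, rfl⟩)

theorem gq_exq {a : ℕ} {e : Fm A R} (he : e ∈ exq A R a) : e ∈ Gq p A R a :=
  AddSubgroup.mem_sup_right he

theorem gq_ind {a : ℕ} {P : Fm A R → Prop}
    (h1 : ∀ (c : A) (f : R) (t : Fin a → R),
      P (c • (fz A (f ^ p) * (fz A (∏ i, t i ^ (p - 1)) * wd A t))))
    (h2 : ∀ e ∈ exq A R a, P e) (h3 : ∀ x y, P x → P y → P (x + y)) (h4 : ∀ x, P x → P (-x))
    {e : Fm A R} (he : e ∈ Gq p A R a) : P e := by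
  obtain ⟨x, hx, y, hy, rfl⟩ := AddSubgroup.mem_sup.1 he
  refine h3 x y ?_ (h2 y hy)
  clear he
  induction hx using AddSubgroup.closure_induction with
  | mem x hx =>
    obtain ⟨c, f, t, rfl⟩ := hx
    exact h1 c f t
  | zero =>
    have h5 := h2 0 (zero_mem _)
    exact h5
  | add x y _ _ hx hy => exact h3 x y hx hy
  | neg x _ hx => exact h4 x hx

theorem gq_mem {a : ℕ} {e : Fm A R} (he : e ∈ Gq p A R a) : e ∈ Fd A R a := by
  refine gq_ind (P := fun e => e ∈ Fd A R a) ?_ ?_ ?_ ?_ he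
  · intro c f t
    rw [smul_fm]
    exact fz_mul_mem _ (fz_mul_mem _ (fz_mul_mem _ (wd_mem t)))
  · intro e he
    exact exq_le he
  · intro x y hx hy
    exact Submodule.add_mem _ hx hy
  · intro x hx
    exact Submodule.neg_mem _ hx

theorem gq_closed [Fact p.Prime] [CharP A p] {a : ℕ} {e : Fm A R} (he : e ∈ Gq p A R a) : dd A e = 0 := by
  refine gq_ind (P := fun e => dd A e = 0) ?_ ?_ ?_ ?_ he
  · intro c f t
    rw [dd_smul, ((Rep.fz (p := p) (A := A) f).mul (Rep.wd t)).closed, smul_zero]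
  · intro e he
    exact exq_closed he
  · intro x y hx hy
    rw [map_add, hx, hy, add_zero]
  · intro x hx
    rw [map_neg, hx, neg_zero]

theorem gq_smul {a : ℕ} (b : A) {e : Fm A R} (he : e ∈ Gq p A R a) : b • e ∈ Gq p A R a := by
  refine gq_ind (P := fun e => b • e ∈ Gq p A R a) ?_ ?_ ?_ ?_ he
  · intro c f t
    rw [smul_smul]
    exact gq_gen _ f t
  · intro e he
    exact gq_exq (exq_smul b he)
  · intro x y hx hy
    rw [smul_add]
    exact add_mem hx hy
  · intro x hx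
    rw [smul_neg]
    exact neg_mem hx

theorem gq_sum {a : ℕ} {ι : Type*} (s : Finset ι) {e : ι → Fm A R} (he : ∀ i ∈ s, e i ∈ Gq p A R a) :
    ∑ i ∈ s, e i ∈ Gq p A R a := AddSubgroup.sum_mem _ he

/-- Representatives of degree `q`. -/
theorem exists_rep_gq [Fact p.Prime] [CharP A p] {q : ℕ} {x : Fm A R} (hx : x ∈ Fd A R q) :
    ∃ z ∈ Gq p A R q, Rep p x z := by
  refine fd_ind (P := fun x => ∃ z ∈ Gq p A R q, Rep p x z) ?_ ?_ ?_ hx
  · exact ⟨0, zero_mem _, Rep.zero⟩
  · intro r t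
    refine ⟨_, ?_, (Rep.fz r).mul (Rep.wd t)⟩
    have h1 := gq_gen (p := p) (1 : A) r t
    rwa [one_smul] at h1
  · rintro a b ⟨z, hz, h⟩ ⟨w, hw, h'⟩
    exact ⟨z + w, add_mem hz hw, h.add h'⟩

theorem gq_of_rep [Fact p.Prime] [CharP A p] {q : ℕ} {x z : Fm A R} (hx : x ∈ Fd A R q)
    (hz : z ∈ Fd A R q) (h : Rep p x z) : z ∈ Gq p A R q := by
  obtain ⟨z', hz', h'⟩ := exists_rep_gq (p := p) hx
  have h1 := mem_exq_of_exact (Submodule.sub_mem _ hz (gq_mem hz')) (h.exact_sub h')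
  have h2 : z = z' + (z - z') := by abel
  rw [h2]
  exact add_mem hz' (gq_exq h1)

end gd

/-- Closed forms over a perfect field. -/
theorem closed_mem_gq_field {p : ℕ} [Fact p.Prime] {κ : Type u} [Field κ] [CharP κ p]
    (hb : PBas p (fun _ : Unit => (1 : κ))) {S : Type v} [CommRing S] [Algebra κ S] [Algebra.Smooth κ S]
    {a : ℕ} {ω : Fm κ S} (hω : ω ∈ Fd κ S a) (hd : dd κ ω = 0) : ω ∈ Gq p κ S a := by
  obtain ⟨x, z, hx, hz, hxz, hex⟩ := (carP_of_smooth (R := S) hb).surj a ω hω hd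
  have h1 : ω = (∑ l, (1 : κ) • z l) + (ω - ∑ l, (1 : κ) • z l) := by abel
  rw [h1]
  exact add_mem (gq_sum _ fun l _ => gq_smul _ (gq_of_rep (hx l) (hz l) (hxz l))) (gq_exq hex)

section lift

variable {A : Type u} {B : Type w} [CommRing A] [CommRing B] [Algebra A B] {R : Type v} {S : Type x}
  [CommRing R] [CommRing S] [Algebra A R] [Algebra B S] {h : R →+* S}

theorem surj_of_bcr (hb : HB A B h) (hs : Function.Surjective (algebraMap A B))
    (hbij : Function.Surjective (bcr hb)) : Function.Surjective h := by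
  intro s
  refine bcr_ind (P := fun s => ∃ r, h r = s) hb hbij ⟨0, map_zero _⟩ ?_ ?_ s
  · intro b r
    obtain ⟨a, rfl⟩ := hs b
    exact ⟨a • r, hb.smul a r⟩
  · rintro _ _ ⟨r, rfl⟩ ⟨r', rfl⟩
    exact ⟨r + r', map_add _ _ _⟩

/-- Forms lift along surjective homomorphisms. -/
theorem fd_lift (hb : HB A B h) (hs : Function.Surjective h) {q : ℕ} {e : Fm B S} (he : e ∈ Fd B S q) :
    ∃ e' ∈ Fd A R q, mp h hb.cc e' = e := by
  refine fd_ind (P := fun e => ∃ e' ∈ Fd A R q, mp h hb.cc e' = e) ?_ ?_ ?_ he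
  · exact ⟨0, Submodule.zero_mem _, map_zero _⟩
  · intro r t
    obtain ⟨r', rfl⟩ := hs r
    choose t' ht' using fun i => hs (t i)
    refine ⟨fz A r' * wd A t', fz_mul_mem _ (wd_mem _), ?_⟩
    rw [map_mul, mp_fz, mp_wd]
    exact congrArg (fun t => fz B (h r') * wd B t) (funext ht')
  · rintro _ _ ⟨x', hx', rfl⟩ ⟨y', hy', rfl⟩
    exact ⟨x' + y', Submodule.add_mem _ hx' hy', map_add _ _ _⟩

/-- The combinations lift. -/
theorem gq_lift {p : ℕ} (hb : HB A B h) (hAB : Function.Surjective (algebraMap A B))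
    (hs : Function.Surjective h) {q : ℕ} {e : Fm B S} (he : e ∈ Gq p B S q) :
    ∃ e' ∈ Gq p A R q, mp h hb.cc e' = e := by
  refine gq_ind (P := fun e => ∃ e' ∈ Gq p A R q, mp h hb.cc e' = e) ?_ ?_ ?_ ?_ he
  · intro c f t
    obtain ⟨c', rfl⟩ := hAB c
    obtain ⟨f', rfl⟩ := hs f
    choose t' ht' using fun i => hs (t i)
    refine ⟨_, gq_gen c' f' t', ?_⟩
    rw [hb.mp_smul, map_mul, map_mul, mp_fz, mp_fz, mp_wd, map_pow, map_prod]
    have h1 : (fun i => h (t' i)) = t := funext ht'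
    simp only [map_pow, ht']
  · intro e he
    cases q with
    | zero =>
      rw [mem_exq_zero.1 he]
      exact ⟨0, zero_mem _, map_zero _⟩
    | succ q =>
      obtain ⟨f, hf, rfl⟩ := mem_exq_succ.1 he
      obtain ⟨f', hf', rfl⟩ := fd_lift hb hs hf
      exact ⟨dd A f', gq_exq (mem_exq_succ.2 ⟨f', hf', rfl⟩), mp_dd _ _⟩
  · rintro x y ⟨x', hx', rfl⟩ ⟨y', hy', rfl⟩
    exact ⟨x' + y', add_mem hx' hy', map_add _ _ _⟩
  · rintro x ⟨x', hx', rfl⟩
    exact ⟨-x', neg_mem hx', map_neg _ _⟩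

end lift

/-! ## Closed forms over rings with a nilpotent ideal -/

section main

variable {A : Type u} {κ : Type w} [CommRing A] [Field κ] [Algebra A κ] {R : Type v} {S : Type x}
  [CommRing R] [CommRing S] [Algebra A R] [Algebra κ S] {h : R →+* S}

variable (A R) in
/-- The exterior derivative of the forms of degree `a`. -/
noncomputable def ddo (a : ℕ) : ↥(FdO A R (some a)) →ₗ[A] ↥(FdO A R (some (a + 1))) where
  toFun e := ⟨dd A e, dd_mem e.2⟩
  map_add' x y := Subtype.ext (map_add _ _ _)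
  map_smul' b x := Subtype.ext (dd_smul A b (x : Fm A R))

theorem closed_step {p : ℕ} [Fact p.Prime] [CharP A p] [CharP κ p]
    (hpb : PBas p (fun _ : Unit => (1 : κ))) (hb : HB A κ h) (hbij : Function.Bijective (bcr hb))
    (hs : Function.Surjective (algebraMap A κ)) [Module.Flat A R] [Algebra.FormallySmooth A R]
    [Algebra.Smooth κ S] {a k : ℕ} : ∀ (r : ℕ) (ε : Fin r → A) (c : Fin r → ↥(FdO A R (some a)))
      (y : ↥(FdO A R (some a))), (∀ j, ε j ∈ RingHom.ker (algebraMap A κ) ^ k) → ddo A R a y = 0 →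
      y - ∑ j, ε j • c j ∈ RingHom.ker (algebraMap A κ) ^ (k + 1) • (⊤ : Submodule A _) →
      ∃ l : ↥(FdO A R (some a)), (l : Fm A R) ∈ Gq p A R a ∧
        y - l ∈ RingHom.ker (algebraMap A κ) ^ (k + 1) • (⊤ : Submodule A _) := by
  intro r
  induction r with
  | zero =>
    intro ε c y _ _ hy
    refine ⟨0, zero_mem _, ?_⟩
    rwa [Finset.univ_eq_empty, Finset.sum_empty] at hy
  | succ r ih =>
    intro ε c y hε hd hy
    by_cases hind : ∀ b : Fin (r + 1) → A,
        ∑ j, b j * ε j ∈ RingHom.ker (algebraMap A κ) ^ (k + 1) →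
          ∀ j, b j ∈ RingHom.ker (algebraMap A κ)
    · have hfl : Module.Flat A ↥(FdO A R (some (a + 1))) := flat_fo _
      have h1 : ∑ j, ε j • ddo A R a (c j) ∈
          RingHom.ker (algebraMap A κ) ^ (k + 1) • (⊤ : Submodule A _) := by
        have h2 := map_mem_smul_top (ddo A R a) hy
        rw [map_sub, hd, zero_sub, map_sum] at h2
        have h3 := Submodule.neg_mem _ h2
        rw [neg_neg] at h3
        simpa only [map_smul] using h3
      have h2 : ∀ j, ddo A R a (c j) ∈ RingHom.ker (algebraMap A κ) • (⊤ : Submodule A _) :=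
        indep_of_sum_mem hind h1
      have h3 : ∀ j, dd κ (mp h hb.cc (c j : Fm A R)) = 0 := by
        intro j
        have h4 := map_zero_of_mem_ker_smul (mpo hb (some (a + 1))) (mpo_smul hb _) (h2 j)
        have h5 : mp h hb.cc (dd A (c j : Fm A R)) = 0 := congrArg Subtype.val h4
        rw [← mp_dd]
        exact h5
      have h4 : ∀ j, mp h hb.cc (c j : Fm A R) ∈ Gq p κ S a := fun j =>
        closed_mem_gq_field hpb (mp_mem _ (c j).2) (h3 j)
      have hsh := surj_of_bcr hb hs hbij.2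
      choose l hl hlc using fun j => gq_lift hb hs hsh (h4 j)
      have h5 : ∀ j, c j - ⟨l j, gq_mem (hl j)⟩ ∈
          RingHom.ker (algebraMap A κ) • (⊤ : Submodule A _) := by
        intro j
        refine ker_of_bcl hs (mpo hb (some a)) (mpo_smul hb _) (bc_fo hb hbij (some a)).1 ?_
        rw [map_sub, sub_eq_zero]
        exact Subtype.ext (hlc j).symm
      refine ⟨∑ j, ε j • ⟨l j, gq_mem (hl j)⟩, ?_, ?_⟩
      · rw [Submodule.coe_sum]
        refine gq_sum _ fun j _ => ?_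
        rw [Submodule.coe_smul]
        exact gq_smul _ (hl j)
      · have h6 : y - ∑ j, ε j • (⟨l j, gq_mem (hl j)⟩ : ↥(FdO A R (some a))) =
            (y - ∑ j, ε j • c j) + ∑ j, ε j • (c j - ⟨l j, gq_mem (hl j)⟩) := by
          simp only [smul_sub, Finset.sum_sub_distrib]
          abel
        rw [h6]
        refine Submodule.add_mem _ hy (Submodule.sum_mem _ fun j _ => ?_)
        rw [pow_succ, Submodule.mul_smul]
        exact Submodule.smul_mem_smul (hε j) (h5 j)
    · push Not at hind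
      obtain ⟨b, hb1, j₀, hj₀⟩ := hind
      obtain ⟨d, hd1⟩ := hs (algebraMap A κ (b j₀))⁻¹
      have hne : algebraMap A κ (b j₀) ≠ 0 := fun h0 => hj₀ h0
      have hu : 1 - d * b j₀ ∈ RingHom.ker (algebraMap A κ) := by
        rw [RingHom.mem_ker, map_sub, map_one, map_mul, hd1, inv_mul_cancel₀ hne, sub_self]
      refine ih (fun i => ε (j₀.succAbove i))
        (fun i => c (j₀.succAbove i) - (d * b (j₀.succAbove i)) • c j₀) y
        (fun i => hε _) hd ?_
      have h6 : y - ∑ i, ε (j₀.succAbove i) •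
          (c (j₀.succAbove i) - (d * b (j₀.succAbove i)) • c j₀) =
          (y - ∑ j, ε j • c j) + ((1 - d * b j₀) * ε j₀ + d * ∑ j, b j * ε j) • c j₀ := by
        rw [Fin.sum_univ_succAbove (fun j => ε j • c j) j₀,
          Fin.sum_univ_succAbove (fun j => b j * ε j) j₀]
        simp only [smul_sub, Finset.sum_sub_distrib, smul_smul]
        have h7 : ∑ i, (ε (j₀.succAbove i) * (d * b (j₀.succAbove i))) • c j₀ =
            (d * ∑ i, b (j₀.succAbove i) * ε (j₀.succAbove i)) • c j₀ := by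
          rw [← Finset.sum_smul, Finset.mul_sum]
          congr 1
          exact Finset.sum_congr rfl fun i _ => by ring
        rw [h7]
        have h8 : ((1 - d * b j₀) * ε j₀ + d * (b j₀ * ε j₀ +
            ∑ i, b (j₀.succAbove i) * ε (j₀.succAbove i))) • c j₀ =
            ε j₀ • c j₀ + (d * ∑ i, b (j₀.succAbove i) * ε (j₀.succAbove i)) • c j₀ := by
          rw [← add_smul]
          congr 1
          ring
        rw [h8]
        abel
      rw [h6]
      refine Submodule.add_mem _ hy (Submodule.smul_mem_smul ?_ Submodule.mem_top)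
      refine Ideal.add_mem _ ?_ (Ideal.mul_mem_left _ _ hb1)
      rw [pow_succ']
      exact Ideal.mul_mem_mul hu (hε j₀)

/-- Closed forms are combinations of the forms `f^p t_1^(p-1) dt_1 ⋯` and exact forms. -/
theorem closed_mem_gq {p : ℕ} [Fact p.Prime] [CharP A p] [CharP κ p]
    (hpb : PBas p (fun _ : Unit => (1 : κ))) (hb : HB A κ h) (hbij : Function.Bijective (bcr hb))
    (hs : Function.Surjective (algebraMap A κ)) {N : ℕ}
    (hn : RingHom.ker (algebraMap A κ) ^ N = ⊥) [Module.Flat A R] [Algebra.FormallySmooth A R]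
    [Algebra.Smooth κ S] {a : ℕ} {ω : Fm A R} (hω : ω ∈ Fd A R a) (hd : dd A ω = 0) :
    ω ∈ Gq p A R a := by
  have key : ∀ k : ℕ, ∃ l : ↥(FdO A R (some a)), (l : Fm A R) ∈ Gq p A R a ∧
      (⟨ω, hω⟩ : ↥(FdO A R (some a))) - l ∈
        RingHom.ker (algebraMap A κ) ^ k • (⊤ : Submodule A _) := by
    intro k
    induction k with
    | zero =>
      refine ⟨0, zero_mem _, ?_⟩
      rw [pow_zero, Ideal.one_eq_top, Submodule.top_smul]
      exact Submodule.mem_top
    | succ k ih =>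
      obtain ⟨l, hl, hlk⟩ := ih
      obtain ⟨ι, hι, δ, z, hδ, hz⟩ := exists_fintype_sum hlk
      let e := Fintype.equivFin ι
      obtain ⟨l', hl', hlk'⟩ := closed_step hpb hb hbij hs (k := k) (Fintype.card ι)
        (fun j => δ (e.symm j)) (fun j => z (e.symm j)) (⟨ω, hω⟩ - l) (fun j => hδ _) (by
          rw [map_sub]
          have h1 : ddo A R a ⟨ω, hω⟩ = 0 := Subtype.ext hd
          have h2 : ddo A R a l = 0 := Subtype.ext (gq_closed hl)
          rw [h1, h2, sub_zero]) (by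
          have h1 : ∑ j, δ (e.symm j) • z (e.symm j) = ∑ i, δ i • z i :=
            Equiv.sum_comp e.symm (fun i => δ i • z i)
          rw [h1, hz, sub_self]
          exact Submodule.zero_mem _)
      refine ⟨l + l', ?_, ?_⟩
      · rw [Submodule.coe_add]
        exact add_mem hl hl'
      · rw [← sub_sub]
        exact hlk'
  obtain ⟨l, hl, h1⟩ := key N
  rw [hn, Submodule.bot_smul, Submodule.mem_bot, sub_eq_zero] at h1
  have h2 : ω = (l : Fm A R) := congrArg Subtype.val h1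
  rw [h2]
  exact hl

end main

/-! ## Independent coefficients -/

section fo

variable {A : Type u} {κ : Type w} [CommRing A] [CommRing κ] [Algebra A κ] {R : Type v} {S : Type x}
  [CommRing R] [CommRing S] [Algebra A R] [Algebra κ S] {h : R →+* S}

theorem fd_indep (hb : HB A κ h) [Module.Flat A R] [Algebra.FormallySmooth A R] {r : ℕ}
    {ε : Fin r → A} (hind : ∀ a : Fin r → A, ∑ j, a j * ε j = 0 →
      ∀ j, a j ∈ RingHom.ker (algebraMap A κ)) {q : ℕ} {e : Fin r → Fm A R}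
    (he : ∀ j, e j ∈ Fd A R q) (h0 : ∑ j, ε j • e j = 0) (j : Fin r) : mp h hb.cc (e j) = 0 := by
  have hfl : Module.Flat A ↥(FdO A R (some q)) := flat_fo _
  have h1 : ∑ j, ε j • (⟨e j, he j⟩ : ↥(FdO A R (some q))) ∈ (⊥ : Ideal A) • (⊤ : Submodule A _) := by
    have h2 : ∑ j, ε j • (⟨e j, he j⟩ : ↥(FdO A R (some q))) = 0 := by
      apply Subtype.ext
      rw [Submodule.coe_sum, Submodule.coe_zero]
      simpa only [Submodule.coe_smul] using h0
    rw [h2]
    exact Submodule.zero_mem _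
  have h2 := indep_of_sum_mem (K₀ := RingHom.ker (algebraMap A κ)) (fun a ha => hind a
    ((Submodule.mem_bot A).1 ha)) h1 j
  have h3 := map_zero_of_mem_ker_smul (mpo hb (some q)) (mpo_smul hb _) h2
  exact congrArg Subtype.val h3

theorem surj_of_bcl {M N : Type*} [AddCommGroup M] [Module A M] [AddCommGroup N] [Module κ N]
    (hs : Function.Surjective (algebraMap A κ)) (φ : M →+ N)
    (hφ : ∀ (a : A) (m : M), φ (a • m) = algebraMap A κ a • φ m)
    (hb : Function.Surjective (bcl φ hφ)) : Function.Surjective φ := by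
  intro y
  obtain ⟨t, rfl⟩ := hb y
  induction t using TensorProduct.induction_on with
  | zero => exact ⟨0, by rw [map_zero, map_zero]⟩
  | tmul b m =>
    obtain ⟨a, rfl⟩ := hs b
    exact ⟨a • m, by rw [hφ, bcl_tmul]⟩
  | add x y hx hy =>
    obtain ⟨a, ha⟩ := hx
    obtain ⟨b, hb⟩ := hy
    exact ⟨a + b, by rw [map_add, map_add, ha, hb]⟩

/-- Generators of an ideal killed by the kernel of `A → κ`, independent modulo this kernel. -/
theorem exists_indep {A κ : Type*} [CommRing A] [Field κ] [Algebra A κ]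
    (hs : Function.Surjective (algebraMap A κ)) {K : Ideal A} (hK : K.FG)
    (hk : ∀ a ∈ RingHom.ker (algebraMap A κ), ∀ b ∈ K, a * b = 0) :
    ∃ (r : ℕ) (ε : Fin r → A), Ideal.span (Set.range ε) = K ∧
      ∀ a : Fin r → A, ∑ j, a j * ε j = 0 → ∀ j, a j ∈ RingHom.ker (algebraMap A κ) := by
  classical
  have h0 : ∃ r : ℕ, ∃ ε : Fin r → A, Ideal.span (Set.range ε) = K := by
    obtain ⟨s, hs⟩ := hK
    refine ⟨Fintype.card s, fun j => (((Fintype.equivFin s).symm j : s) : A), ?_⟩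
    rw [← hs]
    congr 1
    ext x
    constructor
    · rintro ⟨j, rfl⟩
      exact ((Fintype.equivFin s).symm j).2
    · intro hx
      exact ⟨Fintype.equivFin s ⟨x, hx⟩, by simp⟩
  obtain ⟨ε, hε⟩ := Nat.find_spec h0
  refine ⟨Nat.find h0, ε, hε, fun a ha => ?_⟩
  by_contra hne
  push Not at hne
  obtain ⟨j₀, hj₀⟩ := hne
  have hlt : 0 < Nat.find h0 := lt_of_le_of_lt (Nat.zero_le _) j₀.2
  obtain ⟨r, hr⟩ := Nat.exists_eq_succ_of_ne_zero hlt.ne'
  have hmin : ∀ ε' : Fin r → A, Ideal.span (Set.range ε') ≠ K := by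
    intro ε' hε'
    have := Nat.find_min' h0 ⟨ε', hε'⟩
    omega
  have aux : ∀ (N : ℕ) (_ : N = r + 1) (ε : Fin N → A) (_ : Ideal.span (Set.range ε) = K)
      (a : Fin N → A) (_ : ∑ j, a j * ε j = 0) (j₀ : Fin N)
      (_ : a j₀ ∉ RingHom.ker (algebraMap A κ)), False := by
    rintro N rfl ε hε a ha j₀ hj₀
    obtain ⟨d, hd1⟩ := hs (algebraMap A κ (a j₀))⁻¹
    have hne : algebraMap A κ (a j₀) ≠ 0 := fun h0 => hj₀ h0
    have hu : 1 - d * a j₀ ∈ RingHom.ker (algebraMap A κ) := by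
      rw [RingHom.mem_ker, map_sub, map_one, map_mul, hd1, inv_mul_cancel₀ hne, sub_self]
    refine hmin (fun i => ε (j₀.succAbove i)) (le_antisymm ?_ ?_)
    · rw [← hε]
      refine Ideal.span_mono ?_
      rintro _ ⟨i, rfl⟩
      exact ⟨_, rfl⟩
    · rw [← hε, Ideal.span_le]
      rintro _ ⟨j, rfl⟩
      rcases Fin.eq_self_or_eq_succAbove j₀ j with rfl | ⟨i, rfl⟩
      · have h1 := hk _ hu (ε j) (by rw [← hε]; exact Ideal.subset_span ⟨j, rfl⟩)
        rw [Fin.sum_univ_succAbove (fun j => a j * ε j) j] at ha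
        have h2 : ε j = -∑ i, (d * a (j.succAbove i)) * ε (j.succAbove i) := by
          have h3 : ε j = d * (a j * ε j) := by linear_combination h1
          have h4 : a j * ε j = -∑ i, a (j.succAbove i) * ε (j.succAbove i) := by
            linear_combination ha
          rw [h3, h4, mul_neg, Finset.mul_sum]
          congr 1
          exact Finset.sum_congr rfl fun i _ => by ring
        rw [SetLike.mem_coe, h2]
        exact Ideal.neg_mem_iff _ |>.2 (Ideal.sum_mem _ fun i _ =>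
          Ideal.mul_mem_left _ _ (Ideal.subset_span ⟨i, rfl⟩))
      · exact Ideal.subset_span ⟨i, rfl⟩
  exact aux _ hr ε hε a ha j₀ hj₀

end fo

/-! ## Cochains -/

namespace CovD

section lift

variable {B : Type u} {B₂ : Type w} [CommRing B] [CommRing B₂] [Algebra B B₂] {n : ℕ}
  {X : CovD.{u, v} B n} {Y : CovD.{w, x} B₂ n}

theorem Hm.Tt_lift (F : Hm (algebraMap B B₂) X Y) (hF : F.IsBC)
    (hs : Function.Surjective (algebraMap B B₂)) {m : ℕ} {c : Y.Ch} (hc : c ∈ Y.Tt m) :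
    ∃ c' ∈ X.Tt m, F.push c' = c := by
  obtain ⟨y, hy⟩ := surj_of_bcl hs _ _ (F.bc_Tt hF m).2 ⟨c, hc⟩
  exact ⟨y, y.2, congrArg Subtype.val hy⟩

theorem Hm.Fi_lift (F : Hm (algebraMap B B₂) X Y) (hF : F.IsBC)
    (hs : Function.Surjective (algebraMap B B₂)) {i m : ℕ} {c : Y.Ch} (hc : c ∈ Y.Fi i m) :
    ∃ c' ∈ X.Fi i m, F.push c' = c := by
  obtain ⟨y, hy⟩ := surj_of_bcl hs _ _ (F.bc_Fi hF i m).2 ⟨c, hc⟩
  exact ⟨y, y.2, congrArg Subtype.val hy⟩

theorem Hm.ker_Tt (F : Hm (algebraMap B B₂) X Y) (hF : F.IsBC)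
    (hs : Function.Surjective (algebraMap B B₂)) {r : ℕ} {ε : Fin r → B}
    (hε : RingHom.ker (algebraMap B B₂) ≤ Ideal.span (Set.range ε)) {m : ℕ} {c : X.Ch}
    (hc : c ∈ X.Tt m) (h0 : F.push c = 0) :
    ∃ d : Fin r → X.Ch, (∀ j, d j ∈ X.Tt m) ∧ c = ∑ j, ε j • d j := by
  have h1 := ker_of_bcl hs _ _ (F.bc_Tt hF m).1 (m := ⟨c, hc⟩) (Subtype.ext h0)
  obtain ⟨d, hd⟩ := exists_sum_of_mem_smul_top hε h1
  refine ⟨fun j => d j, fun j => (d j).2, ?_⟩
  have h2 := congrArg Subtype.val hd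
  rw [Submodule.coe_sum] at h2
  simpa only [Submodule.coe_smul] using h2

theorem Hm.ker_Fi (F : Hm (algebraMap B B₂) X Y) (hF : F.IsBC)
    (hs : Function.Surjective (algebraMap B B₂)) {r : ℕ} {ε : Fin r → B}
    (hε : RingHom.ker (algebraMap B B₂) ≤ Ideal.span (Set.range ε)) {i m : ℕ} {c : X.Ch}
    (hc : c ∈ X.Fi i m) (h0 : F.push c = 0) :
    ∃ d : Fin r → X.Ch, (∀ j, d j ∈ X.Fi i m) ∧ c = ∑ j, ε j • d j := by
  have h1 := ker_of_bcl hs _ _ (F.bc_Fi hF i m).1 (m := ⟨c, hc⟩) (Subtype.ext h0)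
  obtain ⟨d, hd⟩ := exists_sum_of_mem_smul_top hε h1
  refine ⟨fun j => d j, fun j => (d j).2, ?_⟩
  have h2 := congrArg Subtype.val hd
  rw [Submodule.coe_sum] at h2
  simpa only [Submodule.coe_smul] using h2

/-- The components of a relation. -/
theorem Hm.comp_indep (F : Hm (algebraMap B B₂) X Y)
    (hX : ∀ J : Finset (Fin n), J.Nonempty → Algebra.Smooth B (X.R J)) {r : ℕ} {ε : Fin r → B}
    (hind : ∀ a : Fin r → B, ∑ j, a j * ε j = 0 → ∀ j, a j ∈ RingHom.ker (algebraMap B B₂))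
    {J : Finset (Fin n)} (hJ : J.Nonempty) {q : ℕ} {e : Fin r → X.E J}
    (he : ∀ j, e j ∈ Fd B (X.R J) q) (h0 : ∑ j, ε j • e j = 0) (j : Fin r) : F.e J (e j) = 0 := by
  have h1 := hX J hJ
  exact fd_indep (F.hb J) hind he h0 j

theorem Hm.indep (F : Hm (algebraMap B B₂) X Y)
    (hX : ∀ J : Finset (Fin n), J.Nonempty → Algebra.Smooth B (X.R J)) {r : ℕ} {ε : Fin r → B}
    (hind : ∀ a : Fin r → B, ∑ j, a j * ε j = 0 → ∀ j, a j ∈ RingHom.ker (algebraMap B B₂))
    {m : ℕ} {d : Fin r → X.Ch} (hd : ∀ j, d j ∈ X.Tt m) (h0 : ∑ j, ε j • d j = 0) (j : Fin r) :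
    F.push (d j) = 0 := by
  funext J
  rcases J.eq_empty_or_nonempty with hJ | hJ
  · subst hJ
    rw [push_apply, (hd j).1, map_zero]
    rfl
  · by_cases h1 : m + 1 < J.card
    · rw [push_apply, ((hd j).2 J).2 h1, map_zero]
      rfl
    · refine F.comp_indep hX hind hJ (e := fun j => d j J)
        (fun j => ((hd j).2 J).1 (m + 1 - J.card) (by omega)) ?_ j
      have h2 := congrFun h0 J
      rw [Finset.sum_apply] at h2
      exact h2

theorem Hm.Ni_comp (F : Hm (algebraMap B B₂) X Y)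
    (hX : ∀ J : Finset (Fin n), J.Nonempty → Algebra.Smooth B (X.R J)) {r : ℕ} {ε : Fin r → B}
    (hind : ∀ a : Fin r → B, ∑ j, a j * ε j = 0 → ∀ j, a j ∈ RingHom.ker (algebraMap B B₂))
    {i m : ℕ} {d : Fin r → X.Ch} (hd : ∀ j, d j ∈ X.Tt m) (h0 : ∑ j, ε j • d j ∈ X.Ni i m)
    (j : Fin r) : F.push (d j) ∈ Y.Ni i m := by
  refine ⟨push_mem_Tt (hd j), fun J => ?_⟩
  rcases J.eq_empty_or_nonempty with hJ | hJ
  · subst hJ
    rw [push_apply, (hd j).1, map_zero]
    exact ⟨fun _ => rfl, fun _ => map_zero _⟩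
  · have h3 : (∑ j, ε j • d j) J = ∑ j, ε j • d j J := by
      rw [Finset.sum_apply]
      rfl
    refine ⟨fun h => ?_, fun h => ?_⟩
    · refine F.comp_indep hX hind hJ (e := fun j => d j J)
        (fun j => ((hd j).2 J).1 (m + 1 - J.card) (by omega)) ?_ j
      rw [← h3]
      exact (h0.2 J).1 h
    · have h4 := F.comp_indep hX hind hJ (e := fun j => dd B (d j J))
        (fun j => dd_mem (((hd j).2 J).1 i (by omega))) (by
          have h5 := (h0.2 J).2 h
          rw [h3, map_sum] at h5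
          simpa only [dd_smul] using h5) j
      rw [push_apply, ← e_dd]
      exact h4

/-- The same for the Hodge filtration. -/
theorem Hm.Fi_comp (F : Hm (algebraMap B B₂) X Y)
    (hX : ∀ J : Finset (Fin n), J.Nonempty → Algebra.Smooth B (X.R J)) {r : ℕ} {ε : Fin r → B}
    (hind : ∀ a : Fin r → B, ∑ j, a j * ε j = 0 → ∀ j, a j ∈ RingHom.ker (algebraMap B B₂))
    {i m : ℕ} {d : Fin r → X.Ch} (hd : ∀ j, d j ∈ X.Tt m) (h0 : ∑ j, ε j • d j ∈ X.Fi i m)
    (j : Fin r) : F.push (d j) ∈ Y.Fi i m := by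
  refine ⟨push_mem_Tt (hd j), fun J hJ => ?_⟩
  rcases J.eq_empty_or_nonempty with h | h
  · subst h
    rw [push_apply, (hd j).1, map_zero]
  · by_cases h1 : m + 1 < J.card
    · rw [push_apply, ((hd j).2 J).2 h1, map_zero]
    · refine F.comp_indep hX hind h (e := fun j => d j J)
        (fun j => ((hd j).2 J).1 (m + 1 - J.card) (by omega)) ?_ j
      have h3 : (∑ j, ε j • d j) J = ∑ j, ε j • d j J := by
        rw [Finset.sum_apply]
        rfl
      rw [← h3]
      exact h0.2 J hJ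

theorem Hm.Ni_lift_aux {p : ℕ} [Fact p.Prime] [CharP B p] (F : Hm (algebraMap B B₂) X Y)
    (hF : F.IsBC) (hs : Function.Surjective (algebraMap B B₂))
    (hcl : ∀ J : Finset (Fin n), J.Nonempty → ∀ (a : ℕ) (ω : Y.E J), ω ∈ Fd B₂ (Y.R J) a →
      dd B₂ ω = 0 → ω ∈ Gq p B₂ (Y.R J) a)
    {i m : ℕ} {c : Y.Ch} (hc : c ∈ Y.Ni i m) : ∃ c' ∈ X.Ni i m, F.push c' = c := by
  have h1 : ∀ J : Finset (Fin n), ∃ e : X.E J, (J = ∅ → e = 0) ∧
      (∀ q, q + J.card = m + 1 → e ∈ Fd B (X.R J) q) ∧ (m + 1 < J.card → e = 0) ∧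
      (J.card + i < m + 1 → e = 0) ∧ (J.card + i = m + 1 → dd B e = 0) ∧ F.e J e = c J := by
    intro J
    by_cases h0 : c J = 0
    · exact ⟨0, fun _ => rfl, fun _ _ => Submodule.zero_mem _, fun _ => rfl, fun _ => rfl,
        fun _ => map_zero _, by rw [map_zero, h0]⟩
    have hJ : J.Nonempty := by
      rw [Finset.nonempty_iff_ne_empty]
      rintro rfl
      exact h0 hc.1.1
    have h2 : ¬ m + 1 < J.card := fun h => h0 ((hc.1.2 J).2 h)
    have h3 : ¬ J.card + i < m + 1 := fun h => h0 ((hc.2 J).1 h)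
    have hJ' : J ≠ ∅ := Finset.nonempty_iff_ne_empty.1 hJ
    have hsF : Function.Surjective (F.h J) := surj_of_bcr (F.hb J) hs (hF J hJ).2
    by_cases h4 : J.card + i = m + 1
    · obtain ⟨e, he, hec⟩ := gq_lift (F.hb J) hs hsF
        (hcl J hJ i (c J) ((hc.1.2 J).1 i (by omega)) ((hc.2 J).2 h4))
      refine ⟨e, fun h => absurd h hJ', fun q hq => ?_, fun h => absurd h h2,
        fun h => absurd h h3, fun _ => gq_closed he, hec⟩
      have h8 : q = i := by omega
      rw [h8]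
      exact gq_mem he
    · obtain ⟨e, he, hec⟩ := fd_lift (F.hb J) hsF ((hc.1.2 J).1 (m + 1 - J.card) (by omega))
      refine ⟨e, fun h => absurd h hJ', fun q hq => ?_, fun h => absurd h h2,
        fun h => absurd h h3, fun h => absurd h h4, hec⟩
      have h8 : q = m + 1 - J.card := by omega
      rw [h8]
      exact he
  choose e h2 h3 h4 h5 h6 h7 using h1
  exact ⟨e, ⟨⟨h2 ∅ rfl, fun J => ⟨h3 J, h4 J⟩⟩, fun J => ⟨h5 J, h6 J⟩⟩, funext h7⟩

/-- The cochains of the conjugate filtration lift along `B → B₂`, if the kernel of `B₂ → κ` is nilpotent. -/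
theorem Hm.Ni_lift {κ : Type y} [Field κ] [Algebra B₂ κ] {Z : CovD.{y, z} κ n} {p : ℕ}
    [Fact p.Prime] [CharP B p] [CharP B₂ p] [CharP κ p] (hpb : PBas p (fun _ : Unit => (1 : κ)))
    (F : Hm (algebraMap B B₂) X Y) (hF : F.IsBC)
    (hs : Function.Surjective (algebraMap B B₂)) (G : Hm (algebraMap B₂ κ) Y Z) (hG : G.IsBC)
    (hs' : Function.Surjective (algebraMap B₂ κ)) {N : ℕ}
    (hn : RingHom.ker (algebraMap B₂ κ) ^ N = ⊥)
    (hY : ∀ J : Finset (Fin n), J.Nonempty → Algebra.Smooth B₂ (Y.R J))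
    (hZ : ∀ J : Finset (Fin n), J.Nonempty → Algebra.Smooth κ (Z.R J))
    {i m : ℕ} {c : Y.Ch} (hc : c ∈ Y.Ni i m) : ∃ c' ∈ X.Ni i m, F.push c' = c := by
  refine F.Ni_lift_aux (p := p) hF hs (fun J hJ a ω hω hd => ?_) hc
  have h5 := hY J hJ
  have h6 := hZ J hJ
  exact closed_mem_gq hpb (G.hb J) (hG J hJ) hs' hn hω hd

/-- The cochains of the conjugate filtration lift along `B → κ`. -/
theorem Hm.Ni_lift_field {κ : Type y} [Field κ] [Algebra B κ] {Z : CovD.{y, z} κ n} {p : ℕ}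
    [Fact p.Prime] [CharP B p] [CharP κ p] (hpb : PBas p (fun _ : Unit => (1 : κ)))
    (G : Hm (algebraMap B κ) X Z) (hG : G.IsBC) (hs : Function.Surjective (algebraMap B κ))
    (hZ : ∀ J : Finset (Fin n), J.Nonempty → Algebra.Smooth κ (Z.R J))
    {i m : ℕ} {c : Z.Ch} (hc : c ∈ Z.Ni i m) : ∃ c' ∈ X.Ni i m, G.push c' = c := by
  refine G.Ni_lift_aux (p := p) hG hs (fun J hJ a ω hω hd => ?_) hc
  have h6 := hZ J hJ
  exact closed_mem_gq_field hpb hω hd

/-- Multiplication with elements killed by the kernel. -/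
theorem Hm.kill (F : Hm (algebraMap B B₂) X Y) (hF : F.IsBC)
    (hs : Function.Surjective (algebraMap B B₂)) {ε : B}
    (hε : ∀ a ∈ RingHom.ker (algebraMap B B₂), ε * a = 0) {m : ℕ} {c : X.Ch} (hc : c ∈ X.Tt m)
    (h0 : F.push c = 0) : ε • c = 0 := by
  have h1 := ker_of_bcl hs _ _ (F.bc_Tt hF m).1 (m := ⟨c, hc⟩) (Subtype.ext h0)
  have h2 : ε • (⟨c, hc⟩ : ↥(X.Tt m)) = 0 := by
    refine Submodule.smul_induction_on (p := fun x : ↥(X.Tt m) => ε • x = 0) h1 ?_ ?_
    · intro a ha x _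
      rw [smul_smul, hε a ha, zero_smul]
    · intro x y hx hy
      rw [smul_add, hx, hy, add_zero]
  exact congrArg Subtype.val h2

end lift

end CovD

/-- The characteristic. -/
theorem charP_of_hom {B κ : Type*} [CommRing B] [Field κ] (p : ℕ) [CharP κ p] (f : B →+* κ)
    (h0 : (p : B) = 0) : CharP B p := by
  refine ⟨fun x => ⟨fun hx => ?_, fun hx => ?_⟩⟩
  · have h1 := congrArg f hx
    rw [map_natCast, map_zero] at h1
    exact (CharP.cast_eq_zero_iff κ p x).1 h1
  · obtain ⟨y, rfl⟩ := hx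
    rw [Nat.cast_mul, h0, zero_mul]

end MPadcGP
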