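import Pool.Agent.Lib.MP_adc574_ag_GP.R3Kr
import Pool.Agent.Lib.MP_adc574_ag_GP.CarFin

/-!
# REL, part R9: the induction over the Artinian quotients

* `StepD`: what is used of the morphisms from `R_(N+1)` to `R_N` and to the residue field.
* `StrictN`: a boundary in the conjugate filtration is the boundary of a cochain in the conjugate filtration.
* `StepD.strict`, `StepD.opp`: the induction steps.
-/

set_option autoImplicit false
set_option linter.unusedSectionVars false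

namespace MPadcGP

open MvPolynomial

universe u v w x y z

/-- The data of the induction step. -/
structure StepD {B : Type u} {B₂ : Type w} {κ : Type y} [CommRing B] [CommRing B₂] [CommRing κ]
    {n : ℕ} {f : B →+* B₂} {g : B →+* κ} {X : CovD.{u, v} B n} {Y : CovD.{w, x} B₂ n}
    {Z : CovD.{y, z} κ n} (F : CovD.Hm f X Y) (G : CovD.Hm g X Z) {r : ℕ} (ε : Fin r → B) :
    Prop where
  surj : Function.Surjective f
  ker : ∀ a, f a = 0 → ∃ y : Fin r → B, a = ∑ j, ε j * y j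
  kill : ∀ j a, g a = 0 → ε j * a = 0
  liftN : ∀ i m : ℕ, ∀ c₂ ∈ Y.Ni i m, ∃ c ∈ X.Ni i m, F.push c = c₂
  liftT : ∀ m : ℕ, ∀ c₂ ∈ Y.Tt m, ∃ c ∈ X.Tt m, F.push c = c₂
  liftG : ∀ i m : ℕ, ∀ c₂ ∈ Z.Ni i m, ∃ c ∈ X.Ni i m, G.push c = c₂
  kerT : ∀ m : ℕ, ∀ c ∈ X.Tt m, F.push c = 0 →
    ∃ c' : Fin r → X.Ch, (∀ j, c' j ∈ X.Tt m) ∧ c = ∑ j, ε j • c' j
  killT : ∀ m : ℕ, ∀ c ∈ X.Tt m, G.push c = 0 → ∀ j, ε j • c = 0
  comp : ∀ (i m : ℕ) (c' : Fin r → X.Ch), (∀ j, c' j ∈ X.Tt m) → ∑ j, ε j • c' j ∈ X.Ni i m →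
    ∀ j, G.push (c' j) ∈ Z.Ni i m

/-- A boundary in the conjugate filtration is the boundary of a cochain in the conjugate filtration. -/
def StrictN {A : Type u} [CommRing A] {n : ℕ} (X : CovD.{u, v} A n) : Prop :=
  ∀ i m : ℕ, ∀ e ∈ X.Tt m, X.Dt e ∈ X.Ni i (m + 1) → ∃ b ∈ X.Ni i m, X.Dt b = X.Dt e

/-- The filtrations are opposite, in coordinates. -/
def OppX {A : Type u} [CommRing A] {n : ℕ} (X : CovD.{u, v} A n) {β : ℕ → Type}
    [∀ m, Fintype (β m)] (lev : ∀ m, β m → ℕ) (z : ∀ m, β m → X.Ch) : Prop :=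
  ∀ (m i : ℕ) (x : β m → A), (∀ b, lev m b ≤ i → x b = 0) →
    ∀ c ∈ X.Ni i m, ∀ w ∈ X.Bc m, ∑ b, x b • z m b = c + w → x = 0

theorem Dt_sum_smul {A : Type u} [CommRing A] {n : ℕ} {X : CovD.{u, v} A n} {ι : Type*}
    (s : Finset ι) (a : ι → A) (c : ι → X.Ch) :
    X.Dt (∑ j ∈ s, a j • c j) = ∑ j ∈ s, a j • X.Dt (c j) := by
  rw [map_sum]
  refine Finset.sum_congr rfl fun j _ => ?_
  rw [map_smul]

theorem CovD.Ni_Tt {A : Type u} [CommRing A] {n : ℕ} {X : CovD.{u, v} A n} {i m : ℕ} {c : X.Ch}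
    (hc : c ∈ X.Ni i m) : c ∈ X.Tt m := hc.1

namespace StepD

variable {B : Type u} {B₂ : Type w} {κ : Type y} [CommRing B] [CommRing B₂] [CommRing κ]
    {n : ℕ} {f : B →+* B₂} {g : B →+* κ} {X : CovD.{u, v} B n} {Y : CovD.{w, x} B₂ n}
    {Z : CovD.{y, z} κ n} {F : CovD.Hm f X Y} {G : CovD.Hm g X Z} {r : ℕ} {ε : Fin r → B}
    (hS : StepD F G ε) {β : ℕ → Type} [∀ m, Fintype (β m)] {lev : ∀ m, β m → ℕ}
    {z : ∀ m, β m → X.Ch}

include hS

theorem liftB (m : ℕ) (w₂ : Y.Ch) (hw₂ : w₂ ∈ Y.Bc m) : ∃ w ∈ X.Bc m, F.push w = w₂ := by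
  cases m with
  | zero =>
    have h1 : w₂ = 0 := hw₂
    exact ⟨0, Submodule.zero_mem _, by rw [h1, map_zero]⟩
  | succ m =>
    obtain ⟨e₂, he₂, rfl⟩ := hw₂
    obtain ⟨e, he, rfl⟩ := hS.liftT m e₂ he₂
    exact ⟨X.Dt e, ⟨e, he, rfl⟩, CovD.Hm.push_Dt e⟩

/-- The boundary of a cochain which becomes a cocycle over `B₂`. -/
theorem bdry (hz : ∀ m b, z m b ∈ X.Zc m) (hY : IsAd Y lev fun m b => F.push (z m b)) {m : ℕ}
    {e : X.Ch} (he : e ∈ X.Tt m) (hd : Y.Dt (F.push e) = 0) :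
    ∃ c' : Fin r → X.Ch, (∀ j, c' j ∈ X.Tt m) ∧ X.Dt e = ∑ j, ε j • X.Dt (c' j) := by
  obtain ⟨s, -, hs⟩ := hY.gen m 0 (F.push e) (by
    rw [CovD.Fi_zero]
    exact CovD.Hm.push_mem_Tt he) hd
  obtain ⟨w, hw, hws⟩ := hS.liftB m _ hs
  choose s' hs' using fun b => hS.surj (s b)
  have hw2 := CovD.Bc_le_Zc m hw
  obtain ⟨c', hc', hcc⟩ := hS.kerT m (e - ∑ b, s' b • z m b - w)
    (Submodule.sub_mem _ (Submodule.sub_mem _ he (Submodule.sum_mem _ fun b _ =>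
      Submodule.smul_mem _ _ (hz m b).1)) hw2.1) (by
      rw [map_sub, map_sub, hws, push_sum]
      have h1 : ∑ b, f (s' b) • F.push (z m b) = ∑ b, s b • F.push (z m b) :=
        Finset.sum_congr rfl fun b _ => by rw [hs']
      rw [h1, sub_self])
  refine ⟨c', hc', ?_⟩
  have h2 : X.Dt (e - ∑ b, s' b • z m b - w) = X.Dt e := by
    rw [map_sub, map_sub, Dt_sum_smul, (CovD.mem_Zc.1 hw2).2, sub_zero]
    have h3 : ∑ b, s' b • X.Dt (z m b) = 0 := Finset.sum_eq_zero fun b _ => by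
      rw [(CovD.mem_Zc.1 (hz m b)).2, smul_zero]
    rw [h3, sub_zero]
  rw [← h2, hcc, Dt_sum_smul]

/-- Step (gamma). -/
theorem strict (hz : ∀ m b, z m b ∈ X.Zc m) (hY : IsAd Y lev fun m b => F.push (z m b))
    (hsY : StrictN Y) (hsZ : StrictN Z) : StrictN X := by
  intro i m e he hde
  obtain ⟨b₂, hb₂, hb₂e⟩ := hsY i m (F.push e) (CovD.Hm.push_mem_Tt he) (by
    rw [← CovD.Hm.push_Dt]
    exact CovD.Hm.push_mem_Ni hde)
  obtain ⟨b', hb', rfl⟩ := hS.liftN i m b₂ hb₂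
  obtain ⟨c', hc', hcc⟩ := hS.bdry hz hY (Submodule.sub_mem _ he (CovD.Ni_Tt hb')) (by
    rw [map_sub, map_sub, hb₂e, sub_self])
  rw [map_sub] at hcc
  have h1 := hS.comp i (m + 1) (fun j => X.Dt (c' j)) (fun j => CovD.Dt_mem (hc' j)) (by
    rw [← hcc]
    exact Submodule.sub_mem _ hde (CovD.Dt_mem_Ni hb'))
  have h2 : ∀ j, ∃ b ∈ X.Ni i m, ε j • X.Dt b = ε j • X.Dt (c' j) := by
    intro j
    obtain ⟨b₃, hb₃, hbb⟩ := hsZ i m (G.push (c' j)) (CovD.Hm.push_mem_Tt (hc' j)) (by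
      rw [← CovD.Hm.push_Dt]
      exact h1 j)
    obtain ⟨b, hb, rfl⟩ := hS.liftG i m b₃ hb₃
    refine ⟨b, hb, ?_⟩
    have h3 := hS.killT (m + 1) (X.Dt b - X.Dt (c' j)) (Submodule.sub_mem _
      (CovD.Dt_mem (CovD.Ni_Tt hb)) (CovD.Dt_mem (hc' j))) (by
        rw [map_sub, CovD.Hm.push_Dt, CovD.Hm.push_Dt, hbb, sub_self]) j
    rw [smul_sub, sub_eq_zero] at h3
    exact h3
  choose b hb hbb using h2
  refine ⟨b' + ∑ j, ε j • b j, Submodule.add_mem _ hb' (Submodule.sum_mem _ fun j _ =>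
    Submodule.smul_mem _ _ (hb j)), ?_⟩
  rw [map_add, Dt_sum_smul, Finset.sum_congr rfl fun j _ => hbb j, ← hcc, add_sub_cancel]

/-- Coboundaries which become elements of the conjugate filtration over `B₂`. -/
theorem bdry' (hz : ∀ m b, z m b ∈ X.Zc m) (hY : IsAd Y lev fun m b => F.push (z m b))
    (hsY : StrictN Y) {i m : ℕ} {w : X.Ch} (hw : w ∈ X.Bc m) (hwN : F.push w ∈ Y.Ni i m) :
    ∃ b ∈ X.Ni i m, ∃ c' : Fin r → X.Ch, (∀ j, c' j ∈ X.Bc m) ∧ w = b + ∑ j, ε j • c' j := by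
  cases m with
  | zero =>
    have h1 : w = 0 := hw
    refine ⟨0, Submodule.zero_mem _, fun _ => 0, fun _ => Submodule.zero_mem _, ?_⟩
    rw [h1, zero_add]
    symm
    exact Finset.sum_eq_zero fun j _ => smul_zero _
  | succ m =>
    obtain ⟨e, he, rfl⟩ := hw
    obtain ⟨b₂, hb₂, hb₂e⟩ := hsY i m (F.push e) (CovD.Hm.push_mem_Tt he) (by
      rw [← CovD.Hm.push_Dt]
      exact hwN)
    obtain ⟨b', hb', rfl⟩ := hS.liftN i m b₂ hb₂
    obtain ⟨c', hc', hcc⟩ := hS.bdry hz hY (Submodule.sub_mem _ he (CovD.Ni_Tt hb')) (by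
      rw [map_sub, map_sub, hb₂e, sub_self])
    rw [map_sub] at hcc
    refine ⟨X.Dt b', CovD.Dt_mem_Ni hb', fun j => X.Dt (c' j), fun j => ⟨c' j, hc' j, rfl⟩, ?_⟩
    rw [← hcc, add_sub_cancel]

/-- Step (*). -/
theorem opp (hz : ∀ m b, z m b ∈ X.Zc m) (hY : IsAd Y lev fun m b => F.push (z m b))
    (hsY : StrictN Y) (hoY : OppX Y lev fun m b => F.push (z m b))
    (hoZ : OppX Z lev fun m b => G.push (z m b)) : OppX X lev z := by
  classical
  intro m i x hx c hc w hw he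
  have h0 : (fun b => f (x b)) = 0 := by
    refine hoY m i (fun b => f (x b)) (fun b hb => ?_) (F.push c) (CovD.Hm.push_mem_Ni hc)
      (F.push w) (CovD.Hm.push_mem_Bc hw) ?_
    · change f (x b) = 0
      rw [hx b hb, map_zero]
    · rw [← map_add, ← he, push_sum]
  have hFc : F.push c + F.push w = 0 := by
    rw [← map_add, ← he, push_sum]
    refine Finset.sum_eq_zero fun b _ => ?_
    have h1 : f (x b) = 0 := congrFun h0 b
    rw [h1, zero_smul]
  have h1 : ∀ b, ∃ y : Fin r → B, (lev m b ≤ i → y = 0) ∧ x b = ∑ j, ε j * y j := by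
    intro b
    by_cases hb : lev m b ≤ i
    · refine ⟨0, fun _ => rfl, ?_⟩
      rw [hx b hb]
      symm
      exact Finset.sum_eq_zero fun j _ => mul_zero _
    · obtain ⟨y, hy⟩ := hS.ker (x b) (congrFun h0 b)
      exact ⟨y, fun h => absurd h hb, hy⟩
  choose y hy0 hy using h1
  obtain ⟨b', hb', c', hc', hcc⟩ := hS.bdry' hz hY hsY hw (by
    have h2 : F.push w = -F.push c := by
      rw [eq_neg_iff_add_eq_zero, add_comm]
      exact hFc
    rw [h2]
    exact Submodule.neg_mem _ (CovD.Hm.push_mem_Ni hc))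
  have h2 : ∑ j, ε j • (∑ b, y b j • z m b - c' j) = c + b' := by
    have h3 : ∑ b, x b • z m b = ∑ j, ε j • ∑ b, y b j • z m b := by
      have h4 : ∀ b ∈ (Finset.univ : Finset (β m)), x b • z m b = ∑ j, ε j • y b j • z m b := by
        intro b _
        rw [hy b, Finset.sum_smul]
        exact Finset.sum_congr rfl fun j _ => mul_smul _ _ _
      rw [Finset.sum_congr rfl h4, Finset.sum_comm]
      exact Finset.sum_congr rfl fun j _ => Finset.smul_sum.symm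
    have h5 : ∑ j, ε j • (∑ b, y b j • z m b - c' j) =
        ∑ j, ε j • ∑ b, y b j • z m b - ∑ j, ε j • c' j := by
      rw [← Finset.sum_sub_distrib]
      exact Finset.sum_congr rfl fun j _ => smul_sub _ _ _
    rw [h5, ← h3, he, hcc]
    abel
  have h3 := hS.comp i m (fun j => ∑ b, y b j • z m b - c' j) (fun j => Submodule.sub_mem _
    (Submodule.sum_mem _ fun b _ => Submodule.smul_mem _ _ (hz m b).1)
      (CovD.Bc_le_Zc m (hc' j)).1) (by
      rw [h2]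
      exact Submodule.add_mem _ hc hb')
  have h4 : ∀ j, (fun b => g (y b j)) = 0 := by
    intro j
    refine hoZ m i (fun b => g (y b j)) (fun b hb => ?_) _ (h3 j) (G.push (c' j))
      (CovD.Hm.push_mem_Bc (hc' j)) ?_
    · change g (y b j) = 0
      rw [hy0 b hb]
      exact map_zero g
    · rw [map_sub, push_sum, sub_add_cancel]
  funext b
  change x b = 0
  rw [hy b]
  exact Finset.sum_eq_zero fun j _ => hS.kill j _ (congrFun (h4 j) b)

end StepD

end MPadcGP
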