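import Mathlib

/-!
# Part U, file A: families of subspaces with relations (helper10)

`PD A` (pieces data over a ring `A`): free modules with the index sets `β s`, pieces `t` of codimension `r t` in the module `sp t`, with relations:
linear maps `M1 e` which map the piece `src1 e` to the piece `tgt1 e`, bilinear maps `M2 e` which map two pieces to a third one, vectors `g0 e` which lie in
a piece. All coefficients are in `A`.

`IsFam X φ P`: the family `P` of subspaces over a field has the prescribed codimensions and satisfies all relations.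
`IsRel X φ c E`: the same for the family of the kernels of the functionals `c t v`, `v : Fin (r t)`, with vectors `E t v` dual to the functionals. These are
polynomial relations with coefficients in `A`, so they make sense over every ring and are preserved by ring homomorphisms.
-/

set_option autoImplicit false

namespace MPadcGP

universe u v w

/-- Pieces data: a family of subspaces of free modules, with relations. -/
structure PD (A : Type u) where
  /-- the spaces -/
  S : Type
  /-- bases of the spaces -/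
  β : S → Type
  /-- the bases are finite -/
  fin : ∀ s, Fintype (β s)
  /-- the pieces -/
  T : Type
  /-- the space of a piece -/
  sp : T → S
  /-- the codimension of a piece -/
  r : T → ℕ
  /-- linear relations -/
  E1 : Type
  /-- source -/
  src1 : E1 → T
  /-- target -/
  tgt1 : E1 → T
  /-- matrix -/
  M1 : ∀ e, β (sp (src1 e)) → β (sp (tgt1 e)) → A
  /-- bilinear relations -/
  E2 : Type
  /-- first source -/
  srcA : E2 → T
  /-- second source -/
  srcB : E2 → T
  /-- target -/
  tgt2 : E2 → T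
  /-- structure constants -/
  M2 : ∀ e, β (sp (srcA e)) → β (sp (srcB e)) → β (sp (tgt2 e)) → A
  /-- membership relations -/
  E0 : Type w
  /-- the piece -/
  tgt0 : E0 → T
  /-- the vector -/
  g0 : ∀ e, β (sp (tgt0 e)) → A

instance {A : Type u} (X : PD.{u, w} A) (s : X.S) : Fintype (X.β s) := X.fin s

section

variable {A : Type u} [CommRing A] {R : Type v} [CommRing R] {ι ι' ι'' : Type} [Fintype ι]
  [Fintype ι'] [Fintype ι'']

open Classical in
/-- The standard basis vector. -/
noncomputable def ev (a : ι) : ι → R := fun b => if b = a then 1 else 0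

/-- The linear map with the matrix `M`. -/
def ap1 (φ : A →+* R) (M : ι → ι' → A) (x : ι → R) : ι' → R := fun a' => ∑ a, φ (M a a') * x a

/-- The bilinear map with the structure constants `M`. -/
def ap2 (φ : A →+* R) (M : ι → ι' → ι'' → A) (x : ι → R) (y : ι' → R) : ι'' → R :=
  fun a'' => ∑ a, ∑ a', φ (M a a' a'') * (x a * y a')

/-- The projection to the kernel of the functionals `c v`. -/
def upj {r : ℕ} (c E : Fin r → ι → R) (x : ι → R) : ι → R := x - ∑ v, (c v ⬝ᵥ x) • E v

theorem ev_sum (x : ι → R) : x = ∑ a, x a • (ev a : ι → R) := by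
  classical
  funext b
  rw [Finset.sum_apply]
  have h1 : ∀ a, (x a • (ev a : ι → R)) b = if b = a then x b else 0 := by
    intro a
    rw [Pi.smul_apply, smul_eq_mul]
    unfold ev
    by_cases h : b = a
    · rw [if_pos h, if_pos h, mul_one, h]
    · rw [if_neg h, if_neg h, mul_zero]
  rw [Finset.sum_congr rfl fun a _ => h1 a, Finset.sum_ite_eq, if_pos (Finset.mem_univ _)]

theorem ap1_sum (φ : A →+* R) (M : ι → ι' → A) {κ : Type*} (s : Finset κ) (x : κ → R)
    (y : κ → ι → R) : ap1 φ M (∑ l ∈ s, x l • y l) = ∑ l ∈ s, x l • ap1 φ M (y l) := by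
  funext a'
  rw [Finset.sum_apply]
  unfold ap1
  have h1 : ∀ a, φ (M a a') * (∑ l ∈ s, x l • y l) a = ∑ l ∈ s, x l * (φ (M a a') * y l a) := by
    intro a
    rw [Finset.sum_apply, Finset.mul_sum]
    refine Finset.sum_congr rfl fun l _ => ?_
    rw [Pi.smul_apply, smul_eq_mul]
    ring
  rw [Finset.sum_congr rfl fun a _ => h1 a, Finset.sum_comm]
  refine Finset.sum_congr rfl fun l _ => ?_
  rw [← Finset.mul_sum]
  rfl

theorem ap2_sum_left (φ : A →+* R) (M : ι → ι' → ι'' → A) {κ : Type*} (s : Finset κ) (x : κ → R)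
    (y : κ → ι → R) (z : ι' → R) :
    ap2 φ M (∑ l ∈ s, x l • y l) z = ∑ l ∈ s, x l • ap2 φ M (y l) z := by
  funext a''
  rw [Finset.sum_apply]
  unfold ap2
  have h1 : ∀ a, ∑ a', φ (M a a' a'') * ((∑ l ∈ s, x l • y l) a * z a') =
      ∑ l ∈ s, x l * ∑ a', φ (M a a' a'') * (y l a * z a') := by
    intro a
    have h2 : ∀ a', φ (M a a' a'') * ((∑ l ∈ s, x l • y l) a * z a') =
        ∑ l ∈ s, x l * (φ (M a a' a'') * (y l a * z a')) := by
      intro a'
      rw [Finset.sum_apply, Finset.sum_mul, Finset.mul_sum]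
      refine Finset.sum_congr rfl fun l _ => ?_
      rw [Pi.smul_apply, smul_eq_mul]
      ring
    rw [Finset.sum_congr rfl fun a' _ => h2 a', Finset.sum_comm]
    exact Finset.sum_congr rfl fun l _ => (Finset.mul_sum _ _ _).symm
  rw [Finset.sum_congr rfl fun a _ => h1 a, Finset.sum_comm]
  exact Finset.sum_congr rfl fun l _ => (Finset.mul_sum _ _ _).symm

theorem ap2_sum_right (φ : A →+* R) (M : ι → ι' → ι'' → A) {κ : Type*} (s : Finset κ) (x : κ → R)
    (y : κ → ι' → R) (z : ι → R) :
    ap2 φ M z (∑ l ∈ s, x l • y l) = ∑ l ∈ s, x l • ap2 φ M z (y l) := by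
  funext a''
  rw [Finset.sum_apply]
  unfold ap2
  have h1 : ∀ a, ∑ a', φ (M a a' a'') * (z a * (∑ l ∈ s, x l • y l) a') =
      ∑ l ∈ s, x l * ∑ a', φ (M a a' a'') * (z a * y l a') := by
    intro a
    have h2 : ∀ a', φ (M a a' a'') * (z a * (∑ l ∈ s, x l • y l) a') =
        ∑ l ∈ s, x l * (φ (M a a' a'') * (z a * y l a')) := by
      intro a'
      rw [Finset.sum_apply, Finset.mul_sum, Finset.mul_sum]
      refine Finset.sum_congr rfl fun l _ => ?_
      rw [Pi.smul_apply, smul_eq_mul]
      ring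
    rw [Finset.sum_congr rfl fun a' _ => h2 a', Finset.sum_comm]
    exact Finset.sum_congr rfl fun l _ => (Finset.mul_sum _ _ _).symm
  rw [Finset.sum_congr rfl fun a _ => h1 a, Finset.sum_comm]
  exact Finset.sum_congr rfl fun l _ => (Finset.mul_sum _ _ _).symm

theorem dot_sum {κ : Type*} (s : Finset κ) (x : κ → R) (y : κ → ι → R) (c : ι → R) :
    c ⬝ᵥ (∑ l ∈ s, x l • y l) = ∑ l ∈ s, x l * (c ⬝ᵥ y l) := by
  rw [dotProduct_sum]
  exact Finset.sum_congr rfl fun l _ => by rw [dotProduct_smul, smul_eq_mul]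

theorem pj_sum {r : ℕ} (c E : Fin r → ι → R) {κ : Type*} (s : Finset κ) (x : κ → R)
    (y : κ → ι → R) : upj c E (∑ l ∈ s, x l • y l) = ∑ l ∈ s, x l • upj c E (y l) := by
  unfold upj
  have h1 : ∀ v, (c v ⬝ᵥ (∑ l ∈ s, x l • y l)) • E v = ∑ l ∈ s, x l • ((c v ⬝ᵥ y l) • E v) := by
    intro v
    rw [dot_sum, Finset.sum_smul]
    exact Finset.sum_congr rfl fun l _ => by rw [smul_smul]
  rw [Finset.sum_congr rfl fun v _ => h1 v, Finset.sum_comm, ← Finset.sum_sub_distrib]
  refine Finset.sum_congr rfl fun l _ => ?_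
  rw [smul_sub, Finset.smul_sum]

theorem dot_upj {r : ℕ} (c E : Fin r → ι → R) (h : ∀ v v', c v ⬝ᵥ E v' = if v = v' then 1 else 0)
    (x : ι → R) (v : Fin r) : c v ⬝ᵥ upj c E x = 0 := by
  unfold upj
  rw [dotProduct_sub, dot_sum]
  have h1 : ∀ v', (c v' ⬝ᵥ x) * (c v ⬝ᵥ E v') = if v = v' then c v ⬝ᵥ x else 0 := by
    intro v'
    rw [h]
    by_cases hv : v = v'
    · rw [if_pos hv, if_pos hv, mul_one, hv]
    · rw [if_neg hv, if_neg hv, mul_zero]
  rw [Finset.sum_congr rfl fun v' _ => h1 v', Finset.sum_ite_eq, if_pos (Finset.mem_univ _), sub_self]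

theorem pj_eq {r : ℕ} (c E : Fin r → ι → R) (x : ι → R) (hx : ∀ v, c v ⬝ᵥ x = 0) :
    upj c E x = x := by
  unfold upj
  rw [Finset.sum_eq_zero, sub_zero]
  intro v _
  rw [hx, zero_smul]

/-! ### Naturality -/

variable {R' : Type w} [CommRing R'] (f : R →+* R')

theorem map_ev (a : ι) : (fun b => f ((ev a : ι → R) b)) = (ev a : ι → R') := by
  classical
  funext b
  unfold ev
  by_cases h : b = a
  · rw [if_pos h, if_pos h, map_one]
  · rw [if_neg h, if_neg h, map_zero]

theorem map_dot (c x : ι → R) : f (c ⬝ᵥ x) = (fun a => f (c a)) ⬝ᵥ (fun a => f (x a)) := by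
  unfold dotProduct
  rw [map_sum]
  exact Finset.sum_congr rfl fun a _ => map_mul _ _ _

theorem map_ap1 (φ : A →+* R) (M : ι → ι' → A) (x : ι → R) :
    (fun a => f (ap1 φ M x a)) = ap1 (f.comp φ) M (fun a => f (x a)) := by
  funext a'
  unfold ap1
  rw [map_sum]
  exact Finset.sum_congr rfl fun a _ => map_mul _ _ _

theorem map_ap2 (φ : A →+* R) (M : ι → ι' → ι'' → A) (x : ι → R) (y : ι' → R) :
    (fun a => f (ap2 φ M x y a)) = ap2 (f.comp φ) M (fun a => f (x a)) (fun a => f (y a)) := by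
  funext a''
  unfold ap2
  rw [map_sum]
  refine Finset.sum_congr rfl fun a _ => ?_
  rw [map_sum]
  refine Finset.sum_congr rfl fun a' _ => ?_
  rw [map_mul, map_mul]
  rfl

theorem map_pj {r : ℕ} (c E : Fin r → ι → R) (x : ι → R) :
    (fun a => f (upj c E x a)) = upj (fun v a => f (c v a)) (fun v a => f (E v a)) (fun a => f (x a)) := by
  funext a
  unfold upj
  rw [Pi.sub_apply, Pi.sub_apply, map_sub, Finset.sum_apply, Finset.sum_apply, map_sum]
  congr 1
  refine Finset.sum_congr rfl fun v _ => ?_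
  rw [Pi.smul_apply, Pi.smul_apply, smul_eq_mul, smul_eq_mul, map_mul, map_dot]

end

section

variable {A : Type u} [CommRing A] (X : PD.{u, w} A) {R : Type v} [CommRing R]

/-- The kernels of the functionals `c t v` form a family with the relations of `X`. -/
structure IsRel (φ : A →+* R) (c E : ∀ t, Fin (X.r t) → X.β (X.sp t) → R) : Prop where
  h : ∀ t v v', c t v ⬝ᵥ E t v' = if v = v' then 1 else 0
  h1 : ∀ e v a, c (X.tgt1 e) v ⬝ᵥ
    ap1 φ (X.M1 e) (upj (c (X.src1 e)) (E (X.src1 e)) (ev a)) = 0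
  h2 : ∀ e v a a', c (X.tgt2 e) v ⬝ᵥ
    ap2 φ (X.M2 e) (upj (c (X.srcA e)) (E (X.srcA e)) (ev a))
      (upj (c (X.srcB e)) (E (X.srcB e)) (ev a')) = 0
  h0 : ∀ e v, c (X.tgt0 e) v ⬝ᵥ (fun a => φ (X.g0 e a)) = 0

variable {X}

theorem IsRel.map {φ : A →+* R} {c E : ∀ t, Fin (X.r t) → X.β (X.sp t) → R} (h : IsRel X φ c E)
    {R' : Type*} [CommRing R'] (f : R →+* R') :
    IsRel X (f.comp φ) (fun t v a => f (c t v a)) (fun t v a => f (E t v a)) := by
  refine ⟨fun t v v' => ?_, fun e v a => ?_, fun e v a a' => ?_, fun e v => ?_⟩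
  · have h1 := congrArg f (h.h t v v')
    rw [map_dot] at h1
    rw [h1]
    by_cases hv : v = v'
    · rw [if_pos hv, if_pos hv, map_one]
    · rw [if_neg hv, if_neg hv, map_zero]
  · have h1 := congrArg f (h.h1 e v a)
    rw [map_dot, map_ap1, map_pj, map_ev, map_zero] at h1
    exact h1
  · have h1 := congrArg f (h.h2 e v a a')
    rw [map_dot, map_ap2, map_pj, map_pj, map_ev, map_ev, map_zero] at h1
    exact h1
  · have h1 := congrArg f (h.h0 e v)
    rw [map_dot, map_zero] at h1
    exact h1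

theorem IsRel.of_jinj {φ : A →+* R} {c E : ∀ t, Fin (X.r t) → X.β (X.sp t) → R} {κ : Type*}
    {R' : κ → Type*} [∀ l, CommRing (R' l)] (f : ∀ l, R →+* R' l)
    (hf : ∀ x, (∀ l, f l x = 0) → x = 0)
    (h : ∀ l, IsRel X ((f l).comp φ) (fun t v a => f l (c t v a)) (fun t v a => f l (E t v a))) :
    IsRel X φ c E := by
  refine ⟨fun t v v' => ?_, fun e v a => ?_, fun e v a a' => ?_, fun e v => ?_⟩
  · rw [← sub_eq_zero]
    refine hf _ fun l => ?_
    rw [map_sub, map_dot, (h l).h t v v', sub_eq_zero]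
    by_cases hv : v = v'
    · rw [if_pos hv, if_pos hv, map_one]
    · rw [if_neg hv, if_neg hv, map_zero]
  · refine hf _ fun l => ?_
    rw [map_dot, map_ap1, map_pj, map_ev]
    exact (h l).h1 e v a
  · refine hf _ fun l => ?_
    rw [map_dot, map_ap2, map_pj, map_pj, map_ev, map_ev]
    exact (h l).h2 e v a a'
  · refine hf _ fun l => ?_
    rw [map_dot]
    exact (h l).h0 e v

end

/-! ### Fields -/

section

variable {K : Type v} [Field K] {ι : Type} [Fintype ι]

/-- The common kernel of functionals. -/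
def kr {r : ℕ} (c : Fin r → ι → K) : Submodule K (ι → K) where
  carrier := {x | ∀ v, c v ⬝ᵥ x = 0}
  zero_mem' := fun v => dotProduct_zero _
  add_mem' := fun {x y} hx hy v => by rw [dotProduct_add, hx v, hy v, add_zero]
  smul_mem' := fun q x hx v => by rw [dotProduct_smul, hx v, smul_zero]

theorem mem_kr {r : ℕ} (c : Fin r → ι → K) (x : ι → K) : x ∈ kr c ↔ ∀ v, c v ⬝ᵥ x = 0 := Iff.rfl

theorem exists_cE (P : Submodule K (ι → K)) {r : ℕ}
    (h : Module.finrank K P + r = Fintype.card ι) :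
    ∃ c E : Fin r → ι → K, (∀ v v', c v ⬝ᵥ E v' = if v = v' then 1 else 0) ∧ P = kr c := by
  classical
  have h1 : Module.finrank K ((ι → K) ⧸ P) = r := by
    have h2 := Submodule.finrank_quotient_add_finrank P
    rw [Module.finrank_fintype_fun_eq_card] at h2
    omega
  have q : Module.Basis (Fin r) K ((ι → K) ⧸ P) := Module.finBasisOfFinrankEq K _ h1
  have hc : ∀ v, ∃ c : ι → K, ∀ x, c ⬝ᵥ x = q.coord v (P.mkQ x) := by
    intro v
    refine ⟨fun a => q.coord v (P.mkQ (ev a)), fun x => ?_⟩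
    have h3 := congrArg (fun y => q.coord v (P.mkQ y)) (ev_sum x)
    rw [h3, map_sum, map_sum]
    unfold dotProduct
    refine Finset.sum_congr rfl fun a _ => ?_
    rw [map_smul, map_smul, smul_eq_mul, mul_comm]
  choose c hc using hc
  choose E hE using fun v => P.mkQ_surjective (q v)
  refine ⟨c, E, fun v v' => ?_, ?_⟩
  · rw [hc, hE, Module.Basis.coord_apply, Module.Basis.repr_self, Finsupp.single_apply]
    by_cases hv : v = v'
    · rw [if_pos hv, if_pos hv.symm]
    · rw [if_neg hv, if_neg (Ne.symm hv)]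
  · ext x
    rw [mem_kr]
    constructor
    · intro hx v
      rw [hc]
      have h3 : P.mkQ x = 0 := by
        rw [Submodule.mkQ_apply, Submodule.Quotient.mk_eq_zero]
        exact hx
      rw [h3, map_zero]
    · intro hx
      have h3 : P.mkQ x = 0 := by
        apply q.ext_elem
        intro v
        have h4 := hx v
        rw [hc, Module.Basis.coord_apply] at h4
        rw [h4, map_zero, Finsupp.zero_apply]
      rw [Submodule.mkQ_apply, Submodule.Quotient.mk_eq_zero] at h3
      exact h3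

theorem finrank_kr {r : ℕ} (c E : Fin r → ι → K)
    (h : ∀ v v', c v ⬝ᵥ E v' = if v = v' then 1 else 0) :
    Module.finrank K (kr c) + r = Fintype.card ι := by
  classical
  let g : (ι → K) →ₗ[K] (Fin r → K) :=
    { toFun := fun x v => c v ⬝ᵥ x
      map_add' := fun x y => by
        funext v
        exact dotProduct_add _ _ _
      map_smul' := fun q x => by
        funext v
        exact dotProduct_smul _ _ _ }
  have hg : ∀ x v, g x v = c v ⬝ᵥ x := fun x v => rfl
  have h1 : LinearMap.ker g = kr c := by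
    ext x
    rw [LinearMap.mem_ker, mem_kr]
    constructor
    · intro hx v
      rw [← hg, hx]
      rfl
    · intro hx
      funext v
      exact hx v
  have h2 : LinearMap.range g = ⊤ := by
    rw [LinearMap.range_eq_top]
    intro y
    refine ⟨∑ v, y v • E v, ?_⟩
    funext v
    rw [hg, dot_sum]
    have h3 : ∀ v', y v' * (c v ⬝ᵥ E v') = if v = v' then y v else 0 := by
      intro v'
      rw [h]
      by_cases hv : v = v'
      · rw [if_pos hv, if_pos hv, mul_one, hv]
      · rw [if_neg hv, if_neg hv, mul_zero]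
    rw [Finset.sum_congr rfl fun v' _ => h3 v', Finset.sum_ite_eq, if_pos (Finset.mem_univ _)]
  have h3 := LinearMap.finrank_range_add_finrank_ker g
  rw [h1, h2, finrank_top, Module.finrank_fintype_fun_eq_card, Module.finrank_fintype_fun_eq_card,
    Fintype.card_fin] at h3
  omega

variable {A : Type u} [CommRing A] (X : PD.{u, w} A)

/-- The family `P` of subspaces has the codimensions and relations of `X`. -/
structure IsFam (φ : A →+* K) (P : ∀ t, Submodule K (X.β (X.sp t) → K)) : Prop where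
  codim : ∀ t, Module.finrank K (P t) + X.r t = Fintype.card (X.β (X.sp t))
  rel1 : ∀ e, ∀ x ∈ P (X.src1 e), ap1 φ (X.M1 e) x ∈ P (X.tgt1 e)
  rel2 : ∀ e, ∀ x ∈ P (X.srcA e), ∀ y ∈ P (X.srcB e), ap2 φ (X.M2 e) x y ∈ P (X.tgt2 e)
  rel0 : ∀ e, (fun a => φ (X.g0 e a)) ∈ P (X.tgt0 e)

variable {X}

theorem IsFam.exists_rel {φ : A →+* K} {P : ∀ t, Submodule K (X.β (X.sp t) → K)}
    (h : IsFam X φ P) : ∃ c E : ∀ t, Fin (X.r t) → X.β (X.sp t) → K,
      IsRel X φ c E ∧ ∀ t, P t = kr (c t) := by
  choose c E hcE hP using fun t => exists_cE (P t) (h.codim t)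
  have hm : ∀ t x, upj (c t) (E t) x ∈ P t := by
    intro t x
    rw [hP t, mem_kr]
    exact dot_upj (c t) (E t) (hcE t) x
  have hk : ∀ t x, x ∈ P t → ∀ v, c t v ⬝ᵥ x = 0 := by
    intro t x hx
    rw [hP t, mem_kr] at hx
    exact hx
  refine ⟨c, E, ⟨hcE, fun e v a => ?_, fun e v a a' => ?_, fun e v => ?_⟩, hP⟩
  · exact hk _ _ (h.rel1 e _ (hm _ _)) v
  · exact hk _ _ (h.rel2 e _ (hm _ _) _ (hm _ _)) v
  · exact hk _ _ (h.rel0 e) v

theorem IsRel.isFam {φ : A →+* K} {c E : ∀ t, Fin (X.r t) → X.β (X.sp t) → K}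
    (h : IsRel X φ c E) : IsFam X φ fun t => kr (c t) := by
  have hx1 : ∀ t, ∀ x ∈ kr (c t), x = ∑ a, x a • upj (c t) (E t) (ev a) := by
    intro t x hx
    conv_lhs => rw [← pj_eq (c t) (E t) x hx, ev_sum x]
    rw [pj_sum]
  refine ⟨fun t => finrank_kr (c t) (E t) (h.h t), fun e x hx v => ?_, fun e x hx y hy v => ?_,
    fun e v => h.h0 e v⟩
  · rw [hx1 _ x hx, ap1_sum, dot_sum]
    exact Finset.sum_eq_zero fun a _ => by rw [h.h1 e v a, mul_zero]
  · rw [hx1 _ x hx, ap2_sum_left, dot_sum]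
    refine Finset.sum_eq_zero fun a _ => ?_
    rw [hx1 _ y hy, ap2_sum_right, dot_sum, Finset.sum_eq_zero, mul_zero]
    intro a' _
    rw [h.h2 e v a a', mul_zero]

/-- The functionals of a stable subspace satisfy the dual connection up to the functionals. -/
theorem exists_nu {φ : A →+* K} (δ : Derivation ℤ K K) (G : ι → ι → A) {r : ℕ}
    (c E : Fin r → ι → K) (h : ∀ v v', c v ⬝ᵥ E v' = if v = v' then 1 else 0)
    (hst : ∀ x ∈ kr c, (fun a => δ (x a) + ∑ a', φ (G a a') * x a') ∈ kr c) :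
    ∃ ν : Fin r → Fin r → K, ∀ v a,
      δ (c v a) = ∑ a', φ (G a' a) * c v a' + ∑ v', ν v v' * c v' a := by
  classical
  obtain ⟨ψ, hψ⟩ : ∃ ψ : Fin r → ι → K, ∀ v a, ψ v a = δ (c v a) - ∑ a', φ (G a' a) * c v a' :=
    ⟨_, fun _ _ => rfl⟩
  have h1 : ∀ v, ∀ x ∈ kr c, ψ v ⬝ᵥ x = 0 := by
    intro v x hx
    have h2 := hst x hx v
    have h3 : ∑ a, (c v a * δ (x a) + x a * δ (c v a)) = 0 := by
      have h4 := congrArg δ (hx v)
      unfold dotProduct at h4
      rw [map_sum, map_zero] at h4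
      rw [← h4]
      refine Finset.sum_congr rfl fun a _ => ?_
      rw [Derivation.leibniz, smul_eq_mul, smul_eq_mul]
    have h5 : ∑ a, (c v a * δ (x a) + c v a * ∑ a', φ (G a a') * x a') = 0 := by
      rw [← h2]
      unfold dotProduct
      exact Finset.sum_congr rfl fun a _ => (mul_add _ _ _).symm
    have h6 : ∑ a, c v a * ∑ a', φ (G a a') * x a' = ∑ a, (∑ a', φ (G a' a) * c v a') * x a := by
      have e1 : ∀ a, c v a * ∑ a', φ (G a a') * x a' = ∑ a', φ (G a a') * c v a * x a' := by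
        intro a
        rw [Finset.mul_sum]
        exact Finset.sum_congr rfl fun a' _ => by ring
      rw [Finset.sum_congr rfl fun a _ => e1 a, Finset.sum_comm]
      exact Finset.sum_congr rfl fun a _ => (Finset.sum_mul _ _ _).symm
    unfold dotProduct
    have h7 : ∀ a, ψ v a * x a = x a * δ (c v a) - (∑ a', φ (G a' a) * c v a') * x a := by
      intro a
      rw [hψ]
      ring
    rw [Finset.sum_congr rfl fun a _ => h7 a, Finset.sum_sub_distrib, ← h6]
    rw [Finset.sum_add_distrib] at h3 h5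
    linear_combination h3 - h5
  refine ⟨fun v v' => ψ v ⬝ᵥ E v', fun v a => ?_⟩
  have h2 := h1 v (upj c E (ev a)) (dot_upj c E h _)
  unfold upj at h2
  rw [dotProduct_sub, dot_sum] at h2
  have h3 : ∀ y : ι → K, y ⬝ᵥ (ev a : ι → K) = y a := by
    intro y
    unfold dotProduct ev
    rw [Finset.sum_congr rfl fun b _ => by rw [mul_ite, mul_one, mul_zero], Finset.sum_ite_eq',
      if_pos (Finset.mem_univ _)]
  rw [h3, hψ] at h2
  have h4 : ∑ v', (c v' ⬝ᵥ (ev a : ι → K)) * (ψ v ⬝ᵥ E v') = ∑ v', (ψ v ⬝ᵥ E v') * c v' a :=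
    Finset.sum_congr rfl fun v' _ => by rw [h3, mul_comm]
  rw [h4] at h2
  linear_combination h2

end

end MPadcGP
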