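import Pool.Agent.Lib.MP_adc574_ag_GP.UA
import Pool.Agent.Lib.MP_adc574_ag_CM.KeyB

/-!
# Part U, file B: specialization to an algebraically closed field (helper10)

`exists_pt`: a finitely generated algebra over an algebraically closed field has a point.
`exists_spec`: a family of subspaces with relations over a field `L` containing `A` specializes to a family with the same relations over an
algebraically closed field `k` containing `A`; every linear relation with coefficients in `A` between the values of the form `c t 1 ∧ … ∧ c t r` at vectors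
with coordinates in `A` is preserved.
-/

set_option autoImplicit false

namespace MPadcGP

open MPadcCM

universe u v w

theorem exists_pt {k L' : Type*} [Field k] [IsAlgClosed k] [Field L'] [Algebra k L'] {J : Type*}
    [Finite J] (x : J → L') : ∃ (R : Subalgebra k L') (_ : R →ₐ[k] k), ∀ i, x i ∈ R := by
  obtain ⟨R, hR⟩ : ∃ R : Subalgebra k L', R = Algebra.adjoin k (Set.range x) := ⟨_, rfl⟩
  have hft : Algebra.FiniteType k R := by
    have h1 := Subalgebra.fg_adjoin_finset (R := k) (Set.finite_range x).toFinset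
    rw [Set.Finite.coe_toFinset, ← hR] at h1
    exact (Subalgebra.fg_iff_finiteType _).1 h1
  obtain ⟨M, hM⟩ := Ideal.exists_maximal R
  let _ : Field (R ⧸ M) := Ideal.Quotient.field M
  have hft' : Algebra.FiniteType k (R ⧸ M) := inferInstance
  have hfin : Module.Finite k (R ⧸ M) := finite_of_finite_type_of_isJacobsonRing k (R ⧸ M)
  have hbij : Function.Bijective (algebraMap k (R ⧸ M)) :=
    IsAlgClosed.algebraMap_bijective_of_isIntegral
  refine ⟨R, ((AlgEquiv.ofBijective (Algebra.ofId k (R ⧸ M)) hbij).symm.toAlgHom).comp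
    (Ideal.Quotient.mkₐ k M), fun i => ?_⟩
  rw [hR]
  exact Algebra.subset_adjoin ⟨i, rfl⟩

theorem map_lam {A R R' : Type*} [CommRing A] [CommRing R] [CommRing R'] (φ : A →+* R)
    (f : R →+* R') {r : ℕ} {I : Type} [Fintype I] (c : Fin r → I → R) (P : Fin r → I → A) :
    f (Matrix.of fun v u => ∑ a, φ (P u a) * c v a).det =
      (Matrix.of fun v u => ∑ a, (f.comp φ) (P u a) * f (c v a)).det := by
  rw [RingHom.map_det]
  congr 1
  ext v u
  rw [RingHom.mapMatrix_apply, Matrix.map_apply, Matrix.of_apply, Matrix.of_apply, map_sum]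
  exact Finset.sum_congr rfl fun a _ => map_mul _ _ _

variable {A : Type u} [CommRing A] {k L : Type u} [Field k] [Field L] {j : A →+* k} {ι : A →+* L}

theorem exists_spec [IsAlgClosed k] (hj : Function.Injective j) (hι : Function.Injective ι)
    {X : PD.{u, w} A} [Finite X.T] {c E : ∀ t, Fin (X.r t) → X.β (X.sp t) → L}
    (hrel : IsRel X ι c E) :
    ∃ c' E' : ∀ t, Fin (X.r t) → X.β (X.sp t) → k, IsRel X j c' E' ∧
      ∀ (t : X.T) (S : Type) [Fintype S] (β : S → A) (P : S → Fin (X.r t) → X.β (X.sp t) → A),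
        ∑ s, ι (β s) * Lam ι (c t) (P s) = 0 → ∑ s, j (β s) * Lam j (c' t) (P s) = 0 := by
  classical
  obtain ⟨L', _, e, e', hee⟩ := exists_comp hj hι
  let _ : Algebra k L' := e'.toAlgebra
  have hee' : ∀ a, e (ι a) = algebraMap k L' (j a) := hee
  obtain ⟨R, π, hR⟩ := exists_pt (k := k) (L' := L')
    (fun q : (Σ t : X.T, Fin (X.r t) × X.β (X.sp t)) × Bool =>
      if q.2 then e (c q.1.1 q.1.2.1 q.1.2.2) else e (E q.1.1 q.1.2.1 q.1.2.2))
  have hRc : ∀ t v a, e (c t v a) ∈ R := fun t v a => by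
    have h1 := hR (⟨t, (v, a)⟩, true)
    simpa using h1
  have hRE : ∀ t v a, e (E t v a) ∈ R := fun t v a => by
    have h1 := hR (⟨t, (v, a)⟩, false)
    simpa using h1
  let cR : ∀ t, Fin (X.r t) → X.β (X.sp t) → R := fun t v a => ⟨e (c t v a), hRc t v a⟩
  let ER : ∀ t, Fin (X.r t) → X.β (X.sp t) → R := fun t v a => ⟨e (E t v a), hRE t v a⟩
  let φR : A →+* R := (algebraMap k R).comp j
  let i : R →+* L' := (R.val : R →ₐ[k] L')
  have hiφ : i.comp φR = e.comp ι := by
    ext a
    exact (hee' a).symm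
  have hrelR : IsRel X φR cR ER := by
    refine IsRel.of_jinj (κ := Unit) (R' := fun _ => L') (fun _ => i) (fun x hx => ?_) fun _ => ?_
    · exact Subtype.ext (hx ())
    · have h1 := hrel.map e
      rw [← hiφ] at h1
      exact h1
  have hπφ : (π : R →+* k).comp φR = j := by
    ext a
    exact π.commutes (j a)
  refine ⟨fun t v a => π (cR t v a), fun t v a => π (ER t v a), ?_, ?_⟩
  · have h1 := hrelR.map (π : R →+* k)
    rw [hπφ] at h1
    exact h1
  · intro t S _ β P h
    have h1 : ∑ s, φR (β s) * (Matrix.of fun v u => ∑ a, φR (P s u a) * cR t v a).det = 0 := by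
      have h2 : i (∑ s, φR (β s) * (Matrix.of fun v u => ∑ a, φR (P s u a) * cR t v a).det) = 0 := by
        rw [map_sum]
        have h3 : ∀ s, i (φR (β s) * (Matrix.of fun v u => ∑ a, φR (P s u a) * cR t v a).det) =
            e (ι (β s) * Lam ι (c t) (P s)) := by
          intro s
          rw [map_mul, map_lam, map_mul]
          unfold Lam
          rw [map_lam, hiφ]
          congr 1
          exact RingHom.congr_fun hiφ (β s)
        rw [Finset.sum_congr rfl fun s _ => h3 s, ← map_sum, h, map_zero]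
      exact Subtype.ext h2
    have h4 := congrArg (π : R →+* k) h1
    rw [map_sum, map_zero] at h4
    rw [← h4]
    refine Finset.sum_congr rfl fun s _ => ?_
    rw [map_mul, map_lam, hπφ]
    congr 1
    exact (RingHom.congr_fun hπφ (β s)).symm

/-- The key theorem for families of subspaces, for one differential field. -/
theorem key_fam [IsAlgClosed k] (hj : Function.Injective j) (hι : Function.Injective ι)
    {X : PD.{u, w} A} [Finite X.T] {c E : ∀ t, Fin (X.r t) → X.β (X.sp t) → L}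
    (hrel : IsRel X ι c E) (t₀ : X.T)
    {nab : Derivation ℤ k k → (X.β (X.sp t₀) → k) →+ (X.β (X.sp t₀) → k)} (hnab : IsConn nab) {m : ℕ}
    (D : Fin m → Derivation ℤ A A) (Δ : Fin m → Derivation ℤ L L)
    (hΔ : ∀ l x, Δ l (ι x) = ι (D l x)) (G : Fin m → X.β (X.sp t₀) → X.β (X.sp t₀) → A)
    (hDk : ∀ D' : Derivation ℤ k k, ∃ α : Fin m → k, (∀ x, D' (j x) = ∑ l, α l * j (D l x)) ∧
      ∀ a, nab D' (Pi.basisFun k _ a) = ∑ a', (∑ l, α l * j (G l a' a)) • Pi.basisFun k _ a')
    (hcD : ∀ l, ∃ ν : Fin (X.r t₀) → Fin (X.r t₀) → L, ∀ v a,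
      Δ l (c t₀ v a) = ∑ a', ι (G l a' a) * c t₀ v a' + ∑ v', ν v v' * c t₀ v' a)
    (F : Submodule k (X.β (X.sp t₀) → k)) (f : Fin (X.r t₀) → X.β (X.sp t₀) → A)
    (hf : LinearIndependent k fun u => (fun a => j (f u a) : X.β (X.sp t₀) → k))
    (hF : F ≤ Submodule.span k (Set.range fun u => (fun a => j (f u a) : X.β (X.sp t₀) → k)))
    (hGP : ∀ P : ∀ t, Submodule k (X.β (X.sp t) → k), IsFam X j P →
      ∀ W : Submodule k ((X.β (X.sp t₀) → k) [⋀^Fin (X.r t₀)]→ₗ[k] k), IsHor nab W →
        (∃ ω ∈ W, ω ≠ 0 ∧ ∀ x, (∃ u, x u ∈ P t₀) → ω x = 0) →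
          ∃ ω ∈ W, ∃ x, (∀ u, x u ∈ F) ∧ ω x ≠ 0) :
    (Matrix.of fun v u => ∑ a, ι (f u a) * c t₀ v a).det ≠ 0 := by
  classical
  intro h0
  obtain ⟨c', E', hrel', hsp⟩ := exists_spec hj hι hrel
  have hcls : ∀ P : X.β (X.sp t₀) → A, cls j (Pi.basisFun k (X.β (X.sp t₀))) P = fun a => j (P a) := by
    intro P
    unfold cls
    funext a
    rw [Finset.sum_apply]
    rw [Finset.sum_eq_single a]
    · rw [Pi.smul_apply, Pi.basisFun_apply, Pi.single_eq_same, smul_eq_mul, mul_one]
    · intro a' _ ha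
      rw [Pi.smul_apply, Pi.basisFun_apply, Pi.single_eq_of_ne (Ne.symm ha), smul_zero]
    · intro h
      exact absurd (Finset.mem_univ _) h
  let l : Fin (X.r t₀) → (X.β (X.sp t₀) → k) →ₗ[k] k := fun v =>
    { toFun := fun x => c' t₀ v ⬝ᵥ x
      map_add' := fun x y => dotProduct_add _ _ _
      map_smul' := fun q x => dotProduct_smul _ _ _ }
  have hl : ∀ v x, l v x = c' t₀ v ⬝ᵥ x := fun v x => rfl
  have hmem : wdg l ∈ Mk j ι (c t₀) (Pi.basisFun k (X.β (X.sp t₀))) := by
    rw [mem_mk]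
    intro S _ β P h
    rw [← hsp t₀ S β P h]
    refine Finset.sum_congr rfl fun s _ => ?_
    congr 1
    rw [wdg_apply]
    unfold Lam
    congr 1
    ext v u
    rw [Matrix.of_apply, Matrix.of_apply, hl, hcls]
    unfold dotProduct
    exact Finset.sum_congr rfl fun a _ => mul_comm _ _
  have hne : wdg l ≠ 0 := by
    intro h1
    have h2 : wdg l (E' t₀) = 1 := by
      rw [wdg_apply]
      have h3 : (Matrix.of fun v u => l v (E' t₀ u)) = (1 : Matrix (Fin (X.r t₀)) (Fin (X.r t₀)) k) := by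
        ext v u
        rw [Matrix.of_apply, hl, hrel'.h, Matrix.one_apply]
      rw [h3, Matrix.det_one]
    rw [h1, AlternatingMap.zero_apply] at h2
    exact zero_ne_one h2
  have hkill : ∀ x, (∃ u, x u ∈ kr (c' t₀)) → wdg l x = 0 := by
    rintro x ⟨u, hu⟩
    rw [wdg_apply]
    refine Matrix.det_eq_zero_of_column_eq_zero u fun v => ?_
    rw [Matrix.of_apply, hl]
    exact hu v
  have hhor : IsHor nab (Mk j ι (c t₀) (Pi.basisFun k (X.β (X.sp t₀)))) :=
    mk_hor hnab D Δ hΔ G hDk fun l => by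
      obtain ⟨ν, hν⟩ := hcD l
      exact ⟨ν, hν⟩
  obtain ⟨ω, hω, f', hf', hne'⟩ := hGP _ hrel'.isFam _ hhor ⟨wdg l, hmem, hne, hkill⟩
  apply hne'
  have h1 : ω (fun u => (fun a => j (f u a) : X.β (X.sp t₀) → k)) = 0 := by
    have h2 := (mem_mk j ι _ _ ω).1 hω Unit (fun _ => 1) (fun _ => f) (by
      rw [Fintype.sum_unique]
      have h3 : Lam ι (c t₀) f = 0 := h0
      rw [h3, mul_zero])
    rw [Fintype.sum_unique, map_one, one_mul] at h2
    simp only [hcls] at h2
    exact h2
  exact vanish_span ω _ hf h1 f' fun u => hF (hf' u)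

end MPadcGP
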