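import Pool.Agent.Lib.MP_adc574_ag_GP.UB
import Pool.Agent.Lib.MP_adc574_ag_GP.Key

/-!
# Part U, file C: the key theorem for families of subspaces, for all large primes (helper10)

Ultraproduct of the families in the residue fields.
-/

set_option autoImplicit false

namespace MPadcGP

open MPadcCM MPadcGM

universe u v w

theorem fam_large {A : Type u} [CommRing A] {k : Type u} [Field k] [IsAlgClosed k] {j : A →+* k}
    (hj : Function.Injective j) {L : ℕ → Type u} [∀ p, Field (L p)] {φ : ∀ p, A →+* L p}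
    {B : A → ℕ} (hB : ResFields A L φ B) (X : PD.{u, w} A) [Finite X.T] (t₀ : X.T)
    {nab : Derivation ℤ k k → (X.β (X.sp t₀) → k) →+ (X.β (X.sp t₀) → k)} (hnab : IsConn nab) {m : ℕ}
    (D : Fin m → Derivation ℤ A A) (G : Fin m → X.β (X.sp t₀) → X.β (X.sp t₀) → A)
    (hDk : ∀ D' : Derivation ℤ k k, ∃ α : Fin m → k, (∀ x, D' (j x) = ∑ l, α l * j (D l x)) ∧
      ∀ a, nab D' (Pi.basisFun k _ a) = ∑ a', (∑ l, α l * j (G l a' a)) • Pi.basisFun k _ a')
    (F : Submodule k (X.β (X.sp t₀) → k)) (f : Fin (X.r t₀) → X.β (X.sp t₀) → A)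
    (hf : LinearIndependent k fun u => (fun a => j (f u a) : X.β (X.sp t₀) → k))
    (hF : F ≤ Submodule.span k (Set.range fun u => (fun a => j (f u a) : X.β (X.sp t₀) → k)))
    (hGP : ∀ P : ∀ t, Submodule k (X.β (X.sp t) → k), IsFam X j P →
      ∀ W : Submodule k ((X.β (X.sp t₀) → k) [⋀^Fin (X.r t₀)]→ₗ[k] k), IsHor nab W →
        (∃ ω ∈ W, ω ≠ 0 ∧ ∀ x, (∃ u, x u ∈ P t₀) → ω x = 0) →
          ∃ ω ∈ W, ∃ x, (∀ u, x u ∈ F) ∧ ω x ≠ 0) :
    ∃ p₀ : ℕ, ∀ p : ℕ, p.Prime → p₀ < p →
      ∀ δ : Fin m → Derivation ℤ (L p) (L p), (∀ l x, δ l (φ p x) = φ p (D l x)) →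
        ∀ P : ∀ t, Submodule (L p) (X.β (X.sp t) → L p), IsFam X (φ p) P →
          (∀ l, ∀ x ∈ P t₀, (fun a => δ l (x a) + ∑ a', φ p (G l a a') * x a') ∈ P t₀) →
            ∀ lam : Fin (X.r t₀) → L p, (∑ u, lam u • fun a => φ p (f u a)) ∈ P t₀ → lam = 0 := by
  classical
  by_contra hcon
  push Not at hcon
  choose p hpp hpi δ hδ P hP hst lam hlam hlam0 using fun i => hcon (i + B 0)
  have hbp : ∀ i, B 0 < p i := fun i => by have := hpi i; omega
  have hip : ∀ i, i < p i := fun i => by have := hpi i; omega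
  let U : Ultrafilter ℕ := Filter.hyperfilter ℕ
  let K : ℕ → Type u := fun i => L (p i)
  let ψ : ∀ i, A →+* K i := fun i => φ (p i)
  have hge : ∀ n : ℕ, ∀ᶠ i in (U : Filter ℕ), n ≤ i := by
    intro n
    apply Filter.hyperfilter_le_cofinite
    rw [Filter.mem_cofinite]
    refine (Set.finite_lt_nat n).subset ?_
    intro i hi
    simp only [Set.mem_compl_iff, Set.mem_ofPred_eq, not_le] at hi
    exact hi
  choose Δ hΔ using fun l => exists_ultD U K (fun i => δ i l)
  let ιh : A →+* Ult U K := (ultMk U K).comp (RingHom.pi ψ)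
  have hιh : ∀ x, ιh x = ultMk U K (fun i => ψ i x) := fun x => rfl
  choose c E hcE hker using fun i => (hP i).exists_rel
  have hnu : ∀ i l, ∃ ν : Fin (X.r t₀) → Fin (X.r t₀) → K i, ∀ v a,
      δ i l (c i t₀ v a) = ∑ a', ψ i (G l a' a) * c i t₀ v a' + ∑ v', ν v v' * c i t₀ v' a := by
    intro i l
    refine exists_nu (φ := ψ i) (δ i l) (G l) (c i t₀) (E i t₀) ((hcE i).h t₀) fun y hy => ?_
    rw [← hker i t₀] at hy ⊢
    exact hst i l y hy
  choose ν hν using hnu
  -- the ultraproduct of the families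
  have hrelU : IsRel X ιh (fun t v a => ultMk U K fun i => c i t v a)
      (fun t v a => ultMk U K fun i => E i t v a) := by
    have h1 : IsRel X (RingHom.pi ψ) (fun t v a i => c i t v a) (fun t v a i => E i t v a) :=
      IsRel.of_jinj (κ := ℕ) (R' := K) (fun i => Pi.evalRingHom K i)
        (fun y hy => funext fun i => hy i) fun i => hcE i
    exact h1.map (ultMk U K)
  have hιinj : Function.Injective ιh := by
    rw [injective_iff_map_eq_zero]
    intro x hx
    by_contra hx0
    rw [hιh, ultMk_eq_zero] at hx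
    obtain ⟨i, hi1, hi2⟩ := (hx.and (hge (B x))).exists
    exact hB.ne (p i) (hpp i) (hbp i) x hx0 (lt_of_le_of_lt hi2 (hip i)) hi1
  refine key_fam hj hιinj hrelU t₀ hnab D Δ ?_ G hDk ?_ F f hf hF hGP ?_
  · intro l y
    rw [hιh]
    refine (hΔ l fun i => ψ i y).trans ?_
    rw [hιh]
    exact congrArg _ (funext fun i => hδ i l y)
  · intro l
    refine ⟨fun v v' => ultMk U K fun i => ν i l v v', fun v a => ?_⟩
    refine (hΔ l fun i => c i t₀ v a).trans ?_
    have h1 : (fun i => δ i l (c i t₀ v a)) = ∑ a', (fun i => ψ i (G l a' a)) * (fun i => c i t₀ v a') +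
        ∑ v', (fun i => ν i l v v') * (fun i => c i t₀ v' a) := by
      funext i
      rw [hν i l v a, Pi.add_apply, Finset.sum_apply, Finset.sum_apply]
      rfl
    rw [h1, map_add, map_sum, map_sum]
    refine congrArg₂ (· + ·) ?_ ?_
    · refine Finset.sum_congr rfl fun a' _ => ?_
      rw [map_mul, hιh]
    · refine Finset.sum_congr rfl fun v' _ => ?_
      rw [map_mul]
  · -- the determinant vanishes
    have h1 : (Matrix.of fun v u => ∑ a, ιh (f u a) * ultMk U K fun i => c i t₀ v a) =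
        (ultMk U K).mapMatrix (Matrix.of fun (v u : Fin (X.r t₀)) (i : ℕ) =>
          ∑ a, ψ i (f u a) * c i t₀ v a) := by
      ext v u
      rw [Matrix.of_apply, RingHom.mapMatrix_apply, Matrix.map_apply, Matrix.of_apply]
      have h2 : (fun i => ∑ a, ψ i (f u a) * c i t₀ v a) =
          ∑ a, (fun i => ψ i (f u a)) * (fun i => c i t₀ v a) := by
        funext i
        rw [Finset.sum_apply]
        rfl
      rw [h2, map_sum]
      exact Finset.sum_congr rfl fun a _ => by rw [map_mul, hιh]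
    rw [h1, ← RingHom.map_det]
    have h2 : (Matrix.of fun (v u : Fin (X.r t₀)) (i : ℕ) =>
        (∑ a, ψ i (f u a) * c i t₀ v a : K i)).det = 0 := by
      funext i
      have h3 := (Pi.evalRingHom K i).map_det
        (Matrix.of fun (v u : Fin (X.r t₀)) (i : ℕ) => (∑ a, ψ i (f u a) * c i t₀ v a : K i))
      rw [Pi.evalRingHom_apply] at h3
      rw [h3, Pi.zero_apply]
      by_contra hdet
      apply hlam0 i
      refine Matrix.eq_zero_of_mulVec_eq_zero hdet ?_
      funext v
      have h5 := hlam i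
      rw [hker i t₀] at h5
      have h6 := h5 v
      rw [dot_sum] at h6
      rw [Pi.zero_apply, ← h6]
      change ∑ u, (∑ a, ψ i (f u a) * c i t₀ v a) * lam i u = _
      refine Finset.sum_congr rfl fun u _ => ?_
      rw [mul_comm]
      congr 1
      exact Finset.sum_congr rfl fun a _ => mul_comm _ _
    rw [h2, map_zero]

end MPadcGP
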